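import Pool.Agent.T9h26.TD.Zc

set_option autoImplicit false

/-! Voids and clusters in a block: super-exponential bounds. -/

open Complex Filter Topology Set MeasureTheory

namespace Pool.Agent.T9h26.TD

open TC (ordz ordT mu EFD)
open SG (ord NZ zmult ZS)
open W200.HW (Ix mem_Ix)
open Pool.Agent.Y747 (al)

/-- the choice of the number of factors -/
lemma asy {η A : ℝ} (hη : 0 < η) (hη1 : η ≤ 1 / 8) (hA : 0 ≤ A) : ∃ Y0 : ℝ, 1 ≤ Y0 ∧
    ∀ y : ℝ, Y0 ≤ y → 2 ≤ ⌊y / (1 + η)⌋₊ ∧ (1 + η) * (⌊y / (1 + η)⌋₊ : ℝ) ≤ y ∧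
      (1 - 2 * η) * y ≤ (⌊y / (1 + η)⌋₊ : ℝ) - 1 ∧
      (1 - 8 * η) * (y * Real.log y) + 1 ≤
        ((⌊y / (1 + η)⌋₊ : ℝ) - 1) * (Real.log (⌊y / (1 + η)⌋₊ : ℝ) - A) := by
  refine ⟨max (4 / η) (Real.exp ((1 + A) / η)), ?_, fun y hy => ?_⟩
  · refine le_max_of_le_left ?_
    rw [le_div_iff₀ hη]
    linarith
  have h1 : 4 / η ≤ y := (le_max_left _ _).trans hy
  have h2 : Real.exp ((1 + A) / η) ≤ y := (le_max_right _ _).trans hy
  have hy0 : 0 < y := lt_of_lt_of_le (Real.exp_pos _) h2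
  have h3 : (1 + A) / η ≤ Real.log y := by
    rw [Real.le_log_iff_exp_le hy0]
    exact h2
  have h4 : 4 ≤ y * η := by rwa [div_le_iff₀ hη] at h1
  set k := ⌊y / (1 + η)⌋₊ with hk
  have h5 : (k : ℝ) ≤ y / (1 + η) := Nat.floor_le (by positivity)
  have h6 : y / (1 + η) < k + 1 := Nat.lt_floor_add_one _
  have h7 : (1 - η) * y ≤ y / (1 + η) := by
    rw [le_div_iff₀ (by linarith)]
    nlinarith [mul_pos hη hy0, mul_pos hη (mul_pos hη hy0)]
  have h8 : (1 - 2 * η) * y ≤ (k : ℝ) - 1 := by nlinarith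
  have h8' : 2 ≤ y / 2 := by nlinarith
  have h9 : (2 : ℝ) ≤ k := by nlinarith
  refine ⟨by exact_mod_cast h9, ?_, h8, ?_⟩
  · rw [le_div_iff₀ (by linarith)] at h5
    linarith
  have hlog1 : 8 ≤ Real.log y := by
    refine le_trans ?_ h3
    rw [le_div_iff₀ hη]
    linarith
  have h10 : Real.log y - 1 ≤ Real.log k := by
    have h11 : y / 2 ≤ k := by nlinarith
    have h12 : Real.log (y / 2) ≤ Real.log k := Real.log_le_log (by positivity) h11
    rw [Real.log_div hy0.ne' (by norm_num)] at h12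
    have := Real.log_two_lt_d9
    linarith
  have h13 : (1 + A) ≤ η * Real.log y := by
    rw [div_le_iff₀ hη] at h3
    linarith
  have h14 : (1 - η) * Real.log y ≤ Real.log k - A := by nlinarith
  have h15 : 0 ≤ (1 - η) * Real.log y := by
    apply mul_nonneg <;> linarith
  have h16 : 0 ≤ (1 - 2 * η) * y := by
    apply mul_nonneg <;> linarith
  have h17 : (1 - 2 * η) * y * ((1 - η) * Real.log y) ≤ ((k : ℝ) - 1) * (Real.log k - A) :=
    mul_le_mul h8 h14 h15 (h16.trans h8)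
  have h18 : 1 ≤ 5 * η * (y * Real.log y) := by
    have : 4 * 8 ≤ (y * η) * Real.log y := mul_le_mul h4 hlog1 (by norm_num) (by positivity)
    nlinarith
  have h19 : (1 - 8 * η) * (y * Real.log y) + 5 * η * (y * Real.log y) ≤
      (1 - 2 * η) * y * ((1 - η) * Real.log y) := by
    have h20 : 0 ≤ η ^ 2 * (y * Real.log y) := by positivity
    nlinarith
  linarith

/-- the moment bound -/
lemma expo {k : ℕ} (hk : 2 ≤ k) {v D : ℝ} (hv : 0 < v) (hv2 : v ≤ (1 / (k : ℝ)) ^ 2 * 2 ^ 2)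
    (hD : 0 < D) {Q : ℝ} (hQ : Q + 1 ≤ ((k : ℝ) - 1) * (Real.log k - Real.log (4 / D ^ 2))) :
    ((k - 1).factorial : ℝ) * v ^ (k - 1) / D ^ (2 * (k - 1)) < 1 / 2 * Real.exp (-Q) := by
  have hk0 : (0 : ℝ) < k := by exact_mod_cast (by omega : 0 < k)
  have hk1 : ((k - 1 : ℕ) : ℝ) = (k : ℝ) - 1 := by
    rw [Nat.cast_sub (by omega)]
    simp
  have h1 : ((k - 1).factorial : ℝ) ≤ (k : ℝ) ^ (k - 1) := by
    have h2 : (k - 1).factorial ≤ (k - 1) ^ (k - 1) := Nat.factorial_le_pow _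
    have h3 : (k - 1) ^ (k - 1) ≤ k ^ (k - 1) := Nat.pow_le_pow_left (by omega) _
    exact_mod_cast h2.trans h3
  have h2 : ((k - 1).factorial : ℝ) * v ^ (k - 1) / D ^ (2 * (k - 1)) ≤
      (4 / D ^ 2 / k) ^ (k - 1) := by
    have h3 : (4 / D ^ 2 / k) ^ (k - 1) = (k : ℝ) ^ (k - 1) *
        ((1 / (k : ℝ)) ^ 2 * 2 ^ 2) ^ (k - 1) / D ^ (2 * (k - 1)) := by
      rw [← mul_pow, pow_mul, ← div_pow]
      congr 1
      field_simp
      norm_num
    rw [h3]
    gcongr
  refine lt_of_le_of_lt h2 ?_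
  have h4 : (4 / D ^ 2 / k) ^ (k - 1) =
      Real.exp (-(((k : ℝ) - 1) * (Real.log k - Real.log (4 / D ^ 2)))) := by
    rw [← hk1, ← Real.rpow_natCast, Real.rpow_def_of_pos (by positivity),
      Real.log_div (by positivity) hk0.ne']
    congr 1
    ring
  rw [h4]
  have h5 : Real.exp (-(((k : ℝ) - 1) * (Real.log k - Real.log (4 / D ^ 2)))) ≤
      Real.exp (-Q) * Real.exp (-1) := by
    rw [← Real.exp_add]
    apply Real.exp_le_exp.2
    linarith
  refine lt_of_le_of_lt h5 ?_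
  have h6 : Real.exp (-1) < 1 / 2 := by
    rw [Real.exp_neg, inv_eq_one_div, div_lt_div_iff₀ (Real.exp_pos _) (by norm_num)]
    have := Real.exp_one_gt_d9
    linarith
  nlinarith [Real.exp_pos (-Q)]

/-- **voids in a block** -/
theorem blockV (RH : RiemannHypothesis) {C : ℝ} (hC : 0 < C) {ε : ℝ} (hε : 0 < ε)
    (hε1 : ε ≤ 1) : ∃ K : ℝ, 1 ≤ K ∧ ∀ (r : ℕ) (y : ℝ), K * (r + 1) ≤ y →
      ∃ T1 : ℝ, 10 ≤ T1 ∧ ∀ T : ℝ, T1 ≤ T → ∀ U1 U2 : ℝ, 1 ≤ U1 → EFD C T (ordz U1 U2) mu →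
      ms T {t | cO U1 U2 t (Real.pi * y / Real.log T) ≤ r} ≤
        Real.exp (-((1 - ε) * (y * Real.log y))) * T := by
  have hpi := Real.pi_pos
  set η := ε / 8 with hη
  have hη0 : 0 < η := by positivity
  have hη1 : η ≤ 1 / 8 := by rw [hη]; linarith
  have hηε : 8 * η = ε := by rw [hη]; ring
  set u0 := (1 + η) / 2 with hu0
  have hu01 : 1 / 2 < u0 := by rw [hu0]; linarith
  have hu02 : u0 ≤ 1 := by rw [hu0]; linarith
  set D := (u0 ^ 2 - 1 / 4) / 4 with hD
  have hD0 : 0 < D := by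
    have : 0 < u0 ^ 2 - 1 / 4 := by nlinarith
    rw [hD]
    linarith
  have hD1 : D ≤ 1 := by
    rw [hD]
    nlinarith
  have hA : 0 ≤ Real.log (4 / D ^ 2) := by
    apply Real.log_nonneg
    rw [le_div_iff₀ (by positivity)]
    nlinarith
  obtain ⟨Y0, hY0, hasy⟩ := asy hη0 hη1 hA
  refine ⟨max Y0 (8 / D), hY0.trans (le_max_left _ _), fun r y hy => ?_⟩
  have hr0 : (0 : ℝ) ≤ r := Nat.cast_nonneg r
  have hK1 : 1 ≤ max Y0 (8 / D) := hY0.trans (le_max_left _ _)
  have hyY : Y0 ≤ y := by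
    have : Y0 * 1 ≤ max Y0 (8 / D) * (r + 1) :=
      mul_le_mul (le_max_left _ _) (by linarith) zero_le_one (by linarith)
    linarith
  have hyD : 8 / D * (r + 1) ≤ y := by
    refine le_trans ?_ hy
    exact mul_le_mul_of_nonneg_right (le_max_right _ _) (by linarith)
  obtain ⟨hk2, hk3, hk4, hk5⟩ := hasy y hyY
  rw [hηε] at hk5
  have hy1 : 1 ≤ y := hY0.trans hyY
  set k := ⌊y / (1 + η)⌋₊ with hk
  have hk0 : (0 : ℝ) < k := by exact_mod_cast (by omega : 0 < k)
  set b := 1 / (k : ℝ) with hb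
  have hb0 : 0 < b := by positivity
  have hb1 : b ≤ 1 / 2 := by
    rw [hb]
    apply one_div_le_one_div_of_le (by norm_num)
    exact_mod_cast hk2
  set w := sc (Gv u0) b with hw
  obtain ⟨K', hWt⟩ := sc_wt (Gv_contDiff u0) (Gv_one u0) hb0 hb1
  have hG0 : Gv u0 0 ≠ 0 := by
    rw [Gv_zero]
    have : 0 < u0 ^ 2 - 1 / 4 := by nlinarith
    exact this.ne'
  obtain ⟨hv0, hv1⟩ := var_bounds (Gv_cont u0) (Gv_one u0) hG0 hb0 hb1
    (fun s h0 h1 => Gv_abs hu01 hu02 h0 h1)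
  have hJb : (((k - 1 : ℕ)) : ℝ) * b < 1 := by
    rw [Nat.cast_sub (by omega), hb]
    rw [mul_one_div, div_lt_one hk0]
    push_cast
    linarith
  have hC2 := coef_al hWt hJb
  set Q := (1 - ε) * (y * Real.log y) with hQ
  have hexp := expo hk2 hv0 hv1 hD0 hk5
  have hub := ub hv0 hC2 hD0 hexp
  set η2 := min (D / 2) (1 / 2 * Real.exp (-Q)) with hη2
  have hη20 : 0 < η2 := lt_min (by positivity) (by positivity)
  obtain ⟨T1, hT1, hef⟩ := ef_ms hWt hC hη20
  obtain ⟨T2, hT2⟩ := eventually_atTop.1 hub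
  refine ⟨max T1 T2, hT1.trans (le_max_left _ _), fun T hT U1 U2 hU hE => ?_⟩
  have hTT1 : T1 ≤ T := (le_max_left _ _).trans hT
  have hT10 : 10 ≤ T := hT1.trans hTT1
  have hT0 : 0 < T := by linarith
  have hL : 0 < Real.log T := Real.log_pos (by linarith)
  have h1 := hef T hTT1 _ _ hE
  have h2 := hT2 T ((le_max_right _ _).trans hT)
  have h3 : ms T {t | cO U1 U2 t (Real.pi * y / Real.log T) ≤ r} ≤
      ms T {t | η2 < |SX (ordz U1 U2) mu w (Real.log T) t - (w 0 / 2 - (PW w b T t).re)|} +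
      ms T {t | D ≤ ‖PP (al w (Real.log T)) (XT b T) t‖} := by
    apply ms_union_of
    intro t _ _ ht
    by_cases h4 : η2 < |SX (ordz U1 U2) mu w (Real.log T) t - (w 0 / 2 - (PW w b T t).re)|
    · left; exact h4
    · right
      rw [not_lt] at h4
      have h5 : (cO U1 U2 t (Real.pi * y / Real.log T) : ℝ) ≤ r := by exact_mod_cast ht
      have h6 := SX_le RH (U2 := U2) hU (w := w) (L := Real.log T) (x0 := 2 * Real.pi * u0 / b)
        (ρ := Real.pi * y / Real.log T) (B := 2 * b) hL (by positivity)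
        (fun x => (le_abs_self _).trans (ph_void_abs hu01 hu02 hb0 hb1 x))
        (fun x hx => ph_void_le hu01 hb0 hb1 (by
          rw [div_le_iff₀ hb0] at hx
          linarith)) (by
          rw [mul_div_cancel₀ _ hL.ne', hb, div_div_eq_mul_div, div_one, hu0]
          have := mul_le_mul_of_nonneg_left hk3 hpi.le
          linarith) t
      have h7 : SX (ordz U1 U2) mu w (Real.log T) t ≤ D / 2 := by
        refine h6.trans ?_
        have h8 : (cO U1 U2 t (Real.pi * y / Real.log T) : ℝ) * (2 * b) ≤ r * (2 * b) :=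
          mul_le_mul_of_nonneg_right h5 (by positivity)
        refine h8.trans ?_
        have h9 : y / 2 ≤ k := by nlinarith
        rw [hb]
        rw [div_mul_eq_mul_div, div_le_iff₀ hD0] at hyD
        rw [← mul_assoc, mul_one_div, div_le_iff₀ hk0]
        nlinarith
      have hw0 : w 0 = 4 * D := by
        rw [hw, sc_zero, Gv_zero, hD]; ring
      rw [hw0, abs_le] at h4
      have h10 : η2 ≤ D / 2 := min_le_left _ _
      have h11 : D ≤ (PW w b T t).re := by linarith [h4.1]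
      have h12 : (PW w b T t).re ≤ ‖PW w b T t‖ := Complex.re_le_norm _
      exact h11.trans h12
  have h13 : η2 ≤ 1 / 2 * Real.exp (-Q) := min_le_right _ _
  calc _ ≤ η2 * T + 1 / 2 * Real.exp (-Q) * T := h3.trans (add_le_add h1 h2)
    _ ≤ 1 / 2 * Real.exp (-Q) * T + 1 / 2 * Real.exp (-Q) * T := by gcongr
    _ = _ := by ring

/-! ### clusters -/

/-- the triangle -/
noncomputable def Gt (s : ℝ) : ℝ := 1 - s

lemma Gt_contDiff : ContDiff ℝ 1 Gt := by
  unfold Gt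
  fun_prop

lemma Gt_one : Gt 1 = 0 := by unfold Gt; norm_num

lemma Gt_zero : Gt 0 = 1 := by unfold Gt; norm_num

lemma Gt_abs {s : ℝ} (h0 : 0 ≤ s) (h1 : s ≤ 1) : |Gt s| ≤ 2 := by
  unfold Gt
  rw [abs_le]
  constructor <;> linarith

lemma ph_tri_nonneg {b : ℝ} (hb : 0 < b) (hb1 : b ≤ 1 / 2) (x : ℝ) : 0 ≤ ph (sc Gt b) x := by
  rw [ph_sc Gt_contDiff.continuous Gt_one hb hb1]
  apply mul_nonneg hb.le
  unfold Gt
  rcases eq_or_ne (b * x) 0 with h | h
  · rw [h]
    apply intervalIntegral.integral_nonneg zero_le_one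
    intro s hs
    rw [mul_zero, Real.cos_zero, mul_one]
    linarith [hs.2]
  · have := int_tri h
    have e : ∀ s : ℝ, (1 - s) * Real.cos (s * (b * x)) = (1 - s) * Real.cos (b * x * s) := by
      intro s
      congr 2
      ring
    simp_rw [e]
    rw [this]
    apply div_nonneg _ (sq_nonneg _)
    linarith [Real.cos_le_one (b * x)]

lemma ph_tri_ge {b : ℝ} (hb : 0 < b) (hb1 : b ≤ 1 / 2) {x0 x : ℝ} (hx : |x| ≤ x0) :
    b * (1 / 2 - (b * x0) ^ 2 / 24) ≤ ph (sc Gt b) x := by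
  rw [ph_sc Gt_contDiff.continuous Gt_one hb hb1]
  apply mul_le_mul_of_nonneg_left _ hb.le
  have h1 : ∫ s in (0 : ℝ)..1, (1 - s) * (1 - s ^ 2 * (b * x0) ^ 2 / 2) ≤
      ∫ s in (0 : ℝ)..1, Gt s * Real.cos (s * (b * x)) := by
    apply intervalIntegral.integral_mono_on zero_le_one
      ((by fun_prop : Continuous fun s : ℝ =>
        (1 - s) * (1 - s ^ 2 * (b * x0) ^ 2 / 2)).intervalIntegrable _ _)
      ((by unfold Gt; fun_prop : Continuous fun s : ℝ =>
        Gt s * Real.cos (s * (b * x))).intervalIntegrable _ _)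
    intro s hs
    unfold Gt
    apply mul_le_mul_of_nonneg_left _ (by linarith [hs.2])
    have h2 := Real.one_sub_sq_div_two_le_cos (x := s * (b * x))
    have h3 : (s * (b * x)) ^ 2 ≤ s ^ 2 * (b * x0) ^ 2 := by
      rw [mul_pow]
      apply mul_le_mul_of_nonneg_left _ (sq_nonneg _)
      rw [mul_pow, mul_pow]
      apply mul_le_mul_of_nonneg_left _ (sq_nonneg _)
      rw [← sq_abs]
      exact pow_le_pow_left₀ (abs_nonneg _) hx 2
    linarith
  refine le_trans (le_of_eq ?_) h1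
  have h2 : ∀ s : ℝ, (1 - s) * (1 - s ^ 2 * (b * x0) ^ 2 / 2) =
      1 - s - (b * x0) ^ 2 / 2 * s ^ 2 + (b * x0) ^ 2 / 2 * s ^ 3 := by intro s; ring
  simp_rw [h2]
  have h : ∀ s : ℝ, HasDerivAt (fun s : ℝ => s - s ^ 2 / 2 - (b * x0) ^ 2 / 2 * (s ^ 3 / 3) +
      (b * x0) ^ 2 / 2 * (s ^ 4 / 4)) (1 - s - (b * x0) ^ 2 / 2 * s ^ 2 +
      (b * x0) ^ 2 / 2 * s ^ 3) s := by
    intro s
    have d1 := hasDerivAt_id s
    have d2 := (hasDerivAt_pow 2 s).div_const 2
    have d3 := ((hasDerivAt_pow 3 s).div_const 3).const_mul ((b * x0) ^ 2 / 2)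
    have d4 := ((hasDerivAt_pow 4 s).div_const 4).const_mul ((b * x0) ^ 2 / 2)
    refine (((d1.sub d2).sub d3).add d4).congr_deriv ?_
    norm_num
  rw [intervalIntegral.integral_eq_sub_of_hasDerivAt (fun s _ => h s)
    ((by fun_prop : Continuous fun s : ℝ => 1 - s - (b * x0) ^ 2 / 2 * s ^ 2 +
      (b * x0) ^ 2 / 2 * s ^ 3).intervalIntegrable _ _)]
  ring

/-- **clusters in a block** -/
theorem blockC (RH : RiemannHypothesis) {C : ℝ} (hC : 0 < C) {ε : ℝ} (hε : 0 < ε)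
    (hε1 : ε ≤ 1) : ∃ K : ℝ, 1 ≤ K ∧ ∀ (κ : ℝ) (M : ℕ), 0 < κ → K * (κ + 1) ≤ M →
      ∃ T1 : ℝ, 10 ≤ T1 ∧ ∀ T : ℝ, T1 ≤ T → ∀ U1 U2 : ℝ, 1 ≤ U1 → EFD C T (ordz U1 U2) mu →
      ms T {t | M ≤ cC U1 U2 t (Real.pi * κ / Real.log T)} ≤
        Real.exp (-((1 - ε) * (M * Real.log M))) * T := by
  have hpi := Real.pi_pos
  have hpi4 := Real.pi_le_four
  set η := ε / 8 with hη
  have hη0 : 0 < η := by positivity
  have hη1 : η ≤ 1 / 8 := by rw [hη]; linarith
  have hηε : 8 * η = ε := by rw [hη]; ring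
  set D := η / 8 with hD
  have hD0 : 0 < D := by positivity
  have hD1 : D ≤ 1 := by rw [hD]; linarith
  have hA : 0 ≤ Real.log (4 / D ^ 2) := by
    apply Real.log_nonneg
    rw [le_div_iff₀ (by positivity)]
    nlinarith
  obtain ⟨Y0, hY0, hasy⟩ := asy hη0 hη1 hA
  refine ⟨max Y0 (16 / η), hY0.trans (le_max_left _ _), fun κ M hκ hM => ?_⟩
  have hK1 : 1 ≤ max Y0 (16 / η) := hY0.trans (le_max_left _ _)
  have hMY : Y0 ≤ M := by
    have : Y0 * 1 ≤ max Y0 (16 / η) * (κ + 1) :=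
      mul_le_mul (le_max_left _ _) (by linarith) zero_le_one (by linarith)
    linarith
  have hMD : 16 / η * (κ + 1) ≤ M := by
    refine le_trans ?_ hM
    exact mul_le_mul_of_nonneg_right (le_max_right _ _) (by linarith)
  obtain ⟨hk2, hk3, hk4, hk5⟩ := hasy M hMY
  rw [hηε] at hk5
  have hM1 : (1 : ℝ) ≤ M := hY0.trans hMY
  set k := ⌊(M : ℝ) / (1 + η)⌋₊ with hk
  have hk0 : (0 : ℝ) < k := by exact_mod_cast (by omega : 0 < k)
  set b := 1 / (k : ℝ) with hb
  have hb0 : 0 < b := by positivity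
  have hb1 : b ≤ 1 / 2 := by
    rw [hb]
    apply one_div_le_one_div_of_le (by norm_num)
    exact_mod_cast hk2
  set w := sc Gt b with hw
  obtain ⟨K', hWt⟩ := sc_wt Gt_contDiff Gt_one hb0 hb1
  have hG0 : Gt 0 ≠ 0 := by rw [Gt_zero]; exact one_ne_zero
  obtain ⟨hv0, hv1⟩ := var_bounds Gt_contDiff.continuous Gt_one hG0 hb0 hb1
    (fun s h0 h1 => Gt_abs h0 h1)
  have hJb : (((k - 1 : ℕ)) : ℝ) * b < 1 := by
    rw [Nat.cast_sub (by omega), hb]
    rw [mul_one_div, div_lt_one hk0]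
    push_cast
    linarith
  have hC2 := coef_al hWt hJb
  set Q := (1 - ε) * ((M : ℝ) * Real.log M) with hQ
  have hexp := expo hk2 hv0 hv1 hD0 hk5
  have hub := ub hv0 hC2 hD0 hexp
  set η2 := min (η / 8) (1 / 2 * Real.exp (-Q)) with hη2
  have hη20 : 0 < η2 := lt_min (by positivity) (by positivity)
  obtain ⟨T1, hT1, hef⟩ := ef_ms hWt hC hη20
  obtain ⟨T2, hT2⟩ := eventually_atTop.1 hub
  -- the Gaussian factor
  have hgau : ∀ᶠ T : ℝ in atTop, 1 - η / 8 ≤ Real.exp (-(Real.pi * κ / Real.log T) ^ 2 / 2) := by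
    have h1 : Tendsto (fun T : ℝ => Real.exp (-(Real.pi * κ / Real.log T) ^ 2 / 2)) atTop
        (𝓝 (Real.exp (-(0 : ℝ) ^ 2 / 2))) := by
      apply (Real.continuous_exp.tendsto _).comp
      apply Tendsto.div_const
      apply Tendsto.neg
      apply Tendsto.pow
      exact tendsto_const_nhds.div_atTop Real.tendsto_log_atTop
    have h2 : Real.exp (-(0 : ℝ) ^ 2 / 2) = 1 := by norm_num
    rw [h2] at h1
    exact h1.eventually (le_mem_nhds (by linarith))
  obtain ⟨T3, hT3⟩ := eventually_atTop.1 hgau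
  refine ⟨max T1 (max T2 T3), hT1.trans (le_max_left _ _), fun T hT U1 U2 hU hE => ?_⟩
  have hTT1 : T1 ≤ T := (le_max_left _ _).trans hT
  have hT10 : 10 ≤ T := hT1.trans hTT1
  have hT0 : 0 < T := by linarith
  have hL : 0 < Real.log T := Real.log_pos (by linarith)
  have h1 := hef T hTT1 _ _ hE
  have h2 := hT2 T (((le_max_left _ _).trans (le_max_right _ _)).trans hT)
  have h2' := hT3 T (((le_max_right _ _).trans (le_max_right _ _)).trans hT)
  -- the value at the cluster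
  have hc0 : b * (1 / 2) * (1 - η / 8) ≤ b * (1 / 2 - (b * (Real.pi * κ)) ^ 2 / 24) := by
    rw [mul_assoc]
    apply mul_le_mul_of_nonneg_left _ hb0.le
    have h9 : (M : ℝ) / 2 ≤ k := by nlinarith
    rw [div_mul_eq_mul_div, div_le_iff₀ hη0] at hMD
    have h10 : 8 * κ ≤ η * k := by nlinarith
    have h11 : b * (Real.pi * κ) ≤ η / 2 := by
      rw [hb, one_div, inv_mul_le_iff₀ hk0]
      nlinarith
    have h12 : 0 ≤ b * (Real.pi * κ) := by positivity
    have h13 : (b * (Real.pi * κ)) ^ 2 ≤ (η / 2) ^ 2 := pow_le_pow_left₀ h12 h11 2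
    nlinarith
  have h3 : ms T {t | M ≤ cC U1 U2 t (Real.pi * κ / Real.log T)} ≤
      ms T {t | η2 < |SX (ordz U1 U2) mu w (Real.log T) t - (w 0 / 2 - (PW w b T t).re)|} +
      ms T {t | D ≤ ‖PP (al w (Real.log T)) (XT b T) t‖} := by
    apply ms_union_of
    intro t _ _ ht
    by_cases h4 : η2 < |SX (ordz U1 U2) mu w (Real.log T) t - (w 0 / 2 - (PW w b T t).re)|
    · left; exact h4
    · right
      rw [not_lt] at h4
      have h5 : (M : ℝ) ≤ cC U1 U2 t (Real.pi * κ / Real.log T) := by exact_mod_cast ht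
      have h6 := SX_ge RH (U2 := U2) hU (w := w) (L := Real.log T) (x0 := Real.pi * κ)
        (ρ := Real.pi * κ / Real.log T) (c := b * (1 / 2) * (1 - η / 8)) hL (by
          apply mul_nonneg (by positivity); linarith)
        (ph_tri_nonneg hb0 hb1) (fun x hx => hc0.trans (ph_tri_ge hb0 hb1 hx)) (by
          rw [mul_div_cancel₀ _ hL.ne']) t
      have h7 : 1 / 2 + η / 4 ≤ SX (ordz U1 U2) mu w (Real.log T) t := by
        refine le_trans ?_ h6
        set E := Real.exp (-(Real.pi * κ / Real.log T) ^ 2 / 2) with hEd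
        have h8 : (1 + η) / 2 * ((1 - η / 8) * (1 - η / 8)) ≤
            cC U1 U2 t (Real.pi * κ / Real.log T) * (b * (1 / 2) * (1 - η / 8) * E) := by
          have h9 : (1 + η) ≤ cC U1 U2 t (Real.pi * κ / Real.log T) * b := by
            rw [hb, mul_one_div, le_div_iff₀ hk0]
            linarith
          have h10 : (1 - η / 8) * (1 - η / 8) ≤ (1 - η / 8) * E :=
            mul_le_mul_of_nonneg_left h2' (by linarith)
          have h11 : 0 ≤ (1 - η / 8) * (1 - η / 8) := mul_self_nonneg _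
          calc (1 + η) / 2 * ((1 - η / 8) * (1 - η / 8)) ≤
              (cC U1 U2 t (Real.pi * κ / Real.log T) * b) / 2 * ((1 - η / 8) * E) := by
                apply mul_le_mul _ h10 h11
                · linarith
                · linarith
            _ = _ := by ring
        refine le_trans ?_ h8
        have h9 : 0 ≤ η * (1 / 8 - η) := mul_nonneg hη0.le (by linarith)
        have h10 : 0 ≤ η ^ 3 := by positivity
        nlinarith
      have hw0 : w 0 = 1 := by rw [hw, sc_zero, Gt_zero]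
      rw [hw0, abs_le] at h4
      have h10 : η2 ≤ η / 8 := min_le_left _ _
      have h11 : D ≤ -(PW w b T t).re := by
        rw [hD]
        linarith [h4.2]
      have h12 : -(PW w b T t).re ≤ ‖PW w b T t‖ :=
        (neg_le_abs _).trans (Complex.abs_re_le_norm _)
      exact h11.trans h12
  have h13 : η2 ≤ 1 / 2 * Real.exp (-Q) := min_le_right _ _
  calc _ ≤ η2 * T + 1 / 2 * Real.exp (-Q) * T := h3.trans (add_le_add h1 h2)
    _ ≤ 1 / 2 * Real.exp (-Q) * T + 1 / 2 * Real.exp (-Q) * T := by gcongr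
    _ = _ := by ring

end Pool.Agent.T9h26.TD
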