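import Pool.Agent.T9h26.TD.Tup
import Pool.Agent.Y840.SW.MVB

set_option autoImplicit false

/-! The limits of the mixed moments of a polynomial over the primes. -/

open Complex Filter Topology Set MeasureTheory

namespace Pool.Agent.T9h26.TD

/-- a polynomial over the primes -/
noncomputable def PP (a : ℕ → ℝ) (X : ℕ) (t : ℝ) : ℂ :=
  ∑ p ∈ Pr X, (a p : ℂ) * (p : ℂ) ^ (-(t : ℂ) * I)

lemma cpow_cont (n : ℕ) (hn : 1 ≤ n) : Continuous fun t : ℝ => (n : ℂ) ^ (-(t : ℂ) * I) := by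
  have h0 : (n : ℂ) ≠ 0 := by
    have : n ≠ 0 := by omega
    exact_mod_cast this
  have : ∀ t : ℝ, (n : ℂ) ^ (-(t : ℂ) * I) = cexp (Complex.log n * (-(t : ℂ) * I)) :=
    fun t => Complex.cpow_def_of_ne_zero h0 _
  simp_rw [this]
  fun_prop

lemma PP_cont (a : ℕ → ℝ) (X : ℕ) : Continuous (PP a X) := by
  unfold PP
  apply continuous_finsetSum
  intro p hp
  exact continuous_const.mul (cpow_cont p (mem_Pr.1 hp).1.one_le)

/-- the data of a family of polynomials over the primes with limit variance `v` -/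
structure Coef (a : ℝ → ℕ → ℝ) (X : ℝ → ℕ) (v : ℝ) (J : ℕ) : Prop where
  sq : Tendsto (fun T => ∑ p ∈ Pr (X T), (a T p) ^ 2) atTop (𝓝 v)
  mu : ∃ μ : ℝ → ℝ, Tendsto μ atTop (𝓝 0) ∧ ∀ᶠ T in atTop, ∀ p, a T p ^ 2 ≤ μ T
  one : ∀ T, 1 ≤ X T
  len : ∃ κ : ℝ, 0 < κ ∧ ∀ᶠ T : ℝ in atTop, ((X T : ℝ)) ^ J ≤ T ^ (1 - κ)

/-- the diagonal sum -/
noncomputable def DS (a : ℕ → ℝ) (X M i : ℕ) : ℝ := ∑ n ∈ Finset.Icc 1 M, cc a X i n ^ 2

lemma DS_lim {a : ℝ → ℕ → ℝ} {X : ℝ → ℕ} {v : ℝ} {J : ℕ} (hv : 0 < v) (hC : Coef a X v J)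
    {i : ℕ} (hi : i ≤ J) :
    Tendsto (fun T => DS (a T) (X T) (X T ^ J) i) atTop (𝓝 (i.factorial * v ^ i)) := by
  obtain ⟨μ, hμ, hμ2⟩ := hC.mu
  have h1 : Tendsto (fun T => (i.factorial : ℝ) * (∑ p ∈ Pr (X T), (a T p) ^ 2) ^ i) atTop
      (𝓝 (i.factorial * v ^ i)) := (hC.sq.pow i).const_mul _
  have h2 : Tendsto (fun T => (i.factorial : ℝ) * ((∑ p ∈ Pr (X T), (a T p) ^ 2) - i * μ T) ^ i)
      atTop (𝓝 (i.factorial * (v - i * 0) ^ i)) :=
    ((hC.sq.sub (hμ.const_mul _)).pow i).const_mul _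
  rw [mul_zero, sub_zero] at h2
  have hM : ∀ T, X T ^ i ≤ X T ^ J := fun T => Nat.pow_le_pow_right (hC.one T) hi
  have h3 : ∀ᶠ T in atTop, i * μ T ≤ ∑ p ∈ Pr (X T), (a T p) ^ 2 := by
    have h4 : Tendsto (fun T => (∑ p ∈ Pr (X T), (a T p) ^ 2) - i * μ T) atTop
        (𝓝 (v - i * 0)) := hC.sq.sub (hμ.const_mul _)
    rw [mul_zero, sub_zero] at h4
    filter_upwards [h4.eventually (lt_mem_nhds hv)] with T hT
    linarith
  refine tendsto_of_tendsto_of_tendsto_of_le_of_le' h2 h1 ?_ ?_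
  · filter_upwards [hμ2, h3] with T h4 h5
    exact diag_ge (a T) (X T) i _ (hM T) h4 h5
  · exact Eventually.of_forall fun T => diag_le (a T) (X T) i _ (hM T)

/-- **the mixed moments** -/
theorem mom {a : ℝ → ℕ → ℝ} {X : ℝ → ℕ} {v : ℝ} {J : ℕ} (hv : 0 < v) (hC : Coef a X v J)
    {i i' : ℕ} (hi : i ≤ J) (hi' : i' ≤ J) :
    Tendsto (fun T : ℝ => (1 / (T : ℂ)) * ∫ t in T..(2 * T), PP (a T) (X T) t ^ i *
      (starRingEnd ℂ) (PP (a T) (X T) t ^ i')) atTop
      (𝓝 (if i = i' then ((i.factorial * v ^ i : ℝ) : ℂ) else 0)) := by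
  obtain ⟨κ, hκ, hlen⟩ := hC.len
  set M : ℝ → ℕ := fun T => X T ^ J with hM
  have hMi : ∀ T, X T ^ i ≤ M T := fun T => Nat.pow_le_pow_right (hC.one T) hi
  have hMi' : ∀ T, X T ^ i' ≤ M T := fun T => Nat.pow_le_pow_right (hC.one T) hi'
  set Sd : ℝ → ℂ := fun T => ∑ n ∈ Finset.Icc 1 (M T), (cc (a T) (X T) i n : ℂ) *
    (starRingEnd ℂ) (cc (a T) (X T) i' n : ℂ) with hSd
  -- the diagonal
  have hdiag : Tendsto Sd atTop (𝓝 (if i = i' then ((i.factorial * v ^ i : ℝ) : ℂ) else 0)) := by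
    by_cases h : i = i'
    · subst h
      rw [if_pos rfl]
      have h1 : ∀ T, Sd T = ((DS (a T) (X T) (X T ^ J) i : ℝ) : ℂ) := by
        intro T
        simp only [hSd, DS, hM]
        push_cast
        apply Finset.sum_congr rfl
        intro n _
        rw [Complex.conj_ofReal]
        ring
      refine Tendsto.congr (fun T => (h1 T).symm) ?_
      exact (Complex.continuous_ofReal.tendsto _).comp (DS_lim hv hC hi)
    · rw [if_neg h]
      have h1 : ∀ T, Sd T = 0 := by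
        intro T
        simp only [hSd]
        apply Finset.sum_eq_zero
        intro n _
        rw [Complex.conj_ofReal, ← Complex.ofReal_mul, cross (a T) (X T) i i' n h,
          Complex.ofReal_zero]
      exact Tendsto.congr (fun T => (h1 T).symm) tendsto_const_nhds
  -- the error
  have herr : Tendsto (fun T : ℝ => (1 / (T : ℂ)) * (∫ t in T..(2 * T), PP (a T) (X T) t ^ i *
      (starRingEnd ℂ) (PP (a T) (X T) t ^ i')) - Sd T) atTop (𝓝 0) := by
    have hb : Tendsto (fun T : ℝ => 8 * (T ^ (-κ) * (1 + Real.log T)) *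
        (Real.sqrt (DS (a T) (X T) (X T ^ J) i) * Real.sqrt (DS (a T) (X T) (X T ^ J) i')))
        atTop (𝓝 (8 * 0 * (Real.sqrt (i.factorial * v ^ i) * Real.sqrt (i'.factorial * v ^ i')))) := by
      apply Tendsto.mul
      · apply Tendsto.const_mul
        have h1 : Tendsto (fun T : ℝ => T ^ (-κ)) atTop (𝓝 0) := tendsto_rpow_neg_atTop hκ
        have h2 : Tendsto (fun T : ℝ => T ^ (-κ) * Real.log T) atTop (𝓝 0) := by
          have h3 := (isLittleO_log_rpow_atTop hκ).tendsto_div_nhds_zero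
          refine h3.congr' ?_
          filter_upwards [eventually_gt_atTop 0] with T hT
          rw [Real.rpow_neg hT.le]
          field_simp
        have h3 := h1.add h2
        rw [add_zero] at h3
        refine h3.congr fun T => ?_
        ring
      · exact ((Real.continuous_sqrt.tendsto _).comp (DS_lim hv hC hi)).mul
          ((Real.continuous_sqrt.tendsto _).comp (DS_lim hv hC hi'))
    rw [mul_zero, zero_mul] at hb
    refine squeeze_zero_norm' ?_ hb
    filter_upwards [hlen, eventually_ge_atTop 1] with T h1 h2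
    have hT0 : 0 < T := by linarith
    have hMT : (M T : ℝ) ≤ T ^ (1 - κ) := by
      simp only [hM]
      push_cast
      exact h1
    have hM1 : (1 : ℝ) ≤ M T := by
      simp only [hM]
      exact_mod_cast Nat.one_le_pow _ _ (hC.one T)
    have hmv := Pool.Agent.Y840.SW.t_MVB (M T) T (2 * T) (by linarith)
      (fun n => (cc (a T) (X T) i n : ℂ)) (fun n => (cc (a T) (X T) i' n : ℂ))
    have e1 : ∀ t : ℝ, PP (a T) (X T) t ^ i * (starRingEnd ℂ) (PP (a T) (X T) t ^ i') =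
        (∑ n ∈ Finset.Icc 1 (M T), (cc (a T) (X T) i n : ℂ) * (n : ℂ) ^ (-(t : ℂ) * I)) *
        (starRingEnd ℂ) (∑ n ∈ Finset.Icc 1 (M T), (cc (a T) (X T) i' n : ℂ) *
          (n : ℂ) ^ (-(t : ℂ) * I)) := by
      intro t
      unfold PP
      rw [pow_eq (a T) (X T) i (M T) (hMi T), pow_eq (a T) (X T) i' (M T) (hMi' T)]
    simp_rw [e1]
    have e2 : (1 / (T : ℂ)) * (∫ t in T..(2 * T), (∑ n ∈ Finset.Icc 1 (M T),
        (cc (a T) (X T) i n : ℂ) * (n : ℂ) ^ (-(t : ℂ) * I)) *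
        (starRingEnd ℂ) (∑ n ∈ Finset.Icc 1 (M T), (cc (a T) (X T) i' n : ℂ) *
          (n : ℂ) ^ (-(t : ℂ) * I))) - Sd T =
        (1 / (T : ℂ)) * ((∫ t in T..(2 * T), (∑ n ∈ Finset.Icc 1 (M T),
        (cc (a T) (X T) i n : ℂ) * (n : ℂ) ^ (-(t : ℂ) * I)) *
        (starRingEnd ℂ) (∑ n ∈ Finset.Icc 1 (M T), (cc (a T) (X T) i' n : ℂ) *
          (n : ℂ) ^ (-(t : ℂ) * I))) - ((2 * T - T : ℝ) : ℂ) * Sd T) := by
      have hTc : (T : ℂ) ≠ 0 := by exact_mod_cast hT0.ne'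
      have : ((2 * T - T : ℝ) : ℂ) = (T : ℂ) := by push_cast; ring
      rw [this, mul_sub, ← mul_assoc (1 / (T : ℂ)) (T : ℂ), one_div_mul_cancel hTc, one_mul]
    rw [e2, norm_mul]
    have e3 : ‖(1 / (T : ℂ))‖ = 1 / T := by
      rw [norm_div, norm_one, Complex.norm_real, Real.norm_of_nonneg hT0.le]
    rw [e3]
    have e4 : ∀ j, ∑ n ∈ Finset.Icc 1 (M T), ‖(cc (a T) (X T) j n : ℂ)‖ ^ 2 =
        DS (a T) (X T) (X T ^ J) j := by
      intro j
      unfold DS
      apply Finset.sum_congr rfl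
      intro n _
      rw [Complex.norm_real, Real.norm_eq_abs, sq_abs]
    rw [e4, e4] at hmv
    have hlog : Real.log (M T) ≤ Real.log T := by
      apply Real.log_le_log (by linarith)
      refine hMT.trans ?_
      conv_rhs => rw [← Real.rpow_one T]
      exact Real.rpow_le_rpow_of_exponent_le h2 (by linarith)
    have hlM : 0 ≤ Real.log (M T) := Real.log_nonneg hM1
    calc 1 / T * _ ≤ 1 / T * (8 * (M T) * (1 + Real.log (M T)) *
        (Real.sqrt (DS (a T) (X T) (X T ^ J) i) * Real.sqrt (DS (a T) (X T) (X T ^ J) i'))) :=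
          mul_le_mul_of_nonneg_left hmv (by positivity)
      _ ≤ 1 / T * (8 * T ^ (1 - κ) * (1 + Real.log T) *
        (Real.sqrt (DS (a T) (X T) (X T ^ J) i) * Real.sqrt (DS (a T) (X T) (X T ^ J) i'))) := by
          gcongr
      _ = _ := by
          have : T ^ (1 - κ) = T * T ^ (-κ) := by
            rw [sub_eq_add_neg, Real.rpow_add hT0, Real.rpow_one]
          rw [this]
          field_simp
  have := herr.add hdiag
  rw [zero_add] at this
  refine this.congr fun T => ?_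
  ring

end Pool.Agent.T9h26.TD
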