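import Pool.Agent.Y747.Ar
import Pool.Agent.W376.TC.Sum2
import Pool.Agent.H385R2.NTW2
import Pool.Agent.T9h26.TD.Lim

set_option autoImplicit false

/-! The coefficients of the explicit formula and the polynomial over the primes. -/

open Complex Filter Topology Set MeasureTheory

namespace Pool.Agent.T9h26.TD

open TC
open Pool.Agent.Y747 (al)

/-- admissible weights -/
structure Wt (w : ℝ → ℝ) (b : ℝ) (K : NNReal) : Prop where
  b0 : 0 < b
  b1 : b ≤ 1 / 2
  lip : LipschitzWith K w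
  zero : ∀ ξ, b ≤ |ξ| → w ξ = 0
  even : ∀ ξ, w (-ξ) = w ξ

lemma Wt.bd {w : ℝ → ℝ} {b : ℝ} {K : NNReal} (h : Wt w b K) (ξ : ℝ) : |w ξ| ≤ K := by
  rcases le_or_gt b |ξ| with h1 | h1
  · rw [h.zero ξ h1, abs_zero]
    exact K.2
  · have h2 := h.lip.dist_le_mul ξ b
    rw [Real.dist_eq, Real.dist_eq, h.zero b (by rw [abs_of_pos h.b0]), sub_zero] at h2
    refine h2.trans ?_
    have h3 : |ξ - b| ≤ 1 := by
      rw [abs_lt] at h1
      rw [abs_le]
      constructor <;> linarith [h.b1]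
    calc (K : ℝ) * |ξ - b| ≤ K * 1 := mul_le_mul_of_nonneg_left h3 K.2
      _ = K := mul_one _

lemma Wt.cont {w : ℝ → ℝ} {b : ℝ} {K : NNReal} (h : Wt w b K) : Continuous w := h.lip.continuous

lemma Wt.supp {w : ℝ → ℝ} {b : ℝ} {K : NNReal} (h : Wt w b K) : HasCompactSupport w := by
  apply HasCompactSupport.of_support_subset_isCompact (isCompact_Icc (a := -b) (b := b))
  intro x hx
  rw [Function.mem_support] at hx
  rw [mem_Icc, ← abs_le]
  by_contra hc
  rw [not_le] at hc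
  exact hx (h.zero x hc.le)

lemma Wt.intg {w : ℝ → ℝ} {b : ℝ} {K : NNReal} (h : Wt w b K) (L c : ℝ) :
    Integrable (fun y => w (y / L) * gs (y - c)) ∧
    ∀ y, ‖w (y / L) * gs (y - c)‖ ≤ (K : ℝ) * gs (y - c) := by
  have hwc : Continuous fun y => w (y / L) * gs (y - c) := by
    have := h.cont
    have := gs_cont
    fun_prop
  have hKi : Integrable fun y => (K : ℝ) * gs (y - c) :=
    (gs_integrable.comp_sub_right c).const_mul _
  have hbd : ∀ y, ‖w (y / L) * gs (y - c)‖ ≤ (K : ℝ) * gs (y - c) := by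
    intro y
    rw [norm_mul, Real.norm_eq_abs, Real.norm_of_nonneg (gs_nonneg _)]
    exact mul_le_mul_of_nonneg_right (h.bd _) (gs_nonneg _)
  exact ⟨hKi.mono' hwc.aestronglyMeasurable (Eventually.of_forall hbd), hbd⟩

lemma half_eq {w : ℝ → ℝ} {b : ℝ} {K : NNReal} (h : Wt w b K) {L : ℝ} (hL : 0 < L) (c : ℝ) :
    (∫ ξ in (0 : ℝ)..1, w ξ * gs (L * ξ - c)) =
      (1 / L) * ∫ y in Ioi (0 : ℝ), w (y / L) * gs (y - c) := by
  obtain ⟨hint, _⟩ := h.intg L c
  rw [Sum2.cf_integral hL]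
  congr 1
  rw [intervalIntegral.integral_of_le hL.le]
  have e2 : Ioi (0 : ℝ) = Ioc 0 L ∪ Ioi L := (Ioc_union_Ioi_eq_Ioi hL.le).symm
  rw [e2, setIntegral_union _ measurableSet_Ioi hint.integrableOn hint.integrableOn]
  · have e3 : ∫ y in Ioi L, w (y / L) * gs (y - c) = 0 := by
      rw [setIntegral_congr_fun (g := fun _ => (0 : ℝ)) measurableSet_Ioi]
      · simp
      · intro y hy
        have hy' : L < y := hy
        simp only
        rw [h.zero, zero_mul]
        have h1 : 1 ≤ y / L := by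
          rw [le_div_iff₀ hL]; linarith
        rw [abs_of_nonneg (by linarith)]
        linarith [h.b1]
    rw [e3, add_zero]
  · rw [Set.disjoint_left]
    intro z hz hz'
    exact absurd hz.2 (not_le.2 hz')

lemma full_eq (w : ℝ → ℝ) (L c : ℝ) :
    (1 / Real.sqrt (2 * Real.pi)) * (∫ u, w (u / L) * Real.exp (-(u - c) ^ 2 / 2)) =
      ∫ y, w (y / L) * gs (y - c) := by
  rw [← integral_const_mul]
  apply integral_congr_ae
  refine Eventually.of_forall fun y => ?_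
  simp only [gs]
  ring

/-- the main term -/
lemma main_term {w : ℝ → ℝ} {b : ℝ} {K : NNReal} (h : Wt w b K) {L : ℝ} (hL : 0 < L) :
    |L * (∫ ξ in (0 : ℝ)..1, w ξ * gs (L * ξ)) - w 0 / 2| ≤ K / (2 * L) := by
  obtain ⟨hint, _⟩ := h.intg L 0
  have hg := SP.MertAux.gauss_avg w K h.lip h.supp L 0 hL
  rw [full_eq, zero_div] at hg
  have e1 := half_eq h hL 0
  have e2 : ∀ ξ : ℝ, w ξ * gs (L * ξ) = w ξ * gs (L * ξ - 0) := fun ξ => by rw [sub_zero]
  simp_rw [e2]
  rw [e1, ← mul_assoc, mul_one_div_cancel hL.ne', one_mul]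
  have e4 : (∫ y, w (y / L) * gs (y - 0)) = (∫ y in Iic (0 : ℝ), w (y / L) * gs (y - 0)) +
      ∫ y in Ioi (0 : ℝ), w (y / L) * gs (y - 0) :=
    (intervalIntegral.integral_Iic_add_Ioi hint.integrableOn hint.integrableOn).symm
  have e5 : (∫ y in Iic (0 : ℝ), w (y / L) * gs (y - 0)) =
      ∫ y in Ioi (0 : ℝ), w (y / L) * gs (y - 0) := by
    have h3 := integral_comp_neg_Ioi (0 : ℝ) (fun y => w (y / L) * gs (y - 0))
    rw [neg_zero] at h3
    rw [← h3]
    apply setIntegral_congr_fun measurableSet_Ioi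
    intro x _
    simp only [sub_zero]
    rw [neg_div, h.even, gs_even]
  rw [e5] at e4
  rw [e4] at hg
  have e6 : (∫ y in Ioi (0 : ℝ), w (y / L) * gs (y - 0)) - w 0 / 2 =
      1 / 2 * ((∫ y in Ioi (0 : ℝ), w (y / L) * gs (y - 0)) +
        (∫ y in Ioi (0 : ℝ), w (y / L) * gs (y - 0)) - w 0) := by ring
  rw [e6, abs_mul, abs_of_pos (by norm_num : (0 : ℝ) < 1 / 2)]
  calc 1 / 2 * _ ≤ 1 / 2 * ((K : ℝ) / L) := mul_le_mul_of_nonneg_left hg (by norm_num)
    _ = _ := by field_simp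

/-- the difference of the coefficients -/
noncomputable def qn (w : ℝ → ℝ) (L : ℝ) (n : ℕ) : ℝ :=
  (∫ ξ in (0 : ℝ)..1, w ξ * gs (L * ξ - Real.log n)) - w (Real.log n / L) / L

lemma qn_le {w : ℝ → ℝ} {b : ℝ} {K : NNReal} (h : Wt w b K) {L : ℝ} (hL : 0 < L) {n : ℕ}
    (hn : 1 ≤ n) : |qn w L n| ≤ K / L ^ 2 + K / L * Real.exp (-(Real.log n) ^ 2 / 2) := by
  set c := Real.log n with hc
  have hc0 : 0 ≤ c := Real.log_nonneg (by exact_mod_cast hn)
  have hg := SP.MertAux.gauss_avg w K h.lip h.supp L c hL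
  have hKi : Integrable fun y => (K : ℝ) * gs (y - c) :=
    (gs_integrable.comp_sub_right c).const_mul _
  obtain ⟨hint, hbd⟩ := h.intg L c
  have e1 := half_eq h hL c
  have e4 : (∫ y, w (y / L) * gs (y - c)) = (∫ y in Iic (0 : ℝ), w (y / L) * gs (y - c)) +
      ∫ y in Ioi (0 : ℝ), w (y / L) * gs (y - c) :=
    (intervalIntegral.integral_Iic_add_Ioi hint.integrableOn hint.integrableOn).symm
  rw [full_eq] at hg
  have e6 : |∫ y in Iic (0 : ℝ), w (y / L) * gs (y - c)| ≤ K * Real.exp (-c ^ 2 / 2) := by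
    have h1 : |∫ y in Iic (0 : ℝ), w (y / L) * gs (y - c)| ≤ ∫ y in Iic (0 : ℝ),
        (K : ℝ) * gs (y - c) := by
      rw [← Real.norm_eq_abs]
      exact norm_integral_le_of_norm_le hKi.integrableOn (Eventually.of_forall hbd)
    refine h1.trans ?_
    rw [integral_const_mul]
    apply mul_le_mul_of_nonneg_left _ K.2
    have h2 : ∫ y in Iic (0 : ℝ), gs (y - c) = ∫ z in Ioi c, gs z := by
      have h3 := integral_comp_neg_Ioi (0 : ℝ) (fun y => gs (y - c))
      rw [neg_zero] at h3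
      rw [← h3]
      have h4 : ∀ x : ℝ, gs (-x - c) = gs (x + c) := fun x => by rw [← gs_even]; congr 1; ring
      simp_rw [h4]
      rw [← integral_indicator measurableSet_Ioi, ← integral_indicator measurableSet_Ioi,
        ← integral_add_right_eq_self (fun z => (Ioi c).indicator gs z) c]
      apply integral_congr_ae
      refine Eventually.of_forall fun x => ?_
      by_cases hx : 0 < x
      · have hx' : x + c ∈ Ioi c := by simp only [mem_Ioi]; linarith
        simp only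
        rw [indicator_of_mem (mem_Ioi.2 hx), indicator_of_mem hx']
      · have hx' : x + c ∉ Ioi c := by simp only [mem_Ioi]; linarith
        simp only
        rw [indicator_of_notMem (fun h => hx (mem_Ioi.1 h)), indicator_of_notMem hx']
    rw [h2]
    exact Sum2.gs_tail hc0
  have e7 : qn w L n = (1 / L) * (((∫ y, w (y / L) * gs (y - c)) - w (c / L)) -
      ∫ y in Iic (0 : ℝ), w (y / L) * gs (y - c)) := by
    unfold qn
    rw [← hc, e1, e4]
    ring
  rw [e7, abs_mul, abs_of_pos (by positivity : 0 < 1 / L)]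
  have e8 := abs_sub ((∫ y, w (y / L) * gs (y - c)) - w (c / L))
    (∫ y in Iic (0 : ℝ), w (y / L) * gs (y - c))
  calc 1 / L * _ ≤ 1 / L * (K / L + K * Real.exp (-c ^ 2 / 2)) := by
        apply mul_le_mul_of_nonneg_left _ (by positivity)
        linarith
    _ = _ := by field_simp

/-- the coefficients of the remainder -/
noncomputable def rn (w : ℝ → ℝ) (L : ℝ) (n : ℕ) : ℝ :=
  lam n * (∫ ξ in (0 : ℝ)..1, w ξ * gs (L * ξ - Real.log n)) - al w L n

lemma rn_sq {w : ℝ → ℝ} {b : ℝ} {K : NNReal} (h : Wt w b K) {L : ℝ} (hL : 0 < L) {n : ℕ}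
    (hn : 1 ≤ n) : rn w L n ^ 2 ≤ 4 * K ^ 2 / L ^ 4 * lam n ^ 2 +
      4 * K ^ 2 / L ^ 2 * (lam n ^ 2 * Real.exp (-(Real.log n) ^ 2 / 2)) +
      2 * K ^ 2 / L ^ 2 * (if n.Prime then 0 else lam n ^ 2) := by
  have hq := qn_le h hL hn
  set E := Real.exp (-(Real.log n) ^ 2 / 2) with hE
  have hE0 : 0 < E := Real.exp_pos _
  have hE1 : E ≤ 1 := by
    rw [hE, Real.exp_le_one_iff]
    have := sq_nonneg (Real.log n)
    linarith
  have hK : (0 : ℝ) ≤ K := K.2
  have hq2 : qn w L n ^ 2 ≤ 2 * K ^ 2 / L ^ 4 + 2 * K ^ 2 / L ^ 2 * E := by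
    have h1 : qn w L n ^ 2 ≤ (K / L ^ 2 + K / L * E) ^ 2 := by
      rw [← sq_abs]
      exact pow_le_pow_left₀ (abs_nonneg _) hq 2
    have h2 : (K / L ^ 2 + K / L * E) ^ 2 ≤ 2 * (K / L ^ 2) ^ 2 + 2 * (K / L * E) ^ 2 := by
      nlinarith [sq_nonneg (K / L ^ 2 - K / L * E)]
    have h3 : (K / L * E) ^ 2 ≤ K ^ 2 / L ^ 2 * E := by
      have h4 : E ^ 2 ≤ E := by nlinarith
      calc (K / L * E) ^ 2 = K ^ 2 / L ^ 2 * E ^ 2 := by rw [mul_pow, div_pow]
        _ ≤ _ := mul_le_mul_of_nonneg_left h4 (by positivity)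
    have h5 : 2 * ((K : ℝ) / L ^ 2) ^ 2 = 2 * K ^ 2 / L ^ 4 := by
      rw [div_pow]; ring
    have h6 : 2 * (K ^ 2 / L ^ 2 * E) = 2 * K ^ 2 / L ^ 2 * E := by ring
    linarith
  have e : rn w L n = lam n * qn w L n + (if n.Prime then 0 else lam n * (w (Real.log n / L) / L)) := by
    unfold rn qn al
    split_ifs <;> ring
  have h7 : (if n.Prime then (0 : ℝ) else lam n * (w (Real.log n / L) / L)) ^ 2 ≤
      K ^ 2 / L ^ 2 * (if n.Prime then 0 else lam n ^ 2) := by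
    split_ifs
    · simp
    · rw [mul_pow, div_pow, mul_comm]
      apply mul_le_mul_of_nonneg_right _ (sq_nonneg _)
      gcongr ?_ / _
      rw [← sq_abs]
      exact pow_le_pow_left₀ (abs_nonneg _) (h.bd _) 2
  rw [e]
  set A := lam n * qn w L n with hA
  set B := (if n.Prime then (0 : ℝ) else lam n * (w (Real.log n / L) / L)) with hB
  have h8 : (A + B) ^ 2 ≤ 2 * A ^ 2 + 2 * B ^ 2 := by nlinarith [sq_nonneg (A - B)]
  have h9 : A ^ 2 ≤ lam n ^ 2 * (2 * K ^ 2 / L ^ 4 + 2 * K ^ 2 / L ^ 2 * E) := by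
    rw [hA, mul_pow]
    exact mul_le_mul_of_nonneg_left hq2 (sq_nonneg _)
  have h10 : 2 * (lam n ^ 2 * (2 * K ^ 2 / L ^ 4 + 2 * K ^ 2 / L ^ 2 * E)) =
      4 * K ^ 2 / L ^ 4 * lam n ^ 2 + 4 * K ^ 2 / L ^ 2 * (lam n ^ 2 * E) := by ring
  have h11 : 2 * (K ^ 2 / L ^ 2 * (if n.Prime then (0 : ℝ) else lam n ^ 2)) =
      2 * K ^ 2 / L ^ 2 * (if n.Prime then 0 else lam n ^ 2) := by ring
  linarith

/-- the coefficients of the remainder are small in mean square -/
theorem rn_sum {w : ℝ → ℝ} {b : ℝ} {K : NNReal} (h : Wt w b K) : ∃ C : ℝ, 0 < C ∧ ∀ T : ℝ,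
    10 ≤ T → ∀ X : ℕ, (X : ℝ) ≤ T →
    ∑ n ∈ Finset.Icc 1 X, rn w (Real.log T) n ^ 2 ≤ C / Real.log T := by
  obtain ⟨C1, hC1, h1⟩ := H370.lam_sq_sum
  set S := ∑' n : ℕ, (if n.Prime then 0 else ArithmeticFunction.vonMangoldt n / (n : ℝ)) with hS
  have hS0 : 0 ≤ S := tsum_nonneg H385.npr_nonneg
  set S1 := ∑' n : ℕ, lam n ^ 2 * Real.exp (-(Real.log n) ^ 2 / 2) with hS1
  have hS10 : 0 ≤ S1 := tsum_nonneg fun n => by positivity
  have hK : (0 : ℝ) ≤ K := K.2
  refine ⟨4 * K ^ 2 * (1 + 2 * C1) + 4 * K ^ 2 * S1 + 2 * K ^ 2 * S + 1, by positivity,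
    fun T hT X hX => ?_⟩
  set L := Real.log T with hL
  have hL1 : 1 ≤ L := by
    rw [hL, Real.le_log_iff_exp_le (by linarith)]
    have := Real.exp_one_lt_d9
    linarith
  have hL0 : 0 < L := by linarith
  have a1 : ∑ n ∈ Finset.Icc 1 X, lam n ^ 2 ≤ (1 + 2 * C1) * L ^ 2 := by
    rcases Nat.eq_zero_or_pos X with h0 | h0
    · subst h0
      simp
      positivity
    · have hX1 : (1 : ℝ) ≤ X := by exact_mod_cast h0
      have h2 := h1 X hX1
      rw [Nat.floor_natCast] at h2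
      have h3 : Real.log X ≤ L := Real.log_le_log (by linarith) hX
      have h4 : 0 ≤ Real.log (X : ℝ) := Real.log_nonneg hX1
      have h5 : ∑ n ∈ Finset.Icc 1 X, lam n ^ 2 = ∑ n ∈ Finset.Icc 1 X,
          (ArithmeticFunction.vonMangoldt n) ^ 2 / n := Finset.sum_congr rfl fun n _ => lam_sq n
      rw [h5]
      refine h2.trans ?_
      have h6 : Real.log X ^ 2 ≤ L ^ 2 := pow_le_pow_left₀ h4 h3 2
      have h7 : C1 * (Real.log X + 1) ≤ C1 * (2 * L ^ 2) := by
        apply mul_le_mul_of_nonneg_left _ hC1.le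
        nlinarith
      nlinarith
  have a2 : ∑ n ∈ Finset.Icc 1 X, lam n ^ 2 * Real.exp (-(Real.log n) ^ 2 / 2) ≤ S1 :=
    Sum2.K1_summable.sum_le_tsum _ fun n _ => by positivity
  have a3 : ∑ n ∈ Finset.Icc 1 X, (if n.Prime then (0 : ℝ) else lam n ^ 2) ≤ S * L := by
    calc ∑ n ∈ Finset.Icc 1 X, (if n.Prime then (0 : ℝ) else lam n ^ 2) ≤
        ∑ n ∈ Finset.Icc 1 X,
          (if n.Prime then 0 else ArithmeticFunction.vonMangoldt n / (n : ℝ)) * L := by
          refine Finset.sum_le_sum fun n hn => ?_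
          rw [Finset.mem_Icc] at hn
          split_ifs
          · simp
          · unfold TC.lam
            rw [div_pow, Real.sq_sqrt (Nat.cast_nonneg n), sq, mul_div_right_comm]
            have h1 : ArithmeticFunction.vonMangoldt n ≤ L := by
              refine (ArithmeticFunction.vonMangoldt_le_log).trans (Real.log_le_log ?_ ?_)
              · have := hn.1
                exact_mod_cast this
              · exact (by exact_mod_cast hn.2 : (n : ℝ) ≤ X).trans hX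
            have h2 : 0 ≤ ArithmeticFunction.vonMangoldt n / (n : ℝ) :=
              div_nonneg ArithmeticFunction.vonMangoldt_nonneg (Nat.cast_nonneg n)
            gcongr
      _ = (∑ n ∈ Finset.Icc 1 X,
          (if n.Prime then 0 else ArithmeticFunction.vonMangoldt n / (n : ℝ))) * L := by
          rw [Finset.sum_mul]
      _ ≤ S * L := by
          apply mul_le_mul_of_nonneg_right _ hL0.le
          exact H385.npr_summable.sum_le_tsum _ fun n _ => H385.npr_nonneg n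
  have h2 : ∑ n ∈ Finset.Icc 1 X, rn w L n ^ 2 ≤ 4 * K ^ 2 / L ^ 4 * ((1 + 2 * C1) * L ^ 2) +
      4 * K ^ 2 / L ^ 2 * S1 + 2 * K ^ 2 / L ^ 2 * (S * L) := by
    calc ∑ n ∈ Finset.Icc 1 X, rn w L n ^ 2 ≤ ∑ n ∈ Finset.Icc 1 X,
        (4 * K ^ 2 / L ^ 4 * lam n ^ 2 +
        4 * K ^ 2 / L ^ 2 * (lam n ^ 2 * Real.exp (-(Real.log n) ^ 2 / 2)) +
        2 * K ^ 2 / L ^ 2 * (if n.Prime then 0 else lam n ^ 2)) :=
          Finset.sum_le_sum fun n hn => rn_sq h hL0 (Finset.mem_Icc.1 hn).1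
      _ = 4 * K ^ 2 / L ^ 4 * (∑ n ∈ Finset.Icc 1 X, lam n ^ 2) +
        4 * K ^ 2 / L ^ 2 * (∑ n ∈ Finset.Icc 1 X,
          lam n ^ 2 * Real.exp (-(Real.log n) ^ 2 / 2)) +
        2 * K ^ 2 / L ^ 2 * (∑ n ∈ Finset.Icc 1 X, (if n.Prime then (0 : ℝ) else lam n ^ 2)) := by
          rw [Finset.sum_add_distrib, Finset.sum_add_distrib, Finset.mul_sum, Finset.mul_sum,
            Finset.mul_sum]
      _ ≤ _ := by gcongr
  refine h2.trans ?_
  rw [le_div_iff₀ hL0]
  have e1 : (4 * K ^ 2 / L ^ 4 * ((1 + 2 * C1) * L ^ 2) + 4 * K ^ 2 / L ^ 2 * S1 +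
      2 * K ^ 2 / L ^ 2 * (S * L)) * L = (4 * K ^ 2 * (1 + 2 * C1) + 4 * K ^ 2 * S1) * (1 / L) +
      2 * K ^ 2 * S := by
    field_simp
  rw [e1]
  have h3 : 1 / L ≤ 1 := by rw [div_le_one hL0]; exact hL1
  have h4 : (4 * (K : ℝ) ^ 2 * (1 + 2 * C1) + 4 * K ^ 2 * S1) * (1 / L) ≤
      (4 * K ^ 2 * (1 + 2 * C1) + 4 * K ^ 2 * S1) * 1 :=
    mul_le_mul_of_nonneg_left h3 (by positivity)
  linarith

end Pool.Agent.T9h26.TD
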