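import Pool.Agent.T9h26.TD.Ms

set_option autoImplicit false

/-! Lower bounds for the measure of large values: coherent states. -/

open Complex Filter Topology Set MeasureTheory

namespace Pool.Agent.T9h26.TD

/-- partial sums of the exponential series -/
noncomputable def SJ (lam : ℝ) (J : ℕ) : ℝ := ∑ i ∈ Finset.range (J + 1), lam ^ i / i.factorial

lemma AJ_eq (lam : ℝ) (J : ℕ) :
    ∑ i ∈ Finset.range (J + 1), lam ^ i * (i - lam) ^ 2 / i.factorial =
      lam * SJ lam J + lam * (lam - J - 1) * (lam ^ J / J.factorial) := by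
  unfold SJ
  induction J with
  | zero => simp; ring
  | succ J ih =>
    rw [Finset.sum_range_succ, ih, Finset.sum_range_succ _ (J + 1)]
    have hf : ((J + 1).factorial : ℝ) = (J + 1) * J.factorial := by
      rw [Nat.factorial_succ]; push_cast; ring
    have h0 : (J.factorial : ℝ) ≠ 0 := by exact_mod_cast J.factorial_ne_zero
    have h1 : ((J : ℝ) + 1) ≠ 0 := by positivity
    rw [hf]
    push_cast
    field_simp
    ring

/-- the coefficients of the shifted polynomial -/
noncomputable def rc (α ρ : ℝ) (J i : ℕ) : ℝ :=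
  (if i = 0 then 0 else α ^ (i - 1) / (i - 1).factorial) -
    (if i ≤ J then ρ * (α ^ i / i.factorial) else 0)

lemma rc_poly (α ρ : ℝ) (J : ℕ) (z : ℂ) :
    ∑ i ∈ Finset.range (J + 1 + 1), (rc α ρ J i : ℂ) * z ^ i =
      (z - ρ) * ∑ i ∈ Finset.range (J + 1), ((α ^ i / i.factorial : ℝ) : ℂ) * z ^ i := by
  have h1 : ∀ i : ℕ, (rc α ρ J i : ℂ) * z ^ i =
      (((if i = 0 then 0 else α ^ (i - 1) / (i - 1).factorial : ℝ)) : ℂ) * z ^ i -
      (((if i ≤ J then ρ * (α ^ i / i.factorial) else 0 : ℝ)) : ℂ) * z ^ i := by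
    intro i
    unfold rc
    rw [Complex.ofReal_sub, sub_mul]
  simp_rw [h1]
  rw [Finset.sum_sub_distrib, sub_mul]
  congr 1
  · rw [Finset.sum_range_succ']
    simp only [if_true, Complex.ofReal_zero, zero_mul, add_zero]
    rw [Finset.mul_sum]
    apply Finset.sum_congr rfl
    intro i _
    rw [if_neg (Nat.succ_ne_zero i), Nat.add_sub_cancel, pow_succ]
    ring
  · rw [Finset.sum_range_succ, if_neg (by omega), Complex.ofReal_zero, zero_mul, add_zero,
      Finset.mul_sum]
    apply Finset.sum_congr rfl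
    intro i hi
    rw [Finset.mem_range] at hi
    rw [if_pos (by omega), Complex.ofReal_mul]
    ring

lemma rc_sum {α v : ℝ} (hα : α ≠ 0) (J : ℕ) :
    ∑ i ∈ Finset.range (J + 1 + 1), rc α (α * v) J i ^ 2 * (i.factorial * v ^ i) =
      v * (SJ (α ^ 2 * v) J + (α ^ 2 * v) * ((α ^ 2 * v) ^ J / J.factorial)) := by
  set lam := α ^ 2 * v with hlam
  have hα2 : α ^ 2 ≠ 0 := pow_ne_zero _ hα
  have h1 : ∀ i ∈ Finset.range (J + 1), rc α (α * v) J i ^ 2 * (i.factorial * v ^ i) =
      1 / α ^ 2 * (lam ^ i * (i - lam) ^ 2 / i.factorial) := by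
    intro i hi
    rw [Finset.mem_range] at hi
    unfold rc
    have hiJ : i ≤ J := by omega
    rw [if_pos hiJ]
    rcases Nat.eq_zero_or_pos i with h0 | h0
    · subst h0
      rw [if_pos rfl]
      simp only [pow_zero, Nat.factorial_zero, Nat.cast_one, Nat.cast_zero]
      rw [hlam]
      field_simp
      ring
    · obtain ⟨j, rfl⟩ : ∃ j, i = j + 1 := ⟨i - 1, by omega⟩
      rw [if_neg (Nat.succ_ne_zero j), Nat.add_sub_cancel]
      have hf : ((j + 1).factorial : ℝ) = (j + 1) * j.factorial := by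
        rw [Nat.factorial_succ]; push_cast; ring
      have h2 : (j.factorial : ℝ) ≠ 0 := by exact_mod_cast j.factorial_ne_zero
      have h3 : ((j : ℝ) + 1) ≠ 0 := by positivity
      rw [hf, hlam, mul_pow]
      push_cast
      field_simp
      ring
  rw [Finset.sum_range_succ, Finset.sum_congr rfl h1, ← Finset.mul_sum, AJ_eq]
  have h2 : rc α (α * v) J (J + 1) ^ 2 * ((J + 1).factorial * v ^ (J + 1)) =
      1 / α ^ 2 * (lam * (J + 1) * (lam ^ J / J.factorial)) := by
    unfold rc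
    rw [if_neg (Nat.succ_ne_zero J), if_neg (show ¬ J + 1 ≤ J by omega), Nat.add_sub_cancel]
    have hf : ((J + 1).factorial : ℝ) = (J + 1) * J.factorial := by
      rw [Nat.factorial_succ]; push_cast; ring
    have h2 : (J.factorial : ℝ) ≠ 0 := by exact_mod_cast J.factorial_ne_zero
    rw [hf, hlam, mul_pow]
    field_simp
    ring
  rw [h2, ← mul_add]
  have h3 : lam * SJ lam J + lam * (lam - J - 1) * (lam ^ J / J.factorial) +
      lam * (J + 1) * (lam ^ J / J.factorial) = lam * (SJ lam J + lam * (lam ^ J / J.factorial)) := by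
    ring
  rw [h3, ← mul_assoc]
  congr 1
  rw [hlam]
  field_simp

lemma norm_E_le (α : ℝ) (J : ℕ) (z : ℂ) :
    ‖∑ i ∈ Finset.range (J + 1), ((α ^ i / i.factorial : ℝ) : ℂ) * z ^ i‖ ≤
      Real.exp (|α| * ‖z‖) := by
  refine (norm_sum_le _ _).trans ?_
  have h1 : ∀ i ∈ Finset.range (J + 1), ‖((α ^ i / i.factorial : ℝ) : ℂ) * z ^ i‖ =
      (|α| * ‖z‖) ^ i / i.factorial := by
    intro i _
    rw [norm_mul, Complex.norm_real, Real.norm_eq_abs, abs_div, abs_pow, norm_pow, mul_pow,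
      Nat.abs_cast]
    ring
  rw [Finset.sum_congr rfl h1]
  exact Real.sum_le_exp_of_nonneg (by positivity) _

/-- **lower bound for the measure of values close to `ρ`** -/
theorem lb {a : ℝ → ℕ → ℝ} {X : ℝ → ℕ} {v : ℝ} {J : ℕ} (hv : 0 < v)
    (hC : Coef a X v (J + 1)) {ρ ε lam : ℝ} (hρ : ρ ≠ 0) (hε : 0 < ε)
    (hlam : lam = ρ ^ 2 / v) (h8 : 8 ≤ ε ^ 2 * lam) (hJ1 : lam * (lam ^ J / J.factorial) ≤ 1)
    (hJ2 : Real.exp lam / 2 ≤ SJ lam J) :
    ∀ᶠ T : ℝ in atTop, 1 / 4 * Real.exp (-(lam * (1 + 2 * ε))) * T ≤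
      ms T {t | ‖PP (a T) (X T) t - ρ‖ ≤ ε * |ρ|} := by
  set α := ρ / v with hα
  have hα0 : α ≠ 0 := div_ne_zero hρ hv.ne'
  have hαv : α * v = ρ := by rw [hα]; field_simp
  have hα2 : α ^ 2 * v = lam := by rw [hα, hlam]; field_simp
  have hlam0 : 0 < lam := by
    rw [hlam]; positivity
  have hρ2 : 0 < ρ ^ 2 := by positivity
  -- the two moments
  have m1 := mom_poly hv hC (fun i => if i ≤ J then α ^ i / i.factorial else 0)
  have m2 := mom_poly hv hC (rc α (α * v) J)
  rw [rc_sum hα0, hα2] at m2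
  have e1 : ∑ i ∈ Finset.range (J + 1 + 1), (if i ≤ J then α ^ i / i.factorial else 0) ^ 2 *
      ((i.factorial : ℝ) * v ^ i) = SJ lam J := by
    rw [Finset.sum_range_succ, if_neg (by omega)]
    unfold SJ
    rw [zero_pow (by norm_num), zero_mul, add_zero]
    apply Finset.sum_congr rfl
    intro i hi
    rw [Finset.mem_range] at hi
    rw [if_pos (by omega), ← hα2, mul_pow]
    have h2 : (i.factorial : ℝ) ≠ 0 := by exact_mod_cast i.factorial_ne_zero
    field_simp
    ring
  rw [e1] at m1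
  have e2 : ∀ T t : ℝ, ∑ i ∈ Finset.range (J + 1 + 1),
      (((if i ≤ J then α ^ i / i.factorial else 0 : ℝ)) : ℂ) * PP (a T) (X T) t ^ i =
      ∑ i ∈ Finset.range (J + 1), ((α ^ i / i.factorial : ℝ) : ℂ) * PP (a T) (X T) t ^ i := by
    intro T t
    rw [Finset.sum_range_succ, if_neg (by omega), Complex.ofReal_zero, zero_mul, add_zero]
    apply Finset.sum_congr rfl
    intro i hi
    rw [Finset.mem_range] at hi
    rw [if_pos (by omega)]
  simp_rw [e2] at m1
  simp_rw [rc_poly] at m2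
  set S := SJ lam J with hS
  have hS1 : 0 < S := lt_of_lt_of_le (by positivity) hJ2
  have hS2 : 1 / 2 ≤ S := by
    have := Real.add_one_le_exp lam
    linarith
  have hSv : v * (S + lam * (lam ^ J / J.factorial)) < v * (4 * S) := by
    apply mul_lt_mul_of_pos_left _ hv
    linarith
  -- hypotheses for large T
  filter_upwards [m1.eventually (lt_mem_nhds (show 15 / 16 * S < S by linarith)),
    m2.eventually (gt_mem_nhds (show v * (S + lam * (lam ^ J / J.factorial)) <
      v * (7 / 2 * S) by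
        apply mul_lt_mul_of_pos_left _ hv
        linarith)), eventually_gt_atTop 0] with T h1 h2 hT
  set P := fun t => PP (a T) (X T) t with hP
  have hPc : Continuous P := PP_cont (a T) (X T)
  set E : ℝ → ℂ := fun t => ∑ i ∈ Finset.range (J + 1),
    ((α ^ i / i.factorial : ℝ) : ℂ) * P t ^ i with hE
  have hEc : Continuous E := by rw [hE]; fun_prop
  set G : Set ℝ := {t | ‖P t - ρ‖ ≤ ε * |ρ|} with hG
  have hGm : MeasurableSet G := by
    apply IsClosed.measurableSet
    exact isClosed_le (by fun_prop) continuous_const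
  have hGE : ∀ t ∈ G, ‖E t‖ ^ 2 ≤ Real.exp (2 * (lam * (1 + ε))) := by
    intro t ht
    have ht' : ‖P t - ρ‖ ≤ ε * |ρ| := ht
    have k1 : ‖P t‖ ≤ |ρ| * (1 + ε) := by
      have : ‖P t‖ ≤ ‖P t - ρ‖ + ‖(ρ : ℂ)‖ := by
        have := norm_add_le (P t - ρ) (ρ : ℂ)
        rwa [sub_add_cancel] at this
      rw [Complex.norm_real, Real.norm_eq_abs] at this
      linarith
    have k2 : ‖E t‖ ≤ Real.exp (lam * (1 + ε)) := by
      refine (norm_E_le α J (P t)).trans ?_
      apply Real.exp_le_exp.2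
      have k3 : |α| * |ρ| = lam := by
        rw [← abs_mul, hα, hlam, abs_of_pos]
        · field_simp
        · have : ρ / v * ρ = ρ ^ 2 / v := by ring
          rw [this]; positivity
      calc |α| * ‖P t‖ ≤ |α| * (|ρ| * (1 + ε)) := by gcongr
        _ = lam * (1 + ε) := by rw [← mul_assoc, k3]
    calc ‖E t‖ ^ 2 ≤ Real.exp (lam * (1 + ε)) ^ 2 := by gcongr
      _ = _ := by rw [← Real.exp_nat_mul]; push_cast; ring_nf
  have h3 := ms_lower hT.le (f := fun t => ‖E t‖ ^ 2) (by fun_prop) hGm hGE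
  -- compare the integrals
  have h4 : (∫ t in T..(2 * T), ‖E t‖ ^ 2) ≤ (∫ t in T..(2 * T), G.indicator (fun t => ‖E t‖ ^ 2) t) +
      1 / (ε ^ 2 * ρ ^ 2) * ∫ t in T..(2 * T), ‖(P t - ρ) * E t‖ ^ 2 := by
    have i1 : IntervalIntegrable (fun t => G.indicator (fun t => ‖E t‖ ^ 2) t) volume T (2 * T) := by
      have : Continuous (fun t => ‖E t‖ ^ 2) := by fun_prop
      have i0 := this.intervalIntegrable (μ := volume) T (2 * T)
      rw [intervalIntegrable_iff] at i0 ⊢
      exact i0.indicator hGm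
    have i2 : IntervalIntegrable (fun t => 1 / (ε ^ 2 * ρ ^ 2) * ‖(P t - ρ) * E t‖ ^ 2) volume T
        (2 * T) := (by fun_prop : Continuous fun t =>
          1 / (ε ^ 2 * ρ ^ 2) * ‖(P t - ρ) * E t‖ ^ 2).intervalIntegrable _ _
    rw [← intervalIntegral.integral_const_mul, ← intervalIntegral.integral_add i1 i2]
    apply intervalIntegral.integral_mono_on (by linarith)
      ((by fun_prop : Continuous fun t => ‖E t‖ ^ 2).intervalIntegrable _ _) (i1.add i2)
    intro t _
    by_cases ht : t ∈ G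
    · rw [indicator_of_mem ht]
      have : 0 ≤ 1 / (ε ^ 2 * ρ ^ 2) * ‖(P t - ρ) * E t‖ ^ 2 := by positivity
      linarith
    · rw [indicator_of_notMem ht, zero_add, norm_mul, mul_pow]
      have k1 : ε * |ρ| < ‖P t - ρ‖ := not_le.1 ht
      have k2 : ε ^ 2 * ρ ^ 2 ≤ ‖P t - ρ‖ ^ 2 := by
        calc ε ^ 2 * ρ ^ 2 = (ε * |ρ|) ^ 2 := by rw [mul_pow, sq_abs]
          _ ≤ _ := by gcongr
      have k3 : 0 < ε ^ 2 * ρ ^ 2 := by positivity
      rw [← mul_assoc]
      apply le_mul_of_one_le_left (by positivity)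
      rw [one_div, inv_mul_eq_div, one_le_div k3]
      exact k2
  have hρv : (α * v : ℝ) = ρ := hαv
  have h5 : (∫ t in T..(2 * T), ‖(P t - ρ) * E t‖ ^ 2) ≤ v * (7 / 2 * S) * T := by
    have := h2.le
    rw [one_div, inv_mul_le_iff₀ hT, hρv] at this
    linarith
  have h6 : 15 / 16 * S * T ≤ ∫ t in T..(2 * T), ‖E t‖ ^ 2 := by
    have := h1.le
    rw [one_div, le_inv_mul_iff₀ hT] at this
    linarith
  have h7 : 1 / (ε ^ 2 * ρ ^ 2) * (v * (7 / 2 * S) * T) ≤ 7 / 16 * S * T := by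
    have k1 : v / (ε ^ 2 * ρ ^ 2) ≤ 1 / 8 := by
      rw [div_le_div_iff₀ (by positivity) (by norm_num)]
      rw [hlam] at h8
      have : ε ^ 2 * (ρ ^ 2 / v) = ε ^ 2 * ρ ^ 2 / v := by ring
      rw [this, le_div_iff₀ hv] at h8
      linarith
    calc 1 / (ε ^ 2 * ρ ^ 2) * (v * (7 / 2 * S) * T) = v / (ε ^ 2 * ρ ^ 2) * (7 / 2 * S * T) := by
          ring
      _ ≤ 1 / 8 * (7 / 2 * S * T) := by
          apply mul_le_mul_of_nonneg_right k1 (by positivity)
      _ = _ := by ring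
  have h8' : 1 / (ε ^ 2 * ρ ^ 2) * (∫ t in T..(2 * T), ‖(P t - ρ) * E t‖ ^ 2) ≤ 7 / 16 * S * T :=
    (mul_le_mul_of_nonneg_left h5 (by positivity)).trans h7
  have h9 : 1 / 2 * S * T ≤ Real.exp (2 * (lam * (1 + ε))) * ms T G := by linarith
  have h10 : 1 / 4 * Real.exp lam * T ≤ Real.exp (2 * (lam * (1 + ε))) * ms T G := by
    refine le_trans ?_ h9
    have := mul_le_mul_of_nonneg_right hJ2 hT.le
    linarith
  have h11 : Real.exp (2 * (lam * (1 + ε))) * (1 / 4 * Real.exp (-(lam * (1 + 2 * ε))) * T) =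
      1 / 4 * Real.exp lam * T := by
    have : Real.exp lam = Real.exp (2 * (lam * (1 + ε))) * Real.exp (-(lam * (1 + 2 * ε))) := by
      rw [← Real.exp_add]; congr 1; ring
    rw [this]
    ring
  rw [← h11] at h10
  exact le_of_mul_le_mul_left h10 (Real.exp_pos _)

end Pool.Agent.T9h26.TD
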