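import Pool.Agent.T9h26.TD.EF
import Pool.Agent.T9h26.TD.Coh

set_option autoImplicit false

/-! The family of prime polynomials attached to a weight. -/

open Complex Filter Topology Set MeasureTheory

namespace Pool.Agent.T9h26.TD

open TC
open Pool.Agent.Y747 (al)

/-- the length -/
noncomputable def XT (b T : ℝ) : ℕ := max 1 ⌊T ^ b⌋₊

/-- the prime polynomial of a weight -/
noncomputable def PW (w : ℝ → ℝ) (b T t : ℝ) : ℂ := PP (al w (Real.log T)) (XT b T) t

lemma Pr_max (n : ℕ) : Pr (max 1 n) = Pr n := by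
  ext p
  rw [mem_Pr, mem_Pr]
  constructor
  · rintro ⟨h1, h2⟩
    refine ⟨h1, ?_⟩
    rcases le_max_iff.1 h2 with h3 | h3
    · exact absurd h1.two_le (by omega)
    · exact h3
  · rintro ⟨h1, h2⟩
    exact ⟨h1, h2.trans (le_max_right _ _)⟩

lemma PW_eq (w : ℝ → ℝ) (b T t : ℝ) : PW w b T t = PP (al w (Real.log T)) ⌊T ^ b⌋₊ t := by
  unfold PW PP XT
  rw [Pr_max]

lemma lip_sq {w : ℝ → ℝ} {b : ℝ} {K : NNReal} (h : Wt w b K) :
    LipschitzWith (3 * K ^ 2) (fun u : ℝ => ((u * w u ^ 2 : ℝ) : ℂ)) := by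
  have hK : (0 : ℝ) ≤ K := K.2
  have key : ∀ u u' : ℝ, |u| ≤ 1 → |u * w u ^ 2 - u' * w u' ^ 2| ≤ 3 * K ^ 2 * |u - u'| := by
    intro u u' hu
    have e : u * w u ^ 2 - u' * w u' ^ 2 = u * ((w u - w u') * (w u + w u')) +
        (u - u') * w u' ^ 2 := by ring
    have h1 : |w u - w u'| ≤ K * |u - u'| := by
      have := h.lip.dist_le_mul u u'
      rwa [Real.dist_eq, Real.dist_eq] at this
    have h2 : |w u + w u'| ≤ 2 * K := by
      refine (abs_add_le _ _).trans ?_
      linarith [h.bd u, h.bd u']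
    have h3 : w u' ^ 2 ≤ K ^ 2 := by
      rw [← sq_abs]
      exact pow_le_pow_left₀ (abs_nonneg _) (h.bd u') 2
    rw [e]
    refine (abs_add_le _ _).trans ?_
    rw [abs_mul, abs_mul, abs_mul, abs_of_nonneg (sq_nonneg (w u'))]
    have h4 : |u| * (|w u - w u'| * |w u + w u'|) ≤ 1 * ((K * |u - u'|) * (2 * K)) := by
      gcongr
    have h5 : |u - u'| * w u' ^ 2 ≤ |u - u'| * K ^ 2 :=
      mul_le_mul_of_nonneg_left h3 (abs_nonneg _)
    nlinarith
  apply LipschitzWith.of_dist_le_mul
  intro u u'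
  rw [dist_eq_norm, ← Complex.ofReal_sub, Complex.norm_real, Real.norm_eq_abs, Real.dist_eq]
  push_cast
  rcases le_or_gt |u| 1 with h1 | h1
  · exact key u u' h1
  · rcases le_or_gt |u'| 1 with h2 | h2
    · rw [abs_sub_comm, abs_sub_comm u u']
      exact key u' u h2
    · rw [h.zero u (by linarith [h.b1]), h.zero u' (by linarith [h.b1])]
      simp
      positivity

/-- the limit variance -/
noncomputable def var (w : ℝ → ℝ) : ℝ := ∫ u in (0 : ℝ)..1, u * w u ^ 2

/-- the family of prime polynomials of a weight is admissible -/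
theorem coef_al {w : ℝ → ℝ} {b : ℝ} {K : NNReal} (h : Wt w b K) {J : ℕ} (hJ : (J : ℝ) * b < 1) :
    Coef (fun T => al w (Real.log T)) (XT b) (var w) J := by
  have hK : (0 : ℝ) ≤ K := K.2
  constructor
  · rw [Metric.tendsto_atTop]
    intro ε hε
    obtain ⟨T1, h1⟩ := Pool.Agent.Y747.al_sq h.b0 h.b1 (F := w)
      (fun u hu => h.zero u (hu.trans (le_abs_self _))) (lip_sq h) (ε / 2) (by positivity)
    refine ⟨T1, fun T hT => ?_⟩
    have h2 := h1 T hT
    have e : ∑ p ∈ Pr (XT b T), (al w (Real.log T) p) ^ 2 =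
        ∑ n ∈ Finset.Icc 2 ⌊T ^ b⌋₊, (al w (Real.log T) n) ^ 2 := by
      unfold XT
      rw [Pr_max]
      apply Finset.sum_subset
      · intro p hp
        rw [mem_Pr] at hp
        exact Finset.mem_Icc.2 ⟨hp.1.two_le, hp.2⟩
      · intro n hn hn2
        rw [Finset.mem_Icc] at hn
        have : ¬ n.Prime := fun hp => hn2 (mem_Pr.2 ⟨hp, hn.2⟩)
        unfold al
        rw [if_neg this]
        norm_num
    rw [e, Real.dist_eq]
    unfold var
    linarith
  · refine ⟨fun T => 4 * K ^ 2 / Real.log T ^ 2, ?_, ?_⟩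
    · have h1 : Tendsto (fun T : ℝ => Real.log T ^ 2) atTop atTop :=
        (tendsto_pow_atTop (by norm_num)).comp Real.tendsto_log_atTop
      exact tendsto_const_nhds.div_atTop h1
    · filter_upwards [eventually_gt_atTop 1] with T hT p
      have hL : 0 < Real.log T := Real.log_pos hT
      unfold al
      split_ifs
      · rw [mul_pow, div_pow]
        have h1 : lam p ^ 2 ≤ 4 := by
          have := lam_le_two p
          have := lam_nonneg p
          nlinarith
        have h2 : w (Real.log p / Real.log T) ^ 2 ≤ K ^ 2 := by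
          rw [← sq_abs]
          exact pow_le_pow_left₀ (abs_nonneg _) (h.bd _) 2
        calc lam p ^ 2 / Real.log T ^ 2 * w (Real.log p / Real.log T) ^ 2 ≤
            4 / Real.log T ^ 2 * K ^ 2 := by gcongr
          _ = _ := by ring
      · rw [zero_pow two_ne_zero]
        positivity
  · intro T
    exact le_max_left _ _
  · refine ⟨1 - J * b, by linarith, ?_⟩
    filter_upwards [eventually_ge_atTop 1] with T hT
    have h1 : (XT b T : ℝ) ≤ T ^ b := by
      unfold XT
      push_cast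
      apply max_le
      · exact Real.one_le_rpow hT h.b0.le
      · exact Nat.floor_le (by positivity)
    calc (XT b T : ℝ) ^ J ≤ (T ^ b) ^ J := by gcongr
      _ = T ^ (1 - (1 - J * b)) := by
        rw [← Real.rpow_natCast, ← Real.rpow_mul (by linarith)]
        congr 1
        ring

/-- the explicit formula in measure -/
theorem ef_ms {w : ℝ → ℝ} {b : ℝ} {K : NNReal} (h : Wt w b K) {C : ℝ} (hC : 0 < C) {η : ℝ}
    (hη : 0 < η) : ∃ T1 : ℝ, 10 ≤ T1 ∧ ∀ T : ℝ, T1 ≤ T → ∀ (Z : Finset ℝ) (m : ℝ → ℕ),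
    EFD C T Z m → ms T {t | η < |SX Z m w (Real.log T) t - (w 0 / 2 - (PW w b T t).re)|} ≤
      η * T := by
  set b' := (1 + b) / 2 with hb'
  have hbb : b < b' := by rw [hb']; linarith [h.b1]
  have hb1 : b' < 1 := by rw [hb']; linarith [h.b1]
  obtain ⟨A, T1, hA, hT1, h1⟩ := ef_pt h hbb hC
  obtain ⟨C2, hC2, h2⟩ := rn_sum h
  -- the mean square of the remainder is small
  have ev1 : Tendsto (fun T : ℝ => (1 + 8 * (T ^ (b' - 1) * (1 + Real.log T))) * (C2 / Real.log T))
      atTop (𝓝 ((1 + 8 * 0) * 0)) := by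
    apply Tendsto.mul
    · apply Tendsto.const_add
      apply Tendsto.const_mul
      have hd : 0 < 1 - b' := by linarith
      have k1 : Tendsto (fun T : ℝ => T ^ (b' - 1)) atTop (𝓝 0) := by
        have := tendsto_rpow_neg_atTop hd
        rwa [neg_sub] at this
      have k2 : Tendsto (fun T : ℝ => T ^ (b' - 1) * Real.log T) atTop (𝓝 0) := by
        have h3 := (isLittleO_log_rpow_atTop hd).tendsto_div_nhds_zero
        refine h3.congr' ?_
        filter_upwards [eventually_gt_atTop 0] with T hT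
        have : T ^ (b' - 1) = (T ^ (1 - b'))⁻¹ := by
          rw [← Real.rpow_neg hT.le, neg_sub]
        rw [this]
        field_simp
      have h3 := k1.add k2
      rw [add_zero] at h3
      exact h3.congr fun T => by ring
    · exact tendsto_const_nhds.div_atTop Real.tendsto_log_atTop
  rw [mul_zero] at ev1
  have ev2 : Tendsto (fun T : ℝ => A / Real.log T) atTop (𝓝 0) :=
    tendsto_const_nhds.div_atTop Real.tendsto_log_atTop
  have ev3 : Tendsto (fun T : ℝ => Real.log T / T) atTop (𝓝 0) := by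
    have := (Real.isLittleO_log_id_atTop).tendsto_div_nhds_zero
    simpa using this
  obtain ⟨T2, hT2⟩ := eventually_atTop.1 (((ev1.eventually (gt_mem_nhds
    (show 0 < (η / 2) ^ 2 * (η / 2) by positivity))).and (ev2.eventually (gt_mem_nhds
    (show 0 < η / 2 by positivity)))).and (ev3.eventually (gt_mem_nhds
    (show 0 < η / 4 by positivity))))
  refine ⟨max T1 T2, hT1.trans (le_max_left _ _), fun T hT Z m hE => ?_⟩
  have hTT1 : T1 ≤ T := (le_max_left _ _).trans hT
  obtain ⟨⟨f1, f2⟩, f3⟩ := hT2 T ((le_max_right _ _).trans hT)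
  have hT10 : 10 ≤ T := hT1.trans hTT1
  have hT0 : 0 < T := by linarith
  have hL : 0 < Real.log T := Real.log_pos (by linarith)
  set L := Real.log T with hLd
  set X := ⌊T ^ b'⌋₊ with hX
  set R : ℝ → ℂ := fun t => ∑ n ∈ Finset.Icc 1 X, (rn w L n : ℂ) * (n : ℂ) ^ (-(t : ℂ) * I)
    with hR
  have hRc : Continuous R := by
    rw [hR]
    apply continuous_finsetSum
    intro n hn
    exact continuous_const.mul (cpow_cont n (Finset.mem_Icc.1 hn).1)
  have hXT : (X : ℝ) ≤ T ^ b' := Nat.floor_le (by positivity)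
  have hXT' : (X : ℝ) ≤ T := by
    refine hXT.trans ?_
    conv_rhs => rw [← Real.rpow_one T]
    exact Real.rpow_le_rpow_of_exponent_le (by linarith) hb1.le
  have hX1 : (1 : ℝ) ≤ X := by
    have : 1 ≤ X := by
      rw [hX, Nat.one_le_floor_iff]
      exact Real.one_le_rpow (by linarith) (by linarith [h.b0])
    exact_mod_cast this
  -- mean square
  have g1 : ∫ t in T..(2 * T), ‖R t‖ ^ 2 ≤ (η / 2) ^ 2 * (η / 2) * T := by
    have k1 := H370.mean_value (fun n => (rn w L n : ℂ)) X T (2 * T) (by linarith)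
    have k2 := h2 T hT10 X hXT'
    have k3 : ∑ n ∈ Finset.Icc 1 X, ‖(rn w L n : ℂ)‖ ^ 2 = ∑ n ∈ Finset.Icc 1 X, rn w L n ^ 2 := by
      apply Finset.sum_congr rfl
      intro n _
      rw [Complex.norm_real, Real.norm_eq_abs, sq_abs]
    rw [k3] at k1
    have k4 : Real.log X ≤ L := Real.log_le_log (by linarith) hXT'
    have k5 : 0 ≤ Real.log (X : ℝ) := Real.log_nonneg hX1
    have k6 : 2 * T - T + 8 * X * (1 + Real.log X) ≤ T * (1 + 8 * (T ^ (b' - 1) * (1 + L))) := by
      have : T * (1 + 8 * (T ^ (b' - 1) * (1 + L))) = T + 8 * (T * T ^ (b' - 1)) * (1 + L) := by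
        ring
      rw [this, ← Real.rpow_one_add' hT0.le (by linarith [h.b0] : 1 + (b' - 1) ≠ 0)]
      have e : (1 + (b' - 1) : ℝ) = b' := by ring
      rw [e]
      have : 8 * (X : ℝ) * (1 + Real.log X) ≤ 8 * T ^ b' * (1 + L) := by gcongr
      linarith
    calc ∫ t in T..(2 * T), ‖R t‖ ^ 2 ≤ (2 * T - T + 8 * X * (1 + Real.log X)) *
        ∑ n ∈ Finset.Icc 1 X, rn w L n ^ 2 := k1
      _ ≤ (T * (1 + 8 * (T ^ (b' - 1) * (1 + L)))) * (C2 / L) := by
          apply mul_le_mul k6 k2 (Finset.sum_nonneg fun n _ => sq_nonneg _)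
          positivity
      _ = ((1 + 8 * (T ^ (b' - 1) * (1 + L))) * (C2 / L)) * T := by ring
      _ ≤ _ := mul_le_mul_of_nonneg_right f1.le hT0.le
  have g2 := ms_markov hT0.le (f := fun t => ‖R t‖ ^ 2) (by fun_prop) (fun t => by positivity)
    (c := (η / 2) ^ 2)
  have g3 : ms T {t | (η / 2) ^ 2 ≤ ‖R t‖ ^ 2} ≤ η / 2 * T := by
    have := g2.trans g1
    have h4 : 0 < (η / 2) ^ 2 := by positivity
    rw [mul_assoc] at this
    exact le_of_mul_le_mul_left this h4
  have g4 : ms T {t | η < |SX Z m w L t - (w 0 / 2 - (PW w b T t).re)|} ≤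
      ms T (Ioc T (T + L)) + ms T (Ioc (2 * T - L) (2 * T)) +
        ms T {t | (η / 2) ^ 2 ≤ ‖R t‖ ^ 2} := by
    refine (ms_union_of (S1 := Ioc T (T + L) ∪ Ioc (2 * T - L) (2 * T))
      (S2 := {t | (η / 2) ^ 2 ≤ ‖R t‖ ^ 2}) ?_).trans ?_
    · intro t ht1 ht2 ht3
      have ht3' : η < |SX Z m w L t - (w 0 / 2 - (PW w b T t).re)| := ht3
      rcases le_or_gt t (T + L) with h3 | h3
      · left; left; exact ⟨ht1, h3⟩
      · rcases le_or_gt t (2 * T - L) with h4 | h4
        · right
          have h5 := h1 T hTT1 Z m hE t h3.le h4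
          rw [← PW_eq] at h5
          have h6 : η / 2 ≤ ‖R t‖ := by
            have : |SX Z m w L t - (w 0 / 2 - (PW w b T t).re)| ≤ A / L + ‖R t‖ := h5
            linarith
          exact pow_le_pow_left₀ (by positivity) h6 2
        · left; right; exact ⟨h4, ht2⟩
    · gcongr
      exact ms_union _ _ _
  have g5 : ms T (Ioc T (T + L)) ≤ L := by
    refine (ms_Ioc_le (by linarith)).trans (by linarith)
  have g6 : ms T (Ioc (2 * T - L) (2 * T)) ≤ L := by
    refine (ms_Ioc_le (by linarith)).trans (by linarith)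
  have g7 : L ≤ η / 4 * T := by
    rw [div_lt_iff₀ hT0] at f3
    exact f3.le
  linarith

end Pool.Agent.T9h26.TD
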