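import Pool.Agent.T9h26.TD.Bl

set_option autoImplicit false

/-! From the measure of a set of centres to the number of indices. -/

open Complex Filter Topology Set MeasureTheory

namespace Pool.Agent.T9h26.TD

open TC (ordz ordT mu EFD)
open SG (ord NZ zmult ZS)
open W200.HW (Ix mem_Ix)
open Pool.Agent.Y747 (al)

lemma ms_shift {T s : ℝ} (hs : 0 ≤ s) (F : Set ℝ) : ms T {t | t + s ∈ F} ≤ ms T F + s := by
  have h1 : {t | t + s ∈ F} ∩ Ioc T (2 * T) = (fun t => t + s) ⁻¹' (F ∩ Ioc (T + s) (2 * T + s)) := by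
    ext t
    simp only [mem_inter_iff, mem_setOf_eq, mem_Ioc, mem_preimage]
    constructor
    · rintro ⟨h1, h2, h3⟩
      exact ⟨h1, by linarith, by linarith⟩
    · rintro ⟨h1, h2, h3⟩
      exact ⟨h1, by linarith, by linarith⟩
  have h2 : volume ({t | t + s ∈ F} ∩ Ioc T (2 * T)) = volume (F ∩ Ioc (T + s) (2 * T + s)) := by
    rw [h1, measure_preimage_add_right]
  have h3 : volume (F ∩ Ioc (T + s) (2 * T + s)) ≤ volume (F ∩ Ioc T (2 * T)) +
      volume (Ioc (2 * T) (2 * T + s)) := by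
    refine (measure_mono ?_).trans (measure_union_le _ _)
    rintro t ⟨h4, h5, h6⟩
    rcases le_or_gt t (2 * T) with h7 | h7
    · left
      exact ⟨h4, by linarith, h7⟩
    · right
      exact ⟨h7, h6⟩
  have h4 : volume (Ioc (2 * T) (2 * T + s)) = ENNReal.ofReal s := by
    rw [Real.volume_Ioc]
    congr 1
    ring
  unfold ms
  rw [h2]
  rw [h4] at h3
  have h5 := ENNReal.toReal_mono (ENNReal.add_ne_top.2 ⟨ms_fin T F, ENNReal.ofReal_ne_top⟩) h3
  rw [ENNReal.toReal_add (ms_fin T F) ENNReal.ofReal_ne_top, ENNReal.toReal_ofReal hs] at h5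
  exact h5

/-- the number of indices with `ord n ≤ t ≤ ord n + κ` -/
noncomputable def NB (B : Finset ℕ) (κ t : ℝ) : ℕ :=
  (B.filter (fun n => ord n ≤ t ∧ t ≤ ord n + κ)).card

lemma NB_eq (B : Finset ℕ) (κ t : ℝ) :
    (NB B κ t : ℝ) = ∑ n ∈ B, (Icc (ord n) (ord n + κ)).indicator (fun _ => (1 : ℝ)) t := by
  unfold NB
  rw [Finset.card_filter]
  push_cast
  apply Finset.sum_congr rfl
  intro n _
  simp only [indicator, mem_Icc]

lemma NB_meas (B : Finset ℕ) (κ : ℝ) : Measurable fun t => (NB B κ t : ℝ) := by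
  simp_rw [NB_eq]
  apply Finset.measurable_fun_sum
  intro n _
  exact measurable_const.indicator measurableSet_Icc

lemma NB_int {T κ : ℝ} (hT : 0 ≤ T) (hκ : 0 ≤ κ) {B : Finset ℕ}
    (hB : ∀ n ∈ B, T < ord n ∧ ord n + κ ≤ 2 * T) :
    ∫ t in Ioc T (2 * T), (NB B κ t : ℝ) = B.card * κ := by
  simp_rw [NB_eq]
  rw [integral_finsetSum]
  · have h1 : ∀ n ∈ B, ∫ t in Ioc T (2 * T), (Icc (ord n) (ord n + κ)).indicator
        (fun _ => (1 : ℝ)) t = κ := by
      intro n hn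
      obtain ⟨h2, h3⟩ := hB n hn
      rw [integral_indicator measurableSet_Icc, Measure.restrict_restrict measurableSet_Icc]
      have h4 : Icc (ord n) (ord n + κ) ∩ Ioc T (2 * T) = Icc (ord n) (ord n + κ) := by
        apply inter_eq_left.2
        rintro t ⟨h5, h6⟩
        exact ⟨by linarith, by linarith⟩
      rw [h4, setIntegral_const, smul_eq_mul, mul_one, Measure.real, Real.volume_Icc,
        ENNReal.toReal_ofReal (by linarith)]
      ring
    rw [Finset.sum_congr rfl h1, Finset.sum_const, nsmul_eq_mul]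
  · intro n _
    exact (integrable_const (1 : ℝ)).indicator measurableSet_Icc

lemma ms_ind {T : ℝ} {G : Set ℝ} (hG : MeasurableSet G) :
    ∫ t in Ioc T (2 * T), G.indicator (fun _ => (1 : ℝ)) t = ms T G := by
  rw [integral_indicator hG, Measure.restrict_restrict hG, setIntegral_const, smul_eq_mul, mul_one]
  rfl

lemma ind_int (T : ℝ) {G : Set ℝ} (hG : MeasurableSet G) (c : ℝ) :
    Integrable (fun t => c * G.indicator (fun _ => (1 : ℝ)) t) (volume.restrict (Ioc T (2 * T))) :=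
  ((integrable_const (1 : ℝ)).indicator hG).const_mul c

/-- the covering inequality -/
lemma cover_abs {T κ : ℝ} (hT : 0 ≤ T) (hκ : 0 ≤ κ) {B : Finset ℕ}
    (hB : ∀ n ∈ B, T < ord n ∧ ord n + κ ≤ 2 * T) {E : Set ℝ}
    (hE : ∀ n ∈ B, ∀ t, ord n ≤ t → t ≤ ord n + κ → t ∈ E) {Φ : ℝ → ℝ} (hΦc : Continuous Φ)
    (hΦ0 : ∀ t, 0 ≤ Φ t) (hΦ : ∀ t, T < t → t ≤ 2 * T → (NB B κ t : ℝ) ^ 2 ≤ Φ t) {θ : ℝ}
    (hθ : 0 < θ) (M : ℕ) {F : Set ℝ}
    (hF : ∀ t, T < t → t ≤ 2 * T → M + 1 ≤ NB B κ t → t ∈ F) :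
    B.card * κ ≤ M * ms T E + θ / 2 * (∫ t in T..(2 * T), Φ t) + 1 / (2 * θ) * ms T F := by
  set E' : Set ℝ := {t | (1 : ℝ) ≤ NB B κ t} with hE'
  set F' : Set ℝ := {t | (M : ℝ) + 1 ≤ NB B κ t} with hF'
  have mE : MeasurableSet E' := measurableSet_le measurable_const (NB_meas B κ)
  have mF : MeasurableSet F' := measurableSet_le measurable_const (NB_meas B κ)
  have h1 : ∀ t ∈ Ioc T (2 * T), (NB B κ t : ℝ) ≤ M * E'.indicator (fun _ => (1 : ℝ)) t +
      θ / 2 * Φ t + 1 / (2 * θ) * F'.indicator (fun _ => (1 : ℝ)) t := by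
    intro t ht
    have hΦt := hΦ t ht.1 ht.2
    have hp := hΦ0 t
    rcases Nat.eq_zero_or_pos (NB B κ t) with h0 | h0
    · rw [h0]
      have a1 : 0 ≤ E'.indicator (fun _ => (1 : ℝ)) t := indicator_nonneg (fun _ _ => zero_le_one) t
      have a2 : 0 ≤ F'.indicator (fun _ => (1 : ℝ)) t := indicator_nonneg (fun _ _ => zero_le_one) t
      push_cast
      positivity
    · have c1 : (1 : ℝ) ≤ NB B κ t := by exact_mod_cast h0
      have m1 : t ∈ E' := c1
      rw [indicator_of_mem m1]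
      by_cases h2 : M + 1 ≤ NB B κ t
      · have m2 : t ∈ F' := by
          show (M : ℝ) + 1 ≤ NB B κ t
          exact_mod_cast h2
        rw [indicator_of_mem m2]
        have h3 : (NB B κ t : ℝ) ≤ θ / 2 * (NB B κ t : ℝ) ^ 2 + 1 / (2 * θ) := by
          have h4 : 0 ≤ (θ * NB B κ t - 1) ^ 2 / (2 * θ) := by positivity
          have h5 : (θ * NB B κ t - 1) ^ 2 / (2 * θ) = θ / 2 * (NB B κ t : ℝ) ^ 2 + 1 / (2 * θ) -
              NB B κ t := by
            field_simp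
            ring
          linarith
        have h4 : θ / 2 * (NB B κ t : ℝ) ^ 2 ≤ θ / 2 * Φ t :=
          mul_le_mul_of_nonneg_left hΦt (by positivity)
        have h5 : (0 : ℝ) ≤ M := Nat.cast_nonneg M
        linarith
      · have m2 : t ∉ F' := by
          intro h3
          apply h2
          have h4 : (M : ℝ) + 1 ≤ NB B κ t := h3
          exact_mod_cast h4
        rw [indicator_of_notMem m2]
        have h3 : (NB B κ t : ℝ) ≤ M := by exact_mod_cast (by omega : NB B κ t ≤ M)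
        have h4 : 0 ≤ θ / 2 * Φ t := by positivity
        linarith
  have i1 : Integrable (fun t => θ / 2 * Φ t) (volume.restrict (Ioc T (2 * T))) :=
    ((hΦc.integrableOn_Icc (a := T) (b := 2 * T)).mono_set Ioc_subset_Icc_self).const_mul _
  have iNB : Integrable (fun t => (NB B κ t : ℝ)) (volume.restrict (Ioc T (2 * T))) := by
    simp_rw [NB_eq]
    apply integrable_finsetSum
    intro n _
    exact (integrable_const (1 : ℝ)).indicator measurableSet_Icc
  have iA : Integrable (fun t => M * E'.indicator (fun _ => (1 : ℝ)) t + θ / 2 * Φ t)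
      (volume.restrict (Ioc T (2 * T))) := (ind_int T mE M).add i1
  have h2 := setIntegral_mono_on (s := Ioc T (2 * T)) (μ := volume) iNB
    (iA.add (ind_int T mF (1 / (2 * θ)))) measurableSet_Ioc h1
  rw [NB_int hT hκ hB] at h2
  simp only [Pi.add_apply] at h2
  have e1 : ∫ t in Ioc T (2 * T), (M * E'.indicator (fun _ => (1 : ℝ)) t +
      θ / 2 * Φ t + 1 / (2 * θ) * F'.indicator (fun _ => (1 : ℝ)) t) =
      M * ms T E' + θ / 2 * (∫ t in T..(2 * T), Φ t) + 1 / (2 * θ) * ms T F' := by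
    rw [integral_add iA (ind_int T mF (1 / (2 * θ))),
      integral_add (ind_int T mE M) i1, integral_const_mul, integral_const_mul, integral_const_mul,
      ms_ind mE, ms_ind mF, intervalIntegral.integral_of_le (by linarith)]
  rw [e1] at h2
  have h3 : ms T E' ≤ ms T E := by
    apply ms_mono
    intro t _ _ ht
    have ht' : (1 : ℝ) ≤ NB B κ t := ht
    have h4 : 0 < NB B κ t := by exact_mod_cast ht'
    unfold NB at h4
    rw [Finset.card_pos] at h4
    obtain ⟨n, hn⟩ := h4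
    rw [Finset.mem_filter] at hn
    exact hE n hn.1 t hn.2.1 hn.2.2
  have h4 : ms T F' ≤ ms T F := by
    apply ms_mono
    intro t ht1 ht2 ht
    have ht' : (M : ℝ) + 1 ≤ NB B κ t := ht
    exact hF t ht1 ht2 (by exact_mod_cast ht')
  have h5 : (M : ℝ) * ms T E' ≤ M * ms T E := mul_le_mul_of_nonneg_left h3 (Nat.cast_nonneg M)
  have h6 : 1 / (2 * θ) * ms T F' ≤ 1 / (2 * θ) * ms T F :=
    mul_le_mul_of_nonneg_left h4 (by positivity)
  linarith

/-- **covering** -/
theorem cover (RH : RiemannHypothesis) {C : ℝ} (hC : 0 < C) : ∃ C3 : ℝ, 1 ≤ C3 ∧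
    ∀ A : ℝ, 1 ≤ A → ∃ T1 : ℝ, 10 ≤ T1 ∧ ∀ T : ℝ, T1 ≤ T → ∀ U1 U2 : ℝ, 1 ≤ U1 →
      EFD C T (ordz U1 U2) mu → ∀ (B : Finset ℕ) (E : Set ℝ), B ⊆ Kx U1 U2 →
      (∀ n ∈ B, T + 2 * Real.log T ≤ ord n ∧ ord n ≤ 2 * T - 2 * Real.log T) →
      (∀ n ∈ B, ∀ t, ord n ≤ t → t ≤ ord n + Real.pi / (2 * Real.log T) → t ∈ E) →
      (B.card : ℝ) ≤ Real.log T * (C3 * A * ms T E + C3 * Real.exp (-A) * T) := by
  have hpi := Real.pi_pos
  have hpi3 := Real.pi_gt_three
  have hpi4 := Real.pi_le_four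
  set w := sc Gt (1 / 2) with hw
  obtain ⟨K', hWt⟩ := sc_wt Gt_contDiff Gt_one (by norm_num : (0 : ℝ) < 1 / 2) le_rfl
  have hG0 : Gt 0 ≠ 0 := by rw [Gt_zero]; exact one_ne_zero
  obtain ⟨hv0, hv1⟩ := var_bounds Gt_contDiff.continuous Gt_one hG0 (by norm_num : (0 : ℝ) < 1 / 2)
    le_rfl (fun s h0 h1 => Gt_abs h0 h1)
  obtain ⟨C2, T2, hC2, hT2, hL2⟩ := SX_L2 hWt hv0 hC
  obtain ⟨K, hK, hbc⟩ := blockC RH hC (ε := 1 / 2) (by norm_num) (by norm_num)
  refine ⟨max (3 / 2 * K + 8) (1 + 128 * C2), le_max_of_le_left (by linarith), fun A hA => ?_⟩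
  set M := ⌈3 / 2 * K + 4 * A + 3⌉₊ with hM
  have hM1 : 3 / 2 * K + 4 * A + 3 ≤ M := Nat.le_ceil _
  have hM2 : (M : ℝ) < 3 / 2 * K + 4 * A + 3 + 1 := Nat.ceil_lt_add_one (by linarith)
  obtain ⟨T3, hT3, hbc2⟩ := hbc (1 / 2) (M + 1) (by norm_num) (by push_cast; linarith)
  have ev : ∀ᶠ T : ℝ in atTop, Real.pi ≤ Real.log T :=
    Real.tendsto_log_atTop.eventually_ge_atTop _
  obtain ⟨T4, hT4⟩ := eventually_atTop.1 ev
  refine ⟨max T2 (max T3 T4), hT2.trans (le_max_left _ _), fun T hT U1 U2 hU hE B E hBK hBo hBE => ?_⟩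
  have hTT2 : T2 ≤ T := (le_max_left _ _).trans hT
  have hTT3 : T3 ≤ T := ((le_max_left _ _).trans (le_max_right _ _)).trans hT
  have hTT4 : T4 ≤ T := ((le_max_right _ _).trans (le_max_right _ _)).trans hT
  have hT10 : 10 ≤ T := hT2.trans hTT2
  have hT0 : 0 < T := by linarith
  have hLpi := hT4 T hTT4
  set L := Real.log T with hL
  have hL3 : 3 ≤ L := by linarith
  have hL0 : 0 < L := by linarith
  set κ := Real.pi / (2 * L) with hκ
  have hκ0 : 0 < κ := by positivity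
  have hκ1 : κ ≤ 1 / 2 := by
    rw [hκ, div_le_div_iff₀ (by positivity) (by norm_num)]
    linarith
  have hκL : L * κ = Real.pi / 2 := by
    rw [hκ]
    field_simp
  obtain ⟨Φ, hΦc, hΦ0, hΦi, hΦs⟩ := hL2 T hTT2
  -- comparison
  have hcount : ∀ t, NB B κ t ≤ cC U1 U2 t κ := by
    intro t
    unfold NB cC
    apply Finset.card_le_card
    intro n hn
    rw [Finset.mem_filter] at hn ⊢
    refine ⟨hBK hn.1, ?_⟩
    rw [abs_le]
    constructor <;> linarith [hn.2.1, hn.2.2]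
  have hcmp : ∀ t, (NB B κ t : ℝ) ≤ 16 * SX (ordz U1 U2) mu w L t := by
    intro t
    have h6 := SX_ge RH (U2 := U2) hU (w := w) (L := L) (x0 := Real.pi / 2) (ρ := κ) (c := 1 / 8) hL0
      (by norm_num) (ph_tri_nonneg (by norm_num) le_rfl) (fun x hx => by
        refine le_trans ?_ (ph_tri_ge (by norm_num) le_rfl hx)
        have : (1 / 2 * (Real.pi / 2)) ^ 2 ≤ 1 := by
          have h7 : 1 / 2 * (Real.pi / 2) ≤ 1 := by linarith
          exact pow_le_one₀ (by positivity) h7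
        linarith) (le_of_eq hκL) t
    have h7 : 1 / 2 ≤ Real.exp (-κ ^ 2 / 2) := by
      have h8 := Real.add_one_le_exp (-κ ^ 2 / 2)
      have h9 : κ ^ 2 ≤ 1 := pow_le_one₀ hκ0.le (by linarith)
      linarith
    have h8 : (NB B κ t : ℝ) ≤ cC U1 U2 t κ := by exact_mod_cast hcount t
    have h9 : (0 : ℝ) ≤ cC U1 U2 t κ := Nat.cast_nonneg _
    nlinarith
  have hNB0 : ∀ t, ¬ (T + L ≤ t ∧ t ≤ 2 * T - L) → NB B κ t = 0 := by
    intro t ht
    unfold NB
    rw [Finset.card_eq_zero, Finset.filter_eq_empty_iff]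
    rintro n hn ⟨h1, h2⟩
    obtain ⟨h3, h4⟩ := hBo n hn
    apply ht
    constructor <;> linarith
  have key := cover_abs (T := T) (κ := κ) hT0.le hκ0.le (B := B) (fun n hn => by
      obtain ⟨h3, h4⟩ := hBo n hn
      constructor <;> linarith) hBE (Φ := fun t => 256 * Φ t) (by fun_prop)
    (fun t => by have := hΦ0 t; positivity) (fun t ht1 ht2 => by
      by_cases h1 : T + L ≤ t ∧ t ≤ 2 * T - L
      · have h2 := hΦs (ordz U1 U2) mu hE t h1.1 h1.2
        have h3 : (NB B κ t : ℝ) ^ 2 ≤ (16 * SX (ordz U1 U2) mu w L t) ^ 2 :=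
          pow_le_pow_left₀ (Nat.cast_nonneg _) (hcmp t) 2
        have h4 : (16 * SX (ordz U1 U2) mu w L t) ^ 2 =
          256 * SX (ordz U1 U2) mu w L t ^ 2 := by ring
        rw [h4] at h3
        linarith
      · rw [hNB0 t h1]
        have h2 := hΦ0 t
        have h3 : ((0 : ℕ) : ℝ) ^ 2 = 0 := by norm_num
        rw [h3]
        positivity) (θ := Real.exp (-A)) (Real.exp_pos _) M
    (F := {t | M + 1 ≤ cC U1 U2 t (Real.pi * (1 / 2) / Real.log T)}) (fun t _ _ h => by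
      have e : Real.pi * (1 / 2) / Real.log T = κ := by
        rw [hκ, hL]
        field_simp
      show M + 1 ≤ cC U1 U2 t (Real.pi * (1 / 2) / Real.log T)
      rw [e]
      exact h.trans (hcount t))
  rw [intervalIntegral.integral_const_mul] at key
  have hFm := hbc2 T hTT3 U1 U2 hU hE
  -- the tail
  have hA2 : Real.exp (-((1 - 1 / 2) * (((M + 1 : ℕ) : ℝ) * Real.log ((M + 1 : ℕ) : ℝ)))) ≤
      Real.exp (-A) * Real.exp (-A) := by
    rw [← Real.exp_add]
    apply Real.exp_le_exp.2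
    have h1 : (4 * A : ℝ) ≤ ((M + 1 : ℕ) : ℝ) := by push_cast; linarith
    have h2 : 1 ≤ Real.log ((M + 1 : ℕ) : ℝ) := by
      rw [Real.le_log_iff_exp_le (by positivity)]
      have := Real.exp_one_lt_d9
      push_cast
      linarith
    have h3 : 4 * A * 1 ≤ ((M + 1 : ℕ) : ℝ) * Real.log ((M + 1 : ℕ) : ℝ) :=
      mul_le_mul h1 h2 zero_le_one (by positivity)
    linarith
  have h5 : 1 / (2 * Real.exp (-A)) * ms T {t | M + 1 ≤ cC U1 U2 t (Real.pi * (1 / 2) / Real.log T)} ≤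
      1 / 2 * Real.exp (-A) * T := by
    have h6 : ms T {t | M + 1 ≤ cC U1 U2 t (Real.pi * (1 / 2) / Real.log T)} ≤
        Real.exp (-A) * Real.exp (-A) * T := hFm.trans (mul_le_mul_of_nonneg_right hA2 hT0.le)
    calc _ ≤ 1 / (2 * Real.exp (-A)) * (Real.exp (-A) * Real.exp (-A) * T) :=
          mul_le_mul_of_nonneg_left h6 (by positivity)
      _ = _ := by
        have := (Real.exp_pos (-A)).ne'
        field_simp
  have h6 : Real.exp (-A) / 2 * (256 * ∫ t in T..(2 * T), Φ t) ≤ 128 * C2 * Real.exp (-A) * T := by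
    calc _ ≤ Real.exp (-A) / 2 * (256 * (C2 * T)) := by gcongr
      _ = _ := by ring
  have h7 : (M : ℝ) * ms T E ≤ (3 / 2 * K + 8) * A * ms T E := by
    apply mul_le_mul_of_nonneg_right _ (ms_nonneg T E)
    nlinarith
  set X := Real.exp (-A) * T with hX
  have hX0 : 0 ≤ X := by positivity
  have h8 : (B.card : ℝ) * κ ≤ (3 / 2 * K + 8) * A * ms T E + (1 + 128 * C2) * X := by
    have e1 : 1 / 2 * Real.exp (-A) * T = 1 / 2 * X := by rw [hX]; ring
    have e2 : 128 * C2 * Real.exp (-A) * T = 128 * C2 * X := by rw [hX]; ring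
    rw [e1] at h5
    rw [e2] at h6
    linarith
  have h9 : (B.card : ℝ) * κ * L ≤ ((3 / 2 * K + 8) * A * ms T E + (1 + 128 * C2) * X) * L :=
    mul_le_mul_of_nonneg_right h8 hL0.le
  have h10 : (B.card : ℝ) * κ * L = B.card * (Real.pi / 2) := by
    rw [mul_assoc, mul_comm κ L, hκL]
  have h11 : (B.card : ℝ) ≤ B.card * (Real.pi / 2) := by
    have : (0 : ℝ) ≤ B.card := Nat.cast_nonneg _
    nlinarith
  have hmE := ms_nonneg T E
  have h12 : (3 / 2 * K + 8) * A * ms T E ≤ max (3 / 2 * K + 8) (1 + 128 * C2) * A * ms T E := by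
    gcongr
    exact le_max_left _ _
  have h13 : (1 + 128 * C2) * X ≤ max (3 / 2 * K + 8) (1 + 128 * C2) * X := by
    gcongr
    exact le_max_right _ _
  have h14 : ((3 / 2 * K + 8) * A * ms T E + (1 + 128 * C2) * X) * L ≤
      (max (3 / 2 * K + 8) (1 + 128 * C2) * A * ms T E +
        max (3 / 2 * K + 8) (1 + 128 * C2) * X) * L := by
    apply mul_le_mul_of_nonneg_right _ hL0.le
    linarith
  calc (B.card : ℝ) ≤ ((3 / 2 * K + 8) * A * ms T E + (1 + 128 * C2) * X) * L := by linarith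
    _ ≤ _ := h14
    _ = _ := by rw [hX]; ring

end Pool.Agent.T9h26.TD
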