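import Pool.Agent.T9h26.TD.Cf

set_option autoImplicit false

/-! The explicit formula for smoothed sums over the zeros, with an error small in mean square. -/

open Complex Filter Topology Set MeasureTheory

namespace Pool.Agent.T9h26.TD

open TC
open Pool.Agent.Y747 (al)

/-- the cosine transform of the weight -/
noncomputable def ph (w : ℝ → ℝ) (x : ℝ) : ℝ := ∫ ξ in (0 : ℝ)..1, w ξ * Real.cos (ξ * x)

/-- the smoothed sum over the points of `Z` near `t` -/
noncomputable def SX (Z : Finset ℝ) (m : ℝ → ℕ) (w : ℝ → ℝ) (L t : ℝ) : ℝ :=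
  ∑ g ∈ Z, (m g : ℝ) * Real.exp (-(g - t) ^ 2 / 2) * ph w (L * (g - t))

lemma SX_eq {w : ℝ → ℝ} (hw : Continuous w) (Z : Finset ℝ) (m : ℝ → ℕ) (L t : ℝ) :
    SX Z m w L t = (∫ ξ in (0 : ℝ)..1, (w ξ : ℂ) * FF Z m (L * ξ) t).re := by
  have h1 : ∀ ξ : ℝ, (w ξ : ℂ) * FF Z m (L * ξ) t = ∑ g ∈ Z,
      (((m g : ℝ) * Real.exp (-(g - t) ^ 2 / 2) : ℝ) : ℂ) *
      ((w ξ : ℂ) * cexp (((L * ξ * (g - t) : ℝ) : ℂ) * I)) := by
    intro ξ
    unfold FF
    rw [Finset.mul_sum]
    apply Finset.sum_congr rfl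
    intro g _
    ring
  simp_rw [h1]
  have hc : ∀ g : ℝ, Continuous fun ξ : ℝ => (w ξ : ℂ) * cexp (((L * ξ * (g - t) : ℝ) : ℂ) * I) := by
    intro g
    fun_prop
  rw [intervalIntegral.integral_finsetSum]
  · rw [Complex.re_sum]
    unfold SX
    apply Finset.sum_congr rfl
    intro g _
    rw [intervalIntegral.integral_const_mul, Complex.re_ofReal_mul]
    congr 1
    unfold ph
    have h2 : (∫ ξ in (0 : ℝ)..1, (w ξ : ℂ) * cexp (((L * ξ * (g - t) : ℝ) : ℂ) * I)).re =
        ∫ ξ in (0 : ℝ)..1, ((w ξ : ℂ) * cexp (((L * ξ * (g - t) : ℝ) : ℂ) * I)).re := by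
      rw [intervalIntegral.integral_of_le zero_le_one, intervalIntegral.integral_of_le zero_le_one]
      have := integral_re (μ := volume.restrict (Ioc (0 : ℝ) 1))
        (f := fun ξ : ℝ => (w ξ : ℂ) * cexp (((L * ξ * (g - t) : ℝ) : ℂ) * I))
        (((hc g).integrableOn_Icc).mono_set Ioc_subset_Icc_self)
      simpa using this.symm
    rw [h2]
    apply intervalIntegral.integral_congr
    intro ξ _
    simp only
    rw [Complex.re_ofReal_mul, Complex.exp_ofReal_mul_I_re]
    congr 2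
    ring
  · intro g _
    exact (continuous_const.mul (hc g)).intervalIntegrable _ _

lemma cexp_cpow {n : ℕ} (hn : 1 ≤ n) (t : ℝ) :
    cexp (((-(t * Real.log n) : ℝ) : ℂ) * I) = (n : ℂ) ^ (-(t : ℂ) * I) := by
  have h0 : (n : ℂ) ≠ 0 := by
    have : n ≠ 0 := by omega
    exact_mod_cast this
  rw [Complex.cpow_def_of_ne_zero h0, ← Complex.natCast_log]
  congr 1
  push_cast
  ring

/-- the polynomial over the primes as a sum over all integers -/
lemma al_sum {w : ℝ → ℝ} {b : ℝ} {K : NNReal} (h : Wt w b K) {b' : ℝ} (hb' : b < b') {T : ℝ}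
    (hT : 10 ≤ T) (t : ℝ) : ∑ n ∈ Finset.Icc 1 ⌊T ^ b'⌋₊,
      (al w (Real.log T) n : ℂ) * (n : ℂ) ^ (-(t : ℂ) * I) =
      PP (al w (Real.log T)) ⌊T ^ b⌋₊ t := by
  have hT0 : 0 < T := by linarith
  have hL : 0 < Real.log T := Real.log_pos (by linarith)
  unfold PP
  symm
  apply Finset.sum_subset
  · intro p hp
    rw [mem_Pr] at hp
    rw [Finset.mem_Icc]
    refine ⟨hp.1.one_le, hp.2.trans (Nat.floor_le_floor ?_)⟩
    exact Real.rpow_le_rpow_of_exponent_le (by linarith) hb'.le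
  · intro n _ hn2
    rw [mem_Pr, not_and] at hn2
    unfold al
    split_ifs with hp
    · have h1 := hn2 hp
      rw [not_le] at h1
      have h2 : T ^ b < n := Nat.lt_of_floor_lt h1
      have h3 : b * Real.log T < Real.log n := by
        rw [← Real.log_rpow hT0]
        exact Real.log_lt_log (by positivity) h2
      have h4 : b ≤ Real.log n / Real.log T := by
        rw [le_div_iff₀ hL]; linarith
      rw [h.zero _ (h4.trans (le_abs_self _))]
      simp
    · simp

/-- **the explicit formula** -/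
theorem ef_pt {w : ℝ → ℝ} {b : ℝ} {K : NNReal} (h : Wt w b K) {b' : ℝ} (hb' : b < b') {C : ℝ}
    (hC : 0 < C) :
    ∃ A T1 : ℝ, 0 < A ∧ 10 ≤ T1 ∧ ∀ T : ℝ, T1 ≤ T → ∀ (Z : Finset ℝ) (m : ℝ → ℕ),
    EFD C T Z m → ∀ t : ℝ, T + Real.log T ≤ t → t ≤ 2 * T - Real.log T →
    |SX Z m w (Real.log T) t - (w 0 / 2 - (PP (al w (Real.log T)) ⌊T ^ b⌋₊ t).re)| ≤
      A / Real.log T + ‖∑ n ∈ Finset.Icc 1 ⌊T ^ b'⌋₊, (rn w (Real.log T) n : ℂ) *
        (n : ℂ) ^ (-(t : ℂ) * I)‖ := by
  have hK : (0 : ℝ) ≤ K := K.2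
  have ev1 : ∀ᶠ T : ℝ in atTop, (4 / (b' - b)) ^ 2 ≤ Real.log T :=
    Real.tendsto_log_atTop.eventually_ge_atTop _
  obtain ⟨T2, hT2⟩ := eventually_atTop.1 ev1
  refine ⟨2 * (K * C) + K + 1, max 10 T2, by positivity, le_max_left _ _,
    fun T hT Z m hE t ht1 ht2 => ?_⟩
  have hT10 : 10 ≤ T := (le_max_left _ _).trans hT
  have hT0 : 0 < T := by linarith
  have hTT := hT2 T ((le_max_right _ _).trans hT)
  set L := Real.log T with hL
  have hL1 : 1 ≤ L := by
    rw [hL, Real.le_log_iff_exp_le (by linarith)]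
    have := Real.exp_one_lt_d9
    linarith
  have hL0 : 0 < L := by linarith
  set X := ⌊T ^ b'⌋₊ with hX
  have hd : 0 < b' - b := by linarith
  -- the size condition
  have hsize : b * L + 4 * Real.sqrt L ≤ Real.log (X + 1) := by
    have h1 : b' * L ≤ Real.log (X + 1) := by
      rw [hL, ← Real.log_rpow hT0]
      apply Real.log_le_log (by positivity)
      exact (Nat.lt_floor_add_one _).le
    have h2 : 4 / (b' - b) ≤ Real.sqrt L := by
      apply Real.le_sqrt_of_sq_le hTT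
    have h3 : 4 ≤ (b' - b) * Real.sqrt L := by
      rw [div_le_iff₀ hd] at h2
      linarith
    have h4 : Real.sqrt L * Real.sqrt L = L := Real.mul_self_sqrt hL0.le
    have h5 : 4 * Real.sqrt L ≤ (b' - b) * L := by
      have := mul_le_mul_of_nonneg_right h3 (Real.sqrt_nonneg L)
      rw [mul_assoc, h4] at this
      exact this
    nlinarith
  set Mn : ℝ → ℂ := fun ξ => ((L * gs (L * ξ) : ℝ) : ℂ) -
      ∑ n ∈ Finset.Icc 2 X, ((lam n * gs (L * ξ - Real.log n) : ℝ) : ℂ) *
        cexp (((-(t * Real.log n) : ℝ) : ℂ) * I) with hMn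
  have hwc := h.cont
  have hgc := gs_cont
  have hMc : Continuous Mn := by
    rw [hMn]
    fun_prop
  have hFc : Continuous fun ξ : ℝ => FF Z m (L * ξ) t :=
    (FF_cont_u Z m t).comp (continuous_const.mul continuous_id)
  have hwC : Continuous fun ξ : ℝ => (w ξ : ℂ) := by fun_prop
  -- step 1
  have s1 : ‖(∫ ξ in (0 : ℝ)..1, (w ξ : ℂ) * FF Z m (L * ξ) t) -
      ∫ ξ in (0 : ℝ)..1, (w ξ : ℂ) * Mn ξ‖ ≤ 2 * (K * C) / L := by
    have i1 : IntervalIntegrable (fun ξ : ℝ => (w ξ : ℂ) * FF Z m (L * ξ) t) volume 0 1 :=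
      (hwC.mul hFc).intervalIntegrable _ _
    have i2 : IntervalIntegrable (fun ξ : ℝ => (w ξ : ℂ) * Mn ξ) volume 0 1 :=
      (hwC.mul hMc).intervalIntegrable _ _
    rw [← intervalIntegral.integral_sub i1 i2]
    have hb1 : ∀ ξ ∈ Ioc (0 : ℝ) 1, ‖(w ξ : ℂ) * FF Z m (L * ξ) t - (w ξ : ℂ) * Mn ξ‖ ≤
        K * C * (Real.exp (-(L * ξ)) + Real.exp (-(2 * L))) := by
      intro ξ hξ
      rw [← mul_sub, norm_mul, Complex.norm_real, Real.norm_eq_abs]
      rcases le_or_gt b ξ with h1 | h1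
      · rw [h.zero ξ (h1.trans (le_abs_self _)), abs_zero, zero_mul]
        positivity
      · have h2 := hE.ef (L * ξ) t (4 * Real.sqrt L) X (by have := hξ.1; positivity) (by
            rw [← hL]; nlinarith [hξ.2]) ht1 ht2 (by positivity) (by
            have : L * ξ ≤ b * L := by nlinarith
            linarith)
        have h3 : Real.exp (2 * (L * ξ) - (4 * Real.sqrt L) ^ 2 / 4) ≤ Real.exp (-(2 * L)) := by
          apply Real.exp_le_exp.2
          rw [mul_pow, Real.sq_sqrt hL0.le]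
          nlinarith [hξ.2]
        calc |w ξ| * ‖FF Z m (L * ξ) t - Mn ξ‖ ≤ K * (C * (Real.exp (-(L * ξ)) +
            Real.exp (2 * (L * ξ) - (4 * Real.sqrt L) ^ 2 / 4))) :=
              mul_le_mul (h.bd ξ) h2 (norm_nonneg _) hK
          _ ≤ K * (C * (Real.exp (-(L * ξ)) + Real.exp (-(2 * L)))) := by gcongr
          _ = _ := by ring
    have hb2 : Continuous fun ξ : ℝ => K * C * (Real.exp (-(L * ξ)) + Real.exp (-(2 * L))) := by
      fun_prop
    have h1 := intervalIntegral.norm_integral_le_of_norm_le (a := 0) (b := 1) (μ := volume)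
      zero_le_one (Eventually.of_forall hb1) (hb2.intervalIntegrable _ _)
    refine h1.trans ?_
    have h2 : ∫ ξ in (0 : ℝ)..1, K * C * (Real.exp (-(L * ξ)) + Real.exp (-(2 * L))) =
        K * C * ((1 - Real.exp (-L)) / L + Real.exp (-(2 * L))) := by
      rw [intervalIntegral.integral_const_mul, intervalIntegral.integral_add
        ((by fun_prop : Continuous fun ξ : ℝ => Real.exp (-(L * ξ))).intervalIntegrable _ _)
        intervalIntegrable_const]
      congr 2
      · have h3 : ∀ ξ : ℝ, HasDerivAt (fun ξ => -(Real.exp (-(L * ξ))) / L)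
            (Real.exp (-(L * ξ))) ξ := by
          intro ξ
          have h4 : HasDerivAt (fun ξ : ℝ => -(L * ξ)) (-(L * 1)) ξ :=
            ((hasDerivAt_id ξ).const_mul L).neg
          have h5 := ((h4.exp).neg).div_const L
          refine h5.congr_deriv ?_
          field_simp
        rw [intervalIntegral.integral_eq_sub_of_hasDerivAt (fun ξ _ => h3 ξ)
          ((by fun_prop : Continuous fun ξ : ℝ => Real.exp (-(L * ξ))).intervalIntegrable _ _)]
        rw [mul_one, mul_zero, neg_zero, Real.exp_zero]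
        ring
      · simp
    rw [h2]
    have h3 : Real.exp (-(2 * L)) ≤ 1 / L := by
      rw [le_div_iff₀ hL0, mul_comm, ← le_div_iff₀ (Real.exp_pos _), one_div, ← Real.exp_neg,
        neg_neg]
      have := Real.add_one_le_exp (2 * L)
      linarith
    have h4 : (1 - Real.exp (-L)) / L ≤ 1 / L := by
      apply div_le_div_of_nonneg_right _ hL0.le
      linarith [Real.exp_pos (-L)]
    calc K * C * _ ≤ K * C * (1 / L + 1 / L) := by gcongr
      _ = _ := by ring
  -- step 2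
  have s2 : ∫ ξ in (0 : ℝ)..1, (w ξ : ℂ) * Mn ξ =
      ((L * (∫ ξ in (0 : ℝ)..1, w ξ * gs (L * ξ)) : ℝ) : ℂ) -
      ∑ n ∈ Finset.Icc 2 X, ((lam n * (∫ ξ in (0 : ℝ)..1, w ξ * gs (L * ξ - Real.log n)) : ℝ) : ℂ) *
        cexp (((-(t * Real.log n) : ℝ) : ℂ) * I) := by
    have e1 : ∀ ξ : ℝ, (w ξ : ℂ) * Mn ξ = (L : ℂ) * ((w ξ * gs (L * ξ) : ℝ) : ℂ) -
        ∑ n ∈ Finset.Icc 2 X, ((lam n : ℂ) * cexp (((-(t * Real.log n) : ℝ) : ℂ) * I)) *
          ((w ξ * gs (L * ξ - Real.log n) : ℝ) : ℂ) := by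
      intro ξ
      simp only [hMn]
      rw [mul_sub, Finset.mul_sum]
      congr 1
      · push_cast; ring
      · apply Finset.sum_congr rfl
        intro n _
        push_cast
        ring
    simp_rw [e1]
    rw [intervalIntegral.integral_sub, intervalIntegral.integral_const_mul,
      intervalIntegral.integral_ofReal, intervalIntegral.integral_finsetSum]
    · congr 1
      · push_cast; ring
      · apply Finset.sum_congr rfl
        intro n _
        rw [intervalIntegral.integral_const_mul, intervalIntegral.integral_ofReal]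
        push_cast
        ring
    · intro n _
      exact (by fun_prop : Continuous fun ξ : ℝ => ((lam n : ℂ) *
        cexp (((-(t * Real.log n) : ℝ) : ℂ) * I)) *
          ((w ξ * gs (L * ξ - Real.log n) : ℝ) : ℂ)).intervalIntegrable _ _
    · exact (by fun_prop : Continuous fun ξ : ℝ =>
        (L : ℂ) * ((w ξ * gs (L * ξ) : ℝ) : ℂ)).intervalIntegrable _ _
    · exact (by fun_prop : Continuous fun ξ : ℝ => ∑ n ∈ Finset.Icc 2 X, ((lam n : ℂ) *
        cexp (((-(t * Real.log n) : ℝ) : ℂ) * I)) *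
          ((w ξ * gs (L * ξ - Real.log n) : ℝ) : ℂ)).intervalIntegrable _ _
  -- step 3
  have hX1 : 1 ≤ X := by
    rw [hX, Nat.one_le_floor_iff]
    exact Real.one_le_rpow (by linarith) (by linarith [h.b0])
  have s3 : ∑ n ∈ Finset.Icc 2 X,
      ((lam n * (∫ ξ in (0 : ℝ)..1, w ξ * gs (L * ξ - Real.log n)) : ℝ) : ℂ) *
        cexp (((-(t * Real.log n) : ℝ) : ℂ) * I) =
      (∑ n ∈ Finset.Icc 1 X, (rn w L n : ℂ) * (n : ℂ) ^ (-(t : ℂ) * I)) +
        PP (al w L) ⌊T ^ b⌋₊ t := by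
    rw [← al_sum h hb' hT10 t, ← Finset.sum_add_distrib]
    have e1 : Finset.Icc 1 X = insert 1 (Finset.Icc 2 X) := by
      ext n
      rw [Finset.mem_insert, Finset.mem_Icc, Finset.mem_Icc]
      omega
    rw [← hL, e1, Finset.sum_insert (by simp)]
    have e2 : (rn w L 1 : ℂ) * ((1 : ℕ) : ℂ) ^ (-(t : ℂ) * I) +
        (al w L 1 : ℂ) * ((1 : ℕ) : ℂ) ^ (-(t : ℂ) * I) = 0 := by
      unfold rn al
      rw [lam_one]
      simp
    rw [e2, zero_add]
    apply Finset.sum_congr rfl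
    intro n hn
    rw [Finset.mem_Icc] at hn
    rw [cexp_cpow (by omega), ← add_mul]
    congr 1
    unfold rn
    push_cast
    ring
  -- conclusion
  set R := ∑ n ∈ Finset.Icc 1 X, (rn w L n : ℂ) * (n : ℂ) ^ (-(t : ℂ) * I) with hR
  set P := PP (al w L) ⌊T ^ b⌋₊ t with hP
  rw [s2, s3] at s1
  rw [SX_eq hwc]
  set Q := ∫ ξ in (0 : ℝ)..1, (w ξ : ℂ) * FF Z m (L * ξ) t with hQ
  have h1 := (Complex.abs_re_le_norm _).trans s1
  have h2 := main_term h hL0
  have h3 := Complex.abs_re_le_norm R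
  rw [Complex.sub_re, Complex.sub_re, Complex.ofReal_re, Complex.add_re] at h1
  rw [abs_le] at h1 h2 h3
  have h4 : (K : ℝ) / (2 * L) ≤ K / L := by
    apply div_le_div_of_nonneg_left hK hL0
    linarith
  have h5 : (2 * (K * C) + K + 1) / L = 2 * (K * C) / L + K / L + 1 / L := by ring
  have h6 : 0 < 1 / L := by positivity
  rw [abs_le, h5]
  constructor
  · linarith [h1.1, h2.1, h3.2]
  · linarith [h1.2, h2.2, h3.1]

end Pool.Agent.T9h26.TD
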