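import Pool.Agent.T9h26.TD.Cv
import Pool.Agent.W930.TCEFR

set_option autoImplicit false

/-! Index level: voids, clusters and passage to all indices. -/

open Complex Filter Topology Set MeasureTheory

namespace Pool.Agent.T9h26.TD

open TC (ordz ordT mu EFD)
open SG (ord NZ zmult ZS)
open W200.HW (Ix mem_Ix)
open Pool.Agent.Y747 (al dl Bx mem_Bx)
open Pool.Agent.TH873.EW (XV)

/-- the sum of `r` consecutive normalised gaps -/
noncomputable def Sr (r n : ℕ) : ℝ := ∑ i ∈ Finset.range r, dl (n + i)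

lemma Sr_le {r n : ℕ} (hn : 1 ≤ n) {T : ℝ} (hT : 0 < T) (h : ord (n + r) ≤ 2 * Real.pi * T) :
    Sr r n ≤ (ord (n + r) - ord n) / (2 * Real.pi) * Real.log T := by
  have hpi := Real.pi_pos
  have h1 : ∀ i ∈ Finset.range r, dl (n + i) ≤
      (ord (n + (i + 1)) - ord (n + i)) / (2 * Real.pi) * Real.log T := by
    intro i hi
    rw [Finset.mem_range] at hi
    show (ord (n + i + 1) - ord (n + i)) / (2 * Real.pi) * Real.log (ord (n + i) / (2 * Real.pi)) ≤ _
    rw [show n + (i + 1) = n + i + 1 by ring]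
    have hp := SG.ord_pos (show 1 ≤ n + i by omega)
    apply mul_le_mul_of_nonneg_left
    · apply Real.log_le_log (by positivity)
      rw [div_le_iff₀ (by positivity)]
      have := SG.ord_mono (show 1 ≤ n + i by omega) (show n + i ≤ n + r by omega)
      linarith
    · apply div_nonneg _ (by positivity)
      have := SG.ord_mono (show 1 ≤ n + i by omega) (show n + i ≤ n + i + 1 by omega)
      linarith
  calc Sr r n ≤ ∑ i ∈ Finset.range r, (ord (n + (i + 1)) - ord (n + i)) / (2 * Real.pi) *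
        Real.log T := Finset.sum_le_sum h1
    _ = _ := by
        rw [← Finset.sum_mul, ← Finset.sum_div,
          Finset.sum_range_sub (fun i => ord (n + i)) r, add_zero]

lemma Sr_ge {r n : ℕ} (hn : 1 ≤ n) {T : ℝ} (hT : 0 < T) (h : T ≤ ord n) :
    (ord (n + r) - ord n) / (2 * Real.pi) * Real.log (T / (2 * Real.pi)) ≤ Sr r n := by
  have hpi := Real.pi_pos
  have h1 : ∀ i ∈ Finset.range r, (ord (n + (i + 1)) - ord (n + i)) / (2 * Real.pi) *
      Real.log (T / (2 * Real.pi)) ≤ dl (n + i) := by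
    intro i hi
    rw [Finset.mem_range] at hi
    show _ ≤ (ord (n + i + 1) - ord (n + i)) / (2 * Real.pi) * Real.log (ord (n + i) / (2 * Real.pi))
    rw [show n + (i + 1) = n + i + 1 by ring]
    apply mul_le_mul_of_nonneg_left
    · apply Real.log_le_log (by positivity)
      apply div_le_div_of_nonneg_right _ (by positivity)
      have := SG.ord_mono hn (show n ≤ n + i by omega)
      linarith
    · apply div_nonneg _ (by positivity)
      have := SG.ord_mono (show 1 ≤ n + i by omega) (show n + i ≤ n + i + 1 by omega)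
      linarith
  refine le_trans (le_of_eq ?_) (Finset.sum_le_sum h1)
  rw [← Finset.sum_mul, ← Finset.sum_div,
    Finset.sum_range_sub (fun i => ord (n + i)) r, add_zero]

/-- a large sum forces a large block of ordinates -/
lemma long {r n : ℕ} (hn : 1 ≤ n) {T x : ℝ} (hT : 10 ≤ T) (h2 : ord n ≤ 2 * T)
    (h3 : 2 * Real.pi * x / Real.log T ≤ T) (h : x ≤ Sr r n) :
    ord n + 2 * Real.pi * x / Real.log T ≤ ord (n + r) := by
  have hpi := Real.pi_gt_three
  have hL : 0 < Real.log T := Real.log_pos (by linarith)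
  by_contra hc
  rw [not_le] at hc
  have h4 := Sr_le (r := r) hn (show 0 < T by linarith) (by nlinarith)
  have h5 : (ord (n + r) - ord n) / (2 * Real.pi) * Real.log T < x := by
    rw [div_mul_eq_mul_div, div_lt_iff₀ (by positivity)]
    have h6 : ord (n + r) - ord n < 2 * Real.pi * x / Real.log T := by linarith
    rw [lt_div_iff₀ hL] at h6
    linarith
  linarith

/-- the count of the ordinates after a large sum -/
lemma cO_le {r n : ℕ} (hn : 1 ≤ n) {U1 U2 t ρ : ℝ} (h1 : ord n ≤ t)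
    (h2 : t + 2 * ρ ≤ ord (n + r)) : cO U1 U2 (t + ρ) ρ ≤ r - 1 := by
  unfold cO
  have h3 : (Kx U1 U2).filter (fun k => |ord k - (t + ρ)| < ρ) ⊆ Finset.Ioo n (n + r) := by
    intro k hk
    rw [Finset.mem_filter, mem_Kx, abs_lt] at hk
    obtain ⟨⟨k1, k2, k3⟩, k4, k5⟩ := hk
    rw [Finset.mem_Ioo]
    constructor
    · by_contra hc
      have := SG.ord_mono k1 (show k ≤ n by omega)
      linarith
    · by_contra hc
      have := SG.ord_mono (show 1 ≤ n + r by omega) (show n + r ≤ k by omega)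
      linarith
  refine (Finset.card_le_card h3).trans ?_
  rw [Nat.card_Ioo]
  omega

/-- the count near a cluster -/
lemma cC_ge {m n : ℕ} (hn : 1 ≤ n) {U1 U2 t ρ κ : ℝ} (h1 : ord n ≤ t) (h2 : t ≤ ord n + κ)
    (hκ : κ ≤ ρ) (h3 : ord (n + m) ≤ ord n + ρ) (hU1 : U1 < ord n) (hU2 : ord (n + m) ≤ U2) :
    m + 1 ≤ cC U1 U2 t ρ := by
  unfold cC
  have h4 : Finset.Icc n (n + m) ⊆ (Kx U1 U2).filter (fun k => |ord k - t| ≤ ρ) := by
    intro k hk
    rw [Finset.mem_Icc] at hk
    have h5 := SG.ord_mono hn hk.1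
    have h6 := SG.ord_mono (show 1 ≤ k by omega) hk.2
    rw [Finset.mem_filter, mem_Kx, abs_le]
    refine ⟨⟨by omega, by linarith, by linarith⟩, by linarith, by linarith⟩
  refine le_trans (le_of_eq ?_) (Finset.card_le_card h4)
  rw [Nat.card_Icc]
  omega

/-- numerical: absorbing the factor -/
lemma absorb {ε C3 A : ℝ} (hε : 0 < ε) (hC3 : 1 ≤ C3) (hA : 168 * C3 / ε ^ 2 ≤ A) (hA1 : 1 ≤ A)
    {m' : ℝ} (hm : (1 - ε / 2) * A ≤ m') (hmA : m' ≤ A) :
    C3 * A * (Real.exp (-m') + Real.exp (-A)) + C3 * Real.exp (-A) ≤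
      1 / 7 * Real.exp (-((1 - ε) * A)) := by
  have h1 : Real.exp (-A) ≤ Real.exp (-m') := Real.exp_le_exp.2 (by linarith)
  have h2 : Real.exp (-m') ≤ Real.exp (-((1 - ε / 2) * A)) := Real.exp_le_exp.2 (by linarith)
  have h3 : C3 * A * (Real.exp (-m') + Real.exp (-A)) + C3 * Real.exp (-A) ≤
      3 * C3 * A * Real.exp (-((1 - ε / 2) * A)) := by
    have h4 : Real.exp (-A) ≤ Real.exp (-((1 - ε / 2) * A)) := h1.trans h2
    have h5 : C3 * A * (Real.exp (-m') + Real.exp (-A)) ≤
        C3 * A * (Real.exp (-((1 - ε / 2) * A)) + Real.exp (-((1 - ε / 2) * A))) := by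
      gcongr
    have h6 : C3 * Real.exp (-A) ≤ C3 * A * Real.exp (-((1 - ε / 2) * A)) := by
      have h7 : C3 ≤ C3 * A := by nlinarith
      exact mul_le_mul h7 h4 (Real.exp_pos _).le (by positivity)
    linarith
  refine h3.trans ?_
  have h4 : Real.exp (-((1 - ε) * A)) = Real.exp (-((1 - ε / 2) * A)) * Real.exp (ε * A / 2) := by
    rw [← Real.exp_add]
    congr 1
    ring
  rw [h4]
  have h5 : 21 * C3 * A ≤ Real.exp (ε * A / 2) := by
    have h6 := Real.quadratic_le_exp_of_nonneg (show 0 ≤ ε * A / 2 by positivity)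
    rw [div_le_iff₀ (by positivity)] at hA
    have h7 : 0 ≤ ε * A / 2 := by positivity
    have h8 : 21 * C3 * A ≤ (ε * A / 2) ^ 2 / 2 := by nlinarith
    linarith
  have h6 := Real.exp_pos (-((1 - ε / 2) * A))
  calc 3 * C3 * A * Real.exp (-((1 - ε / 2) * A)) =
      1 / 7 * (Real.exp (-((1 - ε / 2) * A)) * (21 * C3 * A)) := by ring
    _ ≤ _ := by gcongr

/-- **voids in a block, index level** -/
theorem void_blk (RH : RiemannHypothesis) {C : ℝ} (hC : 0 < C) {ε : ℝ} (hε : 0 < ε)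
    (hε1 : ε ≤ 1) : ∃ K : ℝ, 1 ≤ K ∧ ∀ (r : ℕ) (x : ℝ), 1 ≤ r → K * r ≤ x →
      ∃ T1 : ℝ, 10 ≤ T1 ∧ ∀ T : ℝ, T1 ≤ T → ∀ U1 U2 : ℝ, T ≤ U1 → U1 ≤ T + 1 → 2 * T - 1 ≤ U2 →
        U2 ≤ 2 * T → EFD C T (ordz U1 U2) mu → ∀ B : Finset ℕ, B ⊆ Kx U1 U2 →
        (∀ n ∈ B, x ≤ Sr r n ∧ T + 2 * Real.log T ≤ ord n ∧ ord n ≤ 2 * T - 2 * Real.log T) →
        (B.card : ℝ) ≤ 1 / 7 * Real.exp (-((1 - ε) * (x * Real.log x))) * (T * Real.log T) := by
  have hpi := Real.pi_pos
  have hpi3 := Real.pi_gt_three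
  set η := ε / 8 with hη
  have hη0 : 0 < η := by positivity
  have hη1 : η ≤ 1 / 8 := by rw [hη]; linarith
  have hηε : 8 * η = ε := by rw [hη]; ring
  obtain ⟨KV, hKV, hbV⟩ := blockV RH hC hη0 (by linarith : η ≤ 1)
  obtain ⟨C3, hC3, hcov⟩ := cover RH hC
  set X0 := max (168 * C3 / ε ^ 2) (max 8 (1 / η)) with hX0
  refine ⟨max X0 (2 * KV), ?_, fun r x hr hx => ?_⟩
  · refine le_max_of_le_left (le_max_of_le_right (le_max_of_le_left (by norm_num)))
  have hr1 : (1 : ℝ) ≤ r := by exact_mod_cast hr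
  have hX00 : 0 ≤ X0 := le_max_of_le_right (le_max_of_le_left (by norm_num))
  have hxX : X0 ≤ x := by
    have : X0 * 1 ≤ max X0 (2 * KV) * r :=
      mul_le_mul (le_max_left _ _) hr1 zero_le_one (hX00.trans (le_max_left _ _))
    linarith
  have hxK : 2 * KV * r ≤ x := (mul_le_mul_of_nonneg_right (le_max_right _ _) (by linarith)).trans hx
  have hx1 : 168 * C3 / ε ^ 2 ≤ x := (le_max_left _ _).trans hxX
  have hx8 : 8 ≤ x := ((le_max_left _ _).trans (le_max_right _ _)).trans hxX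
  have hxη : 1 / η ≤ x := ((le_max_right _ _).trans (le_max_right _ _)).trans hxX
  rw [div_le_iff₀ hη0] at hxη
  have hx0 : 0 < x := by linarith
  have hlogx : 2 ≤ Real.log x := by
    have h1 : Real.log 8 ≤ Real.log x := Real.log_le_log (by norm_num) hx8
    have h2 : Real.log 8 = 3 * Real.log 2 := by
      rw [show (8 : ℝ) = 2 ^ 3 by norm_num, Real.log_pow]
      norm_num
    have := Real.log_two_gt_d9
    linarith
  set A := x * Real.log x with hA
  have hAx : x ≤ A := by
    rw [hA]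
    nlinarith
  set y := (1 - η) * x with hy
  have hy0 : 0 < y := by
    rw [hy]
    apply mul_pos _ hx0
    linarith
  have hyx : y ≤ x := by rw [hy]; nlinarith
  have hylog : Real.log y ≤ Real.log x := Real.log_le_log hy0 hyx
  have hylog2 : (1 - η) * Real.log x ≤ Real.log y := by
    rw [hy, Real.log_mul (by linarith) hx0.ne']
    have h1 := Real.one_sub_inv_le_log_of_pos (show 0 < 1 - η by linarith)
    have h2 : (1 - η)⁻¹ ≤ 1 + 2 * η := by
      rw [inv_le_comm₀ (by linarith) (by linarith), ← one_div, div_le_iff₀ (by linarith)]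
      nlinarith
    nlinarith
  have hylog0 : 0 ≤ Real.log y := by
    refine le_trans ?_ hylog2
    apply mul_nonneg <;> linarith
  have hm1 : (1 - ε / 2) * A ≤ (1 - η) * (y * Real.log y) := by
    have h1 : y * ((1 - η) * Real.log x) ≤ y * Real.log y := mul_le_mul_of_nonneg_left hylog2 hy0.le
    have h2 : (1 - η) * (y * ((1 - η) * Real.log x)) ≤ (1 - η) * (y * Real.log y) :=
      mul_le_mul_of_nonneg_left h1 (by linarith)
    refine le_trans ?_ h2
    have h3 : (1 - η) * (y * ((1 - η) * Real.log x)) = (1 - η) ^ 3 * A := by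
      rw [hy, hA]; ring
    rw [h3]
    apply mul_le_mul_of_nonneg_right _ (by linarith)
    have h4 : (1 - η) ^ 3 = 1 - 3 * η + η ^ 2 * (3 - η) := by ring
    have h5 : 0 ≤ η ^ 2 * (3 - η) := mul_nonneg (sq_nonneg η) (by linarith)
    rw [h4]
    linarith
  have hm2 : (1 - η) * (y * Real.log y) ≤ A := by
    have h1 : y * Real.log y ≤ x * Real.log x := mul_le_mul hyx hylog hylog0 hx0.le
    have h2 : 0 ≤ y * Real.log y := mul_nonneg hy0.le hylog0
    rw [hA]
    nlinarith
  have hab := absorb hε hC3 (hx1.trans hAx) (by linarith) hm1 hm2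
  obtain ⟨T1, hT1, hV⟩ := hbV (r - 1) y (by
    have : (((r - 1 : ℕ)) : ℝ) + 1 = r := by
      rw [Nat.cast_sub hr]
      push_cast
      ring
    rw [this, hy]
    have h2 : (1 / 2) * x ≤ (1 - η) * x := mul_le_mul_of_nonneg_right (by linarith) hx0.le
    linarith)
  obtain ⟨T2, hT2, hcv⟩ := hcov A (by linarith)
  have ev1 : ∀ᶠ T : ℝ in atTop, 1 ≤ Real.log T := Real.tendsto_log_atTop.eventually_ge_atTop _
  obtain ⟨T3, hT3⟩ := eventually_atTop.1 ev1
  refine ⟨max (max T1 T2) (max T3 (max (2 * Real.pi * x) (Real.pi * y * Real.exp A))),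
    hT1.trans ((le_max_left _ _).trans (le_max_left _ _)), fun T hT U1 U2 hU1 hU1' hU2 hU2' hE B hB
      hP => ?_⟩
  have a1 : T1 ≤ T := ((le_max_left _ _).trans (le_max_left _ _)).trans hT
  have a2 : T2 ≤ T := ((le_max_right _ _).trans (le_max_left _ _)).trans hT
  have a3 : T3 ≤ T := ((le_max_left _ _).trans (le_max_right _ _)).trans hT
  have a4 : 2 * Real.pi * x ≤ T :=
    (((le_max_left _ _).trans (le_max_right _ _)).trans (le_max_right _ _)).trans hT
  have a5 : Real.pi * y * Real.exp A ≤ T :=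
    (((le_max_right _ _).trans (le_max_right _ _)).trans (le_max_right _ _)).trans hT
  have hT10 : 10 ≤ T := hT1.trans a1
  have hT0 : 0 < T := by linarith
  have hL1 := hT3 T a3
  set L := Real.log T with hL
  have hL0 : 0 < L := by linarith
  set ρ := Real.pi * y / L with hρ
  have hρ0 : 0 < ρ := by positivity
  have hcv2 := hcv T a2 U1 U2 (by linarith) hE B {t | t + ρ ∈ {c | cO U1 U2 c ρ ≤ r - 1}} hB
    (fun n hn => (hP n hn).2) (fun n hn t ht1 ht2 => by
      obtain ⟨p1, p2, p3⟩ := hP n hn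
      have hn1 : 1 ≤ n := (mem_Kx.1 (hB hn)).1
      have hlong := long (r := r) hn1 hT10 (by linarith) (by
        rw [← hL, div_le_iff₀ hL0]
        nlinarith) p1
      show cO U1 U2 (t + ρ) ρ ≤ r - 1
      apply cO_le hn1 ht1
      refine le_trans ?_ hlong
      have e1 : Real.pi / (2 * L) + 2 * ρ = 2 * Real.pi * (y + 1 / 4) / L := by
        rw [hρ]
        field_simp
        ring
      have e2 : 2 * Real.pi * (y + 1 / 4) / L ≤ 2 * Real.pi * x / L := by
        apply div_le_div_of_nonneg_right _ hL0.le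
        apply mul_le_mul_of_nonneg_left _ (by positivity)
        rw [hy]
        nlinarith
      linarith)
  have hsh := ms_shift (T := T) hρ0.le {c | cO U1 U2 c ρ ≤ r - 1}
  have hVT := hV T a1 U1 U2 (by linarith) hE
  rw [← hL, ← hρ] at hVT
  have hρT : ρ ≤ Real.exp (-A) * T := by
    have h1 : ρ ≤ Real.pi * y := div_le_self (by positivity) hL1
    have h2 : Real.exp (-A) * (Real.pi * y * Real.exp A) ≤ Real.exp (-A) * T :=
      mul_le_mul_of_nonneg_left a5 (Real.exp_pos _).le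
    have h3 : Real.exp (-A) * (Real.pi * y * Real.exp A) = Real.pi * y := by
      rw [Real.exp_neg]
      have := (Real.exp_pos A).ne'
      field_simp
    linarith
  have hms : ms T {t | t + ρ ∈ {c | cO U1 U2 c ρ ≤ r - 1}} ≤
      (Real.exp (-((1 - η) * (y * Real.log y))) + Real.exp (-A)) * T := by
    refine hsh.trans ?_
    rw [add_mul]
    exact add_le_add hVT hρT
  calc (B.card : ℝ) ≤ L * (C3 * A * ms T {t | t + ρ ∈ {c | cO U1 U2 c ρ ≤ r - 1}} +
        C3 * Real.exp (-A) * T) := hcv2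
    _ ≤ L * (C3 * A * ((Real.exp (-((1 - η) * (y * Real.log y))) + Real.exp (-A)) * T) +
        C3 * Real.exp (-A) * T) := by gcongr
    _ = L * T * (C3 * A * (Real.exp (-((1 - η) * (y * Real.log y))) + Real.exp (-A)) +
        C3 * Real.exp (-A)) := by ring
    _ ≤ L * T * (1 / 7 * Real.exp (-((1 - ε) * A))) := by
        apply mul_le_mul_of_nonneg_left hab (by positivity)
    _ = _ := by ring

/-- **clusters in a block, index level** -/
theorem clus_blk (RH : RiemannHypothesis) {C : ℝ} (hC : 0 < C) {ε : ℝ} (hε : 0 < ε)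
    (hε1 : ε ≤ 1) : ∃ K : ℝ, 1 ≤ K ∧ ∀ (m : ℕ) (h : ℝ), 0 ≤ h → K * (1 + h) ≤ m →
      ∃ T1 : ℝ, 10 ≤ T1 ∧ ∀ T : ℝ, T1 ≤ T → ∀ U1 U2 : ℝ, T ≤ U1 → U1 ≤ T + 1 → 2 * T - 1 ≤ U2 →
        U2 ≤ 2 * T → EFD C T (ordz U1 U2) mu → ∀ B : Finset ℕ, B ⊆ Kx U1 U2 →
        (∀ n ∈ B, Sr m n ≤ h ∧ T + 2 * Real.log T ≤ ord n ∧ ord n ≤ 2 * T - 2 * Real.log T) →
        (B.card : ℝ) ≤ 1 / 7 * Real.exp (-((1 - ε) * (m * Real.log m))) * (T * Real.log T) := by
  have hpi := Real.pi_pos
  have hpi3 := Real.pi_gt_three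
  set η := ε / 8 with hη
  have hη0 : 0 < η := by positivity
  have hη1 : η ≤ 1 / 8 := by rw [hη]; linarith
  have hηε : 8 * η = ε := by rw [hη]; ring
  obtain ⟨KV, hKV, hbV⟩ := blockC RH hC hη0 (by linarith : η ≤ 1)
  obtain ⟨C3, hC3, hcov⟩ := cover RH hC
  set X0 := max (168 * C3 / ε ^ 2) 8 with hX0
  refine ⟨max X0 (4 * KV), ?_, fun m h hh hm => ?_⟩
  · refine le_max_of_le_left (le_max_of_le_right (by norm_num))
  have hX00 : 0 ≤ X0 := le_max_of_le_right (by norm_num)
  have hxX : X0 ≤ m := by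
    have : X0 * 1 ≤ max X0 (4 * KV) * (1 + h) :=
      mul_le_mul (le_max_left _ _) (by linarith) zero_le_one (hX00.trans (le_max_left _ _))
    linarith
  have hxK : 4 * KV * (1 + h) ≤ m :=
    (mul_le_mul_of_nonneg_right (le_max_right _ _) (by linarith)).trans hm
  have hx1 : 168 * C3 / ε ^ 2 ≤ m := (le_max_left _ _).trans hxX
  have hx8 : (8 : ℝ) ≤ m := (le_max_right _ _).trans hxX
  have hx0 : (0 : ℝ) < m := by linarith
  have hlogx : 1 ≤ Real.log m := by
    rw [Real.le_log_iff_exp_le hx0]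
    have := Real.exp_one_lt_d9
    linarith
  set A := (m : ℝ) * Real.log m with hA
  have hAx : (m : ℝ) ≤ A := by
    rw [hA]
    nlinarith
  have hm1 : (1 - ε / 2) * A ≤ (1 - η) * A := by
    apply mul_le_mul_of_nonneg_right _ (by linarith)
    linarith
  have hm2 : (1 - η) * A ≤ A := by nlinarith
  have hab := absorb hε hC3 (hx1.trans hAx) (by linarith) hm1 hm2
  obtain ⟨T1, hT1, hV⟩ := hbV (4 * h + 1) (m + 1) (by linarith) (by
    push_cast
    nlinarith)
  obtain ⟨T2, hT2, hcv⟩ := hcov A (by linarith)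
  have ev1 : ∀ᶠ T : ℝ in atTop, max 4 (4 * Real.pi * h) ≤ Real.log T :=
    Real.tendsto_log_atTop.eventually_ge_atTop _
  obtain ⟨T3, hT3⟩ := eventually_atTop.1 ev1
  refine ⟨max (max T1 T2) T3,
    hT1.trans ((le_max_left _ _).trans (le_max_left _ _)), fun T hT U1 U2 hU1 hU1' hU2 hU2' hE B hB
      hP => ?_⟩
  have a1 : T1 ≤ T := ((le_max_left _ _).trans (le_max_left _ _)).trans hT
  have a2 : T2 ≤ T := ((le_max_right _ _).trans (le_max_left _ _)).trans hT
  have a3 : T3 ≤ T := (le_max_right _ _).trans hT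
  have hT10 : 10 ≤ T := hT1.trans a1
  have hT0 : 0 < T := by linarith
  have hL4 : 4 ≤ Real.log T := (le_max_left _ _).trans (hT3 T a3)
  have hLh : 4 * Real.pi * h ≤ Real.log T := (le_max_right _ _).trans (hT3 T a3)
  set L := Real.log T with hL
  have hL0 : 0 < L := by linarith
  set ρ := Real.pi * (4 * h + 1) / L with hρ
  have hlog2pi : Real.log (2 * Real.pi) ≤ L / 2 := by
    have h1 : Real.log (2 * Real.pi) ≤ Real.log (Real.exp 2) := by
      apply Real.log_le_log (by positivity)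
      have h2 : Real.exp 2 = Real.exp 1 * Real.exp 1 := by
        rw [← Real.exp_add]
        norm_num
      have h3 := Real.exp_one_gt_d9
      have h4 := Real.pi_lt_d2
      rw [h2]
      nlinarith
    rw [Real.log_exp] at h1
    linarith
  have hcv2 := hcv T a2 U1 U2 (by linarith) hE B {t | m + 1 ≤ cC U1 U2 t ρ} hB
    (fun n hn => (hP n hn).2) (fun n hn t ht1 ht2 => by
      obtain ⟨p1, p2, p3⟩ := hP n hn
      obtain ⟨hn1, q2, q3⟩ := mem_Kx.1 (hB hn)
      have hge := Sr_ge (r := m) hn1 hT0 (by linarith)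
      rw [Real.log_div hT0.ne' (by positivity), ← hL] at hge
      have h0 : 0 ≤ ord (n + m) - ord n := sub_nonneg.2 (SG.ord_mono hn1 (by omega))
      have h1 : (ord (n + m) - ord n) / (2 * Real.pi) * (L / 2) ≤ h := by
        refine le_trans ?_ (hge.trans p1)
        apply mul_le_mul_of_nonneg_left _ (by positivity)
        linarith
      have h2 : ord (n + m) - ord n ≤ 4 * Real.pi * h / L := by
        rw [le_div_iff₀ hL0]
        rw [div_mul_eq_mul_div, div_le_iff₀ (by positivity)] at h1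
        linarith
      have h3 : 4 * Real.pi * h / L ≤ 1 := by
        rw [div_le_one hL0]
        exact hLh
      show m + 1 ≤ cC U1 U2 t ρ
      apply cC_ge hn1 ht1 ht2
      · rw [← hL, hρ, div_le_div_iff₀ (by positivity) hL0]
        nlinarith [mul_pos hpi hL0, mul_nonneg (mul_pos hpi hL0).le hh]
      · have h4 : 4 * Real.pi * h / L ≤ ρ := by
          rw [hρ]
          apply div_le_div_of_nonneg_right _ hL0.le
          nlinarith
        linarith
      · linarith
      · linarith)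
  have hVT := hV T a1 U1 U2 (by linarith) hE
  rw [← hL, ← hρ] at hVT
  have hmon : Real.exp (-((1 - η) * (((m + 1 : ℕ) : ℝ) * Real.log ((m + 1 : ℕ) : ℝ)))) ≤
      Real.exp (-((1 - η) * A)) := by
    apply Real.exp_le_exp.2
    have h1 : A ≤ ((m + 1 : ℕ) : ℝ) * Real.log ((m + 1 : ℕ) : ℝ) := by
      rw [hA]
      have h2 : (m : ℝ) ≤ ((m + 1 : ℕ) : ℝ) := by push_cast; linarith
      exact mul_le_mul h2 (Real.log_le_log hx0 h2) (by linarith) (by positivity)
    have h2 := mul_le_mul_of_nonneg_left h1 (show 0 ≤ 1 - η by linarith)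
    linarith
  have hms : ms T {t | m + 1 ≤ cC U1 U2 t ρ} ≤
      (Real.exp (-((1 - η) * A)) + Real.exp (-A)) * T := by
    refine hVT.trans ?_
    apply mul_le_mul_of_nonneg_right _ hT0.le
    have := Real.exp_pos (-A)
    linarith
  calc (B.card : ℝ) ≤ L * (C3 * A * ms T {t | m + 1 ≤ cC U1 U2 t ρ} +
        C3 * Real.exp (-A) * T) := hcv2
    _ ≤ L * (C3 * A * ((Real.exp (-((1 - η) * A)) + Real.exp (-A)) * T) +
        C3 * Real.exp (-A) * T) := by gcongr
    _ = L * T * (C3 * A * (Real.exp (-((1 - η) * A)) + Real.exp (-A)) +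
        C3 * Real.exp (-A)) := by ring
    _ ≤ L * T * (1 / 7 * Real.exp (-((1 - ε) * A))) := by
        apply mul_le_mul_of_nonneg_left hab (by positivity)
    _ = _ := by ring

/-- **from blocks to all indices** -/
theorem trans_all (RH : RiemannHypothesis) {P : ℕ → Prop} {c : ℝ} (hc : 0 < c) {C T0 : ℝ}
    (hT0 : 10 ≤ T0) (hef : ∀ T : ℝ, T0 ≤ T → ∃ U1 U2 : ℝ, T ≤ U1 ∧ U1 ≤ T + 1 ∧ 2 * T - 1 ≤ U2 ∧
      U2 ≤ 2 * T ∧ EFD C T (ordz U1 U2) mu)
    (h : ∃ T1 : ℝ, 10 ≤ T1 ∧ ∀ T : ℝ, T1 ≤ T → ∀ U1 U2 : ℝ, T ≤ U1 → U1 ≤ T + 1 →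
      2 * T - 1 ≤ U2 → U2 ≤ 2 * T → EFD C T (ordz U1 U2) mu → ∀ B : Finset ℕ, B ⊆ Kx U1 U2 →
        (∀ n ∈ B, P n ∧ T + 2 * Real.log T ≤ ord n ∧ ord n ≤ 2 * T - 2 * Real.log T) →
        (B.card : ℝ) ≤ 1 / 7 * c * (T * Real.log T)) :
    ∀ᶠ N : ℕ in atTop, (({n : ℕ | 1 ≤ n ∧ n ≤ N ∧ P n}.ncard : ℕ) : ℝ) ≤ c * N := by
  classical
  have hpi := Real.pi_pos
  have hpi3 := Real.pi_gt_three
  have hpi4 := Real.pi_lt_d2
  obtain ⟨T1, hT1, hb⟩ := h
  obtain ⟨Le, hLe, hed⟩ := Pool.Agent.Y747.edge RH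
  have hkey := Pool.Agent.Y747.average RH (19 / 20 * c) 1 (fun n => if P n then 1 else 0)
    (fun n => by split_ifs <;> norm_num) (fun n => by split_ifs <;> norm_num) (fun ε hε => by
      have ev1 : ∀ᶠ V : ℝ in atTop, 1 ≤ Real.log V := Real.tendsto_log_atTop.eventually_ge_atTop _
      obtain ⟨V1, hV1⟩ := eventually_atTop.1 ev1
      have ev2 : ∀ᶠ V : ℝ in atTop, Real.log V ≤ ε / (48 * Real.pi * Le) * V := by
        have h1 := Real.isLittleO_log_id_atTop.bound
          (show 0 < ε / (48 * Real.pi * Le) by positivity)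
        filter_upwards [h1, eventually_ge_atTop 1] with V hV hV1
        have h2 := (le_abs_self _).trans hV
        rw [id, Real.norm_eq_abs, abs_of_nonneg (by linarith)] at h2
        exact h2
      obtain ⟨V2, hV2⟩ := eventually_atTop.1 ev2
      refine ⟨max (max T0 T1) (max (max V1 V2) 40),
        hT0.trans ((le_max_left _ _).trans (le_max_left _ _)), fun V hV => ?_⟩
      have a1 : T0 ≤ V := ((le_max_left _ _).trans (le_max_left _ _)).trans hV
      have a2 : T1 ≤ V := ((le_max_right _ _).trans (le_max_left _ _)).trans hV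
      have a3 : V1 ≤ V :=
        (((le_max_left _ _).trans (le_max_left _ _)).trans (le_max_right _ _)).trans hV
      have a4 : V2 ≤ V :=
        (((le_max_right _ _).trans (le_max_left _ _)).trans (le_max_right _ _)).trans hV
      have a5 : 40 ≤ V := ((le_max_right _ _).trans (le_max_right _ _)).trans hV
      have hV0 : 0 < V := by linarith
      obtain ⟨U1, U2, u1, u2, u3, u4, u5⟩ := hef V a1
      set L := Real.log V with hL
      have hL1 : 1 ≤ L := hV1 V a3
      have hLV : L ≤ ε / (48 * Real.pi * Le) * V := hV2 V a4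
      set B := (Bx V).filter (fun n => P n ∧ V + 2 * L ≤ ord n ∧ ord n ≤ 2 * V - 2 * L) with hB
      have hB1 := hb V a2 U1 U2 u1 u2 u3 u4 u5 B (by
        intro n hn
        rw [hB, Finset.mem_filter, mem_Bx] at hn
        obtain ⟨⟨n1, n2, n3⟩, n4⟩ := hn
        rw [mem_Kx]
        exact ⟨n1, by linarith, by linarith⟩) (by
        intro n hn
        rw [hB, Finset.mem_filter] at hn
        exact hn.2)
      have hE1 := hed (2 * V) (by linarith) V (V + 2 * L) (by linarith)
      have hE2 := hed (2 * V) (by linarith) (2 * V - 2 * L) (2 * V) (by linarith)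
      set E1 := (Ix (2 * V)).filter (fun n => V < ord n ∧ ord n ≤ V + 2 * L) with hE1d
      set E2 := (Ix (2 * V)).filter (fun n => 2 * V - 2 * L < ord n ∧ ord n ≤ 2 * V) with hE2d
      have hsum : ∑ n ∈ Bx V, (if P n then (1 : ℝ) else 0) ≤ B.card + E1.card + E2.card := by
        rw [← Finset.sum_filter, Finset.sum_const, nsmul_eq_mul, mul_one]
        have hsub : (Bx V).filter P ⊆ (B ∪ E1) ∪ E2 := by
          intro n hn
          rw [Finset.mem_filter, mem_Bx] at hn
          obtain ⟨⟨n1, n2, n3⟩, n4⟩ := hn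
          simp only [Finset.mem_union, hB, hE1d, hE2d, Finset.mem_filter, mem_Bx, mem_Ix]
          by_cases c1 : V + 2 * L ≤ ord n
          · by_cases c2 : ord n ≤ 2 * V - 2 * L
            · exact Or.inl (Or.inl ⟨⟨n1, n2, n3⟩, n4, c1, c2⟩)
            · rw [not_le] at c2
              exact Or.inr ⟨⟨n1, by linarith⟩, c2, by linarith⟩
          · rw [not_le] at c1
            exact Or.inl (Or.inr ⟨⟨n1, by linarith⟩, by linarith, c1.le⟩)
        have h1 := (Finset.card_le_card hsub).trans ((Finset.card_union_le _ _).trans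
          (Nat.add_le_add_right (Finset.card_union_le _ _) _))
        exact_mod_cast h1
      refine hsum.trans ?_
      have hlog2 : Real.log (2 * V) ≤ 2 * L := by
        rw [Real.log_mul (by norm_num) hV0.ne']
        have : Real.log 2 ≤ Real.log V := Real.log_le_log (by norm_num) (by linarith)
        linarith
      have hE1' : (E1.card : ℝ) ≤ 6 * Le * L ^ 2 := by
        refine hE1.trans ?_
        have h1 : V + 2 * L - V + 1 ≤ 3 * L := by linarith
        calc Le * Real.log (2 * V) * (V + 2 * L - V + 1) ≤ Le * (2 * L) * (3 * L) := by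
              apply mul_le_mul _ h1 (by linarith) (by positivity)
              gcongr
          _ = _ := by ring
      have hE2' : (E2.card : ℝ) ≤ 6 * Le * L ^ 2 := by
        refine hE2.trans ?_
        have h1 : 2 * V - (2 * V - 2 * L) + 1 ≤ 3 * L := by linarith
        calc Le * Real.log (2 * V) * (2 * V - (2 * V - 2 * L) + 1) ≤ Le * (2 * L) * (3 * L) := by
              apply mul_le_mul _ h1 (by linarith) (by positivity)
              gcongr
          _ = _ := by ring
      have hXV : XV V = (V - 2) * L / (2 * Real.pi) := rfl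
      have hmain : 1 / 7 * c * (V * L) ≤ 19 / 20 * c * XV V := by
        rw [hXV]
        have h1 : 1 / 7 * V ≤ 19 / 20 * ((V - 2) / (2 * Real.pi)) := by
          rw [← mul_div_assoc, le_div_iff₀ (by positivity)]
          nlinarith
        have h2 : 0 ≤ c * L := by positivity
        calc 1 / 7 * c * (V * L) = (1 / 7 * V) * (c * L) := by ring
          _ ≤ (19 / 20 * ((V - 2) / (2 * Real.pi))) * (c * L) := mul_le_mul_of_nonneg_right h1 h2
          _ = _ := by ring
      have hedge : 12 * Le * L ^ 2 ≤ ε * XV V := by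
        rw [hXV]
        have h1 : 12 * Le * L ≤ ε * ((V - 2) / (2 * Real.pi)) := by
          have h2 : 12 * Le * L ≤ 12 * Le * (ε / (48 * Real.pi * Le) * V) := by gcongr
          have h3 : 12 * Le * (ε / (48 * Real.pi * Le) * V) = ε * (V / 2 / (2 * Real.pi)) := by
            field_simp
            ring
          rw [h3] at h2
          refine h2.trans ?_
          apply mul_le_mul_of_nonneg_left _ hε.le
          apply div_le_div_of_nonneg_right _ (by positivity)
          linarith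
        calc 12 * Le * L ^ 2 = (12 * Le * L) * L := by ring
          _ ≤ (ε * ((V - 2) / (2 * Real.pi))) * L := mul_le_mul_of_nonneg_right h1 (by linarith)
          _ = _ := by ring
      calc (B.card : ℝ) + E1.card + E2.card ≤ 1 / 7 * c * (V * L) + 6 * Le * L ^ 2 +
            6 * Le * L ^ 2 := by linarith
        _ ≤ (19 / 20 * c + ε) * XV V := by linarith) (1 / 20 * c) (by positivity)
  filter_upwards [hkey] with N hN
  have e1 : {n : ℕ | 1 ≤ n ∧ n ≤ N ∧ P n} = ((Finset.Icc 1 N).filter P : Finset ℕ) := by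
    ext n
    simp only [mem_setOf_eq, Finset.coe_filter, Finset.mem_Icc]
    tauto
  rw [e1, Set.ncard_coe_finset]
  rw [← Finset.sum_filter, Finset.sum_const, nsmul_eq_mul, mul_one] at hN
  refine hN.trans (le_of_eq ?_)
  ring

/-- **long sums** -/
theorem long_all (RH : RiemannHypothesis) {ε : ℝ} (hε : 0 < ε) (hε1 : ε ≤ 1) :
    ∃ K : ℝ, 1 ≤ K ∧ ∀ (r : ℕ) (x : ℝ), 1 ≤ r → K * r ≤ x → ∀ᶠ N : ℕ in atTop,
      (({n : ℕ | 1 ≤ n ∧ n ≤ N ∧ x ≤ Sr r n}.ncard : ℕ) : ℝ) ≤
        Real.exp (-((1 - ε) * (x * Real.log x))) * N := by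
  obtain ⟨C, T0, hC, hT0, hef⟩ := Pool.Agent.W930.TCEFR.efr RH
  obtain ⟨K, hK, h⟩ := void_blk RH hC hε hε1
  refine ⟨K, hK, fun r x hr hx => ?_⟩
  exact trans_all RH (Real.exp_pos _) hT0 hef (h r x hr hx)

/-- **clusters** -/
theorem clus_all (RH : RiemannHypothesis) {ε : ℝ} (hε : 0 < ε) (hε1 : ε ≤ 1) :
    ∃ K : ℝ, 1 ≤ K ∧ ∀ (m : ℕ) (h : ℝ), 0 ≤ h → K * (1 + h) ≤ m → ∀ᶠ N : ℕ in atTop,
      (({n : ℕ | 1 ≤ n ∧ n ≤ N ∧ Sr m n ≤ h}.ncard : ℕ) : ℝ) ≤
        Real.exp (-((1 - ε) * (m * Real.log m))) * N := by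
  obtain ⟨C, T0, hC, hT0, hef⟩ := Pool.Agent.W930.TCEFR.efr RH
  obtain ⟨K, hK, h⟩ := clus_blk RH hC hε hε1
  refine ⟨K, hK, fun m hh h0 hm => ?_⟩
  exact trans_all RH (Real.exp_pos _) hT0 hef (h m hh h0 hm)

end Pool.Agent.T9h26.TD
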