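import Pool.Agent.T9h26.TD.Ms

set_option autoImplicit false

/-! The transform of a smooth function times the triangle. -/

open Complex Filter Topology Set MeasureTheory

namespace Pool.Agent.T9h26.TD

/-- the unit circle -/
noncomputable def ex (θ : ℝ) : ℂ := cexp ((θ : ℂ) * I)

lemma norm_ex (θ : ℝ) : ‖ex θ‖ = 1 := Complex.norm_exp_ofReal_mul_I θ

lemma ex_add (a b : ℝ) : ex (a + b) = ex a * ex b := by
  unfold ex
  rw [← Complex.exp_add]
  congr 1
  push_cast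
  ring

lemma ex_zero : ex 0 = 1 := by simp [ex]

lemma ex_sum {ι : Type*} (s : Finset ι) (f : ι → ℝ) : ex (∑ i ∈ s, f i) = ∏ i ∈ s, ex (f i) := by
  classical
  induction s using Finset.induction_on with
  | empty => simp [ex_zero]
  | insert a s ha ih => rw [Finset.sum_insert ha, Finset.prod_insert ha, ex_add, ih]

lemma ex_deriv (z ξ : ℝ) : HasDerivAt (fun ξ : ℝ => ex (ξ * z)) ((z : ℂ) * I * ex (ξ * z)) ξ := by
  unfold ex
  have h1 : HasDerivAt (fun ξ : ℝ => (((ξ * z : ℝ) : ℂ) * I)) ((z : ℂ) * I) ξ := by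
    have h2 : HasDerivAt (fun ξ : ℝ => ((ξ * z : ℝ) : ℂ)) (((1 * z : ℝ)) : ℂ) ξ :=
      ((hasDerivAt_id ξ).mul_const z).ofReal_comp
    rw [one_mul] at h2
    exact h2.mul_const I
  have h3 := h1.cexp
  rw [mul_comm] at h3
  exact h3

lemma ex_cont (z : ℝ) : Continuous fun ξ : ℝ => ex (ξ * z) := by
  unfold ex; fun_prop

/-- a twice differentiable function with a bound on the unit interval -/
def N2 (R : ℝ → ℂ) (A : ℝ) : Prop :=
  ∃ R1 R2 : ℝ → ℂ, (∀ ξ, HasDerivAt R (R1 ξ) ξ) ∧ (∀ ξ, HasDerivAt R1 (R2 ξ) ξ) ∧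
    Continuous R2 ∧ ∀ ξ, |ξ| ≤ 1 → ‖R ξ‖ + ‖R1 ξ‖ + ‖R2 ξ‖ / 2 ≤ A

lemma N2.mono {R : ℝ → ℂ} {A B : ℝ} (h : N2 R A) (hAB : A ≤ B) : N2 R B := by
  obtain ⟨R1, R2, h1, h2, h3, h4⟩ := h
  exact ⟨R1, R2, h1, h2, h3, fun ξ hξ => (h4 ξ hξ).trans hAB⟩

lemma N2.nonneg {R : ℝ → ℂ} {A : ℝ} (h : N2 R A) : 0 ≤ A := by
  obtain ⟨R1, R2, h1, h2, h3, h4⟩ := h
  refine le_trans ?_ (h4 0 (by simp))
  positivity

lemma N2.cont {R : ℝ → ℂ} {A : ℝ} (h : N2 R A) : Continuous R := by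
  obtain ⟨R1, R2, h1, h2, h3, h4⟩ := h
  exact continuous_iff_continuousAt.2 fun ξ => (h1 ξ).continuousAt

lemma N2.one : N2 (fun _ => 1) 1 := by
  refine ⟨fun _ => 0, fun _ => 0, fun ξ => hasDerivAt_const ξ 1, fun ξ => hasDerivAt_const ξ 0,
    continuous_const, fun ξ _ => ?_⟩
  simp

lemma N2.mul {R S : ℝ → ℂ} {A B : ℝ} (h : N2 R A) (h' : N2 S B) :
    N2 (fun ξ => R ξ * S ξ) (A * B) := by
  obtain ⟨R1, R2, h1, h2, h3, h4⟩ := h
  obtain ⟨S1, S2, k1, k2, k3, k4⟩ := h'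
  have cR : Continuous R := continuous_iff_continuousAt.2 fun ξ => (h1 ξ).continuousAt
  have cR1 : Continuous R1 := continuous_iff_continuousAt.2 fun ξ => (h2 ξ).continuousAt
  have cS : Continuous S := continuous_iff_continuousAt.2 fun ξ => (k1 ξ).continuousAt
  have cS1 : Continuous S1 := continuous_iff_continuousAt.2 fun ξ => (k2 ξ).continuousAt
  refine ⟨fun ξ => R1 ξ * S ξ + R ξ * S1 ξ,
    fun ξ => (R2 ξ * S ξ + R1 ξ * S1 ξ) + (R1 ξ * S1 ξ + R ξ * S2 ξ), ?_, ?_, by fun_prop, ?_⟩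
  · intro ξ
    exact (h1 ξ).mul (k1 ξ)
  · intro ξ
    exact ((h2 ξ).mul (k1 ξ)).add ((h1 ξ).mul (k2 ξ))
  · intro ξ hξ
    have a := h4 ξ hξ
    have b := k4 ξ hξ
    have e0 : ‖R ξ * S ξ‖ = ‖R ξ‖ * ‖S ξ‖ := norm_mul _ _
    have e1 : ‖R1 ξ * S ξ + R ξ * S1 ξ‖ ≤ ‖R1 ξ‖ * ‖S ξ‖ + ‖R ξ‖ * ‖S1 ξ‖ := by
      refine (norm_add_le _ _).trans (le_of_eq ?_)
      rw [norm_mul, norm_mul]
    have e2 : ‖(R2 ξ * S ξ + R1 ξ * S1 ξ) + (R1 ξ * S1 ξ + R ξ * S2 ξ)‖ ≤
        (‖R2 ξ‖ * ‖S ξ‖ + ‖R1 ξ‖ * ‖S1 ξ‖) + (‖R1 ξ‖ * ‖S1 ξ‖ + ‖R ξ‖ * ‖S2 ξ‖) := by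
      refine (norm_add_le _ _).trans (add_le_add ?_ ?_)
      · refine (norm_add_le _ _).trans (le_of_eq ?_)
        rw [norm_mul, norm_mul]
      · refine (norm_add_le _ _).trans (le_of_eq ?_)
        rw [norm_mul, norm_mul]
    have n0 := norm_nonneg (R ξ)
    have n1 := norm_nonneg (R1 ξ)
    have n2 := norm_nonneg (R2 ξ)
    have m0 := norm_nonneg (S ξ)
    have m1 := norm_nonneg (S1 ξ)
    have m2 := norm_nonneg (S2 ξ)
    have key : (‖R ξ‖ + ‖R1 ξ‖ + ‖R2 ξ‖ / 2) * (‖S ξ‖ + ‖S1 ξ‖ + ‖S2 ξ‖ / 2) ≤ A * B :=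
      mul_le_mul a b (by positivity) (le_trans (by positivity) a)
    have p1 := mul_nonneg n1 m2
    have p2 := mul_nonneg n2 m1
    have p3 := mul_nonneg n2 m2
    simp only
    rw [e0]
    nlinarith

lemma N2.prod {ι : Type*} (s : Finset ι) {R : ι → ℝ → ℂ} {A : ι → ℝ}
    (h : ∀ i ∈ s, N2 (R i) (A i)) : N2 (fun ξ => ∏ i ∈ s, R i ξ) (∏ i ∈ s, A i) := by
  classical
  induction s using Finset.induction_on with
  | empty => simpa using N2.one
  | insert a s ha ih =>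
    have h1 := (h a (Finset.mem_insert_self _ _)).mul
      (ih fun i hi => h i (Finset.mem_insert_of_mem hi))
    rw [Finset.prod_insert ha]
    simpa only [Finset.prod_insert ha] using h1

lemma N2.sub {R S : ℝ → ℂ} {A B : ℝ} (h : N2 R A) (h' : N2 S B) :
    N2 (fun ξ => R ξ - S ξ) (A + B) := by
  obtain ⟨R1, R2, h1, h2, h3, h4⟩ := h
  obtain ⟨S1, S2, k1, k2, k3, k4⟩ := h'
  refine ⟨fun ξ => R1 ξ - S1 ξ, fun ξ => R2 ξ - S2 ξ, fun ξ => (h1 ξ).sub (k1 ξ),
    fun ξ => (h2 ξ).sub (k2 ξ), h3.sub k3, fun ξ hξ => ?_⟩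
  have a := h4 ξ hξ
  have b := k4 ξ hξ
  have e0 := norm_sub_le (R ξ) (S ξ)
  have e1 := norm_sub_le (R1 ξ) (S1 ξ)
  have e2 := norm_sub_le (R2 ξ) (S2 ξ)
  simp only
  linarith

lemma N2.ex (x : ℝ) : N2 (fun ξ => ex (ξ * x)) (1 + |x| + x ^ 2 / 2) := by
  refine ⟨fun ξ => (x : ℂ) * I * TD.ex (ξ * x), fun ξ => (x : ℂ) * I * ((x : ℂ) * I * TD.ex (ξ * x)),
    fun ξ => ex_deriv x ξ, fun ξ => (ex_deriv x ξ).const_mul _, ?_, fun ξ _ => ?_⟩
  · have := ex_cont x
    fun_prop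
  · simp only [norm_mul, norm_ex, Complex.norm_I, mul_one, Complex.norm_real, Real.norm_eq_abs]
    have : |x| * |x| = x ^ 2 := by rw [← sq, sq_abs]
    rw [this]

lemma N2.neg {R : ℝ → ℂ} {A : ℝ} (h : N2 R A) : N2 (fun ξ => R (-ξ)) A := by
  obtain ⟨R1, R2, h1, h2, h3, h4⟩ := h
  refine ⟨fun ξ => -R1 (-ξ), fun ξ => R2 (-ξ), ?_, ?_, by fun_prop, ?_⟩
  · intro ξ
    have := (h1 (-ξ)).scomp ξ (hasDerivAt_neg ξ)
    simpa [Function.comp_def] using this
  · intro ξ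
    have := ((h2 (-ξ)).scomp ξ (hasDerivAt_neg ξ)).neg
    simpa [Function.comp_def, Pi.neg_def] using this
  · intro ξ hξ
    have := h4 (-ξ) (by rwa [abs_neg])
    simpa using this

/-- the remainder of the exponential series -/
noncomputable def rem (m : ℕ) (θ : ℝ) : ℂ :=
  ex θ - ∑ k ∈ Finset.range m, ((θ : ℂ) * I) ^ k / k.factorial

lemma rem_succ_deriv (m : ℕ) (θ : ℝ) : HasDerivAt (rem (m + 1)) (I * rem m θ) θ := by
  unfold rem
  have h1 : HasDerivAt ex (I * ex θ) θ := by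
    have := ex_deriv 1 θ
    simpa using this
  have h2 : HasDerivAt (fun θ : ℝ => ∑ k ∈ Finset.range (m + 1), ((θ : ℂ) * I) ^ k / k.factorial)
      (I * ∑ k ∈ Finset.range m, ((θ : ℂ) * I) ^ k / k.factorial) θ := by
    have h3 : ∀ k ∈ Finset.range (m + 1), HasDerivAt
        (fun θ : ℝ => ((θ : ℂ) * I) ^ k / (k.factorial : ℂ))
        ((k : ℂ) * ((θ : ℂ) * I) ^ (k - 1) * I / k.factorial) θ := by
      intro k _
      have h4 : HasDerivAt (fun θ : ℝ => (θ : ℂ) * I) I θ := by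
        have := (hasDerivAt_id θ).ofReal_comp.mul_const I
        simpa using this
      exact (h4.pow k).div_const _
    have h5 := HasDerivAt.fun_sum h3
    refine h5.congr_deriv ?_
    rw [Finset.sum_range_succ', Finset.mul_sum]
    simp only [Nat.cast_zero, zero_mul, zero_div, add_zero]
    apply Finset.sum_congr rfl
    intro k _
    rw [Nat.factorial_succ, Nat.add_sub_cancel]
    have hk : ((k : ℂ) + 1) ≠ 0 := by exact_mod_cast Nat.succ_ne_zero k
    have hf : ((k.factorial : ℕ) : ℂ) ≠ 0 := by exact_mod_cast Nat.factorial_ne_zero k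
    push_cast
    field_simp
  have h6 := h1.sub h2
  rw [← mul_sub] at h6
  exact h6

lemma rem_zero (m : ℕ) : rem (m + 1) 0 = 0 := by
  unfold rem
  rw [ex_zero, Finset.sum_range_succ']
  simp

lemma rem_neg (m : ℕ) (θ : ℝ) : rem m (-θ) = (starRingEnd ℂ) (rem m θ) := by
  unfold rem ex
  rw [map_sub, map_sum, ← Complex.exp_conj]
  congr 1
  · congr 1
    simp
  · apply Finset.sum_congr rfl
    intro k _
    rw [map_div₀, map_pow, map_mul, Complex.conj_I, Complex.conj_ofReal]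
    congr 1
    · push_cast
      ring
    · simp

lemma rem_cont (m : ℕ) : Continuous (rem m) := by
  unfold rem ex
  fun_prop

lemma rem_le (m : ℕ) (θ : ℝ) : ‖rem m θ‖ ≤ |θ| ^ m / m.factorial := by
  wlog hθ : 0 ≤ θ with H
  · have := H m (-θ) (by linarith)
    rw [rem_neg, abs_neg] at this
    simpa using this
  rw [abs_of_nonneg hθ]
  induction m generalizing θ with
  | zero =>
    simp [rem, norm_ex]
  | succ m ih =>
    have h1 : rem (m + 1) θ = ∫ s in (0 : ℝ)..θ, I * rem m s := by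
      rw [intervalIntegral.integral_eq_sub_of_hasDerivAt (f := rem (m + 1))
        (fun s _ => rem_succ_deriv m s), rem_zero, sub_zero]
      have := rem_cont m
      exact (by fun_prop : Continuous fun s => I * rem m s).intervalIntegrable _ _
    rw [h1]
    have h2 : ‖∫ s in (0 : ℝ)..θ, I * rem m s‖ ≤ ∫ s in (0 : ℝ)..θ, s ^ m / m.factorial := by
      refine (intervalIntegral.norm_integral_le_integral_norm hθ).trans ?_
      apply intervalIntegral.integral_mono_on hθ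
      · have := rem_cont m
        exact (by fun_prop : Continuous fun s => ‖I * rem m s‖).intervalIntegrable _ _
      · exact (by fun_prop : Continuous fun s : ℝ => s ^ m / m.factorial).intervalIntegrable _ _
      · intro s hs
        rw [norm_mul, Complex.norm_I, one_mul]
        exact ih s hs.1
    refine h2.trans (le_of_eq ?_)
    rw [intervalIntegral.integral_div, integral_pow, Nat.factorial_succ]
    push_cast
    rw [zero_pow (by omega), sub_zero, div_div]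

/-- the remainder as a function of the frequency -/
lemma N2.rem (k : ℕ) (hk : 1 ≤ k) (x : ℝ) :
    N2 (fun ξ => rem (2 * k) (ξ * x)) (2 * x ^ (2 * k) / (2 * k - 2).factorial) := by
  obtain ⟨m, hm⟩ : ∃ m, 2 * k = m + 2 := ⟨2 * k - 2, by omega⟩
  rw [hm]
  have hcomp : ∀ (j : ℕ) (ξ : ℝ), HasDerivAt (fun ξ : ℝ => TD.rem (j + 1) (ξ * x))
      ((x : ℂ) * (I * TD.rem j (ξ * x))) ξ := by
    intro j ξ
    have h1 : HasDerivAt (fun ξ : ℝ => ξ * x) x ξ := by
      simpa using (hasDerivAt_id ξ).mul_const x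
    have h2 := (rem_succ_deriv j (ξ * x)).scomp ξ h1
    simpa [Function.comp_def] using h2
  refine ⟨fun ξ => (x : ℂ) * (I * TD.rem (m + 1) (ξ * x)),
    fun ξ => (x : ℂ) * (I * ((x : ℂ) * (I * TD.rem m (ξ * x)))), fun ξ => hcomp (m + 1) ξ,
    fun ξ => ((hcomp m ξ).const_mul I).const_mul _, ?_, fun ξ hξ => ?_⟩
  · have := rem_cont m
    fun_prop
  · simp only [norm_mul, Complex.norm_I, one_mul, Complex.norm_real, Real.norm_eq_abs]
    have hx := abs_nonneg x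
    have hb : ∀ j : ℕ, ‖TD.rem j (ξ * x)‖ ≤ |x| ^ j / j.factorial := by
      intro j
      refine (rem_le j _).trans ?_
      apply div_le_div_of_nonneg_right _ (by positivity)
      apply pow_le_pow_left₀ (abs_nonneg _)
      rw [abs_mul]
      calc |ξ| * |x| ≤ 1 * |x| := mul_le_mul_of_nonneg_right hξ hx
        _ = |x| := one_mul _
    have b0 := hb (m + 2)
    have b1 := mul_le_mul_of_nonneg_left (hb (m + 1)) hx
    have b2 := mul_le_mul_of_nonneg_left (mul_le_mul_of_nonneg_left (hb m) hx) hx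
    have hxm : x ^ (m + 2) = |x| ^ (m + 2) := by
      rw [← hm, pow_mul, pow_mul, sq_abs]
    have hf : (0 : ℝ) < m.factorial := by exact_mod_cast Nat.factorial_pos m
    have hpow : 0 ≤ |x| ^ (m + 2) := by positivity
    have c0 : |x| ^ (m + 2) / ((m + 2).factorial : ℝ) ≤ 1 / 2 * (|x| ^ (m + 2) / m.factorial) := by
      rw [div_le_iff₀ (by positivity), Nat.factorial_succ, Nat.factorial_succ]
      push_cast
      have hm0 : (0 : ℝ) ≤ m := Nat.cast_nonneg m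
      have e : 1 / 2 * (|x| ^ (m + 2) / (m.factorial : ℝ)) * (((m : ℝ) + 1 + 1) *
          (((m : ℝ) + 1) * m.factorial)) = |x| ^ (m + 2) * ((m + 2) * (m + 1) / 2) := by
        field_simp
        ring
      rw [e]
      have : (1 : ℝ) ≤ (m + 2) * (m + 1) / 2 := by nlinarith
      nlinarith
    have c1 : |x| * (|x| ^ (m + 1) / ((m + 1).factorial : ℝ)) ≤ |x| ^ (m + 2) / m.factorial := by
      have e : |x| * (|x| ^ (m + 1) / ((m + 1).factorial : ℝ)) =
          |x| ^ (m + 2) / ((m + 1).factorial : ℝ) := by ring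
      rw [e]
      apply div_le_div_of_nonneg_left hpow hf
      exact_mod_cast Nat.factorial_le (Nat.le_succ m)
    have c2 : |x| * (|x| * (|x| ^ m / (m.factorial : ℝ))) = |x| ^ (m + 2) / m.factorial := by ring
    rw [hxm, show m + 2 - 2 = m by omega]
    have e3 : 2 * |x| ^ (m + 2) / (m.factorial : ℝ) = 2 * (|x| ^ (m + 2) / m.factorial) := by ring
    rw [e3]
    rw [c2] at b2
    linarith

end Pool.Agent.T9h26.TD
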