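import Pool.Agent.T9h26.TD.Sw

set_option autoImplicit false

/-! Moderate deviations of the number of ordinates in a window: block level. -/

open Complex Filter Topology Set MeasureTheory

namespace Pool.Agent.T9h26.TD

open TC (ordz ordT mu EFD)
open SG (ord NZ zmult ZS)
open W200.HW (Ix mem_Ix)
open Pool.Agent.Y747 (al)

/-- the variance scale -/
noncomputable def Vr (r : ℝ) : ℝ := 2 / Real.pi ^ 2 * Real.log r

lemma two_pi_sq : (1 / 5 : ℝ) ≤ 2 / Real.pi ^ 2 := by
  have := Real.pi_lt_d2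
  have hpi := Real.pi_pos
  rw [div_le_div_iff₀ (by norm_num) (by positivity)]
  nlinarith

lemma two_pi_sq' : 2 / Real.pi ^ 2 ≤ 1 := by
  have hpi := Real.pi_gt_three
  rw [div_le_one (by positivity)]
  nlinarith

/-- the parameters -/
lemma par {ε : ℝ} (hε : 0 < ε) : ∃ r0 : ℝ, 10 ≤ r0 ∧ ∀ r : ℝ, r0 ≤ r → ∀ k : ℕ, 2 ≤ k →
    (k : ℝ) ≤ Real.log r → ∀ y : ℝ, r / 2 ≤ y → y ≤ 2 * r → ∃ (j : ℕ) (b : ℝ), 1 ≤ j ∧ 0 < b ∧
      b ≤ 1 / k ∧ b ≤ 1 / 2 ∧ b * y = j ∧ 1 / b ≤ 2 * k ∧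
      ∀ (S : Finset ℕ) (σ : ℝ), |σ| ≤ 1 → Ker S j σ → S.card ≤ j + 1 →
        |var (sc (Gs S j b) b) - Vr r| ≤ ε * Vr r := by
  have ev1 : ∀ᶠ r : ℝ in atTop, Real.log (Real.log r) ≤ ε / 10 * Real.log r := by
    have h1 := (Real.isLittleO_log_id_atTop.bound (show 0 < ε / 10 by positivity))
    have h2 := Real.tendsto_log_atTop.eventually h1
    filter_upwards [h2, eventually_ge_atTop 1] with r h3 h4
    have h5 := (le_abs_self _).trans h3
    rw [id, Real.norm_eq_abs, abs_of_nonneg (Real.log_nonneg h4)] at h5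
    exact h5
  have ev2 : ∀ᶠ r : ℝ in atTop, 3020 / ε + 10 ≤ Real.log r :=
    Real.tendsto_log_atTop.eventually_ge_atTop _
  have ev3 : ∀ᶠ r : ℝ in atTop, Real.log r ≤ 1 / 8 * r := by
    have h1 := Real.isLittleO_log_id_atTop.bound (show 0 < (1 / 8 : ℝ) by norm_num)
    filter_upwards [h1, eventually_ge_atTop 1] with V hV hV1
    have h2 := (le_abs_self _).trans hV
    rwa [id, Real.norm_eq_abs, abs_of_nonneg (by linarith)] at h2
  obtain ⟨r1, h1⟩ := eventually_atTop.1 ((ev1.and ev2).and ev3)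
  refine ⟨max 10 r1, le_max_left _ _, fun r hr k hk hk2 y hy1 hy2 => ?_⟩
  obtain ⟨⟨a1, a2⟩, a3⟩ := h1 r ((le_max_right _ _).trans hr)
  have hr10 : 10 ≤ r := (le_max_left _ _).trans hr
  have hr0 : 0 < r := by linarith
  have hq : 0 < 3020 / ε := by positivity
  have hlog10 : 10 ≤ Real.log r := by linarith
  have hlog0 : 0 < Real.log r := by linarith
  have hy0 : 0 < y := by linarith
  have hk0 : (0 : ℝ) < k := by exact_mod_cast (by omega : 0 < k)
  have hk2' : (2 : ℝ) ≤ k := by exact_mod_cast hk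
  have hyk : 4 ≤ y / k := by
    rw [le_div_iff₀ hk0]
    linarith
  set j := ⌊y / k⌋₊ with hj
  have hj1 : (j : ℝ) ≤ y / k := Nat.floor_le (by positivity)
  have hj2 : y / k < j + 1 := Nat.lt_floor_add_one _
  have hj3 : y / (2 * k) ≤ j := by
    have : y / (2 * k) = y / k / 2 := by
      field_simp
    rw [this]
    linarith
  have hj4 : (1 : ℝ) ≤ j := by linarith
  have hj0 : (0 : ℝ) < j := by linarith
  have hb0 : 0 < (j : ℝ) / y := by positivity
  have hbk : (j : ℝ) / y ≤ 1 / k := by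
    rw [div_le_div_iff₀ hy0 hk0]
    rw [le_div_iff₀ hk0] at hj1
    linarith
  refine ⟨j, j / y, by exact_mod_cast hj4, hb0, hbk, hbk.trans ?_, by field_simp, ?_, ?_⟩
  · exact one_div_le_one_div_of_le (by norm_num) hk2'
  · rw [one_div_div, div_le_iff₀ hj0]
    rw [div_le_iff₀ (by positivity)] at hj3
    linarith
  · intro S σ hσ hKer hS
    have hv := var_sel hσ hKer hS (by exact_mod_cast hj4) hb0 (hbk.trans
      (one_div_le_one_div_of_le (by norm_num) hk2'))
    -- the logarithm of `j`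
    have l1 : Real.log j ≤ Real.log r := by
      apply Real.log_le_log hj0
      refine hj1.trans ?_
      rw [div_le_iff₀ hk0]
      nlinarith
    have l2 : Real.log r - (2 + Real.log (Real.log r)) ≤ Real.log j := by
      have h2 : r / (4 * Real.log r) ≤ j := by
        refine le_trans ?_ hj3
        rw [div_le_div_iff₀ (by positivity) (by positivity)]
        have : r * (2 * k) ≤ r * (2 * Real.log r) := by gcongr
        nlinarith
      have h3 := Real.log_le_log (by positivity) h2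
      rw [Real.log_div hr0.ne' (by positivity), Real.log_mul (by norm_num) hlog0.ne'] at h3
      have h4 : Real.log 4 ≤ 2 := by
        rw [show (4 : ℝ) = 2 ^ 2 by norm_num, Real.log_pow]
        have := Real.log_two_lt_d9
        push_cast
        linarith
      linarith
    have t1 := two_pi_sq
    have t2 := two_pi_sq'
    have hll : 0 ≤ Real.log (Real.log r) := Real.log_nonneg (by linarith)
    have hV : 1 / 5 * Real.log r ≤ Vr r := by
      unfold Vr
      exact mul_le_mul_of_nonneg_right t1 hlog0.le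
    have hd : |2 / Real.pi ^ 2 * Real.log j - Vr r| ≤ 2 + Real.log (Real.log r) := by
      unfold Vr
      rw [← mul_sub, abs_mul, abs_of_nonneg (by linarith : (0 : ℝ) ≤ 2 / Real.pi ^ 2)]
      have h5 : |Real.log j - Real.log r| ≤ 2 + Real.log (Real.log r) := by
        rw [abs_le]
        constructor <;> linarith
      calc 2 / Real.pi ^ 2 * |Real.log j - Real.log r| ≤ 1 * (2 + Real.log (Real.log r)) :=
            mul_le_mul t2 h5 (abs_nonneg _) zero_le_one
        _ = _ := one_mul _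
    have h6 : |var (sc (Gs S j (j / y)) (j / y)) - Vr r| ≤ 300 + (2 + Real.log (Real.log r)) := by
      have h7 := abs_add_le (var (sc (Gs S j (j / y)) (j / y)) - 2 / Real.pi ^ 2 * Real.log j)
        (2 / Real.pi ^ 2 * Real.log j - Vr r)
      rw [sub_add_sub_cancel] at h7
      linarith
    refine h6.trans ?_
    have h8 : 3020 ≤ ε * Real.log r := by
      have h9 : 3020 / ε ≤ Real.log r := by linarith
      rw [div_le_iff₀ hε] at h9
      linarith
    have h9 : ε * (1 / 5 * Real.log r) ≤ ε * Vr r := mul_le_mul_of_nonneg_left hV hε.le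
    linarith

/-- Stirling-type bound -/
lemma fact_le (J : ℕ) (hJ : 1 ≤ J) :
    (J.factorial : ℝ) ≤ J * ((J : ℝ) ^ J * Real.exp (1 - J)) := by
  induction J, hJ using Nat.le_induction with
  | base => simp
  | succ J hJ ih =>
    have hJ0 : (0 : ℝ) < J := by exact_mod_cast hJ
    rw [Nat.factorial_succ]
    push_cast
    have h1 : (J : ℝ) * J ^ J * Real.exp 1 ≤ ((J : ℝ) + 1) ^ (J + 1) := by
      have h2 := Real.one_sub_inv_le_log_of_pos (show 0 < ((J : ℝ) + 1) / J by positivity)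
      have h3 : 1 - (((J : ℝ) + 1) / J)⁻¹ = 1 / (J + 1) := by
        field_simp
        ring
      rw [h3] at h2
      have h4 : 1 ≤ ((J : ℝ) + 1) * Real.log (((J : ℝ) + 1) / J) := by
        have := mul_le_mul_of_nonneg_left h2 (show 0 ≤ (J : ℝ) + 1 by positivity)
        rwa [mul_one_div, div_self (by positivity)] at this
      have h5 : Real.exp 1 ≤ (((J : ℝ) + 1) / J) ^ (J + 1) := by
        rw [← Real.rpow_natCast, Real.rpow_def_of_pos (by positivity)]
        apply Real.exp_le_exp.2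
        push_cast
        linarith
      calc (J : ℝ) * J ^ J * Real.exp 1 ≤ (J : ℝ) * J ^ J * (((J : ℝ) + 1) / J) ^ (J + 1) := by
            gcongr
        _ = ((J : ℝ) + 1) ^ (J + 1) := by
            rw [div_pow]
            field_simp
            ring
    have h2 : Real.exp (1 - (J : ℝ)) = Real.exp 1 * Real.exp (1 - ((J : ℝ) + 1)) := by
      rw [← Real.exp_add]
      congr 1
      ring
    calc ((J : ℝ) + 1) * (J.factorial : ℝ) ≤ ((J : ℝ) + 1) * (J * ((J : ℝ) ^ J *
          Real.exp (1 - J))) := by gcongr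
      _ = ((J : ℝ) + 1) * ((J : ℝ) * J ^ J * Real.exp 1 * Real.exp (1 - ((J : ℝ) + 1))) := by
          rw [h2]
          ring
      _ ≤ ((J : ℝ) + 1) * (((J : ℝ) + 1) ^ (J + 1) * Real.exp (1 - ((J : ℝ) + 1))) := by gcongr

lemma expo2 {J : ℕ} (hJ : 1 ≤ J) {v x : ℝ} (hv : 0 < v) (hx : 0 < x) (h : J * v ≤ x ^ 2) :
    (J.factorial : ℝ) * v ^ J / x ^ (2 * J) ≤ J * Real.exp (1 - J) := by
  have h1 := fact_le J hJ
  have h2 : ((J : ℝ) * v / x ^ 2) ^ J ≤ 1 := by
    apply pow_le_one₀ (by positivity)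
    rw [div_le_one (by positivity)]
    exact h
  calc (J.factorial : ℝ) * v ^ J / x ^ (2 * J) ≤
      (J * ((J : ℝ) ^ J * Real.exp (1 - J))) * v ^ J / x ^ (2 * J) := by gcongr
    _ = J * Real.exp (1 - J) * ((J : ℝ) * v / x ^ 2) ^ J := by
        rw [div_pow, mul_pow, ← pow_mul]
        ring
    _ ≤ J * Real.exp (1 - J) * 1 := by gcongr
    _ = _ := mul_one _

/-- the deviation exponent -/
noncomputable def Lam (r x : ℝ) : ℝ := x ^ 2 / Vr r

lemma Lam_eq (r x : ℝ) : Lam r x = Real.pi ^ 2 * x ^ 2 / (2 * Real.log r) := by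
  unfold Lam Vr
  rw [div_mul_eq_mul_div, div_div_eq_mul_div]
  ring

/-- the parameters of the upper bound -/
lemma parU {ε : ℝ} (hε : 0 < ε) (hε1 : ε ≤ 1 / 10) : ∃ C c r0 : ℝ, 1 ≤ C ∧ 0 < c ∧ 10 ≤ r0 ∧
    ∀ r x : ℝ, r0 ≤ r → C * Real.sqrt (Real.log r) ≤ x → x ≤ c * Real.log r →
      4 / ε ≤ x ∧ 2 / ε ≤ Lam r x ∧
      ∃ J : ℕ, 1 ≤ J ∧ ((J + 1 : ℕ) : ℝ) ≤ Real.log r ∧ 2 * ((J + 1 : ℕ) : ℝ) + 2 ≤ ε * x ∧
        (J : ℝ) * ((1 + ε) * Vr r) ≤ ((1 - ε) * x) ^ 2 ∧
        (J : ℝ) * Real.exp (1 - J) < 1 / 2 * Real.exp (-((1 - 6 * ε) * Lam r x)) := by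
  have ev1 : ∀ᶠ w : ℝ in atTop, 4 + Real.log (w + 1) ≤ ε * w := by
    have h1 := Real.isLittleO_log_id_atTop.bound (show 0 < ε / 4 by positivity)
    have h2 := (tendsto_id.atTop_add (tendsto_const_nhds (x := (1 : ℝ)))).eventually h1
    filter_upwards [h2, eventually_ge_atTop 1, eventually_ge_atTop (8 / ε)] with w h3 h4 h5
    have h6 := (le_abs_self _).trans h3
    simp only [id] at h6
    rw [Real.norm_eq_abs, abs_of_nonneg (by linarith)] at h6
    rw [div_le_iff₀ hε] at h5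
    nlinarith
  obtain ⟨w0, hw0⟩ := eventually_atTop.1 ev1
  refine ⟨max 1 (max (10 / ε) (max w0 1)), ε / 100, Real.exp 100, le_max_left _ _, by positivity, ?_,
    fun r x hr hx1 hx2 => ?_⟩
  · have := Real.add_one_le_exp (100 : ℝ)
    linarith
  set C := max 1 (max (10 / ε) (max w0 1)) with hC
  have hC1 : 1 ≤ C := le_max_left _ _
  have hC2 : 10 / ε ≤ C := (le_max_left _ _).trans (le_max_right _ _)
  have hC3 : w0 ≤ C := ((le_max_left _ _).trans (le_max_right _ _)).trans (le_max_right _ _)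
  have hr0 : 0 < r := lt_of_lt_of_le (Real.exp_pos _) hr
  have hlog : 100 ≤ Real.log r := by
    rw [Real.le_log_iff_exp_le hr0]
    exact hr
  set ℓ := Real.log r with hℓ
  have hs : 10 ≤ Real.sqrt ℓ := by
    apply Real.le_sqrt_of_sq_le
    linarith
  have hxC : 10 * C ≤ x := by nlinarith
  have hx0 : 0 < x := by linarith
  have t1 := two_pi_sq
  have t2 := two_pi_sq'
  have hV1 : 1 / 5 * ℓ ≤ Vr r := by
    unfold Vr
    exact mul_le_mul_of_nonneg_right t1 (by linarith)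
  have hV2 : Vr r ≤ ℓ := by
    unfold Vr
    rw [← hℓ]
    nlinarith
  have hV0 : 0 < Vr r := by linarith
  have hΛ : Lam r x * Vr r = x ^ 2 := by
    unfold Lam
    field_simp
  have hΛ0 : 0 < Lam r x := by unfold Lam; positivity
  -- the exponent is large
  have hΛC : C ≤ Lam r x := by
    have h1 : C ^ 2 * ℓ ≤ x ^ 2 := by
      have h2 : (C * Real.sqrt ℓ) ^ 2 ≤ x ^ 2 := pow_le_pow_left₀ (by positivity) hx1 2
      rwa [mul_pow, Real.sq_sqrt (by linarith)] at h2
    unfold Lam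
    rw [le_div_iff₀ hV0]
    calc C * Vr r ≤ C * ℓ := by gcongr
      _ ≤ C ^ 2 * ℓ := by
          apply mul_le_mul_of_nonneg_right _ (by linarith)
          nlinarith
      _ ≤ x ^ 2 := h1
  -- the exponent is small compared with `x`
  have hΛx : Lam r x ≤ ε / 20 * x := by
    unfold Lam
    rw [div_le_iff₀ hV0]
    have h1 : x ^ 2 ≤ x * (ε / 100 * ℓ) := by
      rw [sq]
      gcongr
    have h2 : ε / 20 * x * (1 / 5 * ℓ) ≤ ε / 20 * x * Vr r := by gcongr
    calc x ^ 2 ≤ x * (ε / 100 * ℓ) := h1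
      _ = ε / 20 * x * (1 / 5 * ℓ) := by ring
      _ ≤ _ := h2
  have hx4 : 100 ≤ ε * x := by
    rw [div_le_iff₀ hε] at hC2
    nlinarith
  refine ⟨?_, ?_, ?_⟩
  · rw [div_le_iff₀ hε]; linarith
  · refine le_trans ?_ (hC2.trans hΛC)
    apply div_le_div_of_nonneg_right _ hε.le
    norm_num
  set J := ⌊(1 - 4 * ε) * Lam r x⌋₊ + 1 with hJ
  have hJ1 : ((J : ℕ) : ℝ) ≤ (1 - 4 * ε) * Lam r x + 1 := by
    rw [hJ]
    push_cast
    have := Nat.floor_le (show 0 ≤ (1 - 4 * ε) * Lam r x by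
      apply mul_nonneg _ hΛ0.le
      linarith)
    linarith
  have hJ2 : (1 - 4 * ε) * Lam r x < (J : ℕ) := by
    rw [hJ]
    push_cast
    exact Nat.lt_floor_add_one _
  have hJ3 : 1 ≤ J := by omega
  have hJ4 : ((J : ℕ) : ℝ) ≤ Lam r x + 1 := by nlinarith
  refine ⟨J, hJ3, ?_, ?_, ?_, ?_⟩
  · push_cast
    have : ε / 20 * x ≤ 1 / 200 * (1 / 1000 * ℓ) := by
      apply mul_le_mul
      · linarith
      · nlinarith
      · linarith
      · norm_num
    linarith
  · push_cast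
    linarith
  · have h1 : 10 / ε ≤ Lam r x := hC2.trans hΛC
    rw [div_le_iff₀ hε] at h1
    calc (J : ℝ) * ((1 + ε) * Vr r) ≤ ((1 - 4 * ε) * Lam r x + 1) * ((1 + ε) * Vr r) := by
          gcongr
      _ ≤ ((1 - ε) ^ 2 * Lam r x) * Vr r := by
          have h2 : ((1 - 4 * ε) * Lam r x + 1) * (1 + ε) ≤ (1 - ε) ^ 2 * Lam r x := by
            nlinarith [mul_pos hε hΛ0, mul_pos hε (mul_pos hε hΛ0)]
          calc ((1 - 4 * ε) * Lam r x + 1) * ((1 + ε) * Vr r) =
              (((1 - 4 * ε) * Lam r x + 1) * (1 + ε)) * Vr r := by ring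
            _ ≤ _ := mul_le_mul_of_nonneg_right h2 hV0.le
      _ = ((1 - ε) * x) ^ 2 := by
          rw [mul_assoc, hΛ]
          ring
  · have h1 := hw0 (Lam r x) (hC3.trans hΛC)
    have hJ0 : (0 : ℝ) < J := by exact_mod_cast hJ3
    have h2 : Real.log J ≤ Real.log (Lam r x + 1) := Real.log_le_log hJ0 hJ4
    have h3 : (J : ℝ) * Real.exp (1 - J) = Real.exp (Real.log J + (1 - J)) := by
      rw [Real.exp_add, Real.exp_log hJ0]
    have h4 : 1 / 2 * Real.exp (-((1 - 6 * ε) * Lam r x)) >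
        Real.exp (-1) * Real.exp (-((1 - 6 * ε) * Lam r x)) := by
      apply mul_lt_mul_of_pos_right _ (Real.exp_pos _)
      rw [Real.exp_neg, inv_eq_one_div, div_lt_div_iff₀ (Real.exp_pos _) (by norm_num)]
      have := Real.exp_one_gt_d9
      linarith
    refine lt_of_le_of_lt ?_ h4
    rw [h3, ← Real.exp_add]
    apply Real.exp_le_exp.2
    linarith

end Pool.Agent.T9h26.TD
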