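import Pool.Agent.T9h26.TD.Ka
import Pool.Agent.T9h26.TD.Md

set_option autoImplicit false

/-! Real moments and the characteristic function of a prime polynomial. -/

open Complex Filter Topology Set MeasureTheory

namespace Pool.Agent.T9h26.TD

/-- the moments of a centred Gaussian variable of variance `v / 2` -/
noncomputable def gmo (v : ℝ) (k : ℕ) : ℝ :=
  if Even k then (k.factorial : ℝ) / (k / 2).factorial * (v / 4) ^ (k / 2) else 0

lemma gmo_even (v : ℝ) (k : ℕ) :
    gmo v (2 * k) = ((2 * k).factorial : ℝ) / k.factorial * (v / 4) ^ k := by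
  unfold gmo
  rw [if_pos (even_two_mul k), Nat.mul_div_cancel_left k (by norm_num)]

lemma gmo_odd (v : ℝ) {k : ℕ} (h : ¬ Even k) : gmo v k = 0 := by simp [gmo, h]

lemma sum_even {M : Type*} [AddCommMonoid M] (f : ℕ → M) (k : ℕ) (h : ∀ i, ¬ Even i → f i = 0) :
    ∑ i ∈ Finset.range (2 * k), f i = ∑ m ∈ Finset.range k, f (2 * m) := by
  induction k with
  | zero => simp
  | succ k ih =>
    rw [show 2 * (k + 1) = 2 * k + 1 + 1 by ring, Finset.sum_range_succ, Finset.sum_range_succ, ih,
      h (2 * k + 1) (by simp), add_zero, Finset.sum_range_succ]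

/-- the limit of the moments, as a binomial sum -/
lemma gmo_bin (v : ℝ) (k : ℕ) : (1 / 2 : ℂ) ^ k * ∑ a ∈ Finset.range (k + 1), (k.choose a : ℂ) *
    (if a = k - a then ((a.factorial * v ^ a : ℝ) : ℂ) else 0) = (gmo v k : ℂ) := by
  rcases Nat.even_or_odd' k with ⟨m, hm | hm⟩
  · subst hm
    rw [Finset.sum_eq_single m]
    · rw [if_pos (by omega), gmo_even]
      have h1 : (((2 * m).choose m : ℕ) : ℂ) * m.factorial * m.factorial = ((2 * m).factorial : ℂ) := by
        have := Nat.choose_mul_factorial_mul_factorial (show m ≤ 2 * m by omega)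
        rw [show 2 * m - m = m by omega] at this
        exact_mod_cast this
      have h2 : ((m.factorial : ℕ) : ℂ) ≠ 0 := by exact_mod_cast Nat.factorial_ne_zero m
      push_cast
      rw [pow_mul, ← h1, div_pow]
      field_simp
      rw [show (4 : ℂ) = 2 ^ 2 by norm_num]
      ring_nf
    · intro a ha hne
      rw [Finset.mem_range] at ha
      rw [if_neg (by omega), mul_zero]
    · intro h
      rw [Finset.mem_range] at h
      omega
  · subst hm
    rw [gmo_odd v (by simp), Finset.sum_eq_zero]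
    · simp
    · intro a ha
      rw [if_neg (by omega), mul_zero]

lemma re_pow_eq (z : ℂ) (k : ℕ) : ((z.re ^ k : ℝ) : ℂ) = (1 / 2 : ℂ) ^ k *
    ∑ a ∈ Finset.range (k + 1), (k.choose a : ℂ) * (z ^ a * (starRingEnd ℂ) (z ^ (k - a))) := by
  rw [Complex.ofReal_pow, Complex.re_eq_add_conj, div_eq_mul_one_div, mul_pow, add_pow, mul_comm]
  congr 1
  apply Finset.sum_congr rfl
  intro a _
  rw [map_pow]
  ring

/-- **the real moments** -/
theorem mom_re {a : ℝ → ℕ → ℝ} {X : ℝ → ℕ} {v : ℝ} {J : ℕ} (hv : 0 < v) (hC : Coef a X v J)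
    {k : ℕ} (hk : k ≤ J) :
    Tendsto (fun T : ℝ => (1 / T) * ∫ t in T..(2 * T), (PP (a T) (X T) t).re ^ k) atTop
      (𝓝 (gmo v k)) := by
  have h1 : ∀ T : ℝ, (((1 / T) * ∫ t in T..(2 * T), (PP (a T) (X T) t).re ^ k : ℝ) : ℂ) =
      (1 / 2 : ℂ) ^ k * ∑ i ∈ Finset.range (k + 1), (k.choose i : ℂ) *
        ((1 / (T : ℂ)) * ∫ t in T..(2 * T), PP (a T) (X T) t ^ i *
          (starRingEnd ℂ) (PP (a T) (X T) t ^ (k - i))) := by
    intro T
    have hc := PP_cont (a T) (X T)
    have hcc : ∀ i j : ℕ, Continuous fun t => PP (a T) (X T) t ^ i *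
        (starRingEnd ℂ) (PP (a T) (X T) t ^ j) := fun i j =>
      (hc.pow i).mul (Complex.continuous_conj.comp (hc.pow j))
    rw [Complex.ofReal_mul, ← intervalIntegral.integral_ofReal]
    have h2 : ∫ t in T..(2 * T), (((PP (a T) (X T) t).re ^ k : ℝ) : ℂ) =
        (1 / 2 : ℂ) ^ k * ∑ i ∈ Finset.range (k + 1), (k.choose i : ℂ) *
          ∫ t in T..(2 * T), PP (a T) (X T) t ^ i *
            (starRingEnd ℂ) (PP (a T) (X T) t ^ (k - i)) := by
      simp_rw [re_pow_eq]
      rw [intervalIntegral.integral_const_mul, intervalIntegral.integral_finsetSum]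
      · simp_rw [intervalIntegral.integral_const_mul]
      · intro i _
        exact ((hcc i (k - i)).const_smul (k.choose i : ℂ)).intervalIntegrable _ _
    rw [h2]
    push_cast
    rw [Finset.mul_sum, Finset.mul_sum, Finset.mul_sum]
    apply Finset.sum_congr rfl
    intro i _
    ring
  have h2 : Tendsto (fun T : ℝ => (((1 / T) * ∫ t in T..(2 * T), (PP (a T) (X T) t).re ^ k : ℝ) : ℂ))
      atTop (𝓝 ((gmo v k : ℝ) : ℂ)) := by
    simp_rw [h1]
    rw [← gmo_bin]
    apply Tendsto.const_mul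
    apply tendsto_finsetSum
    intro i hi
    rw [Finset.mem_range] at hi
    exact (mom hv hC (by omega) (by omega)).const_mul _
  exact (Complex.continuous_re.tendsto _).comp h2

/-- the alternating exponential remainder -/
lemma exp_rem (m : ℕ) {x : ℝ} (hx : 0 ≤ x) :
    |Real.exp (-x) - ∑ j ∈ Finset.range m, (-x) ^ j / j.factorial| ≤ x ^ m / m.factorial := by
  induction m generalizing x with
  | zero =>
    simp only [Finset.range_zero, Finset.sum_empty, sub_zero, pow_zero, Nat.factorial_zero,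
      Nat.cast_one, div_one]
    rw [abs_of_pos (Real.exp_pos _)]
    exact Real.exp_le_one_iff.2 (by linarith)
  | succ m ih =>
    set R : ℝ → ℝ := fun x => Real.exp (-x) - ∑ j ∈ Finset.range (m + 1), (-x) ^ j / j.factorial
      with hR
    have hd : ∀ s, HasDerivAt R (-(Real.exp (-s) - ∑ j ∈ Finset.range m, (-s) ^ j / j.factorial)) s := by
      intro s
      have h1 : HasDerivAt (fun s : ℝ => Real.exp (-s)) (-Real.exp (-s)) s := by
        have := (hasDerivAt_neg s).exp
        simpa using this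
      have h3 : ∀ j ∈ Finset.range (m + 1), HasDerivAt (fun s : ℝ => (-s) ^ j / (j.factorial : ℝ))
          ((j : ℝ) * (-s) ^ (j - 1) * (-1) / j.factorial) s := by
        intro j _
        exact ((hasDerivAt_neg s).pow j).div_const _
      have h5 := HasDerivAt.fun_sum h3
      refine (h1.sub h5).congr_deriv ?_
      rw [Finset.sum_range_succ']
      simp only [Nat.cast_zero, zero_mul, zero_div, add_zero]
      rw [neg_sub, sub_eq_add_neg, add_comm, ← sub_eq_add_neg, ← Finset.sum_neg_distrib]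
      congr 1
      apply Finset.sum_congr rfl
      intro j _
      rw [Nat.factorial_succ, Nat.add_sub_cancel]
      have hk : ((j : ℝ) + 1) ≠ 0 := by exact_mod_cast Nat.succ_ne_zero j
      have hf : ((j.factorial : ℕ) : ℝ) ≠ 0 := by exact_mod_cast Nat.factorial_ne_zero j
      push_cast
      field_simp
    have h0 : R 0 = 0 := by
      rw [hR]
      simp only [neg_zero, Real.exp_zero]
      rw [Finset.sum_range_succ']
      simp
    have hc : Continuous fun s : ℝ =>
        -(Real.exp (-s) - ∑ j ∈ Finset.range m, (-s) ^ j / (j.factorial : ℝ)) := by fun_prop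
    have h1 : R x = ∫ s in (0 : ℝ)..x,
        -(Real.exp (-s) - ∑ j ∈ Finset.range m, (-s) ^ j / (j.factorial : ℝ)) := by
      rw [intervalIntegral.integral_eq_sub_of_hasDerivAt (f := R) (fun s _ => hd s)
        (hc.intervalIntegrable _ _), h0, sub_zero]
    have h2 : |R x| ≤ ∫ s in (0 : ℝ)..x, s ^ m / m.factorial := by
      rw [h1, ← Real.norm_eq_abs]
      refine (intervalIntegral.norm_integral_le_integral_norm hx).trans ?_
      apply intervalIntegral.integral_mono_on hx (hc.norm.intervalIntegrable _ _)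
      · exact (by fun_prop : Continuous fun s : ℝ => s ^ m / m.factorial).intervalIntegrable _ _
      · intro s hs
        rw [norm_neg, Real.norm_eq_abs]
        exact ih hs.1
    refine h2.trans (le_of_eq ?_)
    rw [intervalIntegral.integral_div, integral_pow, Nat.factorial_succ]
    push_cast
    rw [zero_pow (by omega), sub_zero, div_div]

/-- **the characteristic function** -/
theorem cf_re {a : ℝ → ℕ → ℝ} {X : ℝ → ℕ} {v : ℝ} {J m : ℕ} (hv : 0 < v) (hC : Coef a X v J)
    (hm : 2 * m ≤ J) {η : ℝ} (hη : 0 < η) : ∀ᶠ T : ℝ in atTop, ∀ ξ : ℝ, |ξ| ≤ 1 →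
      ‖(1 / (T : ℂ)) * (∫ t in T..(2 * T), ex (ξ * (PP (a T) (X T) t).re)) -
        (Real.exp (-(ξ ^ 2 * v / 4)) : ℂ)‖ ≤ 2 * ((v / 4) ^ m / m.factorial) + η := by
  have hM : ∀ k, k ≤ J → Tendsto (fun T : ℝ => (1 / T) * ∫ t in T..(2 * T),
      (PP (a T) (X T) t).re ^ k) atTop (𝓝 (gmo v k)) := fun k hk => mom_re hv hC hk
  have hS : Tendsto (fun T : ℝ => (∑ k ∈ Finset.range (2 * m), |((1 / T) * ∫ t in T..(2 * T),
      (PP (a T) (X T) t).re ^ k) - gmo v k|) + |((1 / T) * ∫ t in T..(2 * T),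
      (PP (a T) (X T) t).re ^ (2 * m)) - gmo v (2 * m)|) atTop (𝓝 0) := by
    have h1 : ∀ k, k ≤ J → Tendsto (fun T : ℝ => |((1 / T) * ∫ t in T..(2 * T),
        (PP (a T) (X T) t).re ^ k) - gmo v k|) atTop (𝓝 0) := by
      intro k hk
      have h2 := ((hM k hk).sub_const (gmo v k)).abs
      rwa [sub_self, abs_zero] at h2
    have h2 := (tendsto_finsetSum (Finset.range (2 * m)) fun k hk =>
      h1 k (by rw [Finset.mem_range] at hk; omega)).add (h1 (2 * m) hm)
    simpa using h2
  filter_upwards [hS.eventually (gt_mem_nhds hη), eventually_gt_atTop 0] with T hT hT0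
  intro ξ hξ
  set x : ℝ → ℝ := fun t => (PP (a T) (X T) t).re with hx
  have hxc : Continuous x := Complex.continuous_re.comp (PP_cont _ _)
  set M : ℕ → ℝ := fun k => (1 / T) * ∫ t in T..(2 * T), x t ^ k with hMd
  have hfact : ∀ k : ℕ, (1 : ℝ) ≤ k.factorial := fun k => by exact_mod_cast Nat.factorial_pos k
  -- the expansion
  have e1 : (1 / (T : ℂ)) * (∫ t in T..(2 * T), ex (ξ * x t)) =
      (∑ k ∈ Finset.range (2 * m), ((ξ : ℂ) * I) ^ k / k.factorial * (M k : ℂ)) +
        (1 / (T : ℂ)) * ∫ t in T..(2 * T), rem (2 * m) (ξ * x t) := by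
    have h1 : ∀ t, ex (ξ * x t) = (∑ k ∈ Finset.range (2 * m),
        ((ξ : ℂ) * I) ^ k / k.factorial * ((x t ^ k : ℝ) : ℂ)) + rem (2 * m) (ξ * x t) := by
      intro t
      unfold rem
      have : ∑ k ∈ Finset.range (2 * m), (((ξ * x t : ℝ) : ℂ) * I) ^ k / k.factorial =
          ∑ k ∈ Finset.range (2 * m), ((ξ : ℂ) * I) ^ k / k.factorial * ((x t ^ k : ℝ) : ℂ) := by
        apply Finset.sum_congr rfl
        intro k _
        push_cast
        ring
      rw [this]
      ring
    simp_rw [h1]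
    have hr := rem_cont (2 * m)
    rw [intervalIntegral.integral_add ((by fun_prop : Continuous fun t => ∑ k ∈ Finset.range (2 * m),
        ((ξ : ℂ) * I) ^ k / k.factorial * ((x t ^ k : ℝ) : ℂ)).intervalIntegrable _ _)
        ((by fun_prop : Continuous fun t => rem (2 * m) (ξ * x t)).intervalIntegrable _ _),
      intervalIntegral.integral_finsetSum (fun k _ => (by fun_prop : Continuous fun t =>
        ((ξ : ℂ) * I) ^ k / k.factorial * ((x t ^ k : ℝ) : ℂ)).intervalIntegrable _ _), mul_add,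
      Finset.mul_sum]
    congr 1
    apply Finset.sum_congr rfl
    intro k _
    rw [intervalIntegral.integral_const_mul, hMd, intervalIntegral.integral_ofReal]
    push_cast
    ring
  -- the remainder
  have e2 : ‖(1 / (T : ℂ)) * ∫ t in T..(2 * T), rem (2 * m) (ξ * x t)‖ ≤
      M (2 * m) / (2 * m).factorial := by
    rw [norm_mul, norm_div, norm_one, Complex.norm_real, Real.norm_eq_abs, abs_of_pos hT0, hMd]
    simp only
    rw [mul_div_assoc]
    apply mul_le_mul_of_nonneg_left _ (by positivity)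
    refine (intervalIntegral.norm_integral_le_integral_norm (by linarith)).trans ?_
    rw [← intervalIntegral.integral_div]
    have hr := rem_cont (2 * m)
    apply intervalIntegral.integral_mono_on (by linarith)
      ((by fun_prop : Continuous fun t => ‖rem (2 * m) (ξ * x t)‖).intervalIntegrable _ _)
      ((by fun_prop : Continuous fun t => x t ^ (2 * m) / (2 * m).factorial).intervalIntegrable _ _)
    intro t _
    refine (rem_le _ _).trans ?_
    apply div_le_div_of_nonneg_right _ (by positivity)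
    rw [abs_mul, mul_pow]
    have h1 : |ξ| ^ (2 * m) ≤ 1 := pow_le_one₀ (abs_nonneg _) hξ
    have h2 : |x t| ^ (2 * m) = x t ^ (2 * m) := by rw [pow_mul, sq_abs, ← pow_mul]
    rw [h2]
    have h3 : 0 ≤ x t ^ (2 * m) := by rw [pow_mul]; positivity
    nlinarith
  -- the Gaussian sum
  have e3 : ∑ k ∈ Finset.range (2 * m), ((ξ : ℂ) * I) ^ k / k.factorial * (gmo v k : ℂ) =
      ((∑ j ∈ Finset.range m, (-(ξ ^ 2 * v / 4)) ^ j / j.factorial : ℝ) : ℂ) := by
    rw [sum_even]
    · push_cast
      apply Finset.sum_congr rfl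
      intro j hj
      rw [gmo_even]
      have h1 : ((2 * j).factorial : ℂ) ≠ 0 := by exact_mod_cast Nat.factorial_ne_zero _
      have h2 : ((ξ : ℂ) * I) ^ (2 * j) = (-(ξ : ℂ) ^ 2) ^ j := by
        rw [pow_mul, mul_pow, Complex.I_sq, mul_neg_one]
      rw [h2]
      push_cast
      rw [show -((ξ : ℂ) ^ 2 * v / 4) = -(ξ : ℂ) ^ 2 * (v / 4) by ring, mul_pow]
      field_simp
    · intro i hi
      rw [gmo_odd v hi]
      simp
  have e4 : ‖(∑ k ∈ Finset.range (2 * m), ((ξ : ℂ) * I) ^ k / k.factorial * (M k : ℂ)) -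
      ∑ k ∈ Finset.range (2 * m), ((ξ : ℂ) * I) ^ k / k.factorial * (gmo v k : ℂ)‖ ≤
      ∑ k ∈ Finset.range (2 * m), |M k - gmo v k| := by
    rw [← Finset.sum_sub_distrib]
    refine (norm_sum_le _ _).trans (Finset.sum_le_sum fun k _ => ?_)
    rw [← mul_sub, norm_mul, ← Complex.ofReal_sub, Complex.norm_real, Real.norm_eq_abs, norm_div,
      norm_pow, norm_mul, Complex.norm_I, mul_one, Complex.norm_real, Real.norm_eq_abs]
    have h1 : |ξ| ^ k ≤ 1 := pow_le_one₀ (abs_nonneg _) hξ
    have h2 : |ξ| ^ k / ‖(k.factorial : ℂ)‖ ≤ 1 := by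
      rw [Complex.norm_natCast, div_le_one (by linarith [hfact k])]
      exact h1.trans (hfact k)
    calc _ ≤ 1 * |M k - gmo v k| := mul_le_mul_of_nonneg_right h2 (abs_nonneg _)
      _ = _ := one_mul _
  have e5 : ‖((∑ j ∈ Finset.range m, (-(ξ ^ 2 * v / 4)) ^ j / j.factorial : ℝ) : ℂ) -
      (Real.exp (-(ξ ^ 2 * v / 4)) : ℂ)‖ ≤ (v / 4) ^ m / m.factorial := by
    rw [← Complex.ofReal_sub, Complex.norm_real, Real.norm_eq_abs, abs_sub_comm]
    refine (exp_rem m (by positivity)).trans ?_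
    apply div_le_div_of_nonneg_right _ (by positivity)
    apply pow_le_pow_left₀ (by positivity)
    have : ξ ^ 2 ≤ 1 := by rw [← sq_abs]; exact pow_le_one₀ (abs_nonneg _) hξ
    nlinarith
  have e6 : M (2 * m) / (2 * m).factorial ≤ (v / 4) ^ m / m.factorial +
      |M (2 * m) - gmo v (2 * m)| := by
    have h1 : gmo v (2 * m) / (2 * m).factorial = (v / 4) ^ m / m.factorial := by
      rw [gmo_even]
      have : ((2 * m).factorial : ℝ) ≠ 0 := by exact_mod_cast Nat.factorial_ne_zero _
      field_simp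
    have h2 : M (2 * m) ≤ gmo v (2 * m) + |M (2 * m) - gmo v (2 * m)| := by
      linarith [le_abs_self (M (2 * m) - gmo v (2 * m))]
    calc M (2 * m) / (2 * m).factorial ≤ (gmo v (2 * m) + |M (2 * m) - gmo v (2 * m)|) /
          (2 * m).factorial := div_le_div_of_nonneg_right h2 (by positivity)
      _ = (v / 4) ^ m / m.factorial + |M (2 * m) - gmo v (2 * m)| / (2 * m).factorial := by
          rw [add_div, h1]
      _ ≤ _ := by
          gcongr
          exact div_le_self (abs_nonneg _) (hfact _)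
  have e7 : (1 / (T : ℂ)) * (∫ t in T..(2 * T), ex (ξ * x t)) -
        (Real.exp (-(ξ ^ 2 * v / 4)) : ℂ) =
      ((∑ k ∈ Finset.range (2 * m), ((ξ : ℂ) * I) ^ k / k.factorial * (M k : ℂ)) -
      ∑ k ∈ Finset.range (2 * m), ((ξ : ℂ) * I) ^ k / k.factorial * (gmo v k : ℂ)) +
      (((∑ j ∈ Finset.range m, (-(ξ ^ 2 * v / 4)) ^ j / j.factorial : ℝ) : ℂ) -
      (Real.exp (-(ξ ^ 2 * v / 4)) : ℂ)) +
        (1 / (T : ℂ)) * ∫ t in T..(2 * T), rem (2 * m) (ξ * x t) := by
    rw [e1, e3]
    ring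
  rw [e7]
  refine (norm_add₃_le).trans ?_
  have hT' : (∑ k ∈ Finset.range (2 * m), |M k - gmo v k|) + |M (2 * m) - gmo v (2 * m)| < η := hT
  linarith

end Pool.Agent.T9h26.TD
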