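import Pool.Agent.T9h26.TD.Md

set_option autoImplicit false

/-! Moderate deviations: upper bounds in a block. -/

open Complex Filter Topology Set MeasureTheory

namespace Pool.Agent.T9h26.TD

open TC (ordz ordT mu EFD)
open SG (ord NZ zmult ZS)
open W200.HW (Ix mem_Ix)
open Pool.Agent.Y747 (al)

/-- the minorant weight is at most one, and non-positive outside the window -/
lemma min_wt {j : ℕ} (hj : 1 ≤ j) {b y : ℝ} (hb : 0 < b) (hb1 : b ≤ 1 / 2) (hby : b * y = j) :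
    (∀ x, ph (sc (Gs (Finset.Ico 1 j) j b) b) x ≤ 1) ∧
    ∀ x, Real.pi * y ≤ |x| → ph (sc (Gs (Finset.Ico 1 j) j b) b) x ≤ 0 := by
  have hpi := Real.pi_pos
  constructor
  · intro x
    rw [ph_sel (sym_Ico j) hb hb1]
    exact Phi_min_le hj _
  · intro x hx
    rw [ph_sel (sym_Ico j) hb hb1]
    apply Phi_min_nonpos hj
    have e : b * (Real.pi * y) / (2 * Real.pi) = (j : ℝ) / 2 := by
      rw [← hby]
      field_simp
    rcases le_abs.1 hx with h | h
    · right
      have h1 : b * (Real.pi * y) / (2 * Real.pi) ≤ b * x / (2 * Real.pi) := by gcongr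
      linarith
    · left
      have h1 : b * (Real.pi * y) / (2 * Real.pi) ≤ b * (-x) / (2 * Real.pi) := by gcongr
      have e2 : b * (-x) / (2 * Real.pi) = -(b * x / (2 * Real.pi)) := by ring
      linarith

/-- the majorant weight is non-negative, and at least one in the window -/
lemma maj_wt {j : ℕ} (hj : 1 ≤ j) {b y : ℝ} (hb : 0 < b) (hb1 : b ≤ 1 / 2) (hby : b * y = j) :
    (∀ x, 0 ≤ ph (sc (Gs (Finset.range (j + 1)) j b) b) x) ∧
    ∀ x, |x| ≤ Real.pi * y → 1 ≤ ph (sc (Gs (Finset.range (j + 1)) j b) b) x := by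
  have hpi := Real.pi_pos
  constructor
  · intro x
    rw [ph_sel (sym_range j) hb hb1]
    exact Phi_maj_nonneg hj _
  · intro x hx
    rw [ph_sel (sym_range j) hb hb1]
    have e : b * (Real.pi * y) / (2 * Real.pi) = (j : ℝ) / 2 := by
      rw [← hby]
      field_simp
    obtain ⟨h1, h2⟩ := abs_le.1 hx
    apply Phi_maj_ge hj
    · have h3 : b * (-(Real.pi * y)) / (2 * Real.pi) ≤ b * x / (2 * Real.pi) := by gcongr
      have e2 : b * (-(Real.pi * y)) / (2 * Real.pi) = -(b * (Real.pi * y) / (2 * Real.pi)) := by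
        ring
      linarith
    · have h3 : b * x / (2 * Real.pi) ≤ b * (Real.pi * y) / (2 * Real.pi) := by gcongr
      linarith

lemma min_zero {j : ℕ} (hj : 1 ≤ j) {b y : ℝ} (hb : 0 < b) (hby : b * y = j) :
    sc (Gs (Finset.Ico 1 j) j b) b 0 / 2 = y - 1 / b := by
  rw [sc_zero, Gs_zero, Nat.card_Ico, Nat.cast_sub hj, ← hby]
  field_simp
  push_cast
  ring

lemma maj_zero {j : ℕ} {b y : ℝ} (hb : 0 < b) (hby : b * y = j) :
    sc (Gs (Finset.range (j + 1)) j b) b 0 / 2 = y + 1 / b := by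
  rw [sc_zero, Gs_zero, Finset.card_range]
  push_cast
  rw [← hby]
  field_simp

lemma gau_ev (y Q : ℝ) {η : ℝ} (hη : 0 < η) :
    ∀ᶠ T : ℝ in atTop, Q - η ≤ Q * Real.exp (-(Real.pi * y / Real.log T) ^ 2 / 2) := by
  have h1 : Tendsto (fun T : ℝ => Q * Real.exp (-(Real.pi * y / Real.log T) ^ 2 / 2)) atTop
      (𝓝 (Q * Real.exp (-(0 : ℝ) ^ 2 / 2))) := by
    apply Tendsto.const_mul
    apply (Real.continuous_exp.tendsto _).comp
    apply Tendsto.div_const
    apply Tendsto.neg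
    apply Tendsto.pow
    exact tendsto_const_nhds.div_atTop Real.tendsto_log_atTop
  have h2 : Q * Real.exp (-(0 : ℝ) ^ 2 / 2) = Q := by norm_num
  rw [h2] at h1
  exact h1.eventually (le_mem_nhds (by linarith))

/-- **upper bounds for the moderate deviations in a block** -/
theorem up_blk (RH : RiemannHypothesis) {C' : ℝ} (hC' : 0 < C') {ε : ℝ} (hε : 0 < ε)
    (hε1 : ε ≤ 1 / 10) : ∃ C c r0 : ℝ, 1 ≤ C ∧ 0 < c ∧ 10 ≤ r0 ∧
    ∀ r x : ℝ, r0 ≤ r → C * Real.sqrt (Real.log r) ≤ x → x ≤ c * Real.log r →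
      ∀ y : ℝ, r / 2 ≤ y → y ≤ 2 * r →
      ∃ T1 : ℝ, 10 ≤ T1 ∧ ∀ T : ℝ, T1 ≤ T → ∀ U1 U2 : ℝ, 1 ≤ U1 → EFD C' T (ordz U1 U2) mu →
        ms T {t | (cO U1 U2 t (Real.pi * y / Real.log T) : ℝ) ≤ y - x} ≤
          Real.exp (-((1 - 6 * ε) * Lam r x)) * T ∧
        ms T {t | y + x ≤ (cC U1 U2 t (Real.pi * y / Real.log T) : ℝ)} ≤
          Real.exp (-((1 - 6 * ε) * Lam r x)) * T := by
  obtain ⟨C, c, r0, hC, hc, hr0, hpar⟩ := parU hε hε1
  obtain ⟨r1, hr1, hpar2⟩ := par hε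
  refine ⟨C, c, max r0 r1, hC, hc, hr0.trans (le_max_left _ _), fun r x hr hx1 hx2 y hy1 hy2 => ?_⟩
  obtain ⟨hx4, hL2, J, hJ1, hJ2, hJ3, hJ4, hJ5⟩ := hpar r x ((le_max_left _ _).trans hr) hx1 hx2
  have hr10 : 10 ≤ r := (hr0.trans (le_max_left _ _)).trans hr
  obtain ⟨j, b, hj, hb, hbk, hb1, hby, hbi, hvar⟩ := hpar2 r ((le_max_right _ _).trans hr) (J + 1)
    (by omega) hJ2 y hy1 hy2
  have hpi := Real.pi_pos
  have hx0 : 0 < x := lt_of_lt_of_le (by positivity) hx4
  have hlog : 0 < Real.log r := Real.log_pos (by linarith)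
  have hV0 : 0 < Vr r := by unfold Vr; positivity
  have hJb : (J : ℝ) * b < 1 := by
    have h1 : (J : ℝ) * b ≤ J * (1 / ((J + 1 : ℕ) : ℝ)) := by gcongr
    have h2 : (J : ℝ) * (1 / ((J + 1 : ℕ) : ℝ)) < 1 := by
      rw [mul_one_div, div_lt_one (by positivity)]
      push_cast
      linarith
    linarith
  have hx' : 0 < (1 - ε) * x := mul_pos (by linarith) hx0
  set Q := (1 - 6 * ε) * Lam r x with hQ
  set η := min (1 / 2) (1 / 2 * Real.exp (-Q)) with hη
  have hη0 : 0 < η := lt_min (by norm_num) (by positivity)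
  have hη1 : η ≤ 1 / 2 := min_le_left _ _
  have hη2 : η ≤ 1 / 2 * Real.exp (-Q) := min_le_right _ _
  -- common part
  have common : ∀ (S : Finset ℕ) (σ : ℝ), |σ| ≤ 1 → Ker S j σ → S.card ≤ j + 1 →
      ∃ T1 : ℝ, 10 ≤ T1 ∧ ∀ T : ℝ, T1 ≤ T → ∀ U1 U2 : ℝ, EFD C' T (ordz U1 U2) mu →
        ms T {t | η < |SX (ordz U1 U2) mu (sc (Gs S j b) b) (Real.log T) t -
          (sc (Gs S j b) b 0 / 2 - (PW (sc (Gs S j b) b) b T t).re)|} +
        ms T {t | (1 - ε) * x ≤ ‖PP (al (sc (Gs S j b) b) (Real.log T)) (XT b T) t‖} ≤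
          Real.exp (-Q) * T := by
    intro S σ hσ hKer hS
    obtain ⟨K', hWt⟩ := sc_wt (Gs_contDiff S j b) (Gs_one S j b) hb hb1
    have hv := abs_le.1 (hvar S σ hσ hKer hS)
    have hv0 : 0 < var (sc (Gs S j b) b) := by nlinarith [hv.1]
    have hv1 : var (sc (Gs S j b) b) ≤ (1 + ε) * Vr r := by linarith [hv.2]
    have hexp := expo2 hJ1 hv0 hx' (by
      refine le_trans ?_ hJ4
      gcongr)
    have hub := ub hv0 (coef_al hWt hJb) hx' (lt_of_le_of_lt hexp hJ5)
    obtain ⟨T1, hT1, hef⟩ := ef_ms hWt hC' hη0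
    obtain ⟨T2, hT2⟩ := eventually_atTop.1 hub
    refine ⟨max T1 T2, hT1.trans (le_max_left _ _), fun T hT U1 U2 hE => ?_⟩
    have h1 := hef T ((le_max_left _ _).trans hT) _ _ hE
    have h2 := hT2 T ((le_max_right _ _).trans hT)
    have hT0 : 0 < T := by linarith [(le_max_left T1 T2).trans hT]
    have h3 : η * T ≤ 1 / 2 * Real.exp (-Q) * T := mul_le_mul_of_nonneg_right hη2 hT0.le
    calc _ ≤ η * T + 1 / 2 * Real.exp (-Q) * T := add_le_add h1 h2
      _ ≤ Real.exp (-Q) * T := by linarith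
  obtain ⟨T1, hT1, hcom1⟩ := common (Finset.Ico 1 j) (-1) (by norm_num) (ker_Ico hj) (by
    rw [Nat.card_Ico]; omega)
  obtain ⟨T2, hT2, hcom2⟩ := common (Finset.range (j + 1)) 1 (by norm_num) (ker_range j) (by
    rw [Finset.card_range])
  obtain ⟨T3, hT3⟩ := eventually_atTop.1 (gau_ev y (y + x) (show (0 : ℝ) < 1 / 2 by norm_num))
  obtain ⟨m1, m2⟩ := min_wt hj hb hb1 hby
  obtain ⟨n1, n2⟩ := maj_wt hj hb hb1 hby
  refine ⟨max T1 (max T2 T3), hT1.trans (le_max_left _ _), fun T hT U1 U2 hU hE => ?_⟩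
  have a1 : T1 ≤ T := (le_max_left _ _).trans hT
  have a2 : T2 ≤ T := ((le_max_left _ _).trans (le_max_right _ _)).trans hT
  have a3 : T3 ≤ T := ((le_max_right _ _).trans (le_max_right _ _)).trans hT
  have hT10 : 10 ≤ T := hT1.trans a1
  have hL : 0 < Real.log T := Real.log_pos (by linarith)
  constructor
  · refine le_trans ?_ (hcom1 T a1 U1 U2 hE)
    apply ms_union_of
    intro t _ _ ht
    by_cases h4 : η < |SX (ordz U1 U2) mu (sc (Gs (Finset.Ico 1 j) j b) b) (Real.log T) t -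
          (sc (Gs (Finset.Ico 1 j) j b) b 0 / 2 - (PW (sc (Gs (Finset.Ico 1 j) j b) b) b T t).re)|
    · left; exact h4
    · right
      rw [not_lt, min_zero hj hb hby, abs_le] at h4
      have h5 : (cO U1 U2 t (Real.pi * y / Real.log T) : ℝ) ≤ y - x := ht
      have h6 := SX_le RH (U2 := U2) hU (w := sc (Gs (Finset.Ico 1 j) j b) b) (L := Real.log T)
        (x0 := Real.pi * y) (ρ := Real.pi * y / Real.log T) (B := 1) hL zero_le_one m1 m2
        (le_of_eq (mul_div_cancel₀ _ hL.ne').symm) t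
      have h11 : (1 - ε) * x ≤ (PW (sc (Gs (Finset.Ico 1 j) j b) b) b T t).re := by
        linarith [h4.1]
      exact h11.trans (Complex.re_le_norm _)
  · refine le_trans ?_ (hcom2 T a2 U1 U2 hE)
    apply ms_union_of
    intro t _ _ ht
    by_cases h4 : η < |SX (ordz U1 U2) mu (sc (Gs (Finset.range (j + 1)) j b) b) (Real.log T) t -
          (sc (Gs (Finset.range (j + 1)) j b) b 0 / 2 -
            (PW (sc (Gs (Finset.range (j + 1)) j b) b) b T t).re)|
    · left; exact h4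
    · right
      rw [not_lt, maj_zero hb hby, abs_le] at h4
      have h5 : y + x ≤ (cC U1 U2 t (Real.pi * y / Real.log T) : ℝ) := ht
      have h6 := SX_ge RH (U2 := U2) hU (w := sc (Gs (Finset.range (j + 1)) j b) b)
        (L := Real.log T) (x0 := Real.pi * y) (ρ := Real.pi * y / Real.log T) (c := 1) hL
        zero_le_one n1 n2 (le_of_eq (mul_div_cancel₀ _ hL.ne')) t
      have h7 := hT3 T a3
      have h8 : (y + x) * Real.exp (-(Real.pi * y / Real.log T) ^ 2 / 2) ≤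
          (cC U1 U2 t (Real.pi * y / Real.log T) : ℝ) *
            (1 * Real.exp (-(Real.pi * y / Real.log T) ^ 2 / 2)) := by
        rw [one_mul]
        exact mul_le_mul_of_nonneg_right h5 (Real.exp_pos _).le
      have h11 : (1 - ε) * x ≤ -(PW (sc (Gs (Finset.range (j + 1)) j b) b) b T t).re := by
        linarith [h4.2]
      exact h11.trans ((neg_le_abs _).trans (Complex.abs_re_le_norm _))

end Pool.Agent.T9h26.TD
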