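import Pool.Agent.T9h26.TD.Kc
import Pool.Agent.T9h26.TD.Mu

set_option autoImplicit false

/-! Band-limited test functions of a prime polynomial. -/

open Complex Filter Topology Set MeasureTheory

namespace Pool.Agent.T9h26.TD

/-- the cosine transform of a Gaussian function on the half line -/
lemma cos_gauss {b : ℝ} (hb : 0 < b) (c : ℝ) :
    ∫ x in Ioi (0 : ℝ), Real.exp (-b * x ^ 2) * Real.cos (c * x) =
      1 / 2 * (Real.sqrt (Real.pi / b) * Real.exp (-c ^ 2 / (4 * b))) := by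
  have h1 := fourierIntegral_gaussian (b := (b : ℂ)) (by simpa using hb) (c : ℂ)
  have e : ∀ x : ℝ, (cexp (I * c * x) * cexp (-(b : ℂ) * x ^ 2)).re =
      Real.exp (-b * x ^ 2) * Real.cos (c * x) := by
    intro x
    have h2 : I * c * x = ((c * x : ℝ) : ℂ) * I := by push_cast; ring
    have h3 : cexp (-(b : ℂ) * x ^ 2) = ((Real.exp (-b * x ^ 2) : ℝ) : ℂ) := by push_cast; rfl
    rw [h2, h3, Complex.re_mul_ofReal, Complex.exp_ofReal_mul_I_re]
    ring
  have i0 := integrable_exp_neg_mul_sq hb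
  have i1 : Integrable fun x : ℝ => cexp (I * c * x) * cexp (-(b : ℂ) * x ^ 2) := by
    refine i0.mono (by fun_prop) (Eventually.of_forall fun x => ?_)
    have h2 : I * c * x = ((c * x : ℝ) : ℂ) * I := by push_cast; ring
    have h3 : cexp (-(b : ℂ) * x ^ 2) = ((Real.exp (-b * x ^ 2) : ℝ) : ℂ) := by push_cast; rfl
    rw [norm_mul, h2, Complex.norm_exp_ofReal_mul_I, h3, Complex.norm_real, one_mul]
  have h2 := congrArg Complex.reCLM h1
  rw [← Complex.reCLM.integral_comp_comm i1] at h2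
  simp only [Complex.reCLM_apply, e] at h2
  have e2 : ((Real.pi : ℂ) / b) ^ (1 / 2 : ℂ) * cexp (-(c : ℂ) ^ 2 / (4 * b)) =
      ((Real.sqrt (Real.pi / b) * Real.exp (-c ^ 2 / (4 * b)) : ℝ) : ℂ) := by
    rw [Real.sqrt_eq_rpow, Complex.ofReal_mul, Complex.ofReal_cpow (by positivity)]
    push_cast
    rfl
  rw [e2, Complex.ofReal_re] at h2
  have h3 := integral_comp_abs (f := fun x => Real.exp (-b * x ^ 2) * Real.cos (c * x))
  have h4 : (fun x : ℝ => Real.exp (-b * |x| ^ 2) * Real.cos (c * |x|)) =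
      fun x => Real.exp (-b * x ^ 2) * Real.cos (c * x) := by
    ext x
    rw [sq_abs]
    congr 1
    rcases abs_choice x with h | h
    · rw [h]
    · rw [h, mul_neg, Real.cos_neg]
  simp only [h4] at h3
  rw [← h2, h3]
  ring

lemma mul_gauss {b : ℝ} (hb : 0 < b) :
    ∫ x in Ioi (0 : ℝ), x * Real.exp (-b * x ^ 2) = 1 / (2 * b) := by
  have h := integral_mul_cexp_neg_mul_sq (b := (b : ℂ)) (by simpa using hb)
  have e : ∀ x : ℝ, (x : ℂ) * cexp (-(b : ℂ) * x ^ 2) = ((x * Real.exp (-b * x ^ 2) : ℝ) : ℂ) := by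
    intro x
    push_cast
    ring
  simp_rw [e] at h
  rw [integral_complex_ofReal] at h
  have h2 : ((2 * (b : ℂ))⁻¹) = ((1 / (2 * b) : ℝ) : ℂ) := by push_cast; ring
  rw [h2] at h
  exact_mod_cast h

/-- the mean of a band-limited function -/
lemma ph_mean {x : ℝ → ℝ} (hx : Continuous x) {g : ℝ → ℝ} (hg : Continuous g) {Mg : ℝ}
    (hM : ∀ ξ, |g ξ| ≤ Mg) {T v E : ℝ} (hT : 0 < T) (h : ∀ ξ : ℝ, |ξ| ≤ 1 →
      ‖(1 / (T : ℂ)) * (∫ t in T..(2 * T), ex (ξ * x t)) - (Real.exp (-(ξ ^ 2 * v / 4)) : ℂ)‖ ≤ E)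
    (c : ℝ) : |(∫ t in T..(2 * T), ph g (x t - c)) -
      T * ∫ ξ in (0 : ℝ)..1, g ξ * (Real.exp (-(v / 4) * ξ ^ 2) * Real.cos (c * ξ))| ≤
        Mg * E * T := by
  have e1 : ∫ t in T..(2 * T), ph g (x t - c) =
      ∫ ξ in (0 : ℝ)..1, g ξ * ∫ t in T..(2 * T), Real.cos (ξ * (x t - c)) := by
    unfold ph
    rw [intervalIntegral_intervalIntegral_swap]
    · apply intervalIntegral.integral_congr
      intro ξ _
      simp only
      rw [intervalIntegral.integral_const_mul]
    · apply ContinuousOn.integrableOn_of_subset_isCompact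
        (K := uIcc T (2 * T) ×ˢ uIcc (0 : ℝ) 1)
      · apply Continuous.continuousOn
        have e : (Function.uncurry fun t ξ => g ξ * Real.cos (ξ * (x t - c))) =
            fun p : ℝ × ℝ => g p.2 * Real.cos (p.2 * (x p.1 - c)) := by
          ext p
          rfl
        rw [e]
        fun_prop
      · exact isCompact_uIcc.prod isCompact_uIcc
      · exact measurableSet_uIoc.prod measurableSet_uIoc
      · exact Set.prod_mono uIoc_subset_uIcc uIoc_subset_uIcc
      · exact ((measure_mono (Set.prod_mono uIoc_subset_uIcc uIoc_subset_uIcc)).trans_lt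
          (isCompact_uIcc.prod isCompact_uIcc).measure_lt_top).ne
  have e2 : ∀ ξ : ℝ, |ξ| ≤ 1 → |(∫ t in T..(2 * T), Real.cos (ξ * (x t - c))) -
      T * (Real.exp (-(v / 4) * ξ ^ 2) * Real.cos (c * ξ))| ≤ E * T := by
    intro ξ hξ
    have h1 := h ξ hξ
    set Z := ∫ t in T..(2 * T), ex (ξ * x t) with hZ
    have h2 : ∫ t in T..(2 * T), Real.cos (ξ * (x t - c)) = (ex (-(ξ * c)) * Z).re := by
      rw [hZ, ← intervalIntegral.integral_const_mul]
      have hc : Continuous fun t => ex (-(ξ * c)) * ex (ξ * x t) := by unfold ex; fun_prop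
      have h3 := Complex.reCLM.intervalIntegral_comp_comm
        (hc.intervalIntegrable (μ := volume) T (2 * T))
      rw [Complex.reCLM_apply] at h3
      rw [← h3]
      apply intervalIntegral.integral_congr
      intro t _
      simp only [Complex.reCLM_apply]
      rw [← ex_add]
      unfold ex
      rw [Complex.exp_ofReal_mul_I_re]
      congr 1
      ring
    have h3 : Real.exp (-(v / 4) * ξ ^ 2) * Real.cos (c * ξ) =
        (ex (-(ξ * c)) * (Real.exp (-(ξ ^ 2 * v / 4)) : ℂ)).re := by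
      rw [Complex.re_mul_ofReal]
      unfold ex
      rw [Complex.exp_ofReal_mul_I_re, Real.cos_neg]
      rw [show -(v / 4) * ξ ^ 2 = -(ξ ^ 2 * v / 4) by ring, show c * ξ = ξ * c by ring]
      ring
    have h4 : (ex (-(ξ * c)) * Z).re - T * (ex (-(ξ * c)) * (Real.exp (-(ξ ^ 2 * v / 4)) : ℂ)).re =
        T * (ex (-(ξ * c)) * ((1 / (T : ℂ)) * Z - (Real.exp (-(ξ ^ 2 * v / 4)) : ℂ))).re := by
      have hTc : (T : ℂ) ≠ 0 := by exact_mod_cast hT.ne'
      have h5 : ex (-(ξ * c)) * Z = (T : ℂ) * (ex (-(ξ * c)) * ((1 / (T : ℂ)) * Z)) := by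
        field_simp
      rw [mul_sub, Complex.sub_re, mul_sub]
      congr 1
      rw [h5, Complex.re_ofReal_mul]
    rw [h2, h3, h4, abs_mul, abs_of_pos hT, mul_comm]
    apply mul_le_mul_of_nonneg_right _ hT.le
    refine (Complex.abs_re_le_norm _).trans ?_
    rw [norm_mul, norm_ex, one_mul]
    exact h1
  have hcos : Continuous fun ξ : ℝ => ∫ t in T..(2 * T), Real.cos (ξ * (x t - c)) := by
    apply intervalIntegral.continuous_parametric_intervalIntegral_of_continuous'
    fun_prop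
  rw [e1, ← intervalIntegral.integral_const_mul, ← intervalIntegral.integral_sub
    ((by fun_prop : Continuous fun ξ => g ξ *
      ∫ t in T..(2 * T), Real.cos (ξ * (x t - c))).intervalIntegrable _ _)
    ((by fun_prop : Continuous fun ξ => T * (g ξ *
      (Real.exp (-(v / 4) * ξ ^ 2) * Real.cos (c * ξ)))).intervalIntegrable _ _), ← Real.norm_eq_abs]
  have key := intervalIntegral.norm_integral_le_of_norm_le_const (a := (0 : ℝ)) (b := 1)
    (f := fun ξ => g ξ * (∫ t in T..(2 * T), Real.cos (ξ * (x t - c))) -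
      T * (g ξ * (Real.exp (-(v / 4) * ξ ^ 2) * Real.cos (c * ξ)))) (C := Mg * E * T) (by
      intro ξ hξ
      rw [uIoc_of_le zero_le_one] at hξ
      have h5 := e2 ξ (by rw [abs_of_pos hξ.1]; exact hξ.2)
      have h6 : g ξ * (∫ t in T..(2 * T), Real.cos (ξ * (x t - c))) -
          T * (g ξ * (Real.exp (-(v / 4) * ξ ^ 2) * Real.cos (c * ξ))) =
          g ξ * ((∫ t in T..(2 * T), Real.cos (ξ * (x t - c))) -
          T * (Real.exp (-(v / 4) * ξ ^ 2) * Real.cos (c * ξ))) := by ring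
      rw [h6, norm_mul, Real.norm_eq_abs, Real.norm_eq_abs, mul_assoc]
      exact mul_le_mul (hM ξ) h5 (abs_nonneg _) ((abs_nonneg _).trans (hM ξ)))
  simpa using key

/-- the Gaussian main term -/
lemma gauss_main {g : ℝ → ℝ} (hg : Continuous g) {b y A B v c : ℝ} (hb : 0 < b) (hb1 : b ≤ 1)
    (hy : 0 ≤ y) (hA : 0 ≤ A) (hB : 0 ≤ B) (hv : 0 < v) (hg0 : ∀ ξ, b ≤ ξ → g ξ = 0)
    (hg1 : ∀ ξ, 0 < ξ → ξ ≤ b → |g ξ - 2 * y| ≤ A + B * ξ) :
    |(∫ ξ in (0 : ℝ)..1, g ξ * (Real.exp (-(v / 4) * ξ ^ 2) * Real.cos (c * ξ))) -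
      2 * y * (Real.sqrt (Real.pi / v) * Real.exp (-(c ^ 2 / v)))| ≤
      A * Real.sqrt (Real.pi / v) + (B + 2 * y / b) * (2 / v) := by
  have hv4 : 0 < v / 4 := by positivity
  have i0 := (integrable_exp_neg_mul_sq hv4).integrableOn (s := Ioi (0 : ℝ))
  have i1 := (integrable_mul_exp_neg_mul_sq hv4).integrableOn (s := Ioi (0 : ℝ))
  have i2 : IntegrableOn (fun x : ℝ => Real.exp (-(v / 4) * x ^ 2) * Real.cos (c * x)) (Ioi 0) := by
    refine Integrable.mono i0 (by fun_prop) (Eventually.of_forall fun x => ?_)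
    rw [norm_mul]
    exact mul_le_of_le_one_right (norm_nonneg _) (by simpa using Real.abs_cos_le_one _)
  have hsq : Real.sqrt (Real.pi / (v / 4)) = 2 * Real.sqrt (Real.pi / v) := by
    rw [show Real.pi / (v / 4) = 2 ^ 2 * (Real.pi / v) by field_simp; norm_num,
      Real.sqrt_mul (by norm_num), Real.sqrt_sq (by norm_num)]
  have m1 : ∫ x in Ioi (0 : ℝ), Real.exp (-(v / 4) * x ^ 2) * Real.cos (c * x) =
      Real.sqrt (Real.pi / v) * Real.exp (-(c ^ 2 / v)) := by
    rw [cos_gauss hv4, hsq, show -c ^ 2 / (4 * (v / 4)) = -(c ^ 2 / v) by field_simp]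
    ring
  have m2 : ∫ x in Ioi (0 : ℝ), Real.exp (-(v / 4) * x ^ 2) = Real.sqrt (Real.pi / v) := by
    rw [integral_gaussian_Ioi, hsq]
    ring
  have m3 : ∫ x in Ioi (0 : ℝ), x * Real.exp (-(v / 4) * x ^ 2) = 2 / v := by
    rw [mul_gauss hv4]
    field_simp
    norm_num
  -- the integral over the half line
  have i3 : IntegrableOn (fun x : ℝ => g x * (Real.exp (-(v / 4) * x ^ 2) * Real.cos (c * x)))
      (Ioi 0) := by
    have hc : Continuous fun x : ℝ => g x * (Real.exp (-(v / 4) * x ^ 2) * Real.cos (c * x)) := by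
      fun_prop
    have h1 : IntegrableOn (fun x : ℝ => g x * (Real.exp (-(v / 4) * x ^ 2) * Real.cos (c * x)))
        (Ioc 0 1) := (hc.integrableOn_Icc (a := 0) (b := 1)).mono_set Ioc_subset_Icc_self
    have h2 : IntegrableOn (fun x : ℝ => g x * (Real.exp (-(v / 4) * x ^ 2) * Real.cos (c * x)))
        (Ioi 1) := by
      apply integrableOn_zero.congr_fun _ measurableSet_Ioi
      intro x hx
      simp only
      rw [hg0 x (hb1.trans (le_of_lt hx)), zero_mul]
    have h3 := h1.union h2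
    rwa [Ioc_union_Ioi_eq_Ioi zero_le_one] at h3
  have m4 : ∫ ξ in (0 : ℝ)..1, g ξ * (Real.exp (-(v / 4) * ξ ^ 2) * Real.cos (c * ξ)) =
      ∫ ξ in Ioi (0 : ℝ), g ξ * (Real.exp (-(v / 4) * ξ ^ 2) * Real.cos (c * ξ)) := by
    rw [intervalIntegral.integral_of_le zero_le_one]
    symm
    apply setIntegral_eq_of_subset_of_forall_sdiff_eq_zero measurableSet_Ioi Ioc_subset_Ioi_self
    intro x hx
    obtain ⟨h1, h2⟩ := hx
    have h3 : 1 < x := by
      by_contra h4
      exact h2 ⟨h1, not_lt.1 h4⟩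
    rw [hg0 x (hb1.trans h3.le), zero_mul]
  rw [m4, ← m1, ← integral_const_mul, ← integral_sub i3 (i2.const_mul _), ← m2, ← m3,
    ← integral_const_mul, ← integral_const_mul, ← integral_add (i0.const_mul _) (i1.const_mul _),
    ← Real.norm_eq_abs]
  apply norm_integral_le_of_norm_le ((i0.const_mul _).add (i1.const_mul _))
  refine (ae_restrict_iff' measurableSet_Ioi).2 (Eventually.of_forall fun x hx => ?_)
  have hx0 : 0 < x := hx
  have h1 : |g x - 2 * y| ≤ A + (B + 2 * y / b) * x := by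
    have h0 : 0 ≤ 2 * y / b * x := by positivity
    rcases le_total x b with h2 | h2
    · have := hg1 x hx0 h2
      linarith
    · rw [hg0 x h2, zero_sub, abs_neg, abs_of_nonneg (by positivity)]
      have h3 : 2 * y ≤ 2 * y / b * x := by
        rw [div_mul_eq_mul_div, le_div_iff₀ hb]
        exact mul_le_mul_of_nonneg_left h2 (by positivity)
      have h4 : 0 ≤ B * x := by positivity
      linarith
  have h2 : g x * (Real.exp (-(v / 4) * x ^ 2) * Real.cos (c * x)) -
      2 * y * (Real.exp (-(v / 4) * x ^ 2) * Real.cos (c * x)) =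
      (g x - 2 * y) * (Real.exp (-(v / 4) * x ^ 2) * Real.cos (c * x)) := by ring
  rw [h2, norm_mul, norm_mul, Real.norm_eq_abs, Real.norm_eq_abs, Real.norm_eq_abs,
    abs_of_pos (Real.exp_pos _)]
  have h3 := Real.abs_cos_le_one (c * x)
  have h4 := Real.exp_pos (-(v / 4) * x ^ 2)
  calc |g x - 2 * y| * (Real.exp (-(v / 4) * x ^ 2) * |Real.cos (c * x)|)
      ≤ (A + (B + 2 * y / b) * x) * (Real.exp (-(v / 4) * x ^ 2) * 1) := by gcongr
    _ = _ := by simp only [Pi.add_apply]; ring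

end Pool.Agent.T9h26.TD
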