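import Pool.Agent.T9h26.TD.Kd
import Pool.Agent.T9h26.TD.Cv

set_option autoImplicit false

/-! The local limit theorem for a prime polynomial. -/

open Complex Filter Topology Set MeasureTheory

namespace Pool.Agent.T9h26.TD

open Pool.Agent.Y747 (al)

lemma sin_near {x : ℝ} (hx : 0 ≤ x) : |Real.sin x - x| ≤ 2 * x ^ 2 := by
  rcases hx.eq_or_lt with h | h
  · rw [← h]; simp
  · have h1 := Real.sin_lt h
    rw [abs_sub_comm, abs_of_pos (by linarith)]
    rcases le_or_gt x 1 with h2 | h2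
    · have h3 := Real.sin_gt_sub_cube h
      have h4 : x ^ 3 ≤ x ^ 2 := by
        have : x ^ 3 = x ^ 2 * x := by ring
        rw [this]
        nlinarith [sq_nonneg x]
      nlinarith [sq_nonneg x]
    · have h3 := Real.neg_one_le_sin x
      nlinarith

lemma sc_val {S : Finset ℕ} {j : ℕ} {b ξ : ℝ} (hb : 0 < b) (h0 : 0 < ξ) (h1 : ξ ≤ b) :
    sc (Gs S j b) b ξ = 2 / b * hat S j (ξ / b) := by
  unfold sc Gs
  rw [abs_of_pos h0, min_eq_right ((div_le_one hb).2 h1)]

/-- the weight is close to `2 sin (π y ξ) / (π ξ)` -/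
lemma gs_close {S : Finset ℕ} {j : ℕ} {σ : ℝ} (hσ : |σ| ≤ 1) (h : Ker S j σ) {b y ξ : ℝ}
    (hb : 0 < b) (hby : b * y = j) (h0 : 0 < ξ) (h1 : ξ ≤ b) :
    |sc (Gs S j b) b ξ - 2 * Real.sin (Real.pi * y * ξ) / (Real.pi * ξ)| ≤ 14 / b := by
  have hpi := Real.pi_pos
  have hc := hat_close hσ h (div_pos h0 hb) ((div_le_one hb).2 h1)
  rw [sc_val hb h0 h1]
  have e : 2 * Real.sin (Real.pi * y * ξ) / (Real.pi * ξ) =
      2 / b * (Real.sin (Real.pi * j * (ξ / b)) / (Real.pi * (ξ / b))) := by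
    have : Real.pi * j * (ξ / b) = Real.pi * y * ξ := by
      rw [← hby]
      field_simp
    rw [this]
    field_simp
  rw [e, ← mul_sub, abs_mul, abs_of_pos (by positivity)]
  calc 2 / b * _ ≤ 2 / b * 7 := mul_le_mul_of_nonneg_left hc (by positivity)
    _ = 14 / b := by ring

lemma gs_near {S : Finset ℕ} {j : ℕ} {σ : ℝ} (hσ : |σ| ≤ 1) (h : Ker S j σ) {b y ξ : ℝ}
    (hb : 0 < b) (hy : 0 ≤ y) (hby : b * y = j) (h0 : 0 < ξ) (h1 : ξ ≤ b) :
    |sc (Gs S j b) b ξ - 2 * y| ≤ 14 / b + 4 * Real.pi * y ^ 2 * ξ := by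
  have hpi := Real.pi_pos
  have hc := gs_close hσ h hb hby h0 h1
  have hs := sin_near (x := Real.pi * y * ξ) (by positivity)
  have e : 2 * Real.sin (Real.pi * y * ξ) / (Real.pi * ξ) - 2 * y =
      2 / (Real.pi * ξ) * (Real.sin (Real.pi * y * ξ) - Real.pi * y * ξ) := by
    field_simp
  have h2 : |2 * Real.sin (Real.pi * y * ξ) / (Real.pi * ξ) - 2 * y| ≤ 4 * Real.pi * y ^ 2 * ξ := by
    rw [e, abs_mul, abs_of_pos (by positivity)]
    calc 2 / (Real.pi * ξ) * _ ≤ 2 / (Real.pi * ξ) * (2 * (Real.pi * y * ξ) ^ 2) :=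
          mul_le_mul_of_nonneg_left hs (by positivity)
      _ = _ := by
        field_simp
        ring
  have h3 := abs_sub_le (sc (Gs S j b) b ξ) (2 * Real.sin (Real.pi * y * ξ) / (Real.pi * ξ)) (2 * y)
  linarith

lemma gs_abs {S : Finset ℕ} {j : ℕ} (hS : S.card ≤ j + 1) {b y : ℝ} (hb : 0 < b)
    (hby : b * y = j) (ξ : ℝ) : |sc (Gs S j b) b ξ| ≤ 2 * y + 4 / b := by
  unfold sc Gs
  have h0 : 0 ≤ min 1 (|ξ| / b) := le_min zero_le_one (by positivity)
  have h := hat_abs (j := j) hS h0 (min_le_left _ _)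
  rw [abs_mul, abs_of_pos (by positivity)]
  calc 2 / b * _ ≤ 2 / b * (j + 2) := mul_le_mul_of_nonneg_left h (by positivity)
    _ = 2 * y + 4 / b := by
      rw [← hby]
      field_simp
      ring

lemma sc_out {S : Finset ℕ} {j : ℕ} {b ξ : ℝ} (hb : 0 < b) (h : b ≤ ξ) :
    sc (Gs S j b) b ξ = 0 := by
  unfold sc
  have : min 1 (|ξ| / b) = 1 := by
    apply min_eq_left
    rw [le_div_iff₀ hb, one_mul]
    exact h.trans (le_abs_self _)
  rw [this, Gs_one]

/-- the mean of a test function of Selberg type -/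
lemma sel_mean {S : Finset ℕ} {j : ℕ} {σ : ℝ} (hσ : |σ| ≤ 1) (hK : Ker S j σ)
    (hS : S.card ≤ j + 1) {b y : ℝ} (hb : 0 < b) (hb1 : b ≤ 1 / 2) (hbi : 1 / b ≤ 4) (hy : 0 ≤ y)
    (hby : b * y = j) {x : ℝ → ℝ} (hx : Continuous x) {T v E : ℝ} (hT : 0 < T) (hv : 0 < v)
    (h : ∀ ξ : ℝ, |ξ| ≤ 1 →
      ‖(1 / (T : ℂ)) * (∫ t in T..(2 * T), ex (ξ * x t)) - (Real.exp (-(ξ ^ 2 * v / 4)) : ℂ)‖ ≤ E)
    (c : ℝ) : |(∫ t in T..(2 * T), ph (sc (Gs S j b) b) (x t - c)) -
      2 * y * (Real.sqrt (Real.pi / v) * Real.exp (-(c ^ 2 / v))) * T| ≤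
      (56 * Real.sqrt (Real.pi / v) + (8 * Real.pi * y ^ 2 + 16 * y) / v + (2 * y + 16) * E) * T := by
  have hpi := Real.pi_pos
  obtain ⟨K', hWt⟩ := sc_wt (Gs_contDiff S j b) (Gs_one S j b) hb hb1
  have hM : ∀ ξ, |sc (Gs S j b) b ξ| ≤ 2 * y + 16 := fun ξ => by
    have h1 := gs_abs hS hb hby ξ
    have h2 : 4 / b = 4 * (1 / b) := by ring
    rw [h2] at h1
    linarith
  have h1 := ph_mean hx hWt.cont hM hT h c
  have h2 := gauss_main hWt.cont (A := 14 / b) (B := 4 * Real.pi * y ^ 2) (c := c) hb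
    (by linarith) hy (by positivity) (by positivity) hv (fun ξ hξ => sc_out hb hξ)
    (fun ξ h0 h1 => gs_near hσ hK hb hy hby h0 h1)
  set I1 := ∫ t in T..(2 * T), ph (sc (Gs S j b) b) (x t - c)
  set I2 := ∫ ξ in (0 : ℝ)..1, sc (Gs S j b) b ξ * (Real.exp (-(v / 4) * ξ ^ 2) * Real.cos (c * ξ))
  set M := 2 * y * (Real.sqrt (Real.pi / v) * Real.exp (-(c ^ 2 / v)))
  have h3 : |T * I2 - M * T| ≤ (56 * Real.sqrt (Real.pi / v) +
      (8 * Real.pi * y ^ 2 + 16 * y) / v) * T := by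
    have e : T * I2 - M * T = (I2 - M) * T := by ring
    rw [e, abs_mul, abs_of_pos hT]
    apply mul_le_mul_of_nonneg_right _ hT.le
    refine h2.trans ?_
    have hs := Real.sqrt_nonneg (Real.pi / v)
    have e1 : 14 / b * Real.sqrt (Real.pi / v) ≤ 56 * Real.sqrt (Real.pi / v) := by
      apply mul_le_mul_of_nonneg_right _ hs
      have : 14 / b = 14 * (1 / b) := by ring
      linarith
    have e2 : (4 * Real.pi * y ^ 2 + 2 * y / b) * (2 / v) ≤ (8 * Real.pi * y ^ 2 + 16 * y) / v := by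
      have e3 : 2 * y / b ≤ 8 * y := by
        have : 2 * y / b = 2 * y * (1 / b) := by ring
        rw [this]
        nlinarith
      calc (4 * Real.pi * y ^ 2 + 2 * y / b) * (2 / v) ≤
            (4 * Real.pi * y ^ 2 + 8 * y) * (2 / v) := by gcongr
        _ = _ := by ring
    linarith
  have h4 := abs_sub_le I1 (T * I2) (M * T)
  have h5 : (56 * Real.sqrt (Real.pi / v) + (8 * Real.pi * y ^ 2 + 16 * y) / v +
      (2 * y + 16) * E) * T = (56 * Real.sqrt (Real.pi / v) +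
      (8 * Real.pi * y ^ 2 + 16 * y) / v) * T + (2 * y + 16) * E * T := by ring
  rw [h5]
  linarith

/-- an upper bound for an integral by the measure of a set -/
lemma ms_of_le {T : ℝ} (hT : 0 ≤ T) {f : ℝ → ℝ} (hf : Continuous f) {G : Set ℝ}
    (hG : MeasurableSet G) (h1 : ∀ t ∈ G, f t ≤ 1) (h2 : ∀ t, t ∉ G → f t ≤ 0) :
    ∫ t in T..(2 * T), f t ≤ ms T G := by
  rw [intervalIntegral.integral_of_le (by linarith), ← ms_ind hG]
  apply setIntegral_mono_on
  · exact (hf.integrableOn_Icc (a := T) (b := 2 * T)).mono_set Ioc_subset_Icc_self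
  · exact (integrable_const (1 : ℝ)).indicator hG
  · exact measurableSet_Ioc
  · intro t _
    by_cases h : t ∈ G
    · rw [indicator_of_mem h]
      exact h1 t h
    · rw [indicator_of_notMem h]
      exact h2 t h

lemma ph_cont {w : ℝ → ℝ} (hw : Continuous w) : Continuous (ph w) := by
  unfold ph
  apply intervalIntegral.continuous_parametric_intervalIntegral_of_continuous'
  fun_prop

/-- **the local limit theorem for a prime polynomial** -/
theorem llt_ms {w : ℝ → ℝ} {b : ℝ} {K : NNReal} (hW : Wt w b K) {J m : ℕ} (hJ : (J : ℝ) * b < 1)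
    (hm : 2 * m ≤ J) (hv : 0 < var w) {y : ℝ} (hy : 4 ≤ y) (c : ℝ) {η : ℝ} (hη : 0 < η) :
    ∀ᶠ T : ℝ in atTop, |ms T {t | |(PW w b T t).re - c| ≤ Real.pi * y} -
      2 * y * (Real.sqrt (Real.pi / var w) * Real.exp (-(c ^ 2 / var w))) * T| ≤
      (56 * Real.sqrt (Real.pi / var w) + (8 * Real.pi * y ^ 2 + 16 * y) / var w +
        (2 * y + 16) * (2 * ((var w / 4) ^ m / m.factorial) + η)) * T := by
  have hpi := Real.pi_pos
  filter_upwards [cf_re hv (coef_al hW hJ) hm hη, eventually_gt_atTop 0] with T hT hT0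
  have hy0 : 0 < y := by linarith
  -- the parameters of the test functions
  set j := ⌊y / 2⌋₊ with hj
  have hj1 : (j : ℝ) ≤ y / 2 := Nat.floor_le (by positivity)
  have hj2 : y / 2 < j + 1 := Nat.lt_floor_add_one _
  have hj3 : y / 4 ≤ j := by linarith
  have hj0 : (0 : ℝ) < j := by linarith
  have hj4 : 1 ≤ j := by exact_mod_cast hj0
  set b' := (j : ℝ) / y with hb'
  have hb0 : 0 < b' := by positivity
  have hb1 : b' ≤ 1 / 2 := by
    rw [hb', div_le_iff₀ hy0]
    linarith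
  have hbi : 1 / b' ≤ 4 := by
    rw [hb', one_div_div, div_le_iff₀ hj0]
    linarith
  have hby : b' * y = j := by
    rw [hb']
    field_simp
  set x : ℝ → ℝ := fun t => (PW w b T t).re with hx
  have hxc : Continuous x := Complex.continuous_re.comp (PP_cont _ _)
  have hmin := sel_mean (S := Finset.Ico 1 j) (σ := -1) (by norm_num) (ker_Ico hj4) (by
    rw [Nat.card_Ico]; omega) hb0 hb1 hbi hy0.le hby hxc hT0 hv hT c
  have hmaj := sel_mean (S := Finset.range (j + 1)) (σ := 1) (by norm_num) (ker_range j) (by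
    rw [Finset.card_range]) hb0 hb1 hbi hy0.le hby hxc hT0 hv hT c
  obtain ⟨m1, m2⟩ := min_wt hj4 hb0 hb1 hby
  obtain ⟨n1, n2⟩ := maj_wt hj4 hb0 hb1 hby
  obtain ⟨K1, hW1⟩ := sc_wt (Gs_contDiff (Finset.Ico 1 j) j b') (Gs_one (Finset.Ico 1 j) j b') hb0 hb1
  obtain ⟨K2, hW2⟩ := sc_wt (Gs_contDiff (Finset.range (j + 1)) j b')
    (Gs_one (Finset.range (j + 1)) j b') hb0 hb1
  have hGm : MeasurableSet {t | |x t - c| ≤ Real.pi * y} := by
    apply measurableSet_le _ measurable_const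
    exact (hxc.sub continuous_const).abs.measurable
  have up : ms T {t | |x t - c| ≤ Real.pi * y} ≤
      ∫ t in T..(2 * T), ph (sc (Gs (Finset.range (j + 1)) j b') b') (x t - c) := by
    have h1 := ms_markov hT0.le (f := fun t => ph (sc (Gs (Finset.range (j + 1)) j b') b') (x t - c))
      ((ph_cont hW2.cont).comp (hxc.sub continuous_const)) (fun t => n1 _) (c := 1)
    rw [one_mul] at h1
    refine le_trans (ms_mono ?_) h1
    intro t _ _ ht
    exact n2 _ ht
  have lo : ∫ t in T..(2 * T), ph (sc (Gs (Finset.Ico 1 j) j b') b') (x t - c) ≤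
      ms T {t | |x t - c| ≤ Real.pi * y} := by
    apply ms_of_le hT0.le ((ph_cont hW1.cont).comp (hxc.sub continuous_const)) hGm
    · intro t _
      exact m1 _
    · intro t ht
      apply m2
      have h1 : ¬ |x t - c| ≤ Real.pi * y := ht
      exact (not_le.1 h1).le
  rw [abs_le] at hmin hmaj ⊢
  constructor
  · linarith [hmin.1]
  · linarith [hmaj.2]

end Pool.Agent.T9h26.TD
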