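import Pool.Agent.T9h26.TD.Mf

set_option autoImplicit false

/-! Moderate deviations of the sums of `r` consecutive normalised gaps. -/

open Complex Filter Topology Set MeasureTheory

namespace Pool.Agent.T9h26.TD

open TC (ordz ordT mu EFD)
open SG (ord NZ zmult ZS)
open W200.HW (Ix mem_Ix)
open Pool.Agent.Y747 (al dl Bx mem_Bx Jx mem_Jx)

/-- from blocks to all indices, lower bounds -/
lemma low_all (RH : RiemannHypothesis) {P : ℕ → Prop} [DecidablePred P] {θ θ' : ℝ} (h0 : 0 ≤ θ)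
    (hθ : θ' < θ) {C T0 : ℝ}
    (hT0 : 10 ≤ T0) (hef : ∀ T : ℝ, T0 ≤ T → ∃ U1 U2 : ℝ, T ≤ U1 ∧ U1 ≤ T + 1 ∧ 2 * T - 1 ≤ U2 ∧
      U2 ≤ 2 * T ∧ EFD C T (ordz U1 U2) mu)
    (h : ∃ T1 : ℝ, 10 ≤ T1 ∧ ∀ T : ℝ, T1 ≤ T → ∀ U1 U2 : ℝ, T ≤ U1 → U1 ≤ T + 1 →
      2 * T - 1 ≤ U2 → U2 ≤ 2 * T → EFD C T (ordz U1 U2) mu →
      θ * (T * Real.log T / (2 * Real.pi)) ≤ (((Jx T).filter P).card : ℝ)) :
    ∀ᶠ N : ℕ in atTop, θ' * N ≤ (({n : ℕ | 1 ≤ n ∧ n ≤ N ∧ P n}.ncard : ℕ) : ℝ) := by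
  obtain ⟨T1, hT1, hb⟩ := h
  have key := Pool.Agent.Y747.glob_lower RH (F := fun n => if P n then 1 else 0)
    (fun n => by split_ifs <;> norm_num) h0 (fun η hη => by
      refine ⟨max T0 T1, hT0.trans (le_max_left _ _), fun T hT => ?_⟩
      obtain ⟨U1, U2, u1, u2, u3, u4, u5⟩ := hef T ((le_max_left _ _).trans hT)
      have h1 := hb T ((le_max_right _ _).trans hT) U1 U2 u1 u2 u3 u4 u5
      have hT10 : 10 ≤ T := (hT0.trans (le_max_left _ _)).trans hT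
      have hX : 0 ≤ T * Real.log T / (2 * Real.pi) := by
        have := Real.pi_pos
        have : 0 ≤ Real.log T := Real.log_nonneg (by linarith)
        positivity
      rw [← Finset.sum_filter, Finset.sum_const, nsmul_eq_mul, mul_one]
      refine le_trans ?_ h1
      apply mul_le_mul_of_nonneg_right _ hX
      linarith) (θ - θ') (by linarith)
  filter_upwards [key] with N hN
  have e1 : {n : ℕ | 1 ≤ n ∧ n ≤ N ∧ P n} = ((Finset.Icc 1 N).filter P : Finset ℕ) := by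
    ext n
    simp only [mem_setOf_eq, Finset.coe_filter, Finset.mem_Icc]
    tauto
  rw [e1, Set.ncard_coe_finset]
  rw [← Finset.sum_filter, Finset.sum_const, nsmul_eq_mul, mul_one, sub_sub_cancel] at hN
  exact hN

/-- **moderate deviations** -/
theorem mdp (RH : RiemannHypothesis) {ε : ℝ} (hε : 0 < ε) :
    ∃ C c r0 : ℝ, 0 < C ∧ 0 < c ∧ 1 < r0 ∧ ∀ (r : ℕ) (x : ℝ), r0 ≤ r →
      C * Real.sqrt (Real.log r) ≤ x → x ≤ c * Real.log r →
      ∀ᶠ N : ℕ in atTop,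
        Real.exp (-((1 + ε) * Lam r x)) * N ≤
          (({n : ℕ | 1 ≤ n ∧ n ≤ N ∧ (r : ℝ) + x ≤ Sr r n}.ncard : ℕ) : ℝ) ∧
        (({n : ℕ | 1 ≤ n ∧ n ≤ N ∧ (r : ℝ) + x ≤ Sr r n}.ncard : ℕ) : ℝ) ≤
          Real.exp (-((1 - ε) * Lam r x)) * N ∧
        Real.exp (-((1 + ε) * Lam r x)) * N ≤
          (({n : ℕ | 1 ≤ n ∧ n ≤ N ∧ Sr r n ≤ (r : ℝ) - x}.ncard : ℕ) : ℝ) ∧
        (({n : ℕ | 1 ≤ n ∧ n ≤ N ∧ Sr r n ≤ (r : ℝ) - x}.ncard : ℕ) : ℝ) ≤
          Real.exp (-((1 - ε) * Lam r x)) * N := by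
  classical
  obtain ⟨C', T0, hC', hT0, hef⟩ := Pool.Agent.W930.TCEFR.efr RH
  set e := min (ε / 24) (1 / 50) with he
  have he0 : 0 < e := lt_min (by positivity) (by norm_num)
  have he1 : e ≤ 1 / 50 := min_le_right _ _
  have he2 : 24 * e ≤ ε := by
    have := min_le_left (ε / 24) (1 / 50)
    rw [← he] at this
    linarith
  obtain ⟨C1, c1, r1, hC1, hc1, hr1, hlo⟩ := lo_cnt RH hC' he0 he1
  obtain ⟨C2, c2, r2, hC2, hc2, hr2, hup⟩ := up_cnt RH hC' he0 he1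
  refine ⟨max C1 C2, min c1 c2, max r1 r2, lt_of_lt_of_le (by linarith) (le_max_left _ _),
    lt_min hc1 hc2, lt_of_lt_of_le (by linarith) (le_max_left _ _), fun r x hr h1 h2 => ?_⟩
  have hr' : 10 ≤ (r : ℝ) := (hr1.trans (le_max_left _ _)).trans hr
  have hlog : 0 ≤ Real.log r := Real.log_nonneg (by linarith)
  have hs := Real.sqrt_nonneg (Real.log r)
  have f1 : C1 * Real.sqrt (Real.log r) ≤ x :=
    (mul_le_mul_of_nonneg_right (le_max_left _ _) hs).trans h1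
  have f2 : C2 * Real.sqrt (Real.log r) ≤ x :=
    (mul_le_mul_of_nonneg_right (le_max_right _ _) hs).trans h1
  have f3 : x ≤ c1 * Real.log r := h2.trans (mul_le_mul_of_nonneg_right (min_le_left _ _) hlog)
  have f4 : x ≤ c2 * Real.log r := h2.trans (mul_le_mul_of_nonneg_right (min_le_right _ _) hlog)
  obtain ⟨hL0, T1, hT1, hb⟩ := hlo r x ((le_max_left _ _).trans hr) f1 f3
  obtain ⟨hu1, hu2⟩ := hup r x ((le_max_right _ _).trans hr) f2 f4
  have hlt : Real.exp (-((1 + ε) * Lam r x)) < Real.exp (-((1 + 23 * e) * Lam r x)) := by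
    apply Real.exp_lt_exp.2
    nlinarith
  have hle : Real.exp (-((1 - 12 * e) * Lam r x)) ≤ Real.exp (-((1 - ε) * Lam r x)) := by
    apply Real.exp_le_exp.2
    nlinarith
  have k1 := low_all RH (P := fun n => (r : ℝ) + x ≤ Sr r n) (Real.exp_pos _).le hlt hT0 hef
    ⟨T1, hT1, fun T hT U1 U2 u1 u2 u3 u4 u5 => (hb T hT U1 U2 u1 u2 u3 u4 u5).1⟩
  have k2 := low_all RH (P := fun n => Sr r n ≤ (r : ℝ) - x) (Real.exp_pos _).le hlt hT0 hef
    ⟨T1, hT1, fun T hT U1 U2 u1 u2 u3 u4 u5 => (hb T hT U1 U2 u1 u2 u3 u4 u5).2⟩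
  have k3 := trans_all RH (Real.exp_pos _) hT0 hef hu1
  have k4 := trans_all RH (Real.exp_pos _) hT0 hef hu2
  filter_upwards [k1, k2, k3, k4] with N m1 m2 m3 m4
  have hN : (0 : ℝ) ≤ N := Nat.cast_nonneg N
  exact ⟨m1, m3.trans (mul_le_mul_of_nonneg_right hle hN), m2,
    m4.trans (mul_le_mul_of_nonneg_right hle hN)⟩

end Pool.Agent.T9h26.TD
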