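import Pool.Agent.T9h26.TD.Ze
import Pool.Agent.T9h26.TD.Mz

set_option autoImplicit false

/-! Large deviations: splitting of the weight. -/

open Complex Filter Topology Set MeasureTheory

namespace Pool.Agent.T9h26.TD

open TC (ordz ordT mu EFD)
open SG (ord NZ zmult ZS)
open Pool.Agent.Y747 (al)

/-- the low part of a weight -/
noncomputable def Wl (w : ℝ → ℝ) (a0 u : ℝ) : ℝ := w u * (1 - ks a0 u)

lemma ks_even (a u : ℝ) : ks a (-u) = ks a u := by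
  unfold ks
  rw [abs_neg]

lemma lip_ofReal {f : ℝ → ℝ} {K : NNReal} (h : LipschitzWith K fun u => (f u : ℂ)) :
    LipschitzWith K f := by
  apply LipschitzWith.of_dist_le_mul
  intro x y
  have := h.dist_le_mul x y
  rwa [dist_eq_norm, ← Complex.ofReal_sub, Complex.norm_real, Real.norm_eq_abs,
    ← Real.dist_eq] at this

lemma wt_lo {w : ℝ → ℝ} {b : ℝ} {K : NNReal} (h : Wt w b K) {a0 : ℝ} (ha : 0 < a0)
    (ha0 : 2 * a0 ≤ 1 / 2) : ∃ K', Wt (Wl w a0) (2 * a0) K' := by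
  have h1 : BL fun u => (Wl w a0 u : ℂ) := by
    have e : (fun u => (Wl w a0 u : ℂ)) = fun u => (w u : ℂ) * (1 - (ks a0 u : ℂ)) := by
      ext u
      unfold Wl
      push_cast
      ring
    rw [e]
    exact (BL.wt h).mul ((BL.const 1).sub (BL.ks ha))
  obtain ⟨⟨K', hK'⟩, -⟩ := h1
  refine ⟨K', by linarith, ha0, lip_ofReal hK', ?_, ?_⟩
  · intro ξ hξ
    unfold Wl
    rw [ks_one ha hξ]
    ring
  · intro ξ
    unfold Wl
    rw [h.even, ks_even]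

lemma wt_hi {w : ℝ → ℝ} {b : ℝ} {K : NNReal} (h : Wt w b K) {a0 : ℝ} (ha : 0 < a0) :
    ∃ K', Wt (Ehi w a0) b K' := by
  have h1 : BL fun u => (Ehi w a0 u : ℂ) := by
    have e : (fun u => (Ehi w a0 u : ℂ)) = fun u => (w u : ℂ) * (ks a0 u : ℂ) := by
      ext u
      unfold Ehi
      push_cast
      ring
    rw [e]
    exact (BL.wt h).mul (BL.ks ha)
  obtain ⟨⟨K', hK'⟩, -⟩ := h1
  refine ⟨K', h.b0, h.b1, lip_ofReal hK', ?_, ?_⟩
  · intro ξ hξ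
    unfold Ehi
    rw [h.zero ξ hξ]
    ring
  · intro ξ
    unfold Ehi
    rw [h.even, ks_even]

lemma PW_split {w : ℝ → ℝ} {b : ℝ} {K : NNReal} (h : Wt w b K) {a0 : ℝ} (ha : 0 < a0)
    (ha0 : 2 * a0 ≤ 1 / 2) {T : ℝ} (hT : 1 < T) (t : ℝ) :
    PW w b T t = PW (Wl w a0) (2 * a0) T t + PW (Ehi w a0) b T t := by
  obtain ⟨K1, h1⟩ := wt_lo h ha ha0
  obtain ⟨K2, h2⟩ := wt_hi h ha
  rw [PW_PZ h hT, PW_PZ h1 hT, PW_PZ h2 hT, ← PZ_add]
  congr 1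
  ext u
  unfold Wl Ehi
  push_cast
  ring

lemma var_real {f : ℝ → ℝ} (hf : ∀ ξ, f (-ξ) = f ξ) : var (nw fun u => (f u : ℂ)) = var f := by
  unfold var nw
  apply intervalIntegral.integral_congr
  intro u hu
  rw [Set.uIcc_of_le zero_le_one] at hu
  simp only
  rw [Complex.norm_real, Real.norm_eq_abs, sq_abs, abs_of_nonneg hu.1]

lemma var_int {f : ℝ → ℝ} (hf : Continuous f) (a b : ℝ) :
    IntervalIntegrable (fun u => u * f u ^ 2) volume a b :=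
  (continuous_id.mul (hf.pow 2)).intervalIntegrable _ _

/-- the variance of the low part -/
lemma var_Wl {w : ℝ → ℝ} {b : ℝ} {K : NNReal} (h : Wt w b K) {a0 : ℝ} (ha : 0 < a0) :
    var (Wl w a0) ≤ var w ∧ ∀ ε : ℝ, 0 < ε →
      (1 - ε) * var w - 1 / ε * var (Ehi w a0) ≤ var (Wl w a0) := by
  have c1 : Continuous w := h.cont
  have c2 : Continuous (ks a0) := ks_cont ha
  have c3 : Continuous (Wl w a0) := by
    unfold Wl
    exact c1.mul (continuous_const.sub c2)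
  have c4 : Continuous (Ehi w a0) := by
    unfold Ehi
    exact c1.mul c2
  constructor
  · unfold var
    apply intervalIntegral.integral_mono_on zero_le_one (var_int c3 _ _) (var_int c1 _ _)
    intro u hu
    apply mul_le_mul_of_nonneg_left _ hu.1
    unfold Wl
    rw [mul_pow]
    have k1 := ks_nonneg a0 u
    have k2 := ks_le a0 u
    have : (1 - ks a0 u) ^ 2 ≤ 1 := pow_le_one₀ (by linarith) (by linarith)
    have := sq_nonneg (w u)
    nlinarith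
  · intro ε hε
    unfold var
    rw [← intervalIntegral.integral_const_mul, ← intervalIntegral.integral_const_mul,
      ← intervalIntegral.integral_sub ((var_int c1 _ _).const_mul _) ((var_int c4 _ _).const_mul _)]
    apply intervalIntegral.integral_mono_on zero_le_one
      (((var_int c1 _ _).const_mul _).sub ((var_int c4 _ _).const_mul _)) (var_int c3 _ _)
    intro u hu
    have e1 : Wl w a0 u = w u - Ehi w a0 u := by
      unfold Wl Ehi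
      ring
    rw [e1]
    set A := w u
    set B := Ehi w a0 u
    have key : (1 - ε) * A ^ 2 - 1 / ε * B ^ 2 ≤ (A - B) ^ 2 := by
      have h1 : 0 ≤ (ε * A - B) ^ 2 / ε := by positivity
      have h2 : (ε * A - B) ^ 2 / ε = ε * A ^ 2 - 2 * A * B + 1 / ε * B ^ 2 := by
        field_simp
        ring
      have h3 : 0 ≤ B ^ 2 := sq_nonneg B
      nlinarith
    calc (1 - ε) * (u * A ^ 2) - 1 / ε * (u * B ^ 2) = u * ((1 - ε) * A ^ 2 - 1 / ε * B ^ 2) := by ring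
      _ ≤ u * (A - B) ^ 2 := mul_le_mul_of_nonneg_left key hu.1

/-- Markov's inequality for a real weight -/
lemma mkvW {w : ℝ → ℝ} {b : ℝ} {K : NNReal} (h : Wt w b K) {J : ℕ} (hJ : (J : ℝ) * b < 1)
    {x θ v : ℝ} (hx : 0 < x) (hv : var w ≤ v) (hθ : J.factorial * v ^ J / x ^ (2 * J) < θ) :
    ∀ᶠ T : ℝ in atTop, ms T {t | x ≤ ‖PW w b T t‖} ≤ θ * T := by
  have hz : Wz (fun u => (w u : ℂ)) b K := by
    refine ⟨h.b0, h.b1, ?_, ?_⟩
    · apply LipschitzWith.of_dist_le_mul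
      intro x y
      have := h.lip.dist_le_mul x y
      rwa [dist_eq_norm, ← Complex.ofReal_sub, Complex.norm_real, Real.norm_eq_abs,
        ← Real.dist_eq]
    · intro ξ hξ
      rw [h.zero ξ hξ, Complex.ofReal_zero]
  have hv0 := var_nonneg (nw fun u => (w u : ℂ))
  rw [var_real h.even] at hv0
  have h1 := mkv hz hJ hx (θ := θ) (by
    rw [var_real h.even]
    refine lt_of_le_of_lt ?_ hθ
    gcongr)
  filter_upwards [h1, eventually_gt_atTop 1] with T h2 h3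
  simp_rw [PW_PZ h h3]
  exact h2

/-- **the two parts, upper bound** -/
theorem two_up {w : ℝ → ℝ} {b : ℝ} {K : NNReal} (h : Wt w b K) {a0 : ℝ} (ha : 0 < a0)
    (ha0 : 2 * a0 ≤ 1 / 2) {J J2 : ℕ} (hJ : (J : ℝ) * (2 * a0) < 1) (hJ2 : (J2 : ℝ) * b < 1)
    {x1 x2 θ1 θ2 v1 v2 : ℝ} (hx1 : 0 < x1) (hx2 : 0 < x2) (hv1 : var w ≤ v1)
    (hv2 : var (Ehi w a0) ≤ v2) (h1 : J.factorial * v1 ^ J / x1 ^ (2 * J) < θ1)
    (h2 : J2.factorial * v2 ^ J2 / x2 ^ (2 * J2) < θ2) :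
    ∀ᶠ T : ℝ in atTop, ms T {t | x1 + x2 ≤ ‖PW w b T t‖} ≤ (θ1 + θ2) * T := by
  obtain ⟨K1, k1⟩ := wt_lo h ha ha0
  obtain ⟨K2, k2⟩ := wt_hi h ha
  have m1 := mkvW k1 hJ hx1 ((var_Wl h ha).1.trans hv1) h1
  have m2 := mkvW k2 hJ2 hx2 hv2 h2
  filter_upwards [m1, m2, eventually_gt_atTop 1] with T n1 n2 hT
  refine (ms_union_of (S1 := {t | x1 ≤ ‖PW (Wl w a0) (2 * a0) T t‖})
    (S2 := {t | x2 ≤ ‖PW (Ehi w a0) b T t‖}) ?_).trans (by linarith)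
  intro t _ _ ht
  have h3 : x1 + x2 ≤ ‖PW w b T t‖ := ht
  rw [PW_split h ha ha0 hT] at h3
  have h4 := norm_add_le (PW (Wl w a0) (2 * a0) T t) (PW (Ehi w a0) b T t)
  by_cases h5 : x1 ≤ ‖PW (Wl w a0) (2 * a0) T t‖
  · left; exact h5
  · right
    rw [not_le] at h5
    show x2 ≤ ‖PW (Ehi w a0) b T t‖
    linarith

/-- **the two parts, lower bound** -/
theorem two_lo {w : ℝ → ℝ} {b : ℝ} {K : NNReal} (h : Wt w b K) {a0 : ℝ} (ha : 0 < a0)
    (ha0 : 2 * a0 ≤ 1 / 2) {J J2 : ℕ} (hJ : ((J + 1 : ℕ) : ℝ) * (2 * a0) < 1)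
    (hJ2 : (J2 : ℝ) * b < 1) {x2 θ2 v2 : ℝ} (hx2 : 0 < x2)
    (hv2 : var (Ehi w a0) ≤ v2) (h2 : J2.factorial * v2 ^ J2 / x2 ^ (2 * J2) < θ2)
    (hv : 0 < var (Wl w a0)) {ρ ε lam : ℝ} (hρ : ρ ≠ 0) (hε : 0 < ε)
    (hlam : lam = ρ ^ 2 / var (Wl w a0)) (h8 : 8 ≤ ε ^ 2 * lam)
    (hJ1 : lam * (lam ^ J / J.factorial) ≤ 1) (hJe : Real.exp lam / 2 ≤ SJ lam J) :
    ∀ᶠ T : ℝ in atTop, (1 / 4 * Real.exp (-(lam * (1 + 2 * ε))) - θ2) * T ≤
      ms T {t | ‖PW w b T t - ρ‖ ≤ ε * |ρ| + x2} := by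
  obtain ⟨K1, k1⟩ := wt_lo h ha ha0
  obtain ⟨K2, k2⟩ := wt_hi h ha
  have m1 := lb hv (coef_al k1 hJ) hρ hε hlam h8 hJ1 hJe
  have m2 := mkvW k2 hJ2 hx2 hv2 h2
  filter_upwards [m1, m2, eventually_gt_atTop 1] with T n1 n2 hT
  refine le_trans ?_ (ms_diff_ge (S1 := {t | ‖PP (al (Wl w a0) (Real.log T)) (XT (2 * a0) T) t - ρ‖ ≤
    ε * |ρ|}) (S2 := {t | x2 ≤ ‖PW (Ehi w a0) b T t‖}) ?_)
  · rw [sub_mul]
    linarith
  · intro t _ _ h3 h4
    have h5 : ‖PW (Wl w a0) (2 * a0) T t - ρ‖ ≤ ε * |ρ| := h3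
    have h6 : ¬ x2 ≤ ‖PW (Ehi w a0) b T t‖ := h4
    rw [not_le] at h6
    show ‖PW w b T t - ρ‖ ≤ ε * |ρ| + x2
    rw [PW_split h ha ha0 hT]
    have e : PW (Wl w a0) (2 * a0) T t + PW (Ehi w a0) b T t - ρ =
        (PW (Wl w a0) (2 * a0) T t - ρ) + PW (Ehi w a0) b T t := by ring
    rw [e]
    exact (norm_add_le _ _).trans (add_le_add h5 h6.le)

end Pool.Agent.T9h26.TD
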