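import Pool.Agent.T9h26.TD.Mi

set_option autoImplicit false

/-! Moderate deviations: index level. -/

open Complex Filter Topology Set MeasureTheory

namespace Pool.Agent.T9h26.TD

open TC (ordz ordT mu EFD)
open SG (ord NZ zmult ZS)
open W200.HW (Ix mem_Ix)
open Pool.Agent.Y747 (al dl Bx mem_Bx Jx mem_Jx)

lemma log_two_pi_le : Real.log (2 * Real.pi) ≤ 2 := by
  have hpi := Real.pi_pos
  have h1 : Real.log (2 * Real.pi) ≤ Real.log (Real.exp 2) := by
    apply Real.log_le_log (by positivity)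
    have h2 : Real.exp 2 = Real.exp 1 * Real.exp 1 := by
      rw [← Real.exp_add]
      norm_num
    have h3 := Real.exp_one_gt_d9
    have h4 := Real.pi_lt_d2
    rw [h2]
    nlinarith
  rwa [Real.log_exp] at h1

/-- basic facts on the range of the parameters -/
lemma range_facts {C c r0 r x : ℝ} (hC : 1 ≤ C) (hc1 : c ≤ 1 / 8) (hr0 : 10 ≤ r0)
    (hr : r0 ≤ r) (h1 : C * Real.sqrt (Real.log r) ≤ x) (h2 : x ≤ c * Real.log r) :
    1 ≤ Real.log r ∧ C ≤ x ∧ x ≤ r / 8 ∧ C ≤ Lam r x := by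
  have hr0' : 0 < r := by linarith
  have hlog1 : 1 ≤ Real.log r := by
    rw [Real.le_log_iff_exp_le hr0']
    have := Real.exp_one_lt_d9
    linarith
  have hs : 1 ≤ Real.sqrt (Real.log r) := Real.one_le_sqrt.2 hlog1
  have hCx : C ≤ x := by nlinarith
  have hlr : Real.log r ≤ r := by
    have := Real.log_le_sub_one_of_pos hr0'
    linarith
  have hxr : x ≤ r / 8 := by nlinarith
  refine ⟨hlog1, hCx, hxr, ?_⟩
  have t1 := two_pi_sq
  have t2 := two_pi_sq'
  have hV0 : 0 < Vr r := by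
    unfold Vr
    positivity
  have hV2 : Vr r ≤ Real.log r := by
    unfold Vr
    nlinarith
  have h3 : C ^ 2 * Real.log r ≤ x ^ 2 := by
    have h2 : (C * Real.sqrt (Real.log r)) ^ 2 ≤ x ^ 2 := pow_le_pow_left₀ (by positivity) h1 2
    rwa [mul_pow, Real.sq_sqrt (by linarith)] at h2
  unfold Lam
  rw [le_div_iff₀ hV0]
  calc C * Vr r ≤ C * Real.log r := by gcongr
    _ ≤ C ^ 2 * Real.log r := by
        apply mul_le_mul_of_nonneg_right _ (by linarith)
        nlinarith
    _ ≤ x ^ 2 := h3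

lemma Lam_add_two {ε r x : ℝ} (hε : 0 < ε) (hε1 : ε ≤ 1) (hr : 0 < Vr r) (hx : 6 / ε ≤ x) :
    Lam r (x + 2) ≤ (1 + ε) * Lam r x := by
  unfold Lam
  rw [← mul_div_assoc]
  apply div_le_div_of_nonneg_right _ hr.le
  rw [div_le_iff₀ hε] at hx
  have hx0 : 0 < x := by
    by_contra h
    have h0 : x ≤ 0 := not_lt.1 h
    nlinarith
  have hx6 : 6 ≤ x := by nlinarith
  nlinarith

/-- **lower bounds, block level** -/
theorem lo_cnt (RH : RiemannHypothesis) {C' : ℝ} (hC' : 0 < C') {ε : ℝ} (hε : 0 < ε)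
    (hε1 : ε ≤ 1 / 50) : ∃ C c r0 : ℝ, 1 ≤ C ∧ 0 < c ∧ 10 ≤ r0 ∧
    ∀ (r : ℕ) (x : ℝ), r0 ≤ r → C * Real.sqrt (Real.log r) ≤ x → x ≤ c * Real.log r →
      0 < Lam r x ∧
      ∃ T1 : ℝ, 10 ≤ T1 ∧ ∀ T : ℝ, T1 ≤ T → ∀ U1 U2 : ℝ, T ≤ U1 → U1 ≤ T + 1 → 2 * T - 1 ≤ U2 →
        U2 ≤ 2 * T → EFD C' T (ordz U1 U2) mu →
        Real.exp (-((1 + 23 * ε) * Lam r x)) * (T * Real.log T / (2 * Real.pi)) ≤
          (((Jx T).filter (fun n => (r : ℝ) + x ≤ Sr r n)).card : ℝ) ∧
        Real.exp (-((1 + 23 * ε) * Lam r x)) * (T * Real.log T / (2 * Real.pi)) ≤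
          (((Jx T).filter (fun n => Sr r n ≤ (r : ℝ) - x)).card : ℝ) := by
  have hpi := Real.pi_pos
  have hpi3 := Real.pi_gt_three
  obtain ⟨C0, c0, r0, hC0, hc0, hr0, hlo⟩ := lo_blk RH hC' hε (by linarith)
  obtain ⟨K, hK, htr⟩ := trans_low RH hC'
  refine ⟨max (max C0 (6 / ε)) (max K (40 / ε ^ 2)), min (c0 / 2) (1 / 8), r0,
    hC0.trans ((le_max_left _ _).trans (le_max_left _ _)), lt_min (by positivity) (by norm_num),
    hr0, fun r x hr h1 h2 => ?_⟩
  set C := max (max C0 (6 / ε)) (max K (40 / ε ^ 2)) with hC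
  have hCC0 : C0 ≤ C := (le_max_left _ _).trans (le_max_left _ _)
  have hC6 : 6 / ε ≤ C := (le_max_right _ _).trans (le_max_left _ _)
  have hCK : K ≤ C := (le_max_left _ _).trans (le_max_right _ _)
  have hC40 : 40 / ε ^ 2 ≤ C := (le_max_right _ _).trans (le_max_right _ _)
  obtain ⟨hlog, hCx, hxr, hCL⟩ := range_facts (hC0.trans hCC0) (min_le_right _ _) hr0 hr h1 h2
  have hC2 : 2 ≤ C := by
    refine le_trans ?_ hC6
    rw [le_div_iff₀ hε]
    linarith
  have hx2 : 2 ≤ x := hC2.trans hCx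
  have hr10 : (10 : ℝ) ≤ r := hr0.trans hr
  have hL0 : 0 < Lam r x := by linarith
  have hV0 : 0 < Vr r := by unfold Vr; positivity
  have hLL := Lam_add_two hε (by linarith) hV0 (hC6.trans hCx)
  have g1 : C0 * Real.sqrt (Real.log r) ≤ x + 2 := by
    have := mul_le_mul_of_nonneg_right hCC0 (Real.sqrt_nonneg (Real.log r))
    linarith
  have g2 : x + 2 ≤ c0 * Real.log r := by
    have h3 : x ≤ c0 / 2 * Real.log r :=
      h2.trans (mul_le_mul_of_nonneg_right (min_le_left _ _) (by linarith))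
    linarith
  obtain ⟨T1, hT1, hp⟩ := hlo r (x + 2) hr g1 g2 (r + x + 1) (by linarith) (by linarith)
  obtain ⟨T2, hT2, hm⟩ := hlo r (x + 2) hr g1 g2 (r - x - 1) (by linarith) (by linarith)
  obtain ⟨T3, hT3, hT3', ht1⟩ := htr (Lam r x) (r + x + 1) hL0.le (by linarith)
  obtain ⟨T4, hT4, hT4', ht2⟩ := htr (Lam r x) (r - x - 1) hL0.le (by linarith)
  have ev : ∀ᶠ T : ℝ in atTop, 2 * (r + x + 1) ≤ Real.log T :=
    Real.tendsto_log_atTop.eventually_ge_atTop _
  obtain ⟨T5, hT5⟩ := eventually_atTop.1 ev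
  refine ⟨hL0, max (max T1 T2) (max T3 (max T4 T5)),
    hT1.trans ((le_max_left _ _).trans (le_max_left _ _)), fun T hT U1 U2 hU1 hU1' hU2 hU2' hE => ?_⟩
  have a1 : T1 ≤ T := ((le_max_left _ _).trans (le_max_left _ _)).trans hT
  have a2 : T2 ≤ T := ((le_max_right _ _).trans (le_max_left _ _)).trans hT
  have a3 : T3 ≤ T := ((le_max_left _ _).trans (le_max_right _ _)).trans hT
  have a4 : T4 ≤ T := (((le_max_left _ _).trans (le_max_right _ _)).trans (le_max_right _ _)).trans hT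
  have a5 : T5 ≤ T := (((le_max_right _ _).trans (le_max_right _ _)).trans (le_max_right _ _)).trans hT
  have hT10 : 10 ≤ T := hT1.trans a1
  have hT0 : 0 < T := by linarith
  have hL : 0 < Real.log T := Real.log_pos (by linarith)
  have b5 := hT5 T a5
  set L := Real.log T with hLd
  have hl2pi := log_two_pi_le
  -- final numerical step
  have fin : ∀ B : ℝ, Real.exp (-((1 + 20 * ε) * Lam r (x + 2))) * T ≤
      B * (4 * (Real.pi * (K + 4 * Lam r x) / L)) + Real.exp (-(2 * Lam r x + 1)) * T →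
      Real.exp (-((1 + 23 * ε) * Lam r x)) * (T * L / (2 * Real.pi)) ≤ B := by
    intro B hB
    set Λ := Lam r x with hΛ
    have k1 : Real.exp (-((1 + 22 * ε) * Λ)) ≤ Real.exp (-((1 + 20 * ε) * Lam r (x + 2))) := by
      apply Real.exp_le_exp.2
      have : (1 + 20 * ε) * Lam r (x + 2) ≤ (1 + 20 * ε) * ((1 + ε) * Λ) := by gcongr
      have h3 : (1 + 20 * ε) * ((1 + ε) * Λ) ≤ (1 + 22 * ε) * Λ := by
        have h4 : (1 + 20 * ε) * (1 + ε) ≤ 1 + 22 * ε := by nlinarith
        calc (1 + 20 * ε) * ((1 + ε) * Λ) = ((1 + 20 * ε) * (1 + ε)) * Λ := by ring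
          _ ≤ _ := mul_le_mul_of_nonneg_right h4 hL0.le
      linarith
    have k2 : Real.exp (-(2 * Λ + 1)) ≤ 1 / 2 * Real.exp (-((1 + 22 * ε) * Λ)) := by
      have h3 : Real.exp (-(2 * Λ + 1)) ≤ Real.exp (-1) * Real.exp (-((1 + 22 * ε) * Λ)) := by
        rw [← Real.exp_add]
        apply Real.exp_le_exp.2
        nlinarith
      have h5 : Real.exp (-1) ≤ 1 / 2 := by
        rw [Real.exp_neg, inv_eq_one_div, div_le_div_iff₀ (Real.exp_pos _) (by norm_num)]
        have := Real.exp_one_gt_d9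
        linarith
      exact h3.trans (mul_le_mul_of_nonneg_right h5 (Real.exp_pos _).le)
    have k3 : 8 * (K + 4 * Λ) * Real.exp (-((1 + 23 * ε) * Λ)) ≤ 2 * Real.exp (-((1 + 22 * ε) * Λ)) := by
      have h3 : Real.exp (-((1 + 22 * ε) * Λ)) = Real.exp (-((1 + 23 * ε) * Λ)) *
          Real.exp (ε * Λ) := by
        rw [← Real.exp_add]
        congr 1
        ring
      rw [h3]
      have h4 : 4 * (K + 4 * Λ) ≤ Real.exp (ε * Λ) := by
        have h6 := Real.quadratic_le_exp_of_nonneg (show 0 ≤ ε * Λ by positivity)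
        have h7 : 40 ≤ ε ^ 2 * Λ := by
          have h8 : 40 / ε ^ 2 ≤ Λ := hC40.trans hCL
          rw [div_le_iff₀ (by positivity)] at h8
          linarith
        have h8 : 0 ≤ ε * Λ := by positivity
        have h9 : K ≤ Λ := hCK.trans hCL
        have h10 : 20 * Λ ≤ (ε * Λ) ^ 2 / 2 := by nlinarith
        linarith
      have h5 := Real.exp_pos (-((1 + 23 * ε) * Λ))
      nlinarith
    have hKΛ : 0 < K + 4 * Λ := by linarith
    have hκ : 0 < 4 * (Real.pi * (K + 4 * Λ) / L) := by positivity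
    have h6 : Real.exp (-((1 + 23 * ε) * Λ)) * (T * L / (2 * Real.pi)) *
        (4 * (Real.pi * (K + 4 * Λ) / L)) ≤ B * (4 * (Real.pi * (K + 4 * Λ) / L)) := by
      have e1 : Real.exp (-((1 + 23 * ε) * Λ)) * (T * L / (2 * Real.pi)) *
          (4 * (Real.pi * (K + 4 * Λ) / L)) =
          1 / 4 * (8 * (K + 4 * Λ) * Real.exp (-((1 + 23 * ε) * Λ))) * T := by
        field_simp
        ring
      rw [e1]
      have k2' := mul_le_mul_of_nonneg_right k2 hT0.le
      have k1' := mul_le_mul_of_nonneg_right k1 hT0.le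
      have k3' := mul_le_mul_of_nonneg_right k3 hT0.le
      linarith
    exact le_of_mul_le_mul_right h6 hκ
  constructor
  · -- long sums
    obtain ⟨hρ1, hh1, htr1⟩ := ht1 T a3
    rw [← hLd] at hρ1 hh1 htr1
    set ρ := Real.pi * (r + x + 1) / L with hρ
    set κ := 4 * (Real.pi * (K + 4 * Lam r x) / L) with hκ
    have hy0 : 0 < r + x + 1 := by linarith
    have hρ0 : 0 < ρ := by positivity
    have hG := (hp T a1 U1 U2 (by linarith) hE).1
    rw [← hLd, ← hρ] at hG
    apply fin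
    refine hG.trans ?_
    apply htr1 U1 U2 hU1 hU1' hU2 hU2' hE _ _ (fun n => ord n + ρ)
    intro t ht1 ht2 htG n hn n1 n2 n3
    have hcC : cC U1 U2 (t - ρ + ρ) ρ < r := by
      rw [sub_add_cancel]
      have h3 : (cC U1 U2 t ρ : ℝ) ≤ r + x + 1 - (x + 2) := htG
      have h4 : (cC U1 U2 t ρ : ℝ) < r := by linarith
      exact_mod_cast h4
    have hlong := plus_core (U1 := U1) (U2 := U2) hn n1 n2 (by linarith) (by linarith) hcC
    have hordn : T < ord n := by linarith
    refine ⟨n, ?_, by linarith, by linarith⟩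
    rw [Finset.mem_filter, mem_Jx]
    refine ⟨⟨hn, hordn, by linarith⟩, ?_⟩
    have hge := Sr_ge (r := r) hn hT0 hordn.le
    refine le_trans ?_ hge
    rw [Real.log_div hT0.ne' (by positivity), ← hLd]
    have h3 : 2 * ρ ≤ ord (n + r) - ord n := by linarith
    have h4 : 0 ≤ L - Real.log (2 * Real.pi) := by linarith
    have h5 : 2 * ρ / (2 * Real.pi) * (L - Real.log (2 * Real.pi)) ≤
        (ord (n + r) - ord n) / (2 * Real.pi) * (L - Real.log (2 * Real.pi)) := by gcongr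
    refine le_trans ?_ h5
    have h6 : 2 * ρ / (2 * Real.pi) * (L - Real.log (2 * Real.pi)) =
        (r + x + 1) - (r + x + 1) * Real.log (2 * Real.pi) / L := by
      rw [hρ]
      field_simp
    rw [h6]
    have h7 : (r + x + 1) * Real.log (2 * Real.pi) / L ≤ 1 := by
      rw [div_le_one hL]
      nlinarith
    linarith
  · -- short sums
    obtain ⟨hρ1, hh1, htr1⟩ := ht2 T a4
    rw [← hLd] at hρ1 hh1 htr1
    set ρ := Real.pi * (r - x - 1) / L with hρ
    set κ := 4 * (Real.pi * (K + 4 * Lam r x) / L) with hκ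
    have hy0 : 0 < r - x - 1 := by linarith
    have hρ0 : 0 < ρ := by positivity
    have hG := (hm T a2 U1 U2 (by linarith) hE).2
    rw [← hLd, ← hρ] at hG
    apply fin
    refine hG.trans ?_
    apply htr1 U1 U2 hU1 hU1' hU2 hU2' hE _ _ (fun n => ord n + ρ - κ)
    intro t ht1 ht2 htG n hn n1 n2 n3
    have hcO : r + 1 ≤ cO U1 U2 (t - ρ + ρ) ρ := by
      rw [sub_add_cancel]
      have h3 : r - x - 1 + (x + 2) ≤ (cO U1 U2 t ρ : ℝ) := htG
      have h4 : (r : ℝ) + 1 ≤ (cO U1 U2 t ρ : ℝ) := by linarith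
      exact_mod_cast h4
    have hshort := minus_core (U1 := U1) (U2 := U2) hn n1 hcO
    have hmn := SG.ord_mono (show 1 ≤ n + 1 by omega) (show n + 1 ≤ n + 1 + r by omega)
    refine ⟨n + 1, ?_, by linarith, by linarith⟩
    rw [Finset.mem_filter, mem_Jx]
    refine ⟨⟨by omega, by linarith, by linarith⟩, ?_⟩
    have hle := Sr_le (r := r) (n := n + 1) (by omega) hT0 (by nlinarith)
    refine hle.trans ?_
    rw [← hLd]
    have h3 : ord (n + 1 + r) - ord (n + 1) ≤ 2 * ρ := by linarith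
    have h5 : (ord (n + 1 + r) - ord (n + 1)) / (2 * Real.pi) * L ≤ 2 * ρ / (2 * Real.pi) * L := by
      gcongr
    refine h5.trans ?_
    have h6 : 2 * ρ / (2 * Real.pi) * L = r - x - 1 := by
      rw [hρ]
      field_simp
    rw [h6]
    linarith

/-- the count around a cluster, off-centre -/
lemma cC_ge2 {m n : ℕ} (hn : 1 ≤ n) {U1 U2 t ρ : ℝ} (h1 : t - ρ ≤ ord n)
    (h3 : ord (n + m) ≤ t + ρ) (hU1 : U1 < ord n) (hU2 : ord (n + m) ≤ U2) :
    m + 1 ≤ cC U1 U2 t ρ := by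
  unfold cC
  have h4 : Finset.Icc n (n + m) ⊆ (Kx U1 U2).filter (fun k => |ord k - t| ≤ ρ) := by
    intro k hk
    rw [Finset.mem_Icc] at hk
    have h5 := SG.ord_mono hn hk.1
    have h6 := SG.ord_mono (show 1 ≤ k by omega) hk.2
    rw [Finset.mem_filter, mem_Kx, abs_le]
    refine ⟨⟨by omega, by linarith, by linarith⟩, by linarith, by linarith⟩
  refine le_trans (le_of_eq ?_) (Finset.card_le_card h4)
  rw [Nat.card_Icc]
  omega

/-- **upper bounds, block level** -/
theorem up_cnt (RH : RiemannHypothesis) {C' : ℝ} (hC' : 0 < C') {ε : ℝ} (hε : 0 < ε)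
    (hε1 : ε ≤ 1 / 50) : ∃ C c r0 : ℝ, 1 ≤ C ∧ 0 < c ∧ 10 ≤ r0 ∧
    ∀ (r : ℕ) (x : ℝ), r0 ≤ r → C * Real.sqrt (Real.log r) ≤ x → x ≤ c * Real.log r →
      (∃ T1 : ℝ, 10 ≤ T1 ∧ ∀ T : ℝ, T1 ≤ T → ∀ U1 U2 : ℝ, T ≤ U1 → U1 ≤ T + 1 → 2 * T - 1 ≤ U2 →
        U2 ≤ 2 * T → EFD C' T (ordz U1 U2) mu → ∀ B : Finset ℕ, B ⊆ Kx U1 U2 →
        (∀ n ∈ B, (r : ℝ) + x ≤ Sr r n ∧ T + 2 * Real.log T ≤ ord n ∧
          ord n ≤ 2 * T - 2 * Real.log T) →
        (B.card : ℝ) ≤ 1 / 7 * Real.exp (-((1 - 12 * ε) * Lam r x)) * (T * Real.log T)) ∧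
      (∃ T1 : ℝ, 10 ≤ T1 ∧ ∀ T : ℝ, T1 ≤ T → ∀ U1 U2 : ℝ, T ≤ U1 → U1 ≤ T + 1 → 2 * T - 1 ≤ U2 →
        U2 ≤ 2 * T → EFD C' T (ordz U1 U2) mu → ∀ B : Finset ℕ, B ⊆ Kx U1 U2 →
        (∀ n ∈ B, Sr r n ≤ (r : ℝ) - x ∧ T + 2 * Real.log T ≤ ord n ∧
          ord n ≤ 2 * T - 2 * Real.log T) →
        (B.card : ℝ) ≤ 1 / 7 * Real.exp (-((1 - 12 * ε) * Lam r x)) * (T * Real.log T)) := by
  have hpi := Real.pi_pos
  have hpi3 := Real.pi_gt_three
  obtain ⟨C0, c0, r0, hC0, hc0, hr0, hup⟩ := up_blk RH hC' hε (by linarith)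
  obtain ⟨C3, hC3, hcov⟩ := cover RH hC'
  refine ⟨max C0 (168 * C3 / (12 * ε) ^ 2), min c0 (1 / 8), r0,
    hC0.trans (le_max_left _ _), lt_min (by positivity) (by norm_num), hr0, fun r x hr h1 h2 => ?_⟩
  set C := max C0 (168 * C3 / (12 * ε) ^ 2) with hC
  have hCC0 : C0 ≤ C := le_max_left _ _
  have hC6 : 168 * C3 / (12 * ε) ^ 2 ≤ C := le_max_right _ _
  obtain ⟨hlog, hCx, hxr, hCL⟩ := range_facts (hC0.trans hCC0) (min_le_right _ _) hr0 hr h1 h2
  have hr10 : (10 : ℝ) ≤ r := hr0.trans hr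
  set Λ := Lam r x with hΛ
  have hL1 : 1 ≤ Λ := (hC0.trans hCC0).trans hCL
  have hx1 : 1 ≤ x := (hC0.trans hCC0).trans hCx
  have g1 : C0 * Real.sqrt (Real.log r) ≤ x := by
    have := mul_le_mul_of_nonneg_right hCC0 (Real.sqrt_nonneg (Real.log r))
    linarith
  have g2 : x ≤ c0 * Real.log r :=
    h2.trans (mul_le_mul_of_nonneg_right (min_le_left _ _) (by linarith))
  have hab := absorb (ε := 12 * ε) (by positivity) hC3 (hC6.trans hCL) hL1
    (m' := (1 - 6 * ε) * Λ) (le_of_eq (by ring)) (by nlinarith)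
  obtain ⟨T1, hT1, hp⟩ := hup r x hr g1 g2 (r + x - 1 / 4) (by linarith) (by linarith)
  obtain ⟨T2, hT2, hm⟩ := hup r x hr g1 g2 (r - x + 1 / 2) (by linarith) (by linarith)
  obtain ⟨T3, hT3, hcv⟩ := hcov Λ hL1
  have ev : ∀ᶠ T : ℝ in atTop, 16 * (r + x + 1) ≤ Real.log T :=
    Real.tendsto_log_atTop.eventually_ge_atTop _
  obtain ⟨T4, hT4⟩ := eventually_atTop.1 ev
  have hlp := log_two_pi_le
  -- final numerical step
  have fin : ∀ B T m : ℝ, 0 < T → 0 < Real.log T →
      m ≤ (Real.exp (-((1 - 6 * ε) * Λ)) + Real.exp (-Λ)) * T →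
      B ≤ Real.log T * (C3 * Λ * m + C3 * Real.exp (-Λ) * T) →
      B ≤ 1 / 7 * Real.exp (-((1 - 12 * ε) * Λ)) * (T * Real.log T) := by
    intro B T m hT hL hmm hB
    calc B ≤ Real.log T * (C3 * Λ * m + C3 * Real.exp (-Λ) * T) := hB
      _ ≤ Real.log T * (C3 * Λ * ((Real.exp (-((1 - 6 * ε) * Λ)) + Real.exp (-Λ)) * T) +
          C3 * Real.exp (-Λ) * T) := by gcongr
      _ = Real.log T * T * (C3 * Λ * (Real.exp (-((1 - 6 * ε) * Λ)) + Real.exp (-Λ)) +
          C3 * Real.exp (-Λ)) := by ring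
      _ ≤ Real.log T * T * (1 / 7 * Real.exp (-((1 - 12 * ε) * Λ))) :=
          mul_le_mul_of_nonneg_left hab (by positivity)
      _ = _ := by ring
  have shiftb : ∀ T : ℝ, 2 * Real.exp Λ ≤ T → 1 ≤ Real.exp (-Λ) * T := by
    intro T hT
    have h3 : Real.exp (-Λ) * (2 * Real.exp Λ) ≤ Real.exp (-Λ) * T :=
      mul_le_mul_of_nonneg_left hT (Real.exp_pos _).le
    have h4 : Real.exp (-Λ) * (2 * Real.exp Λ) = 2 := by
      rw [Real.exp_neg]
      have := (Real.exp_pos Λ).ne'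
      field_simp
    linarith
  constructor
  · refine ⟨max (max T1 T3) (max T4 (2 * Real.exp Λ)),
      hT1.trans ((le_max_left _ _).trans (le_max_left _ _)),
      fun T hT U1 U2 hU1 hU1' hU2 hU2' hE B hB hP => ?_⟩
    have a1 : T1 ≤ T := ((le_max_left _ _).trans (le_max_left _ _)).trans hT
    have a3 : T3 ≤ T := ((le_max_right _ _).trans (le_max_left _ _)).trans hT
    have a4 : T4 ≤ T := ((le_max_left _ _).trans (le_max_right _ _)).trans hT
    have a5 : 2 * Real.exp Λ ≤ T := ((le_max_right _ _).trans (le_max_right _ _)).trans hT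
    have hT10 : 10 ≤ T := hT1.trans a1
    have hT0 : 0 < T := by linarith
    have b4 := hT4 T a4
    have hL : 0 < Real.log T := by linarith
    have hs := shiftb T a5
    set L := Real.log T with hLd
    set ρ := Real.pi * (r + x - 1 / 4) / L with hρ
    have hy0 : 0 < r + x - 1 / 4 := by linarith
    have hρ0 : 0 < ρ := by positivity
    have hρ1 : ρ ≤ 1 := by
      rw [hρ, div_le_one hL]
      have := Real.pi_lt_four
      nlinarith
    have hup1 := (hp T a1 U1 U2 (by linarith) hE).1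
    rw [← hLd, ← hρ] at hup1
    have hsh := ms_shift (T := T) hρ0.le {c : ℝ | (cO U1 U2 c ρ : ℝ) ≤ r + x - 1 / 4 - x}
    have hcv2 := hcv T a3 U1 U2 (by linarith) hE B
      {t | t + ρ ∈ {c : ℝ | (cO U1 U2 c ρ : ℝ) ≤ r + x - 1 / 4 - x}} hB
      (fun n hn => (hP n hn).2) (fun n hn t ht1 ht2 => by
        obtain ⟨p1, p2, p3⟩ := hP n hn
        have hn1 : 1 ≤ n := (mem_Kx.1 (hB hn)).1
        have hlong := long (r := r) hn1 hT10 (by linarith) (by
          rw [← hLd, div_le_iff₀ hL]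
          have := Real.pi_lt_four
          nlinarith) p1
        show (cO U1 U2 (t + ρ) ρ : ℝ) ≤ r + x - 1 / 4 - x
        have hc : cO U1 U2 (t + ρ) ρ ≤ r - 1 := by
          apply cO_le hn1 ht1
          refine le_trans ?_ hlong
          have e1 : Real.pi / (2 * L) + 2 * ρ = 2 * Real.pi * (r + x) / L := by
            rw [hρ]
            field_simp
            ring
          linarith
        have hr1 : 1 ≤ r := by
          have : (1 : ℝ) ≤ r := by linarith
          exact_mod_cast this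
        have hc2 : (cO U1 U2 (t + ρ) ρ : ℝ) ≤ ((r - 1 : ℕ) : ℝ) := by exact_mod_cast hc
        rw [Nat.cast_sub hr1] at hc2
        push_cast at hc2
        linarith)
    refine fin _ T _ hT0 hL ?_ hcv2
    refine hsh.trans ?_
    rw [add_mul]
    linarith
  · refine ⟨max (max T2 T3) (max T4 (2 * Real.exp Λ)),
      hT2.trans ((le_max_left _ _).trans (le_max_left _ _)),
      fun T hT U1 U2 hU1 hU1' hU2 hU2' hE B hB hP => ?_⟩
    have a1 : T2 ≤ T := ((le_max_left _ _).trans (le_max_left _ _)).trans hT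
    have a3 : T3 ≤ T := ((le_max_right _ _).trans (le_max_left _ _)).trans hT
    have a4 : T4 ≤ T := ((le_max_left _ _).trans (le_max_right _ _)).trans hT
    have a5 : 2 * Real.exp Λ ≤ T := ((le_max_right _ _).trans (le_max_right _ _)).trans hT
    have hT10 : 10 ≤ T := hT2.trans a1
    have hT0 : 0 < T := by linarith
    have b4 := hT4 T a4
    have hL : 0 < Real.log T := by linarith
    have hs := shiftb T a5
    set L := Real.log T with hLd
    set ρ := Real.pi * (r - x + 1 / 2) / L with hρ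
    set s := Real.pi * (r - x) / L with hsd
    have hy0 : 0 < r - x := by linarith
    have hρ0 : 0 < ρ := by positivity
    have hs0 : 0 ≤ s := by positivity
    have hs1 : s ≤ 1 := by
      rw [hsd, div_le_one hL]
      have := Real.pi_lt_four
      nlinarith
    have hρs : ρ = s + Real.pi / (2 * L) := by
      rw [hρ, hsd]
      field_simp
    have hup1 := (hm T a1 U1 U2 (by linarith) hE).2
    rw [← hLd, ← hρ] at hup1
    have hsh := ms_shift (T := T) hs0 {c : ℝ | r - x + 1 / 2 + x ≤ (cC U1 U2 c ρ : ℝ)}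
    have hcv2 := hcv T a3 U1 U2 (by linarith) hE B
      {t | t + s ∈ {c : ℝ | r - x + 1 / 2 + x ≤ (cC U1 U2 c ρ : ℝ)}} hB
      (fun n hn => (hP n hn).2) (fun n hn t ht1 ht2 => by
        obtain ⟨p1, p2, p3⟩ := hP n hn
        rw [← hLd] at ht2
        obtain ⟨hn1, q2, q3⟩ := mem_Kx.1 (hB hn)
        have hge := Sr_ge (r := r) hn1 hT0 (by linarith)
        rw [Real.log_div hT0.ne' (by positivity), ← hLd] at hge
        have h0 : 0 ≤ ord (n + r) - ord n := sub_nonneg.2 (SG.ord_mono hn1 (by omega))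
        have hLl : 0 < L - Real.log (2 * Real.pi) := by linarith
        have h3 : ord (n + r) - ord n ≤ 2 * Real.pi * (r - x + 1 / 4) / L := by
          have h4 : (ord (n + r) - ord n) / (2 * Real.pi) * (L - Real.log (2 * Real.pi)) ≤ r - x :=
            hge.trans p1
          rw [div_mul_eq_mul_div, div_le_iff₀ (by positivity)] at h4
          rw [le_div_iff₀ hL]
          have h5 : (r - x) * L ≤ (r - x + 1 / 4) * (L - Real.log (2 * Real.pi)) := by nlinarith
          have h6 : (ord (n + r) - ord n) * (L - Real.log (2 * Real.pi)) * L ≤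
              2 * Real.pi * (r - x + 1 / 4) * (L - Real.log (2 * Real.pi)) := by
            calc _ ≤ (r - x) * (2 * Real.pi) * L := mul_le_mul_of_nonneg_right h4 hL.le
              _ = 2 * Real.pi * ((r - x) * L) := by ring
              _ ≤ 2 * Real.pi * ((r - x + 1 / 4) * (L - Real.log (2 * Real.pi))) := by gcongr
              _ = _ := by ring
          have h7 : ((ord (n + r) - ord n) * L) * (L - Real.log (2 * Real.pi)) ≤
              (2 * Real.pi * (r - x + 1 / 4)) * (L - Real.log (2 * Real.pi)) := by linarith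
          exact le_of_mul_le_mul_right h7 hLl
        have h4 : 2 * Real.pi * (r - x + 1 / 4) / L ≤ 1 := by
          rw [div_le_one hL]
          have := Real.pi_lt_four
          nlinarith
        show r - x + 1 / 2 + x ≤ (cC U1 U2 (t + s) ρ : ℝ)
        have hc : r + 1 ≤ cC U1 U2 (t + s) ρ := by
          apply cC_ge2 hn1
          · rw [hρs]; linarith
          · have e1 : 2 * Real.pi * (r - x + 1 / 4) / L = s + ρ := by
              rw [hρ, hsd]
              field_simp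
              ring
            linarith
          · exact q2
          · linarith
        have hc2 : (r : ℝ) + 1 ≤ (cC U1 U2 (t + s) ρ : ℝ) := by exact_mod_cast hc
        linarith)
    refine fin _ T _ hT0 hL ?_ hcv2
    refine hsh.trans ?_
    rw [add_mul]
    linarith

end Pool.Agent.T9h26.TD
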