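import Pool.Agent.T9h26.TD.Ke
import Pool.Agent.T9h26.TD.La
import Pool.Agent.T9h26.TD.Mf

set_option autoImplicit false

/-! Counts and prime polynomials outside small exceptional sets. -/

open Complex Filter Topology Set MeasureTheory

namespace Pool.Agent.T9h26.TD

open TC (ordz ordT mu EFD)
open SG (ord NZ zmult ZS)
open W200.HW (Ix mem_Ix)
open Pool.Agent.Y747 (al)

lemma wt_sub {w w' : ℝ → ℝ} {b b' : ℝ} {K K' : NNReal} (h : Wt w b K) (h' : Wt w' b' K')
    (hb : b' ≤ b) : Wt (fun u => w u - w' u) b (K + K') := by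
  refine ⟨h.b0, h.b1, ?_, ?_, ?_⟩
  · exact h.lip.sub h'.lip
  · intro ξ hξ
    rw [h.zero ξ hξ, h'.zero ξ (hb.trans hξ), sub_zero]
  · intro ξ
    rw [h.even, h'.even]

lemma PW_sub {w w' : ℝ → ℝ} {b b' : ℝ} {K K' : NNReal} (h : Wt w b K) (h' : Wt w' b' K')
    (hb : b' ≤ b) {T : ℝ} (hT : 1 < T) (t : ℝ) :
    PW (fun u => w u - w' u) b T t = PW w b T t - PW w' b' T t := by
  rw [PW_PZ h hT, PW_PZ h' hT, PW_PZ (wt_sub h h' hb) hT, ← PZ_sub]
  congr 1
  ext u
  push_cast
  ring

lemma inv_ii {a b : ℝ} (ha : 0 < a) (hab : a ≤ b) :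
    IntervalIntegrable (fun u : ℝ => u⁻¹) volume a b := by
  apply ContinuousOn.intervalIntegrable
  apply ContinuousOn.inv₀ continuousOn_id
  intro x hx
  rw [uIcc_of_le hab] at hx
  exact (lt_of_lt_of_le ha hx.1).ne'

/-- **the variance of the difference of two weights of the same window** -/
lemma var_diff {S S' : Finset ℕ} {j j' : ℕ} {σ σ' : ℝ} (hσ : |σ| ≤ 1) (h : Ker S j σ)
    (hσ' : |σ'| ≤ 1) (h' : Ker S' j' σ') {b b' y : ℝ} (hb : 0 < b) (hb1 : b ≤ 1 / 2)
    (hb' : 0 < b') (hbb : b' ≤ b) (hby : b * y = j) (hby' : b' * y = j') :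
    var (fun u => sc (Gs S j b) b u - sc (Gs S' j' b') b' u) ≤ 588 + Real.log (b / b') := by
  have hpi := Real.pi_gt_three
  have hpi0 := Real.pi_pos
  obtain ⟨K1, hW1⟩ := sc_wt (Gs_contDiff S j b) (Gs_one S j b) hb hb1
  obtain ⟨K2, hW2⟩ := sc_wt (Gs_contDiff S' j' b') (Gs_one S' j' b') hb' (hbb.trans hb1)
  set D : ℝ → ℝ := fun u => sc (Gs S j b) b u - sc (Gs S' j' b') b' u with hD
  have cD : Continuous D := hW1.cont.sub hW2.cont
  have cI : Continuous fun u : ℝ => u * D u ^ 2 := by fun_prop
  unfold var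
  have s1 := intervalIntegral.integral_add_adjacent_intervals
    (cI.intervalIntegrable (μ := volume) 0 b') (cI.intervalIntegrable (μ := volume) b' b)
  have s2 := intervalIntegral.integral_add_adjacent_intervals
    (cI.intervalIntegrable (μ := volume) 0 b) (cI.intervalIntegrable (μ := volume) b 1)
  have p3 : ∫ u in b..1, u * D u ^ 2 = 0 := by
    rw [intervalIntegral.integral_congr (g := fun _ => 0)]
    · simp
    · intro u hu
      rw [uIcc_of_le (by linarith)] at hu
      simp only [hD]
      rw [sc_out hb hu.1, sc_out hb' (hbb.trans hu.1)]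
      ring
  have p1 : ∫ u in (0 : ℝ)..b', u * D u ^ 2 ≤ 392 := by
    have h1 : ∫ u in (0 : ℝ)..b', u * D u ^ 2 ≤ ∫ u in (0 : ℝ)..b', 784 / b' ^ 2 * u := by
      apply intervalIntegral.integral_mono_on hb'.le (cI.intervalIntegrable _ _)
      · exact (by fun_prop : Continuous fun u : ℝ => 784 / b' ^ 2 * u).intervalIntegrable _ _
      · intro u hu
        rcases hu.1.eq_or_lt with h0 | h0
        · rw [← h0]; simp
        · have a1 := gs_close hσ h hb hby h0 (hu.2.trans hbb)
          have a2 := gs_close hσ' h' hb' hby' h0 hu.2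
          have a3 : 14 / b ≤ 14 / b' := div_le_div_of_nonneg_left (by norm_num) hb' hbb
          have a4 : |D u| ≤ 28 / b' := by
            rw [hD]
            simp only
            have e : 28 / b' = 14 / b' + 14 / b' := by ring
            rw [abs_le] at a1 a2 ⊢
            constructor <;> linarith [a1.1, a1.2, a2.1, a2.2]
          have a5 : D u ^ 2 ≤ (28 / b') ^ 2 := by
            rw [← sq_abs]
            exact pow_le_pow_left₀ (abs_nonneg _) a4 2
          calc u * D u ^ 2 ≤ u * (28 / b') ^ 2 := mul_le_mul_of_nonneg_left a5 h0.le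
            _ = _ := by ring
    refine h1.trans (le_of_eq ?_)
    rw [intervalIntegral.integral_const_mul, integral_id]
    have hb2 : b' ^ 2 ≠ 0 := by positivity
    rw [div_mul_eq_mul_div, div_eq_iff hb2]
    ring
  have p2 : ∫ u in b'..b, u * D u ^ 2 ≤ 196 + Real.log (b / b') := by
    have h1 : ∫ u in b'..b, u * D u ^ 2 ≤ ∫ u in b'..b, (u⁻¹ + 392 / b ^ 2 * u) := by
      have hne : (0 : ℝ) ∉ uIcc b' b := by
        rw [uIcc_of_le hbb]
        intro hc
        linarith [hc.1]
      apply intervalIntegral.integral_mono_on hbb (cI.intervalIntegrable _ _)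
      · apply IntervalIntegrable.add
        · exact inv_ii hb' hbb
        · exact (by fun_prop : Continuous fun u : ℝ => 392 / b ^ 2 * u).intervalIntegrable _ _
      · intro u hu
        have h0 : 0 < u := by linarith [hu.1]
        have a1 := gs_close hσ h hb hby h0 hu.2
        have a2 : |2 * Real.sin (Real.pi * y * u) / (Real.pi * u)| ≤ 2 / (Real.pi * u) := by
          rw [abs_div, abs_mul, abs_of_pos (by norm_num : (0 : ℝ) < 2), abs_of_pos (by positivity :
            0 < Real.pi * u)]
          apply div_le_div_of_nonneg_right _ (by positivity)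
          have := Real.abs_sin_le_one (Real.pi * y * u)
          linarith
        have a3 : |D u| ≤ 2 / (Real.pi * u) + 14 / b := by
          rw [hD]
          simp only
          rw [sc_out hb' hu.1, sub_zero]
          rw [abs_le] at a1 a2 ⊢
          constructor <;> linarith [a1.1, a1.2, a2.1, a2.2]
        have a4 : D u ^ 2 ≤ 2 * (2 / (Real.pi * u)) ^ 2 + 2 * (14 / b) ^ 2 := by
          rw [← sq_abs]
          refine (pow_le_pow_left₀ (abs_nonneg _) a3 2).trans ?_
          nlinarith [sq_nonneg (2 / (Real.pi * u) - 14 / b)]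
        have a5 : u * (2 * (2 / (Real.pi * u)) ^ 2) ≤ u⁻¹ := by
          have e : u * (2 * (2 / (Real.pi * u)) ^ 2) = 8 / Real.pi ^ 2 * u⁻¹ := by
            field_simp
            norm_num
          rw [e]
          have h8 : 8 / Real.pi ^ 2 ≤ 1 := by
            rw [div_le_one (by positivity)]
            nlinarith
          have : 0 ≤ u⁻¹ := by positivity
          nlinarith
        calc u * D u ^ 2 ≤ u * (2 * (2 / (Real.pi * u)) ^ 2 + 2 * (14 / b) ^ 2) :=
              mul_le_mul_of_nonneg_left a4 h0.le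
          _ = u * (2 * (2 / (Real.pi * u)) ^ 2) + 392 / b ^ 2 * u := by ring
          _ ≤ _ := by linarith
    refine h1.trans ?_
    have hne : (0 : ℝ) ∉ uIcc b' b := by
      rw [uIcc_of_le hbb]
      intro hc
      linarith [hc.1]
    rw [intervalIntegral.integral_add (inv_ii hb' hbb)
      ((by fun_prop : Continuous fun u : ℝ => 392 / b ^ 2 * u).intervalIntegrable _ _),
      integral_inv_of_pos hb' hb, intervalIntegral.integral_const_mul, integral_id]
    have h2 : 392 / b ^ 2 * ((b ^ 2 - b' ^ 2) / 2) ≤ 196 := by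
      rw [div_mul_eq_mul_div, div_le_iff₀ (by positivity)]
      nlinarith [sq_nonneg b']
    linarith
  linarith

end Pool.Agent.T9h26.TD
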