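import Pool.Agent.T9h26.TD.Kf

set_option autoImplicit false

/-! Counts outside small exceptional sets. -/

open Complex Filter Topology Set MeasureTheory

namespace Pool.Agent.T9h26.TD

open TC (ordz ordT mu EFD)
open SG (ord NZ zmult ZS)
open W200.HW (Ix mem_Ix)
open Pool.Agent.Y747 (al)

/-- **the deviation of the counts from a prime polynomial** -/
theorem cnt_dev (RH : RiemannHypothesis) {C' : ℝ} (hC' : 0 < C') {j : ℕ} (hj : 1 ≤ j) {b y : ℝ}
    (hb : 0 < b) (hb1 : b ≤ 1 / 2) (hby : b * y = j) {w0 : ℝ → ℝ} {b0 : ℝ} {K0 : NNReal}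
    (hw0 : Wt w0 b0 K0) (hb0 : b0 ≤ b) {V x θ : ℝ} {k : ℕ} (hk : (k : ℝ) * b < 1) (hx : 0 < x)
    (hV1 : var (fun u => sc (Gs (Finset.range (j + 1)) j b) b u - w0 u) ≤ V)
    (hV2 : var (fun u => sc (Gs (Finset.Ico 1 j) j b) b u - w0 u) ≤ V)
    (hθ : k.factorial * V ^ k / x ^ (2 * k) < θ) {η : ℝ} (hη : 0 < η) :
    ∃ T1 : ℝ, 10 ≤ T1 ∧ ∀ T : ℝ, T1 ≤ T → ∀ U1 U2 : ℝ, 1 ≤ U1 → EFD C' T (ordz U1 U2) mu →
      ms T {t | y - (PW w0 b0 T t).re + 1 / b + x + η < cC U1 U2 t (Real.pi * y / Real.log T) *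
        Real.exp (-(Real.pi * y / Real.log T) ^ 2 / 2)} ≤ (θ + η) * T ∧
      ms T {t | (cO U1 U2 t (Real.pi * y / Real.log T) : ℝ) <
        y - (PW w0 b0 T t).re - 1 / b - x - η} ≤ (θ + η) * T := by
  obtain ⟨K1, hW1⟩ := sc_wt (Gs_contDiff (Finset.range (j + 1)) j b)
    (Gs_one (Finset.range (j + 1)) j b) hb hb1
  obtain ⟨K2, hW2⟩ := sc_wt (Gs_contDiff (Finset.Ico 1 j) j b) (Gs_one (Finset.Ico 1 j) j b) hb hb1
  obtain ⟨T1, hT1, h1⟩ := ef_ms hW1 hC' hη
  obtain ⟨T2, hT2, h2⟩ := ef_ms hW2 hC' hη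
  obtain ⟨T3, hT3⟩ := eventually_atTop.1 (mkvW (wt_sub hW1 hw0 hb0) hk hx hV1 hθ)
  obtain ⟨T4, hT4⟩ := eventually_atTop.1 (mkvW (wt_sub hW2 hw0 hb0) hk hx hV2 hθ)
  obtain ⟨m1, m2⟩ := min_wt hj hb hb1 hby
  obtain ⟨n1, n2⟩ := maj_wt hj hb hb1 hby
  refine ⟨max (max T1 T2) (max T3 T4), hT1.trans ((le_max_left _ _).trans (le_max_left _ _)),
    fun T hT U1 U2 hU hE => ?_⟩
  have a1 : T1 ≤ T := ((le_max_left _ _).trans (le_max_left _ _)).trans hT
  have a2 : T2 ≤ T := ((le_max_right _ _).trans (le_max_left _ _)).trans hT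
  have a3 : T3 ≤ T := ((le_max_left _ _).trans (le_max_right _ _)).trans hT
  have a4 : T4 ≤ T := ((le_max_right _ _).trans (le_max_right _ _)).trans hT
  have hT10 : 10 ≤ T := hT1.trans a1
  have hL : 0 < Real.log T := Real.log_pos (by linarith)
  have e1 := h1 T a1 _ _ hE
  have e2 := h2 T a2 _ _ hE
  have e3 := hT3 T a3
  have e4 := hT4 T a4
  constructor
  · refine (ms_union_of (S1 := {t | x ≤ ‖PW (fun u => sc (Gs (Finset.range (j + 1)) j b) b u - w0 u)
      b T t‖}) (S2 := {t | η < |SX (ordz U1 U2) mu (sc (Gs (Finset.range (j + 1)) j b) b)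
        (Real.log T) t - (sc (Gs (Finset.range (j + 1)) j b) b 0 / 2 -
          (PW (sc (Gs (Finset.range (j + 1)) j b) b) b T t).re)|}) ?_).trans (by linarith)
    intro t _ _ ht
    by_cases h4 : η < |SX (ordz U1 U2) mu (sc (Gs (Finset.range (j + 1)) j b) b) (Real.log T) t -
          (sc (Gs (Finset.range (j + 1)) j b) b 0 / 2 -
            (PW (sc (Gs (Finset.range (j + 1)) j b) b) b T t).re)|
    · right; exact h4
    · left
      rw [not_lt, maj_zero hb hby, abs_le] at h4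
      have h6 := SX_ge RH (U2 := U2) hU (w := sc (Gs (Finset.range (j + 1)) j b) b)
        (L := Real.log T) (x0 := Real.pi * y) (ρ := Real.pi * y / Real.log T) (c := 1) hL
        zero_le_one n1 n2 (le_of_eq (mul_div_cancel₀ _ hL.ne')) t
      rw [one_mul] at h6
      have h7 : y - (PW w0 b0 T t).re + 1 / b + x + η < cC U1 U2 t (Real.pi * y / Real.log T) *
        Real.exp (-(Real.pi * y / Real.log T) ^ 2 / 2) := ht
      show x ≤ ‖PW (fun u => sc (Gs (Finset.range (j + 1)) j b) b u - w0 u) b T t‖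
      rw [PW_sub hW1 hw0 hb0 (by linarith)]
      have h8 := Complex.abs_re_le_norm (PW (sc (Gs (Finset.range (j + 1)) j b) b) b T t -
        PW w0 b0 T t)
      rw [Complex.sub_re] at h8
      have h9 := neg_abs_le ((PW (sc (Gs (Finset.range (j + 1)) j b) b) b T t).re -
        (PW w0 b0 T t).re)
      linarith [h4.2]
  · refine (ms_union_of (S1 := {t | x ≤ ‖PW (fun u => sc (Gs (Finset.Ico 1 j) j b) b u - w0 u)
      b T t‖}) (S2 := {t | η < |SX (ordz U1 U2) mu (sc (Gs (Finset.Ico 1 j) j b) b)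
        (Real.log T) t - (sc (Gs (Finset.Ico 1 j) j b) b 0 / 2 -
          (PW (sc (Gs (Finset.Ico 1 j) j b) b) b T t).re)|}) ?_).trans (by linarith)
    intro t _ _ ht
    by_cases h4 : η < |SX (ordz U1 U2) mu (sc (Gs (Finset.Ico 1 j) j b) b) (Real.log T) t -
          (sc (Gs (Finset.Ico 1 j) j b) b 0 / 2 -
            (PW (sc (Gs (Finset.Ico 1 j) j b) b) b T t).re)|
    · right; exact h4
    · left
      rw [not_lt, min_zero hj hb hby, abs_le] at h4
      have h6 := SX_le RH (U2 := U2) hU (w := sc (Gs (Finset.Ico 1 j) j b) b) (L := Real.log T)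
        (x0 := Real.pi * y) (ρ := Real.pi * y / Real.log T) (B := 1) hL zero_le_one m1 m2
        (le_of_eq (mul_div_cancel₀ _ hL.ne').symm) t
      rw [mul_one] at h6
      have h7 : (cO U1 U2 t (Real.pi * y / Real.log T) : ℝ) <
        y - (PW w0 b0 T t).re - 1 / b - x - η := ht
      show x ≤ ‖PW (fun u => sc (Gs (Finset.Ico 1 j) j b) b u - w0 u) b T t‖
      rw [PW_sub hW2 hw0 hb0 (by linarith)]
      have h8 := Complex.abs_re_le_norm (PW (sc (Gs (Finset.Ico 1 j) j b) b) b T t -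
        PW w0 b0 T t)
      rw [Complex.sub_re] at h8
      have h9 := le_abs_self ((PW (sc (Gs (Finset.Ico 1 j) j b) b) b T t).re -
        (PW w0 b0 T t).re)
      linarith [h4.1]

lemma wt_zero {b : ℝ} (hb : 0 < b) (hb1 : b ≤ 1 / 2) : Wt (fun _ => 0) b 0 :=
  ⟨hb, hb1, LipschitzWith.const 0, fun _ _ => rfl, fun _ => rfl⟩

lemma PW_zero {b : ℝ} (hb : 0 < b) (hb1 : b ≤ 1 / 2) {T : ℝ} (hT : 1 < T) (t : ℝ) :
    PW (fun _ => 0) b T t = 0 := by
  rw [PW_PZ (wt_zero hb hb1) hT]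
  unfold PZ PPc cf
  simp

lemma fact_pow {k : ℕ} {V x q : ℝ} (hV : 0 ≤ V) (hx : 0 < x) (hq : k * V ≤ q * x ^ 2) :
    (k.factorial : ℝ) * V ^ k / x ^ (2 * k) ≤ q ^ k := by
  have h1 : (k.factorial : ℝ) ≤ (k : ℝ) ^ k := by exact_mod_cast Nat.factorial_le_pow k
  rw [div_le_iff₀ (by positivity)]
  calc (k.factorial : ℝ) * V ^ k ≤ (k : ℝ) ^ k * V ^ k := by gcongr
    _ = (k * V) ^ k := by rw [mul_pow]
    _ ≤ (q * x ^ 2) ^ k := by gcongr
    _ = q ^ k * x ^ (2 * k) := by rw [mul_pow, ← pow_mul]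

/-- **the counts in thin windows** -/
theorem thin (RH : RiemannHypothesis) {C' : ℝ} (hC' : 0 < C') {ε : ℝ} (hε : 0 < ε) : ∃ c μ0 : ℝ, 0 < c ∧ 1 ≤ μ0 ∧ ∀ μ' : ℝ, μ0 ≤ μ' →
      ∃ T1 : ℝ, 10 ≤ T1 ∧ ∀ T : ℝ, T1 ≤ T → ∀ U1 U2 : ℝ, 1 ≤ U1 → EFD C' T (ordz U1 U2) mu →
      ms T {t | (1 + ε) * μ' < cC U1 U2 t (Real.pi * μ' / Real.log T)} ≤ Real.exp (-(c * μ')) * T ∧
      ms T {t | (cO U1 U2 t (Real.pi * μ' / Real.log T) : ℝ) < (1 - ε) * μ'} ≤
        Real.exp (-(c * μ')) * T := by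
  have t2 := two_pi_sq'
  set j : ℕ := ⌈8 / ε⌉₊ + 2 with hj
  have hj8 : 8 / ε ≤ j := by
    rw [hj]
    push_cast
    have := Nat.le_ceil (8 / ε)
    linarith
  have hj2 : (2 : ℝ) ≤ j := by
    rw [hj]
    push_cast
    have := Nat.cast_nonneg (α := ℝ) ⌈8 / ε⌉₊
    linarith
  have hj1 : 1 ≤ j := by rw [hj]; omega
  have hj0 : (0 : ℝ) < j := by linarith
  have hlj : 0 ≤ Real.log j := Real.log_nonneg (by linarith)
  set V : ℝ := 300 + Real.log j with hV
  have hV0 : 0 < V := by linarith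
  refine ⟨1 / (2 * j), max (8 * j) (72 * V / (j * ε ^ 2)), by positivity,
    le_max_of_le_left (by linarith), fun y hy => ?_⟩
  have hy1 : 8 * j ≤ y := (le_max_left _ _).trans hy
  have hy2 : 72 * V / (j * ε ^ 2) ≤ y := (le_max_right _ _).trans hy
  have hy0 : 0 < y := by linarith
  set b : ℝ := j / y with hb
  have hb0 : 0 < b := by positivity
  have hb1 : b ≤ 1 / 2 := by
    rw [hb, div_le_iff₀ hy0]
    linarith
  have hby : b * y = j := by rw [hb]; field_simp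
  set k : ℕ := ⌊y / (2 * j)⌋₊ with hk
  have hk1 : (k : ℝ) ≤ y / (2 * j) := Nat.floor_le (by positivity)
  have hk2 : y / (2 * j) < k + 1 := Nat.lt_floor_add_one _
  have hkb : (k : ℝ) * b < 1 := by
    calc (k : ℝ) * b ≤ y / (2 * j) * b := by gcongr
      _ = 1 / 2 := by
        rw [hb]
        field_simp
      _ < 1 := by norm_num
  set x : ℝ := ε * y / 4 with hx
  have hx0 : 0 < x := by positivity
  have hq : (k : ℝ) * V ≤ 1 / 9 * x ^ 2 := by
    have h1 : (k : ℝ) * V ≤ y / (2 * j) * V := by gcongr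
    refine h1.trans ?_
    rw [div_le_iff₀ (by positivity)] at hy2
    rw [hx, div_mul_eq_mul_div, div_le_iff₀ (by positivity)]
    nlinarith
  have hfp := fact_pow hV0.le hx0 hq
  set θ : ℝ := 2 * (1 / 9) ^ k with hθ
  have hθ0 : (0 : ℝ) < (1 / 9) ^ k := by positivity
  have hθ1 : (1 / 9 : ℝ) ^ k ≤ 1 := pow_le_one₀ (by norm_num) (by norm_num)
  have hvar : ∀ (S : Finset ℕ) (σ : ℝ), |σ| ≤ 1 → Ker S j σ → S.card ≤ j + 1 →
      var (fun u => sc (Gs S j b) b u - (fun _ => (0 : ℝ)) u) ≤ V := by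
    intro S σ hσ hKer hS
    simp only [sub_zero]
    have h1 := (abs_le.1 (var_sel hσ hKer hS hj1 hb0 hb1)).2
    have h2 : 2 / Real.pi ^ 2 * Real.log j ≤ Real.log j := by nlinarith
    have h3 : var (fun u => sc (Gs S j b) b u) = var (sc (Gs S j b) b) := rfl
    rw [h3]
    linarith
  obtain ⟨T1, hT1, h1⟩ := cnt_dev RH hC' hj1 hb0 hb1 hby (wt_zero hb0 hb1) le_rfl hkb hx0
    (hvar _ 1 (by norm_num) (ker_range j) (by rw [Finset.card_range]))
    (hvar _ (-1) (by norm_num) (ker_Ico hj1) (by rw [Nat.card_Ico]; omega))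
    (lt_of_le_of_lt hfp (by linarith : (1 / 9 : ℝ) ^ k < θ)) (η := (1 / 9) ^ k) hθ0
  obtain ⟨T2, hT2⟩ := eventually_atTop.1 (gau_ev y ((1 + ε) * y) (show (0 : ℝ) < 1 by norm_num))
  refine ⟨max T1 T2, hT1.trans (le_max_left _ _), fun T hT U1 U2 hU hE => ?_⟩
  have a1 : T1 ≤ T := (le_max_left _ _).trans hT
  have a2 : T2 ≤ T := (le_max_right _ _).trans hT
  have hT10 : 10 ≤ T := hT1.trans a1
  have hT0 : 0 < T := by linarith
  obtain ⟨p1, p2⟩ := h1 T a1 U1 U2 hU hE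
  have hg := hT2 T a2
  have hib : 1 / b ≤ ε * y / 8 := by
    rw [hb, one_div_div, div_le_iff₀ hj0]
    rw [div_le_iff₀ hε] at hj8
    nlinarith
  have hε8 : 8 ≤ ε * y / 8 := by
    rw [div_le_iff₀ hε] at hj8
    nlinarith
  have hfin : (θ + (1 / 9) ^ k) * T ≤ Real.exp (-(1 / (2 * j) * y)) * T := by
    apply mul_le_mul_of_nonneg_right _ hT0.le
    have h3 : θ + (1 / 9) ^ k = 3 * (1 / 9) ^ k := by rw [hθ]; ring
    rw [h3]
    have h4 : (1 / 9 : ℝ) ≤ Real.exp (-2) := by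
      rw [Real.exp_neg, ← one_div]
      apply one_div_le_one_div_of_le (Real.exp_pos _)
      have h5 : Real.exp 2 = Real.exp 1 * Real.exp 1 := by rw [← Real.exp_add]; norm_num
      have h6 := Real.exp_one_lt_d9
      have h7 := Real.exp_pos (1 : ℝ)
      rw [h5]
      nlinarith
    have h5 : (1 / 9 : ℝ) ^ k ≤ Real.exp (-2 * k) := by
      calc (1 / 9 : ℝ) ^ k ≤ Real.exp (-2) ^ k := by gcongr
        _ = Real.exp (-2 * k) := by rw [← Real.exp_nat_mul]; congr 1; ring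
    have h6 : (3 : ℝ) ≤ Real.exp 2 := by
      have := Real.add_one_le_exp (2 : ℝ)
      linarith
    have h8 : 4 ≤ y / (2 * j) := by
      rw [le_div_iff₀ (by positivity)]
      linarith
    calc 3 * (1 / 9 : ℝ) ^ k ≤ Real.exp 2 * Real.exp (-2 * k) :=
          mul_le_mul h6 h5 (by positivity) (by positivity)
      _ = Real.exp (2 - 2 * k) := by rw [← Real.exp_add]; congr 1; ring
      _ ≤ Real.exp (-(1 / (2 * j) * y)) := by
          apply Real.exp_le_exp.2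
          have e : 1 / (2 * (j : ℝ)) * y = y / (2 * j) := by ring
          rw [e]
          linarith
  constructor
  · refine le_trans (le_trans (ms_mono ?_) p1) hfin
    intro t _ _ ht
    have h3 : (1 + ε) * y < cC U1 U2 t (Real.pi * y / Real.log T) := ht
    show y - (PW (fun _ => 0) b T t).re + 1 / b + x + (1 / 9) ^ k <
      cC U1 U2 t (Real.pi * y / Real.log T) * Real.exp (-(Real.pi * y / Real.log T) ^ 2 / 2)
    rw [PW_zero hb0 hb1 (by linarith)]
    have h4 : (1 + ε) * y * Real.exp (-(Real.pi * y / Real.log T) ^ 2 / 2) ≤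
        cC U1 U2 t (Real.pi * y / Real.log T) * Real.exp (-(Real.pi * y / Real.log T) ^ 2 / 2) :=
      mul_le_mul_of_nonneg_right h3.le (Real.exp_pos _).le
    have h5 : y - (0 : ℂ).re + 1 / b + x + (1 / 9) ^ k < (1 + ε) * y - 1 := by
      rw [Complex.zero_re, hx]
      nlinarith
    linarith
  · refine le_trans (le_trans (ms_mono ?_) p2) hfin
    intro t _ _ ht
    have h3 : (cO U1 U2 t (Real.pi * y / Real.log T) : ℝ) < (1 - ε) * y := ht
    show (cO U1 U2 t (Real.pi * y / Real.log T) : ℝ) <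
        y - (PW (fun _ => 0) b T t).re - 1 / b - x - (1 / 9) ^ k
    rw [PW_zero hb0 hb1 (by linarith), Complex.zero_re, hx]
    nlinarith

end Pool.Agent.T9h26.TD
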