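import Pool.Agent.T9h26.TD.Kg

set_option autoImplicit false

/-! The counts in a window of length about `r`. -/

open Complex Filter Topology Set MeasureTheory

namespace Pool.Agent.T9h26.TD

open TC (ordz ordT mu EFD)
open SG (ord NZ zmult ZS)
open W200.HW (Ix mem_Ix)
open Pool.Agent.Y747 (al)

lemma quarter_pow {k : ℕ} {D : ℝ} (hD : 2 ≤ D) (hk : 8 * D - 1 ≤ k) :
    3 * (1 / 4 : ℝ) ^ k ≤ Real.exp (-(8 * D)) := by
  have h1 : Real.exp (5 / 4) ≤ 4 := by
    have h2 : Real.exp (5 / 4) ^ 4 ≤ 4 ^ 4 := by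
      rw [← Real.exp_nat_mul]
      have h3 : Real.exp (((4 : ℕ) : ℝ) * (5 / 4)) = Real.exp 1 ^ 5 := by
        rw [← Real.exp_nat_mul]
        congr 1
        norm_num
      rw [h3]
      have h4 := Real.exp_one_lt_d9
      calc Real.exp 1 ^ 5 ≤ (2.7182818286 : ℝ) ^ 5 := by
            apply pow_le_pow_left₀ (Real.exp_pos _).le h4.le
        _ ≤ 4 ^ 4 := by norm_num
    exact le_of_pow_le_pow_left₀ (by norm_num) (by norm_num) h2
  have h2 : (1 / 4 : ℝ) ≤ Real.exp (-(5 / 4)) := by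
    rw [Real.exp_neg, ← one_div]
    exact one_div_le_one_div_of_le (Real.exp_pos _) h1
  have h3 : (1 / 4 : ℝ) ^ k ≤ Real.exp (-(5 / 4) * k) := by
    calc (1 / 4 : ℝ) ^ k ≤ Real.exp (-(5 / 4)) ^ k := by gcongr
      _ = Real.exp (-(5 / 4) * k) := by rw [← Real.exp_nat_mul]; congr 1; ring
  have h4 : (3 : ℝ) ≤ Real.exp 2 := by
    have := Real.add_one_le_exp (2 : ℝ)
    linarith
  calc 3 * (1 / 4 : ℝ) ^ k ≤ Real.exp 2 * Real.exp (-(5 / 4) * k) :=
        mul_le_mul h4 h3 (by positivity) (by positivity)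
    _ = Real.exp (2 - 5 / 4 * k) := by rw [← Real.exp_add]; congr 1; ring
    _ ≤ _ := by
        apply Real.exp_le_exp.2
        linarith

lemma taylor_small {ℓ x : ℝ} {m : ℕ} (hℓ : 100 ≤ ℓ) (hx : 0 ≤ x) (hx1 : x ≤ ℓ / 16)
    (hm : (ℓ - 3) / 2 ≤ m) : x ^ m / m.factorial ≤ Real.exp (-(ℓ / 4)) := by
  have hm0 : (0 : ℝ) < m := by linarith
  have hm1 : 12 / 25 * ℓ ≤ m := by linarith
  have h1 : x / m ≤ Real.exp (-2) := by
    rw [div_le_iff₀ hm0]
    have h2 : (2 / 15 : ℝ) ≤ Real.exp (-2) := by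
      rw [Real.exp_neg, ← one_div, le_div_iff₀ (Real.exp_pos _)]
      have h5 : Real.exp 2 = Real.exp 1 * Real.exp 1 := by rw [← Real.exp_add]; norm_num
      have h6 := Real.exp_one_lt_d9
      have h7 := Real.exp_pos (1 : ℝ)
      rw [h5]
      nlinarith
    calc x ≤ ℓ / 16 := hx1
      _ ≤ 2 / 15 * (12 / 25 * ℓ) := by linarith
      _ ≤ Real.exp (-2) * m := by gcongr
  have h3 := Real.pow_div_factorial_le_exp (m : ℝ) hm0.le m
  have h4 : x ^ m / (m.factorial : ℝ) = (x / m) ^ m * ((m : ℝ) ^ m / m.factorial) := by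
    rw [div_pow]
    field_simp
  rw [h4]
  calc (x / m) ^ m * ((m : ℝ) ^ m / m.factorial) ≤ Real.exp (-2) ^ m * Real.exp m := by
        apply mul_le_mul _ h3 (by positivity) (by positivity)
        exact pow_le_pow_left₀ (by positivity) h1 m
    _ = Real.exp (-m) := by
        rw [← Real.exp_nat_mul, ← Real.exp_add]
        congr 1
        ring
    _ ≤ Real.exp (-(ℓ / 4)) := by
        apply Real.exp_le_exp.2
        linarith

/-- **the counts in a window of length about `r`** -/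
theorem main_ap (RH : RiemannHypothesis) {C' : ℝ} (hC' : 0 < C') {ε : ℝ} (hε : 0 < ε)
    (hε1 : ε ≤ 1 / 10) : ∃ r0 : ℝ, 10 ≤ r0 ∧ ∀ r : ℝ, r0 ≤ r → ∀ y : ℝ, r / 2 ≤ y → y ≤ 2 * r →
      ∃ (w0 : ℝ → ℝ) (b0 : ℝ) (K0 : NNReal) (J m : ℕ), Wt w0 b0 K0 ∧ (J : ℝ) * b0 < 1 ∧
        2 * m ≤ J ∧ |var w0 - Vr r| ≤ ε * Vr r ∧
        (var w0 / 4) ^ m / m.factorial ≤ Real.exp (-(Real.log r / 4)) ∧
        ∃ T1 : ℝ, 10 ≤ T1 ∧ ∀ T : ℝ, T1 ≤ T → ∀ U1 U2 : ℝ, 1 ≤ U1 → EFD C' T (ordz U1 U2) mu →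
          ms T {t | y - (PW w0 b0 T t).re + 25 * Real.log (Real.log r) <
            cC U1 U2 t (Real.pi * y / Real.log T) *
              Real.exp (-(Real.pi * y / Real.log T) ^ 2 / 2)} ≤
            Real.exp (-(8 * Real.log (Real.log r))) * T ∧
          ms T {t | (cO U1 U2 t (Real.pi * y / Real.log T) : ℝ) <
            y - (PW w0 b0 T t).re - 25 * Real.log (Real.log r)} ≤
            Real.exp (-(8 * Real.log (Real.log r))) * T := by
  obtain ⟨r1, hr1, hpar⟩ := par hε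
  have ev1 : ∀ᶠ r : ℝ in atTop, 16 * Real.log (Real.log r) + 100 ≤ Real.log r := by
    have h1 := (Real.isLittleO_log_id_atTop.bound (show 0 < (1 / 32 : ℝ) by norm_num))
    have h2 := Real.tendsto_log_atTop.eventually h1
    filter_upwards [h2, Real.tendsto_log_atTop.eventually_ge_atTop 200] with r h3 h4
    have h5 := (le_abs_self _).trans h3
    rw [id, Real.norm_eq_abs, abs_of_nonneg (by linarith)] at h5
    linarith
  have ev2 : ∀ᶠ r : ℝ in atTop, 600 ≤ Real.log (Real.log r) :=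
    (Real.tendsto_log_atTop.comp Real.tendsto_log_atTop).eventually_ge_atTop 600
  obtain ⟨r2, h2⟩ := eventually_atTop.1 (ev1.and ev2)
  refine ⟨max r1 r2, hr1.trans (le_max_left _ _), fun r hr y hy1 hy2 => ?_⟩
  have hrr1 : r1 ≤ r := (le_max_left _ _).trans hr
  obtain ⟨a1, a2⟩ := h2 r ((le_max_right _ _).trans hr)
  have hr10 : 10 ≤ r := hr1.trans hrr1
  set ℓ := Real.log r with hℓ
  set D := Real.log ℓ with hD
  have hℓ100 : 100 ≤ ℓ := by linarith
  have hℓ0 : 0 < ℓ := by linarith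
  have hy0 : 0 < y := by linarith
  set kX := ⌊ℓ⌋₊ with hkX
  have hkX1 : (kX : ℝ) ≤ ℓ := Nat.floor_le hℓ0.le
  have hkX2 : ℓ < kX + 1 := Nat.lt_floor_add_one _
  have hkX3 : 2 ≤ kX := by
    have : (2 : ℝ) ≤ kX := by linarith
    exact_mod_cast this
  have hkX0 : (0 : ℝ) < kX := by linarith
  set kc := ⌈8 * D⌉₊ with hkc
  have hkc1 : 8 * D ≤ kc := Nat.le_ceil _
  have hkc2 : (kc : ℝ) < 8 * D + 1 := Nat.ceil_lt_add_one (by linarith)
  have hkc3 : 2 ≤ kc := by
    have : (2 : ℝ) ≤ kc := by linarith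
    exact_mod_cast this
  have hkc0 : (0 : ℝ) < kc := by linarith
  obtain ⟨j', b', hj', hb'0, hb'k, hb'1, hb'y, hb'i, hvar'⟩ := hpar r hrr1 kX hkX3 hkX1 y hy1 hy2
  obtain ⟨j, b, hj, hb0, hbk, hb1, hby, hbi, -⟩ := hpar r hrr1 kc hkc3 (by linarith) y hy1 hy2
  have hbb : b' ≤ b := by
    have h1 : 1 / (kX : ℝ) ≤ 1 / (2 * kc) := by
      apply one_div_le_one_div_of_le (by positivity)
      linarith
    have h2 : 1 / (2 * (kc : ℝ)) ≤ b := by
      rw [div_le_iff₀ (by positivity)]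
      rw [div_le_iff₀ hb0] at hbi
      linarith
    linarith
  have hlogb : Real.log (b / b') ≤ D := by
    rw [hD]
    apply Real.log_le_log (by positivity)
    have h1 : b / b' = b * (1 / b') := by ring
    rw [h1]
    calc b * (1 / b') ≤ 1 / 2 * (2 * kX) := by gcongr
      _ = kX := by ring
      _ ≤ ℓ := hkX1
  obtain ⟨K0, hW0⟩ := sc_wt (Gs_contDiff (Finset.range (j' + 1)) j' b')
    (Gs_one (Finset.range (j' + 1)) j' b') hb'0 hb'1
  have hv := hvar' (Finset.range (j' + 1)) 1 (by norm_num) (ker_range j') (by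
    rw [Finset.card_range])
  have hπ := Real.pi_gt_three
  have hVr : Vr r ≤ 2 / 9 * ℓ := by
    unfold Vr
    apply mul_le_mul_of_nonneg_right _ hℓ0.le
    apply div_le_div_of_nonneg_left (by norm_num) (by norm_num)
    nlinarith
  have hVr0 : 0 < Vr r := by
    unfold Vr
    positivity
  have hv2 := abs_le.1 hv
  refine ⟨sc (Gs (Finset.range (j' + 1)) j' b') b', b', K0, kX - 1, (kX - 1) / 2, hW0, ?_, ?_, hv,
    ?_, ?_⟩
  · rw [Nat.cast_sub (by omega)]
    push_cast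
    have h1 : ((kX : ℝ) - 1) * b' ≤ (kX - 1) * (1 / kX) := by
      apply mul_le_mul_of_nonneg_left hb'k
      linarith
    have h2 : ((kX : ℝ) - 1) * (1 / kX) < 1 := by
      rw [mul_one_div, div_lt_one hkX0]
      linarith
    linarith
  · omega
  · apply taylor_small hℓ100
    · have : 0 ≤ var (sc (Gs (Finset.range (j' + 1)) j' b') b') := by nlinarith [hv2.1]
      positivity
    · nlinarith [hv2.2]
    · have h1 : kX ≤ 2 * ((kX - 1) / 2) + 2 := by omega
      have h2 : (kX : ℝ) ≤ 2 * (((kX - 1) / 2 : ℕ) : ℝ) + 2 := by exact_mod_cast h1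
      linarith
  · set k := kc - 1 with hk
    have hkr : (k : ℝ) = kc - 1 := by
      rw [hk, Nat.cast_sub (by omega)]
      push_cast
      ring
    have hkb : (k : ℝ) * b < 1 := by
      have h1 : (k : ℝ) * b ≤ k * (1 / kc) := by gcongr
      have h2 : (k : ℝ) * (1 / kc) < 1 := by
        rw [mul_one_div, div_lt_one hkc0]
        linarith
      linarith
    have hx0 : 0 < 8 * D := by linarith
    have hq : (k : ℝ) * (2 * D) ≤ 1 / 4 * (8 * D) ^ 2 := by nlinarith
    have hfp := fact_pow (k := k) (V := 2 * D) (by linarith) hx0 hq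
    have hθ0 : (0 : ℝ) < (1 / 4) ^ k := by positivity
    have hθ1 : (1 / 4 : ℝ) ^ k ≤ 1 := pow_le_one₀ (by norm_num) (by norm_num)
    obtain ⟨T1, hT1, h1⟩ := cnt_dev RH hC' hj hb0 hb1 hby hW0 hbb hkb hx0
      ((var_diff (S := Finset.range (j + 1)) (σ := 1) (by norm_num) (ker_range j)
        (S' := Finset.range (j' + 1)) (σ' := 1) (by norm_num) (ker_range j') hb0 hb1 hb'0 hbb hby
        hb'y).trans (by linarith : 588 + Real.log (b / b') ≤ 2 * D))
      ((var_diff (S := Finset.Ico 1 j) (σ := -1) (by norm_num) (ker_Ico hj)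
        (S' := Finset.range (j' + 1)) (σ' := 1) (by norm_num) (ker_range j') hb0 hb1 hb'0 hbb hby
        hb'y).trans (by linarith : 588 + Real.log (b / b') ≤ 2 * D))
      (lt_of_le_of_lt hfp (by linarith : (1 / 4 : ℝ) ^ k < 2 * (1 / 4) ^ k)) hθ0
    refine ⟨T1, hT1, fun T hT U1 U2 hU hE => ?_⟩
    obtain ⟨p1, p2⟩ := h1 T hT U1 U2 hU hE
    have hT0 : 0 < T := by linarith
    have hfin : (2 * (1 / 4 : ℝ) ^ k + (1 / 4) ^ k) * T ≤ Real.exp (-(8 * D)) * T := by
      apply mul_le_mul_of_nonneg_right _ hT0.le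
      have h3 := quarter_pow (k := k) (D := D) (by linarith) (by linarith)
      linarith
    have hsl : 1 / b + 8 * D + (1 / 4) ^ k ≤ 25 * D := by linarith
    constructor
    · refine le_trans (le_trans (ms_mono ?_) p1) hfin
      intro t _ _ ht
      rw [mem_setOf_eq] at ht ⊢
      linarith
    · refine le_trans (le_trans (ms_mono ?_) p2) hfin
      intro t _ _ ht
      rw [mem_setOf_eq] at ht ⊢
      linarith

end Pool.Agent.T9h26.TD
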