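import Pool.Agent.T9h26.TD.Kh

set_option autoImplicit false

/-! Counts of ordinates in intervals and the sums of gaps. -/

open Complex Filter Topology Set MeasureTheory

namespace Pool.Agent.T9h26.TD

open TC (ordz ordT mu EFD)
open SG (ord NZ zmult ZS)
open W200.HW (Ix mem_Ix)
open Pool.Agent.Y747 (al dl Bx mem_Bx Jx mem_Jx)

/-- the number of ordinates in `[α, β]` -/
noncomputable def nC (U1 U2 α β : ℝ) : ℕ :=
  ((Kx U1 U2).filter (fun n => α ≤ ord n ∧ ord n ≤ β)).card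

/-- the number of ordinates in `(α, β)` -/
noncomputable def nO (U1 U2 α β : ℝ) : ℕ :=
  ((Kx U1 U2).filter (fun n => α < ord n ∧ ord n < β)).card

lemma cC_eq (U1 U2 c ρ : ℝ) : cC U1 U2 c ρ = nC U1 U2 (c - ρ) (c + ρ) := by
  unfold cC nC
  congr 1
  apply Finset.filter_congr
  intro n _
  rw [abs_le]
  constructor
  · rintro ⟨h1, h2⟩; constructor <;> linarith
  · rintro ⟨h1, h2⟩; constructor <;> linarith

lemma cO_eq (U1 U2 c ρ : ℝ) : cO U1 U2 c ρ = nO U1 U2 (c - ρ) (c + ρ) := by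
  unfold cO nO
  congr 1
  apply Finset.filter_congr
  intro n _
  rw [abs_lt]
  constructor
  · rintro ⟨h1, h2⟩; constructor <;> linarith
  · rintro ⟨h1, h2⟩; constructor <;> linarith

variable {U1 U2 α β γ : ℝ}

lemma nC_add (U1 U2 α β γ : ℝ) : nC U1 U2 α γ ≤ nC U1 U2 α β + nC U1 U2 β γ := by
  classical
  unfold nC
  refine le_trans (Finset.card_le_card ?_) (Finset.card_union_le _ _)
  intro n hn
  rw [Finset.mem_filter] at hn
  rw [Finset.mem_union, Finset.mem_filter, Finset.mem_filter]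
  rcases le_total (ord n) β with h | h
  · exact Or.inl ⟨hn.1, hn.2.1, h⟩
  · exact Or.inr ⟨hn.1, h, hn.2.2⟩

lemma nO_up (U1 U2 α β γ : ℝ) : nO U1 U2 α γ ≤ nO U1 U2 α β + nC U1 U2 β γ := by
  classical
  unfold nC nO
  refine le_trans (Finset.card_le_card ?_) (Finset.card_union_le _ _)
  intro n hn
  rw [Finset.mem_filter] at hn
  rw [Finset.mem_union, Finset.mem_filter, Finset.mem_filter]
  rcases lt_or_ge (ord n) β with h | h
  · exact Or.inl ⟨hn.1, hn.2.1, h⟩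
  · exact Or.inr ⟨hn.1, h, hn.2.2.le⟩

lemma nO_add (h1 : α ≤ β) (h2 : β ≤ γ) : nO U1 U2 α β + nO U1 U2 β γ ≤ nO U1 U2 α γ := by
  classical
  unfold nO
  rw [← Finset.card_union_of_disjoint]
  · apply Finset.card_le_card
    intro n hn
    rw [Finset.mem_union, Finset.mem_filter, Finset.mem_filter] at hn
    rw [Finset.mem_filter]
    rcases hn with ⟨a1, a2, a3⟩ | ⟨a1, a2, a3⟩
    · exact ⟨a1, a2, by linarith⟩
    · exact ⟨a1, by linarith, a3⟩
  · rw [Finset.disjoint_left]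
    intro n hn hn'
    rw [Finset.mem_filter] at hn hn'
    linarith [hn.2.2, hn'.2.1]

lemma nO_le_nC (U1 U2 α β : ℝ) : nO U1 U2 α β ≤ nC U1 U2 α β := by
  unfold nO nC
  apply Finset.card_le_card
  intro n hn
  rw [Finset.mem_filter] at hn ⊢
  exact ⟨hn.1, hn.2.1.le, hn.2.2.le⟩

/-- few ordinates between `ord n` and `ord (n + r)` -/
lemma nO_few {r n : ℕ} (hn : 1 ≤ n) (h1 : ord n ≤ α) (h2 : β ≤ ord (n + r)) :
    nO U1 U2 α β ≤ r - 1 := by
  have h3 := cO_le (r := r) hn (U1 := U1) (U2 := U2) (t := α) (ρ := (β - α) / 2) h1 (by linarith)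
  rw [cO_eq] at h3
  have e1 : α + (β - α) / 2 - (β - α) / 2 = α := by ring
  have e2 : α + (β - α) / 2 + (β - α) / 2 = β := by ring
  rwa [e1, e2] at h3

/-- many ordinates -/
lemma nC_many {r n : ℕ} (hn : 1 ≤ n) (h1 : α ≤ ord n) (h2 : ord (n + r) ≤ β) (hU1 : U1 < ord n)
    (hU2 : ord (n + r) ≤ U2) : r + 1 ≤ nC U1 U2 α β := by
  have h3 := cC_ge2 (m := r) hn (U1 := U1) (U2 := U2) (t := (α + β) / 2) (ρ := (β - α) / 2)
    (by linarith) (by linarith) hU1 hU2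
  rw [cC_eq] at h3
  have e1 : (α + β) / 2 - (β - α) / 2 = α := by ring
  have e2 : (α + β) / 2 + (β - α) / 2 = β := by ring
  rwa [e1, e2] at h3

/-- the facts on a good point -/
structure Gd (U1 U2 t κ z0 s1 s2 s3 e y X D h lam ε : ℝ) : Prop where
  g1 : (nC U1 U2 t z0 : ℝ) * e ≤ y - X + 25 * D
  g2 : y - X - 25 * D ≤ nO U1 U2 t z0
  g3 : (nC U1 U2 (t - κ) t : ℝ) ≤ (1 + ε) * h
  g4 : (1 - ε) * h ≤ nO U1 U2 (t - κ) t
  g5 : (nC U1 U2 (z0 - s1) z0 : ℝ) ≤ (1 + ε) * (h + 1)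
  g6 : (nC U1 U2 z0 (z0 + s1) : ℝ) ≤ (1 + ε) * (h + 1)
  g7 : (nC U1 U2 z0 (z0 + s2) : ℝ) ≤ (1 + ε) * (lam + 1)
  g8 : (1 - ε) * (lam - 1 - h) ≤ nO U1 U2 z0 (z0 + s3)

variable {t κ z0 s1 s2 s3 e y X D h lam ε a : ℝ}

/-- from the sum of gaps to the field -/
lemma Gd.up (g : Gd U1 U2 t κ z0 s1 s2 s3 e y X D h lam ε) {r n : ℕ} (hr : 1 ≤ r) (hn : 1 ≤ n)
    (hy : y = r + a) (hε : 0 ≤ ε) (hε1 : ε ≤ 1) (hh : 0 ≤ h) (hlam : 0 ≤ lam)
    (he : 1 - 1 / (2 * (r + 1)) ≤ e) (he1 : e ≤ 1)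
    (h1 : ord n ≤ t) (h2 : t ≤ ord n + κ) (hU1 : U1 < ord n) (hU2 : ord (n + r) ≤ U2)
    (h3 : z0 - s1 ≤ ord (n + r)) (h4 : ord (n + r) ≤ z0 + s2) :
    |X - (a + lam / 2)| ≤ lam / 2 + (ε * lam + 2 * (h + 1) + 25 * D) := by
  have k1 := nO_few (U1 := U1) (U2 := U2) (α := t) (β := z0 - s1) hn h1 h3
  have k2 := nC_many (U1 := U1) (U2 := U2) (α := t - κ) (β := z0 + s2) hn (by linarith) h4 hU1 hU2
  have k3 := nO_up U1 U2 t (z0 - s1) z0
  have k4 := nC_add U1 U2 (t - κ) t (z0 + s2)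
  have k5 := nC_add U1 U2 t z0 (z0 + s2)
  have q1 : (nO U1 U2 t z0 : ℝ) ≤ r - 1 + nC U1 U2 (z0 - s1) z0 := by
    have : nO U1 U2 t z0 + 1 ≤ r + nC U1 U2 (z0 - s1) z0 := by omega
    have h5 : ((nO U1 U2 t z0 + 1 : ℕ) : ℝ) ≤ ((r + nC U1 U2 (z0 - s1) z0 : ℕ) : ℝ) := by
      exact_mod_cast this
    push_cast at h5
    linarith
  have q2 : (r : ℝ) + 1 ≤ nC U1 U2 (t - κ) t + nC U1 U2 t z0 + nC U1 U2 z0 (z0 + s2) := by
    have : r + 1 ≤ nC U1 U2 (t - κ) t + nC U1 U2 t z0 + nC U1 U2 z0 (z0 + s2) := by omega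
    exact_mod_cast this
  have g1 := g.g1
  have g2 := g.g2
  have g3 := g.g3
  have g5 := g.g5
  have g7 := g.g7
  have hr0 : (0 : ℝ) ≤ r := Nat.cast_nonneg r
  set N := (nC U1 U2 t z0 : ℝ) with hN
  have q3 : r + 1 - (1 + ε) * (h + (lam + 1)) ≤ N := by linarith
  have q4 : r + 1 - (1 + ε) * (h + (lam + 1)) - 1 / 2 ≤ N * e := by
    set Q := r + 1 - (1 + ε) * (h + (lam + 1)) with hQ
    have hN0 : 0 ≤ N := Nat.cast_nonneg _
    have hQ1 : Q ≤ r + 1 := by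
      have : 0 ≤ (1 + ε) * (h + (lam + 1)) := by positivity
      linarith
    have he0 : 0 ≤ e := by
      have : 1 / (2 * ((r : ℝ) + 1)) ≤ 1 := by
        rw [div_le_one (by positivity)]
        linarith
      linarith
    rcases le_or_gt Q 0 with h5 | h5
    · have : 0 ≤ N * e := by positivity
      linarith
    · have h6 : Q * e ≤ N * e := mul_le_mul_of_nonneg_right q3 he0
      have h7 : Q * (1 - e) ≤ (r + 1) * (1 / (2 * (r + 1))) := by
        apply mul_le_mul hQ1 (by linarith) (by linarith) (by positivity)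
      have h8 : ((r : ℝ) + 1) * (1 / (2 * (r + 1))) = 1 / 2 := by
        field_simp
      rw [h8] at h7
      linarith
  rw [abs_le]
  have p1 : (1 + ε) * (h + (lam + 1)) = lam + ε * lam + (1 + ε) * (h + 1) := by ring
  have p2 : (1 + ε) * (h + 1) ≤ 2 * (h + 1) := by nlinarith
  have p3 : 0 ≤ ε * lam := by positivity
  constructor
  · linarith
  · linarith

/-- from the field to the sum of gaps -/
lemma Gd.lo (g : Gd U1 U2 t κ z0 s1 s2 s3 e y X D h lam ε) {r n : ℕ} (hr : 1 ≤ r) (hn : 1 ≤ n)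
    (hy : y = r + a) (hε : 0 ≤ ε) (hε1 : ε ≤ 1) (hh : 0 ≤ h) (hlam : 0 ≤ lam)
    (he : 1 - 1 / (2 * (r + 1)) ≤ e) (he1 : e ≤ 1) (ht0 : t ≤ z0) (hs3 : 0 ≤ s3)
    (h1 : ord n ≤ t) (h2 : t ≤ ord n + κ) (hU1 : U1 < ord n) (hU2 : z0 + s1 ≤ U2)
    (hX : |X - (a + lam / 2)| ≤ lam / 2 - (ε * lam + 4 * (h + 1) + 25 * D)) :
    z0 + s1 < ord (n + r) ∧ ord (n + r) < z0 + s3 := by
  have g1 := g.g1
  have g2 := g.g2
  have g3 := g.g3
  have g6 := g.g6
  have g8 := g.g8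
  obtain ⟨x1, x2⟩ := abs_le.1 hX
  have hr0 : (0 : ℝ) ≤ r := Nat.cast_nonneg r
  have p2 : (1 + ε) * (h + 1) ≤ 2 * (h + 1) := by nlinarith
  have p4 : (1 + ε) * h ≤ 2 * h := by nlinarith
  have p3 : 0 ≤ ε * lam := by positivity
  have p5 : 0 ≤ ε * (1 + h) := by positivity
  constructor
  · by_contra hc
    rw [not_lt] at hc
    have k2 := nC_many (U1 := U1) (U2 := U2) (α := t - κ) (β := z0 + s1) hn (by linarith) hc hU1
      (hc.trans hU2)
    have k4 := nC_add U1 U2 (t - κ) t (z0 + s1)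
    have k5 := nC_add U1 U2 t z0 (z0 + s1)
    have q2 : (r : ℝ) + 1 ≤ nC U1 U2 (t - κ) t + nC U1 U2 t z0 + nC U1 U2 z0 (z0 + s1) := by
      have : r + 1 ≤ nC U1 U2 (t - κ) t + nC U1 U2 t z0 + nC U1 U2 z0 (z0 + s1) := by omega
      exact_mod_cast this
    set N := (nC U1 U2 t z0 : ℝ) with hN
    have hN0 : 0 ≤ N := Nat.cast_nonneg _
    have q3 : N * e ≤ r - 3 * (h + 1) := by linarith
    have q4 : N ≤ r + 1 := by
      by_contra hc2
      rw [not_le] at hc2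
      have h5 : (r + 1) * (1 - 1 / (2 * ((r : ℝ) + 1))) ≤ N * e := by
        apply mul_le_mul hc2.le he _ hN0
        have : 1 / (2 * ((r : ℝ) + 1)) ≤ 1 := by
          rw [div_le_one (by positivity)]
          linarith
        linarith
      have h6 : (r + 1) * (1 - 1 / (2 * ((r : ℝ) + 1))) = r + 1 / 2 := by
        field_simp
        ring
      rw [h6] at h5
      linarith
    have q5 : N * (1 - e) ≤ (r + 1) * (1 / (2 * (r + 1))) := by
      apply mul_le_mul q4 (by linarith) (by linarith) (by positivity)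
    have h8 : ((r : ℝ) + 1) * (1 / (2 * (r + 1))) = 1 / 2 := by
      field_simp
    rw [h8] at q5
    linarith
  · by_contra hc
    rw [not_lt] at hc
    have k1 := nO_few (U1 := U1) (U2 := U2) (α := t) (β := z0 + s3) hn h1 hc
    have k2 := nO_add (U1 := U1) (U2 := U2) ht0 (show z0 ≤ z0 + s3 by linarith)
    have q1 : (nO U1 U2 t z0 : ℝ) + nO U1 U2 z0 (z0 + s3) ≤ r - 1 := by
      have : nO U1 U2 t z0 + nO U1 U2 z0 (z0 + s3) + 1 ≤ r := by omega
      have h5 : ((nO U1 U2 t z0 + nO U1 U2 z0 (z0 + s3) + 1 : ℕ) : ℝ) ≤ ((r : ℕ) : ℝ) := by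
        exact_mod_cast this
      push_cast at h5
      linarith
    nlinarith

end Pool.Agent.T9h26.TD
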