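import Pool.Agent.T9h26.TD.Ki

set_option autoImplicit false

/-! From the measure of sets of centres to numbers of indices, with sharp constants. -/

open Complex Filter Topology Set MeasureTheory

namespace Pool.Agent.T9h26.TD

open TC (ordz ordT mu EFD)
open SG (ord NZ zmult ZS)
open W200.HW (Ix mem_Ix)
open Pool.Agent.Y747 (al dl Bx mem_Bx Jx mem_Jx)

/-- mean square of the smoothed count, explicit bound -/
theorem SX_L2e {w : ℝ → ℝ} {b : ℝ} {K : NNReal} (h : Wt w b K) (hv : 0 < var w) {C : ℝ}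
    (hC : 0 < C) :
    ∃ T1 : ℝ, 10 ≤ T1 ∧ ∀ T : ℝ, T1 ≤ T → ∃ Φ : ℝ → ℝ, Continuous Φ ∧
      (∀ t, 0 ≤ Φ t) ∧ (∫ t in T..(2 * T), Φ t) ≤ 4 * ((|w 0| + 1) ^ 2 + var w + 3) * T ∧
      ∀ (Z : Finset ℝ) (m : ℝ → ℕ), EFD C T Z m → ∀ t : ℝ, T + Real.log T ≤ t →
        t ≤ 2 * T - Real.log T → SX Z m w (Real.log T) t ^ 2 ≤ Φ t := by
  set b' := (1 + b) / 2 with hb'
  have hbb : b < b' := by rw [hb']; linarith [h.b1]
  have hb1 : b' < 1 := by rw [hb']; linarith [h.b1]
  obtain ⟨A, T1, hA, hT1, h1⟩ := ef_pt h hbb hC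
  obtain ⟨C2, hC2, h2⟩ := rn_sum h
  have hJ : ((1 : ℕ) : ℝ) * b < 1 := by
    push_cast
    linarith [h.b1]
  have hm := mom_poly hv (coef_al h hJ) (fun i => if i = 1 then 1 else 0)
  have ev1 : Tendsto (fun T : ℝ => (1 + 8 * (T ^ (b' - 1) * (1 + Real.log T))) * (C2 / Real.log T))
      atTop (𝓝 ((1 + 8 * 0) * 0)) := by
    apply Tendsto.mul
    · apply Tendsto.const_add
      apply Tendsto.const_mul
      have hd : 0 < 1 - b' := by linarith
      have k1 : Tendsto (fun T : ℝ => T ^ (b' - 1)) atTop (𝓝 0) := by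
        have := tendsto_rpow_neg_atTop hd
        rwa [neg_sub] at this
      have k2 : Tendsto (fun T : ℝ => T ^ (b' - 1) * Real.log T) atTop (𝓝 0) := by
        have h3 := (isLittleO_log_rpow_atTop hd).tendsto_div_nhds_zero
        refine h3.congr' ?_
        filter_upwards [eventually_gt_atTop 0] with T hT
        have : T ^ (b' - 1) = (T ^ (1 - b'))⁻¹ := by
          rw [← Real.rpow_neg hT.le, neg_sub]
        rw [this]
        field_simp
      have h3 := k1.add k2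
      rw [add_zero] at h3
      exact h3.congr fun T => by ring
    · exact tendsto_const_nhds.div_atTop Real.tendsto_log_atTop
  rw [mul_zero] at ev1
  set S0 := ∑ i ∈ Finset.range (1 + 1), ((if i = 1 then 1 else 0 : ℝ)) ^ 2 *
    ((i.factorial : ℝ) * var w ^ i) with hS0
  obtain ⟨T2, hT2⟩ := eventually_atTop.1 ((ev1.eventually (gt_mem_nhds
    (show (0 : ℝ) < 1 by norm_num))).and (hm.eventually (gt_mem_nhds
    (show S0 < S0 + 1 by linarith))))
  have hS00 : 0 ≤ S0 := Finset.sum_nonneg fun i _ => by positivity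
  have hS0v : S0 = var w := by
    rw [hS0, Finset.sum_range_succ, Finset.sum_range_one]
    simp
  refine ⟨max T1 (max T2 (Real.exp A)), hT1.trans (le_max_left _ _), fun T hT => ?_⟩
  have hTT1 : T1 ≤ T := (le_max_left _ _).trans hT
  obtain ⟨f1, f2⟩ := hT2 T (((le_max_left _ _).trans (le_max_right _ _)).trans hT)
  have hTA : Real.exp A ≤ T := ((le_max_right _ _).trans (le_max_right _ _)).trans hT
  have hT10 : 10 ≤ T := hT1.trans hTT1
  have hT0 : 0 < T := by linarith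
  have hL : 0 < Real.log T := Real.log_pos (by linarith)
  have hAL : A ≤ Real.log T := (Real.le_log_iff_exp_le hT0).2 hTA
  set L := Real.log T with hLd
  have hL1 : 1 ≤ L := by
    rw [hLd, Real.le_log_iff_exp_le (by linarith)]
    have := Real.exp_one_lt_d9
    linarith
  set X := ⌊T ^ b'⌋₊ with hX
  set R : ℝ → ℂ := fun t => ∑ n ∈ Finset.Icc 1 X, (rn w L n : ℂ) * (n : ℂ) ^ (-(t : ℂ) * I)
    with hR
  have hRc : Continuous R := by
    rw [hR]
    apply continuous_finsetSum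
    intro n hn
    exact continuous_const.mul (cpow_cont n (Finset.mem_Icc.1 hn).1)
  have hPc : Continuous (PW w b T) := PP_cont _ _
  have hXT : (X : ℝ) ≤ T ^ b' := Nat.floor_le (by positivity)
  have hXT' : (X : ℝ) ≤ T := by
    refine hXT.trans ?_
    conv_rhs => rw [← Real.rpow_one T]
    exact Real.rpow_le_rpow_of_exponent_le (by linarith) hb1.le
  have hX1 : (1 : ℝ) ≤ X := by
    have : 1 ≤ X := by
      rw [hX, Nat.one_le_floor_iff]
      exact Real.one_le_rpow (by linarith) (by linarith [h.b0])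
    exact_mod_cast this
  have g1 : ∫ t in T..(2 * T), ‖R t‖ ^ 2 ≤ 1 * T := by
    have k1 := H370.mean_value (fun n => (rn w L n : ℂ)) X T (2 * T) (by linarith)
    have k2 := h2 T hT10 X hXT'
    have k3 : ∑ n ∈ Finset.Icc 1 X, ‖(rn w L n : ℂ)‖ ^ 2 = ∑ n ∈ Finset.Icc 1 X, rn w L n ^ 2 := by
      apply Finset.sum_congr rfl
      intro n _
      rw [Complex.norm_real, Real.norm_eq_abs, sq_abs]
    rw [k3] at k1
    have k4 : Real.log X ≤ L := Real.log_le_log (by linarith) hXT'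
    have k5 : 0 ≤ Real.log (X : ℝ) := Real.log_nonneg hX1
    have k6 : 2 * T - T + 8 * X * (1 + Real.log X) ≤ T * (1 + 8 * (T ^ (b' - 1) * (1 + L))) := by
      have : T * (1 + 8 * (T ^ (b' - 1) * (1 + L))) = T + 8 * (T * T ^ (b' - 1)) * (1 + L) := by
        ring
      rw [this, ← Real.rpow_one_add' hT0.le (by linarith [h.b0] : 1 + (b' - 1) ≠ 0)]
      have e : (1 + (b' - 1) : ℝ) = b' := by ring
      rw [e]
      have : 8 * (X : ℝ) * (1 + Real.log X) ≤ 8 * T ^ b' * (1 + L) := by gcongr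
      linarith
    calc ∫ t in T..(2 * T), ‖R t‖ ^ 2 ≤ (2 * T - T + 8 * X * (1 + Real.log X)) *
        ∑ n ∈ Finset.Icc 1 X, rn w L n ^ 2 := k1
      _ ≤ (T * (1 + 8 * (T ^ (b' - 1) * (1 + L)))) * (C2 / L) := by
          apply mul_le_mul k6 k2 (Finset.sum_nonneg fun n _ => sq_nonneg _)
          positivity
      _ = ((1 + 8 * (T ^ (b' - 1) * (1 + L))) * (C2 / L)) * T := by ring
      _ ≤ _ := mul_le_mul_of_nonneg_right f1.le hT0.le
  have g2 : ∫ t in T..(2 * T), ‖PW w b T t‖ ^ 2 ≤ (S0 + 1) * T := by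
    have k1 : ∀ t, ∑ i ∈ Finset.range (1 + 1), (((if i = 1 then 1 else 0 : ℝ)) : ℂ) *
        PP (al w L) (XT b T) t ^ i = PW w b T t := by
      intro t
      rw [Finset.sum_range_succ, Finset.sum_range_one]
      simp
      rfl
    simp_rw [k1] at f2
    have := f2.le
    rw [one_div, inv_mul_le_iff₀ hT0] at this
    linarith
  refine ⟨fun t => 4 * ((|w 0| + 1) ^ 2 + ‖PW w b T t‖ ^ 2 + 1 + ‖R t‖ ^ 2), by fun_prop,
    fun t => by positivity, ?_, ?_⟩
  · have i1 : IntervalIntegrable (fun t => ‖PW w b T t‖ ^ 2) volume T (2 * T) :=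
      (by fun_prop : Continuous fun t => ‖PW w b T t‖ ^ 2).intervalIntegrable _ _
    have i2 : IntervalIntegrable (fun t => ‖R t‖ ^ 2) volume T (2 * T) :=
      (by fun_prop : Continuous fun t => ‖R t‖ ^ 2).intervalIntegrable _ _
    have e1 : ∀ t, 4 * ((|w 0| + 1) ^ 2 + ‖PW w b T t‖ ^ 2 + 1 + ‖R t‖ ^ 2) =
        4 * (((|w 0| + 1) ^ 2 + 1) + (‖PW w b T t‖ ^ 2 + ‖R t‖ ^ 2)) := fun t => by ring
    simp_rw [e1]
    rw [intervalIntegral.integral_const_mul, intervalIntegral.integral_add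
      intervalIntegrable_const (i1.add i2), intervalIntegral.integral_add i1 i2,
      intervalIntegral.integral_const, smul_eq_mul]
    have e2 : 4 * ((|w 0| + 1) ^ 2 + var w + 3) * T = 4 * ((2 * T - T) *
      ((|w 0| + 1) ^ 2 + 1) + ((S0 + 1) * T + 1 * T)) := by rw [hS0v]; ring
    rw [e2]
    gcongr
  · intro Z m hE t ht1 ht2
    have h3 := h1 T hTT1 Z m hE t ht1 ht2
    rw [← PW_eq] at h3
    have h4 := Complex.abs_re_le_norm (PW w b T t)
    have h5 : |SX Z m w L t| ≤ (|w 0| + 1) + ‖PW w b T t‖ + 1 + ‖R t‖ := by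
      have k1 : |SX Z m w L t| ≤ |SX Z m w L t - (w 0 / 2 - (PW w b T t).re)| +
          |w 0 / 2 - (PW w b T t).re| := by
        have := abs_add_le (SX Z m w L t - (w 0 / 2 - (PW w b T t).re))
          (w 0 / 2 - (PW w b T t).re)
        rwa [sub_add_cancel] at this
      have k2 : |w 0 / 2 - (PW w b T t).re| ≤ |w 0| / 2 + |(PW w b T t).re| := by
        have := abs_sub (w 0 / 2) (PW w b T t).re
        rwa [abs_div, abs_of_pos (by norm_num : (0 : ℝ) < 2)] at this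
      have k3 : A / L ≤ 1 := (div_le_one hL).2 hAL
      have k4 : ‖R t‖ = ‖∑ n ∈ Finset.Icc 1 ⌊T ^ b'⌋₊, (rn w (Real.log T) n : ℂ) *
        (n : ℂ) ^ (-(t : ℂ) * I)‖ := rfl
      rw [← k4] at h3
      have k5 := abs_nonneg (w 0)
      linarith
    have h6 : SX Z m w L t ^ 2 ≤ ((|w 0| + 1) + ‖PW w b T t‖ + 1 + ‖R t‖) ^ 2 := by
      rw [← sq_abs]
      exact pow_le_pow_left₀ (abs_nonneg _) h5 2
    refine h6.trans ?_
    nlinarith [sq_nonneg ((|w 0| + 1) - ‖PW w b T t‖), sq_nonneg ((|w 0| + 1) - 1),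
      sq_nonneg ((|w 0| + 1) - ‖R t‖), sq_nonneg (‖PW w b T t‖ - 1),
      sq_nonneg (‖PW w b T t‖ - ‖R t‖), sq_nonneg (1 - ‖R t‖)]


/-- a bound for the square of the count -/
lemma Phi_cnt (RH : RiemannHypothesis) {C' : ℝ} (hC' : 0 < C') {h : ℝ} (hh : 20 ≤ h) :
    ∃ T1 : ℝ, 10 ≤ T1 ∧ ∀ T : ℝ, T1 ≤ T → ∃ Φ : ℝ → ℝ, Continuous Φ ∧
      (∀ t, 0 ≤ Φ t) ∧ (∫ t in T..(2 * T), Φ t) ≤ 600 * h ^ 2 * T ∧
      ∀ U1 U2 : ℝ, 1 ≤ U1 → EFD C' T (ordz U1 U2) mu → ∀ t : ℝ, T + Real.log T ≤ t →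
        t ≤ 2 * T - Real.log T →
        (cC U1 U2 t (2 * Real.pi * h / Real.log T) : ℝ) ^ 2 ≤ Φ t := by
  have hpi := Real.pi_pos
  have t2 := two_pi_sq'
  have hh0 : 0 < h := by linarith
  set j := ⌊h⌋₊ with hj
  have hj1 : (j : ℝ) ≤ h := Nat.floor_le hh0.le
  have hj2 : h < j + 1 := Nat.lt_floor_add_one _
  have hj0 : (0 : ℝ) < j := by linarith
  have hj4 : 1 ≤ j := by exact_mod_cast hj0
  set b : ℝ := (j : ℝ) / (2 * h) with hb
  have hb0 : 0 < b := by positivity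
  have hb1 : b ≤ 1 / 2 := by
    rw [hb, div_le_iff₀ (by positivity)]
    linarith
  have hbi : 1 / b ≤ 4 := by
    rw [hb, one_div_div, div_le_iff₀ hj0]
    linarith
  have hby : b * (2 * h) = j := by
    rw [hb]
    field_simp
  set w := sc (Gs (Finset.range (j + 1)) j b) b with hw
  obtain ⟨K', hWt⟩ := sc_wt (Gs_contDiff (Finset.range (j + 1)) j b)
    (Gs_one (Finset.range (j + 1)) j b) hb0 hb1
  have hw0 : w 0 = 2 * (2 * h + 1 / b) := by
    have := maj_zero (j := j) hb0 hby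
    rw [← hw] at this
    linarith
  have hG0 : Gs (Finset.range (j + 1)) j b 0 ≠ 0 := by
    rw [Gs_zero, Finset.card_range]
    positivity
  obtain ⟨hv0, -⟩ := var_bounds (Gs_cont (Finset.range (j + 1)) j b)
    (Gs_one (Finset.range (j + 1)) j b) hG0 hb0 hb1 (B := 2 / b * (j + 2)) (fun s h0 h1 => by
      unfold Gs
      rw [abs_mul, abs_of_pos (by positivity : 0 < 2 / b)]
      exact mul_le_mul_of_nonneg_left (hat_abs (by rw [Finset.card_range]) h0 h1) (by positivity))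
  have hv1 := (abs_le.1 (var_sel (σ := 1) (by norm_num) (ker_range j) (by rw [Finset.card_range])
    hj4 hb0 hb1)).2
  obtain ⟨T1, hT1, h1⟩ := SX_L2e hWt hv0 hC'
  obtain ⟨n1, n2⟩ := maj_wt hj4 hb0 hb1 hby
  have ev : ∀ᶠ T : ℝ in atTop, 2 * Real.pi * h ≤ Real.log T :=
    Real.tendsto_log_atTop.eventually_ge_atTop _
  obtain ⟨T2, hT2⟩ := eventually_atTop.1 ev
  refine ⟨max T1 T2, hT1.trans (le_max_left _ _), fun T hT => ?_⟩
  have a1 : T1 ≤ T := (le_max_left _ _).trans hT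
  have a2 := hT2 T ((le_max_right _ _).trans hT)
  have hT10 : 10 ≤ T := hT1.trans a1
  have hT0 : 0 < T := by linarith
  have hL : 0 < Real.log T := Real.log_pos (by linarith)
  obtain ⟨Φ, hΦc, hΦ0, hΦi, hΦs⟩ := h1 T a1
  refine ⟨fun t => 4 * Φ t, by fun_prop, fun t => by have := hΦ0 t; positivity, ?_, ?_⟩
  · rw [intervalIntegral.integral_const_mul]
    have hlj : Real.log j ≤ h := by
      have := Real.log_le_sub_one_of_pos hj0
      linarith
    have hlj0 : 0 ≤ Real.log j := Real.log_nonneg (by exact_mod_cast hj4)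
    have hvv : var w ≤ h + 300 := by
      have : 2 / Real.pi ^ 2 * Real.log j ≤ Real.log j := by nlinarith
      rw [← hw] at hv1
      linarith
    have hib0 : 0 < 1 / b := by positivity
    have hw1 : |w 0| + 1 ≤ 4 * h + 9 := by
      rw [hw0, abs_of_pos (by positivity)]
      linarith
    have hw2 : (|w 0| + 1) ^ 2 ≤ (4 * h + 9) ^ 2 := pow_le_pow_left₀ (by positivity) hw1 2
    have hfin : 4 * (4 * ((|w 0| + 1) ^ 2 + var w + 3)) ≤ 600 * h ^ 2 := by nlinarith
    calc 4 * ∫ t in T..(2 * T), Φ t ≤ 4 * (4 * ((|w 0| + 1) ^ 2 + var w + 3) * T) := by gcongr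
      _ = 4 * (4 * ((|w 0| + 1) ^ 2 + var w + 3)) * T := by ring
      _ ≤ _ := mul_le_mul_of_nonneg_right hfin hT0.le
  · intro U1 U2 hU hE t ht1 ht2
    have h2 := hΦs (ordz U1 U2) mu hE t ht1 ht2
    have h6 := SX_ge RH (U2 := U2) hU (w := w)
        (L := Real.log T) (x0 := Real.pi * (2 * h)) (ρ := 2 * Real.pi * h / Real.log T) (c := 1) hL
        zero_le_one n1 n2 (le_of_eq (by rw [mul_div_cancel₀ _ hL.ne']; ring)) t
    rw [one_mul] at h6
    set ρ := 2 * Real.pi * h / Real.log T with hρ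
    have hρ0 : 0 ≤ ρ := by positivity
    have hρ1 : ρ ≤ 1 := by
      rw [hρ, div_le_one hL]
      exact a2
    have h7 : 1 / 2 ≤ Real.exp (-ρ ^ 2 / 2) := by
      have h8 := Real.add_one_le_exp (-ρ ^ 2 / 2)
      have h9 : ρ ^ 2 ≤ 1 := pow_le_one₀ hρ0 hρ1
      linarith
    have h9 : (0 : ℝ) ≤ cC U1 U2 t ρ := Nat.cast_nonneg _
    have h10 : (cC U1 U2 t ρ : ℝ) ≤ 2 * SX (ordz U1 U2) mu w (Real.log T) t := by nlinarith
    have h11 : (cC U1 U2 t ρ : ℝ) ^ 2 ≤ (2 * SX (ordz U1 U2) mu w (Real.log T) t) ^ 2 :=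
      pow_le_pow_left₀ h9 h10 2
    rw [mul_pow] at h11
    linarith

/-- **upper bound for the number of indices** -/
theorem cnt_up (RH : RiemannHypothesis) {C' : ℝ} (hC' : 0 < C') {h ε : ℝ} (hh : 20 ≤ h)
    (hε : 0 ≤ ε) : ∃ T1 : ℝ, 10 ≤ T1 ∧ ∀ T : ℝ, T1 ≤ T → ∀ U1 U2 : ℝ, 1 ≤ U1 →
      EFD C' T (ordz U1 U2) mu → ∀ (B : Finset ℕ) (E F : Set ℝ), B ⊆ Kx U1 U2 →
      (∀ n ∈ B, T + 2 * Real.log T ≤ ord n ∧ ord n ≤ 2 * T - 2 * Real.log T) →
      (∀ n ∈ B, ∀ t, ord n ≤ t → t ≤ ord n + 2 * Real.pi * h / Real.log T → t ∈ E) →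
      (∀ t, T < t → t ≤ 2 * T → (1 + ε) * h < nC U1 U2 (t - 2 * Real.pi * h / Real.log T) t →
        t ∈ F) →
      ∀ θ : ℝ, 0 < θ → (B.card : ℝ) * (2 * Real.pi * h / Real.log T) ≤
        (1 + ε) * h * ms T E + θ / 2 * (600 * h ^ 2 * T) + 1 / (2 * θ) * ms T F := by
  have hpi := Real.pi_pos
  have hh0 : 0 < h := by linarith
  obtain ⟨T1, hT1, h1⟩ := Phi_cnt RH hC' hh
  have ev : ∀ᶠ T : ℝ in atTop, 2 * Real.pi * h + 1 ≤ Real.log T :=
    Real.tendsto_log_atTop.eventually_ge_atTop _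
  obtain ⟨T2, hT2⟩ := eventually_atTop.1 ev
  refine ⟨max T1 T2, hT1.trans (le_max_left _ _), fun T hT U1 U2 hU hE B E F hBK hBo hBE hF θ hθ => ?_⟩
  have a1 : T1 ≤ T := (le_max_left _ _).trans hT
  have a2 := hT2 T ((le_max_right _ _).trans hT)
  have hT10 : 10 ≤ T := hT1.trans a1
  have hT0 : 0 < T := by linarith
  have hph : 0 < 2 * Real.pi * h := by positivity
  set L := Real.log T with hLd
  have hL : 0 < L := by linarith
  set κ := 2 * Real.pi * h / L with hκ
  have hκ0 : 0 < κ := by positivity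
  have hκ1 : κ ≤ 1 := by
    rw [hκ, div_le_one hL]
    linarith
  obtain ⟨Φ, hΦc, hΦ0, hΦi, hΦs⟩ := h1 T a1
  have hcount : ∀ t, NB B κ t ≤ nC U1 U2 (t - κ) t := by
    intro t
    unfold NB nC
    apply Finset.card_le_card
    intro n hn
    rw [Finset.mem_filter] at hn ⊢
    exact ⟨hBK hn.1, by linarith [hn.2.2], hn.2.1⟩
  have hcount2 : ∀ t, NB B κ t ≤ cC U1 U2 t κ := by
    intro t
    refine (hcount t).trans ?_
    rw [cC_eq]
    unfold nC
    apply Finset.card_le_card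
    intro n hn
    rw [Finset.mem_filter] at hn ⊢
    exact ⟨hn.1, hn.2.1, by linarith [hn.2.2]⟩
  have hNB0 : ∀ t, ¬ (T + L ≤ t ∧ t ≤ 2 * T - L) → NB B κ t = 0 := by
    intro t ht
    unfold NB
    rw [Finset.card_eq_zero, Finset.filter_eq_empty_iff]
    rintro n hn ⟨h1, h2⟩
    obtain ⟨h3, h4⟩ := hBo n hn
    apply ht
    constructor <;> linarith
  set M := ⌊(1 + ε) * h⌋₊ with hM
  have hM1 : (M : ℝ) ≤ (1 + ε) * h := Nat.floor_le (by positivity)
  have hM2 : (1 + ε) * h < M + 1 := Nat.lt_floor_add_one _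
  have key := cover_abs (T := T) (κ := κ) hT0.le hκ0.le (B := B) (fun n hn => by
      obtain ⟨h3, h4⟩ := hBo n hn
      constructor <;> linarith) hBE (Φ := Φ) hΦc hΦ0
    (fun t ht1 ht2 => by
      by_cases h1 : T + L ≤ t ∧ t ≤ 2 * T - L
      · have h2 := hΦs U1 U2 hU hE t h1.1 h1.2
        have h3 : (NB B κ t : ℝ) ≤ cC U1 U2 t κ := by exact_mod_cast hcount2 t
        exact (pow_le_pow_left₀ (Nat.cast_nonneg _) h3 2).trans h2
      · rw [hNB0 t h1]
        have h2 := hΦ0 t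
        have h3 : ((0 : ℕ) : ℝ) ^ 2 = 0 := by norm_num
        rw [h3]
        exact h2) (θ := θ) hθ M
    (F := F) (fun t ht1 ht2 h => by
      apply hF t ht1 ht2
      have h2 : ((M + 1 : ℕ) : ℝ) ≤ nC U1 U2 (t - κ) t := by
        exact_mod_cast h.trans (hcount t)
      push_cast at h2
      linarith)
  refine key.trans ?_
  have hm := ms_nonneg T E
  gcongr

/-- **lower bound for the number of indices** -/
theorem cnt_lo {h ε T U1 U2 : ℝ} (hT : 10 ≤ T) (hh : 0 < h) (hκ1 : 2 * Real.pi * h ≤ Real.log T)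
    (hε1 : ε ≤ 1) (hU1 : T ≤ U1) {B : Finset ℕ} {G : Set ℝ}
    (hG : ∀ t ∈ G, T < t → t ≤ 2 * T - 2 →
      (1 - ε) * h ≤ nO U1 U2 (t - 2 * Real.pi * h / Real.log T) t ∧
      ∀ n ∈ Kx U1 U2, ord n ≤ t → t ≤ ord n + 2 * Real.pi * h / Real.log T → n ∈ B)
    (hB : B ⊆ Kx U1 U2) :
    (1 - ε) * h * (ms T G - 2) ≤ (B.card : ℝ) * (2 * Real.pi * h / Real.log T) := by
  have hpi := Real.pi_pos
  have hT0 : 0 < T := by linarith
  have hL : 0 < Real.log T := Real.log_pos (by linarith)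
  set κ := 2 * Real.pi * h / Real.log T with hκ
  have hκ0 : 0 < κ := by positivity
  have hκ1 : κ ≤ 1 := by
    rw [hκ, div_le_one hL]
    exact hκ1
  set B' := B.filter (fun n => ord n + κ ≤ 2 * T) with hB'
  have h1 := NB_int (T := T) (κ := κ) hT0.le hκ0.le (B := B') (fun n hn => by
    rw [hB', Finset.mem_filter] at hn
    have := (mem_Kx.1 (hB hn.1)).2.1
    exact ⟨by linarith, hn.2⟩)
  set G' : Set ℝ := {t | (1 - ε) * h ≤ NB B' κ t} with hG'
  have mG : MeasurableSet G' := measurableSet_le measurable_const (NB_meas B' κ)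
  have h2 : (1 - ε) * h * ms T G' ≤ ∫ t in Ioc T (2 * T), (NB B' κ t : ℝ) := by
    rw [← ms_ind mG, ← integral_const_mul]
    apply setIntegral_mono_on (ind_int T mG _)
    · simp_rw [NB_eq]
      apply integrable_finsetSum
      intro n _
      exact (integrable_const (1 : ℝ)).indicator measurableSet_Icc
    · exact measurableSet_Ioc
    · intro t _
      by_cases h3 : t ∈ G'
      · rw [indicator_of_mem h3, mul_one]
        exact h3
      · rw [indicator_of_notMem h3, mul_zero]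
        exact Nat.cast_nonneg _
  have h3 : ms T G ≤ ms T G' + 2 := by
    have h4 : ms T G ≤ ms T G' + ms T (Ioc (2 * T - 2) (2 * T)) := by
      apply ms_union_of
      intro t ht1 ht2 htG
      rcases le_or_gt t (2 * T - 2) with h5 | h5
      · left
        obtain ⟨g1, g2⟩ := hG t htG ht1 h5
        show (1 - ε) * h ≤ NB B' κ t
        refine g1.trans ?_
        have h6 : nO U1 U2 (t - κ) t ≤ NB B' κ t := by
          unfold nO NB
          apply Finset.card_le_card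
          intro n hn
          rw [Finset.mem_filter] at hn ⊢
          obtain ⟨k1, k2, k3⟩ := hn
          refine ⟨?_, k3.le, by linarith⟩
          rw [hB', Finset.mem_filter]
          exact ⟨g2 n k1 k3.le (by linarith), by linarith⟩
        exact_mod_cast h6
      · right
        exact ⟨h5, ht2⟩
    have h5 : ms T (Ioc (2 * T - 2) (2 * T)) ≤ 2 := by
      have := ms_Ioc_le (T := T) (a := 2 * T - 2) (b := 2 * T) (by linarith)
      linarith
    linarith
  rw [h1] at h2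
  have h4 : (B'.card : ℝ) ≤ B.card := by
    exact_mod_cast Finset.card_le_card (Finset.filter_subset _ _)
  have h5 : 0 ≤ (1 - ε) * h := mul_nonneg (by linarith) hh.le
  calc (1 - ε) * h * (ms T G - 2) ≤ (1 - ε) * h * ms T G' :=
        mul_le_mul_of_nonneg_left (by linarith) h5
    _ ≤ B'.card * κ := h2
    _ ≤ B.card * κ := mul_le_mul_of_nonneg_right h4 hκ0.le

end Pool.Agent.T9h26.TD
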