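import Pool.Agent.T9h26.TD.Kj

set_option autoImplicit false

/-! The measure of the exceptional set. -/

open Complex Filter Topology Set MeasureTheory

namespace Pool.Agent.T9h26.TD

open TC (ordz ordT mu EFD)
open SG (ord NZ zmult ZS)
open W200.HW (Ix mem_Ix)
open Pool.Agent.Y747 (al dl Bx mem_Bx Jx mem_Jx)

/-- the good points -/
def Good (w0 : ℝ → ℝ) (b0 T U1 U2 y D h lam ε t : ℝ) : Prop :=
  Gd U1 U2 t (2 * Real.pi * h / Real.log T) (t + 2 * Real.pi * y / Real.log T)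
    (2 * Real.pi * (h + 1) / Real.log T) (2 * Real.pi * (lam + 1) / Real.log T)
    (2 * Real.pi * (lam - 1 - h) / Real.log T) (Real.exp (-(Real.pi * y / Real.log T) ^ 2 / 2)) y
    (PW w0 b0 T (t + Real.pi * y / Real.log T)).re D h lam ε

lemma ms_eight {T : ℝ} {S A1 A2 A3 A4 A5 A6 A7 A8 : Set ℝ} {x : ℝ}
    (h1 : ms T A1 ≤ x) (h2 : ms T A2 ≤ x) (h3 : ms T A3 ≤ x) (h4 : ms T A4 ≤ x)
    (h5 : ms T A5 ≤ x) (h6 : ms T A6 ≤ x) (h7 : ms T A7 ≤ x) (h8 : ms T A8 ≤ x)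
    (h : ∀ t ∈ S, t ∈ A1 ∨ t ∈ A2 ∨ t ∈ A3 ∨ t ∈ A4 ∨ t ∈ A5 ∨ t ∈ A6 ∨ t ∈ A7 ∨ t ∈ A8) :
    ms T S ≤ 8 * x := by
  have k7 := ms_union T A7 A8
  have k6 := ms_union T A6 (A7 ∪ A8)
  have k5 := ms_union T A5 (A6 ∪ (A7 ∪ A8))
  have k4 := ms_union T A4 (A5 ∪ (A6 ∪ (A7 ∪ A8)))
  have k3 := ms_union T A3 (A4 ∪ (A5 ∪ (A6 ∪ (A7 ∪ A8))))
  have k2 := ms_union T A2 (A3 ∪ (A4 ∪ (A5 ∪ (A6 ∪ (A7 ∪ A8)))))
  have k1 := ms_union T A1 (A2 ∪ (A3 ∪ (A4 ∪ (A5 ∪ (A6 ∪ (A7 ∪ A8))))))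
  have k0 : ms T S ≤ ms T (A1 ∪ (A2 ∪ (A3 ∪ (A4 ∪ (A5 ∪ (A6 ∪ (A7 ∪ A8))))))) := by
    apply ms_mono
    intro t _ _ ht
    simpa only [Set.mem_union] using h t ht
  linarith

lemma ms_sh {T x s : ℝ} {F : Set ℝ} (h : ms T F ≤ x) (hs : |s| ≤ 1) :
    ms T {t | t + s ∈ F} ≤ x + 1 := (ms_shift_abs s F).trans (by linarith)

/-- **the measure of the exceptional set** -/
theorem bad_msK (RH : RiemannHypothesis) {C' : ℝ} (hC' : 0 < C') {ε : ℝ} (hε : 0 < ε)
    (hε1 : ε ≤ 1 / 10) : ∃ A r0 : ℝ, 1 ≤ A ∧ 10 ≤ r0 ∧ ∀ r : ℝ, r0 ≤ r → ∀ y : ℝ, r / 2 ≤ y →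
      y ≤ 2 * r →
      ∃ (w0 : ℝ → ℝ) (b0 : ℝ) (K0 : NNReal) (J m : ℕ), Wt w0 b0 K0 ∧ (J : ℝ) * b0 < 1 ∧
        2 * m ≤ J ∧ |var w0 - Vr r| ≤ ε * Vr r ∧
        (var w0 / 4) ^ m / m.factorial ≤ Real.exp (-(Real.log r / 4)) ∧
        ∀ h lam : ℝ, A * Real.log (Real.log r) ≤ h → 2 * h + 1 ≤ lam →
        ∃ T1 : ℝ, 10 ≤ T1 ∧ ∀ T : ℝ, T1 ≤ T → ∀ U1 U2 : ℝ, 1 ≤ U1 → EFD C' T (ordz U1 U2) mu →
          ms T {t | ¬ Good w0 b0 T U1 U2 y (Real.log (Real.log r)) h lam ε t} ≤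
            9 * Real.exp (-(8 * Real.log (Real.log r))) * T := by
  have hpi := Real.pi_pos
  obtain ⟨c, μ0, hc, hμ0, hthin⟩ := thin RH hC' hε
  obtain ⟨r1, hr1, hmain⟩ := main_ap RH hC' hε hε1
  have ev1 : ∀ᶠ r : ℝ in atTop, 1 ≤ Real.log (Real.log r) :=
    (Real.tendsto_log_atTop.comp Real.tendsto_log_atTop).eventually_ge_atTop 1
  obtain ⟨r2, hr2⟩ := eventually_atTop.1 ev1
  refine ⟨max μ0 (8 / c), max r1 r2, hμ0.trans (le_max_left _ _), hr1.trans (le_max_left _ _),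
    fun r hr y hy1 hy2 => ?_⟩
  have hD1 := hr2 r ((le_max_right _ _).trans hr)
  have hr10 : 10 ≤ r := (hr1.trans (le_max_left _ _)).trans hr
  obtain ⟨w0, b0, K0, J, m, hW, hJ, hm, hv, hv2, T1, hT1, hmn⟩ :=
    hmain r ((le_max_left _ _).trans hr) y hy1 hy2
  refine ⟨w0, b0, K0, J, m, hW, hJ, hm, hv, hv2, fun h lam hh hlam => ?_⟩
  set D := Real.log (Real.log r) with hD
  have hA1 : μ0 * D ≤ h := le_trans (mul_le_mul_of_nonneg_right (le_max_left _ _) (by linarith)) hh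
  have hA2 : 8 / c * D ≤ h := le_trans (mul_le_mul_of_nonneg_right (le_max_right _ _) (by linarith)) hh
  have hhμ : μ0 ≤ h := by nlinarith
  have hh1 : 1 ≤ h := hμ0.trans hhμ
  have hch : ∀ μ' : ℝ, h ≤ μ' → Real.exp (-(c * μ')) ≤ Real.exp (-(8 * D)) := by
    intro μ' hμ'
    apply Real.exp_le_exp.2
    rw [div_mul_eq_mul_div, div_le_iff₀ hc] at hA2
    nlinarith
  obtain ⟨T2, hT2, th1⟩ := hthin h hhμ
  obtain ⟨T3, hT3, th2⟩ := hthin (h + 1) (by linarith)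
  obtain ⟨T4, hT4, th3⟩ := hthin (lam + 1) (by linarith)
  obtain ⟨T5, hT5, th4⟩ := hthin (lam - 1 - h) (by linarith)
  have ev2 : ∀ᶠ T : ℝ in atTop, 8 * (y + lam + h + 2) ≤ Real.log T ∧ 8 * Real.exp (8 * D) ≤ T :=
    (Real.tendsto_log_atTop.eventually_ge_atTop _).and (eventually_ge_atTop _)
  obtain ⟨T6, hT6⟩ := eventually_atTop.1 ev2
  refine ⟨max (max T1 T2) (max (max T3 T4) (max T5 T6)),
    hT1.trans ((le_max_left _ _).trans (le_max_left _ _)), fun T hT U1 U2 hU hE => ?_⟩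
  have a1 : T1 ≤ T := ((le_max_left _ _).trans (le_max_left _ _)).trans hT
  have a2 : T2 ≤ T := ((le_max_right _ _).trans (le_max_left _ _)).trans hT
  have a3 : T3 ≤ T := (((le_max_left _ _).trans (le_max_left _ _)).trans (le_max_right _ _)).trans hT
  have a4 : T4 ≤ T := (((le_max_right _ _).trans (le_max_left _ _)).trans (le_max_right _ _)).trans hT
  have a5 : T5 ≤ T := (((le_max_left _ _).trans (le_max_right _ _)).trans (le_max_right _ _)).trans hT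
  have a6 : T6 ≤ T := (((le_max_right _ _).trans (le_max_right _ _)).trans (le_max_right _ _)).trans hT
  obtain ⟨b1, b2⟩ := hT6 T a6
  have hT10 : 10 ≤ T := hT1.trans a1
  have hT0 : 0 < T := by linarith
  have hy0 : 0 < y := by linarith
  set L := Real.log T with hL
  have hL0 : 0 < L := by linarith
  have hπ4 := Real.pi_lt_four
  have hshift : ∀ s : ℝ, |s| ≤ 2 * (y + lam + h + 2) → |Real.pi * s / L| ≤ 1 := by
    intro s hs
    rw [abs_div, abs_mul, abs_of_pos hpi, abs_of_pos hL0, div_le_one hL0]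
    nlinarith [abs_nonneg s]
  set x := Real.exp (-(8 * D)) * T with hx
  have hx1 : 8 ≤ x := by
    rw [hx, Real.exp_neg]
    have h3 : (Real.exp (8 * D))⁻¹ * (8 * Real.exp (8 * D)) ≤ (Real.exp (8 * D))⁻¹ * T := by
      gcongr
    have h4 : (Real.exp (8 * D))⁻¹ * (8 * Real.exp (8 * D)) = 8 := by
      have := (Real.exp_pos (8 * D)).ne'
      field_simp
    linarith
  obtain ⟨p1, p2⟩ := hmn T a1 U1 U2 hU hE
  obtain ⟨q1, q2⟩ := th1 T a2 U1 U2 hU hE
  obtain ⟨q3, -⟩ := th2 T a3 U1 U2 hU hE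
  obtain ⟨q4, -⟩ := th3 T a4 U1 U2 hU hE
  obtain ⟨-, q5⟩ := th4 T a5 U1 U2 hU hE
  have hx2 : ∀ μ' : ℝ, h ≤ μ' → Real.exp (-(c * μ')) * T ≤ x := fun μ' hμ' =>
    mul_le_mul_of_nonneg_right (hch μ' hμ') hT0.le
  have c1 := ms_sh (s := Real.pi * y / L) p1 (hshift y (by rw [abs_of_pos hy0]; linarith))
  have c2 := ms_sh (s := Real.pi * y / L) p2 (hshift y (by rw [abs_of_pos hy0]; linarith))
  have c3 := ms_sh (s := Real.pi * (-h) / L) (q1.trans (hx2 h le_rfl))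
    (hshift (-h) (by rw [abs_neg, abs_of_pos (by linarith)]; linarith))
  have c4 := ms_sh (s := Real.pi * (-h) / L) (q2.trans (hx2 h le_rfl))
    (hshift (-h) (by rw [abs_neg, abs_of_pos (by linarith)]; linarith))
  have c5 := ms_sh (s := Real.pi * (2 * y - (h + 1)) / L) (q3.trans (hx2 (h + 1) (by linarith)))
    (hshift _ (by rw [abs_le]; constructor <;> linarith))
  have c6 := ms_sh (s := Real.pi * (2 * y + (h + 1)) / L) (q3.trans (hx2 (h + 1) (by linarith)))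
    (hshift _ (by rw [abs_le]; constructor <;> linarith))
  have c7 := ms_sh (s := Real.pi * (2 * y + (lam + 1)) / L) (q4.trans (hx2 (lam + 1) (by linarith)))
    (hshift _ (by rw [abs_le]; constructor <;> linarith))
  have c8 := ms_sh (s := Real.pi * (2 * y + (lam - 1 - h)) / L)
    (q5.trans (hx2 (lam - 1 - h) (by linarith)))
    (hshift _ (by rw [abs_le]; constructor <;> linarith))
  have key := ms_eight (S := {t | ¬ Good w0 b0 T U1 U2 y D h lam ε t}) c1 c2 c3 c4 c5 c6 c7 c8 (by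
    intro t ht
    by_contra hc
    apply ht
    simp only [not_or] at hc
    obtain ⟨d1, d2, d3, d4, d5, d6, d7, d8⟩ := hc
    have f1 : ¬ (y - (PW w0 b0 T (t + Real.pi * y / L)).re + 25 * D <
        cC U1 U2 (t + Real.pi * y / L) (Real.pi * y / L) *
          Real.exp (-(Real.pi * y / L) ^ 2 / 2)) := d1
    have f2 : ¬ ((cO U1 U2 (t + Real.pi * y / L) (Real.pi * y / L) : ℝ) <
        y - (PW w0 b0 T (t + Real.pi * y / L)).re - 25 * D) := d2
    have f3 : ¬ ((1 + ε) * h < cC U1 U2 (t + Real.pi * (-h) / L) (Real.pi * h / L)) := d3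
    have f4 : ¬ ((cO U1 U2 (t + Real.pi * (-h) / L) (Real.pi * h / L) : ℝ) < (1 - ε) * h) := d4
    have f5 : ¬ ((1 + ε) * (h + 1) < cC U1 U2 (t + Real.pi * (2 * y - (h + 1)) / L)
      (Real.pi * (h + 1) / L)) := d5
    have f6 : ¬ ((1 + ε) * (h + 1) < cC U1 U2 (t + Real.pi * (2 * y + (h + 1)) / L)
      (Real.pi * (h + 1) / L)) := d6
    have f7 : ¬ ((1 + ε) * (lam + 1) < cC U1 U2 (t + Real.pi * (2 * y + (lam + 1)) / L)
      (Real.pi * (lam + 1) / L)) := d7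
    have f8 : ¬ ((cO U1 U2 (t + Real.pi * (2 * y + (lam - 1 - h)) / L)
      (Real.pi * (lam - 1 - h) / L) : ℝ) < (1 - ε) * (lam - 1 - h)) := d8
    rw [cC_eq, not_lt] at f1 f3 f5 f6 f7
    rw [cO_eq, not_lt] at f2 f4 f8
    unfold Good
    rw [← hL]
    refine ⟨?_, ?_, ?_, ?_, ?_, ?_, ?_, ?_⟩
    · rwa [show t + Real.pi * y / L - Real.pi * y / L = t by ring,
        show t + Real.pi * y / L + Real.pi * y / L = t + 2 * Real.pi * y / L by ring] at f1
    · rwa [show t + Real.pi * y / L - Real.pi * y / L = t by ring,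
        show t + Real.pi * y / L + Real.pi * y / L = t + 2 * Real.pi * y / L by ring] at f2
    · rwa [show t + Real.pi * (-h) / L - Real.pi * h / L = t - 2 * Real.pi * h / L by ring,
        show t + Real.pi * (-h) / L + Real.pi * h / L = t by ring] at f3
    · rwa [show t + Real.pi * (-h) / L - Real.pi * h / L = t - 2 * Real.pi * h / L by ring,
        show t + Real.pi * (-h) / L + Real.pi * h / L = t by ring] at f4
    · rwa [show t + Real.pi * (2 * y - (h + 1)) / L - Real.pi * (h + 1) / L =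
          t + 2 * Real.pi * y / L - 2 * Real.pi * (h + 1) / L by ring,
        show t + Real.pi * (2 * y - (h + 1)) / L + Real.pi * (h + 1) / L =
          t + 2 * Real.pi * y / L by ring] at f5
    · rwa [show t + Real.pi * (2 * y + (h + 1)) / L - Real.pi * (h + 1) / L =
          t + 2 * Real.pi * y / L by ring,
        show t + Real.pi * (2 * y + (h + 1)) / L + Real.pi * (h + 1) / L =
          t + 2 * Real.pi * y / L + 2 * Real.pi * (h + 1) / L by ring] at f6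
    · rwa [show t + Real.pi * (2 * y + (lam + 1)) / L - Real.pi * (lam + 1) / L =
          t + 2 * Real.pi * y / L by ring,
        show t + Real.pi * (2 * y + (lam + 1)) / L + Real.pi * (lam + 1) / L =
          t + 2 * Real.pi * y / L + 2 * Real.pi * (lam + 1) / L by ring] at f7
    · rwa [show t + Real.pi * (2 * y + (lam - 1 - h)) / L - Real.pi * (lam - 1 - h) / L =
          t + 2 * Real.pi * y / L by ring,
        show t + Real.pi * (2 * y + (lam - 1 - h)) / L + Real.pi * (lam - 1 - h) / L =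
          t + 2 * Real.pi * y / L + 2 * Real.pi * (lam - 1 - h) / L by ring] at f8)
  have e9 : 9 * Real.exp (-(8 * D)) * T = 9 * x := by rw [hx]; ring
  rw [e9]
  linarith

end Pool.Agent.T9h26.TD
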