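import Pool.Agent.T9h26.TD.Kk

set_option autoImplicit false

/-! Numerical comparison of the main terms. -/

open Complex Filter Topology Set MeasureTheory

namespace Pool.Agent.T9h26.TD

lemma two_mul_le_exp_sq (s : ℝ) : |2 * s| * Real.exp (-s ^ 2) ≤ 1 := by
  rw [Real.exp_neg, ← div_eq_mul_inv, div_le_one (Real.exp_pos _)]
  have h1 := Real.add_one_le_exp (s ^ 2)
  have h2 : |2 * s| ≤ s ^ 2 + 1 := by
    rw [abs_mul, abs_two]
    nlinarith [sq_nonneg (|s| - 1), sq_abs s]
  linarith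

lemma exp_sq_deriv (s : ℝ) : HasDerivAt (fun s : ℝ => Real.exp (-s ^ 2))
    (-(2 * s) * Real.exp (-s ^ 2)) s := by
  have h1 : HasDerivAt (fun s : ℝ => -s ^ 2) (-(2 * s)) s := by
    have := (hasDerivAt_pow 2 s).fun_neg
    simpa using this
  have h2 := h1.exp
  rwa [mul_comm] at h2

lemma exp_sq_lip (u w : ℝ) : |Real.exp (-u ^ 2) - Real.exp (-w ^ 2)| ≤ |u - w| := by
  have m1 : Monotone fun s : ℝ => s + Real.exp (-s ^ 2) := by
    apply monotone_of_deriv_nonneg
    · exact fun s => ((hasDerivAt_id' s).fun_add (exp_sq_deriv s)).differentiableAt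
    · intro s
      rw [((hasDerivAt_id' s).fun_add (exp_sq_deriv s)).deriv]
      have h1 := two_mul_le_exp_sq s
      have h2 : 2 * s * Real.exp (-s ^ 2) ≤ |2 * s| * Real.exp (-s ^ 2) :=
        mul_le_mul_of_nonneg_right (le_abs_self _) (Real.exp_pos _).le
      linarith
  have m2 : Monotone fun s : ℝ => s - Real.exp (-s ^ 2) := by
    apply monotone_of_deriv_nonneg
    · exact fun s => ((hasDerivAt_id' s).fun_sub (exp_sq_deriv s)).differentiableAt
    · intro s
      rw [((hasDerivAt_id' s).fun_sub (exp_sq_deriv s)).deriv]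
      have h1 := two_mul_le_exp_sq s
      have h2 : -(2 * s) * Real.exp (-s ^ 2) ≤ |2 * s| * Real.exp (-s ^ 2) :=
        mul_le_mul_of_nonneg_right (neg_le_abs _) (Real.exp_pos _).le
      linarith
  rcases le_total u w with h | h
  · have h1 := m1 h
    have h2 := m2 h
    simp only at h1 h2
    rw [abs_of_nonpos (by linarith : u - w ≤ 0), abs_le]
    constructor <;> linarith
  · have h1 := m1 h
    have h2 := m2 h
    simp only at h1 h2
    rw [abs_of_nonneg (by linarith : 0 ≤ u - w), abs_le]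
    constructor <;> linarith

lemma mul_exp_neg_le (x : ℝ) : x * Real.exp (-x) ≤ 1 := by
  rw [Real.exp_neg, ← div_eq_mul_inv, div_le_one (Real.exp_pos _)]
  have := Real.add_one_le_exp x
  linarith

lemma exp_neg_sub (p q : ℝ) : Real.exp (-q) - Real.exp (-p) ≤
    (p - q) * Real.exp (-q) := by
  have h1 : Real.exp (-p) = Real.exp (-q) * Real.exp (-(p - q)) := by
    rw [← Real.exp_add]
    congr 1
    ring
  rw [h1]
  have h2 := Real.add_one_le_exp (-(p - q))
  have h3 := Real.exp_pos (-q)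
  nlinarith

/-- change of the variance in the exponential -/
lemma exp_var {x v V ε : ℝ} (hx : 0 ≤ x) (hV : 0 < V) (hε : 0 ≤ ε) (hε1 : ε ≤ 1 / 2)
    (h : |v - V| ≤ ε * V) : |Real.exp (-(x / v)) - Real.exp (-(x / V))| ≤ 2 * ε := by
  obtain ⟨h1, h2⟩ := abs_le.1 h
  have hv : 0 < v := by nlinarith
  have hxv : 0 ≤ x / v := by positivity
  have hxV : 0 ≤ x / V := by positivity
  have e : x / v - x / V = x / V * ((V - v) / v) := by
    field_simp
  have e' : x / V - x / v = x / v * ((v - V) / V) := by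
    field_simp
  rcases le_total (x / v) (x / V) with h3 | h3
  · have h4 := exp_neg_sub (x / V) (x / v)
    have h5 : Real.exp (-(x / V)) ≤ Real.exp (-(x / v)) := Real.exp_le_exp.2 (by linarith)
    rw [abs_of_nonneg (by linarith)]
    have h6 : x / V - x / v ≤ x / v * ε := by
      rw [e']
      apply mul_le_mul_of_nonneg_left _ hxv
      rw [div_le_iff₀ hV]
      linarith
    have h7 := mul_exp_neg_le (x / v)
    have h8 := Real.exp_pos (-(x / v))
    calc _ ≤ (x / V - x / v) * Real.exp (-(x / v)) := h4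
      _ ≤ (x / v * ε) * Real.exp (-(x / v)) := mul_le_mul_of_nonneg_right h6 h8.le
      _ = ε * (x / v * Real.exp (-(x / v))) := by ring
      _ ≤ ε * 1 := mul_le_mul_of_nonneg_left h7 hε
      _ ≤ _ := by linarith
  · have h4 := exp_neg_sub (x / v) (x / V)
    have h5 : Real.exp (-(x / v)) ≤ Real.exp (-(x / V)) := Real.exp_le_exp.2 (by linarith)
    rw [abs_of_nonpos (by linarith)]
    have h6 : x / v - x / V ≤ x / V * (2 * ε) := by
      rw [e]
      apply mul_le_mul_of_nonneg_left _ hxV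
      rw [div_le_iff₀ hv]
      nlinarith
    have h7 := mul_exp_neg_le (x / V)
    have h8 := Real.exp_pos (-(x / V))
    calc _ ≤ (x / v - x / V) * Real.exp (-(x / V)) := by linarith
      _ ≤ (x / V * (2 * ε)) * Real.exp (-(x / V)) := mul_le_mul_of_nonneg_right h6 h8.le
      _ = 2 * ε * (x / V * Real.exp (-(x / V))) := by ring
      _ ≤ 2 * ε * 1 := mul_le_mul_of_nonneg_left h7 (by linarith)
      _ = _ := by ring

/-- change of the variance in the square root -/
lemma sqrt_var {v V ε : ℝ} (hV : 0 < V) (hε : 0 ≤ ε) (hε1 : ε ≤ 1 / 2)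
    (h : |v - V| ≤ ε * V) :
    |Real.sqrt (Real.pi / v) - Real.sqrt (Real.pi / V)| ≤ 2 * ε * Real.sqrt (Real.pi / V) := by
  have hpi := Real.pi_pos
  obtain ⟨h1, h2⟩ := abs_le.1 h
  have hv : 0 < v := by nlinarith
  set A := Real.sqrt (Real.pi / v) with hA
  set B := Real.sqrt (Real.pi / V) with hB
  have hA0 : 0 < A := Real.sqrt_pos.2 (by positivity)
  have hB0 : 0 < B := Real.sqrt_pos.2 (by positivity)
  have hA2 : A ^ 2 = Real.pi / v := Real.sq_sqrt (by positivity)
  have hB2 : B ^ 2 = Real.pi / V := Real.sq_sqrt (by positivity)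
  have e : (A - B) * (A + B) = B ^ 2 * ((V - v) / v) := by
    have : (A - B) * (A + B) = A ^ 2 - B ^ 2 := by ring
    rw [this, hA2, hB2]
    field_simp
  have h3 : |(V - v) / v| ≤ 2 * ε := by
    rw [abs_div, abs_of_pos hv, div_le_iff₀ hv, abs_sub_comm]
    nlinarith
  have h4 : |A - B| * (A + B) ≤ 2 * ε * B * (A + B) := by
    have h5 : |A - B| * (A + B) = |(A - B) * (A + B)| := by
      rw [abs_mul, abs_of_pos (by positivity : 0 < A + B)]
    rw [h5, e, abs_mul, abs_of_pos (by positivity : 0 < B ^ 2)]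
    calc B ^ 2 * |(V - v) / v| ≤ B ^ 2 * (2 * ε) := by gcongr
      _ ≤ 2 * ε * B * (A + B) := by
        have : 0 ≤ 2 * ε * B * A := by positivity
        nlinarith
  exact le_of_mul_le_mul_right h4 (by positivity)

/-- the Gaussian density of the main term -/
noncomputable def gd (ℓ a lam : ℝ) : ℝ :=
  lam * (Real.sqrt (Real.pi / (2 * ℓ)) * Real.exp (-(Real.pi ^ 2 * a ^ 2 / (2 * ℓ))))

lemma sqrt_two_le {ℓ : ℝ} (hℓ : 0 < ℓ) : Real.sqrt (Real.pi / (2 * ℓ)) ≤ 2 / Real.sqrt ℓ := by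
  have hs : 0 < Real.sqrt ℓ := Real.sqrt_pos.2 hℓ
  rw [Real.sqrt_le_left (by positivity), div_pow, Real.sq_sqrt hℓ.le]
  rw [div_le_div_iff₀ (by positivity) hℓ]
  have := Real.pi_lt_four
  nlinarith

/-- **comparison of the main terms** -/
lemma main_close {ℓ v a lam κ ε : ℝ} (hℓ : 1 ≤ ℓ) (hε : 0 < ε) (hε1 : ε ≤ 1 / 100)
    (hv : |v - 2 / Real.pi ^ 2 * ℓ| ≤ ε * (2 / Real.pi ^ 2 * ℓ)) (hlam : 0 < lam)
    (hls : 2 * lam ≤ ε * Real.sqrt ℓ) (hκ : |κ| ≤ 14 * ε) :
    |lam * (1 + κ) / Real.pi * (Real.sqrt (Real.pi / v) * Real.exp (-((a + lam / 2) ^ 2 / v))) -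
      gd ℓ a lam| ≤ 50 * ε * (lam / Real.sqrt ℓ) := by
  have hpi := Real.pi_gt_three
  have hpi0 := Real.pi_pos
  have hpi4 := Real.pi_lt_d2
  set s := Real.sqrt ℓ with hs
  have hs0 : 0 < s := Real.sqrt_pos.2 (by linarith)
  have hs2 : s ^ 2 = ℓ := Real.sq_sqrt (by linarith)
  set V := 2 / Real.pi ^ 2 * ℓ with hV
  have hV0 : 0 < V := by positivity
  obtain ⟨v1, v2⟩ := abs_le.1 hv
  have hv0 : 0 < v := by nlinarith
  -- the exponentials
  have hVl : ℓ / 5 ≤ V := by
    have := two_pi_sq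
    rw [hV]
    nlinarith
  have hvl : s ^ 2 / 6 ≤ v := by
    rw [hs2]
    nlinarith
  have hsv : s / 3 ≤ Real.sqrt v := by
    apply Real.le_sqrt_of_sq_le
    nlinarith
  have hsv0 : 0 < Real.sqrt v := Real.sqrt_pos.2 hv0
  have e1 : |Real.exp (-((a + lam / 2) ^ 2 / v)) - Real.exp (-(a ^ 2 / v))| ≤ ε := by
    have h1 := exp_sq_lip ((a + lam / 2) / Real.sqrt v) (a / Real.sqrt v)
    rw [div_pow, div_pow, Real.sq_sqrt hv0.le] at h1
    refine h1.trans ?_
    rw [← sub_div, show a + lam / 2 - a = lam / 2 by ring, abs_of_pos (by positivity),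
      div_le_iff₀ hsv0]
    nlinarith
  have e2 := exp_var (x := a ^ 2) (sq_nonneg a) hV0 hε.le (by linarith) hv
  have e3 := sqrt_var hV0 hε.le (by linarith) hv
  set E1 := Real.exp (-((a + lam / 2) ^ 2 / v)) with hE1
  set E2 := Real.exp (-(a ^ 2 / v))
  set E0 := Real.exp (-(a ^ 2 / V)) with hE0
  have hE10 : 0 < E1 := Real.exp_pos _
  have hE11 : E1 ≤ 1 := Real.exp_le_one_iff.2 (by
    have : 0 ≤ (a + lam / 2) ^ 2 / v := by positivity
    linarith)
  have e4 : |E1 - E0| ≤ 3 * ε := by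
    have := abs_sub_le E1 E2 E0
    linarith
  set g0 := Real.sqrt (Real.pi / (2 * ℓ)) with hg0
  have hg00 : 0 < g0 := Real.sqrt_pos.2 (by positivity)
  have hg1 : Real.sqrt (Real.pi / V) = Real.pi * g0 := by
    rw [hg0, hV]
    have : Real.pi / (2 / Real.pi ^ 2 * ℓ) = Real.pi ^ 2 * (Real.pi / (2 * ℓ)) := by
      field_simp
    rw [this, Real.sqrt_mul (by positivity), Real.sqrt_sq hpi0.le]
  rw [hg1] at e3
  set G := Real.sqrt (Real.pi / v) with hG
  have e5 : |G / Real.pi - g0| ≤ 2 * ε * g0 := by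
    have h1 : G / Real.pi - g0 = (G - Real.pi * g0) / Real.pi := by field_simp
    rw [h1, abs_div, abs_of_pos hpi0, div_le_iff₀ hpi0]
    linarith
  have hgd : gd ℓ a lam = lam * (g0 * E0) := by
    unfold gd
    rw [hE0, hV]
    congr 3
    congr 1
    field_simp
  rw [hgd]
  -- combination
  set q := G / Real.pi with hq
  have e6 : lam * (1 + κ) / Real.pi * (G * E1) - lam * (g0 * E0) =
      lam * (κ * q * E1 + (q - g0) * E1 + g0 * (E1 - E0)) := by
    rw [hq]
    field_simp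
    ring
  rw [e6, abs_mul, abs_of_pos hlam]
  obtain ⟨f1, f2⟩ := abs_le.1 e5
  have hq1 : q ≤ 2 * g0 := by nlinarith
  have hq0 : 0 ≤ q := by nlinarith
  have b1 : |κ * q * E1| ≤ 14 * ε * (102 / 100 * g0) := by
    rw [abs_mul, abs_mul, abs_of_nonneg hq0, abs_of_pos hE10]
    have hq2 : q ≤ 102 / 100 * g0 := by nlinarith
    calc |κ| * q * E1 ≤ 14 * ε * (102 / 100 * g0) * 1 := by gcongr
      _ = _ := mul_one _
  have b2 : |(q - g0) * E1| ≤ 2 * ε * g0 := by
    rw [abs_mul, abs_of_pos hE10]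
    calc |q - g0| * E1 ≤ 2 * ε * g0 * 1 := by gcongr
      _ = _ := mul_one _
  have b3 : |g0 * (E1 - E0)| ≤ g0 * (3 * ε) := by
    rw [abs_mul, abs_of_pos hg00]
    gcongr
  have b4 := abs_add_le (κ * q * E1 + (q - g0) * E1) (g0 * (E1 - E0))
  have b5 := abs_add_le (κ * q * E1) ((q - g0) * E1)
  have hg2 := sqrt_two_le (show 0 < ℓ by linarith)
  rw [← hg0, ← hs] at hg2
  have b6 : |κ * q * E1 + (q - g0) * E1 + g0 * (E1 - E0)| ≤ 20 * ε * g0 := by
    nlinarith
  calc lam * |κ * q * E1 + (q - g0) * E1 + g0 * (E1 - E0)| ≤ lam * (20 * ε * g0) := by gcongr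
    _ ≤ lam * (20 * ε * (2 / s)) := by gcongr
    _ = 40 * ε * (lam / s) := by ring
    _ ≤ _ := by
      have : 0 ≤ ε * (lam / s) := by positivity
      linarith

end Pool.Agent.T9h26.TD
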