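import Pool.Agent.T9h26.TD.Kl

set_option autoImplicit false

/-! The local limit theorem in a block: preparations. -/

open Complex Filter Topology Set MeasureTheory

namespace Pool.Agent.T9h26.TD

open TC (ordz ordT mu EFD)
open SG (ord NZ zmult ZS)
open W200.HW (Ix mem_Ix)
open Pool.Agent.Y747 (al dl Bx mem_Bx Jx mem_Jx)

/-- a short sum of gaps -/
lemma shortS {r n : ℕ} (hn : 1 ≤ n) {T x : ℝ} (hT : 10 ≤ T) (hTn : T ≤ ord n) (hx : 0 ≤ x)
    (hL : 16 * (x + 1) ≤ Real.log T) (h : Sr r n ≤ x + 1 / 4) :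
    ord (n + r) ≤ ord n + 2 * Real.pi * (x + 1) / Real.log T := by
  have hpi := Real.pi_pos
  have hlp := log_two_pi_le
  have hT0 : 0 < T := by linarith
  have hge := Sr_ge (r := r) hn hT0 hTn
  set L := Real.log T with hLd
  have hL0 : 0 < L := by linarith
  rw [Real.log_div hT0.ne' (by positivity), ← hLd] at hge
  have hLl : 0 < L - Real.log (2 * Real.pi) := by linarith
  have h4 : (ord (n + r) - ord n) / (2 * Real.pi) * (L - Real.log (2 * Real.pi)) ≤ x + 1 / 4 :=
    hge.trans h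
  rw [div_mul_eq_mul_div, div_le_iff₀ (by positivity)] at h4
  have h5 : (x + 1 / 4) * L ≤ (x + 1) * (L - Real.log (2 * Real.pi)) := by nlinarith
  have h6 : ord (n + r) - ord n ≤ 2 * Real.pi * (x + 1) / L := by
    rw [le_div_iff₀ hL0]
    have h7 : ((ord (n + r) - ord n) * L) * (L - Real.log (2 * Real.pi)) ≤
        (2 * Real.pi * (x + 1)) * (L - Real.log (2 * Real.pi)) := by
      calc _ = ((ord (n + r) - ord n) * (L - Real.log (2 * Real.pi))) * L := by ring
        _ ≤ ((x + 1 / 4) * (2 * Real.pi)) * L := mul_le_mul_of_nonneg_right h4 hL0.le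
        _ = 2 * Real.pi * ((x + 1 / 4) * L) := by ring
        _ ≤ 2 * Real.pi * ((x + 1) * (L - Real.log (2 * Real.pi))) := by gcongr
        _ = _ := by ring
    exact le_of_mul_le_mul_right h7 hLl
  linarith

/-- a long block gives a long sum of gaps -/
lemma longS {r n : ℕ} (hn : 1 ≤ n) {T x : ℝ} (hT : 10 ≤ T) (hTn : T ≤ ord n) (hx : 0 ≤ x)
    (hL : 16 * (x + 1) ≤ Real.log T)
    (h : ord n + 2 * Real.pi * (x + 1) / Real.log T ≤ ord (n + r)) : x + 1 / 4 ≤ Sr r n := by
  have hpi := Real.pi_pos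
  have hlp := log_two_pi_le
  have hT0 : 0 < T := by linarith
  have hge := Sr_ge (r := r) hn hT0 hTn
  refine le_trans ?_ hge
  set L := Real.log T with hLd
  have hL0 : 0 < L := by linarith
  rw [Real.log_div hT0.ne' (by positivity), ← hLd]
  have hLl : 0 ≤ L - Real.log (2 * Real.pi) := by linarith
  have h5 : 2 * Real.pi * (x + 1) / L / (2 * Real.pi) * (L - Real.log (2 * Real.pi)) ≤
      (ord (n + r) - ord n) / (2 * Real.pi) * (L - Real.log (2 * Real.pi)) := by
    gcongr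
    linarith
  refine le_trans ?_ h5
  have h6 : 2 * Real.pi * (x + 1) / L / (2 * Real.pi) * (L - Real.log (2 * Real.pi)) =
      (x + 1) - (x + 1) * Real.log (2 * Real.pi) / L := by
    field_simp
  rw [h6]
  have h7 : (x + 1) * Real.log (2 * Real.pi) / L ≤ 1 / 8 := by
    rw [div_le_iff₀ hL0]
    nlinarith
  linarith

/-- a short block gives a short sum of gaps -/
lemma shortS2 {r n : ℕ} (hn : 1 ≤ n) {T x : ℝ} (hT : 10 ≤ T) (h0 : ord (n + r) ≤ 2 * T + 1)
    (h : ord (n + r) ≤ ord n + 2 * Real.pi * (x - 1) / Real.log T) : Sr r n ≤ x - 1 / 4 := by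
  have hpi := Real.pi_gt_three
  have hL0 : 0 < Real.log T := Real.log_pos (by linarith)
  have h1 := Sr_le (r := r) hn (show 0 < T by linarith) (by nlinarith)
  refine h1.trans ?_
  have h2 : (ord (n + r) - ord n) / (2 * Real.pi) * Real.log T ≤
      2 * Real.pi * (x - 1) / Real.log T / (2 * Real.pi) * Real.log T := by
    gcongr
    linarith
  have h3 : 2 * Real.pi * (x - 1) / Real.log T / (2 * Real.pi) * Real.log T = x - 1 := by
    field_simp
  linarith

/-- **the local law of the field, one interval** -/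
lemma X_ms {w0 : ℝ → ℝ} {b0 : ℝ} {K0 : NNReal} (hW : Wt w0 b0 K0) {J m : ℕ}
    (hJ : (J : ℝ) * b0 < 1) (hm : 2 * m ≤ J) {ℓ a lam κ e : ℝ} (hℓ : 1 ≤ ℓ) (he : 0 < e)
    (he1 : e ≤ 1 / 100)
    (hv : |var w0 - 2 / Real.pi ^ 2 * ℓ| ≤ e * (2 / Real.pi ^ 2 * ℓ))
    (htay : (var w0 / 4) ^ m / m.factorial ≤ Real.exp (-(ℓ / 4)))
    (hexp : 4 * Real.sqrt ℓ * Real.exp (-(ℓ / 4)) ≤ e) (hlam : 400 / e ≤ lam)
    (hls : 6 * lam ≤ e * Real.sqrt ℓ) (hκ : |κ| ≤ 14 * e) :
    ∀ᶠ T : ℝ in atTop, |ms T {t | |(PW w0 b0 T t).re - (a + lam / 2)| ≤ lam * (1 + κ) / 2} -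
      gd ℓ a lam * T| ≤ 60 * e * (lam / Real.sqrt ℓ) * T := by
  have hpi := Real.pi_gt_three
  have hpi0 := Real.pi_pos
  have hpi4 := Real.pi_lt_d2
  obtain ⟨k1, k2⟩ := abs_le.1 hκ
  have hlam0 : 40000 ≤ lam := by
    have : 40000 ≤ 400 / e := by
      rw [le_div_iff₀ he]
      linarith
    linarith
  set s := Real.sqrt ℓ with hs
  have hs1 : 1 ≤ s := Real.one_le_sqrt.2 hℓ
  have hs0 : 0 < s := by linarith
  have hs2 : s ^ 2 = ℓ := Real.sq_sqrt (by linarith)
  set v := var w0 with hvd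
  set V := 2 / Real.pi ^ 2 * ℓ with hV
  have hV0 : 0 < V := by positivity
  obtain ⟨v1, v2⟩ := abs_le.1 hv
  have hVl : ℓ / 5 ≤ V := by
    have := two_pi_sq
    rw [hV]
    nlinarith
  have hvl : s ^ 2 / 6 ≤ v := by
    rw [hs2]
    nlinarith
  have hv0 : 0 < v := by nlinarith
  set Y := lam * (1 + κ) / (2 * Real.pi) with hY
  have hYpi : Real.pi * Y = lam * (1 + κ) / 2 := by
    rw [hY]
    field_simp
  have hY1 : 4 ≤ Y := by
    rw [hY, le_div_iff₀ (by positivity)]
    nlinarith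
  have hY2 : Y ≤ 19 / 100 * lam := by
    rw [hY, div_le_iff₀ (by positivity)]
    nlinarith
  have hη : 0 < e / (2 * s) := by positivity
  filter_upwards [llt_ms hW hJ hm hv0 hY1 (a + lam / 2) hη, eventually_gt_atTop 0] with T hT hT0
  rw [hYpi] at hT
  have hmc := main_close (a := a) hℓ he he1 hv (by linarith : 0 < lam) (by linarith) hκ
  have e1 : 2 * Y * (Real.sqrt (Real.pi / v) * Real.exp (-((a + lam / 2) ^ 2 / v))) =
      lam * (1 + κ) / Real.pi * (Real.sqrt (Real.pi / v) *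
        Real.exp (-((a + lam / 2) ^ 2 / v))) := by
    rw [hY]
    field_simp
  rw [← e1] at hmc
  -- the error
  have hq0 : 0 < lam / s := by positivity
  have hsq : Real.sqrt (Real.pi / v) ≤ 7 / s := by
    rw [Real.sqrt_le_left (by positivity), div_pow, hs2]
    rw [div_le_div_iff₀ hv0 (by linarith)]
    rw [hs2] at hvl
    nlinarith
  have r1 : 56 * Real.sqrt (Real.pi / v) ≤ e * (lam / s) := by
    calc 56 * Real.sqrt (Real.pi / v) ≤ 56 * (7 / s) := by gcongr
      _ = 392 / s := by ring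
      _ ≤ e * lam / s := by
          apply div_le_div_of_nonneg_right _ hs0.le
          rw [div_le_iff₀ he] at hlam
          linarith
      _ = _ := by ring
  have r2 : (8 * Real.pi * Y ^ 2 + 16 * Y) / v ≤ e * (lam / s) := by
    have h1 : 8 * Real.pi * Y ^ 2 + 16 * Y ≤ lam ^ 2 := by
      have h2 : Y ^ 2 ≤ (19 / 100 * lam) ^ 2 := pow_le_pow_left₀ (by linarith) hY2 2
      have h3 : 8 * Real.pi * Y ^ 2 ≤ 8 * 3.15 * (19 / 100 * lam) ^ 2 := by gcongr
      nlinarith
    rw [div_le_iff₀ hv0]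
    have h3 : e * (lam / s) * (s ^ 2 / 6) ≤ e * (lam / s) * v := by gcongr
    have h4 : e * (lam / s) * (s ^ 2 / 6) = lam * (e * s) / 6 := by
      field_simp
    rw [h4] at h3
    nlinarith
  have r3 : (2 * Y + 16) * (2 * ((v / 4) ^ m / m.factorial) + e / (2 * s)) ≤ e * (lam / s) := by
    have h1 : 2 * ((v / 4) ^ m / m.factorial) ≤ e / (2 * s) := by
      rw [le_div_iff₀ (by positivity)]
      calc 2 * ((v / 4) ^ m / m.factorial) * (2 * s) ≤ 2 * Real.exp (-(ℓ / 4)) * (2 * s) := by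
            gcongr
        _ ≤ e := by linarith
    calc (2 * Y + 16) * (2 * ((v / 4) ^ m / m.factorial) + e / (2 * s)) ≤
          lam * (e / (2 * s) + e / (2 * s)) := by
          apply mul_le_mul (by linarith) (by linarith) (by positivity) (by linarith)
      _ = _ := by
        field_simp
        ring
  have h5 : |ms T {t | |(PW w0 b0 T t).re - (a + lam / 2)| ≤ lam * (1 + κ) / 2} -
      2 * Y * (Real.sqrt (Real.pi / v) * Real.exp (-((a + lam / 2) ^ 2 / v))) * T| ≤
      3 * e * (lam / s) * T := by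
    refine hT.trans ?_
    apply mul_le_mul_of_nonneg_right _ hT0.le
    linarith
  have h6 : |2 * Y * (Real.sqrt (Real.pi / v) * Real.exp (-((a + lam / 2) ^ 2 / v))) * T -
      gd ℓ a lam * T| ≤ 50 * e * (lam / s) * T := by
    rw [← sub_mul, abs_mul, abs_of_pos hT0]
    exact mul_le_mul_of_nonneg_right hmc hT0.le
  have h7 := abs_sub_le (ms T {t | |(PW w0 b0 T t).re - (a + lam / 2)| ≤ lam * (1 + κ) / 2})
    (2 * Y * (Real.sqrt (Real.pi / v) * Real.exp (-((a + lam / 2) ^ 2 / v))) * T) (gd ℓ a lam * T)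
  have h8 : 0 ≤ e * (lam / s) * T := by positivity
  linarith

end Pool.Agent.T9h26.TD
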