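import Pool.Agent.T9h26.TD.Km

set_option autoImplicit false

/-! The local limit theorem in a block. -/

open Complex Filter Topology Set MeasureTheory

namespace Pool.Agent.T9h26.TD

open TC (ordz ordT mu EFD)
open SG (ord NZ zmult ZS)
open W200.HW (Ix mem_Ix)
open Pool.Agent.Y747 (al dl Bx mem_Bx Jx mem_Jx)

lemma gd_nonneg {ℓ a lam : ℝ} (hlam : 0 ≤ lam) : 0 ≤ gd ℓ a lam := by
  unfold gd
  positivity

lemma gd_le {ℓ a lam : ℝ} (hℓ : 0 < ℓ) (hlam : 0 ≤ lam) : gd ℓ a lam ≤ 2 * (lam / Real.sqrt ℓ) := by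
  unfold gd
  have h1 := sqrt_two_le hℓ
  have h2 : Real.exp (-(Real.pi ^ 2 * a ^ 2 / (2 * ℓ))) ≤ 1 := Real.exp_le_one_iff.2 (by
    have : 0 ≤ Real.pi ^ 2 * a ^ 2 / (2 * ℓ) := by positivity
    linarith)
  calc lam * (Real.sqrt (Real.pi / (2 * ℓ)) * Real.exp (-(Real.pi ^ 2 * a ^ 2 / (2 * ℓ)))) ≤
        lam * (2 / Real.sqrt ℓ * 1) := by gcongr
    _ = _ := by ring

/-- shifting back -/
lemma ms_back {T s : ℝ} {F : Set ℝ} (hs : |s| ≤ 1) : ms T F - 1 ≤ ms T {t | t + s ∈ F} := by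
  have h1 := ms_shift_abs (T := T) (-s) {t | t + s ∈ F}
  have h2 : ms T F ≤ ms T {t | t + -s ∈ {t | t + s ∈ F}} := by
    apply ms_mono
    intro t _ _ ht
    show t + -s + s ∈ F
    rwa [neg_add_cancel_right]
  rw [abs_neg] at h1
  linarith

/-- final numerical step, upper bound -/
lemma num_up {N e g q h T L ℓ mE mF : ℝ} (hT : 0 < T) (hL : 0 < L) (hh : 1 ≤ h) (he : 0 < e)
    (he1 : e ≤ 1 / 100) (hg0 : 0 ≤ g) (hg : g ≤ 2 * q) (hq : 0 < q) (hℓ : 0 < ℓ)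
    (s1 : 18 / ℓ ^ 8 ≤ e * q) (s2 : 300 * h / ℓ ^ 4 ≤ e * q) (s3 : 9 / (2 * ℓ ^ 4) ≤ e * q)
    (s4 : 2 ≤ e * q * T) (hmE : mE ≤ (g + 60 * e * q) * T + 1 + 9 / ℓ ^ 8 * T)
    (hmF : mF ≤ 9 / ℓ ^ 8 * T)
    (hN : N * (2 * Real.pi * h / L) ≤ (1 + e) * h * mE + (1 / ℓ ^ 4) / 2 * (600 * h ^ 2 * T) +
      1 / (2 * (1 / ℓ ^ 4)) * mF) :
    N ≤ (g + 200 * e * q) * (T * L / (2 * Real.pi)) := by
  have hpi := Real.pi_pos
  have hh0 : 0 < h := by linarith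
  have hκ : 0 < 2 * Real.pi * h / L := by positivity
  apply le_of_mul_le_mul_right _ hκ
  have e1 : (g + 200 * e * q) * (T * L / (2 * Real.pi)) * (2 * Real.pi * h / L) =
      (g + 200 * e * q) * (T * h) := by
    field_simp
  rw [e1]
  refine hN.trans ?_
  have hhT : 0 < h * T := by positivity
  have heq : 0 < e * q := by positivity
  have t1 : (1 + e) * h * mE ≤ h * T * (g + 65 * (e * q)) := by
    have a1 : (1 + e) * h * mE ≤ (1 + e) * h * ((g + 60 * e * q) * T + 1 + 9 / ℓ ^ 8 * T) :=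
      mul_le_mul_of_nonneg_left hmE (by positivity)
    have a2 : (1 + e) * h * ((g + 60 * e * q) * T + 1 + 9 / ℓ ^ 8 * T) =
        h * T * ((1 + e) * (g + 60 * (e * q))) + (1 + e) * (h * 1) +
          (1 + e) * (h * T * (9 / ℓ ^ 8)) := by ring
    have a3 : (1 + e) * (g + 60 * (e * q)) ≤ g + 63 * (e * q) := by nlinarith
    have a4 : (1 + e) * (h * 1) ≤ h * T * (e * q) := by nlinarith
    have a5 : (1 + e) * (h * T * (9 / ℓ ^ 8)) ≤ h * T * (e * q) := by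
      have b1 : (0 : ℝ) ≤ 9 / ℓ ^ 8 := by positivity
      have b2 : 2 * (9 / ℓ ^ 8) ≤ e * q := by
        have : 2 * (9 / ℓ ^ 8) = 18 / ℓ ^ 8 := by ring
        rw [this]
        exact s1
      have b3 : 0 ≤ h * T * (9 / ℓ ^ 8) := by positivity
      calc (1 + e) * (h * T * (9 / ℓ ^ 8)) ≤ 2 * (h * T * (9 / ℓ ^ 8)) := by nlinarith
        _ = h * T * (2 * (9 / ℓ ^ 8)) := by ring
        _ ≤ _ := by gcongr
    have a6 : h * T * ((1 + e) * (g + 60 * (e * q))) ≤ h * T * (g + 63 * (e * q)) := by gcongr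
    rw [a2] at a1
    linarith
  have t2 : (1 / ℓ ^ 4) / 2 * (600 * h ^ 2 * T) ≤ h * T * (e * q) := by
    have : (1 / ℓ ^ 4) / 2 * (600 * h ^ 2 * T) = h * T * (300 * h / ℓ ^ 4) := by ring
    rw [this]
    gcongr
  have t3 : 1 / (2 * (1 / ℓ ^ 4)) * mF ≤ h * T * (e * q) := by
    have a1 : 1 / (2 * (1 / ℓ ^ 4)) * mF ≤ 1 / (2 * (1 / ℓ ^ 4)) * (9 / ℓ ^ 8 * T) := by gcongr
    have a2 : 1 / (2 * (1 / ℓ ^ 4)) * (9 / ℓ ^ 8 * T) = T * (9 / (2 * ℓ ^ 4)) := by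
      field_simp
    rw [a2] at a1
    refine a1.trans ?_
    calc T * (9 / (2 * ℓ ^ 4)) ≤ T * (e * q) := by gcongr
      _ = 1 * (T * (e * q)) := (one_mul _).symm
      _ ≤ h * (T * (e * q)) := by gcongr
      _ = _ := by ring
  have t4 : h * T * (g + 65 * (e * q)) + h * T * (e * q) + h * T * (e * q) ≤
      (g + 200 * e * q) * (T * h) := by
    have : 0 ≤ h * T * (e * q) := by positivity
    nlinarith
  linarith

/-- final numerical step, lower bound -/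
lemma num_lo {N e g q h T L ℓ mG : ℝ} (hT : 0 < T) (hL : 0 < L) (hh : 1 ≤ h) (he : 0 < e)
    (he1 : e ≤ 1 / 100) (hg : g ≤ 2 * q) (hq : 0 < q)
    (s1 : 18 / ℓ ^ 8 ≤ e * q) (hℓ : 0 < ℓ)
    (s4 : 2 ≤ e * q * T) (hmG : (g - 60 * e * q) * T - 1 - 9 / ℓ ^ 8 * T ≤ mG)
    (hN : (1 - e) * h * (mG - 2) ≤ N * (2 * Real.pi * h / L)) :
    (g - 200 * e * q) * (T * L / (2 * Real.pi)) ≤ N := by
  have hpi := Real.pi_pos
  have hh0 : 0 < h := by linarith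
  have hκ : 0 < 2 * Real.pi * h / L := by positivity
  apply le_of_mul_le_mul_right _ hκ
  have e1 : (g - 200 * e * q) * (T * L / (2 * Real.pi)) * (2 * Real.pi * h / L) =
      h * ((g - 200 * e * q) * T) := by
    field_simp
  rw [e1]
  refine le_trans ?_ hN
  have heq : 0 < e * q := by positivity
  have a1 : (g - 200 * e * q) * T ≤ (1 - e) * (mG - 2) := by
    have b1 : (1 - e) * ((g - 60 * e * q) * T - 1 - 9 / ℓ ^ 8 * T - 2) ≤ (1 - e) * (mG - 2) := by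
      apply mul_le_mul_of_nonneg_left _ (by linarith)
      linarith
    refine le_trans ?_ b1
    have b2 : 9 / ℓ ^ 8 * T ≤ e * q * T := by
      have b3 : (0 : ℝ) ≤ 9 / ℓ ^ 8 := by positivity
      have b4 : 9 / ℓ ^ 8 + 9 / ℓ ^ 8 = 18 / ℓ ^ 8 := by ring
      have b5 : 9 / ℓ ^ 8 ≤ e * q := by linarith
      gcongr
    have b3 : 0 ≤ 9 / ℓ ^ 8 * T := by positivity
    have b6 : e * (g * T) ≤ 2 * (e * q * T) := by
      have : e * (g * T) ≤ e * (2 * q * T) := by gcongr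
      linarith
    have b7 : 0 ≤ e * (60 * e * q * T) := by positivity
    have b8 : 0 ≤ e * (9 / ℓ ^ 8 * T) := by positivity
    nlinarith
  calc h * ((g - 200 * e * q) * T) ≤ h * ((1 - e) * (mG - 2)) := by gcongr
    _ = _ := by ring

end Pool.Agent.T9h26.TD
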