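import Pool.Agent.T9h26.TD.Kn

set_option autoImplicit false

/-! The local limit theorem in a block. -/

open Complex Filter Topology Set MeasureTheory

namespace Pool.Agent.T9h26.TD

open TC (ordz ordT mu EFD)
open SG (ord NZ zmult ZS)
open W200.HW (Ix mem_Ix)
open Pool.Agent.Y747 (al dl Bx mem_Bx Jx mem_Jx)

/-- numerical facts on the parameters -/
lemma par_numK {e A0 ℓ D lam : ℝ} (he : 0 < e) (he1 : e ≤ 1 / 100) (hD : 1 ≤ D)
    (hℓ : 1000 / e ≤ ℓ) (hl1 : max (A0 / e) (400 / e) * D ≤ lam)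
    (hl2 : max (A0 / e) (400 / e) * lam ≤ Real.sqrt ℓ) :
    (1000 ≤ ℓ ∧ 400 / e ≤ lam ∧ 400 ≤ e * lam ∧ 40000 ≤ lam) ∧
    (e * lam ≤ lam / 100 ∧ A0 * D ≤ e * lam ∧ 25 * D ≤ e * lam ∧ 400 * lam ≤ e * Real.sqrt ℓ) ∧
    (4 * Real.sqrt ℓ * Real.exp (-(ℓ / 4)) ≤ e ∧ 18 / ℓ ^ 8 ≤ e * (lam / Real.sqrt ℓ) ∧
      9 / (2 * ℓ ^ 4) ≤ e * (lam / Real.sqrt ℓ) ∧
      300 * (e * lam) / ℓ ^ 4 ≤ e * (lam / Real.sqrt ℓ)) := by
  set A := max (A0 / e) (400 / e) with hA
  set s := Real.sqrt ℓ with hs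
  have hAA0 : A0 / e ≤ A := le_max_left _ _
  have hA400 : 400 / e ≤ A := le_max_right _ _
  have hℓ1000 : 1000 ≤ ℓ := by
    refine le_trans ?_ hℓ
    rw [le_div_iff₀ he]
    linarith
  have hℓe : 1000 ≤ e * ℓ := by
    rw [div_le_iff₀ he] at hℓ
    linarith
  have hℓ0 : 0 < ℓ := by linarith
  have hs0 : 0 < s := Real.sqrt_pos.2 hℓ0
  have hs2 : s ^ 2 = ℓ := Real.sq_sqrt hℓ0.le
  have hs1 : 1 ≤ s := Real.one_le_sqrt.2 (by linarith)
  have hsℓ : s ≤ ℓ := by nlinarith
  have h400 : 0 < 400 / e := by positivity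
  have hlam400 : 400 / e ≤ lam := by
    have h1 : 400 / e * 1 ≤ A * D := mul_le_mul hA400 hD zero_le_one (by linarith)
    linarith
  have helam : 400 ≤ e * lam := by
    rw [div_le_iff₀ he] at hlam400
    linarith
  have hlam0 : 0 < lam := by linarith
  have hlam1 : 40000 ≤ lam := by nlinarith
  have hls : 400 * lam ≤ e * s := by
    have h1 : 400 / e * lam ≤ s := le_trans (mul_le_mul_of_nonneg_right hA400 hlam0.le) hl2
    rw [div_mul_eq_mul_div, div_le_iff₀ he] at h1
    linarith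
  have heq2 : 400 / ℓ ≤ e * (lam / s) := by
    rw [div_le_iff₀ hℓ0]
    have h1 : e * (lam / s) * ℓ = e * lam * s := by
      rw [← hs2]
      field_simp
    rw [h1]
    nlinarith
  refine ⟨⟨hℓ1000, hlam400, helam, hlam1⟩, ⟨by nlinarith, ?_, ?_, hls⟩, ?_, ?_, ?_, ?_⟩
  · have h1 : A0 / e * D ≤ lam := le_trans (mul_le_mul_of_nonneg_right hAA0 (by linarith)) hl1
    rw [div_mul_eq_mul_div, div_le_iff₀ he] at h1
    linarith
  · have h1 : 400 / e * D ≤ lam := le_trans (mul_le_mul_of_nonneg_right hA400 (by linarith)) hl1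
    rw [div_mul_eq_mul_div, div_le_iff₀ he] at h1
    linarith
  · have h1 := Real.quadratic_le_exp_of_nonneg (show 0 ≤ ℓ / 4 by positivity)
    rw [Real.exp_neg, ← div_eq_mul_inv, div_le_iff₀ (Real.exp_pos _)]
    have h2 : ℓ ^ 2 / 32 ≤ Real.exp (ℓ / 4) := by nlinarith
    have h3 : 4 * s ≤ e * (ℓ ^ 2 / 32) := by nlinarith
    calc 4 * s ≤ e * (ℓ ^ 2 / 32) := h3
      _ ≤ e * Real.exp (ℓ / 4) := by gcongr
  · refine le_trans ?_ heq2
    apply div_le_div₀ (by norm_num) (by norm_num) hℓ0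
    calc ℓ = ℓ ^ 1 := (pow_one _).symm
      _ ≤ ℓ ^ 8 := pow_le_pow_right₀ (by linarith) (by norm_num)
  · refine le_trans ?_ heq2
    apply div_le_div₀ (by norm_num) (by norm_num) hℓ0
    have : ℓ ≤ ℓ ^ 4 := by
      calc ℓ = ℓ ^ 1 := (pow_one _).symm
        _ ≤ ℓ ^ 4 := pow_le_pow_right₀ (by linarith) (by norm_num)
    linarith
  · rw [div_le_iff₀ (by positivity)]
    have h1 : e * (lam / s) * ℓ ^ 4 = e * lam * (ℓ ^ 4 / s) := by ring
    rw [h1]
    have h2 : 300 ≤ ℓ ^ 4 / s := by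
      rw [le_div_iff₀ hs0]
      have h3 : ℓ ^ 2 ≤ ℓ ^ 4 := pow_le_pow_right₀ (by linarith) (by norm_num)
      nlinarith
    have h3 : 0 < e * lam := by positivity
    nlinarith

lemma fac_numK {y r L : ℝ} (hy : 0 < y) (hr : 0 ≤ r) (hL : 16 * y ^ 2 * (r + 1) + 1 ≤ L) :
    1 - 1 / (2 * (r + 1)) ≤ Real.exp (-(Real.pi * y / L) ^ 2 / 2) := by
  have hpi := Real.pi_gt_three
  have hpi4 := Real.pi_lt_four
  have h16 : 0 ≤ 16 * y ^ 2 * (r + 1) := by positivity
  have hL0 : 0 < L := by linarith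
  have h1 := Real.add_one_le_exp (-(Real.pi * y / L) ^ 2 / 2)
  have h2 : (Real.pi * y / L) ^ 2 / 2 ≤ 1 / (2 * (r + 1)) := by
    rw [div_pow, div_div, div_le_div_iff₀ (by positivity) (by positivity)]
    have h3 : L ≤ L ^ 2 := by nlinarith
    have h4 : (Real.pi * y) ^ 2 ≤ 16 * y ^ 2 := by
      rw [mul_pow]
      have : Real.pi ^ 2 ≤ 16 := by nlinarith
      gcongr
    have h5 : (Real.pi * y) ^ 2 * (2 * (r + 1)) ≤ 16 * y ^ 2 * (2 * (r + 1)) := by gcongr
    linarith
  linarith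

lemma un_numK {x M L : ℝ} (hx : 0 ≤ x) (hxM : x ≤ M) (hL : 100 * M ≤ L) (hL0 : 0 < L) :
    0 ≤ 2 * Real.pi * x / L ∧ 2 * Real.pi * x / L ≤ 1 := by
  have hpi := Real.pi_gt_three
  have hpi4 := Real.pi_lt_four
  refine ⟨by positivity, ?_⟩
  rw [div_le_one hL0]
  nlinarith

open Classical in
/-- **the local limit theorem in a block** -/
theorem blkK (RH : RiemannHypothesis) {C' : ℝ} (hC' : 0 < C') {e : ℝ} (he : 0 < e)
    (he1 : e ≤ 1 / 100) : ∃ A r0 : ℝ, 1 ≤ A ∧ 10 ≤ r0 ∧ ∀ (r : ℕ) (a lam : ℝ), r0 ≤ r →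
      |a| ≤ Real.log r → A * Real.log (Real.log r) ≤ lam → A * lam ≤ Real.sqrt (Real.log r) →
      ∃ T1 : ℝ, 10 ≤ T1 ∧ ∀ T : ℝ, T1 ≤ T → ∀ U1 U2 : ℝ, T ≤ U1 → U1 ≤ T + 1 → 2 * T - 1 ≤ U2 →
        U2 ≤ 2 * T → EFD C' T (ordz U1 U2) mu → ∀ P : ℕ → Prop,
        (∀ n ∈ Kx U1 U2, P n → r + a - 1 / 4 ≤ Sr r n ∧ Sr r n ≤ r + a + lam + 1 / 4) →
        (∀ n ∈ Kx U1 U2, r + a + 1 / 4 ≤ Sr r n → Sr r n ≤ r + a + lam - 1 / 4 → P n) →
        (∀ B : Finset ℕ, B ⊆ Kx U1 U2 → (∀ n ∈ B, P n ∧ T + 2 * Real.log T ≤ ord n ∧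
          ord n ≤ 2 * T - 2 * Real.log T) →
          (B.card : ℝ) ≤ (gd (Real.log r) a lam + 200 * e * (lam / Real.sqrt (Real.log r))) *
            (T * Real.log T / (2 * Real.pi))) ∧
        (gd (Real.log r) a lam - 200 * e * (lam / Real.sqrt (Real.log r))) *
            (T * Real.log T / (2 * Real.pi)) ≤ (((Kx U1 U2).filter P).card : ℝ) := by
  have hpi := Real.pi_gt_three
  have hpi0 := Real.pi_pos
  have hpi4 := Real.pi_lt_four
  obtain ⟨A0, r1, hA0, hr1, hbad⟩ := bad_msK RH hC' he (by linarith)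
  have ev1 : ∀ᶠ r : ℝ in atTop, Real.log r ≤ r / 4 := by
    have h1 := Real.isLittleO_log_id_atTop.bound (show 0 < (1 / 4 : ℝ) by norm_num)
    filter_upwards [h1, eventually_ge_atTop 1] with V hV hV1
    have h2 := (le_abs_self _).trans hV
    rw [id, Real.norm_eq_abs, abs_of_nonneg (by linarith)] at h2
    linarith
  have ev2 : ∀ᶠ r : ℝ in atTop, 1 ≤ Real.log (Real.log r) :=
    (Real.tendsto_log_atTop.comp Real.tendsto_log_atTop).eventually_ge_atTop 1
  have ev3 : ∀ᶠ r : ℝ in atTop, 1000 / e ≤ Real.log r :=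
    Real.tendsto_log_atTop.eventually_ge_atTop _
  obtain ⟨r2, hr2⟩ := eventually_atTop.1 ((ev1.and ev2).and ev3)
  set A := max (A0 / e) (400 / e) with hA
  have hAA0 : A0 / e ≤ A := le_max_left _ _
  have hA400 : 400 / e ≤ A := le_max_right _ _
  have hA1 : 1 ≤ A := by
    refine le_trans ?_ hA400
    rw [le_div_iff₀ he]
    linarith
  refine ⟨A, max r1 r2, hA1, hr1.trans (le_max_left _ _), fun r a lam hr ha hl1 hl2 => ?_⟩
  obtain ⟨⟨b1, b2⟩, b3⟩ := hr2 r ((le_max_right _ _).trans hr)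
  set ℓ := Real.log r with hℓ
  set D := Real.log ℓ with hD
  obtain ⟨⟨hℓ1000, hlam400, helam, hlam1⟩, ⟨hhl, hhA0, hD25, hls⟩, hexp, s1, s3, s2⟩ :=
    par_numK (D := D) he he1 b2 b3 hl1 hl2
  set s := Real.sqrt ℓ with hs
  have hℓ0 : 0 < ℓ := by linarith
  have hs0 : 0 < s := Real.sqrt_pos.2 hℓ0
  have hr4 : (4000 : ℝ) ≤ r := by linarith
  obtain ⟨ha1, ha2⟩ := abs_le.1 ha
  have hlam0 : 0 < lam := by linarith
  set h := e * lam with hh
  have hh0 : 0 < h := by linarith
  set y := (r : ℝ) + a with hy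
  have hy1 : (r : ℝ) / 2 ≤ y := by rw [hy]; linarith
  have hy2 : y ≤ 2 * r := by rw [hy]; linarith
  have hy0 : 0 < y := by linarith
  have hr1' : 1 ≤ r := by
    have : (1 : ℝ) ≤ r := by linarith
    exact_mod_cast this
  obtain ⟨w0, b0, K0, J, m, hW, hJ, hm, hv, htay, hb⟩ := hbad r ((le_max_left _ _).trans hr) y hy1 hy2
  obtain ⟨T1, hT1, hb⟩ := hb h lam hhA0 (by linarith)
  obtain ⟨T2, hT2, hcu⟩ := cnt_up RH hC' (h := h) (ε := e) (by linarith) he.le
  have hvv : |var w0 - 2 / Real.pi ^ 2 * ℓ| ≤ e * (2 / Real.pi ^ 2 * ℓ) := hv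
  obtain ⟨T3, hT3⟩ := eventually_atTop.1 (X_ms (a := a) hW hJ hm (by linarith) he he1 hvv htay hexp
    hlam400 (by linarith) (κ := 10 * e) (by rw [abs_of_pos (by positivity)]; linarith))
  obtain ⟨T4, hT4⟩ := eventually_atTop.1 (X_ms (a := a) hW hJ hm (by linarith) he he1 hvv htay hexp
    hlam400 (by linarith) (κ := -(14 * e)) (by
      rw [abs_neg, abs_of_pos (by positivity)]))
  set q := lam / s with hq
  have hq0 : 0 < q := by positivity
  have heq : 0 < e * q := by positivity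
  have ev5 : ∀ᶠ T : ℝ in atTop, (100 * (y + lam + 2) ≤ Real.log T ∧
      16 * y ^ 2 * (r + 1) + 1 ≤ Real.log T) ∧ 2 / (e * q) ≤ T :=
    ((Real.tendsto_log_atTop.eventually_ge_atTop _).and
      (Real.tendsto_log_atTop.eventually_ge_atTop _)).and (eventually_ge_atTop _)
  obtain ⟨T5, hT5⟩ := eventually_atTop.1 ev5
  refine ⟨max (max T1 T2) (max T3 (max T4 T5)), hT1.trans ((le_max_left _ _).trans (le_max_left _ _)),
    fun T hT U1 U2 hU1 hU1' hU2 hU2' hE P hP1 hP2 => ?_⟩
  have a1 : T1 ≤ T := ((le_max_left _ _).trans (le_max_left _ _)).trans hT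
  have a2 : T2 ≤ T := ((le_max_right _ _).trans (le_max_left _ _)).trans hT
  have a3 : T3 ≤ T := ((le_max_left _ _).trans (le_max_right _ _)).trans hT
  have a4 : T4 ≤ T := (((le_max_left _ _).trans (le_max_right _ _)).trans (le_max_right _ _)).trans hT
  have a5 : T5 ≤ T := (((le_max_right _ _).trans (le_max_right _ _)).trans (le_max_right _ _)).trans hT
  obtain ⟨⟨c1, c2⟩, c3⟩ := hT5 T a5
  have hT10 : 10 ≤ T := hT1.trans a1
  have hT0 : 0 < T := by linarith
  have hU : 1 ≤ U1 := by linarith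
  have s4 : 2 ≤ e * q * T := by
    rw [div_le_iff₀ heq] at c3
    linarith
  set L := Real.log T with hL
  have hL0 : 0 < L := by linarith
  have hbadT := hb T a1 U1 U2 hU hE
  have hexp8 : Real.exp (-(8 * D)) = 1 / ℓ ^ 8 := by
    rw [hD, Real.exp_neg, show 8 * Real.log ℓ = ((8 : ℕ) : ℝ) * Real.log ℓ by norm_num,
      Real.exp_nat_mul, Real.exp_log hℓ0, one_div]
  have hmF : ms T {t | ¬ Good w0 b0 T U1 U2 y D h lam e t} ≤ 9 / ℓ ^ 8 * T := by
    refine hbadT.trans (le_of_eq ?_)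
    rw [hexp8]
    ring
  have hg0 : 0 ≤ gd ℓ a lam := gd_nonneg hlam0.le
  have hg1 : gd ℓ a lam ≤ 2 * q := gd_le hℓ0 hlam0.le
  -- shift
  have hshift : |Real.pi * y / L| ≤ 1 := by
    rw [abs_of_pos (by positivity), div_le_one hL0]
    have : Real.pi * y ≤ 4 * y := mul_le_mul_of_nonneg_right hpi4.le hy0.le
    linarith
  -- the factor `e`
  have hfac1 : 1 - 1 / (2 * ((r : ℝ) + 1)) ≤ Real.exp (-(Real.pi * y / L) ^ 2 / 2) :=
    fac_numK hy0 (by linarith) c2
  have hfac2 : Real.exp (-(Real.pi * y / L) ^ 2 / 2) ≤ 1 := Real.exp_le_one_iff.2 (by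
    have := sq_nonneg (Real.pi * y / L)
    linarith)
  have hun : ∀ x : ℝ, 0 ≤ x → x ≤ y + lam + 2 → 0 ≤ 2 * Real.pi * x / L ∧ 2 * Real.pi * x / L ≤ 1 :=
    fun x hx0 hx1 => un_numK hx0 hx1 c1 hL0
  constructor
  · -- upper bound
    intro B hBK hBP
    have key := hcu T a2 U1 U2 hU hE B
      ({t | |(PW w0 b0 T (t + Real.pi * y / L)).re - (a + lam / 2)| ≤ lam * (1 + 10 * e) / 2} ∪
        {t | ¬ Good w0 b0 T U1 U2 y D h lam e t}) {t | ¬ Good w0 b0 T U1 U2 y D h lam e t} hBK
      (fun n hn => (hBP n hn).2) (fun n hn t ht1 ht2 => by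
        by_cases hg : Good w0 b0 T U1 U2 y D h lam e t
        · left
          obtain ⟨p1, p2, p3⟩ := hBP n hn
          obtain ⟨hn1, hn2, hn3⟩ := mem_Kx.1 (hBK hn)
          obtain ⟨q1, q2⟩ := hP1 n (hBK hn) p1
          have hlong := long (r := r) hn1 hT10 (by linarith) (x := y - 1 / 4) (by
            rw [← hL]
            have := (hun (y - 1 / 4) (by linarith) (by linarith)).2
            linarith) q1
          have hshort := shortS (r := r) hn1 hT10 (by linarith) (x := y + lam) (by linarith)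
            (by rw [← hL]; linarith) q2
          rw [← hL] at hlong hshort
          have hlong2 : ord n + 2 * Real.pi * (y - 1) / L ≤ ord (n + r) := by
            refine le_trans ?_ hlong
            have : 2 * Real.pi * (y - 1) / L ≤ 2 * Real.pi * (y - 1 / 4) / L := by
              gcongr
              norm_num
            linarith
          have hgu := hg.up (r := r) (n := n) (a := a) hr1' hn1 hy he.le (by linarith) hh0.le
            hlam0.le hfac1 hfac2 ht1 (by rw [← hL]; linarith) hn2 (by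
              have := (hun (y + lam + 1) (by linarith) (by linarith)).2
              linarith) (by
              rw [← hL]
              have e1 : t + 2 * Real.pi * y / L - 2 * Real.pi * (h + 1) / L =
                (t - 2 * Real.pi * h / L) + 2 * Real.pi * (y - 1) / L := by ring
              rw [e1]
              linarith) (by
              rw [← hL]
              have e1 : t + 2 * Real.pi * y / L + 2 * Real.pi * (lam + 1) / L =
                t + 2 * Real.pi * (y + lam + 1) / L := by ring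
              rw [e1]
              linarith)
          rw [← hL] at hgu
          refine hgu.trans ?_
          have : e * lam = h := hh.symm
          linarith
        · right
          exact hg)
      (fun t _ _ ht hc => by
        have := hc.g3
        linarith)
      (1 / ℓ ^ 4) (by positivity)
    rw [← hL] at key
    refine num_up hT0 hL0 (by linarith) he he1 hg0 hg1 hq0 hℓ0 s1 s2 s3 s4
      (mE := ms T ({t | |(PW w0 b0 T (t + Real.pi * y / L)).re - (a + lam / 2)| ≤
        lam * (1 + 10 * e) / 2} ∪ {t | ¬ Good w0 b0 T U1 U2 y D h lam e t})) ?_ hmF key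
    have h1 := hT3 T a3
    have h2 := ms_sh (s := Real.pi * y / L) (F := {t | |(PW w0 b0 T t).re - (a + lam / 2)| ≤
      lam * (1 + 10 * e) / 2}) (x := gd ℓ a lam * T + 60 * e * (lam / s) * T) (by
        linarith [(abs_le.1 h1).2]) hshift
    have h3 := ms_union T {t | |(PW w0 b0 T (t + Real.pi * y / L)).re - (a + lam / 2)| ≤
        lam * (1 + 10 * e) / 2} {t | ¬ Good w0 b0 T U1 U2 y D h lam e t}
    have h4 : ms T {t | |(PW w0 b0 T (t + Real.pi * y / L)).re - (a + lam / 2)| ≤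
        lam * (1 + 10 * e) / 2} ≤ gd ℓ a lam * T + 60 * e * (lam / s) * T + 1 := h2
    rw [hq]
    linarith
  · -- lower bound
    have key := cnt_lo (h := h) (ε := e) (U1 := U1) (U2 := U2) (B := (Kx U1 U2).filter P)
      (G := {t | |(PW w0 b0 T (t + Real.pi * y / L)).re - (a + lam / 2)| ≤
        lam * (1 + -(14 * e)) / 2 ∧ Good w0 b0 T U1 U2 y D h lam e t}) hT10 hh0 (by
        rw [← hL]
        have := (hun h hh0.le (by linarith)).2
        rwa [div_le_one hL0] at this) (by linarith) hU1 (fun t ht ht1 ht2 => by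
        obtain ⟨htX, hg⟩ := ht
        refine ⟨hg.g4, fun n hn hn1 hn2 => ?_⟩
        obtain ⟨k1, k2, k3⟩ := mem_Kx.1 hn
        rw [Finset.mem_filter]
        refine ⟨hn, ?_⟩
        rw [← hL] at hn2
        have hgl := hg.lo (r := r) (n := n) (a := a) hr1' k1 hy he.le (by linarith) hh0.le
          hlam0.le hfac1 hfac2 (by
            rw [← hL]
            have := (hun y hy0.le (by linarith)).1
            linarith) (by
            rw [← hL]
            exact (hun (lam - 1 - h) (by linarith) (by linarith)).1) hn1 (by rw [← hL]; linarith) k2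
          (by
            rw [← hL]
            have e1 : t + 2 * Real.pi * y / L + 2 * Real.pi * (h + 1) / L =
              t + 2 * Real.pi * (y + h + 1) / L := by ring
            rw [e1]
            have := (hun (y + h + 1) (by linarith) (by linarith)).2
            linarith) (by
            rw [← hL]
            refine htX.trans ?_
            have : e * lam = h := hh.symm
            linarith)
        rw [← hL] at hgl
        obtain ⟨l1, l2⟩ := hgl
        have e1 : t + 2 * Real.pi * y / L + 2 * Real.pi * (h + 1) / L =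
          t + 2 * Real.pi * (y + 1) / L + 2 * Real.pi * h / L := by ring
        have e2 : t + 2 * Real.pi * y / L + 2 * Real.pi * (lam - 1 - h) / L =
          t - 2 * Real.pi * h / L + 2 * Real.pi * (y + lam - 1) / L := by ring
        rw [e1] at l1
        rw [e2] at l2
        have hh1 := (hun h hh0.le (by linarith)).1
        have m1 := longS (r := r) k1 hT10 (by linarith) (x := y) hy0.le (by rw [← hL]; linarith) (by
          rw [← hL]
          linarith)
        have m2 := shortS2 (r := r) k1 hT10 (x := y + lam) (by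
          have := (hun (y + lam - 1) (by linarith) (by linarith)).2
          linarith) (by
          rw [← hL]
          linarith)
        exact hP2 n hn m1 m2) (Finset.filter_subset _ _)
    rw [← hL] at key
    refine num_lo hT0 hL0 (by linarith) he he1 hg1 hq0 s1 hℓ0 s4
      (mG := ms T {t | |(PW w0 b0 T (t + Real.pi * y / L)).re - (a + lam / 2)| ≤
        lam * (1 + -(14 * e)) / 2 ∧ Good w0 b0 T U1 U2 y D h lam e t}) ?_ key
    have h1 := hT4 T a4
    have h2 := ms_back (T := T) (s := Real.pi * y / L)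
      (F := {t | |(PW w0 b0 T t).re - (a + lam / 2)| ≤ lam * (1 + -(14 * e)) / 2}) hshift
    have h3 : ms T {t | t + Real.pi * y / L ∈ {t | |(PW w0 b0 T t).re - (a + lam / 2)| ≤
        lam * (1 + -(14 * e)) / 2}} ≤
        ms T {t | |(PW w0 b0 T (t + Real.pi * y / L)).re - (a + lam / 2)| ≤
        lam * (1 + -(14 * e)) / 2 ∧ Good w0 b0 T U1 U2 y D h lam e t} +
        ms T {t | ¬ Good w0 b0 T U1 U2 y D h lam e t} := by
      apply ms_union_of
      intro t _ _ ht
      by_cases hg : Good w0 b0 T U1 U2 y D h lam e t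
      · left
        exact ⟨ht, hg⟩
      · right
        exact hg
    rw [hq]
    linarith [(abs_le.1 h1).1]

end Pool.Agent.T9h26.TD
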