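import Pool.Agent.T9h26.TD.Qf

set_option autoImplicit false

/-! Small balls: a point which follows a pattern has prescribed smoothed counts. -/

open Complex Filter Topology Set MeasureTheory

namespace Pool.Agent.T9h26.TD

open TC (ordz ordT mu EFD)
open SG (ord NZ zmult ZS)
open W200.HW (Ix mem_Ix)
open Pool.Agent.Y747 (al)

/-- the sum of `k` consecutive normalised spacings from the `n`-th on (heights `t log t / 2π`) -/
noncomputable def hk (n k : ℕ) : ℝ :=
  (ord (n + k) * Real.log (ord (n + k)) - ord n * Real.log (ord n)) / (2 * Real.pi)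

lemma hk_ge {T : ℝ} (hT : 10 ≤ T) {n k : ℕ} (hn : 1 ≤ n) (h1 : T ≤ ord n) {t : ℝ}
    (ht1 : ord n ≤ t) : pos t (Real.log T) (n + k) ≤ hk n k := by
  have hpi := Real.pi_pos
  have hm := SG.ord_mono hn (show n ≤ n + k by omega)
  set x0 := ord n
  set x1 := ord (n + k) with hx1
  have hL : 0 < Real.log T := Real.log_pos (by linarith)
  have a1 : Real.log T ≤ Real.log x1 := Real.log_le_log (by linarith) (by linarith)
  have a2 : Real.log x0 ≤ Real.log x1 := Real.log_le_log (by linarith) hm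
  have a3 : (x1 - x0) * Real.log T ≤ x1 * Real.log x1 - x0 * Real.log x0 := by nlinarith
  unfold hk pos
  apply div_le_div_of_nonneg_right _ (by positivity)
  rw [← hx1]
  refine le_trans ?_ a3
  nlinarith

lemma hk_le {T X : ℝ} (hT : 10 ≤ T) {n k : ℕ} (hn : 1 ≤ n) (h1 : T ≤ ord n)
    (h2 : ord n ≤ 2 * T - 2 * Real.log T) {t : ℝ}
    (ht1 : ord n ≤ t) (ht2 : t ≤ ord n + Real.pi / (2 * Real.log T)) (hX : 0 ≤ X)
    (hXL : 20 * (X + 1) ≤ Real.log T) (hp : pos t (Real.log T) (n + k) ≤ X) :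
    |pos t (Real.log T) (n + k) - hk n k| ≤ 1 := by
  have hpi := Real.pi_pos
  have hpi4 := Real.pi_lt_four
  have hm := SG.ord_mono hn (show n ≤ n + k by omega)
  have hge := hk_ge (k := k) hT hn h1 ht1
  set x0 := ord n
  set x1 := ord (n + k) with hx1
  set L := Real.log T with hLd
  have hL20 : 20 ≤ L := by linarith
  have hL : 0 < L := by linarith
  have b1 : x1 ≤ t + 2 * Real.pi * X / L := (pos_le hL).1 hp
  have b2 : 2 * Real.pi * X / L ≤ 1 := by
    rw [div_le_one hL]
    nlinarith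
  have b3 : Real.pi / (2 * L) ≤ 1 := by
    rw [div_le_one (by positivity)]
    linarith
  have b4 : x1 ≤ 2 * T := by linarith
  have a1 : Real.log x1 ≤ L + 1 := by
    have := Real.log_le_log (by linarith : 0 < x1) b4
    rw [Real.log_mul (by norm_num) (by linarith)] at this
    have := Real.log_two_lt_d9
    linarith
  have a2 : x0 * (Real.log x1 - Real.log x0) ≤ x1 - x0 := by
    have h3 : 0 < x0 := by linarith
    have h4 : 0 < x1 := by linarith
    rw [← Real.log_div h4.ne' h3.ne']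
    have := Real.log_le_sub_one_of_pos (div_pos h4 h3)
    calc x0 * Real.log (x1 / x0) ≤ x0 * (x1 / x0 - 1) := mul_le_mul_of_nonneg_left this h3.le
      _ = x1 - x0 := by field_simp
  have a3 : x1 * Real.log x1 - x0 * Real.log x0 ≤ (x1 - x0) * (L + 2) := by nlinarith
  -- the position
  set p := pos t L (n + k) with hpd
  have c1 : (x1 - x0) * L / (2 * Real.pi) = p + (t - x0) * L / (2 * Real.pi) := by
    rw [hpd]
    unfold pos
    rw [← hx1]
    ring
  have c2 : (t - x0) * L / (2 * Real.pi) ≤ 1 / 4 := by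
    rw [div_le_iff₀ (by positivity)]
    have h3 : t - x0 ≤ Real.pi / (2 * L) := by linarith
    calc (t - x0) * L ≤ Real.pi / (2 * L) * L := mul_le_mul_of_nonneg_right h3 hL.le
      _ = 1 / 4 * (2 * Real.pi) := by field_simp; ring
  have c3 : hk n k ≤ (x1 - x0) * L / (2 * Real.pi) + 2 / L * ((x1 - x0) * L / (2 * Real.pi)) := by
    unfold hk
    rw [← hx1]
    have : (x1 - x0) * L / (2 * Real.pi) + 2 / L * ((x1 - x0) * L / (2 * Real.pi)) =
        (x1 - x0) * (L + 2) / (2 * Real.pi) := by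
      field_simp
    rw [this]
    exact div_le_div_of_nonneg_right a3 (by positivity)
  have c4 : 2 / L * ((x1 - x0) * L / (2 * Real.pi)) ≤ 1 / 4 := by
    rw [c1]
    have h5 : p + (t - x0) * L / (2 * Real.pi) ≤ X + 1 / 4 := by linarith
    calc 2 / L * (p + (t - x0) * L / (2 * Real.pi)) ≤ 2 / L * (X + 1 / 4) :=
          mul_le_mul_of_nonneg_left h5 (by positivity)
      _ ≤ 1 / 4 := by
          rw [div_mul_eq_mul_div, div_le_iff₀ hL]
          linarith
  rw [abs_le]
  constructor <;> linarith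

lemma pos_self {T : ℝ} (hL : 0 < Real.log T) {n k : ℕ} (hn : 1 ≤ n) {t : ℝ}
    (ht2 : t ≤ ord n + Real.pi / (2 * Real.log T)) : -(1 / 4) ≤ pos t (Real.log T) (n + k) := by
  have hpi := Real.pi_pos
  have hm := SG.ord_mono hn (show n ≤ n + k by omega)
  rw [le_pos hL]
  have : 2 * Real.pi * -(1 / 4) / Real.log T = -(Real.pi / (2 * Real.log T)) := by
    field_simp
    ring
  rw [this]
  linarith

open Classical in
/-- **the smoothed counts of a point which follows a pattern** -/
theorem det (RH : RiemannHypothesis) {b R b2 y X Q K T U1 U2 t : ℝ} {L n N0 : ℕ} {X1 : ℝ}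
    (hb : 0 < b) (hb1 : b ≤ 1 / 2) (hR : 1 ≤ R) (hb2 : 0 < b2) (hb21 : b2 ≤ 1 / 2)
    (hR2 : 2 * R ≤ 1 / b2) (hD2 : 320 * R * b2 ≤ b) (hK : 0 ≤ K) (hκ : b * (K + 1) ≤ 1)
    (hκ2 : 2 * (K + 1) ≤ 1 / b2) (hy : 1 / b2 + 1 ≤ y) (hyX : y + 1 / b2 + 1 ≤ X1)
    (hX1 : X1 ≤ X) (hyX4 : 4 * y ≤ X) (hRX : 4 * R ≤ X) (hXK : 2 * K ≤ X)
    (hfar : L * (16 * R / (b * X ^ 2)) ≤ 1) (hQ : 8 * R / (b * X ^ 2) * Q ≤ 1) (hT : 10 ≤ T)
    (hXL : 20 * (X + 1 / b) ≤ Real.log T)
    (hgs : L * (20 * X ^ 2 / Real.log T ^ 2 * (R * b)) ≤ 1)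
    (hU1 : T ≤ U1) (hU1' : U1 ≤ T + 1) (hU2 : 2 * T - 1 ≤ U2)
    (hn1 : T + 2 * Real.log T ≤ ord n) (hn2 : ord n ≤ 2 * T - 2 * Real.log T) (hn : 1 ≤ n)
    (ht1 : ord n ≤ t) (ht2 : t ≤ ord n + Real.pi / (2 * Real.log T)) {a : ℕ → ℝ}
    (hpat : ∀ k : ℕ, 1 ≤ k → k ≤ L → |hk n k - a k| ≤ K)
    (hP1 : ∑ m ∈ (Kx U1 U2).filter (fun m => |pos t (Real.log T) m| ≤ X),
      pk b (pos t (Real.log T) m - (y + R / 2)) ≤ 160)
    (hP2 : ∑ m ∈ (Kx U1 U2).filter (fun m => |pos t (Real.log T) m| ≤ X),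
      pk b (pos t (Real.log T) m - (y - R / 2)) ≤ 160)
    (hP3 : ∑ m ∈ (Kx U1 U2).filter (fun m => |pos t (Real.log T) m| ≤ X),
      pk b2 (pos t (Real.log T) m - y) ≤ 160)
    (hcnt : cC U1 U2 t (2 * Real.pi * X1 / Real.log T) < N0) (hN0 : N0 ≤ L)
    (htail : ∑ m ∈ Kx U1 U2, (1 + (pos t (Real.log T) m / X) ^ 2)⁻¹ < Q) :
    |SX (ordz U1 U2) mu (Wn b R) (Real.log T) (t + 2 * Real.pi * y / Real.log T) -
      ∑ k ∈ Finset.Icc 1 L, Fk b R (a k - y)| ≤ 8 + 2560 * (K + 1) := by
  have hpi := Real.pi_pos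
  have hpi4 := Real.pi_lt_four
  set ℓ := Real.log T with hℓ
  have hb0 : 0 < 1 / b := by positivity
  have hb20 : 0 < 1 / b2 := by positivity
  have hR0 : 0 < R := by linarith
  have hX0 : 0 < X := by linarith
  have hℓ0 : 0 < ℓ := by linarith
  have hy0 : 0 < y := by linarith
  have hX1b : 20 * (X + 1) ≤ ℓ := by
    have : 1 ≤ 1 / b := by rw [le_div_iff₀ hb]; linarith
    linarith
  set p : ℕ → ℝ := fun m => pos t ℓ m with hp
  set A := (Kx U1 U2).filter (fun m => |pos t ℓ m| ≤ X) with hA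
  set g : ℕ → ℝ := fun m => Real.exp (-(2 * Real.pi * (pos t ℓ m - y) / ℓ) ^ 2 / 2) with hg
  have hg0 : ∀ m, 0 < g m := fun m => Real.exp_pos _
  have hg1 : ∀ m, g m ≤ 1 := by
    intro m
    rw [hg]
    apply Real.exp_le_one_iff.2
    have : 0 ≤ (2 * Real.pi * (pos t ℓ m - y) / ℓ) ^ 2 := sq_nonneg _
    linarith
  have hFk0 : ∀ x, 0 ≤ Fk b R x := fun x => Fk_nonneg hb hb1 hR0.le x
  rw [SX_pos RH (by linarith) _ hℓ0]
  change |∑ m ∈ Kx U1 U2, g m * Fk b R (pos t ℓ m - y) - _| ≤ _
  set Nr := (Kx U1 U2).filter (fun m => |pos t ℓ m - y| < 1 / b2) with hNr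
  -- positions
  have hNrA : ∀ m ∈ Nr, m ∈ A := by
    intro m hm
    rw [hNr, Finset.mem_filter] at hm
    rw [hA, Finset.mem_filter]
    refine ⟨hm.1, ?_⟩
    have := abs_lt.1 hm.2
    rw [abs_le]
    constructor <;> linarith
  have hpk_far : ∀ x : ℝ, 1 / b2 ≤ |x| → 1 / x ^ 2 ≤ 2 * b2 * pk b2 x := by
    intro x hx
    have hx2 : (1 : ℝ) ≤ (b2 * x) ^ 2 := by
      have h3 : 1 ≤ b2 * |x| := by
        rw [div_le_iff₀ hb2] at hx
        linarith
      have h4 : (b2 * x) ^ 2 = (b2 * |x|) ^ 2 := by rw [mul_pow, mul_pow, sq_abs]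
      rw [h4]
      exact one_le_pow₀ h3
    have hxp : 0 < x ^ 2 := by
      by_contra hc
      have : x ^ 2 = 0 := le_antisymm (not_lt.1 hc) (sq_nonneg x)
      rw [mul_pow, this, mul_zero] at hx2
      linarith
    unfold pk
    rw [← mul_div_assoc, div_le_div_iff₀ hxp (by positivity)]
    have e : 2 * b2 * b2 * x ^ 2 = 2 * (b2 * x) ^ 2 := by ring
    rw [e]
    linarith
  have hfar_x : ∀ x : ℝ, X < |x| → X / 2 ≤ |x - y| ∧ |x| / 2 ≤ |x - y| := by
    intro x hx
    have h3 := abs_sub_abs_le_abs_sub x y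
    rw [abs_of_pos hy0] at h3
    constructor <;> linarith
  -- (1) the far part of the sum
  have s1 : ∑ m ∈ Kx U1 U2, g m * Fk b R (pos t ℓ m - y) =
      ∑ m ∈ Nr, g m * Fk b R (pos t ℓ m - y) +
      ∑ m ∈ (Kx U1 U2).filter (fun m => ¬ |pos t ℓ m - y| < 1 / b2),
        g m * Fk b R (pos t ℓ m - y) :=
    (Finset.sum_filter_add_sum_filter_not _ _ _).symm
  have s2 : ∑ m ∈ (Kx U1 U2).filter (fun m => ¬ |pos t ℓ m - y| < 1 / b2),
        g m * Fk b R (pos t ℓ m - y) ≤ 2 := by
    have h1 : ∀ m ∈ (Kx U1 U2).filter (fun m => ¬ |pos t ℓ m - y| < 1 / b2),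
        g m * Fk b R (pos t ℓ m - y) ≤
          (if |pos t ℓ m| ≤ X then R / b * (2 * b2 * pk b2 (pos t ℓ m - y)) else 0) +
          8 * R / (b * X ^ 2) * (1 + (pos t ℓ m / X) ^ 2)⁻¹ := by
      intro m hm
      rw [Finset.mem_filter, not_lt] at hm
      have h2 : g m * Fk b R (pos t ℓ m - y) ≤ Fk b R (pos t ℓ m - y) :=
        mul_le_of_le_one_left (hFk0 _) (hg1 m)
      refine h2.trans ?_
      have h3 := Fk_tail hb hb1 hR0 (x := pos t ℓ m - y) (by linarith [hm.2])
      have h4 : 0 ≤ 8 * R / (b * X ^ 2) * (1 + (pos t ℓ m / X) ^ 2)⁻¹ := by positivity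
      split_ifs with hc
      · have h5 := hpk_far _ hm.2
        have h6 : R / (b * (pos t ℓ m - y) ^ 2) = R / b * (1 / (pos t ℓ m - y) ^ 2) := by
          rw [div_mul_div_comm, mul_one]
        rw [h6] at h3
        have h7 : R / b * (1 / (pos t ℓ m - y) ^ 2) ≤ R / b * (2 * b2 * pk b2 (pos t ℓ m - y)) :=
          mul_le_mul_of_nonneg_left h5 (by positivity)
        linarith
      · rw [not_le] at hc
        rw [zero_add]
        refine h3.trans ?_
        set x := pos t ℓ m with hx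
        have h8 := (hfar_x x hc).2
        have hx0 : 0 < |x| := by linarith
        have hx2 : 0 < x ^ 2 := by rw [← sq_abs]; positivity
        have h9 : x ^ 2 / 4 ≤ (x - y) ^ 2 := by
          rw [← sq_abs x, ← sq_abs (x - y)]
          calc |x| ^ 2 / 4 = (|x| / 2) ^ 2 := by ring
            _ ≤ |x - y| ^ 2 := pow_le_pow_left₀ (by positivity) h8 2
        have h10 : X ^ 2 ≤ x ^ 2 := by
          rw [← sq_abs x]
          exact pow_le_pow_left₀ hX0.le hc.le 2
        have hxy2 : 0 < (x - y) ^ 2 := by linarith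
        have e1 : 8 * R / (b * X ^ 2) * (1 + (x / X) ^ 2)⁻¹ = 8 * R / (b * (X ^ 2 + x ^ 2)) := by
          field_simp
        rw [e1, div_le_div_iff₀ (by positivity) (by positivity)]
        have h11 : X ^ 2 + x ^ 2 ≤ 8 * (x - y) ^ 2 := by linarith
        have h12 : 0 ≤ R * b := by positivity
        calc R * (b * (X ^ 2 + x ^ 2)) = R * b * (X ^ 2 + x ^ 2) := by ring
          _ ≤ R * b * (8 * (x - y) ^ 2) := mul_le_mul_of_nonneg_left h11 h12
          _ = 8 * R * (b * (x - y) ^ 2) := by ring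
    refine (Finset.sum_le_sum h1).trans ?_
    rw [Finset.sum_add_distrib]
    have h2 : ∑ m ∈ (Kx U1 U2).filter (fun m => ¬ |pos t ℓ m - y| < 1 / b2),
        (if |pos t ℓ m| ≤ X then R / b * (2 * b2 * pk b2 (pos t ℓ m - y)) else 0) ≤ 1 := by
      calc _ ≤ ∑ m ∈ Kx U1 U2,
            (if |pos t ℓ m| ≤ X then R / b * (2 * b2 * pk b2 (pos t ℓ m - y)) else 0) := by
            apply Finset.sum_le_sum_of_subset_of_nonneg (Finset.filter_subset _ _)
            intro m _ _
            split_ifs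
            · have := pk_nonneg hb2 (pos t ℓ m - y)
              positivity
            · exact le_rfl
        _ = ∑ m ∈ A, R / b * (2 * b2 * pk b2 (pos t ℓ m - y)) := by
            rw [hA, Finset.sum_filter]
        _ = R / b * (2 * b2) * ∑ m ∈ A, pk b2 (pos t ℓ m - y) := by
            rw [Finset.mul_sum]
            exact Finset.sum_congr rfl fun m _ => by ring
        _ ≤ R / b * (2 * b2) * 160 := mul_le_mul_of_nonneg_left hP3 (by positivity)
        _ ≤ 1 := by
            rw [div_mul_eq_mul_div, div_mul_eq_mul_div, div_le_one hb]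
            linarith
    have h3 : ∑ m ∈ (Kx U1 U2).filter (fun m => ¬ |pos t ℓ m - y| < 1 / b2),
        8 * R / (b * X ^ 2) * (1 + (pos t ℓ m / X) ^ 2)⁻¹ ≤ 1 := by
      calc _ ≤ ∑ m ∈ Kx U1 U2, 8 * R / (b * X ^ 2) * (1 + (pos t ℓ m / X) ^ 2)⁻¹ := by
            apply Finset.sum_le_sum_of_subset_of_nonneg (Finset.filter_subset _ _)
            intro m _ _
            positivity
        _ = 8 * R / (b * X ^ 2) * ∑ m ∈ Kx U1 U2, (1 + (pos t ℓ m / X) ^ 2)⁻¹ := by
            rw [Finset.mul_sum]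
        _ ≤ 8 * R / (b * X ^ 2) * Q := mul_le_mul_of_nonneg_left htail.le (by positivity)
        _ ≤ 1 := hQ
    linarith
  have s3 : 0 ≤ ∑ m ∈ (Kx U1 U2).filter (fun m => ¬ |pos t ℓ m - y| < 1 / b2),
        g m * Fk b R (pos t ℓ m - y) :=
    Finset.sum_nonneg fun m _ => mul_nonneg (hg0 m).le (hFk0 _)
  -- (2) the near part
  set Sn := (Finset.Icc 1 L).filter (fun k => |pos t ℓ (n + k) - y| < 1 / b2) with hSn
  have hUn : U1 < ord n := by
    have : 20 ≤ ℓ := by linarith
    linarith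
  have hin : ∀ k : ℕ, pos t ℓ (n + k) ≤ X → n + k ∈ Kx U1 U2 := by
    intro k hk1
    rw [mem_Kx]
    have h1 := SG.ord_mono hn (show n ≤ n + k by omega)
    refine ⟨by omega, by linarith, ?_⟩
    have h2 := (pos_le hℓ0).1 hk1
    have h3 : 2 * Real.pi * X / ℓ ≤ 1 := by
      rw [div_le_one hℓ0]
      have : Real.pi * X ≤ 4 * X := mul_le_mul_of_nonneg_right hpi4.le hX0.le
      linarith
    have h4 : Real.pi / (2 * ℓ) ≤ 1 := by
      rw [div_le_one (by positivity)]
      linarith
    have : 20 ≤ ℓ := by linarith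
    linarith
  have hbij : ∀ f : ℕ → ℝ, ∑ m ∈ Nr, f m = ∑ k ∈ Sn, f (n + k) := by
    intro f
    apply Finset.sum_nbij' (fun m => m - n) (fun k => n + k)
    · intro m hm
      have hm2 := hm
      rw [hNr, Finset.mem_filter] at hm
      have h1 := abs_lt.1 hm.2
      have h2 : 0 < pos t ℓ m := by linarith
      have h3 : t < ord m := by
        have := (lt_iff_lt_of_le_iff_le (pos_le hℓ0)).1 h2
        simpa using this
      have h4 : n < m := by
        by_contra hc
        have := SG.ord_mono (mem_Kx.1 hm.1).1 (not_lt.1 hc)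
        linarith
      have h5 : Finset.Icc n m ⊆ (Kx U1 U2).filter (fun i => |ord i - t| ≤ 2 * Real.pi * X1 / ℓ) := by
        intro i hi
        rw [Finset.mem_Icc] at hi
        have k1 := SG.ord_mono hn hi.1
        have k2 := SG.ord_mono (show 1 ≤ i by omega) hi.2
        rw [Finset.mem_filter, mem_Kx]
        refine ⟨⟨by omega, by linarith, k2.trans (mem_Kx.1 hm.1).2.2⟩, ?_⟩
        rw [abs_le]
        have k3 : pos t ℓ m ≤ X1 := by linarith
        have k4 := (pos_le hℓ0).1 k3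
        have k5 : Real.pi / (2 * ℓ) ≤ 2 * Real.pi * X1 / ℓ := by
          rw [div_le_div_iff₀ (by positivity) hℓ0]
          have : 1 ≤ X1 := by linarith
          have h7 : Real.pi * ℓ * 1 ≤ Real.pi * ℓ * X1 :=
            mul_le_mul_of_nonneg_left this (by positivity)
          have h8 : 0 ≤ Real.pi * ℓ * X1 := by positivity
          calc Real.pi * ℓ ≤ Real.pi * ℓ * X1 := by linarith
            _ ≤ 4 * (Real.pi * ℓ * X1) := by linarith
            _ = 2 * Real.pi * X1 * (2 * ℓ) := by ring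
        constructor <;> linarith
      have h6 := Finset.card_le_card h5
      rw [Nat.card_Icc] at h6
      have h7 : ((Kx U1 U2).filter (fun i => |ord i - t| ≤ 2 * Real.pi * X1 / ℓ)).card =
          cC U1 U2 t (2 * Real.pi * X1 / ℓ) := by
        unfold cC
        congr
      rw [h7] at h6
      rw [hSn, Finset.mem_filter, Finset.mem_Icc, show n + (m - n) = m by omega]
      exact ⟨⟨by omega, by omega⟩, hm.2⟩
    · intro k hk1
      rw [hSn, Finset.mem_filter] at hk1
      rw [hNr, Finset.mem_filter]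
      refine ⟨hin k ?_, hk1.2⟩
      have := abs_lt.1 hk1.2
      linarith
    · intro m hm
      have h1 : n ≤ m := by
        rw [hNr, Finset.mem_filter] at hm
        have h1 := abs_lt.1 hm.2
        have h2 : 0 < pos t ℓ m := by linarith
        have h3 : t < ord m := by
          have := (lt_iff_lt_of_le_iff_le (pos_le hℓ0)).1 h2
          simpa using this
        by_contra hc
        have := SG.ord_mono (mem_Kx.1 hm.1).1 (le_of_lt (not_le.1 hc))
        linarith
      omega
    · intro k _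
      simp
    · intro m hm
      have h1 : n ≤ m := by
        rw [hNr, Finset.mem_filter] at hm
        have h1 := abs_lt.1 hm.2
        have h2 : 0 < pos t ℓ m := by linarith
        have h3 : t < ord m := by
          have := (lt_iff_lt_of_le_iff_le (pos_le hℓ0)).1 h2
          simpa using this
        by_contra hc
        have := SG.ord_mono (mem_Kx.1 hm.1).1 (le_of_lt (not_le.1 hc))
        linarith
      rw [show n + (m - n) = m by omega]
  -- closeness
  have hclose : ∀ k : ℕ, 1 ≤ k → k ≤ L → pos t ℓ (n + k) ≤ X →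
      |pos t ℓ (n + k) - a k| ≤ K + 1 := by
    intro k hk1 hk2 hk3
    have h1 := hk_le (k := k) hT hn (by linarith) hn2 ht1 ht2 hX0.le hX1b hk3
    have h2 := hpat k hk1 hk2
    have := abs_sub_le (pos t ℓ (n + k)) (hk n k) (a k)
    linarith
  -- (3) comparison on the near part
  have s4 : |∑ k ∈ Sn, g (n + k) * Fk b R (pos t ℓ (n + k) - y) - ∑ k ∈ Sn, Fk b R (a k - y)| ≤
      1 + 2560 * (K + 1) := by
    rw [← Finset.sum_sub_distrib]
    refine (Finset.abs_sum_le_sum_abs _ _).trans ?_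
    have h1 : ∀ k ∈ Sn, |g (n + k) * Fk b R (pos t ℓ (n + k) - y) - Fk b R (a k - y)| ≤
        20 * X ^ 2 / ℓ ^ 2 * (R * b) + 8 * (K + 1) * (pk b (pos t ℓ (n + k) - (y - R / 2)) +
          pk b (pos t ℓ (n + k) - (y + R / 2))) := by
      intro k hk1
      rw [hSn, Finset.mem_filter, Finset.mem_Icc] at hk1
      have h2 := abs_lt.1 hk1.2
      have hkX : pos t ℓ (n + k) ≤ X := by linarith
      have h3 := hclose k hk1.1.1 hk1.1.2 hkX
      have h4 := Fk_near (R := R) hb hb1 (p := pos t ℓ (n + k) - y) (a := a k - y) hκ (by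
        rw [sub_sub_sub_cancel_right]; exact h3)
      have e1 : pos t ℓ (n + k) - y + R / 2 = pos t ℓ (n + k) - (y - R / 2) := by ring
      have e2 : pos t ℓ (n + k) - y - R / 2 = pos t ℓ (n + k) - (y + R / 2) := by ring
      rw [e1, e2] at h4
      have h5 : g (n + k) * Fk b R (pos t ℓ (n + k) - y) - Fk b R (a k - y) =
          -((1 - g (n + k)) * Fk b R (pos t ℓ (n + k) - y)) +
          (Fk b R (pos t ℓ (n + k) - y) - Fk b R (a k - y)) := by ring
      rw [h5]
      refine (abs_add_le _ _).trans (add_le_add ?_ h4)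
      rw [abs_neg, abs_mul, abs_of_nonneg (by linarith [hg1 (n + k)]), abs_of_nonneg (hFk0 _)]
      apply mul_le_mul _ (Fk_le hb hb1 hR0.le _) (hFk0 _) (by positivity)
      have h6 := Real.add_one_le_exp (-(2 * Real.pi * (pos t ℓ (n + k) - y) / ℓ) ^ 2 / 2)
      have h7 : (2 * Real.pi * (pos t ℓ (n + k) - y) / ℓ) ^ 2 / 2 ≤ 20 * X ^ 2 / ℓ ^ 2 := by
        rw [div_pow, div_div, div_le_div_iff₀ (by positivity) (by positivity)]
        have h8 : (pos t ℓ (n + k) - y) ^ 2 ≤ X ^ 2 := by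
          have : |pos t ℓ (n + k) - y| ≤ X := by
            refine hk1.2.le.trans ?_
            linarith
          rw [← sq_abs]
          exact pow_le_pow_left₀ (abs_nonneg _) this 2
        have h9 : Real.pi ^ 2 ≤ 10 := by nlinarith [Real.pi_lt_d2, Real.pi_gt_three]
        have h10 : (2 * Real.pi * (pos t ℓ (n + k) - y)) ^ 2 ≤ 40 * X ^ 2 := by
          calc (2 * Real.pi * (pos t ℓ (n + k) - y)) ^ 2 =
              4 * Real.pi ^ 2 * (pos t ℓ (n + k) - y) ^ 2 := by ring
            _ ≤ (4 * 10) * X ^ 2 := mul_le_mul (by linarith) h8 (sq_nonneg _) (by norm_num)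
            _ = 40 * X ^ 2 := by ring
        have h11 : 0 < ℓ ^ 2 := by positivity
        calc (2 * Real.pi * (pos t ℓ (n + k) - y)) ^ 2 * ℓ ^ 2 ≤ 40 * X ^ 2 * ℓ ^ 2 :=
              mul_le_mul_of_nonneg_right h10 h11.le
          _ = 20 * X ^ 2 * (ℓ ^ 2 * 2) := by ring
      change 1 - Real.exp _ ≤ _
      linarith
    refine (Finset.sum_le_sum h1).trans ?_
    have e3 : ∑ k ∈ Sn, 8 * (K + 1) * (pk b (pos t ℓ (n + k) - (y - R / 2)) +
          pk b (pos t ℓ (n + k) - (y + R / 2))) =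
        8 * (K + 1) * (∑ m ∈ Nr, pk b (pos t ℓ m - (y - R / 2)) +
          ∑ m ∈ Nr, pk b (pos t ℓ m - (y + R / 2))) := by
      rw [hbij (fun m => pk b (pos t ℓ m - (y - R / 2))),
        hbij (fun m => pk b (pos t ℓ m - (y + R / 2))), ← Finset.mul_sum, Finset.sum_add_distrib]
    rw [Finset.sum_add_distrib, e3]
    have h2 : ∑ _k ∈ Sn, 20 * X ^ 2 / ℓ ^ 2 * (R * b) ≤ 1 := by
      rw [Finset.sum_const, nsmul_eq_mul]
      refine le_trans ?_ hgs
      apply mul_le_mul_of_nonneg_right _ (by positivity)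
      have h3 := Finset.card_filter_le (Finset.Icc 1 L) (fun k => |pos t ℓ (n + k) - y| < 1 / b2)
      rw [← hSn, Nat.card_Icc] at h3
      have h4 : Sn.card ≤ L := by omega
      exact_mod_cast h4
    have h3 : ∑ m ∈ Nr, pk b (pos t ℓ m - (y - R / 2)) ≤ 160 :=
      (Finset.sum_le_sum_of_subset_of_nonneg hNrA fun m _ _ => pk_nonneg hb _).trans hP2
    have h4 : ∑ m ∈ Nr, pk b (pos t ℓ m - (y + R / 2)) ≤ 160 :=
      (Finset.sum_le_sum_of_subset_of_nonneg hNrA fun m _ _ => pk_nonneg hb _).trans hP1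
    have h5 : 8 * (K + 1) * (∑ m ∈ Nr, pk b (pos t ℓ m - (y - R / 2)) +
          ∑ m ∈ Nr, pk b (pos t ℓ m - (y + R / 2))) ≤ 8 * (K + 1) * (160 + 160) :=
      mul_le_mul_of_nonneg_left (add_le_add h3 h4) (by linarith)
    linarith
  -- (4) the rest of the pattern
  have s5 : ∑ k ∈ Finset.Icc 1 L, Fk b R (a k - y) = ∑ k ∈ Sn, Fk b R (a k - y) +
      ∑ k ∈ (Finset.Icc 1 L).filter (fun k => ¬ |pos t ℓ (n + k) - y| < 1 / b2),
        Fk b R (a k - y) :=
    (Finset.sum_filter_add_sum_filter_not _ _ _).symm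
  have s6 : 0 ≤ ∑ k ∈ (Finset.Icc 1 L).filter (fun k => ¬ |pos t ℓ (n + k) - y| < 1 / b2),
        Fk b R (a k - y) := Finset.sum_nonneg fun k _ => hFk0 _
  have s7 : ∑ k ∈ (Finset.Icc 1 L).filter (fun k => ¬ |pos t ℓ (n + k) - y| < 1 / b2),
        Fk b R (a k - y) ≤ 5 := by
    have h1 : ∀ k ∈ (Finset.Icc 1 L).filter (fun k => ¬ |pos t ℓ (n + k) - y| < 1 / b2),
        Fk b R (a k - y) ≤
          (if |pos t ℓ (n + k)| ≤ X then 4 * R / b * (2 * b2 * pk b2 (pos t ℓ (n + k) - y)) else 0) +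
          16 * R / (b * X ^ 2) := by
      intro k hk1
      rw [Finset.mem_filter, Finset.mem_Icc, not_lt] at hk1
      obtain ⟨⟨hk2, hk3⟩, hk4⟩ := hk1
      have h4 : 0 ≤ 16 * R / (b * X ^ 2) := by positivity
      have hps := pos_self (T := T) hℓ0 (k := k) hn ht2
      set x := pos t ℓ (n + k) with hx
      split_ifs with hc
      · have h5 := hclose k hk2 hk3 (le_of_abs_le hc)
        rw [← hx] at h5
        have h6 : |x - y| / 2 ≤ |a k - y| := by
          have h7 := abs_sub_le x (a k) y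
          linarith
        have h8 := Fk_tail hb hb1 hR0 (x := a k - y) (by linarith)
        have h9 := hpk_far _ hk4
        have hxy : 0 < |x - y| := by linarith
        have hxy2 : 0 < (x - y) ^ 2 := by rw [← sq_abs]; positivity
        have h10 : (x - y) ^ 2 / 4 ≤ (a k - y) ^ 2 := by
          rw [← sq_abs (x - y), ← sq_abs (a k - y)]
          calc |x - y| ^ 2 / 4 = (|x - y| / 2) ^ 2 := by ring
            _ ≤ |a k - y| ^ 2 := pow_le_pow_left₀ (by positivity) h6 2
        have hay2 : 0 < (a k - y) ^ 2 := by linarith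
        have h11 : R / (b * (a k - y) ^ 2) ≤ 4 * R / b * (1 / (x - y) ^ 2) := by
          rw [div_mul_div_comm, mul_one, div_le_div_iff₀ (by positivity) (by positivity)]
          calc R * (b * (x - y) ^ 2) = 4 * (R * b) * ((x - y) ^ 2 / 4) := by ring
            _ ≤ 4 * (R * b) * (a k - y) ^ 2 := mul_le_mul_of_nonneg_left h10 (by positivity)
            _ = 4 * R * (b * (a k - y) ^ 2) := by ring
        have h12 : 4 * R / b * (1 / (x - y) ^ 2) ≤ 4 * R / b * (2 * b2 * pk b2 (x - y)) :=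
          mul_le_mul_of_nonneg_left h9 (by positivity)
        linarith
      · rw [not_le] at hc
        have h5 : X < x := by
          rcases abs_choice x with h | h
          · rwa [h] at hc
          · rw [h] at hc
            linarith
        have h6 := hk_ge (k := k) hT hn (by linarith) ht1
        rw [← hℓ, ← hx] at h6
        have h7 := abs_le.1 (hpat k hk2 hk3)
        have h8 : X / 4 ≤ a k - y := by linarith [h7.2]
        have h9 := Fk_tail hb hb1 hR0 (x := a k - y) (by
          rw [abs_of_pos (by linarith)]; linarith)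
        rw [zero_add]
        refine h9.trans ?_
        have hay : 0 < a k - y := by linarith
        rw [div_le_div_iff₀ (by positivity) (by positivity)]
        have h10 : X ^ 2 ≤ 16 * (a k - y) ^ 2 := by
          calc X ^ 2 = 16 * (X / 4) ^ 2 := by ring
            _ ≤ 16 * (a k - y) ^ 2 := by
                apply mul_le_mul_of_nonneg_left _ (by norm_num)
                exact pow_le_pow_left₀ (by positivity) h8 2
        calc R * (b * X ^ 2) = R * b * X ^ 2 := by ring
          _ ≤ R * b * (16 * (a k - y) ^ 2) := mul_le_mul_of_nonneg_left h10 (by positivity)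
          _ = 16 * R * (b * (a k - y) ^ 2) := by ring
    refine (Finset.sum_le_sum h1).trans ?_
    rw [Finset.sum_add_distrib]
    have h2 : ∑ k ∈ (Finset.Icc 1 L).filter (fun k => ¬ |pos t ℓ (n + k) - y| < 1 / b2),
        (if |pos t ℓ (n + k)| ≤ X then 4 * R / b * (2 * b2 * pk b2 (pos t ℓ (n + k) - y)) else 0) ≤
        4 := by
      have h3 : ∑ k ∈ (Finset.Icc 1 L).filter (fun k => ¬ |pos t ℓ (n + k) - y| < 1 / b2),
          (if |pos t ℓ (n + k)| ≤ X then 4 * R / b * (2 * b2 * pk b2 (pos t ℓ (n + k) - y)) else 0) ≤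
          ∑ m ∈ A, 4 * R / b * (2 * b2 * pk b2 (pos t ℓ m - y)) := by
        rw [← Finset.sum_filter]
        rw [← Finset.sum_image (s := (((Finset.Icc 1 L).filter
          (fun k => ¬ |pos t ℓ (n + k) - y| < 1 / b2)).filter (fun k => |pos t ℓ (n + k)| ≤ X)))
          (g := fun k => n + k) (f := fun m => 4 * R / b * (2 * b2 * pk b2 (pos t ℓ m - y)))
          (by intro k1 _ k2 _ h; simpa using h)]
        apply Finset.sum_le_sum_of_subset_of_nonneg
        · intro m hm
          rw [Finset.mem_image] at hm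
          obtain ⟨k, hk1, rfl⟩ := hm
          rw [Finset.mem_filter] at hk1
          rw [hA, Finset.mem_filter]
          exact ⟨hin k (le_of_abs_le hk1.2), hk1.2⟩
        · intro m _ _
          have := pk_nonneg hb2 (pos t ℓ m - y)
          positivity
      refine h3.trans ?_
      calc ∑ m ∈ A, 4 * R / b * (2 * b2 * pk b2 (pos t ℓ m - y)) =
            4 * R / b * (2 * b2) * ∑ m ∈ A, pk b2 (pos t ℓ m - y) := by
            rw [Finset.mul_sum]
            exact Finset.sum_congr rfl fun m _ => by ring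
        _ ≤ 4 * R / b * (2 * b2) * 160 := mul_le_mul_of_nonneg_left hP3 (by positivity)
        _ ≤ 4 := by
            rw [div_mul_eq_mul_div, div_mul_eq_mul_div, div_le_iff₀ hb]
            linarith
    have h3 : ∑ _k ∈ (Finset.Icc 1 L).filter (fun k => ¬ |pos t ℓ (n + k) - y| < 1 / b2),
        16 * R / (b * X ^ 2) ≤ 1 := by
      rw [Finset.sum_const, nsmul_eq_mul]
      refine le_trans ?_ hfar
      apply mul_le_mul_of_nonneg_right _ (by positivity)
      have h4 := Finset.card_filter_le (Finset.Icc 1 L) (fun k => ¬ |pos t ℓ (n + k) - y| < 1 / b2)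
      rw [Nat.card_Icc] at h4
      have h5 : ((Finset.Icc 1 L).filter (fun k => ¬ |pos t ℓ (n + k) - y| < 1 / b2)).card ≤ L := by
        omega
      exact_mod_cast h5
    linarith
  rw [s1, s5, hbij (fun m => g m * Fk b R (pos t ℓ m - y))]
  rw [abs_le] at s4 ⊢
  constructor <;> linarith [s4.1, s4.2]

end Pool.Agent.T9h26.TD
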