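import Pool.Agent.T9h26.TD.Id

set_option autoImplicit false

/-! Passage from blocks to all indices, uniformly in a parameter. -/

open Complex Filter Topology Set MeasureTheory

namespace Pool.Agent.T9h26.TD

open TC (ordz ordT mu EFD)
open SG (ord NZ zmult ZS)
open W200.HW (Ix mem_Ix)
open Pool.Agent.Y747 (al dl Bx mem_Bx)
open Pool.Agent.TH873.EW (XV)

/-- from blocks to `(0, T]` -/
theorem global_u {ι : Type} (hRH : RiemannHypothesis) (A C : ℝ) (hA : 0 ≤ A) (hC0 : 0 ≤ C)
    (F : ι → ℕ → ℝ) (hF : ∀ i n, 0 ≤ F i n)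
    (hFC : ∀ i n, F i n ≤ C) (hblk : ∃ V0 : ℝ, 10 ≤ V0 ∧ ∀ V : ℝ, V0 ≤ V →
      ∀ i, ∑ n ∈ Bx V, F i n ≤ A * XV V) :
    ∃ B V0 : ℝ, 0 < B ∧ 10 ≤ V0 ∧ ∀ T : ℝ, V0 ≤ T →
      ∀ i, ∑ n ∈ Ix T, F i n ≤ A * (T * Real.log T / (2 * Real.pi)) + B * T := by
  classical
  obtain ⟨V0, hV0, hb⟩ := hblk
  obtain ⟨L, hL, hed⟩ := Pool.Agent.Y747.edge hRH
  have hpi := Real.pi_gt_three
  have hXpos : ∀ V : ℝ, 10 ≤ V → 0 < XV V := by
    intro V hV
    unfold Pool.Agent.TH873.EW.XV
    have : 0 < Real.log V := Real.log_pos (by linarith)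
    have : 0 < V - 2 := by linarith
    positivity
  suffices H : ∀ i, ∀ T : ℝ, V0 ≤ T → ∑ n ∈ Ix T, F i n ≤
      A * (T * Real.log T / (2 * Real.pi)) + (8 * C * L + C * (Ix (2 * V0)).card / V0 + 1) * T by
    refine ⟨8 * C * L + C * (Ix (2 * V0)).card / V0 + 1, V0, ?_, hV0, fun T hT i => H i T hT⟩
    positivity
  intro i
  set S : ℝ → ℝ := fun T => ∑ n ∈ Ix T, F i n with hS
  have hSmono : ∀ T T' : ℝ, T ≤ T' → S T ≤ S T' := by
    intro T T' h
    apply Finset.sum_le_sum_of_subset_of_nonneg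
    · intro n hn
      rw [mem_Ix] at hn ⊢
      exact ⟨hn.1, hn.2.trans h⟩
    · intro n _ _
      exact hF i n
  have hS0 : ∀ T, 0 ≤ S T := fun T => Finset.sum_nonneg fun n _ => hF i n
  have hS2 : S (2 * V0) ≤ C * (Ix (2 * V0)).card := by
    calc S (2 * V0) ≤ ∑ n ∈ Ix (2 * V0), C := Finset.sum_le_sum fun n _ => hFC i n
      _ = C * (Ix (2 * V0)).card := by rw [Finset.sum_const, nsmul_eq_mul]; ring
  set B : ℝ := 8 * C * L + C * (Ix (2 * V0)).card / V0 + 1 with hB
  have hS3 : S (2 * V0) / V0 ≤ C * (Ix (2 * V0)).card / V0 :=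
    div_le_div_of_nonneg_right hS2 (by linarith)
  have hB0 : 0 < B := by
    positivity
  -- the step
  have hstep : ∀ T : ℝ, 2 * V0 ≤ T → S T ≤ S (T / 2) + A * (T / 2 * Real.log T / (2 * Real.pi)) +
      4 * C * L * Real.log T := by
    intro T hT
    have hT0 : 20 ≤ T := by linarith
    have hlT : 0 < Real.log T := Real.log_pos (by linarith)
    have h1 := hb (T / 2) (by linarith) i
    have h2 : XV (T / 2) ≤ T / 2 * Real.log T / (2 * Real.pi) := by
      unfold Pool.Agent.TH873.EW.XV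
      have h3 : Real.log (T / 2) ≤ Real.log T := Real.log_le_log (by linarith) (by linarith)
      have h4 : 0 ≤ Real.log (T / 2) := Real.log_nonneg (by linarith)
      apply div_le_div_of_nonneg_right _ (by positivity)
      calc (T / 2 - 2) * Real.log (T / 2) ≤ (T / 2) * Real.log (T / 2) := by
            apply mul_le_mul_of_nonneg_right _ h4; linarith
        _ ≤ T / 2 * Real.log T := by gcongr
    have h3 := hed T (by linarith) (T / 2) (T / 2 + 1) (by linarith)
    have h4 := hed T (by linarith) (T - 1) T (by linarith)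
    set E1 := (Ix T).filter (fun n => T / 2 < ord n ∧ ord n ≤ T / 2 + 1) with hE1
    set E2 := (Ix T).filter (fun n => T - 1 < ord n ∧ ord n ≤ T) with hE2
    have hsub : Ix T ⊆ ((Ix (T / 2) ∪ Bx (T / 2)) ∪ E1) ∪ E2 := by
      intro n hn
      rw [mem_Ix] at hn
      simp only [Finset.mem_union, hE1, hE2, Finset.mem_filter, mem_Bx, mem_Ix]
      by_cases c1 : ord n ≤ T / 2
      · exact Or.inl (Or.inl (Or.inl ⟨hn.1, c1⟩))
      · rw [not_le] at c1
        by_cases c2 : ord n ≤ T / 2 + 1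
        · exact Or.inl (Or.inr ⟨hn, c1, c2⟩)
        · rw [not_le] at c2
          by_cases c3 : ord n ≤ T - 1
          · refine Or.inl (Or.inl (Or.inr ⟨hn.1, c2, ?_⟩))
            linarith
          · rw [not_le] at c3
            exact Or.inr ⟨hn, c3, hn.2⟩
    have hun : ∀ X Y : Finset ℕ, ∑ n ∈ X ∪ Y, F i n ≤ ∑ n ∈ X, F i n + ∑ n ∈ Y, F i n := by
      intro X Y
      have h5 := Finset.sum_union_inter (s₁ := X) (s₂ := Y) (f := F i)
      have h6 : 0 ≤ ∑ n ∈ X ∩ Y, F i n := Finset.sum_nonneg fun n _ => hF i n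
      linarith
    have h5 : S T ≤ ∑ n ∈ ((Ix (T / 2) ∪ Bx (T / 2)) ∪ E1) ∪ E2, F i n :=
      Finset.sum_le_sum_of_subset_of_nonneg hsub fun n _ _ => hF i n
    have h6 := hun ((Ix (T / 2) ∪ Bx (T / 2)) ∪ E1) E2
    have h7 := hun (Ix (T / 2) ∪ Bx (T / 2)) E1
    have h8 := hun (Ix (T / 2)) (Bx (T / 2))
    have hE : ∀ X : Finset ℕ, (X.card : ℝ) ≤ L * Real.log T * 2 →
        ∑ n ∈ X, F i n ≤ 2 * C * L * Real.log T := by
      intro X hX
      calc ∑ n ∈ X, F i n ≤ ∑ n ∈ X, C := Finset.sum_le_sum fun n _ => hFC i n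
        _ = X.card * C := by rw [Finset.sum_const, nsmul_eq_mul]
        _ ≤ (L * Real.log T * 2) * C := by gcongr
        _ = _ := by ring
    have h9 := hE E1 (h3.trans (le_of_eq (by ring)))
    have h10 := hE E2 (h4.trans (le_of_eq (by ring)))
    have h11 : A * XV (T / 2) ≤ A * (T / 2 * Real.log T / (2 * Real.pi)) :=
      mul_le_mul_of_nonneg_left h2 hA
    have h12 : S (T / 2) = ∑ n ∈ Ix (T / 2), F i n := rfl
    rw [h12]
    linarith
  have hV0pos : 0 < V0 := by linarith
  have key : ∀ j : ℕ, ∀ T : ℝ, V0 ≤ T → T ≤ 2 ^ (j + 1) * V0 →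
      S T ≤ A * (T * Real.log T / (2 * Real.pi)) + B * T := by
    intro j
    induction j with
    | zero =>
      intro T h1 h2
      have h3 : S T ≤ S (2 * V0) := hSmono _ _ (by
        rw [zero_add, pow_one] at h2
        exact h2)
      have h4 : S (2 * V0) ≤ B * T := by
        have h5 : S (2 * V0) = S (2 * V0) / V0 * V0 := by field_simp
        have h6 : S (2 * V0) / V0 ≤ B := by
          rw [hB]
          have : 0 ≤ 8 * C * L := by positivity
          linarith
        have h7 : 0 ≤ S (2 * V0) / V0 := div_nonneg (hS0 _) hV0pos.le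
        calc S (2 * V0) = S (2 * V0) / V0 * V0 := h5
          _ ≤ B * T := mul_le_mul h6 h1 hV0pos.le hB0.le
      have h5 : 0 ≤ A * (T * Real.log T / (2 * Real.pi)) := by
        have : 0 ≤ Real.log T := Real.log_nonneg (by linarith)
        have : 0 < T := by linarith
        positivity
      linarith
    | succ j ih =>
      intro T h1 h2
      rcases le_total T (2 ^ (j + 1) * V0) with h3 | h3
      · exact ih T h1 h3
      · have hpow : (1 : ℝ) ≤ 2 ^ j := one_le_pow₀ (by norm_num)
        have h4 : 2 * V0 ≤ T := by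
          rw [pow_succ] at h3
          nlinarith
        have h5 := ih (T / 2) (by linarith) (by rw [pow_succ] at h2; linarith)
        have h6 := hstep T h4
        have hT0 : 0 < T := by linarith
        have h7 : Real.log (T / 2) ≤ Real.log T := Real.log_le_log (by linarith) (by linarith)
        have h8 : Real.log T ≤ T := by
          have := Real.log_le_sub_one_of_pos hT0
          linarith
        have h9 : A * (T / 2 * Real.log (T / 2) / (2 * Real.pi)) ≤
            A * (T / 2 * Real.log T / (2 * Real.pi)) := by gcongr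
        have h10 : 4 * C * L * Real.log T ≤ B / 2 * T := by
          have h11 : 4 * C * L ≤ B / 2 := by
            rw [hB]
            have : 0 ≤ S (2 * V0) / V0 := div_nonneg (hS0 _) hV0pos.le
            linarith
          have : 0 ≤ Real.log T := Real.log_nonneg (by linarith)
          calc 4 * C * L * Real.log T ≤ B / 2 * Real.log T := by gcongr
            _ ≤ B / 2 * T := by gcongr
        have h11 : A * (T / 2 * Real.log T / (2 * Real.pi)) +
            A * (T / 2 * Real.log T / (2 * Real.pi)) = A * (T * Real.log T / (2 * Real.pi)) := by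
          ring
        linarith
  intro T hT
  obtain ⟨j, hj⟩ := pow_unbounded_of_one_lt (T / V0) (by norm_num : (1 : ℝ) < 2)
  apply key j T hT
  rw [div_lt_iff₀ hV0pos] at hj
  rw [pow_succ]
  nlinarith

/-- averages over all indices -/
theorem average_u {ι : Type} (hRH : RiemannHypothesis) (A C : ℝ) (hA : 0 ≤ A) (hC0 : 0 ≤ C)
    (F : ι → ℕ → ℝ) (hF : ∀ i n, 0 ≤ F i n)
    (hFC : ∀ i n, F i n ≤ C) (hblk : ∀ ε : ℝ, 0 < ε → ∃ V0 : ℝ, 10 ≤ V0 ∧ ∀ V : ℝ, V0 ≤ V →
      ∀ i, ∑ n ∈ Bx V, F i n ≤ (A + ε) * XV V) (ε : ℝ) (hε : 0 < ε) :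
    ∀ᶠ N : ℕ in atTop, ∀ i, ∑ n ∈ Finset.Icc 1 N, F i n ≤ (A + ε) * N := by
  have hpi := Real.pi_gt_three
  set e : ℝ := min (ε / 4) (min 1 (ε / (4 * (A + 1)))) with he
  have he0 : 0 < e := by
    rw [he]
    have : 0 < ε / (4 * (A + 1)) := by positivity
    exact lt_min (by positivity) (lt_min one_pos this)
  have he1 : e ≤ ε / 4 := min_le_left _ _
  have he2 : e ≤ 1 := (min_le_right _ _).trans (min_le_left _ _)
  have he3 : e ≤ ε / (4 * (A + 1)) := (min_le_right _ _).trans (min_le_right _ _)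
  obtain ⟨B, V0, hB, hV0, hT⟩ := global_u hRH (A + e) C (by linarith) hC0 F hF hFC (hblk e he0)
  have hlim : Tendsto (fun N : ℕ => ord (N + 1)) atTop atTop :=
    SG.ord_tendsto.comp (tendsto_add_atTop_nat 1)
  filter_upwards [hlim.eventually_ge_atTop V0, W249.TCF.T_le e he0 he2,
    (Real.tendsto_log_atTop.comp hlim).eventually_ge_atTop (B * (2 * Real.pi) / e)] with N h1 h2 h3
  intro i
  simp only [Function.comp] at h3
  set T := ord (N + 1) with hTd
  have h4 := hT T h1 i
  have hT0 : 0 < T := by linarith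
  have hsub : ∑ n ∈ Finset.Icc 1 N, F i n ≤ ∑ n ∈ Ix T, F i n := by
    apply Finset.sum_le_sum_of_subset_of_nonneg
    · intro n hn
      rw [Finset.mem_Icc] at hn
      rw [mem_Ix]
      exact ⟨hn.1, SG.ord_mono hn.1 (by omega)⟩
    · intro n _ _
      exact hF i n
  set X := T * Real.log T / (2 * Real.pi) with hX
  have h5 : B * T ≤ e * X := by
    rw [div_le_iff₀ he0] at h3
    rw [hX, ← mul_div_assoc, le_div_iff₀ (by positivity)]
    nlinarith
  have h6 : (A + 2 * e) * X ≤ (A + 2 * e) * ((1 + e) * N) :=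
    mul_le_mul_of_nonneg_left h2 (by positivity)
  have h7 : (A + 2 * e) * (1 + e) ≤ A + ε := by
    rw [le_div_iff₀ (by positivity)] at he3
    nlinarith
  have hN0 : (0 : ℝ) ≤ N := Nat.cast_nonneg N
  have h8 : (A + 2 * e) * (1 + e) * N ≤ (A + ε) * N := mul_le_mul_of_nonneg_right h7 hN0
  calc ∑ n ∈ Finset.Icc 1 N, F i n ≤ (A + e) * X + B * T := hsub.trans h4
    _ ≤ (A + 2 * e) * X := by linarith
    _ ≤ (A + 2 * e) * ((1 + e) * N) := h6
    _ = (A + 2 * e) * (1 + e) * N := by ring
    _ ≤ _ := h8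

/-- **from blocks to all indices** -/
theorem trans_u {ι : Type} (RH : RiemannHypothesis) {P : ι → ℕ → Prop} {c : ℝ} (hc : 0 < c) {C T0 : ℝ}
    (hT0 : 10 ≤ T0) (hef : ∀ T : ℝ, T0 ≤ T → ∃ U1 U2 : ℝ, T ≤ U1 ∧ U1 ≤ T + 1 ∧ 2 * T - 1 ≤ U2 ∧
      U2 ≤ 2 * T ∧ EFD C T (ordz U1 U2) mu)
    (h : ∃ T1 : ℝ, 10 ≤ T1 ∧ ∀ T : ℝ, T1 ≤ T → ∀ U1 U2 : ℝ, T ≤ U1 → U1 ≤ T + 1 →
      2 * T - 1 ≤ U2 → U2 ≤ 2 * T → EFD C T (ordz U1 U2) mu → ∀ i, ∀ B : Finset ℕ,
        B ⊆ Kx U1 U2 → (∀ n ∈ B, P i n ∧ T + 2 * Real.log T ≤ ord n ∧ ord n ≤ 2 * T - 2 * Real.log T) →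
        (B.card : ℝ) ≤ 1 / 7 * c * (T * Real.log T)) :
    ∀ᶠ N : ℕ in atTop, ∀ i, (({n : ℕ | 1 ≤ n ∧ n ≤ N ∧ P i n}.ncard : ℕ) : ℝ) ≤ c * N := by
  classical
  have hpi := Real.pi_pos
  have hpi3 := Real.pi_gt_three
  have hpi4 := Real.pi_lt_d2
  obtain ⟨T1, hT1, hb⟩ := h
  obtain ⟨Le, hLe, hed⟩ := Pool.Agent.Y747.edge RH
  have hkey := average_u RH (19 / 20 * c) 1 (by positivity) (by norm_num)
    (fun (i : ι) n => if P i n then 1 else 0)
    (fun i n => by split_ifs <;> norm_num) (fun i n => by split_ifs <;> norm_num) (fun ε hε => by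
      have ev1 : ∀ᶠ V : ℝ in atTop, 1 ≤ Real.log V := Real.tendsto_log_atTop.eventually_ge_atTop _
      obtain ⟨V1, hV1⟩ := eventually_atTop.1 ev1
      have ev2 : ∀ᶠ V : ℝ in atTop, Real.log V ≤ ε / (48 * Real.pi * Le) * V := by
        have h1 := Real.isLittleO_log_id_atTop.bound
          (show 0 < ε / (48 * Real.pi * Le) by positivity)
        filter_upwards [h1, eventually_ge_atTop 1] with V hV hV1
        have h2 := (le_abs_self _).trans hV
        rw [id, Real.norm_eq_abs, abs_of_nonneg (by linarith)] at h2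
        exact h2
      obtain ⟨V2, hV2⟩ := eventually_atTop.1 ev2
      refine ⟨max (max T0 T1) (max (max V1 V2) 40),
        hT0.trans ((le_max_left _ _).trans (le_max_left _ _)), fun V hV i => ?_⟩
      have a1 : T0 ≤ V := ((le_max_left _ _).trans (le_max_left _ _)).trans hV
      have a2 : T1 ≤ V := ((le_max_right _ _).trans (le_max_left _ _)).trans hV
      have a3 : V1 ≤ V :=
        (((le_max_left _ _).trans (le_max_left _ _)).trans (le_max_right _ _)).trans hV
      have a4 : V2 ≤ V :=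
        (((le_max_right _ _).trans (le_max_left _ _)).trans (le_max_right _ _)).trans hV
      have a5 : 40 ≤ V := ((le_max_right _ _).trans (le_max_right _ _)).trans hV
      have hV0 : 0 < V := by linarith
      obtain ⟨U1, U2, u1, u2, u3, u4, u5⟩ := hef V a1
      set L := Real.log V with hL
      have hL1 : 1 ≤ L := hV1 V a3
      have hLV : L ≤ ε / (48 * Real.pi * Le) * V := hV2 V a4
      set B := (Bx V).filter (fun n => P i n ∧ V + 2 * L ≤ ord n ∧ ord n ≤ 2 * V - 2 * L) with hB
      have hB1 := hb V a2 U1 U2 u1 u2 u3 u4 u5 i B (by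
        intro n hn
        rw [hB, Finset.mem_filter, mem_Bx] at hn
        obtain ⟨⟨n1, n2, n3⟩, n4⟩ := hn
        rw [mem_Kx]
        exact ⟨n1, by linarith, by linarith⟩) (by
        intro n hn
        rw [hB, Finset.mem_filter] at hn
        exact hn.2)
      have hE1 := hed (2 * V) (by linarith) V (V + 2 * L) (by linarith)
      have hE2 := hed (2 * V) (by linarith) (2 * V - 2 * L) (2 * V) (by linarith)
      set E1 := (Ix (2 * V)).filter (fun n => V < ord n ∧ ord n ≤ V + 2 * L) with hE1d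
      set E2 := (Ix (2 * V)).filter (fun n => 2 * V - 2 * L < ord n ∧ ord n ≤ 2 * V) with hE2d
      have hsum : ∑ n ∈ Bx V, (if P i n then (1 : ℝ) else 0) ≤ B.card + E1.card + E2.card := by
        rw [← Finset.sum_filter, Finset.sum_const, nsmul_eq_mul, mul_one]
        have hsub : (Bx V).filter (P i) ⊆ (B ∪ E1) ∪ E2 := by
          intro n hn
          rw [Finset.mem_filter, mem_Bx] at hn
          obtain ⟨⟨n1, n2, n3⟩, n4⟩ := hn
          simp only [Finset.mem_union, hB, hE1d, hE2d, Finset.mem_filter, mem_Bx, mem_Ix]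
          by_cases c1 : V + 2 * L ≤ ord n
          · by_cases c2 : ord n ≤ 2 * V - 2 * L
            · exact Or.inl (Or.inl ⟨⟨n1, n2, n3⟩, n4, c1, c2⟩)
            · rw [not_le] at c2
              exact Or.inr ⟨⟨n1, by linarith⟩, c2, by linarith⟩
          · rw [not_le] at c1
            exact Or.inl (Or.inr ⟨⟨n1, by linarith⟩, by linarith, c1.le⟩)
        have h1 := (Finset.card_le_card hsub).trans ((Finset.card_union_le _ _).trans
          (Nat.add_le_add_right (Finset.card_union_le _ _) _))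
        exact_mod_cast h1
      refine hsum.trans ?_
      have hlog2 : Real.log (2 * V) ≤ 2 * L := by
        rw [Real.log_mul (by norm_num) hV0.ne']
        have : Real.log 2 ≤ Real.log V := Real.log_le_log (by norm_num) (by linarith)
        linarith
      have hE1' : (E1.card : ℝ) ≤ 6 * Le * L ^ 2 := by
        refine hE1.trans ?_
        have h1 : V + 2 * L - V + 1 ≤ 3 * L := by linarith
        calc Le * Real.log (2 * V) * (V + 2 * L - V + 1) ≤ Le * (2 * L) * (3 * L) := by
              apply mul_le_mul _ h1 (by linarith) (by positivity)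
              gcongr
          _ = _ := by ring
      have hE2' : (E2.card : ℝ) ≤ 6 * Le * L ^ 2 := by
        refine hE2.trans ?_
        have h1 : 2 * V - (2 * V - 2 * L) + 1 ≤ 3 * L := by linarith
        calc Le * Real.log (2 * V) * (2 * V - (2 * V - 2 * L) + 1) ≤ Le * (2 * L) * (3 * L) := by
              apply mul_le_mul _ h1 (by linarith) (by positivity)
              gcongr
          _ = _ := by ring
      have hXV : XV V = (V - 2) * L / (2 * Real.pi) := rfl
      have hmain : 1 / 7 * c * (V * L) ≤ 19 / 20 * c * XV V := by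
        rw [hXV]
        have h1 : 1 / 7 * V ≤ 19 / 20 * ((V - 2) / (2 * Real.pi)) := by
          rw [← mul_div_assoc, le_div_iff₀ (by positivity)]
          nlinarith
        have h2 : 0 ≤ c * L := by positivity
        calc 1 / 7 * c * (V * L) = (1 / 7 * V) * (c * L) := by ring
          _ ≤ (19 / 20 * ((V - 2) / (2 * Real.pi))) * (c * L) := mul_le_mul_of_nonneg_right h1 h2
          _ = _ := by ring
      have hedge : 12 * Le * L ^ 2 ≤ ε * XV V := by
        rw [hXV]
        have h1 : 12 * Le * L ≤ ε * ((V - 2) / (2 * Real.pi)) := by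
          have h2 : 12 * Le * L ≤ 12 * Le * (ε / (48 * Real.pi * Le) * V) := by gcongr
          have h3 : 12 * Le * (ε / (48 * Real.pi * Le) * V) = ε * (V / 2 / (2 * Real.pi)) := by
            field_simp
            ring
          rw [h3] at h2
          refine h2.trans ?_
          apply mul_le_mul_of_nonneg_left _ hε.le
          apply div_le_div_of_nonneg_right _ (by positivity)
          linarith
        calc 12 * Le * L ^ 2 = (12 * Le * L) * L := by ring
          _ ≤ (ε * ((V - 2) / (2 * Real.pi))) * L := mul_le_mul_of_nonneg_right h1 (by linarith)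
          _ = _ := by ring
      calc (B.card : ℝ) + E1.card + E2.card ≤ 1 / 7 * c * (V * L) + 6 * Le * L ^ 2 +
            6 * Le * L ^ 2 := by linarith
        _ ≤ (19 / 20 * c + ε) * XV V := by linarith) (1 / 20 * c) (by positivity)
  filter_upwards [hkey] with N hN' i
  have hN := hN' i
  have e1 : {n : ℕ | 1 ≤ n ∧ n ≤ N ∧ P i n} = ((Finset.Icc 1 N).filter (P i) : Finset ℕ) := by
    ext n
    simp only [mem_setOf_eq, Finset.coe_filter, Finset.mem_Icc]
    tauto
  rw [e1, Set.ncard_coe_finset]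
  rw [← Finset.sum_filter, Finset.sum_const, nsmul_eq_mul, mul_one] at hN
  refine hN.trans (le_of_eq ?_)
  ring

end Pool.Agent.T9h26.TD
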