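import Pool.Agent.T9h26.TD.Ko
import Pool.Agent.T9h26.TD.Qt
import Pool.Agent.T9h26.TD.Mz
import Pool.Agent.T9h26.TD.Qg

set_option autoImplicit false

/-! From blocks to all indices, for the local limit theorem. -/

open Complex Filter Topology Set MeasureTheory

namespace Pool.Agent.T9h26.TD

open TC (ordz ordT mu EFD)
open SG (ord NZ zmult ZS)
open W200.HW (Ix mem_Ix)
open Pool.Agent.Y747 (al dl Bx mem_Bx Jx mem_Jx)
open Pool.Agent.TH873.EW (XV)

/-- from blocks to all indices, upper bounds -/
theorem up_all (RH : RiemannHypothesis) {P : ℕ → Prop} {A A' : ℝ} (hA : 0 ≤ A) (hAA : A < A')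
    {C T0 : ℝ}
    (hT0 : 10 ≤ T0) (hef : ∀ T : ℝ, T0 ≤ T → ∃ U1 U2 : ℝ, T ≤ U1 ∧ U1 ≤ T + 1 ∧ 2 * T - 1 ≤ U2 ∧
      U2 ≤ 2 * T ∧ EFD C T (ordz U1 U2) mu)
    (h : ∃ T1 : ℝ, 10 ≤ T1 ∧ ∀ T : ℝ, T1 ≤ T → ∀ U1 U2 : ℝ, T ≤ U1 → U1 ≤ T + 1 →
      2 * T - 1 ≤ U2 → U2 ≤ 2 * T → EFD C T (ordz U1 U2) mu → ∀ B : Finset ℕ,
        B ⊆ Kx U1 U2 → (∀ n ∈ B, P n ∧ T + 2 * Real.log T ≤ ord n ∧ ord n ≤ 2 * T - 2 * Real.log T) →
        (B.card : ℝ) ≤ A * (T * Real.log T / (2 * Real.pi))) :
    ∀ᶠ N : ℕ in atTop, (({n : ℕ | 1 ≤ n ∧ n ≤ N ∧ P n}.ncard : ℕ) : ℝ) ≤ A' * N := by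
  classical
  have hpi := Real.pi_pos
  have hpi3 := Real.pi_gt_three
  have hpi4 := Real.pi_lt_d2
  obtain ⟨T1, hT1, hb⟩ := h
  obtain ⟨Le, hLe, hed⟩ := Pool.Agent.Y747.edge RH
  have hkey := average_u RH A 1 hA (by norm_num)
    (fun (_ : Unit) n => if P n then 1 else 0)
    (fun i n => by split_ifs <;> norm_num) (fun i n => by split_ifs <;> norm_num) (fun ε hε => by
      have ev1 : ∀ᶠ V : ℝ in atTop, 1 ≤ Real.log V := Real.tendsto_log_atTop.eventually_ge_atTop _
      obtain ⟨V1, hV1⟩ := eventually_atTop.1 ev1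
      have ev2 : ∀ᶠ V : ℝ in atTop, Real.log V ≤ ε / (96 * Real.pi * Le) * V := by
        have h1 := Real.isLittleO_log_id_atTop.bound
          (show 0 < ε / (96 * Real.pi * Le) by positivity)
        filter_upwards [h1, eventually_ge_atTop 1] with V hV hV1
        have h2 := (le_abs_self _).trans hV
        rw [id, Real.norm_eq_abs, abs_of_nonneg (by linarith)] at h2
        exact h2
      obtain ⟨V2, hV2⟩ := eventually_atTop.1 ev2
      refine ⟨max (max T0 T1) (max (max V1 V2) (max 40 (2 + 4 * A / ε))),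
        hT0.trans ((le_max_left _ _).trans (le_max_left _ _)), fun V hV i => ?_⟩
      have a1 : T0 ≤ V := ((le_max_left _ _).trans (le_max_left _ _)).trans hV
      have a2 : T1 ≤ V := ((le_max_right _ _).trans (le_max_left _ _)).trans hV
      have a3 : V1 ≤ V :=
        (((le_max_left _ _).trans (le_max_left _ _)).trans (le_max_right _ _)).trans hV
      have a4 : V2 ≤ V :=
        (((le_max_right _ _).trans (le_max_left _ _)).trans (le_max_right _ _)).trans hV
      have a5 : 40 ≤ V :=
        (((le_max_left _ _).trans (le_max_right _ _)).trans (le_max_right _ _)).trans hV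
      have a6 : 2 + 4 * A / ε ≤ V :=
        (((le_max_right _ _).trans (le_max_right _ _)).trans (le_max_right _ _)).trans hV
      have hV0 : 0 < V := by linarith
      obtain ⟨U1, U2, u1, u2, u3, u4, u5⟩ := hef V a1
      set L := Real.log V with hL
      have hL1 : 1 ≤ L := hV1 V a3
      have hLV : L ≤ ε / (96 * Real.pi * Le) * V := hV2 V a4
      set B := (Bx V).filter (fun n => P n ∧ V + 2 * L ≤ ord n ∧ ord n ≤ 2 * V - 2 * L) with hB
      have hB1 := hb V a2 U1 U2 u1 u2 u3 u4 u5 B (by
        intro n hn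
        rw [hB, Finset.mem_filter, mem_Bx] at hn
        obtain ⟨⟨n1, n2, n3⟩, n4⟩ := hn
        rw [mem_Kx]
        exact ⟨n1, by linarith, by linarith⟩) (by
        intro n hn
        rw [hB, Finset.mem_filter] at hn
        exact hn.2)
      have hE1 := hed (2 * V) (by linarith) V (V + 2 * L) (by linarith)
      have hE2 := hed (2 * V) (by linarith) (2 * V - 2 * L) (2 * V) (by linarith)
      set E1 := (Ix (2 * V)).filter (fun n => V < ord n ∧ ord n ≤ V + 2 * L) with hE1d
      set E2 := (Ix (2 * V)).filter (fun n => 2 * V - 2 * L < ord n ∧ ord n ≤ 2 * V) with hE2d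
      have hsum : ∑ n ∈ Bx V, (if P n then (1 : ℝ) else 0) ≤ B.card + E1.card + E2.card := by
        rw [← Finset.sum_filter, Finset.sum_const, nsmul_eq_mul, mul_one]
        have hsub : (Bx V).filter P ⊆ (B ∪ E1) ∪ E2 := by
          intro n hn
          rw [Finset.mem_filter, mem_Bx] at hn
          obtain ⟨⟨n1, n2, n3⟩, n4⟩ := hn
          simp only [Finset.mem_union, hB, hE1d, hE2d, Finset.mem_filter, mem_Bx, mem_Ix]
          by_cases c1 : V + 2 * L ≤ ord n
          · by_cases c2 : ord n ≤ 2 * V - 2 * L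
            · exact Or.inl (Or.inl ⟨⟨n1, n2, n3⟩, n4, c1, c2⟩)
            · rw [not_le] at c2
              exact Or.inr ⟨⟨n1, by linarith⟩, c2, by linarith⟩
          · rw [not_le] at c1
            exact Or.inl (Or.inr ⟨⟨n1, by linarith⟩, by linarith, c1.le⟩)
        have h1 := (Finset.card_le_card hsub).trans ((Finset.card_union_le _ _).trans
          (Nat.add_le_add_right (Finset.card_union_le _ _) _))
        exact_mod_cast h1
      refine hsum.trans ?_
      have hlog2 : Real.log (2 * V) ≤ 2 * L := by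
        rw [Real.log_mul (by norm_num) hV0.ne']
        have : Real.log 2 ≤ Real.log V := Real.log_le_log (by norm_num) (by linarith)
        linarith
      have hE1' : (E1.card : ℝ) ≤ 6 * Le * L ^ 2 := by
        refine hE1.trans ?_
        have h1 : V + 2 * L - V + 1 ≤ 3 * L := by linarith
        calc Le * Real.log (2 * V) * (V + 2 * L - V + 1) ≤ Le * (2 * L) * (3 * L) := by
              apply mul_le_mul _ h1 (by linarith) (by positivity)
              gcongr
          _ = _ := by ring
      have hE2' : (E2.card : ℝ) ≤ 6 * Le * L ^ 2 := by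
        refine hE2.trans ?_
        have h1 : 2 * V - (2 * V - 2 * L) + 1 ≤ 3 * L := by linarith
        calc Le * Real.log (2 * V) * (2 * V - (2 * V - 2 * L) + 1) ≤ Le * (2 * L) * (3 * L) := by
              apply mul_le_mul _ h1 (by linarith) (by positivity)
              gcongr
          _ = _ := by ring
      have hXV : XV V = (V - 2) * L / (2 * Real.pi) := rfl
      have hmain : A * (V * L / (2 * Real.pi)) ≤ A * XV V + ε / 2 * XV V := by
        rw [hXV]
        have h1 : A * 2 ≤ ε / 2 * (V - 2) := by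
          have h2 : 4 * A / ε ≤ V - 2 := by linarith
          rw [div_le_iff₀ hε] at h2
          linarith
        have h2 : 0 ≤ L / (2 * Real.pi) := by positivity
        have h3 := mul_le_mul_of_nonneg_right h1 h2
        have e1 : A * (V * L / (2 * Real.pi)) = A * ((V - 2) * L / (2 * Real.pi)) +
            A * 2 * (L / (2 * Real.pi)) := by ring
        have e2 : ε / 2 * ((V - 2) * L / (2 * Real.pi)) = ε / 2 * (V - 2) * (L / (2 * Real.pi)) := by
          ring
        rw [e1, e2]
        linarith
      have hedge : 12 * Le * L ^ 2 ≤ ε / 2 * XV V := by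
        rw [hXV]
        have h1 : 12 * Le * L ≤ ε / 2 * ((V - 2) / (2 * Real.pi)) := by
          have h2 : 12 * Le * L ≤ 12 * Le * (ε / (96 * Real.pi * Le) * V) := by gcongr
          have h3 : 12 * Le * (ε / (96 * Real.pi * Le) * V) = ε / 2 * (V / 2 / (2 * Real.pi)) := by
            field_simp
            ring
          rw [h3] at h2
          refine h2.trans ?_
          apply mul_le_mul_of_nonneg_left _ (by positivity)
          apply div_le_div_of_nonneg_right _ (by positivity)
          linarith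
        calc 12 * Le * L ^ 2 = (12 * Le * L) * L := by ring
          _ ≤ (ε / 2 * ((V - 2) / (2 * Real.pi))) * L := by gcongr
          _ = _ := by ring
      linarith) (A' - A) (by linarith)
  filter_upwards [hkey] with N hN
  have hN' := hN ()
  have e1 : {n : ℕ | 1 ≤ n ∧ n ≤ N ∧ P n} = ((Finset.Icc 1 N).filter P : Finset ℕ) := by
    ext n
    simp only [mem_setOf_eq, Finset.coe_filter, Finset.mem_Icc]
    tauto
  rw [e1, Set.ncard_coe_finset]
  rw [← Finset.sum_filter, Finset.sum_const, nsmul_eq_mul, mul_one, add_sub_cancel] at hN'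
  exact hN'

/-- the two normalisations of a single spacing -/
lemma hk_one {x0 x1 : ℝ} (h0 : 10 ≤ x0) (h01 : x0 ≤ x1) (h1 : x1 - x0 ≤ 1) :
    |(x1 * Real.log x1 - x0 * Real.log x0) / (2 * Real.pi) -
      (x1 - x0) / (2 * Real.pi) * Real.log (x0 / (2 * Real.pi))| ≤ x1 - x0 := by
  have hpi := Real.pi_gt_three
  have hpi4 := Real.pi_lt_four
  have hx0 : 0 < x0 := by linarith
  have hx1 : 0 < x1 := by linarith
  set g := x1 - x0 with hg
  have hg0 : 0 ≤ g := by rw [hg]; linarith
  set l := Real.log x1 - Real.log x0 with hl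
  have hl0 : 0 ≤ l := by
    rw [hl]
    have := Real.log_le_log hx0 h01
    linarith
  have hl1 : l * x0 ≤ g := by
    rw [hl, ← Real.log_div hx1.ne' hx0.ne']
    have := Real.log_le_sub_one_of_pos (div_pos hx1 hx0)
    calc Real.log (x1 / x0) * x0 ≤ (x1 / x0 - 1) * x0 := mul_le_mul_of_nonneg_right this hx0.le
      _ = g := by rw [hg]; field_simp
  have hl2 : l ≤ 1 := by nlinarith
  have h2pi : Real.log (2 * Real.pi) ≤ 3 := by
    have h2 : Real.log (2 * Real.pi) ≤ Real.log 8 := Real.log_le_log (by positivity) (by linarith)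
    have h3 : Real.log 8 = 3 * Real.log 2 := by
      rw [show (8 : ℝ) = 2 ^ 3 by norm_num, Real.log_pow]
      norm_num
    have := Real.log_two_lt_d9
    linarith
  have h2pi0 : 0 ≤ Real.log (2 * Real.pi) := Real.log_nonneg (by linarith)
  have e1 : (x1 * Real.log x1 - x0 * Real.log x0) / (2 * Real.pi) -
      (x1 - x0) / (2 * Real.pi) * Real.log (x0 / (2 * Real.pi)) =
      (g * Real.log (2 * Real.pi) + g * l + l * x0) / (2 * Real.pi) := by
    rw [Real.log_div hx0.ne' (by positivity), hg, hl]
    field_simp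
    ring
  rw [e1, abs_of_nonneg (by positivity), div_le_iff₀ (by positivity)]
  have h3 : g * Real.log (2 * Real.pi) ≤ g * 3 := mul_le_mul_of_nonneg_left h2pi hg0
  have h4 : g * l ≤ g * 1 := mul_le_mul_of_nonneg_left hl2 hg0
  have h5 : g * 6 ≤ g * (2 * Real.pi) := mul_le_mul_of_nonneg_left (by linarith) hg0
  linarith

lemma hk_sum (n r : ℕ) : hk n r = ∑ i ∈ Finset.range r, hk (n + i) 1 := by
  induction r with
  | zero => simp [hk]
  | succ r ih =>
    rw [Finset.sum_range_succ, ← ih]
    unfold hk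
    rw [show n + (r + 1) = n + r + 1 by ring]
    ring

/-- the two normalisations of the sums of `r` spacings agree asymptotically when one of them is
bounded -/
lemma hk_Sr (r : ℕ) (M δ : ℝ) (hδ : 0 < δ) : ∃ n0 : ℕ, 1 ≤ n0 ∧ ∀ n : ℕ, n0 ≤ n →
    (Sr r n ≤ M ∨ hk n r ≤ M) → |hk n r - Sr r n| ≤ δ := by
  have hpi := Real.pi_gt_three
  have hpi4 := Real.pi_lt_four
  set δ' := min δ 1 with hδ'
  have hδ0 : 0 < δ' := lt_min hδ one_pos
  set M' := max M 0 with hM'
  have hM0 : 0 ≤ M' := le_max_right _ _
  set X := 2 * Real.pi * Real.exp (2 * Real.pi * (M' + 1) / δ') with hX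
  obtain ⟨n0, hn0⟩ := eventually_atTop.1
    ((SG.ord_tendsto.eventually_ge_atTop (max X 10)).and (eventually_ge_atTop 1))
  refine ⟨max n0 1, le_max_right _ _, fun n hn h => ?_⟩
  obtain ⟨h1, hn1⟩ := hn0 n ((le_max_left _ _).trans hn)
  have hX1 : X ≤ ord n := (le_max_left _ _).trans h1
  have h10 : 10 ≤ ord n := (le_max_right _ _).trans h1
  have hm := SG.ord_mono hn1 (show n ≤ n + r by omega)
  set g := ord (n + r) - ord n with hg
  have hg0 : 0 ≤ g := by rw [hg]; linarith
  have hlog : 2 * Real.pi * (M' + 1) / δ' ≤ Real.log (ord n / (2 * Real.pi)) := by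
    rw [Real.le_log_iff_exp_le (by positivity), le_div_iff₀ (by positivity)]
    rw [hX] at hX1
    linarith
  have hlog0 : 0 < Real.log (ord n / (2 * Real.pi)) := lt_of_lt_of_le (by positivity) hlog
  have hSr := Sr_ge (r := r) hn1 (T := ord n) (by linarith) le_rfl
  have hlow : g / (2 * Real.pi) * Real.log (ord n / (2 * Real.pi)) ≤ M' := by
    rcases h with h | h
    · exact hSr.trans (h.trans (le_max_left _ _))
    · refine le_trans ?_ (h.trans (le_max_left _ _))
      unfold hk
      rw [div_mul_eq_mul_div]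
      apply div_le_div_of_nonneg_right _ (by positivity)
      have h2 : Real.log (ord n / (2 * Real.pi)) ≤ Real.log (ord n) := by
        apply Real.log_le_log (by positivity)
        apply div_le_self (by linarith) (by linarith)
      have h3 : Real.log (ord n) ≤ Real.log (ord (n + r)) := Real.log_le_log (by linarith) hm
      have h4 : g * Real.log (ord n / (2 * Real.pi)) ≤ g * Real.log (ord (n + r)) :=
        mul_le_mul_of_nonneg_left (h2.trans h3) hg0
      have h5 : ord n * Real.log (ord n) ≤ ord n * Real.log (ord (n + r)) :=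
        mul_le_mul_of_nonneg_left h3 (by linarith)
      rw [hg] at h4 ⊢
      linarith
  have hgδ : g ≤ δ' := by
    by_contra hc
    rw [not_le] at hc
    have h2 : δ' / (2 * Real.pi) * (2 * Real.pi * (M' + 1) / δ') ≤
        g / (2 * Real.pi) * Real.log (ord n / (2 * Real.pi)) := by
      apply mul_le_mul _ hlog (by positivity) (by positivity)
      apply div_le_div_of_nonneg_right hc.le (by positivity)
    have h3 : δ' / (2 * Real.pi) * (2 * Real.pi * (M' + 1) / δ') = M' + 1 := by
      field_simp
    linarith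
  have hg1 : g ≤ 1 := hgδ.trans (min_le_right _ _)
  rw [hk_sum, Sr, ← Finset.sum_sub_distrib]
  refine le_trans (Finset.abs_sum_le_sum_abs _ _) ?_
  calc ∑ i ∈ Finset.range r, |hk (n + i) 1 - dl (n + i)| ≤
      ∑ i ∈ Finset.range r, (ord (n + (i + 1)) - ord (n + i)) := by
        apply Finset.sum_le_sum
        intro i hi
        rw [Finset.mem_range] at hi
        have q1 := SG.ord_mono hn1 (show n ≤ n + i by omega)
        have q2 := SG.ord_mono (show 1 ≤ n + i by omega) (show n + i ≤ n + i + 1 by omega)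
        have q3 := SG.ord_mono (show 1 ≤ n + i + 1 by omega) (show n + i + 1 ≤ n + r by omega)
        have q4 := hk_one (x0 := ord (n + i)) (x1 := ord (n + i + 1)) (by linarith) q2 (by
          rw [hg] at hg1
          linarith)
        exact q4
    _ = g := by
        rw [Finset.sum_range_sub (fun i => ord (n + i)) r, add_zero]
    _ ≤ δ := hgδ.trans (min_le_left _ _)

end Pool.Agent.T9h26.TD
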