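import Pool.Agent.T9h26.TD.Kp

set_option autoImplicit false

/-! The local limit theorem for all indices. -/

open Complex Filter Topology Set MeasureTheory

namespace Pool.Agent.T9h26.TD

open TC (ordz ordT mu EFD)
open SG (ord NZ zmult ZS)
open W200.HW (Ix mem_Ix)
open Pool.Agent.Y747 (al dl Bx mem_Bx Jx mem_Jx)

/-- **the local limit theorem** -/
theorem llt_all (RH : RiemannHypothesis) {ε : ℝ} (hε : 0 < ε) : ∃ A r0 : ℝ, 1 ≤ A ∧ 10 ≤ r0 ∧
    ∀ (r : ℕ) (a lam : ℝ), r0 ≤ r →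
      |a| ≤ Real.log r → A * Real.log (Real.log r) ≤ lam → A * lam ≤ Real.sqrt (Real.log r) →
      ∀ ρ : ℕ → ℝ, Tendsto (fun j => hk j 1 - ρ j) atTop (𝓝 0) →
      ∀ᶠ N : ℕ in atTop,
        |(({n : ℕ | 1 ≤ n ∧ n ≤ N ∧ r + a ≤ ∑ i ∈ Finset.range r, ρ (n + i) ∧
          ∑ i ∈ Finset.range r, ρ (n + i) < r + a + lam}.ncard : ℕ) : ℝ) -
          gd (Real.log r) a lam * N| ≤ ε * (lam / Real.sqrt (Real.log r)) * N := by
  classical
  obtain ⟨C', T0, hC', hT0, hef⟩ := Pool.Agent.W930.TCEFR.efr RH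
  set e := min (ε / 400) (1 / 100) with he
  have he0 : 0 < e := lt_min (by positivity) (by norm_num)
  have he1 : e ≤ 1 / 100 := min_le_right _ _
  have he2 : 400 * e ≤ ε := by
    have := min_le_left (ε / 400) (1 / 100)
    rw [← he] at this
    linarith
  obtain ⟨A, r0, hA, hr0, hblk⟩ := blkK RH hC' he0 he1
  refine ⟨A, r0, hA, hr0, fun r a lam hr ha h1 h2 ρ hρ => ?_⟩
  obtain ⟨T1, hT1, hb⟩ := hblk r a lam hr ha h1 h2
  have hr10 : 10 ≤ (r : ℝ) := hr0.trans hr
  have hlog : 1 < Real.log r := by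
    rw [Real.lt_log_iff_exp_lt (by linarith)]
    have := Real.exp_one_lt_d9
    linarith
  have hll : 0 < Real.log (Real.log r) := Real.log_pos hlog
  have hlam : 0 < lam := lt_of_lt_of_le (by positivity) h1
  set q := lam / Real.sqrt (Real.log r) with hq
  have hq0 : 0 < q := div_pos hlam (Real.sqrt_pos.2 (by linarith))
  set G := gd (Real.log r) a lam with hG
  have hG0 : 0 ≤ G := gd_nonneg hlam.le
  set S : ℕ → ℝ := fun n => ∑ i ∈ Finset.range r, ρ (n + i) with hS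
  obtain ⟨P, hP⟩ : ∃ P : ℕ → Prop, P = fun n => r + a ≤ S n ∧ S n < r + a + lam := ⟨_, rfl⟩
  -- comparison of the sums
  obtain ⟨n1, hn1, hc1⟩ := hk_Sr r (r + a + lam + 1) (1 / 8) (by norm_num)
  have hρ' : ∀ᶠ j in atTop, |hk j 1 - ρ j| ≤ 1 / (16 * (r + 1)) := by
    have h3 := (Metric.tendsto_nhds.1 hρ) (1 / (16 * (r + 1))) (by positivity)
    filter_upwards [h3] with j hj
    rw [Real.dist_eq, sub_zero] at hj
    exact hj.le
  obtain ⟨n2, hn2⟩ := eventually_atTop.1 hρ'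
  set n3 := max n1 n2 with hn3
  have hc2 : ∀ n, n3 ≤ n → |hk n r - S n| ≤ 1 / 16 := by
    intro n hn
    rw [hk_sum, hS]
    simp only
    rw [← Finset.sum_sub_distrib]
    calc |∑ i ∈ Finset.range r, (hk (n + i) 1 - ρ (n + i))| ≤
        ∑ i ∈ Finset.range r, |hk (n + i) 1 - ρ (n + i)| := Finset.abs_sum_le_sum_abs _ _
      _ ≤ ∑ _i ∈ Finset.range r, 1 / (16 * ((r : ℝ) + 1)) := by
          apply Finset.sum_le_sum
          intro i _
          apply hn2
          have : n2 ≤ n := (le_max_right _ _).trans hn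
          omega
      _ = r * (1 / (16 * ((r : ℝ) + 1))) := by
          rw [Finset.sum_const, Finset.card_range, nsmul_eq_mul]
      _ ≤ 1 / 16 := by
          rw [mul_one_div, div_le_div_iff₀ (by positivity) (by norm_num)]
          linarith
  have F1 : ∀ n, n3 ≤ n → P n → r + a - 1 / 4 ≤ Sr r n ∧ Sr r n ≤ r + a + lam + 1 / 4 := by
    intro n hn hPn
    rw [hP] at hPn
    obtain ⟨p1, p2⟩ := hPn
    have q1 := hc2 n hn
    rw [abs_le] at q1
    have q2 := hc1 n ((le_max_left _ _).trans hn) (Or.inr (by linarith))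
    rw [abs_le] at q2
    constructor <;> linarith
  have F2 : ∀ n, n3 ≤ n → r + a + 1 / 4 ≤ Sr r n → Sr r n ≤ r + a + lam - 1 / 4 → P n := by
    intro n hn p1 p2
    have q1 := hc2 n hn
    rw [abs_le] at q1
    have q2 := hc1 n ((le_max_left _ _).trans hn) (Or.inl (by linarith))
    rw [abs_le] at q2
    rw [hP]
    constructor <;> linarith
  set T2 := max T1 (ord n3) with hT2
  have hT12 : T1 ≤ T2 := le_max_left _ _
  have hn31 : 1 ≤ n3 := hn1.trans (le_max_left _ _)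
  have hKn : ∀ T U1 U2 : ℝ, T2 ≤ T → T ≤ U1 → ∀ n ∈ Kx U1 U2, n3 ≤ n := by
    intro T U1 U2 hT hU n hn
    obtain ⟨k1, k2, -⟩ := mem_Kx.1 hn
    by_contra hc
    rw [not_le] at hc
    have k3 := SG.ord_mono k1 hc.le
    have k4 : ord n3 ≤ T2 := le_max_right _ _
    linarith
  -- upper bound
  have hup : ∀ᶠ N : ℕ in atTop, (({n : ℕ | 1 ≤ n ∧ n ≤ N ∧ P n}.ncard : ℕ) : ℝ) ≤
      (G + ε * q) * N := by
    refine up_all RH (A := G + 200 * e * q) (by positivity) ?_ hT0 hef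
      ⟨T2, hT1.trans hT12, fun T hT U1 U2 u1 u2 u3 u4 u5 B hB hBP => ?_⟩
    · nlinarith
    · exact (hb T (hT12.trans hT) U1 U2 u1 u2 u3 u4 u5 P
        (fun n hn => F1 n (hKn T U1 U2 hT u1 n hn))
        (fun n hn => F2 n (hKn T U1 U2 hT u1 n hn))).1 B hB hBP
  -- lower bound
  have hlo : ∀ᶠ N : ℕ in atTop, (G - ε * q) * N ≤
      (({n : ℕ | 1 ≤ n ∧ n ≤ N ∧ P n}.ncard : ℕ) : ℝ) := by
    have hlt : G - ε * q < G - 200 * e * q := by nlinarith
    rcases le_or_gt 0 (G - 200 * e * q) with hs | hs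
    · refine low_all RH hs hlt hT0 hef
        ⟨T2, hT1.trans hT12, fun T hT U1 U2 u1 u2 u3 u4 u5 => ?_⟩
      have h3 := (hb T (hT12.trans hT) U1 U2 u1 u2 u3 u4 u5 P
        (fun n hn => F1 n (hKn T U1 U2 hT u1 n hn))
        (fun n hn => F2 n (hKn T U1 U2 hT u1 n hn))).2
      refine h3.trans ?_
      apply Nat.cast_le.2
      apply Finset.card_le_card
      intro n hn
      rw [Finset.mem_filter, mem_Kx] at hn
      rw [Finset.mem_filter, mem_Jx]
      exact ⟨⟨hn.1.1, by linarith, by linarith⟩, hn.2⟩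
    · filter_upwards with N
      have h3 : (G - ε * q) * N ≤ 0 :=
        mul_nonpos_of_nonpos_of_nonneg (by linarith) (Nat.cast_nonneg N)
      exact h3.trans (Nat.cast_nonneg _)
  filter_upwards [hup, hlo] with N k1 k2
  rw [hP] at k1 k2
  rw [abs_le]
  constructor <;> linarith

end Pool.Agent.T9h26.TD
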