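import Pool.Agent.T9h26.TD.Ze

set_option autoImplicit false

/-! Windows and field: one window. -/

open Complex Filter Topology Set MeasureTheory

namespace Pool.Agent.T9h26.TD

open TC (ordz ordT mu EFD)
open SG (ord NZ zmult ZS)
open W200.HW (Ix mem_Ix)
open Pool.Agent.Y747 (al)

lemma wpar {k : ℕ} (hk : 2 ≤ k) {y : ℝ} (hy : 4 * (k : ℝ) ≤ y) : ∃ (j : ℕ) (b : ℝ), 1 ≤ j ∧ 0 < b ∧
    b ≤ 1 / k ∧ b ≤ 1 / 2 ∧ b * y = j ∧ 1 / b ≤ 2 * k := by
  have hk0 : (0 : ℝ) < k := by exact_mod_cast (by omega : 0 < k)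
  have hk2 : (2 : ℝ) ≤ k := by exact_mod_cast hk
  have hy0 : 0 < y := by linarith
  have hyk : 4 ≤ y / k := by
    rw [le_div_iff₀ hk0]
    linarith
  set j := ⌊y / k⌋₊ with hj
  have hj1 : (j : ℝ) ≤ y / k := Nat.floor_le (by positivity)
  have hj2 : y / k < j + 1 := Nat.lt_floor_add_one _
  have hj3 : y / (2 * k) ≤ j := by
    have : y / (2 * k) = y / k / 2 := by
      field_simp
    rw [this]
    linarith
  have hj4 : (1 : ℝ) ≤ j := by linarith
  have hj0 : (0 : ℝ) < j := by linarith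
  have hbk : (j : ℝ) / y ≤ 1 / k := by
    rw [div_le_div_iff₀ hy0 hk0]
    rw [le_div_iff₀ hk0] at hj1
    linarith
  refine ⟨j, j / y, by exact_mod_cast hj4, by positivity, hbk, hbk.trans ?_, by field_simp, ?_⟩
  · exact one_div_le_one_div_of_le (by norm_num) hk2
  · rw [one_div_div, div_le_iff₀ hj0]
    rw [div_le_iff₀ (by positivity)] at hj3
    linarith

lemma ms_biUnion {ι : Type*} (T : ℝ) (s : Finset ι) (A : ι → Set ℝ) :
    ms T {t | ∃ i ∈ s, t ∈ A i} ≤ ∑ i ∈ s, ms T (A i) := by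
  classical
  induction s using Finset.induction_on with
  | empty =>
    rw [Finset.sum_empty]
    have : {t : ℝ | ∃ i ∈ (∅ : Finset ι), t ∈ A i} = ∅ := by
      ext t
      simp
    rw [this]
    unfold ms
    simp
  | insert a s ha ih =>
    rw [Finset.sum_insert ha]
    refine (ms_union_of (S1 := A a) (S2 := {t | ∃ i ∈ s, t ∈ A i}) ?_).trans (by linarith)
    rintro t _ _ ⟨i, hi, ht⟩
    rcases Finset.mem_insert.1 hi with h | h
    · left; rw [← h]; exact ht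
    · right; exact ⟨i, h, ht⟩

/-- one window, one weight -/
lemma win_core {C' : ℝ} (hC' : 0 < C') {S : Finset ℕ} {j : ℕ} {σ : ℝ} (hσ : |σ| ≤ 1)
    (hKer : Ker S j σ) {b y a a0 α x θ v1 v2 : ℝ} {J1 J2 : ℕ}
    (hb : 0 < b) (hb2 : b ≤ 1 / 2) (hby : b * y = j) (hy : 0 ≤ y) (ha : 0 < a) (haa : a ≤ a0)
    (ha02 : 2 * a0 ≤ 1 / 2)
    (hab : 2 * a0 ≤ b) (hα : 0 < α) (hα0 : α ≤ 2 * a0) (hαb : 14 * α ≤ 2 * b)
    (hαy : y * α ≤ 1) (hx : 0 < x) (hθ : 0 < θ) (hθ1 : θ ≤ 1 / 2)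
    (hv1 : 204 + 2 * Real.log (max 1 (2 * a / α)) ≤ v1) (hv2 : 256 * Real.log (b / a0) ≤ v2)
    (hJ1 : (J1 : ℝ) * (2 * a0) < 1) (hJ2 : (J2 : ℝ) * b < 1)
    (h1 : J1.factorial * v1 ^ J1 / x ^ (2 * J1) < θ)
    (h2 : J2.factorial * v2 ^ J2 / x ^ (2 * J2) < θ) :
    ∃ T1 : ℝ, 10 ≤ T1 ∧ ∀ T : ℝ, T1 ≤ T → ∀ (Z : Finset ℝ) (m : ℝ → ℕ), EFD C' T Z m →
      ∀ s : ℝ, 0 ≤ s → s ≤ 1 → ms T {t | ¬ (|SX Z m (sc (Gs S j b) b) (Real.log T) (t + s) -
        (sc (Gs S j b) b 0 / 2 - (PW (sc (Gs S j b) b) b T (t + s)).re)| ≤ 1 / 2 ∧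
        ‖PZ (fun u => (Elo (sc (Gs S j b) b) y a a0 u : ℂ)) T (t + s)‖ < x ∧
        ‖PZ (fun u => (Ehi (sc (Gs S j b) b) a0 u : ℂ)) T (t + s)‖ < x)} ≤ 4 * θ * T := by
  obtain ⟨K', hWt⟩ := sc_wt (Gs_contDiff S j b) (Gs_one S j b) hb hb2
  have h0 : 0 < a0 := by linarith
  obtain ⟨K1, hz1⟩ := wz_lo hWt y ha haa ha02
  obtain ⟨K2, hz2⟩ := wz_hi hWt h0
  have hvl := (var_lo hσ hKer hb hby hy ha haa hab (by linarith) hα hα0 hαb hαy).trans hv1
  have hvh := (var_hi hσ hKer hb hby hy h0 (by linarith) (by linarith)).trans hv2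
  have hvl0 := var_nonneg (nw fun u => (Elo (sc (Gs S j b) b) y a a0 u : ℂ))
  have hvh0 := var_nonneg (nw fun u => (Ehi (sc (Gs S j b) b) a0 u : ℂ))
  have m1 := mkv hz1 hJ1 hx (lt_of_le_of_lt (by gcongr) h1)
  have m2 := mkv hz2 hJ2 hx (lt_of_le_of_lt (by gcongr) h2)
  obtain ⟨T1, hT1, hef⟩ := ef_ms hWt hC' hθ
  obtain ⟨T2, hT2⟩ := eventually_atTop.1 ((m1.and m2).and (eventually_ge_atTop (3 / θ)))
  refine ⟨max T1 T2, hT1.trans (le_max_left _ _), fun T hT Z m hE s hs0 hs1 => ?_⟩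
  have k1 := hef T ((le_max_left _ _).trans hT) Z m hE
  obtain ⟨⟨k2, k3⟩, k4⟩ := hT2 T ((le_max_right _ _).trans hT)
  rw [div_le_iff₀ hθ] at k4
  set F1 : Set ℝ := {t | θ < |SX Z m (sc (Gs S j b) b) (Real.log T) t -
        (sc (Gs S j b) b 0 / 2 - (PW (sc (Gs S j b) b) b T t).re)|} with hF1
  set F2 : Set ℝ := {t | x ≤ ‖PZ (fun u => (Elo (sc (Gs S j b) b) y a a0 u : ℂ)) T t‖} with hF2
  set F3 : Set ℝ := {t | x ≤ ‖PZ (fun u => (Ehi (sc (Gs S j b) b) a0 u : ℂ)) T t‖} with hF3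
  have n1 := ms_shift (T := T) hs0 F1
  have n2 := ms_shift (T := T) hs0 F2
  have n3 := ms_shift (T := T) hs0 F3
  have hsub : ms T {t | ¬ (|SX Z m (sc (Gs S j b) b) (Real.log T) (t + s) -
        (sc (Gs S j b) b 0 / 2 - (PW (sc (Gs S j b) b) b T (t + s)).re)| ≤ 1 / 2 ∧
        ‖PZ (fun u => (Elo (sc (Gs S j b) b) y a a0 u : ℂ)) T (t + s)‖ < x ∧
        ‖PZ (fun u => (Ehi (sc (Gs S j b) b) a0 u : ℂ)) T (t + s)‖ < x)} ≤
      ms T {t | t + s ∈ F1} + (ms T {t | t + s ∈ F2} + ms T {t | t + s ∈ F3}) := by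
    refine (ms_union_of (S1 := {t | t + s ∈ F1}) (S2 := {t | t + s ∈ F2} ∪ {t | t + s ∈ F3})
      ?_).trans ?_
    · intro t _ _ ht
      by_cases c1 : t + s ∈ F1
      · left; exact c1
      by_cases c2 : t + s ∈ F2
      · right; left; exact c2
      by_cases c3 : t + s ∈ F3
      · right; right; exact c3
      exfalso
      apply ht
      refine ⟨(not_lt.1 c1).trans hθ1, not_le.1 c2, not_le.1 c3⟩
    · have := ms_union T {t | t + s ∈ F2} {t | t + s ∈ F3}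
      linarith
  linarith

/-- the field, as a discrepancy -/
noncomputable def FD (a a0 : ℝ) (T t : ℝ) (c : ℝ) : ℝ :=
  -(PZ (fW (I / Real.pi) (kd a a0) c) T t).re

/-- one window: both counts -/
lemma win_cnt (RH : RiemannHypothesis) {C' : ℝ} (hC' : 0 < C') {k : ℕ} (hk : 2 ≤ k)
    {a a0 α x θ v1 v2 Q : ℝ} {J1 : ℕ} {c c' : ℝ} (hc' : 0 ≤ c') (hcc : 4 * (k : ℝ) ≤ c - c')
    (ha : 0 < a) (haa : a ≤ a0) (ha02 : 2 * a0 ≤ 1 / 2)
    (hab : 2 * a0 ≤ 1 / (2 * k)) (hα : 0 < α) (hα0 : α ≤ 2 * a0) (hαb : 14 * α ≤ 1 / k)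
    (hαy : (c - c') * α ≤ 1) (hx : 0 < x) (hθ : 0 < θ) (hθ1 : θ ≤ 1 / 2)
    (hv1 : 204 + 2 * Real.log (max 1 (2 * a / α)) ≤ v1)
    (hv2 : 256 * Real.log (1 / (k * a0)) ≤ v2)
    (hJ1 : (J1 : ℝ) * (2 * a0) < 1)
    (h1 : J1.factorial * v1 ^ J1 / x ^ (2 * J1) < θ)
    (h2 : (k - 1).factorial * v2 ^ (k - 1) / x ^ (2 * (k - 1)) < θ) :
    ∃ T1 : ℝ, 10 ≤ T1 ∧ ∀ T : ℝ, T1 ≤ T → ∀ U1 U2 : ℝ, 1 ≤ U1 → EFD C' T (ordz U1 U2) mu →
      ms T {t | ¬ (|FD a a0 T t c| ≤ Q → |FD a a0 T t c'| ≤ Q →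
        (c - c') + (FD a a0 T t c - FD a a0 T t c') - (2 * k + 2 * x + 1) ≤
          (cO U1 U2 (t + Real.pi * (c + c') / Real.log T)
            (Real.pi * (c - c') / Real.log T) : ℝ) ∧
        (cC U1 U2 (t + Real.pi * (c + c') / Real.log T)
            (Real.pi * (c - c') / Real.log T) : ℝ) ≤
          (c - c') + (FD a a0 T t c - FD a a0 T t c') + (2 * k + 2 * x + 1))} ≤ 8 * θ * T := by
  set y := c - c' with hyd
  have hk0 : (0 : ℝ) < k := by exact_mod_cast (by omega : 0 < k)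
  have hy0 : 0 < y := by linarith
  have h0 : 0 < a0 := by linarith
  obtain ⟨j, b, hj, hb, hbk, hb2, hby, hbi⟩ := wpar hk hcc
  have hb3 : 1 / (2 * (k : ℝ)) ≤ b := by
    rw [div_le_iff₀ (by positivity)]
    rw [div_le_iff₀ hb] at hbi
    linarith
  have hJ2 : ((k - 1 : ℕ) : ℝ) * b < 1 := by
    rw [Nat.cast_sub (by omega)]
    have : ((k : ℝ) - (1 : ℕ)) * b ≤ (k - 1) * (1 / k) := by
      push_cast
      apply mul_le_mul_of_nonneg_left hbk
      have : (2 : ℝ) ≤ k := by exact_mod_cast hk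
      linarith
    refine lt_of_le_of_lt this ?_
    rw [mul_one_div, div_lt_one hk0]
    linarith
  have hv2' : 256 * Real.log (b / a0) ≤ v2 := by
    refine le_trans ?_ hv2
    apply mul_le_mul_of_nonneg_left _ (by norm_num)
    apply Real.log_le_log (by positivity)
    rw [div_le_iff₀ h0]
    have : 1 / ((k : ℝ) * a0) * a0 = 1 / k := by field_simp
    rw [this]
    exact hbk
  have hαb' : 14 * α ≤ 2 * b := by
    have : 1 / (k : ℝ) = 2 * (1 / (2 * k)) := by field_simp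
    linarith
  obtain ⟨T1, hT1, g1⟩ := win_core hC' (S := Finset.Ico 1 j) (σ := -1) (by norm_num) (ker_Ico hj)
    (J2 := k - 1) hb hb2 hby hy0.le ha haa ha02 (hab.trans hb3) hα hα0 hαb' hαy hx hθ hθ1 hv1 hv2'
    hJ1 hJ2 h1 h2
  obtain ⟨T2, hT2, g2⟩ := win_core hC' (S := Finset.range (j + 1)) (σ := 1) (by norm_num)
    (ker_range j) (J2 := k - 1) hb hb2 hby hy0.le ha haa ha02 (hab.trans hb3) hα hα0 hαb' hαy hx hθ
    hθ1 hv1 hv2' hJ1 hJ2 h1 h2
  set B0 := y + 2 * k + 2 * |Q| + 2 * x + 1 with hB0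
  have hB00 : 0 < B0 := by positivity
  obtain ⟨T3, hT3⟩ := eventually_atTop.1 ((gau_ev y (B0 + 1) (show (0 : ℝ) < 1 / 4 by norm_num)).and
    (Real.tendsto_log_atTop.eventually_ge_atTop (Real.pi * (c + c'))))
  obtain ⟨m1, m2⟩ := min_wt hj hb hb2 hby
  obtain ⟨n1, n2⟩ := maj_wt hj hb hb2 hby
  refine ⟨max T1 (max T2 T3), hT1.trans (le_max_left _ _), fun T hT U1 U2 hU hE => ?_⟩
  have a1 : T1 ≤ T := (le_max_left _ _).trans hT
  have a2 : T2 ≤ T := ((le_max_left _ _).trans (le_max_right _ _)).trans hT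
  have a3 : T3 ≤ T := ((le_max_right _ _).trans (le_max_right _ _)).trans hT
  have hT10 : 10 ≤ T := hT1.trans a1
  have hL : 0 < Real.log T := Real.log_pos (by linarith)
  obtain ⟨b1, b2⟩ := hT3 T a3
  have hcc0 : 0 ≤ c + c' := by linarith
  set s := Real.pi * (c + c') / Real.log T with hs
  have hs0 : 0 ≤ s := by positivity
  have hs1 : s ≤ 1 := by rw [hs, div_le_one hL]; exact b2
  have hs2 : s = 2 * Real.pi * ((c + c') / 2) / Real.log T := by rw [hs]; ring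
  have k1 := g1 T a1 _ _ hE s hs0 hs1
  have k2 := g2 T a2 _ _ hE s hs0 hs1
  refine (ms_union_of ?_).trans ((add_le_add k1 k2).trans (le_of_eq (by ring)))
  intro t _ _ ht
  by_contra hcon
  apply ht
  rw [not_or] at hcon
  obtain ⟨p1, p2⟩ := hcon
  have p1' := not_not.1 p1
  have p2' := not_not.1 p2
  obtain ⟨q1, q2, q3⟩ := p1'
  obtain ⟨r1, r2, r3⟩ := p2'
  intro hQ1 hQ2
  obtain ⟨K1, hWt1⟩ := sc_wt (Gs_contDiff (Finset.Ico 1 j) j b) (Gs_one _ j b) hb hb2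
  obtain ⟨K2, hWt2⟩ := sc_wt (Gs_contDiff (Finset.range (j + 1)) j b) (Gs_one _ j b) hb hb2
  have w1 := win_eq hWt1 (by linarith : 1 < T) a a0 c c' t
  have w2 := win_eq hWt2 (by linarith : 1 < T) a a0 c c' t
  rw [← hs2, ← hyd] at w1 w2
  have x1 := congrArg Complex.re w1
  have x2 := congrArg Complex.re w2
  rw [Complex.add_re, Complex.sub_re, Complex.add_re] at x1 x2
  have y1 := (Complex.abs_re_le_norm _).trans q2.le
  have y2 := (Complex.abs_re_le_norm _).trans q3.le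
  have y3 := (Complex.abs_re_le_norm _).trans r2.le
  have y4 := (Complex.abs_re_le_norm _).trans r3.le
  rw [abs_le] at y1 y2 y3 y4 q1 r1
  unfold FD at hQ1 hQ2 ⊢
  rw [abs_neg] at hQ1 hQ2
  rw [min_zero hj hb hby] at q1
  rw [maj_zero hb hby] at r1
  constructor
  · have h6 := SX_le RH (U2 := U2) hU (w := sc (Gs (Finset.Ico 1 j) j b) b) (L := Real.log T)
        (x0 := Real.pi * y) (ρ := Real.pi * y / Real.log T) (B := 1) hL zero_le_one m1 m2
        (le_of_eq (mul_div_cancel₀ _ hL.ne').symm) (t + s)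
    rw [mul_one] at h6
    linarith [q1.1, q1.2, y1.1, y1.2, y2.1, y2.2]
  · have h6 := SX_ge RH (U2 := U2) hU (w := sc (Gs (Finset.range (j + 1)) j b) b)
        (L := Real.log T) (x0 := Real.pi * y) (ρ := Real.pi * y / Real.log T) (c := 1) hL
        zero_le_one n1 n2 (le_of_eq (mul_div_cancel₀ _ hL.ne')) (t + s)
    rw [one_mul] at h6
    set E := Real.exp (-(Real.pi * y / Real.log T) ^ 2 / 2) with hE'
    have hE0 : 0 < E := Real.exp_pos _
    set X := y + (-(PZ (fW (I / Real.pi) (kd a a0) c) T t).re -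
      -(PZ (fW (I / Real.pi) (kd a a0) c') T t).re) + (2 * k + 2 * x + 1 / 2) with hX
    have hXE : (cC U1 U2 (t + s) (Real.pi * y / Real.log T) : ℝ) * E ≤ X := by
      linarith [r1.1, r1.2, y3.1, y3.2, y4.1, y4.2]
    have hXB : X ≤ B0 := by
      have e1 := le_abs_self Q
      rw [abs_le] at hQ1 hQ2
      linarith [hQ1.1, hQ2.2]
    have hgoal : (cC U1 U2 (t + s) (Real.pi * y / Real.log T) : ℝ) ≤ X + 1 / 4 := by
      set N := (cC U1 U2 (t + s) (Real.pi * y / Real.log T) : ℝ) with hN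
      have hN0 : 0 ≤ N := Nat.cast_nonneg _
      rcases le_or_gt N (B0 + 1) with h7 | h7
      · have h8 : N * (1 - E) ≤ (B0 + 1) * (1 - E) := by
          apply mul_le_mul_of_nonneg_right h7
          have : E ≤ 1 := by
            rw [hE', Real.exp_le_one_iff]
            have := sq_nonneg (Real.pi * y / Real.log T)
            linarith
          linarith
        linarith
      · exfalso
        have h8 : (B0 + 1) * E ≤ N * E := by gcongr
        linarith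
    linarith

end Pool.Agent.T9h26.TD
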