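import Pool.Agent.T9h26.TD.La
import Pool.Agent.T9h26.TD.Zf

set_option autoImplicit false

/-! Large deviations: the parameters. -/

open Complex Filter Topology Set MeasureTheory

namespace Pool.Agent.T9h26.TD

/-- windows of all lengths up to `2 r` -/
lemma par2 {ε : ℝ} (hε : 0 < ε) : ∃ r0 : ℝ, 10 ≤ r0 ∧ ∀ r : ℝ, r0 ≤ r → ∀ k : ℕ, 2 ≤ k →
    (k : ℝ) ≤ Real.log r ^ 2 → ∀ y : ℝ, 4 * (k : ℝ) ≤ y → y ≤ 2 * r → ∃ (j : ℕ) (b : ℝ),
      1 ≤ j ∧ 0 < b ∧ b ≤ 1 / k ∧ b ≤ 1 / 2 ∧ b * y = j ∧ 1 / b ≤ 2 * k ∧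
      ∀ (S : Finset ℕ) (σ : ℝ), |σ| ≤ 1 → Ker S j σ → S.card ≤ j + 1 →
        var (sc (Gs S j b) b) ≤ (1 + ε) * Vr r ∧
          (r / 2 ≤ y → (1 - ε) * Vr r ≤ var (sc (Gs S j b) b)) := by
  have ev1 : ∀ᶠ r : ℝ in atTop, Real.log (Real.log r) ≤ ε / 20 * Real.log r := by
    have h1 := (Real.isLittleO_log_id_atTop.bound (show 0 < ε / 20 by positivity))
    have h2 := Real.tendsto_log_atTop.eventually h1
    filter_upwards [h2, eventually_ge_atTop 1] with r h3 h4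
    have h5 := (le_abs_self _).trans h3
    rw [id, Real.norm_eq_abs, abs_of_nonneg (Real.log_nonneg h4)] at h5
    exact h5
  have ev2 : ∀ᶠ r : ℝ in atTop, 3040 / ε + 10 ≤ Real.log r :=
    Real.tendsto_log_atTop.eventually_ge_atTop _
  obtain ⟨r1, h1⟩ := eventually_atTop.1 (ev1.and ev2)
  refine ⟨max 10 r1, le_max_left _ _, fun r hr k hk hk2 y hy1 hy2 => ?_⟩
  obtain ⟨a1, a2⟩ := h1 r ((le_max_right _ _).trans hr)
  have hr10 : 10 ≤ r := (le_max_left _ _).trans hr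
  have hr0 : 0 < r := by linarith
  have hq : 0 < 3040 / ε := by positivity
  have hlog10 : 10 ≤ Real.log r := by linarith
  have hlog0 : 0 < Real.log r := by linarith
  have hk0 : (0 : ℝ) < k := by exact_mod_cast (by omega : 0 < k)
  have hk2' : (2 : ℝ) ≤ k := by exact_mod_cast hk
  have hy0 : 0 < y := by linarith
  obtain ⟨j, b, hj, hb, hbk, hb2, hby, hbi⟩ := wpar hk hy1
  have hj0 : (0 : ℝ) < j := by exact_mod_cast hj
  have hj1 : (1 : ℝ) ≤ j := by exact_mod_cast hj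
  have hjr : (j : ℝ) ≤ r := by
    rw [← hby]
    calc b * y ≤ 1 / k * (2 * r) := by gcongr
      _ ≤ 1 / 2 * (2 * r) := by gcongr
      _ = r := by ring
  have t1 := two_pi_sq
  have t2 := two_pi_sq'
  have hV : 1 / 5 * Real.log r ≤ Vr r := by
    unfold Vr
    exact mul_le_mul_of_nonneg_right t1 hlog0.le
  have h8 : 3040 ≤ ε * Real.log r := by
    have h9 : 3040 / ε ≤ Real.log r := by linarith
    rw [div_le_iff₀ hε] at h9
    linarith
  have h9 : ε * (1 / 5 * Real.log r) ≤ ε * Vr r := mul_le_mul_of_nonneg_left hV hε.le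
  refine ⟨j, b, hj, hb, hbk, hb2, hby, hbi, fun S σ hσ hKer hS => ?_⟩
  have hv := abs_le.1 (var_sel hσ hKer hS hj hb hb2)
  constructor
  · have l1 : Real.log j ≤ Real.log r := Real.log_le_log hj0 hjr
    have l2 : 2 / Real.pi ^ 2 * Real.log j ≤ Vr r := by
      unfold Vr
      gcongr
    linarith [hv.2]
  · intro hyr
    have l2 : Real.log r - (2 + 2 * Real.log (Real.log r)) ≤ Real.log j := by
      have h2 : r / (4 * Real.log r ^ 2) ≤ j := by
        rw [← hby]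
        have h3 : 1 / (2 * (k : ℝ)) ≤ b := by
          rw [div_le_iff₀ (by positivity)]
          rw [div_le_iff₀ hb] at hbi
          linarith
        have h4 : 1 / (2 * Real.log r ^ 2) ≤ 1 / (2 * (k : ℝ)) := by gcongr
        calc r / (4 * Real.log r ^ 2) = 1 / (2 * Real.log r ^ 2) * (r / 2) := by
              field_simp
              ring
          _ ≤ b * y := by
              apply mul_le_mul (h4.trans h3) hyr (by positivity) hb.le
      have h3 := Real.log_le_log (by positivity) h2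
      rw [Real.log_div hr0.ne' (by positivity), Real.log_mul (by norm_num) (by positivity),
        Real.log_pow] at h3
      have h4 : Real.log 4 ≤ 2 := by
        rw [show (4 : ℝ) = 2 ^ 2 by norm_num, Real.log_pow]
        have := Real.log_two_lt_d9
        push_cast
        linarith
      push_cast at h3
      linarith
    have hll : 0 ≤ Real.log (Real.log r) := Real.log_nonneg (by linarith)
    have h5 : Vr r - (2 + 2 * Real.log (Real.log r)) ≤ 2 / Real.pi ^ 2 * Real.log j := by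
      have h6 : 2 / Real.pi ^ 2 * (Real.log r - (2 + 2 * Real.log (Real.log r))) ≤
        2 / Real.pi ^ 2 * Real.log j := mul_le_mul_of_nonneg_left l2 (by positivity)
      have h7 : 2 / Real.pi ^ 2 * (2 + 2 * Real.log (Real.log r)) ≤
        1 * (2 + 2 * Real.log (Real.log r)) := mul_le_mul_of_nonneg_right t2 (by positivity)
      unfold Vr
      linarith
    linarith [hv.1]

/-- the number of moments of the lower bound -/
lemma lowf {ε : ℝ} (hε : 0 < ε) (hε1 : ε ≤ 1 / 10) {r x : ℝ} (hV0 : 0 < Vr r) (hx0 : 0 < x)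
    (hC3 : 8 / ε ^ 2 ≤ Lam r x) {J : ℕ} (hJ3 : 1 ≤ J) (hJ2 : 16 * Lam r x ≤ J) {v lam : ℝ}
    (hv1 : (1 - ε) * Vr r ≤ v) (hv2 : v ≤ (1 + ε) * Vr r)
    (hlam : lam = ((1 + 3 * ε) * x) ^ 2 / v) : 0 < v ∧ 8 ≤ ε ^ 2 * lam ∧
      lam * (lam ^ J / J.factorial) ≤ 1 ∧ Real.exp lam / 2 ≤ SJ lam J ∧
      lam * (1 + 2 * ε) ≤ (1 + 13 * ε) * Lam r x := by
  have hΛ : Lam r x * Vr r = x ^ 2 := by
    unfold Lam
    field_simp
  have hΛ0 : 0 < Lam r x := by unfold Lam; positivity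
  have hv0 : 0 < v := lt_of_lt_of_le (mul_pos (by linarith) hV0) hv1
  have hlv : lam * v = (1 + 3 * ε) ^ 2 * (Lam r x * Vr r) := by
    rw [hlam, hΛ]
    field_simp
  have hlam0 : 0 < lam := by
    rw [hlam]
    positivity
  have hlo : Lam r x ≤ lam := by
    have h1 : Lam r x * v ≤ lam * v := by
      rw [hlv]
      have h2 : Lam r x * v ≤ Lam r x * ((1 + ε) * Vr r) := by gcongr
      have h3 : (1 + ε) ≤ (1 + 3 * ε) ^ 2 := by nlinarith
      calc Lam r x * v ≤ Lam r x * ((1 + ε) * Vr r) := h2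
        _ = (1 + ε) * (Lam r x * Vr r) := by ring
        _ ≤ _ := by gcongr
    exact le_of_mul_le_mul_right h1 hv0
  have hup : (1 - ε) * lam ≤ (1 + 3 * ε) ^ 2 * Lam r x := by
    have h1 : (1 - ε) * lam * Vr r ≤ (1 + 3 * ε) ^ 2 * Lam r x * Vr r := by
      calc (1 - ε) * lam * Vr r = lam * ((1 - ε) * Vr r) := by ring
        _ ≤ lam * v := by gcongr
        _ = _ := by rw [hlv]; ring
    exact le_of_mul_le_mul_right h1 hV0
  have hup2 : lam ≤ 2 * Lam r x := by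
    have h1 : (1 - ε) * (2 * Lam r x) ≥ (1 + 3 * ε) ^ 2 * Lam r x := by
      have h2 : (1 + 3 * ε) ^ 2 ≤ 2 * (1 - ε) := by nlinarith
      have := mul_le_mul_of_nonneg_right h2 hΛ0.le
      linarith
    have h3 : (1 - ε) * lam ≤ (1 - ε) * (2 * Lam r x) := hup.trans h1
    exact le_of_mul_le_mul_left h3 (by linarith)
  obtain ⟨e1, e2⟩ := exps hlam0 (J := J) (by linarith) hJ3
  refine ⟨hv0, ?_, e1, e2, ?_⟩
  · have h1 : 8 / ε ^ 2 ≤ lam := hC3.trans hlo
    rw [div_le_iff₀ (by positivity)] at h1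
    linarith
  · have h1 : (1 - ε) * (lam * (1 + 2 * ε)) ≤ (1 - ε) * ((1 + 13 * ε) * Lam r x) := by
      have h2 : (1 + 3 * ε) ^ 2 * (1 + 2 * ε) ≤ (1 - ε) * (1 + 13 * ε) := by
        have h3 : 0 ≤ ε * (1 / 10 - ε) := mul_nonneg hε.le (by linarith)
        have h4 : 0 ≤ ε ^ 2 * (1 / 10 - ε) := mul_nonneg (sq_nonneg ε) (by linarith)
        nlinarith
      calc (1 - ε) * (lam * (1 + 2 * ε)) = ((1 - ε) * lam) * (1 + 2 * ε) := by ring
        _ ≤ ((1 + 3 * ε) ^ 2 * Lam r x) * (1 + 2 * ε) := by gcongr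
        _ = ((1 + 3 * ε) ^ 2 * (1 + 2 * ε)) * Lam r x := by ring
        _ ≤ ((1 - ε) * (1 + 13 * ε)) * Lam r x := by gcongr
        _ = _ := by ring
    exact le_of_mul_le_mul_left h1 (by linarith)

/-- the number of moments of the upper bound -/
lemma upf {ε : ℝ} (hε : 0 < ε) (hε1 : ε ≤ 1 / 30) : ∃ w0 : ℝ, 1 ≤ w0 ∧ ∀ r x : ℝ, 0 < Vr r →
    w0 ≤ Lam r x → ∃ J : ℕ, 1 ≤ J ∧ (J : ℝ) ≤ Lam r x + 1 ∧
      (J : ℝ) * ((1 + ε) * Vr r) ≤ ((1 - 2 * ε) * x) ^ 2 ∧
      (J : ℝ) * Real.exp (1 - J) < 1 / 4 * Real.exp (-((1 - 8 * ε) * Lam r x)) := by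
  have ev1 : ∀ᶠ w : ℝ in atTop, 4 + Real.log (w + 1) ≤ ε * w := by
    have h1 := Real.isLittleO_log_id_atTop.bound (show 0 < ε / 4 by positivity)
    have h2 := (tendsto_id.atTop_add (tendsto_const_nhds (x := (1 : ℝ)))).eventually h1
    filter_upwards [h2, eventually_ge_atTop 1, eventually_ge_atTop (8 / ε)] with w h3 h4 h5
    have h6 := (le_abs_self _).trans h3
    simp only [id] at h6
    rw [Real.norm_eq_abs, abs_of_nonneg (by linarith)] at h6
    rw [div_le_iff₀ hε] at h5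
    nlinarith
  obtain ⟨w0, hw0⟩ := eventually_atTop.1 ev1
  refine ⟨max 1 (max w0 (10 / ε)), le_max_left _ _, fun r x hV0 hL => ?_⟩
  have hL1 : 1 ≤ Lam r x := (le_max_left _ _).trans hL
  have hL2 : w0 ≤ Lam r x := ((le_max_left _ _).trans (le_max_right _ _)).trans hL
  have hL3 : 10 / ε ≤ Lam r x := ((le_max_right _ _).trans (le_max_right _ _)).trans hL
  rw [div_le_iff₀ hε] at hL3
  have hΛ : Lam r x * Vr r = x ^ 2 := by
    unfold Lam
    field_simp
  have hΛ0 : 0 < Lam r x := by linarith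
  have hnn : 0 ≤ (1 - 6 * ε) * Lam r x := mul_nonneg (by linarith) hΛ0.le
  set J := ⌊(1 - 6 * ε) * Lam r x⌋₊ + 1 with hJ
  have hJ1 : ((J : ℕ) : ℝ) ≤ (1 - 6 * ε) * Lam r x + 1 := by
    rw [hJ]
    push_cast
    have := Nat.floor_le hnn
    linarith
  have hJ2 : (1 - 6 * ε) * Lam r x < (J : ℕ) := by
    rw [hJ]
    push_cast
    exact Nat.lt_floor_add_one _
  have hJ3 : 1 ≤ J := by omega
  have hεΛ : 0 < ε * Lam r x := by positivity
  have hJ4 : ((J : ℕ) : ℝ) ≤ Lam r x + 1 := by linarith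
  refine ⟨J, hJ3, hJ4, ?_, ?_⟩
  · have h2 : ((1 - 6 * ε) * Lam r x + 1) * (1 + ε) ≤ (1 - 2 * ε) ^ 2 * Lam r x := by
      have h3 : ((1 - 6 * ε) * Lam r x + 1) * (1 + ε) = Lam r x - 5 * (ε * Lam r x) -
        6 * (ε * (ε * Lam r x)) + 1 + ε := by ring
      have h4 : (1 - 2 * ε) ^ 2 * Lam r x = Lam r x - 4 * (ε * Lam r x) +
        4 * (ε * (ε * Lam r x)) := by ring
      have h5 : 0 ≤ ε * (ε * Lam r x) := by positivity
      rw [h3, h4]
      linarith
    calc (J : ℝ) * ((1 + ε) * Vr r) ≤ ((1 - 6 * ε) * Lam r x + 1) * ((1 + ε) * Vr r) := by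
          gcongr
      _ = (((1 - 6 * ε) * Lam r x + 1) * (1 + ε)) * Vr r := by ring
      _ ≤ ((1 - 2 * ε) ^ 2 * Lam r x) * Vr r := mul_le_mul_of_nonneg_right h2 hV0.le
      _ = ((1 - 2 * ε) * x) ^ 2 := by
          rw [mul_assoc, hΛ]
          ring
  · have h1 := hw0 (Lam r x) hL2
    have hJ0 : (0 : ℝ) < J := by exact_mod_cast hJ3
    have h2 : Real.log J ≤ Real.log (Lam r x + 1) := Real.log_le_log hJ0 hJ4
    have h3 : (J : ℝ) * Real.exp (1 - J) = Real.exp (Real.log J + (1 - J)) := by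
      rw [Real.exp_add, Real.exp_log hJ0]
    have h4 : Real.log J + (1 - (J : ℝ)) < -2 + -((1 - 8 * ε) * Lam r x) := by
      have h5 : (1 - 6 * ε) * Lam r x = Lam r x - 6 * (ε * Lam r x) := by ring
      have h6 : (1 - 8 * ε) * Lam r x = Lam r x - 8 * (ε * Lam r x) := by ring
      rw [h5] at hJ2
      rw [h6]
      linarith
    rw [h3]
    refine lt_of_lt_of_le (Real.exp_lt_exp.2 h4) ?_
    rw [Real.exp_add]
    apply mul_le_mul_of_nonneg_right _ (Real.exp_pos _).le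
    have h5 : Real.exp (-2 : ℝ) = (Real.exp (-1)) ^ 2 := by
      rw [← Real.exp_nat_mul]
      norm_num
    rw [h5]
    have h6 : Real.exp (-1) ≤ 1 / 2 := by
      rw [Real.exp_neg, inv_eq_one_div, div_le_div_iff₀ (Real.exp_pos _) (by norm_num)]
      have := Real.exp_one_gt_d9
      linarith
    calc Real.exp (-1) ^ 2 ≤ (1 / 2) ^ 2 := pow_le_pow_left₀ (Real.exp_pos _).le h6 2
      _ = 1 / 4 := by norm_num

end Pool.Agent.T9h26.TD
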