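import Pool.Agent.T9h26.TD.Lb

set_option autoImplicit false

/-! Large deviations: the high part. -/

open Complex Filter Topology Set MeasureTheory

namespace Pool.Agent.T9h26.TD

lemma exp3_16 : Real.exp (-3 : ℝ) < 1 / 16 := by
  have h4 : Real.exp (-3 : ℝ) = (Real.exp (-1)) ^ 3 := by
    rw [← Real.exp_nat_mul]
    norm_num
  rw [h4]
  have h5 : Real.exp (-1) ≤ 37 / 100 := by
    rw [Real.exp_neg, inv_eq_one_div, div_le_div_iff₀ (Real.exp_pos _) (by norm_num)]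
    have := Real.exp_one_gt_d9
    linarith
  calc Real.exp (-1) ^ 3 ≤ (37 / 100) ^ 3 := pow_le_pow_left₀ (Real.exp_pos _).le h5 3
    _ < 1 / 16 := by norm_num

/-- the moment bound for the high part -/
lemma high_core {ε x v2 Λ LL : ℝ} (hε : 0 < ε) (hx : 1 ≤ x) (h80 : 80 ≤ ε * x) {k : ℕ}
    (hk1 : (k : ℝ) ≤ ε * x / 8) (hk2 : ε * x / 8 < k + 1) (hv0 : 0 ≤ v2)
    (hv : v2 ≤ 8 * ε * Real.sqrt x) (hLL : LL / 2 ≤ Real.log x)
    (hΛ : 2 * Λ + 3 ≤ ε * x * LL / 40) (hLL0 : 0 ≤ LL) :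
    (k - 1).factorial * v2 ^ (k - 1) / (ε * x) ^ (2 * (k - 1)) < 1 / 16 * Real.exp (-(2 * Λ)) := by
  have hx0 : 0 < x := by linarith
  have hk3 : (2 : ℝ) ≤ k := by linarith
  have hk3' : 2 ≤ k := by exact_mod_cast hk3
  have hnr : ((k - 1 : ℕ) : ℝ) = k - 1 := by
    rw [Nat.cast_sub (by omega)]
    norm_num
  generalize k - 1 = n at *
  have hn1 : ε * x / 10 ≤ n := by rw [hnr]; linarith
  have hn2 : (n : ℝ) ≤ ε * x / 8 := by rw [hnr]; linarith
  have hn0 : (0 : ℝ) ≤ n := Nat.cast_nonneg n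
  have hs0 : 0 < Real.sqrt x := Real.sqrt_pos.2 hx0
  have hss : Real.sqrt x * Real.sqrt x = x := Real.mul_self_sqrt hx0.le
  have h1 : (n.factorial : ℝ) * v2 ^ n / (ε * x) ^ (2 * n) ≤ (1 / Real.sqrt x) ^ n := by
    rw [div_le_iff₀ (by positivity)]
    have h5 : (n.factorial : ℝ) ≤ (n : ℝ) ^ n := by exact_mod_cast Nat.factorial_le_pow n
    calc (n.factorial : ℝ) * v2 ^ n ≤ (n : ℝ) ^ n * v2 ^ n := by gcongr
      _ = (n * v2) ^ n := by rw [← mul_pow]
      _ ≤ (1 / Real.sqrt x * (ε * x) ^ 2) ^ n := by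
          apply pow_le_pow_left₀ (by positivity)
          calc (n : ℝ) * v2 ≤ (ε * x / 8) * (8 * ε * Real.sqrt x) := by gcongr
            _ = ε ^ 2 * x * Real.sqrt x := by ring
            _ = 1 / Real.sqrt x * (ε * x) ^ 2 := by
                rw [one_div, eq_inv_mul_iff_mul_eq₀ hs0.ne']
                calc Real.sqrt x * (ε ^ 2 * x * Real.sqrt x) =
                    ε ^ 2 * x * (Real.sqrt x * Real.sqrt x) := by ring
                  _ = (ε * x) ^ 2 := by rw [hss]; ring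
      _ = _ := by rw [mul_pow, ← pow_mul]
  have h2 : (1 / Real.sqrt x) ^ n = Real.exp (-(n * (Real.log x / 2))) := by
    have e : 1 / Real.sqrt x = Real.exp (-(Real.log x / 2)) := by
      rw [Real.exp_neg, one_div]
      congr 1
      rw [← Real.log_sqrt hx0.le, Real.exp_log hs0]
    rw [e, ← Real.exp_nat_mul]
    congr 1
    ring
  have h3 : ε * x * LL / 40 ≤ n * (Real.log x / 2) := by
    calc ε * x * LL / 40 = (ε * x / 10) * (LL / 2 / 2) := by ring
      _ ≤ n * (Real.log x / 2) := by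
        apply mul_le_mul hn1 (by linarith) (by linarith) hn0
  refine lt_of_le_of_lt h1 ?_
  rw [h2]
  calc Real.exp (-(n * (Real.log x / 2))) ≤ Real.exp (-3 + -(2 * Λ)) := by
        apply Real.exp_le_exp.2
        linarith
    _ = Real.exp (-3) * Real.exp (-(2 * Λ)) := Real.exp_add _ _
    _ < 1 / 16 * Real.exp (-(2 * Λ)) := mul_lt_mul_of_pos_right exp3_16 (Real.exp_pos _)

/-- the sizes -/
lemma sizes {ε : ℝ} (hε : 0 < ε) (hε1 : ε ≤ 1 / 30) : ∃ r0 : ℝ, Real.exp 100 ≤ r0 ∧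
    ∀ r : ℝ, r0 ≤ r → 100 ≤ Real.log r ∧ 1 ≤ Real.log (Real.log r) ∧
      Real.log (Real.log r) ≤ Real.log r ∧ 16 * Real.log r ^ 2 ≤ r ∧
      256 * (Real.log (800 / ε) + 2 * Real.log (Real.log r)) ≤ ε ^ 2 * (1 / 5 * Real.log r) := by
  have ev1 : ∀ᶠ r : ℝ in atTop, Real.log (Real.log r) ≤ ε ^ 2 / 10000 * Real.log r := by
    have h1 := (Real.isLittleO_log_id_atTop.bound (show 0 < ε ^ 2 / 10000 by positivity))
    have h2 := Real.tendsto_log_atTop.eventually h1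
    filter_upwards [h2, eventually_ge_atTop 1] with r h3 h4
    have h5 := (le_abs_self _).trans h3
    rw [id, Real.norm_eq_abs, abs_of_nonneg (Real.log_nonneg h4)] at h5
    exact h5
  have ev2 : ∀ᶠ r : ℝ in atTop, 10000 * Real.log (800 / ε) / ε ^ 2 ≤ Real.log r :=
    Real.tendsto_log_atTop.eventually_ge_atTop _
  have ev3 : ∀ᶠ r : ℝ in atTop, 16 * Real.log r ^ 2 ≤ r := by
    have h1 := (Real.isLittleO_pow_log_id_atTop (n := 2)).bound (show (0 : ℝ) < 1 / 16 by norm_num)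
    filter_upwards [h1, eventually_ge_atTop 1] with V hV hV1
    have h2 := (le_abs_self _).trans hV
    rw [id, Real.norm_eq_abs, abs_of_nonneg (by linarith)] at h2
    linarith
  obtain ⟨r1, h1⟩ := eventually_atTop.1 ((ev1.and ev2).and ev3)
  refine ⟨max (Real.exp 100) r1, le_max_left _ _, fun r hr => ?_⟩
  obtain ⟨⟨a1, a2⟩, a3⟩ := h1 r ((le_max_right _ _).trans hr)
  have hr0 : 0 < r := lt_of_lt_of_le (Real.exp_pos _) ((le_max_left _ _).trans hr)
  have hlog : 100 ≤ Real.log r := by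
    rw [Real.le_log_iff_exp_le hr0]
    exact (le_max_left _ _).trans hr
  have hll : 1 ≤ Real.log (Real.log r) := by
    rw [Real.le_log_iff_exp_le (by linarith)]
    have := Real.exp_one_lt_d9
    linarith
  have hε2 : 0 < ε ^ 2 := by positivity
  rw [div_le_iff₀ hε2] at a2
  have hε3 : ε ^ 2 ≤ 1 := by nlinarith
  refine ⟨hlog, hll, ?_, a3, ?_⟩
  · nlinarith
  · nlinarith

/-- **the parameters of the large deviations** -/
lemma parD {ε : ℝ} (hε : 0 < ε) (hε1 : ε ≤ 1 / 30) : ∃ C c r0 : ℝ, 1 ≤ C ∧ 0 < c ∧ 10 ≤ r0 ∧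
    ∀ B : ℝ, C ≤ B → ∀ r x : ℝ, r0 ≤ r → B * Real.sqrt (Real.log r) ≤ x →
      x ≤ c * (Real.log r * Real.log (Real.log r)) →
      B ≤ Lam r x ∧ B ≤ x ∧ 80 ≤ ε * x ∧ x ≤ r / 16 ∧ 0 < Vr r ∧
      ∃ k J : ℕ, 2 ≤ k ∧ (k : ℝ) ≤ Real.log r ^ 2 ∧ 8 * (k : ℝ) ≤ ε * x ∧ k ≤ J ∧
        16 * Lam r x + 1 ≤ J ∧ 0 ≤ 256 * Real.log (4 * (J + 2) / k) ∧
        256 * Real.log (4 * (J + 2) / k) ≤ ε ^ 2 * Vr r ∧
        (k - 1).factorial * (256 * Real.log (4 * (J + 2) / k)) ^ (k - 1) /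
          (ε * x) ^ (2 * (k - 1)) < 1 / 16 * Real.exp (-(2 * Lam r x)) := by
  obtain ⟨r0, hr0, hsz⟩ := sizes hε hε1
  have ev1 : ∀ᶠ x : ℝ in atTop, 256 * Real.log (800 * x / ε) ≤ 8 * ε * Real.sqrt x := by
    have h1 := Real.isLittleO_log_id_atTop.bound (show (0 : ℝ) < ε / 128 by positivity)
    have h2 : Tendsto Real.sqrt atTop atTop := Real.tendsto_sqrt_atTop
    filter_upwards [h2.eventually h1, eventually_ge_atTop (1 : ℝ),
      h2.eventually_ge_atTop (64 * Real.log (800 / ε) / ε)] with x h3 h4 h5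
    have h6 := (le_abs_self _).trans h3
    simp only [id] at h6
    rw [Real.norm_eq_abs, abs_of_nonneg (Real.sqrt_nonneg _), Real.log_sqrt (by linarith)] at h6
    rw [div_le_iff₀ hε] at h5
    have h7 : Real.log (800 * x / ε) = Real.log (800 / ε) + Real.log x := by
      rw [← Real.log_mul (by positivity) (by linarith)]
      congr 1
      ring
    rw [h7]
    linarith
  obtain ⟨x0, hx0⟩ := eventually_atTop.1 ev1
  refine ⟨max (max 1 x0) (240 / ε), ε / 800, r0, (le_max_left _ _).trans (le_max_left _ _),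
    by positivity, ?_, fun B hB r x hr hx1 hx2 => ?_⟩
  · have := Real.add_one_le_exp (100 : ℝ)
    linarith
  obtain ⟨s1, s2, s3, s4, s5⟩ := hsz r hr
  have hB1 : 1 ≤ B := ((le_max_left _ _).trans (le_max_left _ _)).trans hB
  have hB2 : x0 ≤ B := ((le_max_right _ _).trans (le_max_left _ _)).trans hB
  have hB3 : 240 / ε ≤ B := (le_max_right _ _).trans hB
  set ℓ := Real.log r with hℓ
  set LL := Real.log ℓ with hLL
  have hℓ0 : 0 < ℓ := by linarith
  have hs : 10 ≤ Real.sqrt ℓ := by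
    apply Real.le_sqrt_of_sq_le
    linarith
  have hxB : B ≤ x := by nlinarith
  have hxs : Real.sqrt ℓ ≤ x := by nlinarith
  have hx1' : 1 ≤ x := hB1.trans hxB
  have hxp : 0 < x := by linarith
  have t1 := two_pi_sq
  have t2 := two_pi_sq'
  have hV1 : 1 / 5 * ℓ ≤ Vr r := by
    unfold Vr
    exact mul_le_mul_of_nonneg_right t1 (by linarith)
  have hV2 : Vr r ≤ ℓ := by
    unfold Vr
    rw [← hℓ]
    nlinarith
  have hVp : 0 < Vr r := by linarith
  have hVone : 1 ≤ Vr r := by linarith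
  have hΛ : Lam r x * Vr r = x ^ 2 := by
    unfold Lam
    field_simp
  have hΛ0 : 0 < Lam r x := by unfold Lam; positivity
  have hΛB : B ≤ Lam r x := by
    have h1 : B ^ 2 * ℓ ≤ x ^ 2 := by
      have h2 : (B * Real.sqrt ℓ) ^ 2 ≤ x ^ 2 := pow_le_pow_left₀ (by positivity) hx1 2
      rwa [mul_pow, Real.sq_sqrt (by linarith)] at h2
    unfold Lam
    rw [le_div_iff₀ hVp]
    calc B * Vr r ≤ B * ℓ := by gcongr
      _ ≤ B ^ 2 * ℓ := by
          apply mul_le_mul_of_nonneg_right _ (by linarith)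
          nlinarith
      _ ≤ x ^ 2 := h1
  have hΛx2 : Lam r x ≤ x ^ 2 := by
    unfold Lam
    rw [div_le_iff₀ hVp]
    nlinarith [sq_nonneg x]
  have hεx : 240 ≤ ε * x := by
    rw [div_le_iff₀ hε] at hB3
    nlinarith
  have hΛx : 2 * Lam r x ≤ ε * x * LL / 80 := by
    have h1 : x ^ 2 ≤ x * (ε / 800 * (ℓ * LL)) := by
      rw [sq]
      gcongr
    have h2 : Lam r x * (1 / 5 * ℓ) ≤ Lam r x * Vr r := by gcongr
    have h3 : 2 * Lam r x * ℓ ≤ ε * x * LL / 80 * ℓ := by nlinarith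
    exact le_of_mul_le_mul_right h3 hℓ0
  have hxℓ : x ≤ ℓ ^ 2 := by
    have h1 : ε / 800 * (ℓ * LL) ≤ 1 * (ℓ * ℓ) := by
      apply mul_le_mul (by linarith) _ (by positivity) zero_le_one
      gcongr
    calc x ≤ ε / 800 * (ℓ * LL) := hx2
      _ ≤ 1 * (ℓ * ℓ) := h1
      _ = ℓ ^ 2 := by ring
  have hlogx : Real.log x ≤ 2 * LL := by
    have h1 := Real.log_le_log hxp hxℓ
    rw [Real.log_pow] at h1
    push_cast at h1
    exact h1
  have hlogx2 : LL / 2 ≤ Real.log x := by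
    have h1 := Real.log_le_log (by positivity) hxs
    rwa [Real.log_sqrt hℓ0.le] at h1
  have hfl1 : (⌊ε * x / 8⌋₊ : ℝ) ≤ ε * x / 8 := Nat.floor_le (by positivity)
  have hfl2 : ε * x / 8 < ⌊ε * x / 8⌋₊ + 1 := Nat.lt_floor_add_one _
  generalize ⌊ε * x / 8⌋₊ = k at *
  have hk2 : (2 : ℝ) ≤ k := by linarith
  have hk2' : 2 ≤ k := by exact_mod_cast hk2
  have hk0 : (0 : ℝ) < k := by linarith
  have hkx : (k : ℝ) ≤ x := by
    have : ε * x ≤ 1 * x := by gcongr; linarith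
    linarith
  have hg1 : (⌊16 * Lam r x⌋₊ : ℝ) ≤ 16 * Lam r x := Nat.floor_le (by positivity)
  have hg2 : 16 * Lam r x < ⌊16 * Lam r x⌋₊ + 1 := Nat.lt_floor_add_one _
  obtain ⟨J, hJ⟩ : ∃ J : ℕ, J = ⌊16 * Lam r x⌋₊ + 2 + k := ⟨_, rfl⟩
  have hJr : (J : ℝ) = ⌊16 * Lam r x⌋₊ + 2 + k := by
    rw [hJ]
    push_cast
    ring
  have hq1 : 4 * ((J : ℝ) + 2) / k ≤ 800 * x / ε := by
    rw [div_le_div_iff₀ hk0 hε]
    have h1 : (J : ℝ) + 2 ≤ 20 * x ^ 2 := by
      rw [hJr]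
      nlinarith
    have h2 : ε * x ≤ 10 * k := by linarith
    calc 4 * ((J : ℝ) + 2) * ε ≤ 4 * (20 * x ^ 2) * ε := by gcongr
      _ = 80 * x * (ε * x) := by ring
      _ ≤ 80 * x * (10 * k) := by gcongr
      _ = 800 * x * k := by ring
  have hq2 : 1 ≤ 4 * ((J : ℝ) + 2) / k := by
    rw [one_le_div hk0, hJr]
    linarith [hg2, (Nat.cast_nonneg ⌊16 * Lam r x⌋₊ : (0 : ℝ) ≤ _)]
  have hv0 : 0 ≤ 256 * Real.log (4 * ((J : ℝ) + 2) / k) := by
    have := Real.log_nonneg hq2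
    positivity
  have hv1 : 256 * Real.log (4 * ((J : ℝ) + 2) / k) ≤ 256 * Real.log (800 * x / ε) := by
    apply mul_le_mul_of_nonneg_left _ (by norm_num)
    exact Real.log_le_log (by linarith) hq1
  refine ⟨hΛB, hxB, by linarith, by linarith, hVp, k, J, hk2', hkx.trans hxℓ, by linarith,
    by omega, by rw [hJr]; linarith, hv0, ?_, ?_⟩
  · have h7 : Real.log (800 * x / ε) = Real.log (800 / ε) + Real.log x := by
      rw [← Real.log_mul (by positivity) (by linarith)]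
      congr 1
      ring
    rw [h7] at hv1
    have h8 : ε ^ 2 * (1 / 5 * ℓ) ≤ ε ^ 2 * Vr r := by gcongr
    linarith
  · refine high_core (LL := LL) hε hx1' (by linarith) hfl1 hfl2 hv0 (hv1.trans (hx0 x (hB2.trans hxB)))
      hlogx2 ?_ (by linarith)
    have h9 : 240 * 1 ≤ ε * x * LL := mul_le_mul hεx s2 zero_le_one (by positivity)
    linarith

end Pool.Agent.T9h26.TD
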