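import Pool.Agent.T9h26.TD.Lc

set_option autoImplicit false

/-! Large deviations: blocks. -/

open Complex Filter Topology Set MeasureTheory

namespace Pool.Agent.T9h26.TD

open TC (ordz ordT mu EFD)
open SG (ord NZ zmult ZS)
open W200.HW (Ix mem_Ix)
open Pool.Agent.Y747 (al)

lemma exp1_half : Real.exp (-1) ≤ 1 / 2 := by
  rw [Real.exp_neg, inv_eq_one_div, div_le_div_iff₀ (Real.exp_pos _) (by norm_num)]
  have := Real.exp_one_gt_d9
  linarith

/-- facts on `a0` -/
lemma a0_facts {J k : ℕ} {b : ℝ} (hk : 2 ≤ k) (hkJ : k ≤ J) (hb : 0 < b) (hbk : b ≤ 1 / k)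
    (hbi : 1 / b ≤ 2 * k) : 0 < 1 / (4 * ((J : ℝ) + 2)) ∧ 2 * (1 / (4 * ((J : ℝ) + 2))) ≤ 1 / 2 ∧
      ((J + 1 : ℕ) : ℝ) * (2 * (1 / (4 * ((J : ℝ) + 2)))) < 1 ∧ 1 / (4 * ((J : ℝ) + 2)) ≤ b ∧
      b / (1 / (4 * ((J : ℝ) + 2))) ≤ 4 * (J + 2) / k ∧ ((k - 1 : ℕ) : ℝ) * b < 1 := by
  have hk0 : (0 : ℝ) < k := by exact_mod_cast (by omega : 0 < k)
  have hk2 : (2 : ℝ) ≤ k := by exact_mod_cast hk
  have hJ0 : (0 : ℝ) ≤ J := Nat.cast_nonneg J
  have hkJ' : (k : ℝ) ≤ J := by exact_mod_cast hkJ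
  refine ⟨by positivity, ?_, ?_, ?_, ?_, ?_⟩
  · rw [mul_one_div, div_le_div_iff₀ (by positivity) (by norm_num)]
    linarith
  · push_cast
    rw [mul_one_div, mul_div_assoc', div_lt_one (by positivity)]
    linarith
  · have h3 : 1 / (2 * (k : ℝ)) ≤ b := by
      rw [div_le_iff₀ (by positivity)]
      rw [div_le_iff₀ hb] at hbi
      linarith
    refine le_trans ?_ h3
    apply one_div_le_one_div_of_le (by positivity)
    linarith
  · rw [div_div_eq_mul_div, div_one, mul_comm, mul_div_assoc, div_eq_mul_one_div _ (k : ℝ)]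
    have : 0 ≤ 4 * ((J : ℝ) + 2) := by positivity
    calc 4 * ((J : ℝ) + 2) * b ≤ 4 * ((J : ℝ) + 2) * (1 / k) := by gcongr
      _ = _ := by ring
  · rw [Nat.cast_sub (by omega)]
    have : ((k : ℝ) - (1 : ℕ)) * b ≤ (k - 1) * (1 / k) := by
      push_cast
      apply mul_le_mul_of_nonneg_left hbk
      linarith
    refine lt_of_le_of_lt this ?_
    rw [mul_one_div, div_lt_one hk0]
    linarith

/-- **large deviations in a block** -/
theorem ld_blk (RH : RiemannHypothesis) {C' : ℝ} (hC' : 0 < C') {ε : ℝ} (hε : 0 < ε)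
    (hε1 : ε ≤ 1 / 100) : ∃ C c r0 : ℝ, 1 ≤ C ∧ 0 < c ∧ 10 ≤ r0 ∧
    ∀ B : ℝ, C ≤ B → ∀ r x : ℝ, r0 ≤ r → B * Real.sqrt (Real.log r) ≤ x →
      x ≤ c * (Real.log r * Real.log (Real.log r)) →
      B ≤ Lam r x ∧ B ≤ x ∧ 80 ≤ ε * x ∧ x ≤ r / 16 ∧ 0 < Vr r ∧
      (∀ y : ℝ, ε * x / 2 ≤ y → y ≤ 2 * r →
      ∃ T1 : ℝ, 10 ≤ T1 ∧ ∀ T : ℝ, T1 ≤ T → ∀ U1 U2 : ℝ, 1 ≤ U1 → EFD C' T (ordz U1 U2) mu →
        ms T {t | (cO U1 U2 t (Real.pi * y / Real.log T) : ℝ) ≤ y - x} ≤
          Real.exp (-((1 - 8 * ε) * Lam r x)) * T ∧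
        ms T {t | y + x ≤ (cC U1 U2 t (Real.pi * y / Real.log T) : ℝ)} ≤
          Real.exp (-((1 - 8 * ε) * Lam r x)) * T) ∧
      (∀ y : ℝ, r / 2 ≤ y → y ≤ 2 * r →
      ∃ T1 : ℝ, 10 ≤ T1 ∧ ∀ T : ℝ, T1 ≤ T → ∀ U1 U2 : ℝ, 1 ≤ U1 → EFD C' T (ordz U1 U2) mu →
        Real.exp (-((1 + 45 * ε) * Lam r x)) * T ≤
          ms T {t | (cC U1 U2 t (Real.pi * y / Real.log T) : ℝ) ≤ y - x} ∧
        Real.exp (-((1 + 45 * ε) * Lam r x)) * T ≤
          ms T {t | y + x ≤ (cO U1 U2 t (Real.pi * y / Real.log T) : ℝ)}) := by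
  obtain ⟨C1, c, r1, hC1, hc, hr1, hpar⟩ := parD hε (by linarith)
  obtain ⟨r2, hr2, hpar2⟩ := par2 hε
  obtain ⟨w0, hw0, hupf⟩ := upf hε (by linarith)
  refine ⟨max (max C1 w0) (10 / ε ^ 2), c, max r1 r2, hC1.trans ((le_max_left _ _).trans
    (le_max_left _ _)), hc, hr1.trans (le_max_left _ _), fun B hB r x hr hx1 hx2 => ?_⟩
  have hBC1 : C1 ≤ B := ((le_max_left _ _).trans (le_max_left _ _)).trans hB
  have hBw0 : w0 ≤ B := ((le_max_right _ _).trans (le_max_left _ _)).trans hB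
  have hBε : 10 / ε ^ 2 ≤ B := (le_max_right _ _).trans hB
  obtain ⟨hΛB, hxB, h80, hxr, hV0, k, J, hk2, hkl, hkx, hkJ, hJ16, hv0, hvV, hhi⟩ :=
    hpar B hBC1 r x ((le_max_left _ _).trans hr) hx1 hx2
  have hB1 : 1 ≤ B := hC1.trans hBC1
  have hx0 : 0 < x := by linarith
  have hpi := Real.pi_pos
  have hr10 : 10 ≤ r := (hr1.trans (le_max_left _ _)).trans hr
  have hΛ0 : 0 < Lam r x := by linarith
  have hΛε : 10 / ε ≤ Lam r x := by
    refine le_trans ?_ (hBε.trans hΛB)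
    have : ε ^ 2 ≤ ε := by nlinarith
    gcongr
  have hΛε2 : 8 / (3 * ε) ^ 2 ≤ Lam r x := by
    refine le_trans ?_ (hBε.trans hΛB)
    rw [div_le_div_iff₀ (by positivity) (by positivity)]
    have : 0 < ε ^ 2 := by positivity
    nlinarith
  have hεΛ : 10 ≤ ε * Lam r x := by
    rw [div_le_iff₀ hε] at hΛε
    linarith
  set a0 := 1 / (4 * ((J : ℝ) + 2)) with ha0
  set v2 := 256 * Real.log (4 * ((J : ℝ) + 2) / k) with hv2
  refine ⟨hΛB, hxB, h80, hxr, hV0, fun y hy1 hy2 => ?_, fun y hy1 hy2 => ?_⟩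
  · -- upper bounds
    obtain ⟨j, b, hj, hb, hbk, hb1, hby, hbi, hvar⟩ := hpar2 r ((le_max_right _ _).trans hr) k
      hk2 hkl y (by linarith) hy2
    obtain ⟨f1, f2, f3, f4, f5, f6⟩ := a0_facts hk2 hkJ hb hbk hbi
    rw [← ha0] at f1 f2 f3 f4 f5
    obtain ⟨J', hJ'1, hJ'2, hJ'3, hJ'4⟩ := hupf r x hV0 (hBw0.trans hΛB)
    have hk0 : (0 : ℝ) < k := by exact_mod_cast (by omega : 0 < k)
    have hy0 : 0 < y := by linarith
    have hJ'J : (J' : ℝ) ≤ J := by linarith
    have hJ'a : (J' : ℝ) * (2 * a0) < 1 := by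
      refine lt_of_le_of_lt ?_ f3
      apply mul_le_mul_of_nonneg_right _ (by linarith)
      push_cast
      linarith
    set Q := (1 - 8 * ε) * Lam r x with hQ
    have hQΛ : Real.exp (-(2 * Lam r x)) ≤ Real.exp (-Q) := by
      apply Real.exp_le_exp.2
      rw [hQ]
      nlinarith
    set η := min (1 / 2) (1 / 2 * Real.exp (-Q)) with hη
    have hη0 : 0 < η := lt_min (by norm_num) (by positivity)
    have hη1 : η ≤ 1 / 2 := min_le_left _ _
    have hη2 : η ≤ 1 / 2 * Real.exp (-Q) := min_le_right _ _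
    have hx1' : 0 < (1 - 2 * ε) * x := mul_pos (by linarith) hx0
    have common : ∀ (S : Finset ℕ) (σ : ℝ), |σ| ≤ 1 → Ker S j σ → S.card ≤ j + 1 →
        ∃ T1 : ℝ, 10 ≤ T1 ∧ ∀ T : ℝ, T1 ≤ T → ∀ U1 U2 : ℝ, EFD C' T (ordz U1 U2) mu →
          ms T {t | η < |SX (ordz U1 U2) mu (sc (Gs S j b) b) (Real.log T) t -
            (sc (Gs S j b) b 0 / 2 - (PW (sc (Gs S j b) b) b T t).re)|} +
          ms T {t | (1 - ε) * x ≤ ‖PW (sc (Gs S j b) b) b T t‖} ≤ Real.exp (-Q) * T := by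
      intro S σ hσ hKer hS
      obtain ⟨K', hWt⟩ := sc_wt (Gs_contDiff S j b) (Gs_one S j b) hb hb1
      have hv := (hvar S σ hσ hKer hS).1
      have hvh : var (Ehi (sc (Gs S j b) b) a0) ≤ v2 := by
        obtain ⟨K2, hh⟩ := wt_hi hWt f1
        rw [← var_real hh.even]
        refine (var_hi hσ hKer hb hby hy0.le f1 f4 (by linarith)).trans ?_
        apply mul_le_mul_of_nonneg_left _ (by norm_num)
        exact Real.log_le_log (by positivity) f5
      have hexp := expo2 hJ'1 (mul_pos (by linarith : 0 < 1 + ε) hV0) hx1' hJ'3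
      have hub := two_up hWt f1 f2 hJ'a f6 hx1' (mul_pos hε hx0) hv hvh
        (lt_of_le_of_lt hexp hJ'4) hhi
      obtain ⟨T1, hT1, hef⟩ := ef_ms hWt hC' hη0
      obtain ⟨T2, hT2⟩ := eventually_atTop.1 hub
      refine ⟨max T1 T2, hT1.trans (le_max_left _ _), fun T hT U1 U2 hE => ?_⟩
      have h1 := hef T ((le_max_left _ _).trans hT) _ _ hE
      have h2 := hT2 T ((le_max_right _ _).trans hT)
      have hT0 : 0 < T := by linarith [(le_max_left T1 T2).trans hT]
      have h3 : η * T ≤ 1 / 2 * Real.exp (-Q) * T := mul_le_mul_of_nonneg_right hη2 hT0.le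
      have e1 : (1 - 2 * ε) * x + ε * x = (1 - ε) * x := by ring
      rw [e1] at h2
      have h4 : (1 / 4 * Real.exp (-Q) + 1 / 16 * Real.exp (-(2 * Lam r x))) * T ≤
          1 / 2 * Real.exp (-Q) * T := by
        apply mul_le_mul_of_nonneg_right _ hT0.le
        have := Real.exp_pos (-Q)
        linarith
      linarith
    obtain ⟨T1, hT1, hcom1⟩ := common (Finset.Ico 1 j) (-1) (by norm_num) (ker_Ico hj) (by
      rw [Nat.card_Ico]; omega)
    obtain ⟨T2, hT2, hcom2⟩ := common (Finset.range (j + 1)) 1 (by norm_num) (ker_range j) (by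
      rw [Finset.card_range])
    obtain ⟨T3, hT3⟩ := eventually_atTop.1 (gau_ev y (y + x) (show (0 : ℝ) < 1 / 2 by norm_num))
    obtain ⟨m1, m2⟩ := min_wt hj hb hb1 hby
    obtain ⟨n1, n2⟩ := maj_wt hj hb hb1 hby
    refine ⟨max T1 (max T2 T3), hT1.trans (le_max_left _ _), fun T hT U1 U2 hU hE => ?_⟩
    have a1 : T1 ≤ T := (le_max_left _ _).trans hT
    have a2 : T2 ≤ T := ((le_max_left _ _).trans (le_max_right _ _)).trans hT
    have a3 : T3 ≤ T := ((le_max_right _ _).trans (le_max_right _ _)).trans hT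
    have hT10 : 10 ≤ T := hT1.trans a1
    have hL : 0 < Real.log T := Real.log_pos (by linarith)
    constructor
    · refine le_trans ?_ (hcom1 T a1 U1 U2 hE)
      apply ms_union_of
      intro t _ _ ht
      by_cases h4 : η < |SX (ordz U1 U2) mu (sc (Gs (Finset.Ico 1 j) j b) b) (Real.log T) t -
            (sc (Gs (Finset.Ico 1 j) j b) b 0 / 2 - (PW (sc (Gs (Finset.Ico 1 j) j b) b) b T t).re)|
      · left; exact h4
      · right
        rw [not_lt, min_zero hj hb hby, abs_le] at h4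
        have h5 : (cO U1 U2 t (Real.pi * y / Real.log T) : ℝ) ≤ y - x := ht
        have h6 := SX_le RH (U2 := U2) hU (w := sc (Gs (Finset.Ico 1 j) j b) b) (L := Real.log T)
          (x0 := Real.pi * y) (ρ := Real.pi * y / Real.log T) (B := 1) hL zero_le_one m1 m2
          (le_of_eq (mul_div_cancel₀ _ hL.ne').symm) t
        have h11 : (1 - ε) * x ≤ (PW (sc (Gs (Finset.Ico 1 j) j b) b) b T t).re := by
          linarith [h4.1]
        exact h11.trans (Complex.re_le_norm _)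
    · refine le_trans ?_ (hcom2 T a2 U1 U2 hE)
      apply ms_union_of
      intro t _ _ ht
      by_cases h4 : η < |SX (ordz U1 U2) mu (sc (Gs (Finset.range (j + 1)) j b) b) (Real.log T) t -
            (sc (Gs (Finset.range (j + 1)) j b) b 0 / 2 -
              (PW (sc (Gs (Finset.range (j + 1)) j b) b) b T t).re)|
      · left; exact h4
      · right
        rw [not_lt, maj_zero hb hby, abs_le] at h4
        have h5 : y + x ≤ (cC U1 U2 t (Real.pi * y / Real.log T) : ℝ) := ht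
        have h6 := SX_ge RH (U2 := U2) hU (w := sc (Gs (Finset.range (j + 1)) j b) b)
          (L := Real.log T) (x0 := Real.pi * y) (ρ := Real.pi * y / Real.log T) (c := 1) hL
          zero_le_one n1 n2 (le_of_eq (mul_div_cancel₀ _ hL.ne')) t
        have h7 := hT3 T a3
        have h8 : (y + x) * Real.exp (-(Real.pi * y / Real.log T) ^ 2 / 2) ≤
            (cC U1 U2 t (Real.pi * y / Real.log T) : ℝ) *
              (1 * Real.exp (-(Real.pi * y / Real.log T) ^ 2 / 2)) := by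
          rw [one_mul]
          exact mul_le_mul_of_nonneg_right h5 (Real.exp_pos _).le
        have h11 : (1 - ε) * x ≤ -(PW (sc (Gs (Finset.range (j + 1)) j b) b) b T t).re := by
          linarith [h4.2]
        exact h11.trans ((neg_le_abs _).trans (Complex.abs_re_le_norm _))
  · -- lower bounds
    have hεx1 : ε * x ≤ x := by
      have := mul_le_mul_of_nonneg_right (show ε ≤ 1 by linarith) hx0.le
      linarith
    obtain ⟨j, b, hj, hb, hbk, hb1, hby, hbi, hvar⟩ := hpar2 r ((le_max_right _ _).trans hr) k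
      hk2 hkl y (by linarith) hy2
    obtain ⟨f1, f2, f3, f4, f5, f6⟩ := a0_facts hk2 hkJ hb hbk hbi
    rw [← ha0] at f1 f2 f3 f4 f5
    have hk0 : (0 : ℝ) < k := by exact_mod_cast (by omega : 0 < k)
    have hy0 : 0 < y := by linarith
    set Q := (1 + 39 * ε) * Lam r x with hQ
    have hQΛ : Real.exp (-(2 * Lam r x)) ≤ Real.exp (-Q) := by
      apply Real.exp_le_exp.2
      rw [hQ]
      nlinarith
    set η := min (1 / 2) (1 / 8 * Real.exp (-Q)) with hη
    have hη0 : 0 < η := lt_min (by norm_num) (by positivity)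
    have hη1 : η ≤ 1 / 2 := min_le_left _ _
    have hη2 : η ≤ 1 / 8 * Real.exp (-Q) := min_le_right _ _
    have hfin : Real.exp (-((1 + 45 * ε) * Lam r x)) ≤ 1 / 16 * Real.exp (-Q) := by
      have h1 : (1 + 45 * ε) * Lam r x = Q + 6 * (ε * Lam r x) := by rw [hQ]; ring
      have h2 : Real.exp (-((1 + 45 * ε) * Lam r x)) ≤ Real.exp (-3) * Real.exp (-Q) := by
        rw [← Real.exp_add]
        apply Real.exp_le_exp.2
        linarith
      exact h2.trans (mul_le_mul_of_nonneg_right exp3_16.le (Real.exp_pos _).le)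
    have common : ∀ (S : Finset ℕ) (σ : ℝ), |σ| ≤ 1 → Ker S j σ → S.card ≤ j + 1 →
        ∀ ρ : ℝ, |ρ| = (1 + 3 * (3 * ε)) * x →
        ∃ T1 : ℝ, 10 ≤ T1 ∧ ∀ T : ℝ, T1 ≤ T → ∀ U1 U2 : ℝ, EFD C' T (ordz U1 U2) mu →
          Real.exp (-((1 + 45 * ε) * Lam r x)) * T ≤
          ms T {t | ‖PW (sc (Gs S j b) b) b T t - ρ‖ ≤ 3 * ε * |ρ| + ε * x} -
          ms T {t | η < |SX (ordz U1 U2) mu (sc (Gs S j b) b) (Real.log T) t -
            (sc (Gs S j b) b 0 / 2 - (PW (sc (Gs S j b) b) b T t).re)|} := by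
      intro S σ hσ hKer hS ρ hρ
      obtain ⟨K', hWt⟩ := sc_wt (Gs_contDiff S j b) (Gs_one S j b) hb hb1
      have hv := hvar S σ hσ hKer hS
      have hvh : var (Ehi (sc (Gs S j b) b) a0) ≤ v2 := by
        obtain ⟨K2, hh⟩ := wt_hi hWt f1
        rw [← var_real hh.even]
        refine (var_hi hσ hKer hb hby hy0.le f1 f4 (by linarith)).trans ?_
        apply mul_le_mul_of_nonneg_left _ (by norm_num)
        exact Real.log_le_log (by positivity) f5
      obtain ⟨u1, u2⟩ := var_Wl hWt f1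
      have u3 := u2 ε hε
      have hlo : (1 - 3 * ε) * Vr r ≤ var (Wl (sc (Gs S j b) b) a0) := by
        have h1 := hv.2 hy1
        have h2 : (1 - ε) * ((1 - ε) * Vr r) ≤ (1 - ε) * var (sc (Gs S j b) b) :=
          mul_le_mul_of_nonneg_left h1 (by linarith)
        have h3 : 1 / ε * var (Ehi (sc (Gs S j b) b) a0) ≤ ε * Vr r := by
          rw [one_div, inv_mul_le_iff₀ hε]
          calc var (Ehi (sc (Gs S j b) b) a0) ≤ ε ^ 2 * Vr r := hvh.trans hvV
            _ = ε * (ε * Vr r) := by ring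
        have h4 : (1 - ε) * ((1 - ε) * Vr r) = (1 - 2 * ε) * Vr r + ε ^ 2 * Vr r := by ring
        have h5 : 0 ≤ ε ^ 2 * Vr r := by positivity
        linarith
      have hup : var (Wl (sc (Gs S j b) b) a0) ≤ (1 + 3 * ε) * Vr r := by
        have h1 : (1 + ε) * Vr r ≤ (1 + 3 * ε) * Vr r := by gcongr; linarith
        linarith [hv.1]
      obtain ⟨q0, q1, q2, q3, q4⟩ := lowf (ε := 3 * ε) (by positivity) (by linarith) hV0 hx0 hΛε2
        (J := J) (by omega) (by linarith) hlo hup rfl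
      have hρ0 : ρ ≠ 0 := by
        intro h0
        rw [h0, abs_zero] at hρ
        have : 0 < (1 + 3 * (3 * ε)) * x := by positivity
        linarith
      have hρ2 : ((1 + 3 * (3 * ε)) * x) ^ 2 = ρ ^ 2 := by rw [← hρ, sq_abs]
      rw [hρ2] at q1 q2 q3 q4
      have hlb := two_lo hWt f1 f2 f3 f6 (mul_pos hε hx0) hvh hhi q0 hρ0
        (by positivity : 0 < 3 * ε) rfl q1 q2 q3
      obtain ⟨T1, hT1, hef⟩ := ef_ms hWt hC' hη0
      obtain ⟨T2, hT2⟩ := eventually_atTop.1 hlb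
      refine ⟨max T1 T2, hT1.trans (le_max_left _ _), fun T hT U1 U2 hE => ?_⟩
      have h1 := hef T ((le_max_left _ _).trans hT) _ _ hE
      have h2 := hT2 T ((le_max_right _ _).trans hT)
      have hT0 : 0 < T := by linarith [(le_max_left T1 T2).trans hT]
      have h3 : η * T ≤ 1 / 8 * Real.exp (-Q) * T := mul_le_mul_of_nonneg_right hη2 hT0.le
      have h4 : Real.exp (-Q) ≤ Real.exp (-(ρ ^ 2 / var (Wl (sc (Gs S j b) b) a0) *
          (1 + 2 * (3 * ε)))) := by
        apply Real.exp_le_exp.2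
        have : Q = (1 + 13 * (3 * ε)) * Lam r x := by rw [hQ]; ring
        linarith
      have h5 : (1 / 4 * Real.exp (-Q) - 1 / 16 * Real.exp (-Q)) * T ≤
          (1 / 4 * Real.exp (-(ρ ^ 2 / var (Wl (sc (Gs S j b) b) a0) * (1 + 2 * (3 * ε)))) -
            1 / 16 * Real.exp (-(2 * Lam r x))) * T := by
        apply mul_le_mul_of_nonneg_right _ hT0.le
        linarith
      have h6 : Real.exp (-((1 + 45 * ε) * Lam r x)) * T ≤ 1 / 16 * Real.exp (-Q) * T :=
        mul_le_mul_of_nonneg_right hfin hT0.le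
      linarith
    have hρp : 0 < (1 + 3 * (3 * ε)) * x := by positivity
    obtain ⟨T1, hT1, hcom1⟩ := common (Finset.range (j + 1)) 1 (by norm_num) (ker_range j) (by
      rw [Finset.card_range]) ((1 + 3 * (3 * ε)) * x) (abs_of_pos hρp)
    obtain ⟨T2, hT2, hcom2⟩ := common (Finset.Ico 1 j) (-1) (by norm_num) (ker_Ico hj) (by
      rw [Nat.card_Ico]; omega) (-((1 + 3 * (3 * ε)) * x)) (by rw [abs_neg, abs_of_pos hρp])
    obtain ⟨T3, hT3⟩ := eventually_atTop.1 (gau_ev y (y - x) (show (0 : ℝ) < 1 / 2 by norm_num))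
    obtain ⟨m1, m2⟩ := min_wt hj hb hb1 hby
    obtain ⟨n1, n2⟩ := maj_wt hj hb hb1 hby
    refine ⟨max T1 (max T2 T3), hT1.trans (le_max_left _ _), fun T hT U1 U2 hU hE => ?_⟩
    have a1 : T1 ≤ T := (le_max_left _ _).trans hT
    have a2 : T2 ≤ T := ((le_max_left _ _).trans (le_max_right _ _)).trans hT
    have a3 : T3 ≤ T := ((le_max_right _ _).trans (le_max_right _ _)).trans hT
    have hT10 : 10 ≤ T := hT1.trans a1
    have hL : 0 < Real.log T := Real.log_pos (by linarith)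
    have hεx : (1 + 3 * ε) * x ≤ (1 + 3 * (3 * ε)) * x - (3 * ε * ((1 + 3 * (3 * ε)) * x) + ε * x) := by
      have h1 : 0 ≤ ε * x := by positivity
      have h2 : 0 ≤ (ε * x) * (1 / 100 - ε) := mul_nonneg h1 (by linarith)
      nlinarith
    constructor
    · refine (hcom1 T a1 U1 U2 hE).trans (ms_diff_ge ?_)
      intro t _ _ ht1 ht2
      have h4 : ¬ η < |SX (ordz U1 U2) mu (sc (Gs (Finset.range (j + 1)) j b) b) (Real.log T) t -
            (sc (Gs (Finset.range (j + 1)) j b) b 0 / 2 -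
              (PW (sc (Gs (Finset.range (j + 1)) j b) b) b T t).re)| := ht2
      rw [not_lt, maj_zero hb hby, abs_le] at h4
      have h5 : ‖PW (sc (Gs (Finset.range (j + 1)) j b) b) b T t -
        (((1 + 3 * (3 * ε)) * x : ℝ) : ℂ)‖ ≤ 3 * ε * |(1 + 3 * (3 * ε)) * x| + ε * x := ht1
      rw [abs_of_pos hρp] at h5
      have h7 := (Complex.abs_re_le_norm _).trans h5
      rw [Complex.sub_re, Complex.ofReal_re, abs_le] at h7
      have h6 := SX_ge RH (U2 := U2) hU (w := sc (Gs (Finset.range (j + 1)) j b) b)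
          (L := Real.log T) (x0 := Real.pi * y) (ρ := Real.pi * y / Real.log T) (c := 1) hL
          zero_le_one n1 n2 (le_of_eq (mul_div_cancel₀ _ hL.ne')) t
      rw [one_mul] at h6
      have h8 := hT3 T a3
      set E := Real.exp (-(Real.pi * y / Real.log T) ^ 2 / 2) with hE'
      have hE0 : 0 < E := Real.exp_pos _
      show (cC U1 U2 t (Real.pi * y / Real.log T) : ℝ) ≤ y - x
      have h9 : (cC U1 U2 t (Real.pi * y / Real.log T) : ℝ) * E ≤ (y - x) * E := by
        linarith [h4.2, h7.1]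
      exact le_of_mul_le_mul_right h9 hE0
    · refine (hcom2 T a2 U1 U2 hE).trans (ms_diff_ge ?_)
      intro t _ _ ht1 ht2
      have h4 : ¬ η < |SX (ordz U1 U2) mu (sc (Gs (Finset.Ico 1 j) j b) b) (Real.log T) t -
            (sc (Gs (Finset.Ico 1 j) j b) b 0 / 2 -
              (PW (sc (Gs (Finset.Ico 1 j) j b) b) b T t).re)| := ht2
      rw [not_lt, min_zero hj hb hby, abs_le] at h4
      have h5 : ‖PW (sc (Gs (Finset.Ico 1 j) j b) b) b T t -
        ((-((1 + 3 * (3 * ε)) * x) : ℝ) : ℂ)‖ ≤ 3 * ε * |-((1 + 3 * (3 * ε)) * x)| + ε * x := ht1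
      rw [abs_neg, abs_of_pos hρp] at h5
      have h7 := (Complex.abs_re_le_norm _).trans h5
      rw [Complex.sub_re, Complex.ofReal_re, abs_le] at h7
      have h6 := SX_le RH (U2 := U2) hU (w := sc (Gs (Finset.Ico 1 j) j b) b) (L := Real.log T)
          (x0 := Real.pi * y) (ρ := Real.pi * y / Real.log T) (B := 1) hL zero_le_one m1 m2
          (le_of_eq (mul_div_cancel₀ _ hL.ne').symm) t
      rw [mul_one] at h6
      show y + x ≤ (cO U1 U2 t (Real.pi * y / Real.log T) : ℝ)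
      linarith [h4.1, h7.2]

end Pool.Agent.T9h26.TD
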