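import Pool.Agent.T9h26.TD.Ld

set_option autoImplicit false

/-! Large deviations: index level. -/

open Complex Filter Topology Set MeasureTheory

namespace Pool.Agent.T9h26.TD

open TC (ordz ordT mu EFD)
open SG (ord NZ zmult ZS)
open W200.HW (Ix mem_Ix)
open Pool.Agent.Y747 (al dl Bx mem_Bx Jx mem_Jx)

lemma Lam_scale (r x q : ℝ) : Lam r (q * x) = q ^ 2 * Lam r x := by
  unfold Lam
  rw [mul_pow, mul_div_assoc]

/-- the final numerical step of the lower bounds -/
lemma lo_fin {ε K Λ Λ2 T L B : ℝ} (hε : 0 < ε) (hε1 : ε ≤ 1 / 100) (hK : 1 ≤ K) (hKΛ : K ≤ Λ)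
    (hΛ40 : 40 / ε ^ 2 ≤ Λ) (hΛ2 : Λ2 ≤ (1 + ε) * Λ) (hT : 0 < T) (hL : 0 < L)
    (hB : Real.exp (-((1 + 45 * ε) * Λ2)) * T ≤
      B * (4 * (Real.pi * (K + 4 * Λ) / L)) + Real.exp (-(2 * Λ + 1)) * T) :
    Real.exp (-((1 + 48 * ε) * Λ)) * (T * L / (2 * Real.pi)) ≤ B := by
  have hpi := Real.pi_pos
  have hL0 : 0 < Λ := by linarith
  have k1 : Real.exp (-((1 + 47 * ε) * Λ)) ≤ Real.exp (-((1 + 45 * ε) * Λ2)) := by
    apply Real.exp_le_exp.2
    have : (1 + 45 * ε) * Λ2 ≤ (1 + 45 * ε) * ((1 + ε) * Λ) := by gcongr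
    have h3 : (1 + 45 * ε) * ((1 + ε) * Λ) ≤ (1 + 47 * ε) * Λ := by
      have h4 : (1 + 45 * ε) * (1 + ε) ≤ 1 + 47 * ε := by nlinarith
      calc (1 + 45 * ε) * ((1 + ε) * Λ) = ((1 + 45 * ε) * (1 + ε)) * Λ := by ring
        _ ≤ _ := mul_le_mul_of_nonneg_right h4 hL0.le
    linarith
  have k2 : Real.exp (-(2 * Λ + 1)) ≤ 1 / 2 * Real.exp (-((1 + 47 * ε) * Λ)) := by
    have h3 : Real.exp (-(2 * Λ + 1)) ≤ Real.exp (-1) * Real.exp (-((1 + 47 * ε) * Λ)) := by
      rw [← Real.exp_add]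
      apply Real.exp_le_exp.2
      nlinarith
    exact h3.trans (mul_le_mul_of_nonneg_right exp1_half (Real.exp_pos _).le)
  have k3 : 8 * (K + 4 * Λ) * Real.exp (-((1 + 48 * ε) * Λ)) ≤
      2 * Real.exp (-((1 + 47 * ε) * Λ)) := by
    have h3 : Real.exp (-((1 + 47 * ε) * Λ)) = Real.exp (-((1 + 48 * ε) * Λ)) *
        Real.exp (ε * Λ) := by
      rw [← Real.exp_add]
      congr 1
      ring
    rw [h3]
    have h4 : 4 * (K + 4 * Λ) ≤ Real.exp (ε * Λ) := by
      have h6 := Real.quadratic_le_exp_of_nonneg (show 0 ≤ ε * Λ by positivity)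
      have h7 : 40 ≤ ε ^ 2 * Λ := by
        rw [div_le_iff₀ (by positivity)] at hΛ40
        linarith
      have h8 : 0 ≤ ε * Λ := by positivity
      have h10 : 20 * Λ ≤ (ε * Λ) ^ 2 / 2 := by nlinarith
      linarith
    have h5 := Real.exp_pos (-((1 + 48 * ε) * Λ))
    nlinarith
  have hKΛ' : 0 < K + 4 * Λ := by linarith
  have hκ : 0 < 4 * (Real.pi * (K + 4 * Λ) / L) := by positivity
  have h6 : Real.exp (-((1 + 48 * ε) * Λ)) * (T * L / (2 * Real.pi)) *
      (4 * (Real.pi * (K + 4 * Λ) / L)) ≤ B * (4 * (Real.pi * (K + 4 * Λ) / L)) := by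
    have e1 : Real.exp (-((1 + 48 * ε) * Λ)) * (T * L / (2 * Real.pi)) *
        (4 * (Real.pi * (K + 4 * Λ) / L)) =
        1 / 4 * (8 * (K + 4 * Λ) * Real.exp (-((1 + 48 * ε) * Λ))) * T := by
      field_simp
      ring
    rw [e1]
    have k2' := mul_le_mul_of_nonneg_right k2 hT.le
    have k1' := mul_le_mul_of_nonneg_right k1 hT.le
    have k3' := mul_le_mul_of_nonneg_right k3 hT.le
    linarith
  exact le_of_mul_le_mul_right h6 hκ

/-- **lower bounds, index level** -/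
theorem lo_cnt2 (RH : RiemannHypothesis) {C' : ℝ} (hC' : 0 < C') {ε : ℝ} (hε : 0 < ε)
    (hε1 : ε ≤ 1 / 100) : ∃ C c r0 : ℝ, 1 ≤ C ∧ 0 < c ∧ 10 ≤ r0 ∧
    ∀ (r : ℕ) (x : ℝ), r0 ≤ r → C * Real.sqrt (Real.log r) ≤ x →
      x ≤ c * (Real.log r * Real.log (Real.log r)) → 0 < Lam r x ∧
      ∃ T1 : ℝ, 10 ≤ T1 ∧ ∀ T : ℝ, T1 ≤ T → ∀ U1 U2 : ℝ, T ≤ U1 → U1 ≤ T + 1 → 2 * T - 1 ≤ U2 →
        U2 ≤ 2 * T → EFD C' T (ordz U1 U2) mu →
        Real.exp (-((1 + 48 * ε) * Lam r x)) * (T * Real.log T / (2 * Real.pi)) ≤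
          (((Jx T).filter (fun n => (r : ℝ) + x ≤ Sr r n)).card : ℝ) ∧
        Real.exp (-((1 + 48 * ε) * Lam r x)) * (T * Real.log T / (2 * Real.pi)) ≤
          (((Jx T).filter (fun n => Sr r n ≤ (r : ℝ) - x)).card : ℝ) := by
  have hpi := Real.pi_pos
  have hpi3 := Real.pi_gt_three
  obtain ⟨C0, c0, r0, hC0, hc0, hr0, hblk⟩ := ld_blk RH hC' hε hε1
  obtain ⟨K, hK, htr⟩ := trans_low RH hC'
  refine ⟨max (max C0 (6 / ε)) (max K (40 / ε ^ 2)), c0 / 2, r0,
    hC0.trans ((le_max_left _ _).trans (le_max_left _ _)), by positivity,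
    hr0, fun r x hr h1 h2 => ?_⟩
  set C := max (max C0 (6 / ε)) (max K (40 / ε ^ 2)) with hC
  have hCC0 : C0 ≤ C := (le_max_left _ _).trans (le_max_left _ _)
  have hC6 : 6 / ε ≤ C := (le_max_right _ _).trans (le_max_left _ _)
  have hCK : K ≤ C := (le_max_left _ _).trans (le_max_right _ _)
  have hC40 : 40 / ε ^ 2 ≤ C := (le_max_right _ _).trans (le_max_right _ _)
  have hC2 : 2 ≤ C := by
    refine le_trans ?_ hC6
    rw [le_div_iff₀ hε]
    linarith
  have hr10 : (10 : ℝ) ≤ r := hr0.trans hr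
  have hlog0 : 0 ≤ Real.log r := Real.log_nonneg (by linarith)
  -- the range of `x` and `x + 2`
  have h2' : x ≤ c0 * (Real.log r * Real.log (Real.log r)) := by
    have hlog1 : 1 ≤ Real.log r := by
      rw [Real.le_log_iff_exp_le (by linarith)]
      have := Real.exp_one_lt_d9
      linarith
    have hs : 1 ≤ Real.sqrt (Real.log r) := Real.one_le_sqrt.2 hlog1
    have hx2 : 2 ≤ x := by nlinarith
    have : 0 < c0 * (Real.log r * Real.log (Real.log r)) := by linarith
    linarith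
  obtain ⟨hCL, hCx, h80, hxr, hV0, -, -⟩ := hblk C hCC0 r x hr h1 h2'
  have hx2 : 2 ≤ x := hC2.trans hCx
  have hL0 : 0 < Lam r x := by linarith
  have hLL := Lam_add_two hε (by linarith) hV0 (hC6.trans hCx)
  have hs := Real.sqrt_nonneg (Real.log r)
  obtain ⟨-, -, -, hxr2, -, -, hlo⟩ := hblk C hCC0 r (x + 2) hr (by linarith) (by linarith)
  obtain ⟨T1, hT1, hp⟩ := hlo (r + x + 1) (by linarith) (by linarith)
  obtain ⟨T2, hT2, hm⟩ := hlo (r - x - 1) (by linarith) (by linarith)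
  obtain ⟨T3, hT3, hT3', ht1⟩ := htr (Lam r x) (r + x + 1) hL0.le (by linarith)
  obtain ⟨T4, hT4, hT4', ht2⟩ := htr (Lam r x) (r - x - 1) hL0.le (by linarith)
  have ev : ∀ᶠ T : ℝ in atTop, 2 * (r + x + 1) ≤ Real.log T :=
    Real.tendsto_log_atTop.eventually_ge_atTop _
  obtain ⟨T5, hT5⟩ := eventually_atTop.1 ev
  refine ⟨hL0, max (max T1 T2) (max T3 (max T4 T5)),
    hT1.trans ((le_max_left _ _).trans (le_max_left _ _)), fun T hT U1 U2 hU1 hU1' hU2 hU2' hE => ?_⟩
  have a1 : T1 ≤ T := ((le_max_left _ _).trans (le_max_left _ _)).trans hT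
  have a2 : T2 ≤ T := ((le_max_right _ _).trans (le_max_left _ _)).trans hT
  have a3 : T3 ≤ T := ((le_max_left _ _).trans (le_max_right _ _)).trans hT
  have a4 : T4 ≤ T := (((le_max_left _ _).trans (le_max_right _ _)).trans (le_max_right _ _)).trans hT
  have a5 : T5 ≤ T := (((le_max_right _ _).trans (le_max_right _ _)).trans (le_max_right _ _)).trans hT
  have hT10 : 10 ≤ T := hT1.trans a1
  have hT0 : 0 < T := by linarith
  have hL : 0 < Real.log T := Real.log_pos (by linarith)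
  have b5 := hT5 T a5
  set L := Real.log T with hLd
  have hl2pi := log_two_pi_le
  have hlpi0 : 0 < Real.log (2 * Real.pi) := Real.log_pos (by linarith)
  constructor
  · -- long sums
    obtain ⟨hρ1, hh1, htr1⟩ := ht1 T a3
    rw [← hLd] at hρ1 hh1 htr1
    set ρ := Real.pi * (r + x + 1) / L with hρ
    set κ := 4 * (Real.pi * (K + 4 * Lam r x) / L) with hκ
    have hy0 : 0 < r + x + 1 := by linarith
    have hρ0 : 0 < ρ := by positivity
    have hG := (hp T a1 U1 U2 (by linarith) hE).1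
    rw [← hLd, ← hρ] at hG
    apply lo_fin hε hε1 hK (hCK.trans hCL) (hC40.trans hCL) hLL hT0 hL
    refine hG.trans ?_
    apply htr1 U1 U2 hU1 hU1' hU2 hU2' hE _ _ (fun n => ord n + ρ)
    intro t ht1 ht2 htG n hn n1 n2 n3
    have hcC : cC U1 U2 (t - ρ + ρ) ρ < r := by
      rw [sub_add_cancel]
      have h3 : (cC U1 U2 t ρ : ℝ) ≤ r + x + 1 - (x + 2) := htG
      have h4 : (cC U1 U2 t ρ : ℝ) < r := by linarith
      exact_mod_cast h4
    have hlong := plus_core (U1 := U1) (U2 := U2) hn n1 n2 (by linarith) (by linarith) hcC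
    have hordn : T < ord n := by linarith
    refine ⟨n, ?_, by linarith, by linarith⟩
    rw [Finset.mem_filter, mem_Jx]
    refine ⟨⟨hn, hordn, by linarith⟩, ?_⟩
    have hge := Sr_ge (r := r) hn hT0 hordn.le
    refine le_trans ?_ hge
    rw [Real.log_div hT0.ne' (by positivity), ← hLd]
    have h3 : 2 * ρ ≤ ord (n + r) - ord n := by linarith
    have h4 : 0 ≤ L - Real.log (2 * Real.pi) := by linarith
    have h5 : 2 * ρ / (2 * Real.pi) * (L - Real.log (2 * Real.pi)) ≤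
        (ord (n + r) - ord n) / (2 * Real.pi) * (L - Real.log (2 * Real.pi)) := by gcongr
    refine le_trans ?_ h5
    have h6 : 2 * ρ / (2 * Real.pi) * (L - Real.log (2 * Real.pi)) =
        (r + x + 1) - (r + x + 1) * Real.log (2 * Real.pi) / L := by
      rw [hρ]
      field_simp
    rw [h6]
    have h7 : (r + x + 1) * Real.log (2 * Real.pi) / L ≤ 1 := by
      rw [div_le_one hL]
      have := mul_le_mul_of_nonneg_left hl2pi hy0.le
      linarith
    linarith
  · -- short sums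
    obtain ⟨hρ1, hh1, htr1⟩ := ht2 T a4
    rw [← hLd] at hρ1 hh1 htr1
    set ρ := Real.pi * (r - x - 1) / L with hρ
    set κ := 4 * (Real.pi * (K + 4 * Lam r x) / L) with hκ
    have hy0 : 0 < r - x - 1 := by linarith
    have hρ0 : 0 < ρ := by positivity
    have hG := (hm T a2 U1 U2 (by linarith) hE).2
    rw [← hLd, ← hρ] at hG
    apply lo_fin hε hε1 hK (hCK.trans hCL) (hC40.trans hCL) hLL hT0 hL
    refine hG.trans ?_
    apply htr1 U1 U2 hU1 hU1' hU2 hU2' hE _ _ (fun n => ord n + ρ - κ)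
    intro t ht1 ht2 htG n hn n1 n2 n3
    have hcO : r + 1 ≤ cO U1 U2 (t - ρ + ρ) ρ := by
      rw [sub_add_cancel]
      have h3 : r - x - 1 + (x + 2) ≤ (cO U1 U2 t ρ : ℝ) := htG
      have h4 : (r : ℝ) + 1 ≤ (cO U1 U2 t ρ : ℝ) := by linarith
      exact_mod_cast h4
    have hshort := minus_core (U1 := U1) (U2 := U2) hn n1 hcO
    have hmn := SG.ord_mono (show 1 ≤ n + 1 by omega) (show n + 1 ≤ n + 1 + r by omega)
    refine ⟨n + 1, ?_, by linarith, by linarith⟩
    rw [Finset.mem_filter, mem_Jx]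
    refine ⟨⟨by omega, by linarith, by linarith⟩, ?_⟩
    have hle := Sr_le (r := r) (n := n + 1) (by omega) hT0 (by nlinarith)
    refine hle.trans ?_
    rw [← hLd]
    have h3 : ord (n + 1 + r) - ord (n + 1) ≤ 2 * ρ := by linarith
    have h5 : (ord (n + 1 + r) - ord (n + 1)) / (2 * Real.pi) * L ≤ 2 * ρ / (2 * Real.pi) * L := by
      gcongr
    refine h5.trans ?_
    have h6 : 2 * ρ / (2 * Real.pi) * L = r - x - 1 := by
      rw [hρ]
      field_simp
    rw [h6]
    linarith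

/-- **upper bounds, index level** -/
theorem up_cnt2 (RH : RiemannHypothesis) {C' : ℝ} (hC' : 0 < C') {ε : ℝ} (hε : 0 < ε)
    (hε1 : ε ≤ 1 / 100) : ∃ C c r0 : ℝ, 1 ≤ C ∧ 0 < c ∧ 10 ≤ r0 ∧
    ∀ (r : ℕ) (x : ℝ), r0 ≤ r → C * Real.sqrt (Real.log r) ≤ x →
      x ≤ c * (Real.log r * Real.log (Real.log r)) → ∀ m : ℕ, 1 ≤ m → m ≤ r →
      (∃ T1 : ℝ, 10 ≤ T1 ∧ ∀ T : ℝ, T1 ≤ T → ∀ U1 U2 : ℝ, T ≤ U1 → U1 ≤ T + 1 → 2 * T - 1 ≤ U2 →
        U2 ≤ 2 * T → EFD C' T (ordz U1 U2) mu → ∀ B : Finset ℕ, B ⊆ Kx U1 U2 →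
        (∀ n ∈ B, (m : ℝ) + x ≤ Sr m n ∧ T + 2 * Real.log T ≤ ord n ∧
          ord n ≤ 2 * T - 2 * Real.log T) →
        (B.card : ℝ) ≤ 1 / 7 * Real.exp (-((1 - 20 * ε) * Lam r x)) * (T * Real.log T)) ∧
      (∃ T1 : ℝ, 10 ≤ T1 ∧ ∀ T : ℝ, T1 ≤ T → ∀ U1 U2 : ℝ, T ≤ U1 → U1 ≤ T + 1 → 2 * T - 1 ≤ U2 →
        U2 ≤ 2 * T → EFD C' T (ordz U1 U2) mu → ∀ B : Finset ℕ, B ⊆ Kx U1 U2 →
        (∀ n ∈ B, Sr m n ≤ (m : ℝ) - x ∧ T + 2 * Real.log T ≤ ord n ∧
          ord n ≤ 2 * T - 2 * Real.log T) →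
        (B.card : ℝ) ≤ 1 / 7 * Real.exp (-((1 - 20 * ε) * Lam r x)) * (T * Real.log T)) := by
  have hpi := Real.pi_pos
  have hpi3 := Real.pi_gt_three
  obtain ⟨C0, c0, r0, hC0, hc0, hr0, hblk⟩ := ld_blk RH hC' hε hε1
  obtain ⟨C3, hC3, hcov⟩ := cover RH hC'
  refine ⟨2 * max C0 (168 * C3 / (20 * ε) ^ 2), c0, r0, by
    have := hC0.trans (le_max_left C0 (168 * C3 / (20 * ε) ^ 2))
    linarith, hc0, hr0, fun r x hr h1 h2 m hm1 hmr => ?_⟩
  set C := max C0 (168 * C3 / (20 * ε) ^ 2) with hC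
  have hCC0 : C0 ≤ C := le_max_left _ _
  have hC6 : 168 * C3 / (20 * ε) ^ 2 ≤ C := le_max_right _ _
  have hs := Real.sqrt_nonneg (Real.log r)
  have hC1 : 1 ≤ C := hC0.trans hCC0
  have h1' : C * Real.sqrt (Real.log r) ≤ x := by
    have : 0 ≤ C * Real.sqrt (Real.log r) := by positivity
    linarith
  obtain ⟨hCL, hCx, h80, hxr, hV0, hup, -⟩ := hblk C hCC0 r x hr h1' h2
  have hx0 : 0 < x := by linarith
  have hεx1 : ε * x ≤ x / 100 := by
    have := mul_le_mul_of_nonneg_right hε1 hx0.le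
    linarith
  obtain ⟨-, -, -, -, -, hup', -⟩ := hblk C hCC0 r ((1 - ε) * x) hr (by
    rw [sub_mul, one_mul]
    linarith) (by
    rw [sub_mul, one_mul]
    linarith [mul_pos hε hx0])
  have hr10 : (10 : ℝ) ≤ r := hr0.trans hr
  have hm1r : (1 : ℝ) ≤ m := by exact_mod_cast hm1
  have hmrr : (m : ℝ) ≤ r := by exact_mod_cast hmr
  have hΛscale : Lam r ((1 - ε) * x) = (1 - ε) ^ 2 * Lam r x := Lam_scale _ _ _
  set Λ := Lam r x with hΛ
  have hL1 : 1 ≤ Λ := hC1.trans hCL
  have hx1 : 1 ≤ x := hC1.trans hCx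
  have hab := absorb (ε := 20 * ε) (by positivity) hC3 (hC6.trans hCL) hL1
    (m' := (1 - 10 * ε) * Λ) (le_of_eq (by ring)) (by nlinarith)
  have hΛa : Real.exp (-((1 - 8 * ε) * Λ)) ≤ Real.exp (-((1 - 10 * ε) * Λ)) := by
    apply Real.exp_le_exp.2
    nlinarith
  have hΛb : Real.exp (-((1 - 8 * ε) * ((1 - ε) ^ 2 * Λ))) ≤ Real.exp (-((1 - 10 * ε) * Λ)) := by
    apply Real.exp_le_exp.2
    have : (1 - 10 * ε) ≤ (1 - 8 * ε) * (1 - ε) ^ 2 := by
      have e : (1 - 8 * ε) * (1 - ε) ^ 2 = (1 - 10 * ε) + 17 * ε ^ 2 - 8 * ε ^ 3 := by ring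
      rw [e]
      have : ε ^ 3 ≤ ε ^ 2 := by nlinarith [sq_nonneg ε]
      nlinarith [sq_nonneg ε]
    have := mul_le_mul_of_nonneg_right this (show 0 ≤ Λ by linarith)
    linarith
  rw [hΛscale] at hup'
  obtain ⟨T1, hT1, hp⟩ := hup (m + x - 1 / 4) (by linarith) (by linarith)
  obtain ⟨T3, hT3, hcv⟩ := hcov Λ hL1
  have ev : ∀ᶠ T : ℝ in atTop, 16 * (r + x + 1) ≤ Real.log T :=
    Real.tendsto_log_atTop.eventually_ge_atTop _
  obtain ⟨T4, hT4⟩ := eventually_atTop.1 ev
  have hlp := log_two_pi_le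
  have hlpi0 : 0 < Real.log (2 * Real.pi) := Real.log_pos (by linarith)
  -- final numerical step
  have fin : ∀ B T m : ℝ, 0 < T → 0 < Real.log T →
      m ≤ (Real.exp (-((1 - 10 * ε) * Λ)) + Real.exp (-Λ)) * T →
      B ≤ Real.log T * (C3 * Λ * m + C3 * Real.exp (-Λ) * T) →
      B ≤ 1 / 7 * Real.exp (-((1 - 20 * ε) * Λ)) * (T * Real.log T) := by
    intro B T m hT hL hmm hB
    calc B ≤ Real.log T * (C3 * Λ * m + C3 * Real.exp (-Λ) * T) := hB
      _ ≤ Real.log T * (C3 * Λ * ((Real.exp (-((1 - 10 * ε) * Λ)) + Real.exp (-Λ)) * T) +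
          C3 * Real.exp (-Λ) * T) := by gcongr
      _ = Real.log T * T * (C3 * Λ * (Real.exp (-((1 - 10 * ε) * Λ)) + Real.exp (-Λ)) +
          C3 * Real.exp (-Λ)) := by ring
      _ ≤ Real.log T * T * (1 / 7 * Real.exp (-((1 - 20 * ε) * Λ))) :=
          mul_le_mul_of_nonneg_left hab (by positivity)
      _ = _ := by ring
  have shiftb : ∀ T : ℝ, 2 * Real.exp Λ ≤ T → 1 ≤ Real.exp (-Λ) * T := by
    intro T hT
    have h3 : Real.exp (-Λ) * (2 * Real.exp Λ) ≤ Real.exp (-Λ) * T :=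
      mul_le_mul_of_nonneg_left hT (Real.exp_pos _).le
    have h4 : Real.exp (-Λ) * (2 * Real.exp Λ) = 2 := by
      rw [Real.exp_neg]
      have := (Real.exp_pos Λ).ne'
      field_simp
    linarith
  constructor
  · refine ⟨max (max T1 T3) (max T4 (2 * Real.exp Λ)),
      hT1.trans ((le_max_left _ _).trans (le_max_left _ _)),
      fun T hT U1 U2 hU1 hU1' hU2 hU2' hE B hB hP => ?_⟩
    have a1 : T1 ≤ T := ((le_max_left _ _).trans (le_max_left _ _)).trans hT
    have a3 : T3 ≤ T := ((le_max_right _ _).trans (le_max_left _ _)).trans hT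
    have a4 : T4 ≤ T := ((le_max_left _ _).trans (le_max_right _ _)).trans hT
    have a5 : 2 * Real.exp Λ ≤ T := ((le_max_right _ _).trans (le_max_right _ _)).trans hT
    have hT10 : 10 ≤ T := hT1.trans a1
    have hT0 : 0 < T := by linarith
    have b4 := hT4 T a4
    have hL : 0 < Real.log T := by linarith
    have hs := shiftb T a5
    set L := Real.log T with hLd
    set ρ := Real.pi * (m + x - 1 / 4) / L with hρ
    have hy0 : 0 < m + x - 1 / 4 := by linarith
    have hρ0 : 0 < ρ := by positivity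
    have hpi4 := Real.pi_lt_four
    have hρ1 : ρ ≤ 1 := by
      rw [hρ, div_le_one hL]
      nlinarith
    have hup1 := (hp T a1 U1 U2 (by linarith) hE).1
    rw [← hLd, ← hρ] at hup1
    have hsh := ms_shift (T := T) hρ0.le {c : ℝ | (cO U1 U2 c ρ : ℝ) ≤ m + x - 1 / 4 - x}
    have hcv2 := hcv T a3 U1 U2 (by linarith) hE B
      {t | t + ρ ∈ {c : ℝ | (cO U1 U2 c ρ : ℝ) ≤ m + x - 1 / 4 - x}} hB
      (fun n hn => (hP n hn).2) (fun n hn t ht1 ht2 => by
        obtain ⟨p1, p2, p3⟩ := hP n hn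
        have hn1 : 1 ≤ n := (mem_Kx.1 (hB hn)).1
        have hlong := long (r := m) hn1 hT10 (by linarith) (by
          rw [← hLd, div_le_iff₀ hL]
          nlinarith) p1
        show (cO U1 U2 (t + ρ) ρ : ℝ) ≤ m + x - 1 / 4 - x
        have hc : cO U1 U2 (t + ρ) ρ ≤ m - 1 := by
          apply cO_le hn1 ht1
          refine le_trans ?_ hlong
          have e1 : Real.pi / (2 * L) + 2 * ρ = 2 * Real.pi * (m + x) / L := by
            rw [hρ]
            field_simp
            ring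
          linarith
        have hc2 : (cO U1 U2 (t + ρ) ρ : ℝ) ≤ ((m - 1 : ℕ) : ℝ) := by exact_mod_cast hc
        rw [Nat.cast_sub hm1] at hc2
        push_cast at hc2
        linarith)
    refine fin _ T _ hT0 hL ?_ hcv2
    refine hsh.trans ?_
    rw [add_mul]
    have := mul_le_mul_of_nonneg_right hΛa hT0.le
    linarith
  · rcases lt_or_ge (m : ℝ) x with hmx | hmx
    · -- empty
      refine ⟨10, le_rfl, fun T hT U1 U2 hU1 hU1' hU2 hU2' hE B hB hP => ?_⟩
      have hT0 : 0 < T := by linarith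
      have hlT : 0 ≤ Real.log T := Real.log_nonneg (by linarith)
      have hBe : B = ∅ := by
        rw [Finset.eq_empty_iff_forall_notMem]
        intro n hn
        obtain ⟨p1, p2, p3⟩ := hP n hn
        obtain ⟨hn1, q2, q3⟩ := mem_Kx.1 (hB hn)
        have hge := Sr_ge (r := m) hn1 hT0 (by linarith)
        have h0 : 0 ≤ ord (n + m) - ord n := sub_nonneg.2 (SG.ord_mono hn1 (by omega))
        have h3 : 0 ≤ Real.log (T / (2 * Real.pi)) := by
          apply Real.log_nonneg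
          rw [one_le_div (by positivity)]
          have := Real.pi_lt_d2
          linarith
        have h4 : 0 ≤ (ord (n + m) - ord n) / (2 * Real.pi) * Real.log (T / (2 * Real.pi)) := by
          positivity
        linarith
      rw [hBe, Finset.card_empty]
      push_cast
      positivity
    obtain ⟨T2, hT2, hm⟩ := hup' (m - x + 1 / 2 + ε * x) (by
      rw [sub_mul]
      nlinarith) (by linarith)
    refine ⟨max (max T2 T3) (max T4 (2 * Real.exp Λ)),
      hT2.trans ((le_max_left _ _).trans (le_max_left _ _)),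
      fun T hT U1 U2 hU1 hU1' hU2 hU2' hE B hB hP => ?_⟩
    have a1 : T2 ≤ T := ((le_max_left _ _).trans (le_max_left _ _)).trans hT
    have a3 : T3 ≤ T := ((le_max_right _ _).trans (le_max_left _ _)).trans hT
    have a4 : T4 ≤ T := ((le_max_left _ _).trans (le_max_right _ _)).trans hT
    have a5 : 2 * Real.exp Λ ≤ T := ((le_max_right _ _).trans (le_max_right _ _)).trans hT
    have hT10 : 10 ≤ T := hT2.trans a1
    have hT0 : 0 < T := by linarith
    have b4 := hT4 T a4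
    have hL : 0 < Real.log T := by linarith
    have hs := shiftb T a5
    set L := Real.log T with hLd
    set ρ := Real.pi * (m - x + 1 / 2 + ε * x) / L with hρ
    set s := Real.pi * (m - x) / L with hsd
    have hpi4 := Real.pi_lt_four
    have hy0 : 0 ≤ m - x := by linarith
    have hεx : 0 < ε * x := by positivity
    have hρ0 : 0 < ρ := by positivity
    have hs0 : 0 ≤ s := by positivity
    have hs1 : s ≤ 1 := by
      rw [hsd, div_le_one hL]
      nlinarith
    have hρs : s + Real.pi / (2 * L) ≤ ρ := by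
      have e : ρ = s + Real.pi / (2 * L) + Real.pi * (ε * x) / L := by
        rw [hρ, hsd]
        field_simp
      rw [e]
      have : 0 ≤ Real.pi * (ε * x) / L := by positivity
      linarith
    have hup1 := (hm T a1 U1 U2 (by linarith) hE).2
    rw [← hLd, ← hρ] at hup1
    have hsh := ms_shift (T := T) hs0
      {c : ℝ | m - x + 1 / 2 + ε * x + (1 - ε) * x ≤ (cC U1 U2 c ρ : ℝ)}
    have hcv2 := hcv T a3 U1 U2 (by linarith) hE B
      {t | t + s ∈ {c : ℝ | m - x + 1 / 2 + ε * x + (1 - ε) * x ≤ (cC U1 U2 c ρ : ℝ)}} hB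
      (fun n hn => (hP n hn).2) (fun n hn t ht1 ht2 => by
        obtain ⟨p1, p2, p3⟩ := hP n hn
        rw [← hLd] at ht2
        obtain ⟨hn1, q2, q3⟩ := mem_Kx.1 (hB hn)
        have hge := Sr_ge (r := m) hn1 hT0 (by linarith)
        rw [Real.log_div hT0.ne' (by positivity), ← hLd] at hge
        have h0 : 0 ≤ ord (n + m) - ord n := sub_nonneg.2 (SG.ord_mono hn1 (by omega))
        have hLl : 0 < L - Real.log (2 * Real.pi) := by linarith
        have h3 : ord (n + m) - ord n ≤ 2 * Real.pi * (m - x + 1 / 4) / L := by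
          have h4 : (ord (n + m) - ord n) / (2 * Real.pi) * (L - Real.log (2 * Real.pi)) ≤ m - x :=
            hge.trans p1
          rw [div_mul_eq_mul_div, div_le_iff₀ (by positivity)] at h4
          rw [le_div_iff₀ hL]
          have h5 : (m - x) * L ≤ (m - x + 1 / 4) * (L - Real.log (2 * Real.pi)) := by
            have e1 : (m - x + 1 / 4) * (L - Real.log (2 * Real.pi)) = (m - x) * L + L / 4 -
              (m - x + 1 / 4) * Real.log (2 * Real.pi) := by ring
            have e2 : (m - x + 1 / 4) * Real.log (2 * Real.pi) ≤ (m - x + 1 / 4) * 2 :=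
              mul_le_mul_of_nonneg_left hlp (by linarith)
            rw [e1]
            linarith
          have h6 : (ord (n + m) - ord n) * (L - Real.log (2 * Real.pi)) * L ≤
              2 * Real.pi * (m - x + 1 / 4) * (L - Real.log (2 * Real.pi)) := by
            calc _ ≤ (m - x) * (2 * Real.pi) * L := mul_le_mul_of_nonneg_right h4 hL.le
              _ = 2 * Real.pi * ((m - x) * L) := by ring
              _ ≤ 2 * Real.pi * ((m - x + 1 / 4) * (L - Real.log (2 * Real.pi))) := by gcongr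
              _ = _ := by ring
          have h7 : ((ord (n + m) - ord n) * L) * (L - Real.log (2 * Real.pi)) ≤
              (2 * Real.pi * (m - x + 1 / 4)) * (L - Real.log (2 * Real.pi)) := by linarith
          exact le_of_mul_le_mul_right h7 hLl
        have h4 : 2 * Real.pi * (m - x + 1 / 4) / L ≤ 1 := by
          rw [div_le_one hL]
          nlinarith
        show m - x + 1 / 2 + ε * x + (1 - ε) * x ≤ (cC U1 U2 (t + s) ρ : ℝ)
        have hc : m + 1 ≤ cC U1 U2 (t + s) ρ := by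
          apply cC_ge2 hn1
          · linarith
          · have e1 : 2 * Real.pi * (m - x + 1 / 4) / L = s + (s + Real.pi / (2 * L)) := by
              rw [hsd]
              field_simp
              ring
            linarith
          · exact q2
          · linarith
        have hc2 : (m : ℝ) + 1 ≤ (cC U1 U2 (t + s) ρ : ℝ) := by exact_mod_cast hc
        linarith)
    refine fin _ T _ hT0 hL ?_ hcv2
    refine hsh.trans ?_
    rw [add_mul]
    have := mul_le_mul_of_nonneg_right hΛb hT0.le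
    linarith

end Pool.Agent.T9h26.TD
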