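import Pool.Agent.T9h26.TD.Le

set_option autoImplicit false

/-! Large deviations of the sums of `r` consecutive normalised gaps. -/

open Complex Filter Topology Set MeasureTheory

namespace Pool.Agent.T9h26.TD

open TC (ordz ordT mu EFD)
open SG (ord NZ zmult ZS)
open W200.HW (Ix mem_Ix)
open Pool.Agent.Y747 (al dl Bx mem_Bx Jx mem_Jx)

/-- **large deviations** -/
theorem ldp (RH : RiemannHypothesis) {ε : ℝ} (hε : 0 < ε) :
    ∃ C c r0 : ℝ, 0 < C ∧ 0 < c ∧ 1 < r0 ∧ ∀ (r : ℕ) (x : ℝ), r0 ≤ r →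
      C * Real.sqrt (Real.log r) ≤ x → x ≤ c * (Real.log r * Real.log (Real.log r)) →
      ∀ᶠ N : ℕ in atTop,
        (Real.exp (-((1 + ε) * Lam r x)) * N ≤
          (({n : ℕ | 1 ≤ n ∧ n ≤ N ∧ (r : ℝ) + x ≤ Sr r n}.ncard : ℕ) : ℝ) ∧
        Real.exp (-((1 + ε) * Lam r x)) * N ≤
          (({n : ℕ | 1 ≤ n ∧ n ≤ N ∧ Sr r n ≤ (r : ℝ) - x}.ncard : ℕ) : ℝ)) ∧
        ∀ m : ℕ, 1 ≤ m → m ≤ r →
        (({n : ℕ | 1 ≤ n ∧ n ≤ N ∧ (m : ℝ) + x ≤ Sr m n}.ncard : ℕ) : ℝ) ≤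
          Real.exp (-((1 - ε) * Lam r x)) * N ∧
        (({n : ℕ | 1 ≤ n ∧ n ≤ N ∧ Sr m n ≤ (m : ℝ) - x}.ncard : ℕ) : ℝ) ≤
          Real.exp (-((1 - ε) * Lam r x)) * N := by
  classical
  obtain ⟨C', T0, hC', hT0, hef⟩ := Pool.Agent.W930.TCEFR.efr RH
  set e := min (ε / 50) (1 / 100) with he
  have he0 : 0 < e := lt_min (by positivity) (by norm_num)
  have he1 : e ≤ 1 / 100 := min_le_right _ _
  have he2 : 50 * e ≤ ε := by
    have := min_le_left (ε / 50) (1 / 100)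
    rw [← he] at this
    linarith
  obtain ⟨C1, c1, r1, hC1, hc1, hr1, hlo⟩ := lo_cnt2 RH hC' he0 he1
  obtain ⟨C2, c2, r2, hC2, hc2, hr2, hup⟩ := up_cnt2 RH hC' he0 he1
  refine ⟨max C1 C2, min c1 c2, max r1 r2, lt_of_lt_of_le (by linarith) (le_max_left _ _),
    lt_min hc1 hc2, lt_of_lt_of_le (by linarith) (le_max_left _ _), fun r x hr h1 h2 => ?_⟩
  have hr' : 10 ≤ (r : ℝ) := (hr1.trans (le_max_left _ _)).trans hr
  have hlog1 : 1 ≤ Real.log r := by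
    rw [Real.le_log_iff_exp_le (by linarith)]
    have := Real.exp_one_lt_d9
    linarith
  have hll : 0 ≤ Real.log r * Real.log (Real.log r) :=
    mul_nonneg (by linarith) (Real.log_nonneg hlog1)
  have hs := Real.sqrt_nonneg (Real.log r)
  have f1 : C1 * Real.sqrt (Real.log r) ≤ x :=
    (mul_le_mul_of_nonneg_right (le_max_left _ _) hs).trans h1
  have f2 : C2 * Real.sqrt (Real.log r) ≤ x :=
    (mul_le_mul_of_nonneg_right (le_max_right _ _) hs).trans h1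
  have f3 : x ≤ c1 * (Real.log r * Real.log (Real.log r)) :=
    h2.trans (mul_le_mul_of_nonneg_right (min_le_left _ _) hll)
  have f4 : x ≤ c2 * (Real.log r * Real.log (Real.log r)) :=
    h2.trans (mul_le_mul_of_nonneg_right (min_le_right _ _) hll)
  obtain ⟨hL0, T1, hT1, hb⟩ := hlo r x ((le_max_left _ _).trans hr) f1 f3
  have hlt : Real.exp (-((1 + ε) * Lam r x)) < Real.exp (-((1 + 48 * e) * Lam r x)) := by
    apply Real.exp_lt_exp.2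
    nlinarith
  have hle : Real.exp (-((1 - 20 * e) * Lam r x)) ≤ Real.exp (-((1 - ε) * Lam r x)) := by
    apply Real.exp_le_exp.2
    nlinarith
  have k1 := low_all RH (P := fun n => (r : ℝ) + x ≤ Sr r n) (Real.exp_pos _).le hlt hT0 hef
    ⟨T1, hT1, fun T hT U1 U2 u1 u2 u3 u4 u5 => (hb T hT U1 U2 u1 u2 u3 u4 u5).1⟩
  have k2 := low_all RH (P := fun n => Sr r n ≤ (r : ℝ) - x) (Real.exp_pos _).le hlt hT0 hef
    ⟨T1, hT1, fun T hT U1 U2 u1 u2 u3 u4 u5 => (hb T hT U1 U2 u1 u2 u3 u4 u5).2⟩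
  have k3 : ∀ m ∈ Finset.Icc 1 r, ∀ᶠ N : ℕ in atTop,
      (({n : ℕ | 1 ≤ n ∧ n ≤ N ∧ (m : ℝ) + x ≤ Sr m n}.ncard : ℕ) : ℝ) ≤
          Real.exp (-((1 - 20 * e) * Lam r x)) * N ∧
        (({n : ℕ | 1 ≤ n ∧ n ≤ N ∧ Sr m n ≤ (m : ℝ) - x}.ncard : ℕ) : ℝ) ≤
          Real.exp (-((1 - 20 * e) * Lam r x)) * N := by
    intro m hm
    rw [Finset.mem_Icc] at hm
    obtain ⟨hu1, hu2⟩ := hup r x ((le_max_right _ _).trans hr) f2 f4 m hm.1 hm.2
    exact (trans_all RH (Real.exp_pos _) hT0 hef hu1).and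
      (trans_all RH (Real.exp_pos _) hT0 hef hu2)
  have k4 := (Filter.eventually_all_finset _).2 k3
  filter_upwards [k1, k2, k4] with N m1 m2 m3
  have hN : (0 : ℝ) ≤ N := Nat.cast_nonneg N
  refine ⟨⟨m1, m2⟩, fun m hm1 hm2 => ?_⟩
  obtain ⟨q1, q2⟩ := m3 m (Finset.mem_Icc.2 ⟨hm1, hm2⟩)
  exact ⟨q1.trans (mul_le_mul_of_nonneg_right hle hN), q2.trans (mul_le_mul_of_nonneg_right hle hN)⟩

end Pool.Agent.T9h26.TD
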