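import Pool.Agent.T9h26.TD.Ml

set_option autoImplicit false

/-! Moderate deviations: from blocks of `t` to indices. -/

open Complex Filter Topology Set MeasureTheory

namespace Pool.Agent.T9h26.TD

open TC (ordz ordT mu EFD)
open SG (ord NZ zmult ZS)
open W200.HW (Ix mem_Ix)
open Pool.Agent.Y747 (al dl Bx mem_Bx Jx mem_Jx)

lemma ms_shift_neg {T s : ℝ} (hs : 0 ≤ s) (F : Set ℝ) : ms T {t | t - s ∈ F} ≤ ms T F + s := by
  have h1 : {t | t - s ∈ F} ∩ Ioc T (2 * T) = (fun t => t + -s) ⁻¹' (F ∩ Ioc (T - s) (2 * T - s)) := by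
    ext t
    simp only [mem_inter_iff, mem_setOf_eq, mem_Ioc, mem_preimage, ← sub_eq_add_neg]
    constructor
    · rintro ⟨h1, h2, h3⟩
      exact ⟨h1, by linarith, by linarith⟩
    · rintro ⟨h1, h2, h3⟩
      exact ⟨h1, by linarith, by linarith⟩
  have h2 : volume ({t | t - s ∈ F} ∩ Ioc T (2 * T)) = volume (F ∩ Ioc (T - s) (2 * T - s)) := by
    rw [h1, measure_preimage_add_right]
  have h3 : volume (F ∩ Ioc (T - s) (2 * T - s)) ≤ volume (F ∩ Ioc T (2 * T)) +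
      volume (Ioc (T - s) T) := by
    refine (measure_mono ?_).trans (measure_union_le _ _)
    rintro t ⟨h4, h5, h6⟩
    rcases le_or_gt t T with h7 | h7
    · right
      exact ⟨h5, h7⟩
    · left
      exact ⟨h4, h7, by linarith⟩
  have h4 : volume (Ioc (T - s) T) = ENNReal.ofReal s := by
    rw [Real.volume_Ioc]
    congr 1
    ring
  unfold ms
  rw [h2]
  rw [h4] at h3
  have h5 := ENNReal.toReal_mono (ENNReal.add_ne_top.2 ⟨ms_fin T F, ENNReal.ofReal_ne_top⟩) h3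
  rw [ENNReal.toReal_add (ms_fin T F) ENNReal.ofReal_ne_top, ENNReal.toReal_ofReal hs] at h5
  exact h5

lemma ms_shift_abs {T : ℝ} (s : ℝ) (F : Set ℝ) : ms T {t | t + s ∈ F} ≤ ms T F + |s| := by
  rcases le_total 0 s with h | h
  · rw [abs_of_nonneg h]
    exact ms_shift h F
  · rw [abs_of_nonpos h]
    have := ms_shift_neg (T := T) (s := -s) (by linarith) F
    simpa using this

lemma cover_low {T κ : ℝ} (hκ : 0 ≤ κ) {B : Finset ℕ} (a : ℕ → ℝ) {G : Set ℝ}
    (h : ∀ t, T < t → t ≤ 2 * T → t ∈ G → ∃ n ∈ B, a n ≤ t ∧ t ≤ a n + κ) :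
    ms T G ≤ B.card * κ := by
  unfold ms
  apply ENNReal.toReal_le_of_le_ofReal (by positivity)
  have h1 : G ∩ Ioc T (2 * T) ⊆ ⋃ n ∈ B, Icc (a n) (a n + κ) := by
    rintro t ⟨h1, h2, h3⟩
    obtain ⟨n, hn, h4, h5⟩ := h t h2 h3 h1
    rw [mem_iUnion₂]
    exact ⟨n, hn, h4, h5⟩
  refine (measure_mono h1).trans ((measure_biUnion_finset_le _ _).trans ?_)
  have h2 : ∀ n ∈ B, volume (Icc (a n) (a n + κ)) ≤ ENNReal.ofReal κ := by
    intro n _
    rw [Real.volume_Icc]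
    apply ENNReal.ofReal_le_ofReal
    linarith
  refine (Finset.sum_le_sum h2).trans (le_of_eq ?_)
  rw [Finset.sum_const, nsmul_eq_mul, ENNReal.ofReal_mul (Nat.cast_nonneg _),
    ENNReal.ofReal_natCast]

lemma NZ_loc {s : ℝ} (hs : ord 1 ≤ s) : 1 ≤ NZ s ∧ ord (NZ s) ≤ s ∧ s < ord (NZ s + 1) := by
  have h1 : 1 ≤ NZ s := (SG.ord_le_iff le_rfl s).1 hs
  refine ⟨h1, (SG.ord_le_iff h1 s).2 le_rfl, ?_⟩
  by_contra hc
  rw [not_lt] at hc
  have := (SG.ord_le_iff (by omega) s).1 hc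
  omega

lemma gap_small {U1 U2 s h : ℝ} {n : ℕ} (hn : 1 ≤ n) (h1 : ord n ≤ s) (h2 : s < ord (n + 1))
    (h3 : cO U1 U2 (s + h) h ≠ 0) (h4 : cO U1 U2 (s - h) h ≠ 0) :
    ord (n + 1) - ord n ≤ 4 * h := by
  by_contra hc
  rw [not_le] at hc
  rcases le_or_gt (ord (n + 1) - s) (2 * h) with h5 | h5
  · apply h4
    unfold cO
    rw [Finset.card_eq_zero, Finset.filter_eq_empty_iff]
    intro k hk h6
    rw [mem_Kx] at hk
    rw [abs_lt] at h6
    have h7 : k ≤ n := by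
      by_contra hc2
      have := SG.ord_mono (show 1 ≤ n + 1 by omega) (show n + 1 ≤ k by omega)
      linarith [h6.2]
    have := SG.ord_mono hk.1 h7
    linarith [h6.1]
  · apply h3
    unfold cO
    rw [Finset.card_eq_zero, Finset.filter_eq_empty_iff]
    intro k hk h6
    rw [mem_Kx] at hk
    rw [abs_lt] at h6
    have h7 : n + 1 ≤ k := by
      by_contra hc2
      have := SG.ord_mono hk.1 (show k ≤ n by omega)
      linarith [h6.1]
    have := SG.ord_mono (show 1 ≤ n + 1 by omega) h7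
    linarith [h6.2]

lemma plus_core {r n : ℕ} {U1 U2 s ρ : ℝ} (hn : 1 ≤ n) (h1 : ord n ≤ s)
    (h2 : s < ord (n + 1)) (hU1 : U1 ≤ s) (hU2 : s + 2 * ρ ≤ U2) (h3 : cC U1 U2 (s + ρ) ρ < r) :
    s + 2 * ρ < ord (n + r) := by
  by_contra hc
  rw [not_lt] at hc
  have h4 : Finset.Icc (n + 1) (n + r) ⊆ (Kx U1 U2).filter (fun k => |ord k - (s + ρ)| ≤ ρ) := by
    intro k hk
    rw [Finset.mem_Icc] at hk
    have h5 := SG.ord_mono (show 1 ≤ n + 1 by omega) hk.1
    have h6 := SG.ord_mono (show 1 ≤ k by omega) hk.2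
    rw [Finset.mem_filter, mem_Kx, abs_le]
    refine ⟨⟨by omega, by linarith, by linarith⟩, by linarith, by linarith⟩
  have h5 := Finset.card_le_card h4
  rw [Nat.card_Icc] at h5
  unfold cC at h3
  omega

lemma minus_core {r n : ℕ} {U1 U2 s ρ : ℝ} (hn : 1 ≤ n) (h1 : ord n ≤ s)
    (h3 : r + 1 ≤ cO U1 U2 (s + ρ) ρ) : ord (n + 1 + r) < s + 2 * ρ := by
  by_contra hc
  rw [not_lt] at hc
  have h4 : (Kx U1 U2).filter (fun k => |ord k - (s + ρ)| < ρ) ⊆ Finset.Ico (n + 1) (n + 1 + r) := by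
    intro k hk
    rw [Finset.mem_filter, mem_Kx, abs_lt] at hk
    obtain ⟨⟨k1, k2, k3⟩, k4, k5⟩ := hk
    rw [Finset.mem_Ico]
    constructor
    · by_contra hc2
      have := SG.ord_mono k1 (show k ≤ n by omega)
      linarith
    · by_contra hc2
      have := SG.ord_mono (show 1 ≤ n + 1 + r by omega) (show n + 1 + r ≤ k by omega)
      linarith
  have h5 := Finset.card_le_card h4
  rw [Nat.card_Ico] at h5
  unfold cO at h3
  omega

/-- **transfer of lower bounds** -/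
theorem trans_low (RH : RiemannHypothesis) {C' : ℝ} (hC' : 0 < C') : ∃ K : ℝ, 1 ≤ K ∧
    ∀ Λ y : ℝ, 0 ≤ Λ → 0 < y → ∃ T1 : ℝ, 10 ≤ T1 ∧ ord 1 ≤ T1 ∧ ∀ T : ℝ, T1 ≤ T →
      Real.pi * y / Real.log T ≤ 1 ∧
      4 * (Real.pi * (K + 4 * Λ) / Real.log T) ≤ 1 ∧
      ∀ U1 U2 : ℝ, T ≤ U1 → U1 ≤ T + 1 → 2 * T - 1 ≤ U2 → U2 ≤ 2 * T →
      EFD C' T (ordz U1 U2) mu → ∀ (B : Finset ℕ) (G : Set ℝ) (a : ℕ → ℝ),
      (∀ t, T + 3 ≤ t → t ≤ 2 * T - 3 → t ∈ G → ∀ n : ℕ, 1 ≤ n →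
        ord n ≤ t - Real.pi * y / Real.log T → t - Real.pi * y / Real.log T < ord (n + 1) →
        ord (n + 1) - ord n ≤ 4 * (Real.pi * (K + 4 * Λ) / Real.log T) →
        ∃ m ∈ B, a m ≤ t ∧ t ≤ a m + 4 * (Real.pi * (K + 4 * Λ) / Real.log T)) →
      ms T G ≤ B.card * (4 * (Real.pi * (K + 4 * Λ) / Real.log T)) +
        Real.exp (-(2 * Λ + 1)) * T := by
  have hpi := Real.pi_pos
  obtain ⟨K0, hK0, hV⟩ := blockV RH hC' (ε := 1 / 2) (by norm_num) (by norm_num)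
  refine ⟨K0 + 20, by linarith, fun Λ y hΛ hy => ?_⟩
  set g := K0 + 20 + 4 * Λ with hg
  have hg1 : 20 ≤ g := by linarith
  obtain ⟨T1, hT1, hV1⟩ := hV 0 g (by
    push_cast
    linarith)
  have ev : ∀ᶠ T : ℝ in atTop, max (Real.pi * y) (4 * Real.pi * g) ≤ Real.log T :=
    Real.tendsto_log_atTop.eventually_ge_atTop _
  obtain ⟨T2, hT2⟩ := eventually_atTop.1 ev
  refine ⟨max (max T1 T2) (max (max (ord 1) 3) (20 * Real.exp (2 * Λ + 1))),
    hT1.trans ((le_max_left _ _).trans (le_max_left _ _)),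
    (le_max_left _ _).trans ((le_max_left _ _).trans (le_max_right _ _)), fun T hT => ?_⟩
  have a1 : T1 ≤ T := ((le_max_left _ _).trans (le_max_left _ _)).trans hT
  have a2 : T2 ≤ T := ((le_max_right _ _).trans (le_max_left _ _)).trans hT
  have a3 : ord 1 ≤ T := ((le_max_left _ _).trans (le_max_left _ _)).trans
    ((le_max_right _ _).trans hT)
  have a4 : 20 * Real.exp (2 * Λ + 1) ≤ T := ((le_max_right _ _).trans (le_max_right _ _)).trans hT
  have hT10 : 10 ≤ T := hT1.trans a1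
  have hT0 : 0 < T := by linarith
  have hL : 0 < Real.log T := Real.log_pos (by linarith)
  obtain ⟨b1, b2⟩ := max_le_iff.1 (hT2 T a2)
  set L := Real.log T with hLd
  set ρ := Real.pi * y / L with hρ
  set h := Real.pi * g / L with hh
  have hρ0 : 0 < ρ := by positivity
  have hρ1 : ρ ≤ 1 := by rw [hρ, div_le_one hL]; exact b1
  have hg0 : 0 < g := by linarith
  have hh0 : 0 < h := by positivity
  have hh1 : 4 * h ≤ 1 := by
    rw [hh, ← mul_div_assoc, div_le_one hL]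
    linarith
  refine ⟨hρ1, hh1, fun U1 U2 hU1 hU1' hU2 hU2' hE B G a hG => ?_⟩
  -- the bad set
  have hbad := hV1 T a1 U1 U2 (by linarith) hE
  rw [← hLd, ← hh] at hbad
  set F : Set ℝ := {t | cO U1 U2 t h ≤ 0} with hF
  have hFm : ms T F ≤ 1 / 20 * Real.exp (-(2 * Λ + 1)) * T := by
    refine hbad.trans (mul_le_mul_of_nonneg_right ?_ hT0.le)
    have h1 : (2 * Λ + 1) + 5 ≤ (1 - 1 / 2) * (g * Real.log g) := by
      have h2 : 1 ≤ Real.log g := by
        rw [Real.le_log_iff_exp_le (by linarith)]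
        have := Real.exp_one_lt_d9
        linarith
      nlinarith
    have h2 : Real.exp (-((1 - 1 / 2) * (g * Real.log g))) ≤
        Real.exp (-5) * Real.exp (-(2 * Λ + 1)) := by
      rw [← Real.exp_add]
      apply Real.exp_le_exp.2
      linarith
    have h3 : Real.exp (-5 : ℝ) ≤ 1 / 20 := by
      have h4 : Real.exp (-5 : ℝ) = (Real.exp (-1)) ^ 5 := by
        rw [← Real.exp_nat_mul]
        norm_num
      rw [h4]
      have h5 : Real.exp (-1) ≤ 1 / 2 := by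
        rw [Real.exp_neg, inv_eq_one_div, div_le_div_iff₀ (Real.exp_pos _) (by norm_num)]
        have := Real.exp_one_gt_d9
        linarith
      calc Real.exp (-1) ^ 5 ≤ (1 / 2) ^ 5 := pow_le_pow_left₀ (Real.exp_pos _).le h5 5
        _ ≤ 1 / 20 := by norm_num
    refine h2.trans ?_
    gcongr
  have hW1 : ms T {t | t + (h - ρ) ∈ F} ≤ ms T F + 1 := by
    refine (ms_shift_abs _ _).trans ?_
    have : |h - ρ| ≤ 1 := by rw [abs_le]; constructor <;> linarith
    linarith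
  have hW2 : ms T {t | t + (-(h + ρ)) ∈ F} ≤ ms T F + 2 := by
    refine (ms_shift_abs _ _).trans ?_
    have : |-(h + ρ)| ≤ 2 := by rw [abs_neg, abs_le]; constructor <;> linarith
    linarith
  -- the edges
  have hE1 : ms T (Ioc T (T + 3)) ≤ 3 := by
    have := ms_Ioc_le (T := T) (show T ≤ T + 3 by linarith)
    linarith
  have hE2 : ms T (Ioc (2 * T - 3) (2 * T)) ≤ 3 := by
    have := ms_Ioc_le (T := T) (show 2 * T - 3 ≤ 2 * T by linarith)
    linarith
  set G' : Set ℝ := {t | t ∈ G ∧ T + 3 ≤ t ∧ t ≤ 2 * T - 3 ∧ t + (h - ρ) ∉ F ∧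
    t + (-(h + ρ)) ∉ F} with hG'
  have hcov : ms T G' ≤ B.card * (4 * h) := by
    apply cover_low (by positivity) a
    rintro t _ _ ⟨g1, g2, g3, g4, g5⟩
    have hs : ord 1 ≤ t - ρ := by linarith
    obtain ⟨n1, n2, n3⟩ := NZ_loc hs
    have hgap := gap_small (U1 := U1) (U2 := U2) (h := h) n1 n2 n3 (by
      intro h0
      apply g4
      show cO U1 U2 (t + (h - ρ)) h ≤ 0
      rw [show t + (h - ρ) = t - ρ + h by ring, h0]) (by
      intro h0
      apply g5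
      show cO U1 U2 (t + (-(h + ρ))) h ≤ 0
      rw [show t + (-(h + ρ)) = t - ρ - h by ring, h0])
    exact hG t g2 g3 g1 _ n1 n2 n3 hgap
  have hsplit : ms T G ≤ ms T G' + (ms T {t | t + (h - ρ) ∈ F} +
      (ms T {t | t + (-(h + ρ)) ∈ F} + (ms T (Ioc T (T + 3)) + ms T (Ioc (2 * T - 3) (2 * T))))) := by
    have e1 := ms_union_of (T := T) (S := G) (S1 := G')
      (S2 := {t | t + (h - ρ) ∈ F} ∪ ({t | t + (-(h + ρ)) ∈ F} ∪ (Ioc T (T + 3) ∪
        Ioc (2 * T - 3) (2 * T)))) (fun t h1 h2 h3 => by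
      by_cases c1 : t + (h - ρ) ∈ F
      · right; left; exact c1
      by_cases c2 : t + (-(h + ρ)) ∈ F
      · right; right; left; exact c2
      by_cases c3 : T + 3 ≤ t
      · by_cases c4 : t ≤ 2 * T - 3
        · left
          exact ⟨h3, c3, c4, c1, c2⟩
        · right; right; right; right
          exact ⟨by linarith, h2⟩
      · right; right; right; left
        exact ⟨h1, by linarith⟩)
    refine e1.trans ?_
    have e2 := ms_union T {t | t + (h - ρ) ∈ F} ({t | t + (-(h + ρ)) ∈ F} ∪ (Ioc T (T + 3) ∪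
        Ioc (2 * T - 3) (2 * T)))
    have e3 := ms_union T {t | t + (-(h + ρ)) ∈ F} (Ioc T (T + 3) ∪ Ioc (2 * T - 3) (2 * T))
    have e4 := ms_union T (Ioc T (T + 3)) (Ioc (2 * T - 3) (2 * T))
    linarith
  have hsmall : 9 ≤ 1 / 2 * Real.exp (-(2 * Λ + 1)) * T := by
    have h1 : Real.exp (-(2 * Λ + 1)) * (20 * Real.exp (2 * Λ + 1)) ≤
        Real.exp (-(2 * Λ + 1)) * T := mul_le_mul_of_nonneg_left a4 (Real.exp_pos _).le
    have h2 : Real.exp (-(2 * Λ + 1)) * (20 * Real.exp (2 * Λ + 1)) = 20 := by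
      rw [Real.exp_neg]
      have := (Real.exp_pos (2 * Λ + 1)).ne'
      field_simp
    linarith
  set X := Real.exp (-(2 * Λ + 1)) * T with hX
  have e1 : 1 / 20 * Real.exp (-(2 * Λ + 1)) * T = 1 / 20 * X := by rw [hX]; ring
  have e2 : 1 / 2 * Real.exp (-(2 * Λ + 1)) * T = 1 / 2 * X := by rw [hX]; ring
  rw [e1] at hFm
  rw [e2] at hsmall
  linarith

end Pool.Agent.T9h26.TD
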