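import Pool.Agent.T9h26.TD.Mu

set_option autoImplicit false

/-! Moderate deviations: lower bounds in a block. -/

open Complex Filter Topology Set MeasureTheory

namespace Pool.Agent.T9h26.TD

open TC (ordz ordT mu EFD)
open SG (ord NZ zmult ZS)
open W200.HW (Ix mem_Ix)
open Pool.Agent.Y747 (al)

lemma exp_hasSum (x : ℝ) : HasSum (fun n : ℕ => x ^ n / n.factorial) (Real.exp x) := by
  have h := NormedSpace.expSeries_div_hasSum_exp (𝔸 := ℝ) x
  rwa [← Real.exp_eq_exp_ℝ] at h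

lemma exp_le_SJ {lam : ℝ} (h : 0 ≤ lam) (J : ℕ) :
    Real.exp lam ≤ SJ lam J + (1 / 2) ^ (J + 1) * Real.exp (2 * lam) := by
  have h1 : ∀ N : ℕ, ∑ i ∈ Finset.range N, lam ^ i / i.factorial ≤
      SJ lam J + (1 / 2) ^ (J + 1) * Real.exp (2 * lam) := by
    intro N
    have h2 : ∀ i ∈ Finset.range N, lam ^ i / (i.factorial : ℝ) ≤
        (if i < J + 1 then lam ^ i / (i.factorial : ℝ) else 0) +
        (1 / 2) ^ (J + 1) * ((2 * lam) ^ i / (i.factorial : ℝ)) := by
      intro i _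
      split_ifs with hi
      · have : 0 ≤ (1 / 2 : ℝ) ^ (J + 1) * ((2 * lam) ^ i / (i.factorial : ℝ)) := by positivity
        linarith
      · rw [not_lt] at hi
        rw [zero_add, mul_pow, mul_div_assoc, ← mul_assoc]
        have h3 : 1 ≤ (1 / 2 : ℝ) ^ (J + 1) * 2 ^ i := by
          have h4 : (2 : ℝ) ^ (J + 1) ≤ 2 ^ i := pow_le_pow_right₀ (by norm_num) hi
          calc (1 : ℝ) = (1 / 2) ^ (J + 1) * 2 ^ (J + 1) := by
                rw [← mul_pow]; norm_num
            _ ≤ _ := by gcongr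
        have h4 : 0 ≤ lam ^ i / (i.factorial : ℝ) := by positivity
        nlinarith
    refine (Finset.sum_le_sum h2).trans ?_
    rw [Finset.sum_add_distrib, ← Finset.mul_sum]
    apply add_le_add
    · rw [← Finset.sum_filter]
      unfold SJ
      apply Finset.sum_le_sum_of_subset_of_nonneg
      · intro i hi
        rw [Finset.mem_filter] at hi
        rw [Finset.mem_range]
        exact hi.2
      · intro i _ _
        positivity
    · apply mul_le_mul_of_nonneg_left _ (by positivity)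
      exact Real.sum_le_exp_of_nonneg (by positivity) _
  exact le_of_tendsto (exp_hasSum lam).tendsto_sum_nat (Eventually.of_forall h1)

lemma exps {lam : ℝ} (h : 0 < lam) {J : ℕ} (hJ : 8 * lam ≤ J) (hJ1 : 1 ≤ J) :
    lam * (lam ^ J / J.factorial) ≤ 1 ∧ Real.exp lam / 2 ≤ SJ lam J := by
  have hJ0 : (0 : ℝ) < J := by exact_mod_cast hJ1
  constructor
  · have h1 := Real.pow_div_factorial_le_exp (J : ℝ) hJ0.le J
    have h2 : lam ^ J / (J.factorial : ℝ) ≤ (1 / 2) ^ J := by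
      calc lam ^ J / (J.factorial : ℝ) = (lam / J) ^ J * ((J : ℝ) ^ J / J.factorial) := by
            rw [div_pow]
            field_simp
        _ ≤ (1 / 8) ^ J * Real.exp J := by
            apply mul_le_mul _ h1 (by positivity) (by positivity)
            apply pow_le_pow_left₀ (by positivity)
            rw [div_le_div_iff₀ hJ0 (by norm_num)]
            linarith
        _ = (1 / 8 * Real.exp 1) ^ J := by
            rw [mul_pow, ← Real.exp_nat_mul, mul_one]
        _ ≤ (1 / 2) ^ J := by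
            apply pow_le_pow_left₀ (by positivity)
            have := Real.exp_one_lt_d9
            linarith
    have h3 : (J : ℝ) ≤ 2 ^ J := by
      have := (Nat.lt_two_pow_self (n := J)).le
      exact_mod_cast this
    calc lam * (lam ^ J / J.factorial) ≤ J * (1 / 2) ^ J := by
          apply mul_le_mul _ h2 (by positivity) hJ0.le
          linarith
      _ ≤ 2 ^ J * (1 / 2) ^ J := by gcongr
      _ = 1 := by rw [← mul_pow]; norm_num
  · have h1 := exp_le_SJ h.le J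
    have h2 : (1 / 2 : ℝ) ^ (J + 1) * Real.exp (2 * lam) ≤ Real.exp lam / 2 := by
      have h3 : Real.exp lam ≤ 2 ^ J := by
        have h4 : Real.exp lam ≤ Real.exp (J * Real.log 2) := by
          apply Real.exp_le_exp.2
          have := Real.log_two_gt_d9
          nlinarith
        refine h4.trans (le_of_eq ?_)
        rw [mul_comm, Real.exp_mul, Real.exp_log (by norm_num), Real.rpow_natCast]
      have h4 : Real.exp (2 * lam) = Real.exp lam * Real.exp lam := by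
        rw [← Real.exp_add]
        congr 1
        ring
      rw [h4, pow_succ]
      calc (1 / 2 : ℝ) ^ J * (1 / 2) * (Real.exp lam * Real.exp lam) ≤
          (1 / 2 : ℝ) ^ J * (1 / 2) * (2 ^ J * Real.exp lam) := by gcongr
        _ = (1 / 2 * 2) ^ J * (Real.exp lam / 2) := by rw [mul_pow]; ring
        _ = _ := by norm_num
    linarith

/-- the parameters of the lower bound -/
lemma parL {ε : ℝ} (hε : 0 < ε) (hε1 : ε ≤ 1 / 10) : ∃ C c r0 : ℝ, 1 ≤ C ∧ 0 < c ∧ 10 ≤ r0 ∧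
    ∀ r x : ℝ, r0 ≤ r → C * Real.sqrt (Real.log r) ≤ x → x ≤ c * Real.log r →
      0 < x ∧ 2 / ε ≤ Lam r x ∧
      ∃ J : ℕ, 1 ≤ J ∧ ((J + 2 : ℕ) : ℝ) ≤ Real.log r ∧ 2 * ((J + 2 : ℕ) : ℝ) + 2 ≤ ε * x ∧
        ∀ v lam : ℝ, (1 - ε) * Vr r ≤ v → v ≤ (1 + ε) * Vr r → lam = ((1 + 3 * ε) * x) ^ 2 / v →
          8 ≤ ε ^ 2 * lam ∧ lam * (lam ^ J / J.factorial) ≤ 1 ∧ Real.exp lam / 2 ≤ SJ lam J ∧
          lam * (1 + 2 * ε) ≤ (1 + 13 * ε) * Lam r x := by
  refine ⟨max 1 (max (10 / ε) (8 / ε ^ 2)), ε / 1000, Real.exp 100, le_max_left _ _,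
    by positivity, ?_, fun r x hr hx1 hx2 => ?_⟩
  · have := Real.add_one_le_exp (100 : ℝ)
    linarith
  set C := max 1 (max (10 / ε) (8 / ε ^ 2)) with hC
  have hC1 : 1 ≤ C := le_max_left _ _
  have hC2 : 10 / ε ≤ C := (le_max_left _ _).trans (le_max_right _ _)
  have hC3 : 8 / ε ^ 2 ≤ C := (le_max_right _ _).trans (le_max_right _ _)
  have hr0 : 0 < r := lt_of_lt_of_le (Real.exp_pos _) hr
  have hlog : 100 ≤ Real.log r := by
    rw [Real.le_log_iff_exp_le hr0]
    exact hr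
  set ℓ := Real.log r with hℓ
  have hs : 10 ≤ Real.sqrt ℓ := by
    apply Real.le_sqrt_of_sq_le
    linarith
  have hxC : 10 * C ≤ x := by nlinarith
  have hx0 : 0 < x := by linarith
  have t1 := two_pi_sq
  have t2 := two_pi_sq'
  have hV1 : 1 / 5 * ℓ ≤ Vr r := by
    unfold Vr
    exact mul_le_mul_of_nonneg_right t1 (by linarith)
  have hV2 : Vr r ≤ ℓ := by
    unfold Vr
    rw [← hℓ]
    nlinarith
  have hV0 : 0 < Vr r := by linarith
  have hΛ : Lam r x * Vr r = x ^ 2 := by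
    unfold Lam
    field_simp
  have hΛ0 : 0 < Lam r x := by unfold Lam; positivity
  have hΛC : C ≤ Lam r x := by
    have h1 : C ^ 2 * ℓ ≤ x ^ 2 := by
      have h2 : (C * Real.sqrt ℓ) ^ 2 ≤ x ^ 2 := pow_le_pow_left₀ (by positivity) hx1 2
      rwa [mul_pow, Real.sq_sqrt (by linarith)] at h2
    unfold Lam
    rw [le_div_iff₀ hV0]
    calc C * Vr r ≤ C * ℓ := by gcongr
      _ ≤ C ^ 2 * ℓ := by
          apply mul_le_mul_of_nonneg_right _ (by linarith)
          nlinarith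
      _ ≤ x ^ 2 := h1
  have hΛx : Lam r x ≤ ε / 200 * x := by
    unfold Lam
    rw [div_le_iff₀ hV0]
    have h1 : x ^ 2 ≤ x * (ε / 1000 * ℓ) := by
      rw [sq]
      gcongr
    have h2 : ε / 200 * x * (1 / 5 * ℓ) ≤ ε / 200 * x * Vr r := by gcongr
    calc x ^ 2 ≤ x * (ε / 1000 * ℓ) := h1
      _ = ε / 200 * x * (1 / 5 * ℓ) := by ring
      _ ≤ _ := h2
  have hx4 : 100 ≤ ε * x := by
    rw [div_le_iff₀ hε] at hC2
    nlinarith
  have hΛℓ : Lam r x ≤ 1 / 1000 * ℓ := by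
    have : ε / 200 * x ≤ 1 / 2000 * (1 / 10000 * ℓ) := by
      apply mul_le_mul
      · linarith
      · nlinarith
      · linarith
      · norm_num
    linarith
  refine ⟨hx0, ?_, ?_⟩
  · refine le_trans ?_ (hC2.trans hΛC)
    apply div_le_div_of_nonneg_right _ hε.le
    norm_num
  set J := ⌊16 * Lam r x⌋₊ + 1 with hJ
  have hJ1 : ((J : ℕ) : ℝ) ≤ 16 * Lam r x + 1 := by
    rw [hJ]
    push_cast
    have := Nat.floor_le (show 0 ≤ 16 * Lam r x by positivity)
    linarith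
  have hJ2 : 16 * Lam r x < (J : ℕ) := by
    rw [hJ]
    push_cast
    exact Nat.lt_floor_add_one _
  have hJ3 : 1 ≤ J := by omega
  refine ⟨J, hJ3, ?_, ?_, ?_⟩
  · push_cast
    linarith
  · push_cast
    linarith
  · intro v lam hv1 hv2 hlam
    have hv0 : 0 < v := lt_of_lt_of_le (mul_pos (by linarith) hV0) hv1
    have hlv : lam * v = (1 + 3 * ε) ^ 2 * (Lam r x * Vr r) := by
      rw [hlam, hΛ]
      field_simp
    have hlam0 : 0 < lam := by
      rw [hlam]
      positivity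
    have hlo : Lam r x ≤ lam := by
      have h1 : Lam r x * v ≤ lam * v := by
        rw [hlv]
        have h2 : Lam r x * v ≤ Lam r x * ((1 + ε) * Vr r) := by gcongr
        have h3 : (1 + ε) ≤ (1 + 3 * ε) ^ 2 := by nlinarith
        calc Lam r x * v ≤ Lam r x * ((1 + ε) * Vr r) := h2
          _ = (1 + ε) * (Lam r x * Vr r) := by ring
          _ ≤ _ := by gcongr
      exact le_of_mul_le_mul_right h1 hv0
    have hup : (1 - ε) * lam ≤ (1 + 3 * ε) ^ 2 * Lam r x := by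
      have h1 : (1 - ε) * lam * Vr r ≤ (1 + 3 * ε) ^ 2 * Lam r x * Vr r := by
        calc (1 - ε) * lam * Vr r = lam * ((1 - ε) * Vr r) := by ring
          _ ≤ lam * v := by gcongr
          _ = _ := by rw [hlv]; ring
      exact le_of_mul_le_mul_right h1 hV0
    have hup2 : lam ≤ 2 * Lam r x := by
      have h1 : (1 - ε) * (2 * Lam r x) ≥ (1 + 3 * ε) ^ 2 * Lam r x := by
        have h2 : (1 + 3 * ε) ^ 2 ≤ 2 * (1 - ε) := by nlinarith
        have := mul_le_mul_of_nonneg_right h2 hΛ0.le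
        linarith
      have h3 : (1 - ε) * lam ≤ (1 - ε) * (2 * Lam r x) := hup.trans h1
      exact le_of_mul_le_mul_left h3 (by linarith)
    obtain ⟨e1, e2⟩ := exps hlam0 (J := J) (by linarith) hJ3
    refine ⟨?_, e1, e2, ?_⟩
    · have h1 : 8 / ε ^ 2 ≤ lam := hC3.trans (hΛC.trans hlo)
      rw [div_le_iff₀ (by positivity)] at h1
      linarith
    · have h1 : (1 - ε) * (lam * (1 + 2 * ε)) ≤ (1 - ε) * ((1 + 13 * ε) * Lam r x) := by
        have h2 : (1 + 3 * ε) ^ 2 * (1 + 2 * ε) ≤ (1 - ε) * (1 + 13 * ε) := by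
          have h3 : 0 ≤ ε * (1 / 10 - ε) := mul_nonneg hε.le (by linarith)
          have h4 : 0 ≤ ε ^ 2 * (1 / 10 - ε) := mul_nonneg (sq_nonneg ε) (by linarith)
          nlinarith
        calc (1 - ε) * (lam * (1 + 2 * ε)) = ((1 - ε) * lam) * (1 + 2 * ε) := by ring
          _ ≤ ((1 + 3 * ε) ^ 2 * Lam r x) * (1 + 2 * ε) := by gcongr
          _ = ((1 + 3 * ε) ^ 2 * (1 + 2 * ε)) * Lam r x := by ring
          _ ≤ ((1 - ε) * (1 + 13 * ε)) * Lam r x := by gcongr
          _ = _ := by ring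
      exact le_of_mul_le_mul_left h1 (by linarith)

lemma ms_diff_ge {T : ℝ} {S S1 S2 : Set ℝ}
    (h : ∀ t, T < t → t ≤ 2 * T → t ∈ S1 → t ∉ S2 → t ∈ S) : ms T S1 - ms T S2 ≤ ms T S := by
  have := ms_union_of (T := T) (S := S1) (S1 := S) (S2 := S2) (fun t h1 h2 h3 => by
    by_cases h4 : t ∈ S2
    · right; exact h4
    · left; exact h t h1 h2 h3 h4)
  linarith

/-- **lower bounds for the moderate deviations in a block** -/
theorem lo_blk (RH : RiemannHypothesis) {C' : ℝ} (hC' : 0 < C') {ε : ℝ} (hε : 0 < ε)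
    (hε1 : ε ≤ 1 / 10) : ∃ C c r0 : ℝ, 1 ≤ C ∧ 0 < c ∧ 10 ≤ r0 ∧
    ∀ r x : ℝ, r0 ≤ r → C * Real.sqrt (Real.log r) ≤ x → x ≤ c * Real.log r →
      ∀ y : ℝ, r / 2 ≤ y → y ≤ 2 * r →
      ∃ T1 : ℝ, 10 ≤ T1 ∧ ∀ T : ℝ, T1 ≤ T → ∀ U1 U2 : ℝ, 1 ≤ U1 → EFD C' T (ordz U1 U2) mu →
        Real.exp (-((1 + 20 * ε) * Lam r x)) * T ≤
          ms T {t | (cC U1 U2 t (Real.pi * y / Real.log T) : ℝ) ≤ y - x} ∧
        Real.exp (-((1 + 20 * ε) * Lam r x)) * T ≤
          ms T {t | y + x ≤ (cO U1 U2 t (Real.pi * y / Real.log T) : ℝ)} := by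
  obtain ⟨C, c, r0, hC, hc, hr0, hpar⟩ := parL hε hε1
  obtain ⟨r1, hr1, hpar2⟩ := par hε
  refine ⟨C, c, max r0 r1, hC, hc, hr0.trans (le_max_left _ _), fun r x hr hx1 hx2 y hy1 hy2 => ?_⟩
  obtain ⟨hx0, hL2, J, hJ1, hJ2, hJ3, hJ4⟩ := hpar r x ((le_max_left _ _).trans hr) hx1 hx2
  have hr10 : 10 ≤ r := (hr0.trans (le_max_left _ _)).trans hr
  obtain ⟨j, b, hj, hb, hbk, hb1, hby, hbi, hvar⟩ := hpar2 r ((le_max_right _ _).trans hr) (J + 2)
    (by omega) hJ2 y hy1 hy2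
  have hpi := Real.pi_pos
  have hlog : 0 < Real.log r := Real.log_pos (by linarith)
  have hV0 : 0 < Vr r := by unfold Vr; positivity
  have hJb : ((J + 1 : ℕ) : ℝ) * b < 1 := by
    have h1 : ((J + 1 : ℕ) : ℝ) * b ≤ ((J + 1 : ℕ) : ℝ) * (1 / ((J + 2 : ℕ) : ℝ)) := by gcongr
    have h2 : ((J + 1 : ℕ) : ℝ) * (1 / ((J + 2 : ℕ) : ℝ)) < 1 := by
      rw [mul_one_div, div_lt_one (by positivity)]
      push_cast
      linarith
    linarith
  set Q := (1 + 13 * ε) * Lam r x with hQ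
  set η := min (1 / 2) (1 / 8 * Real.exp (-Q)) with hη
  have hη0 : 0 < η := lt_min (by norm_num) (by positivity)
  have hη1 : η ≤ 1 / 2 := min_le_left _ _
  have hη2 : η ≤ 1 / 8 * Real.exp (-Q) := min_le_right _ _
  have hfin : Real.exp (-((1 + 20 * ε) * Lam r x)) ≤ 1 / 8 * Real.exp (-Q) := by
    have h1 : (1 + 20 * ε) * Lam r x = Q + 7 * ε * Lam r x := by rw [hQ]; ring
    rw [div_le_iff₀ hε] at hL2
    have h2 : Real.exp (-((1 + 20 * ε) * Lam r x)) ≤ Real.exp (-Q) * Real.exp (-3) := by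
      rw [← Real.exp_add]
      apply Real.exp_le_exp.2
      linarith
    have h3 : Real.exp (-3) ≤ 1 / 8 := by
      have h4 : Real.exp (-3 : ℝ) = (Real.exp (-1)) ^ 3 := by
        rw [← Real.exp_nat_mul]
        norm_num
      rw [h4]
      have h5 : Real.exp (-1) ≤ 1 / 2 := by
        rw [Real.exp_neg, inv_eq_one_div, div_le_div_iff₀ (Real.exp_pos _) (by norm_num)]
        have := Real.exp_one_gt_d9
        linarith
      calc Real.exp (-1) ^ 3 ≤ (1 / 2) ^ 3 := pow_le_pow_left₀ (Real.exp_pos _).le h5 3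
        _ = 1 / 8 := by norm_num
    calc Real.exp (-((1 + 20 * ε) * Lam r x)) ≤ Real.exp (-Q) * Real.exp (-3) := h2
      _ ≤ Real.exp (-Q) * (1 / 8) := by gcongr
      _ = _ := by ring
  -- common part
  have common : ∀ (S : Finset ℕ) (σ : ℝ), |σ| ≤ 1 → Ker S j σ → S.card ≤ j + 1 →
      ∀ ρ : ℝ, |ρ| = (1 + 3 * ε) * x →
      ∃ T1 : ℝ, 10 ≤ T1 ∧ ∀ T : ℝ, T1 ≤ T → ∀ U1 U2 : ℝ, EFD C' T (ordz U1 U2) mu →
        Real.exp (-((1 + 20 * ε) * Lam r x)) * T ≤
        ms T {t | ‖PP (al (sc (Gs S j b) b) (Real.log T)) (XT b T) t - ρ‖ ≤ ε * |ρ|} -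
        ms T {t | η < |SX (ordz U1 U2) mu (sc (Gs S j b) b) (Real.log T) t -
          (sc (Gs S j b) b 0 / 2 - (PW (sc (Gs S j b) b) b T t).re)|} := by
    intro S σ hσ hKer hS ρ hρ
    obtain ⟨K', hWt⟩ := sc_wt (Gs_contDiff S j b) (Gs_one S j b) hb hb1
    have hv := abs_le.1 (hvar S σ hσ hKer hS)
    have hv0 : 0 < var (sc (Gs S j b) b) := by nlinarith [hv.1]
    obtain ⟨q1, q2, q3, q4⟩ := hJ4 (var (sc (Gs S j b) b)) (ρ ^ 2 / var (sc (Gs S j b) b))
      (by linarith [hv.1]) (by linarith [hv.2]) (by rw [← hρ, sq_abs])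
    have hρ0 : ρ ≠ 0 := by
      intro h0
      rw [h0, abs_zero] at hρ
      have : 0 < (1 + 3 * ε) * x := by positivity
      linarith
    have hlb := lb hv0 (coef_al hWt hJb) hρ0 hε rfl q1 q2 q3
    obtain ⟨T1, hT1, hef⟩ := ef_ms hWt hC' hη0
    obtain ⟨T2, hT2⟩ := eventually_atTop.1 hlb
    refine ⟨max T1 T2, hT1.trans (le_max_left _ _), fun T hT U1 U2 hE => ?_⟩
    have h1 := hef T ((le_max_left _ _).trans hT) _ _ hE
    have h2 := hT2 T ((le_max_right _ _).trans hT)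
    have hT0 : 0 < T := by linarith [(le_max_left T1 T2).trans hT]
    have h3 : η * T ≤ 1 / 8 * Real.exp (-Q) * T := mul_le_mul_of_nonneg_right hη2 hT0.le
    have h4 : 1 / 4 * Real.exp (-Q) * T ≤ 1 / 4 *
        Real.exp (-(ρ ^ 2 / var (sc (Gs S j b) b) * (1 + 2 * ε))) * T := by
      apply mul_le_mul_of_nonneg_right _ hT0.le
      apply mul_le_mul_of_nonneg_left _ (by norm_num)
      apply Real.exp_le_exp.2
      linarith
    have h5 : Real.exp (-((1 + 20 * ε) * Lam r x)) * T ≤ 1 / 8 * Real.exp (-Q) * T :=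
      mul_le_mul_of_nonneg_right hfin hT0.le
    linarith
  have hρp : 0 < (1 + 3 * ε) * x := by positivity
  obtain ⟨T1, hT1, hcom1⟩ := common (Finset.range (j + 1)) 1 (by norm_num) (ker_range j) (by
    rw [Finset.card_range]) ((1 + 3 * ε) * x) (abs_of_pos hρp)
  obtain ⟨T2, hT2, hcom2⟩ := common (Finset.Ico 1 j) (-1) (by norm_num) (ker_Ico hj) (by
    rw [Nat.card_Ico]; omega) (-((1 + 3 * ε) * x)) (by rw [abs_neg, abs_of_pos hρp])
  obtain ⟨T3, hT3⟩ := eventually_atTop.1 (gau_ev y (y - x) (show (0 : ℝ) < 1 / 2 by norm_num))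
  obtain ⟨m1, m2⟩ := min_wt hj hb hb1 hby
  obtain ⟨n1, n2⟩ := maj_wt hj hb hb1 hby
  refine ⟨max T1 (max T2 T3), hT1.trans (le_max_left _ _), fun T hT U1 U2 hU hE => ?_⟩
  have a1 : T1 ≤ T := (le_max_left _ _).trans hT
  have a2 : T2 ≤ T := ((le_max_left _ _).trans (le_max_right _ _)).trans hT
  have a3 : T3 ≤ T := ((le_max_right _ _).trans (le_max_right _ _)).trans hT
  have hT10 : 10 ≤ T := hT1.trans a1
  have hL : 0 < Real.log T := Real.log_pos (by linarith)
  have hεx : (1 + 3 * ε) * x - ε * ((1 + 3 * ε) * x) ≥ (1 + ε) * x := by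
    have h1 : 0 ≤ ε * x := by positivity
    have h2 : 0 ≤ (ε * x) * (1 / 10 - ε) := mul_nonneg h1 (by linarith)
    nlinarith
  constructor
  · refine (hcom1 T a1 U1 U2 hE).trans (ms_diff_ge ?_)
    intro t _ _ ht1 ht2
    have h4 : ¬ η < |SX (ordz U1 U2) mu (sc (Gs (Finset.range (j + 1)) j b) b) (Real.log T) t -
          (sc (Gs (Finset.range (j + 1)) j b) b 0 / 2 -
            (PW (sc (Gs (Finset.range (j + 1)) j b) b) b T t).re)| := ht2
    rw [not_lt, maj_zero hb hby, abs_le] at h4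
    have h5 : ‖PW (sc (Gs (Finset.range (j + 1)) j b) b) b T t - (((1 + 3 * ε) * x : ℝ) : ℂ)‖ ≤
      ε * |(1 + 3 * ε) * x| := ht1
    rw [abs_of_pos hρp] at h5
    have h7 := (Complex.abs_re_le_norm _).trans h5
    rw [Complex.sub_re, Complex.ofReal_re, abs_le] at h7
    have h6 := SX_ge RH (U2 := U2) hU (w := sc (Gs (Finset.range (j + 1)) j b) b)
        (L := Real.log T) (x0 := Real.pi * y) (ρ := Real.pi * y / Real.log T) (c := 1) hL
        zero_le_one n1 n2 (le_of_eq (mul_div_cancel₀ _ hL.ne')) t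
    rw [one_mul] at h6
    have h8 := hT3 T a3
    set E := Real.exp (-(Real.pi * y / Real.log T) ^ 2 / 2) with hE'
    have hE0 : 0 < E := Real.exp_pos _
    show (cC U1 U2 t (Real.pi * y / Real.log T) : ℝ) ≤ y - x
    have h9 : (cC U1 U2 t (Real.pi * y / Real.log T) : ℝ) * E ≤ (y - x) * E := by
      linarith [h4.2, h7.1]
    exact le_of_mul_le_mul_right h9 hE0
  · refine (hcom2 T a2 U1 U2 hE).trans (ms_diff_ge ?_)
    intro t _ _ ht1 ht2
    have h4 : ¬ η < |SX (ordz U1 U2) mu (sc (Gs (Finset.Ico 1 j) j b) b) (Real.log T) t -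
          (sc (Gs (Finset.Ico 1 j) j b) b 0 / 2 -
            (PW (sc (Gs (Finset.Ico 1 j) j b) b) b T t).re)| := ht2
    rw [not_lt, min_zero hj hb hby, abs_le] at h4
    have h5 : ‖PW (sc (Gs (Finset.Ico 1 j) j b) b) b T t - ((-((1 + 3 * ε) * x) : ℝ) : ℂ)‖ ≤
      ε * |-((1 + 3 * ε) * x)| := ht1
    rw [abs_neg, abs_of_pos hρp] at h5
    have h7 := (Complex.abs_re_le_norm _).trans h5
    rw [Complex.sub_re, Complex.ofReal_re, abs_le] at h7
    have h6 := SX_le RH (U2 := U2) hU (w := sc (Gs (Finset.Ico 1 j) j b) b) (L := Real.log T)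
        (x0 := Real.pi * y) (ρ := Real.pi * y / Real.log T) (B := 1) hL zero_le_one m1 m2
        (le_of_eq (mul_div_cancel₀ _ hL.ne').symm) t
    rw [mul_one] at h6
    show y + x ≤ (cO U1 U2 t (Real.pi * y / Real.log T) : ℝ)
    linarith [h4.1, h7.2]

end Pool.Agent.T9h26.TD
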