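import Pool.Agent.T9h26.TD.Lim

set_option autoImplicit false

/-! Measure of sets in a dyadic block: upper and lower bounds from moments. -/

open Complex Filter Topology Set MeasureTheory

namespace Pool.Agent.T9h26.TD

/-- the measure of a set inside the dyadic block -/
noncomputable def ms (T : ℝ) (S : Set ℝ) : ℝ := (volume (S ∩ Ioc T (2 * T))).toReal

lemma ms_fin (T : ℝ) (S : Set ℝ) : volume (S ∩ Ioc T (2 * T)) ≠ ⊤ :=
  ((measure_mono inter_subset_right).trans_lt (by simp)).ne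

lemma ms_nonneg (T : ℝ) (S : Set ℝ) : 0 ≤ ms T S := ENNReal.toReal_nonneg

lemma ms_mono {T : ℝ} {S S' : Set ℝ} (h : ∀ t, T < t → t ≤ 2 * T → t ∈ S → t ∈ S') :
    ms T S ≤ ms T S' := by
  apply ENNReal.toReal_mono (ms_fin T S')
  apply measure_mono
  rintro t ⟨h1, h2⟩
  exact ⟨h t h2.1 h2.2 h1, h2⟩

lemma ms_union (T : ℝ) (S S' : Set ℝ) : ms T (S ∪ S') ≤ ms T S + ms T S' := by
  unfold ms
  rw [← ENNReal.toReal_add (ms_fin T S) (ms_fin T S')]
  apply ENNReal.toReal_mono (ENNReal.add_ne_top.2 ⟨ms_fin T S, ms_fin T S'⟩)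
  rw [union_inter_distrib_right]
  exact measure_union_le _ _

lemma ms_union_of {T : ℝ} {S S1 S2 : Set ℝ}
    (h : ∀ t, T < t → t ≤ 2 * T → t ∈ S → t ∈ S1 ∨ t ∈ S2) : ms T S ≤ ms T S1 + ms T S2 :=
  (ms_mono (S' := S1 ∪ S2) h).trans (ms_union T S1 S2)

lemma ms_le_self {T : ℝ} (hT : 0 ≤ T) (S : Set ℝ) : ms T S ≤ T := by
  unfold ms
  calc (volume (S ∩ Ioc T (2 * T))).toReal ≤ (volume (Ioc T (2 * T))).toReal :=
        ENNReal.toReal_mono (by simp) (measure_mono inter_subset_right)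
    _ = T := by
        rw [Real.volume_Ioc, ENNReal.toReal_ofReal (by linarith)]
        ring

lemma ms_Ioc_le {T a b : ℝ} (hab : a ≤ b) : ms T (Ioc a b) ≤ b - a := by
  unfold ms
  calc (volume (Ioc a b ∩ Ioc T (2 * T))).toReal ≤ (volume (Ioc a b)).toReal :=
        ENNReal.toReal_mono (by simp) (measure_mono inter_subset_left)
    _ = b - a := by rw [Real.volume_Ioc, ENNReal.toReal_ofReal (by linarith)]

/-- Markov's inequality on the block -/
lemma ms_markov {T : ℝ} (hT : 0 ≤ T) {f : ℝ → ℝ} (hf : Continuous f) (h0 : ∀ t, 0 ≤ f t)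
    {c : ℝ} : c * ms T {t | c ≤ f t} ≤ ∫ t in T..(2 * T), f t := by
  rw [intervalIntegral.integral_of_le (by linarith)]
  have h1 := mul_meas_ge_le_integral_of_nonneg (μ := volume.restrict (Ioc T (2 * T)))
    (Eventually.of_forall h0) ((hf.integrableOn_Icc).mono_set Ioc_subset_Icc_self) c
  have h2 : (volume.restrict (Ioc T (2 * T))).real {x | c ≤ f x} = ms T {t | c ≤ f t} := by
    unfold ms Measure.real
    rw [Measure.restrict_apply' measurableSet_Ioc]
  rw [← h2]
  exact h1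

/-- a lower bound from an integral: `∫ f ≤ B ms {f large set}` -/
lemma ms_lower {T : ℝ} (hT : 0 ≤ T) {f : ℝ → ℝ} (hf : Continuous f) {G : Set ℝ}
    (hG : MeasurableSet G) {B : ℝ} (hB : ∀ t ∈ G, f t ≤ B) :
    ∫ t in T..(2 * T), G.indicator f t ≤ B * ms T G := by
  rw [intervalIntegral.integral_of_le (by linarith)]
  rw [integral_indicator hG, Measure.restrict_restrict hG]
  have h1 : ∫ t in G ∩ Ioc T (2 * T), f t ≤ ∫ _t in G ∩ Ioc T (2 * T), B := by
    apply setIntegral_mono_on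
    · exact ((hf.integrableOn_Icc (a := T) (b := 2 * T)).mono_set Ioc_subset_Icc_self).mono_set
        inter_subset_right
    · exact integrableOn_const (ms_fin T G)
    · exact hG.inter measurableSet_Ioc
    · intro t ht
      exact hB t ht.1
  refine h1.trans (le_of_eq ?_)
  rw [setIntegral_const, smul_eq_mul]
  unfold ms Measure.real
  ring

/-- moments of polynomials in the prime polynomial -/
theorem mom_poly {a : ℝ → ℕ → ℝ} {X : ℝ → ℕ} {v : ℝ} {J : ℕ} (hv : 0 < v) (hC : Coef a X v J)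
    (q : ℕ → ℝ) :
    Tendsto (fun T : ℝ => (1 / T) * ∫ t in T..(2 * T),
      ‖∑ i ∈ Finset.range (J + 1), (q i : ℂ) * PP (a T) (X T) t ^ i‖ ^ 2) atTop
      (𝓝 (∑ i ∈ Finset.range (J + 1), q i ^ 2 * (i.factorial * v ^ i))) := by
  have h1 : Tendsto (fun T : ℝ => ∑ i ∈ Finset.range (J + 1), ∑ i' ∈ Finset.range (J + 1),
      ((q i : ℂ) * q i') * ((1 / (T : ℂ)) * ∫ t in T..(2 * T), PP (a T) (X T) t ^ i *
      (starRingEnd ℂ) (PP (a T) (X T) t ^ i'))) atTop
      (𝓝 (∑ i ∈ Finset.range (J + 1), ∑ i' ∈ Finset.range (J + 1),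
      ((q i : ℂ) * q i') * (if i = i' then ((i.factorial * v ^ i : ℝ) : ℂ) else 0))) := by
    apply tendsto_finsetSum
    intro i hi
    apply tendsto_finsetSum
    intro i' hi'
    rw [Finset.mem_range] at hi hi'
    exact (mom hv hC (by omega) (by omega)).const_mul _
  have e1 : (∑ i ∈ Finset.range (J + 1), ∑ i' ∈ Finset.range (J + 1),
      ((q i : ℂ) * q i') * (if i = i' then ((i.factorial * v ^ i : ℝ) : ℂ) else 0)) =
      ((∑ i ∈ Finset.range (J + 1), q i ^ 2 * (i.factorial * v ^ i) : ℝ) : ℂ) := by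
    push_cast
    apply Finset.sum_congr rfl
    intro i hi
    simp only [mul_ite, mul_zero]
    rw [Finset.sum_ite_eq, if_pos hi]
    ring
  rw [e1] at h1
  have e2 : ∀ T : ℝ, (∑ i ∈ Finset.range (J + 1), ∑ i' ∈ Finset.range (J + 1),
      ((q i : ℂ) * q i') * ((1 / (T : ℂ)) * ∫ t in T..(2 * T), PP (a T) (X T) t ^ i *
      (starRingEnd ℂ) (PP (a T) (X T) t ^ i'))) =
      (((1 / T) * ∫ t in T..(2 * T),
      ‖∑ i ∈ Finset.range (J + 1), (q i : ℂ) * PP (a T) (X T) t ^ i‖ ^ 2 : ℝ) : ℂ) := by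
    intro T
    have hPc := PP_cont (a T) (X T)
    have e3 : ∀ t : ℝ, ((‖∑ i ∈ Finset.range (J + 1), (q i : ℂ) * PP (a T) (X T) t ^ i‖ ^ 2 : ℝ) : ℂ) =
        ∑ i ∈ Finset.range (J + 1), ∑ i' ∈ Finset.range (J + 1), ((q i : ℂ) * q i') *
          (PP (a T) (X T) t ^ i * (starRingEnd ℂ) (PP (a T) (X T) t ^ i')) := by
      intro t
      rw [Complex.ofReal_pow, ← Complex.mul_conj', map_sum, Finset.sum_mul_sum]
      apply Finset.sum_congr rfl
      intro i _
      apply Finset.sum_congr rfl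
      intro i' _
      rw [map_mul, Complex.conj_ofReal]
      ring
    rw [Complex.ofReal_mul, ← intervalIntegral.integral_ofReal]
    simp_rw [e3]
    rw [intervalIntegral.integral_finsetSum]
    · push_cast
      rw [Finset.mul_sum]
      apply Finset.sum_congr rfl
      intro i _
      rw [intervalIntegral.integral_finsetSum]
      · rw [Finset.mul_sum]
        apply Finset.sum_congr rfl
        intro i' _
        rw [intervalIntegral.integral_const_mul]
        simp only [map_pow]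
        ring
      · intro i' _
        exact (by fun_prop : Continuous fun t : ℝ => ((q i : ℂ) * q i') *
          (PP (a T) (X T) t ^ i * (starRingEnd ℂ) (PP (a T) (X T) t ^ i'))).intervalIntegrable _ _
    · intro i _
      exact (by fun_prop : Continuous fun t : ℝ => ∑ i' ∈ Finset.range (J + 1), ((q i : ℂ) * q i') *
          (PP (a T) (X T) t ^ i * (starRingEnd ℂ) (PP (a T) (X T) t ^ i'))).intervalIntegrable _ _
  simp_rw [e2] at h1
  exact (Complex.continuous_re.tendsto _).comp h1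

/-- **upper bound for the measure of large values** -/
theorem ub {a : ℝ → ℕ → ℝ} {X : ℝ → ℕ} {v : ℝ} {J : ℕ} (hv : 0 < v) (hC : Coef a X v J)
    {x : ℝ} (hx : 0 < x) {c : ℝ} (hc : J.factorial * v ^ J / x ^ (2 * J) < c) :
    ∀ᶠ T : ℝ in atTop, ms T {t | x ≤ ‖PP (a T) (X T) t‖} ≤ c * T := by
  have h1 := mom_poly hv hC (fun i => if i = J then 1 else 0)
  have e1 : ∀ T t : ℝ, ∑ i ∈ Finset.range (J + 1), (((if i = J then 1 else 0 : ℝ)) : ℂ) *
      PP (a T) (X T) t ^ i = PP (a T) (X T) t ^ J := by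
    intro T t
    rw [Finset.sum_eq_single J]
    · simp
    · intro i _ hi
      rw [if_neg hi]
      simp
    · intro h
      exact absurd (Finset.mem_range.2 (Nat.lt_succ_self J)) h
  have e2 : ∑ i ∈ Finset.range (J + 1), ((if i = J then 1 else 0 : ℝ)) ^ 2 *
      (i.factorial * v ^ i) = J.factorial * v ^ J := by
    rw [Finset.sum_eq_single J]
    · simp
    · intro i _ hi
      rw [if_neg hi]
      simp
    · intro h
      exact absurd (Finset.mem_range.2 (Nat.lt_succ_self J)) h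
  rw [e2] at h1
  have hx2 : 0 < x ^ (2 * J) := by positivity
  have h2 : (J.factorial : ℝ) * v ^ J < c * x ^ (2 * J) := by
    rwa [div_lt_iff₀ hx2] at hc
  filter_upwards [h1.eventually (gt_mem_nhds h2), eventually_gt_atTop 0] with T h3 hT
  have hcont : Continuous fun t => ‖PP (a T) (X T) t‖ ^ (2 * J) :=
    (PP_cont (a T) (X T)).norm.pow _
  have h4 := ms_markov hT.le hcont (fun t => by positivity) (c := x ^ (2 * J))
  have e3 : ∀ t, ‖∑ i ∈ Finset.range (J + 1), (((if i = J then 1 else 0 : ℝ)) : ℂ) *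
      PP (a T) (X T) t ^ i‖ ^ 2 = ‖PP (a T) (X T) t‖ ^ (2 * J) := by
    intro t
    rw [e1, norm_pow, ← pow_mul, mul_comm]
  simp_rw [e3] at h3
  have h5 : ms T {t | x ≤ ‖PP (a T) (X T) t‖} ≤ ms T {t | x ^ (2 * J) ≤ ‖PP (a T) (X T) t‖ ^ (2 * J)} := by
    apply ms_mono
    intro t _ _ ht
    exact pow_le_pow_left₀ hx.le ht _
  have h6 : (∫ t in T..(2 * T), ‖PP (a T) (X T) t‖ ^ (2 * J)) ≤ c * x ^ (2 * J) * T := by
    have := h3.le
    rw [one_div, inv_mul_le_iff₀ hT] at this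
    linarith
  have h7 : x ^ (2 * J) * ms T {t | x ≤ ‖PP (a T) (X T) t‖} ≤ x ^ (2 * J) * (c * T) := by
    calc _ ≤ x ^ (2 * J) * ms T {t | x ^ (2 * J) ≤ ‖PP (a T) (X T) t‖ ^ (2 * J)} :=
          mul_le_mul_of_nonneg_left h5 hx2.le
      _ ≤ c * x ^ (2 * J) * T := h4.trans h6
      _ = _ := by ring
  exact le_of_mul_le_mul_left h7 hx2

end Pool.Agent.T9h26.TD
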