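import Pool.Agent.T9h26.TD.Zs

set_option autoImplicit false

/-! Small balls: the expansion of a product of squares of cosines. -/

open Complex Filter Topology Set MeasureTheory

namespace Pool.Agent.T9h26.TD

/-- the signs -/
noncomputable def sg : Fin 3 → ℝ := ![0, 1, -1]

/-- the weights -/
noncomputable def pp3 : Fin 3 → ℝ := ![1 / 2, 1 / 4, 1 / 4]

lemma pp3_nonneg (k : Fin 3) : 0 ≤ pp3 k := by
  fin_cases k <;> simp [pp3]

lemma cos_sq_exp (θ : ℝ) : ((Real.cos θ ^ 2 : ℝ) : ℂ) =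
    ∑ k : Fin 3, (pp3 k : ℂ) * cexp (2 * I * ((sg k * θ : ℝ) : ℂ)) := by
  rw [Fin.sum_univ_three]
  simp only [pp3, sg, Matrix.cons_val_zero, Matrix.cons_val_one, Matrix.cons_val]
  push_cast
  have h1 : Complex.cos (θ : ℂ) ^ 2 = 1 / 2 + Complex.cos (2 * θ) / 2 := by
    rw [Complex.cos_sq]
  rw [h1]
  have h2 : Complex.cos (2 * (θ : ℂ)) = (cexp (2 * (θ : ℂ) * I) + cexp (-(2 * (θ : ℂ)) * I)) / 2 := rfl
  rw [h2]
  have e1 : (2 : ℂ) * I * (0 * θ) = 0 := by ring
  have e2 : (2 : ℂ) * I * (1 * θ) = 2 * θ * I := by ring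
  have e3 : (2 : ℂ) * I * (-1 * θ) = -(2 * θ) * I := by ring
  rw [e1, e2, e3, Complex.exp_zero]
  ring

/-- the product of the weights -/
noncomputable def pw3 {J : ℕ} (σ : Fin J → Fin 3) : ℝ := ∏ j, pp3 (σ j)

/-- the number of nonzero signs -/
noncomputable def n3 {J : ℕ} (σ : Fin J → Fin 3) : ℝ := ∑ j, sg (σ j) ^ 2

lemma pw3_nonneg {J : ℕ} (σ : Fin J → Fin 3) : 0 ≤ pw3 σ :=
  Finset.prod_nonneg fun _ _ => pp3_nonneg _

lemma prod_cos {J : ℕ} (θ : Fin J → ℝ) : ((∏ j, Real.cos (θ j) ^ 2 : ℝ) : ℂ) =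
    ∑ σ : Fin J → Fin 3, (pw3 σ : ℂ) * cexp (2 * I * ((∑ j, sg (σ j) * θ j : ℝ) : ℂ)) := by
  push_cast
  have h : ∀ j, (Complex.cos (θ j)) ^ 2 =
      ∑ k : Fin 3, (pp3 k : ℂ) * cexp (2 * I * ((sg k * θ j : ℝ) : ℂ)) := by
    intro j
    have := cos_sq_exp (θ j)
    push_cast at this
    push_cast
    exact this
  simp_rw [h]
  rw [Finset.prod_univ_sum, Fintype.piFinset_univ]
  apply Finset.sum_congr rfl
  intro σ _
  rw [Finset.prod_mul_distrib, ← Complex.exp_sum, ← Finset.mul_sum]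
  unfold pw3
  push_cast
  rfl

lemma sum_pw3 (J : ℕ) : ∑ σ : Fin J → Fin 3, pw3 σ = 1 := by
  unfold pw3
  have h := Finset.prod_univ_sum (fun _ : Fin J => (Finset.univ : Finset (Fin 3)))
    (fun _ k => pp3 k)
  rw [Fintype.piFinset_univ] at h
  rw [← h]
  have : ∑ k : Fin 3, pp3 k = 1 := by
    rw [Fin.sum_univ_three]
    simp only [pp3, Matrix.cons_val_zero, Matrix.cons_val_one, Matrix.cons_val]
    norm_num
  simp [this]

lemma sum_pw3_exp (J : ℕ) (Λ : ℝ) : ∑ σ : Fin J → Fin 3, pw3 σ * Real.exp (-(Λ * n3 σ)) =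
    ((1 + Real.exp (-Λ)) / 2) ^ J := by
  have h := Finset.prod_univ_sum (fun _ : Fin J => (Finset.univ : Finset (Fin 3)))
    (fun _ k => pp3 k * Real.exp (-(Λ * sg k ^ 2)))
  rw [Fintype.piFinset_univ] at h
  have h2 : ∑ k : Fin 3, pp3 k * Real.exp (-(Λ * sg k ^ 2)) = (1 + Real.exp (-Λ)) / 2 := by
    rw [Fin.sum_univ_three]
    simp only [pp3, sg, Matrix.cons_val_zero, Matrix.cons_val_one, Matrix.cons_val]
    norm_num
    ring
  rw [h2, Finset.prod_const, Finset.card_univ, Fintype.card_fin] at h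
  rw [h]
  apply Finset.sum_congr rfl
  intro σ _
  unfold pw3 n3
  rw [Finset.prod_mul_distrib, Finset.mul_sum, ← Finset.sum_neg_distrib, Real.exp_sum]

/-- the combination of the weights -/
noncomputable def Fs {J : ℕ} (F : Fin J → ℝ → ℂ) (σ : Fin J → Fin 3) (u : ℝ) : ℂ :=
  ∑ j, (sg (σ j) : ℂ) * F j u

lemma PZ_Fs {J : ℕ} (F : Fin J → ℝ → ℂ) (σ : Fin J → Fin 3) (T t : ℝ) :
    PZ (Fs F σ) T t = ∑ j, (sg (σ j) : ℂ) * PZ (F j) T t := by
  unfold Fs
  rw [PZ_sum]
  apply Finset.sum_congr rfl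
  intro j _
  rw [PZ_smul]

lemma n3_nonneg {J : ℕ} (σ : Fin J → Fin 3) : 0 ≤ n3 σ := Finset.sum_nonneg fun _ _ => sq_nonneg _

lemma sg_sq (k : Fin 3) : sg k = 0 ∨ sg k ^ 2 = 1 := by
  fin_cases k <;> simp [sg]

lemma n3_zero {J : ℕ} {σ : Fin J → Fin 3} (h : n3 σ = 0) (j : Fin J) : sg (σ j) = 0 := by
  have h1 := (Finset.sum_eq_zero_iff_of_nonneg (fun i _ => sq_nonneg (sg (σ i)))).1 h j
    (Finset.mem_univ j)
  exact pow_eq_zero_iff (two_ne_zero) |>.1 h1

lemma n3_one {J : ℕ} {σ : Fin J → Fin 3} (h : n3 σ ≠ 0) : 1 ≤ n3 σ := by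
  have h2 : ∃ j, sg (σ j) ≠ 0 := by
    by_contra hc
    push Not at hc
    apply h
    unfold n3
    simp [hc]
  obtain ⟨j, hj⟩ := h2
  have h3 : sg (σ j) ^ 2 = 1 := (sg_sq (σ j)).resolve_left hj
  calc (1 : ℝ) = sg (σ j) ^ 2 := h3.symm
    _ ≤ n3 σ := Finset.single_le_sum (f := fun i => sg (σ i) ^ 2) (fun i _ => sq_nonneg _)
        (Finset.mem_univ j)

lemma n3_le {J : ℕ} (σ : Fin J → Fin 3) : n3 σ ≤ J := by
  unfold n3
  calc ∑ j, sg (σ j) ^ 2 ≤ ∑ _j : Fin J, (1 : ℝ) := by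
        apply Finset.sum_le_sum
        intro j _
        rcases sg_sq (σ j) with h | h
        · rw [h]; norm_num
        · rw [h]
    _ = J := by simp

/-- the mean of a product of truncated exponentials -/
lemma corr_re {F : ℝ → ℂ} {b : ℝ} {K : NNReal} (h : Wz F b K) {M : ℕ} (hM : (M : ℝ) * b < 1)
    (hv : 0 < var (nw F)) {u : ℂ} (hu : ‖u‖ = 1) {τ : ℝ} (hτ : 0 < τ) :
    ∀ᶠ T : ℝ in atTop, ∫ t in T..(2 * T),
      (u * EJ (-(I * PZ F T t)) M * (starRingEnd ℂ) (EJ (I * PZ F T t) M)).re ≤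
        (u.re * (EJ (-(var (nw F) : ℂ)) M).re + τ) * T := by
  set V := var (nw F) with hV
  have hpt : ∀ T t, (u * EJ (-(I * PZ F T t)) M * (starRingEnd ℂ) (EJ (I * PZ F T t) M)).re =
      (‖∑ i ∈ Finset.range (M + 1), ((u * (-I) ^ i + I ^ i) / i.factorial) * PZ F T t ^ i‖ ^ 2 -
      ‖∑ i ∈ Finset.range (M + 1), ((u * (-I) ^ i - I ^ i) / i.factorial) * PZ F T t ^ i‖ ^ 2) / 4 := by
    intro T t
    have e1 : ∑ i ∈ Finset.range (M + 1), ((u * (-I) ^ i + I ^ i) / i.factorial) * PZ F T t ^ i =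
        u * EJ (-(I * PZ F T t)) M + EJ (I * PZ F T t) M := by
      unfold EJ
      rw [Finset.mul_sum, ← Finset.sum_add_distrib]
      apply Finset.sum_congr rfl
      intro i _
      rw [← neg_mul, mul_pow, mul_pow]
      ring
    have e2 : ∑ i ∈ Finset.range (M + 1), ((u * (-I) ^ i - I ^ i) / i.factorial) * PZ F T t ^ i =
        u * EJ (-(I * PZ F T t)) M - EJ (I * PZ F T t) M := by
      unfold EJ
      rw [Finset.mul_sum, ← Finset.sum_sub_distrib]
      apply Finset.sum_congr rfl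
      intro i _
      rw [← neg_mul, mul_pow, mul_pow]
      ring
    rw [e1, e2]
    set z := u * EJ (-(I * PZ F T t)) M
    set w := EJ (I * PZ F T t) M
    rw [← Complex.normSq_eq_norm_sq, ← Complex.normSq_eq_norm_sq, Complex.normSq_add,
      Complex.normSq_sub]
    ring
  have hc1 : ∑ i ∈ Finset.range (M + 1), ‖(u * (-I) ^ i + I ^ i) / (i.factorial : ℂ)‖ ^ 2 *
      (i.factorial * V ^ i) - ∑ i ∈ Finset.range (M + 1),
        ‖(u * (-I) ^ i - I ^ i) / (i.factorial : ℂ)‖ ^ 2 * (i.factorial * V ^ i) =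
      4 * (u.re * (EJ (-(V : ℂ)) M).re) := by
    rw [← Finset.sum_sub_distrib]
    unfold EJ
    rw [Complex.re_sum, Finset.mul_sum, Finset.mul_sum]
    apply Finset.sum_congr rfl
    intro i _
    have hf : (0 : ℝ) < i.factorial := by exact_mod_cast Nat.factorial_pos i
    rw [norm_div, norm_div, Complex.norm_natCast, div_pow, div_pow,
      ← Complex.normSq_eq_norm_sq, ← Complex.normSq_eq_norm_sq, Complex.normSq_add,
      Complex.normSq_sub]
    have e3 : (u * (-I) ^ i * (starRingEnd ℂ) (I ^ i)).re = u.re * (-1) ^ i := by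
      rw [map_pow, Complex.conj_I, mul_assoc, ← mul_pow]
      have : -I * -I = ((-1 : ℝ) : ℂ) := by
        rw [neg_mul_neg, Complex.I_mul_I]; norm_num
      rw [this, ← Complex.ofReal_pow, Complex.re_mul_ofReal]
    rw [e3]
    have e4 : ((-(V : ℂ)) ^ i / (i.factorial : ℂ)).re = (-1) ^ i * V ^ i / i.factorial := by
      have : (-(V : ℂ)) ^ i / (i.factorial : ℂ) = (((-1) ^ i * V ^ i / i.factorial : ℝ) : ℂ) := by
        push_cast
        rw [neg_pow]
      rw [this, Complex.ofReal_re]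
    rw [e4]
    field_simp
    ring
  have h1 := ubZ h hM (fun i => (u * (-I) ^ i + I ^ i) / (i.factorial : ℂ))
    (θ := (∑ i ∈ Finset.range (M + 1), ‖(u * (-I) ^ i + I ^ i) / (i.factorial : ℂ)‖ ^ 2 *
      (i.factorial * V ^ i)) + τ) (by linarith)
  have h2 := lbZ h hM hv (fun i => (u * (-I) ^ i - I ^ i) / (i.factorial : ℂ))
    (θ := (∑ i ∈ Finset.range (M + 1), ‖(u * (-I) ^ i - I ^ i) / (i.factorial : ℂ)‖ ^ 2 *
      (i.factorial * V ^ i)) - τ) (by linarith)
  filter_upwards [h1, h2, eventually_gt_atTop 0] with T h3 h4 hT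
  simp_rw [hpt]
  rw [intervalIntegral.integral_div, intervalIntegral.integral_sub]
  · have h5 : (∑ i ∈ Finset.range (M + 1), ‖(u * (-I) ^ i + I ^ i) / (i.factorial : ℂ)‖ ^ 2 *
      (i.factorial * V ^ i) + τ) * T - (∑ i ∈ Finset.range (M + 1),
        ‖(u * (-I) ^ i - I ^ i) / (i.factorial : ℂ)‖ ^ 2 * (i.factorial * V ^ i) - τ) * T =
        4 * (u.re * (EJ (-(V : ℂ)) M).re) * T + 2 * τ * T := by
      rw [← hc1]; ring
    rw [div_le_iff₀ (by norm_num)]
    nlinarith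
  · apply Continuous.intervalIntegrable
    have := PZ_cont F T
    fun_prop
  · apply Continuous.intervalIntegrable
    have := PZ_cont F T
    fun_prop

/-- the mean of a product of truncated exponentials -/
lemma corr {F : ℝ → ℂ} {b : ℝ} {K : NNReal} (h : Wz F b K) {M : ℕ} (hM : (M : ℝ) * b < 1)
    (hv : 0 < var (nw F)) {τ : ℝ} (hτ : 0 < τ) :
    ∀ᶠ T : ℝ in atTop, ‖∫ t in T..(2 * T),
      EJ (-(I * PZ F T t)) M * (starRingEnd ℂ) (EJ (I * PZ F T t) M)‖ ≤
        (|(EJ (-(var (nw F) : ℂ)) M).re| + τ) * T := by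
  have h1 := corr_re h hM hv (u := 1) (by simp) (half_pos hτ)
  have h2 := corr_re h hM hv (u := -1) (by simp) (half_pos hτ)
  have h3 := corr_re h hM hv (u := I) (by simp) (half_pos hτ)
  have h4 := corr_re h hM hv (u := -I) (by simp) (half_pos hτ)
  filter_upwards [h1, h2, h3, h4, eventually_gt_atTop 0] with T k1 k2 k3 k4 hT
  set f : ℝ → ℂ := fun t => EJ (-(I * PZ F T t)) M * (starRingEnd ℂ) (EJ (I * PZ F T t) M) with hf
  have hfc : Continuous f := by
    have c1 := PZ_cont F T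
    have c2 : Continuous fun t => EJ (-(I * PZ F T t)) M := (EJ_cont M).comp (by fun_prop)
    have c3 : Continuous fun t => EJ (I * PZ F T t) M := (EJ_cont M).comp (by fun_prop)
    exact c2.mul (Complex.continuous_conj.comp c3)
  have hre : ∀ u : ℂ, (u * ∫ t in T..(2 * T), f t).re = ∫ t in T..(2 * T),
      (u * EJ (-(I * PZ F T t)) M * (starRingEnd ℂ) (EJ (I * PZ F T t) M)).re := by
    intro u
    rw [← intervalIntegral.integral_const_mul]
    have h5 := Complex.reCLM.intervalIntegral_comp_comm (μ := volume) (a := T) (b := 2 * T)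
      (f := fun t => u * f t) ((continuous_const.mul hfc).intervalIntegrable _ _)
    simp only [Complex.reCLM_apply] at h5
    rw [← h5]
    apply intervalIntegral.integral_congr
    intro t _
    simp only [hf]
    rw [mul_assoc]
  rw [← hre] at k1 k2 k3 k4
  set Z := ∫ t in T..(2 * T), f t with hZ
  have e1 : ((1 : ℂ) * Z).re = Z.re := by simp
  have e2 : (-1 * Z).re = -Z.re := by simp
  have e3 : (I * Z).re = -Z.im := by simp
  have e4 : (-I * Z).re = Z.im := by simp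
  rw [e1] at k1
  rw [e2] at k2
  rw [e3] at k3
  rw [e4] at k4
  simp only [Complex.one_re, Complex.neg_re, Complex.I_re] at k1 k2 k3 k4
  set E := (EJ (-(var (nw F) : ℂ)) M).re
  have h6 := Complex.norm_le_abs_re_add_abs_im Z
  have h7 : |Z.re| ≤ (|E| + τ / 2) * T := by
    rw [abs_le]
    have a1 := le_abs_self E
    have a2 := neg_abs_le E
    constructor <;> nlinarith
  have h8 : |Z.im| ≤ (τ / 2) * T := by
    rw [abs_le]
    constructor <;> nlinarith
  nlinarith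

end Pool.Agent.T9h26.TD
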