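import Pool.Agent.T9h26.TD.Qa

set_option autoImplicit false

/-! Small balls: the measure of the set where all the fields are close to given values. -/

open Complex Filter Topology Set MeasureTheory

namespace Pool.Agent.T9h26.TD

lemma conj_EJ (z : ℂ) (M : ℕ) : (starRingEnd ℂ) (EJ z M) = EJ ((starRingEnd ℂ) z) M := by
  unfold EJ
  rw [map_sum]
  apply Finset.sum_congr rfl
  intro i _
  rw [map_div₀, map_pow, Complex.conj_natCast]

/-- the product of truncated exponentials -/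
noncomputable def gM (M : ℕ) (P : ℂ) : ℂ := EJ (-(I * P)) M * (starRingEnd ℂ) (EJ (I * P) M)

lemma gM_cont (M : ℕ) : Continuous (gM M) := by
  have c2 : Continuous fun P : ℂ => EJ (-(I * P)) M := (EJ_cont M).comp (by fun_prop)
  have c3 : Continuous fun P : ℂ => EJ (I * P) M := (EJ_cont M).comp (by fun_prop)
  exact c2.mul (Complex.continuous_conj.comp c3)

lemma d_le (M : ℕ) : (3 / 5 : ℝ) ^ M ≤ 1 := pow_le_one₀ (by norm_num) (by norm_num)

lemma gM_close {M : ℕ} {P : ℂ} (h : 20 * ‖P‖ ≤ M) :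
    ‖gM M P - cexp (-(2 * I * (P.re : ℂ)))‖ ≤ 3 * (3 / 5) ^ M := by
  set δ : ℝ := (3 / 5) ^ M with hδ
  have hδ1 : δ ≤ 1 := d_le M
  have hδ0 : 0 ≤ δ := by positivity
  have n1 : ‖-(I * P)‖ = ‖P‖ := by simp
  have n2 : ‖I * P‖ = ‖P‖ := by simp
  have a1 := EJ_close (z := -(I * P)) (J := M) (by rw [n1]; exact h)
  have a2 := EJ_close (z := I * P) (J := M) (by rw [n2]; exact h)
  have a3 : ‖(starRingEnd ℂ) (EJ (I * P) M) - (starRingEnd ℂ) (cexp (I * P))‖ ≤
      δ * Real.exp (I * P).re := by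
    rw [← map_sub, RCLike.norm_conj]
    exact a2
  have e1 : (-(I * P)).re = P.im := by simp
  have e2 : (I * P).re = -P.im := by simp
  rw [e1] at a1
  rw [e2] at a3
  have n3 : ‖cexp (-(I * P))‖ = Real.exp P.im := by rw [Complex.norm_exp, e1]
  have n4 : ‖(starRingEnd ℂ) (cexp (I * P))‖ = Real.exp (-P.im) := by
    rw [RCLike.norm_conj, Complex.norm_exp, e2]
  have e3 : cexp (-(2 * I * (P.re : ℂ))) = cexp (-(I * P)) * (starRingEnd ℂ) (cexp (I * P)) := by
    rw [← Complex.exp_conj, ← Complex.exp_add]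
    congr 1
    rw [map_mul, Complex.conj_I]
    have : (P.re : ℂ) = (P + (starRingEnd ℂ) P) / 2 := by
      rw [Complex.add_conj]; push_cast; ring
    rw [this]
    ring
  unfold gM
  rw [e3]
  set A := EJ (-(I * P)) M
  set B := (starRingEnd ℂ) (EJ (I * P) M)
  set A' := cexp (-(I * P))
  set B' := (starRingEnd ℂ) (cexp (I * P))
  have e4 : A * B - A' * B' = (A - A') * (B - B') + (A - A') * B' + A' * (B - B') := by ring
  have hE : Real.exp P.im * Real.exp (-P.im) = 1 := by rw [← Real.exp_add]; simp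
  rw [e4]
  calc ‖(A - A') * (B - B') + (A - A') * B' + A' * (B - B')‖
      ≤ ‖A - A'‖ * ‖B - B'‖ + ‖A - A'‖ * ‖B'‖ + ‖A'‖ * ‖B - B'‖ := by
        refine (norm_add_le _ _).trans ?_
        refine add_le_add ((norm_add_le _ _).trans ?_) ?_
        · rw [norm_mul, norm_mul]
        · rw [norm_mul]
    _ ≤ (δ * Real.exp P.im) * (δ * Real.exp (-P.im)) + (δ * Real.exp P.im) * Real.exp (-P.im) +
        Real.exp P.im * (δ * Real.exp (-P.im)) := by
        rw [n3, n4]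
        have := Real.exp_pos P.im
        have := Real.exp_pos (-P.im)
        gcongr
    _ = δ * δ + δ + δ := by
        have : (δ * Real.exp P.im) * (δ * Real.exp (-P.im)) = δ * δ * (Real.exp P.im * Real.exp (-P.im)) := by ring
        rw [this, hE]
        have : (δ * Real.exp P.im) * Real.exp (-P.im) = δ * (Real.exp P.im * Real.exp (-P.im)) := by ring
        rw [this, hE]
        have : Real.exp P.im * (δ * Real.exp (-P.im)) = δ * (Real.exp P.im * Real.exp (-P.im)) := by ring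
        rw [this, hE]
        ring
    _ ≤ 3 * δ := by nlinarith

lemma gM_bd {M : ℕ} {R : ℝ} (hR : 0 < R) (hRM : 20 * R ≤ M) (P : ℂ) :
    ‖gM M P‖ ≤ 4 + Real.exp (2 * R) * (‖P‖ / R) ^ (2 * M) := by
  rcases le_total ‖P‖ R with h | h
  · have h1 := gM_close (M := M) (P := P) (by linarith)
    have h2 := norm_sub_norm_le (gM M P) (cexp (-(2 * I * (P.re : ℂ))))
    have h3 : ‖cexp (-(2 * I * (P.re : ℂ)))‖ = 1 := by
      rw [Complex.norm_exp]
      simp
    rw [h3] at h2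
    have h4 := d_le M
    have h5 : 0 ≤ Real.exp (2 * R) * (‖P‖ / R) ^ (2 * M) := by positivity
    linarith
  · have h1 := EJ_big (z := -(I * P)) (J := M) hR (by simpa using h)
    have h2 := EJ_big (z := I * P) (J := M) hR (by simpa using h)
    unfold gM
    rw [norm_mul, RCLike.norm_conj]
    have n1 : ‖-(I * P)‖ = ‖P‖ := by simp
    have n2 : ‖I * P‖ = ‖P‖ := by simp
    rw [n1] at h1
    rw [n2] at h2
    calc ‖EJ (-(I * P)) M‖ * ‖EJ (I * P) M‖ ≤
        ((‖P‖ / R) ^ M * Real.exp R) * ((‖P‖ / R) ^ M * Real.exp R) :=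
          mul_le_mul h1 h2 (norm_nonneg _) (by positivity)
      _ = Real.exp (2 * R) * (‖P‖ / R) ^ (2 * M) := by
          rw [two_mul R, Real.exp_add, pow_mul']
          ring
      _ ≤ _ := by linarith

lemma cos_sq_ge {x : ℝ} (h : |x| ≤ 1 / 2) : 3 / 4 ≤ Real.cos x ^ 2 := by
  have h1 := Real.one_sub_sq_div_two_le_cos (x := x)
  have h2 : x ^ 2 ≤ 1 / 4 := by
    rw [← sq_abs]
    nlinarith [abs_nonneg x]
  have h3 : 7 / 8 ≤ Real.cos x := by linarith
  nlinarith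

/-- the majorant -/
noncomputable def fQ {J : ℕ} (M : ℕ) (F : Fin J → ℝ → ℂ) (κ : Fin J → ℝ) (T t : ℝ) : ℝ :=
  (∑ σ : Fin J → Fin 3, (pw3 σ : ℂ) * cexp (2 * I * ((∑ j, sg (σ j) * κ j : ℝ) : ℂ)) *
    gM M (PZ (Fs F σ) T t)).re + 3 * (3 / 5) ^ M +
    ∑ σ : Fin J → Fin 3, (5 + Real.exp (M / 10) * pw3 σ) * (‖PZ (Fs F σ) T t‖ / (M / 20)) ^ (2 * M)

lemma norm_ph3 (x : ℝ) : ‖cexp (2 * I * (x : ℂ))‖ = 1 := by
  rw [Complex.norm_exp]; simp

lemma fQ_cont {J : ℕ} (M : ℕ) (F : Fin J → ℝ → ℂ) (κ : Fin J → ℝ) (T : ℝ) :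
    Continuous (fQ M F κ T) := by
  unfold fQ
  have h : ∀ σ : Fin J → Fin 3, Continuous (PZ (Fs F σ) T) := fun σ => PZ_cont _ _
  have h2 : ∀ σ : Fin J → Fin 3, Continuous fun t => gM M (PZ (Fs F σ) T t) :=
    fun σ => (gM_cont M).comp (h σ)
  apply Continuous.add
  · apply Continuous.add
    · apply Complex.continuous_re.comp
      apply continuous_finsetSum
      intro σ _
      exact continuous_const.mul (h2 σ)
    · exact continuous_const
  · apply continuous_finsetSum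
    intro σ _
    exact continuous_const.mul (((h σ).norm.div_const _).pow _)

lemma re_PZ_Fs {J : ℕ} (F : Fin J → ℝ → ℂ) (σ : Fin J → Fin 3) (T t : ℝ) :
    (PZ (Fs F σ) T t).re = ∑ j, sg (σ j) * (PZ (F j) T t).re := by
  rw [PZ_Fs, Complex.re_sum]
  apply Finset.sum_congr rfl
  intro j _
  rw [Complex.re_ofReal_mul]

lemma fQ_good {J M : ℕ} (F : Fin J → ℝ → ℂ) (κ : Fin J → ℝ) (T t : ℝ)
    (hG : ∀ σ : Fin J → Fin 3, 20 * ‖PZ (Fs F σ) T t‖ ≤ M) :
    ∏ j, Real.cos (κ j - (PZ (F j) T t).re) ^ 2 ≤ fQ M F κ T t := by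
  set S := ∑ σ : Fin J → Fin 3, (pw3 σ : ℂ) * cexp (2 * I * ((∑ j, sg (σ j) * κ j : ℝ) : ℂ)) *
    gM M (PZ (Fs F σ) T t) with hS
  have h1 := prod_cos (fun j => κ j - (PZ (F j) T t).re)
  have h2 : ((∏ j, Real.cos (κ j - (PZ (F j) T t).re) ^ 2 : ℝ) : ℂ) =
      ∑ σ : Fin J → Fin 3, (pw3 σ : ℂ) * cexp (2 * I * ((∑ j, sg (σ j) * κ j : ℝ) : ℂ)) *
        cexp (-(2 * I * ((PZ (Fs F σ) T t).re : ℂ))) := by
    rw [h1]
    apply Finset.sum_congr rfl
    intro σ _
    rw [mul_assoc (pw3 σ : ℂ), ← Complex.exp_add]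
    congr 2
    rw [re_PZ_Fs]
    have : (∑ j, sg (σ j) * (κ j - (PZ (F j) T t).re)) =
        (∑ j, sg (σ j) * κ j) - ∑ j, sg (σ j) * (PZ (F j) T t).re := by
      rw [← Finset.sum_sub_distrib]
      exact Finset.sum_congr rfl fun j _ => by ring
    rw [this]
    push_cast
    ring
  have h3 : ‖S - ((∏ j, Real.cos (κ j - (PZ (F j) T t).re) ^ 2 : ℝ) : ℂ)‖ ≤ 3 * (3 / 5) ^ M := by
    rw [h2, hS, ← Finset.sum_sub_distrib]
    calc ‖∑ σ : Fin J → Fin 3, ((pw3 σ : ℂ) * cexp (2 * I * ((∑ j, sg (σ j) * κ j : ℝ) : ℂ)) *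
          gM M (PZ (Fs F σ) T t) - (pw3 σ : ℂ) * cexp (2 * I * ((∑ j, sg (σ j) * κ j : ℝ) : ℂ)) *
          cexp (-(2 * I * ((PZ (Fs F σ) T t).re : ℂ))))‖ ≤
          ∑ σ : Fin J → Fin 3, pw3 σ * (3 * (3 / 5) ^ M) := by
          apply norm_sum_le_of_le
          intro σ _
          rw [← mul_sub, norm_mul, norm_mul, norm_ph3, mul_one, Complex.norm_real,
            Real.norm_of_nonneg (pw3_nonneg σ)]
          exact mul_le_mul_of_nonneg_left (gM_close (hG σ)) (pw3_nonneg σ)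
      _ = 3 * (3 / 5) ^ M := by rw [← Finset.sum_mul, sum_pw3, one_mul]
  have h4 : |(S - ((∏ j, Real.cos (κ j - (PZ (F j) T t).re) ^ 2 : ℝ) : ℂ)).re| ≤ 3 * (3 / 5) ^ M :=
    (Complex.abs_re_le_norm _).trans h3
  rw [Complex.sub_re, Complex.ofReal_re, abs_le] at h4
  unfold fQ
  have h5 : 0 ≤ ∑ σ : Fin J → Fin 3, (5 + Real.exp (M / 10) * pw3 σ) *
      (‖PZ (Fs F σ) T t‖ / (M / 20)) ^ (2 * M) := by
    apply Finset.sum_nonneg
    intro σ _
    have := pw3_nonneg σ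
    positivity
  linarith [h4.1]

lemma fQ_bad {J M : ℕ} (hM : 1 ≤ M) (F : Fin J → ℝ → ℂ) (κ : Fin J → ℝ) (T t : ℝ)
    {σ0 : Fin J → Fin 3} (hG : (M : ℝ) < 20 * ‖PZ (Fs F σ0) T t‖) : 1 ≤ fQ M F κ T t := by
  have hM0 : (0 : ℝ) < M := by exact_mod_cast hM
  set S := ∑ σ : Fin J → Fin 3, (pw3 σ : ℂ) * cexp (2 * I * ((∑ j, sg (σ j) * κ j : ℝ) : ℂ)) *
    gM M (PZ (Fs F σ) T t) with hS
  have h1 : ‖S‖ ≤ 4 + ∑ σ : Fin J → Fin 3, Real.exp (M / 10) * pw3 σ *
      (‖PZ (Fs F σ) T t‖ / (M / 20)) ^ (2 * M) := by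
    calc ‖S‖ ≤ ∑ σ : Fin J → Fin 3, pw3 σ * (4 + Real.exp (2 * (M / 20)) *
        (‖PZ (Fs F σ) T t‖ / (M / 20)) ^ (2 * M)) := by
          apply norm_sum_le_of_le
          intro σ _
          rw [norm_mul, norm_mul, norm_ph3, mul_one, Complex.norm_real,
            Real.norm_of_nonneg (pw3_nonneg σ)]
          exact mul_le_mul_of_nonneg_left (gM_bd (by positivity) (by linarith) _) (pw3_nonneg σ)
      _ = _ := by
          have e : ∀ σ : Fin J → Fin 3, pw3 σ * (4 + Real.exp (2 * ((M : ℝ) / 20)) *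
              (‖PZ (Fs F σ) T t‖ / (M / 20)) ^ (2 * M)) = pw3 σ * 4 +
              Real.exp (M / 10) * pw3 σ * (‖PZ (Fs F σ) T t‖ / (M / 20)) ^ (2 * M) := by
            intro σ
            rw [show (2 : ℝ) * ((M : ℝ) / 20) = M / 10 by ring]
            ring
          simp_rw [e]
          rw [Finset.sum_add_distrib, ← Finset.sum_mul, sum_pw3, one_mul]
  have h2 : 1 ≤ (‖PZ (Fs F σ0) T t‖ / (M / 20)) ^ (2 * M) := by
    apply one_le_pow₀
    rw [one_le_div (by positivity)]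
    linarith
  have h3 : (‖PZ (Fs F σ0) T t‖ / (M / 20)) ^ (2 * M) ≤
      ∑ σ : Fin J → Fin 3, (‖PZ (Fs F σ) T t‖ / (M / 20)) ^ (2 * M) :=
    Finset.single_le_sum (f := fun σ => (‖PZ (Fs F σ) T t‖ / (M / 20)) ^ (2 * M))
      (fun σ _ => by positivity) (Finset.mem_univ σ0)
  have h4 := (Complex.abs_re_le_norm S)
  rw [abs_le] at h4
  have h5 : ∑ σ : Fin J → Fin 3, (5 + Real.exp (M / 10) * pw3 σ) *
      (‖PZ (Fs F σ) T t‖ / (M / 20)) ^ (2 * M) =
      5 * (∑ σ : Fin J → Fin 3, (‖PZ (Fs F σ) T t‖ / (M / 20)) ^ (2 * M)) +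
      ∑ σ : Fin J → Fin 3, Real.exp (M / 10) * pw3 σ *
      (‖PZ (Fs F σ) T t‖ / (M / 20)) ^ (2 * M) := by
    rw [Finset.mul_sum, ← Finset.sum_add_distrib]
    exact Finset.sum_congr rfl fun σ _ => by ring
  unfold fQ
  rw [h5]
  have h6 : (0 : ℝ) ≤ (3 / 5) ^ M := by positivity
  linarith [h4.1]

lemma fac_num {M : ℕ} (hM : 1 ≤ M) {V : ℝ} (hV : 0 ≤ V) (h : 16000 * V ≤ M) :
    M.factorial * V ^ M / (M / 20) ^ (2 * M) ≤ (1 / 40 : ℝ) ^ M := by
  have hM0 : (0 : ℝ) < M := by exact_mod_cast hM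
  have h1 : (M.factorial : ℝ) ≤ (M : ℝ) ^ M := by exact_mod_cast Nat.factorial_le_pow M
  rw [div_le_iff₀ (by positivity), pow_mul, ← mul_pow]
  calc (M.factorial : ℝ) * V ^ M ≤ (M : ℝ) ^ M * V ^ M :=
        mul_le_mul_of_nonneg_right h1 (by positivity)
    _ = ((M : ℝ) * V) ^ M := by rw [mul_pow]
    _ ≤ (1 / 40 * (M / 20) ^ 2) ^ M := by
        apply pow_le_pow_left₀ (by positivity)
        nlinarith

lemma mean_g {F : ℝ → ℂ} {b : ℝ} {K : NNReal} (h : Wz F b K) {M : ℕ} (hM : (M : ℝ) * b < 1)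
    {x : ℝ} (hx : 1 ≤ x) (hlow : x ≤ var (nw F)) (hup : 20 * var (nw F) ≤ M) {τ : ℝ} (hτ : 0 < τ) :
    ∀ᶠ T : ℝ in atTop, ‖∫ t in T..(2 * T), gM M (PZ F T t)‖ ≤
      (2 * Real.exp (-x) + τ) * T := by
  have hv : 0 < var (nw F) := by linarith
  filter_upwards [corr h hM hv hτ, eventually_gt_atTop 0] with T h1 hT
  refine h1.trans ?_
  apply mul_le_mul_of_nonneg_right _ hT.le
  have h2 : ‖-(var (nw F) : ℂ)‖ = var (nw F) := by
    rw [norm_neg, Complex.norm_real, Real.norm_of_nonneg hv.le]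
  have h3 := EJ_hi (z := -(var (nw F) : ℂ)) (J := M) (by rw [h2]; exact hup)
  have h4 : (-(var (nw F) : ℂ)).re = -var (nw F) := by simp
  rw [h4] at h3
  have h5 := Complex.abs_re_le_norm (EJ (-(var (nw F) : ℂ)) M)
  have h6 := d_le M
  have h7 : Real.exp (-var (nw F)) ≤ Real.exp (-x) := Real.exp_le_exp.2 (by linarith)
  have h8 := Real.exp_pos (-var (nw F))
  nlinarith

/-- **small balls** -/
theorem small_ball {J M : ℕ} (hJ : 40 ≤ J) (hJM : 4 * J ≤ M) {F : Fin J → ℝ → ℂ} {b : ℝ}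
    (hb : (M : ℝ) * b < 1) (hF : ∀ σ, ∃ K, Wz (Fs F σ) b K)
    (hlow : ∀ σ, 3 * n3 σ ≤ var (nw (Fs F σ))) (hup : ∀ σ, 16000 * var (nw (Fs F σ)) ≤ M) :
    ∀ᶠ T : ℝ in atTop, ∀ κ : Fin J → ℝ,
      ms T {t | ∀ j, |κ j - (PZ (F j) T t).re| ≤ 1 / 2} ≤ Real.exp (-(J / 4)) * T := by
  have hM1 : 1 ≤ M := by omega
  have hM0 : (0 : ℝ) < M := by exact_mod_cast hM1
  -- the small quantity
  obtain ⟨τ, hτ0, hτ⟩ : ∃ τ : ℝ, 0 < τ ∧
      (4 / 3 : ℝ) ^ J * (τ * (1 + 5 * 3 ^ J + Real.exp (M / 10))) ≤ (17 / 24) ^ J := by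
    refine ⟨(17 / 24) ^ J / ((4 / 3 : ℝ) ^ J * (1 + 5 * 3 ^ J + Real.exp (M / 10))),
      by positivity, le_of_eq ?_⟩
    have h1 : (0 : ℝ) < 1 + 5 * 3 ^ J + Real.exp (M / 10) := by positivity
    field_simp
  have hA : ∀ σ : Fin J → Fin 3, ∀ᶠ T : ℝ in atTop,
      ‖∫ t in T..(2 * T), gM M (PZ (Fs F σ) T t)‖ ≤
        (2 * Real.exp (-(3 * n3 σ)) + τ) * T := by
    intro σ
    obtain ⟨K, hK⟩ := hF σ
    by_cases h0 : n3 σ = 0
    · filter_upwards [eventually_gt_atTop 0] with T hT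
      have h1 : ∀ t, PZ (Fs F σ) T t = 0 := by
        intro t
        rw [PZ_Fs]
        apply Finset.sum_eq_zero
        intro j _
        rw [n3_zero h0 j]
        simp
      have h2 : ∀ t, gM M (PZ (Fs F σ) T t) = 1 := by
        intro t
        rw [h1]
        have h3 : EJ 0 M = 1 := by
          unfold EJ
          rw [Finset.sum_range_succ']
          simp
        unfold gM
        rw [mul_zero, neg_zero, h3]
        simp
      simp_rw [h2]
      rw [intervalIntegral.integral_const, h0]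
      have h4 : ‖(2 * T - T) • (1 : ℂ)‖ = T := by
        rw [norm_smul, norm_one, mul_one, Real.norm_of_nonneg (by linarith)]
        ring
      rw [h4, mul_zero, neg_zero, Real.exp_zero]
      nlinarith
    · have h1 := n3_one h0
      exact mean_g hK hb (x := 3 * n3 σ) (by linarith) (hlow σ)
        (by have := hup σ; have := var_nonneg (nw (Fs F σ)); linarith) hτ0
  have hB : ∀ σ : Fin J → Fin 3, ∀ᶠ T : ℝ in atTop,
      ∫ t in T..(2 * T), (‖PZ (Fs F σ) T t‖ / (M / 20)) ^ (2 * M) ≤ ((1 / 40) ^ M + τ) * T := by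
    intro σ
    obtain ⟨K, hK⟩ := hF σ
    have h1 := (UM_pow hK hb (R := (M : ℝ) / 20) (by positivity)).mono
      (fac_num hM1 (var_nonneg _) (hup σ))
    exact h1.2 τ hτ0
  have hA' := Filter.eventually_all.2 hA
  have hB' := Filter.eventually_all.2 hB
  filter_upwards [hA', hB', eventually_gt_atTop 0] with T h1 h2 hT κ
  -- the majorant is nonnegative and large on the set
  have hpos : ∀ t, 0 ≤ fQ M F κ T t := by
    intro t
    by_cases hG : ∀ σ : Fin J → Fin 3, 20 * ‖PZ (Fs F σ) T t‖ ≤ M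
    · exact (Finset.prod_nonneg fun j _ => sq_nonneg _).trans (fQ_good F κ T t hG)
    · push Not at hG
      obtain ⟨σ0, hσ0⟩ := hG
      exact zero_le_one.trans (fQ_bad hM1 F κ T t hσ0)
  have hsub : ms T {t | ∀ j, |κ j - (PZ (F j) T t).re| ≤ 1 / 2} ≤
      ms T {t | (3 / 4 : ℝ) ^ J ≤ fQ M F κ T t} := by
    apply ms_mono
    intro t _ _ ht
    rw [mem_ofPred_eq] at ht ⊢
    by_cases hG : ∀ σ : Fin J → Fin 3, 20 * ‖PZ (Fs F σ) T t‖ ≤ M
    · refine le_trans ?_ (fQ_good F κ T t hG)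
      calc (3 / 4 : ℝ) ^ J = ∏ _j : Fin J, (3 / 4 : ℝ) := by
            rw [Finset.prod_const, Finset.card_univ, Fintype.card_fin]
        _ ≤ _ := Finset.prod_le_prod (fun _ _ => by norm_num) fun j _ => cos_sq_ge (ht j)
    · push Not at hG
      obtain ⟨σ0, hσ0⟩ := hG
      exact (pow_le_one₀ (by norm_num) (by norm_num)).trans (fQ_bad hM1 F κ T t hσ0)
  have hmk := ms_markov hT.le (fQ_cont M F κ T) hpos (c := (3 / 4 : ℝ) ^ J)
  -- the integral of the majorant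
  have hint : ∫ t in T..(2 * T), fQ M F κ T t ≤
      (2 * (17 / 32) ^ J + τ + 3 * (3 / 5) ^ M +
        (5 * 3 ^ J + Real.exp (M / 10)) * ((1 / 40) ^ M + τ)) * T := by
    have c1 : ∀ σ : Fin J → Fin 3, Continuous (PZ (Fs F σ) T) := fun σ => PZ_cont _ _
    have c2 : ∀ σ : Fin J → Fin 3, Continuous fun t => gM M (PZ (Fs F σ) T t) :=
      fun σ => (gM_cont M).comp (c1 σ)
    have c3 : Continuous fun t => ∑ σ : Fin J → Fin 3, (pw3 σ : ℂ) *
        cexp (2 * I * ((∑ j, sg (σ j) * κ j : ℝ) : ℂ)) * gM M (PZ (Fs F σ) T t) :=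
      continuous_finsetSum _ fun σ _ => continuous_const.mul (c2 σ)
    have c4 : Continuous fun t => ∑ σ : Fin J → Fin 3, (5 + Real.exp (M / 10) * pw3 σ) *
        (‖PZ (Fs F σ) T t‖ / (M / 20)) ^ (2 * M) :=
      continuous_finsetSum _ fun σ _ => continuous_const.mul (((c1 σ).norm.div_const _).pow _)
    have c5 : Continuous fun t => (∑ σ : Fin J → Fin 3, (pw3 σ : ℂ) *
        cexp (2 * I * ((∑ j, sg (σ j) * κ j : ℝ) : ℂ)) * gM M (PZ (Fs F σ) T t)).re :=
      Complex.continuous_re.comp c3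
    have c7 : ∀ σ : Fin J → Fin 3, Continuous fun t => (pw3 σ : ℂ) *
        cexp (2 * I * ((∑ j, sg (σ j) * κ j : ℝ) : ℂ)) * gM M (PZ (Fs F σ) T t) :=
      fun σ => continuous_const.mul (c2 σ)
    have c8 : ∀ σ : Fin J → Fin 3, Continuous fun t => (5 + Real.exp (M / 10) * pw3 σ) *
        (‖PZ (Fs F σ) T t‖ / (M / 20)) ^ (2 * M) :=
      fun σ => continuous_const.mul (((c1 σ).norm.div_const _).pow _)
    unfold fQ
    have c6 : Continuous fun t => (∑ σ : Fin J → Fin 3, (pw3 σ : ℂ) *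
        cexp (2 * I * ((∑ j, sg (σ j) * κ j : ℝ) : ℂ)) * gM M (PZ (Fs F σ) T t)).re +
          3 * (3 / 5) ^ M := c5.add continuous_const
    rw [intervalIntegral.integral_add (c6.intervalIntegrable _ _)
      (c4.intervalIntegrable _ _), intervalIntegral.integral_add (c5.intervalIntegrable _ _)
      (continuous_const.intervalIntegrable _ _)]
    -- first part
    have p1 : ∫ t in T..(2 * T), (∑ σ : Fin J → Fin 3, (pw3 σ : ℂ) *
        cexp (2 * I * ((∑ j, sg (σ j) * κ j : ℝ) : ℂ)) * gM M (PZ (Fs F σ) T t)).re ≤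
        (2 * (17 / 32) ^ J + τ) * T := by
      have q1 := Complex.reCLM.intervalIntegral_comp_comm (μ := volume) (a := T) (b := 2 * T)
        (c3.intervalIntegrable _ _)
      simp only [Complex.reCLM_apply] at q1
      rw [q1]
      refine (Complex.re_le_norm _).trans ?_
      rw [intervalIntegral.integral_finsetSum (fun σ _ => (c7 σ).intervalIntegrable _ _)]
      calc ‖∑ σ : Fin J → Fin 3, ∫ t in T..(2 * T), (pw3 σ : ℂ) *
          cexp (2 * I * ((∑ j, sg (σ j) * κ j : ℝ) : ℂ)) * gM M (PZ (Fs F σ) T t)‖ ≤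
          ∑ σ : Fin J → Fin 3, pw3 σ * ((2 * Real.exp (-(3 * n3 σ)) + τ) * T) := by
            apply norm_sum_le_of_le
            intro σ _
            rw [intervalIntegral.integral_const_mul, norm_mul, norm_mul, norm_ph3, mul_one,
              Complex.norm_real, Real.norm_of_nonneg (pw3_nonneg σ)]
            exact mul_le_mul_of_nonneg_left (h1 σ) (pw3_nonneg σ)
        _ = (2 * ((1 + Real.exp (-3)) / 2) ^ J + τ) * T := by
            rw [← sum_pw3_exp]
            have e : ∀ σ : Fin J → Fin 3, pw3 σ * ((2 * Real.exp (-(3 * n3 σ)) + τ) * T) =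
                2 * (pw3 σ * Real.exp (-(3 * n3 σ))) * T + pw3 σ * (τ * T) := fun σ => by ring
            simp_rw [e]
            rw [Finset.sum_add_distrib, ← Finset.sum_mul, ← Finset.sum_mul, sum_pw3,
              ← Finset.mul_sum]
            ring
        _ ≤ (2 * (17 / 32) ^ J + τ) * T := by
            apply mul_le_mul_of_nonneg_right _ hT.le
            have e3 : Real.exp (-3) ≤ 1 / 16 := by
              have h5 : Real.exp (-3) = (Real.exp 1 ^ 3)⁻¹ := by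
                rw [Real.exp_neg, ← Real.exp_nat_mul]
                norm_num
              rw [h5, inv_eq_one_div]
              apply one_div_le_one_div_of_le (by norm_num)
              have := Real.exp_one_gt_d9
              calc (16 : ℝ) ≤ 2.7 ^ 3 := by norm_num
                _ ≤ Real.exp 1 ^ 3 := pow_le_pow_left₀ (by norm_num) (by linarith) 3
            have h6 : ((1 + Real.exp (-3)) / 2) ^ J ≤ (17 / 32 : ℝ) ^ J := by
              apply pow_le_pow_left₀ (by positivity)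
              linarith
            linarith
    have p2 : ∫ _t in T..(2 * T), (3 * (3 / 5) ^ M : ℝ) = 3 * (3 / 5) ^ M * T := by
      rw [intervalIntegral.integral_const, smul_eq_mul]
      ring
    have p3 : ∫ t in T..(2 * T), ∑ σ : Fin J → Fin 3, (5 + Real.exp (M / 10) * pw3 σ) *
        (‖PZ (Fs F σ) T t‖ / (M / 20)) ^ (2 * M) ≤
        (5 * 3 ^ J + Real.exp (M / 10)) * ((1 / 40) ^ M + τ) * T := by
      rw [intervalIntegral.integral_finsetSum (fun σ _ => (c8 σ).intervalIntegrable _ _)]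
      calc ∑ σ : Fin J → Fin 3, ∫ t in T..(2 * T), (5 + Real.exp (M / 10) * pw3 σ) *
          (‖PZ (Fs F σ) T t‖ / (M / 20)) ^ (2 * M) ≤
          ∑ σ : Fin J → Fin 3, (5 + Real.exp (M / 10) * pw3 σ) * (((1 / 40) ^ M + τ) * T) := by
            apply Finset.sum_le_sum
            intro σ _
            rw [intervalIntegral.integral_const_mul]
            have := pw3_nonneg σ
            exact mul_le_mul_of_nonneg_left (h2 σ) (by positivity)
        _ = _ := by
            rw [← Finset.sum_mul, Finset.sum_add_distrib, ← Finset.mul_sum, sum_pw3]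
            rw [Finset.sum_const, Finset.card_univ, Fintype.card_fun, Fintype.card_fin,
              Fintype.card_fin, nsmul_eq_mul]
            push_cast
            ring
    rw [p2]
    nlinarith
  -- conclusion
  have h34 : (0 : ℝ) < (3 / 4) ^ J := by positivity
  have h5 : ms T {t | ∀ j, |κ j - (PZ (F j) T t).re| ≤ 1 / 2} ≤
      (4 / 3 : ℝ) ^ J * ∫ t in T..(2 * T), fQ M F κ T t := by
    have e : (4 / 3 : ℝ) ^ J * (3 / 4) ^ J = 1 := by
      rw [← mul_pow]; norm_num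
    calc ms T {t | ∀ j, |κ j - (PZ (F j) T t).re| ≤ 1 / 2} ≤
        ms T {t | (3 / 4 : ℝ) ^ J ≤ fQ M F κ T t} := hsub
      _ = (4 / 3 : ℝ) ^ J * ((3 / 4) ^ J * ms T {t | (3 / 4 : ℝ) ^ J ≤ fQ M F κ T t}) := by
          rw [← mul_assoc, e, one_mul]
      _ ≤ _ := mul_le_mul_of_nonneg_left hmk (by positivity)
  have h6 : (4 / 3 : ℝ) ^ J * (2 * (17 / 32) ^ J + τ + 3 * (3 / 5) ^ M +
        (5 * 3 ^ J + Real.exp (M / 10)) * ((1 / 40) ^ M + τ)) ≤ 12 * (17 / 24) ^ J := by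
    have g1 : (4 / 3 : ℝ) ^ J * (2 * (17 / 32) ^ J) = 2 * (17 / 24) ^ J := by
      rw [mul_left_comm, ← mul_pow]; norm_num
    have hpM : ∀ x : ℝ, 0 ≤ x → x ≤ 1 → x ^ M ≤ (x ^ 4) ^ J := by
      intro x hx hx1
      rw [← pow_mul]
      exact pow_le_pow_of_le_one hx hx1 hJM
    have g2 : (4 / 3 : ℝ) ^ J * (3 * (3 / 5) ^ M) ≤ 3 * (17 / 24) ^ J := by
      have := hpM (3 / 5) (by norm_num) (by norm_num)
      calc (4 / 3 : ℝ) ^ J * (3 * (3 / 5) ^ M) ≤ (4 / 3 : ℝ) ^ J * (3 * ((3 / 5) ^ 4) ^ J) := by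
            gcongr
        _ = 3 * (4 / 3 * (3 / 5) ^ 4) ^ J := by rw [mul_pow]; ring
        _ ≤ 3 * (17 / 24) ^ J := by
            apply mul_le_mul_of_nonneg_left _ (by norm_num)
            apply pow_le_pow_left₀ (by positivity)
            norm_num
    have g3 : (4 / 3 : ℝ) ^ J * (5 * 3 ^ J * (1 / 40) ^ M) ≤ 5 * (17 / 24) ^ J := by
      have := hpM (1 / 40) (by norm_num) (by norm_num)
      calc (4 / 3 : ℝ) ^ J * (5 * 3 ^ J * (1 / 40) ^ M) ≤
            (4 / 3 : ℝ) ^ J * (5 * 3 ^ J * ((1 / 40) ^ 4) ^ J) := by gcongr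
        _ = 5 * (4 / 3 * 3 * (1 / 40) ^ 4) ^ J := by rw [mul_pow, mul_pow]; ring
        _ ≤ 5 * (17 / 24) ^ J := by
            apply mul_le_mul_of_nonneg_left _ (by norm_num)
            apply pow_le_pow_left₀ (by positivity)
            norm_num
    have g4 : (4 / 3 : ℝ) ^ J * (Real.exp (M / 10) * (1 / 40) ^ M) ≤ (17 / 24) ^ J := by
      have e1 : Real.exp (M / 10) ≤ 3 ^ M := by
        calc Real.exp (M / 10) ≤ Real.exp (M * 1) := by
              apply Real.exp_le_exp.2; linarith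
          _ = Real.exp 1 ^ M := by rw [← Real.exp_nat_mul]
          _ ≤ 3 ^ M := pow_le_pow_left₀ (Real.exp_pos _).le (by
              have := Real.exp_one_lt_d9; linarith) M
      have := hpM (3 / 40) (by norm_num) (by norm_num)
      calc (4 / 3 : ℝ) ^ J * (Real.exp (M / 10) * (1 / 40) ^ M) ≤
            (4 / 3 : ℝ) ^ J * (3 ^ M * (1 / 40) ^ M) := by gcongr
        _ = (4 / 3 : ℝ) ^ J * (3 / 40) ^ M := by rw [← mul_pow]; norm_num
        _ ≤ (4 / 3 : ℝ) ^ J * ((3 / 40) ^ 4) ^ J := by gcongr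
        _ = (4 / 3 * (3 / 40) ^ 4) ^ J := by rw [← mul_pow]
        _ ≤ (17 / 24) ^ J := by
            apply pow_le_pow_left₀ (by positivity)
            norm_num
    calc _ = (4 / 3 : ℝ) ^ J * (2 * (17 / 32) ^ J) + (4 / 3 : ℝ) ^ J * (3 * (3 / 5) ^ M) +
          (4 / 3 : ℝ) ^ J * (5 * 3 ^ J * (1 / 40) ^ M) +
          (4 / 3 : ℝ) ^ J * (Real.exp (M / 10) * (1 / 40) ^ M) +
          (4 / 3 : ℝ) ^ J * (τ * (1 + 5 * 3 ^ J + Real.exp (M / 10))) := by ring
      _ ≤ 2 * (17 / 24) ^ J + 3 * (17 / 24) ^ J + 5 * (17 / 24) ^ J + (17 / 24) ^ J +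
          (17 / 24) ^ J := by
          rw [g1]
          linarith
      _ = _ := by ring
  have h7 : 12 * (17 / 24 : ℝ) ^ J ≤ Real.exp (-(J / 4)) := by
    have e1 : Real.exp (-(J / 4 : ℝ)) = Real.exp (-(1 / 4)) ^ J := by
      rw [← Real.exp_nat_mul]; congr 1; ring
    have e2 : (23 / 30 : ℝ) ≤ Real.exp (-(1 / 4)) := by
      have h8 : Real.exp (1 / 4 : ℝ) ≤ 30 / 23 := by
        have h9 := Real.exp_bound' (x := (1 / 4 : ℝ)) (by norm_num) (by norm_num) (n := 3)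
          (by norm_num)
        refine h9.trans ?_
        simp [Finset.sum_range_succ, Nat.factorial]
        norm_num
      rw [Real.exp_neg]
      rw [show (23 / 30 : ℝ) = (30 / 23)⁻¹ by norm_num]
      exact inv_anti₀ (Real.exp_pos _) h8
    rw [e1]
    calc 12 * (17 / 24 : ℝ) ^ J = 12 * (85 / 92) ^ J * (23 / 30) ^ J := by
          rw [mul_assoc, ← mul_pow]; norm_num
      _ ≤ 1 * (23 / 30) ^ J := by
          apply mul_le_mul_of_nonneg_right _ (by positivity)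
          calc 12 * (85 / 92 : ℝ) ^ J ≤ 12 * (85 / 92) ^ 40 := by
                apply mul_le_mul_of_nonneg_left _ (by norm_num)
                exact pow_le_pow_of_le_one (by norm_num) (by norm_num) hJ
            _ ≤ 1 := by norm_num
      _ ≤ Real.exp (-(1 / 4)) ^ J := by
          rw [one_mul]
          exact pow_le_pow_left₀ (by norm_num) e2 J
  calc ms T {t | ∀ j, |κ j - (PZ (F j) T t).re| ≤ 1 / 2} ≤
      (4 / 3 : ℝ) ^ J * ∫ t in T..(2 * T), fQ M F κ T t := h5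
    _ ≤ (4 / 3 : ℝ) ^ J * ((2 * (17 / 32) ^ J + τ + 3 * (3 / 5) ^ M +
        (5 * 3 ^ J + Real.exp (M / 10)) * ((1 / 40) ^ M + τ)) * T) :=
        mul_le_mul_of_nonneg_left hint (by positivity)
    _ = ((4 / 3 : ℝ) ^ J * (2 * (17 / 32) ^ J + τ + 3 * (3 / 5) ^ M +
        (5 * 3 ^ J + Real.exp (M / 10)) * ((1 / 40) ^ M + τ))) * T := by ring
    _ ≤ (12 * (17 / 24) ^ J) * T := mul_le_mul_of_nonneg_right h6 hT.le
    _ ≤ _ := mul_le_mul_of_nonneg_right h7 hT.le

end Pool.Agent.T9h26.TD
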