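import Pool.Agent.T9h26.TD.Zv
import Pool.Agent.T9h26.TD.Mi

set_option autoImplicit false

/-! The windows in terms of the field: the error weights. -/

open Complex Filter Topology Set MeasureTheory

namespace Pool.Agent.T9h26.TD

lemma BL.ks {a : ℝ} (ha : 0 < a) : BL fun u => (ks a u : ℂ) := by
  refine BL.real (K := ⟨1 / a, by positivity⟩) ?_ (C := 1) (fun x => by
    rw [abs_of_nonneg (ks_nonneg a x)]; exact ks_le a x)
  apply LipschitzWith.of_dist_le_mul
  intro x y
  rw [Real.dist_eq, Real.dist_eq]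
  refine (ks_lip ha x y).trans (le_of_eq ?_)
  show |x - y| / a = 1 / a * |x - y|
  ring

lemma ks_cont {a : ℝ} (ha : 0 < a) : Continuous (ks a) := by
  obtain ⟨⟨K, hK⟩, -⟩ := BL.ks ha
  have h1 := Complex.continuous_re.comp hK.continuous
  refine h1.congr fun u => ?_
  simp

lemma BL.sin (y : ℝ) : BL fun u => (Real.sin (Real.pi * y * u) : ℂ) := by
  refine BL.real (K := ⟨|Real.pi * y|, abs_nonneg _⟩) ?_ (C := 1) (fun x => Real.abs_sin_le_one _)
  apply LipschitzWith.of_dist_le_mul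
  intro x z
  have h1 := Real.lipschitzWith_sin.dist_le_mul (Real.pi * y * x) (Real.pi * y * z)
  refine h1.trans (le_of_eq ?_)
  rw [NNReal.coe_one, one_mul, Real.dist_eq, Real.dist_eq]
  show |Real.pi * y * x - Real.pi * y * z| = |Real.pi * y| * |x - z|
  rw [← abs_mul]
  congr 1
  ring

lemma BL.wt {w : ℝ → ℝ} {b : ℝ} {K : NNReal} (h : Wt w b K) : BL fun u => (w u : ℂ) :=
  BL.real h.lip h.bd

/-- the low frequency part of the error -/
noncomputable def Elo (w : ℝ → ℝ) (y a a0 u : ℝ) : ℝ :=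
  w u * (1 - ks a0 u) - 2 / Real.pi * (kd a a0 u * Real.sin (Real.pi * y * u))

/-- the high frequency part of the error -/
noncomputable def Ehi (w : ℝ → ℝ) (a0 u : ℝ) : ℝ := w u * ks a0 u

lemma wz_lo {w : ℝ → ℝ} {b : ℝ} {K : NNReal} (h : Wt w b K) (y : ℝ) {a a0 : ℝ} (ha : 0 < a)
    (haa : a ≤ a0) (ha0 : 2 * a0 ≤ 1 / 2) :
    ∃ K', Wz (fun u => (Elo w y a a0 u : ℂ)) (2 * a0) K' := by
  have h0 : 0 < a0 := by linarith
  apply BL.wz _ (by linarith) ha0
  · intro ξ hξ
    unfold Elo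
    rw [ks_one h0 hξ, kd_zero2 ha haa hξ]
    simp
  · have e : (fun u => (Elo w y a a0 u : ℂ)) = fun u => (w u : ℂ) * (1 - (ks a0 u : ℂ)) -
        (((2 / Real.pi : ℝ) : ℂ)) * ((kd a a0 u : ℂ) * (Real.sin (Real.pi * y * u) : ℂ)) := by
      ext u
      unfold Elo
      push_cast
      ring
    rw [e]
    exact ((BL.wt h).mul ((BL.const 1).sub (BL.ks h0))).sub
      ((BL.const _).mul ((BL.kd ha h0).mul (BL.sin y)))

lemma wz_hi {w : ℝ → ℝ} {b : ℝ} {K : NNReal} (h : Wt w b K) {a0 : ℝ} (ha0 : 0 < a0) :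
    ∃ K', Wz (fun u => (Ehi w a0 u : ℂ)) b K' := by
  apply BL.wz _ h.b0 h.b1
  · intro ξ hξ
    unfold Ehi
    rw [h.zero ξ hξ]
    simp
  · have e : (fun u => (Ehi w a0 u : ℂ)) = fun u => (w u : ℂ) * (ks a0 u : ℂ) := by
      ext u
      unfold Ehi
      push_cast
      ring
    rw [e]
    exact (BL.wt h).mul (BL.ks ha0)

/-- the window in terms of the field -/
lemma win_eq {w : ℝ → ℝ} {b : ℝ} {K : NNReal} (h : Wt w b K) {T : ℝ} (hT : 1 < T) (a a0 : ℝ)
    (c c' t : ℝ) :
    PW w b T (t + 2 * Real.pi * ((c + c') / 2) / Real.log T) =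
      (PZ (fW (I / Real.pi) (kd a a0) c) T t - PZ (fW (I / Real.pi) (kd a a0) c') T t) +
      (PZ (fun u => (Elo w (c - c') a a0 u : ℂ)) T (t + 2 * Real.pi * ((c + c') / 2) / Real.log T) +
      PZ (fun u => (Ehi w a0 u : ℂ)) T (t + 2 * Real.pi * ((c + c') / 2) / Real.log T)) := by
  rw [PW_PZ h hT]
  have e1 : PZ (fW (I / Real.pi) (kd a a0) c) T t - PZ (fW (I / Real.pi) (kd a a0) c') T t =
      PZ (fun u => ((2 / Real.pi * (kd a a0 u * Real.sin (Real.pi * (c - c') * u)) : ℝ) : ℂ)) T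
        (t + 2 * Real.pi * ((c + c') / 2) / Real.log T) := by
    rw [PZ_shift _ hT, ← PZ_sub]
    congr 1
    ext u
    unfold fW ee
    have hs : (Real.sin (Real.pi * (c - c') * u) : ℂ) =
        (cexp (-((Real.pi * (c - c') * u : ℝ) : ℂ) * I) - cexp (((Real.pi * (c - c') * u : ℝ) : ℂ) * I)) *
          I / 2 := by
      rw [Complex.ofReal_sin, Complex.sin]
    have e2 : cexp (((-(2 * Real.pi * c * u) : ℝ) : ℂ) * I) =
        cexp (-((Real.pi * (c - c') * u : ℝ) : ℂ) * I) *
          cexp (((-(2 * Real.pi * ((c + c') / 2) * u) : ℝ) : ℂ) * I) := by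
      rw [← Complex.exp_add]
      congr 1
      push_cast
      ring
    have e3 : cexp (((-(2 * Real.pi * c' * u) : ℝ) : ℂ) * I) =
        cexp (((Real.pi * (c - c') * u : ℝ) : ℂ) * I) *
          cexp (((-(2 * Real.pi * ((c + c') / 2) * u) : ℝ) : ℂ) * I) := by
      rw [← Complex.exp_add]
      congr 1
      push_cast
      ring
    rw [e2, e3]
    push_cast
    push_cast at hs
    rw [hs]
    ring
  rw [e1, ← PZ_add, ← PZ_add]
  congr 1
  ext u
  rw [← Complex.ofReal_add, ← Complex.ofReal_add]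
  congr 1
  unfold Elo Ehi
  ring

/-! ### variances of the error weights -/

lemma int_mix {f : ℝ → ℝ} (hf : Continuous f) {α β γ B0 B1 C : ℝ} (hα : 0 < α) (hαβ : α ≤ β)
    (hβγ : β ≤ γ) (hγ : γ ≤ 1) (hB1 : 0 ≤ B1)
    (h0 : ∀ u, 0 < u → u ≤ α → f u ≤ B0 * u)
    (h1 : ∀ u, α ≤ u → u ≤ β → f u ≤ B1 * u + C * (1 / u))
    (h2 : ∀ u, β ≤ u → u ≤ γ → f u ≤ B1 * u) (h3 : ∀ u, γ ≤ u → u ≤ 1 → f u ≤ 0) :
    ∫ u in (0 : ℝ)..1, f u ≤ B0 * α ^ 2 / 2 + B1 * γ ^ 2 / 2 + C * Real.log (β / α) := by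
  have hi : ∀ x y, IntervalIntegrable f volume x y := fun x y => hf.intervalIntegrable _ _
  have hlin : ∀ (B x y : ℝ), ∫ u in x..y, B * u = B * (y ^ 2 - x ^ 2) / 2 := by
    intro B x y
    rw [intervalIntegral.integral_const_mul, integral_id]
    ring
  have hlini : ∀ (B x y : ℝ), IntervalIntegrable (fun u => B * u) volume x y := fun B x y =>
    (continuous_const.mul continuous_id).intervalIntegrable _ _
  rw [← intervalIntegral.integral_add_adjacent_intervals (hi 0 α) (hi α 1),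
    ← intervalIntegral.integral_add_adjacent_intervals (hi α β) (hi β 1),
    ← intervalIntegral.integral_add_adjacent_intervals (hi β γ) (hi γ 1)]
  have e0 : ∫ u in (0 : ℝ)..α, f u ≤ B0 * (α ^ 2 - 0 ^ 2) / 2 := by
    rw [← hlin]
    apply intervalIntegral.integral_mono_on_of_le_Ioo hα.le (hi 0 α) (hlini _ _ _)
    intro u hu
    exact h0 u hu.1 hu.2.le
  have e2 : ∫ u in β..γ, f u ≤ B1 * (γ ^ 2 - β ^ 2) / 2 := by
    rw [← hlin]
    apply intervalIntegral.integral_mono_on hβγ (hi β γ) (hlini _ _ _)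
    intro u hu
    exact h2 u hu.1 hu.2
  have e3 : ∫ u in γ..1, f u ≤ 0 := by
    have h4 : ∫ u in γ..1, f u ≤ ∫ u in γ..1, (0 : ℝ) := by
      apply intervalIntegral.integral_mono_on hγ (hi γ 1) intervalIntegrable_const
      intro u hu
      exact h3 u hu.1 hu.2
    simpa using h4
  have hni : (0 : ℝ) ∉ Set.uIcc α β := by
    rw [Set.uIcc_of_le hαβ]
    intro h
    linarith [h.1]
  have hdi : IntervalIntegrable (fun u : ℝ => C * (1 / u)) volume α β :=
    (intervalIntegral.intervalIntegrable_one_div (fun x hx h => hni (h ▸ hx))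
      continuousOn_id).const_mul C
  have e1 : ∫ u in α..β, f u ≤ B1 * (β ^ 2 - α ^ 2) / 2 + C * Real.log (β / α) := by
    have h4 : ∫ u in α..β, f u ≤ ∫ u in α..β, (B1 * u + C * (1 / u)) := by
      apply intervalIntegral.integral_mono_on hαβ (hi α β) ((hlini _ _ _).add hdi)
      intro u hu
      exact h1 u hu.1 hu.2
    rw [intervalIntegral.integral_add (hlini _ _ _) hdi, hlin, intervalIntegral.integral_const_mul,
      integral_one_div hni] at h4
    exact h4
  have : 0 ≤ B1 * α ^ 2 := by positivity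
  nlinarith

lemma w_close {S : Finset ℕ} {j : ℕ} {σ : ℝ} (hσ : |σ| ≤ 1) (h : Ker S j σ) {b y u : ℝ}
    (hb : 0 < b) (hby : b * y = j) (hu : 0 < u) (hub : u ≤ b) :
    |sc (Gs S j b) b u - 2 * Real.sin (Real.pi * y * u) / (Real.pi * u)| ≤ 14 / b := by
  have h1 : sc (Gs S j b) b u = 2 / b * hat S j (u / b) := by
    unfold sc Gs
    rw [abs_of_pos hu, min_eq_right ((div_le_one hb).2 hub)]
  have h2 := hat_close hσ h (s := u / b) (by positivity) ((div_le_one hb).2 hub)
  have h3 : Real.pi * j * (u / b) = Real.pi * y * u := by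
    rw [← hby]
    field_simp
  rw [h3] at h2
  have e : sc (Gs S j b) b u - 2 * Real.sin (Real.pi * y * u) / (Real.pi * u) =
      2 / b * (hat S j (u / b) - Real.sin (Real.pi * y * u) / (Real.pi * (u / b))) := by
    rw [h1]
    have := Real.pi_ne_zero
    field_simp
  rw [e, abs_mul, abs_of_pos (by positivity : 0 < 2 / b)]
  calc 2 / b * _ ≤ 2 / b * 7 := by gcongr
    _ = 14 / b := by ring

lemma W_bd {y u : ℝ} (hy : 0 ≤ y) (hu : 0 < u) :
    |2 * Real.sin (Real.pi * y * u) / (Real.pi * u)| ≤ 1 / u ∧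
    |2 * Real.sin (Real.pi * y * u) / (Real.pi * u)| ≤ 2 * y := by
  have hpi := Real.pi_gt_three
  have hp : 0 < Real.pi * u := by positivity
  rw [abs_div, abs_mul, abs_two, abs_of_pos hp]
  constructor
  · rw [div_le_div_iff₀ hp hu]
    have := Real.abs_sin_le_one (Real.pi * y * u)
    nlinarith
  · rw [div_le_iff₀ hp]
    have := Real.abs_sin_le_abs (x := Real.pi * y * u)
    rw [abs_of_nonneg (by positivity : 0 ≤ Real.pi * y * u)] at this
    linarith

/-- the variance of the low frequency part -/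
lemma var_lo {S : Finset ℕ} {j : ℕ} {σ : ℝ} (hσ : |σ| ≤ 1) (h : Ker S j σ) {b y a a0 α : ℝ}
    (hb : 0 < b) (hby : b * y = j) (hy : 0 ≤ y) (ha : 0 < a) (haa : a ≤ a0)
    (hab : 2 * a0 ≤ b) (hb1 : b ≤ 1) (hα : 0 < α) (hα0 : α ≤ 2 * a0) (hαb : 14 * α ≤ 2 * b)
    (hαy : y * α ≤ 1) :
    var (nw fun u => (Elo (sc (Gs S j b) b) y a a0 u : ℂ)) ≤
      204 + 2 * Real.log (max 1 (2 * a / α)) := by
  have h0 : 0 < a0 := by linarith
  set w := sc (Gs S j b) b with hw
  -- pointwise bounds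
  have key : ∀ u, 0 < u → u ≤ b → |Elo w y a a0 u| ≤ 14 / b * (1 - ks a0 u) +
      |2 * Real.sin (Real.pi * y * u) / (Real.pi * u)| * (1 - ks a u) := by
    intro u hu hub
    have e : Elo w y a a0 u = (w u - 2 * Real.sin (Real.pi * y * u) / (Real.pi * u)) *
        (1 - ks a0 u) + 2 * Real.sin (Real.pi * y * u) / (Real.pi * u) * (1 - ks a u) := by
      unfold Elo
      rw [kd_eq ha h0 hu.ne', abs_of_pos hu]
      have := Real.pi_ne_zero
      field_simp
      ring
    rw [e]
    refine (abs_add_le _ _).trans ?_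
    rw [abs_mul, abs_mul, abs_of_nonneg (by linarith [ks_le a0 u] : 0 ≤ 1 - ks a0 u),
      abs_of_nonneg (by linarith [ks_le a u] : 0 ≤ 1 - ks a u)]
    have h1 := w_close hσ h hb hby hu hub
    have h2 : 0 ≤ 1 - ks a0 u := by linarith [ks_le a0 u]
    have h3 := mul_le_mul_of_nonneg_right h1 h2
    linarith
  have hEc : Continuous fun u => Elo w y a a0 u := by
    have h1 : Continuous w := by
      rw [hw]
      unfold sc
      exact (Gs_cont S j b).comp (by fun_prop)
    have h2 := ks_cont h0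
    have h3 : Continuous fun u => kd a a0 u := kd_cont ha h0
    unfold Elo
    fun_prop
  have hv : var (nw fun u => (Elo w y a a0 u : ℂ)) = ∫ u in (0 : ℝ)..1, u * Elo w y a a0 u ^ 2 := by
    unfold var nw
    apply intervalIntegral.integral_congr
    intro u hu
    rw [Set.uIcc_of_le zero_le_one] at hu
    simp only
    rw [Complex.norm_real, Real.norm_eq_abs, sq_abs, abs_of_nonneg hu.1]
  rw [hv]
  set β := max α (2 * a) with hβ
  have hβ1 : α ≤ β := le_max_left _ _
  have hβ2 : β ≤ 2 * a0 := max_le hα0 (by linarith)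
  have hm := int_mix (f := fun u => u * Elo w y a a0 u ^ 2) (α := α) (β := β) (γ := 2 * a0)
    (B0 := (14 / b + 2 * y) ^ 2) (B1 := 2 * (14 / b) ^ 2) (C := 2) (by fun_prop) hα hβ1 hβ2
    (by linarith) (by positivity) ?_ ?_ ?_ ?_
  · refine hm.trans ?_
    have t1 : (14 / b + 2 * y) ^ 2 * α ^ 2 / 2 ≤ 8 := by
      rw [← mul_pow]
      have h1 : (14 / b + 2 * y) * α ≤ 4 := by
        have h2 : 14 / b * α ≤ 2 := by
          rw [div_mul_eq_mul_div, div_le_iff₀ hb]
          linarith
        nlinarith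
      have h2 : 0 ≤ (14 / b + 2 * y) * α := by positivity
      nlinarith
    have t2 : 2 * (14 / b) ^ 2 * (2 * a0) ^ 2 / 2 ≤ 196 := by
      have h1 : 14 / b * (2 * a0) ≤ 14 := by
        rw [div_mul_eq_mul_div, div_le_iff₀ hb]
        linarith
      have h2 : 0 ≤ 14 / b * (2 * a0) := by positivity
      calc 2 * (14 / b) ^ 2 * (2 * a0) ^ 2 / 2 = (14 / b * (2 * a0)) ^ 2 := by ring
        _ ≤ 14 ^ 2 := pow_le_pow_left₀ h2 h1 2
        _ = 196 := by norm_num
    have t3 : β / α = max 1 (2 * a / α) := by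
      rw [hβ, ← max_div_div_right hα.le, div_self hα.ne']
    rw [t3]
    linarith
  · intro u hu hua
    have h1 := key u hu (by linarith)
    have h2 := (W_bd hy hu).2
    have h3 : |Elo w y a a0 u| ≤ 14 / b + 2 * y := by
      refine h1.trans ?_
      have k1 := ks_nonneg a0 u
      have k2 := ks_nonneg a u
      have k3 : 14 / b * (1 - ks a0 u) ≤ 14 / b * 1 := by gcongr; linarith
      have k4 : |2 * Real.sin (Real.pi * y * u) / (Real.pi * u)| * (1 - ks a u) ≤ 2 * y * 1 := by
        apply mul_le_mul h2 (by linarith) (by linarith [ks_le a u]) (by positivity)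
      linarith
    have h4 : Elo w y a a0 u ^ 2 ≤ (14 / b + 2 * y) ^ 2 := by
      rw [← sq_abs]
      exact pow_le_pow_left₀ (abs_nonneg _) h3 2
    calc u * Elo w y a a0 u ^ 2 ≤ u * (14 / b + 2 * y) ^ 2 := by gcongr
      _ = _ := mul_comm _ _
  · intro u hu1 hu2
    have hu : 0 < u := by linarith
    have h1 := key u hu (by linarith)
    have h2 := (W_bd hy hu).1
    have h3 : |Elo w y a a0 u| ≤ 14 / b + 1 / u := by
      refine h1.trans ?_
      have k1 := ks_nonneg a0 u
      have k2 := ks_nonneg a u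
      have k3 : 14 / b * (1 - ks a0 u) ≤ 14 / b * 1 := by gcongr; linarith
      have k4 : |2 * Real.sin (Real.pi * y * u) / (Real.pi * u)| * (1 - ks a u) ≤ 1 / u * 1 := by
        apply mul_le_mul h2 (by linarith) (by linarith [ks_le a u]) (by positivity)
      linarith
    have h4 : Elo w y a a0 u ^ 2 ≤ (14 / b + 1 / u) ^ 2 := by
      rw [← sq_abs]
      exact pow_le_pow_left₀ (abs_nonneg _) h3 2
    calc u * Elo w y a a0 u ^ 2 ≤ u * (14 / b + 1 / u) ^ 2 := by gcongr
      _ ≤ u * (2 * (14 / b) ^ 2 + 2 * (1 / u) ^ 2) := by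
          gcongr
          nlinarith [sq_nonneg (14 / b - 1 / u)]
      _ = _ := by
          field_simp
  · intro u hu1 hu2
    have hu : 0 < u := by linarith
    have hua : 2 * a ≤ |u| := by
      rw [abs_of_pos hu]
      exact (le_max_right _ _).trans hu1
    have h1 := key u hu (by linarith)
    rw [ks_one ha hua, sub_self, mul_zero, add_zero] at h1
    have h3 : |Elo w y a a0 u| ≤ 14 / b := by
      refine h1.trans ?_
      have k1 := ks_nonneg a0 u
      have k3 : 14 / b * (1 - ks a0 u) ≤ 14 / b * 1 := by gcongr; linarith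
      linarith
    have h4 : Elo w y a a0 u ^ 2 ≤ (14 / b) ^ 2 := by
      rw [← sq_abs]
      exact pow_le_pow_left₀ (abs_nonneg _) h3 2
    calc u * Elo w y a a0 u ^ 2 ≤ u * (14 / b) ^ 2 := by gcongr
      _ ≤ 2 * (14 / b) ^ 2 * u := by
          have : 0 ≤ u * (14 / b) ^ 2 := by positivity
          linarith
  · intro u hu1 hu2
    have hu : 2 * a0 ≤ |u| := hu1.trans (le_abs_self _)
    unfold Elo
    rw [ks_one h0 hu, kd_zero2 ha haa hu]
    simp

/-- the variance of the high frequency part -/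
lemma var_hi {S : Finset ℕ} {j : ℕ} {σ : ℝ} (hσ : |σ| ≤ 1) (h : Ker S j σ) {b y a0 : ℝ}
    (hb : 0 < b) (hby : b * y = j) (hy : 0 ≤ y) (h0 : 0 < a0) (hab : a0 ≤ b) (hb1 : b ≤ 1) :
    var (nw fun u => (Ehi (sc (Gs S j b) b) a0 u : ℂ)) ≤ 256 * Real.log (b / a0) := by
  set w := sc (Gs S j b) b with hw
  have hEc : Continuous fun u => Ehi w a0 u := by
    have h1 : Continuous w := by
      rw [hw]
      unfold sc
      exact (Gs_cont S j b).comp (by fun_prop)
    have h2 := ks_cont h0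
    unfold Ehi
    fun_prop
  have hv : var (nw fun u => (Ehi w a0 u : ℂ)) = ∫ u in (0 : ℝ)..1, u * Ehi w a0 u ^ 2 := by
    unfold var nw
    apply intervalIntegral.integral_congr
    intro u hu
    rw [Set.uIcc_of_le zero_le_one] at hu
    simp only
    rw [Complex.norm_real, Real.norm_eq_abs, sq_abs, abs_of_nonneg hu.1]
  rw [hv]
  have hm := int_mix (f := fun u => u * Ehi w a0 u ^ 2) (α := a0) (β := b) (γ := b)
    (B0 := 0) (B1 := 0) (C := 256) (by fun_prop) h0 hab le_rfl hb1 le_rfl ?_ ?_ ?_ ?_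
  · linarith
  · intro u hu hua
    have : Ehi w a0 u = 0 := by
      unfold Ehi
      rw [ks_zero h0 (by rwa [abs_of_pos hu]), mul_zero]
    simp only [this]
    norm_num
  · intro u hu1 hu2
    have hu : 0 < u := by linarith
    have h1 := w_close hσ h hb hby hu hu2
    have h2 := (W_bd hy hu).1
    have h3 : |w u| ≤ 16 / u := by
      have e : w u = (w u - 2 * Real.sin (Real.pi * y * u) / (Real.pi * u)) +
        2 * Real.sin (Real.pi * y * u) / (Real.pi * u) := by ring
      rw [e]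
      refine (abs_add_le _ _).trans ?_
      have h4 : 14 / b ≤ 14 / u := by gcongr
      have h5 : 16 / u = 14 / u + 1 / u + 1 / u := by ring
      have h6 : 0 < 1 / u := by positivity
      rw [hw]
      linarith
    have h4 : |Ehi w a0 u| ≤ 16 / u := by
      unfold Ehi
      rw [abs_mul, abs_of_nonneg (ks_nonneg a0 u)]
      have := ks_le a0 u
      have := ks_nonneg a0 u
      calc |w u| * ks a0 u ≤ 16 / u * 1 := mul_le_mul h3 (ks_le a0 u) (ks_nonneg a0 u) (by positivity)
        _ = _ := mul_one _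
    have h5 : Ehi w a0 u ^ 2 ≤ (16 / u) ^ 2 := by
      rw [← sq_abs]
      exact pow_le_pow_left₀ (abs_nonneg _) h4 2
    calc u * Ehi w a0 u ^ 2 ≤ u * (16 / u) ^ 2 := by gcongr
      _ = 0 * u + 256 * (1 / u) := by
          field_simp
          norm_num
  · intro u hu1 hu2
    have hu : 0 < u := by linarith
    have : w u = 0 := by
      have h1 : u = b := le_antisymm hu2 hu1
      rw [hw]
      unfold sc
      rw [abs_of_pos hu, h1, div_self hb.ne', min_self, Gs_one]
    unfold Ehi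
    rw [this]
    norm_num
  · intro u hu1 hu2
    have hu : 0 < u := by linarith
    have : w u = 0 := by
      rw [hw]
      unfold sc
      rw [abs_of_pos hu, min_eq_left ((one_le_div hb).2 hu1), Gs_one]
    unfold Ehi
    rw [this]
    norm_num

end Pool.Agent.T9h26.TD
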