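import Pool.Agent.T9h26.TD.Qa
import Pool.Agent.T9h26.TD.Ze
import Pool.Agent.T9h26.TD.Bl

set_option autoImplicit false

/-! Small balls: smoothed windows, their weights, and the variances of combinations. -/

open Complex Filter Topology Set MeasureTheory

namespace Pool.Agent.T9h26.TD

/-- the transform of the window -/
noncomputable def DR (R u : ℝ) : ℝ := ∫ z in (-(R / 2))..(R / 2), Real.cos (2 * Real.pi * u * z)

lemma DR_eq (R : ℝ) {u : ℝ} (hu : u ≠ 0) : DR R u = Real.sin (Real.pi * R * u) / (Real.pi * u) := by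
  unfold DR
  have hc : 2 * Real.pi * u ≠ 0 := by
    have := Real.pi_ne_zero
    positivity
  rw [intervalIntegral.integral_comp_mul_left (fun x => Real.cos x) hc, integral_cos]
  have e1 : 2 * Real.pi * u * (R / 2) = Real.pi * R * u := by ring
  have e2 : 2 * Real.pi * u * -(R / 2) = -(Real.pi * R * u) := by ring
  rw [e1, e2, Real.sin_neg, smul_eq_mul]
  have hp := Real.pi_ne_zero
  field_simp
  ring

lemma DR_abs {R : ℝ} (hR : 0 ≤ R) (u : ℝ) : |DR R u| ≤ R := by
  unfold DR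
  have := intervalIntegral.norm_integral_le_of_norm_le_const (a := -(R / 2)) (b := R / 2)
    (f := fun z => Real.cos (2 * Real.pi * u * z)) (C := 1)
    (fun z _ => by rw [Real.norm_eq_abs]; exact Real.abs_cos_le_one _)
  rw [Real.norm_eq_abs] at this
  refine this.trans (le_of_eq ?_)
  rw [one_mul, show R / 2 - -(R / 2) = R by ring, abs_of_nonneg hR]

lemma DR_lip {R : ℝ} (hR : 0 ≤ R) (u v : ℝ) : |DR R u - DR R v| ≤ (Real.pi * R * R) * |u - v| := by
  unfold DR
  have c1 : ∀ w : ℝ, Continuous fun z => Real.cos (2 * Real.pi * w * z) := fun w => by fun_prop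
  rw [← intervalIntegral.integral_sub ((c1 u).intervalIntegrable _ _)
    ((c1 v).intervalIntegrable _ _)]
  have := intervalIntegral.norm_integral_le_of_norm_le_const (a := -(R / 2)) (b := R / 2)
    (f := fun z => Real.cos (2 * Real.pi * u * z) - Real.cos (2 * Real.pi * v * z))
    (C := Real.pi * R * |u - v|)
    (fun z hz => by
      rw [Real.norm_eq_abs]
      have h1 := Real.abs_cos_sub_cos_le (2 * Real.pi * u * z) (2 * Real.pi * v * z)
      refine h1.trans ?_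
      rw [← sub_mul, ← mul_sub, abs_mul, abs_mul, abs_of_pos Real.two_pi_pos]
      have hz2 : |z| ≤ R / 2 := by
        rw [uIoc_of_le (by linarith)] at hz
        rw [abs_le]
        exact ⟨hz.1.le, hz.2⟩
      have := abs_nonneg (u - v)
      calc 2 * Real.pi * |u - v| * |z| ≤ 2 * Real.pi * |u - v| * (R / 2) :=
            mul_le_mul_of_nonneg_left hz2 (by positivity)
        _ = _ := by ring)
  rw [Real.norm_eq_abs] at this
  refine this.trans (le_of_eq ?_)
  rw [show R / 2 - -(R / 2) = R by ring, abs_of_nonneg hR]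
  ring

lemma DR_even (R u : ℝ) : DR R (-u) = DR R u := by
  unfold DR
  apply intervalIntegral.integral_congr
  intro z _
  simp only
  rw [show 2 * Real.pi * -u * z = -(2 * Real.pi * u * z) by ring, Real.cos_neg]

/-- the weight of the smoothed window of length `R` -/
noncomputable def Wn (b R u : ℝ) : ℝ := 2 * (sc Gt b u * DR R u)

lemma sc_Gt {b u : ℝ} : sc Gt b u = 1 - min 1 (|u| / b) := rfl

lemma sc_Gt_nonneg {b u : ℝ} : 0 ≤ sc Gt b u := by
  rw [sc_Gt]
  have := min_le_left 1 (|u| / b)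
  linarith

lemma sc_Gt_le {b u : ℝ} (hb : 0 < b) : sc Gt b u ≤ 1 := by
  rw [sc_Gt]
  have : 0 ≤ min 1 (|u| / b) := le_min zero_le_one (by positivity)
  linarith

lemma sc_Gt_half {b u : ℝ} (hb : 0 < b) (h : |u| ≤ b / 2) : 1 / 2 ≤ sc Gt b u := by
  rw [sc_Gt]
  have h1 : |u| / b ≤ 1 / 2 := by rw [div_le_iff₀ hb]; linarith
  have := min_le_right 1 (|u| / b)
  linarith

lemma BL.DR {R : ℝ} (hR : 0 ≤ R) : BL fun u => (DR R u : ℂ) := by
  have hK : LipschitzWith (Real.toNNReal (Real.pi * R * R)) (TD.DR R) := by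
    apply LipschitzWith.of_dist_le_mul
    intro x y
    rw [Real.dist_eq, Real.dist_eq, Real.coe_toNNReal _ (by have := Real.pi_pos; positivity)]
    exact DR_lip hR x y
  exact BL.real hK (DR_abs hR)

lemma Wn_BL {b R : ℝ} (hb : 0 < b) (hb1 : b ≤ 1 / 2) (hR : 0 ≤ R) : BL fun u => (Wn b R u : ℂ) := by
  obtain ⟨K, hK⟩ := sc_wt Gt_contDiff Gt_one hb hb1
  have h := (BL.const 2).mul ((BL.wt hK).mul (BL.DR hR))
  have e : (fun u => (Wn b R u : ℂ)) = fun u => (2 : ℂ) * ((sc Gt b u : ℂ) * (TD.DR R u : ℂ)) := by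
    funext u
    unfold Wn
    push_cast
    ring
  rw [e]
  exact h

lemma Wn_zero {b R u : ℝ} (hb : 0 < b) (hu : b ≤ |u|) : Wn b R u = 0 := by
  unfold Wn
  have : sc Gt b u = 0 := by
    rw [sc_Gt, min_eq_left (by rw [le_div_iff₀ hb]; linarith), sub_self]
  rw [this, zero_mul, mul_zero]

lemma Wn_wt {b R : ℝ} (hb : 0 < b) (hb1 : b ≤ 1 / 2) (hR : 0 ≤ R) :
    ∃ K : NNReal, Wt (Wn b R) b K := by
  obtain ⟨⟨K, hK⟩, -⟩ := Wn_BL hb hb1 hR
  refine ⟨K, hb, hb1, ?_, fun ξ hξ => Wn_zero hb hξ, ?_⟩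
  · apply LipschitzWith.of_dist_le_mul
    intro x y
    have h := hK.dist_le_mul x y
    rwa [dist_eq_norm, ← Complex.ofReal_sub, Complex.norm_real, Real.norm_eq_abs,
      ← Real.dist_eq] at h
  · intro ξ
    unfold Wn
    rw [DR_even]
    unfold sc
    rw [abs_neg]

lemma Wn_cont {b R : ℝ} (hb : 0 < b) (hb1 : b ≤ 1 / 2) (hR : 0 ≤ R) : Continuous (Wn b R) := by
  obtain ⟨K, hK⟩ := Wn_wt hb hb1 hR
  exact hK.cont

lemma Wn_at_zero (b R : ℝ) : Wn b R 0 = 2 * R := by
  unfold Wn DR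
  rw [sc_zero, Gt_zero]
  simp

lemma Wn_sq_le {b R u : ℝ} (hb : 0 < b) (hR : 0 ≤ R) : Wn b R u ^ 2 ≤ 4 * R ^ 2 := by
  have h1 := DR_abs hR u
  have h2 := sc_Gt_le (u := u) hb
  have h3 := sc_Gt_nonneg (b := b) (u := u)
  have h4 : |Wn b R u| ≤ 2 * R := by
    unfold Wn
    rw [abs_mul, abs_mul, abs_of_nonneg h3, abs_two]
    have := abs_nonneg (DR R u)
    nlinarith
  rw [← sq_abs]
  nlinarith [abs_nonneg (Wn b R u)]

lemma Wn_sq_le2 {b R u : ℝ} (hb : 0 < b) (hu : 0 < u) :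
    u * Wn b R u ^ 2 ≤ 4 / (Real.pi ^ 2 * u) := by
  have hp := Real.pi_pos
  unfold Wn
  rw [DR_eq R hu.ne']
  have h2 := sc_Gt_le (u := u) hb
  have h3 := sc_Gt_nonneg (b := b) (u := u)
  have h4 := Real.sin_sq_le_one (Real.pi * R * u)
  have e : u * (2 * (sc Gt b u * (Real.sin (Real.pi * R * u) / (Real.pi * u)))) ^ 2 =
      (4 / (Real.pi ^ 2 * u)) * (sc Gt b u ^ 2 * Real.sin (Real.pi * R * u) ^ 2) := by
    field_simp
    ring
  rw [e]
  have h5 : sc Gt b u ^ 2 * Real.sin (Real.pi * R * u) ^ 2 ≤ 1 := by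
    have : sc Gt b u ^ 2 ≤ 1 := by nlinarith
    have := sq_nonneg (Real.sin (Real.pi * R * u))
    nlinarith
  calc (4 / (Real.pi ^ 2 * u)) * (sc Gt b u ^ 2 * Real.sin (Real.pi * R * u) ^ 2) ≤
      (4 / (Real.pi ^ 2 * u)) * 1 := mul_le_mul_of_nonneg_left h5 (by positivity)
    _ = _ := mul_one _

lemma Wn_sq_ge {b R u : ℝ} (hb : 0 < b) (hu : 0 < u) (hub : u ≤ b / 2)
    (hs : 1 / 2 ≤ Real.sin (Real.pi * R * u) ^ 2) :
    1 / (2 * Real.pi ^ 2 * u) ≤ u * Wn b R u ^ 2 := by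
  have hp := Real.pi_pos
  unfold Wn
  rw [DR_eq R hu.ne']
  have h2 := sc_Gt_half (u := u) hb (by rw [abs_of_pos hu]; exact hub)
  have e : u * (2 * (sc Gt b u * (Real.sin (Real.pi * R * u) / (Real.pi * u)))) ^ 2 =
      (4 / (Real.pi ^ 2 * u)) * (sc Gt b u ^ 2 * Real.sin (Real.pi * R * u) ^ 2) := by
    field_simp
    ring
  rw [e]
  have h5 : 1 / 8 ≤ sc Gt b u ^ 2 * Real.sin (Real.pi * R * u) ^ 2 := by
    have : 1 / 4 ≤ sc Gt b u ^ 2 := by nlinarith
    nlinarith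
  calc 1 / (2 * Real.pi ^ 2 * u) = (4 / (Real.pi ^ 2 * u)) * (1 / 8) := by
        field_simp
        norm_num
    _ ≤ _ := mul_le_mul_of_nonneg_left h5 (by positivity)

/-- the squared modulus of the exponential sum -/
noncomputable def Tq {J : ℕ} (σ : Fin J → Fin 3) (D u : ℝ) : ℝ :=
  ∑ i, ∑ j, sg (σ i) * sg (σ j) * Real.cos (2 * Real.pi * ((i : ℕ) - (j : ℕ) : ℝ) * D * u)

lemma norm_sum_ee {J : ℕ} (σ : Fin J → Fin 3) (y0 D u : ℝ) :
    ‖∑ j, (sg (σ j) : ℂ) * ee (y0 + (j : ℕ) * D) u‖ ^ 2 = Tq σ D u := by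
  have h1 : ((‖∑ j, (sg (σ j) : ℂ) * ee (y0 + (j : ℕ) * D) u‖ ^ 2 : ℝ) : ℂ) =
      ∑ i, ∑ j, ((sg (σ i) * sg (σ j) : ℝ) : ℂ) *
        cexp (((-(2 * Real.pi * ((i : ℕ) - (j : ℕ) : ℝ) * D * u) : ℝ) : ℂ) * I) := by
    rw [← Complex.normSq_eq_norm_sq, ← Complex.mul_conj, map_sum, Finset.sum_mul_sum]
    apply Finset.sum_congr rfl
    intro i _
    apply Finset.sum_congr rfl
    intro j _
    rw [map_mul, Complex.conj_ofReal]
    have e1 : (starRingEnd ℂ) (ee (y0 + (j : ℕ) * D) u) =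
        cexp (((2 * Real.pi * (y0 + (j : ℕ) * D) * u : ℝ) : ℂ) * I) := by
      unfold ee
      rw [← Complex.exp_conj, map_mul, Complex.conj_ofReal, Complex.conj_I]
      congr 1
      push_cast
      ring
    rw [e1]
    unfold ee
    rw [mul_mul_mul_comm, ← Complex.exp_add]
    congr 2
    · push_cast; ring
    · push_cast; ring
  have h2 := congrArg Complex.re h1
  rw [Complex.ofReal_re, Complex.re_sum] at h2
  rw [h2]
  unfold Tq
  apply Finset.sum_congr rfl
  intro i _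
  rw [Complex.re_sum]
  apply Finset.sum_congr rfl
  intro j _
  rw [Complex.re_ofReal_mul, Complex.exp_ofReal_mul_I_re, Real.cos_neg]

lemma Tq_nonneg {J : ℕ} (σ : Fin J → Fin 3) (D u : ℝ) : 0 ≤ Tq σ D u := by
  rw [← norm_sum_ee σ 0 D u]
  positivity

lemma Tq_cont {J : ℕ} (σ : Fin J → Fin 3) (D : ℝ) : Continuous (Tq σ D) := by
  unfold Tq
  fun_prop

/-- orthogonality on a period -/
lemma Tq_int {J : ℕ} (σ : Fin J → Fin 3) {D : ℝ} (hD : 0 < D) (k : ℕ) :
    ∫ u in ((k : ℝ) / D)..(((k + 1 : ℕ) : ℝ) / D), Tq σ D u = n3 σ / D := by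
  unfold Tq
  rw [intervalIntegral.integral_finsetSum (fun i _ => Continuous.intervalIntegrable (by fun_prop) _ _)]
  have h : ∀ i : Fin J, ∫ u in ((k : ℝ) / D)..(((k + 1 : ℕ) : ℝ) / D),
      ∑ j, sg (σ i) * sg (σ j) * Real.cos (2 * Real.pi * ((i : ℕ) - (j : ℕ) : ℝ) * D * u) =
      sg (σ i) ^ 2 / D := by
    intro i
    rw [intervalIntegral.integral_finsetSum
      (fun j _ => Continuous.intervalIntegrable (by fun_prop) _ _)]
    rw [Finset.sum_eq_single i]
    · simp only [sub_self, mul_zero, zero_mul, Real.cos_zero, mul_one]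
      rw [intervalIntegral.integral_const, smul_eq_mul]
      push_cast
      field_simp
      ring
    · intro j _ hij
      rw [intervalIntegral.integral_const_mul]
      have hne : ((i : ℕ) - (j : ℕ) : ℝ) ≠ 0 := by
        intro h0
        apply hij
        have : ((i : ℕ) : ℝ) = (j : ℕ) := by linarith
        exact (Fin.ext (by exact_mod_cast this)).symm
      have hc : 2 * Real.pi * ((i : ℕ) - (j : ℕ) : ℝ) * D ≠ 0 := by
        have := Real.pi_ne_zero
        have := hD.ne'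
        positivity
      rw [intervalIntegral.integral_comp_mul_left (fun x => Real.cos x) hc, integral_cos]
      have e1 : ∀ m : ℕ, Real.sin (2 * Real.pi * ((i : ℕ) - (j : ℕ) : ℝ) * D * ((m : ℝ) / D)) = 0 := by
        intro m
        have : 2 * Real.pi * ((i : ℕ) - (j : ℕ) : ℝ) * D * ((m : ℝ) / D) =
            ((2 * (((i : ℕ) : ℤ) - ((j : ℕ) : ℤ)) * (m : ℤ) : ℤ) : ℝ) * Real.pi := by
          push_cast
          field_simp
        rw [this]
        exact Real.sin_int_mul_pi _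
      rw [e1, e1]
      simp
    · intro h
      exact absurd (Finset.mem_univ i) h
  rw [Finset.sum_congr rfl fun i _ => h i]
  unfold n3
  rw [Finset.sum_div]

end Pool.Agent.T9h26.TD
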