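import Pool.Agent.T9h26.TD.Qc

set_option autoImplicit false

/-! Small balls: bounds for the variances of combinations of smoothed windows. -/

open Complex Filter Topology Set MeasureTheory

namespace Pool.Agent.T9h26.TD

/-- the weight of the window number `j`, multiplied by `s` -/
noncomputable def Fw {J : ℕ} (s b R y0 D : ℝ) (j : Fin J) (u : ℝ) : ℂ :=
  (s : ℂ) * ((Wn b R u : ℂ) * ee (y0 + (j : ℕ) * D) u)

lemma Fs_eq {J : ℕ} (s b R y0 D : ℝ) (σ : Fin J → Fin 3) (u : ℝ) :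
    Fs (Fw s b R y0 D) σ u = (s : ℂ) * (Wn b R u : ℂ) *
      ∑ j, (sg (σ j) : ℂ) * ee (y0 + (j : ℕ) * D) u := by
  unfold Fs Fw
  rw [Finset.mul_sum]
  apply Finset.sum_congr rfl
  intro j _
  ring

lemma BL.sum {ι : Type*} (S : Finset ι) {F : ι → ℝ → ℂ} (h : ∀ i ∈ S, BL (F i)) :
    BL fun x => ∑ i ∈ S, F i x := by
  classical
  induction S using Finset.induction_on with
  | empty => simpa using BL.const 0
  | insert a S ha ih =>
    simp_rw [Finset.sum_insert ha]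
    exact (h a (Finset.mem_insert_self _ _)).add (ih fun i hi => h i (Finset.mem_insert_of_mem hi))

lemma Fs_wz {J : ℕ} {s b R : ℝ} (y0 D : ℝ) (hb : 0 < b) (hb1 : b ≤ 1 / 2) (hR : 0 ≤ R)
    (σ : Fin J → Fin 3) : ∃ K, Wz (Fs (Fw s b R y0 D) σ) b K := by
  apply BL.wz _ hb hb1
  · intro ξ hξ
    rw [Fs_eq, Wn_zero hb hξ]
    simp
  · have e : Fs (Fw s b R y0 D) σ = fun u => (s : ℂ) * (Wn b R u : ℂ) *
      ∑ j, (sg (σ j) : ℂ) * ee (y0 + (j : ℕ) * D) u := by
      funext u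
      exact Fs_eq s b R y0 D σ u
    rw [e]
    exact ((BL.const _).mul (Wn_BL hb hb1 hR)).mul
      (BL.sum _ fun j _ => (BL.const _).mul (BL.ee _))

/-- the integrand -/
noncomputable def fV {J : ℕ} (b R D : ℝ) (σ : Fin J → Fin 3) (u : ℝ) : ℝ :=
  u * Wn b R u ^ 2 * Tq σ D u

lemma fV_cont {J : ℕ} {b R : ℝ} (D : ℝ) (hb : 0 < b) (hb1 : b ≤ 1 / 2) (hR : 0 ≤ R)
    (σ : Fin J → Fin 3) : Continuous (fV b R D σ) := by
  have h1 := Wn_cont hb hb1 hR
  have h2 := Tq_cont σ D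
  unfold fV
  fun_prop

lemma var_Fs {J : ℕ} (s b R y0 D : ℝ) (σ : Fin J → Fin 3) :
    var (nw (Fs (Fw s b R y0 D) σ)) = s ^ 2 * ∫ u in (0 : ℝ)..1, fV b R D σ u := by
  unfold var
  rw [← intervalIntegral.integral_const_mul]
  apply intervalIntegral.integral_congr
  intro u hu
  rw [uIcc_of_le zero_le_one] at hu
  simp only
  unfold nw fV
  rw [abs_of_nonneg hu.1, Fs_eq, norm_mul, norm_mul, mul_pow, mul_pow, norm_sum_ee,
    Complex.norm_real, Complex.norm_real, Real.norm_eq_abs, Real.norm_eq_abs, sq_abs, sq_abs]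
  ring

/-- the contributions of the periods -/
noncomputable def cV {J : ℕ} (b R D : ℝ) (σ : Fin J → Fin 3) (k : ℕ) : ℝ :=
  ∫ u in ((k : ℝ) / D)..(((k + 1 : ℕ) : ℝ) / D), fV b R D σ u

variable {J m : ℕ} {b R D : ℝ}

lemma int_fV (hb : 0 < b) (hb1 : b ≤ 1 / 2) (hR : 0 ≤ R) (hD : 0 < D) (hDb : b * D = 8 * m)
    (σ : Fin J → Fin 3) :
    ∫ u in (0 : ℝ)..1, fV b R D σ u = ∑ k ∈ Finset.range (8 * m), cV b R D σ k := by
  have hc := fV_cont D hb hb1 hR σ
  have h1 := intervalIntegral.sum_integral_adjacent_intervals (f := fV b R D σ) (μ := volume)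
    (a := fun k : ℕ => (k : ℝ) / D) (n := 8 * m) (fun k _ => hc.intervalIntegrable _ _)
  have h2 : ∫ u in (0 : ℝ)..1, fV b R D σ u = (∫ u in (0 : ℝ)..b, fV b R D σ u) +
      ∫ u in b..1, fV b R D σ u :=
    (intervalIntegral.integral_add_adjacent_intervals (hc.intervalIntegrable _ _)
      (hc.intervalIntegrable _ _)).symm
  have h3 : ∫ u in b..1, fV b R D σ u = 0 := by
    rw [intervalIntegral.integral_congr (g := fun _ => (0 : ℝ))]
    · simp
    · intro u hu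
      rw [uIcc_of_le (by linarith)] at hu
      simp only
      unfold fV
      rw [Wn_zero hb (by rw [abs_of_nonneg (by linarith [hu.1])]; exact hu.1)]
      ring
  rw [h2, h3, add_zero]
  have e0 : ((0 : ℕ) : ℝ) / D = 0 := by simp
  have e1 : ((8 * m : ℕ) : ℝ) / D = b := by
    rw [div_eq_iff hD.ne']
    push_cast
    linarith
  rw [e0, e1] at h1
  rw [← h1]
  rfl

lemma per_pt (hD : 0 < D) {k : ℕ} {u : ℝ} (hu : u ∈ Icc ((k : ℝ) / D) (((k + 1 : ℕ) : ℝ) / D)) :
    (k : ℝ) ≤ D * u ∧ D * u ≤ k + 1 := by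
  constructor
  · have := hu.1
    rw [div_le_iff₀ hD] at this
    linarith
  · have := hu.2
    rw [le_div_iff₀ hD] at this
    push_cast at this
    linarith

lemma per_le (hD : 0 < D) (k : ℕ) : (k : ℝ) / D ≤ ((k + 1 : ℕ) : ℝ) / D := by
  apply div_le_div_of_nonneg_right _ hD.le
  push_cast
  linarith

lemma cV_nonneg (hb : 0 < b) (hD : 0 < D) (σ : Fin J → Fin 3) (k : ℕ) :
    0 ≤ cV b R D σ k := by
  apply intervalIntegral.integral_nonneg (per_le hD k)
  intro u hu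
  have h1 := (per_pt hD hu).1
  have h2 : 0 ≤ u := by
    have : (0 : ℝ) ≤ k := Nat.cast_nonneg k
    by_contra hc
    push Not at hc
    nlinarith
  unfold fV
  exact mul_nonneg (mul_nonneg h2 (sq_nonneg _)) (Tq_nonneg σ D u)

lemma cV_zero (hb : 0 < b) (hb1 : b ≤ 1 / 2) (hR : 0 ≤ R) (hD : 0 < D) (hRD : R = D / 4)
    (σ : Fin J → Fin 3) : cV b R D σ 0 ≤ n3 σ / 4 := by
  have hc := fV_cont D hb hb1 hR σ
  have h1 : cV b R D σ 0 ≤ ∫ u in (((0 : ℕ) : ℝ) / D)..(((0 + 1 : ℕ) : ℝ) / D),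
      (D / 4) * Tq σ D u := by
    apply intervalIntegral.integral_mono_on (per_le hD 0) (hc.intervalIntegrable _ _)
      ((continuous_const.mul (Tq_cont σ D)).intervalIntegrable _ _)
    intro u hu
    obtain ⟨h2, h3⟩ := per_pt hD hu
    have h4 : 0 ≤ u := by
      by_contra hcc
      push Not at hcc
      simp at h2
      nlinarith
    unfold fV
    apply mul_le_mul_of_nonneg_right _ (Tq_nonneg σ D u)
    have h5 := Wn_sq_le (u := u) hb hR
    have h6 : u * Wn b R u ^ 2 ≤ u * (4 * R ^ 2) := mul_le_mul_of_nonneg_left h5 h4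
    rw [hRD] at h6 ⊢
    have h7 : D * u ≤ 1 := by simpa using h3
    nlinarith
  refine h1.trans (le_of_eq ?_)
  rw [intervalIntegral.integral_const_mul, Tq_int σ hD 0]
  field_simp

lemma cV_le (hb : 0 < b) (hb1 : b ≤ 1 / 2) (hR : 0 ≤ R) (hD : 0 < D) (σ : Fin J → Fin 3)
    {k : ℕ} (hk : 1 ≤ k) : cV b R D σ k ≤ n3 σ * (1 / 2 * (1 / k)) := by
  have hc := fV_cont D hb hb1 hR σ
  have hk0 : (0 : ℝ) < k := by exact_mod_cast hk
  have hp := Real.pi_pos
  have h1 : cV b R D σ k ≤ ∫ u in ((k : ℝ) / D)..(((k + 1 : ℕ) : ℝ) / D),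
      (D / (2 * k)) * Tq σ D u := by
    apply intervalIntegral.integral_mono_on (per_le hD k) (hc.intervalIntegrable _ _)
      ((continuous_const.mul (Tq_cont σ D)).intervalIntegrable _ _)
    intro u hu
    obtain ⟨h2, h3⟩ := per_pt hD hu
    have h4 : 0 < u := by
      by_contra hcc
      push Not at hcc
      nlinarith
    unfold fV
    apply mul_le_mul_of_nonneg_right _ (Tq_nonneg σ D u)
    refine (Wn_sq_le2 (R := R) hb h4).trans ?_
    rw [div_le_div_iff₀ (by positivity) (by positivity)]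
    have h5 : (9 : ℝ) ≤ Real.pi ^ 2 := by nlinarith [Real.pi_gt_three]
    have h6 : 0 ≤ D * u := by positivity
    nlinarith
  refine h1.trans (le_of_eq ?_)
  rw [intervalIntegral.integral_const_mul, Tq_int σ hD k]
  field_simp

lemma sin_half {l k : ℕ} (hk : k = 4 * l + 1 ∨ k = 4 * l + 2) (hD : 0 < D) (hRD : R = D / 4)
    {u : ℝ} (hu : u ∈ Icc ((k : ℝ) / D) (((k + 1 : ℕ) : ℝ) / D)) :
    1 / 2 ≤ Real.sin (Real.pi * R * u) ^ 2 := by
  obtain ⟨h2, h3⟩ := per_pt hD hu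
  have hp := Real.pi_pos
  rw [Real.sin_sq_eq_half_sub]
  have h4 : Real.cos (2 * (Real.pi * R * u)) ≤ 0 := by
    rw [← Real.cos_sub_nat_mul_two_pi _ l]
    have h5 : (4 * l + 1 : ℝ) ≤ D * u ∧ D * u ≤ 4 * l + 3 := by
      rcases hk with h | h
      · rw [h] at h2 h3
        push_cast at h2 h3
        exact ⟨h2, by linarith⟩
      · rw [h] at h2 h3
        push_cast at h2 h3
        exact ⟨by linarith, by linarith⟩
    have e : 2 * (Real.pi * R * u) - l * (2 * Real.pi) = Real.pi / 2 * (D * u - 4 * l) := by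
      rw [hRD]; ring
    rw [e]
    apply Real.cos_nonpos_of_pi_div_two_le_of_le
    · nlinarith [h5.1]
    · nlinarith [h5.2]
  linarith

lemma cV_ge (hb : 0 < b) (hb1 : b ≤ 1 / 2) (hR : 0 ≤ R) (hD : 0 < D) (hRD : R = D / 4)
    (hDb : b * D = 8 * m) (σ : Fin J → Fin 3) {l k : ℕ} (hk : k = 4 * l + 1 ∨ k = 4 * l + 2)
    (hkm : k + 1 ≤ 4 * m) : n3 σ * (1 / 20 * (1 / (k + 1))) ≤ cV b R D σ k := by
  have hc := fV_cont D hb hb1 hR σ
  have hp := Real.pi_pos
  have h1 : ∫ u in ((k : ℝ) / D)..(((k + 1 : ℕ) : ℝ) / D),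
      (D / (20 * (k + 1))) * Tq σ D u ≤ cV b R D σ k := by
    apply intervalIntegral.integral_mono_on (per_le hD k)
      ((continuous_const.mul (Tq_cont σ D)).intervalIntegrable _ _) (hc.intervalIntegrable _ _)
    intro u hu
    obtain ⟨h2, h3⟩ := per_pt hD hu
    have hk1 : (1 : ℝ) ≤ k := by
      rcases hk with h | h <;> · rw [h]; push_cast; linarith [(Nat.cast_nonneg l : (0 : ℝ) ≤ l)]
    have h4 : 0 < u := by
      by_contra hcc
      push Not at hcc
      nlinarith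
    have h5 : u ≤ b / 2 := by
      have h6 : ((k : ℝ) + 1) ≤ 4 * m := by exact_mod_cast hkm
      have h7 : D * u ≤ D * (b / 2) := by nlinarith
      exact le_of_mul_le_mul_left h7 hD
    unfold fV
    apply mul_le_mul_of_nonneg_right _ (Tq_nonneg σ D u)
    refine le_trans ?_ (Wn_sq_ge hb h4 h5 (sin_half hk hD hRD hu))
    rw [div_le_div_iff₀ (by positivity) (by positivity)]
    have h8 : Real.pi ^ 2 ≤ 10 := by nlinarith [Real.pi_lt_d2, Real.pi_gt_three]
    have h9 : 0 ≤ D * u := by positivity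
    nlinarith
  refine le_trans (le_of_eq ?_) h1
  rw [intervalIntegral.integral_const_mul, Tq_int σ hD k]
  field_simp

lemma sum_four {c : ℕ → ℝ} (m : ℕ) : ∑ k ∈ Finset.range (4 * m), c k =
    ∑ l ∈ Finset.range m, (c (4 * l) + c (4 * l + 1) + c (4 * l + 2) + c (4 * l + 3)) := by
  induction m with
  | zero => simp
  | succ m ih =>
    rw [Finset.sum_range_succ, ← ih, show 4 * (m + 1) = 4 * m + 1 + 1 + 1 + 1 by ring,
      Finset.sum_range_succ, Finset.sum_range_succ, Finset.sum_range_succ, Finset.sum_range_succ]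
    ring

/-- lower bound for the variance -/
theorem var_ge (hb : 0 < b) (hb1 : b ≤ 1 / 2) (hR : 0 ≤ R) (hD : 0 < D) (hRD : R = D / 4)
    (hDb : b * D = 8 * m) (s y0 : ℝ) (σ : Fin J → Fin 3) :
    s ^ 2 * (n3 σ * (1 / 40 * Real.log (m + 1))) ≤ var (nw (Fs (Fw s b R y0 D) σ)) := by
  rw [var_Fs, int_fV hb hb1 hR hD hDb]
  apply mul_le_mul_of_nonneg_left _ (sq_nonneg s)
  have h1 : ∑ k ∈ Finset.range (4 * m), cV b R D σ k ≤ ∑ k ∈ Finset.range (8 * m), cV b R D σ k :=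
    Finset.sum_le_sum_of_subset_of_nonneg (Finset.range_mono (by omega))
      fun k _ _ => cV_nonneg hb hD σ k
  refine le_trans ?_ h1
  rw [sum_four]
  have h2 : ∀ l ∈ Finset.range m, n3 σ * (1 / 40 * (1 / (l + 1))) ≤
      cV b R D σ (4 * l) + cV b R D σ (4 * l + 1) + cV b R D σ (4 * l + 2) +
        cV b R D σ (4 * l + 3) := by
    intro l hl
    rw [Finset.mem_range] at hl
    have a0 := cV_nonneg (R := R) hb hD σ (4 * l)
    have a1 := cV_ge hb hb1 hR hD hRD hDb σ (k := 4 * l + 1) (Or.inl rfl) (by omega)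
    have a2 := cV_ge hb hb1 hR hD hRD hDb σ (k := 4 * l + 2) (Or.inr rfl) (by omega)
    have a3 := cV_nonneg (R := R) hb hD σ (4 * l + 3)
    have hn := n3_nonneg σ
    have hl0 : (0 : ℝ) ≤ l := Nat.cast_nonneg l
    have e1 : 1 / 4 * (1 / ((l : ℝ) + 1)) ≤ 1 / (((4 * l + 1 : ℕ) : ℝ) + 1) := by
      push_cast
      rw [show (1 : ℝ) / 4 * (1 / ((l : ℝ) + 1)) = 1 / (4 * (l + 1)) by field_simp]
      apply one_div_le_one_div_of_le (by positivity)
      linarith
    have e2 : 1 / 4 * (1 / ((l : ℝ) + 1)) ≤ 1 / (((4 * l + 2 : ℕ) : ℝ) + 1) := by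
      push_cast
      rw [show (1 : ℝ) / 4 * (1 / ((l : ℝ) + 1)) = 1 / (4 * (l + 1)) by field_simp]
      apply one_div_le_one_div_of_le (by positivity)
      linarith
    have e3 : n3 σ * (1 / 20 * (1 / 4 * (1 / ((l : ℝ) + 1)))) ≤
        n3 σ * (1 / 20 * (1 / (((4 * l + 1 : ℕ) : ℝ) + 1))) := by
      apply mul_le_mul_of_nonneg_left _ hn
      linarith
    have e4 : n3 σ * (1 / 20 * (1 / 4 * (1 / ((l : ℝ) + 1)))) ≤
        n3 σ * (1 / 20 * (1 / (((4 * l + 2 : ℕ) : ℝ) + 1))) := by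
      apply mul_le_mul_of_nonneg_left _ hn
      linarith
    have e5 : n3 σ * (1 / 40 * (1 / ((l : ℝ) + 1))) = n3 σ * (1 / 20 * (1 / 4 * (1 / ((l : ℝ) + 1)))) +
        n3 σ * (1 / 20 * (1 / 4 * (1 / ((l : ℝ) + 1)))) := by ring
    linarith
  refine le_trans ?_ (Finset.sum_le_sum h2)
  rw [← Finset.mul_sum, ← Finset.mul_sum]
  apply mul_le_mul_of_nonneg_left _ (n3_nonneg σ)
  apply mul_le_mul_of_nonneg_left _ (by norm_num)
  have h3 := log_add_one_le_harmonic m
  unfold harmonic at h3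
  push_cast at h3
  simp_rw [one_div]
  exact h3

/-- upper bound for the variance -/
theorem var_le (hm : 1 ≤ m) (hb : 0 < b) (hb1 : b ≤ 1 / 2) (hR : 0 ≤ R) (hD : 0 < D)
    (hRD : R = D / 4) (hDb : b * D = 8 * m) (s y0 : ℝ) (σ : Fin J → Fin 3) :
    var (nw (Fs (Fw s b R y0 D) σ)) ≤ s ^ 2 * (n3 σ * (2 + Real.log (m + 1))) := by
  rw [var_Fs, int_fV hb hb1 hR hD hDb]
  apply mul_le_mul_of_nonneg_left _ (sq_nonneg s)
  obtain ⟨q, hq⟩ : ∃ q, 8 * m = q + 1 := ⟨8 * m - 1, by omega⟩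
  rw [hq, Finset.sum_range_succ']
  have h1 : ∑ k ∈ Finset.range q, cV b R D σ (k + 1) ≤
      ∑ k ∈ Finset.range q, n3 σ * (1 / 2 * (1 / ((k : ℝ) + 1))) := by
    apply Finset.sum_le_sum
    intro k _
    have := cV_le hb hb1 hR hD σ (k := k + 1) (by omega)
    push_cast at this
    exact this
  have h2 : ∑ k ∈ Finset.range q, n3 σ * (1 / 2 * (1 / ((k : ℝ) + 1))) ≤
      n3 σ * (1 / 2 * (1 + Real.log q)) := by
    rw [← Finset.mul_sum, ← Finset.mul_sum]
    apply mul_le_mul_of_nonneg_left _ (n3_nonneg σ)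
    apply mul_le_mul_of_nonneg_left _ (by norm_num)
    have h3 := harmonic_le_one_add_log q
    unfold harmonic at h3
    push_cast at h3
    simp_rw [one_div]
    exact h3
  have h3 := cV_zero hb hb1 hR hD hRD σ
  have h4 : Real.log q ≤ 2.1 + Real.log (m + 1) := by
    have hq0 : (0 : ℝ) < q := by
      have : 1 ≤ q := by omega
      exact_mod_cast this
    have hqm : (q : ℝ) ≤ 8 * (m + 1) := by
      have : q ≤ 8 * (m + 1) := by omega
      exact_mod_cast this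
    have h5 := Real.log_le_log hq0 hqm
    have hm0 : (0 : ℝ) < (m : ℝ) + 1 := by positivity
    rw [Real.log_mul (by norm_num) hm0.ne'] at h5
    have h6 : Real.log 8 ≤ 2.1 := by
      rw [show (8 : ℝ) = 2 ^ 3 by norm_num, Real.log_pow]
      have := Real.log_two_lt_d9
      push_cast
      linarith
    linarith
  have hn := n3_nonneg σ
  have h5 : n3 σ * (1 / 2 * (1 + Real.log q)) ≤ n3 σ * (1 / 2 * (1 + (2.1 + Real.log (m + 1)))) := by
    apply mul_le_mul_of_nonneg_left _ hn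
    linarith
  have hl : 0 ≤ Real.log ((m : ℝ) + 1) := Real.log_nonneg (by
    have : (0 : ℝ) ≤ m := Nat.cast_nonneg m
    linarith)
  have h6 : 0 ≤ n3 σ * Real.log ((m : ℝ) + 1) := mul_nonneg hn hl
  linarith

end Pool.Agent.T9h26.TD
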