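import Pool.Agent.T9h26.TD.Qc

set_option autoImplicit false

/-! Small balls: the smoothed windows and Poisson kernels. -/

open Complex Filter Topology Set MeasureTheory

namespace Pool.Agent.T9h26.TD

/-- the Fejér kernel of bandwidth `b`, total mass `1 / 2` -/
noncomputable def tb (b x : ℝ) : ℝ := ph (sc Gt b) (2 * Real.pi * x)

variable {b R : ℝ}

lemma tb_nonneg (hb : 0 < b) (hb1 : b ≤ 1 / 2) (x : ℝ) : 0 ≤ tb b x := ph_tri_nonneg hb hb1 _

lemma tb_eq (hb : 0 < b) (hb1 : b ≤ 1 / 2) {x : ℝ} (hx : x ≠ 0) :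
    tb b x = b * ((1 - Real.cos (2 * Real.pi * (b * x))) / (2 * Real.pi * (b * x)) ^ 2) := by
  unfold tb
  rw [ph_sc Gt_contDiff.continuous Gt_one hb hb1]
  have hp := Real.pi_ne_zero
  have h : b * (2 * Real.pi * x) ≠ 0 := by positivity
  have := int_tri h
  have e : ∀ s : ℝ, Gt s * Real.cos (s * (b * (2 * Real.pi * x))) =
      (1 - s) * Real.cos (b * (2 * Real.pi * x) * s) := by
    intro s
    unfold Gt
    congr 2
    ring
  simp_rw [e]
  rw [this]
  rw [show b * (2 * Real.pi * x) = 2 * Real.pi * (b * x) by ring]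

lemma tb_zero (hb : 0 < b) (hb1 : b ≤ 1 / 2) : tb b 0 = b / 2 := by
  unfold tb
  rw [ph_sc Gt_contDiff.continuous Gt_one hb hb1]
  have e : ∀ s : ℝ, Gt s * Real.cos (s * (b * (2 * Real.pi * 0))) = 1 - s := by
    intro s
    unfold Gt
    simp
  simp_rw [e]
  rw [intervalIntegral.integral_sub (by simp) (by simp)]
  simp
  ring

lemma tb_le_half (hb : 0 < b) (hb1 : b ≤ 1 / 2) (x : ℝ) : tb b x ≤ b / 2 := by
  rcases eq_or_ne x 0 with h | h
  · rw [h, tb_zero hb hb1]
  · rw [tb_eq hb hb1 h]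
    have hp := Real.pi_pos
    have h1 : (0 : ℝ) < (2 * Real.pi * (b * x)) ^ 2 := by positivity
    have h2 := Real.one_sub_sq_div_two_le_cos (x := 2 * Real.pi * (b * x))
    have h3 : (1 - Real.cos (2 * Real.pi * (b * x))) / (2 * Real.pi * (b * x)) ^ 2 ≤ 1 / 2 := by
      rw [div_le_iff₀ h1]
      linarith
    nlinarith

lemma tb_le_tail (hb : 0 < b) (hb1 : b ≤ 1 / 2) {x : ℝ} (hx : x ≠ 0) :
    tb b x ≤ 1 / (18 * b * x ^ 2) := by
  rw [tb_eq hb hb1 hx]
  have hp := Real.pi_pos
  have h2 := Real.neg_one_le_cos (2 * Real.pi * (b * x))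
  have h3 : b * ((1 - Real.cos (2 * Real.pi * (b * x))) / (2 * Real.pi * (b * x)) ^ 2) =
      (1 - Real.cos (2 * Real.pi * (b * x))) / (4 * Real.pi ^ 2 * b * x ^ 2) := by
    field_simp
    ring
  rw [h3, div_le_div_iff₀ (by positivity) (by positivity)]
  have h4 : (9 : ℝ) ≤ Real.pi ^ 2 := by nlinarith [Real.pi_gt_three]
  have h5 : 0 < b * x ^ 2 := by positivity
  have h6 : (1 - Real.cos (2 * Real.pi * (b * x))) * (18 * b * x ^ 2) ≤ 2 * (18 * b * x ^ 2) := by
    apply mul_le_mul_of_nonneg_right _ (by positivity)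
    linarith
  nlinarith

/-- the Poisson kernel -/
noncomputable def pk (b x : ℝ) : ℝ := b / (1 + (b * x) ^ 2)

lemma pk_nonneg (hb : 0 < b) (x : ℝ) : 0 ≤ pk b x := by unfold pk; positivity

lemma tb_le_pk (hb : 0 < b) (hb1 : b ≤ 1 / 2) (x : ℝ) : tb b x ≤ pk b x := by
  unfold pk
  rcases le_total ((b * x) ^ 2) 1 with h | h
  · refine (tb_le_half hb hb1 x).trans ?_
    rw [div_le_div_iff₀ (by norm_num) (by positivity)]
    nlinarith
  · have hx : x ≠ 0 := by
      rintro rfl
      norm_num at h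
    refine (tb_le_tail hb hb1 hx).trans ?_
    rw [div_le_div_iff₀ (by positivity) (by positivity)]
    nlinarith

/-- the Poisson kernel is bounded by two Fejér kernels -/
lemma pk_le_tb (hb : 0 < b) (hb1 : b ≤ 1 / 2) (x : ℝ) :
    pk b x ≤ 40 * (tb b x + tb b (x - 1 / (2 * b))) := by
  have hp := Real.pi_pos
  rcases eq_or_ne x 0 with h | h
  · rw [h, tb_zero hb hb1]
    have := tb_nonneg hb hb1 (0 - 1 / (2 * b))
    unfold pk
    rw [div_le_iff₀ (by positivity)]
    nlinarith
  rcases eq_or_ne (x - 1 / (2 * b)) 0 with h' | h'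
  · rw [h', tb_zero hb hb1]
    have := tb_nonneg hb hb1 x
    unfold pk
    rw [div_le_iff₀ (by positivity)]
    have h2 : 0 ≤ (b * x) ^ 2 := by positivity
    nlinarith
  · rw [tb_eq hb hb1 h, tb_eq hb hb1 h']
    set v := b * x with hv
    have hv0 : v ≠ 0 := by rw [hv]; positivity
    have e1 : b * (x - 1 / (2 * b)) = v - 1 / 2 := by
      rw [hv]; field_simp
    have hv1 : v - 1 / 2 ≠ 0 := by
      rw [← e1]; positivity
    rw [e1]
    have e2 : Real.cos (2 * Real.pi * (v - 1 / 2)) = -Real.cos (2 * Real.pi * v) := by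
      rw [show 2 * Real.pi * (v - 1 / 2) = 2 * Real.pi * v - Real.pi by ring, Real.cos_sub_pi]
    rw [e2]
    set c := Real.cos (2 * Real.pi * v) with hc
    have hc1 : c ≤ 1 := Real.cos_le_one _
    have hc2 : -1 ≤ c := Real.neg_one_le_cos _
    unfold pk
    rw [← hv]
    have k1 : (1 - c) / (40 * (1 + v ^ 2) * 2) ≤ (1 - c) / (2 * Real.pi * v) ^ 2 := by
      apply div_le_div_of_nonneg_left (by linarith) (by positivity)
      have : Real.pi ^ 2 ≤ 10 := by nlinarith [Real.pi_lt_d2, Real.pi_gt_three]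
      nlinarith [sq_nonneg v]
    have k2 : (1 - -c) / (40 * (1 + v ^ 2) * 2) ≤ (1 - -c) / (2 * Real.pi * (v - 1 / 2)) ^ 2 := by
      apply div_le_div_of_nonneg_left (by linarith) (by positivity)
      have h8 : Real.pi ^ 2 ≤ 10 := by nlinarith [Real.pi_lt_d2, Real.pi_gt_three]
      have h9 : (v - 1 / 2) ^ 2 ≤ 2 * (1 + v ^ 2) := by nlinarith [sq_nonneg (v + 1 / 2)]
      nlinarith [sq_nonneg (v - 1 / 2)]
    have k3 : b / (1 + v ^ 2) = 40 * (b * ((1 - c) / (40 * (1 + v ^ 2) * 2)) +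
        b * ((1 - -c) / (40 * (1 + v ^ 2) * 2))) := by
      field_simp
      ring
    rw [k3]
    have k4 := mul_le_mul_of_nonneg_left k1 hb.le
    have k5 := mul_le_mul_of_nonneg_left k2 hb.le
    linarith

/-- the Poisson kernel at neighbouring points -/
lemma pk_near (hb : 0 < b) {x y κ : ℝ} (hκ : b * κ ≤ 1) (hκ0 : 0 ≤ κ) (h : |x - y| ≤ κ) :
    pk b x ≤ 4 * pk b y := by
  unfold pk
  rw [← mul_div_assoc, div_le_div_iff₀ (by positivity) (by positivity)]
  have h1 : |b * x - b * y| ≤ 1 := by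
    rw [← mul_sub, abs_mul, abs_of_pos hb]
    calc b * |x - y| ≤ b * κ := mul_le_mul_of_nonneg_left h hb.le
      _ ≤ 1 := hκ
  have h2 : (b * y) ^ 2 ≤ 2 * (b * x) ^ 2 + 2 := by
    have h3 : (b * x - b * y) ^ 2 ≤ 1 := by
      rw [← sq_abs]
      nlinarith [abs_nonneg (b * x - b * y)]
    nlinarith [sq_nonneg (2 * (b * x) - b * y)]
  nlinarith

lemma tb_cont (b : ℝ) (hb : 0 < b) (hb1 : b ≤ 1 / 2) : Continuous (tb b) := by
  have h : tb b = fun x => b * ∫ s in (0 : ℝ)..1, Gt s * Real.cos (s * (b * (2 * Real.pi * x))) := by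
    funext x
    unfold tb
    rw [ph_sc Gt_contDiff.continuous Gt_one hb hb1]
  rw [h]
  apply continuous_const.mul
  apply intervalIntegral.continuous_parametric_intervalIntegral_of_continuous'
  unfold Gt Function.uncurry
  fun_prop

/-- the smoothed window -/
noncomputable def Fk (b R x : ℝ) : ℝ := ph (Wn b R) (2 * Real.pi * x)

/-- the smoothed window as an average of kernels -/
lemma Fk_eq (hb : 0 < b) (hb1 : b ≤ 1 / 2) (x : ℝ) :
    Fk b R x = 2 * ∫ z in (-(R / 2))..(R / 2), tb b (x - z) := by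
  obtain ⟨K, hK⟩ := sc_wt Gt_contDiff Gt_one hb hb1
  have hsc := hK.cont
  unfold Fk ph Wn
  have e1 : ∀ ξ : ℝ, 2 * (sc Gt b ξ * DR R ξ) * Real.cos (ξ * (2 * Real.pi * x)) =
      2 * ∫ z in (-(R / 2))..(R / 2), sc Gt b ξ * Real.cos (ξ * (2 * Real.pi * (x - z))) := by
    intro ξ
    rw [intervalIntegral.integral_const_mul]
    have h1 : DR R ξ * Real.cos (ξ * (2 * Real.pi * x)) =
        ∫ z in (-(R / 2))..(R / 2), Real.cos (ξ * (2 * Real.pi * (x - z))) := by
      unfold DR
      rw [← intervalIntegral.integral_mul_const]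
      have h2 : ∀ z : ℝ, Real.cos (2 * Real.pi * ξ * z) * Real.cos (ξ * (2 * Real.pi * x)) =
          (Real.cos (ξ * (2 * Real.pi * (x - z))) + Real.cos (ξ * (2 * Real.pi * (x + z)))) / 2 := by
        intro z
        have e : ξ * (2 * Real.pi * (x - z)) = ξ * (2 * Real.pi * x) - 2 * Real.pi * ξ * z := by ring
        have e' : ξ * (2 * Real.pi * (x + z)) = ξ * (2 * Real.pi * x) + 2 * Real.pi * ξ * z := by ring
        rw [e, e', Real.cos_sub, Real.cos_add]
        ring
      simp_rw [h2]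
      rw [intervalIntegral.integral_div, intervalIntegral.integral_add
        (Continuous.intervalIntegrable (by fun_prop) _ _)
        (Continuous.intervalIntegrable (by fun_prop) _ _)]
      have h3 : ∫ z in (-(R / 2))..(R / 2), Real.cos (ξ * (2 * Real.pi * (x + z))) =
          ∫ z in (-(R / 2))..(R / 2), Real.cos (ξ * (2 * Real.pi * (x - z))) := by
        have h4 := intervalIntegral.integral_comp_neg (a := -(R / 2)) (b := R / 2)
          (fun z => Real.cos (ξ * (2 * Real.pi * (x - z))))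
        rw [neg_neg] at h4
        rw [← h4]
        apply intervalIntegral.integral_congr
        intro z _
        simp only
        rw [sub_neg_eq_add]
      rw [h3]
      ring
    rw [← h1]
    ring
  simp_rw [e1]
  rw [intervalIntegral.integral_const_mul, intervalIntegral_intervalIntegral_swap]
  · rfl
  · apply ContinuousOn.integrableOn_of_subset_isCompact
      (K := uIcc (0 : ℝ) 1 ×ˢ uIcc (-(R / 2)) (R / 2))
    · apply Continuous.continuousOn
      have e : (Function.uncurry fun ξ z => sc Gt b ξ * Real.cos (ξ * (2 * Real.pi * (x - z)))) =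
          fun p : ℝ × ℝ => sc Gt b p.1 * Real.cos (p.1 * (2 * Real.pi * (x - p.2))) := by
        ext p
        rfl
      rw [e]
      fun_prop
    · exact isCompact_uIcc.prod isCompact_uIcc
    · exact measurableSet_uIoc.prod measurableSet_uIoc
    · exact Set.prod_mono uIoc_subset_uIcc uIoc_subset_uIcc
    · exact ((measure_mono (Set.prod_mono uIoc_subset_uIcc uIoc_subset_uIcc)).trans_lt
        (isCompact_uIcc.prod isCompact_uIcc).measure_lt_top).ne

lemma Fk_nonneg (hb : 0 < b) (hb1 : b ≤ 1 / 2) (hR : 0 ≤ R) (x : ℝ) : 0 ≤ Fk b R x := by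
  rw [Fk_eq hb hb1]
  apply mul_nonneg (by norm_num)
  exact intervalIntegral.integral_nonneg (by linarith) fun z _ => tb_nonneg hb hb1 _

lemma Fk_le (hb : 0 < b) (hb1 : b ≤ 1 / 2) (hR : 0 ≤ R) (x : ℝ) : Fk b R x ≤ R * b := by
  rw [Fk_eq hb hb1]
  have hc := tb_cont b hb hb1
  have h1 : ∫ z in (-(R / 2))..(R / 2), tb b (x - z) ≤ ∫ _z in (-(R / 2))..(R / 2), b / 2 :=
    intervalIntegral.integral_mono_on (by linarith)
      (Continuous.intervalIntegrable (by fun_prop) _ _) (by simp)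
      fun z _ => tb_le_half hb hb1 _
  rw [intervalIntegral.integral_const, smul_eq_mul] at h1
  linarith

lemma Fk_tail (hb : 0 < b) (hb1 : b ≤ 1 / 2) (hR : 0 < R) {x : ℝ} (hx : R ≤ |x|) :
    Fk b R x ≤ R / (b * x ^ 2) := by
  rw [Fk_eq hb hb1]
  have hc := tb_cont b hb hb1
  have hx0 : 0 < |x| := by linarith
  have hx2 : 0 < x ^ 2 := by rw [← sq_abs]; positivity
  have h1 : ∫ z in (-(R / 2))..(R / 2), tb b (x - z) ≤
      ∫ _z in (-(R / 2))..(R / 2), 1 / (4 * b * x ^ 2) := by
    apply intervalIntegral.integral_mono_on (by linarith)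
      (Continuous.intervalIntegrable (by fun_prop) _ _) (by simp)
    intro z hz
    have h2 : |x| / 2 ≤ |x - z| := by
      have h3 : |z| ≤ R / 2 := abs_le.2 ⟨hz.1, hz.2⟩
      have h4 := abs_sub_abs_le_abs_sub x z
      linarith
    have h5 : x - z ≠ 0 := by
      intro h0
      rw [h0, abs_zero] at h2
      linarith
    refine (tb_le_tail hb hb1 h5).trans ?_
    have h6 : x ^ 2 / 4 ≤ (x - z) ^ 2 := by
      rw [← sq_abs x, ← sq_abs (x - z)]
      nlinarith
    apply one_div_le_one_div_of_le (by positivity)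
    nlinarith
  rw [intervalIntegral.integral_const, smul_eq_mul] at h1
  have h7 : (R / 2 - -(R / 2)) * (1 / (4 * b * x ^ 2)) = R / (b * x ^ 2) / 4 := by
    field_simp
    ring
  rw [h7] at h1
  have h8 : 0 < R / (b * x ^ 2) := by positivity
  linarith

/-- integral of the kernel over a short interval -/
lemma tb_short (hb : 0 < b) (hb1 : b ≤ 1 / 2) {p a κ : ℝ} (hκ : b * κ ≤ 1) (h : |p - a| ≤ κ) :
    |∫ z in a..p, tb b z| ≤ 4 * κ * pk b p := by
  have hκ0 : 0 ≤ κ := (abs_nonneg _).trans h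
  have h1 := intervalIntegral.norm_integral_le_of_norm_le_const (a := a) (b := p)
    (f := fun z => tb b z) (C := 4 * pk b p) (fun z hz => by
      rw [Real.norm_of_nonneg (tb_nonneg hb hb1 z)]
      refine (tb_le_pk hb hb1 z).trans (pk_near hb hκ hκ0 ?_)
      have hz2 := uIoc_subset_uIcc hz
      have h3 := Set.abs_sub_right_of_mem_uIcc hz2
      rw [abs_sub_comm]
      linarith)
  rw [Real.norm_eq_abs] at h1
  refine h1.trans ?_
  have := pk_nonneg hb p
  nlinarith

/-- the smoothed window at neighbouring points -/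
lemma Fk_near (hb : 0 < b) (hb1 : b ≤ 1 / 2) {p a κ : ℝ} (hκ : b * κ ≤ 1) (h : |p - a| ≤ κ) :
    |Fk b R p - Fk b R a| ≤ 8 * κ * (pk b (p + R / 2) + pk b (p - R / 2)) := by
  have hc := tb_cont b hb hb1
  have hi : ∀ u v : ℝ, IntervalIntegrable (tb b) volume u v := fun u v => hc.intervalIntegrable _ _
  have e : ∀ x : ℝ, ∫ z in (-(R / 2))..(R / 2), tb b (x - z) = ∫ z in (x - R / 2)..(x + R / 2), tb b z := by
    intro x
    rw [intervalIntegral.integral_comp_sub_left (fun z => tb b z) x]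
    rw [sub_neg_eq_add]
  rw [Fk_eq hb hb1, Fk_eq hb hb1, e, e]
  have h1 : (∫ z in (p - R / 2)..(p + R / 2), tb b z) - (∫ z in (a - R / 2)..(a + R / 2), tb b z) =
      (∫ z in (a + R / 2)..(p + R / 2), tb b z) - ∫ z in (a - R / 2)..(p - R / 2), tb b z := by
    have h2 := intervalIntegral.integral_add_adjacent_intervals (hi (a - R / 2) (a + R / 2))
      (hi (a + R / 2) (p + R / 2))
    have h3 := intervalIntegral.integral_add_adjacent_intervals (hi (a - R / 2) (p - R / 2))
      (hi (p - R / 2) (p + R / 2))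
    linarith
  rw [← mul_sub, h1, abs_mul, abs_two]
  have h4 := tb_short hb hb1 (p := p + R / 2) (a := a + R / 2) hκ (by
    rw [add_sub_add_right_eq_sub]; exact h)
  have h5 := tb_short hb hb1 (p := p - R / 2) (a := a - R / 2) hκ (by
    rw [sub_sub_sub_cancel_right]; exact h)
  have h6 := abs_sub (∫ z in (a + R / 2)..(p + R / 2), tb b z)
    (∫ z in (a - R / 2)..(p - R / 2), tb b z)
  linarith

end Pool.Agent.T9h26.TD
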