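import Pool.Agent.T9h26.TD.Zi
import Pool.Agent.T9h26.TD.Mz

set_option autoImplicit false

/-! From good base points to indices. -/

open Complex Filter Topology Set MeasureTheory

namespace Pool.Agent.T9h26.TD

open TC (ordz ordT mu EFD)
open SG (ord NZ zmult ZS)
open W200.HW (Ix mem_Ix)
open Pool.Agent.Y747 (al dl Bx mem_Bx)

/-- the position of the `m`-th ordinate -/
noncomputable def pos (b L : ℝ) (m : ℕ) : ℝ := (ord m - b) * L / (2 * Real.pi)

lemma pos_le {b L : ℝ} (hL : 0 < L) {m : ℕ} {c : ℝ} :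
    pos b L m ≤ c ↔ ord m ≤ b + 2 * Real.pi * c / L := by
  have hpi := Real.pi_pos
  unfold pos
  rw [div_le_iff₀ (by positivity), ← sub_le_iff_le_add', le_div_iff₀ hL]
  constructor <;> intro h <;> linarith

lemma le_pos {b L : ℝ} (hL : 0 < L) {m : ℕ} {c : ℝ} :
    c ≤ pos b L m ↔ b + 2 * Real.pi * c / L ≤ ord m := by
  have hpi := Real.pi_pos
  unfold pos
  rw [le_div_iff₀ (by positivity), ← le_sub_iff_add_le', div_le_iff₀ hL]
  constructor <;> intro h <;> linarith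

lemma pos_lt {b L : ℝ} (hL : 0 < L) {m : ℕ} {c : ℝ} :
    pos b L m < c ↔ ord m < b + 2 * Real.pi * c / L := by
  rw [← not_le, ← not_le, le_pos hL]

lemma pos_sub {b L : ℝ} (m m' : ℕ) :
    pos b L m' - pos b L m = (ord m' - ord m) / (2 * Real.pi) * L := by
  unfold pos
  ring

/-- a good base point -/
def GT (ε ℓ : ℝ) (M : ℕ) (T U1 U2 t : ℝ) (F : ℕ → ℝ) : Prop :=
  (∀ c ≤ 20 * M, |F c| ≤ (1 + ε) / Real.pi * ℓ) ∧ |F 0| ≤ ε * ℓ ∧
  (∀ σ : ℝ, |σ| = 1 → ∀ c0 : ℕ, c0 = 0 ∨ c0 = 2 * M → ∃ c : ℕ, c0 ≤ c ∧ c ≤ c0 + M ∧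
    (1 - 7 * ε) / Real.pi * ℓ ≤ σ * F c) ∧
  ∀ c' c : ℕ, c ≤ 20 * M → (c' : ℝ) + 2 * ε * ℓ ≤ c →
    ((c : ℝ) - c') + (F c - F c') - 4 * ε * ℓ ≤
      (cO U1 U2 (t + Real.pi * (c + c') / Real.log T)
        (Real.pi * (c - c') / Real.log T) : ℝ) ∧
    (cC U1 U2 (t + Real.pi * (c + c') / Real.log T)
        (Real.pi * (c - c') / Real.log T) : ℝ) ≤
      ((c : ℝ) - c') + (F c - F c') + 4 * ε * ℓ

lemma wd_of {ε ℓ : ℝ} {M : ℕ} {T U1 U2 t : ℝ} {F : ℕ → ℝ} (h : GT ε ℓ M T U1 U2 t F)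
    (hL : 0 < Real.log T) {n : ℕ} (hn : 1 ≤ n) (hU1 : U1 < ord n)
    (hU2 : t + 2 * Real.pi * (20 * M) / Real.log T ≤ U2) :
    WD (fun i => pos t (Real.log T) (n + i)) F (ε * ℓ) (20 * M) := by
  have hpi := Real.pi_pos
  obtain ⟨-, -, -, hw⟩ := h
  constructor
  · intro c' c hc hcc i r h1 h2
    obtain ⟨w1, -⟩ := hw c' c hc (by linarith)
    rw [pos_le hL] at h1
    show pos t (Real.log T) (n + (i + 1 + r)) < c
    rw [pos_lt hL, show n + (i + 1 + r) = (n + i) + 1 + r by ring]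
    have e1 : t + Real.pi * (c + c') / Real.log T =
        (t + 2 * Real.pi * c' / Real.log T) + Real.pi * (c - c') / Real.log T := by ring
    rw [e1] at w1
    have h3 : (r : ℝ) + 1 ≤ (cO U1 U2 ((t + 2 * Real.pi * c' / Real.log T) +
        Real.pi * (c - c') / Real.log T) (Real.pi * (c - c') / Real.log T) : ℝ) := by linarith
    have h4 := minus_core (r := r) (U1 := U1) (U2 := U2) (ρ := Real.pi * (c - c') / Real.log T)
      (show 1 ≤ n + i by omega) h1 (by exact_mod_cast h3)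
    refine lt_of_lt_of_le h4 (le_of_eq ?_)
    ring
  · intro c' c hc hcc i m h1 h2
    obtain ⟨-, w2⟩ := hw c' c hc (by linarith)
    rw [le_pos hL] at h1
    have h2' : pos t (Real.log T) (n + (i + m)) ≤ c := h2
    rw [pos_le hL, show n + (i + m) = (n + i) + m by ring] at h2'
    have hcr : (c : ℝ) ≤ 20 * M := by exact_mod_cast hc
    have h3 := cC_ge2 (m := m) (n := n + i) (by omega) (U1 := U1) (U2 := U2)
      (t := t + Real.pi * (c + c') / Real.log T) (ρ := Real.pi * (c - c') / Real.log T)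
      (by
        refine le_trans (le_of_eq ?_) h1
        ring) (by
        refine le_trans h2' (le_of_eq ?_)
        ring) (lt_of_lt_of_le hU1 (SG.ord_mono hn (by omega))) (by
        refine le_trans h2' (le_trans ?_ hU2)
        gcongr)
    have h4 : (m : ℝ) + 1 ≤ (cC U1 U2 (t + Real.pi * (c + c') / Real.log T)
      (Real.pi * (c - c') / Real.log T) : ℝ) := by exact_mod_cast h3
    linarith

/-- the data at an index -/
lemma dt_of {ε ℓ : ℝ} {M : ℕ} {T U1 U2 t : ℝ} {F G : ℕ → ℝ} (h : GT ε ℓ M T U1 U2 t F)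
    (hL : 0 < Real.log T) (h' : GT ε ℓ M T U1 U2 (t - 2 * Real.pi / Real.log T) G)
    {n : ℕ} (hn : 1 ≤ n) (hU1 : U1 < ord n)
    (hU2 : t + 2 * Real.pi * (20 * M) / Real.log T ≤ U2)
    (h1 : ord n ≤ t) (h2 : t ≤ ord n + Real.pi / (2 * Real.log T)) (he : 1 ≤ ε * ℓ)
    (hb : 2 * ((1 + ε) / Real.pi * ℓ) + 10 * (ε * ℓ) + 10 ≤ M) :
    DT (fun i => pos t (Real.log T) (n + i)) F G (ε * ℓ) ((1 + ε) / Real.pi * ℓ) M := by
  have hpi := Real.pi_pos
  have hG : WD (fun i => pos (t - 2 * Real.pi / Real.log T) (Real.log T) (n + i)) G (ε * ℓ)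
      (20 * M) := wd_of h' hL hn hU1 (by
    refine le_trans ?_ hU2
    have : 0 ≤ 2 * Real.pi / Real.log T := by positivity
    linarith)
  have e1 : (fun i => pos (t - 2 * Real.pi / Real.log T) (Real.log T) (n + i)) =
      fun i => pos t (Real.log T) (n + i) + 1 := by
    ext i
    unfold pos
    field_simp
    ring
  rw [e1] at hG
  refine ⟨?_, ?_, ?_, wd_of h hL hn hU1 hU2, hG, h.2.1, h'.2.1, h.1, h'.1, he, hb⟩
  · intro i j hij
    have h3 := SG.ord_mono (show 1 ≤ n + i by omega) (show n + i ≤ n + j by omega)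
    show (ord (n + i) - t) * Real.log T / (2 * Real.pi) ≤ (ord (n + j) - t) * Real.log T / (2 * Real.pi)
    gcongr
  · show -(1 / 4) ≤ pos t (Real.log T) (n + 0)
    rw [le_pos hL, add_zero]
    have e2 : 2 * Real.pi * -(1 / 4) / Real.log T = -(Real.pi / (2 * Real.log T)) := by
      field_simp
      norm_num
    rw [e2]
    linarith
  · show pos t (Real.log T) (n + 0) ≤ 0
    rw [pos_le hL, add_zero]
    simpa using h1

/-- the conclusion for an index -/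
def EX (δ : ℝ) (M n : ℕ) : Prop :=
  ((∀ j k : ℕ, j + k ≤ M → |Sr k (n + j) - k| ≤ (2 / Real.pi + δ) * Real.log M) ∧
    (∃ j k : ℕ, j + k ≤ M ∧ (2 / Real.pi - δ) * Real.log M ≤ Sr k (n + j) - k) ∧
    (∃ j k : ℕ, j + k ≤ M ∧ Sr k (n + j) - k ≤ -((2 / Real.pi - δ) * Real.log M))) ∧
  ((∀ k : ℕ, k ≤ M → |Sr k n - k| ≤ (1 / Real.pi + δ) * Real.log M) ∧
    (∃ k : ℕ, k ≤ M ∧ (1 / Real.pi - δ) * Real.log M ≤ Sr k n - k) ∧
    (∃ k : ℕ, k ≤ M ∧ Sr k n - k ≤ -((1 / Real.pi - δ) * Real.log M)))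

lemma numb {ε δ ℓ LL : ℝ} (hε : 0 < ε) (hε1 : ε ≤ 1 / 100) (hδ : 20 * ε ≤ δ) (he : 1 ≤ ε * ℓ)
    (h1 : ℓ ≤ LL) (h2 : LL ≤ (1 + ε) * ℓ) :
    2 * ((1 + ε) / Real.pi * ℓ) + 6 * (ε * ℓ) + 3 ≤ (2 / Real.pi + δ) * LL ∧
    (1 + ε) / Real.pi * ℓ + 7 * (ε * ℓ) + 3 ≤ (1 / Real.pi + δ) * LL ∧
    (2 / Real.pi - δ) * LL ≤ 2 * ((1 - 7 * ε) / Real.pi * ℓ) - 4 * (ε * ℓ) - 3 ∧
    (1 / Real.pi - δ) * LL ≤ (1 - 7 * ε) / Real.pi * ℓ - 5 * (ε * ℓ) - 3 := by
  have hpi := Real.pi_pos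
  have hpi3 := Real.pi_gt_three
  have hpi4 := Real.pi_le_four
  have hp : 1 / Real.pi ≤ 1 / 3 := one_div_le_one_div_of_le (by norm_num) hpi3.le
  have hp' : 1 / 4 ≤ 1 / Real.pi := one_div_le_one_div_of_le hpi hpi4
  have hℓ : 0 < ℓ := by
    by_contra hc
    have : ε * ℓ ≤ 0 := mul_nonpos_of_nonneg_of_nonpos hε.le (not_lt.1 hc)
    linarith
  have e1 : (1 + ε) / Real.pi * ℓ = 1 / Real.pi * ℓ + 1 / Real.pi * (ε * ℓ) := by ring
  have e2 : (1 - 7 * ε) / Real.pi * ℓ = 1 / Real.pi * ℓ - 7 * (1 / Real.pi * (ε * ℓ)) := by ring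
  have e3 : 2 / Real.pi = 2 * (1 / Real.pi) := by ring
  rw [e1, e2, e3]
  generalize 1 / Real.pi = p at *
  have q1 : p * (ε * ℓ) ≤ 1 / 3 * (ε * ℓ) := mul_le_mul_of_nonneg_right hp (by linarith)
  have q2 : p * ℓ ≤ p * LL := mul_le_mul_of_nonneg_left h1 (by linarith)
  have q3 : 20 * (ε * ℓ) ≤ δ * LL := by
    calc 20 * (ε * ℓ) = (20 * ε) * ℓ := by ring
      _ ≤ δ * LL := mul_le_mul hδ h1 hℓ.le (by linarith)
  have q4 : p * LL ≤ p * ((1 + ε) * ℓ) := mul_le_mul_of_nonneg_left h2 (by linarith)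
  have q5 : p * ((1 + ε) * ℓ) = p * ℓ + p * (ε * ℓ) := by ring
  refine ⟨?_, ?_, ?_, ?_⟩
  · calc _ ≤ 2 * (p * ℓ) + 20 * (ε * ℓ) := by linarith
      _ ≤ 2 * (p * LL) + δ * LL := by linarith
      _ = _ := by ring
  · calc _ ≤ (p * ℓ) + 20 * (ε * ℓ) := by linarith
      _ ≤ (p * LL) + δ * LL := by linarith
      _ = _ := by ring
  · calc (2 * p - δ) * LL = 2 * (p * LL) - δ * LL := by ring
      _ ≤ _ := by linarith
  · calc (p - δ) * LL = (p * LL) - δ * LL := by ring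
      _ ≤ _ := by linarith

/-- **good base points give the conclusion** -/
theorem ex_of {ε ℓ δ : ℝ} {M Mt : ℕ} {T U1 U2 t : ℝ} {F G : ℕ → ℝ} (hε : 0 < ε)
    (hε1 : ε ≤ 1 / 100) (hδ : 20 * ε ≤ δ) (h : GT ε ℓ M T U1 U2 t F)
    (hT : 10 ≤ T) (h' : GT ε ℓ M T U1 U2 (t - 2 * Real.pi / Real.log T) G)
    {n : ℕ} (hn : 1 ≤ n) (hU1 : U1 < ord n)
    (hU2 : t + 2 * Real.pi * (20 * M) / Real.log T ≤ U2) (hTn : T ≤ ord n) (hU2T : U2 ≤ 2 * T)
    (h1 : ord n ≤ t) (h2 : t ≤ ord n + Real.pi / (2 * Real.log T)) (he : 1 ≤ ε * ℓ)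
    (hb : 2 * ((1 + ε) / Real.pi * ℓ) + 10 * (ε * ℓ) + 10 ≤ M)
    (hLM : 60 * (M : ℝ) ≤ Real.log T) (hM1 : 8 * M ≤ Mt) (hM2 : Mt ≤ 16 * M)
    (l1 : ℓ ≤ Real.log Mt) (l2 : Real.log Mt ≤ (1 + ε) * ℓ) : EX δ Mt n := by
  have hpi := Real.pi_pos
  have hT0 : 0 < T := by linarith
  have hL : 0 < Real.log T := Real.log_pos (by linarith)
  have D := dt_of h hL h' hn hU1 hU2 h1 h2 he hb
  set y : ℕ → ℝ := fun i => pos t (Real.log T) (n + i) with hy
  have hM20 := D.M1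
  obtain ⟨b1, b2, b3, b4⟩ := numb hε hε1 hδ he l1 l2
  have hℓ : 0 < ℓ := by
    by_contra hc
    have : ε * ℓ ≤ 0 := mul_nonpos_of_nonneg_of_nonpos hε.le (not_lt.1 hc)
    linarith
  set H1 := (1 + ε) / Real.pi * ℓ with hH1
  set H := (1 - 7 * ε) / Real.pi * ℓ with hH
  have hH0 : 0 ≤ H := by
    have : 0 ≤ 1 - 7 * ε := by linarith
    positivity
  have hHH : H ≤ H1 := by
    rw [hH, hH1]
    gcongr
    linarith
  -- comparison with the normalised sums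
  have cmp : ∀ i k : ℕ, i + k ≤ 16 * M → Sr k (n + i) ≤ y (i + k) - y i ∧
      y (i + k) - y i - 1 ≤ Sr k (n + i) := by
    intro i k hik
    have e1 : y (i + k) - y i = (ord (n + i + k) - ord (n + i)) / (2 * Real.pi) * Real.log T := by
      rw [hy]
      show pos t (Real.log T) (n + (i + k)) - pos t (Real.log T) (n + i) = _
      rw [pos_sub, add_assoc]
    have hfar := D.far
    have hmo := D.mono hik
    have hy0 : -(1 / 4) ≤ y i := D.y0.trans (D.mono (Nat.zero_le i))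
    have hmo2 : y i ≤ y (i + k) := D.mono (Nat.le_add_right _ _)
    have hord : ord (n + i + k) ≤ 2 * T := by
      have h3 : pos t (Real.log T) (n + (i + k)) ≤ 20 * M := by
        have : y (i + k) ≤ 20 * M := by linarith
        exact this
      rw [pos_le hL, ← add_assoc] at h3
      linarith
    constructor
    · rw [e1]
      apply Sr_le (by omega) hT0
      have := Real.pi_gt_three
      nlinarith
    · have h3 := Sr_ge (r := k) (n := n + i) (by omega) hT0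
        (hTn.trans (SG.ord_mono hn (by omega)))
      refine le_trans ?_ h3
      rw [Real.log_div hT0.ne' (by positivity), mul_sub, ← e1]
      have h4 := log_two_pi_le
      have h5 : (ord (n + i + k) - ord (n + i)) / (2 * Real.pi) = (y (i + k) - y i) / Real.log T := by
        rw [e1]
        field_simp
      rw [h5]
      have h6 : (y (i + k) - y i) / Real.log T * Real.log (2 * Real.pi) ≤ 1 := by
        rw [div_mul_eq_mul_div, div_le_one hL]
        have h7 : (y (i + k) - y i) * Real.log (2 * Real.pi) ≤ (y (i + k) - y i) * 2 :=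
          mul_le_mul_of_nonneg_left h4 (by linarith)
        linarith
      linarith
  refine ⟨⟨?_, ?_, ?_⟩, ?_, ?_, ?_⟩
  · intro j k hjk
    have h3 := D.up (hjk.trans hM2)
    have h4 := D.lo (hjk.trans hM2)
    obtain ⟨c1, c2⟩ := cmp j k (hjk.trans hM2)
    rw [abs_le]
    constructor <;> linarith
  · obtain ⟨c', -, q2, q3⟩ := h.2.2.1 1 (by norm_num) 0 (Or.inl rfl)
    obtain ⟨c, p1, p2, p3⟩ := h.2.2.1 (-1) (by norm_num) (2 * M) (Or.inr rfl)
    obtain ⟨i, k, hik, hk⟩ := D.few hHH (c' := c') (c := c) (by omega) p1 (by omega)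
      (by linarith) (by linarith)
    obtain ⟨c1, c2⟩ := cmp i k (by omega)
    exact ⟨i, k, by omega, by linarith⟩
  · obtain ⟨c', -, q2, q3⟩ := h.2.2.1 (-1) (by norm_num) 0 (Or.inl rfl)
    obtain ⟨c, p1, p2, p3⟩ := h.2.2.1 1 (by norm_num) (2 * M) (Or.inr rfl)
    obtain ⟨i, k, hik, hk⟩ := D.many hH0 hHH (c' := c') (c := c) (by omega) p1 (by omega)
      (by linarith) (by linarith)
    obtain ⟨c1, c2⟩ := cmp i k (by omega)
    exact ⟨i, k, by omega, by linarith⟩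
  · intro k hk
    have h3 := D.up0 (hk.trans hM2)
    have h4 := D.lo0 (hk.trans hM2)
    obtain ⟨c1, c2⟩ := cmp 0 k (by omega)
    rw [zero_add, add_zero] at c1 c2
    rw [abs_le]
    constructor <;> linarith
  · obtain ⟨c, p1, p2, p3⟩ := h'.2.2.1 (-1) (by norm_num) (2 * M) (Or.inr rfl)
    obtain ⟨k, hk1, hk⟩ := D.few0 hHH (c := c) p1 (by omega) (by linarith)
    obtain ⟨c1, c2⟩ := cmp 0 k (by omega)
    rw [zero_add, add_zero] at c1 c2
    exact ⟨k, by omega, by linarith⟩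
  · obtain ⟨c, p1, p2, p3⟩ := h.2.2.1 1 (by norm_num) (2 * M) (Or.inr rfl)
    obtain ⟨k, hk1, hk⟩ := D.many0 hH0 hHH (c := c) p1 (by omega) (by linarith)
    obtain ⟨c1, c2⟩ := cmp 0 k (by omega)
    rw [zero_add, add_zero] at c1 c2
    exact ⟨k, by omega, by linarith⟩

end Pool.Agent.T9h26.TD
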