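import Pool.Agent.T9h26.TD.Rc
import Pool.Agent.T9h26.TD.Zj
import Pool.Agent.T9h26.TD.Md
import Pool.Agent.T9h26.TD.Mi

set_option autoImplicit false

/-! The exceptional set of the logarithmic profile. -/

open Complex Filter Topology Set MeasureTheory

namespace Pool.Agent.T9h26.TD

open TC (ordz ordT mu EFD)
open SG (ord NZ zmult ZS)
open W200.HW (Ix mem_Ix)
open Pool.Agent.Y747 (al)

variable {φ ψ : ℝ → ℝ} {k : ℕ} {C a1 a2 : ℝ}

/-- the shifts -/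
noncomputable def tg (G i : ℕ) : ℝ := i / (4 * G)

lemma tg_nonneg (G i : ℕ) : 0 ≤ tg G i := by unfold tg; positivity

lemma tg_le {G i : ℕ} (hG : 1 ≤ G) (hi : i ≤ G) : tg G i ≤ 1 / 4 := by
  unfold tg
  have h1 : (1 : ℝ) ≤ G := by exact_mod_cast hG
  have h2 : (i : ℝ) ≤ G := by exact_mod_cast hi
  rw [div_le_div_iff₀ (by positivity) (by norm_num)]
  linarith

/-- the exceptional set -/
def Bad (φ : ℝ → ℝ) (a1 a2 η : ℝ) (G : ℕ) (T U1 U2 : ℝ) : Set ℝ :=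
  {t | 1 / 2 - 4 * η ≤ ‖PW (Wr φ a1 a2) (1 / a1) T t‖ ∨
    ∃ i ∈ Finset.range (G + 1), η ≤ ‖PZ (Fi φ a1 a2 (-tg G i)) T t‖ ∨
      η < |SX (ordz U1 U2) mu (Wr φ a1 a2) (Real.log T) (t + -(2 * Real.pi * tg G i / Real.log T)) -
        (Wr φ a1 a2 0 / 2 -
          (PW (Wr φ a1 a2) (1 / a1) T (t + -(2 * Real.pi * tg G i / Real.log T))).re)|}

/-- **the exceptional set is small** -/
theorem bad_ms (h : Kr φ ψ k C) (h1 : 2 ≤ a1) (h2 : a1 < a2) {η : ℝ} (hη : 0 < η)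
    (hη1 : η ≤ 1 / 16) {J J2 G : ℕ} (hJ : 1 ≤ J) (hJb : (J : ℝ) < a1)
    (hJv : J * ((Zr a1 a2 + 10 * C ^ 2) / Zr a1 a2 ^ 2) ≤ (1 / 2 - 4 * η) ^ 2)
    (hJ2b : (J2 : ℝ) < a1) (hG : 1 ≤ G) {D : ℝ} (hD : 0 < D)
    (hJ2 : ((G : ℝ) + 1) * (J2.factorial * (15 * C ^ 2 / (Zr a1 a2 ^ 2 * a1 ^ 2)) ^ J2 /
      η ^ (2 * J2)) ≤ D) {C' : ℝ} (hC' : 0 < C') :
    ∃ T1 : ℝ, 10 ≤ T1 ∧ ∀ T : ℝ, T1 ≤ T → ∀ U1 U2 : ℝ, EFD C' T (ordz U1 U2) mu →
      ms T (Bad φ a1 a2 η G T U1 U2) ≤ (J * Real.exp (1 - J) + 4 * D) * T := by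
  have hpi := Real.pi_pos
  have hpi4 := Real.pi_le_four
  have hZ := Zr_pos h1 h2
  have hC := h.C1
  have ha1 : 0 < a1 := by linarith
  have hG1 : (0 : ℝ) < (G : ℝ) + 1 := by positivity
  obtain ⟨K, hK⟩ := Wr_wt h h1 h2
  have hjb : ∀ j : ℕ, (j : ℝ) < a1 → (j : ℝ) * (1 / a1) < 1 := by
    intro j hj
    rw [mul_one_div, div_lt_one ha1]
    exact hj
  have hx : 0 < 1 / 2 - 4 * η := by linarith
  have hv : 0 < (Zr a1 a2 + 10 * C ^ 2) / Zr a1 a2 ^ 2 := by positivity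
  have m1 := mkvW hK (hjb J hJb) (x := 1 / 2 - 4 * η) (θ := J * Real.exp (1 - J) + D) hx
    (var_Wr h h1 h2) (by
      have := expo2 hJ hv hx hJv
      linarith)
  have m2 : ∀ i ∈ Finset.range (G + 1), ∀ᶠ T : ℝ in atTop,
      ms T {t | η ≤ ‖PZ (Fi φ a1 a2 (-tg G i)) T t‖} ≤ 2 * D / (G + 1) * T := by
    intro i hi
    obtain ⟨K', hK'⟩ := Fi_wz h h1 h2 (-tg G i)
    have hτ : |-tg G i| ≤ 1 / 4 := by
      rw [abs_neg, abs_of_nonneg (tg_nonneg _ _)]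
      exact tg_le hG (by have := Finset.mem_range.1 hi; omega)
    apply mkv hK' (hjb J2 hJ2b) hη
    have e1 : (J2.factorial : ℝ) * var (nw (Fi φ a1 a2 (-tg G i))) ^ J2 / η ^ (2 * J2) ≤
        J2.factorial * (15 * C ^ 2 / (Zr a1 a2 ^ 2 * a1 ^ 2)) ^ J2 / η ^ (2 * J2) := by
      apply div_le_div_of_nonneg_right _ (by positivity)
      apply mul_le_mul_of_nonneg_left _ (by positivity)
      exact pow_le_pow_left₀ (var_nonneg _) (var_Fi h h1 h2 hτ) _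
    have e2 : (J2.factorial : ℝ) * (15 * C ^ 2 / (Zr a1 a2 ^ 2 * a1 ^ 2)) ^ J2 / η ^ (2 * J2) ≤
        D / (G + 1) := by
      rw [le_div_iff₀ hG1, mul_comm]
      exact hJ2
    have e3 : D / ((G : ℝ) + 1) < 2 * D / (G + 1) := by
      apply div_lt_div_of_pos_right _ hG1
      linarith
    linarith
  set η3 := min η (D / (2 * (G + 1))) with hη3
  have hη30 : 0 < η3 := lt_min hη (by positivity)
  obtain ⟨T3, hT3, hef⟩ := ef_ms hK hC' hη30
  have m2' : ∀ᶠ T : ℝ in atTop, ∀ i ∈ Finset.range (G + 1),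
      ms T {t | η ≤ ‖PZ (Fi φ a1 a2 (-tg G i)) T t‖} ≤ 2 * D / (G + 1) * T :=
    (Finset.eventually_all _).2 m2
  obtain ⟨T4, hT4⟩ := eventually_atTop.1 ((m1.and m2').and
    (eventually_ge_atTop (4 * ((G : ℝ) + 1) / D)))
  refine ⟨max T3 T4, hT3.trans (le_max_left _ _), fun T hT U1 U2 hE => ?_⟩
  have hTT3 : T3 ≤ T := (le_max_left _ _).trans hT
  obtain ⟨⟨g1, g2⟩, g3⟩ := hT4 T ((le_max_right _ _).trans hT)
  have hT10 : 10 ≤ T := hT3.trans hTT3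
  have hT0 : 0 < T := by linarith
  have hL1 : 1 ≤ Real.log T := by
    rw [Real.le_log_iff_exp_le hT0]
    have := Real.exp_one_lt_d9
    linarith
  set F3 : Set ℝ := {t | η3 < |SX (ordz U1 U2) mu (Wr φ a1 a2) (Real.log T) t -
    (Wr φ a1 a2 0 / 2 - (PW (Wr φ a1 a2) (1 / a1) T t).re)|} with hF3
  have g4 : ms T F3 ≤ η3 * T := hef T hTT3 _ _ hE
  set A1 : Set ℝ := {t | 1 / 2 - 4 * η ≤ ‖PW (Wr φ a1 a2) (1 / a1) T t‖} with hA1
  set A2 : ℕ → Set ℝ := fun i => {t | η ≤ ‖PZ (Fi φ a1 a2 (-tg G i)) T t‖} with hA2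
  set A3 : ℕ → Set ℝ := fun i => {t | t + -(2 * Real.pi * tg G i / Real.log T) ∈ F3} with hA3
  have g5 : ∀ i ∈ Finset.range (G + 1), ms T (A2 i ∪ A3 i) ≤ 2 * D / (G + 1) * T + (η3 * T + 2) := by
    intro i hi
    refine (ms_union _ _ _).trans (add_le_add (g2 i hi) ?_)
    refine (ms_shift_abs _ F3).trans (add_le_add g4 ?_)
    have h3 := tg_le hG (show i ≤ G by have := Finset.mem_range.1 hi; omega)
    have h4 := tg_nonneg G i
    rw [abs_neg, abs_of_nonneg (by positivity), div_le_iff₀ (by linarith)]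
    nlinarith
  have g6 : ms T {t | ∃ i ∈ Finset.range (G + 1), t ∈ A2 i ∪ A3 i} ≤ 3 * D * T := by
    refine (ms_biUnion T _ _).trans ((Finset.sum_le_sum g5).trans ?_)
    rw [Finset.sum_const, Finset.card_range, nsmul_eq_mul]
    push_cast
    have h3 : ((G : ℝ) + 1) * (2 * D / (G + 1) * T) = 2 * D * T := by field_simp
    have h4 : ((G : ℝ) + 1) * (η3 * T) ≤ D / 2 * T := by
      have : η3 ≤ D / (2 * (G + 1)) := min_le_right _ _
      calc ((G : ℝ) + 1) * (η3 * T) ≤ ((G : ℝ) + 1) * (D / (2 * (G + 1)) * T) := by gcongr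
        _ = D / 2 * T := by field_simp
    have h5 : ((G : ℝ) + 1) * 2 ≤ D / 2 * T := by
      rw [div_le_iff₀ hD] at g3
      linarith
    calc ((G : ℝ) + 1) * (2 * D / (G + 1) * T + (η3 * T + 2)) =
        ((G : ℝ) + 1) * (2 * D / (G + 1) * T) + ((G : ℝ) + 1) * (η3 * T) + ((G : ℝ) + 1) * 2 := by
          ring
      _ ≤ 3 * D * T := by linarith
  have g7 : ms T (Bad φ a1 a2 η G T U1 U2) ≤ ms T A1 +
      ms T {t | ∃ i ∈ Finset.range (G + 1), t ∈ A2 i ∪ A3 i} := by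
    apply ms_union_of
    rintro t _ _ (ht | ⟨i, hi, ht | ht⟩)
    · left
      exact ht
    · right
      exact ⟨i, hi, Or.inl ht⟩
    · right
      exact ⟨i, hi, Or.inr (lt_of_le_of_lt (min_le_left _ _) ht)⟩
  calc _ ≤ _ := g7
    _ ≤ (J * Real.exp (1 - J) + D) * T + 3 * D * T := add_le_add g1 g6
    _ = _ := by ring

/-- the mean of the tail -/
lemma tail_ms (RH : RiemannHypothesis) {C' T U1 U2 : ℝ} (hT : 10 ≤ T) (hU : 1 ≤ U1)
    (hE : EFD C' T (ordz U1 U2) mu) {Q : ℝ} (hQ : 0 < Q) :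
    ms T {t | Q ≤ ∑ m ∈ Kx U1 U2, (1 + pos t (Real.log T) m ^ 2)⁻¹} ≤ 20 * C' / Q * T := by
  have hpi := Real.pi_pos
  have hpi2 := Real.pi_lt_d2
  have hT0 : 0 < T := by linarith
  have hL : 0 < Real.log T := Real.log_pos (by linarith)
  set L := Real.log T with hLd
  have hcont : ∀ m : ℕ, Continuous fun t => (1 + pos t L m ^ 2)⁻¹ := by
    intro m
    have e : Continuous fun t => 1 + pos t L m ^ 2 := by
      unfold pos
      fun_prop
    exact e.inv₀ fun t => by positivity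
  have hcs : Continuous fun t => ∑ m ∈ Kx U1 U2, (1 + pos t L m ^ 2)⁻¹ :=
    continuous_finsetSum _ fun m _ => hcont m
  have h1 := ms_markov hT0.le hcs (fun t => Finset.sum_nonneg fun m _ => by positivity) (c := Q)
  rw [intervalIntegral.integral_finsetSum fun m _ => (hcont m).intervalIntegrable _ _] at h1
  have h2 : ∀ m ∈ Kx U1 U2, ∫ t in T..(2 * T), (1 + pos t L m ^ 2)⁻¹ ≤ 20 / L := by
    intro m _
    have e1 : ∀ t, (1 + pos t L m ^ 2)⁻¹ =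
        (fun x : ℝ => (1 + x ^ 2)⁻¹) (ord m * L / (2 * Real.pi) - L / (2 * Real.pi) * t) := by
      intro t
      unfold pos
      simp only
      congr 3
      ring
    have e2 : ∫ t in T..(2 * T), (1 + pos t L m ^ 2)⁻¹ = ∫ t in T..(2 * T),
        (fun x : ℝ => (1 + x ^ 2)⁻¹) (ord m * L / (2 * Real.pi) - L / (2 * Real.pi) * t) :=
      intervalIntegral.integral_congr fun t _ => e1 t
    rw [e2, intervalIntegral.integral_comp_sub_mul (fun x : ℝ => (1 + x ^ 2)⁻¹)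
      (by positivity : L / (2 * Real.pi) ≠ 0), integral_inv_one_add_sq, smul_eq_mul]
    have h3 := Real.arctan_lt_pi_div_two
      (ord m * L / (2 * Real.pi) - L / (2 * Real.pi) * T)
    have h4 := Real.neg_pi_div_two_lt_arctan
      (ord m * L / (2 * Real.pi) - L / (2 * Real.pi) * (2 * T))
    have h5 : (L / (2 * Real.pi))⁻¹ = 2 * Real.pi / L := inv_div _ _
    rw [h5]
    calc 2 * Real.pi / L * _ ≤ 2 * Real.pi / L * Real.pi :=
          mul_le_mul_of_nonneg_left (by linarith) (by positivity)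
      _ = 2 * (Real.pi * Real.pi) / L := by ring
      _ ≤ 20 / L := by
          apply div_le_div_of_nonneg_right _ hL.le
          nlinarith
  have h3 : ∑ m ∈ Kx U1 U2, (∫ t in T..(2 * T), (1 + pos t L m ^ 2)⁻¹) ≤ 20 * C' * T := by
    refine (Finset.sum_le_sum h2).trans ?_
    rw [Finset.sum_const, nsmul_eq_mul]
    have h4 := sum_ordz RH (U2 := U2) hU (fun _ => 1)
    simp only [mul_one, Finset.sum_const, nsmul_eq_mul] at h4
    rw [← h4]
    calc (∑ g ∈ ordz U1 U2, (mu g : ℝ)) * (20 / L) ≤ (C' * T * L) * (20 / L) :=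
          mul_le_mul_of_nonneg_right hE.tot (by positivity)
      _ = _ := by field_simp
  have h4 : Q * ms T {t | Q ≤ ∑ m ∈ Kx U1 U2, (1 + pos t L m ^ 2)⁻¹} ≤ 20 * C' * T := h1.trans h3
  rw [div_mul_eq_mul_div, le_div_iff₀ hQ]
  linarith

end Pool.Agent.T9h26.TD
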