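import Pool.Agent.T9h26.TD.Qb
import Pool.Agent.T9h26.TD.Qd
import Pool.Agent.T9h26.TD.Qe
import Pool.Agent.T9h26.TD.Rd

set_option autoImplicit false

/-! Small balls: the exceptional sets. -/

open Complex Filter Topology Set MeasureTheory

namespace Pool.Agent.T9h26.TD

open TC (ordz ordT mu EFD)
open SG (ord NZ zmult ZS)
open W200.HW (Ix mem_Ix)
open Pool.Agent.Y747 (al)

/-- a fixed shift is small -/
lemma shift_small (z : ℝ) {η : ℝ} (hη : 0 < η) : ∃ T1 : ℝ, 10 ≤ T1 ∧ ∀ T : ℝ, T1 ≤ T →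
    |2 * Real.pi * z / Real.log T| ≤ η * T := by
  refine ⟨max 10 (2 * Real.pi * |z| / η), le_max_left _ _, fun T hT => ?_⟩
  have h10 : 10 ≤ T := (le_max_left _ _).trans hT
  have h2 : 2 * Real.pi * |z| / η ≤ T := (le_max_right _ _).trans hT
  have hL : 1 ≤ Real.log T := by
    rw [← Real.log_exp 1]
    apply Real.log_le_log (Real.exp_pos _)
    have := Real.exp_one_lt_d9
    linarith
  have hLp : 0 < Real.log T := by linarith
  have e : |2 * Real.pi * z / Real.log T| = 2 * Real.pi * |z| / Real.log T := by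
    rw [abs_div, abs_mul, abs_mul, abs_two, abs_of_pos Real.pi_pos, abs_of_pos hLp]
  rw [e, div_le_iff₀ hLp]
  rw [div_le_iff₀ hη] at h2
  have : 0 ≤ η * T := by positivity
  nlinarith

/-- Fejér sums are rarely large -/
lemma fej_ms {C' : ℝ} (hC' : 0 < C') {b : ℝ} (hb : 0 < b) (hb1 : b ≤ 1 / 1280) {J : ℕ}
    (hJ : 1 ≤ J) (hJb : (J : ℝ) * b < 1) (z : ℝ) : ∃ T1 : ℝ, 10 ≤ T1 ∧ ∀ T : ℝ, T1 ≤ T →
    ∀ U1 U2 : ℝ, EFD C' T (ordz U1 U2) mu →
    ms T {t | 1 < SX (ordz U1 U2) mu (sc Gt b) (Real.log T) (t + 2 * Real.pi * z / Real.log T)} ≤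
      Real.exp (-(2 * J)) * T := by
  have hb2 : b ≤ 1 / 2 := by linarith
  have hJ0 : (0 : ℝ) < J := by exact_mod_cast hJ
  obtain ⟨K, hK⟩ := sc_wt Gt_contDiff Gt_one hb hb2
  obtain ⟨hv, hvb⟩ := var_bounds (B := 2) Gt_contDiff.continuous Gt_one (by rw [Gt_zero]; norm_num)
    hb hb2 (fun s h0 h1 => Gt_abs h0 h1)
  -- numerical
  have hnum : J.factorial * var (sc Gt b) ^ J / (1 / 4 : ℝ) ^ (2 * J) ≤ (1 / 20) ^ J := by
    have h1 : (J.factorial : ℝ) ≤ (J : ℝ) ^ J := by exact_mod_cast Nat.factorial_le_pow J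
    rw [div_le_iff₀ (by positivity), pow_mul, ← mul_pow]
    calc (J.factorial : ℝ) * var (sc Gt b) ^ J ≤ (J : ℝ) ^ J * (b ^ 2 * 2 ^ 2) ^ J := by
          gcongr
      _ = ((J : ℝ) * (b ^ 2 * 2 ^ 2)) ^ J := (mul_pow _ _ _).symm
      _ ≤ (1 / 20 * (1 / 4) ^ 2) ^ J := by
          apply pow_le_pow_left₀ (by positivity)
          have : (J : ℝ) * b * b ≤ 1 * b := mul_le_mul_of_nonneg_right hJb.le hb.le
          nlinarith
  have he : (1 / 20 : ℝ) ^ J < Real.exp (-(2 * J)) := by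
    have e1 : Real.exp (-(2 * J : ℝ)) = Real.exp (-2) ^ J := by
      rw [← Real.exp_nat_mul]; congr 1; ring
    rw [e1]
    apply pow_lt_pow_left₀ _ (by norm_num) (by omega)
    have h5 : Real.exp (-2) = (Real.exp 1 ^ 2)⁻¹ := by
      rw [Real.exp_neg, ← Real.exp_nat_mul]
      norm_num
    rw [h5, one_div]
    apply inv_strictAnti₀ (by positivity)
    have := Real.exp_one_lt_d9
    nlinarith [Real.exp_pos 1]
  set θ := (1 / 20 : ℝ) ^ J with hθ
  set η := min (1 / 4) ((Real.exp (-(2 * J)) - θ) / 3) with hη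
  have hη0 : 0 < η := lt_min (by norm_num) (by linarith)
  have hη4 : η ≤ 1 / 4 := min_le_left _ _
  have hη3 : 3 * η ≤ Real.exp (-(2 * J)) - θ := by
    have := min_le_right (1 / 4 : ℝ) ((Real.exp (-(2 * J)) - θ) / 3)
    rw [← hη] at this
    linarith
  have hub := ub hv (coef_al hK hJb) (x := 1 / 4) (by norm_num) (c := θ + η)
    (lt_of_le_of_lt hnum (by linarith))
  obtain ⟨T2, hT2⟩ := eventually_atTop.1 hub
  obtain ⟨T3, hT3, h3⟩ := ef_ms hK hC' hη0
  obtain ⟨T4, hT4, h4⟩ := shift_small z hη0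
  refine ⟨max T2 (max T3 T4), hT3.trans ((le_max_left _ _).trans (le_max_right _ _)),
    fun T hT U1 U2 hE => ?_⟩
  have k2 := hT2 T ((le_max_left _ _).trans hT)
  have k3 := h3 T (((le_max_left _ _).trans (le_max_right _ _)).trans hT) _ _ hE
  have k4 := h4 T (((le_max_right _ _).trans (le_max_right _ _)).trans hT)
  have hT0 : 0 < T := by
    have : T3 ≤ T := ((le_max_left _ _).trans (le_max_right _ _)).trans hT
    linarith
  have k5 := ms_shift_abs (T := T) (2 * Real.pi * z / Real.log T)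
    {t | 1 < SX (ordz U1 U2) mu (sc Gt b) (Real.log T) t}
  have k6 : ms T {t | 1 < SX (ordz U1 U2) mu (sc Gt b) (Real.log T) t} ≤
      ms T {t | 1 / 4 ≤ ‖PP (al (sc Gt b) (Real.log T)) (XT b T) t‖} +
      ms T {t | η < |SX (ordz U1 U2) mu (sc Gt b) (Real.log T) t -
        (sc Gt b 0 / 2 - (PW (sc Gt b) b T t).re)|} := by
    apply ms_union_of
    intro t _ _ ht
    rw [mem_ofPred_eq] at ht
    by_cases hc : η < |SX (ordz U1 U2) mu (sc Gt b) (Real.log T) t -
        (sc Gt b 0 / 2 - (PW (sc Gt b) b T t).re)|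
    · right; exact hc
    · left
      rw [mem_ofPred_eq]
      rw [not_lt, sc_zero, Gt_zero, abs_le] at hc
      have h7 : 1 / 4 ≤ -(PW (sc Gt b) b T t).re := by linarith [hc.2]
      have h8 := Complex.abs_re_le_norm (PW (sc Gt b) b T t)
      have h9 := neg_abs_le (PW (sc Gt b) b T t).re
      change 1 / 4 ≤ ‖PW (sc Gt b) b T t‖
      linarith
  calc ms T {t | 1 < SX (ordz U1 U2) mu (sc Gt b) (Real.log T) (t + 2 * Real.pi * z / Real.log T)} ≤
      ms T {t | 1 < SX (ordz U1 U2) mu (sc Gt b) (Real.log T) t} +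
        |2 * Real.pi * z / Real.log T| := k5
    _ ≤ ((θ + η) * T + η * T) + η * T := by linarith
    _ = (θ + 3 * η) * T := by ring
    _ ≤ Real.exp (-(2 * J)) * T := by
        apply mul_le_mul_of_nonneg_right _ hT0.le
        linarith

/-- the error of the explicit formula for a shifted weight -/
lemma err_ms {C' : ℝ} (hC' : 0 < C') {w : ℝ → ℝ} {b : ℝ} {K : NNReal} (h : Wt w b K) {η : ℝ}
    (hη : 0 < η) (hη1 : η ≤ 1) (z : ℝ) : ∃ T1 : ℝ, 10 ≤ T1 ∧ ∀ T : ℝ, T1 ≤ T → ∀ U1 U2 : ℝ,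
    EFD C' T (ordz U1 U2) mu →
    ms T {t | 1 < |SX (ordz U1 U2) mu w (Real.log T) (t + 2 * Real.pi * z / Real.log T) -
      (w 0 / 2 - (PW w b T (t + 2 * Real.pi * z / Real.log T)).re)|} ≤ η * T := by
  obtain ⟨T3, hT3, h3⟩ := ef_ms h hC' (half_pos hη)
  obtain ⟨T4, hT4, h4⟩ := shift_small z (half_pos hη)
  refine ⟨max T3 T4, hT3.trans (le_max_left _ _), fun T hT U1 U2 hE => ?_⟩
  have k3 := h3 T ((le_max_left _ _).trans hT) _ _ hE
  have k4 := h4 T ((le_max_right _ _).trans hT)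
  have k5 := ms_shift_abs (T := T) (2 * Real.pi * z / Real.log T)
    {t | 1 < |SX (ordz U1 U2) mu w (Real.log T) t - (w 0 / 2 - (PW w b T t).re)|}
  have k6 : ms T {t | 1 < |SX (ordz U1 U2) mu w (Real.log T) t - (w 0 / 2 - (PW w b T t).re)|} ≤
      ms T {t | η / 2 < |SX (ordz U1 U2) mu w (Real.log T) t - (w 0 / 2 - (PW w b T t).re)|} := by
    apply ms_mono
    intro t _ _ ht
    rw [mem_ofPred_eq] at ht ⊢
    linarith
  calc _ ≤ ms T {t | 1 < |SX (ordz U1 U2) mu w (Real.log T) t - (w 0 / 2 - (PW w b T t).re)|} +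
        |2 * Real.pi * z / Real.log T| := k5
    _ ≤ η / 2 * T + η / 2 * T := by linarith
    _ = η * T := by ring

/-- the mean of the tail, scaled -/
lemma tail_sc (RH : RiemannHypothesis) {C' T U1 U2 X : ℝ} (hT : 10 ≤ T) (hU : 1 ≤ U1)
    (hX : 0 < X) (hE : EFD C' T (ordz U1 U2) mu) {Q : ℝ} (hQ : 0 < Q) :
    ms T {t | Q ≤ ∑ m ∈ Kx U1 U2, (1 + (pos t (Real.log T) m / X) ^ 2)⁻¹} ≤
      20 * C' * X / Q * T := by
  have hpi := Real.pi_pos
  have hpi2 := Real.pi_lt_d2
  have hT0 : 0 < T := by linarith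
  have hL : 0 < Real.log T := Real.log_pos (by linarith)
  set L := Real.log T with hLd
  have hcont : ∀ m : ℕ, Continuous fun t => (1 + (pos t L m / X) ^ 2)⁻¹ := by
    intro m
    have e : Continuous fun t => 1 + (pos t L m / X) ^ 2 := by
      unfold pos
      fun_prop
    exact e.inv₀ fun t => by positivity
  have hcs : Continuous fun t => ∑ m ∈ Kx U1 U2, (1 + (pos t L m / X) ^ 2)⁻¹ :=
    continuous_finsetSum _ fun m _ => hcont m
  have h1 := ms_markov hT0.le hcs (fun t => Finset.sum_nonneg fun m _ => by positivity) (c := Q)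
  rw [intervalIntegral.integral_finsetSum fun m _ => (hcont m).intervalIntegrable _ _] at h1
  have h2 : ∀ m ∈ Kx U1 U2, ∫ t in T..(2 * T), (1 + (pos t L m / X) ^ 2)⁻¹ ≤ X * (20 / L) := by
    intro m _
    have e1 : ∀ t, (1 + (pos t L m / X) ^ 2)⁻¹ =
        (fun x : ℝ => (1 + x ^ 2)⁻¹) (ord m * L / (2 * Real.pi) / X - L / (2 * Real.pi) / X * t) := by
      intro t
      unfold pos
      simp only
      congr 3
      ring
    have e2 : ∫ t in T..(2 * T), (1 + (pos t L m / X) ^ 2)⁻¹ = ∫ t in T..(2 * T),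
        (fun x : ℝ => (1 + x ^ 2)⁻¹) (ord m * L / (2 * Real.pi) / X - L / (2 * Real.pi) / X * t) :=
      intervalIntegral.integral_congr fun t _ => e1 t
    rw [e2, intervalIntegral.integral_comp_sub_mul (fun x : ℝ => (1 + x ^ 2)⁻¹)
      (by positivity : L / (2 * Real.pi) / X ≠ 0), integral_inv_one_add_sq, smul_eq_mul]
    have h3 := Real.arctan_lt_pi_div_two
      (ord m * L / (2 * Real.pi) / X - L / (2 * Real.pi) / X * T)
    have h4 := Real.neg_pi_div_two_lt_arctan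
      (ord m * L / (2 * Real.pi) / X - L / (2 * Real.pi) / X * (2 * T))
    have h5 : (L / (2 * Real.pi) / X)⁻¹ = X * (2 * Real.pi / L) := by
      field_simp
    rw [h5]
    calc X * (2 * Real.pi / L) * _ ≤ X * (2 * Real.pi / L) * Real.pi :=
          mul_le_mul_of_nonneg_left (by linarith) (by positivity)
      _ = X * (2 * (Real.pi * Real.pi) / L) := by ring
      _ ≤ X * (20 / L) := by
          apply mul_le_mul_of_nonneg_left _ hX.le
          apply div_le_div_of_nonneg_right _ hL.le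
          nlinarith
  have h3 : ∑ m ∈ Kx U1 U2, (∫ t in T..(2 * T), (1 + (pos t L m / X) ^ 2)⁻¹) ≤ 20 * C' * X * T := by
    refine (Finset.sum_le_sum h2).trans ?_
    rw [Finset.sum_const, nsmul_eq_mul]
    have h4 := sum_ordz RH (U2 := U2) hU (fun _ => 1)
    simp only [mul_one, Finset.sum_const, nsmul_eq_mul] at h4
    rw [← h4]
    calc (∑ g ∈ ordz U1 U2, (mu g : ℝ)) * (X * (20 / L)) ≤ (C' * T * L) * (X * (20 / L)) :=
          mul_le_mul_of_nonneg_right hE.tot (by positivity)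
      _ = _ := by field_simp
  have h4 : Q * ms T {t | Q ≤ ∑ m ∈ Kx U1 U2, (1 + (pos t L m / X) ^ 2)⁻¹} ≤ 20 * C' * X * T :=
    h1.trans h3
  rw [div_mul_eq_mul_div, le_div_iff₀ hQ]
  linarith

/-- the measure of a finite union -/
lemma ms_bU {ι : Type*} (S : Finset ι) (T : ℝ) (A : ι → Set ℝ) :
    ms T {t | ∃ i ∈ S, t ∈ A i} ≤ ∑ i ∈ S, ms T (A i) := by
  classical
  induction S using Finset.induction_on with
  | empty =>
    simp only [Finset.notMem_empty, false_and, exists_false, Finset.sum_empty]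
    have : ms T {t | False} = 0 := by
      unfold ms
      have e : ({t : ℝ | False} ∩ Ioc T (2 * T)) = ∅ := by
        ext t; simp
      rw [e]; simp
    exact this.le
  | insert a S ha ih =>
    rw [Finset.sum_insert ha]
    refine (ms_union_of (S1 := A a) (S2 := {t | ∃ i ∈ S, t ∈ A i}) ?_).trans
      (add_le_add le_rfl ih)
    rintro t _ _ ⟨i, hi, ht⟩
    rcases Finset.mem_insert.1 hi with rfl | hi
    · left; exact ht
    · right; exact ⟨i, hi, ht⟩

/-- finitely many Fejér sums -/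
lemma fej_all {C' : ℝ} (hC' : 0 < C') {b : ℝ} (hb : 0 < b) (hb1 : b ≤ 1 / 1280) {J : ℕ}
    (hJ : 1 ≤ J) (hJb : (J : ℝ) * b < 1) (Z : Finset ℝ) : ∃ T1 : ℝ, 10 ≤ T1 ∧ ∀ T : ℝ, T1 ≤ T →
    ∀ U1 U2 : ℝ, EFD C' T (ordz U1 U2) mu →
    ms T {t | ∃ z ∈ Z, 1 < SX (ordz U1 U2) mu (sc Gt b) (Real.log T)
      (t + 2 * Real.pi * z / Real.log T)} ≤ Z.card * Real.exp (-(2 * J)) * T := by
  choose T1 h1 h2 using fun z => fej_ms hC' hb hb1 hJ hJb z
  have hne : (insert (10 : ℝ) (Z.image T1)).Nonempty := Finset.insert_nonempty _ _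
  refine ⟨(insert (10 : ℝ) (Z.image T1)).max' hne,
    Finset.le_max' _ _ (Finset.mem_insert_self _ _), fun T hT U1 U2 hE => ?_⟩
  refine (ms_bU Z T (fun z => {t | 1 < SX (ordz U1 U2) mu (sc Gt b) (Real.log T)
      (t + 2 * Real.pi * z / Real.log T)})).trans ?_
  calc _ ≤ ∑ z ∈ Z, Real.exp (-(2 * J)) * T := by
        apply Finset.sum_le_sum
        intro z hz
        apply h2 z T _ U1 U2 hE
        exact (Finset.le_max' _ _ (Finset.mem_insert_of_mem
          (Finset.mem_image_of_mem _ hz))).trans hT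
    _ = _ := by
        rw [Finset.sum_const, nsmul_eq_mul]
        ring

/-- the smoothed sum in terms of positions -/
lemma SX_pos (RH : RiemannHypothesis) {U1 U2 : ℝ} (hU : 1 ≤ U1) (w : ℝ → ℝ) {L : ℝ} (hL : 0 < L)
    (t z : ℝ) : SX (ordz U1 U2) mu w L (t + 2 * Real.pi * z / L) =
      ∑ m ∈ Kx U1 U2, Real.exp (-(2 * Real.pi * (pos t L m - z) / L) ^ 2 / 2) *
        ph w (2 * Real.pi * (pos t L m - z)) := by
  rw [SX_idx RH hU]
  apply Finset.sum_congr rfl
  intro m _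
  have hp := Real.pi_ne_zero
  have e1 : ord m - (t + 2 * Real.pi * z / L) = 2 * Real.pi * (pos t L m - z) / L := by
    unfold pos
    field_simp
    ring
  rw [e1]
  congr 2
  field_simp

open Classical in
/-- the sum of the Poisson kernel over the near points -/
lemma pk_sum (RH : RiemannHypothesis) {U1 U2 : ℝ} (hU : 1 ≤ U1) {b : ℝ} (hb : 0 < b)
    (hb1 : b ≤ 1 / 2) {L : ℝ} (hL : 0 < L) {t z X : ℝ} (hz : |z| ≤ X)
    (hXL : 20 * (X + 1 / b) ≤ L)
    (h1 : SX (ordz U1 U2) mu (sc Gt b) L (t + 2 * Real.pi * z / L) ≤ 1)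
    (h2 : SX (ordz U1 U2) mu (sc Gt b) L (t + 2 * Real.pi * (z + 1 / (2 * b)) / L) ≤ 1) :
    ∑ m ∈ (Kx U1 U2).filter (fun m => |pos t L m| ≤ X), pk b (pos t L m - z) ≤ 160 := by
  have hp := Real.pi_pos
  have hp4 := Real.pi_lt_four
  have hb0 : 0 < 1 / b := by positivity
  have hX0 : 0 ≤ X := (abs_nonneg z).trans hz
  have key : ∀ z' : ℝ, |z'| ≤ X + 1 / b →
      SX (ordz U1 U2) mu (sc Gt b) L (t + 2 * Real.pi * z' / L) ≤ 1 →
      ∑ m ∈ (Kx U1 U2).filter (fun m => |pos t L m| ≤ X), tb b (pos t L m - z') ≤ 2 := by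
    intro z' hz' h
    rw [SX_pos RH hU _ hL] at h
    have h3 : ∑ m ∈ (Kx U1 U2).filter (fun m => |pos t L m| ≤ X), 1 / 2 * tb b (pos t L m - z') ≤
        1 := by
      refine le_trans ?_ h
      refine le_trans ?_ (Finset.sum_le_sum_of_subset_of_nonneg (Finset.filter_subset
        (fun m => |pos t L m| ≤ X) (Kx U1 U2)) (fun m _ _ =>
          mul_nonneg (Real.exp_pos _).le (tb_nonneg hb hb1 _)))
      apply Finset.sum_le_sum
      intro m hm
      have hmX := (Finset.mem_filter.1 hm).2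
      apply mul_le_mul_of_nonneg_right _ (tb_nonneg hb hb1 _)
      have h4 : |2 * Real.pi * (pos t L m - z') / L| ≤ 1 := by
        rw [abs_div, abs_mul, abs_of_pos (by positivity : 0 < 2 * Real.pi), abs_of_pos hL,
          div_le_one hL]
        have h5 := abs_sub (pos t L m) z'
        have h6 : 2 * Real.pi * |pos t L m - z'| ≤ 2 * 4 * (X + (X + 1 / b)) := by
          have := abs_nonneg (pos t L m - z')
          nlinarith
        linarith
      have h7 : (2 * Real.pi * (pos t L m - z') / L) ^ 2 ≤ 1 := by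
        rw [← sq_abs]
        nlinarith [abs_nonneg (2 * Real.pi * (pos t L m - z') / L)]
      have h8 := Real.add_one_le_exp (-(2 * Real.pi * (pos t L m - z') / L) ^ 2 / 2)
      linarith
    rw [← Finset.mul_sum] at h3
    linarith
  have k1 := key z (by linarith) h1
  have k2 := key (z + 1 / (2 * b)) (by
    refine (abs_add_le _ _).trans ?_
    rw [abs_of_pos (by positivity : 0 < 1 / (2 * b))]
    have : 1 / (2 * b) ≤ 1 / b := by
      apply one_div_le_one_div_of_le hb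
      linarith
    linarith) h2
  calc ∑ m ∈ (Kx U1 U2).filter (fun m => |pos t L m| ≤ X), pk b (pos t L m - z) ≤
      ∑ m ∈ (Kx U1 U2).filter (fun m => |pos t L m| ≤ X), 40 * (tb b (pos t L m - z) +
        tb b (pos t L m - (z + 1 / (2 * b)))) := by
        apply Finset.sum_le_sum
        intro m _
        rw [← sub_sub]
        exact pk_le_tb hb hb1 _
    _ = 40 * (∑ m ∈ (Kx U1 U2).filter (fun m => |pos t L m| ≤ X), tb b (pos t L m - z) +
        ∑ m ∈ (Kx U1 U2).filter (fun m => |pos t L m| ≤ X),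
          tb b (pos t L m - (z + 1 / (2 * b)))) := by
        rw [← Finset.mul_sum, Finset.sum_add_distrib]
    _ ≤ 160 := by linarith

end Pool.Agent.T9h26.TD
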