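import Pool.Agent.T9h26.TD.Qg
import Pool.Agent.T9h26.TD.Cv

set_option autoImplicit false

/-! Small balls: the block theorem for patterns. -/

open Complex Filter Topology Set MeasureTheory

namespace Pool.Agent.T9h26.TD

open TC (ordz ordT mu EFD)
open SG (ord NZ zmult ZS)
open W200.HW (Ix mem_Ix)
open Pool.Agent.Y747 (al)

/-- the parameters -/
structure Pm (K : ℝ) (J m : ℕ) (K4 s b D R b2 y0 X1 : ℝ) : Prop where
  K1 : 1 ≤ K
  J40 : 40 ≤ J
  JK : K + 1 ≤ J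
  K4e : K4 = 9 + 2560 * (K + 1)
  m1 : 1 ≤ m
  mlo : 480 * K4 ^ 2 ≤ Real.log (m + 1)
  mhi : Real.log (m + 1) ≤ 480 * K4 ^ 2 + 1
  se : s = 1 / (2 * K4)
  be : b = 1 / (4000000 * J)
  De : D = 8 * m / b
  Re : R = 2 * m / b
  b2e : b2 = b / (320 * R)
  y0e : y0 = 1 / b2 + R + 1
  X1e : X1 = y0 + J * D + 1 / b2 + 1

variable {K : ℝ} {J m : ℕ} {K4 s b D R b2 y0 X1 : ℝ}

lemma Pm.Jp (h : Pm K J m K4 s b D R b2 y0 X1) : (40 : ℝ) ≤ J := by exact_mod_cast h.J40

lemma Pm.b0 (h : Pm K J m K4 s b D R b2 y0 X1) : 0 < b := by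
  have := h.Jp
  rw [h.be]; positivity

lemma Pm.ib (h : Pm K J m K4 s b D R b2 y0 X1) : 1 / b = 4000000 * J := by
  rw [h.be, one_div_one_div]

lemma Pm.b1 (h : Pm K J m K4 s b D R b2 y0 X1) : b ≤ 1 / 1280 := by
  have := h.Jp
  rw [h.be]
  apply one_div_le_one_div_of_le (by norm_num)
  linarith

lemma Pm.mr (h : Pm K J m K4 s b D R b2 y0 X1) : (1 : ℝ) ≤ m := by exact_mod_cast h.m1

lemma Pm.Reb (h : Pm K J m K4 s b D R b2 y0 X1) : R = 2 * m * (4000000 * J) := by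
  rw [h.Re, ← h.ib]; ring

lemma Pm.R1 (h : Pm K J m K4 s b D R b2 y0 X1) : 8000000 * (J : ℝ) ≤ R := by
  rw [h.Reb]
  have := h.Jp
  nlinarith [h.mr]

lemma Pm.RD (h : Pm K J m K4 s b D R b2 y0 X1) : R = D / 4 := by
  rw [h.Re, h.De]; ring

lemma Pm.D0 (h : Pm K J m K4 s b D R b2 y0 X1) : 0 < D := by
  have := h.R1
  have := h.Jp
  have := h.RD
  linarith

lemma Pm.bD (h : Pm K J m K4 s b D R b2 y0 X1) : b * D = 8 * m := by
  rw [h.De, mul_div_cancel₀ _ h.b0.ne']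

lemma Pm.ib2 (h : Pm K J m K4 s b D R b2 y0 X1) : 1 / b2 = 320 * R * (4000000 * J) := by
  have h1 := h.b0.ne'
  have h2 : R ≠ 0 := by have := h.R1; have := h.Jp; linarith
  rw [h.b2e, ← h.ib]
  field_simp

lemma Pm.b20 (h : Pm K J m K4 s b D R b2 y0 X1) : 0 < b2 := by
  have h1 := h.R1
  have h2 := h.Jp
  have h3 := h.b0
  have h4 : 0 < R := by linarith
  rw [h.b2e]
  positivity

lemma Pm.b2b (h : Pm K J m K4 s b D R b2 y0 X1) : b2 ≤ b := by
  have := h.R1
  have := h.Jp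
  have h0 := h.b0
  rw [h.b2e]
  apply div_le_self h0.le
  linarith

lemma Pm.M1 (h : Pm K J m K4 s b D R b2 y0 X1) : ((2000000 * J : ℕ) : ℝ) * b < 1 := by
  have := h.Jp
  rw [h.be]
  push_cast
  rw [mul_one_div, div_lt_one (by positivity)]
  linarith

lemma Pm.Jb (h : Pm K J m K4 s b D R b2 y0 X1) : (J : ℝ) * b < 1 := by
  have := h.Jp
  rw [h.be, mul_one_div, div_lt_one (by positivity)]
  linarith

lemma Pm.K40 (h : Pm K J m K4 s b D R b2 y0 X1) : 1 ≤ K4 := by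
  rw [h.K4e]; linarith [h.K1]

/-- the small ball bound for the windows -/
lemma Pm.ball (h : Pm K J m K4 s b D R b2 y0 X1) :
    ∀ᶠ T : ℝ in atTop, ∀ κ : Fin J → ℝ,
      ms T {t | ∀ j, |κ j - (PZ (Fw s b R y0 D j) T t).re| ≤ 1 / 2} ≤
        Real.exp (-(J / 4)) * T := by
  have hb := h.b0
  have hb1 : b ≤ 1 / 2 := h.b1.trans (by norm_num)
  have hR : 0 ≤ R := by have := h.R1; have := h.Jp; linarith
  have hK4 := h.K40
  have hs2 : s ^ 2 * (480 * K4 ^ 2) = 120 := by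
    rw [h.se]; field_simp; norm_num
  have hs1 : s ^ 2 ≤ 1 / 4 := by
    have : s ^ 2 * 1 ≤ s ^ 2 * K4 ^ 2 := by
      apply mul_le_mul_of_nonneg_left _ (sq_nonneg s)
      nlinarith
    nlinarith
  apply small_ball (M := 2000000 * J) h.J40 (by omega) h.M1 (fun σ => Fs_wz y0 D hb hb1 hR σ)
  · intro σ
    have h1 := var_ge hb hb1 hR h.D0 h.RD h.bD s y0 σ
    have h2 := mul_le_mul_of_nonneg_left h.mlo (sq_nonneg s)
    have hn := n3_nonneg σ
    calc 3 * n3 σ = n3 σ * (1 / 40 * (s ^ 2 * (480 * K4 ^ 2))) := by rw [hs2]; ring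
      _ ≤ n3 σ * (1 / 40 * (s ^ 2 * Real.log (m + 1))) := by
          apply mul_le_mul_of_nonneg_left _ hn
          linarith
      _ = s ^ 2 * (n3 σ * (1 / 40 * Real.log (m + 1))) := by ring
      _ ≤ _ := h1
  · intro σ
    have h1 := var_le h.m1 hb hb1 hR h.D0 h.RD h.bD s y0 σ
    have h2 := mul_le_mul_of_nonneg_left h.mhi (sq_nonneg s)
    have hn := n3_nonneg σ
    have hnJ := n3_le σ
    have h3 : s ^ 2 * (n3 σ * (2 + Real.log (m + 1))) ≤ 121 * J := by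
      calc s ^ 2 * (n3 σ * (2 + Real.log (m + 1))) =
          n3 σ * (2 * s ^ 2 + s ^ 2 * Real.log (m + 1)) := by ring
        _ ≤ n3 σ * 121 := by
            apply mul_le_mul_of_nonneg_left _ hn
            linarith
        _ ≤ 121 * J := by linarith
    push_cast
    linarith

/-- the field in terms of the shifted prime polynomial -/
lemma Pm.fld (h : Pm K J m K4 s b D R b2 y0 X1) {T : ℝ} (hT : 1 < T) (j : Fin J) (t : ℝ) :
    (PZ (Fw s b R y0 D j) T t).re =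
      s * (PW (Wn b R) b T (t + 2 * Real.pi * (y0 + (j : ℕ) * D) / Real.log T)).re := by
  have hR : 0 ≤ R := by have := h.R1; have := h.Jp; linarith
  obtain ⟨K', hK'⟩ := Wn_wt (R := R) h.b0 (h.b1.trans (by norm_num)) hR
  rw [PW_PZ hK' hT, PZ_shift _ hT, ← Complex.re_ofReal_mul, ← PZ_smul]
  rfl

/-- the exceptional set -/
def ExQ (J : ℕ) (s b D R b2 y0 X1 Q X : ℝ) (N0 L : ℕ) (a : ℕ → ℝ) (T U1 U2 : ℝ) : Set ℝ :=
  {t | (∃ z ∈ (Finset.range J).image (fun j : ℕ => y0 + j * D + R / 2) ∪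
      (Finset.range J).image (fun j : ℕ => y0 + j * D - R / 2) ∪
      ((Finset.range J).image (fun j : ℕ => y0 + j * D + R / 2 + 1 / (2 * b)) ∪
      (Finset.range J).image (fun j : ℕ => y0 + j * D - R / 2 + 1 / (2 * b))),
      1 < SX (ordz U1 U2) mu (sc Gt b) (Real.log T) (t + 2 * Real.pi * z / Real.log T)) ∨
    (∃ z ∈ (Finset.range J).image (fun j : ℕ => y0 + j * D) ∪
      (Finset.range J).image (fun j : ℕ => y0 + j * D + 1 / (2 * b2)),
      1 < SX (ordz U1 U2) mu (sc Gt b2) (Real.log T) (t + 2 * Real.pi * z / Real.log T)) ∨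
    N0 ≤ cC U1 U2 t (Real.pi * (2 * X1) / Real.log T) ∨
    Q ≤ ∑ m ∈ Kx U1 U2, (1 + (pos t (Real.log T) m / X) ^ 2)⁻¹ ∨
    (∃ j ∈ Finset.range J, 1 < |SX (ordz U1 U2) mu (Wn b R) (Real.log T)
        (t + 2 * Real.pi * (y0 + j * D) / Real.log T) -
      (Wn b R 0 / 2 - (PW (Wn b R) b T (t + 2 * Real.pi * (y0 + j * D) / Real.log T)).re)|) ∨
    ∀ j : Fin J, |s * (R - ∑ k ∈ Finset.Icc 1 L, Fk b R (a k - (y0 + (j : ℕ) * D))) -
      (PZ (Fw s b R y0 D j) T t).re| ≤ 1 / 2}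

/-- the finitely many explicit formulas -/
lemma err_all {C' : ℝ} (hC' : 0 < C') {w : ℝ → ℝ} {b : ℝ} {K : NNReal} (h : Wt w b K) {η : ℝ}
    (hη : 0 < η) (hη1 : η ≤ 1) (y0 D : ℝ) (J : ℕ) : ∃ T1 : ℝ, 10 ≤ T1 ∧ ∀ T : ℝ, T1 ≤ T →
    ∀ U1 U2 : ℝ, EFD C' T (ordz U1 U2) mu →
    ms T {t | ∃ j ∈ Finset.range J, 1 < |SX (ordz U1 U2) mu w (Real.log T)
        (t + 2 * Real.pi * (y0 + j * D) / Real.log T) -
      (w 0 / 2 - (PW w b T (t + 2 * Real.pi * (y0 + j * D) / Real.log T)).re)|} ≤ J * η * T := by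
  choose T1 h1 h2 using fun j : ℕ => err_ms hC' h hη hη1 (y0 + j * D)
  have hne : (insert (10 : ℝ) ((Finset.range J).image T1)).Nonempty := Finset.insert_nonempty _ _
  refine ⟨(insert (10 : ℝ) ((Finset.range J).image T1)).max' hne,
    Finset.le_max' _ _ (Finset.mem_insert_self _ _), fun T hT U1 U2 hE => ?_⟩
  refine (ms_bU (Finset.range J) T (fun j : ℕ => {t | 1 < |SX (ordz U1 U2) mu w (Real.log T)
        (t + 2 * Real.pi * (y0 + j * D) / Real.log T) -
      (w 0 / 2 - (PW w b T (t + 2 * Real.pi * (y0 + j * D) / Real.log T)).re)|})).trans ?_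
  calc _ ≤ ∑ j ∈ Finset.range J, η * T := by
        apply Finset.sum_le_sum
        intro j hj
        apply h2 j T _ U1 U2 hE
        exact (Finset.le_max' _ _ (Finset.mem_insert_of_mem
          (Finset.mem_image_of_mem _ hj))).trans hT
    _ = _ := by
        rw [Finset.sum_const, nsmul_eq_mul, Finset.card_range]
        ring

/-- the exceptional set is small -/
theorem ExQ_ms (RH : RiemannHypothesis) {C' : ℝ} (hC' : 0 < C')
    (h : Pm K J m K4 s b D R b2 y0 X1) {X Q : ℝ} (hX : 0 < X)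
    (hQ : Q = 20 * C' * X * Real.exp J) {Kc : ℝ}
    (hKc : ∀ (κ : ℝ) (M : ℕ), 0 < κ → Kc * (κ + 1) ≤ M →
      ∃ T1 : ℝ, 10 ≤ T1 ∧ ∀ T : ℝ, T1 ≤ T → ∀ U1 U2 : ℝ, 1 ≤ U1 → EFD C' T (ordz U1 U2) mu →
      ms T {t | M ≤ cC U1 U2 t (Real.pi * κ / Real.log T)} ≤
        Real.exp (-((1 - 1 / 2) * (M * Real.log M))) * T) {N0 : ℕ} (hN0 : Kc * (2 * X1 + 1) ≤ N0)
    (hN0J : 2 * (J : ℝ) ≤ N0) (L : ℕ) :
    ∃ T1 : ℝ, 10 ≤ T1 ∧ ∀ T : ℝ, T1 ≤ T → ∀ U1 U2 : ℝ, 1 ≤ U1 → EFD C' T (ordz U1 U2) mu →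
      ∀ a : ℕ → ℝ, ms T (ExQ J s b D R b2 y0 X1 Q X N0 L a T U1 U2) ≤
        2 * Real.exp (-(J / 4)) * T := by
  have hJ := h.Jp
  have hJ1 : 1 ≤ J := by have := h.J40; omega
  have hR : 0 ≤ R := by have := h.R1; linarith
  have hX1 : 0 < X1 := by
    have := h.D0
    have := h.b20
    rw [h.X1e, h.y0e]
    positivity
  obtain ⟨K', hK'⟩ := Wn_wt (R := R) h.b0 (h.b1.trans (by norm_num)) hR
  have hη : 0 < Real.exp (-J) / J := by positivity
  have hη1 : Real.exp (-J) / J ≤ 1 := by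
    rw [div_le_one (by linarith)]
    have : Real.exp (-(J : ℝ)) ≤ 1 := Real.exp_le_one_iff.2 (by linarith)
    linarith
  obtain ⟨T1, hT1, k1⟩ := fej_all hC' h.b0 h.b1 hJ1 h.Jb
    ((Finset.range J).image (fun j : ℕ => y0 + j * D + R / 2) ∪
      (Finset.range J).image (fun j : ℕ => y0 + j * D - R / 2) ∪
      ((Finset.range J).image (fun j : ℕ => y0 + j * D + R / 2 + 1 / (2 * b)) ∪
      (Finset.range J).image (fun j : ℕ => y0 + j * D - R / 2 + 1 / (2 * b))))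
  obtain ⟨T2, hT2, k2⟩ := fej_all hC' h.b20 (h.b2b.trans h.b1) hJ1
    (lt_of_le_of_lt (mul_le_mul_of_nonneg_left h.b2b (by linarith)) h.Jb)
    ((Finset.range J).image (fun j : ℕ => y0 + j * D) ∪
      (Finset.range J).image (fun j : ℕ => y0 + j * D + 1 / (2 * b2)))
  obtain ⟨T3, hT3, k3⟩ := hKc (2 * X1) N0 (by linarith) hN0
  obtain ⟨T5, hT5, k5⟩ := err_all hC' hK' hη hη1 y0 D J
  obtain ⟨T6, k6⟩ := eventually_atTop.1 h.ball
  refine ⟨max T1 (max T2 (max T3 (max T5 T6))), hT1.trans (le_max_left _ _),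
    fun T hT U1 U2 hU hE a => ?_⟩
  have g1 := k1 T ((le_max_left _ _).trans hT) U1 U2 hE
  have g2 := k2 T (((le_max_left _ _).trans (le_max_right _ _)).trans hT) U1 U2 hE
  have g3 := k3 T (((le_max_left _ _).trans ((le_max_right _ _).trans (le_max_right _ _))).trans hT)
    U1 U2 hU hE
  have hT10 : 10 ≤ T := hT1.trans ((le_max_left _ _).trans hT)
  have hT0 : 0 < T := by linarith
  have hQ0 : 0 < Q := by rw [hQ]; positivity
  have g4 := tail_sc RH hT10 hU hX hE hQ0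
  have g5 := k5 T (((le_max_left _ _).trans ((le_max_right _ _).trans ((le_max_right _ _).trans
    (le_max_right _ _)))).trans hT) U1 U2 hE
  have g6 := k6 T (((le_max_right _ _).trans ((le_max_right _ _).trans ((le_max_right _ _).trans
    (le_max_right _ _)))).trans hT)
    (fun j => s * (R - ∑ k ∈ Finset.Icc 1 L, Fk b R (a k - (y0 + (j : ℕ) * D))))
  -- numerical bounds
  have e1 : Real.exp (-(2 * J : ℝ)) = Real.exp (-J) * Real.exp (-J) := by
    rw [← Real.exp_add]; congr 1; ring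
  have hJe : 6 * J * Real.exp (-(J : ℝ)) ≤ 1 := by
    have q1 : Real.exp (-(J : ℝ)) = (Real.exp J)⁻¹ := Real.exp_neg _
    rw [q1, ← div_eq_mul_inv, div_le_one (Real.exp_pos _)]
    have q2 := Real.quadratic_le_exp_of_nonneg (x := (J : ℝ)) (by linarith)
    nlinarith
  have c1 : (((Finset.range J).image (fun j : ℕ => y0 + j * D + R / 2) ∪
      (Finset.range J).image (fun j : ℕ => y0 + j * D - R / 2) ∪
      ((Finset.range J).image (fun j : ℕ => y0 + j * D + R / 2 + 1 / (2 * b)) ∪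
      (Finset.range J).image (fun j : ℕ => y0 + j * D - R / 2 + 1 / (2 * b)))).card : ℝ) ≤
      4 * J := by
    have q : ∀ f : ℕ → ℝ, ((Finset.range J).image f).card ≤ J := fun f =>
      Finset.card_image_le.trans (by rw [Finset.card_range])
    have q1 := Finset.card_union_le ((Finset.range J).image (fun j : ℕ => y0 + j * D + R / 2) ∪
      (Finset.range J).image (fun j : ℕ => y0 + j * D - R / 2))
      ((Finset.range J).image (fun j : ℕ => y0 + j * D + R / 2 + 1 / (2 * b)) ∪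
      (Finset.range J).image (fun j : ℕ => y0 + j * D - R / 2 + 1 / (2 * b)))
    have q2 := Finset.card_union_le ((Finset.range J).image (fun j : ℕ => y0 + j * D + R / 2))
      ((Finset.range J).image (fun j : ℕ => y0 + j * D - R / 2))
    have q3 := Finset.card_union_le
      ((Finset.range J).image (fun j : ℕ => y0 + j * D + R / 2 + 1 / (2 * b)))
      ((Finset.range J).image (fun j : ℕ => y0 + j * D - R / 2 + 1 / (2 * b)))
    have r1 := q (fun j : ℕ => y0 + j * D + R / 2)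
    have r2 := q (fun j : ℕ => y0 + j * D - R / 2)
    have r3 := q (fun j : ℕ => y0 + j * D + R / 2 + 1 / (2 * b))
    have r4 := q (fun j : ℕ => y0 + j * D - R / 2 + 1 / (2 * b))
    have : ((Finset.range J).image (fun j : ℕ => y0 + j * D + R / 2) ∪
      (Finset.range J).image (fun j : ℕ => y0 + j * D - R / 2) ∪
      ((Finset.range J).image (fun j : ℕ => y0 + j * D + R / 2 + 1 / (2 * b)) ∪
      (Finset.range J).image (fun j : ℕ => y0 + j * D - R / 2 + 1 / (2 * b)))).card ≤ 4 * J := by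
      omega
    exact_mod_cast this
  have c2 : (((Finset.range J).image (fun j : ℕ => y0 + j * D) ∪
      (Finset.range J).image (fun j : ℕ => y0 + j * D + 1 / (2 * b2))).card : ℝ) ≤ 2 * J := by
    have q : ∀ f : ℕ → ℝ, ((Finset.range J).image f).card ≤ J := fun f =>
      Finset.card_image_le.trans (by rw [Finset.card_range])
    have q2 := Finset.card_union_le ((Finset.range J).image (fun j : ℕ => y0 + j * D))
      ((Finset.range J).image (fun j : ℕ => y0 + j * D + 1 / (2 * b2)))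
    have r1 := q (fun j : ℕ => y0 + j * D)
    have r2 := q (fun j : ℕ => y0 + j * D + 1 / (2 * b2))
    have : ((Finset.range J).image (fun j : ℕ => y0 + j * D) ∪
      (Finset.range J).image (fun j : ℕ => y0 + j * D + 1 / (2 * b2))).card ≤ 2 * J := by omega
    exact_mod_cast this
  have hej := Real.exp_pos (-(J : ℝ))
  have f1 : ms T {t | ∃ z ∈ (Finset.range J).image (fun j : ℕ => y0 + j * D + R / 2) ∪
      (Finset.range J).image (fun j : ℕ => y0 + j * D - R / 2) ∪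
      ((Finset.range J).image (fun j : ℕ => y0 + j * D + R / 2 + 1 / (2 * b)) ∪
      (Finset.range J).image (fun j : ℕ => y0 + j * D - R / 2 + 1 / (2 * b))),
      1 < SX (ordz U1 U2) mu (sc Gt b) (Real.log T) (t + 2 * Real.pi * z / Real.log T)} ≤
      4 * J * (Real.exp (-J) * Real.exp (-J)) * T := by
    refine g1.trans ?_
    rw [e1]
    apply mul_le_mul_of_nonneg_right _ hT0.le
    exact mul_le_mul_of_nonneg_right c1 (by positivity)
  have f2 : ms T {t | ∃ z ∈ (Finset.range J).image (fun j : ℕ => y0 + j * D) ∪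
      (Finset.range J).image (fun j : ℕ => y0 + j * D + 1 / (2 * b2)),
      1 < SX (ordz U1 U2) mu (sc Gt b2) (Real.log T) (t + 2 * Real.pi * z / Real.log T)} ≤
      2 * J * (Real.exp (-J) * Real.exp (-J)) * T := by
    refine g2.trans ?_
    rw [e1]
    apply mul_le_mul_of_nonneg_right _ hT0.le
    exact mul_le_mul_of_nonneg_right c2 (by positivity)
  have f3 : ms T {t | N0 ≤ cC U1 U2 t (Real.pi * (2 * X1) / Real.log T)} ≤
      Real.exp (-J) * T := by
    refine g3.trans ?_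
    apply mul_le_mul_of_nonneg_right _ hT0.le
    apply Real.exp_le_exp.2
    have q1 : (1 : ℝ) ≤ Real.log N0 := by
      rw [← Real.log_exp 1]
      apply Real.log_le_log (Real.exp_pos _)
      have := Real.exp_one_lt_d9
      linarith
    have q2 : (N0 : ℝ) * 1 ≤ N0 * Real.log N0 := mul_le_mul_of_nonneg_left q1 (Nat.cast_nonneg _)
    linarith
  have f4 : ms T {t | Q ≤ ∑ m ∈ Kx U1 U2, (1 + (pos t (Real.log T) m / X) ^ 2)⁻¹} ≤
      Real.exp (-J) * T := by
    refine g4.trans (le_of_eq ?_)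
    rw [hQ, Real.exp_neg]
    field_simp
  have f5 : ms T {t | ∃ j ∈ Finset.range J, 1 < |SX (ordz U1 U2) mu (Wn b R) (Real.log T)
        (t + 2 * Real.pi * (y0 + j * D) / Real.log T) -
      (Wn b R 0 / 2 - (PW (Wn b R) b T (t + 2 * Real.pi * (y0 + j * D) / Real.log T)).re)|} ≤
      Real.exp (-J) * T := by
    refine g5.trans (le_of_eq ?_)
    field_simp
  have hsum : ms T (ExQ J s b D R b2 y0 X1 Q X N0 L a T U1 U2) ≤
      4 * J * (Real.exp (-J) * Real.exp (-J)) * T + (2 * J * (Real.exp (-J) * Real.exp (-J)) * T +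
        (Real.exp (-J) * T + (Real.exp (-J) * T + (Real.exp (-J) * T +
          Real.exp (-(J / 4)) * T)))) := by
    refine (ms_union_of (S := ExQ J s b D R b2 y0 X1 Q X N0 L a T U1 U2) ?_).trans
      (add_le_add f1 ((ms_union_of (S := {t | (∃ z ∈ (Finset.range J).image
      (fun j : ℕ => y0 + j * D) ∪
      (Finset.range J).image (fun j : ℕ => y0 + j * D + 1 / (2 * b2)),
      1 < SX (ordz U1 U2) mu (sc Gt b2) (Real.log T) (t + 2 * Real.pi * z / Real.log T)) ∨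
    N0 ≤ cC U1 U2 t (Real.pi * (2 * X1) / Real.log T) ∨
    Q ≤ ∑ m ∈ Kx U1 U2, (1 + (pos t (Real.log T) m / X) ^ 2)⁻¹ ∨
    (∃ j ∈ Finset.range J, 1 < |SX (ordz U1 U2) mu (Wn b R) (Real.log T)
        (t + 2 * Real.pi * (y0 + j * D) / Real.log T) -
      (Wn b R 0 / 2 - (PW (Wn b R) b T (t + 2 * Real.pi * (y0 + j * D) / Real.log T)).re)|) ∨
    ∀ j : Fin J, |s * (R - ∑ k ∈ Finset.Icc 1 L, Fk b R (a k - (y0 + (j : ℕ) * D))) -
      (PZ (Fw s b R y0 D j) T t).re| ≤ 1 / 2}) ?_).trans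
      (add_le_add f2 ((ms_union_of (S := {t | N0 ≤ cC U1 U2 t (Real.pi * (2 * X1) / Real.log T) ∨
    Q ≤ ∑ m ∈ Kx U1 U2, (1 + (pos t (Real.log T) m / X) ^ 2)⁻¹ ∨
    (∃ j ∈ Finset.range J, 1 < |SX (ordz U1 U2) mu (Wn b R) (Real.log T)
        (t + 2 * Real.pi * (y0 + j * D) / Real.log T) -
      (Wn b R 0 / 2 - (PW (Wn b R) b T (t + 2 * Real.pi * (y0 + j * D) / Real.log T)).re)|) ∨
    ∀ j : Fin J, |s * (R - ∑ k ∈ Finset.Icc 1 L, Fk b R (a k - (y0 + (j : ℕ) * D))) -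
      (PZ (Fw s b R y0 D j) T t).re| ≤ 1 / 2}) ?_).trans
      (add_le_add f3 ((ms_union_of (S := {t |
    Q ≤ ∑ m ∈ Kx U1 U2, (1 + (pos t (Real.log T) m / X) ^ 2)⁻¹ ∨
    (∃ j ∈ Finset.range J, 1 < |SX (ordz U1 U2) mu (Wn b R) (Real.log T)
        (t + 2 * Real.pi * (y0 + j * D) / Real.log T) -
      (Wn b R 0 / 2 - (PW (Wn b R) b T (t + 2 * Real.pi * (y0 + j * D) / Real.log T)).re)|) ∨
    ∀ j : Fin J, |s * (R - ∑ k ∈ Finset.Icc 1 L, Fk b R (a k - (y0 + (j : ℕ) * D))) -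
      (PZ (Fw s b R y0 D j) T t).re| ≤ 1 / 2}) ?_).trans
      (add_le_add f4 ((ms_union_of (S := {t |
    (∃ j ∈ Finset.range J, 1 < |SX (ordz U1 U2) mu (Wn b R) (Real.log T)
        (t + 2 * Real.pi * (y0 + j * D) / Real.log T) -
      (Wn b R 0 / 2 - (PW (Wn b R) b T (t + 2 * Real.pi * (y0 + j * D) / Real.log T)).re)|) ∨
    ∀ j : Fin J, |s * (R - ∑ k ∈ Finset.Icc 1 L, Fk b R (a k - (y0 + (j : ℕ) * D))) -
      (PZ (Fw s b R y0 D j) T t).re| ≤ 1 / 2}) ?_).trans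
      (add_le_add f5 g6))))))))) <;>
    · intro t _ _ ht
      exact ht
  have hfin : Real.exp (-(J : ℝ)) ≤ 1 / 4 * Real.exp (-(J / 4)) := by
    have q1 : Real.exp (-(J : ℝ)) = Real.exp (-(3 * J / 4)) * Real.exp (-(J / 4)) := by
      rw [← Real.exp_add]; congr 1; ring
    rw [q1]
    apply mul_le_mul_of_nonneg_right _ (Real.exp_pos _).le
    rw [Real.exp_neg, inv_le_comm₀ (Real.exp_pos _) (by norm_num)]
    have := Real.add_one_le_exp (3 * (J : ℝ) / 4)
    norm_num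
    linarith
  have h6 : 6 * J * (Real.exp (-(J : ℝ)) * Real.exp (-J)) ≤ Real.exp (-J) := by
    calc 6 * J * (Real.exp (-(J : ℝ)) * Real.exp (-J)) =
        (6 * J * Real.exp (-(J : ℝ))) * Real.exp (-J) := by ring
      _ ≤ 1 * Real.exp (-J) := mul_le_mul_of_nonneg_right hJe hej.le
      _ = _ := one_mul _
  calc _ ≤ _ := hsum
    _ = (6 * J * (Real.exp (-(J : ℝ)) * Real.exp (-J)) + 3 * Real.exp (-J) +
        Real.exp (-(J / 4))) * T := by ring
    _ ≤ 2 * Real.exp (-(J / 4)) * T := by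
        apply mul_le_mul_of_nonneg_right _ hT0.le
        linarith

end Pool.Agent.T9h26.TD
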