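import Pool.Agent.T9h26.TD.Qh
import Pool.Agent.T9h26.TD.Qt

set_option autoImplicit false

/-! A point which follows a pattern is exceptional. -/

open Complex Filter Topology Set MeasureTheory

namespace Pool.Agent.T9h26.TD

open TC (ordz ordT mu EFD)
open SG (ord NZ zmult ZS)
open W200.HW (Ix mem_Ix)
open Pool.Agent.Y747 (al)

variable {K : ℝ} {J m : ℕ} {K4 s b D R b2 y0 X1 : ℝ}

/-- the index `n` follows the pattern `a` within `K` for `L` steps -/
def Fol (K : ℝ) (L : ℕ) (a : ℕ → ℝ) (n : ℕ) : Prop := ∀ k : ℕ, 1 ≤ k → k ≤ L → |hk n k - a k| ≤ K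

open Classical in
/-- **a point which follows the pattern is exceptional** -/
theorem incl (RH : RiemannHypothesis) (h : Pm K J m K4 s b D R b2 y0 X1) {X Q T U1 U2 t : ℝ}
    {L n N0 : ℕ} (hX1 : 4 * X1 ≤ X) (hfar : L * (16 * R / (b * X ^ 2)) ≤ 1)
    (hQ : 8 * R / (b * X ^ 2) * Q ≤ 1) (hT : 10 ≤ T) (hXL : 20 * (X + 1 / b2) ≤ Real.log T)
    (hgs : L * (20 * X ^ 2 / Real.log T ^ 2 * (R * b)) ≤ 1)
    (hU1 : T ≤ U1) (hU1' : U1 ≤ T + 1) (hU2 : 2 * T - 1 ≤ U2)
    (hn1 : T + 2 * Real.log T ≤ ord n) (hn2 : ord n ≤ 2 * T - 2 * Real.log T) (hn : 1 ≤ n)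
    (ht1 : ord n ≤ t) (ht2 : t ≤ ord n + Real.pi / (2 * Real.log T)) {a : ℕ → ℝ}
    (hpat : Fol K L a n) (hN0 : N0 ≤ L) : t ∈ ExQ J s b D R b2 y0 X1 Q X N0 L a T U1 U2 := by
  have hJ := h.Jp
  have hb := h.b0
  have hb20 := h.b20
  have hib2 : 0 < 1 / b2 := by positivity
  have hib : 0 < 1 / b := by positivity
  have hibb : 1 / b ≤ 1 / b2 := one_div_le_one_div_of_le hb20 h.b2b
  have hR1 := h.R1
  have hD0 := h.D0
  have hRD := h.RD
  have hK1 := h.K1
  have hKJ := h.JK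
  have hb1 : b ≤ 1 / 2 := h.b1.trans (by norm_num)
  have hb21 : b2 ≤ 1 / 2 := h.b2b.trans hb1
  have hi2 := h.ib2
  have hJD : 0 ≤ J * D := by positivity
  have hR0 : 0 < R := by linarith
  have hX1R : 2 * R ≤ X1 := by
    have h1 : 1 * D ≤ J * D := mul_le_mul_of_nonneg_right (by linarith) hD0.le
    rw [h.X1e, h.y0e]
    linarith
  have hX1b : 1 / b2 ≤ X1 := by
    rw [h.X1e, h.y0e]
    linarith
  have hXb : 20 * (X + 1 / b) ≤ Real.log T := by linarith
  have hℓ : 0 < Real.log T := by linarith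
  have hU : 1 ≤ U1 := by linarith
  have hy : ∀ j : ℕ, j < J → 1 / b2 + 1 + R ≤ y0 + j * D ∧ y0 + j * D + D + 1 / b2 + 1 ≤ X1 := by
    intro j hj
    have hj0 : 0 ≤ j * D := by positivity
    have hj1 : (j : ℝ) + 1 ≤ J := by exact_mod_cast hj
    have hj2 : (j + 1) * D ≤ J * D := mul_le_mul_of_nonneg_right hj1 hD0.le
    rw [h.X1e, h.y0e]
    constructor <;> linarith
  by_contra hE
  unfold ExQ at hE
  rw [Set.mem_setOf_eq, not_or, not_or, not_or, not_or, not_or] at hE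
  obtain ⟨e1, e2, e3, e4, e5, e6⟩ := hE
  apply e6
  intro j
  have hjJ := j.2
  obtain ⟨hy1, hy2⟩ := hy j hjJ
  have q1 : SX (ordz U1 U2) mu (sc Gt b) (Real.log T)
      (t + 2 * Real.pi * (y0 + (j : ℕ) * D + R / 2) / Real.log T) ≤ 1 := by
    by_contra hc
    apply e1
    refine ⟨_, ?_, not_le.1 hc⟩
    rw [Finset.mem_union, Finset.mem_union, Finset.mem_union]
    exact Or.inl (Or.inl (Finset.mem_image.2 ⟨j, Finset.mem_range.2 hjJ, rfl⟩))
  have q2 : SX (ordz U1 U2) mu (sc Gt b) (Real.log T)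
      (t + 2 * Real.pi * (y0 + (j : ℕ) * D - R / 2) / Real.log T) ≤ 1 := by
    by_contra hc
    apply e1
    refine ⟨_, ?_, not_le.1 hc⟩
    rw [Finset.mem_union, Finset.mem_union, Finset.mem_union]
    exact Or.inl (Or.inr (Finset.mem_image.2 ⟨j, Finset.mem_range.2 hjJ, rfl⟩))
  have q3 : SX (ordz U1 U2) mu (sc Gt b) (Real.log T)
      (t + 2 * Real.pi * (y0 + (j : ℕ) * D + R / 2 + 1 / (2 * b)) / Real.log T) ≤ 1 := by
    by_contra hc
    apply e1
    refine ⟨_, ?_, not_le.1 hc⟩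
    rw [Finset.mem_union, Finset.mem_union, Finset.mem_union]
    exact Or.inr (Or.inl (Finset.mem_image.2 ⟨j, Finset.mem_range.2 hjJ, rfl⟩))
  have q4 : SX (ordz U1 U2) mu (sc Gt b) (Real.log T)
      (t + 2 * Real.pi * (y0 + (j : ℕ) * D - R / 2 + 1 / (2 * b)) / Real.log T) ≤ 1 := by
    by_contra hc
    apply e1
    refine ⟨_, ?_, not_le.1 hc⟩
    rw [Finset.mem_union, Finset.mem_union, Finset.mem_union]
    exact Or.inr (Or.inr (Finset.mem_image.2 ⟨j, Finset.mem_range.2 hjJ, rfl⟩))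
  have q5 : SX (ordz U1 U2) mu (sc Gt b2) (Real.log T)
      (t + 2 * Real.pi * (y0 + (j : ℕ) * D) / Real.log T) ≤ 1 := by
    by_contra hc
    apply e2
    refine ⟨_, ?_, not_le.1 hc⟩
    rw [Finset.mem_union]
    exact Or.inl (Finset.mem_image.2 ⟨j, Finset.mem_range.2 hjJ, rfl⟩)
  have q6 : SX (ordz U1 U2) mu (sc Gt b2) (Real.log T)
      (t + 2 * Real.pi * (y0 + (j : ℕ) * D + 1 / (2 * b2)) / Real.log T) ≤ 1 := by
    by_contra hc
    apply e2
    refine ⟨_, ?_, not_le.1 hc⟩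
    rw [Finset.mem_union]
    exact Or.inr (Finset.mem_image.2 ⟨j, Finset.mem_range.2 hjJ, rfl⟩)
  have q7 : |SX (ordz U1 U2) mu (Wn b R) (Real.log T)
        (t + 2 * Real.pi * (y0 + (j : ℕ) * D) / Real.log T) -
      (Wn b R 0 / 2 - (PW (Wn b R) b T
        (t + 2 * Real.pi * (y0 + (j : ℕ) * D) / Real.log T)).re)| ≤ 1 := by
    by_contra hc
    exact e5 ⟨j, Finset.mem_range.2 hjJ, not_le.1 hc⟩
  have p1 := pk_sum RH hU hb hb1 hℓ (t := t) (z := y0 + (j : ℕ) * D + R / 2) (X := X) (by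
    rw [abs_of_pos (by linarith)]; linarith) hXb q1 q3
  have p2 := pk_sum RH hU hb hb1 hℓ (t := t) (z := y0 + (j : ℕ) * D - R / 2) (X := X) (by
    rw [abs_of_pos (by linarith)]; linarith) hXb q2 q4
  have p3 := pk_sum RH hU hb20 hb21 hℓ (t := t) (z := y0 + (j : ℕ) * D) (X := X) (by
    rw [abs_of_pos (by linarith)]; linarith) hXL q5 q6
  have hκ : b * (K + 1) ≤ 1 := by
    have := h.Jb
    have h1 : b * (K + 1) ≤ b * J := mul_le_mul_of_nonneg_left hKJ hb.le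
    linarith
  have hRJ : R * 1 ≤ R * (4000000 * J) := mul_le_mul_of_nonneg_left (by linarith) (by linarith)
  have hd := det RH (L := L) (n := n) (N0 := N0) (a := a) (K := K) (X1 := X1) (Q := Q) hb hb1
    (by linarith) hb20 hb21 (by rw [hi2]; linarith)
    (by rw [h.b2e]; exact le_of_eq (mul_div_cancel₀ b (by positivity))) (by linarith) hκ
    (by rw [hi2]; linarith) (y := y0 + (j : ℕ) * D) (X := X) (T := T) (U1 := U1) (U2 := U2) (t := t)
    (by linarith) (by linarith) (by linarith) (by linarith) (by linarith) (by linarith)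
    hfar hQ hT hXb hgs hU1 hU1' hU2 hn1 hn2 hn ht1 ht2 hpat p1 p2 p3
    (by
      rw [show 2 * Real.pi * X1 / Real.log T = Real.pi * (2 * X1) / Real.log T by ring]
      exact not_le.1 e3) hN0 (not_le.1 e4)
  have hf := h.fld (T := T) (by linarith) j t
  rw [hf]
  rw [Wn_at_zero] at q7
  set PWr := (PW (Wn b R) b T (t + 2 * Real.pi * (y0 + (j : ℕ) * D) / Real.log T)).re
  set S := SX (ordz U1 U2) mu (Wn b R) (Real.log T)
        (t + 2 * Real.pi * (y0 + (j : ℕ) * D) / Real.log T)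
  set F := ∑ k ∈ Finset.Icc 1 L, Fk b R (a k - (y0 + (j : ℕ) * D))
  have hs0 : 0 < s := by rw [h.se]; have := h.K40; positivity
  have hsK : s * K4 = 1 / 2 := by
    rw [h.se]
    have : K4 ≠ 0 := by have := h.K40; linarith
    field_simp
  rw [← mul_sub, abs_mul, abs_of_pos hs0, ← hsK]
  apply mul_le_mul_of_nonneg_left _ hs0.le
  rw [h.K4e]
  rw [abs_le] at q7 hd ⊢
  constructor <;> linarith [q7.1, q7.2, hd.1, hd.2]

end Pool.Agent.T9h26.TD
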