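import Pool.Agent.T9h26.TD.Qi

set_option autoImplicit false

/-! The block theorem for patterns. -/

open Complex Filter Topology Set MeasureTheory

namespace Pool.Agent.T9h26.TD

open TC (ordz ordT mu EFD)
open SG (ord NZ zmult ZS)
open W200.HW (Ix mem_Ix)
open Pool.Agent.Y747 (al)

/-- **the block theorem for patterns** -/
theorem pat_blk (RH : RiemannHypothesis) {C' : ℝ} (hC' : 0 < C') :
    ∃ Kc J0 : ℝ, 1 ≤ Kc ∧ 1 ≤ J0 ∧ ∀ (K : ℝ) (J m : ℕ) (K4 s b D R b2 y0 X1 : ℝ),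
      Pm K J m K4 s b D R b2 y0 X1 → J0 ≤ J → ∀ L : ℕ, Kc * (2 * X1 + 1) + 1 + 2 * J ≤ L →
      ∃ T1 : ℝ, 10 ≤ T1 ∧ ∀ T : ℝ, T1 ≤ T → ∀ U1 U2 : ℝ, T ≤ U1 → U1 ≤ T + 1 →
      2 * T - 1 ≤ U2 → U2 ≤ 2 * T → EFD C' T (ordz U1 U2) mu → ∀ a : ℕ → ℝ, ∀ B : Finset ℕ,
        B ⊆ Kx U1 U2 → (∀ n ∈ B, Fol K L a n ∧ T + 2 * Real.log T ≤ ord n ∧
          ord n ≤ 2 * T - 2 * Real.log T) →
        (B.card : ℝ) ≤ 1 / 7 * Real.exp (-(J / 8)) * (T * Real.log T) := by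
  obtain ⟨C3, hC3, hcov⟩ := cover RH hC'
  obtain ⟨Kc, hKc1, hKc⟩ := blockC RH hC' (ε := 1 / 2) (by norm_num) (by norm_num)
  refine ⟨Kc, 3584 * C3, hKc1, by linarith, fun K J m K4 s b D R b2 y0 X1 h hJ0 L hL => ?_⟩
  have hJ := h.Jp
  have hb := h.b0
  have hb20 := h.b20
  have hR1 := h.R1
  have hR0 : 0 < R := by linarith
  have hD0 := h.D0
  have hX1 : 0 < X1 := by
    rw [h.X1e, h.y0e]
    positivity
  set N0 : ℕ := ⌈Kc * (2 * X1 + 1)⌉₊ + 2 * J with hN0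
  have hc1 := Nat.le_ceil (Kc * (2 * X1 + 1))
  have hc2 := Nat.ceil_lt_add_one (show 0 ≤ Kc * (2 * X1 + 1) by positivity)
  have hN0a : Kc * (2 * X1 + 1) ≤ N0 := by
    rw [hN0]; push_cast; linarith
  have hN0b : 2 * (J : ℝ) ≤ N0 := by
    have : 0 ≤ Kc * (2 * X1 + 1) := by positivity
    rw [hN0]; push_cast; linarith
  have hN0L : N0 ≤ L := by
    have : (N0 : ℝ) ≤ L := by
      rw [hN0]; push_cast; linarith
    exact_mod_cast this
  set X : ℝ := 4 * X1 + 16 * R * L / b + 160 * C' * R * Real.exp J / b + 1 with hX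
  have hx1 : 0 ≤ 16 * R * L / b := by positivity
  have hx2 : 0 ≤ 160 * C' * R * Real.exp J / b := by positivity
  have hXp : 1 ≤ X := by rw [hX]; linarith
  have hX0 : 0 < X := by linarith
  have hfar : L * (16 * R / (b * X ^ 2)) ≤ 1 := by
    rw [← mul_div_assoc, div_le_one (by positivity)]
    have h1 : 16 * R * L / b ≤ X := by rw [hX]; linarith
    rw [div_le_iff₀ hb] at h1
    have h2 : X * b ≤ X ^ 2 * b := mul_le_mul_of_nonneg_right (by nlinarith) hb.le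
    linarith
  have hQ : 8 * R / (b * X ^ 2) * (20 * C' * X * Real.exp J) ≤ 1 := by
    rw [div_mul_eq_mul_div, div_le_one (by positivity)]
    have h1 : 160 * C' * R * Real.exp J / b ≤ X := by rw [hX]; linarith
    rw [div_le_iff₀ hb] at h1
    have h2 := mul_le_mul_of_nonneg_right h1 hX0.le
    linarith
  obtain ⟨T1, hT1, k1⟩ := ExQ_ms RH hC' h hX0 rfl hKc hN0a hN0b L
  obtain ⟨T2, hT2, k2⟩ := hcov J (by linarith)
  have ev : ∀ᶠ T : ℝ in atTop, max (20 * (X + 1 / b2)) (L * (20 * X ^ 2 * (R * b)) + 1) ≤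
      Real.log T := Real.tendsto_log_atTop.eventually_ge_atTop _
  obtain ⟨T3, k3⟩ := eventually_atTop.1 ev
  refine ⟨max T1 (max T2 T3), hT1.trans (le_max_left _ _),
    fun T hT U1 U2 u1 u2 u3 u4 hE a B hBK hB => ?_⟩
  have hTT1 : T1 ≤ T := (le_max_left _ _).trans hT
  have hTT2 : T2 ≤ T := ((le_max_left _ _).trans (le_max_right _ _)).trans hT
  have hTT3 : T3 ≤ T := ((le_max_right _ _).trans (le_max_right _ _)).trans hT
  have hT10 : 10 ≤ T := hT1.trans hTT1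
  have hT0 : 0 < T := by linarith
  have hU : 1 ≤ U1 := by linarith
  have hl := k3 T hTT3
  have hl1 : 20 * (X + 1 / b2) ≤ Real.log T := (le_max_left _ _).trans hl
  have hl2 : L * (20 * X ^ 2 * (R * b)) + 1 ≤ Real.log T := (le_max_right _ _).trans hl
  have hLX : 0 ≤ L * (20 * X ^ 2 * (R * b)) := by positivity
  have hℓ1 : 1 ≤ Real.log T := by linarith
  have hℓ0 : 0 < Real.log T := by linarith
  have hgs : L * (20 * X ^ 2 / Real.log T ^ 2 * (R * b)) ≤ 1 := by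
    have e : L * (20 * X ^ 2 / Real.log T ^ 2 * (R * b)) =
        L * (20 * X ^ 2 * (R * b)) / Real.log T ^ 2 := by ring
    rw [e, div_le_one (by positivity)]
    have : Real.log T * 1 ≤ Real.log T * Real.log T := mul_le_mul_of_nonneg_left hℓ1 hℓ0.le
    rw [sq]
    linarith
  have hms := k1 T hTT1 U1 U2 hU hE a
  have hcard := k2 T hTT2 U1 U2 hU hE B
    (ExQ J s b D R b2 y0 X1 (20 * C' * X * Real.exp J) X N0 L a T U1 U2) hBK
    (fun n hn => (hB n hn).2) (by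
      intro n hn t ht1 ht2
      obtain ⟨q1, q2, q3⟩ := hB n hn
      have hn1 := (mem_Kx.1 (hBK hn)).1
      exact incl RH h (by rw [hX]; linarith) hfar hQ hT10 hl1 hgs u1 u2 u3 q2 q3 hn1 ht1 ht2 q1
        hN0L)
  refine hcard.trans ?_
  have hJ0' : 0 < (J : ℝ) := by linarith
  -- numerical bounds
  have n1 : 28 * C3 * J * Real.exp (-(J / 8 : ℝ)) ≤ 1 := by
    rw [Real.exp_neg, ← div_eq_mul_inv, div_le_one (Real.exp_pos _)]
    have q := Real.quadratic_le_exp_of_nonneg (x := (J : ℝ) / 8) (by positivity)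
    have q2 : 3584 * C3 * J ≤ J * J := mul_le_mul_of_nonneg_right hJ0 hJ0'.le
    nlinarith
  have n2 : 14 * C3 * Real.exp (-(7 * J / 8 : ℝ)) ≤ 1 := by
    rw [Real.exp_neg, ← div_eq_mul_inv, div_le_one (Real.exp_pos _)]
    have q := Real.add_one_le_exp (7 * (J : ℝ) / 8)
    linarith
  have e1 : Real.exp (-(J / 4 : ℝ)) = Real.exp (-(J / 8 : ℝ)) * Real.exp (-(J / 8 : ℝ)) := by
    rw [← Real.exp_add]; congr 1; ring
  have e2 : Real.exp (-(J : ℝ)) = Real.exp (-(7 * J / 8 : ℝ)) * Real.exp (-(J / 8 : ℝ)) := by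
    rw [← Real.exp_add]; congr 1; ring
  have hE8 := Real.exp_pos (-(J / 8 : ℝ))
  have hm1 : C3 * J * ms T (ExQ J s b D R b2 y0 X1 (20 * C' * X * Real.exp J) X N0 L a T U1 U2) ≤
      1 / 14 * Real.exp (-(J / 8 : ℝ)) * T := by
    calc _ ≤ C3 * J * (2 * Real.exp (-(J / 4)) * T) :=
          mul_le_mul_of_nonneg_left hms (by positivity)
      _ = 1 / 14 * (28 * C3 * J * Real.exp (-(J / 8 : ℝ))) * Real.exp (-(J / 8 : ℝ)) * T := by
          rw [e1]; ring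
      _ ≤ 1 / 14 * 1 * Real.exp (-(J / 8 : ℝ)) * T := by gcongr
      _ = _ := by ring
  have hm2 : C3 * Real.exp (-(J : ℝ)) * T ≤ 1 / 14 * Real.exp (-(J / 8 : ℝ)) * T := by
    calc C3 * Real.exp (-(J : ℝ)) * T = 1 / 14 * (14 * C3 * Real.exp (-(7 * J / 8 : ℝ))) *
          Real.exp (-(J / 8 : ℝ)) * T := by rw [e2]; ring
      _ ≤ 1 / 14 * 1 * Real.exp (-(J / 8 : ℝ)) * T := by gcongr
      _ = _ := by ring
  calc _ ≤ Real.log T * (1 / 14 * Real.exp (-(J / 8 : ℝ)) * T +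
        1 / 14 * Real.exp (-(J / 8 : ℝ)) * T) :=
        mul_le_mul_of_nonneg_left (add_le_add hm1 hm2) hℓ0.le
    _ = _ := by ring

end Pool.Agent.T9h26.TD
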