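import Pool.Agent.T9h26.TD.Qj

set_option autoImplicit false

/-! The choice of parameters and the theorem for all indices. -/

open Complex Filter Topology Set MeasureTheory

namespace Pool.Agent.T9h26.TD

open TC (ordz ordT mu EFD)
open SG (ord NZ zmult ZS)
open W200.HW (Ix mem_Ix)
open Pool.Agent.Y747 (al)

/-- admissible parameters exist, and the window is not too far -/
lemma Pm_ex {K : ℝ} (hK : 1 ≤ K) {J : ℕ} (hJ : 40 ≤ J) (hKJ : K + 1 ≤ J) :
    ∃ (m : ℕ) (K4 s b D R b2 y0 X1 : ℝ), Pm K J m K4 s b D R b2 y0 X1 ∧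
      X1 ≤ 21000000000000000 * (Real.exp (13000000000 * K ^ 2) * J ^ 2) := by
  have hJr : (40 : ℝ) ≤ J := by exact_mod_cast hJ
  set K4 : ℝ := 9 + 2560 * (K + 1) with hK4
  set x : ℝ := 480 * K4 ^ 2 with hx
  have hx0 : 0 ≤ x := by positivity
  have hxle : x ≤ 13000000000 * K ^ 2 := by
    have h1 : K4 ≤ 5129 * K := by rw [hK4]; linarith
    have h2 : K4 ^ 2 ≤ (5129 * K) ^ 2 := by
      apply pow_le_pow_left₀ _ h1
      rw [hK4]; linarith
    rw [hx]
    nlinarith [sq_nonneg K]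
  have hex : 1 ≤ Real.exp x := Real.one_le_exp hx0
  set m : ℕ := ⌊Real.exp x⌋₊ with hm
  have hm0 : (m : ℝ) ≤ Real.exp x := Nat.floor_le (Real.exp_pos _).le
  have hm1 : Real.exp x < m + 1 := Nat.lt_floor_add_one _
  have hm2 : 1 ≤ m := Nat.le_floor (by push_cast; exact hex)
  have hmr : (1 : ℝ) ≤ m := by exact_mod_cast hm2
  set b : ℝ := 1 / (4000000 * J) with hb
  have hb0 : 0 < b := by positivity
  set R : ℝ := 2 * m / b with hR
  set b2 : ℝ := b / (320 * R) with hb2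
  set D : ℝ := 8 * m / b with hD
  set y0 : ℝ := 1 / b2 + R + 1 with hy0
  set X1 : ℝ := y0 + J * D + 1 / b2 + 1 with hX1
  have hp : Pm K J m K4 (1 / (2 * K4)) b D R b2 y0 X1 := by
    refine ⟨hK, hJ, hKJ, rfl, hm2, ?_, ?_, rfl, rfl, rfl, rfl, rfl, rfl, rfl⟩
    · rw [← Real.log_exp (480 * K4 ^ 2)]
      exact Real.log_le_log (Real.exp_pos _) hm1.le
    · rw [← Real.log_exp (480 * K4 ^ 2 + 1)]
      apply Real.log_le_log (by linarith)
      rw [Real.exp_add, ← hx]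
      have := Real.add_one_le_exp (1 : ℝ)
      nlinarith
  refine ⟨m, K4, 1 / (2 * K4), b, D, R, b2, y0, X1, hp, ?_⟩
  have hR' := hp.Reb
  have hib2 := hp.ib2
  have hRD := hp.RD
  have hmJ : (m : ℝ) * J ≤ m * J ^ 2 := by
    apply mul_le_mul_of_nonneg_left _ (by linarith)
    nlinarith
  have hmJ1 : 1 ≤ (m : ℝ) * J ^ 2 := by nlinarith
  have hm3 : (m : ℝ) * J ^ 2 ≤ Real.exp (13000000000 * K ^ 2) * J ^ 2 := by
    apply mul_le_mul_of_nonneg_right _ (sq_nonneg _)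
    exact hm0.trans (Real.exp_le_exp.2 hxle)
  have e1 : 1 / b2 = 10240000000000000 * (m * J ^ 2) := by
    rw [hib2, hR']; ring
  have e2 : J * D = 32000000 * (m * J ^ 2) := by
    have : D = 4 * R := by linarith
    rw [this, hR']; ring
  have e3 : R = 8000000 * (m * J) := by rw [hR']; ring
  have e4 : X1 = 10240000000000000 * (m * J ^ 2) + 8000000 * (m * J) + 1 +
      32000000 * (m * J ^ 2) + 10240000000000000 * (m * J ^ 2) + 1 := by
    rw [hX1, hy0, e1, e2, e3]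
  rw [e4]
  linarith

/-- **the theorem for all indices** -/
theorem pat_all (RH : RiemannHypothesis) : ∃ C : ℝ, 1 ≤ C ∧ ∀ K : ℝ, 1 ≤ K → ∀ L : ℕ,
    Real.exp (C * K ^ 2) ≤ L → ∀ᶠ N : ℕ in atTop, ∀ a : ℕ → ℝ,
      (({n : ℕ | 1 ≤ n ∧ n ≤ N ∧ Fol K L a n}.ncard : ℕ) : ℝ) ≤
        Real.exp (-(Real.exp (-(C * K ^ 2)) * √L)) * N := by
  obtain ⟨C', T0, hC', hT0, hef⟩ := Pool.Agent.W930.TCEFR.efr RH
  obtain ⟨Kc, J0, hKc, hJ01, hblk⟩ := pat_blk RH hC'
  set A : ℝ := 50000000000000000 * Kc with hA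
  have hA1 : 1 ≤ A := by rw [hA]; linarith
  set A' : ℝ := 13000000000 with hA'
  set M : ℝ := A * (J0 + 43) ^ 2 with hM
  have hJ43 : (1 : ℝ) ≤ (J0 + 43) ^ 2 := by nlinarith
  have hM1 : 1 ≤ M := by rw [hM]; nlinarith
  have hlM : 0 ≤ Real.log M := Real.log_nonneg hM1
  refine ⟨A' + 1 + Real.log M, by rw [hA']; linarith, fun K hK L hL => ?_⟩
  have hK2 : 1 ≤ K ^ 2 := by nlinarith
  -- the exponential
  have hexp : M * Real.exp ((A' + 1) * K ^ 2) ≤ Real.exp ((A' + 1 + Real.log M) * K ^ 2) := by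
    have e : (A' + 1 + Real.log M) * K ^ 2 = Real.log M * K ^ 2 + (A' + 1) * K ^ 2 := by ring
    rw [e, Real.exp_add]
    apply mul_le_mul_of_nonneg_right _ (Real.exp_pos _).le
    calc M = Real.exp (Real.log M) := (Real.exp_log (by linarith)).symm
      _ ≤ Real.exp (Real.log M * K ^ 2) := by
          apply Real.exp_le_exp.2
          nlinarith
  set E : ℝ := A * Real.exp (A' * K ^ 2) with hE
  have hE1 : 1 ≤ E := by
    have : 1 ≤ Real.exp (A' * K ^ 2) := Real.one_le_exp (by rw [hA']; positivity)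
    rw [hE]
    nlinarith
  have hE0 : 0 < E := by linarith
  have hS0 : 0 ≤ J0 + 42 + K := by linarith
  have hS : (J0 + 42 + K) ^ 2 ≤ (L : ℝ) / E := by
    rw [le_div_iff₀ hE0]
    refine le_trans ?_ (hexp.trans hL)
    have h1 : J0 + 42 + K ≤ (J0 + 43) * K := by nlinarith
    have h2 : (J0 + 42 + K) ^ 2 ≤ ((J0 + 43) * K) ^ 2 := pow_le_pow_left₀ hS0 h1 2
    have h3 : K ^ 2 ≤ Real.exp (K ^ 2) := by
      have := Real.add_one_le_exp (K ^ 2)
      linarith
    have h4 : (J0 + 42 + K) ^ 2 ≤ (J0 + 43) ^ 2 * Real.exp (K ^ 2) := by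
      rw [mul_pow] at h2
      exact h2.trans (mul_le_mul_of_nonneg_left h3 (by positivity))
    calc (J0 + 42 + K) ^ 2 * E ≤ (J0 + 43) ^ 2 * Real.exp (K ^ 2) * E :=
          mul_le_mul_of_nonneg_right h4 hE0.le
      _ = M * Real.exp ((A' + 1) * K ^ 2) := by
          rw [hM, hE, show (A' + 1) * K ^ 2 = K ^ 2 + A' * K ^ 2 by ring, Real.exp_add]
          ring
  set x : ℝ := √(L / E) with hx
  have hxS : J0 + 42 + K ≤ x := Real.le_sqrt_of_sq_le hS
  have hLE : 0 ≤ (L : ℝ) / E := by positivity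
  have hx2 : x ^ 2 = L / E := Real.sq_sqrt hLE
  set J : ℕ := ⌊x⌋₊ with hJ
  have hx0 : 0 ≤ x := Real.sqrt_nonneg _
  have hJx : (J : ℝ) ≤ x := Nat.floor_le hx0
  have hJx1 : x < J + 1 := Nat.lt_floor_add_one _
  have hJ40 : 40 ≤ J := by
    apply Nat.le_floor
    push_cast
    linarith
  have hJr : (40 : ℝ) ≤ J := by exact_mod_cast hJ40
  obtain ⟨m, K4, s, b, D, R, b2, y0, X1, hp, hX1⟩ := Pm_ex hK hJ40 (by linarith)
  have hJ2 : (J : ℝ) ^ 2 ≤ L / E := by
    rw [← hx2]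
    exact pow_le_pow_left₀ (by positivity) hJx 2
  have hJ2E : E * (J : ℝ) ^ 2 ≤ L := by
    rw [le_div_iff₀ hE0] at hJ2
    linarith
  have hblk2 := hblk K J m K4 s b D R b2 y0 X1 hp (by linarith) L (by
    refine le_trans ?_ hJ2E
    rw [hE, hA]
    set W : ℝ := Real.exp (A' * K ^ 2) * J ^ 2 with hW
    have hW1 : (J : ℝ) ^ 2 ≤ W := by
      have : 1 ≤ Real.exp (A' * K ^ 2) := Real.one_le_exp (by rw [hA']; positivity)
      rw [hW]
      nlinarith [sq_nonneg (J : ℝ)]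
    have hW2 : (J : ℝ) ≤ W := by nlinarith
    have hW3 : 1 ≤ W := by linarith
    have e : 50000000000000000 * Kc * Real.exp (A' * K ^ 2) * (J : ℝ) ^ 2 =
        Kc * (50000000000000000 * W) := by rw [hW]; ring
    rw [e]
    have h1 : Kc * (2 * X1 + 1) ≤ Kc * (42000000000000001 * W) := by
      apply mul_le_mul_of_nonneg_left _ (by linarith)
      linarith
    have h2 : 1 * (7000000000000000 * W) ≤ Kc * (7000000000000000 * W) :=
      mul_le_mul_of_nonneg_right hKc (by linarith)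
    have h3 : Kc * (50000000000000000 * W) = Kc * (42000000000000001 * W) +
        Kc * (7000000000000000 * W) + Kc * (999999999999999 * W) := by ring
    have h4 : 0 ≤ Kc * (999999999999999 * W) := by positivity
    linarith)
  have hfin := trans_u RH (P := fun (a : ℕ → ℝ) n => Fol K L a n) (Real.exp_pos (-(J / 8 : ℝ)))
    hT0 hef hblk2
  filter_upwards [hfin] with N hN a
  refine (hN a).trans ?_
  apply mul_le_mul_of_nonneg_right _ (Nat.cast_nonneg N)
  apply Real.exp_le_exp.2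
  apply neg_le_neg
  -- the final numerical bound
  have hsq : √(L : ℝ) ≤ E * x := by
    have h1 : √(L : ℝ) = √E * x := by
      rw [hx, ← Real.sqrt_mul hE0.le]
      congr 1
      field_simp
    rw [h1]
    apply mul_le_mul_of_nonneg_right _ hx0
    rw [Real.sqrt_le_left hE0.le]
    nlinarith
  have hE16 : 16 * E ≤ Real.exp ((A' + 1 + Real.log M) * K ^ 2) := by
    refine le_trans ?_ hexp
    rw [show (A' + 1) * K ^ 2 = K ^ 2 + A' * K ^ 2 by ring, Real.exp_add, hM, hE]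
    have h3 : 1 ≤ Real.exp (K ^ 2) := Real.one_le_exp (by positivity)
    have h4 : (16 : ℝ) ≤ (J0 + 43) ^ 2 := by nlinarith
    have h5 : 16 * 1 ≤ (J0 + 43) ^ 2 * Real.exp (K ^ 2) :=
      mul_le_mul h4 h3 (by norm_num) (by positivity)
    calc 16 * (A * Real.exp (A' * K ^ 2)) = (16 * 1) * (A * Real.exp (A' * K ^ 2)) := by ring
      _ ≤ ((J0 + 43) ^ 2 * Real.exp (K ^ 2)) * (A * Real.exp (A' * K ^ 2)) :=
          mul_le_mul_of_nonneg_right h5 (by positivity)
      _ = _ := by ring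
  rw [Real.exp_neg, inv_mul_le_iff₀ (Real.exp_pos _)]
  have hJh : x / 2 ≤ J := by linarith
  calc √(L : ℝ) ≤ E * x := hsq
    _ ≤ E * (2 * J) := mul_le_mul_of_nonneg_left (by linarith) hE0.le
    _ = 16 * E * (J / 8) := by ring
    _ ≤ _ := mul_le_mul_of_nonneg_right hE16 (by positivity)

end Pool.Agent.T9h26.TD
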