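import Pool.Agent.T9h26.TD.Sw

set_option autoImplicit false

/-! Transforms of even Lipschitz functions of compact support form an algebra. -/

open Complex Filter Topology Set MeasureTheory

namespace Pool.Agent.T9h26.TD

/-- cosine transforms of even Lipschitz functions of compact support -/
def Al (ψ : ℝ → ℝ) : Prop := ∃ (φ : ℝ → ℝ) (A : ℝ) (K : NNReal), 0 < A ∧ LipschitzWith K φ ∧
  (∀ u, φ (-u) = φ u) ∧ (∀ u, A ≤ |u| → φ u = 0) ∧
  ∀ x, ψ x = ∫ u, φ u * Real.cos (2 * Real.pi * x * u)

lemma cs_of {φ : ℝ → ℝ} {A : ℝ} (h : ∀ u, A ≤ |u| → φ u = 0) : HasCompactSupport φ := by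
  apply HasCompactSupport.of_support_subset_isCompact (isCompact_Icc (a := -A) (b := A))
  intro x hx
  rw [Function.mem_support] at hx
  rw [mem_Icc, ← abs_le]
  by_contra hc
  rw [not_le] at hc
  exact hx (h x hc.le)

lemma int_of {φ : ℝ → ℝ} (hc : Continuous φ) {A : ℝ} (h : ∀ u, A ≤ |u| → φ u = 0) {g : ℝ → ℝ}
    (hg : Continuous g) : Integrable fun u => φ u * g u := by
  apply (hc.mul hg).integrable_of_hasCompactSupport
  exact (cs_of h).mul_right

lemma Al.add {ψ1 ψ2 : ℝ → ℝ} (h1 : Al ψ1) (h2 : Al ψ2) : Al fun x => ψ1 x + ψ2 x := by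
  obtain ⟨φ1, A1, K1, hA1, hl1, he1, hs1, hf1⟩ := h1
  obtain ⟨φ2, A2, K2, hA2, hl2, he2, hs2, hf2⟩ := h2
  refine ⟨fun u => φ1 u + φ2 u, max A1 A2, K1 + K2, lt_max_of_lt_left hA1, hl1.add hl2, ?_, ?_, ?_⟩
  · intro u
    simp only [he1 u, he2 u]
  · intro u hu
    simp only
    rw [hs1 u ((le_max_left _ _).trans hu), hs2 u ((le_max_right _ _).trans hu), add_zero]
  · intro x
    have hc : Continuous fun u : ℝ => Real.cos (2 * Real.pi * x * u) := by fun_prop
    simp_rw [add_mul]
    rw [integral_add (int_of hl1.continuous hs1 hc) (int_of hl2.continuous hs2 hc), hf1, hf2]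

lemma Al.smul {ψ : ℝ → ℝ} (h : Al ψ) (c : ℝ) : Al fun x => c * ψ x := by
  obtain ⟨φ, A, K, hA, hl, he, hs, hf⟩ := h
  refine ⟨fun u => c * φ u, A, ‖c‖₊ * K, hA, ?_, ?_, ?_, ?_⟩
  · apply LipschitzWith.of_dist_le_mul
    intro x y
    have := hl.dist_le_mul x y
    rw [Real.dist_eq, ← mul_sub, abs_mul, ← Real.dist_eq (φ x) (φ y)]
    push_cast
    rw [mul_assoc, ← Real.norm_eq_abs]
    exact mul_le_mul_of_nonneg_left this (norm_nonneg c)
  · intro u
    simp only [he u]
  · intro u hu
    simp only [hs u hu, mul_zero]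
  · intro x
    simp only
    rw [hf, ← integral_const_mul]
    apply integral_congr_ae
    filter_upwards with u
    ring

lemma sin_zero_of {φ : ℝ → ℝ} (he : ∀ u, φ (-u) = φ u) (c : ℝ) :
    ∫ u, φ u * Real.sin (c * u) = 0 := by
  have h1 := integral_neg_eq_self (fun u => φ u * Real.sin (c * u)) (volume : Measure ℝ)
  have h2 : ∀ u : ℝ, φ (-u) * Real.sin (c * -u) = -(φ u * Real.sin (c * u)) := by
    intro u
    rw [he, mul_neg, Real.sin_neg]
    ring
  simp_rw [h2] at h1
  rw [integral_neg] at h1
  linarith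

/-- products correspond to convolutions -/
lemma Al.mul {ψ1 ψ2 : ℝ → ℝ} (h1 : Al ψ1) (h2 : Al ψ2) : Al fun x => ψ1 x * ψ2 x := by
  obtain ⟨φ1, A1, K1, hA1, hl1, he1, hs1, hf1⟩ := h1
  obtain ⟨φ2, A2, K2, hA2, hl2, he2, hs2, hf2⟩ := h2
  have hc1 := hl1.continuous
  have hc2 := hl2.continuous
  have hi1 : Integrable fun v => |φ1 v| :=
    (hc1.integrable_of_hasCompactSupport (cs_of hs1)).abs
  have hI0 : 0 ≤ ∫ v, |φ1 v| := integral_nonneg fun v => abs_nonneg _
  have hint : ∀ u, Integrable fun v => φ1 v * φ2 (u - v) := by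
    intro u
    exact int_of hc1 hs1 (by fun_prop)
  refine ⟨fun u => ∫ v, φ1 v * φ2 (u - v), A1 + A2, ⟨∫ v, |φ1 v|, hI0⟩ * K2, by linarith, ?_, ?_,
    ?_, ?_⟩
  · apply LipschitzWith.of_dist_le_mul
    intro x y
    rw [Real.dist_eq, ← integral_sub (hint x) (hint y)]
    have h3 : ∀ v, |φ1 v * φ2 (x - v) - φ1 v * φ2 (y - v)| ≤ |φ1 v| * (K2 * dist x y) := by
      intro v
      rw [← mul_sub, abs_mul]
      apply mul_le_mul_of_nonneg_left _ (abs_nonneg _)
      have := hl2.dist_le_mul (x - v) (y - v)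
      rwa [Real.dist_eq, dist_sub_right] at this
    calc |∫ v, (φ1 v * φ2 (x - v) - φ1 v * φ2 (y - v))|
        ≤ ∫ v, |φ1 v * φ2 (x - v) - φ1 v * φ2 (y - v)| := abs_integral_le_integral_abs
      _ ≤ ∫ v, |φ1 v| * (K2 * dist x y) :=
          integral_mono ((hint x).sub (hint y)).abs (hi1.mul_const _) h3
      _ = (∫ v, |φ1 v|) * (K2 * dist x y) := integral_mul_const _ _
      _ = _ := by
          push_cast
          change _ = (∫ v, |φ1 v|) * (K2 : ℝ) * dist x y
          ring
  · intro u
    have h3 := integral_neg_eq_self (fun v => φ1 v * φ2 (-u - v)) (volume : Measure ℝ)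
    simp only
    rw [← h3]
    apply integral_congr_ae
    filter_upwards with v
    rw [he1, show -u - -v = -(u - v) by ring, he2]
  · intro u hu
    simp only
    rw [integral_eq_zero_of_ae]
    filter_upwards with v
    simp only [Pi.zero_apply]
    rcases le_or_gt A1 |v| with h3 | h3
    · rw [hs1 v h3, zero_mul]
    · rw [hs2 (u - v), mul_zero]
      have h4 := abs_sub_abs_le_abs_sub u v
      linarith
  · intro x
    set F : ℝ → ℝ → ℝ := fun u v => φ1 v * φ2 (u - v) * Real.cos (2 * Real.pi * x * u) with hF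
    have hFi : Integrable (Function.uncurry F) ((volume : Measure ℝ).prod volume) := by
      have hFc : Continuous (Function.uncurry F) := by
        have e : Function.uncurry F = fun p : ℝ × ℝ =>
            φ1 p.2 * φ2 (p.1 - p.2) * Real.cos (2 * Real.pi * x * p.1) := by
          ext p
          rfl
        rw [e]
        fun_prop
      apply hFc.integrable_of_hasCompactSupport
      apply HasCompactSupport.of_support_subset_isCompact
        ((isCompact_Icc (a := -(A1 + A2)) (b := A1 + A2)).prod (isCompact_Icc (a := -A1) (b := A1)))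
      rintro ⟨u, v⟩ hp
      rw [Function.mem_support] at hp
      have hp' : φ1 v * φ2 (u - v) * Real.cos (2 * Real.pi * x * u) ≠ 0 := hp
      have h3 : |v| < A1 := by
        by_contra hc
        rw [not_lt] at hc
        exact hp' (by rw [hs1 v hc]; ring)
      have h4 : |u - v| < A2 := by
        by_contra hc
        rw [not_lt] at hc
        exact hp' (by rw [hs2 _ hc]; ring)
      rw [mem_prod, mem_Icc, mem_Icc, ← abs_le, ← abs_le]
      simp only
      have h5 := abs_sub_abs_le_abs_sub u v
      exact ⟨by linarith, h3.le⟩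
    have e1 : (∫ u, (∫ v, φ1 v * φ2 (u - v)) * Real.cos (2 * Real.pi * x * u)) =
        ∫ u, ∫ v, F u v := by
      apply integral_congr_ae
      filter_upwards with u
      rw [hF, integral_mul_const]
    rw [e1, integral_integral_swap hFi]
    have e2 : ∀ v, ∫ u, F u v = φ1 v * Real.cos (2 * Real.pi * x * v) * ψ2 x := by
      intro v
      have e3 : ∫ u, F u v = ∫ w, F (w + v) v := (integral_add_right_eq_self _ v).symm
      rw [e3]
      have e4 : ∀ w, F (w + v) v = φ1 v * Real.cos (2 * Real.pi * x * v) *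
          (φ2 w * Real.cos (2 * Real.pi * x * w)) -
          φ1 v * Real.sin (2 * Real.pi * x * v) * (φ2 w * Real.sin (2 * Real.pi * x * w)) := by
        intro w
        rw [hF]
        simp only
        rw [add_sub_cancel_right, mul_add, Real.cos_add]
        ring
      simp_rw [e4]
      rw [integral_sub ((int_of hc2 hs2 (by fun_prop)).const_mul _)
        ((int_of hc2 hs2 (by fun_prop)).const_mul _), integral_const_mul, integral_const_mul,
        sin_zero_of he2, ← hf2]
      ring
    simp_rw [e2]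
    rw [integral_mul_const, ← hf1]

lemma Al.pow {ψ : ℝ → ℝ} (h : Al ψ) {n : ℕ} (hn : 1 ≤ n) : Al fun x => ψ x ^ n := by
  induction n, hn using Nat.le_induction with
  | base => simpa using h
  | succ n hn ih =>
    simp_rw [pow_succ]
    exact ih.mul h

lemma Al.one_sub_pow {q : ℝ → ℝ} (h : Al q) {k : ℕ} (hk : 1 ≤ k) :
    Al fun x => 1 - (1 - q x) ^ k := by
  induction k, hk using Nat.le_induction with
  | base =>
    have e : (fun x => 1 - (1 - q x) ^ 1) = q := by
      ext x
      ring
    rw [e]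
    exact h
  | succ k hk ih =>
    have e : (fun x => 1 - (1 - q x) ^ (k + 1)) =
        fun x => ((1 - (1 - q x) ^ k) + (-1) * ((1 - (1 - q x) ^ k) * q x)) + q x := by
      ext x
      rw [pow_succ]
      ring
    rw [e]
    exact (ih.add ((ih.mul h).smul (-1))).add h

/-- the triangle -/
lemma Al_tri : Al fun x => Real.sinc (Real.pi * x) ^ 2 := by
  refine ⟨fun u => max 0 (1 - |u|), 1, 1, one_pos, ?_, ?_, ?_, ?_⟩
  · apply LipschitzWith.of_dist_le_mul
    intro x y
    rw [Real.dist_eq, Real.dist_eq]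
    push_cast
    rw [one_mul]
    have h1 := abs_max_sub_max_le_abs (1 - |x|) (1 - |y|) 0
    rw [max_comm 0, max_comm 0]
    refine h1.trans ?_
    have h2 := abs_abs_sub_abs_le_abs_sub y x
    rw [show 1 - |x| - (1 - |y|) = |y| - |x| by ring]
    rwa [abs_sub_comm x y]
  · intro u
    simp only [abs_neg]
  · intro u hu
    simp only
    exact max_eq_left (by linarith)
  · intro x
    set g : ℝ → ℝ := fun u => max 0 (1 - |u|) * Real.cos (2 * Real.pi * x * u) with hg
    have h1 : ∫ u, g u = 2 * ∫ u in Ioi (0 : ℝ), g u := by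
      have := integral_comp_abs (f := g)
      rw [← this]
      apply integral_congr_ae
      filter_upwards with u
      rw [hg]
      simp only [abs_abs]
      rcases abs_choice u with h2 | h2
      · rw [h2]
      · rw [h2, mul_neg, Real.cos_neg]
    simp only
    rw [← int_F x, intervalIntegral.integral_of_le zero_le_one]
    change _ = ∫ u, g u
    rw [h1]
    congr 1
    have h4 : ∫ u in Ioi (0 : ℝ), g u = ∫ u in Ioc (0 : ℝ) 1, g u := by
      apply setIntegral_eq_of_subset_of_forall_sdiff_eq_zero measurableSet_Ioi Ioc_subset_Ioi_self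
      intro u hu
      have h5 : 1 < u := by
        by_contra hc
        rw [not_lt] at hc
        exact hu.2 ⟨hu.1, hc⟩
      rw [hg]
      simp only
      rw [abs_of_pos (by linarith), max_eq_left (by linarith), zero_mul]
    rw [h4]
    apply setIntegral_congr_fun measurableSet_Ioc
    intro u hu
    rw [hg]
    simp only
    rw [abs_of_pos hu.1, max_eq_right (by linarith [hu.2])]

end Pool.Agent.T9h26.TD
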