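import Pool.Agent.T9h26.TD.Ra

set_option autoImplicit false

/-! A nonnegative kernel with compactly supported transform, flat at the origin. -/

open Complex Filter Topology Set MeasureTheory

namespace Pool.Agent.T9h26.TD

/-- a kernel `ψ`, flat of order `k` at the origin and decaying to order `k` at infinity, whose
transform `φ` vanishes outside `(-1, 1)` -/
structure Kr (φ ψ : ℝ → ℝ) (k : ℕ) (C : ℝ) : Prop where
  C1 : 1 ≤ C
  lip : ∀ x y, |φ x - φ y| ≤ C * |x - y|
  even : ∀ u, φ (-u) = φ u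
  supp : ∀ u, 1 ≤ |u| → φ u = 0
  int : ∫ u in (0 : ℝ)..1, φ u = 1 / 2
  fou : ∀ x, ψ x = 2 * ∫ u in (0 : ℝ)..1, φ u * Real.cos (2 * Real.pi * x * u)
  lips : ∀ x y, |ψ x - ψ y| ≤ C * |x - y|
  nonneg : ∀ x, 0 ≤ ψ x
  le_one : ∀ x, ψ x ≤ 1
  dec : ∀ x, |x| ^ k * ψ x ≤ C
  flat : ∀ x, 1 - ψ x ≤ C * |x| ^ k

lemma half_of {g : ℝ → ℝ} (he : ∀ u, g (-u) = g u) (hs : ∀ u, 1 ≤ |u| → g u = 0) :
    ∫ u, g u = 2 * ∫ u in (0 : ℝ)..1, g u := by
  have h1 : ∫ u, g u = 2 * ∫ u in Ioi (0 : ℝ), g u := by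
    have := integral_comp_abs (f := g)
    rw [← this]
    apply integral_congr_ae
    filter_upwards with u
    rcases abs_choice u with h2 | h2
    · rw [h2]
    · rw [h2, he]
  rw [h1, intervalIntegral.integral_of_le zero_le_one]
  congr 1
  apply setIntegral_eq_of_subset_of_forall_sdiff_eq_zero measurableSet_Ioi Ioc_subset_Ioi_self
  intro u hu
  have h5 : 1 < u := by
    by_contra hc
    rw [not_lt] at hc
    exact hu.2 ⟨hu.1, hc⟩
  exact hs u (by rw [abs_of_pos (by linarith)]; exact h5.le)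

lemma one_sub_sinc (y : ℝ) : 1 - Real.sinc y ≤ 2 * |y| := by
  have key : ∀ z : ℝ, 0 < z → 1 - Real.sinc z ≤ 2 * z := by
    intro z hz
    rcases le_or_gt z 1 with h | h
    · have h1 := Real.sin_gt_sub_cube hz
      rw [Real.sinc_of_ne_zero hz.ne']
      have h2 : 1 - z ^ 2 / 4 ≤ Real.sin z / z := by
        rw [le_div_iff₀ hz]
        nlinarith
      nlinarith
    · have := Real.neg_one_le_sinc z
      linarith
  rcases lt_trichotomy y 0 with h | h | h
  · rw [abs_of_neg h, ← Real.sinc_neg]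
    exact key (-y) (by linarith)
  · rw [h]
    simp
  · rw [abs_of_pos h]
    exact key y h

lemma sinc_mul_le (y : ℝ) : |Real.sinc y| * |y| ≤ 1 := by
  rcases eq_or_ne y 0 with h | h
  · rw [h]
    simp
  · rw [Real.sinc_of_ne_zero h, abs_div, div_mul_cancel₀ _ (abs_ne_zero.2 h)]
    exact Real.abs_sin_le_one y

/-- **kernels** exist -/
theorem exists_Kr {k : ℕ} (hk : 1 ≤ k) : ∃ (φ ψ : ℝ → ℝ) (C : ℝ), Kr φ ψ k C := by
  obtain ⟨φ, A, K, hA, hl, he, hs, hf⟩ := (Al_tri.pow hk).one_sub_pow hk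
  have hpi := Real.pi_pos
  have hpi3 := Real.pi_gt_three
  have hk0 : (1 : ℝ) ≤ k := by exact_mod_cast hk
  set P : ℝ → ℝ := fun x => 1 - (1 - (Real.sinc (Real.pi * x) ^ 2) ^ k) ^ k with hP
  set φ' : ℝ → ℝ := fun u => A * φ (A * u) with hφ
  set ψ' : ℝ → ℝ := fun x => P (x / A) with hψ
  have hs' : ∀ u, 1 ≤ |u| → φ' u = 0 := by
    intro u hu
    rw [hφ]
    simp only
    rw [hs, mul_zero]
    rw [abs_mul, abs_of_pos hA]
    nlinarith
  have he' : ∀ u, φ' (-u) = φ' u := by
    intro u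
    rw [hφ]
    simp only
    rw [mul_neg, he]
  have hl' : ∀ x y, |φ' x - φ' y| ≤ (A ^ 2 * K) * |x - y| := by
    intro x y
    rw [hφ]
    simp only
    rw [← mul_sub, abs_mul, abs_of_pos hA]
    have := hl.dist_le_mul (A * x) (A * y)
    rw [Real.dist_eq, Real.dist_eq, ← mul_sub, abs_mul, abs_of_pos hA] at this
    calc A * |φ (A * x) - φ (A * y)| ≤ A * (K * (A * |x - y|)) :=
          mul_le_mul_of_nonneg_left this hA.le
      _ = _ := by ring
  have hφc : Continuous φ' := by
    rw [hφ]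
    have := hl.continuous
    fun_prop
  have hf' : ∀ x, ψ' x = 2 * ∫ u in (0 : ℝ)..1, φ' u * Real.cos (2 * Real.pi * x * u) := by
    intro x
    have h1 := half_of (g := fun u => φ' u * Real.cos (2 * Real.pi * x * u)) (by
      intro u
      rw [he', mul_neg, Real.cos_neg]) (by
      intro u hu
      rw [hs' u hu, zero_mul])
    rw [← h1]
    have h2 := Measure.integral_comp_mul_left
      (fun v => φ v * Real.cos (2 * Real.pi * (x / A) * v)) A
    have h3 : ψ' x = ∫ u, φ u * Real.cos (2 * Real.pi * (x / A) * u) := hf (x / A)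
    rw [h3]
    rw [smul_eq_mul, abs_inv, abs_of_pos hA] at h2
    have h4 : ∫ u, φ' u * Real.cos (2 * Real.pi * x * u) =
        A * ∫ u, φ (A * u) * Real.cos (2 * Real.pi * (x / A) * (A * u)) := by
      rw [← integral_const_mul]
      apply integral_congr_ae
      filter_upwards with u
      rw [hφ]
      simp only
      rw [show 2 * Real.pi * (x / A) * (A * u) = 2 * Real.pi * x * u by field_simp]
      ring
    rw [h4, h2]
    field_simp
  have hq : ∀ y : ℝ, 0 ≤ (Real.sinc y ^ 2) ^ k ∧ (Real.sinc y ^ 2) ^ k ≤ 1 := by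
    intro y
    have h1 : Real.sinc y ^ 2 ≤ 1 := by
      rw [← sq_abs]
      exact pow_le_one₀ (abs_nonneg _) (Real.abs_sinc_le_one y)
    exact ⟨by positivity, pow_le_one₀ (sq_nonneg _) h1⟩
  have hnn : ∀ x, 0 ≤ ψ' x := by
    intro x
    rw [hψ, hP]
    simp only
    obtain ⟨h1, h2⟩ := hq (Real.pi * (x / A))
    have := pow_le_one₀ (n := k) (show 0 ≤ 1 - (Real.sinc (Real.pi * (x / A)) ^ 2) ^ k by linarith)
      (by linarith)
    linarith
  have hle : ∀ x, ψ' x ≤ 1 := by
    intro x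
    rw [hψ, hP]
    simp only
    obtain ⟨h1, h2⟩ := hq (Real.pi * (x / A))
    have := pow_nonneg (show 0 ≤ 1 - (Real.sinc (Real.pi * (x / A)) ^ 2) ^ k by linarith) k
    linarith
  have hdec : ∀ x, |x| ^ k * ψ' x ≤ k * A ^ k := by
    intro x
    rw [hψ, hP]
    simp only
    set y := Real.pi * (x / A) with hy
    obtain ⟨h1, h2⟩ := hq y
    have h3 := one_add_mul_le_pow (show (-2 : ℝ) ≤ -(Real.sinc y ^ 2) ^ k by linarith) k
    have h4 : 1 - (1 - (Real.sinc y ^ 2) ^ k) ^ k ≤ k * (Real.sinc y ^ 2) ^ k := by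
      have e : (1 + -(Real.sinc y ^ 2) ^ k) ^ k = (1 - (Real.sinc y ^ 2) ^ k) ^ k := by
        rw [← sub_eq_add_neg]
      rw [e] at h3
      linarith
    have h5 : |x| * Real.sinc y ^ 2 ≤ A := by
      have h6 := sinc_mul_le y
      have h7 := Real.abs_sinc_le_one y
      have h8 : |y| = Real.pi * |x| / A := by
        rw [hy, abs_mul, abs_div, abs_of_pos hpi, abs_of_pos hA]
        ring
      have h9 : Real.sinc y ^ 2 ≤ |Real.sinc y| := by
        rw [← sq_abs]
        nlinarith [abs_nonneg (Real.sinc y)]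
      rw [h8] at h6
      have h10 : |Real.sinc y| * |x| ≤ A := by
        have h11 : |Real.sinc y| * (Real.pi * |x| / A) = (|Real.sinc y| * |x|) * Real.pi / A := by
          ring
        rw [h11, div_le_one hA] at h6
        have h12 : 0 ≤ |Real.sinc y| * |x| := by positivity
        nlinarith
      calc |x| * Real.sinc y ^ 2 ≤ |x| * |Real.sinc y| :=
            mul_le_mul_of_nonneg_left h9 (abs_nonneg _)
        _ = |Real.sinc y| * |x| := mul_comm _ _
        _ ≤ A := h10
    calc |x| ^ k * (1 - (1 - (Real.sinc y ^ 2) ^ k) ^ k)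
        ≤ |x| ^ k * (k * (Real.sinc y ^ 2) ^ k) := mul_le_mul_of_nonneg_left h4 (by positivity)
      _ = k * (|x| * Real.sinc y ^ 2) ^ k := by rw [mul_pow]; ring
      _ ≤ k * A ^ k := by
          apply mul_le_mul_of_nonneg_left _ (by positivity)
          exact pow_le_pow_left₀ (by positivity) h5 k
  have hflat : ∀ x, 1 - ψ' x ≤ (4 * k * Real.pi / A) ^ k * |x| ^ k := by
    intro x
    rw [hψ, hP]
    simp only
    set y := Real.pi * (x / A) with hy
    obtain ⟨h1, h2⟩ := hq y
    rw [sub_sub_cancel, ← mul_pow]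
    apply pow_le_pow_left₀ (by linarith)
    have h8 : |y| = Real.pi * |x| / A := by
      rw [hy, abs_mul, abs_div, abs_of_pos hpi, abs_of_pos hA]
      ring
    have h3 := one_add_mul_le_pow (show (-2 : ℝ) ≤ -(1 - Real.sinc y ^ 2) by
      have := sq_nonneg (Real.sinc y)
      linarith) k
    have e : (1 + -(1 - Real.sinc y ^ 2)) ^ k = (Real.sinc y ^ 2) ^ k := by
      congr 1
      ring
    rw [e] at h3
    have h4 := one_sub_sinc y
    have h5 := Real.sinc_le_one y
    have h6 := Real.neg_one_le_sinc y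
    have h7 : 1 - Real.sinc y ^ 2 ≤ 4 * |y| := by nlinarith
    calc 1 - (Real.sinc y ^ 2) ^ k ≤ k * (1 - Real.sinc y ^ 2) := by linarith
      _ ≤ k * (4 * |y|) := mul_le_mul_of_nonneg_left h7 (by linarith)
      _ = 4 * k * Real.pi / A * |x| := by rw [h8]; ring
  set C0 : ℝ := A ^ 2 * K with hC0
  have hC00 : 0 ≤ C0 := by
    rw [hC0]
    have : (0 : ℝ) ≤ K := K.2
    positivity
  have hbd : ∀ u ∈ Icc (0 : ℝ) 1, |φ' u| ≤ C0 := by
    intro u hu
    have h1 := hl' u 1
    rw [hs' 1 (by rw [abs_one]), sub_zero] at h1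
    refine h1.trans ?_
    have h2 : |u - 1| ≤ 1 := by
      rw [abs_le]
      constructor <;> linarith [hu.1, hu.2]
    calc C0 * |u - 1| ≤ C0 * 1 := mul_le_mul_of_nonneg_left h2 hC00
      _ = C0 := mul_one _
  have hlips : ∀ x y, |ψ' x - ψ' y| ≤ (4 * Real.pi * C0) * |x - y| := by
    intro x y
    rw [hf' x, hf' y, ← mul_sub, ← intervalIntegral.integral_sub
      ((show Continuous fun u => φ' u * Real.cos (2 * Real.pi * x * u) by fun_prop).intervalIntegrable
        _ _)
      ((show Continuous fun u => φ' u * Real.cos (2 * Real.pi * y * u) by fun_prop).intervalIntegrable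
        _ _), abs_mul, abs_of_pos (by norm_num : (0 : ℝ) < 2)]
    have h1 : ∀ u ∈ Set.uIoc (0 : ℝ) 1, ‖φ' u * Real.cos (2 * Real.pi * x * u) -
        φ' u * Real.cos (2 * Real.pi * y * u)‖ ≤ C0 * (2 * Real.pi * |x - y|) := by
      intro u hu
      rw [uIoc_of_le zero_le_one] at hu
      rw [Real.norm_eq_abs, ← mul_sub, abs_mul]
      apply mul_le_mul (hbd u ⟨hu.1.le, hu.2⟩) _ (abs_nonneg _) hC00
      have h2 := Real.abs_cos_sub_cos_le (2 * Real.pi * x * u) (2 * Real.pi * y * u)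
      refine h2.trans ?_
      rw [show 2 * Real.pi * x * u - 2 * Real.pi * y * u = 2 * Real.pi * (x - y) * u by ring,
        abs_mul, abs_mul, abs_of_pos (by positivity : (0 : ℝ) < 2 * Real.pi), abs_of_pos hu.1]
      have : 0 ≤ 2 * Real.pi * |x - y| := by positivity
      nlinarith [hu.2]
    have h3 := intervalIntegral.norm_integral_le_of_norm_le_const h1
    rw [Real.norm_eq_abs, sub_zero, abs_one, mul_one] at h3
    linarith
  set C := 1 + C0 + 4 * Real.pi * C0 + k * A ^ k + (4 * k * Real.pi / A) ^ k with hC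
  have p1 : 0 ≤ 4 * Real.pi * C0 := by positivity
  have p2 : 0 ≤ (k : ℝ) * A ^ k := by positivity
  have p3 : 0 ≤ (4 * k * Real.pi / A) ^ k := by positivity
  refine ⟨φ', ψ', C, ⟨by rw [hC]; linarith, ?_, he', hs', ?_, hf', ?_, hnn, hle, ?_, ?_⟩⟩
  · intro x y
    refine (hl' x y).trans (mul_le_mul_of_nonneg_right ?_ (abs_nonneg _))
    rw [hC]
    linarith
  · have h1 := hf' 0
    have h2 : ψ' 0 = 1 := by
      rw [hψ, hP]
      simp only
      rw [zero_div, mul_zero, Real.sinc_zero]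
      simp
      omega
    rw [h2] at h1
    simp only [mul_zero, zero_mul, Real.cos_zero, mul_one] at h1
    linarith
  · intro x y
    refine (hlips x y).trans (mul_le_mul_of_nonneg_right ?_ (abs_nonneg _))
    rw [hC]
    linarith
  · intro x
    refine (hdec x).trans ?_
    rw [hC]
    linarith
  · intro x
    refine (hflat x).trans (mul_le_mul_of_nonneg_right ?_ (by positivity))
    rw [hC]
    linarith

end Pool.Agent.T9h26.TD
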