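import Pool.Agent.T9h26.TD.Rb
import Pool.Agent.T9h26.TD.La

set_option autoImplicit false

/-! The logarithmic profile of a kernel: weight, transform, variance. -/

open Complex Filter Topology Set MeasureTheory

namespace Pool.Agent.T9h26.TD

open TC

/-- the length of the profile -/
noncomputable def Zr (a1 a2 : ℝ) : ℝ := Real.log (a2 / a1)

/-- the weight -/
noncomputable def Wr (φ : ℝ → ℝ) (a1 a2 ξ : ℝ) : ℝ := 2 / Zr a1 a2 * ∫ s in a1..a2, φ (s * ξ)

/-- the profile -/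
noncomputable def fr (ψ : ℝ → ℝ) (a1 a2 x : ℝ) : ℝ := 1 / Zr a1 a2 * ∫ s in a1..a2, ψ (x / s) / s

variable {φ ψ : ℝ → ℝ} {k : ℕ} {C a1 a2 : ℝ}

lemma Zr_pos (h1 : 2 ≤ a1) (h2 : a1 < a2) : 0 < Zr a1 a2 := by
  unfold Zr
  apply Real.log_pos
  rw [lt_div_iff₀ (by linarith)]
  linarith

lemma Kr.cont (h : Kr φ ψ k C) : Continuous φ := by
  have : LipschitzWith ⟨C, by linarith [h.C1]⟩ φ := by
    apply LipschitzWith.of_dist_le_mul
    intro x y
    rw [Real.dist_eq, Real.dist_eq]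
    exact h.lip x y
  exact this.continuous

lemma Kr.conts (h : Kr φ ψ k C) : Continuous ψ := by
  have : LipschitzWith ⟨C, by linarith [h.C1]⟩ ψ := by
    apply LipschitzWith.of_dist_le_mul
    intro x y
    rw [Real.dist_eq, Real.dist_eq]
    exact h.lips x y
  exact this.continuous

lemma Kr.bd (h : Kr φ ψ k C) (u : ℝ) : |φ u| ≤ C := by
  have hC := h.C1
  rcases le_or_gt 1 |u| with h1 | h1
  · rw [h.supp u h1, abs_zero]
    linarith
  · have e : φ u = φ |u| := by
      rcases abs_choice u with h2 | h2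
      · rw [h2]
      · rw [h2, h.even]
    have h3 := h.lip |u| 1
    rw [h.supp 1 (by rw [abs_one]), sub_zero, ← e] at h3
    refine h3.trans ?_
    have h4 : abs (|u| - 1) ≤ 1 := by
      rw [abs_le]
      constructor <;> linarith [abs_nonneg u]
    nlinarith

lemma int_inv (h1 : 2 ≤ a1) (h2 : a1 < a2) : ∫ s in a1..a2, 1 / s = Zr a1 a2 := by
  unfold Zr
  rw [integral_one_div]
  rw [uIcc_of_le h2.le]
  intro h
  linarith [h.1]

lemma ii_inv (h1 : 2 ≤ a1) (h2 : a1 < a2) : IntervalIntegrable (fun s : ℝ => 1 / s) volume a1 a2 := by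
  apply intervalIntegral.intervalIntegrable_one_div _ continuousOn_id
  intro x hx h
  rw [uIcc_of_le h2.le] at hx
  have h' : x = 0 := h
  linarith [hx.1]

/-- bounding an average over the scales -/
lemma avg_abs (h1 : 2 ≤ a1) (h2 : a1 < a2) {g : ℝ → ℝ} (hg : ContinuousOn g (Icc a1 a2)) {B : ℝ}
    (hB : ∀ s ∈ Icc a1 a2, |g s| ≤ B) : |∫ s in a1..a2, g s / s| ≤ B * Zr a1 a2 := by
  rw [← int_inv h1 h2, ← intervalIntegral.integral_const_mul]
  have hgi : IntervalIntegrable (fun s => g s / s) volume a1 a2 := by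
    apply ContinuousOn.intervalIntegrable
    rw [uIcc_of_le h2.le]
    apply hg.div continuousOn_id
    intro x hx h
    have h' : x = 0 := h
    linarith [hx.1]
  refine (intervalIntegral.abs_integral_le_integral_abs h2.le).trans ?_
  apply intervalIntegral.integral_mono_on h2.le hgi.abs ((ii_inv h1 h2).const_mul B)
  intro s hs
  have hs0 : 0 < s := by linarith [hs.1]
  rw [abs_div, abs_of_pos hs0, mul_one_div]
  exact div_le_div_of_nonneg_right (hB s hs) hs0.le

lemma cont_sc (h : Kr φ ψ k C) (h1 : 2 ≤ a1) (x : ℝ) : ContinuousOn (fun s => ψ (x / s)) (Icc a1 a2) := by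
  apply h.conts.comp_continuousOn
  apply continuousOn_const.div continuousOn_id
  intro s hs h'
  have h'' : s = 0 := h'
  linarith [hs.1]

lemma ii_sc (h : Kr φ ψ k C) (h1 : 2 ≤ a1) (h2 : a1 < a2) (x : ℝ) :
    IntervalIntegrable (fun s => ψ (x / s) / s) volume a1 a2 := by
  apply ContinuousOn.intervalIntegrable
  rw [uIcc_of_le h2.le]
  apply (cont_sc h h1 x).div continuousOn_id
  intro s hs h'
  have h'' : s = 0 := h'
  linarith [hs.1]

lemma fr_nonneg (h : Kr φ ψ k C) (h1 : 2 ≤ a1) (h2 : a1 < a2) (x : ℝ) : 0 ≤ fr ψ a1 a2 x := by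
  unfold fr
  have hZ := Zr_pos h1 h2
  apply mul_nonneg (by positivity)
  apply intervalIntegral.integral_nonneg h2.le
  intro s hs
  exact div_nonneg (h.nonneg _) (by linarith [hs.1])

lemma fr_abs (h : Kr φ ψ k C) (h1 : 2 ≤ a1) (h2 : a1 < a2) (x : ℝ) : |fr ψ a1 a2 x| ≤ 1 := by
  have hZ := Zr_pos h1 h2
  have h3 := avg_abs h1 h2 (cont_sc h h1 x) (B := 1) (fun s _ => by
    rw [abs_of_nonneg (h.nonneg _)]
    exact h.le_one _)
  unfold fr
  rw [abs_mul, abs_of_pos (by positivity : 0 < 1 / Zr a1 a2)]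
  calc 1 / Zr a1 a2 * |∫ s in a1..a2, ψ (x / s) / s| ≤ 1 / Zr a1 a2 * (1 * Zr a1 a2) :=
        mul_le_mul_of_nonneg_left h3 (by positivity)
    _ = 1 := by field_simp

lemma fr_lip (h : Kr φ ψ k C) (h1 : 2 ≤ a1) (h2 : a1 < a2) (x y : ℝ) :
    |fr ψ a1 a2 x - fr ψ a1 a2 y| ≤ C / a1 * |x - y| := by
  have hZ := Zr_pos h1 h2
  have hC := h.C1
  have h3 := avg_abs h1 h2 (g := fun s => ψ (x / s) - ψ (y / s))
    ((cont_sc h h1 x).sub (cont_sc h h1 y)) (B := C / a1 * |x - y|) (fun s hs => by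
    refine (h.lips _ _).trans ?_
    have hs0 : 0 < s := by linarith [hs.1]
    rw [← sub_div, abs_div, abs_of_pos hs0, mul_div_assoc', div_mul_eq_mul_div]
    apply div_le_div_of_nonneg_left (by positivity) (by linarith) hs.1)
  unfold fr
  rw [← mul_sub, ← intervalIntegral.integral_sub (ii_sc h h1 h2 x) (ii_sc h h1 h2 y), abs_mul,
    abs_of_pos (by positivity : 0 < 1 / Zr a1 a2)]
  have e : ∫ s in a1..a2, (ψ (x / s) / s - ψ (y / s) / s) =
      ∫ s in a1..a2, (ψ (x / s) - ψ (y / s)) / s := by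
    apply intervalIntegral.integral_congr
    intro s _
    simp only
    ring
  rw [e]
  calc 1 / Zr a1 a2 * |∫ s in a1..a2, (ψ (x / s) - ψ (y / s)) / s| ≤
      1 / Zr a1 a2 * (C / a1 * |x - y| * Zr a1 a2) := mul_le_mul_of_nonneg_left h3 (by positivity)
    _ = _ := by field_simp

lemma fr_flat (h : Kr φ ψ k C) (h1 : 2 ≤ a1) (h2 : a1 < a2) (x : ℝ) :
    |fr ψ a1 a2 x - 1| ≤ C * (|x| / a1) ^ k := by
  have hZ := Zr_pos h1 h2
  have hC := h.C1
  have h3 := avg_abs h1 h2 (g := fun s => ψ (x / s) - 1)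
    ((cont_sc h h1 x).sub continuousOn_const) (B := C * (|x| / a1) ^ k) (fun s hs => by
    have hs0 : 0 < s := by linarith [hs.1]
    rw [abs_sub_comm, abs_of_nonneg (by linarith [h.le_one (x / s)])]
    refine (h.flat _).trans ?_
    rw [abs_div, abs_of_pos hs0]
    apply mul_le_mul_of_nonneg_left _ (by linarith)
    apply pow_le_pow_left₀ (by positivity)
    exact div_le_div_of_nonneg_left (abs_nonneg _) (by linarith) hs.1)
  have e : fr ψ a1 a2 x - 1 = 1 / Zr a1 a2 * ∫ s in a1..a2, (ψ (x / s) - 1) / s := by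
    have e1 : ∫ s in a1..a2, (ψ (x / s) - 1) / s =
        (∫ s in a1..a2, ψ (x / s) / s) - ∫ s in a1..a2, 1 / s := by
      rw [← intervalIntegral.integral_sub (ii_sc h h1 h2 x) (ii_inv h1 h2)]
      apply intervalIntegral.integral_congr
      intro s _
      simp only
      ring
    rw [e1, int_inv h1 h2]
    unfold fr
    field_simp
  rw [e, abs_mul, abs_of_pos (by positivity : 0 < 1 / Zr a1 a2)]
  calc _ ≤ 1 / Zr a1 a2 * (C * (|x| / a1) ^ k * Zr a1 a2) :=
        mul_le_mul_of_nonneg_left h3 (by positivity)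
    _ = _ := by field_simp

lemma fr_dec (h : Kr φ ψ k C) (h1 : 2 ≤ a1) (h2 : a1 < a2) (x : ℝ) :
    |x| ^ k * fr ψ a1 a2 x ≤ C * a2 ^ k := by
  have hZ := Zr_pos h1 h2
  have hC := h.C1
  have h3 := avg_abs h1 h2 (g := fun s => |x| ^ k * ψ (x / s))
    (continuousOn_const.mul (cont_sc h h1 x)) (B := C * a2 ^ k) (fun s hs => by
    have hs0 : 0 < s := by linarith [hs.1]
    rw [abs_of_nonneg (mul_nonneg (by positivity) (h.nonneg _))]
    have h4 := h.dec (x / s)
    rw [abs_div, abs_of_pos hs0, div_pow, div_mul_eq_mul_div, div_le_iff₀ (by positivity)] at h4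
    refine h4.trans ?_
    apply mul_le_mul_of_nonneg_left _ (by linarith)
    exact pow_le_pow_left₀ hs0.le hs.2 k)
  have e : |x| ^ k * fr ψ a1 a2 x = 1 / Zr a1 a2 * ∫ s in a1..a2, |x| ^ k * ψ (x / s) / s := by
    have e1 : ∫ s in a1..a2, |x| ^ k * ψ (x / s) / s = |x| ^ k * ∫ s in a1..a2, ψ (x / s) / s := by
      rw [← intervalIntegral.integral_const_mul]
      apply intervalIntegral.integral_congr
      intro s _
      simp only
      ring
    rw [e1]
    unfold fr
    ring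
  rw [e]
  calc _ ≤ 1 / Zr a1 a2 * |∫ s in a1..a2, |x| ^ k * ψ (x / s) / s| :=
        mul_le_mul_of_nonneg_left (le_abs_self _) (by positivity)
    _ ≤ 1 / Zr a1 a2 * (C * a2 ^ k * Zr a1 a2) := mul_le_mul_of_nonneg_left h3 (by positivity)
    _ = _ := by field_simp

/-- the weight is admissible -/
lemma Wr_wt (h : Kr φ ψ k C) (h1 : 2 ≤ a1) (h2 : a1 < a2) :
    ∃ K : NNReal, Wt (Wr φ a1 a2) (1 / a1) K := by
  have hZ := Zr_pos h1 h2
  have hC := h.C1
  have hc := h.cont
  have ha1 : 0 < a1 := by linarith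
  have ha2 : 0 < a2 := by linarith
  refine ⟨⟨2 / Zr a1 a2 * (C * a2 * (a2 - a1)), by
    have : 0 ≤ a2 - a1 := by linarith
    positivity⟩, ⟨by positivity, ?_, ?_, ?_, ?_⟩⟩
  · exact one_div_le_one_div_of_le (by norm_num) h1
  · apply LipschitzWith.of_dist_le_mul
    intro x y
    rw [Real.dist_eq, Real.dist_eq]
    change _ ≤ (2 / Zr a1 a2 * (C * a2 * (a2 - a1))) * |x - y|
    unfold Wr
    have i1 : ∀ z : ℝ, IntervalIntegrable (fun s => φ (s * z)) volume a1 a2 := fun z =>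
      (show Continuous fun s => φ (s * z) by fun_prop).intervalIntegrable _ _
    rw [← mul_sub, ← intervalIntegral.integral_sub (i1 x) (i1 y), abs_mul,
      abs_of_pos (by positivity : 0 < 2 / Zr a1 a2), mul_assoc]
    apply mul_le_mul_of_nonneg_left _ (by positivity)
    have h3 : ∀ s ∈ Set.uIoc a1 a2, ‖φ (s * x) - φ (s * y)‖ ≤ C * a2 * |x - y| := by
      intro s hs
      rw [uIoc_of_le h2.le] at hs
      rw [Real.norm_eq_abs]
      refine (h.lip _ _).trans ?_
      rw [← mul_sub, abs_mul, abs_of_pos (by linarith [hs.1]), mul_assoc]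
      apply mul_le_mul_of_nonneg_left _ (by linarith)
      exact mul_le_mul_of_nonneg_right hs.2 (abs_nonneg _)
    have h4 := intervalIntegral.norm_integral_le_of_norm_le_const h3
    rw [Real.norm_eq_abs, abs_of_pos (by linarith : 0 < a2 - a1)] at h4
    linarith
  · intro ξ hξ
    unfold Wr
    have e : ∫ s in a1..a2, φ (s * ξ) = 0 := by
      rw [intervalIntegral.integral_congr (g := fun _ => 0)]
      · simp
      · intro s hs
        rw [uIcc_of_le h2.le] at hs
        simp only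
        apply h.supp
        rw [abs_mul, abs_of_pos (by linarith [hs.1])]
        rw [div_le_iff₀ ha1] at hξ
        have := mul_le_mul_of_nonneg_right hs.1 (abs_nonneg ξ)
        linarith
    rw [e, mul_zero]
  · intro ξ
    unfold Wr
    congr 1
    apply intervalIntegral.integral_congr
    intro s _
    simp only
    rw [mul_neg, h.even]

/-- the profile is the transform of the weight -/
lemma ph_Wr (h : Kr φ ψ k C) (h1 : 2 ≤ a1) (h2 : a1 < a2) (x : ℝ) :
    ph (Wr φ a1 a2) (2 * Real.pi * x) = fr ψ a1 a2 x := by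
  have hc := h.cont
  unfold ph Wr fr
  have e1 : ∀ ξ : ℝ, (2 / Zr a1 a2 * ∫ s in a1..a2, φ (s * ξ)) * Real.cos (ξ * (2 * Real.pi * x)) =
      2 / Zr a1 a2 * ∫ s in a1..a2, φ (s * ξ) * Real.cos (ξ * (2 * Real.pi * x)) := by
    intro ξ
    rw [intervalIntegral.integral_mul_const]
    ring
  simp_rw [e1]
  rw [intervalIntegral.integral_const_mul, intervalIntegral_intervalIntegral_swap]
  · have e2 : ∀ s ∈ Set.uIcc a1 a2, (∫ ξ in (0 : ℝ)..1, φ (s * ξ) *
        Real.cos (ξ * (2 * Real.pi * x))) = ψ (x / s) / s / 2 := by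
      intro s hs
      rw [uIcc_of_le h2.le] at hs
      have hs0 : 0 < s := by linarith [hs.1]
      have e3 := intervalIntegral.integral_comp_mul_left (a := 0) (b := 1)
        (fun u => φ u * Real.cos (2 * Real.pi * (x / s) * u)) hs0.ne'
      have e4 : ∀ ξ : ℝ, φ (s * ξ) * Real.cos (2 * Real.pi * (x / s) * (s * ξ)) =
          φ (s * ξ) * Real.cos (ξ * (2 * Real.pi * x)) := by
        intro ξ
        rw [show 2 * Real.pi * (x / s) * (s * ξ) = ξ * (2 * Real.pi * x) by field_simp]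
      simp_rw [e4] at e3
      rw [e3, mul_zero, mul_one, smul_eq_mul]
      have i1 : ∀ a b : ℝ, IntervalIntegrable (fun u => φ u * Real.cos (2 * Real.pi * (x / s) * u))
          volume a b := fun a b =>
        (show Continuous fun u => φ u * Real.cos (2 * Real.pi * (x / s) * u) by
          fun_prop).intervalIntegrable _ _
      rw [← intervalIntegral.integral_add_adjacent_intervals (i1 0 1) (i1 1 s)]
      have e5 : ∫ u in (1 : ℝ)..s, φ u * Real.cos (2 * Real.pi * (x / s) * u) = 0 := by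
        rw [intervalIntegral.integral_congr (g := fun _ => 0)]
        · simp
        · intro u hu
          rw [uIcc_of_le (by linarith [hs.1])] at hu
          simp only
          rw [h.supp u (hu.1.trans (le_abs_self _)), zero_mul]
      rw [e5, add_zero, h.fou]
      field_simp
    rw [intervalIntegral.integral_congr e2, intervalIntegral.integral_div]
    ring
  · apply ContinuousOn.integrableOn_of_subset_isCompact (K := uIcc (0 : ℝ) 1 ×ˢ uIcc a1 a2)
    · apply Continuous.continuousOn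
      have e : (Function.uncurry fun ξ s => φ (s * ξ) * Real.cos (ξ * (2 * Real.pi * x))) =
          fun p : ℝ × ℝ => φ (p.2 * p.1) * Real.cos (p.1 * (2 * Real.pi * x)) := by
        ext p
        rfl
      rw [e]
      fun_prop
    · exact isCompact_uIcc.prod isCompact_uIcc
    · exact measurableSet_uIoc.prod measurableSet_uIoc
    · exact Set.prod_mono uIoc_subset_uIcc uIoc_subset_uIcc
    · exact ((measure_mono (Set.prod_mono uIoc_subset_uIcc uIoc_subset_uIcc)).trans_lt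
        (isCompact_uIcc.prod isCompact_uIcc).measure_lt_top).ne

lemma Wr_zero (h : Kr φ ψ k C) (h1 : 2 ≤ a1) (h2 : a1 < a2) {ξ : ℝ} (hξ : 1 / a1 ≤ |ξ|) :
    Wr φ a1 a2 ξ = 0 := by
  obtain ⟨K, hK⟩ := Wr_wt h h1 h2
  exact hK.zero ξ hξ

lemma Wr_bd1 (h : Kr φ ψ k C) (h1 : 2 ≤ a1) (h2 : a1 < a2) (ξ : ℝ) :
    |Wr φ a1 a2 ξ| ≤ 2 * (C * a2) / Zr a1 a2 := by
  have hZ := Zr_pos h1 h2
  have hC := h.C1
  unfold Wr
  rw [abs_mul, abs_of_pos (by positivity : 0 < 2 / Zr a1 a2)]
  have h3 : ∀ s ∈ Set.uIoc a1 a2, ‖φ (s * ξ)‖ ≤ C := fun s _ => by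
    rw [Real.norm_eq_abs]
    exact h.bd _
  have h4 := intervalIntegral.norm_integral_le_of_norm_le_const h3
  rw [Real.norm_eq_abs, abs_of_pos (by linarith : 0 < a2 - a1)] at h4
  have h5 : C * (a2 - a1) ≤ C * a2 := by
    apply mul_le_mul_of_nonneg_left (by linarith) (by linarith)
  calc 2 / Zr a1 a2 * |∫ s in a1..a2, φ (s * ξ)| ≤ 2 / Zr a1 a2 * (C * a2) :=
        mul_le_mul_of_nonneg_left (h4.trans h5) (by positivity)
    _ = _ := by ring

lemma Wr_bd2 (h : Kr φ ψ k C) (h1 : 2 ≤ a1) (h2 : a1 < a2) {ξ : ℝ} (hξ : 1 / a2 ≤ ξ) :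
    |Wr φ a1 a2 ξ| ≤ (1 / ξ + 2 * C * a1) / Zr a1 a2 := by
  have hZ := Zr_pos h1 h2
  have hC := h.C1
  have hc := h.cont
  have ha2 : 0 < a2 := by linarith
  have hξ0 : 0 < ξ := lt_of_lt_of_le (by positivity) hξ
  have hξ1 : 1 ≤ ξ * a2 := by rwa [div_le_iff₀ ha2] at hξ
  have i1 : ∀ a b : ℝ, IntervalIntegrable (fun s => φ (s * ξ)) volume a b := fun a b =>
    (show Continuous fun s => φ (s * ξ) by fun_prop).intervalIntegrable _ _
  have i2 : ∀ a b : ℝ, IntervalIntegrable φ volume a b := fun a b => hc.intervalIntegrable _ _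
  have e1 : ∫ s in a1..a2, φ (s * ξ) = 1 / (2 * ξ) - ∫ s in (0 : ℝ)..a1, φ (s * ξ) := by
    have e2 : ∫ s in (0 : ℝ)..a2, φ (s * ξ) = 1 / (2 * ξ) := by
      rw [intervalIntegral.integral_comp_mul_right _ hξ0.ne', zero_mul, smul_eq_mul,
        ← intervalIntegral.integral_add_adjacent_intervals (i2 0 1) (i2 1 (a2 * ξ)), h.int]
      have e5 : ∫ u in (1 : ℝ)..(a2 * ξ), φ u = 0 := by
        rw [intervalIntegral.integral_congr (g := fun _ => 0)]
        · simp
        · intro u hu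
          rw [uIcc_of_le (by linarith)] at hu
          exact h.supp u (hu.1.trans (le_abs_self _))
      rw [e5, add_zero]
      field_simp
    have e3 := intervalIntegral.integral_add_adjacent_intervals (i1 0 a1) (i1 a1 a2)
    linarith
  have h3 : ∀ s ∈ Set.uIoc (0 : ℝ) a1, ‖φ (s * ξ)‖ ≤ C := fun s _ => by
    rw [Real.norm_eq_abs]
    exact h.bd _
  have h4 := intervalIntegral.norm_integral_le_of_norm_le_const h3
  rw [Real.norm_eq_abs, sub_zero, abs_of_pos (by linarith : 0 < a1)] at h4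
  unfold Wr
  rw [e1, abs_mul, abs_of_pos (by positivity : 0 < 2 / Zr a1 a2)]
  have h5 : |1 / (2 * ξ) - ∫ s in (0 : ℝ)..a1, φ (s * ξ)| ≤ 1 / (2 * ξ) + C * a1 := by
    refine (abs_sub _ _).trans ?_
    rw [abs_of_pos (by positivity : 0 < 1 / (2 * ξ))]
    linarith
  calc _ ≤ 2 / Zr a1 a2 * (1 / (2 * ξ) + C * a1) := mul_le_mul_of_nonneg_left h5 (by positivity)
    _ = _ := by
        field_simp

/-- the variance of the weight -/
theorem var_Wr (h : Kr φ ψ k C) (h1 : 2 ≤ a1) (h2 : a1 < a2) :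
    var (Wr φ a1 a2) ≤ (Zr a1 a2 + 10 * C ^ 2) / Zr a1 a2 ^ 2 := by
  obtain ⟨K, hK⟩ := Wr_wt h h1 h2
  have hZ := Zr_pos h1 h2
  have hC := h.C1
  have ha1 : 0 < a1 := by linarith
  have ha2 : 0 < a2 := by linarith
  have o1 : 0 < 1 / a2 := by positivity
  have o2 : 1 / a2 < 1 / a1 := one_div_lt_one_div_of_lt ha1 h2
  have o3 : 1 / a1 ≤ 1 := by
    rw [div_le_one ha1]
    linarith
  have hi := fun a b => var_int hK.cont a b
  set Z := Zr a1 a2 with hZd
  unfold var
  rw [← intervalIntegral.integral_add_adjacent_intervals (hi 0 (1 / a1)) (hi (1 / a1) 1),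
    ← intervalIntegral.integral_add_adjacent_intervals (hi 0 (1 / a2)) (hi (1 / a2) (1 / a1))]
  have e1 : ∫ u in (1 / a1)..1, u * Wr φ a1 a2 u ^ 2 = 0 := by
    rw [intervalIntegral.integral_congr (g := fun _ => 0)]
    · simp
    · intro u hu
      rw [uIcc_of_le o3] at hu
      simp only
      rw [hK.zero u (hu.1.trans (le_abs_self _))]
      ring
  have e2 : ∫ u in (0 : ℝ)..(1 / a2), u * Wr φ a1 a2 u ^ 2 ≤ 2 * C ^ 2 / Z ^ 2 := by
    have h3 : ∫ u in (0 : ℝ)..(1 / a2), u * Wr φ a1 a2 u ^ 2 ≤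
        ∫ u in (0 : ℝ)..(1 / a2), u * (2 * (C * a2) / Z) ^ 2 := by
      apply intervalIntegral.integral_mono_on o1.le (hi _ _)
        ((continuous_id.mul continuous_const).intervalIntegrable _ _)
      intro u hu
      apply mul_le_mul_of_nonneg_left _ hu.1
      rw [← sq_abs]
      exact pow_le_pow_left₀ (abs_nonneg _) (Wr_bd1 h h1 h2 u) 2
    refine h3.trans (le_of_eq ?_)
    rw [intervalIntegral.integral_mul_const, integral_id]
    field_simp
    ring
  have e3 : ∫ u in (1 / a2)..(1 / a1), u * Wr φ a1 a2 u ^ 2 ≤ (Z + 8 * C ^ 2) / Z ^ 2 := by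
    have hni : (0 : ℝ) ∉ Set.uIcc (1 / a2) (1 / a1) := by
      rw [Set.uIcc_of_le o2.le]
      intro h
      linarith [h.1]
    have hii : IntervalIntegrable (fun u : ℝ => 1 / u) volume (1 / a2) (1 / a1) :=
      intervalIntegral.intervalIntegrable_one_div (fun x hx h => hni (h ▸ hx)) continuousOn_id
    have h3 : ∫ u in (1 / a2)..(1 / a1), u * Wr φ a1 a2 u ^ 2 ≤
        ∫ u in (1 / a2)..(1 / a1), (1 / Z ^ 2) * (1 / u + 8 * C ^ 2 * a1) := by
      apply intervalIntegral.integral_mono_on o2.le (hi _ _)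
        ((hii.add intervalIntegrable_const).const_mul _)
      intro u hu
      have hu0 : 0 < u := by linarith [hu.1]
      have hu1 : u * a1 ≤ 1 := by
        have := hu.2
        rwa [le_div_iff₀ ha1] at this
      have h4 : Wr φ a1 a2 u ^ 2 ≤ ((1 / u + 2 * C * a1) / Z) ^ 2 := by
        rw [← sq_abs]
        exact pow_le_pow_left₀ (abs_nonneg _) (Wr_bd2 h h1 h2 hu.1) 2
      calc u * Wr φ a1 a2 u ^ 2 ≤ u * ((1 / u + 2 * C * a1) / Z) ^ 2 :=
            mul_le_mul_of_nonneg_left h4 hu0.le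
        _ = (1 / Z ^ 2) * (1 / u + 4 * C * a1 + 4 * C ^ 2 * a1 * (u * a1)) := by
            field_simp
            ring
        _ ≤ (1 / Z ^ 2) * (1 / u + 8 * C ^ 2 * a1) := by
            apply mul_le_mul_of_nonneg_left _ (by positivity)
            have h5 : 4 * C ^ 2 * a1 * (u * a1) ≤ 4 * C ^ 2 * a1 * 1 :=
              mul_le_mul_of_nonneg_left hu1 (by positivity)
            have h6 : C * a1 ≤ C ^ 2 * a1 := by
              apply mul_le_mul_of_nonneg_right _ ha1.le
              nlinarith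
            linarith
    refine h3.trans ?_
    rw [intervalIntegral.integral_const_mul, intervalIntegral.integral_add hii
      intervalIntegrable_const, integral_one_div hni, intervalIntegral.integral_const, smul_eq_mul]
    have e4 : 1 / a1 / (1 / a2) = a2 / a1 := by field_simp
    rw [e4]
    change 1 / Z ^ 2 * (Z + (1 / a1 - 1 / a2) * (8 * C ^ 2 * a1)) ≤ _
    rw [div_mul_eq_mul_div, one_mul]
    apply div_le_div_of_nonneg_right _ (by positivity)
    have h5 : (1 / a1 - 1 / a2) * (8 * C ^ 2 * a1) ≤ 1 / a1 * (8 * C ^ 2 * a1) :=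
      mul_le_mul_of_nonneg_right (by linarith) (by positivity)
    have h6 : 1 / a1 * (8 * C ^ 2 * a1) = 8 * C ^ 2 := by field_simp
    linarith
  rw [e1, add_zero]
  calc _ ≤ 2 * C ^ 2 / Z ^ 2 + (Z + 8 * C ^ 2) / Z ^ 2 := add_le_add e2 e3
    _ = _ := by ring

lemma Wr_bd3 (h : Kr φ ψ k C) (h1 : 2 ≤ a1) (h2 : a1 < a2) (u : ℝ) :
    u * |Wr φ a1 a2 u| ≤ 3 * C / Zr a1 a2 := by
  have hZ := Zr_pos h1 h2
  have hC := h.C1
  have ha1 : 0 < a1 := by linarith
  have ha2 : 0 < a2 := by linarith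
  rcases le_or_gt u (1 / a2) with h3 | h3
  · calc u * |Wr φ a1 a2 u| ≤ 1 / a2 * (2 * (C * a2) / Zr a1 a2) :=
          mul_le_mul h3 (Wr_bd1 h h1 h2 u) (abs_nonneg _) (by positivity)
      _ = 2 * C / Zr a1 a2 := by field_simp
      _ ≤ _ := by
          apply div_le_div_of_nonneg_right _ hZ.le
          linarith
  · have hu0 : 0 < u := lt_trans (by positivity) h3
    rcases le_or_gt (1 / a1) u with h4 | h4
    · rw [Wr_zero h h1 h2 (h4.trans (le_abs_self _)), abs_zero, mul_zero]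
      positivity
    · have h5 : u * a1 ≤ 1 := by
        have := h4.le
        rwa [le_div_iff₀ ha1] at this
      calc u * |Wr φ a1 a2 u| ≤ u * ((1 / u + 2 * C * a1) / Zr a1 a2) :=
            mul_le_mul_of_nonneg_left (Wr_bd2 h h1 h2 h3.le) hu0.le
        _ = (1 + 2 * C * (u * a1)) / Zr a1 a2 := by
            field_simp
        _ ≤ _ := by
            apply div_le_div_of_nonneg_right _ hZ.le
            nlinarith

/-- the weight of an increment -/
noncomputable def Fi (φ : ℝ → ℝ) (a1 a2 τ u : ℝ) : ℂ := (Wr φ a1 a2 u : ℂ) * (ee τ u + (-1))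

lemma Fi_wz (h : Kr φ ψ k C) (h1 : 2 ≤ a1) (h2 : a1 < a2) (τ : ℝ) :
    ∃ K : NNReal, Wz (Fi φ a1 a2 τ) (1 / a1) K := by
  obtain ⟨K, hK⟩ := Wr_wt h h1 h2
  have hb := (BL.real hK.lip hK.bd).mul ((BL.ee τ).add (BL.const (-1)))
  obtain ⟨K', hw⟩ := hb.wz hK.b0 hK.b1 (by
    intro ξ hξ
    rw [hK.zero ξ hξ, Complex.ofReal_zero, zero_mul])
  exact ⟨K', hw⟩

lemma norm_ee_sub (τ u : ℝ) : ‖ee τ u + (-1)‖ ≤ 2 * Real.pi * |τ| * |u| := by
  have h1 := Real.norm_exp_I_mul_ofReal_sub_one_le (x := -(2 * Real.pi * τ * u))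
  unfold ee
  rw [← sub_eq_add_neg, mul_comm _ I]
  refine h1.trans (le_of_eq ?_)
  rw [Real.norm_eq_abs, abs_neg, abs_mul, abs_mul, abs_of_pos (by positivity)]

/-- the variance of the increments -/
theorem var_Fi (h : Kr φ ψ k C) (h1 : 2 ≤ a1) (h2 : a1 < a2) {τ : ℝ} (hτ : |τ| ≤ 1 / 4) :
    var (nw (Fi φ a1 a2 τ)) ≤ 15 * C ^ 2 / (Zr a1 a2 ^ 2 * a1 ^ 2) := by
  obtain ⟨K, hK⟩ := Fi_wz h h1 h2 τ
  have hZ := Zr_pos h1 h2
  have hC := h.C1
  have hpi := Real.pi_pos
  have hpi4 := Real.pi_lt_d2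
  have ha1 : 0 < a1 := by linarith
  have o1 : 0 < 1 / a1 := by positivity
  have o3 : 1 / a1 ≤ 1 := by
    rw [div_le_one ha1]
    linarith
  have hi := fun a b => var_int hK.wt.cont a b
  set Z := Zr a1 a2 with hZd
  unfold var
  rw [← intervalIntegral.integral_add_adjacent_intervals (hi 0 (1 / a1)) (hi (1 / a1) 1)]
  have e1 : ∫ u in (1 / a1)..1, u * nw (Fi φ a1 a2 τ) u ^ 2 = 0 := by
    rw [intervalIntegral.integral_congr (g := fun _ => 0)]
    · simp
    · intro u hu
      rw [uIcc_of_le o3] at hu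
      simp only
      rw [hK.wt.zero u (hu.1.trans (le_abs_self _))]
      ring
  have e2 : ∫ u in (0 : ℝ)..(1 / a1), u * nw (Fi φ a1 a2 τ) u ^ 2 ≤
      ∫ u in (0 : ℝ)..(1 / a1), u * (5 * C / Z) ^ 2 := by
    apply intervalIntegral.integral_mono_on o1.le (hi _ _)
      ((continuous_id.mul continuous_const).intervalIntegrable _ _)
    intro u hu
    apply mul_le_mul_of_nonneg_left _ hu.1
    apply pow_le_pow_left₀ (norm_nonneg _)
    unfold Fi
    rw [abs_of_nonneg hu.1, norm_mul, Complex.norm_real, Real.norm_eq_abs]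
    have h3 := norm_ee_sub τ u
    rw [abs_of_nonneg hu.1] at h3
    have h4 : 2 * Real.pi * |τ| * u ≤ 5 / 3 * u := by
      apply mul_le_mul_of_nonneg_right _ hu.1
      nlinarith
    have h5 := Wr_bd3 h h1 h2 u
    calc |Wr φ a1 a2 u| * ‖ee τ u + (-1)‖ ≤ |Wr φ a1 a2 u| * (5 / 3 * u) :=
          mul_le_mul_of_nonneg_left (h3.trans h4) (abs_nonneg _)
      _ = 5 / 3 * (u * |Wr φ a1 a2 u|) := by ring
      _ ≤ 5 / 3 * (3 * C / Z) := mul_le_mul_of_nonneg_left h5 (by norm_num)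
      _ = 5 * C / Z := by ring
  rw [e1, add_zero]
  refine e2.trans ?_
  rw [intervalIntegral.integral_mul_const, integral_id]
  have e3 : ((1 / a1) ^ 2 - 0 ^ 2) / 2 * (5 * C / Z) ^ 2 = 25 / 2 * C ^ 2 / (Z ^ 2 * a1 ^ 2) := by
    field_simp
    ring
  rw [e3]
  apply div_le_div_of_nonneg_right _ (by positivity)
  have : 0 ≤ C ^ 2 := sq_nonneg C
  linarith

end Pool.Agent.T9h26.TD
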