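import Pool.Agent.T9h26.TD.Rd
import Pool.Agent.T9h26.TD.Mf

set_option autoImplicit false

/-! Number rigidity: the deterministic part. -/

open Complex Filter Topology Set MeasureTheory

namespace Pool.Agent.T9h26.TD

open TC (ordz ordT mu EFD)
open SG (ord NZ zmult ZS)
open W200.HW (Ix mem_Ix)
open Pool.Agent.Y747 (al)

variable {φ ψ : ℝ → ℝ} {k : ℕ} {C a1 a2 : ℝ}

/-- the position of the `m`-th zero seen from the `n`-th -/
noncomputable def xp (n m : ℕ) : ℝ := pos (ord n) (Real.log (ord n / (2 * Real.pi))) m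

/-- the zeros in a set -/
def Win (n : ℕ) (S : Set ℝ) : Set ℕ := {m | 1 ≤ m ∧ xp n m ∈ S}

/-- the zeros at distance at most `Y` outside the set -/
def Rin (n : ℕ) (S : Set ℝ) (Y : ℝ) : Set ℕ := {m | 1 ≤ m ∧ |xp n m| ≤ Y ∧ xp n m ∉ S}

lemma round_of {x : ℝ} {z : ℤ} (h : |(z : ℝ) - x| < 1 / 2) : round x = z := by
  rw [round_eq, Int.floor_eq_iff]
  rw [abs_lt] at h
  constructor <;> linarith [h.1, h.2]

lemma ell_bd {T : ℝ} (hT : 10 ≤ T) {n : ℕ} (h1 : T ≤ ord n) (h2 : ord n ≤ 2 * T) :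
    Real.log T - 2 ≤ Real.log (ord n / (2 * Real.pi)) ∧
      Real.log (ord n / (2 * Real.pi)) ≤ Real.log T := by
  have hpi := Real.pi_pos
  have hpi3 := Real.pi_gt_three
  have hT0 : 0 < T := by linarith
  have hn0 : 0 < ord n := by linarith
  constructor
  · rw [Real.log_div hn0.ne' (by positivity)]
    have h3 := log_two_pi_le
    have h4 := Real.log_le_log hT0 h1
    linarith
  · apply Real.log_le_log (by positivity)
    rw [div_le_iff₀ (by positivity)]
    nlinarith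

/-- **the number in the window is determined** -/
theorem rig_det (RH : RiemannHypothesis) (h : Kr φ ψ k C) (hk : 2 ≤ k) (h1 : 2 ≤ a1) (h2 : a1 < a2)
    {η : ℝ} (hη : 0 < η) {G M : ℕ} (hG : 1 ≤ G) {R Y Q T U1 U2 : ℝ} (hR : 0 < R)
    (hRY : R ≤ Y) (hY : 2 ≤ Y) (hT : 10 ≤ T) (hU1 : T ≤ U1) (hU1' : U1 ≤ T + 1)
    (hU2 : 2 * T - 1 ≤ U2) (hLY : 20 * Y ≤ Real.log T)
    (p1 : M * (20 * (Y + 2) ^ 2 / Real.log T ^ 2 + C * (1 / (4 * G) + 4 * Y / Real.log T)) ≤ η / 2)
    (p2 : M * (C * (R / a1) ^ k) ≤ η / 4)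
    (p3 : 4 * C * a2 ^ k / (Y / 2) ^ (k - 2) * Q ≤ η / 4)
    {n : ℕ} (hn1 : T + 2 * Real.log T ≤ ord n) (hn2 : ord n ≤ 2 * T - 2 * Real.log T)
    {t : ℝ} (ht1 : ord n ≤ t) (ht2 : t ≤ ord n + Real.pi / (2 * Real.log T))
    (hBad : t ∉ Bad φ a1 a2 η G T U1 U2)
    (hcnt : cC U1 U2 t (Real.pi * (2 * Y + 4) / Real.log T) < M)
    (htail : ∑ m ∈ Kx U1 U2, (1 + pos t (Real.log T) m ^ 2)⁻¹ < Q)
    {S : Set ℝ} (hS : ∀ x ∈ S, |x| ≤ R) :
    round (Wr φ a1 a2 0 / 2 - ∑ᶠ m ∈ Rin n S Y, fr ψ a1 a2 (xp n m)) = ((Win n S).ncard : ℤ) := by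
  classical
  have hpi := Real.pi_pos
  have hpi3 := Real.pi_gt_three
  have hpi2 := Real.pi_lt_d2
  have hC := h.C1
  have hT0 : 0 < T := by linarith
  set L := Real.log T with hL
  have hL40 : 40 ≤ L := by linarith
  have hL0 : 0 < L := by linarith
  obtain ⟨l1, l2⟩ := ell_bd hT (by linarith : T ≤ ord n) (by linarith)
  rw [← hL] at l1 l2
  set ℓ := Real.log (ord n / (2 * Real.pi)) with hℓ
  have hℓ0 : 0 < ℓ := by linarith
  have hGr : (1 : ℝ) ≤ G := by exact_mod_cast hG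
  -- the shift
  set u := (t - ord n) * L / (2 * Real.pi) with hu
  have hu0 : 0 ≤ u := by
    rw [hu]
    have : 0 ≤ t - ord n := by linarith
    positivity
  have hu1 : u ≤ 1 / 4 := by
    rw [hu, div_le_iff₀ (by positivity)]
    have h3 : t - ord n ≤ Real.pi / (2 * L) := by linarith
    calc (t - ord n) * L ≤ Real.pi / (2 * L) * L := mul_le_mul_of_nonneg_right h3 hL0.le
      _ = 1 / 4 * (2 * Real.pi) := by field_simp; ring
  set i := ⌊4 * G * u⌋₊ with hi
  have hi1 : (i : ℝ) ≤ 4 * G * u := Nat.floor_le (by positivity)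
  have hi2 : 4 * G * u < i + 1 := Nat.lt_floor_add_one _
  have hiG : i ≤ G := by
    have : (i : ℝ) ≤ G := by nlinarith
    exact_mod_cast this
  set τ := tg G i with hτ
  have hτ0 : 0 ≤ τ := tg_nonneg G i
  have hτ1 : τ ≤ 1 / 4 := tg_le hG hiG
  have hτu1 : τ ≤ u := by
    rw [hτ]
    unfold tg
    rw [div_le_iff₀ (by positivity)]
    linarith
  have hτu2 : u - τ ≤ 1 / (4 * G) := by
    rw [hτ]
    unfold tg
    rw [sub_le_iff_le_add, ← add_div, le_div_iff₀ (by positivity)]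
    linarith
  set s := t + -(2 * Real.pi * τ / L) with hs
  -- the smoothed sum at `s`
  unfold Bad at hBad
  rw [mem_ofPred_eq, not_or, not_le] at hBad
  obtain ⟨b1, b2⟩ := hBad
  have b3 : ¬ (η ≤ ‖PZ (Fi φ a1 a2 (-τ)) T t‖ ∨
      η < |SX (ordz U1 U2) mu (Wr φ a1 a2) L s - (Wr φ a1 a2 0 / 2 -
        (PW (Wr φ a1 a2) (1 / a1) T s).re)|) := fun hc => b2 ⟨i, Finset.mem_range.2 (by omega), hc⟩
  rw [not_or, not_le, not_lt] at b3
  obtain ⟨b4, b5⟩ := b3
  obtain ⟨K, hK⟩ := Wr_wt h h1 h2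
  have hT1 : 1 < T := by linarith
  have b6 : PW (Wr φ a1 a2) (1 / a1) T s = PW (Wr φ a1 a2) (1 / a1) T t +
      PZ (Fi φ a1 a2 (-τ)) T t := by
    have e1 : s = t + 2 * Real.pi * (-τ) / Real.log T := by
      rw [hs]
      ring
    rw [PW_PZ hK hT1, PW_PZ hK hT1, e1, PZ_shift _ hT1, ← PZ_add]
    congr 1
    ext v
    unfold Fi ee
    ring
  have b7 : |SX (ordz U1 U2) mu (Wr φ a1 a2) L s - Wr φ a1 a2 0 / 2| ≤ 1 / 2 - 2 * η := by
    have e1 : |(PW (Wr φ a1 a2) (1 / a1) T s).re| ≤ 1 / 2 - 4 * η + η := by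
      refine (Complex.abs_re_le_norm _).trans ?_
      rw [b6]
      refine (norm_add_le _ _).trans ?_
      linarith
    have e2 : SX (ordz U1 U2) mu (Wr φ a1 a2) L s - Wr φ a1 a2 0 / 2 =
        (SX (ordz U1 U2) mu (Wr φ a1 a2) L s - (Wr φ a1 a2 0 / 2 -
          (PW (Wr φ a1 a2) (1 / a1) T s).re)) - (PW (Wr φ a1 a2) (1 / a1) T s).re := by ring
    rw [e2]
    refine (abs_sub _ _).trans ?_
    linarith
  rw [SX_idx RH (by linarith : 1 ≤ U1)] at b7
  -- notation
  set F : ℕ → ℝ := fun m => Real.exp (-(ord m - s) ^ 2 / 2) *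
    ph (Wr φ a1 a2) (L * (ord m - s)) with hF
  have hFe : ∀ m, F m = Real.exp (-(ord m - s) ^ 2 / 2) * fr ψ a1 a2 (pos s L m) := by
    intro m
    rw [hF]
    simp only
    rw [← ph_Wr h h1 h2]
    congr 2
    unfold pos
    field_simp
  set f := fr ψ a1 a2 with hf
  have f0 : ∀ x, 0 ≤ f x := fr_nonneg h h1 h2
  have f1 : ∀ x, |f x| ≤ 1 := fr_abs h h1 h2
  -- positions
  have q1 : ∀ m, pos s L m = pos (ord n) L m - (u - τ) := by
    intro m
    rw [hu, hs]
    unfold pos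
    field_simp
    ring
  have q2 : ∀ m, pos t L m = pos s L m - τ := by
    intro m
    rw [hs]
    unfold pos
    field_simp
    ring
  have q3 : ∀ m, pos (ord n) L m = xp n m * (L / ℓ) := by
    intro m
    unfold xp
    rw [← hℓ]
    unfold pos
    field_simp
  have hLℓ1 : 1 ≤ L / ℓ := by
    rw [le_div_iff₀ hℓ0]
    linarith
  have hLℓ2 : L / ℓ - 1 ≤ 4 / L := by
    rw [sub_le_iff_le_add, div_le_iff₀ hℓ0]
    have : (4 / L + 1) * ℓ = 4 * (ℓ / L) + ℓ := by ring
    rw [this]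
    have h3 : 1 / 2 ≤ ℓ / L := by
      rw [div_le_div_iff₀ (by norm_num) hL0]
      linarith
    linarith
  have hYL : 4 * Y / L ≤ 1 / 5 := by
    rw [div_le_div_iff₀ hL0 (by norm_num)]
    linarith
  have q4 : ∀ m, |xp n m| ≤ Y → |pos (ord n) L m - xp n m| ≤ 4 * Y / L := by
    intro m hm
    rw [q3, show xp n m * (L / ℓ) - xp n m = xp n m * (L / ℓ - 1) by ring, abs_mul,
      abs_of_nonneg (by linarith : 0 ≤ L / ℓ - 1)]
    calc |xp n m| * (L / ℓ - 1) ≤ Y * (4 / L) :=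
          mul_le_mul hm hLℓ2 (by linarith) (by linarith)
      _ = _ := by ring
  have hG4 : 1 / (4 * (G : ℝ)) ≤ 1 / 4 := by
    apply one_div_le_one_div_of_le (by norm_num)
    linarith
  have q5 : ∀ m, |xp n m| ≤ Y → |pos s L m - xp n m| ≤ 1 / (4 * G) + 4 * Y / L := by
    intro m hm
    rw [q1, show pos (ord n) L m - (u - τ) - xp n m = (pos (ord n) L m - xp n m) - (u - τ) by ring]
    refine (abs_sub _ _).trans ?_
    rw [abs_of_nonneg (by linarith : 0 ≤ u - τ)]
    linarith [q4 m hm]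
  -- single terms
  set e0 := 20 * (Y + 2) ^ 2 / L ^ 2 + C * (1 / (4 * G) + 4 * Y / L) with he0
  have t1 : ∀ m, |xp n m| ≤ Y → |F m - f (xp n m)| ≤ e0 := by
    intro m hm
    rw [hFe]
    have k1 : |pos s L m| ≤ Y + 2 := by
      have := q5 m hm
      have k2 := abs_sub_abs_le_abs_sub (pos s L m) (xp n m)
      linarith
    have k2 : (ord m - s) ^ 2 / 2 ≤ 20 * (Y + 2) ^ 2 / L ^ 2 := by
      have k3 : ord m - s = 2 * Real.pi * pos s L m / L := by
        unfold pos
        field_simp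
      rw [k3, div_pow, mul_pow, div_div, mul_comm (L ^ 2) 2, ← div_div]
      apply div_le_div_of_nonneg_right _ (by positivity)
      have k4 : pos s L m ^ 2 ≤ (Y + 2) ^ 2 := by
        rw [← sq_abs]
        exact pow_le_pow_left₀ (abs_nonneg _) k1 2
      have k5 : (2 * Real.pi) ^ 2 ≤ 40 := by nlinarith
      have k6 : (2 * Real.pi) ^ 2 * pos s L m ^ 2 ≤ 40 * (Y + 2) ^ 2 :=
        mul_le_mul k5 k4 (sq_nonneg _) (by norm_num)
      linarith
    have k3 : |Real.exp (-(ord m - s) ^ 2 / 2) - 1| ≤ 20 * (Y + 2) ^ 2 / L ^ 2 := by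
      have k4 := Real.add_one_le_exp (-(ord m - s) ^ 2 / 2)
      have k5 : Real.exp (-(ord m - s) ^ 2 / 2) ≤ 1 := by
        apply Real.exp_le_one_iff.2
        have := sq_nonneg (ord m - s)
        linarith
      rw [abs_sub_comm, abs_of_nonneg (by linarith)]
      linarith
    have k4 : |f (pos s L m) - f (xp n m)| ≤ C * (1 / (4 * G) + 4 * Y / L) := by
      refine (fr_lip h h1 h2 _ _).trans ?_
      have k5 : C / a1 ≤ C := div_le_self (by linarith) (by linarith)
      exact mul_le_mul k5 (q5 m hm) (abs_nonneg _) (by linarith)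
    rw [show Real.exp (-(ord m - s) ^ 2 / 2) * f (pos s L m) - f (xp n m) =
      (Real.exp (-(ord m - s) ^ 2 / 2) - 1) * f (pos s L m) +
        (f (pos s L m) - f (xp n m)) by ring]
    refine (abs_add_le _ _).trans ?_
    rw [abs_mul, he0]
    have k5 : |Real.exp (-(ord m - s) ^ 2 / 2) - 1| * |f (pos s L m)| ≤
        20 * (Y + 2) ^ 2 / L ^ 2 * 1 := mul_le_mul k3 (f1 _) (abs_nonneg _) (by positivity)
    linarith
  have t2 : ∀ m, |xp n m| ≤ R → |f (xp n m) - 1| ≤ C * (R / a1) ^ k := by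
    intro m hm
    refine (fr_flat h h1 h2 _).trans ?_
    apply mul_le_mul_of_nonneg_left _ (by linarith)
    apply pow_le_pow_left₀ (by positivity)
    exact div_le_div_of_nonneg_right hm (by linarith)
  have t3 : ∀ m, Y < |xp n m| → |F m| ≤ 4 * C * a2 ^ k / (Y / 2) ^ (k - 2) *
      (1 + pos t L m ^ 2)⁻¹ := by
    intro m hm
    set y := pos s L m with hy
    have k1 : Y ≤ |pos (ord n) L m| := by
      rw [q3, abs_mul, abs_of_nonneg (by linarith : 0 ≤ L / ℓ)]
      nlinarith [abs_nonneg (xp n m)]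
    have k2 : Y - 1 / 4 ≤ |y| := by
      rw [hy, q1]
      have k3 := abs_sub_abs_le_abs_sub (pos (ord n) L m) (u - τ)
      rw [abs_of_nonneg (by linarith : 0 ≤ u - τ)] at k3
      linarith
    have k3 : Y / 2 ≤ |y| := by linarith
    have k4 : 1 ≤ |y| := by linarith
    have k5 : 1 + pos t L m ^ 2 ≤ 4 * |y| ^ 2 := by
      have k6 : |pos t L m| ≤ |y| + 1 / 4 := by
        rw [q2]
        refine (abs_sub _ _).trans ?_
        rw [abs_of_nonneg hτ0]
        linarith
      have k7 : pos t L m ^ 2 ≤ (|y| + 1 / 4) ^ 2 := by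
        rw [← sq_abs]
        exact pow_le_pow_left₀ (abs_nonneg _) k6 2
      nlinarith
    rw [hFe]
    have k6 : |Real.exp (-(ord m - s) ^ 2 / 2) * f y| ≤ f y := by
      rw [abs_mul, abs_of_nonneg (f0 y), abs_of_pos (Real.exp_pos _)]
      have k7 : Real.exp (-(ord m - s) ^ 2 / 2) ≤ 1 := by
        apply Real.exp_le_one_iff.2
        have := sq_nonneg (ord m - s)
        linarith
      calc _ ≤ 1 * f y := mul_le_mul_of_nonneg_right k7 (f0 y)
        _ = f y := one_mul _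
    refine k6.trans ?_
    have k7 := fr_dec h h1 h2 y
    rw [← hf] at k7
    have k8 : (Y / 2) ^ (k - 2) * ((1 + pos t L m ^ 2) / 4) ≤ |y| ^ k := by
      have e : |y| ^ k = |y| ^ (k - 2) * |y| ^ 2 := by
        rw [← pow_add]
        congr 1
        omega
      rw [e]
      apply mul_le_mul (pow_le_pow_left₀ (by linarith) k3 _) (by linarith) (by positivity)
        (by positivity)
    have k9 : (Y / 2) ^ (k - 2) * ((1 + pos t L m ^ 2) / 4) * f y ≤ C * a2 ^ k :=
      (mul_le_mul_of_nonneg_right k8 (f0 y)).trans k7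
    have k10 : 0 < (Y / 2) ^ (k - 2) := pow_pos (by linarith) _
    have k11 : 0 < 1 + pos t L m ^ 2 := by positivity
    rw [← div_eq_mul_inv, div_div, le_div_iff₀ (by positivity)]
    nlinarith
  -- counting
  set K0 := Kx U1 U2 with hK0
  set AY := K0.filter (fun m => |xp n m| ≤ Y) with hAY
  have hcard : (AY.card : ℝ) ≤ M := by
    have k1 : AY.card ≤ cC U1 U2 t (Real.pi * (2 * Y + 4) / L) := by
      unfold cC
      apply Finset.card_le_card
      intro m hm
      rw [hAY, Finset.mem_filter] at hm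
      rw [Finset.mem_filter]
      refine ⟨hm.1, ?_⟩
      have k2 : |pos t L m| ≤ Y + 2 := by
        rw [q2]
        refine (abs_sub _ _).trans ?_
        rw [abs_of_nonneg hτ0]
        have := q5 m hm.2
        have k2 := abs_sub_abs_le_abs_sub (pos s L m) (xp n m)
        linarith [hm.2]
      have k3 : ord m - t = 2 * Real.pi / L * pos t L m := by
        unfold pos
        field_simp
      rw [k3, abs_mul, abs_of_pos (by positivity)]
      calc 2 * Real.pi / L * |pos t L m| ≤ 2 * Real.pi / L * (Y + 2) :=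
            mul_le_mul_of_nonneg_left k2 (by positivity)
        _ = _ := by ring
    have k2 : AY.card ≤ M := by omega
    exact_mod_cast k2
  -- the window and the ring as finite sets
  have hmem : ∀ m, 1 ≤ m → |xp n m| ≤ Y → m ∈ K0 := by
    intro m hm1 hm
    rw [hK0, mem_Kx]
    have k1 : |ord m - ord n| ≤ 1 := by
      have k2 : ord m - ord n = 2 * Real.pi / ℓ * xp n m := by
        unfold xp
        rw [← hℓ]
        unfold pos
        field_simp
      rw [k2, abs_mul, abs_of_pos (by positivity)]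
      calc 2 * Real.pi / ℓ * |xp n m| ≤ 2 * Real.pi / ℓ * Y :=
            mul_le_mul_of_nonneg_left hm (by positivity)
        _ = 2 * Real.pi * Y / ℓ := by ring
        _ ≤ 1 := by
            rw [div_le_one hℓ0]
            nlinarith
    rw [abs_le] at k1
    refine ⟨hm1, by linarith, by linarith⟩
  set A := AY.filter (fun m => xp n m ∈ S) with hA
  set B := AY.filter (fun m => ¬ xp n m ∈ S) with hB
  have hWin : Win n S = ↑A := by
    ext m
    rw [Finset.mem_coe, hA, hAY, Finset.mem_filter, Finset.mem_filter]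
    constructor
    · rintro ⟨k1, k2⟩
      have k3 := (hS _ k2).trans hRY
      exact ⟨⟨hmem m k1 k3, k3⟩, k2⟩
    · rintro ⟨⟨k1, k2⟩, k3⟩
      exact ⟨(mem_Kx.1 k1).1, k3⟩
  have hRin : Rin n S Y = ↑B := by
    ext m
    rw [Finset.mem_coe, hB, hAY, Finset.mem_filter, Finset.mem_filter]
    constructor
    · rintro ⟨k1, k2, k3⟩
      exact ⟨⟨hmem m k1 k2, k2⟩, k3⟩
    · rintro ⟨⟨k1, k2⟩, k3⟩
      exact ⟨(mem_Kx.1 k1).1, k2, k3⟩
  rw [hWin, hRin, Set.ncard_coe_finset, finsum_mem_coe_finset]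
  apply round_of
  -- the comparison
  have c1 : |∑ m ∈ AY, F m - ∑ m ∈ AY, f (xp n m)| ≤ η / 2 := by
    rw [← Finset.sum_sub_distrib]
    refine (Finset.abs_sum_le_sum_abs _ _).trans ?_
    have k1 : ∑ m ∈ AY, |F m - f (xp n m)| ≤ ∑ m ∈ AY, e0 :=
      Finset.sum_le_sum fun m hm => t1 m (Finset.mem_filter.1 hm).2
    refine k1.trans ?_
    rw [Finset.sum_const, nsmul_eq_mul]
    have he00 : 0 ≤ e0 := by rw [he0]; positivity
    exact (mul_le_mul_of_nonneg_right hcard he00).trans p1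
  have c2 : |∑ m ∈ A, f (xp n m) - A.card| ≤ η / 4 := by
    have k1 : ∑ m ∈ A, f (xp n m) - (A.card : ℝ) = ∑ m ∈ A, (f (xp n m) - 1) := by
      rw [Finset.sum_sub_distrib, Finset.sum_const, nsmul_eq_mul, mul_one]
    rw [k1]
    refine (Finset.abs_sum_le_sum_abs _ _).trans ?_
    have k2 : ∑ m ∈ A, |f (xp n m) - 1| ≤ ∑ m ∈ A, C * (R / a1) ^ k :=
      Finset.sum_le_sum fun m hm => t2 m (hS _ (Finset.mem_filter.1 hm).2)
    refine k2.trans ?_
    rw [Finset.sum_const, nsmul_eq_mul]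
    refine le_trans ?_ p2
    apply mul_le_mul_of_nonneg_right _ (by positivity)
    refine le_trans ?_ hcard
    exact_mod_cast Finset.card_filter_le _ _
  have c3 : |∑ m ∈ K0.filter (fun m => ¬ |xp n m| ≤ Y), F m| ≤ η / 4 := by
    refine (Finset.abs_sum_le_sum_abs _ _).trans ?_
    set c := 4 * C * a2 ^ k / (Y / 2) ^ (k - 2) with hc
    have hc0 : 0 ≤ c := by
      have : 0 < (Y / 2) ^ (k - 2) := pow_pos (by linarith) _
      have : 0 < a2 := by linarith
      positivity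
    have k1 : ∑ m ∈ K0.filter (fun m => ¬ |xp n m| ≤ Y), |F m| ≤
        ∑ m ∈ K0.filter (fun m => ¬ |xp n m| ≤ Y), c * (1 + pos t L m ^ 2)⁻¹ :=
      Finset.sum_le_sum fun m hm => t3 m (not_le.1 (Finset.mem_filter.1 hm).2)
    refine k1.trans ?_
    rw [← Finset.mul_sum]
    refine le_trans ?_ p3
    apply mul_le_mul_of_nonneg_left _ hc0
    refine le_trans ?_ htail.le
    apply Finset.sum_le_sum_of_subset_of_nonneg (Finset.filter_subset _ _)
    intro m _ _
    positivity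
  have c4 : ∑ m ∈ K0, F m = ∑ m ∈ AY, F m + ∑ m ∈ K0.filter (fun m => ¬ |xp n m| ≤ Y), F m :=
    (Finset.sum_filter_add_sum_filter_not K0 (fun m => |xp n m| ≤ Y) F).symm
  have c5 : ∑ m ∈ AY, f (xp n m) = ∑ m ∈ A, f (xp n m) + ∑ m ∈ B, f (xp n m) :=
    (Finset.sum_filter_add_sum_filter_not AY (fun m => xp n m ∈ S) _).symm
  have b8 : |∑ m ∈ K0, F m - Wr φ a1 a2 0 / 2| ≤ 1 / 2 - 2 * η := b7
  rw [c4] at b8
  rw [c5] at c1
  rw [abs_le] at b8 c1 c2 c3
  push_cast
  rw [abs_lt]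
  constructor <;> linarith [b8.1, b8.2, c1.1, c1.2, c2.1, c2.2, c3.1, c3.2]

end Pool.Agent.T9h26.TD
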