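import Pool.Agent.T9h26.TD.Zt

set_option autoImplicit false

/-! The field exceeds the level `(1 - ε) λ` somewhere, with large probability: numerics. -/

open Complex Filter Topology Set MeasureTheory

namespace Pool.Agent.T9h26.TD

lemma evs (A : ℝ) (n : ℕ) {c δ : ℝ} (hc : 0 < c) (hδ : 0 < δ) :
    ∀ᶠ ℓ : ℝ in atTop, A * (ℓ ^ n * Real.exp (-(c * ℓ))) ≤ δ := by
  have h1 : Tendsto (fun x : ℝ => x ^ n * Real.exp (-x)) atTop (𝓝 0) :=
    Real.tendsto_pow_mul_exp_neg_atTop_nhds_zero n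
  have h2 : Tendsto (fun ℓ : ℝ => c * ℓ) atTop atTop := tendsto_id.const_mul_atTop hc
  have h3 := ((h1.comp h2).const_mul (A / c ^ n))
  rw [mul_zero] at h3
  filter_upwards [h3.eventually (gt_mem_nhds hδ)] with ℓ h4
  refine le_trans (le_of_eq ?_) h4.le
  simp only [Function.comp]
  rw [mul_pow]
  field_simp

/-- sum of reciprocals of the distances -/
lemma sum_dist (M c : ℕ) (hc : c ≤ M) : ∑ c' ∈ Finset.range (M + 1),
    1 / max |(c : ℝ) - c'| 1 ≤ 2 * (2 + Real.log M) := by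
  set f : ℕ → ℝ := fun h => 1 / max (h : ℝ) 1 with hf
  have hf0 : ∀ h, 0 ≤ f h := fun h => by
    simp only [hf]
    positivity
  have hF : ∑ h ∈ Finset.range (M + 1), f h ≤ 2 + Real.log M := by
    rw [Finset.sum_range_succ']
    have h1 : f 0 = 1 := by simp [hf]
    have h2 : ∑ h ∈ Finset.range M, f (h + 1) ≤ 1 + Real.log M := by
      have h3 := harmonic_le_one_add_log M
      unfold harmonic at h3
      push_cast at h3
      refine le_trans (le_of_eq ?_) h3
      apply Finset.sum_congr rfl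
      intro h _
      simp only [hf]
      push_cast
      rw [max_eq_left (by linarith [(Nat.cast_nonneg h : (0 : ℝ) ≤ h)]), one_div]
    rw [h1]
    linarith
  have hsub : ∀ n ≤ M + 1, ∑ h ∈ Finset.range n, f h ≤ 2 + Real.log M := by
    intro n hn
    refine le_trans ?_ hF
    exact Finset.sum_le_sum_of_subset_of_nonneg (Finset.range_mono hn) fun _ _ _ => hf0 _
  have e1 : ∑ c' ∈ Finset.range (c + 1), 1 / max |(c : ℝ) - c'| 1 ≤ 2 + Real.log M := by
    refine le_trans (le_of_eq ?_) (hsub (c + 1) (by omega))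
    rw [← Finset.sum_range_reflect]
    apply Finset.sum_congr rfl
    intro c' hc'
    rw [Finset.mem_range] at hc'
    simp only [hf]
    have h1 : c + 1 - 1 - c' = c - c' := by omega
    rw [h1]
    have h2 : c' ≤ c := by omega
    have h3 : (c : ℝ) - ((c - c' : ℕ) : ℝ) = c' := by
      rw [Nat.cast_sub h2]
      ring
    rw [h3, abs_of_nonneg (Nat.cast_nonneg _)]
  have e2 : ∑ c' ∈ Finset.Ico (c + 1) (M + 1), 1 / max |(c : ℝ) - c'| 1 ≤ 2 + Real.log M := by
    rw [Finset.sum_Ico_eq_sum_range]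
    have h1 : ∀ k ∈ Finset.range (M + 1 - (c + 1)), 1 / max |(c : ℝ) - ((c + 1 + k : ℕ) : ℝ)| 1 ≤
        f k := by
      intro k _
      simp only [hf]
      have h2 : |(c : ℝ) - ((c + 1 + k : ℕ) : ℝ)| = k + 1 := by
        push_cast
        rw [show (c : ℝ) - (c + 1 + k) = -(k + 1) by ring, abs_neg,
          abs_of_nonneg (by positivity)]
      rw [h2]
      apply one_div_le_one_div_of_le (by positivity)
      apply max_le_max _ le_rfl
      linarith
    exact (Finset.sum_le_sum h1).trans (hsub _ (by omega))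
  have e3 : ∑ c' ∈ Finset.range (M + 1), 1 / max |(c : ℝ) - c'| 1 =
      (∑ c' ∈ Finset.range (c + 1), 1 / max |(c : ℝ) - c'| 1) +
      ∑ c' ∈ Finset.Ico (c + 1) (M + 1), 1 / max |(c : ℝ) - c'| 1 :=
    (Finset.sum_range_add_sum_Ico _ (by omega)).symm
  rw [e3]
  linarith

/-- the parameters -/
noncomputable def Dp (K : ℕ) (ℓ : ℝ) : ℝ := Real.exp (ℓ / (K + 4))

/-- the degree -/
noncomputable def Jp (K : ℕ) (ℓ : ℝ) : ℕ := ⌈(10 : ℝ) ^ 5 * (K + 1) ^ 2 * ℓ⌉₊

/-- the top cut-off -/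
noncomputable def ap (K : ℕ) (ℓ : ℝ) : ℝ := 1 / (4 * (Jp K ℓ : ℝ))

/-- the radius -/
noncomputable def Rp (K : ℕ) (ℓ : ℝ) : ℝ := (Jp K ℓ : ℝ) / (40 * (K + 1))

section

variable {K : ℕ} {ℓ : ℝ}

lemma Jp_ge (hℓ : 1 ≤ ℓ) : (10 : ℝ) ^ 5 * (K + 1) ^ 2 * ℓ ≤ Jp K ℓ ∧
    (Jp K ℓ : ℝ) ≤ (10 : ℝ) ^ 5 * (K + 1) ^ 2 * ℓ + 1 ∧ ℓ ≤ Jp K ℓ ∧ (1 : ℝ) ≤ Jp K ℓ := by
  have h0 : 0 ≤ (10 : ℝ) ^ 5 * (K + 1) ^ 2 * ℓ := by positivity
  have h1 := Nat.le_ceil ((10 : ℝ) ^ 5 * (K + 1) ^ 2 * ℓ)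
  have h2 := (Nat.ceil_lt_add_one h0).le
  have h3 : ℓ ≤ (10 : ℝ) ^ 5 * (K + 1) ^ 2 * ℓ := by
    have hK : (0 : ℝ) ≤ K := Nat.cast_nonneg K
    have : (1 : ℝ) ≤ (10 : ℝ) ^ 5 * (K + 1) ^ 2 := by nlinarith
    nlinarith
  unfold Jp
  exact ⟨h1, h2, h3.trans h1, hℓ.trans (h3.trans h1)⟩

lemma x2 (hℓ : 1 ≤ ℓ) {v : ℝ} (hv0 : 0 ≤ v) (hv : v ≤ 2 * ℓ) :
    Real.exp (2 * Rp K ℓ) * ((Jp K ℓ).factorial * v ^ (Jp K ℓ) / (Rp K ℓ) ^ (2 * Jp K ℓ)) ≤
      Real.exp (-(Jp K ℓ : ℝ)) := by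
  obtain ⟨h1, -, -, h4⟩ := Jp_ge (K := K) hℓ
  set J := Jp K ℓ with hJ
  have hJ0 : (0 : ℝ) < J := by linarith
  have hK : (0 : ℝ) < (K : ℝ) + 1 := by positivity
  have hR : Rp K ℓ = J / (40 * (K + 1)) := rfl
  rw [hR]
  have e1 : (J.factorial : ℝ) ≤ (J : ℝ) ^ J := by exact_mod_cast Nat.factorial_le_pow J
  have e2 : (J.factorial : ℝ) * v ^ J / (J / (40 * ((K : ℝ) + 1))) ^ (2 * J) ≤ (4 / 125) ^ J := by
    have hR0 : 0 < (J : ℝ) / (40 * (K + 1)) := by positivity
    rw [div_le_iff₀ (by positivity)]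
    calc (J.factorial : ℝ) * v ^ J ≤ (J : ℝ) ^ J * (2 * ℓ) ^ J := by gcongr
      _ = (J * (2 * ℓ)) ^ J := by rw [← mul_pow]
      _ ≤ (4 / 125 * (J / (40 * ((K : ℝ) + 1))) ^ 2) ^ J := by
          apply pow_le_pow_left₀ (by positivity)
          have e3 : 4 / 125 * (J / (40 * ((K : ℝ) + 1))) ^ 2 = J * (J / (50000 * (K + 1) ^ 2)) := by
            field_simp
            norm_num
          rw [e3]
          apply mul_le_mul_of_nonneg_left _ hJ0.le
          rw [le_div_iff₀ (by positivity)]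
          linarith
      _ = _ := by rw [mul_pow, ← pow_mul]
  have e3 : Real.exp (2 * (J / (40 * ((K : ℝ) + 1)))) ≤ Real.exp (1 / 20) ^ J := by
    rw [← Real.exp_nat_mul]
    apply Real.exp_le_exp.2
    rw [← mul_div_assoc, div_le_iff₀ (by positivity)]
    have : (0 : ℝ) ≤ K := Nat.cast_nonneg K
    nlinarith
  calc _ ≤ Real.exp (1 / 20) ^ J * (4 / 125) ^ J := by
        apply mul_le_mul e3 e2 (by positivity) (by positivity)
    _ = (Real.exp (1 / 20) * (4 / 125)) ^ J := by rw [mul_pow]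
    _ ≤ Real.exp (-1) ^ J := by
        apply pow_le_pow_left₀ (by positivity)
        have h5 : Real.exp (-1) = (Real.exp 1)⁻¹ := Real.exp_neg 1
        have h6 : Real.exp (1 / 20) ≤ Real.exp 1 := Real.exp_le_exp.2 (by norm_num)
        have h7 := Real.exp_one_lt_d9
        rw [h5, ← one_div, le_div_iff₀ (Real.exp_pos 1)]
        have h8 := Real.exp_pos (1 : ℝ)
        have h9 := Real.exp_pos (1 / 20 : ℝ)
        nlinarith
    _ = _ := by
        rw [← Real.exp_nat_mul]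
        congr 1
        ring

lemma three_fifths (J : ℕ) : (3 / 5 : ℝ) ^ J ≤ Real.exp (-(J : ℝ) / 2) := by
  have h1 : (3 / 5 : ℝ) ≤ Real.exp (-(1 / 2)) := by
    have h2 : Real.exp (-(1 / 2 : ℝ)) = (Real.exp (1 / 2))⁻¹ := Real.exp_neg _
    rw [h2, ← one_div, le_div_iff₀ (Real.exp_pos _)]
    have h3 : Real.exp (1 / 2 : ℝ) ≤ 5 / 3 := by
      have h4 : Real.exp (1 / 2 : ℝ) ^ 2 ≤ (5 / 3) ^ 2 := by
        rw [← Real.exp_nat_mul]
        have := Real.exp_one_lt_d9
        norm_num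
        linarith
      exact le_of_sq_le_sq h4 (by norm_num)
    linarith
  calc (3 / 5 : ℝ) ^ J ≤ Real.exp (-(1 / 2)) ^ J := pow_le_pow_left₀ (by norm_num) h1 J
    _ = _ := by
      rw [← Real.exp_nat_mul]
      congr 1
      ring

/-- the bound for a pair of positions -/
lemma pair_bd {Λ ε : ℝ} (hε : 0 < ε) {κ : ℂ} (hκ : ‖κ‖ ^ 2 = Λ) (hΛ : 0 < Λ) (hΛ1 : Λ ≤ 1)
    (hΛε : Λ * (1 + 4 * ε) ≤ 1) {a0 D : ℝ} (h0 : 0 < a0) (ha1 : 2 * a0 ≤ 1 / 2) (hD : 2 ≤ D)
    (hK : 1 ≤ K) {d : ℝ} (hd0 : 0 < d) (hd1 : d ≤ 1 / 10) (h : ℝ) (hh0 : 0 ≤ h)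
    (hh : h = 0 ∨ 1 ≤ h) :
    (1 - d)⁻¹ ^ 2 * Real.exp (2 * ((1 + 2 * ε) * Λ * Real.log D) *
        (K - (Nat.findGreatest (fun m => D ≤ h * aa a0 D m) K : ℕ))) *
      Real.exp (VV κ a0 D K (Nat.findGreatest (fun m => D ≤ h * aa a0 D m) K) h) ≤
    Real.exp (2 * (Λ * ipf (bp a0 D K) (bp a0 D K))) * ((1 - d)⁻¹ ^ 2 * Real.exp (9 / D) +
      2 * Real.exp 6 * (D ^ (K + 2) / a0) * (1 / max h 1)) := by
  set m := Nat.findGreatest (fun m => D ≤ h * aa a0 D m) K with hm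
  have hmK : m ≤ K := Nat.findGreatest_le K
  have hm1 : m ≠ 0 → D ≤ h * aa a0 D m := fun hne => Nat.findGreatest_of_ne_zero hm.symm hne
  have hm2 : m < K → h * aa a0 D (m + 1) < D := by
    intro hlt
    have := Nat.findGreatest_is_greatest (P := fun m => D ≤ h * aa a0 D m) (n := K) (k := m + 1)
      (by omega) (by omega)
    exact not_le.1 this
  have hD0 : 0 < D := by linarith
  have hD1 : 1 ≤ D := by linarith
  have hlD : 0 ≤ Real.log D := Real.log_nonneg hD1
  have hl2 : Real.log 2 ≤ 0.7 := by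
    have := Real.log_two_lt_d9
    linarith
  have hl20 : 0 ≤ Real.log 2 := Real.log_nonneg (by norm_num)
  set A := ipf (bp a0 D K) (bp a0 D K) with hA
  have haK : aa a0 D K = a0 / D ^ K := rfl
  -- lower bound for `A`
  have hAlo : K * Real.log D - Real.log 2 ≤ A := by
    have h1 : 2 * aa a0 D K ≤ aa a0 D 0 := by
      rw [aa_zero, haK, ← mul_div_assoc, div_le_iff₀ (by positivity)]
      have h2 : D ^ 1 ≤ D ^ K := pow_le_pow_right₀ hD1 hK
      rw [pow_one] at h2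
      nlinarith
    have h2 := ip_ge (aa_pos h0 hD0 K) h1 (by rw [aa_zero]; linarith)
    have h3 : Real.log (aa a0 D 0 / (2 * aa a0 D K)) = K * Real.log D - Real.log 2 := by
      rw [aa_zero, haK]
      have : a0 / (2 * (a0 / D ^ K)) = D ^ K / 2 := by field_simp
      rw [this, Real.log_div (by positivity) (by norm_num), Real.log_pow]
    rw [h3] at h2
    exact h2
  -- upper bound for the variance of the first bands
  have hAm : ipf (bp a0 D m) (bp a0 D m) ≤ m * Real.log D + Real.log 2 := by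
    have h2 := ip_le (aa_pos h0 hD0 m) (aa_anti h0 hD1 (Nat.zero_le m)) (aa_pos h0 hD0 m)
      (aa_anti h0 hD1 (Nat.zero_le m)) (by rw [aa_zero]; linarith)
    have h3 : Real.log (2 * aa a0 D 0 / aa a0 D m) = m * Real.log D + Real.log 2 := by
      rw [aa_zero]
      unfold aa
      have : 2 * a0 / (a0 / D ^ m) = D ^ m * 2 := by field_simp
      rw [this, Real.log_mul (by positivity) (by norm_num), Real.log_pow]
    rw [h3] at h2
    exact h2
  -- the correlation
  have hC : ∫ u in (0 : ℝ)..1, u * (bp a0 D K u * bp a0 D m u) * Real.cos (2 * Real.pi * h * u) ≤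
      9 / (2 * D) := by
    rcases eq_or_ne m 0 with hm0 | hm0
    · rw [hm0]
      have : ∀ u : ℝ, u * (bp a0 D K u * bp a0 D 0 u) * Real.cos (2 * Real.pi * h * u) = 0 := by
        intro u
        have : bp a0 D 0 u = 0 := by
          unfold bp kd
          ring
        rw [this]
        ring
      simp_rw [this]
      rw [intervalIntegral.integral_zero]
      positivity
    · have h3 := hm1 hm0
      have ham := aa_pos h0 hD0 m
      have hhp : 0 < h := by
        by_contra hc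
        have : h = 0 := le_antisymm (not_lt.1 hc) hh0
        rw [this, zero_mul] at h3
        linarith
      have h4 := decor (aa_pos h0 hD0 K) (aa_anti h0 hD1 hmK) (aa_anti h0 hD1 (Nat.zero_le m))
        (by rw [aa_zero]; linarith) hhp (by linarith : 1 ≤ h * aa a0 D m)
      refine (le_abs_self _).trans (h4.trans ?_)
      apply div_le_div_of_nonneg_left (by norm_num) (by positivity)
      linarith
  have hVV : VV κ a0 D K m h = Λ * (A + ipf (bp a0 D m) (bp a0 D m) +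
    2 * ∫ u in (0 : ℝ)..1, u * (bp a0 D K u * bp a0 D m u) * Real.cos (2 * Real.pi * h * u)) := by
    unfold VV
    rw [hκ]
  have h9D : 9 / D ≤ 4.5 := by
    rw [div_le_iff₀ hD0]
    linarith
  have h9D0 : 0 < 9 / D := by positivity
  have e9 : 2 * (9 / (2 * D)) = 9 / D := by field_simp
  have hinv0 : 0 < 1 - d := by linarith
  have hinv : (1 - d)⁻¹ ^ 2 ≤ 2 := by
    rw [inv_pow, inv_le_comm₀ (by positivity) (by norm_num)]
    nlinarith
  rcases hmK.eq_or_lt with hmK' | hmK'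
  · have hV : VV κ a0 D K m h ≤ 2 * (Λ * A) + 9 / D := by
      rw [hVV]
      rw [← hmK'] at hA ⊢
      rw [← hmK'] at hC
      rw [← hA]
      nlinarith
    have e0 : 2 * ((1 + 2 * ε) * Λ * Real.log D) * ((K : ℝ) - (m : ℕ)) = 0 := by
      rw [hmK', sub_self, mul_zero]
    rw [e0, Real.exp_zero, mul_one]
    have h3 : Real.exp (VV κ a0 D K m h) ≤ Real.exp (2 * (Λ * A)) * Real.exp (9 / D) := by
      rw [← Real.exp_add]
      exact Real.exp_le_exp.2 hV
    have h4 : 0 ≤ 2 * Real.exp 6 * (D ^ (K + 2) / a0) * (1 / max h 1) := by positivity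
    calc (1 - d)⁻¹ ^ 2 * Real.exp (VV κ a0 D K m h) ≤ (1 - d)⁻¹ ^ 2 *
        (Real.exp (2 * (Λ * A)) * Real.exp (9 / D)) := by gcongr
      _ = Real.exp (2 * (Λ * A)) * ((1 - d)⁻¹ ^ 2 * Real.exp (9 / D)) := by ring
      _ ≤ _ := by
          apply mul_le_mul_of_nonneg_left _ (Real.exp_pos _).le
          linarith
  · have hlt := hm2 hmK'
    have hmr : (m : ℝ) ≤ K := by exact_mod_cast hmK
    have hV : 2 * ((1 + 2 * ε) * Λ * Real.log D) * ((K : ℝ) - (m : ℕ)) + VV κ a0 D K m h ≤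
        2 * (Λ * A) + (K - m) * Real.log D + 6 := by
      rw [hVV]
      have k1 : A + ipf (bp a0 D m) (bp a0 D m) +
          2 * (∫ u in (0 : ℝ)..1, u * (bp a0 D K u * bp a0 D m u) *
          Real.cos (2 * Real.pi * h * u)) ≤
          2 * A - (K - m) * Real.log D + 5.9 := by
        have : (K - m : ℝ) * Real.log D = K * Real.log D - m * Real.log D := by ring
        rw [this]
        linarith
      have k2 := mul_le_mul_of_nonneg_left k1 hΛ.le
      have k3 : 0 ≤ ((K : ℝ) - m) * Real.log D := mul_nonneg (by linarith) hlD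
      have k4 : Λ * (1 + 4 * ε) * (((K : ℝ) - m) * Real.log D) ≤
          1 * (((K : ℝ) - m) * Real.log D) := mul_le_mul_of_nonneg_right hΛε k3
      nlinarith
    have h3 : Real.exp (2 * ((1 + 2 * ε) * Λ * Real.log D) * ((K : ℝ) - (m : ℕ))) *
        Real.exp (VV κ a0 D K m h) ≤ Real.exp (2 * (Λ * A)) * D ^ (K - m) * Real.exp 6 := by
      rw [← Real.exp_add]
      refine (Real.exp_le_exp.2 hV).trans (le_of_eq ?_)
      rw [Real.exp_add, Real.exp_add]
      congr 2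
      rw [← Nat.cast_sub hmK, mul_comm, Real.exp_mul, Real.exp_log hD0, Real.rpow_natCast]
    have h4 : D ^ (K - m) ≤ D ^ (K + 2) / a0 * (1 / max h 1) := by
      rw [mul_one_div, div_div, le_div_iff₀ (by positivity)]
      have hmax : a0 * max h 1 ≤ D ^ (m + 2) := by
        rcases hh with hz | h1
        · rw [hz, max_eq_right zero_le_one, mul_one]
          have : (1 : ℝ) ≤ D ^ (m + 2) := one_le_pow₀ hD1
          linarith
        · rw [max_eq_left h1]
          unfold aa at hlt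
          rw [← mul_div_assoc, div_lt_iff₀ (by positivity)] at hlt
          calc a0 * h = h * a0 := mul_comm _ _
            _ ≤ D * D ^ (m + 1) := hlt.le
            _ = D ^ (m + 2) := by ring
      calc D ^ (K - m) * (a0 * max h 1) ≤ D ^ (K - m) * D ^ (m + 2) := by gcongr
        _ = D ^ (K + 2) := by
          rw [← pow_add]
          congr 1
          omega
    have h5 : 0 ≤ (1 - d)⁻¹ ^ 2 * Real.exp (9 / D) := by positivity
    calc _ = (1 - d)⁻¹ ^ 2 * (Real.exp (2 * ((1 + 2 * ε) * Λ * Real.log D) * ((K : ℝ) - (m : ℕ))) *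
        Real.exp (VV κ a0 D K m h)) := by ring
      _ ≤ 2 * (Real.exp (2 * (Λ * A)) * D ^ (K - m) * Real.exp 6) := by gcongr
      _ ≤ 2 * (Real.exp (2 * (Λ * A)) * (D ^ (K + 2) / a0 * (1 / max h 1)) * Real.exp 6) := by
          gcongr
      _ = Real.exp (2 * (Λ * A)) * (2 * Real.exp 6 * (D ^ (K + 2) / a0) * (1 / max h 1)) := by ring
      _ ≤ _ := by
          apply mul_le_mul_of_nonneg_left _ (Real.exp_pos _).le
          linarith

end

end Pool.Agent.T9h26.TD
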