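import Pool.Agent.T9h26.TD.Re
import Pool.Agent.T9h26.TD.Id
import Pool.Agent.T9h26.TD.Zu

set_option autoImplicit false

/-! Number rigidity: the choice of the parameters. -/

open Complex Filter Topology Set MeasureTheory

namespace Pool.Agent.T9h26.TD

open TC (ordz ordT mu EFD)
open SG (ord NZ zmult ZS)
open W200.HW (Ix mem_Ix)
open Pool.Agent.Y747 (al)

lemma J_num {Z C η y r e : ℝ} (hC : 1 ≤ C) (he : 0 < e) (he1 : e ≤ 1 / 128) (hη : η = e / 8)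
    (hr : 0 ≤ r) (hy : 0 ≤ y) (hZ : Z = y - Real.log 2 - r - 2 * e * y)
    (hZ1 : 8 + 80 * C ^ 2 ≤ Z) :
    1 ≤ ⌊(1 / 4 - 4 * η) * Z ^ 2 / (Z + 10 * C ^ 2)⌋₊ ∧
    ((⌊(1 / 4 - 4 * η) * Z ^ 2 / (Z + 10 * C ^ 2)⌋₊ : ℕ) : ℝ) ≤ y ∧
    ((⌊(1 / 4 - 4 * η) * Z ^ 2 / (Z + 10 * C ^ 2)⌋₊ : ℕ) : ℝ) * ((Z + 10 * C ^ 2) / Z ^ 2) ≤
      (1 / 2 - 4 * η) ^ 2 ∧
    (y - r) / 4 - e * y - 3 * C ^ 2 - 2 ≤
      ((⌊(1 / 4 - 4 * η) * Z ^ 2 / (Z + 10 * C ^ 2)⌋₊ : ℕ) : ℝ) := by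
  have hl2 := Real.log_two_lt_d9
  have hl20 : 0 < Real.log 2 := Real.log_pos (by norm_num)
  have hC2 : 1 ≤ C ^ 2 := one_le_pow₀ hC
  have hZ0 : 0 < Z := by linarith
  have hη0 : 0 < η := by rw [hη]; positivity
  have hη1 : η ≤ 1 / 1024 := by rw [hη]; linarith
  set q := (1 / 4 - 4 * η) * Z ^ 2 / (Z + 10 * C ^ 2) with hq
  have hden : 0 < Z + 10 * C ^ 2 := by positivity
  have hc0 : 0 < 1 / 4 - 4 * η := by linarith
  have hq0 : 0 ≤ q := by positivity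
  have hq1 : 1 ≤ q := by
    rw [hq, le_div_iff₀ hden, one_mul]
    have h1 : (8 + 80 * C ^ 2) * Z ≤ Z * Z := mul_le_mul_of_nonneg_right hZ1 hZ0.le
    have h2 : 1 / 8 * Z ^ 2 ≤ (1 / 4 - 4 * η) * Z ^ 2 :=
      mul_le_mul_of_nonneg_right (by linarith) (sq_nonneg _)
    nlinarith
  have hf1 : ((⌊q⌋₊ : ℕ) : ℝ) ≤ q := Nat.floor_le hq0
  have hf2 : q < (⌊q⌋₊ : ℕ) + 1 := Nat.lt_floor_add_one _
  have hZy : Z ≤ y := by
    have : 0 ≤ 2 * e * y := by positivity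
    linarith
  refine ⟨Nat.one_le_floor_iff _ |>.2 hq1, ?_, ?_, ?_⟩
  · refine hf1.trans (le_trans ?_ hZy)
    rw [hq, div_le_iff₀ hden]
    have h2 : (1 / 4 - 4 * η) * Z ^ 2 ≤ 1 * Z ^ 2 :=
      mul_le_mul_of_nonneg_right (by linarith) (sq_nonneg _)
    have h3 : 0 ≤ Z * (10 * C ^ 2) := by positivity
    nlinarith
  · calc ((⌊q⌋₊ : ℕ) : ℝ) * ((Z + 10 * C ^ 2) / Z ^ 2) ≤ q * ((Z + 10 * C ^ 2) / Z ^ 2) :=
          mul_le_mul_of_nonneg_right hf1 (by positivity)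
      _ = 1 / 4 - 4 * η := by
          rw [hq]
          field_simp
      _ ≤ _ := by nlinarith [sq_nonneg η]
  · have h1 : Z - 10 * C ^ 2 ≤ Z ^ 2 / (Z + 10 * C ^ 2) := by
      rw [le_div_iff₀ hden]
      nlinarith [sq_nonneg (C ^ 2)]
    have h2 : (1 / 4 - 4 * η) * (Z - 10 * C ^ 2) ≤ q := by
      rw [hq, mul_div_assoc]
      exact mul_le_mul_of_nonneg_left h1 hc0.le
    have h3 : η * Z ≤ η * y := mul_le_mul_of_nonneg_left hZy hη0.le
    have h4 : 0 ≤ η * C ^ 2 := by positivity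
    have h5 : (1 / 4 - 4 * η) * (Z - 10 * C ^ 2) =
        Z / 4 - 4 * (η * Z) - 10 / 4 * C ^ 2 + 40 * (η * C ^ 2) := by ring
    have h6 : η * y = e * y / 8 := by rw [hη]; ring
    have h7 : 0 ≤ e * y := by positivity
    nlinarith

lemma J2_num {C η P Z a1 Y : ℝ} {J2 G : ℕ} (hC : 1 ≤ C) (hη : 0 < η) (hP : 0 < P) (hPa : P ≤ a1)
    (hZ : 1 ≤ Z) (hY : 2 ≤ Y) (hG : (G : ℝ) < Y ^ 2 + 1) (hPJ : Y ^ 4 ≤ (P ^ 2) ^ J2)
    (h9 : 3 * (J2.factorial * (15 * C ^ 2 / η ^ 2) ^ J2) ≤ Y) :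
    ((G : ℝ) + 1) * (J2.factorial * (15 * C ^ 2 / (Z ^ 2 * a1 ^ 2)) ^ J2 / η ^ (2 * J2)) ≤
      1 / Y := by
  have hY0 : 0 < Y := by linarith
  have ha : 0 < a1 := by linarith
  have hY2 : 4 ≤ Y ^ 2 := by nlinarith
  have k1 : 15 * C ^ 2 / (Z ^ 2 * a1 ^ 2) ≤ 15 * C ^ 2 / P ^ 2 := by
    apply div_le_div_of_nonneg_left (by positivity) (by positivity)
    have k2 : 1 ≤ Z ^ 2 := one_le_pow₀ hZ
    have k3 : P ^ 2 ≤ a1 ^ 2 := pow_le_pow_left₀ hP.le hPa 2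
    nlinarith [sq_nonneg a1]
  have k2 : (15 * C ^ 2 / (Z ^ 2 * a1 ^ 2)) ^ J2 ≤ (15 * C ^ 2 / P ^ 2) ^ J2 :=
    pow_le_pow_left₀ (by positivity) k1 _
  have k3 : (15 * C ^ 2 / P ^ 2) ^ J2 / η ^ (2 * J2) ≤ (15 * C ^ 2 / η ^ 2) ^ J2 / Y ^ 4 := by
    rw [pow_mul η 2 J2, div_pow, div_pow, div_div, div_div]
    apply div_le_div_of_nonneg_left (by positivity) (by positivity)
    rw [mul_comm]
    exact mul_le_mul_of_nonneg_right hPJ (by positivity)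
  have k4 : (J2.factorial : ℝ) * (15 * C ^ 2 / (Z ^ 2 * a1 ^ 2)) ^ J2 / η ^ (2 * J2) ≤
      Y / 3 / Y ^ 4 := by
    calc (J2.factorial : ℝ) * (15 * C ^ 2 / (Z ^ 2 * a1 ^ 2)) ^ J2 / η ^ (2 * J2) ≤
        J2.factorial * (15 * C ^ 2 / P ^ 2) ^ J2 / η ^ (2 * J2) := by gcongr
      _ = J2.factorial * ((15 * C ^ 2 / P ^ 2) ^ J2 / η ^ (2 * J2)) := by ring
      _ ≤ J2.factorial * ((15 * C ^ 2 / η ^ 2) ^ J2 / Y ^ 4) := by gcongr
      _ = J2.factorial * (15 * C ^ 2 / η ^ 2) ^ J2 / Y ^ 4 := by ring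
      _ ≤ Y / 3 / Y ^ 4 := by
          apply div_le_div_of_nonneg_right _ (by positivity)
          linarith
  calc ((G : ℝ) + 1) * (J2.factorial * (15 * C ^ 2 / (Z ^ 2 * a1 ^ 2)) ^ J2 / η ^ (2 * J2)) ≤
      (3 * Y ^ 2) * (Y / 3 / Y ^ 4) := by
        apply mul_le_mul (by linarith) k4 (by positivity) (by positivity)
    _ = 1 / Y := by field_simp

lemma flat_num {C η P K M Y R : ℝ} {k : ℕ} (hC : 1 ≤ C) (hη : 0 < η) (hP : 0 < P) (hK : 1 ≤ K)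
    (hM0 : 0 ≤ M) (hM : M ≤ 8 * K * Y) (hY : 2 ≤ Y) (hR : 0 < R) (hPk : Y ^ 6 ≤ P ^ k)
    (h7 : 32 * K * C / η ≤ Y) : M * (C * (R / (2 * R * P)) ^ k) ≤ η / 4 := by
  have hY0 : 0 < Y := by linarith
  have k1 : (R / (2 * R * P)) ^ k ≤ 1 / Y ^ 6 := by
    have k2 : R / (2 * R * P) ≤ 1 / P := by
      rw [div_le_div_iff₀ (by positivity) hP]
      have : 0 < R * P := by positivity
      linarith
    calc (R / (2 * R * P)) ^ k ≤ (1 / P) ^ k := pow_le_pow_left₀ (by positivity) k2 _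
      _ = 1 / P ^ k := by rw [div_pow, one_pow]
      _ ≤ 1 / Y ^ 6 := one_div_le_one_div_of_le (by positivity) hPk
  calc M * (C * (R / (2 * R * P)) ^ k) ≤ (8 * K * Y) * (C * (1 / Y ^ 6)) := by gcongr
    _ = 8 * K * C / Y ^ 5 := by field_simp
    _ ≤ 8 * K * C / Y := by
        apply div_le_div_of_nonneg_left (by positivity) hY0
        have : 1 ≤ Y ^ 4 := one_le_pow₀ (by linarith)
        nlinarith
    _ ≤ η / 4 := by
        rw [div_le_iff₀ hY0]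
        rw [div_le_iff₀ hη] at h7
        linarith

lemma dec_num {C η P Y : ℝ} {k : ℕ} (hk : 2 ≤ k) (hC : 1 ≤ C) (hη : 0 < η) (hP : 0 < P)
    (hY : 2 ≤ Y) (hPk : Y ^ 6 ≤ P ^ k) (h8 : 16 * C * 2 ^ k / η ≤ Y) :
    4 * C * (Y / P) ^ k / (Y / 2) ^ (k - 2) * Y ^ 3 ≤ η / 4 := by
  have hY0 : 0 < Y := by linarith
  have k1 : (Y / P) ^ k = Y ^ k / P ^ k := by rw [div_pow]
  have k2 : (Y / 2) ^ (k - 2) = Y ^ k / Y ^ 2 / 2 ^ (k - 2) := by
    rw [div_pow]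
    congr 1
    rw [eq_div_iff (by positivity), ← pow_add]
    congr 1
    omega
  have k3 : (2 : ℝ) ^ (k - 2) ≤ 2 ^ k := pow_le_pow_right₀ (by norm_num) (by omega)
  rw [k1, k2]
  calc 4 * C * (Y ^ k / P ^ k) / (Y ^ k / Y ^ 2 / 2 ^ (k - 2)) * Y ^ 3 =
      4 * C * 2 ^ (k - 2) * Y ^ 5 / P ^ k := by field_simp
    _ ≤ 4 * C * 2 ^ k * Y ^ 5 / Y ^ 6 := by gcongr
    _ = 4 * C * 2 ^ k / Y := by field_simp
    _ ≤ η / 4 := by
        rw [div_le_iff₀ hY0]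
        rw [div_le_iff₀ hη] at h8
        linarith

lemma evT_num {K C η Y M : ℝ} {G : ℕ} (hK : 1 ≤ K) (hC : 1 ≤ C) (hη : 0 < η) (hY : 2 ≤ Y)
    (hG : Y ^ 2 ≤ G) (hM0 : 0 ≤ M) (hM : M ≤ 8 * K * Y) (h7 : 32 * K * C / η ≤ Y) :
    ∀ᶠ T : ℝ in atTop, 20 * Y ≤ Real.log T ∧
      M * (20 * (Y + 2) ^ 2 / Real.log T ^ 2 + C * (1 / (4 * G) + 4 * Y / Real.log T)) ≤
        η / 2 := by
  have hY0 : 0 < Y := by linarith
  have l1 : Tendsto (fun T : ℝ => M * (20 * (Y + 2) ^ 2 / Real.log T ^ 2 +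
      C * (1 / (4 * G) + 4 * Y / Real.log T))) atTop (𝓝 (M * (0 + C * (1 / (4 * G) + 0)))) := by
    apply Tendsto.const_mul
    apply Tendsto.add
    · apply tendsto_const_nhds.div_atTop
      exact (tendsto_pow_atTop two_ne_zero).comp Real.tendsto_log_atTop
    · apply Tendsto.const_mul
      apply Tendsto.const_add
      exact tendsto_const_nhds.div_atTop Real.tendsto_log_atTop
  have l2 : M * (0 + C * (1 / (4 * G) + 0)) < η / 2 := by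
    rw [zero_add, add_zero]
    have l3 : (1 : ℝ) / (4 * G) ≤ 1 / (4 * Y ^ 2) := by
      apply one_div_le_one_div_of_le (by positivity)
      linarith
    calc M * (C * (1 / (4 * G))) ≤ (8 * K * Y) * (C * (1 / (4 * Y ^ 2))) := by gcongr
      _ = 2 * K * C / Y := by field_simp; ring
      _ < η / 2 := by
          rw [div_lt_iff₀ hY0]
          rw [div_le_iff₀ hη] at h7
          have : 0 < K * C := by positivity
          linarith
  filter_upwards [l1.eventually (gt_mem_nhds l2),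
    Real.tendsto_log_atTop.eventually_ge_atTop (20 * Y)] with T l3 l4
  exact ⟨l4, l3.le⟩

lemma fin_num {C C' C3 CE P Y y r e : ℝ} {J : ℝ} (hC3 : 1 ≤ C3) (hC' : 0 < C')
    (hCE : CE = C3 * (Real.exp (3 + 3 * C ^ 2) + 6 + 20 * C')) (hY0 : 0 < Y)
    (hyY : Real.exp y = Y) (hPe : P = Real.exp (e * y)) (hy1 : 1 ≤ y) (hr : 0 ≤ r) (hyP : y < P)
    (hJ0 : 0 ≤ J) (hJ : J ≤ y) (hJ' : (y - r) / 4 - e * y - 3 * C ^ 2 - 2 ≤ J)
    (h10 : 7 * CE ≤ P ^ 5) :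
    C3 * y * (J * Real.exp (1 - J) + (5 + 20 * C') / Y) + C3 * Real.exp (-y) ≤
      1 / 7 * (P ^ 8 * Real.exp (-((y - r) / 4))) := by
  have hP0 : 0 < P := by linarith
  have hP1 : 1 ≤ P := by linarith
  obtain ⟨W, hW⟩ : ∃ W, W = Real.exp (-((y - r) / 4)) := ⟨_, rfl⟩
  rw [← hW]
  have hW0 : 0 < W := by rw [hW]; exact Real.exp_pos _
  have hexpy : Real.exp (-y) = 1 / Y := by rw [Real.exp_neg, hyY, one_div]
  have n1 : J * Real.exp (1 - J) ≤ y * (Real.exp (3 + 3 * C ^ 2) * P * W) := by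
    apply mul_le_mul hJ _ (Real.exp_pos _).le (by linarith)
    rw [hPe, hW, ← Real.exp_add, ← Real.exp_add]
    apply Real.exp_le_exp.2
    linarith
  have n3 : 1 / Y ≤ W / y := by
    have k1 : Real.exp (-(y / 4)) ≤ W := by
      rw [hW]
      apply Real.exp_le_exp.2
      linarith
    have k2 : y ≤ Real.exp (3 * y / 4) := by
      have k3 := Real.add_one_le_exp (3 * y / 8)
      have k4 : Real.exp (3 * y / 4) = Real.exp (3 * y / 8) ^ 2 := by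
        rw [← Real.exp_nat_mul]
        congr 1
        push_cast
        ring
      rw [k4]
      nlinarith
    rw [div_le_div_iff₀ hY0 (by linarith), one_mul]
    calc y ≤ Real.exp (3 * y / 4) := k2
      _ = Real.exp (-(y / 4)) * Y := by
          rw [← hyY, ← Real.exp_add]
          congr 1
          ring
      _ ≤ W * Y := mul_le_mul_of_nonneg_right k1 hY0.le
  have n4 : y / Y ≤ W := by
    have k1 := mul_le_mul_of_nonneg_left n3 (by linarith : 0 ≤ y)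
    have k2 : y ≠ 0 := by linarith
    calc y / Y = y * (1 / Y) := by ring
      _ ≤ y * (W / y) := k1
      _ = W := by field_simp
  have n5 : 1 / Y ≤ W := by
    refine n3.trans ?_
    exact div_le_self hW0.le hy1
  have hP3 : 1 ≤ P ^ 3 := one_le_pow₀ hP1
  have n6 : C3 * y * (J * Real.exp (1 - J) + (5 + 20 * C') / Y) + C3 * Real.exp (-y) ≤
      CE * P ^ 3 * W := by
    rw [hexpy]
    have k1 : y * y * P ≤ P ^ 3 := by
      have : y * y ≤ P * P := mul_le_mul hyP.le hyP.le (by linarith) hP0.le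
      calc y * y * P ≤ P * P * P := mul_le_mul_of_nonneg_right this hP0.le
        _ = P ^ 3 := by ring
    have k2 : y * (J * Real.exp (1 - J)) ≤ Real.exp (3 + 3 * C ^ 2) * P ^ 3 * W := by
      calc y * (J * Real.exp (1 - J)) ≤ y * (y * (Real.exp (3 + 3 * C ^ 2) * P * W)) :=
            mul_le_mul_of_nonneg_left n1 (by linarith)
        _ = Real.exp (3 + 3 * C ^ 2) * (y * y * P) * W := by ring
        _ ≤ _ := by gcongr
    have k3 : y * ((5 + 20 * C') / Y) ≤ (5 + 20 * C') * P ^ 3 * W := by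
      calc y * ((5 + 20 * C') / Y) = (5 + 20 * C') * (y / Y) := by ring
        _ ≤ (5 + 20 * C') * (1 * W) := by
            rw [one_mul]
            exact mul_le_mul_of_nonneg_left n4 (by positivity)
        _ ≤ (5 + 20 * C') * (P ^ 3 * W) := by gcongr
        _ = _ := by ring
    have k4 : 1 / Y ≤ P ^ 3 * W := by
      calc 1 / Y ≤ 1 * W := by rw [one_mul]; exact n5
        _ ≤ P ^ 3 * W := by gcongr
    calc C3 * y * (J * Real.exp (1 - J) + (5 + 20 * C') / Y) + C3 * (1 / Y) =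
        C3 * (y * (J * Real.exp (1 - J)) + y * ((5 + 20 * C') / Y) + 1 / Y) := by ring
      _ ≤ C3 * (Real.exp (3 + 3 * C ^ 2) * P ^ 3 * W + (5 + 20 * C') * P ^ 3 * W + P ^ 3 * W) := by
          gcongr
      _ = CE * P ^ 3 * W := by rw [hCE]; ring
  refine n6.trans ?_
  calc CE * P ^ 3 * W = 1 / 7 * (7 * CE) * P ^ 3 * W := by ring
    _ ≤ 1 / 7 * P ^ 5 * P ^ 3 * W := by gcongr
    _ = _ := by ring

/-- the number of the zeros in every set `S` of the window is read off from those outside `S` -/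
def Read (f : ℝ → ℝ) (c R Y : ℝ) (n : ℕ) : Prop :=
  ∀ S : Set ℝ, (∀ x ∈ S, |x| ≤ R) →
    round (c - ∑ᶠ m ∈ Rin n S Y, f (xp n m)) = ((Win n S).ncard : ℤ)

/-- **number rigidity** -/
theorem rig_all (RH : RiemannHypothesis) {ε : ℝ} (hε : 0 < ε) (hε1 : ε ≤ 1 / 16) :
    ∃ Y0 : ℝ, 1 ≤ Y0 ∧ ∀ Y R : ℝ, Y0 ≤ Y → 1 ≤ R → R ≤ Y → ∃ (f : ℝ → ℝ) (c : ℝ),
      (∀ x, 0 ≤ f x ∧ f x ≤ 1) ∧ (∀ x y, |f x - f y| ≤ |x - y| / R) ∧
      ∀ᶠ N : ℕ in atTop, (({n : ℕ | 1 ≤ n ∧ n ≤ N ∧ ¬ Read f c R Y n}.ncard : ℕ) : ℝ) ≤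
        Y ^ ε * (R / Y) ^ (1 / 4 : ℝ) * N := by
  classical
  have hpi := Real.pi_pos
  obtain ⟨C', T0, hC', hT0, hef⟩ := Pool.Agent.W930.TCEFR.efr RH
  obtain ⟨e, he⟩ : ∃ e, e = ε / 8 := ⟨_, rfl⟩
  have he0 : 0 < e := by rw [he]; positivity
  have he1 : e ≤ 1 / 128 := by rw [he]; linarith
  have h8e : ε = 8 * e := by rw [he]; ring
  obtain ⟨η, hη⟩ : ∃ η, η = e / 8 := ⟨_, rfl⟩
  have hη0 : 0 < η := by rw [hη]; positivity
  have hη1 : η ≤ 1 / 1024 := by rw [hη]; linarith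
  obtain ⟨k, hke, hk2⟩ : ∃ k : ℕ, 6 ≤ e * k ∧ 2 ≤ k := by
    refine ⟨⌈6 / e⌉₊, ?_, ?_⟩
    · have := Nat.le_ceil (6 / e)
      rw [div_le_iff₀ he0] at this
      linarith
    · have : (2 : ℝ) ≤ (⌈6 / e⌉₊ : ℕ) := by
        have h1 := Nat.le_ceil (6 / e)
        refine le_trans ?_ h1
        rw [le_div_iff₀ he0]
        linarith
      exact_mod_cast this
  obtain ⟨J2, hJe⟩ : ∃ J2 : ℕ, 4 ≤ 2 * (e * J2) := by
    refine ⟨⌈2 / e⌉₊, ?_⟩
    have := Nat.le_ceil (2 / e)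
    rw [div_le_iff₀ he0] at this
    linarith
  obtain ⟨φ, ψ, C, hKr⟩ := exists_Kr (show 1 ≤ k by omega)
  have hC := hKr.C1
  have hC2 : 1 ≤ C ^ 2 := one_le_pow₀ hC
  obtain ⟨K, hK, hbc⟩ := blockC RH hC' (ε := 1 / 2) (by norm_num) (by norm_num)
  obtain ⟨C3, hC3, hcov⟩ := cover RH hC'
  obtain ⟨CE, hCE⟩ : ∃ CE, CE = C3 * (Real.exp (3 + 3 * C ^ 2) + 6 + 20 * C') := ⟨_, rfl⟩
  -- the requirements on `Y`
  have ev : ∀ᶠ Y : ℝ in atTop, (2 ≤ Y ∧ 1 ≤ Real.log Y) ∧ (Real.log Y < Y ^ e) ∧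
      ((J2 : ℝ) < Y ^ e ∧ C ≤ Y ^ e) ∧ (8 + 80 * C ^ 2 + 1 ≤ 30 * e * Real.log Y) ∧
      (32 * K * C / η ≤ Y ∧ 16 * C * 2 ^ k / η ≤ Y ∧
        3 * (J2.factorial * (15 * C ^ 2 / η ^ 2) ^ J2) ≤ Y) ∧ 7 * CE ≤ Y ^ (5 * e) := by
    have l1 : ∀ᶠ Y : ℝ in atTop, Real.log Y < Y ^ e := by
      have h3 := (isLittleO_log_rpow_atTop he0).tendsto_div_nhds_zero
      filter_upwards [h3.eventually (gt_mem_nhds (show (0 : ℝ) < 1 by norm_num)),
        eventually_gt_atTop 0] with Y h4 h5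
      rwa [div_lt_one (Real.rpow_pos_of_pos h5 e)] at h4
    have l2 : ∀ c : ℝ, ∀ᶠ Y : ℝ in atTop, c < Y ^ e := fun c =>
      (tendsto_rpow_atTop he0).eventually_gt_atTop c
    have l3 : ∀ᶠ Y : ℝ in atTop, 7 * CE ≤ Y ^ (5 * e) :=
      (tendsto_rpow_atTop (by positivity : 0 < 5 * e)).eventually_ge_atTop _
    have l4 : ∀ c : ℝ, ∀ᶠ Y : ℝ in atTop, c ≤ Real.log Y := fun c =>
      Real.tendsto_log_atTop.eventually_ge_atTop c
    filter_upwards [eventually_ge_atTop 2, l4 1, l1, l2 J2, l2 C, l3,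
      l4 ((8 + 80 * C ^ 2 + 1) / (30 * e)), eventually_ge_atTop (32 * K * C / η),
      eventually_ge_atTop (16 * C * 2 ^ k / η),
      eventually_ge_atTop (3 * (J2.factorial * (15 * C ^ 2 / η ^ 2) ^ J2))] with Y g1 g2 g3 g4 g5
      g6 g7 g8 g9 g10
    refine ⟨⟨g1, g2⟩, g3, ⟨g4, g5.le⟩, ?_, ⟨g8, g9, g10⟩, g6⟩
    rw [div_le_iff₀ (by positivity)] at g7
    linarith
  obtain ⟨Y0, hY0⟩ := eventually_atTop.1 ev
  refine ⟨max 1 Y0, le_max_left _ _, fun Y R hY hR hRY => ?_⟩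
  obtain ⟨⟨y1, y2⟩, y3, ⟨y4, y5⟩, y6, ⟨y7, y8, y9⟩, y10⟩ := hY0 Y ((le_max_right _ _).trans hY)
  have hY0' : 0 < Y := by linarith
  have hR0 : 0 < R := by linarith
  obtain ⟨y, hy⟩ : ∃ y, y = Real.log Y := ⟨_, rfl⟩
  obtain ⟨r, hr⟩ : ∃ r, r = Real.log R := ⟨_, rfl⟩
  obtain ⟨P, hP⟩ : ∃ P, P = Y ^ e := ⟨_, rfl⟩
  rw [← hP, ← hy] at y3
  rw [← hP] at y4 y5
  rw [← hy] at y6 y2
  have hP0 : 0 < P := by rw [hP]; exact Real.rpow_pos_of_pos hY0' e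
  have hP1 : 1 ≤ P := hC.trans y5
  have hr0 : 0 ≤ r := by rw [hr]; exact Real.log_nonneg hR
  have hyY : Real.exp y = Y := by rw [hy, Real.exp_log hY0']
  have hPe : P = Real.exp (e * y) := by
    rw [hP, Real.rpow_def_of_pos hY0', ← hy]
    congr 1
    ring
  have hP5 : P ^ 5 = Y ^ (5 * e) := by
    rw [hP, ← Real.rpow_natCast (Y ^ e) 5, ← Real.rpow_mul hY0'.le]
    congr 1
    push_cast
    ring
  obtain ⟨c, hc⟩ : ∃ c, c = Y ^ ε * (R / Y) ^ (1 / 4 : ℝ) := ⟨_, rfl⟩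
  rw [← hc]
  have hc0 : 0 < c := by rw [hc]; positivity
  have hce : c = Real.exp (ε * y - (y - r) / 4) := by
    rw [hc, Real.rpow_def_of_pos hY0', Real.rpow_def_of_pos (by positivity),
      Real.log_div hR0.ne' hY0'.ne', ← Real.exp_add, ← hy, ← hr]
    congr 1
    ring
  have hcP : c = P ^ 8 * Real.exp (-((y - r) / 4)) := by
    rw [hce, hPe, ← Real.exp_nat_mul, ← Real.exp_add]
    congr 1
    push_cast
    rw [h8e]
    ring
  rcases le_or_gt 1 c with hc1 | hc1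
  · -- the trivial case
    refine ⟨fun _ => 0, 0, fun _ => ⟨le_rfl, zero_le_one⟩, fun x y => by
      rw [sub_self, abs_zero]
      positivity, Eventually.of_forall fun N => ?_⟩
    have h1 : {n : ℕ | 1 ≤ n ∧ n ≤ N ∧ ¬ Read (fun _ => 0) 0 R Y n}.ncard ≤ N := by
      calc _ ≤ (Set.Icc 1 N).ncard := by
            apply Set.ncard_le_ncard _ (Set.finite_Icc 1 N)
            intro n hn
            exact ⟨hn.1, hn.2.1⟩
        _ = N := by
            rw [← Finset.coe_Icc, Set.ncard_coe_finset, Nat.card_Icc]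
            omega
    calc _ ≤ (N : ℝ) := by exact_mod_cast h1
      _ = 1 * N := (one_mul _).symm
      _ ≤ c * N := mul_le_mul_of_nonneg_right hc1 (Nat.cast_nonneg N)
  -- the parameters
  have hyr : 32 * e * y < y - r := by
    rw [hce, Real.exp_lt_one_iff, h8e] at hc1
    linarith
  obtain ⟨a1, ha1⟩ : ∃ a1, a1 = 2 * R * P := ⟨_, rfl⟩
  obtain ⟨a2, ha2⟩ : ∃ a2, a2 = Y / P := ⟨_, rfl⟩
  have hl2 := Real.log_two_lt_d9
  have hl20 : 0 < Real.log 2 := Real.log_pos (by norm_num)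
  have hlP : Real.log P = e * y := by rw [hPe, Real.log_exp]
  have hPa : 2 * P ≤ a1 := by
    rw [ha1]
    have : 1 * P ≤ R * P := mul_le_mul_of_nonneg_right hR hP0.le
    linarith
  have h1 : 2 ≤ a1 := by linarith
  have ha10 : 0 < a1 := by linarith
  have ha20 : 0 < a2 := by rw [ha2]; positivity
  have hZe : Real.log (a2 / a1) = y - Real.log 2 - r - 2 * e * y := by
    rw [Real.log_div ha20.ne' ha10.ne', ha1, ha2, Real.log_div hY0'.ne' hP0.ne',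
      Real.log_mul (by positivity) hP0.ne', Real.log_mul (by norm_num) hR0.ne', hlP, ← hy, ← hr]
    ring
  have hZbig : 8 + 80 * C ^ 2 ≤ Real.log (a2 / a1) := by
    rw [hZe]
    linarith
  have h2 : a1 < a2 := by
    by_contra hcon
    rw [not_lt] at hcon
    have h3 : Real.log (a2 / a1) ≤ 0 := by
      apply Real.log_nonpos (by positivity)
      rw [div_le_one ha10]
      exact hcon
    linarith
  obtain ⟨Z, hZ⟩ : ∃ Z, Z = Zr a1 a2 := ⟨_, rfl⟩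
  have hZd : Zr a1 a2 = Real.log (a2 / a1) := rfl
  rw [← hZd, ← hZ] at hZe hZbig
  obtain ⟨j1, j2, j3, j4⟩ := J_num hC he0 he1 hη hr0 (by linarith) hZe hZbig
  generalize ⌊(1 / 4 - 4 * η) * Z ^ 2 / (Z + 10 * C ^ 2)⌋₊ = J at j1 j2 j3 j4
  rw [hZ] at j3
  obtain ⟨G, hG1, hG2⟩ : ∃ G : ℕ, Y ^ 2 ≤ G ∧ (G : ℝ) < Y ^ 2 + 1 :=
    ⟨⌈Y ^ 2⌉₊, Nat.le_ceil _, Nat.ceil_lt_add_one (by positivity)⟩
  have hG3 : 1 ≤ G := by
    have : (1 : ℝ) ≤ G := by nlinarith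
    exact_mod_cast this
  have hPk : Y ^ 6 ≤ P ^ k := by
    rw [hP, ← Real.rpow_natCast (Y ^ e), ← Real.rpow_mul hY0'.le, ← Real.rpow_natCast Y 6]
    apply Real.rpow_le_rpow_of_exponent_le (by linarith)
    push_cast
    exact hke
  have hPJ : Y ^ 4 ≤ (P ^ 2) ^ J2 := by
    rw [← pow_mul, hP, ← Real.rpow_natCast (Y ^ e), ← Real.rpow_mul hY0'.le,
      ← Real.rpow_natCast Y 4]
    apply Real.rpow_le_rpow_of_exponent_le (by linarith)
    push_cast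
    linarith
  -- the exceptional set
  have hb := bad_ms (J := J) (J2 := J2) (G := G) (D := 1 / Y) (C' := C') hKr h1 h2 hη0
    (by linarith) j1 (by linarith) j3 (by linarith) hG3
    (by positivity) (by
      rw [← hZ]
      exact J2_num hC hη0 hP0 (by linarith) (by linarith) y1 hG2 hPJ y9) hC'
  obtain ⟨T1, hT1, hbad⟩ := hb
  obtain ⟨M, hM1, hM2⟩ : ∃ M : ℕ, K * (2 * Y + 5) ≤ M ∧ (M : ℝ) < K * (2 * Y + 5) + 1 :=
    ⟨⌈K * (2 * Y + 5)⌉₊, Nat.le_ceil _, Nat.ceil_lt_add_one (by positivity)⟩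
  have hM3 : (M : ℝ) ≤ 8 * K * Y := by nlinarith
  have hM4 : 2 * Y ≤ M := by nlinarith
  obtain ⟨T2, hT2, hcl⟩ := hbc (2 * Y + 4) M (by positivity) (by linarith)
  obtain ⟨T3, hT3, hcv⟩ := hcov y y2
  obtain ⟨T4, hT4⟩ := eventually_atTop.1
    (evT_num (M := M) hK hC hη0 y1 hG1 (Nat.cast_nonneg M) hM3 y7)
  refine ⟨fr ψ a1 a2, Wr φ a1 a2 0 / 2, fun x => ⟨fr_nonneg hKr h1 h2 x,
    (le_abs_self _).trans (fr_abs hKr h1 h2 x)⟩, fun x z => ?_, ?_⟩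
  · refine (fr_lip hKr h1 h2 x z).trans ?_
    rw [div_mul_eq_mul_div, div_le_div_iff₀ ha10 hR0, ha1]
    have k1 : 0 ≤ |x - z| * R := by positivity
    calc C * |x - z| * R = C * (|x - z| * R) := by ring
      _ ≤ (2 * P) * (|x - z| * R) := mul_le_mul_of_nonneg_right (by linarith) k1
      _ = _ := by ring
  apply trans_all RH hc0 hT0 hef
  refine ⟨max (max T1 T2) (max T3 T4), hT1.trans ((le_max_left _ _).trans (le_max_left _ _)),
    fun T hT U1 U2 hU1 hU1' hU2 hU2' hE B hB hB2 => ?_⟩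
  have t1 : T1 ≤ T := ((le_max_left _ _).trans (le_max_left _ _)).trans hT
  have t2 : T2 ≤ T := ((le_max_right _ _).trans (le_max_left _ _)).trans hT
  have t3 : T3 ≤ T := ((le_max_left _ _).trans (le_max_right _ _)).trans hT
  have t4 : T4 ≤ T := ((le_max_right _ _).trans (le_max_right _ _)).trans hT
  obtain ⟨q1, q2⟩ := hT4 T t4
  have hT10 : 10 ≤ T := hT1.trans t1
  have hT0' : 0 < T := by linarith
  have hL0 : 0 < Real.log T := by linarith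
  have hU : 1 ≤ U1 := by linarith
  obtain ⟨E1, hE1⟩ : ∃ E1, E1 = Bad φ a1 a2 η G T U1 U2 := ⟨_, rfl⟩
  obtain ⟨E2, hE2⟩ : ∃ E2 : Set ℝ, E2 = {t | M ≤ cC U1 U2 t (Real.pi * (2 * Y + 4) / Real.log T)} :=
    ⟨_, rfl⟩
  obtain ⟨E3, hE3⟩ : ∃ E3 : Set ℝ, E3 =
    {t | Y ^ 3 ≤ ∑ m ∈ Kx U1 U2, (1 + pos t (Real.log T) m ^ 2)⁻¹} := ⟨_, rfl⟩
  have m1 : ms T E1 ≤ (J * Real.exp (1 - J) + 4 * (1 / Y)) * T := by
    rw [hE1]
    exact hbad T t1 U1 U2 hE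
  have hexpy : Real.exp (-y) = 1 / Y := by rw [Real.exp_neg, hyY, one_div]
  have m2 : ms T E2 ≤ 1 / Y * T := by
    rw [hE2]
    refine (hcl T t2 U1 U2 hU hE).trans ?_
    apply mul_le_mul_of_nonneg_right _ hT0'.le
    rw [← hexpy]
    apply Real.exp_le_exp.2
    have k3 : y ≤ Real.log M := by
      rw [hy]
      exact Real.log_le_log hY0' (by linarith)
    have k4 : 2 * Y * y ≤ M * Real.log M := mul_le_mul hM4 k3 (by linarith) (Nat.cast_nonneg M)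
    have k5 : 1 * y ≤ Y * y := mul_le_mul_of_nonneg_right (by linarith) (by linarith)
    linarith
  have m3 : ms T E3 ≤ 20 * C' / Y * T := by
    rw [hE3]
    refine (tail_ms RH hT10 hU hE (by positivity)).trans ?_
    apply mul_le_mul_of_nonneg_right _ hT0'.le
    apply div_le_div_of_nonneg_left (by positivity) hY0'
    have : Y ^ 3 = Y * Y ^ 2 := by ring
    rw [this]
    have : 1 ≤ Y ^ 2 := one_le_pow₀ (by linarith)
    nlinarith
  have mE : ms T (E1 ∪ (E2 ∪ E3)) ≤ (J * Real.exp (1 - J) + (5 + 20 * C') / Y) * T := by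
    refine (ms_union _ _ _).trans ?_
    have := ms_union T E2 E3
    calc ms T E1 + ms T (E2 ∪ E3) ≤ (J * Real.exp (1 - J) + 4 * (1 / Y)) * T +
        (1 / Y * T + 20 * C' / Y * T) := by linarith
      _ = _ := by ring
  have hBc := hcv T t3 U1 U2 hU hE B (E1 ∪ (E2 ∪ E3)) hB (fun n hn => (hB2 n hn).2) (by
    intro n hn t ht1 ht2
    by_contra hcon
    rw [mem_union, mem_union, not_or, not_or] at hcon
    obtain ⟨c1, c2, c3⟩ := hcon
    rw [hE1] at c1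
    rw [hE2] at c2
    rw [hE3] at c3
    have c2' : cC U1 U2 t (Real.pi * (2 * Y + 4) / Real.log T) < M := not_le.1 c2
    have c3' : ∑ m ∈ Kx U1 U2, (1 + pos t (Real.log T) m ^ 2)⁻¹ < Y ^ 3 := not_le.1 c3
    apply (hB2 n hn).1
    intro S hS
    refine rig_det RH hKr hk2 h1 h2 hη0 hG3 hR0 hRY y1 hT10 hU1 hU1' hU2 q1 q2 ?_ ?_
      (hB2 n hn).2.1 (hB2 n hn).2.2 ht1 ht2 c1 c2' c3' hS
    · rw [ha1]
      exact flat_num hC hη0 hP0 hK (Nat.cast_nonneg M) hM3 y1 hR0 hPk y7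
    · rw [ha2]
      exact dec_num hk2 hC hη0 hP0 y1 hPk y8)
  refine hBc.trans ?_
  have hfin := fin_num (C := C) (J := J) hC3 hC' hCE hY0' hyY hPe y2 hr0 y3 (Nat.cast_nonneg J) j2
    j4 (by rw [hP5]; exact y10)
  rw [← hcP] at hfin
  calc Real.log T * (C3 * y * ms T (E1 ∪ (E2 ∪ E3)) + C3 * Real.exp (-y) * T) ≤
      Real.log T * (C3 * y * ((J * Real.exp (1 - J) + (5 + 20 * C') / Y) * T) +
        C3 * Real.exp (-y) * T) := by gcongr
    _ = Real.log T * T * (C3 * y * (J * Real.exp (1 - J) + (5 + 20 * C') / Y) +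
        C3 * Real.exp (-y)) := by ring
    _ ≤ Real.log T * T * (1 / 7 * c) := mul_le_mul_of_nonneg_left hfin (by positivity)
    _ = _ := by ring

end Pool.Agent.T9h26.TD
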