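import Pool.Agent.T9h26.TD.Co

set_option autoImplicit false

/-! Scaled weights. -/

open Complex Filter Topology Set MeasureTheory

namespace Pool.Agent.T9h26.TD

/-- the weight `G(|ξ|/b)` on `[-b, b]`, `0` outside -/
noncomputable def sc (G : ℝ → ℝ) (b ξ : ℝ) : ℝ := G (min 1 (|ξ| / b))

lemma sc_zero (G : ℝ → ℝ) (b : ℝ) : sc G b 0 = G 0 := by
  unfold sc
  rw [abs_zero, zero_div, min_eq_right zero_le_one]

lemma sc_wt {G : ℝ → ℝ} (hG : ContDiff ℝ 1 G) (h1 : G 1 = 0) {b : ℝ} (hb : 0 < b)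
    (hb1 : b ≤ 1 / 2) : ∃ K : NNReal, Wt (sc G b) b K := by
  obtain ⟨K, hK⟩ := (hG.locallyLipschitz.locallyLipschitzOn
    (s := Set.Icc (0 : ℝ) 1)).exists_lipschitzOnWith_of_compact isCompact_Icc
  have hbn : ((Real.toNNReal (1 / b) : NNReal) : ℝ) = 1 / b := Real.coe_toNNReal _ (by positivity)
  refine ⟨K * Real.toNNReal (1 / b), hb, hb1, ?_, ?_, ?_⟩
  · apply LipschitzWith.of_dist_le_mul
    intro x y
    have hmem : ∀ x : ℝ, min 1 (|x| / b) ∈ Set.Icc (0 : ℝ) 1 := fun x =>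
      ⟨le_min zero_le_one (by positivity), min_le_left _ _⟩
    have h2 := hK.dist_le_mul _ (hmem x) _ (hmem y)
    unfold sc
    refine h2.trans ?_
    rw [NNReal.coe_mul, hbn, mul_assoc]
    apply mul_le_mul_of_nonneg_left _ K.2
    rw [Real.dist_eq, Real.dist_eq]
    have h3 := abs_min_sub_min_le_max 1 (|x| / b) 1 (|y| / b)
    rw [sub_self, abs_zero] at h3
    refine h3.trans ?_
    apply max_le
    · change (0 : ℝ) ≤ 1 / b * |x - y|
      positivity
    · change |(|x| / b - |y| / b)| ≤ 1 / b * |x - y|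
      rw [← sub_div, abs_div, abs_of_pos hb, one_div, inv_mul_eq_div]
      exact div_le_div_of_nonneg_right (abs_abs_sub_abs_le_abs_sub x y) hb.le
  · intro ξ hξ
    unfold sc
    have : 1 ≤ |ξ| / b := by rw [le_div_iff₀ hb]; linarith
    rw [min_eq_left this, h1]
  · intro ξ
    unfold sc
    rw [abs_neg]

lemma int_sc {G : ℝ → ℝ} (hG : Continuous G) (h1 : G 1 = 0) {b : ℝ} (hb : 0 < b)
    (hb1 : b ≤ 1 / 2) {F : ℝ → ℝ → ℝ} (hF : Continuous (Function.uncurry F))
    (hF0 : ∀ u, F u 0 = 0) :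
    ∫ ξ in (0 : ℝ)..1, F ξ (sc G b ξ) = b * ∫ s in (0 : ℝ)..1, F (b * s) (G s) := by
  have hc : Continuous fun ξ => F ξ (sc G b ξ) := by
    unfold sc
    exact hF.comp (continuous_id.prodMk (hG.comp (by fun_prop)))
  have e1 : (∫ ξ in (0 : ℝ)..1, F ξ (sc G b ξ)) = (∫ ξ in (0 : ℝ)..b, F ξ (sc G b ξ)) +
      ∫ ξ in b..1, F ξ (sc G b ξ) :=
    (intervalIntegral.integral_add_adjacent_intervals (hc.intervalIntegrable _ _)
      (hc.intervalIntegrable _ _)).symm
  have e2 : ∫ ξ in b..1, F ξ (sc G b ξ) = 0 := by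
    have : ∫ ξ in b..1, F ξ (sc G b ξ) = ∫ _ξ in b..1, (0 : ℝ) := by
      apply intervalIntegral.integral_congr
      intro ξ hξ
      rw [Set.uIcc_of_le (by linarith)] at hξ
      simp only
      unfold sc
      have h2 : 1 ≤ |ξ| / b := by
        rw [le_div_iff₀ hb, abs_of_nonneg (by linarith [hξ.1])]
        linarith [hξ.1]
      rw [min_eq_left h2, h1, hF0]
    rw [this]
    simp
  rw [e1, e2, add_zero]
  have h2 := intervalIntegral.integral_comp_mul_left (a := 0) (b := 1)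
    (fun y => F y (sc G b y)) hb.ne'
  rw [mul_zero, mul_one, smul_eq_mul] at h2
  have h3 : ∫ s in (0 : ℝ)..1, F (b * s) (sc G b (b * s)) = ∫ s in (0 : ℝ)..1, F (b * s) (G s) := by
    apply intervalIntegral.integral_congr
    intro s hs
    rw [Set.uIcc_of_le zero_le_one] at hs
    simp only
    unfold sc
    rw [abs_of_nonneg (mul_nonneg hb.le hs.1), mul_div_cancel_left₀ _ hb.ne', min_eq_right hs.2]
  rw [← h3, h2, ← mul_assoc, mul_inv_cancel₀ hb.ne', one_mul]

/-- the cosine transform of a scaled weight -/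
lemma ph_sc {G : ℝ → ℝ} (hG : Continuous G) (h1 : G 1 = 0) {b : ℝ} (hb : 0 < b)
    (hb1 : b ≤ 1 / 2) (x : ℝ) :
    ph (sc G b) x = b * ∫ s in (0 : ℝ)..1, G s * Real.cos (s * (b * x)) := by
  unfold ph
  have h := int_sc hG h1 hb hb1 (F := fun ξ z => z * Real.cos (ξ * x)) (by
    unfold Function.uncurry; fun_prop) (fun u => by simp)
  rw [h]
  congr 1
  apply intervalIntegral.integral_congr
  intro s _
  simp only
  congr 2
  ring

/-- the variance of a scaled weight -/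
lemma var_sc {G : ℝ → ℝ} (hG : Continuous G) (h1 : G 1 = 0) {b : ℝ} (hb : 0 < b)
    (hb1 : b ≤ 1 / 2) : var (sc G b) = b ^ 2 * ∫ s in (0 : ℝ)..1, s * G s ^ 2 := by
  unfold var
  have h := int_sc hG h1 hb hb1 (F := fun ξ z => ξ * z ^ 2) (by
    unfold Function.uncurry; fun_prop) (fun u => by simp)
  rw [h]
  have e : ∀ s : ℝ, b * s * G s ^ 2 = b * (s * G s ^ 2) := fun s => by ring
  simp_rw [e]
  rw [intervalIntegral.integral_const_mul]
  ring

/-! ### The void weight -/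

/-- the profile of the void weight -/
noncomputable def Gv (u0 s : ℝ) : ℝ :=
  (u0 ^ 2 - 1 / 4) * ((1 - s) * Real.cos (Real.pi * s)) +
    (u0 ^ 2 + 1 / 4) / Real.pi * Real.sin (Real.pi * s)

lemma Gv_contDiff (u0 : ℝ) : ContDiff ℝ 1 (Gv u0) := by
  unfold Gv
  fun_prop

lemma Gv_cont (u0 : ℝ) : Continuous (Gv u0) := (Gv_contDiff u0).continuous

lemma Gv_one (u0 : ℝ) : Gv u0 1 = 0 := by
  unfold Gv
  rw [mul_one, Real.sin_pi]
  ring

lemma Gv_zero (u0 : ℝ) : Gv u0 0 = u0 ^ 2 - 1 / 4 := by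
  unfold Gv
  simp

lemma int_tri {c : ℝ} (hc : c ≠ 0) :
    ∫ s in (0 : ℝ)..1, (1 - s) * Real.cos (c * s) = (1 - Real.cos c) / c ^ 2 := by
  have h : ∀ s : ℝ, HasDerivAt (fun s => (1 - s) * (Real.sin (c * s) / c) -
      Real.cos (c * s) / c ^ 2) ((1 - s) * Real.cos (c * s)) s := by
    intro s
    have h1 : HasDerivAt (fun s : ℝ => c * s) c s := by
      simpa using (hasDerivAt_id s).const_mul c
    have h2 := (h1.sin).div_const c
    have h3 := (h1.cos).div_const (c ^ 2)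
    have h4 : HasDerivAt (fun s : ℝ => 1 - s) (-1) s := by
      simpa using (hasDerivAt_id s).const_sub 1
    refine ((h4.mul h2).sub h3).congr_deriv ?_
    field_simp
    ring
  rw [intervalIntegral.integral_eq_sub_of_hasDerivAt (fun s _ => h s)
    ((by fun_prop : Continuous fun s : ℝ => (1 - s) * Real.cos (c * s)).intervalIntegrable _ _)]
  simp
  ring

lemma int_sin {c : ℝ} (hc : c ≠ 0) :
    ∫ s in (0 : ℝ)..1, Real.sin (c * s) = (1 - Real.cos c) / c := by
  have h : ∀ s : ℝ, HasDerivAt (fun s => -(Real.cos (c * s) / c)) (Real.sin (c * s)) s := by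
    intro s
    have h1 : HasDerivAt (fun s : ℝ => c * s) c s := by
      simpa using (hasDerivAt_id s).const_mul c
    refine (((h1.cos).div_const c).neg).congr_deriv ?_
    field_simp
  rw [intervalIntegral.integral_eq_sub_of_hasDerivAt (fun s _ => h s)
    ((by fun_prop : Continuous fun s : ℝ => Real.sin (c * s)).intervalIntegrable _ _)]
  simp
  ring

/-- the transform of the void profile -/
lemma Gv_int {u0 om : ℝ} (hom : Real.pi < om) :
    ∫ s in (0 : ℝ)..1, Gv u0 s * Real.cos (s * om) =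
      (1 + Real.cos om) * ((4 * Real.pi ^ 2 * u0 ^ 2 - om ^ 2) / 2) / (om ^ 2 - Real.pi ^ 2) ^ 2 := by
  have hpi := Real.pi_pos
  have h1 : om - Real.pi ≠ 0 := by linarith
  have h2 : om + Real.pi ≠ 0 := by linarith
  have e : ∀ s : ℝ, Gv u0 s * Real.cos (s * om) =
      (u0 ^ 2 - 1 / 4) / 2 * ((1 - s) * Real.cos ((om - Real.pi) * s)) +
      (u0 ^ 2 - 1 / 4) / 2 * ((1 - s) * Real.cos ((om + Real.pi) * s)) +
      (u0 ^ 2 + 1 / 4) / Real.pi / 2 * Real.sin ((om + Real.pi) * s) -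
      (u0 ^ 2 + 1 / 4) / Real.pi / 2 * Real.sin ((om - Real.pi) * s) := by
    intro s
    unfold Gv
    have a1 : (om - Real.pi) * s = s * om - Real.pi * s := by ring
    have a2 : (om + Real.pi) * s = s * om + Real.pi * s := by ring
    rw [a1, a2, Real.cos_sub, Real.cos_add, Real.sin_add, Real.sin_sub]
    ring
  simp_rw [e]
  have c1 : Continuous fun s : ℝ => (u0 ^ 2 - 1 / 4) / 2 * ((1 - s) * Real.cos ((om - Real.pi) * s)) := by
    fun_prop
  have c2 : Continuous fun s : ℝ => (u0 ^ 2 - 1 / 4) / 2 * ((1 - s) * Real.cos ((om + Real.pi) * s)) := by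
    fun_prop
  have c3 : Continuous fun s : ℝ => (u0 ^ 2 + 1 / 4) / Real.pi / 2 * Real.sin ((om + Real.pi) * s) := by
    fun_prop
  have c4 : Continuous fun s : ℝ => (u0 ^ 2 + 1 / 4) / Real.pi / 2 * Real.sin ((om - Real.pi) * s) := by
    fun_prop
  have i1 := c1.intervalIntegrable (μ := volume) 0 1
  have i2 := c2.intervalIntegrable (μ := volume) 0 1
  have i3 := c3.intervalIntegrable (μ := volume) 0 1
  have i4 := c4.intervalIntegrable (μ := volume) 0 1
  have i12 : IntervalIntegrable (fun s : ℝ =>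
      (u0 ^ 2 - 1 / 4) / 2 * ((1 - s) * Real.cos ((om - Real.pi) * s)) +
      (u0 ^ 2 - 1 / 4) / 2 * ((1 - s) * Real.cos ((om + Real.pi) * s))) volume 0 1 := i1.add i2
  have i123 : IntervalIntegrable (fun s : ℝ =>
      (u0 ^ 2 - 1 / 4) / 2 * ((1 - s) * Real.cos ((om - Real.pi) * s)) +
      (u0 ^ 2 - 1 / 4) / 2 * ((1 - s) * Real.cos ((om + Real.pi) * s)) +
      (u0 ^ 2 + 1 / 4) / Real.pi / 2 * Real.sin ((om + Real.pi) * s)) volume 0 1 := i12.add i3
  rw [intervalIntegral.integral_sub i123 i4, intervalIntegral.integral_add i12 i3,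
    intervalIntegral.integral_add i1 i2,
    intervalIntegral.integral_const_mul, intervalIntegral.integral_const_mul,
    intervalIntegral.integral_const_mul, intervalIntegral.integral_const_mul,
    int_tri h1, int_tri h2, int_sin h1, int_sin h2, Real.cos_sub_pi, Real.cos_add_pi]
  have h3 : om ^ 2 - Real.pi ^ 2 ≠ 0 := by
    have : om ^ 2 - Real.pi ^ 2 = (om - Real.pi) * (om + Real.pi) := by ring
    rw [this]
    exact mul_ne_zero h1 h2
  have h4 : om ^ 2 - Real.pi ^ 2 = (om - Real.pi) * (om + Real.pi) := by ring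
  rw [h4]
  field_simp
  ring

/-- the void weight has a non-positive transform outside the window -/
lemma ph_void_le {u0 b : ℝ} (hu0 : 1 / 2 < u0) (hb : 0 < b) (hb1 : b ≤ 1 / 2) {x : ℝ}
    (hx : 2 * Real.pi * u0 ≤ b * |x|) : ph (sc (Gv u0) b) x ≤ 0 := by
  have hpi := Real.pi_pos
  have hev : ph (sc (Gv u0) b) x = ph (sc (Gv u0) b) |x| := by
    unfold ph
    apply intervalIntegral.integral_congr
    intro ξ _
    simp only
    rcases abs_choice x with h | h
    · rw [h]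
    · rw [h, mul_neg, Real.cos_neg]
  rw [hev, ph_sc (Gv_cont u0) (Gv_one u0) hb hb1]
  have hom : Real.pi < b * |x| := by nlinarith
  rw [Gv_int hom]
  apply mul_nonpos_of_nonneg_of_nonpos hb.le
  apply div_nonpos_of_nonpos_of_nonneg _ (sq_nonneg _)
  apply mul_nonpos_of_nonneg_of_nonpos
  · linarith [Real.neg_one_le_cos (b * |x|)]
  · have : (2 * Real.pi * u0) ^ 2 ≤ (b * |x|) ^ 2 := pow_le_pow_left₀ (by positivity) hx 2
    nlinarith

lemma Gv_abs {u0 s : ℝ} (hu0 : 1 / 2 < u0) (hu1 : u0 ≤ 1) (h0 : 0 ≤ s) (h1 : s ≤ 1) :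
    |Gv u0 s| ≤ 2 := by
  have hpi := Real.pi_gt_three
  unfold Gv
  refine (abs_add_le _ _).trans ?_
  rw [abs_mul, abs_mul, abs_mul]
  have a1 : |u0 ^ 2 - 1 / 4| ≤ 1 := by rw [abs_le]; constructor <;> nlinarith
  have a2 : |1 - s| ≤ 1 := by rw [abs_le]; constructor <;> linarith
  have a3 := Real.abs_cos_le_one (Real.pi * s)
  have a4 := Real.abs_sin_le_one (Real.pi * s)
  have a5 : |(u0 ^ 2 + 1 / 4) / Real.pi| ≤ 1 := by
    rw [abs_div, abs_of_pos (by positivity : 0 < Real.pi), div_le_one (by positivity),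
      abs_of_pos (by positivity)]
    nlinarith
  have b1 : |u0 ^ 2 - 1 / 4| * (|1 - s| * |Real.cos (Real.pi * s)|) ≤ 1 * (1 * 1) := by gcongr
  have b2 : |(u0 ^ 2 + 1 / 4) / Real.pi| * |Real.sin (Real.pi * s)| ≤ 1 * 1 := by gcongr
  linarith

lemma ph_void_abs {u0 b : ℝ} (hu0 : 1 / 2 < u0) (hu1 : u0 ≤ 1) (hb : 0 < b) (hb1 : b ≤ 1 / 2)
    (x : ℝ) : |ph (sc (Gv u0) b) x| ≤ 2 * b := by
  rw [ph_sc (Gv_cont u0) (Gv_one u0) hb hb1, abs_mul, abs_of_pos hb, mul_comm]
  apply mul_le_mul_of_nonneg_right _ hb.le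
  have h := intervalIntegral.norm_integral_le_of_norm_le_const (a := 0) (b := 1) (C := 2)
    (f := fun s => Gv u0 s * Real.cos (s * (b * x))) (by
      intro s hs
      rw [Set.uIoc_of_le zero_le_one] at hs
      rw [norm_mul, Real.norm_eq_abs, Real.norm_eq_abs]
      have h1 := Gv_abs hu0 hu1 hs.1.le hs.2
      have h2 := Real.abs_cos_le_one (s * (b * x))
      calc |Gv u0 s| * |Real.cos (s * (b * x))| ≤ 2 * 1 :=
            mul_le_mul h1 h2 (abs_nonneg _) (by norm_num)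
        _ = 2 := by norm_num)
  rw [Real.norm_eq_abs] at h
  simpa using h

lemma var_bounds {G : ℝ → ℝ} (hG : Continuous G) (h1 : G 1 = 0) (h0 : G 0 ≠ 0) {b B : ℝ}
    (hb : 0 < b) (hb1 : b ≤ 1 / 2) (hB : ∀ s, 0 ≤ s → s ≤ 1 → |G s| ≤ B) :
    0 < var (sc G b) ∧ var (sc G b) ≤ b ^ 2 * B ^ 2 := by
  rw [var_sc hG h1 hb hb1]
  have hc : Continuous fun s : ℝ => s * G s ^ 2 := by fun_prop
  constructor
  · apply mul_pos (by positivity)
    apply intervalIntegral.integral_pos zero_lt_one hc.continuousOn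
    · intro s hs
      exact mul_nonneg hs.1.le (sq_nonneg _)
    · have h2 : ∀ᶠ s in 𝓝[>] (0 : ℝ), G s ≠ 0 :=
        (hG.continuousAt.eventually_ne h0).filter_mono nhdsWithin_le_nhds
      have h3 : ∀ᶠ s in 𝓝[>] (0 : ℝ), 0 < s := self_mem_nhdsWithin
      have h4 : ∀ᶠ s in 𝓝[>] (0 : ℝ), s < 1 :=
        (eventually_lt_nhds zero_lt_one).filter_mono nhdsWithin_le_nhds
      obtain ⟨s, ⟨h5, h6⟩, h7⟩ := ((h2.and h3).and h4).exists
      exact ⟨s, ⟨h6.le, h7.le⟩, mul_pos h6 (by positivity)⟩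
  · apply mul_le_mul_of_nonneg_left _ (sq_nonneg _)
    have h2 : ∫ s in (0 : ℝ)..1, s * G s ^ 2 ≤ ∫ _s in (0 : ℝ)..1, B ^ 2 := by
      apply intervalIntegral.integral_mono_on zero_le_one (hc.intervalIntegrable _ _)
        intervalIntegrable_const
      intro s hs
      have h3 : G s ^ 2 ≤ B ^ 2 := by
        rw [← sq_abs]
        exact pow_le_pow_left₀ (abs_nonneg _) (hB s hs.1 hs.2) 2
      have := sq_nonneg (G s)
      nlinarith [hs.1, hs.2]
    simpa using h2

end Pool.Agent.T9h26.TD
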