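import Pool.Agent.T9h26.TD.Id
import Pool.Agent.T6.H50.QN.SU1

set_option autoImplicit false

/-! Extremal majorant and minorant of an interval of integral length. -/

open Complex Filter Topology Set MeasureTheory

namespace Pool.Agent.T9h26.TD

/-- telescoping, upper bound -/
lemma tele1 {z : ℝ} (hz : 0 < z) (M : ℕ) :
    ∑ m ∈ Finset.range M, 1 / (z + m + 1) ^ 2 ≤ 1 / z - 1 / (z + M) := by
  induction M with
  | zero => simp
  | succ M ih =>
    rw [Finset.sum_range_succ]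
    have hM : (0 : ℝ) ≤ M := Nat.cast_nonneg M
    have h1 : 0 < z + M := by linarith
    have h2 : 1 / (z + M + 1) ^ 2 ≤ 1 / (z + M) - 1 / (z + M + 1) := by
      have e : 1 / (z + M) - 1 / (z + M + 1) = 1 / ((z + M) * (z + M + 1)) := by
        field_simp
        ring
      rw [e]
      apply one_div_le_one_div_of_le (by positivity)
      nlinarith
    push_cast
    rw [← add_assoc]
    linarith

/-- telescoping, lower bound -/
lemma tele2 {z : ℝ} (hz : 0 < z) (M : ℕ) :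
    1 / z - 1 / (z + M) ≤ ∑ m ∈ Finset.range M, 1 / (z + m) ^ 2 := by
  induction M with
  | zero => simp
  | succ M ih =>
    rw [Finset.sum_range_succ]
    have hM : (0 : ℝ) ≤ M := Nat.cast_nonneg M
    have h1 : 0 < z + M := by linarith
    have h2 : 1 / (z + M) - 1 / (z + M + 1) ≤ 1 / (z + M) ^ 2 := by
      have e : 1 / (z + M) - 1 / (z + M + 1) = 1 / ((z + M) * (z + M + 1)) := by
        field_simp
        ring
      rw [e]
      apply one_div_le_one_div_of_le (by positivity)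
      nlinarith
    push_cast
    rw [← add_assoc]
    linarith

lemma tail_sum {z : ℝ} (hz : 0 < z) : Summable fun m : ℕ => 1 / (z + m + 1) ^ 2 := by
  apply summable_of_sum_range_le (c := 1 / z) (fun m => by positivity)
  intro M
  have := tele1 hz M
  have h2 : 0 ≤ 1 / (z + M) := by positivity
  linarith

lemma tail_le {z : ℝ} (hz : 0 < z) : ∑' m : ℕ, 1 / (z + m + 1) ^ 2 ≤ 1 / z := by
  apply Real.tsum_le_of_sum_range_le (fun m => by positivity)
  intro M
  have := tele1 hz M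
  have h2 : 0 ≤ 1 / (z + M) := by positivity
  linarith

lemma tail_ge {z : ℝ} (hz : 0 < z) : 1 / z ≤ 1 / z ^ 2 + ∑' m : ℕ, 1 / (z + m + 1) ^ 2 := by
  have h1 : ∀ M : ℕ, 1 / z - 1 / (z + M) ≤ 1 / z ^ 2 + ∑' m : ℕ, 1 / (z + m + 1) ^ 2 := by
    intro M
    have h2 := tele2 hz (M + 1)
    rw [Finset.sum_range_succ'] at h2
    have h3 : ∑ m ∈ Finset.range M, 1 / (z + ((m + 1 : ℕ) : ℝ)) ^ 2 ≤
        ∑' m : ℕ, 1 / (z + m + 1) ^ 2 := by
      have h4 := (tail_sum hz).sum_le_tsum (Finset.range M) (fun m _ => by positivity)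
      refine le_trans (le_of_eq ?_) h4
      apply Finset.sum_congr rfl
      intro m _
      push_cast
      rw [add_assoc]
    have h5 : 1 / (z + ((M + 1 : ℕ) : ℝ)) ≤ 1 / (z + M) := by
      apply one_div_le_one_div_of_le (by positivity)
      push_cast
      linarith
    simp only [Nat.cast_zero, add_zero] at h2
    linarith
  have h2 : Tendsto (fun M : ℕ => 1 / z - 1 / (z + M)) atTop (𝓝 (1 / z - 0)) := by
    apply Tendsto.const_sub
    apply tendsto_const_nhds.div_atTop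
    exact tendsto_const_nhds.add_atTop tendsto_natCast_atTop_atTop
  rw [sub_zero] at h2
  exact le_of_tendsto h2 (Eventually.of_forall h1)

/-- the extremal functions -/
noncomputable def Phi (S : Finset ℕ) (j : ℕ) (u : ℝ) : ℝ :=
  ∑ n ∈ S, Real.sinc (Real.pi * (u - n)) ^ 2 + Real.sin (Real.pi * u) ^ 2 / (Real.pi ^ 2 * u) -
    Real.sin (Real.pi * (u - j)) ^ 2 / (Real.pi ^ 2 * (u - j))

lemma sin_sub_nat (u : ℝ) (n : ℕ) :
    Real.sin (Real.pi * (u - n)) ^ 2 = Real.sin (Real.pi * u) ^ 2 := by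
  rw [mul_sub, mul_comm Real.pi (n : ℝ), Real.sin_sub_nat_mul_pi, mul_pow, ← pow_mul, mul_comm n 2,
    pow_mul]
  norm_num

lemma sinc_sub {u : ℝ} {n : ℕ} (h : u - n ≠ 0) :
    Real.sinc (Real.pi * (u - n)) ^ 2 =
      Real.sin (Real.pi * u) ^ 2 / Real.pi ^ 2 * (1 / (u - n) ^ 2) := by
  rw [Real.sinc_of_ne_zero (mul_ne_zero Real.pi_ne_zero h), div_pow, sin_sub_nat, mul_pow]
  field_simp

/-- the value at a non-integer -/
lemma Phi_eq {S : Finset ℕ} {j : ℕ} {u : ℝ} (hu : ∀ n : ℕ, u - n ≠ 0) :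
    Phi S j u = Real.sin (Real.pi * u) ^ 2 / Real.pi ^ 2 *
      (∑ n ∈ S, 1 / (u - n) ^ 2 + 1 / u - 1 / (u - j)) := by
  unfold Phi
  rw [Finset.sum_congr rfl (fun n _ => sinc_sub (hu n)), sin_sub_nat, ← Finset.mul_sum]
  have h0 : u ≠ 0 := by simpa using hu 0
  have hj := hu j
  have hpi := Real.pi_ne_zero
  field_simp

/-- symmetric index sets -/
def Sym (S : Finset ℕ) (j : ℕ) : Prop := ∀ n ∈ S, n ≤ j ∧ j - n ∈ S

lemma Sym.sum {S : Finset ℕ} {j : ℕ} (h : Sym S j) (f : ℝ → ℝ) :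
    ∑ n ∈ S, f ((j : ℝ) - n) = ∑ n ∈ S, f n := by
  apply Finset.sum_bij' (fun n _ => j - n) (fun n _ => j - n)
  · intro n hn; exact (h n hn).2
  · intro n hn; exact (h n hn).2
  · intro n hn; exact Nat.sub_sub_self (h n hn).1
  · intro n hn; exact Nat.sub_sub_self (h n hn).1
  · intro n hn
    rw [Nat.cast_sub (h n hn).1]

lemma sym_range (j : ℕ) : Sym (Finset.range (j + 1)) j := by
  intro n hn
  rw [Finset.mem_range] at hn ⊢
  omega

lemma sym_Ico (j : ℕ) : Sym (Finset.Ico 1 j) j := by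
  intro n hn
  rw [Finset.mem_Ico] at hn ⊢
  omega

lemma Phi_symm {S : Finset ℕ} {j : ℕ} (h : Sym S j) (u : ℝ) : Phi S j (j - u) = Phi S j u := by
  unfold Phi
  have h1 : ∑ n ∈ S, Real.sinc (Real.pi * ((j : ℝ) - u - n)) ^ 2 =
      ∑ n ∈ S, Real.sinc (Real.pi * (u - n)) ^ 2 := by
    rw [← h.sum (fun y => Real.sinc (Real.pi * (u - y)) ^ 2)]
    apply Finset.sum_congr rfl
    intro n _
    have : Real.pi * ((j : ℝ) - u - n) = -(Real.pi * (u - (j - n))) := by ring
    rw [this, Real.sinc_neg]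
  rw [h1]
  have e1 : Real.pi * ((j : ℝ) - u) = -(Real.pi * (u - j)) := by ring
  have e2 : Real.pi * ((j : ℝ) - u - j) = -(Real.pi * u) := by ring
  have e3 : Real.pi ^ 2 * ((j : ℝ) - u) = -(Real.pi ^ 2 * (u - j)) := by ring
  have e4 : Real.pi ^ 2 * ((j : ℝ) - u - j) = -(Real.pi ^ 2 * u) := by ring
  rw [e1, e2, e3, e4, Real.sin_neg, Real.sin_neg, neg_sq, neg_sq, div_neg, div_neg]
  ring

/-- the value at an integer -/
lemma Phi_int (S : Finset ℕ) (j : ℕ) (m : ℤ) :
    Phi S j m = ∑ n ∈ S, if (m : ℤ) = n then 1 else 0 := by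
  unfold Phi
  have h1 : Real.sin (Real.pi * m) = 0 := by
    rw [mul_comm]; exact Real.sin_int_mul_pi m
  have h2 : Real.sin (Real.pi * ((m : ℝ) - j)) = 0 := by
    have := Real.sin_int_mul_pi (m - j)
    push_cast at this
    rw [mul_comm]; exact this
  rw [h1, h2]
  simp only [ne_eq, OfNat.ofNat_ne_zero, not_false_eq_true, zero_pow, zero_div, add_zero, sub_zero]
  apply Finset.sum_congr rfl
  intro n _
  split_ifs with h
  · have : (m : ℝ) = n := by exact_mod_cast h
    rw [this, sub_self, mul_zero, Real.sinc_zero]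
    norm_num
  · have h3 : (m : ℝ) - n ≠ 0 := by
      intro h4
      apply h
      have : (m : ℝ) = n := by linarith
      exact_mod_cast this
    rw [Real.sinc_of_ne_zero (mul_ne_zero Real.pi_ne_zero h3)]
    have h4 := Real.sin_int_mul_pi (m - n)
    push_cast at h4
    rw [mul_comm] at h4
    rw [h4]
    norm_num

lemma Phi_int_nonneg (S : Finset ℕ) (j : ℕ) (m : ℤ) : 0 ≤ Phi S j m := by
  rw [Phi_int]
  apply Finset.sum_nonneg
  intro n _
  split_ifs <;> norm_num

lemma Phi_int_mem {S : Finset ℕ} (j : ℕ) {m : ℕ} (h : m ∈ S) : Phi S j (m : ℤ) = 1 := by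
  rw [Phi_int]
  have : ∀ n : ℕ, (((m : ℤ) = (n : ℤ))) ↔ m = n := fun n => Int.natCast_inj
  simp only [this]
  rw [Finset.sum_ite_eq, if_pos h]

lemma Phi_int_le (S : Finset ℕ) (j : ℕ) (m : ℤ) : Phi S j m ≤ 1 := by
  rw [Phi_int]
  by_cases h : ∃ n ∈ S, m = (n : ℤ)
  · obtain ⟨n, hn, rfl⟩ := h
    have : ∀ k : ℕ, (((n : ℤ) = (k : ℤ))) ↔ n = k := fun k => Int.natCast_inj
    simp only [this]
    rw [Finset.sum_ite_eq, if_pos hn]
  · rw [Finset.sum_eq_zero]
    · norm_num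
    · intro n hn
      rw [if_neg]
      intro h2
      exact h ⟨n, hn, h2⟩

lemma Phi_int_out {S : Finset ℕ} {j : ℕ} {m : ℤ} (h : ∀ n ∈ S, m ≠ (n : ℤ)) : Phi S j m = 0 := by
  rw [Phi_int]
  apply Finset.sum_eq_zero
  intro n hn
  rw [if_neg (h n hn)]

/-- reflected sum -/
lemma refl_sum {j : ℕ} {z : ℝ} :
    ∑ n ∈ Finset.range (j + 1), 1 / (z + j - n) ^ 2 = ∑ m ∈ Finset.range (j + 1), 1 / (z + m) ^ 2 := by
  have h := (sym_range j).sum (fun y => 1 / (z + y) ^ 2)
  rw [← h]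
  apply Finset.sum_congr rfl
  intro n _
  rw [add_sub_assoc]

lemma Ico_sum {j : ℕ} (hj : 1 ≤ j) (f : ℕ → ℝ) :
    ∑ n ∈ Finset.Ico 1 j, f n = ∑ n ∈ Finset.range (j + 1), f n - f 0 - f j := by
  rw [Finset.sum_range_succ, ← Finset.sum_range_add_sum_Ico f hj, Finset.sum_range_one]
  ring

/-- outside the interval, non-integer points -/
lemma out_aux {j : ℕ} (hj : 1 ≤ j) {u : ℝ} (hu : (j : ℝ) < u) (hn : ∀ n : ℕ, u - n ≠ 0) :
    0 ≤ Phi (Finset.range (j + 1)) j u ∧ Phi (Finset.Ico 1 j) j u ≤ 0 := by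
  obtain ⟨z, hz, rfl⟩ : ∃ z : ℝ, 0 < z ∧ u = z + j := ⟨u - j, by linarith, by ring⟩
  have hj0 : (0 : ℝ) ≤ j := Nat.cast_nonneg j
  have hq : 0 ≤ Real.sin (Real.pi * (z + j)) ^ 2 / Real.pi ^ 2 := by positivity
  have h1 := tele2 hz (j + 1)
  have h2 := tele1 hz j
  rw [Phi_eq hn, Phi_eq hn]
  have e0 : z + (j : ℝ) - j = z := by ring
  rw [e0]
  constructor
  · apply mul_nonneg hq
    rw [refl_sum]
    have h3 : 1 / (z + ((j + 1 : ℕ) : ℝ)) ≤ 1 / (z + j) := by
      apply one_div_le_one_div_of_le (by positivity)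
      push_cast
      linarith
    linarith
  · apply mul_nonpos_of_nonneg_of_nonpos hq
    rw [Ico_sum hj (fun n => 1 / (z + j - n) ^ 2), refl_sum, Finset.sum_range_succ']
    have h3 : ∑ m ∈ Finset.range j, 1 / (z + ((m + 1 : ℕ) : ℝ)) ^ 2 ≤ 1 / z - 1 / (z + j) := by
      refine le_trans (le_of_eq ?_) h2
      apply Finset.sum_congr rfl
      intro m _
      push_cast
      rw [add_assoc]
    rw [e0]
    have h4 : 0 ≤ 1 / (z + (j : ℝ)) ^ 2 := by positivity
    simp only [Nat.cast_zero, add_zero, sub_zero]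
    linarith

/-- inside the interval, non-integer points -/
lemma in_aux {j : ℕ} (hj : 1 ≤ j) {u : ℝ} (hu0 : 0 < u) (hu : u < (j : ℝ))
    (hn : ∀ m : ℤ, u ≠ m) :
    1 ≤ Phi (Finset.range (j + 1)) j u ∧ Phi (Finset.Ico 1 j) j u ≤ 1 := by
  have hn' : ∀ n : ℕ, u - n ≠ 0 := fun n h => hn n (by push_cast; linarith)
  set q := Real.sin (Real.pi * u) ^ 2 / Real.pi ^ 2 with hq
  have hq0 : 0 ≤ q := by positivity
  have h1 := H50.QN.su1 u
  have h2 : HasSum (fun n : ℤ => q * (1 / (u - n) ^ 2)) 1 := by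
    have h3 := (Equiv.neg ℤ).hasSum_iff.2 h1
    refine h3.congr_fun ?_
    intro n
    simp only [Function.comp, Equiv.neg_apply]
    have h4 : u - n ≠ 0 := fun h => hn n (by linarith)
    have h5 : Real.sinc (Real.pi * (u + ((-n : ℤ) : ℝ))) ^ 2 = q * (1 / (u - n) ^ 2) := by
      push_cast
      rw [← sub_eq_add_neg, Real.sinc_of_ne_zero (mul_ne_zero Real.pi_ne_zero h4), div_pow]
      have h6 : Real.sin (Real.pi * (u - n)) ^ 2 = Real.sin (Real.pi * u) ^ 2 := by
        rw [mul_sub, mul_comm Real.pi (n : ℝ), Real.sin_sub_int_mul_pi, mul_pow, ← zpow_natCast,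
          ← zpow_mul, mul_comm n, zpow_mul]
        norm_num
      rw [h6, mul_pow, hq]
      field_simp
    exact h5.symm
  have hz1 : 0 < u := hu0
  have hz2 : 0 < (j : ℝ) - u := by linarith
  set A := ∑' m : ℕ, 1 / (u + m + 1) ^ 2 with hA
  set B := ∑' m : ℕ, 1 / ((j : ℝ) - u + m + 1) ^ 2 with hB
  set S1 := ∑ n ∈ Finset.range (j + 1), 1 / (u - n) ^ 2 with hS
  have f2 : HasSum (fun n : ℕ => q * (1 / (u - ((-((n : ℤ) + 1) : ℤ) : ℝ)) ^ 2)) (q * A) := by
    have h3 := ((tail_sum hz1).hasSum).mul_left q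
    refine h3.congr_fun ?_
    intro n
    push_cast
    congr 3
    ring
  have f1 : HasSum (fun n : ℕ => q * (1 / (u - (((n : ℕ) : ℤ) : ℝ)) ^ 2)) (q * (S1 + B)) := by
    have h3 : HasSum (fun n : ℕ => 1 / (u - (n : ℝ)) ^ 2) (S1 + B) := by
      rw [← hasSum_nat_add_iff' (j + 1)]
      rw [← hS, add_sub_cancel_left]
      refine (tail_sum hz2).hasSum.congr_fun ?_
      intro n
      congr 1
      push_cast
      rw [← neg_sq]
      congr 1
      ring
    simpa using h3.mul_left q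
  have f3 := HasSum.of_nat_of_neg_add_one (f := fun n : ℤ => q * (1 / (u - n) ^ 2)) f1 f2
  have key : q * (S1 + B) + q * A = 1 := f3.unique h2
  have hAle := tail_le hz1
  have hBle := tail_le hz2
  have hAge := tail_ge hz1
  have hBge := tail_ge hz2
  rw [← hA] at hAle hAge
  rw [← hB] at hBle hBge
  have e1 : 1 / (u - (j : ℝ)) = -(1 / ((j : ℝ) - u)) := by
    rw [← neg_sub, div_neg]
  rw [Phi_eq hn', Phi_eq hn', ← hq, ← hS, e1]
  constructor
  · have h3 : q * (S1 + B) + q * A ≤ q * (S1 + 1 / u - -(1 / ((j : ℝ) - u))) := by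
      rw [← mul_add]
      apply mul_le_mul_of_nonneg_left _ hq0
      linarith
    linarith
  · rw [Ico_sum hj (fun n => 1 / (u - n) ^ 2), ← hS]
    have h3 : q * (S1 - 1 / (u - ((0 : ℕ) : ℝ)) ^ 2 - 1 / (u - (j : ℝ)) ^ 2 + 1 / u -
        -(1 / ((j : ℝ) - u))) ≤ q * (S1 + B) + q * A := by
      rw [← mul_add]
      apply mul_le_mul_of_nonneg_left _ hq0
      have e2 : (u - (j : ℝ)) ^ 2 = ((j : ℝ) - u) ^ 2 := by ring
      rw [e2, Nat.cast_zero, sub_zero]
      linarith
    linarith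

/-- all the inequalities -/
theorem Phi_maj_nonneg {j : ℕ} (hj : 1 ≤ j) (u : ℝ) : 0 ≤ Phi (Finset.range (j + 1)) j u := by
  by_cases hn : ∃ m : ℤ, u = m
  · obtain ⟨m, rfl⟩ := hn
    exact Phi_int_nonneg _ _ _
  · push Not at hn
    rcases lt_trichotomy u 0 with h | h | h
    · rw [← Phi_symm (sym_range j)]
      refine (out_aux hj (by linarith) ?_).1
      intro n h2
      exact hn ((j : ℤ) - n) (by push_cast; linarith)
    · exact absurd h (by simpa using hn 0)
    · rcases lt_trichotomy u j with h1 | h1 | h1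
      · exact zero_le_one.trans (in_aux hj h h1 hn).1
      · exact absurd h1 (by simpa using hn j)
      · refine (out_aux hj h1 ?_).1
        intro n h2
        exact hn n (by push_cast; linarith)

theorem Phi_maj_ge {j : ℕ} (hj : 1 ≤ j) {u : ℝ} (h0 : 0 ≤ u) (h1 : u ≤ j) :
    1 ≤ Phi (Finset.range (j + 1)) j u := by
  by_cases hn : ∃ m : ℤ, u = m
  · obtain ⟨m, rfl⟩ := hn
    have h2 : 0 ≤ m := by exact_mod_cast h0
    obtain ⟨k, rfl⟩ := Int.eq_ofNat_of_zero_le h2
    have h3 : k ≤ j := by exact_mod_cast h1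
    have h4 : k ∈ Finset.range (j + 1) := by
      rw [Finset.mem_range]
      omega
    have := Phi_int_mem j h4
    exact this.ge
  · push Not at hn
    rcases h0.eq_or_lt with h | h
    · exact absurd h.symm (by simpa using hn 0)
    rcases h1.eq_or_lt with h2 | h2
    · exact absurd h2 (by simpa using hn j)
    exact (in_aux hj h h2 hn).1

theorem Phi_min_nonpos {j : ℕ} (hj : 1 ≤ j) {u : ℝ} (h : u ≤ 0 ∨ (j : ℝ) ≤ u) :
    Phi (Finset.Ico 1 j) j u ≤ 0 := by
  by_cases hn : ∃ m : ℤ, u = m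
  · obtain ⟨m, rfl⟩ := hn
    refine (Phi_int_out ?_).le
    intro n hn h2
    rw [Finset.mem_Ico] at hn
    rw [h2] at h
    have h3 : (1 : ℝ) ≤ n := by exact_mod_cast hn.1
    have h4 : (n : ℝ) < j := by exact_mod_cast hn.2
    push_cast at h
    rcases h with h | h <;> linarith
  · push Not at hn
    rcases h with h | h
    · rcases h.eq_or_lt with h2 | h2
      · exact absurd h2 (by simpa using hn 0)
      · rw [← Phi_symm (sym_Ico j)]
        refine (out_aux hj (by linarith) ?_).2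
        intro n h3
        exact hn ((j : ℤ) - n) (by push_cast; linarith)
    · rcases h.eq_or_lt with h2 | h2
      · exact absurd h2.symm (by simpa using hn j)
      · refine (out_aux hj h2 ?_).2
        intro n h3
        exact hn n (by push_cast; linarith)

theorem Phi_min_le {j : ℕ} (hj : 1 ≤ j) (u : ℝ) : Phi (Finset.Ico 1 j) j u ≤ 1 := by
  by_cases hn : ∃ m : ℤ, u = m
  · obtain ⟨m, rfl⟩ := hn
    exact Phi_int_le _ _ _
  · push Not at hn
    rcases le_or_gt u 0 with h | h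
    · exact (Phi_min_nonpos hj (Or.inl h)).trans zero_le_one
    rcases le_or_gt (j : ℝ) u with h1 | h1
    · exact (Phi_min_nonpos hj (Or.inr h1)).trans zero_le_one
    exact (in_aux hj h h1 hn).2

end Pool.Agent.T9h26.TD
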