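import Pool.Agent.T9h26.TD.Sel

set_option autoImplicit false

/-! The weights of the extremal functions: transform and variance. -/

open Complex Filter Topology Set MeasureTheory

namespace Pool.Agent.T9h26.TD

lemma int_F (v : ℝ) : 2 * ∫ s in (0 : ℝ)..1, (1 - s) * Real.cos (2 * Real.pi * v * s) =
    Real.sinc (Real.pi * v) ^ 2 := by
  have hpi := Real.pi_ne_zero
  rcases eq_or_ne v 0 with rfl | hv
  · have e : ∀ s : ℝ, (1 - s) * Real.cos (2 * Real.pi * 0 * s) = 1 - s := by
      intro s
      rw [mul_zero, zero_mul, Real.cos_zero, mul_one]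
    simp_rw [e]
    rw [mul_zero, Real.sinc_zero]
    rw [intervalIntegral.integral_sub (f := fun _ : ℝ => (1 : ℝ)) (g := fun s : ℝ => s)
      intervalIntegrable_const (continuous_id.intervalIntegrable _ _), integral_id]
    simp
    norm_num
  · rw [int_tri (by positivity), Real.sinc_of_ne_zero (mul_ne_zero hpi hv)]
    have h1 : Real.cos (2 * Real.pi * v) = 1 - 2 * Real.sin (Real.pi * v) ^ 2 := by
      rw [show 2 * Real.pi * v = 2 * (Real.pi * v) by ring, Real.cos_two_mul]
      have := Real.sin_sq_add_cos_sq (Real.pi * v)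
      linarith
    rw [h1]
    field_simp
    ring

lemma int_H (v : ℝ) : 1 / Real.pi * ∫ s in (0 : ℝ)..1, Real.sin (2 * Real.pi * v * s) =
    Real.sin (Real.pi * v) ^ 2 / (Real.pi ^ 2 * v) := by
  have hpi := Real.pi_ne_zero
  rcases eq_or_ne v 0 with rfl | hv
  · simp
  · rw [int_sin (by positivity)]
    have h1 : Real.cos (2 * Real.pi * v) = 1 - 2 * Real.sin (Real.pi * v) ^ 2 := by
      rw [show 2 * Real.pi * v = 2 * (Real.pi * v) by ring, Real.cos_two_mul]
      have := Real.sin_sq_add_cos_sq (Real.pi * v)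
      linarith
    rw [h1]
    field_simp
    ring

/-- the kernel -/
noncomputable def DK (S : Finset ℕ) (j : ℕ) (s : ℝ) : ℝ :=
  ∑ n ∈ S, Real.cos (Real.pi * (2 * n - j) * s)

/-- the transform of the extremal function -/
noncomputable def hat (S : Finset ℕ) (j : ℕ) (s : ℝ) : ℝ :=
  (1 - s) * DK S j s + 1 / Real.pi * Real.sin (Real.pi * j * s)

/-- the profile of the extremal weight -/
noncomputable def Gs (S : Finset ℕ) (j : ℕ) (b s : ℝ) : ℝ := 2 / b * hat S j s

lemma hat_contDiff (S : Finset ℕ) (j : ℕ) : ContDiff ℝ 1 (hat S j) := by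
  unfold hat DK
  fun_prop

lemma Gs_contDiff (S : Finset ℕ) (j : ℕ) (b : ℝ) : ContDiff ℝ 1 (Gs S j b) := by
  unfold Gs
  exact contDiff_const.mul (hat_contDiff S j)

lemma Gs_cont (S : Finset ℕ) (j : ℕ) (b : ℝ) : Continuous (Gs S j b) :=
  (Gs_contDiff S j b).continuous

lemma hat_one (S : Finset ℕ) (j : ℕ) : hat S j 1 = 0 := by
  unfold hat
  rw [mul_one, mul_comm Real.pi (j : ℝ), Real.sin_nat_mul_pi]
  ring

lemma Gs_one (S : Finset ℕ) (j : ℕ) (b : ℝ) : Gs S j b 1 = 0 := by
  unfold Gs
  rw [hat_one, mul_zero]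

lemma Gs_zero (S : Finset ℕ) (j : ℕ) (b : ℝ) : Gs S j b 0 = 2 / b * S.card := by
  unfold Gs hat DK
  simp

/-- **the transform of the extremal weight** -/
lemma ph_sel {S : Finset ℕ} {j : ℕ} (h : Sym S j) {b : ℝ} (hb : 0 < b) (hb1 : b ≤ 1 / 2) (x : ℝ) :
    ph (sc (Gs S j b) b) x = Phi S j (b * x / (2 * Real.pi) + j / 2) := by
  have hpi := Real.pi_pos
  have hpi0 := Real.pi_ne_zero
  rw [ph_sc (Gs_cont S j b) (Gs_one S j b) hb hb1]
  set u := b * x / (2 * Real.pi) + j / 2 with hu
  have hc : b * x = Real.pi * (2 * u - j) := by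
    rw [hu]
    field_simp
    ring
  rw [← intervalIntegral.integral_const_mul]
  have e : ∀ s : ℝ, b * (Gs S j b s * Real.cos (s * (b * x))) =
      (∑ n ∈ S, ((1 - s) * Real.cos (2 * Real.pi * (u - (j - n)) * s) +
        (1 - s) * Real.cos (2 * Real.pi * (u - n) * s))) +
      (1 / Real.pi * Real.sin (2 * Real.pi * u * s) +
        1 / Real.pi * Real.sin (2 * Real.pi * (j - u) * s)) := by
    intro s
    have e1 : b * (Gs S j b s * Real.cos (s * (b * x))) =
        (1 - s) * ∑ n ∈ S, 2 * (Real.cos (Real.pi * (2 * n - j) * s) * Real.cos (s * (b * x))) +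
        1 / Real.pi * (2 * (Real.sin (Real.pi * j * s) * Real.cos (s * (b * x)))) := by
      unfold Gs hat DK
      have : ∑ n ∈ S, 2 * (Real.cos (Real.pi * (2 * n - j) * s) * Real.cos (s * (b * x))) =
          2 * Real.cos (s * (b * x)) * ∑ n ∈ S, Real.cos (Real.pi * (2 * n - j) * s) := by
        rw [Finset.mul_sum]
        apply Finset.sum_congr rfl
        intro n _
        ring
      rw [this]
      field_simp
    rw [e1, Finset.mul_sum]
    congr 1
    · apply Finset.sum_congr rfl
      intro n _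
      rw [hc]
      have a1 : 2 * Real.pi * (u - (j - n)) * s = Real.pi * (2 * n - j) * s +
          s * (Real.pi * (2 * u - j)) := by ring
      have a2 : 2 * Real.pi * (u - n) * s = -(Real.pi * (2 * n - j) * s -
          s * (Real.pi * (2 * u - j))) := by ring
      rw [a1, a2, Real.cos_neg, Real.cos_add, Real.cos_sub]
      ring
    · rw [hc]
      have a1 : 2 * Real.pi * u * s = Real.pi * j * s + s * (Real.pi * (2 * u - j)) := by ring
      have a2 : 2 * Real.pi * (j - u) * s = Real.pi * j * s - s * (Real.pi * (2 * u - j)) := by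
        ring
      rw [a1, a2, Real.sin_add, Real.sin_sub]
      ring
  simp_rw [e]
  have c1 : ∀ v : ℝ, Continuous fun s : ℝ => (1 - s) * Real.cos (2 * Real.pi * v * s) := by
    intro v; fun_prop
  have c2 : ∀ v : ℝ, Continuous fun s : ℝ => 1 / Real.pi * Real.sin (2 * Real.pi * v * s) := by
    intro v; fun_prop
  have c3 : ∀ n : ℕ, Continuous fun s : ℝ => (1 - s) * Real.cos (2 * Real.pi * (u - (j - n)) * s) +
      (1 - s) * Real.cos (2 * Real.pi * (u - n) * s) := by
    intro n; fun_prop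
  have c4 : Continuous fun s : ℝ => 1 / Real.pi * Real.sin (2 * Real.pi * u * s) +
      1 / Real.pi * Real.sin (2 * Real.pi * (j - u) * s) := by fun_prop
  have c5 : Continuous fun s : ℝ => ∑ n ∈ S, ((1 - s) * Real.cos (2 * Real.pi * (u - (j - n)) * s) +
      (1 - s) * Real.cos (2 * Real.pi * (u - n) * s)) :=
    continuous_finsetSum _ fun n _ => c3 n
  rw [intervalIntegral.integral_add (c5.intervalIntegrable _ _) (c4.intervalIntegrable _ _),
    intervalIntegral.integral_finsetSum (fun n _ => (c3 n).intervalIntegrable _ _),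
    intervalIntegral.integral_add ((c2 _).intervalIntegrable _ _) ((c2 _).intervalIntegrable _ _),
    intervalIntegral.integral_const_mul, intervalIntegral.integral_const_mul, int_H, int_H]
  have e2 : ∀ n ∈ S, ∫ s in (0 : ℝ)..1, ((1 - s) * Real.cos (2 * Real.pi * (u - (j - n)) * s) +
      (1 - s) * Real.cos (2 * Real.pi * (u - n) * s)) =
      1 / 2 * Real.sinc (Real.pi * (u - (j - n))) ^ 2 + 1 / 2 * Real.sinc (Real.pi * (u - n)) ^ 2 := by
    intro n _
    rw [intervalIntegral.integral_add ((c1 _).intervalIntegrable _ _)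
      ((c1 _).intervalIntegrable _ _)]
    have h1 := int_F (u - (j - n))
    have h2 := int_F (u - n)
    linarith
  rw [Finset.sum_congr rfl e2, Finset.sum_add_distrib, ← Finset.mul_sum, ← Finset.mul_sum,
    h.sum (fun y => Real.sinc (Real.pi * (u - y)) ^ 2)]
  unfold Phi
  have e3 : Real.pi * ((j : ℝ) - u) = -(Real.pi * (u - j)) := by ring
  have e4 : Real.pi ^ 2 * ((j : ℝ) - u) = -(Real.pi ^ 2 * (u - j)) := by ring
  rw [e3, e4, Real.sin_neg, neg_sq, div_neg]
  ring

/-! ### the variance -/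

/-- closed form of the kernel -/
def Ker (S : Finset ℕ) (j : ℕ) (σ : ℝ) : Prop := ∀ s : ℝ, DK S j s * Real.sin (Real.pi * s) =
  Real.sin (Real.pi * j * s) * Real.cos (Real.pi * s) +
    σ * (Real.cos (Real.pi * j * s) * Real.sin (Real.pi * s))

lemma ker_range (j : ℕ) : Ker (Finset.range (j + 1)) j 1 := by
  intro s
  unfold DK
  have h1 : ∀ n : ℕ, 2 * (Real.cos (Real.pi * (2 * n - j) * s) * Real.sin (Real.pi * s)) =
      Real.sin (Real.pi * (2 * ((n + 1 : ℕ) : ℝ) - 1 - j) * s) -
        Real.sin (Real.pi * (2 * (n : ℝ) - 1 - j) * s) := by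
    intro n
    have a1 : Real.pi * (2 * ((n + 1 : ℕ) : ℝ) - 1 - j) * s = Real.pi * (2 * n - j) * s +
        Real.pi * s := by push_cast; ring
    have a2 : Real.pi * (2 * (n : ℝ) - 1 - j) * s = Real.pi * (2 * n - j) * s - Real.pi * s := by
      ring
    rw [a1, a2, Real.sin_add, Real.sin_sub]
    ring
  have h2 : 2 * ((∑ n ∈ Finset.range (j + 1), Real.cos (Real.pi * (2 * n - j) * s)) *
      Real.sin (Real.pi * s)) = 2 * Real.sin (Real.pi * (j + 1) * s) := by
    rw [Finset.sum_mul, Finset.mul_sum, Finset.sum_congr rfl (fun n _ => h1 n),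
      Finset.sum_range_sub (fun n : ℕ => Real.sin (Real.pi * (2 * (n : ℝ) - 1 - j) * s))]
    have a1 : Real.pi * (2 * ((j + 1 : ℕ) : ℝ) - 1 - j) * s = Real.pi * (j + 1) * s := by
      push_cast; ring
    have a2 : Real.pi * (2 * ((0 : ℕ) : ℝ) - 1 - j) * s = -(Real.pi * (j + 1) * s) := by
      push_cast; ring
    rw [a1, a2, Real.sin_neg]
    ring
  have h3 : Real.sin (Real.pi * (j + 1) * s) = Real.sin (Real.pi * j * s) * Real.cos (Real.pi * s) +
      Real.cos (Real.pi * j * s) * Real.sin (Real.pi * s) := by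
    rw [← Real.sin_add]
    congr 1
    ring
  linarith

lemma ker_Ico {j : ℕ} (hj : 1 ≤ j) : Ker (Finset.Ico 1 j) j (-1) := by
  intro s
  have h1 := ker_range j s
  unfold DK at h1 ⊢
  rw [Ico_sum hj (fun n => Real.cos (Real.pi * (2 * n - j) * s))]
  have a1 : Real.pi * (2 * ((0 : ℕ) : ℝ) - j) * s = -(Real.pi * j * s) := by push_cast; ring
  have a2 : Real.pi * (2 * (j : ℝ) - j) * s = Real.pi * j * s := by ring
  rw [a1, a2, Real.cos_neg]
  linarith

/-- the bound for the cotangent -/
lemma cot_bd {s : ℝ} (h0 : 0 < s) (h1 : s < 1) :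
    |(1 - s) * (Real.cos (Real.pi * s) / Real.sin (Real.pi * s)) - 1 / (Real.pi * s)| ≤ 5 := by
  have hpi := Real.pi_gt_three
  have hpi4 := Real.pi_lt_d2
  have hpos : 0 < Real.pi := Real.pi_pos
  have hs0 : 0 < Real.sin (Real.pi * s) := by
    apply Real.sin_pos_of_pos_of_lt_pi (by positivity)
    nlinarith
  rcases le_or_gt s (1 / 2) with h | h
  · set z := Real.pi * s with hz
    have hz0 : 0 < z := by positivity
    have hz2 : z ≤ Real.pi / 2 := by rw [hz]; nlinarith
    have hj := Real.mul_le_sin hz0.le hz2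
    have hsin : 2 * s ≤ Real.sin z := by
      refine le_trans (le_of_eq ?_) hj
      rw [hz]
      field_simp
    have hcos := Real.one_sub_sq_div_two_le_cos (x := z)
    have hcos1 := Real.cos_le_one z
    have hcub : z - Real.sin z ≤ z ^ 3 := by
      have h3 := Real.sin_gt_sub_cube hz0
      have : 0 < z ^ 3 := by positivity
      linarith
    have hlt := Real.sin_lt hz0
    have e : (1 - s) * (Real.cos z / Real.sin z) - 1 / z =
        (z * (1 - s) * Real.cos z - Real.sin z) / (z * Real.sin z) := by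
      field_simp
    rw [e, abs_div, abs_of_pos (by positivity : 0 < z * Real.sin z), div_le_iff₀ (by positivity)]
    have hnum : |z * (1 - s) * Real.cos z - Real.sin z| ≤ z ^ 3 / 2 + z * s + z ^ 3 := by
      have e2 : z * (1 - s) * Real.cos z - Real.sin z =
          -(z * (1 - Real.cos z)) - z * s * Real.cos z + (z - Real.sin z) := by ring
      rw [e2]
      have a1 : 0 ≤ z * (1 - Real.cos z) := mul_nonneg hz0.le (by linarith)
      have a2 : z * (1 - Real.cos z) ≤ z ^ 3 / 2 := by
        have : z * (1 - Real.cos z) ≤ z * (z ^ 2 / 2) :=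
          mul_le_mul_of_nonneg_left (by linarith) hz0.le
        nlinarith
      have a3 : |z * s * Real.cos z| ≤ z * s := by
        rw [abs_mul, abs_of_nonneg (by positivity : 0 ≤ z * s)]
        have := Real.abs_cos_le_one z
        have : 0 ≤ z * s := by positivity
        nlinarith
      rw [abs_le] at a3 ⊢
      constructor <;> linarith [a3.1, a3.2]
    refine hnum.trans ?_
    have h2 : 5 * (z * (2 * s)) ≤ 5 * (z * Real.sin z) := by gcongr
    refine le_trans ?_ h2
    -- z^2 ≤ (π/2) z, z = π s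
    have h3 : z ^ 2 ≤ Real.pi * s * (Real.pi / 2) := by
      have : z * z ≤ z * (Real.pi / 2) := mul_le_mul_of_nonneg_left hz2 hz0.le
      rw [hz] at this ⊢
      nlinarith
    have h4 : z ^ 2 ≤ 5 * s := by
      have : Real.pi * (Real.pi / 2) ≤ 5 := by nlinarith
      nlinarith
    nlinarith
  · have hsin : 2 * (1 - s) ≤ Real.sin (Real.pi * s) := by
      have h2 : Real.sin (Real.pi * s) = Real.sin (Real.pi * (1 - s)) := by
        rw [← Real.sin_pi_sub]
        congr 1
        ring
      rw [h2]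
      have h3 := Real.mul_le_sin (x := Real.pi * (1 - s)) (by
        apply mul_nonneg <;> linarith) (by nlinarith)
      refine le_trans (le_of_eq ?_) h3
      field_simp
    have h2 : |(1 - s) * (Real.cos (Real.pi * s) / Real.sin (Real.pi * s))| ≤ 1 := by
      rw [abs_mul, abs_div, abs_of_pos hs0, abs_of_pos (by linarith : 0 < 1 - s), ← mul_div_assoc,
        div_le_one hs0]
      have := Real.abs_cos_le_one (Real.pi * s)
      nlinarith
    have h3 : |1 / (Real.pi * s)| ≤ 1 := by
      rw [abs_of_pos (by positivity), div_le_one (by positivity)]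
      nlinarith
    have := abs_sub ((1 - s) * (Real.cos (Real.pi * s) / Real.sin (Real.pi * s))) (1 / (Real.pi * s))
    linarith

/-- the transform is close to `sin (π j s) / (π s)` -/
lemma hat_close {S : Finset ℕ} {j : ℕ} {σ : ℝ} (hσ : |σ| ≤ 1) (h : Ker S j σ) {s : ℝ} (h0 : 0 < s)
    (h1 : s ≤ 1) : |hat S j s - Real.sin (Real.pi * j * s) / (Real.pi * s)| ≤ 7 := by
  have hpi := Real.pi_gt_three
  rcases h1.eq_or_lt with h2 | h2
  · rw [h2, hat_one, mul_one, mul_one, mul_comm Real.pi (j : ℝ), Real.sin_nat_mul_pi]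
    norm_num
  · have hs0 : 0 < Real.sin (Real.pi * s) := by
      apply Real.sin_pos_of_pos_of_lt_pi (by positivity)
      nlinarith
    have h3 := h s
    have h4 : DK S j s = Real.sin (Real.pi * j * s) * (Real.cos (Real.pi * s) /
        Real.sin (Real.pi * s)) + σ * Real.cos (Real.pi * j * s) := by
      field_simp
      linarith
    have e : hat S j s - Real.sin (Real.pi * j * s) / (Real.pi * s) =
        Real.sin (Real.pi * j * s) * ((1 - s) * (Real.cos (Real.pi * s) / Real.sin (Real.pi * s)) -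
          1 / (Real.pi * s)) + ((1 - s) * (σ * Real.cos (Real.pi * j * s)) +
          1 / Real.pi * Real.sin (Real.pi * j * s)) := by
      unfold hat
      rw [h4]
      ring
    rw [e]
    have b1 : |Real.sin (Real.pi * j * s) * ((1 - s) * (Real.cos (Real.pi * s) /
        Real.sin (Real.pi * s)) - 1 / (Real.pi * s))| ≤ 1 * 5 := by
      rw [abs_mul]
      exact mul_le_mul (Real.abs_sin_le_one _) (cot_bd h0 h2) (abs_nonneg _) zero_le_one
    have b2 : |(1 - s) * (σ * Real.cos (Real.pi * j * s))| ≤ 1 * (1 * 1) := by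
      rw [abs_mul, abs_mul]
      have : |1 - s| ≤ 1 := by rw [abs_le]; constructor <;> linarith
      have := Real.abs_cos_le_one (Real.pi * j * s)
      gcongr
    have b3 : |1 / Real.pi * Real.sin (Real.pi * j * s)| ≤ 1 * 1 := by
      rw [abs_mul]
      have h5 : |1 / Real.pi| ≤ 1 := by
        rw [abs_of_pos (by positivity), div_le_one (by positivity)]
        linarith
      exact mul_le_mul h5 (Real.abs_sin_le_one _) (abs_nonneg _) zero_le_one
    have := abs_add_le (Real.sin (Real.pi * j * s) * ((1 - s) * (Real.cos (Real.pi * s) /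
      Real.sin (Real.pi * s)) - 1 / (Real.pi * s))) ((1 - s) * (σ * Real.cos (Real.pi * j * s)) +
          1 / Real.pi * Real.sin (Real.pi * j * s))
    have := abs_add_le ((1 - s) * (σ * Real.cos (Real.pi * j * s)))
      (1 / Real.pi * Real.sin (Real.pi * j * s))
    linarith

lemma hat_abs {S : Finset ℕ} {j : ℕ} (hS : S.card ≤ j + 1) {s : ℝ} (h0 : 0 ≤ s) (h1 : s ≤ 1) :
    |hat S j s| ≤ j + 2 := by
  have hpi := Real.pi_gt_three
  unfold hat
  have b1 : |DK S j s| ≤ j + 1 := by
    unfold DK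
    refine (Finset.abs_sum_le_sum_abs _ _).trans ?_
    calc ∑ n ∈ S, |Real.cos (Real.pi * (2 * n - j) * s)| ≤ ∑ n ∈ S, (1 : ℝ) :=
          Finset.sum_le_sum fun n _ => Real.abs_cos_le_one _
      _ = S.card := by rw [Finset.sum_const, nsmul_eq_mul, mul_one]
      _ ≤ j + 1 := by exact_mod_cast hS
  have b2 : |(1 - s) * DK S j s| ≤ 1 * (j + 1) := by
    rw [abs_mul]
    have : |1 - s| ≤ 1 := by rw [abs_le]; constructor <;> linarith
    gcongr
  have b3 : |1 / Real.pi * Real.sin (Real.pi * j * s)| ≤ 1 * 1 := by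
    rw [abs_mul]
    have h5 : |1 / Real.pi| ≤ 1 := by
      rw [abs_of_pos (by positivity), div_le_one (by positivity)]
      linarith
    exact mul_le_mul h5 (Real.abs_sin_le_one _) (abs_nonneg _) zero_le_one
  have := abs_add_le ((1 - s) * DK S j s) (1 / Real.pi * Real.sin (Real.pi * j * s))
  linarith

/-- the main integral -/
lemma int_main {j : ℕ} (hj : 1 ≤ j) :
    |(∫ s in (1 / (j : ℝ))..1, Real.sin (Real.pi * j * s) ^ 2 / s) - 1 / 2 * Real.log j| ≤ 1 := by
  have hpi := Real.pi_gt_three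
  have hj0 : (0 : ℝ) < j := by exact_mod_cast hj
  have hj1 : (1 : ℝ) ≤ j := by exact_mod_cast hj
  have hle : 1 / (j : ℝ) ≤ 1 := by rw [div_le_one hj0]; exact hj1
  have hpos : ∀ s ∈ Set.uIcc (1 / (j : ℝ)) 1, s ≠ 0 := by
    intro s hs
    rw [Set.uIcc_of_le hle] at hs
    have : 0 < 1 / (j : ℝ) := by positivity
    linarith [hs.1]
  have hpi0 := Real.pi_ne_zero
  -- the antiderivatives
  have hd : ∀ τ : ℝ, ∀ s ∈ Set.uIcc (1 / (j : ℝ)) 1, HasDerivAt (fun s : ℝ => 1 / 2 * Real.log s -
      Real.sin (2 * Real.pi * j * s) / (4 * Real.pi * j * s) - τ * (1 / (4 * Real.pi * j * s)))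
      (Real.sin (Real.pi * j * s) ^ 2 / s + (Real.sin (2 * Real.pi * j * s) + τ) /
        (4 * Real.pi * j * s ^ 2)) s := by
    intro τ s hs
    have hs0 := hpos s hs
    have d1 := (Real.hasDerivAt_log hs0).const_mul (1 / 2)
    have d2 : HasDerivAt (fun s : ℝ => 2 * Real.pi * j * s) (2 * Real.pi * j) s := by
      simpa using (hasDerivAt_id s).const_mul (2 * Real.pi * j)
    have d3 : HasDerivAt (fun s : ℝ => 4 * Real.pi * j * s) (4 * Real.pi * j) s := by
      simpa using (hasDerivAt_id s).const_mul (4 * Real.pi * j)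
    have hne : 4 * Real.pi * j * s ≠ 0 := by positivity
    have d4 := d2.sin.div d3 hne
    have d5 := (((hasDerivAt_const s (1 : ℝ)).div d3 hne).const_mul τ)
    refine ((d1.sub d4).sub d5).congr_deriv ?_
    have h1 : Real.cos (2 * Real.pi * j * s) = 1 - 2 * Real.sin (Real.pi * j * s) ^ 2 := by
      rw [show 2 * Real.pi * j * s = 2 * (Real.pi * j * s) by ring, Real.cos_two_mul]
      have := Real.sin_sq_add_cos_sq (Real.pi * j * s)
      linarith
    rw [h1]
    field_simp
    ring
  have hc1 : ContinuousOn (fun s : ℝ => Real.sin (Real.pi * j * s) ^ 2 / s)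
      (Set.uIcc (1 / (j : ℝ)) 1) :=
    ContinuousOn.div (by fun_prop) continuousOn_id hpos
  have hc2 : ∀ τ : ℝ, ContinuousOn (fun s : ℝ => Real.sin (Real.pi * j * s) ^ 2 / s +
      (Real.sin (2 * Real.pi * j * s) + τ) / (4 * Real.pi * j * s ^ 2))
      (Set.uIcc (1 / (j : ℝ)) 1) := by
    intro τ
    refine hc1.add (ContinuousOn.div (by fun_prop) (by fun_prop) ?_)
    intro s hs
    have := hpos s hs
    positivity
  have hint : ∀ τ : ℝ, ∫ s in (1 / (j : ℝ))..1, (Real.sin (Real.pi * j * s) ^ 2 / s +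
      (Real.sin (2 * Real.pi * j * s) + τ) / (4 * Real.pi * j * s ^ 2)) =
      1 / 2 * Real.log j + τ * (1 / (4 * Real.pi) - 1 / (4 * Real.pi * j)) := by
    intro τ
    rw [intervalIntegral.integral_eq_sub_of_hasDerivAt (hd τ) (hc2 τ).intervalIntegrable]
    have e1 : Real.sin (2 * Real.pi * j * 1) = 0 := by
      have := Real.sin_nat_mul_pi (2 * j)
      push_cast at this
      rw [← this]
      congr 1
      ring
    have e2 : Real.sin (2 * Real.pi * j * (1 / j)) = 0 := by
      rw [show 2 * Real.pi * (j : ℝ) * (1 / j) = 2 * Real.pi by field_simp, Real.sin_two_pi]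
    rw [e1, e2, Real.log_one, one_div (j : ℝ), Real.log_inv]
    field_simp
    ring
  have hbd : 0 ≤ 1 / (4 * Real.pi) - 1 / (4 * Real.pi * j) ∧
      1 / (4 * Real.pi) - 1 / (4 * Real.pi * j) ≤ 1 := by
    constructor
    · rw [sub_nonneg]
      apply one_div_le_one_div_of_le (by positivity)
      nlinarith
    · have h1 : 1 / (4 * Real.pi) ≤ 1 := by
        rw [div_le_one (by positivity)]
        linarith
      have h2 : 0 ≤ 1 / (4 * Real.pi * j) := by positivity
      linarith
  have up : ∫ s in (1 / (j : ℝ))..1, Real.sin (Real.pi * j * s) ^ 2 / s ≤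
      ∫ s in (1 / (j : ℝ))..1, (Real.sin (Real.pi * j * s) ^ 2 / s +
      (Real.sin (2 * Real.pi * j * s) + 1) / (4 * Real.pi * j * s ^ 2)) := by
    apply intervalIntegral.integral_mono_on hle hc1.intervalIntegrable (hc2 1).intervalIntegrable
    intro s hs
    have h2 : 0 ≤ (Real.sin (2 * Real.pi * j * s) + 1) / (4 * Real.pi * j * s ^ 2) := by
      apply div_nonneg
      · linarith [Real.neg_one_le_sin (2 * Real.pi * j * s)]
      · positivity
    linarith
  have lo : ∫ s in (1 / (j : ℝ))..1, (Real.sin (Real.pi * j * s) ^ 2 / s +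
      (Real.sin (2 * Real.pi * j * s) + (-1)) / (4 * Real.pi * j * s ^ 2)) ≤
      ∫ s in (1 / (j : ℝ))..1, Real.sin (Real.pi * j * s) ^ 2 / s := by
    apply intervalIntegral.integral_mono_on hle (hc2 (-1)).intervalIntegrable hc1.intervalIntegrable
    intro s hs
    have h2 : (Real.sin (2 * Real.pi * j * s) + (-1)) / (4 * Real.pi * j * s ^ 2) ≤ 0 := by
      apply div_nonpos_of_nonpos_of_nonneg
      · linarith [Real.sin_le_one (2 * Real.pi * j * s)]
      · positivity
    linarith
  rw [hint] at up lo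
  rw [abs_le]
  constructor <;> linarith [hbd.1, hbd.2]

/-- **the variance of the extremal weight** -/
theorem var_sel {S : Finset ℕ} {j : ℕ} {σ : ℝ} (hσ : |σ| ≤ 1) (h : Ker S j σ)
    (hS : S.card ≤ j + 1) (hj : 1 ≤ j) {b : ℝ} (hb : 0 < b) (hb1 : b ≤ 1 / 2) :
    |var (sc (Gs S j b) b) - 2 / Real.pi ^ 2 * Real.log j| ≤ 300 := by
  have hpi := Real.pi_gt_three
  have hj0 : (0 : ℝ) < j := by exact_mod_cast hj
  have hj1 : (1 : ℝ) ≤ j := by exact_mod_cast hj
  have hle : 1 / (j : ℝ) ≤ 1 := by rw [div_le_one hj0]; exact hj1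
  have hj00 : 0 < 1 / (j : ℝ) := by positivity
  have hc : Continuous (hat S j) := (hat_contDiff S j).continuous
  rw [var_sc (Gs_cont S j b) (Gs_one S j b) hb hb1]
  have e1 : b ^ 2 * ∫ s in (0 : ℝ)..1, s * Gs S j b s ^ 2 = 4 * ∫ s in (0 : ℝ)..1, s * hat S j s ^ 2 := by
    rw [← intervalIntegral.integral_const_mul, ← intervalIntegral.integral_const_mul]
    apply intervalIntegral.integral_congr
    intro s _
    unfold Gs
    field_simp
    ring
  rw [e1]
  have hcs : Continuous fun s : ℝ => s * hat S j s ^ 2 := by fun_prop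
  have e2 : ∫ s in (0 : ℝ)..1, s * hat S j s ^ 2 = (∫ s in (0 : ℝ)..(1 / (j : ℝ)), s * hat S j s ^ 2) +
      ∫ s in (1 / (j : ℝ))..1, s * hat S j s ^ 2 :=
    (intervalIntegral.integral_add_adjacent_intervals (hcs.intervalIntegrable _ _)
      (hcs.intervalIntegrable _ _)).symm
  -- the first piece
  have p1 : 0 ≤ ∫ s in (0 : ℝ)..(1 / (j : ℝ)), s * hat S j s ^ 2 :=
    intervalIntegral.integral_nonneg hj00.le fun s hs => mul_nonneg hs.1 (sq_nonneg _)
  have p2 : ∫ s in (0 : ℝ)..(1 / (j : ℝ)), s * hat S j s ^ 2 ≤ 9 := by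
    have h2 : ∫ s in (0 : ℝ)..(1 / (j : ℝ)), s * hat S j s ^ 2 ≤
        ∫ _s in (0 : ℝ)..(1 / (j : ℝ)), (1 / (j : ℝ)) * (j + 2) ^ 2 := by
      apply intervalIntegral.integral_mono_on hj00.le (hcs.intervalIntegrable _ _)
        intervalIntegrable_const
      intro s hs
      have h3 : hat S j s ^ 2 ≤ (j + 2) ^ 2 := by
        rw [← sq_abs]
        exact pow_le_pow_left₀ (abs_nonneg _) (hat_abs hS hs.1 (hs.2.trans hle)) 2
      exact mul_le_mul hs.2 h3 (sq_nonneg _) hj00.le
    refine h2.trans ?_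
    rw [intervalIntegral.integral_const, smul_eq_mul, sub_zero]
    have h3 : 1 / (j : ℝ) * (1 / (j : ℝ) * (j + 2) ^ 2) = ((j + 2) / j) ^ 2 := by
      field_simp
    rw [h3]
    have h4 : (j + 2) / (j : ℝ) ≤ 3 := by
      rw [div_le_iff₀ hj0]
      linarith
    have h5 : 0 ≤ (j + 2) / (j : ℝ) := by positivity
    nlinarith
  -- the second piece
  have hpos : ∀ s ∈ Set.uIcc (1 / (j : ℝ)) 1, s ≠ 0 := by
    intro s hs
    rw [Set.uIcc_of_le hle] at hs
    linarith [hs.1]
  have hc1 : ContinuousOn (fun s : ℝ => Real.sin (Real.pi * j * s) ^ 2 / s)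
      (Set.uIcc (1 / (j : ℝ)) 1) :=
    ContinuousOn.div (by fun_prop) continuousOn_id hpos
  have p3 : |(∫ s in (1 / (j : ℝ))..1, s * hat S j s ^ 2) - 1 / Real.pi ^ 2 *
      ∫ s in (1 / (j : ℝ))..1, Real.sin (Real.pi * j * s) ^ 2 / s| ≤ 63 := by
    rw [← intervalIntegral.integral_const_mul, ← intervalIntegral.integral_sub
      (hcs.intervalIntegrable _ _) (hc1.intervalIntegrable.const_mul _)]
    have h2 := intervalIntegral.norm_integral_le_of_norm_le_const (a := 1 / (j : ℝ)) (b := 1)
      (C := 63) (f := fun s => s * hat S j s ^ 2 - 1 / Real.pi ^ 2 *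
        (Real.sin (Real.pi * j * s) ^ 2 / s)) (by
      intro s hs
      rw [Set.uIoc_of_le hle] at hs
      have hs0 : 0 < s := hj00.trans hs.1
      have h3 := hat_close hσ h hs0 hs.2
      set a := Real.sin (Real.pi * j * s) / (Real.pi * s) with ha
      set d := hat S j s - a with hd
      have e3 : hat S j s = a + d := by rw [hd]; ring
      have e4 : s * hat S j s ^ 2 - 1 / Real.pi ^ 2 * (Real.sin (Real.pi * j * s) ^ 2 / s) =
          s * d ^ 2 + 2 * (1 / Real.pi * Real.sin (Real.pi * j * s)) * d := by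
        rw [e3, ha]
        field_simp
        ring
      rw [e4, Real.norm_eq_abs]
      have b1 : |s * d ^ 2| ≤ 49 := by
        rw [abs_of_nonneg (by positivity), ← sq_abs]
        have : |d| ^ 2 ≤ 7 ^ 2 := pow_le_pow_left₀ (abs_nonneg _) h3 2
        nlinarith [sq_nonneg |d|, hs.2]
      have b2 : |2 * (1 / Real.pi * Real.sin (Real.pi * j * s)) * d| ≤ 2 * (1 * 1) * 7 := by
        rw [abs_mul, abs_mul, abs_mul]
        have h5 : |1 / Real.pi| ≤ 1 := by
          rw [abs_of_pos (by positivity), div_le_one (by positivity)]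
          linarith
        have h6 := Real.abs_sin_le_one (Real.pi * j * s)
        have h7 : |(2 : ℝ)| = 2 := abs_two
        rw [h7]
        gcongr
      have := abs_add_le (s * d ^ 2) (2 * (1 / Real.pi * Real.sin (Real.pi * j * s)) * d)
      linarith)
    rw [Real.norm_eq_abs] at h2
    refine h2.trans ?_
    rw [abs_of_nonneg (by linarith)]
    linarith
  have p4 := int_main hj
  set I1 := ∫ s in (0 : ℝ)..(1 / (j : ℝ)), s * hat S j s ^ 2 with hI1
  set I2 := ∫ s in (1 / (j : ℝ))..1, s * hat S j s ^ 2 with hI2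
  set I3 := ∫ s in (1 / (j : ℝ))..1, Real.sin (Real.pi * j * s) ^ 2 / s with hI3
  rw [e2]
  have hp2 : 1 / Real.pi ^ 2 ≤ 1 / 9 := by
    apply one_div_le_one_div_of_le (by norm_num)
    nlinarith
  have hp0 : 0 < 1 / Real.pi ^ 2 := by positivity
  rw [abs_le] at p3 p4 ⊢
  have q1 : 1 / Real.pi ^ 2 * (I3 - 1 / 2 * Real.log j) ≤ 1 := by nlinarith [p4.1, p4.2]
  have q2 : -1 ≤ 1 / Real.pi ^ 2 * (I3 - 1 / 2 * Real.log j) := by nlinarith [p4.1, p4.2]
  have q3 : 2 / Real.pi ^ 2 * Real.log j = 4 * (1 / Real.pi ^ 2 * (1 / 2 * Real.log j)) := by ring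
  rw [q3]
  rw [mul_sub] at q1 q2
  constructor <;> linarith [p3.1, p3.2]

end Pool.Agent.T9h26.TD
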