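import Pool.Agent.T9h26.TD.Zj

set_option autoImplicit false

/-! The number of large values of the field: the second moment method. -/

open Complex Filter Topology Set MeasureTheory

namespace Pool.Agent.T9h26.TD

/-- the second moment method, version with the number of large values -/
lemma pzc {T : ℝ} (hT : 0 ≤ T) (S : Finset ℕ) (G l : ℕ → ℝ → ℝ) (q : ℕ → ℕ → ℝ → ℝ)
    (hl : ∀ c ∈ S, Continuous (l c)) (hq : ∀ c ∈ S, ∀ c' ∈ S, Continuous (q c c'))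
    (h1 : ∀ c ∈ S, ∀ t, l c t ≤ G c t)
    (h2 : ∀ c ∈ S, ∀ c' ∈ S, ∀ t, G c t * G c' t ≤ q c c' t) {μ : ℝ} (hμ : 0 < μ) :
    μ ^ 2 * ms T {t | ∑ c ∈ S, G c t ≤ μ / 2} ≤ 4 * ((∑ c ∈ S, ∑ c' ∈ S, ∫ t in T..(2 * T), q c c' t) -
      2 * μ * (∑ c ∈ S, ∫ t in T..(2 * T), l c t) + μ ^ 2 * T) := by
  set Ψ : ℝ → ℝ := fun t => (∑ c ∈ S, ∑ c' ∈ S, q c c' t) - 2 * μ * (∑ c ∈ S, l c t) + μ ^ 2 with hΨ
  have hQc : Continuous fun t => ∑ c ∈ S, ∑ c' ∈ S, q c c' t := by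
    apply continuous_finsetSum
    intro c hc
    apply continuous_finsetSum
    intro c' hc'
    exact hq c hc c' hc'
  have hLc : Continuous fun t => ∑ c ∈ S, l c t := continuous_finsetSum _ fun c hc => hl c hc
  have hΨc : Continuous Ψ := (hQc.sub (continuous_const.mul hLc)).add continuous_const
  have key : ∀ t, ((∑ c ∈ S, G c t) - μ) ^ 2 ≤ Ψ t := by
    intro t
    have e1 : (∑ c ∈ S, G c t) * (∑ c ∈ S, G c t) ≤ ∑ c ∈ S, ∑ c' ∈ S, q c c' t := by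
      rw [Finset.sum_mul_sum]
      apply Finset.sum_le_sum
      intro c hc
      apply Finset.sum_le_sum
      intro c' hc'
      exact h2 c hc c' hc' t
    have e2 : ∑ c ∈ S, l c t ≤ ∑ c ∈ S, G c t := Finset.sum_le_sum fun c hc => h1 c hc t
    have e3 : μ * ∑ c ∈ S, l c t ≤ μ * ∑ c ∈ S, G c t := mul_le_mul_of_nonneg_left e2 hμ.le
    rw [hΨ]
    simp only
    nlinarith
  have hΨ0 : ∀ t, 0 ≤ Ψ t := fun t => (sq_nonneg _).trans (key t)
  have hm := ms_markov hT hΨc hΨ0 (c := μ ^ 2 / 4)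
  have hsub : ms T {t | ∑ c ∈ S, G c t ≤ μ / 2} ≤ ms T {t | μ ^ 2 / 4 ≤ Ψ t} := by
    apply ms_mono
    intro t _ _ ht
    have h3 := key t
    have h4 : ∑ c ∈ S, G c t ≤ μ / 2 := ht
    show μ ^ 2 / 4 ≤ Ψ t
    nlinarith
  have hc2 : Continuous fun t => 2 * μ * (∑ c ∈ S, l c t) := continuous_const.mul hLc
  have hc1 : Continuous fun t => (∑ c ∈ S, ∑ c' ∈ S, q c c' t) - 2 * μ * (∑ c ∈ S, l c t) :=
    hQc.sub hc2
  have i1 : ∫ t in T..(2 * T), ∑ c ∈ S, ∑ c' ∈ S, q c c' t =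
      ∑ c ∈ S, ∑ c' ∈ S, ∫ t in T..(2 * T), q c c' t := by
    rw [intervalIntegral.integral_finsetSum]
    · apply Finset.sum_congr rfl
      intro c hc
      rw [intervalIntegral.integral_finsetSum]
      intro c' hc'
      exact (hq c hc c' hc').intervalIntegrable _ _
    · intro c hc
      exact (continuous_finsetSum _ fun c' hc' => hq c hc c' hc').intervalIntegrable _ _
  have i2 : ∫ t in T..(2 * T), ∑ c ∈ S, l c t = ∑ c ∈ S, ∫ t in T..(2 * T), l c t := by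
    rw [intervalIntegral.integral_finsetSum]
    intro c hc
    exact (hl c hc).intervalIntegrable _ _
  have hint : ∫ t in T..(2 * T), Ψ t = (∑ c ∈ S, ∑ c' ∈ S, ∫ t in T..(2 * T), q c c' t) -
      2 * μ * (∑ c ∈ S, ∫ t in T..(2 * T), l c t) + μ ^ 2 * T := by
    have e : ∫ t in T..(2 * T), Ψ t = ∫ t in T..(2 * T),
        ((∑ c ∈ S, ∑ c' ∈ S, q c c' t) - 2 * μ * (∑ c ∈ S, l c t) + μ ^ 2) := rfl
    rw [e, intervalIntegral.integral_add (hc1.intervalIntegrable _ _) intervalIntegrable_const,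
      intervalIntegral.integral_sub (hQc.intervalIntegrable _ _) (hc2.intervalIntegrable _ _),
      intervalIntegral.integral_const_mul, intervalIntegral.integral_const, smul_eq_mul, i1, i2]
    ring
  rw [← hint]
  have h5 := mul_le_mul_of_nonneg_left hsub (by positivity : 0 ≤ μ ^ 2 / 4)
  linarith


section

variable {κ : ℂ} {a0 D R s τ H : ℝ} {K J : ℕ}

/-- **the second moment method for the field**, version with the number of large values -/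
theorem secc (h0 : 0 < a0) (hD : 1 ≤ D) (hb1 : 2 * a0 ≤ 1 / 2) (hJ : (J : ℝ) * (2 * a0) < 1)
    (hR : 0 < R) (hA : 0 < ‖κ‖ ^ 2 * ipf (bp a0 D K) (bp a0 D K)) (hs : 0 < s) (hs1 : s ≤ 1)
    (hJ1 : 40 * ((K + 1) * R) ≤ J) (hd : (3 / 5 : ℝ) ^ J ≤ 1 / 10) (M : ℕ) (mm : ℕ → ℕ → ℕ)
    (hmm : ∀ c c', mm c c' ≤ K) {m0 Q : ℝ} (hm0 : 0 < m0)
    (hlow : m0 ≤ ((1 + (3 / 5 : ℝ) ^ J) ^ 2)⁻¹ *
      (SJ (‖κ‖ ^ 2 * ipf (bp a0 D K) (bp a0 D K)) J - BB κ a0 D R s τ H K J))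
    (hQ : ∑ c ∈ Finset.range (M + 1), ∑ c' ∈ Finset.range (M + 1),
      (1 - (3 / 5 : ℝ) ^ J)⁻¹ ^ 2 * Real.exp (2 * τ * (K - mm c c')) *
        Real.exp (VV κ a0 D K (mm c c') ((c : ℝ) - c')) ≤ Q) {η : ℝ} (hη : 0 < η) :
    ∀ᶠ T : ℝ in atTop, ms T {t | ∑ c ∈ Finset.range (M + 1), Gf K R τ H (PZ (fW κ (bp a0 D K) c) T t)
      (fun l => PZ (fW κ (bl a0 D l) c) T t) ≤ (M + 1) * m0 / 2} ≤
      4 * (Q / ((M + 1) * m0) ^ 2 - 1 + η) * T := by
  set d : ℝ := (3 / 5) ^ J with hdd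
  have hd0 : 0 < d := by positivity
  set μ := ((M : ℝ) + 1) * m0 with hμ
  have hμ0 : 0 < μ := by positivity
  set S := Finset.range (M + 1) with hS
  set r := ((1 + d) ^ 2)⁻¹ with hr
  have hr0 : 0 ≤ r := by positivity
  have hR1 : 40 * R ≤ J := by
    refine le_trans ?_ hJ1
    have : (1 : ℝ) * R ≤ (K + 1) * R := by
      apply mul_le_mul_of_nonneg_right _ hR.le
      have : (0 : ℝ) ≤ K := Nat.cast_nonneg K
      linarith
    linarith
  have hR2 : 20 * ((K + 1) * R) ≤ J := by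
    have : 0 ≤ ((K : ℝ) + 1) * R := by positivity
    linarith
  -- means
  have hL : LM (fun T t => ∑ c ∈ S, r * (‖EJ (PZ (fW κ (bp a0 D K) c) T t) J‖ ^ 2 -
      Bd K J R s τ H (PZ (fW κ (bp a0 D K) c) T t) (fun l => PZ (fW κ (bl a0 D l) c) T t)))
      (∑ _c ∈ S, m0) := by
    apply LM.sum
    intro c _
    exact (LM_low h0 hD hb1 hJ hR hA hr0 (c : ℝ)).mono hlow
  have hU : UM (fun T t => ∑ c ∈ S, ∑ c' ∈ S, ((1 - d)⁻¹ ^ 2 * Real.exp (2 * τ * (K - mm c c'))) *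
      ‖EJ (PZ (fW κ (bp a0 D K) c) T t +
      ∑ l ∈ Finset.range (mm c c'), PZ (fW κ (bl a0 D l) c') T t) J‖ ^ 2) Q := by
    refine UM.mono ?_ hQ
    apply UM.sum
    intro c _
    apply UM.sum
    intro c' _
    exact UM_pair h0 hD hb1 hJ (by positivity) _ _ _
  have hsumm : ∑ _c ∈ S, m0 = μ := by
    rw [Finset.sum_const, hS, Finset.card_range, nsmul_eq_mul, hμ]
    push_cast
    ring
  rw [hsumm] at hL
  set η' := η * μ ^ 2 / (1 + 2 * μ) with hη'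
  have hη0 : 0 < η' := by positivity
  filter_upwards [hL.2 η' hη0, hU.2 η' hη0, eventually_gt_atTop 0] with T h1 h2 hT
  have key := pzc hT.le S (fun c t => Gf K R τ H (PZ (fW κ (bp a0 D K) c) T t)
      (fun l => PZ (fW κ (bl a0 D l) c) T t))
    (fun c t => r * (‖EJ (PZ (fW κ (bp a0 D K) c) T t) J‖ ^ 2 -
      Bd K J R s τ H (PZ (fW κ (bp a0 D K) c) T t) (fun l => PZ (fW κ (bl a0 D l) c) T t)))
    (fun c c' t => ((1 - d)⁻¹ ^ 2 * Real.exp (2 * τ * (K - mm c c'))) *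
      ‖EJ (PZ (fW κ (bp a0 D K) c) T t +
      ∑ l ∈ Finset.range (mm c c'), PZ (fW κ (bl a0 D l) c') T t) J‖ ^ 2)
    (fun c _ => (LM_low h0 hD hb1 hJ hR hA hr0 (c : ℝ)).1 T)
    (fun c _ c' _ => (UM_pair h0 hD hb1 hJ (by positivity) _ _ _).1 T)
    (fun c _ t => by
      have h3 := pt_lower (K := K) (H := H) (τ := τ) hR hs hs1 hR1 hd (PZ (fW κ (bp a0 D K) c) T t)
        (fun l => PZ (fW κ (bl a0 D l) c) T t)
      rw [← hdd] at h3
      rw [hr, inv_mul_le_iff₀ (by positivity)]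
      exact h3)
    (fun c _ c' _ t => by
      have h3 := pt_pair (H := H) (τ := τ) (hmm c c') hR2 hd (PZ (fW κ (bp a0 D K) c) T t)
        (PZ (fW κ (bp a0 D K) c') T t) (fun l => PZ (fW κ (bl a0 D l) c) T t)
        (fun l => PZ (fW κ (bl a0 D l) c') T t) (fW_sum κ a0 D K c' T t)
      rwa [← hdd] at h3) hμ0
  set Bd1 := ms T {t | ∑ c ∈ S, Gf K R τ H (PZ (fW κ (bp a0 D K) c) T t)
      (fun l => PZ (fW κ (bl a0 D l) c) T t) ≤ μ / 2} with hBd1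
  have i1 : ∫ t in T..(2 * T), ∑ c ∈ S, ∑ c' ∈ S,
      ((1 - d)⁻¹ ^ 2 * Real.exp (2 * τ * (K - mm c c'))) *
      ‖EJ (PZ (fW κ (bp a0 D K) c) T t +
      ∑ l ∈ Finset.range (mm c c'), PZ (fW κ (bl a0 D l) c') T t) J‖ ^ 2 =
      ∑ c ∈ S, ∑ c' ∈ S, ∫ t in T..(2 * T), ((1 - d)⁻¹ ^ 2 * Real.exp (2 * τ * (K - mm c c'))) *
      ‖EJ (PZ (fW κ (bp a0 D K) c) T t +
      ∑ l ∈ Finset.range (mm c c'), PZ (fW κ (bl a0 D l) c') T t) J‖ ^ 2 := by
    rw [intervalIntegral.integral_finsetSum]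
    · apply Finset.sum_congr rfl
      intro c _
      rw [intervalIntegral.integral_finsetSum]
      intro c' _
      exact ((UM_pair h0 hD hb1 hJ (by positivity) _ _ _).1 T).intervalIntegrable _ _
    · intro c _
      exact (continuous_finsetSum _ fun c' _ =>
        (UM_pair h0 hD hb1 hJ (by positivity) _ _ _).1 T).intervalIntegrable _ _
  have i2 : ∫ t in T..(2 * T), ∑ c ∈ S, r * (‖EJ (PZ (fW κ (bp a0 D K) c) T t) J‖ ^ 2 -
      Bd K J R s τ H (PZ (fW κ (bp a0 D K) c) T t) (fun l => PZ (fW κ (bl a0 D l) c) T t)) =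
      ∑ c ∈ S, ∫ t in T..(2 * T), r * (‖EJ (PZ (fW κ (bp a0 D K) c) T t) J‖ ^ 2 -
      Bd K J R s τ H (PZ (fW κ (bp a0 D K) c) T t) (fun l => PZ (fW κ (bl a0 D l) c) T t)) := by
    rw [intervalIntegral.integral_finsetSum]
    intro c _
    exact ((LM_low h0 hD hb1 hJ hR hA hr0 (c : ℝ)).1 T).intervalIntegrable _ _
  rw [i1] at h2
  rw [i2] at h1
  have h5 : 2 * μ * ((μ - η') * T) ≤ 2 * μ * ∑ c ∈ S, ∫ t in T..(2 * T),
      r * (‖EJ (PZ (fW κ (bp a0 D K) c) T t) J‖ ^ 2 -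
      Bd K J R s τ H (PZ (fW κ (bp a0 D K) c) T t) (fun l => PZ (fW κ (bl a0 D l) c) T t)) :=
    mul_le_mul_of_nonneg_left h1 (by positivity)
  have h6 : μ ^ 2 * Bd1 ≤ 4 * ((Q + η') * T - 2 * μ * ((μ - η') * T) + μ ^ 2 * T) := by
    refine key.trans ?_
    linarith
  have h7 : (Q + η') * T - 2 * μ * ((μ - η') * T) + μ ^ 2 * T =
      μ ^ 2 * ((Q / μ ^ 2 - 1 + η) * T) := by
    have h8 : η' * (1 + 2 * μ) = η * μ ^ 2 := by
      rw [hη']
      field_simp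
    have h9 : μ ^ 2 * ((Q / μ ^ 2 - 1 + η) * T) = (Q - μ ^ 2 + η * μ ^ 2) * T := by
      field_simp
    rw [h9, ← h8]
    ring
  rw [h7] at h6
  have h10 : 4 * (μ ^ 2 * ((Q / μ ^ 2 - 1 + η) * T)) = μ ^ 2 * (4 * (Q / μ ^ 2 - 1 + η) * T) := by
    ring
  rw [h10] at h6
  exact le_of_mul_le_mul_left h6 (by positivity)


end

end Pool.Agent.T9h26.TD
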