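import Pool.Agent.T9h26.TD.Ta

set_option autoImplicit false

/-! The number of large values of the field: lower bound. -/

open Complex Filter Topology Set MeasureTheory

namespace Pool.Agent.T9h26.TD

open Classical in
/-- the sum of the weights is controlled by the number of large values -/
lemma sum_Gf {K M : ℕ} {R τ H : ℝ} (hτ : 0 ≤ τ) (Y : ℕ → ℂ) (y : ℕ → ℕ → ℂ)
    (hY : ∀ c, Y c = ∑ l ∈ Finset.range K, y c l) :
    ∑ c ∈ Finset.range (M + 1), Gf K R τ H (Y c) (y c) ≤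
      (((Finset.range (M + 1)).filter (fun c => H ≤ (Y c).re)).card : ℝ) * Real.exp (2 * (K * τ)) := by
  classical
  have h1 : ∀ c ∈ Finset.range (M + 1), Gf K R τ H (Y c) (y c) ≤
      if H ≤ (Y c).re then Real.exp (2 * (K * τ)) else 0 := by
    intro c _
    by_cases h : H ≤ (Y c).re
    · rw [if_pos h]
      unfold Gf
      split_ifs with hOm
      · apply Real.exp_le_exp.2
        have h2 : (Y c).re ≤ K * τ := by
          rw [hY c, Complex.re_sum]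
          calc ∑ l ∈ Finset.range K, (y c l).re ≤ ∑ _l ∈ Finset.range K, τ := by
                apply Finset.sum_le_sum
                intro l hl
                rw [Finset.mem_range] at hl
                exact (hOm.2.1 l hl).2
            _ = K * τ := by rw [Finset.sum_const, Finset.card_range, nsmul_eq_mul]
        linarith
      · exact (Real.exp_pos _).le
    · rw [if_neg h, Gf_zero h]
  refine (Finset.sum_le_sum h1).trans (le_of_eq ?_)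
  rw [← Finset.sum_filter, Finset.sum_const, nsmul_eq_mul]

open Classical in
/-- **the number of large values of the field** -/
theorem fldc {ε : ℝ} (hε : 0 < ε) (hε1 : ε ≤ 1 / 10) {K : ℕ} (hK : 1 ≤ K) {Λ : ℝ} (hΛ : 0 < Λ)
    (hΛε : Λ * (1 + 4 * ε) ≤ 1) :
    ∃ M0 : ℕ, 2 ≤ M0 ∧ ∀ M : ℕ, M0 ≤ M → ∀ κ : ℂ, ‖κ‖ ^ 2 = Λ →
      ∀ᶠ T : ℝ in atTop, ms T {t | (((Finset.range (M + 1)).filter (fun c : ℕ =>
        (1 - ε) * (Λ * (K / (K + 4) * Real.log M - 1)) ≤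
          (PZ (fW κ (bp (ap K (Real.log M)) (Dp K (Real.log M)) K) c) T t).re)).card : ℝ) <
            Real.exp ((1 - Λ - 5 * ε) * Real.log M)} ≤ 24 * ε * T := by
  have hK0 : (1 : ℝ) ≤ K := by exact_mod_cast hK
  have hΛ1 : Λ ≤ 1 := by nlinarith
  have hδ : 0 < ε / 40 := by positivity
  have hc3 : 0 < 3 * ε ^ 2 * Λ / ((K : ℝ) + 4) := by positivity
  have hc4 : 0 < ε ^ 2 * Λ * (K / ((K : ℝ) + 4)) := by positivity
  have hc6 : 0 < 1 / ((K : ℝ) + 4) := by positivity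
  have hc7 : 0 < 2 / ((K : ℝ) + 4) := by positivity
  have ev : ∀ᶠ ℓ : ℝ in atTop, (((K : ℝ) + 4 ≤ ℓ ∧ 1 * (ℓ ^ 0 * Real.exp (-(1 / 2 * ℓ))) ≤ ε / 40) ∧
      (((K : ℝ) + 1) * (ℓ ^ 0 * Real.exp (-(1 * ℓ))) ≤ ε / 40 ∧
      (2 * (K : ℝ) * Real.exp 1) * (ℓ ^ 0 * Real.exp (-(3 * ε ^ 2 * Λ / ((K : ℝ) + 4) * ℓ))) ≤
        ε / 40)) ∧
      (((2 * Real.exp 1) * (ℓ ^ 0 * Real.exp (-(ε ^ 2 * Λ * (K / ((K : ℝ) + 4)) * ℓ))) ≤ ε / 40 ∧
      9 * (ℓ ^ 0 * Real.exp (-(1 / ((K : ℝ) + 4) * ℓ))) ≤ ε / 8) ∧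
      ((12 * Real.exp 6 * (4 * ((10 : ℝ) ^ 5 * ((K : ℝ) + 1) ^ 2 + 1))) *
        (ℓ ^ 2 * Real.exp (-(2 / ((K : ℝ) + 4) * ℓ))) ≤ ε / 2 ∧ 2 / ε ≤ ℓ)) :=
    (((eventually_ge_atTop _).and (evs _ 0 (by norm_num) hδ)).and
      ((evs _ 0 (by norm_num) hδ).and (evs _ 0 hc3 hδ))).and
      (((evs _ 0 hc4 hδ).and (evs _ 0 hc6 (by positivity))).and
      ((evs _ 2 hc7 (by positivity)).and (eventually_ge_atTop _)))
  have ht : Tendsto (fun M : ℕ => Real.log M) atTop atTop :=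
    Real.tendsto_log_atTop.comp tendsto_natCast_atTop_atTop
  obtain ⟨M0, hM0⟩ := eventually_atTop.1 (ht.eventually ev)
  refine ⟨max 2 M0, le_max_left _ _, fun M hM κ hκ => ?_⟩
  obtain ⟨⟨⟨hℓ, E1⟩, E2, E3⟩, ⟨E4, E6⟩, E7, E8⟩ := hM0 M ((le_max_right _ _).trans hM)
  have hM2 : 2 ≤ M := (le_max_left _ _).trans hM
  have hMr : (2 : ℝ) ≤ M := by exact_mod_cast hM2
  have hMexp : (M : ℝ) = Real.exp (Real.log M) := (Real.exp_log (by linarith)).symm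
  generalize hℓM : Real.log M = ℓ at *
  rw [pow_zero, one_mul] at E1 E2 E3 E4 E6
  rw [one_mul] at E1 E2
  rw [div_le_iff₀ hε] at E8
  have hpo := po hK hℓ
  have hℓ1 : 1 ≤ ℓ := by linarith
  obtain ⟨hJ1, hJ2, hJ3, hJ4⟩ := Jp_ge (K := K) hℓ1
  obtain ⟨A, hA⟩ : ∃ A, ipf (bp (ap K ℓ) (Dp K ℓ) K) (bp (ap K ℓ) (Dp K ℓ) K) = A := ⟨_, rfl⟩
  have hA0 : 0 < A := hA ▸ hpo.A0
  have hAlo := hpo.Alo
  rw [hA] at hAlo
  have hd1 : (3 / 5 : ℝ) ^ (Jp K ℓ) ≤ ε / 40 := by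
    have h1 := three_fifths (Jp K ℓ)
    refine h1.trans (le_trans ?_ E1)
    apply Real.exp_le_exp.2
    linarith
  have hm0 : 0 < (1 - ε / 2) * Real.exp (Λ * A) := mul_pos (by linarith) (Real.exp_pos _)
  have hlow := first hε hε1 hK hℓ hκ hΛ hΛ1 hA E1 E2 E3 E4
  have hsec := second hε hε1 hK hM2 hℓM.symm hℓ hκ hΛ hΛ1 hΛε (by positivity) hd1 hA E6 E7
  have hD2 := hpo.D2
  have hlD := hpo.lD
  have key := secc (κ := κ) (s := ε) (τ := (1 + 2 * ε) * Λ * Real.log (Dp K ℓ))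
    (H := (1 - ε) * (Λ * A)) hpo.a0 (by linarith)
    hpo.a1 hpo.Ja hpo.R0 (by rw [hκ, hA]; positivity) hε (by linarith) hpo.JR (by linarith) M
    (fun c c' => Nat.findGreatest (fun m => Dp K ℓ ≤ |(c : ℝ) - c'| * aa (ap K ℓ) (Dp K ℓ) m) K)
    (fun c c' => Nat.findGreatest_le K) hm0 (by rw [hκ, hA]; exact hlow) hsec hε
  have hl2 := log2_bd
  have hlamlo : Λ * (K / (K + 4) * ℓ - 1) ≤ Λ * A := by
    apply mul_le_mul_of_nonneg_left _ hΛ.le
    linarith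
  have hτ0 : 0 ≤ (1 + 2 * ε) * Λ * Real.log (Dp K ℓ) := by
    have : 0 ≤ Real.log (Dp K ℓ) := Real.log_nonneg (by linarith)
    positivity
  filter_upwards [key, eventually_gt_atTop 0] with T hT hT0
  -- the measure
  have h1 : ((M : ℝ) + 1) ^ 2 * Real.exp (2 * (Λ * A)) * (1 + ε) /
      (((M : ℝ) + 1) * ((1 - ε / 2) * Real.exp (Λ * A))) ^ 2 = (1 + ε) / (1 - ε / 2) ^ 2 := by
    have h2 : Real.exp (2 * (Λ * A)) = Real.exp (Λ * A) ^ 2 := by
      rw [← Real.exp_nat_mul]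
      norm_num
    have h3 : (1 - ε / 2) ≠ 0 := by
      have : 0 < 1 - ε / 2 := by linarith
      exact this.ne'
    rw [h2]
    field_simp
  rw [h1] at hT
  have h2 : (1 + ε) / (1 - ε / 2) ^ 2 ≤ 1 + 3 * ε := by
    rw [div_le_iff₀ (by
      have : 0 < 1 - ε / 2 := by linarith
      positivity)]
    nlinarith [mul_pos hε hε, mul_pos hε (mul_pos hε hε)]
  have h3 : 4 * ((1 + ε) / (1 - ε / 2) ^ 2 - 1 + ε) * T ≤ 24 * ε * T := by
    apply mul_le_mul_of_nonneg_right _ hT0.le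
    linarith
  refine le_trans (ms_mono fun t _ _ ht => ?_) (hT.trans h3)
  -- the number of large values
  show ∑ c ∈ Finset.range (M + 1), Gf K (Rp K ℓ) ((1 + 2 * ε) * Λ * Real.log (Dp K ℓ))
    ((1 - ε) * (Λ * A)) (PZ (fW κ (bp (ap K ℓ) (Dp K ℓ) K) c) T t)
      (fun l => PZ (fW κ (bl (ap K ℓ) (Dp K ℓ) l) c) T t) ≤
      ((M : ℝ) + 1) * ((1 - ε / 2) * Real.exp (Λ * A)) / 2
  have h4 := sum_Gf (K := K) (M := M) (R := Rp K ℓ) (H := (1 - ε) * (Λ * A)) hτ0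
    (fun c => PZ (fW κ (bp (ap K ℓ) (Dp K ℓ) K) c) T t)
    (fun c l => PZ (fW κ (bl (ap K ℓ) (Dp K ℓ) l) c) T t)
    (fun c => fW_sum κ (ap K ℓ) (Dp K ℓ) K c T t)
  refine h4.trans ?_
  have ht' : (((Finset.range (M + 1)).filter (fun c : ℕ =>
        (1 - ε) * (Λ * (K / (K + 4) * ℓ - 1)) ≤
          (PZ (fW κ (bp (ap K ℓ) (Dp K ℓ) K) c) T t).re)).card : ℝ) <
            Real.exp ((1 - Λ - 5 * ε) * ℓ) := ht
  have h5 : (((Finset.range (M + 1)).filter (fun c : ℕ =>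
        (1 - ε) * (Λ * A) ≤ (PZ (fW κ (bp (ap K ℓ) (Dp K ℓ) K) c) T t).re)).card : ℝ) ≤
      (((Finset.range (M + 1)).filter (fun c : ℕ =>
        (1 - ε) * (Λ * (K / (K + 4) * ℓ - 1)) ≤
          (PZ (fW κ (bp (ap K ℓ) (Dp K ℓ) K) c) T t).re)).card : ℝ) := by
    have h6 : ((Finset.range (M + 1)).filter (fun c : ℕ =>
        (1 - ε) * (Λ * A) ≤ (PZ (fW κ (bp (ap K ℓ) (Dp K ℓ) K) c) T t).re)).card ≤
      ((Finset.range (M + 1)).filter (fun c : ℕ =>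
        (1 - ε) * (Λ * (K / (K + 4) * ℓ - 1)) ≤
          (PZ (fW κ (bp (ap K ℓ) (Dp K ℓ) K) c) T t).re)).card := by
      apply Finset.card_le_card
      intro c hc
      rw [Finset.mem_filter] at hc ⊢
      refine ⟨hc.1, le_trans ?_ hc.2⟩
      apply mul_le_mul_of_nonneg_left hlamlo
      linarith
    exact_mod_cast h6
  have h6 : Real.exp ((1 - Λ - 5 * ε) * ℓ) *
      Real.exp (2 * (K * ((1 + 2 * ε) * Λ * Real.log (Dp K ℓ)))) ≤
      ((M : ℝ) + 1) * ((1 - ε / 2) * Real.exp (Λ * A)) / 2 := by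
    have e1 : (K : ℝ) * ((1 + 2 * ε) * Λ * Real.log (Dp K ℓ)) =
        (1 + 2 * ε) * Λ * (K / (K + 4) * ℓ) := by
      rw [hlD]
      ring
    rw [e1]
    have hx : (K : ℝ) / (K + 4) * ℓ ≤ ℓ := by
      rw [div_mul_eq_mul_div, div_le_iff₀ (by positivity)]
      nlinarith
    have hx0 : 0 ≤ (K : ℝ) / (K + 4) * ℓ := by positivity
    have e2 : Real.exp ((1 - Λ - 5 * ε) * ℓ) *
      Real.exp (2 * ((1 + 2 * ε) * Λ * (K / (K + 4) * ℓ))) ≤
        Real.exp ℓ * Real.exp (Λ * A) * Real.exp (-1) := by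
      rw [← Real.exp_add, ← Real.exp_add, ← Real.exp_add]
      apply Real.exp_le_exp.2
      generalize (K : ℝ) / (K + 4) * ℓ = x at *
      have hA1 : Λ * (x - 1) ≤ Λ * A := hlamlo
      have hAA : Λ * (x - 0.7) ≤ Λ * A := by
        apply mul_le_mul_of_nonneg_left _ hΛ.le
        linarith
      have hΛx : Λ * x ≤ Λ * ℓ := mul_le_mul_of_nonneg_left hx hΛ.le
      have hεx : ε * (Λ * x) ≤ ε * ℓ := by
        apply mul_le_mul_of_nonneg_left _ hε.le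
        nlinarith
      have e3 : (1 - Λ - 5 * ε) * ℓ + 2 * ((1 + 2 * ε) * Λ * x) = ℓ - Λ * ℓ - 5 * (ε * ℓ) +
        2 * (Λ * x) + 4 * (ε * (Λ * x)) := by ring
      have e4 : ε * (Λ * x) ≤ ε * ℓ := hεx
      rw [e3]
      have e5 : Λ * (x - 0.7) = Λ * x - 0.7 * Λ := by ring
      rw [e5] at hAA
      linarith
    refine e2.trans ?_
    have e3 : Real.exp (-1) ≤ (1 - ε / 2) / 2 := by
      rw [Real.exp_neg, inv_le_comm₀ (Real.exp_pos _) (by linarith)]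
      have h7 := Real.exp_one_gt_d9
      have h8 : ((1 - ε / 2) / 2)⁻¹ ≤ 2.7 := by
        rw [inv_le_comm₀ (by linarith) (by norm_num)]
        linarith
      linarith
    rw [← hMexp]
    calc (M : ℝ) * Real.exp (Λ * A) * Real.exp (-1) ≤ M * Real.exp (Λ * A) * ((1 - ε / 2) / 2) := by
          gcongr
      _ ≤ (M + 1) * Real.exp (Λ * A) * ((1 - ε / 2) / 2) := by
          gcongr
          · linarith
          · linarith
      _ = _ := by ring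
  refine le_trans ?_ h6
  apply mul_le_mul_of_nonneg_right _ (Real.exp_pos _).le
  exact h5.trans ht'.le

end Pool.Agent.T9h26.TD
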