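import Pool.Agent.T9h26.TD.Tb

set_option autoImplicit false

/-! The block theorem with the numbers of large values. -/

open Complex Filter Topology Set MeasureTheory

namespace Pool.Agent.T9h26.TD

open TC (ordz ordT mu EFD)
open SG (ord NZ zmult ZS)
open W200.HW (Ix mem_Ix)
open Pool.Agent.Y747 (al)

open Classical in
/-- the number of large values, in terms of the discrepancy field -/
lemma fld_lo {ε : ℝ} {K M : ℕ} {ℓ θ : ℝ} {k J1 J4 : ℕ} (hε : 0 < ε) (hε1 : ε ≤ 1 / 10)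
    (hK4 : 4 ≤ ε * ((K : ℝ) + 4))
    (h : NP ε K M ℓ θ k J1 J4) {b : ℝ} (hb : 0 < b) (hb1 : Real.pi ^ 2 * b ^ 2 ≤ 1)
    (hM : ∀ κ : ℂ, ‖κ‖ ^ 2 = Real.pi ^ 2 * b ^ 2 →
      ∀ᶠ T : ℝ in atTop, ms T {t | (((Finset.range (M + 1)).filter (fun c : ℕ =>
        (1 - ε) * (Real.pi ^ 2 * b ^ 2 * (K / (K + 4) * ℓ - 1)) ≤
          (PZ (fW κ (bp (ap K ℓ) (Dp K ℓ) K) c) T t).re)).card : ℝ) <
            Real.exp ((1 - Real.pi ^ 2 * b ^ 2 - 5 * ε) * ℓ)} ≤ 24 * ε * T) {σ : ℝ} (hσ : |σ| = 1) :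
    ∀ᶠ T : ℝ in atTop, ms T {t | (((Finset.range (M + 1)).filter
      (fun c : ℕ => (b - 3 * ε) * ℓ ≤ σ * FD (aa (ap K ℓ) (Dp K ℓ) K) (ap K ℓ) T t (c : ℝ))).card : ℝ) <
        Real.exp ((1 - Real.pi ^ 2 * b ^ 2 - 5 * ε) * ℓ)} ≤ 25 * ε * T := by
  have hpi := Real.pi_pos
  have hpi3 := Real.pi_gt_three
  set r : ℝ := -(σ * (Real.pi * (Real.pi * b))) with hr
  set κ : ℂ := (r : ℂ) * (I / Real.pi) with hκ
  have hκn : ‖κ‖ ^ 2 = Real.pi ^ 2 * b ^ 2 := by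
    rw [hκ, norm_mul, norm_div, Complex.norm_I, Complex.norm_real, Complex.norm_real,
      Real.norm_of_nonneg hpi.le, hr, norm_neg, Real.norm_eq_abs, abs_mul, hσ, one_mul,
      abs_of_pos (by positivity)]
    field_simp
  filter_upwards [hM κ hκn, eventually_gt_atTop 0] with T hT hT0
  have h24 : 24 * ε * T ≤ 25 * ε * T := by
    have : 0 < ε * T := by positivity
    linarith
  refine le_trans (ms_mono fun t _ _ ht => ?_) (hT.trans h24)
  have ht' : (((Finset.range (M + 1)).filter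
      (fun c : ℕ => (b - 3 * ε) * ℓ ≤ σ * FD (aa (ap K ℓ) (Dp K ℓ) K) (ap K ℓ) T t (c : ℝ))).card : ℝ) <
        Real.exp ((1 - Real.pi ^ 2 * b ^ 2 - 5 * ε) * ℓ) := ht
  refine lt_of_le_of_lt ?_ ht'
  have hcard : ((Finset.range (M + 1)).filter (fun c : ℕ =>
        (1 - ε) * (Real.pi ^ 2 * b ^ 2 * (K / (K + 4) * ℓ - 1)) ≤
          (PZ (fW κ (bp (ap K ℓ) (Dp K ℓ) K) c) T t).re)).card ≤ ((Finset.range (M + 1)).filter
      (fun c : ℕ => (b - 3 * ε) * ℓ ≤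
        σ * FD (aa (ap K ℓ) (Dp K ℓ) K) (ap K ℓ) T t (c : ℝ))).card := by
    apply Finset.card_le_card
    intro c hc
    rw [Finset.mem_filter] at hc ⊢
    refine ⟨hc.1, ?_⟩
    have h3 := hc.2
    have h4 : fW κ (bp (ap K ℓ) (Dp K ℓ) K) (c : ℝ) = fun u => (r : ℂ) *
        fW (I / Real.pi) (bp (ap K ℓ) (Dp K ℓ) K) (c : ℝ) u := by
      ext u
      unfold fW
      rw [hκ]
      ring
    rw [h4, PZ_smul, Complex.re_ofReal_mul] at h3
    have haz : aa (ap K ℓ) (Dp K ℓ) 0 = ap K ℓ := aa_zero _ _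
    have h5 : FD (aa (ap K ℓ) (Dp K ℓ) K) (ap K ℓ) T t (c : ℝ) =
        -(PZ (fW (I / Real.pi) (bp (ap K ℓ) (Dp K ℓ) K) (c : ℝ)) T t).re := by
      unfold FD bp
      rw [haz]
    rw [h5]
    generalize (PZ (fW (I / Real.pi) (bp (ap K ℓ) (Dp K ℓ) K) (c : ℝ)) T t).re = X at *
    have h6 : r * X = (Real.pi ^ 2 * b) * (σ * -X) := by rw [hr]; ring
    rw [h6] at h3
    have h7 : (1 - ε) * (Real.pi ^ 2 * b ^ 2 * (K / (K + 4) * ℓ - 1)) =
        (Real.pi ^ 2 * b) * ((1 - ε) * (b * (K / (K + 4) * ℓ - 1))) := by ring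
    rw [h7] at h3
    have h8 := le_of_mul_le_mul_left h3 (by positivity)
    refine le_trans ?_ h8
    have hone := h.one
    have hℓ0 : 0 < ℓ := by
      by_contra hc
      have : ε * ℓ ≤ 0 := mul_nonpos_of_nonneg_of_nonpos hε.le (not_lt.1 hc)
      linarith
    have hb3 : b ≤ 1 / 3 := by
      by_contra hc
      rw [not_le] at hc
      have h9 : (1 : ℝ) < Real.pi ^ 2 * b ^ 2 := by
        have : 1 < Real.pi * b := by nlinarith
        calc (1 : ℝ) < (Real.pi * b) * (Real.pi * b) := by nlinarith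
          _ = _ := by ring
      linarith
    have h9 : (1 - ε) * ℓ ≤ K / (K + 4) * ℓ := by
      apply mul_le_mul_of_nonneg_right _ hℓ0.le
      rw [le_div_iff₀ (by positivity)]
      linarith
    have h10 : b * ((1 - ε) * ℓ - 1) ≤ b * (K / (K + 4) * ℓ - 1) := by
      apply mul_le_mul_of_nonneg_left _ hb.le
      linarith
    have h11 : (1 - ε) * (b * ((1 - ε) * ℓ - 1)) ≤ (1 - ε) * (b * (K / (K + 4) * ℓ - 1)) :=
      mul_le_mul_of_nonneg_left h10 (by linarith)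
    refine le_trans ?_ h11
    have h12 : (1 - ε) * (b * ((1 - ε) * ℓ - 1)) - (b - 3 * ε) * ℓ =
        3 * (ε * ℓ) - 2 * (b * (ε * ℓ)) + b * (ε * (ε * ℓ)) - (1 - ε) * b := by ring
    have h13 : b * (ε * ℓ) ≤ 1 / 3 * (ε * ℓ) := mul_le_mul_of_nonneg_right hb3 (by linarith)
    have h14 : 0 ≤ b * (ε * (ε * ℓ)) := by positivity
    have h15 : (1 - ε) * b ≤ 1 := by nlinarith
    linarith
  exact_mod_cast hcard

open Classical in
/-- the upper bound for the number of large values -/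
lemma fld_up {ε : ℝ} {K M : ℕ} {ℓ θ : ℝ} {k J1 J4 : ℕ} (h : NP ε K M ℓ θ k J1 J4)
    {b X : ℝ} (hb : 0 < b) (hX : 0 < X) {J : ℕ} (hJ : (J : ℝ) ≤ Jp K ℓ)
    (hn : (20 * (M : ℝ) + 1) * (J.factorial * ((ℓ + 1) / Real.pi ^ 2) ^ J / (b * ℓ) ^ (2 * J)) <
      ε * X) :
    ∀ᶠ T : ℝ in atTop, ms T {t | X ≤
      (((Finset.range (20 * M + 1)).filter (fun c : ℕ => b * ℓ ≤
        |FD (aa (ap K ℓ) (Dp K ℓ) K) (ap K ℓ) T t (c : ℝ)|)).card : ℝ)} ≤ ε * T := by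
  have hpo := po h.hK h.hℓ
  have hpi := Real.pi_pos
  have hD1 : 1 ≤ Dp K ℓ := by linarith [hpo.D2]
  have hℓ0 : 0 < ℓ := by
    have : (0 : ℝ) ≤ K := Nat.cast_nonneg K
    linarith [h.hℓ]
  have hR : 0 < b * ℓ := by positivity
  have hJ' : (J : ℝ) * (2 * ap K ℓ) < 1 :=
    lt_of_le_of_lt (mul_le_mul_of_nonneg_right hJ (by linarith [hpo.a0])) hpo.Ja
  have hU : UM (fun T t => ∑ c ∈ Finset.range (20 * M + 1),
      (‖PZ (fW (I / Real.pi) (bp (ap K ℓ) (Dp K ℓ) K) (c : ℝ)) T t‖ / (b * ℓ)) ^ (2 * J))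
      (∑ _c ∈ Finset.range (20 * M + 1),
        (J.factorial * ((ℓ + 1) / Real.pi ^ 2) ^ J / (b * ℓ) ^ (2 * J))) := by
    apply UM.sum
    intro c _
    obtain ⟨K1, hz⟩ := wz_bp (κ := I / Real.pi) hpo.a0 hD1 hpo.a1 K (c : ℝ)
    have e : var (nw (fW (I / Real.pi) (bp (ap K ℓ) (Dp K ℓ) K) (c : ℝ))) =
        1 / Real.pi ^ 2 * ipf (bp (ap K ℓ) (Dp K ℓ) K) (bp (ap K ℓ) (Dp K ℓ) K) := by
      have := var_one (bp_cont hpo.a0 hD1 K) (I / Real.pi) (c : ℝ)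
      rw [norm_Ipi] at this
      exact this
    have hv : var (nw (fW (I / Real.pi) (bp (ap K ℓ) (Dp K ℓ) K) (c : ℝ))) ≤
        (ℓ + 1) / Real.pi ^ 2 := by
      rw [e, one_div, inv_mul_eq_div]
      apply div_le_div_of_nonneg_right _ (by positivity)
      have h1 := hpo.Aup
      have h2 := log2_bd
      have h3 : (K : ℝ) / (K + 4) * ℓ ≤ ℓ := by
        have hK : (0 : ℝ) ≤ K := Nat.cast_nonneg K
        rw [div_mul_eq_mul_div, div_le_iff₀ (by positivity)]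
        nlinarith
      linarith
    have hv0 := var_nonneg (nw (fW (I / Real.pi) (bp (ap K ℓ) (Dp K ℓ) K) (c : ℝ)))
    refine (UM_pow hz hJ' hR).mono ?_
    gcongr
  rw [Finset.sum_const, Finset.card_range, nsmul_eq_mul] at hU
  set v := ((20 * M + 1 : ℕ) : ℝ) *
    (J.factorial * ((ℓ + 1) / Real.pi ^ 2) ^ J / (b * ℓ) ^ (2 * J)) with hv
  have hvX : v < ε * X := by
    rw [hv]
    push_cast
    exact hn
  have hv0 : 0 ≤ v := by positivity
  filter_upwards [hU.2 (ε * X - v) (by linarith), eventually_gt_atTop 0] with T hT hT0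
  have hm := ms_markov hT0.le (hU.1 T) (fun t => Finset.sum_nonneg fun c _ => by positivity)
    (c := X)
  have hsub : ms T {t | X ≤ (((Finset.range (20 * M + 1)).filter (fun c : ℕ => b * ℓ ≤
        |FD (aa (ap K ℓ) (Dp K ℓ) K) (ap K ℓ) T t (c : ℝ)|)).card : ℝ)} ≤
      ms T {t | X ≤ ∑ c ∈ Finset.range (20 * M + 1),
        (‖PZ (fW (I / Real.pi) (bp (ap K ℓ) (Dp K ℓ) K) (c : ℝ)) T t‖ / (b * ℓ)) ^ (2 * J)} := by
    apply ms_mono
    intro t _ _ ht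
    refine le_trans (show X ≤ _ from ht) ?_
    have e1 : (((Finset.range (20 * M + 1)).filter (fun c : ℕ => b * ℓ ≤
        |FD (aa (ap K ℓ) (Dp K ℓ) K) (ap K ℓ) T t (c : ℝ)|)).card : ℝ) =
        ∑ c ∈ Finset.range (20 * M + 1), if b * ℓ ≤
        |FD (aa (ap K ℓ) (Dp K ℓ) K) (ap K ℓ) T t (c : ℝ)| then (1 : ℝ) else 0 := by
      rw [Finset.sum_boole]
    rw [e1]
    apply Finset.sum_le_sum
    intro c _
    split_ifs with h2
    · have haz : aa (ap K ℓ) (Dp K ℓ) 0 = ap K ℓ := aa_zero _ _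
      have hFD : |FD (aa (ap K ℓ) (Dp K ℓ) K) (ap K ℓ) T t (c : ℝ)| ≤
          ‖PZ (fW (I / Real.pi) (bp (ap K ℓ) (Dp K ℓ) K) (c : ℝ)) T t‖ := by
        unfold FD bp
        rw [abs_neg, haz]
        exact Complex.abs_re_le_norm _
      apply one_le_pow₀
      rw [one_le_div hR]
      exact h2.trans hFD
    · positivity
  have h3 : X * ms T {t | X ≤ (((Finset.range (20 * M + 1)).filter (fun c : ℕ => b * ℓ ≤
        |FD (aa (ap K ℓ) (Dp K ℓ) K) (ap K ℓ) T t (c : ℝ)|)).card : ℝ)} ≤ X * (ε * T) := by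
    calc _ ≤ X * ms T {t | X ≤ ∑ c ∈ Finset.range (20 * M + 1),
        (‖PZ (fW (I / Real.pi) (bp (ap K ℓ) (Dp K ℓ) K) (c : ℝ)) T t‖ / (b * ℓ)) ^ (2 * J)} :=
          mul_le_mul_of_nonneg_left hsub hX.le
      _ ≤ _ := hm
      _ ≤ (v + (ε * X - v)) * T := hT
      _ = X * (ε * T) := by ring
  exact le_of_mul_le_mul_left h3 hX

/-- numerical conditions for the upper bound -/
lemma up_ev {ε b : ℝ} (hε : 0 < ε) (hb : 0 < b) (hb1 : Real.pi ^ 2 * b ^ 2 ≤ 1) :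
    ∃ M0 : ℕ, ∀ M : ℕ, M0 ≤ M → ∃ J : ℕ, (J : ℝ) ≤ Real.log M ∧
      (20 * (M : ℝ) + 1) * (J.factorial * ((Real.log M + 1) / Real.pi ^ 2) ^ J /
        (b * Real.log M) ^ (2 * J)) <
      ε * Real.exp ((1 - Real.pi ^ 2 * b ^ 2 + ε) * Real.log M) := by
  have hpi := Real.pi_pos
  set q := Real.pi ^ 2 * b ^ 2 with hq
  have hq0 : 0 < q := by positivity
  have ev : ∀ᶠ ℓ : ℝ in atTop, (21 * Real.exp 3) * (ℓ ^ 1 * Real.exp (-(ε * ℓ))) ≤ ε / 2 ∧
      4 / q ≤ ℓ :=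
    (evs _ 1 hε (by positivity)).and (eventually_ge_atTop _)
  have ht : Tendsto (fun M : ℕ => Real.log M) atTop atTop :=
    Real.tendsto_log_atTop.comp tendsto_natCast_atTop_atTop
  obtain ⟨M0, hM0⟩ := eventually_atTop.1 ((ht.eventually ev).and (eventually_ge_atTop 2))
  refine ⟨M0, fun M hM => ?_⟩
  obtain ⟨⟨e1, e2⟩, hM2⟩ := hM0 M hM
  have hMr : (2 : ℝ) ≤ M := by exact_mod_cast hM2
  have hMexp : (M : ℝ) = Real.exp (Real.log M) := (Real.exp_log (by linarith)).symm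
  generalize Real.log M = ℓ at *
  rw [pow_one] at e1
  have hℓ0 : 0 < ℓ := lt_of_lt_of_le (by positivity) e2
  rw [div_le_iff₀ hq0] at e2
  have hℓ4 : 4 ≤ ℓ := by nlinarith
  set x := q * ℓ ^ 2 / (ℓ + 1) with hx
  have hx0 : 0 ≤ x := by positivity
  have hx1 : q * ℓ - 1 ≤ x := by
    rw [hx, le_div_iff₀ (by positivity)]
    nlinarith
  have hx2 : x ≤ ℓ := by
    rw [hx, div_le_iff₀ (by positivity)]
    nlinarith
  have f1 : (⌊x⌋₊ : ℝ) ≤ x := Nat.floor_le hx0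
  have f2 : x < ⌊x⌋₊ + 1 := Nat.lt_floor_add_one x
  have f3 : 1 ≤ ⌊x⌋₊ := Nat.le_floor (by push_cast; linarith)
  generalize ⌊x⌋₊ = J at *
  refine ⟨J, f1.trans hx2, ?_⟩
  have h1 : (J : ℝ) * ((ℓ + 1) / Real.pi ^ 2) ≤ (b * ℓ) ^ 2 := by
    calc (J : ℝ) * ((ℓ + 1) / Real.pi ^ 2) ≤ x * ((ℓ + 1) / Real.pi ^ 2) := by gcongr
      _ = (b * ℓ) ^ 2 := by
        rw [hx, hq]
        field_simp
  have h2 := expo2 f3 (v := (ℓ + 1) / Real.pi ^ 2) (x := b * ℓ) (by positivity) (by positivity) h1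
  have h3 : (J : ℝ) * Real.exp (1 - J) ≤ ℓ * (Real.exp 3 * Real.exp (-(q * ℓ))) := by
    apply mul_le_mul (f1.trans hx2) _ (Real.exp_pos _).le hℓ0.le
    rw [← Real.exp_add]
    apply Real.exp_le_exp.2
    linarith
  have h4 : (20 * (M : ℝ) + 1) ≤ 21 * Real.exp ℓ := by
    rw [← hMexp]
    linarith
  calc (20 * (M : ℝ) + 1) * (J.factorial * ((ℓ + 1) / Real.pi ^ 2) ^ J / (b * ℓ) ^ (2 * J)) ≤
      (21 * Real.exp ℓ) * (ℓ * (Real.exp 3 * Real.exp (-(q * ℓ)))) := by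
        apply mul_le_mul h4 (h2.trans h3) (by positivity) (by positivity)
    _ = Real.exp ((1 - q + ε) * ℓ) * ((21 * Real.exp 3) * (ℓ * Real.exp (-(ε * ℓ)))) := by
        have h5 : Real.exp ℓ * Real.exp (-(q * ℓ)) =
            Real.exp ((1 - q + ε) * ℓ) * Real.exp (-(ε * ℓ)) := by
          rw [← Real.exp_add, ← Real.exp_add]
          congr 1
          ring
        calc (21 * Real.exp ℓ) * (ℓ * (Real.exp 3 * Real.exp (-(q * ℓ)))) =
            21 * Real.exp 3 * ℓ * (Real.exp ℓ * Real.exp (-(q * ℓ))) := by ring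
          _ = _ := by rw [h5]; ring
    _ ≤ Real.exp ((1 - q + ε) * ℓ) * (ε / 2) := by gcongr
    _ < ε * Real.exp ((1 - q + ε) * ℓ) := by
        have := Real.exp_pos ((1 - q + ε) * ℓ)
        nlinarith

open Classical in
/-- **the block theorem**, with the field and the number of its large values -/
theorem blkc (RH : RiemannHypothesis) {C' : ℝ} (hC' : 0 < C') {ε : ℝ} (hε : 0 < ε)
    (_hε1 : ε ≤ 1 / 10) {K M : ℕ} {ℓ θ : ℝ} {k J1 J4 : ℕ}
    (h : NP ε K M ℓ θ k J1 J4) (hM1 : 1 ≤ M) (B : Finset ℝ)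
    (hBlo : ∀ b ∈ B, ∀ σ : ℝ, |σ| = 1 → ∀ᶠ T : ℝ in atTop, ms T {t | (((Finset.range (M + 1)).filter
      (fun c : ℕ => (b - 3 * ε) * ℓ ≤ σ * FD (aa (ap K ℓ) (Dp K ℓ) K) (ap K ℓ) T t (c : ℝ))).card : ℝ) <
        Real.exp ((1 - Real.pi ^ 2 * b ^ 2 - 5 * ε) * ℓ)} ≤ 25 * ε * T)
    (hBup : ∀ b ∈ B, ∀ᶠ T : ℝ in atTop, ms T {t | Real.exp ((1 - Real.pi ^ 2 * b ^ 2 + ε) * ℓ) ≤
      (((Finset.range (20 * M + 1)).filter (fun c : ℕ => b * ℓ ≤
        |FD (aa (ap K ℓ) (Dp K ℓ) K) (ap K ℓ) T t (c : ℝ)|)).card : ℝ)} ≤ ε * T) :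
    ∃ T1 : ℝ, 10 ≤ T1 ∧ ∀ T : ℝ, T1 ≤ T → ∀ U1 U2 : ℝ, 1 ≤ U1 → EFD C' T (ordz U1 U2) mu →
      ∃ Bad : Set ℝ, ms T Bad ≤ (51 * B.card + 3) * ε * T ∧ ∀ t, T < t → t ≤ 2 * T → t ∉ Bad →
        ∃ F : ℕ → ℝ,
        (∀ c ≤ 20 * M, |F c| ≤ (1 + ε) / Real.pi * ℓ) ∧ |F 0| ≤ ε * ℓ ∧
        (∀ b ∈ B, (∀ σ : ℝ, |σ| = 1 → Real.exp ((1 - Real.pi ^ 2 * b ^ 2 - 5 * ε) * ℓ) ≤
          (((Finset.range (M + 1)).filter (fun c : ℕ => (b - 3 * ε) * ℓ ≤ σ * F c)).card : ℝ)) ∧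
          (((Finset.range (20 * M + 1)).filter (fun c : ℕ => b * ℓ ≤ |F c|)).card : ℝ) ≤
            Real.exp ((1 - Real.pi ^ 2 * b ^ 2 + ε) * ℓ)) ∧
        ∀ c' c : ℕ, c ≤ 20 * M → (c' : ℝ) + 2 * ε * ℓ ≤ c →
          ((c : ℝ) - c') + (F c - F c') - 4 * ε * ℓ ≤
            (cO U1 U2 (t + Real.pi * (c + c') / Real.log T)
              (Real.pi * (c - c') / Real.log T) : ℝ) ∧
          (cC U1 U2 (t + Real.pi * (c + c') / Real.log T)
              (Real.pi * (c - c') / Real.log T) : ℝ) ≤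
            ((c : ℝ) - c') + (F c - F c') + 4 * ε * ℓ := by
  classical
  have hpo := po h.hK h.hℓ
  have hpi := Real.pi_pos
  have hMr : (1 : ℝ) ≤ M := by exact_mod_cast hM1
  have hℓ0 : 0 < ℓ := by
    have : (0 : ℝ) ≤ K := Nat.cast_nonneg K
    linarith [h.hℓ]
  have hℓ1 : 1 ≤ ℓ := by
    have : (0 : ℝ) ≤ K := Nat.cast_nonneg K
    linarith [h.hℓ]
  have hD0 : 0 < Dp K ℓ := by linarith [hpo.D2]
  have hD1 : 1 ≤ Dp K ℓ := by linarith [hpo.D2]
  obtain ⟨-, -, -, hJ0'⟩ := Jp_ge (K := K) hℓ1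
  have hJ0 : (0 : ℝ) < Jp K ℓ := by linarith
  set a := aa (ap K ℓ) (Dp K ℓ) K with ha
  set a0 := ap K ℓ with ha0
  have hapos : 0 < a := aa_pos hpo.a0 hD0 K
  have haa : a ≤ a0 := by
    have := aa_anti hpo.a0 hD1 (Nat.zero_le K)
    rwa [aa_zero] at this
  have ha0J : a0 = 1 / (4 * (Jp K ℓ : ℝ)) := rfl
  have hk0 : (0 : ℝ) < k := by exact_mod_cast (by have := h.hk; omega : 0 < k)
  -- the windows
  set P := ((Finset.range (20 * M + 1)) ×ˢ (Finset.range (20 * M + 1))).filter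
    (fun p => (p.1 : ℝ) + 4 * k ≤ p.2) with hP
  set Q := (1 + ε) / Real.pi * ℓ with hQ
  have hwin : ∀ p ∈ P, ∃ T1 : ℝ, 10 ≤ T1 ∧ ∀ T : ℝ, T1 ≤ T → ∀ U1 U2 : ℝ, 1 ≤ U1 →
      EFD C' T (ordz U1 U2) mu →
      ms T {t | ¬ (|FD a a0 T t p.2| ≤ Q → |FD a a0 T t p.1| ≤ Q →
        ((p.2 : ℝ) - p.1) + (FD a a0 T t p.2 - FD a a0 T t p.1) - (2 * k + 2 * (ε * ℓ) + 1) ≤
          (cO U1 U2 (t + Real.pi * (p.2 + p.1) / Real.log T)
            (Real.pi * (p.2 - p.1) / Real.log T) : ℝ) ∧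
        (cC U1 U2 (t + Real.pi * (p.2 + p.1) / Real.log T)
            (Real.pi * (p.2 - p.1) / Real.log T) : ℝ) ≤
          ((p.2 : ℝ) - p.1) + (FD a a0 T t p.2 - FD a a0 T t p.1) + (2 * k + 2 * (ε * ℓ) + 1))} ≤
        8 * θ * T := by
    intro p hp
    rw [hP, Finset.mem_filter, Finset.mem_product, Finset.mem_range, Finset.mem_range] at hp
    obtain ⟨⟨p1, p2⟩, p3⟩ := hp
    have hp2 : (p.2 : ℝ) ≤ 20 * M := by
      have : p.2 ≤ 20 * M := by omega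
      exact_mod_cast this
    apply win_cnt RH hC' h.hk (α := 1 / (20 * M)) (v1 := 210 + 8 * ℓ / (K + 4))
      (v2 := 256 * Real.log (1 / (k * a0))) (J1 := J1) (Nat.cast_nonneg _) (by linarith) hapos haa
      hpo.a1 ?_ (by positivity) ?_ ?_ ?_ (by positivity) h.hθ h.hθ1 ?_ le_rfl ?_ h.lo h.hi
    · rw [ha0J]
      have h1 : 2 * (1 / (4 * (Jp K ℓ : ℝ))) = 1 / (2 * Jp K ℓ) := by field_simp; norm_num
      rw [h1]
      apply one_div_le_one_div_of_le (by positivity)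
      linarith [h.hkJ]
    · rw [ha0J]
      have h1 : 2 * (1 / (4 * (Jp K ℓ : ℝ))) = 1 / (2 * Jp K ℓ) := by field_simp; norm_num
      rw [h1]
      apply one_div_le_one_div_of_le (by positivity)
      linarith [h.hJM]
    · rw [mul_one_div, div_le_div_iff₀ (by positivity) hk0]
      linarith [h.hkM]
    · rw [mul_one_div, div_le_one (by positivity)]
      have : (0 : ℝ) ≤ p.1 := Nat.cast_nonneg _
      linarith
    · have h1 : 2 * a / (1 / (20 * (M : ℝ))) = 2 * a * (20 * M) := by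
        field_simp
      rw [h1]
      exact h.v1
    · exact lt_of_le_of_lt (mul_le_mul_of_nonneg_right h.hJ1 (by linarith [hpo.a0])) hpo.Ja
  choose! TW hTW1 hTW2 using hwin
  -- the field
  have hfl : ∀ c ∈ Finset.range (20 * M + 1), ∀ᶠ T : ℝ in atTop, ms T {t | Q ≤
      |FD a a0 T t (c : ℝ)|} ≤ ε / (20 * M + 1) * T := fun c _ => (fld_bd hε h c).1
  have hfl' := (Filter.eventually_all_finset _).2 hfl
  have hze := (fld_bd hε h ((0 : ℕ) : ℝ)).2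
  have m1 := (Filter.eventually_all_finset B).2 fun b hb => hBlo b hb 1 (by norm_num)
  have m2 := (Filter.eventually_all_finset B).2 fun b hb => hBlo b hb (-1) (by norm_num)
  have m3 := (Filter.eventually_all_finset B).2 hBup
  obtain ⟨T0, hT0⟩ := eventually_atTop.1 ((hfl'.and hze).and ((m1.and m2).and m3))
  have hTWb : ∃ TB : ℝ, 10 ≤ TB ∧ ∀ p ∈ P, TW p ≤ TB := by
    refine ⟨max 10 (∑ p ∈ P, |TW p|), le_max_left _ _, fun p hp => ?_⟩
    refine le_trans (le_abs_self _) (le_trans ?_ (le_max_right _ _))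
    exact Finset.single_le_sum (f := fun p => |TW p|) (fun p _ => abs_nonneg _) hp
  obtain ⟨TB, hTB1, hTB2⟩ := hTWb
  refine ⟨max TB T0, hTB1.trans (le_max_left _ _), fun T hT U1 U2 hU hE => ?_⟩
  have a1 : TB ≤ T := (le_max_left _ _).trans hT
  obtain ⟨⟨b1, b2⟩, ⟨b3, b4⟩, b5⟩ := hT0 T ((le_max_right _ _).trans hT)
  have hT10 : 10 ≤ T := hTB1.trans a1
  have hTp : 0 < T := by linarith
  set W : ℕ × ℕ → Set ℝ := fun p => {t | ¬ (|FD a a0 T t p.2| ≤ Q → |FD a a0 T t p.1| ≤ Q →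
        ((p.2 : ℝ) - p.1) + (FD a a0 T t p.2 - FD a a0 T t p.1) - (2 * k + 2 * (ε * ℓ) + 1) ≤
          (cO U1 U2 (t + Real.pi * (p.2 + p.1) / Real.log T)
            (Real.pi * (p.2 - p.1) / Real.log T) : ℝ) ∧
        (cC U1 U2 (t + Real.pi * (p.2 + p.1) / Real.log T)
            (Real.pi * (p.2 - p.1) / Real.log T) : ℝ) ≤
          ((p.2 : ℝ) - p.1) + (FD a a0 T t p.2 - FD a a0 T t p.1) + (2 * k + 2 * (ε * ℓ) + 1))}
    with hW
  set A1 : Set ℝ := {t | ∃ p ∈ P, t ∈ W p} with hA1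
  set A2 : Set ℝ := {t | ∃ c ∈ Finset.range (20 * M + 1), t ∈ {t | Q ≤ |FD a a0 T t (c : ℝ)|}}
    with hA2
  set A3 : Set ℝ := {t | ε * ℓ ≤ |FD a a0 T t ((0 : ℕ) : ℝ)|} with hA3
  set W1 : ℝ → Set ℝ := fun b => {t | (((Finset.range (M + 1)).filter
      (fun c : ℕ => (b - 3 * ε) * ℓ ≤ 1 * FD a a0 T t (c : ℝ))).card : ℝ) <
        Real.exp ((1 - Real.pi ^ 2 * b ^ 2 - 5 * ε) * ℓ)} with hW1
  set W2 : ℝ → Set ℝ := fun b => {t | (((Finset.range (M + 1)).filter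
      (fun c : ℕ => (b - 3 * ε) * ℓ ≤ -1 * FD a a0 T t (c : ℝ))).card : ℝ) <
        Real.exp ((1 - Real.pi ^ 2 * b ^ 2 - 5 * ε) * ℓ)} with hW2
  set W3 : ℝ → Set ℝ := fun b => {t | Real.exp ((1 - Real.pi ^ 2 * b ^ 2 + ε) * ℓ) ≤
      (((Finset.range (20 * M + 1)).filter (fun c : ℕ => b * ℓ ≤
        |FD a a0 T t (c : ℝ)|)).card : ℝ)} with hW3
  set B1 : Set ℝ := {t | ∃ b ∈ B, t ∈ W1 b} with hB1
  set B2 : Set ℝ := {t | ∃ b ∈ B, t ∈ W2 b} with hB2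
  set B3 : Set ℝ := {t | ∃ b ∈ B, t ∈ W3 b} with hB3
  refine ⟨(A1 ∪ (A2 ∪ A3)) ∪ ((B1 ∪ B2) ∪ B3), ?_, ?_⟩
  · have c1 : ms T A1 ≤ ε * T := by
      refine (ms_biUnion T P W).trans ?_
      have h1 : ∀ p ∈ P, ms T (W p) ≤ 8 * θ * T := fun p hp =>
        hTW2 p hp T ((hTB2 p hp).trans a1) U1 U2 hU hE
      refine (Finset.sum_le_sum h1).trans ?_
      rw [Finset.sum_const, nsmul_eq_mul]
      have h2 : (P.card : ℝ) ≤ (20 * M + 1) * (20 * M + 1) := by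
        have h3 : P.card ≤ (20 * M + 1) * (20 * M + 1) := by
          rw [hP]
          refine (Finset.card_filter_le _ _).trans ?_
          rw [Finset.card_product, Finset.card_range]
        exact_mod_cast h3
      have hθ := h.hθ
      calc (P.card : ℝ) * (8 * θ * T) ≤ ((20 * M + 1) * (20 * M + 1)) * (8 * θ * T) := by gcongr
        _ = (8 * θ * ((20 * M + 1) * (20 * M + 1))) * T := by ring
        _ ≤ ε * T := mul_le_mul_of_nonneg_right h.hθM hTp.le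
    have c2 : ms T A2 ≤ ε * T := by
      refine (ms_biUnion T _ _).trans ?_
      refine (Finset.sum_le_sum b1).trans ?_
      rw [Finset.sum_const, Finset.card_range, nsmul_eq_mul]
      apply le_of_eq
      push_cast
      field_simp
    have d1 : ms T B1 ≤ B.card * (25 * ε * T) := by
      refine (ms_biUnion T B W1).trans ((Finset.sum_le_sum b3).trans ?_)
      rw [Finset.sum_const, nsmul_eq_mul]
    have d2 : ms T B2 ≤ B.card * (25 * ε * T) := by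
      refine (ms_biUnion T B W2).trans ((Finset.sum_le_sum b4).trans ?_)
      rw [Finset.sum_const, nsmul_eq_mul]
    have d3 : ms T B3 ≤ B.card * (ε * T) := by
      refine (ms_biUnion T B W3).trans ((Finset.sum_le_sum b5).trans ?_)
      rw [Finset.sum_const, nsmul_eq_mul]
    have e1 := ms_union T (A1 ∪ (A2 ∪ A3)) ((B1 ∪ B2) ∪ B3)
    have e2 := ms_union T A1 (A2 ∪ A3)
    have e3 := ms_union T A2 A3
    have e4 := ms_union T (B1 ∪ B2) B3
    have e5 := ms_union T B1 B2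
    have e6 : (51 * (B.card : ℝ) + 3) * ε * T = B.card * (25 * ε * T) + B.card * (25 * ε * T) +
      B.card * (ε * T) + 3 * (ε * T) := by ring
    rw [e6]
    linarith
  · intro t _ _ ht
    rw [mem_union, not_or, mem_union, not_or, mem_union, not_or, mem_union, not_or, mem_union,
      not_or] at ht
    obtain ⟨⟨t1, t2, t3⟩, ⟨t4, t5⟩, t6⟩ := ht
    have hfb : ∀ c : ℕ, c ≤ 20 * M → |FD a a0 T t (c : ℝ)| ≤ Q := by
      intro c hc
      by_contra h3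
      apply t2
      exact ⟨c, Finset.mem_range.2 (by omega), (not_le.1 h3).le⟩
    refine ⟨fun c => FD a a0 T t (c : ℝ), hfb, (not_le.1 t3).le, ?_, ?_⟩
    · intro b hb
      constructor
      · intro σ hσ
        rcases (abs_eq zero_le_one).1 hσ with h3 | h3
        · rw [h3]
          by_contra hcon
          exact t4 ⟨b, hb, not_le.1 hcon⟩
        · rw [h3]
          by_contra hcon
          exact t5 ⟨b, hb, not_le.1 hcon⟩
      · by_contra hcon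
        exact t6 ⟨b, hb, (not_le.1 hcon).le⟩
    · intro c' c hc hcc
      have hc'c : (c' : ℝ) ≤ c := by
        have : 0 < 2 * ε * ℓ := by positivity
        linarith
      have hc'c' : c' ≤ c := by exact_mod_cast hc'c
      have hmem : (c', c) ∈ P := by
        rw [hP, Finset.mem_filter, Finset.mem_product, Finset.mem_range, Finset.mem_range]
        refine ⟨⟨by simp only; omega, by simp only; omega⟩, ?_⟩
        simp only
        linarith [h.hkε]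
      have h3 : t ∉ W (c', c) := fun h4 => t1 ⟨_, hmem, h4⟩
      have h4 := not_not.1 h3
      have h5 := h4 (hfb c hc) (hfb c' (by omega))
      simp only at h5
      have h6 := h.one
      have h7 := h.hkε
      constructor
      · refine le_trans ?_ h5.1
        linarith
      · refine h5.2.trans ?_
        linarith


end Pool.Agent.T9h26.TD
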