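import Pool.Agent.T9h26.TD.Tc

set_option autoImplicit false

/-! Deterministic part: the numbers of high and low values of the fluctuations. -/

open Complex Filter Topology Set MeasureTheory

namespace Pool.Agent.T9h26.TD

variable {y F G : ℕ → ℝ} {e H1 : ℝ} {M : ℕ}

open Classical in
/-- counting through a map to natural numbers with fibres of bounded diameter -/
lemma card_fib (S : Finset ℕ) (f : ℕ → ℕ) {W : Finset ℕ} {w : ℝ} (hw : 0 ≤ w)
    (hf : ∀ c ∈ S, f c ∈ W)
    (hd : ∀ c ∈ S, ∀ c' ∈ S, f c = f c' → c ≤ c' → (c' : ℝ) - c ≤ w) :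
    (S.card : ℝ) ≤ (w + 1) * W.card := by
  classical
  have h1 : ∀ a ∈ S.image f, (S.filter (fun x => f x = a)).card ≤ ⌊w⌋₊ + 1 := by
    intro a ha
    rw [Finset.mem_image] at ha
    obtain ⟨c, hc, rfl⟩ := ha
    have hne : (S.filter (fun x => f x = f c)).Nonempty := ⟨c, Finset.mem_filter.2 ⟨hc, rfl⟩⟩
    set m := (S.filter (fun x => f x = f c)).min' hne with hm
    have hmem := Finset.min'_mem _ hne
    rw [← hm, Finset.mem_filter] at hmem
    have hsub : S.filter (fun x => f x = f c) ⊆ Finset.Icc m (m + ⌊w⌋₊) := by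
      intro x hx
      have h2 := Finset.min'_le _ x hx
      rw [← hm] at h2
      rw [Finset.mem_filter] at hx
      rw [Finset.mem_Icc]
      refine ⟨h2, ?_⟩
      have h3 := hd m hmem.1 x hx.1 (by rw [hmem.2, hx.2]) h2
      rw [← Nat.cast_sub h2] at h3
      have h4 : x - m ≤ ⌊w⌋₊ := Nat.le_floor h3
      omega
    refine (Finset.card_le_card hsub).trans ?_
    rw [Nat.card_Icc]
    omega
  have h2 := Finset.card_le_mul_card_image (f := f) S (⌊w⌋₊ + 1) h1
  have h3 : (S.image f).card ≤ W.card := by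
    apply Finset.card_le_card
    intro a ha
    rw [Finset.mem_image] at ha
    obtain ⟨c, hc, rfl⟩ := ha
    exact hf c hc
  have h4 : S.card ≤ (⌊w⌋₊ + 1) * W.card := h2.trans (Nat.mul_le_mul_left _ h3)
  have h5 : (S.card : ℝ) ≤ (⌊w⌋₊ + 1) * W.card := by exact_mod_cast h4
  refine h5.trans ?_
  apply mul_le_mul_of_nonneg_right _ (Nat.cast_nonneg _)
  have := Nat.floor_le hw
  linarith

open Classical in
/-- few points: lower bound for the number of high values -/
lemma DT.cfew (h : DT y F G e H1 M) {H : ℝ} {S : Finset ℕ}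
    (hS : ∀ c ∈ S, 2 * e + 1 ≤ c ∧ c ≤ 3 * M ∧ G c ≤ -H) :
    (S.card : ℝ) ≤ (2 * H1 + 4 * e + 5) *
      (((Finset.Icc 1 (4 * M)).filter (fun k => k + H - 5 * e - 2 ≤ y k - y 0)).card : ℝ) := by
  classical
  have hb := h.big
  have hHp := h.H0
  have he := h.e1
  have hM := h.M1
  have hr := h.reach
  have key : ∀ c ∈ S, ∃ m < 16 * M, y m ≤ c - 1 ∧ (c : ℝ) - 1 < y (m + 1) := by
    intro c hc
    obtain ⟨h1, h2, -⟩ := hS c hc
    have h2' : (c : ℝ) ≤ 3 * M := by exact_mod_cast h2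
    exact loc (by linarith [h.y0']) (by linarith)
  choose! m hm1 hm2 hm3 using key
  refine card_fib (W := (Finset.Icc 1 (4 * M)).filter (fun k => k + H - 5 * e - 2 ≤ y k - y 0)) S (fun c => m c + 1)
    (by linarith : 0 ≤ 2 * H1 + 4 * e + 4) ?_ ?_ |>.trans ?_
  · intro c hc
    obtain ⟨h1, h2, h3⟩ := hS c hc
    have h2' : (c : ℝ) ≤ 3 * M := by exact_mod_cast h2
    have g2 := abs_le.1 h.G0
    have h4 := h.idx (hm1 c hc).le (by linarith [hm2 c hc])
    rw [Finset.mem_filter, Finset.mem_Icc]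
    refine ⟨⟨by omega, h4⟩, ?_⟩
    have := h.wG.hc 0 c (by omega) (by push_cast; linarith) 0 (m c)
      (by push_cast; linarith [h.y0]) (by
        rw [zero_add]
        linarith [hm2 c hc])
    push_cast at this
    push_cast
    linarith [h.y0', g2.1, h.y0, hm3 c hc]
  · intro c hc c' hc' hcc _
    have hcc2 : m c = m c' := by
      have : m c + 1 = m c' + 1 := hcc
      omega
    have h1 := h.up (i := m c) (k := 1) (by have := hm1 c hc; omega)
    push_cast at h1
    have h2 := hm2 c hc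
    have h3 := hm3 c' hc'
    have h4 := hm2 c' hc'
    have h5 := hm3 c hc
    rw [← hcc2] at h3 h4
    linarith
  · apply le_of_eq
    ring

open Classical in
/-- many points: lower bound for the number of low values -/
lemma DT.cmany (h : DT y F G e H1 M) {H : ℝ} (hH : 0 ≤ H) {S : Finset ℕ}
    (hS : ∀ c ∈ S, 6 * e + 4 ≤ c ∧ c ≤ 3 * M ∧ H ≤ F c) :
    (S.card : ℝ) ≤ (2 * H1 + 4 * e + 5) *
      (((Finset.Icc 1 (4 * M)).filter (fun k => y k - y 0 ≤ k - H + 5 * e + 2)).card : ℝ) := by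
  classical
  have hb := h.big
  have hHp := h.H0
  have he := h.e1
  have hM := h.M1
  have hr := h.reach
  have key : ∀ c ∈ S, ∃ m < 16 * M, y m ≤ c ∧ (c : ℝ) < y (m + 1) := by
    intro c hc
    obtain ⟨h1, h2, -⟩ := hS c hc
    have h2' : (c : ℝ) ≤ 3 * M := by exact_mod_cast h2
    exact loc (by linarith [h.y0']) (by linarith)
  choose! m hm1 hm2 hm3 using key
  refine card_fib (W := (Finset.Icc 1 (4 * M)).filter (fun k => y k - y 0 ≤ k - H + 5 * e + 2)) S m
    (by linarith : 0 ≤ 2 * H1 + 4 * e + 4) ?_ ?_ |>.trans ?_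
  · intro c hc
    obtain ⟨h1, h2, h3⟩ := hS c hc
    have h2' : (c : ℝ) ≤ 3 * M := by exact_mod_cast h2
    have g2 := abs_le.1 h.F0
    have h4 := h.idx (hm1 c hc).le (by linarith [hm2 c hc])
    -- many points up to `c`
    set X := (c : ℝ) + H - 5 * e with hX
    have hX1 : 1 ≤ X := by linarith
    have f1 : (⌊X⌋₊ : ℝ) ≤ X := Nat.floor_le (by linarith)
    have f2 := Nat.lt_floor_add_one X
    have f3 : 1 ≤ ⌊X⌋₊ := Nat.le_floor (by push_cast; exact hX1)
    generalize ⌊X⌋₊ = q at *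
    have e1 : ((q - 1 : ℕ) : ℝ) + 1 = q := by
      have : q - 1 + 1 = q := by omega
      exact_mod_cast this
    have hq := h.wF.ho 0 c (by omega) (by push_cast; linarith) 0 (q - 1)
      (by push_cast; exact h.y0') (by
        rw [e1]
        push_cast
        linarith [g2.2])
    rw [show 0 + 1 + (q - 1) = q by omega] at hq
    have hqm : q ≤ m c := by
      by_contra hcon
      have := h.mono (show m c + 1 ≤ q by omega)
      linarith [hm3 c hc]
    have hqm' : (q : ℝ) ≤ m c := by exact_mod_cast hqm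
    rw [Finset.mem_filter, Finset.mem_Icc]
    refine ⟨⟨by omega, by omega⟩, ?_⟩
    linarith [h.y0, hm2 c hc]
  · intro c hc c' hc' hcc _
    have h1 := h.up (i := m c) (k := 1) (by have := hm1 c hc; omega)
    push_cast at h1
    have h2 := hm2 c hc
    have h3 := hm3 c' hc'
    have h4 := hm2 c' hc'
    have h5 := hm3 c hc
    rw [← hcc] at h3 h4
    linarith
  · apply le_of_eq
    ring

open Classical in
/-- few points: upper bound for the number of high values -/
lemma DT.ufew (h : DT y F G e H1 M) {X : ℝ} (hX : 2 * e + 2 ≤ X) {Mt : ℕ} (hMt : Mt ≤ 16 * M) :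
    (((Finset.Icc 1 Mt).filter (fun k : ℕ => (k : ℝ) + X ≤ y k - y 0)).card : ℝ) ≤
      (2 * H1 + 6 * e + 4) *
      (((Finset.range (20 * M + 1)).filter (fun c : ℕ => F c ≤ -(X - 5 * e - 3))).card : ℝ) := by
  classical
  have hb := h.big
  have hHp := h.H0
  have he := h.e1
  have hM := h.M1
  have hfar := h.far
  set S := (Finset.Icc 1 Mt).filter (fun k : ℕ => (k : ℝ) + X ≤ y k - y 0) with hS
  refine (card_fib (W := (Finset.range (20 * M + 1)).filter (fun c : ℕ => F c ≤ -(X - 5 * e - 3))) S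
    (fun k => ⌊y k⌋₊) (by linarith : 0 ≤ 2 * H1 + 6 * e + 3) ?_ ?_).trans (le_of_eq ?_)
  · intro k hk
    rw [hS, Finset.mem_filter, Finset.mem_Icc] at hk
    obtain ⟨⟨k1, k2⟩, k3⟩ := hk
    have hk0 : (1 : ℝ) ≤ k := by exact_mod_cast k1
    have hyk : y k < 19 * M := lt_of_le_of_lt (h.mono (by omega)) hfar
    have hpos : 0 ≤ y k := by linarith [h.y0]
    have c3 : (⌊y k⌋₊ : ℝ) ≤ y k := Nat.floor_le hpos
    have c4 := Nat.lt_floor_add_one (y k)
    show ⌊y k⌋₊ ∈ (Finset.range (20 * M + 1)).filter (fun c : ℕ => F c ≤ -(X - 5 * e - 3))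
    generalize ⌊y k⌋₊ = c at *
    have hcX : c ≤ 20 * M := by
      have : (c : ℝ) ≤ ((20 * M : ℕ) : ℝ) := by push_cast; linarith
      exact_mod_cast this
    rw [Finset.mem_filter, Finset.mem_range]
    refine ⟨by omega, ?_⟩
    by_contra hcon
    rw [not_le] at hcon
    have f2 := abs_le.1 h.F0
    have := h.wF.ho 0 c hcX (by push_cast; linarith [h.y0]) 0 (k - 1)
      (by push_cast; exact h.y0') (by
        rw [Nat.cast_sub k1]
        push_cast
        linarith [f2.2, h.y0])
    rw [show 0 + 1 + (k - 1) = k by omega] at this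
    linarith
  · intro k hk k' hk' hkk hle
    rw [hS, Finset.mem_filter, Finset.mem_Icc] at hk hk'
    have hpos : 0 ≤ y k := by
      have : (0 : ℝ) ≤ k := Nat.cast_nonneg _
      linarith [h.y0, hk.2]
    have hpos' : 0 ≤ y k' := by
      have : (0 : ℝ) ≤ k' := Nat.cast_nonneg _
      linarith [h.y0, hk'.2]
    have c3 : (⌊y k⌋₊ : ℝ) ≤ y k := Nat.floor_le hpos
    have c4 := Nat.lt_floor_add_one (y k')
    have hkk' : ⌊y k⌋₊ = ⌊y k'⌋₊ := hkk
    rw [← hkk'] at c4
    have h1 := h.lo (i := k) (k := k' - k) (by omega)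
    rw [show k + (k' - k) = k' by omega, Nat.cast_sub hle] at h1
    linarith
  · ring

open Classical in
/-- many points: upper bound for the number of low values -/
lemma DT.umany (h : DT y F G e H1 M) {X : ℝ} {Mt : ℕ} (hMt : Mt ≤ 16 * M) :
    (((Finset.Icc 1 Mt).filter (fun k : ℕ => y k - y 0 ≤ (k : ℝ) - X)).card : ℝ) ≤
      (2 * H1 + 6 * e + 5) *
      (((Finset.range (20 * M + 1)).filter (fun c : ℕ => X - 5 * e - 1 ≤ G c)).card : ℝ) +
      (H1 + 9 * e + 3) := by
  classical
  have hb := h.big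
  have hHp := h.H0
  have he := h.e1
  have hM := h.M1
  have hfar := h.far
  set S := (Finset.Icc 1 Mt).filter (fun k : ℕ => y k - y 0 ≤ (k : ℝ) - X) with hS
  set S1 := S.filter (fun k => 2 * e ≤ y k + 1) with hS1
  set S2 := S.filter (fun k => ¬ 2 * e ≤ y k + 1) with hS2
  have hcard : S.card = S1.card + S2.card :=
    (Finset.card_filter_add_card_filter_not (s := S) (fun k => 2 * e ≤ y k + 1)).symm
  have h2 : (S2.card : ℝ) ≤ H1 + 9 * e + 3 := by
    have hsub : S2 ⊆ Finset.Icc 1 ⌊H1 + 9 * e + 3⌋₊ := by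
      intro k hk
      rw [hS2, Finset.mem_filter, hS, Finset.mem_filter, Finset.mem_Icc, not_le] at hk
      obtain ⟨⟨⟨k1, k2⟩, -⟩, k3⟩ := hk
      rw [Finset.mem_Icc]
      refine ⟨k1, Nat.le_floor ?_⟩
      have := h.lo0 (k := k) (by omega)
      linarith [h.y0]
    have h3 := Finset.card_le_card hsub
    rw [Nat.card_Icc, Nat.add_sub_cancel] at h3
    have h4 : (S2.card : ℝ) ≤ ⌊H1 + 9 * e + 3⌋₊ := by exact_mod_cast h3
    exact h4.trans (Nat.floor_le (by linarith))
  have h1 : (S1.card : ℝ) ≤ (2 * H1 + 6 * e + 5) *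
      (((Finset.range (20 * M + 1)).filter (fun c : ℕ => X - 5 * e - 1 ≤ G c)).card : ℝ) := by
    refine (card_fib (W := (Finset.range (20 * M + 1)).filter (fun c : ℕ => X - 5 * e - 1 ≤ G c)) S1
      (fun k => ⌈y k + 1⌉₊) (by linarith : 0 ≤ 2 * H1 + 6 * e + 4) ?_ ?_).trans (le_of_eq ?_)
    · intro k hk
      rw [hS1, Finset.mem_filter, hS, Finset.mem_filter, Finset.mem_Icc] at hk
      obtain ⟨⟨⟨k1, k2⟩, k3⟩, k4⟩ := hk
      have hyk : y k < 19 * M := lt_of_le_of_lt (h.mono (by omega)) hfar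
      have c3 := Nat.le_ceil (y k + 1)
      have c4 := Nat.ceil_lt_add_one (show 0 ≤ y k + 1 by linarith)
      show ⌈y k + 1⌉₊ ∈ (Finset.range (20 * M + 1)).filter (fun c : ℕ => X - 5 * e - 1 ≤ G c)
      generalize ⌈y k + 1⌉₊ = c at *
      have hcX : c ≤ 20 * M := by
        have : (c : ℝ) ≤ ((20 * M : ℕ) : ℝ) := by push_cast; linarith
        exact_mod_cast this
      rw [Finset.mem_filter, Finset.mem_range]
      refine ⟨by omega, ?_⟩
      have g2 := abs_le.1 h.G0
      have := h.wG.hc 0 c hcX (by push_cast; linarith) 0 k (by push_cast; linarith [h.y0]) (by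
        rw [zero_add]; exact c3)
      push_cast at this
      linarith [h.y0', g2.1]
    · intro k hk k' hk' hkk hle
      rw [hS1, Finset.mem_filter, hS, Finset.mem_filter, Finset.mem_Icc] at hk hk'
      have c3 := Nat.le_ceil (y k' + 1)
      have c4 := Nat.ceil_lt_add_one (show 0 ≤ y k + 1 by linarith [hk.2])
      have hkk' : ⌈y k + 1⌉₊ = ⌈y k' + 1⌉₊ := hkk
      rw [← hkk'] at c3
      have h1 := h.lo (i := k) (k := k' - k) (by omega)
      rw [show k + (k' - k) = k' by omega, Nat.cast_sub hle] at h1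
      linarith
    · ring
  have h3 : (S.card : ℝ) = S1.card + S2.card := by exact_mod_cast hcard
  linarith

end Pool.Agent.T9h26.TD
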