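import Pool.Agent.T9h26.TD.Td

set_option autoImplicit false

/-! From good base points to indices: the numbers of high and low values. -/

open Complex Filter Topology Set MeasureTheory

namespace Pool.Agent.T9h26.TD

open TC (ordz ordT mu EFD)
open SG (ord NZ zmult ZS)
open W200.HW (Ix mem_Ix)
open Pool.Agent.Y747 (al dl Bx mem_Bx)

/-- the estimates for all windows -/
def WN (ε ℓ : ℝ) (M : ℕ) (T U1 U2 t : ℝ) (F : ℕ → ℝ) : Prop :=
  ∀ c' c : ℕ, c ≤ 20 * M → (c' : ℝ) + 2 * ε * ℓ ≤ c →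
    ((c : ℝ) - c') + (F c - F c') - 4 * ε * ℓ ≤
      (cO U1 U2 (t + Real.pi * (c + c') / Real.log T)
        (Real.pi * (c - c') / Real.log T) : ℝ) ∧
    (cC U1 U2 (t + Real.pi * (c + c') / Real.log T)
        (Real.pi * (c - c') / Real.log T) : ℝ) ≤
      ((c : ℝ) - c') + (F c - F c') + 4 * ε * ℓ

lemma wdn_of {ε ℓ : ℝ} {M : ℕ} {T U1 U2 t : ℝ} {F : ℕ → ℝ} (hw : WN ε ℓ M T U1 U2 t F)
    (hL : 0 < Real.log T) {n : ℕ} (hn : 1 ≤ n) (hU1 : U1 < ord n)
    (hU2 : t + 2 * Real.pi * (20 * M) / Real.log T ≤ U2) :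
    WD (fun i => pos t (Real.log T) (n + i)) F (ε * ℓ) (20 * M) := by
  have hpi := Real.pi_pos
  constructor
  · intro c' c hc hcc i r h1 h2
    obtain ⟨w1, -⟩ := hw c' c hc (by linarith)
    rw [pos_le hL] at h1
    show pos t (Real.log T) (n + (i + 1 + r)) < c
    rw [pos_lt hL, show n + (i + 1 + r) = (n + i) + 1 + r by ring]
    have e1 : t + Real.pi * (c + c') / Real.log T =
        (t + 2 * Real.pi * c' / Real.log T) + Real.pi * (c - c') / Real.log T := by ring
    rw [e1] at w1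
    have h3 : (r : ℝ) + 1 ≤ (cO U1 U2 ((t + 2 * Real.pi * c' / Real.log T) +
        Real.pi * (c - c') / Real.log T) (Real.pi * (c - c') / Real.log T) : ℝ) := by linarith
    have h4 := minus_core (r := r) (U1 := U1) (U2 := U2) (ρ := Real.pi * (c - c') / Real.log T)
      (show 1 ≤ n + i by omega) h1 (by exact_mod_cast h3)
    refine lt_of_lt_of_le h4 (le_of_eq ?_)
    ring
  · intro c' c hc hcc i m h1 h2
    obtain ⟨-, w2⟩ := hw c' c hc (by linarith)
    rw [le_pos hL] at h1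
    have h2' : pos t (Real.log T) (n + (i + m)) ≤ c := h2
    rw [pos_le hL, show n + (i + m) = (n + i) + m by ring] at h2'
    have hcr : (c : ℝ) ≤ 20 * M := by exact_mod_cast hc
    have h3 := cC_ge2 (m := m) (n := n + i) (by omega) (U1 := U1) (U2 := U2)
      (t := t + Real.pi * (c + c') / Real.log T) (ρ := Real.pi * (c - c') / Real.log T)
      (by
        refine le_trans (le_of_eq ?_) h1
        ring) (by
        refine le_trans h2' (le_of_eq ?_)
        ring) (lt_of_lt_of_le hU1 (SG.ord_mono hn (by omega))) (by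
        refine le_trans h2' (le_trans ?_ hU2)
        gcongr)
    have h4 : (m : ℝ) + 1 ≤ (cC U1 U2 (t + Real.pi * (c + c') / Real.log T)
      (Real.pi * (c - c') / Real.log T) : ℝ) := by exact_mod_cast h3
    linarith

/-- the data at an index -/
lemma dtn_of {ε ℓ : ℝ} {M : ℕ} {T U1 U2 t : ℝ} {F G : ℕ → ℝ} (h : WN ε ℓ M T U1 U2 t F)
    (hF : ∀ c ≤ 20 * M, |F c| ≤ (1 + ε) / Real.pi * ℓ) (hF0 : |F 0| ≤ ε * ℓ)
    (hG : ∀ c ≤ 20 * M, |G c| ≤ (1 + ε) / Real.pi * ℓ) (hG0 : |G 0| ≤ ε * ℓ)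
    (hL : 0 < Real.log T) (h' : WN ε ℓ M T U1 U2 (t - 2 * Real.pi / Real.log T) G)
    {n : ℕ} (hn : 1 ≤ n) (hU1 : U1 < ord n)
    (hU2 : t + 2 * Real.pi * (20 * M) / Real.log T ≤ U2)
    (h1 : ord n ≤ t) (h2 : t ≤ ord n + Real.pi / (2 * Real.log T)) (he : 1 ≤ ε * ℓ)
    (hb : 2 * ((1 + ε) / Real.pi * ℓ) + 10 * (ε * ℓ) + 10 ≤ M) :
    DT (fun i => pos t (Real.log T) (n + i)) F G (ε * ℓ) ((1 + ε) / Real.pi * ℓ) M := by
  have hpi := Real.pi_pos
  have hG' : WD (fun i => pos (t - 2 * Real.pi / Real.log T) (Real.log T) (n + i)) G (ε * ℓ)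
      (20 * M) := wdn_of h' hL hn hU1 (by
    refine le_trans ?_ hU2
    have : 0 ≤ 2 * Real.pi / Real.log T := by positivity
    linarith)
  have e1 : (fun i => pos (t - 2 * Real.pi / Real.log T) (Real.log T) (n + i)) =
      fun i => pos t (Real.log T) (n + i) + 1 := by
    ext i
    unfold pos
    field_simp
    ring
  rw [e1] at hG'
  refine ⟨?_, ?_, ?_, wdn_of h hL hn hU1 hU2, hG', hF0, hG0, hF, hG, he, hb⟩
  · intro i j hij
    have h3 := SG.ord_mono (show 1 ≤ n + i by omega) (show n + i ≤ n + j by omega)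
    show (ord (n + i) - t) * Real.log T / (2 * Real.pi) ≤ (ord (n + j) - t) * Real.log T / (2 * Real.pi)
    gcongr
  · show -(1 / 4) ≤ pos t (Real.log T) (n + 0)
    rw [le_pos hL, add_zero]
    have e2 : 2 * Real.pi * -(1 / 4) / Real.log T = -(Real.pi / (2 * Real.log T)) := by
      field_simp
      norm_num
    rw [e2]
    linarith
  · show pos t (Real.log T) (n + 0) ≤ 0
    rw [pos_le hL, add_zero]
    simpa using h1

/-- comparison of the positions with the normalised sums -/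
lemma cmpS {T U1 U2 t e H1 : ℝ} {M n : ℕ} {F G : ℕ → ℝ}
    (D : DT (fun i => pos t (Real.log T) (n + i)) F G e H1 M) (hT : 10 ≤ T) (hn : 1 ≤ n)
    (hU2 : t + 2 * Real.pi * (20 * M) / Real.log T ≤ U2) (hTn : T ≤ ord n) (hU2T : U2 ≤ 2 * T)
    (_hU1 : U1 < ord n) (hLM : 60 * (M : ℝ) ≤ Real.log T) {k : ℕ} (hik : k ≤ 16 * M) :
    Sr k n ≤ pos t (Real.log T) (n + k) - pos t (Real.log T) n ∧
      pos t (Real.log T) (n + k) - pos t (Real.log T) n - 1 ≤ Sr k n := by
  have hpi := Real.pi_pos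
  have hT0 : 0 < T := by linarith
  have hL : 0 < Real.log T := Real.log_pos (by linarith)
  have hM20 := D.M1
  have e1 : pos t (Real.log T) (n + k) - pos t (Real.log T) n =
      (ord (n + k) - ord n) / (2 * Real.pi) * Real.log T := pos_sub _ _
  have hfar := D.far
  have hmo := D.mono hik
  have hy0 : -(1 / 4) ≤ pos t (Real.log T) n := D.y0
  have hmo2 := D.mono (Nat.zero_le k)
  simp only [add_zero] at hfar hmo hmo2
  have hord : ord (n + k) ≤ 2 * T := by
    have h3 : pos t (Real.log T) (n + k) ≤ 20 * M := by linarith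
    rw [pos_le hL] at h3
    linarith
  constructor
  · rw [e1]
    apply Sr_le (by omega) hT0
    have := Real.pi_gt_three
    nlinarith
  · have h3 := Sr_ge (r := k) (n := n) (by omega) hT0 hTn
    refine le_trans ?_ h3
    rw [Real.log_div hT0.ne' (by positivity), mul_sub, ← e1]
    have h4 := log_two_pi_le
    have h5 : (ord (n + k) - ord n) / (2 * Real.pi) =
        (pos t (Real.log T) (n + k) - pos t (Real.log T) n) / Real.log T := by
      rw [e1]
      field_simp
    rw [h5]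
    have h6 : (pos t (Real.log T) (n + k) - pos t (Real.log T) n) / Real.log T *
        Real.log (2 * Real.pi) ≤ 1 := by
      rw [div_mul_eq_mul_div, div_le_one hL]
      have h7 : (pos t (Real.log T) (n + k) - pos t (Real.log T) n) * Real.log (2 * Real.pi) ≤
          (pos t (Real.log T) (n + k) - pos t (Real.log T) n) * 2 :=
        mul_le_mul_of_nonneg_left h4 (by linarith)
      linarith
    linarith

open Classical in
/-- the properties of the field at a base point -/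
def GC (ε ℓ : ℝ) (M : ℕ) (B : Finset ℝ) (T U1 U2 t : ℝ) (F : ℕ → ℝ) : Prop :=
  (∀ c ≤ 20 * M, |F c| ≤ (1 + ε) / Real.pi * ℓ) ∧ |F 0| ≤ ε * ℓ ∧
  (∀ b ∈ B, (∀ σ : ℝ, |σ| = 1 → Real.exp ((1 - Real.pi ^ 2 * b ^ 2 - 5 * ε) * ℓ) ≤
    (((Finset.range (M + 1)).filter (fun c : ℕ => (b - 3 * ε) * ℓ ≤ σ * F c)).card : ℝ)) ∧
    (((Finset.range (20 * M + 1)).filter (fun c : ℕ => b * ℓ ≤ |F c|)).card : ℝ) ≤
      Real.exp ((1 - Real.pi ^ 2 * b ^ 2 + ε) * ℓ)) ∧
  WN ε ℓ M T U1 U2 t F

open Classical in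
/-- the conclusion for an index -/
def CB (ε ℓ : ℝ) (B : Finset ℝ) (Mt n : ℕ) : Prop :=
  (∀ k : ℕ, k ≤ Mt → |Sr k n - k| ≤ (1 / Real.pi + 11 * ε) * ℓ) ∧
  ∀ b ∈ B, ∀ σ : ℝ, |σ| = 1 →
    Real.exp ((1 - Real.pi ^ 2 * b ^ 2 - 6 * ε) * ℓ) ≤
      (((Finset.Icc 1 Mt).filter (fun k => (b - 11 * ε) * ℓ ≤ σ * (Sr k n - k))).card : ℝ) ∧
    (((Finset.Icc 1 Mt).filter (fun k => (b + 11 * ε) * ℓ ≤ σ * (Sr k n - k))).card : ℝ) ≤
      Real.exp ((1 - Real.pi ^ 2 * b ^ 2 + 2 * ε) * ℓ)

/-- **good base points give the counts** -/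
theorem cb_of {ε ℓ : ℝ} {M Mt : ℕ} {T U1 U2 t : ℝ} {F G : ℕ → ℝ} {B : Finset ℝ} (hε : 0 < ε)
    (hε1 : ε ≤ 1 / 100) (hB : ∀ b ∈ B, 3 * ε ≤ b ∧ 6 * ε ≤ 1 - Real.pi ^ 2 * b ^ 2)
    (h : GC ε ℓ M B T U1 U2 t F)
    (hT : 10 ≤ T) (h' : GC ε ℓ M B T U1 U2 (t - 2 * Real.pi / Real.log T) G)
    {n : ℕ} (hn : 1 ≤ n) (hU1 : U1 < ord n)
    (hU2 : t + 2 * Real.pi * (20 * M) / Real.log T ≤ U2) (hTn : T ≤ ord n) (hU2T : U2 ≤ 2 * T)
    (h1 : ord n ≤ t) (h2 : t ≤ ord n + Real.pi / (2 * Real.log T)) (he : 1 ≤ ε * ℓ)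
    (hb : 2 * ((1 + ε) / Real.pi * ℓ) + 10 * (ε * ℓ) + 10 ≤ M)
    (hLM : 60 * (M : ℝ) ≤ Real.log T) (hM1 : 8 * M ≤ Mt) (hM2 : Mt ≤ 16 * M)
    (hN : 20 * ℓ ≤ Real.exp (ε * ℓ)) : CB ε ℓ B Mt n := by
  classical
  have hpi := Real.pi_pos
  have hpi3 := Real.pi_gt_three
  have hL : 0 < Real.log T := Real.log_pos (by linarith)
  obtain ⟨hF, hF0, hFc, hFw⟩ := h
  obtain ⟨hG, hG0, hGc, hGw⟩ := h'
  have D := dtn_of hFw hF hF0 hG hG0 hL hGw hn hU1 hU2 h1 h2 he hb
  have hM20 := D.M1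
  have hℓ : 0 < ℓ := by
    by_contra hc
    have : ε * ℓ ≤ 0 := mul_nonpos_of_nonneg_of_nonpos hε.le (not_lt.1 hc)
    linarith
  have hℓ100 : 100 ≤ ℓ := by
    have : ε * ℓ ≤ 1 / 100 * ℓ := mul_le_mul_of_nonneg_right hε1 hℓ.le
    linarith
  have hp : 1 / Real.pi ≤ 1 / 3 := one_div_le_one_div_of_le (by norm_num) hpi3.le
  have hH1 : (1 + ε) / Real.pi * ℓ = 1 / Real.pi * ℓ + 1 / Real.pi * (ε * ℓ) := by ring
  have hp1 : 1 / Real.pi * (ε * ℓ) ≤ 1 / 3 * (ε * ℓ) := mul_le_mul_of_nonneg_right hp (by linarith)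
  have hp2 : 1 / Real.pi * ℓ ≤ 1 / 3 * ℓ := mul_le_mul_of_nonneg_right hp hℓ.le
  have hp0 : 0 ≤ 1 / Real.pi * ℓ := by positivity
  have hp00 : 0 ≤ 1 / Real.pi * (ε * ℓ) := by positivity
  have heℓ : ε * ℓ ≤ 1 / 100 * ℓ := mul_le_mul_of_nonneg_right hε1 hℓ.le
  have cmp : ∀ k : ℕ, k ≤ 16 * M → Sr k n ≤ pos t (Real.log T) (n + k) - pos t (Real.log T) n ∧
      pos t (Real.log T) (n + k) - pos t (Real.log T) n - 1 ≤ Sr k n := fun k hk =>
    cmpS D hT hn hU2 hTn hU2T hU1 hLM hk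
  refine ⟨?_, ?_⟩
  · intro k hk
    have h3 := D.up0 (hk.trans hM2)
    have h4 := D.lo0 (hk.trans hM2)
    obtain ⟨c1, c2⟩ := cmp k (by omega)
    simp only [add_zero] at h3 h4
    rw [abs_le]
    have e1 : (1 / Real.pi + 11 * ε) * ℓ = 1 / Real.pi * ℓ + 11 * (ε * ℓ) := by ring
    rw [e1]
    constructor <;> linarith
  · intro b hbB σ hσ
    obtain ⟨hb3, hb6⟩ := hB b hbB
    obtain ⟨hFl, hFu⟩ := hFc b hbB
    obtain ⟨hGl, hGu⟩ := hGc b hbB
    set q := Real.pi ^ 2 * b ^ 2 with hq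
    have hqp : 0 ≤ q := by positivity
    -- numerics
    have n1 : Real.exp ((1 - q - 5 * ε) * ℓ) = Real.exp (ε * ℓ) * Real.exp ((1 - q - 6 * ε) * ℓ) := by
      rw [← Real.exp_add]; congr 1; ring
    have n2 : Real.exp ((1 - q + 2 * ε) * ℓ) = Real.exp (ε * ℓ) * Real.exp ((1 - q + ε) * ℓ) := by
      rw [← Real.exp_add]; congr 1; ring
    have n3 : 1 ≤ Real.exp ((1 - q - 6 * ε) * ℓ) := by
      apply Real.one_le_exp
      apply mul_nonneg _ hℓ.le
      linarith
    have n4 : 1 ≤ Real.exp ((1 - q + ε) * ℓ) := by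
      apply Real.one_le_exp
      apply mul_nonneg _ hℓ.le
      linarith
    set E6 := Real.exp ((1 - q - 6 * ε) * ℓ) with hE6
    set E1 := Real.exp ((1 - q + ε) * ℓ) with hE1
    have hH1p : 0 ≤ (1 + ε) / Real.pi * ℓ := by positivity
    -- removal of small positions
    have rem : ∀ (f : ℕ → ℝ), Real.exp ((1 - q - 5 * ε) * ℓ) ≤
        (((Finset.range (M + 1)).filter (fun c : ℕ => (b - 3 * ε) * ℓ ≤ f c)).card : ℝ) →
        ∀ S : Finset ℕ, (∀ c : ℕ, c ≤ M → (b - 3 * ε) * ℓ ≤ f c → 6 * (ε * ℓ) + 4 ≤ c → c ∈ S) →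
        Real.exp ((1 - q - 5 * ε) * ℓ) ≤ (S.card : ℝ) + (6 * (ε * ℓ) + 5) := by
      intro f hf S hS
      refine hf.trans ?_
      have hsub : (Finset.range (M + 1)).filter (fun c : ℕ => (b - 3 * ε) * ℓ ≤ f c) ⊆
          S ∪ Finset.range (⌈6 * (ε * ℓ) + 4⌉₊) := by
        intro c hc
        rw [Finset.mem_filter, Finset.mem_range] at hc
        rw [Finset.mem_union]
        by_cases h3 : 6 * (ε * ℓ) + 4 ≤ c
        · left
          exact hS c (by omega) hc.2 h3
        · right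
          rw [Finset.mem_range]
          rw [not_le] at h3
          exact Nat.lt_ceil.2 h3
      have h3 := (Finset.card_le_card hsub).trans (Finset.card_union_le _ _)
      rw [Finset.card_range] at h3
      have h4 : (((Finset.range (M + 1)).filter (fun c : ℕ => (b - 3 * ε) * ℓ ≤ f c)).card : ℝ) ≤
        (S.card : ℝ) + (⌈6 * (ε * ℓ) + 4⌉₊ : ℝ) := by exact_mod_cast h3
      have h5 := (Nat.ceil_lt_add_one (show 0 ≤ 6 * (ε * ℓ) + 4 by linarith)).le
      linarith
    have fin : ∀ (S Q : Finset ℕ), Real.exp ((1 - q - 5 * ε) * ℓ) ≤ (S.card : ℝ) +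
        (6 * (ε * ℓ) + 5) → (S.card : ℝ) ≤ (2 * ((1 + ε) / Real.pi * ℓ) + 4 * (ε * ℓ) + 5) * Q.card →
        E6 ≤ Q.card := by
      intro S Q hS hQ
      rw [n1] at hS
      by_contra hcon
      rw [not_le] at hcon
      have h3 : (2 * ((1 + ε) / Real.pi * ℓ) + 4 * (ε * ℓ) + 5) * (Q.card : ℝ) ≤
          (2 * ((1 + ε) / Real.pi * ℓ) + 4 * (ε * ℓ) + 5) * E6 :=
        mul_le_mul_of_nonneg_left hcon.le (by linarith)
      have h4 : 20 * ℓ * E6 ≤ Real.exp (ε * ℓ) * E6 :=
        mul_le_mul_of_nonneg_right hN (by linarith)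
      have h5 : (6 * (ε * ℓ) + 5) * 1 ≤ (6 * (ε * ℓ) + 5) * E6 :=
        mul_le_mul_of_nonneg_left n3 (by linarith)
      have h6 : (2 * ((1 + ε) / Real.pi * ℓ) + 4 * (ε * ℓ) + 5) * E6 + (6 * (ε * ℓ) + 5) * E6 <
          20 * ℓ * E6 := by
        rw [← add_mul]
        apply mul_lt_mul_of_pos_right _ (by linarith)
        linarith
      linarith
    rcases (abs_eq zero_le_one).1 hσ with h3 | h3
    · rw [h3]
      simp only [one_mul]
      constructor
      · -- high values, lower bound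
        set S := (Finset.range (M + 1)).filter
          (fun c : ℕ => (b - 3 * ε) * ℓ ≤ -1 * G c ∧ 6 * (ε * ℓ) + 4 ≤ c) with hS
        have r1 := rem (fun c => -1 * G c) (hGl (-1) (by norm_num)) S (fun c hc h4 h5 => by
          rw [hS, Finset.mem_filter, Finset.mem_range]
          exact ⟨by omega, h4, h5⟩)
        have r2 := D.cfew (H := (b - 3 * ε) * ℓ) (S := S) (fun c hc => by
          rw [hS, Finset.mem_filter, Finset.mem_range] at hc
          obtain ⟨q1, q2, q3⟩ := hc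
          exact ⟨by linarith, by omega, by linarith⟩)
        refine (fin S _ r1 r2).trans ?_
        have h4 : ((Finset.Icc 1 (4 * M)).filter (fun k : ℕ => (k : ℝ) + (b - 3 * ε) * ℓ -
            5 * (ε * ℓ) - 2 ≤ pos t (Real.log T) (n + k) - pos t (Real.log T) (n + 0))).card ≤
            ((Finset.Icc 1 Mt).filter (fun k : ℕ => (b - 11 * ε) * ℓ ≤ Sr k n - k)).card := by
          apply Finset.card_le_card
          intro k hk
          rw [Finset.mem_filter, Finset.mem_Icc] at hk ⊢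
          obtain ⟨⟨k1, k2⟩, k3⟩ := hk
          rw [add_zero] at k3
          obtain ⟨c1, c2⟩ := cmp k (by omega)
          refine ⟨⟨k1, by omega⟩, ?_⟩
          have e1 : (b - 11 * ε) * ℓ = (b - 3 * ε) * ℓ - 8 * (ε * ℓ) := by ring
          rw [e1]
          linarith
        exact_mod_cast h4
      · -- high values, upper bound
        have r1 := D.ufew (X := (b + 11 * ε) * ℓ) (by
          have e1 : (b + 11 * ε) * ℓ = b * ℓ + 11 * (ε * ℓ) := by ring
          have e2 : 0 ≤ b * ℓ := mul_nonneg (by linarith) hℓ.le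
          rw [e1]
          linarith) hM2
        have h4 : ((Finset.Icc 1 Mt).filter (fun k : ℕ => (b + 11 * ε) * ℓ ≤ Sr k n - k)).card ≤
            ((Finset.Icc 1 Mt).filter (fun k : ℕ => (k : ℝ) + (b + 11 * ε) * ℓ ≤
              pos t (Real.log T) (n + k) - pos t (Real.log T) (n + 0))).card := by
          apply Finset.card_le_card
          intro k hk
          rw [Finset.mem_filter, Finset.mem_Icc] at hk ⊢
          obtain ⟨⟨k1, k2⟩, k3⟩ := hk
          rw [add_zero]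
          obtain ⟨c1, c2⟩ := cmp k (by omega)
          exact ⟨⟨k1, by omega⟩, by linarith⟩
        have h5 : ((Finset.range (20 * M + 1)).filter
            (fun c : ℕ => F c ≤ -((b + 11 * ε) * ℓ - 5 * (ε * ℓ) - 3))).card ≤
            ((Finset.range (20 * M + 1)).filter (fun c : ℕ => b * ℓ ≤ |F c|)).card := by
          apply Finset.card_le_card
          intro c hc
          rw [Finset.mem_filter] at hc ⊢
          refine ⟨hc.1, ?_⟩
          have e1 : (b + 11 * ε) * ℓ = b * ℓ + 11 * (ε * ℓ) := by ring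
          have h6 := hc.2
          rw [e1] at h6
          have h7 := neg_le_abs (F c)
          linarith
        have h4' : (((Finset.Icc 1 Mt).filter (fun k : ℕ => (b + 11 * ε) * ℓ ≤ Sr k n - k)).card : ℝ) ≤
            (((Finset.Icc 1 Mt).filter (fun k : ℕ => (k : ℝ) + (b + 11 * ε) * ℓ ≤
              pos t (Real.log T) (n + k) - pos t (Real.log T) (n + 0))).card : ℝ) := by
          exact_mod_cast h4
        have h5' : (((Finset.range (20 * M + 1)).filter
            (fun c : ℕ => F c ≤ -((b + 11 * ε) * ℓ - 5 * (ε * ℓ) - 3))).card : ℝ) ≤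
            (((Finset.range (20 * M + 1)).filter (fun c : ℕ => b * ℓ ≤ |F c|)).card : ℝ) := by
          exact_mod_cast h5
        refine h4'.trans (r1.trans ?_)
        rw [n2]
        calc _ ≤ (2 * ((1 + ε) / Real.pi * ℓ) + 6 * (ε * ℓ) + 4) * E1 := by
              apply mul_le_mul_of_nonneg_left (h5'.trans hFu) (by linarith)
          _ ≤ (20 * ℓ) * E1 := by
              apply mul_le_mul_of_nonneg_right _ (by linarith)
              linarith
          _ ≤ _ := mul_le_mul_of_nonneg_right hN (by linarith)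
    · rw [h3]
      constructor
      · -- low values, lower bound
        set S := (Finset.range (M + 1)).filter
          (fun c : ℕ => (b - 3 * ε) * ℓ ≤ 1 * F c ∧ 6 * (ε * ℓ) + 4 ≤ c) with hS
        have r1 := rem (fun c => 1 * F c) (hFl 1 (by norm_num)) S (fun c hc h4 h5 => by
          rw [hS, Finset.mem_filter, Finset.mem_range]
          exact ⟨by omega, h4, h5⟩)
        have r2 := D.cmany (H := (b - 3 * ε) * ℓ) (mul_nonneg (by linarith) hℓ.le) (S := S)
          (fun c hc => by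
          rw [hS, Finset.mem_filter, Finset.mem_range] at hc
          obtain ⟨q1, q2, q3⟩ := hc
          exact ⟨by linarith, by omega, by linarith⟩)
        refine (fin S _ r1 r2).trans ?_
        have h4 : ((Finset.Icc 1 (4 * M)).filter (fun k : ℕ =>
            pos t (Real.log T) (n + k) - pos t (Real.log T) (n + 0) ≤
            (k : ℝ) - (b - 3 * ε) * ℓ + 5 * (ε * ℓ) + 2)).card ≤
            ((Finset.Icc 1 Mt).filter (fun k : ℕ => (b - 11 * ε) * ℓ ≤ -1 * (Sr k n - k))).card := by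
          apply Finset.card_le_card
          intro k hk
          rw [Finset.mem_filter, Finset.mem_Icc] at hk ⊢
          obtain ⟨⟨k1, k2⟩, k3⟩ := hk
          rw [add_zero] at k3
          obtain ⟨c1, c2⟩ := cmp k (by omega)
          refine ⟨⟨k1, by omega⟩, ?_⟩
          have e1 : (b - 11 * ε) * ℓ = (b - 3 * ε) * ℓ - 8 * (ε * ℓ) := by ring
          rw [e1]
          linarith
        exact_mod_cast h4
      · -- low values, upper bound
        have r1 := D.umany (X := (b + 11 * ε) * ℓ - 1) hM2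
        have h4 : ((Finset.Icc 1 Mt).filter (fun k : ℕ => (b + 11 * ε) * ℓ ≤
            -1 * (Sr k n - k))).card ≤
            ((Finset.Icc 1 Mt).filter (fun k : ℕ =>
              pos t (Real.log T) (n + k) - pos t (Real.log T) (n + 0) ≤
              (k : ℝ) - ((b + 11 * ε) * ℓ - 1))).card := by
          apply Finset.card_le_card
          intro k hk
          rw [Finset.mem_filter, Finset.mem_Icc] at hk ⊢
          obtain ⟨⟨k1, k2⟩, k3⟩ := hk
          rw [add_zero]
          obtain ⟨c1, c2⟩ := cmp k (by omega)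
          exact ⟨⟨k1, by omega⟩, by linarith⟩
        have h5 : ((Finset.range (20 * M + 1)).filter
            (fun c : ℕ => ((b + 11 * ε) * ℓ - 1) - 5 * (ε * ℓ) - 1 ≤ G c)).card ≤
            ((Finset.range (20 * M + 1)).filter (fun c : ℕ => b * ℓ ≤ |G c|)).card := by
          apply Finset.card_le_card
          intro c hc
          rw [Finset.mem_filter] at hc ⊢
          refine ⟨hc.1, ?_⟩
          have e1 : (b + 11 * ε) * ℓ = b * ℓ + 11 * (ε * ℓ) := by ring
          have h6 := hc.2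
          rw [e1] at h6
          have h7 := le_abs_self (G c)
          linarith
        have h4' : (((Finset.Icc 1 Mt).filter (fun k : ℕ => (b + 11 * ε) * ℓ ≤
            -1 * (Sr k n - k))).card : ℝ) ≤
            (((Finset.Icc 1 Mt).filter (fun k : ℕ =>
              pos t (Real.log T) (n + k) - pos t (Real.log T) (n + 0) ≤
              (k : ℝ) - ((b + 11 * ε) * ℓ - 1))).card : ℝ) := by
          exact_mod_cast h4
        have h5' : (((Finset.range (20 * M + 1)).filter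
            (fun c : ℕ => ((b + 11 * ε) * ℓ - 1) - 5 * (ε * ℓ) - 1 ≤ G c)).card : ℝ) ≤
            (((Finset.range (20 * M + 1)).filter (fun c : ℕ => b * ℓ ≤ |G c|)).card : ℝ) := by
          exact_mod_cast h5
        refine h4'.trans (r1.trans ?_)
        rw [n2]
        have h6 : ((1 + ε) / Real.pi * ℓ + 9 * (ε * ℓ) + 3) * 1 ≤
            ((1 + ε) / Real.pi * ℓ + 9 * (ε * ℓ) + 3) * E1 :=
          mul_le_mul_of_nonneg_left n4 (by linarith)
        calc _ ≤ (2 * ((1 + ε) / Real.pi * ℓ) + 6 * (ε * ℓ) + 5) * E1 +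
              ((1 + ε) / Real.pi * ℓ + 9 * (ε * ℓ) + 3) * E1 := by
              have h7 := mul_le_mul_of_nonneg_left (h5'.trans hGu)
                (show 0 ≤ 2 * ((1 + ε) / Real.pi * ℓ) + 6 * (ε * ℓ) + 5 by linarith)
              linarith
          _ = (3 * ((1 + ε) / Real.pi * ℓ) + 15 * (ε * ℓ) + 8) * E1 := by ring
          _ ≤ (20 * ℓ) * E1 := by
              apply mul_le_mul_of_nonneg_right _ (by linarith)
              linarith
          _ ≤ _ := mul_le_mul_of_nonneg_right hN (by linarith)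

end Pool.Agent.T9h26.TD
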