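import Pool.Agent.T9h26.TD.Zj

set_option autoImplicit false

/-! The law of large numbers for the extremes. -/

open Complex Filter Topology Set MeasureTheory

namespace Pool.Agent.T9h26.TD

open TC (ordz ordT mu EFD)
open SG (ord NZ zmult ZS)
open W200.HW (Ix mem_Ix)
open Pool.Agent.Y747 (al dl Bx mem_Bx Jx mem_Jx)

/-- numerical conditions on the block length -/
lemma len_ev {ε : ℝ} (hε : 0 < ε) (hε1 : ε ≤ 1 / 100) : ∃ M0 : ℕ, ∀ M : ℕ, M0 ≤ M →
    1 ≤ ε * Real.log M ∧ 2 * ((1 + ε) / Real.pi * Real.log M) + 10 * (ε * Real.log M) + 10 ≤ M ∧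
    20 ≤ M ∧ ∀ Mt : ℕ, 8 * M ≤ Mt → Mt ≤ 16 * M → Real.log M ≤ Real.log Mt ∧
      Real.log Mt ≤ (1 + ε) * Real.log M := by
  have hpi3 := Real.pi_gt_three
  have ht : Tendsto (fun M : ℕ => Real.log M) atTop atTop :=
    Real.tendsto_log_atTop.comp tendsto_natCast_atTop_atTop
  have hlo : ∀ᶠ M : ℕ in atTop, Real.log M ≤ 1 / 4 * M := by
    have h1 := (Real.isLittleO_log_id_atTop.bound (show (0 : ℝ) < 1 / 4 by norm_num))
    have h2 := tendsto_natCast_atTop_atTop (R := ℝ) |>.eventually h1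
    filter_upwards [h2] with M hM
    have h3 : ‖((M : ℕ) : ℝ)‖ = M := by
      rw [Real.norm_eq_abs, abs_of_nonneg (Nat.cast_nonneg M)]
    rw [id, h3, Real.norm_eq_abs] at hM
    exact (le_abs_self _).trans hM
  obtain ⟨M0, hM0⟩ := eventually_atTop.1 ((ht.eventually_ge_atTop (3 / ε)).and
    (hlo.and (eventually_ge_atTop 60)))
  refine ⟨M0, fun M hM => ?_⟩
  obtain ⟨h1, h2, h3⟩ := hM0 M hM
  have hM60 : (60 : ℝ) ≤ M := by exact_mod_cast h3
  rw [div_le_iff₀ hε] at h1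
  have hl : 0 < Real.log M := Real.log_pos (by linarith)
  refine ⟨by linarith, ?_, by omega, fun Mt a1 a2 => ⟨?_, ?_⟩⟩
  · have h4 : (1 + ε) / Real.pi ≤ 1 / 2 := by
      rw [div_le_iff₀ Real.pi_pos]
      linarith
    have h5 : (1 + ε) / Real.pi * Real.log M ≤ 1 / 2 * Real.log M :=
      mul_le_mul_of_nonneg_right h4 hl.le
    have h6 : ε * Real.log M ≤ 1 / 100 * Real.log M := mul_le_mul_of_nonneg_right hε1 hl.le
    linarith
  · apply Real.log_le_log (by linarith)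
    exact_mod_cast (by omega : M ≤ Mt)
  · have h4 : Real.log Mt ≤ Real.log (16 * M) := by
      apply Real.log_le_log
      · have : (0 : ℝ) < Mt := by exact_mod_cast (by omega : 0 < Mt)
        exact this
      · exact_mod_cast a2
    rw [Real.log_mul (by norm_num) (by linarith)] at h4
    have h5 : Real.log 16 ≤ 3 := by
      have h7 : Real.log 16 = Real.log (2 ^ 4) := by norm_num
      rw [h7, Real.log_pow]
      have := log2_bd
      push_cast
      linarith
    linarith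

/-- **the extremes** -/
theorem extr (RH : RiemannHypothesis) {δ : ℝ} (hδ : 0 < δ) : ∃ M0 : ℕ, 2 ≤ M0 ∧
    ∀ M : ℕ, M0 ≤ M → ∀ᶠ N : ℕ in atTop,
      (({n : ℕ | 1 ≤ n ∧ n ≤ N ∧ ¬ EX δ M n}.ncard : ℕ) : ℝ) ≤ δ * N := by
  have hpi := Real.pi_pos
  have hpi4 := Real.pi_le_four
  obtain ⟨C', T0, hC', hT0, hef⟩ := Pool.Agent.W930.TCEFR.efr RH
  obtain ⟨C3, hC3, hcov⟩ := cover RH hC'
  have hC30 : 0 < C3 := by linarith
  -- the parameters
  set A := 1 + Real.log (28 * C3 / δ + 1) with hA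
  have hq : 0 < 28 * C3 / δ := by positivity
  have hA1 : 1 ≤ A := by
    have := Real.log_nonneg (show 1 ≤ 28 * C3 / δ + 1 by linarith)
    linarith
  have hA2 : C3 * Real.exp (-A) ≤ δ / 28 := by
    have h1 : Real.exp (-A) ≤ 1 / (28 * C3 / δ) := by
      rw [Real.exp_neg, one_div]
      apply inv_anti₀ hq
      calc 28 * C3 / δ ≤ 28 * C3 / δ + 1 := by linarith
        _ = Real.exp (Real.log (28 * C3 / δ + 1)) := (Real.exp_log (by linarith)).symm
        _ ≤ Real.exp A := Real.exp_le_exp.2 (by linarith)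
    calc C3 * Real.exp (-A) ≤ C3 * (1 / (28 * C3 / δ)) := by gcongr
      _ = δ / 28 := by
        field_simp
  set ε := min (min (1 / 100) (δ / 20)) (δ / (28 * (C3 * A * 63))) with hεd
  have hε : 0 < ε := lt_min (lt_min (by norm_num) (by positivity)) (by positivity)
  have hε1 : ε ≤ 1 / 100 := (min_le_left _ _).trans (min_le_left _ _)
  have hε2 : 20 * ε ≤ δ := by
    have : ε ≤ δ / 20 := (min_le_left _ _).trans (min_le_right _ _)
    linarith
  have hε3 : C3 * A * (63 * ε) ≤ δ / 28 := by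
    have : ε ≤ δ / (28 * (C3 * A * 63)) := min_le_right _ _
    rw [le_div_iff₀ (by positivity)] at this
    linarith
  clear_value A ε
  set K := ⌈120 / ε ^ 2⌉₊ with hK
  have hK1 : 120 / ε ^ 2 ≤ K := Nat.le_ceil _
  have hK2 : 1 ≤ K := by
    have h1 : (0 : ℝ) < 120 / ε ^ 2 := by positivity
    exact Nat.one_le_iff_ne_zero.2 (Nat.ceil_pos.2 h1).ne'
  clear_value K
  obtain ⟨M1, hM1⟩ := np_ev hε (by linarith) hK1
  obtain ⟨M2, -, hM2⟩ := fld hε (by linarith) hK2
  obtain ⟨M3, hM3⟩ := len_ev hε hε1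
  refine ⟨8 * (max M1 (max M2 M3) + 1), by omega, fun Mt hMt => ?_⟩
  obtain ⟨M, m1, m2, m3⟩ : ∃ M : ℕ, max M1 (max M2 M3) ≤ M ∧ 8 * M ≤ Mt ∧ Mt ≤ 16 * M :=
    ⟨Mt / 8, by omega, by omega, by omega⟩
  have g1 : M1 ≤ M := (le_max_left _ _).trans m1
  have g2 : M2 ≤ M := ((le_max_left _ _).trans (le_max_right _ _)).trans m1
  have g3 : M3 ≤ M := ((le_max_right _ _).trans (le_max_right _ _)).trans m1
  obtain ⟨n1, n2, n3, n4⟩ := hM3 M g3
  obtain ⟨l1, l2⟩ := n4 Mt m2 m3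
  have hM20 : (20 : ℝ) ≤ M := by exact_mod_cast n3
  obtain ⟨T1, hT1, hb⟩ := blk RH hC' hε (by linarith) (hM1 M g1) (by omega) (hM2 M g2)
  obtain ⟨T2, hT2, hcv⟩ := hcov A hA1
  have ev : ∀ᶠ T : ℝ in atTop, 60 * (M : ℝ) ≤ Real.log T :=
    Real.tendsto_log_atTop.eventually_ge_atTop _
  obtain ⟨T3, hT3⟩ := eventually_atTop.1 ev
  refine trans_all RH (P := fun n => ¬ EX δ Mt n) hδ hT0 hef
    ⟨max (max T1 T2) (max T3 (1 / ε)), hT1.trans ((le_max_left _ _).trans (le_max_left _ _)),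
    fun T hT U1 U2 hU1 hU1' hU2 hU2' hE B hB hP => ?_⟩
  have a1 : T1 ≤ T := ((le_max_left _ _).trans (le_max_left _ _)).trans hT
  have a2 : T2 ≤ T := ((le_max_right _ _).trans (le_max_left _ _)).trans hT
  have a3 : T3 ≤ T := ((le_max_left _ _).trans (le_max_right _ _)).trans hT
  have a4 : 1 / ε ≤ T := ((le_max_right _ _).trans (le_max_right _ _)).trans hT
  have hT10 : 10 ≤ T := hT1.trans a1
  have hT0 : 0 < T := by linarith
  have b3 := hT3 T a3
  have hL : 0 < Real.log T := by linarith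
  obtain ⟨Bad, hBad, hgood⟩ := hb T a1 U1 U2 (by linarith) hE
  have hu : 2 * Real.pi / Real.log T ≤ 1 := by
    rw [div_le_one hL]
    linarith
  have hu0 : 0 < 2 * Real.pi / Real.log T := by positivity
  have hv : Real.pi / (2 * Real.log T) ≤ 1 := by
    rw [div_le_one (by positivity)]
    linarith
  have hw : 2 * Real.pi * (20 * M) / Real.log T ≤ 3 := by
    rw [div_le_iff₀ hL]
    nlinarith
  have hcard := hcv T a2 U1 U2 (by linarith) hE B
    (Bad ∪ {t | t + -(2 * Real.pi / Real.log T) ∈ Bad}) hB (fun n hn => (hP n hn).2)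
    (fun n hn t ht1 ht2 => by
      obtain ⟨p1, p2, p3⟩ := hP n hn
      obtain ⟨hn1, q2, q3⟩ := mem_Kx.1 (hB hn)
      by_contra hcon
      rw [mem_union, not_or] at hcon
      obtain ⟨r1, r2⟩ := hcon
      obtain ⟨F, hF⟩ := hgood t (by linarith) (by linarith) r1
      obtain ⟨G, hG⟩ := hgood (t + -(2 * Real.pi / Real.log T)) (by linarith) (by linarith) r2
      rw [← sub_eq_add_neg] at hG
      apply p1
      exact ex_of hε hε1 hε2 hF hT10 hG hn1 q2 (by linarith) (by linarith) hU2' ht1 ht2 n1 n2 b3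
        m2 m3 l1 l2)
  have hms : ms T (Bad ∪ {t | t + -(2 * Real.pi / Real.log T) ∈ Bad}) ≤ 63 * ε * T := by
    have h1 := ms_union T Bad {t | t + -(2 * Real.pi / Real.log T) ∈ Bad}
    have h2 := ms_shift_abs (T := T) (-(2 * Real.pi / Real.log T)) Bad
    rw [abs_neg, abs_of_pos hu0] at h2
    rw [div_le_iff₀ hε] at a4
    linarith
  calc (B.card : ℝ) ≤ Real.log T * (C3 * A *
        ms T (Bad ∪ {t | t + -(2 * Real.pi / Real.log T) ∈ Bad}) + C3 * Real.exp (-A) * T) := hcard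
    _ ≤ Real.log T * (C3 * A * (63 * ε * T) + C3 * Real.exp (-A) * T) := by gcongr
    _ = Real.log T * T * (C3 * A * (63 * ε) + C3 * Real.exp (-A)) := by ring
    _ ≤ Real.log T * T * (δ / 28 + δ / 28) := by gcongr
    _ ≤ Real.log T * T * (1 / 7 * δ) := by
        apply mul_le_mul_of_nonneg_left _ (by positivity)
        linarith
    _ = _ := by ring

end Pool.Agent.T9h26.TD
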