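import Pool.Agent.T9h26.TD.Te
import Pool.Agent.T9h26.TD.Zl

set_option autoImplicit false

/-! The numbers of high and low values: all levels, all indices. -/

open Complex Filter Topology Set MeasureTheory

namespace Pool.Agent.T9h26.TD

open TC (ordz ordT mu EFD)
open SG (ord NZ zmult ZS)
open W200.HW (Ix mem_Ix)
open Pool.Agent.Y747 (al dl Bx mem_Bx Jx mem_Jx)

open Classical in
/-- the number of the values at least `a log M` is `M ^ (1 - π² a² + O(δ))`, and the values are at most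
`(1 / π + δ) log M` -/
def TH (δ : ℝ) (M : ℕ) (x : ℕ → ℝ) : Prop :=
  (∀ k : ℕ, 1 ≤ k → k ≤ M → x k ≤ (1 / Real.pi + δ) * Real.log M) ∧
  ∀ a : ℝ, 0 ≤ a → a ≤ 1 / Real.pi - δ →
    Real.exp ((1 - Real.pi ^ 2 * a ^ 2 - δ) * Real.log M) ≤
      (((Finset.Icc 1 M).filter (fun k => a * Real.log M ≤ x k)).card : ℝ) ∧
    (((Finset.Icc 1 M).filter (fun k => a * Real.log M ≤ x k)).card : ℝ) ≤
      Real.exp ((1 - Real.pi ^ 2 * a ^ 2 + δ) * Real.log M)

/-- the grid of levels -/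
noncomputable def grid (δ : ℝ) : Finset ℝ :=
  (Finset.Icc 1 ⌊(1 / Real.pi - δ / 2) / (δ / 40)⌋₊).image (fun j : ℕ => (j : ℝ) * (δ / 40))

lemma mem_grid {δ : ℝ} (hδ : 0 < δ) {j : ℕ} (h1 : 1 ≤ j)
    (h2 : (j : ℝ) * (δ / 40) ≤ 1 / Real.pi - δ / 2) : (j : ℝ) * (δ / 40) ∈ grid δ := by
  unfold grid
  rw [Finset.mem_image]
  refine ⟨j, ?_, rfl⟩
  rw [Finset.mem_Icc]
  refine ⟨h1, Nat.le_floor ?_⟩
  rwa [le_div_iff₀ (by positivity)]

lemma grid_bd {δ : ℝ} (hδ : 0 < δ) (hδ1 : δ ≤ 1 / 10) {b : ℝ} (h : b ∈ grid δ) :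
    δ / 40 ≤ b ∧ b ≤ 1 / Real.pi - δ / 2 ∧ Real.pi ^ 2 * b ^ 2 ≤ 1 - 2 * δ := by
  have hpi := Real.pi_pos
  have hpi3 := Real.pi_gt_three
  have hpi4 := Real.pi_le_four
  unfold grid at h
  rw [Finset.mem_image] at h
  obtain ⟨j, hj, rfl⟩ := h
  rw [Finset.mem_Icc] at hj
  have h1 : (1 : ℝ) ≤ j := by exact_mod_cast hj.1
  have hp' : 1 / 4 ≤ 1 / Real.pi := one_div_le_one_div_of_le hpi hpi4
  have h3 : 0 ≤ (1 / Real.pi - δ / 2) / (δ / 40) := by
    apply div_nonneg _ (by positivity)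
    linarith
  have h2 : (j : ℝ) ≤ (1 / Real.pi - δ / 2) / (δ / 40) := by
    have : (j : ℝ) ≤ ⌊(1 / Real.pi - δ / 2) / (δ / 40)⌋₊ := by exact_mod_cast hj.2
    exact this.trans (Nat.floor_le h3)
  rw [le_div_iff₀ (by positivity)] at h2
  have h0 : δ / 40 ≤ (j : ℝ) * (δ / 40) := by
    have : 1 * (δ / 40) ≤ (j : ℝ) * (δ / 40) := mul_le_mul_of_nonneg_right h1 (by positivity)
    linarith
  refine ⟨h0, h2, ?_⟩
  set b := (j : ℝ) * (δ / 40)
  have h4 : Real.pi * b ≤ 1 - Real.pi * δ / 2 := by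
    have := mul_le_mul_of_nonneg_left h2 hpi.le
    have e : Real.pi * (1 / Real.pi - δ / 2) = 1 - Real.pi * δ / 2 := by
      field_simp
    rwa [e] at this
  have hb0 : 0 ≤ b := by linarith
  have h5 : Real.pi ^ 2 * b ^ 2 = (Real.pi * b) ^ 2 := by ring
  rw [h5]
  have h6 : (Real.pi * b) ^ 2 ≤ (1 - Real.pi * δ / 2) ^ 2 :=
    pow_le_pow_left₀ (by positivity) h4 2
  have h7 : 3 * δ ≤ Real.pi * δ := mul_le_mul_of_nonneg_right hpi3.le hδ.le
  have h8 : Real.pi * δ ≤ 4 * δ := mul_le_mul_of_nonneg_right hpi4 hδ.le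
  have h9 : (1 - Real.pi * δ / 2) ^ 2 ≤ (1 - 3 * δ / 2) ^ 2 :=
    pow_le_pow_left₀ (by linarith) (by linarith) 2
  nlinarith

open Classical in
/-- **all levels** -/
theorem th_of {δ ε ℓ : ℝ} (hδ : 0 < δ) (hδ1 : δ ≤ 1 / 10) (hε : 0 < ε) (hε1 : ε ≤ δ / 4000)
    {Mt n : ℕ} (hMt : 1 ≤ Mt) (hℓ : 0 < ℓ) (l1 : ℓ ≤ Real.log Mt) (l2 : Real.log Mt ≤ (1 + ε) * ℓ)
    (h : CB ε ℓ (grid δ) Mt n) {σ : ℝ} (hσ : |σ| = 1) : TH δ Mt (fun k => σ * (Sr k n - k)) := by
  classical
  have hpi := Real.pi_pos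
  have hpi3 := Real.pi_gt_three
  have hpi4 := Real.pi_le_four
  have hp : 1 / Real.pi ≤ 1 / 3 := one_div_le_one_div_of_le (by norm_num) hpi3.le
  have hp' : 1 / 4 ≤ 1 / Real.pi := one_div_le_one_div_of_le hpi hpi4
  obtain ⟨hmax, hcnt⟩ := h
  have hMexp : (Mt : ℝ) = Real.exp (Real.log Mt) := by
    rw [Real.exp_log]
    exact_mod_cast hMt
  refine ⟨?_, ?_⟩
  · intro k _ hk
    have h1 := hmax k hk
    have h2 : σ * (Sr k n - k) ≤ |Sr k n - k| := by
      calc σ * (Sr k n - k) ≤ |σ * (Sr k n - k)| := le_abs_self _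
        _ = |Sr k n - k| := by rw [abs_mul, hσ, one_mul]
    refine h2.trans (h1.trans ?_)
    apply mul_le_mul _ l1 hℓ.le (by positivity)
    linarith
  · intro a ha0 ha1
    have ha3 : a ≤ 1 / 3 := by linarith
    set η := δ / 40 with hη
    have hη0 : 0 < η := by positivity
    have hηε : 100 * ε ≤ η := by rw [hη]; linarith
    have hfl : ((⌊a / η⌋₊ : ℕ) : ℝ) ≤ a / η := Nat.floor_le (by positivity)
    have hfl2 := Nat.lt_floor_add_one (a / η)
    rw [le_div_iff₀ hη0] at hfl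
    rw [div_lt_iff₀ hη0] at hfl2
    generalize hLL : Real.log Mt = LL at *
    have hLL0 : 0 < LL := by linarith
    have hsqd : ∀ x y : ℝ, 0 ≤ x → x ≤ y → y ≤ 1 / 3 → y - x ≤ 2 * η →
        Real.pi ^ 2 * y ^ 2 - Real.pi ^ 2 * x ^ 2 ≤ 14 * η := by
      intro x y hx hxy hy hd
      have e1 : Real.pi ^ 2 * y ^ 2 - Real.pi ^ 2 * x ^ 2 = Real.pi ^ 2 * ((y - x) * (y + x)) := by
        ring
      rw [e1]
      have e2 : (y - x) * (y + x) ≤ (2 * η) * (2 / 3) := by
        apply mul_le_mul hd (by linarith) (by linarith) (by positivity)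
      have e3 : Real.pi ^ 2 ≤ 10 := by
        have := Real.pi_lt_d2
        nlinarith
      have e4 : 0 ≤ (y - x) * (y + x) := mul_nonneg (by linarith) (by linarith)
      calc Real.pi ^ 2 * ((y - x) * (y + x)) ≤ 10 * ((2 * η) * (2 / 3)) := by
            apply mul_le_mul e3 e2 e4 (by norm_num)
        _ ≤ 14 * η := by linarith
    constructor
    · -- lower bound
      set j := ⌊a / η⌋₊ + 2 with hj
      have hjr : ((j : ℕ) : ℝ) * η = (⌊a / η⌋₊ : ℝ) * η + 2 * η := by
        rw [hj]; push_cast; ring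
      have hb1 : a + η ≤ (j : ℝ) * η := by rw [hjr]; linarith
      have hb2 : (j : ℝ) * η ≤ a + 2 * η := by rw [hjr]; linarith
      have hmem : (j : ℝ) * η ∈ grid δ := by
        apply mem_grid hδ (by omega)
        rw [hη] at hb2
        linarith
      obtain ⟨h1, -⟩ := hcnt _ hmem σ hσ
      have h2 : (j : ℝ) * η ≤ 1 / 3 := by
        rw [hη] at hb2 ⊢
        linarith
      have h3 := hsqd a ((j : ℝ) * η) ha0 (by linarith) h2 (by linarith)
      generalize (j : ℝ) * η = b at *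
      have h4 : ((Finset.Icc 1 Mt).filter (fun k : ℕ => (b - 11 * ε) * ℓ ≤ σ * (Sr k n - k))).card ≤
          ((Finset.Icc 1 Mt).filter (fun k : ℕ => a * LL ≤ σ * (Sr k n - k))).card := by
        apply Finset.card_le_card
        intro k hk
        rw [Finset.mem_filter] at hk ⊢
        refine ⟨hk.1, le_trans ?_ hk.2⟩
        calc a * LL ≤ a * ((1 + ε) * ℓ) := mul_le_mul_of_nonneg_left l2 ha0
          _ = (a + a * ε) * ℓ := by ring
          _ ≤ (b - 11 * ε) * ℓ := by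
              apply mul_le_mul_of_nonneg_right _ hℓ.le
              have : a * ε ≤ 1 / 3 * ε := mul_le_mul_of_nonneg_right ha3 hε.le
              linarith
      have h4' : (((Finset.Icc 1 Mt).filter
          (fun k : ℕ => (b - 11 * ε) * ℓ ≤ σ * (Sr k n - k))).card : ℝ) ≤
          (((Finset.Icc 1 Mt).filter (fun k : ℕ => a * LL ≤ σ * (Sr k n - k))).card : ℝ) := by
        exact_mod_cast h4
      refine le_trans ?_ (h1.trans h4')
      apply Real.exp_le_exp.2
      set u := 1 - Real.pi ^ 2 * a ^ 2 - δ with hu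
      have hu1 : u + ε ≤ 1 - Real.pi ^ 2 * b ^ 2 - 6 * ε := by
        rw [hu]
        have : 14 * η ≤ δ / 2 := by rw [hη]; linarith
        linarith
      have hu2 : u ≤ 1 := by
        rw [hu]
        have : 0 ≤ Real.pi ^ 2 * a ^ 2 := by positivity
        linarith
      rcases le_or_gt 0 u with h5 | h5
      · calc u * LL ≤ u * ((1 + ε) * ℓ) := mul_le_mul_of_nonneg_left l2 h5
          _ = (u + u * ε) * ℓ := by ring
          _ ≤ (1 - Real.pi ^ 2 * b ^ 2 - 6 * ε) * ℓ := by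
              apply mul_le_mul_of_nonneg_right _ hℓ.le
              have : u * ε ≤ 1 * ε := mul_le_mul_of_nonneg_right hu2 hε.le
              linarith
      · calc u * LL ≤ u * ℓ := mul_le_mul_of_nonpos_left l1 h5.le
          _ ≤ (1 - Real.pi ^ 2 * b ^ 2 - 6 * ε) * ℓ := by
              apply mul_le_mul_of_nonneg_right _ hℓ.le
              linarith
    · -- upper bound
      rcases lt_or_ge a (2 * η) with h2η | h2η
      · have h1 : (((Finset.Icc 1 Mt).filter
            (fun k : ℕ => a * LL ≤ σ * (Sr k n - k))).card : ℝ) ≤ Mt := by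
          have := Finset.card_filter_le (Finset.Icc 1 Mt)
            (fun k : ℕ => a * LL ≤ σ * (Sr k n - k))
          rw [Nat.card_Icc, Nat.add_sub_cancel] at this
          exact_mod_cast this
        refine h1.trans ?_
        rw [hMexp]
        apply Real.exp_le_exp.2
        have h2 : Real.pi ^ 2 * a ^ 2 ≤ δ := by
          have e3 : Real.pi ^ 2 ≤ 10 := by
            have := Real.pi_lt_d2
            nlinarith
          have e4 : a ^ 2 ≤ (2 * η) ^ 2 := pow_le_pow_left₀ ha0 h2η.le 2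
          have e5 : (2 * η) ^ 2 ≤ δ / 400 * (1 / 10) := by
            rw [hη]
            nlinarith
          calc Real.pi ^ 2 * a ^ 2 ≤ 10 * (δ / 400 * (1 / 10)) := by
                apply mul_le_mul e3 (e4.trans e5) (by positivity) (by norm_num)
            _ ≤ δ := by linarith
        have h3 : 1 * LL ≤ (1 - Real.pi ^ 2 * a ^ 2 + δ) * LL := by
          apply mul_le_mul_of_nonneg_right _ hLL0.le
          linarith
        linarith
      · have hf2 : 2 ≤ ⌊a / η⌋₊ := by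
          apply Nat.le_floor
          rw [le_div_iff₀ hη0]
          push_cast
          exact h2η
        obtain ⟨j, hj⟩ : ∃ j, ⌊a / η⌋₊ = j + 1 := ⟨⌊a / η⌋₊ - 1, by omega⟩
        rw [hj] at hfl hfl2 hf2
        push_cast at hfl hfl2
        have hb1 : a - 2 * η ≤ (j : ℝ) * η := by linarith
        have hb2 : (j : ℝ) * η ≤ a - η := by linarith
        have hmem : (j : ℝ) * η ∈ grid δ := by
          apply mem_grid hδ (by omega)
          rw [hη] at hb2
          linarith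
        obtain ⟨-, h1⟩ := hcnt _ hmem σ hσ
        have hjη : 0 ≤ (j : ℝ) * η := by positivity
        have h3 := hsqd ((j : ℝ) * η) a hjη (by linarith) ha3 (by linarith)
        generalize (j : ℝ) * η = b at *
        have h4 : ((Finset.Icc 1 Mt).filter (fun k : ℕ => a * LL ≤ σ * (Sr k n - k))).card ≤
            ((Finset.Icc 1 Mt).filter
              (fun k : ℕ => (b + 11 * ε) * ℓ ≤ σ * (Sr k n - k))).card := by
          apply Finset.card_le_card
          intro k hk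
          rw [Finset.mem_filter] at hk ⊢
          refine ⟨hk.1, le_trans ?_ hk.2⟩
          calc (b + 11 * ε) * ℓ ≤ a * ℓ := by
                apply mul_le_mul_of_nonneg_right _ hℓ.le
                linarith
            _ ≤ a * LL := mul_le_mul_of_nonneg_left l1 ha0
        have h4' : (((Finset.Icc 1 Mt).filter (fun k : ℕ => a * LL ≤ σ * (Sr k n - k))).card : ℝ) ≤
            (((Finset.Icc 1 Mt).filter
              (fun k : ℕ => (b + 11 * ε) * ℓ ≤ σ * (Sr k n - k))).card : ℝ) := by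
          exact_mod_cast h4
        refine h4'.trans (h1.trans ?_)
        apply Real.exp_le_exp.2
        have h5 : 1 - Real.pi ^ 2 * b ^ 2 + 2 * ε ≤ 1 - Real.pi ^ 2 * a ^ 2 + δ := by
          have : 14 * η ≤ δ / 2 := by rw [hη]; linarith
          linarith
        have h6 : 0 ≤ 1 - Real.pi ^ 2 * a ^ 2 + δ := by
          have h7 : Real.pi * a ≤ 1 := by
            have := mul_le_mul_of_nonneg_left ha1 hpi.le
            have e : Real.pi * (1 / Real.pi - δ) = 1 - Real.pi * δ := by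
              field_simp
            rw [e] at this
            have : 0 ≤ Real.pi * δ := by positivity
            linarith
          have h8 : Real.pi ^ 2 * a ^ 2 = (Real.pi * a) ^ 2 := by ring
          have h9 : (Real.pi * a) ^ 2 ≤ 1 := pow_le_one₀ (by positivity) h7
          linarith
        calc (1 - Real.pi ^ 2 * b ^ 2 + 2 * ε) * ℓ ≤ (1 - Real.pi ^ 2 * a ^ 2 + δ) * ℓ :=
              mul_le_mul_of_nonneg_right h5 hℓ.le
          _ ≤ _ := mul_le_mul_of_nonneg_left l1 h6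

/-- **the numbers of high and low values** -/
theorem thick (RH : RiemannHypothesis) {δ : ℝ} (hδ : 0 < δ) (hδ1 : δ ≤ 1 / 10) :
    ∃ M0 : ℕ, 2 ≤ M0 ∧ ∀ M : ℕ, M0 ≤ M → ∀ᶠ N : ℕ in atTop,
      (({n : ℕ | 1 ≤ n ∧ n ≤ N ∧ ¬ (TH δ M (fun k => Sr k n - k) ∧
        TH δ M (fun k => -(Sr k n - k)))}.ncard : ℕ) : ℝ) ≤ δ * N := by
  classical
  have hpi := Real.pi_pos
  have hpi4 := Real.pi_le_four
  obtain ⟨C', T0, hC', hT0, hef⟩ := Pool.Agent.W930.TCEFR.efr RH
  obtain ⟨C3, hC3, hcov⟩ := cover RH hC'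
  have hC30 : 0 < C3 := by linarith
  -- the parameters
  set A := 1 + Real.log (28 * C3 / δ + 1) with hA
  have hq : 0 < 28 * C3 / δ := by positivity
  have hA1 : 1 ≤ A := by
    have := Real.log_nonneg (show 1 ≤ 28 * C3 / δ + 1 by linarith)
    linarith
  have hA2 : C3 * Real.exp (-A) ≤ δ / 28 := by
    have h1 : Real.exp (-A) ≤ 1 / (28 * C3 / δ) := by
      rw [Real.exp_neg, one_div]
      apply inv_anti₀ hq
      calc 28 * C3 / δ ≤ 28 * C3 / δ + 1 := by linarith
        _ = Real.exp (Real.log (28 * C3 / δ + 1)) := (Real.exp_log (by linarith)).symm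
        _ ≤ Real.exp A := Real.exp_le_exp.2 (by linarith)
    calc C3 * Real.exp (-A) ≤ C3 * (1 / (28 * C3 / δ)) := by gcongr
      _ = δ / 28 := by
        field_simp
  set g : ℝ := 2 * (51 * ((grid δ).card : ℝ) + 3) + 1 with hg
  have hg0 : 0 < g := by positivity
  set ε := min (δ / 4000) (δ / (28 * (C3 * A * g))) with hεd
  have hε : 0 < ε := lt_min (by positivity) (by positivity)
  have hε1' : ε ≤ δ / 4000 := min_le_left _ _
  have hε1 : ε ≤ 1 / 100 := by linarith
  have hε3 : C3 * A * (g * ε) ≤ δ / 28 := by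
    have : ε ≤ δ / (28 * (C3 * A * g)) := min_le_right _ _
    rw [le_div_iff₀ (by positivity)] at this
    linarith
  have hgr : ∀ b ∈ grid δ, 3 * ε ≤ b ∧ 6 * ε ≤ 1 - Real.pi ^ 2 * b ^ 2 := by
    intro b hb
    obtain ⟨h1, h2, h3⟩ := grid_bd hδ hδ1 hb
    constructor <;> linarith
  clear_value A ε g
  set K := ⌈120 / ε ^ 2⌉₊ with hK
  have hK1 : 120 / ε ^ 2 ≤ K := Nat.le_ceil _
  have hK2 : 1 ≤ K := by
    have h1 : (0 : ℝ) < 120 / ε ^ 2 := by positivity
    exact Nat.one_le_iff_ne_zero.2 (Nat.ceil_pos.2 h1).ne'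
  have hK4 : 4 ≤ ε * ((K : ℝ) + 4) := by
    have h1 : 120 ≤ (K : ℝ) * ε ^ 2 := by rwa [div_le_iff₀ (by positivity)] at hK1
    have h2 : (K : ℝ) * ε ^ 2 ≤ K * ε := by
      apply mul_le_mul_of_nonneg_left _ (Nat.cast_nonneg K)
      nlinarith
    linarith
  clear_value K
  obtain ⟨M1, hM1⟩ := np_ev hε (by linarith) hK1
  obtain ⟨M3, hM3⟩ := len_ev hε hε1
  have hlo : ∀ᶠ M : ℕ in atTop, ∀ b ∈ grid δ, ∀ κ : ℂ, ‖κ‖ ^ 2 = Real.pi ^ 2 * b ^ 2 →
      ∀ᶠ T : ℝ in atTop, ms T {t | (((Finset.range (M + 1)).filter (fun c : ℕ =>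
        (1 - ε) * (Real.pi ^ 2 * b ^ 2 * (K / (K + 4) * Real.log M - 1)) ≤
          (PZ (fW κ (bp (ap K (Real.log M)) (Dp K (Real.log M)) K) c) T t).re)).card : ℝ) <
            Real.exp ((1 - Real.pi ^ 2 * b ^ 2 - 5 * ε) * Real.log M)} ≤ 24 * ε * T := by
    refine (Filter.eventually_all_finset _).2 fun b hb => ?_
    obtain ⟨h1, h2, h3⟩ := grid_bd hδ hδ1 hb
    have hb0 : 0 < b := by
      have : 0 < δ / 40 := by positivity
      linarith
    obtain ⟨M0, -, h4⟩ := fldc hε (by linarith) hK2 (Λ := Real.pi ^ 2 * b ^ 2) (by positivity) (by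
      have h5 : Real.pi ^ 2 * b ^ 2 * (1 + 4 * ε) ≤ (1 - 2 * δ) * (1 + 4 * ε) :=
        mul_le_mul_of_nonneg_right h3 (by linarith)
      have h6 : (1 - 2 * δ) * (1 + 4 * ε) ≤ 1 := by nlinarith
      linarith)
    filter_upwards [eventually_ge_atTop M0] with M hM κ hκ
    exact h4 M hM κ hκ
  have hup : ∀ᶠ M : ℕ in atTop, ∀ b ∈ grid δ, ∃ J : ℕ, (J : ℝ) ≤ Real.log M ∧
      (20 * (M : ℝ) + 1) * (J.factorial * ((Real.log M + 1) / Real.pi ^ 2) ^ J /
        (b * Real.log M) ^ (2 * J)) <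
      ε * Real.exp ((1 - Real.pi ^ 2 * b ^ 2 + ε) * Real.log M) := by
    refine (Filter.eventually_all_finset _).2 fun b hb => ?_
    obtain ⟨h1, h2, h3⟩ := grid_bd hδ hδ1 hb
    have hb0 : 0 < b := by
      have : 0 < δ / 40 := by positivity
      linarith
    obtain ⟨M0, h4⟩ := up_ev hε hb0 (by linarith)
    filter_upwards [eventually_ge_atTop M0] with M hM
    exact h4 M hM
  have ht : Tendsto (fun M : ℕ => Real.log M) atTop atTop :=
    Real.tendsto_log_atTop.comp tendsto_natCast_atTop_atTop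
  have hex : ∀ᶠ M : ℕ in atTop, 20 * (Real.log M ^ 1 * Real.exp (-(ε * Real.log M))) ≤ 1 :=
    ht.eventually (evs 20 1 hε one_pos)
  obtain ⟨M2, hM2⟩ := eventually_atTop.1 (hlo.and (hup.and hex))
  refine ⟨8 * (max M1 (max M2 M3) + 1), by omega, fun Mt hMt => ?_⟩
  obtain ⟨M, m1, m2, m3⟩ : ∃ M : ℕ, max M1 (max M2 M3) ≤ M ∧ 8 * M ≤ Mt ∧ Mt ≤ 16 * M :=
    ⟨Mt / 8, by omega, by omega, by omega⟩
  have g1 : M1 ≤ M := (le_max_left _ _).trans m1
  have g2 : M2 ≤ M := ((le_max_left _ _).trans (le_max_right _ _)).trans m1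
  have g3 : M3 ≤ M := ((le_max_right _ _).trans (le_max_right _ _)).trans m1
  obtain ⟨n1, n2, n3, n4⟩ := hM3 M g3
  obtain ⟨l1, l2⟩ := n4 Mt m2 m3
  obtain ⟨o1, o2, o3⟩ := hM2 M g2
  have hNP := hM1 M g1
  have hM20 : (20 : ℝ) ≤ M := by exact_mod_cast n3
  have hℓ0 : 0 < Real.log M := Real.log_pos (by linarith)
  have hN : 20 * Real.log M ≤ Real.exp (ε * Real.log M) := by
    rw [pow_one] at o3
    have h1 := Real.exp_pos (ε * Real.log M)
    have h2 : 20 * (Real.log M * Real.exp (-(ε * Real.log M))) * Real.exp (ε * Real.log M) =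
        20 * Real.log M := by
      rw [Real.exp_neg]
      field_simp
    have h3 := mul_le_mul_of_nonneg_right o3 h1.le
    rw [h2, one_mul] at h3
    exact h3
  obtain ⟨T1, hT1, hb⟩ := blkc RH hC' hε (by linarith) hNP (by omega) (grid δ)
    (fun b hb σ hσ => by
      obtain ⟨h1, h2, h3⟩ := grid_bd hδ hδ1 hb
      have hb0 : 0 < b := by
        have : 0 < δ / 40 := by positivity
        linarith
      exact fld_lo hε (by linarith) hK4 hNP hb0 (by linarith) (o1 b hb) hσ)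
    (fun b hb => by
      obtain ⟨h1, h2, h3⟩ := grid_bd hδ hδ1 hb
      have hb0 : 0 < b := by
        have : 0 < δ / 40 := by positivity
        linarith
      obtain ⟨J, j1, j2⟩ := o2 b hb
      obtain ⟨-, -, hJ3, -⟩ := Jp_ge (K := K) (ℓ := Real.log M) (by
        have h7 := hNP.hℓ
        have : (0 : ℝ) ≤ K := Nat.cast_nonneg K
        linarith)
      exact fld_up hNP hb0 (Real.exp_pos _) (j1.trans hJ3) j2)
  obtain ⟨T2, hT2, hcv⟩ := hcov A hA1
  have ev : ∀ᶠ T : ℝ in atTop, 60 * (M : ℝ) ≤ Real.log T :=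
    Real.tendsto_log_atTop.eventually_ge_atTop _
  obtain ⟨T3, hT3⟩ := eventually_atTop.1 ev
  refine trans_all RH (P := fun n => ¬ (TH δ Mt (fun k => Sr k n - k) ∧
        TH δ Mt (fun k => -(Sr k n - k)))) hδ hT0 hef
    ⟨max (max T1 T2) (max T3 (1 / ε)), hT1.trans ((le_max_left _ _).trans (le_max_left _ _)),
    fun T hT U1 U2 hU1 hU1' hU2 hU2' hE B hB hP => ?_⟩
  have a1 : T1 ≤ T := ((le_max_left _ _).trans (le_max_left _ _)).trans hT
  have a2 : T2 ≤ T := ((le_max_right _ _).trans (le_max_left _ _)).trans hT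
  have a3 : T3 ≤ T := ((le_max_left _ _).trans (le_max_right _ _)).trans hT
  have a4 : 1 / ε ≤ T := ((le_max_right _ _).trans (le_max_right _ _)).trans hT
  have hT10 : 10 ≤ T := hT1.trans a1
  have hT0 : 0 < T := by linarith
  have b3 := hT3 T a3
  have hL : 0 < Real.log T := by linarith
  obtain ⟨Bad, hBad, hgood⟩ := hb T a1 U1 U2 (by linarith) hE
  have hu : 2 * Real.pi / Real.log T ≤ 1 := by
    rw [div_le_one hL]
    linarith
  have hu0 : 0 < 2 * Real.pi / Real.log T := by positivity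
  have hv : Real.pi / (2 * Real.log T) ≤ 1 := by
    rw [div_le_one (by positivity)]
    linarith
  have hw : 2 * Real.pi * (20 * M) / Real.log T ≤ 3 := by
    rw [div_le_iff₀ hL]
    nlinarith
  have hcard := hcv T a2 U1 U2 (by linarith) hE B
    (Bad ∪ {t | t + -(2 * Real.pi / Real.log T) ∈ Bad}) hB (fun n hn => (hP n hn).2)
    (fun n hn t ht1 ht2 => by
      obtain ⟨p1, p2, p3⟩ := hP n hn
      obtain ⟨hn1, q2, q3⟩ := mem_Kx.1 (hB hn)
      by_contra hcon
      rw [mem_union, not_or] at hcon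
      obtain ⟨r1, r2⟩ := hcon
      obtain ⟨F, hF⟩ := hgood t (by linarith) (by linarith) r1
      obtain ⟨G, hG⟩ := hgood (t + -(2 * Real.pi / Real.log T)) (by linarith) (by linarith) r2
      rw [← sub_eq_add_neg] at hG
      apply p1
      have hcb := cb_of (Mt := Mt) hε hε1 hgr hF hT10 hG hn1 q2 (by linarith) (by linarith) hU2' ht1
        ht2 n1 n2 b3 m2 m3 hN
      have hth : ∀ σ : ℝ, |σ| = 1 → TH δ Mt (fun k => σ * (Sr k n - k)) := fun σ hσ =>
        th_of hδ hδ1 hε hε1' (by omega) hℓ0 l1 l2 hcb hσ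
      refine ⟨?_, ?_⟩
      · have h1 := hth 1 (by norm_num)
        simpa only [one_mul] using h1
      · have h1 := hth (-1) (by norm_num)
        simpa only [neg_one_mul] using h1)
  have hms : ms T (Bad ∪ {t | t + -(2 * Real.pi / Real.log T) ∈ Bad}) ≤ g * ε * T := by
    have h1 := ms_union T Bad {t | t + -(2 * Real.pi / Real.log T) ∈ Bad}
    have h2 := ms_shift_abs (T := T) (-(2 * Real.pi / Real.log T)) Bad
    rw [abs_neg, abs_of_pos hu0] at h2
    rw [div_le_iff₀ hε] at a4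
    have h3 : g * ε * T = 2 * ((51 * ((grid δ).card : ℝ) + 3) * ε * T) + T * ε := by
      rw [hg]; ring
    rw [h3]
    linarith
  calc (B.card : ℝ) ≤ Real.log T * (C3 * A *
        ms T (Bad ∪ {t | t + -(2 * Real.pi / Real.log T) ∈ Bad}) + C3 * Real.exp (-A) * T) := hcard
    _ ≤ Real.log T * (C3 * A * (g * ε * T) + C3 * Real.exp (-A) * T) := by gcongr
    _ = Real.log T * T * (C3 * A * (g * ε) + C3 * Real.exp (-A)) := by ring
    _ ≤ Real.log T * T * (δ / 28 + δ / 28) := by gcongr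
    _ ≤ Real.log T * T * (1 / 7 * δ) := by
        apply mul_le_mul_of_nonneg_left _ (by positivity)
        linarith
    _ = _ := by ring

end Pool.Agent.T9h26.TD
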