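import Pool.Agent.T9h26.TD.Tf

set_option autoImplicit false

/-! The free energy. -/

open Complex Filter Topology Set MeasureTheory

namespace Pool.Agent.T9h26.TD

/-- the limit of the free energy -/
noncomputable def phi (β : ℝ) : ℝ := if |β| ≤ 1 then β ^ 2 else 2 * |β| - 1

lemma phi_abs (β : ℝ) : phi |β| = phi β := by
  unfold phi
  rw [abs_abs, sq_abs]

/-- the upper bound for the exponent -/
lemma phi_up {β u s : ℝ} (hβ : 0 ≤ β) (hs : 0 ≤ s) (hu : u ≤ 1 + s) (hu0 : 0 ≤ u) :
    -u ^ 2 + 2 * β * u ≤ phi β + 2 * β * s := by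
  unfold phi
  rw [abs_of_nonneg hβ]
  split_ifs with h
  · nlinarith [sq_nonneg (u - β), mul_nonneg hβ hs]
  · rw [not_le] at h
    rcases le_or_gt u 1 with h1 | h1
    · nlinarith [mul_nonneg (show 0 ≤ 1 - u by linarith) (show 0 ≤ 2 * β - 1 - u by linarith),
        mul_nonneg hβ hs]
    · have h2 : 2 * β * u ≤ 2 * β * (1 + s) := by gcongr
      nlinarith

open Classical in
lemma TH.mono {δ δ' : ℝ} {M : ℕ} {x : ℕ → ℝ} (h : TH δ M x) (hd : δ ≤ δ') (hM : 1 ≤ M) :
    TH δ' M x := by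
  have hl : 0 ≤ Real.log M := Real.log_nonneg (by exact_mod_cast hM)
  refine ⟨fun k h1 h2 => (h.1 k h1 h2).trans ?_, fun a h1 h2 => ?_⟩
  · apply mul_le_mul_of_nonneg_right _ hl
    linarith
  · obtain ⟨h3, h4⟩ := h.2 a h1 (by linarith)
    refine ⟨le_trans ?_ h3, h4.trans ?_⟩
    · apply Real.exp_le_exp.2
      apply mul_le_mul_of_nonneg_right _ hl
      linarith
    · apply Real.exp_le_exp.2
      apply mul_le_mul_of_nonneg_right _ hl
      linarith

open Classical in
/-- **the free energy**, lower bound -/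
lemma fe_lo {δ : ℝ} (hδ : 0 < δ) (hδ1 : δ ≤ 1 / 10) {M : ℕ} (hM : 2 ≤ M) {x : ℕ → ℝ}
    (h : TH δ M x) {β : ℝ} (hβ : 0 ≤ β) :
    Real.exp ((1 + phi β - 2 * δ - 8 * β * δ) * Real.log M) ≤
      ∑ k ∈ Finset.Icc 1 M, Real.exp (2 * Real.pi * β * x k) := by
  have hpi := Real.pi_pos
  have hpi3 := Real.pi_gt_three
  have hpi4 := Real.pi_le_four
  have hp' : 1 / 4 ≤ 1 / Real.pi := one_div_le_one_div_of_le hpi hpi4
  have hl : 0 < Real.log M := Real.log_pos (by exact_mod_cast (by omega : 1 < M))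
  have key : ∀ a : ℝ, 0 ≤ a → a ≤ 1 / Real.pi - δ →
      Real.exp ((1 - Real.pi ^ 2 * a ^ 2 - δ + 2 * Real.pi * β * a) * Real.log M) ≤
        ∑ k ∈ Finset.Icc 1 M, Real.exp (2 * Real.pi * β * x k) := by
    intro a ha ha1
    obtain ⟨h1, -⟩ := h.2 a ha ha1
    have h2 : (((Finset.Icc 1 M).filter (fun k => a * Real.log M ≤ x k)).card : ℝ) *
        Real.exp (2 * Real.pi * β * (a * Real.log M)) ≤
        ∑ k ∈ (Finset.Icc 1 M).filter (fun k => a * Real.log M ≤ x k),
          Real.exp (2 * Real.pi * β * x k) := by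
      rw [← nsmul_eq_mul]
      apply Finset.card_nsmul_le_sum
      intro k hk
      rw [Finset.mem_filter] at hk
      apply Real.exp_le_exp.2
      exact mul_le_mul_of_nonneg_left hk.2 (by positivity)
    have h3 : ∑ k ∈ (Finset.Icc 1 M).filter (fun k => a * Real.log M ≤ x k),
          Real.exp (2 * Real.pi * β * x k) ≤ ∑ k ∈ Finset.Icc 1 M, Real.exp (2 * Real.pi * β * x k) :=
      Finset.sum_le_sum_of_subset_of_nonneg (Finset.filter_subset _ _)
        fun k _ _ => (Real.exp_pos _).le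
    refine le_trans ?_ (h2.trans h3)
    have h4 : Real.exp ((1 - Real.pi ^ 2 * a ^ 2 - δ + 2 * Real.pi * β * a) * Real.log M) =
        Real.exp ((1 - Real.pi ^ 2 * a ^ 2 - δ) * Real.log M) *
          Real.exp (2 * Real.pi * β * (a * Real.log M)) := by
      rw [← Real.exp_add]
      congr 1
      ring
    rw [h4]
    exact mul_le_mul_of_nonneg_right h1 (Real.exp_pos _).le
  have hπδ : Real.pi * δ ≤ 4 * δ := mul_le_mul_of_nonneg_right hpi4 hδ.le
  have hπδ0 : 0 < Real.pi * δ := by positivity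
  have hsq : (Real.pi * δ) ^ 2 ≤ δ := by
    have h1 : Real.pi ^ 2 ≤ 10 := by
      have := Real.pi_lt_d2
      nlinarith
    calc (Real.pi * δ) ^ 2 = Real.pi ^ 2 * (δ * δ) := by ring
      _ ≤ 10 * (1 / 10 * δ) := by gcongr
      _ = δ := by ring
  rcases le_or_gt β (Real.pi * δ) with h1 | h1
  · refine le_trans (Real.exp_le_exp.2 ?_) (key 0 le_rfl (by linarith))
    apply mul_le_mul_of_nonneg_right _ hl.le
    have h2 : phi β = β ^ 2 := by
      unfold phi
      rw [if_pos (by rw [abs_of_nonneg hβ]; linarith)]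
    have h3 : β ^ 2 ≤ (Real.pi * δ) ^ 2 := pow_le_pow_left₀ hβ h1 2
    have h4 : 0 ≤ β * δ := by positivity
    rw [h2]
    nlinarith
  · rcases le_or_gt β 1 with h2 | h2
    · have h3 : 0 ≤ β / Real.pi - δ := by
        rw [sub_nonneg, le_div_iff₀ hpi]
        linarith
      have h4 : β / Real.pi - δ ≤ 1 / Real.pi - δ := by
        have : β / Real.pi ≤ 1 / Real.pi := div_le_div_of_nonneg_right h2 hpi.le
        linarith
      refine le_trans (Real.exp_le_exp.2 ?_) (key _ h3 h4)
      apply mul_le_mul_of_nonneg_right _ hl.le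
      have h5 : phi β = β ^ 2 := by
        unfold phi
        rw [if_pos (by rw [abs_of_nonneg hβ]; linarith)]
      have h6 : 1 - Real.pi ^ 2 * (β / Real.pi - δ) ^ 2 - δ +
          2 * Real.pi * β * (β / Real.pi - δ) = 1 + β ^ 2 - (Real.pi * δ) ^ 2 - δ := by
        field_simp
        ring
      rw [h5, h6]
      have h7 : 0 ≤ β * δ := by positivity
      nlinarith
    · have h3 : 0 ≤ 1 / Real.pi - δ := by linarith
      refine le_trans (Real.exp_le_exp.2 ?_) (key _ h3 le_rfl)
      apply mul_le_mul_of_nonneg_right _ hl.le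
      have h5 : phi β = 2 * β - 1 := by
        unfold phi
        rw [abs_of_nonneg hβ, if_neg (by linarith)]
      have h6 : 1 - Real.pi ^ 2 * (1 / Real.pi - δ) ^ 2 - δ +
          2 * Real.pi * β * (1 / Real.pi - δ) =
          1 - (1 - Real.pi * δ) ^ 2 - δ + 2 * β - 2 * β * (Real.pi * δ) := by
        field_simp
        ring
      rw [h5, h6]
      have h7 : (1 - Real.pi * δ) ^ 2 ≤ 1 := pow_le_one₀ (by linarith) (by linarith)
      have h8 : β * (Real.pi * δ) ≤ β * (4 * δ) := mul_le_mul_of_nonneg_left hπδ hβ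
      linarith

open Classical in
/-- **the free energy**, upper bound -/
lemma fe_up {δ : ℝ} (hδ : 0 < δ) (hδ1 : δ ≤ 1 / 10) {M : ℕ} (hM : 2 ≤ M)
    (hMδ : 1 / δ ≤ Real.exp (δ * Real.log M)) {x : ℕ → ℝ}
    (h : TH δ M x) {β : ℝ} (hβ : 0 ≤ β) :
    ∑ k ∈ Finset.Icc 1 M, Real.exp (2 * Real.pi * β * x k) ≤
      Real.exp ((1 + phi β + 24 * δ + 19 * β * δ) * Real.log M) := by
  have hpi := Real.pi_pos
  have hpi3 := Real.pi_gt_three
  have hpi4 := Real.pi_le_four
  have hpi5 := Real.pi_lt_d2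
  have hp : 1 / Real.pi ≤ 1 / 3 := one_div_le_one_div_of_le (by norm_num) hpi3.le
  have hp' : 1 / 4 ≤ 1 / Real.pi := one_div_le_one_div_of_le hpi hpi4
  have hMr : (2 : ℝ) ≤ M := by exact_mod_cast hM
  have hl : 0 < Real.log M := Real.log_pos (by linarith)
  have hMexp : (M : ℝ) = Real.exp (Real.log M) := (Real.exp_log (by linarith)).symm
  generalize hLL : Real.log M = LL at *
  set g := 1 / Real.pi + δ with hg
  set J := ⌊g / δ⌋₊ with hJ
  have hg0 : 0 ≤ g / δ := by positivity
  have hJ1 : (J : ℝ) * δ ≤ g := by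
    rw [← le_div_iff₀ hδ]
    exact Nat.floor_le hg0
  have hπδ : Real.pi * δ ≤ 4 * δ := mul_le_mul_of_nonneg_right hpi4 hδ.le
  have hπδ0 : 0 < Real.pi * δ := by positivity
  have hδLL : 0 < δ * LL := by positivity
  -- the number of values above the levels
  have hN : ∀ j ∈ Finset.range (J + 1),
      (((Finset.Icc 1 M).filter (fun k => j = 0 ∨ (j : ℝ) * δ * LL ≤ x k)).card : ℝ) ≤
        Real.exp ((1 - Real.pi ^ 2 * ((j : ℝ) * δ) ^ 2 + 23 * δ) * LL) := by
    intro j hj
    rw [Finset.mem_range] at hj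
    have hjJ : (j : ℝ) ≤ J := by exact_mod_cast (by omega : j ≤ J)
    have hjg : (j : ℝ) * δ ≤ g := (mul_le_mul_of_nonneg_right hjJ hδ.le).trans hJ1
    rcases Nat.eq_zero_or_pos j with h0 | h0
    · have h1 : (((Finset.Icc 1 M).filter (fun k => j = 0 ∨ (j : ℝ) * δ * LL ≤ x k)).card : ℝ) ≤ M := by
        have := Finset.card_filter_le (Finset.Icc 1 M)
          (fun k : ℕ => j = 0 ∨ (j : ℝ) * δ * LL ≤ x k)
        rw [Nat.card_Icc, Nat.add_sub_cancel] at this
        exact_mod_cast this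
      refine h1.trans ?_
      rw [hMexp]
      apply Real.exp_le_exp.2
      rw [h0, Nat.cast_zero, zero_mul]
      have : 0 ≤ 23 * δ * LL := by positivity
      linarith
    · have h1 : ((Finset.Icc 1 M).filter (fun k => j = 0 ∨ (j : ℝ) * δ * LL ≤ x k)).card ≤
          ((Finset.Icc 1 M).filter (fun k => (j : ℝ) * δ * LL ≤ x k)).card := by
        apply Finset.card_le_card
        intro k hk
        rw [Finset.mem_filter] at hk ⊢
        refine ⟨hk.1, ?_⟩
        rcases hk.2 with h2 | h2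
        · omega
        · exact h2
      have h1' : (((Finset.Icc 1 M).filter (fun k => j = 0 ∨ (j : ℝ) * δ * LL ≤ x k)).card : ℝ) ≤
          (((Finset.Icc 1 M).filter (fun k => (j : ℝ) * δ * LL ≤ x k)).card : ℝ) := by
        exact_mod_cast h1
      refine h1'.trans ?_
      have hj0 : 0 ≤ (j : ℝ) * δ := by positivity
      rcases le_or_gt ((j : ℝ) * δ) (1 / Real.pi - δ) with h2 | h2
      · obtain ⟨-, h3⟩ := h.2 _ hj0 h2
        rw [hLL] at h3
        refine h3.trans (Real.exp_le_exp.2 ?_)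
        apply mul_le_mul_of_nonneg_right _ hl.le
        linarith
      · obtain ⟨-, h3⟩ := h.2 (1 / Real.pi - δ) (by linarith) le_rfl
        rw [hLL] at h3
        have h4 : ((Finset.Icc 1 M).filter (fun k => (j : ℝ) * δ * LL ≤ x k)).card ≤
            ((Finset.Icc 1 M).filter (fun k => (1 / Real.pi - δ) * LL ≤ x k)).card := by
          apply Finset.card_le_card
          intro k hk
          rw [Finset.mem_filter] at hk ⊢
          refine ⟨hk.1, le_trans ?_ hk.2⟩
          exact mul_le_mul_of_nonneg_right h2.le hl.le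
        have h4' : (((Finset.Icc 1 M).filter (fun k => (j : ℝ) * δ * LL ≤ x k)).card : ℝ) ≤
            (((Finset.Icc 1 M).filter (fun k => (1 / Real.pi - δ) * LL ≤ x k)).card : ℝ) := by
          exact_mod_cast h4
        refine h4'.trans (h3.trans (Real.exp_le_exp.2 ?_))
        apply mul_le_mul_of_nonneg_right _ hl.le
        have e1 : Real.pi ^ 2 * ((j : ℝ) * δ) ^ 2 ≤ (1 + Real.pi * δ) ^ 2 := by
          have e2 : Real.pi * ((j : ℝ) * δ) ≤ 1 + Real.pi * δ := by
            have := mul_le_mul_of_nonneg_left hjg hpi.le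
            have e : Real.pi * g = 1 + Real.pi * δ := by
              rw [hg]
              field_simp
            rwa [e] at this
          calc Real.pi ^ 2 * ((j : ℝ) * δ) ^ 2 = (Real.pi * ((j : ℝ) * δ)) ^ 2 := by ring
            _ ≤ _ := pow_le_pow_left₀ (by positivity) e2 2
        have e3 : Real.pi ^ 2 * (1 / Real.pi - δ) ^ 2 = (1 - Real.pi * δ) ^ 2 := by
          field_simp
        rw [e3]
        have e4 : (1 + Real.pi * δ) ^ 2 - (1 - Real.pi * δ) ^ 2 = 4 * (Real.pi * δ) := by ring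
        linarith
  -- the sum
  have hpt : ∀ k ∈ Finset.Icc 1 M, Real.exp (2 * Real.pi * β * x k) ≤
      ∑ j ∈ Finset.range (J + 1), (if j = 0 ∨ (j : ℝ) * δ * LL ≤ x k then
        Real.exp (2 * Real.pi * β * (((j : ℝ) + 1) * δ * LL)) else 0) := by
    intro k hk
    rw [Finset.mem_Icc] at hk
    have hnn : ∀ j ∈ Finset.range (J + 1), 0 ≤ (if j = 0 ∨ (j : ℝ) * δ * LL ≤ x k then
        Real.exp (2 * Real.pi * β * (((j : ℝ) + 1) * δ * LL)) else 0) := by
      intro j _
      split_ifs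
      · exact (Real.exp_pos _).le
      · exact le_rfl
    rcases lt_or_ge (x k) 0 with h0 | h0
    · have h1 := Finset.single_le_sum hnn (Finset.mem_range.2 (Nat.succ_pos J))
      refine le_trans ?_ h1
      rw [if_pos (Or.inl rfl)]
      apply Real.exp_le_exp.2
      have h2 : 2 * Real.pi * β * x k ≤ 0 := mul_nonpos_of_nonneg_of_nonpos (by positivity) h0.le
      have h3 : 0 ≤ 2 * Real.pi * β * ((((0 : ℕ) : ℝ) + 1) * δ * LL) := by positivity
      linarith
    · set j := ⌊x k / (δ * LL)⌋₊ with hj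
      have hj1 : (j : ℝ) ≤ x k / (δ * LL) := Nat.floor_le (by positivity)
      have hj2 : x k / (δ * LL) < j + 1 := Nat.lt_floor_add_one _
      rw [le_div_iff₀ hδLL] at hj1
      rw [div_lt_iff₀ hδLL] at hj2
      have hjJ : j ≤ J := by
        apply Nat.floor_le_floor
        rw [div_le_div_iff₀ hδLL hδ]
        have h3 := h.1 k hk.1 hk.2
        rw [hLL] at h3
        have h4 := mul_le_mul_of_nonneg_right h3 hδ.le
        linarith
      have h1 := Finset.single_le_sum hnn (Finset.mem_range.2 (Nat.lt_succ_of_le hjJ))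
      refine le_trans ?_ h1
      rw [if_pos (Or.inr (by linarith))]
      apply Real.exp_le_exp.2
      apply mul_le_mul_of_nonneg_left _ (by positivity)
      linarith
  have hterm : ∀ j ∈ Finset.range (J + 1), ∑ k ∈ Finset.Icc 1 M,
      (if j = 0 ∨ (j : ℝ) * δ * LL ≤ x k then
        Real.exp (2 * Real.pi * β * (((j : ℝ) + 1) * δ * LL)) else 0) ≤
      Real.exp ((1 + phi β + 23 * δ + 19 * β * δ) * LL) := by
    intro j hj
    have hN' := hN j hj
    rw [Finset.mem_range] at hj
    have hjJ : (j : ℝ) ≤ J := by exact_mod_cast (by omega : j ≤ J)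
    have hjg : (j : ℝ) * δ ≤ g := (mul_le_mul_of_nonneg_right hjJ hδ.le).trans hJ1
    rw [← Finset.sum_filter, Finset.sum_const, nsmul_eq_mul]
    refine (mul_le_mul_of_nonneg_right hN' (Real.exp_pos _).le).trans ?_
    rw [← Real.exp_add]
    apply Real.exp_le_exp.2
    have h1 : (1 - Real.pi ^ 2 * ((j : ℝ) * δ) ^ 2 + 23 * δ) * LL +
        2 * Real.pi * β * (((j : ℝ) + 1) * δ * LL) =
        (1 + (-(Real.pi * ((j : ℝ) * δ)) ^ 2 + 2 * β * (Real.pi * ((j : ℝ) * δ))) + 23 * δ +
          2 * β * (Real.pi * δ)) * LL := by ring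
    rw [h1]
    apply mul_le_mul_of_nonneg_right _ hl.le
    have h2 : Real.pi * ((j : ℝ) * δ) ≤ 1 + Real.pi * δ := by
      have := mul_le_mul_of_nonneg_left hjg hpi.le
      have e : Real.pi * g = 1 + Real.pi * δ := by
        rw [hg]
        field_simp
      rwa [e] at this
    have h3 := phi_up hβ hπδ0.le h2 (by positivity)
    have h4 : β * (Real.pi * δ) ≤ β * (4 * δ) := mul_le_mul_of_nonneg_left hπδ hβ
    have h5 : 0 ≤ β * δ := by positivity
    linarith
  calc ∑ k ∈ Finset.Icc 1 M, Real.exp (2 * Real.pi * β * x k) ≤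
      ∑ k ∈ Finset.Icc 1 M, ∑ j ∈ Finset.range (J + 1),
        (if j = 0 ∨ (j : ℝ) * δ * LL ≤ x k then
        Real.exp (2 * Real.pi * β * (((j : ℝ) + 1) * δ * LL)) else 0) := Finset.sum_le_sum hpt
    _ = ∑ j ∈ Finset.range (J + 1), ∑ k ∈ Finset.Icc 1 M,
        (if j = 0 ∨ (j : ℝ) * δ * LL ≤ x k then
        Real.exp (2 * Real.pi * β * (((j : ℝ) + 1) * δ * LL)) else 0) := Finset.sum_comm
    _ ≤ ∑ _j ∈ Finset.range (J + 1), Real.exp ((1 + phi β + 23 * δ + 19 * β * δ) * LL) :=
        Finset.sum_le_sum hterm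
    _ = ((J : ℝ) + 1) * Real.exp ((1 + phi β + 23 * δ + 19 * β * δ) * LL) := by
        rw [Finset.sum_const, Finset.card_range, nsmul_eq_mul]
        push_cast
        rfl
    _ ≤ Real.exp (δ * LL) * Real.exp ((1 + phi β + 23 * δ + 19 * β * δ) * LL) := by
        apply mul_le_mul_of_nonneg_right _ (Real.exp_pos _).le
        refine le_trans ?_ hMδ
        rw [le_div_iff₀ hδ]
        linarith
    _ = _ := by
        rw [← Real.exp_add]
        congr 1
        ring

open Classical in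
/-- **the free energy** -/
theorem fe {ε δ : ℝ} (hδ : 0 < δ) (hδ1 : δ ≤ 1 / 10) (hε : 24 * δ ≤ ε) {M : ℕ} (hM : 2 ≤ M)
    (hMδ : 1 / δ ≤ Real.exp (δ * Real.log M)) {x : ℕ → ℝ}
    (h : TH δ M x) {β : ℝ} (hβ : 0 ≤ β) :
    |Real.log ((1 / M : ℝ) * ∑ k ∈ Finset.Icc 1 M, Real.exp (2 * Real.pi * β * x k)) / Real.log M -
      phi β| ≤ ε * (1 + β) := by
  have hMr : (2 : ℝ) ≤ M := by exact_mod_cast hM
  have hl : 0 < Real.log M := Real.log_pos (by linarith)
  have h1 := fe_lo hδ hδ1 hM h hβ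
  have h2 := fe_up hδ hδ1 hM hMδ h hβ
  set S := ∑ k ∈ Finset.Icc 1 M, Real.exp (2 * Real.pi * β * x k) with hS
  have hS0 : 0 < S := lt_of_lt_of_le (Real.exp_pos _) h1
  have h3 : (1 + phi β - 2 * δ - 8 * β * δ) * Real.log M ≤ Real.log S := by
    rw [Real.le_log_iff_exp_le hS0]
    exact h1
  have h4 : Real.log S ≤ (1 + phi β + 24 * δ + 19 * β * δ) * Real.log M := by
    rw [Real.log_le_iff_le_exp hS0]
    exact h2
  have h5 : Real.log ((1 / M : ℝ) * S) = Real.log S - Real.log M := by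
    rw [one_div, inv_mul_eq_div, Real.log_div hS0.ne' (by positivity)]
  rw [h5]
  have h6 : (Real.log S - Real.log M) / Real.log M - phi β =
      (Real.log S - (1 + phi β) * Real.log M) / Real.log M := by
    field_simp
    ring
  rw [h6, abs_le]
  have h7 : 24 * δ * (1 + β) ≤ ε * (1 + β) := mul_le_mul_of_nonneg_right hε (by linarith)
  have h8 : 0 ≤ β * δ := by positivity
  constructor
  · rw [le_div_iff₀ hl]
    have h9 : -(ε * (1 + β)) * Real.log M ≤ (-2 * δ - 8 * β * δ) * Real.log M := by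
      apply mul_le_mul_of_nonneg_right _ hl.le
      linarith
    linarith
  · rw [div_le_iff₀ hl]
    have h9 : (24 * δ + 19 * β * δ) * Real.log M ≤ (ε * (1 + β)) * Real.log M := by
      apply mul_le_mul_of_nonneg_right _ hl.le
      linarith
    linarith

end Pool.Agent.T9h26.TD
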