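import Mathlib

set_option autoImplicit false

/-! Powers of a polynomial over the primes: tuples of primes, diagonal sums. -/

open Finset

namespace Pool.Agent.T9h26.TD

/-- the primes up to `X` -/
def Pr (X : ℕ) : Finset ℕ := (Finset.Icc 1 X).filter Nat.Prime

lemma mem_Pr {X p : ℕ} : p ∈ Pr X ↔ p.Prime ∧ p ≤ X := by
  unfold Pr
  rw [Finset.mem_filter, Finset.mem_Icc]
  constructor
  · rintro ⟨⟨_, h⟩, h2⟩
    exact ⟨h2, h⟩
  · rintro ⟨h1, h2⟩
    exact ⟨⟨h1.one_le, h2⟩, h1⟩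

/-- tuples of primes -/
def Tp (X i : ℕ) : Finset (Fin i → ℕ) := Fintype.piFinset (fun _ => Pr X)

lemma mem_Tp {X i : ℕ} {f : Fin i → ℕ} : f ∈ Tp X i ↔ ∀ j, f j ∈ Pr X := by
  unfold Tp
  rw [Fintype.mem_piFinset]

/-- the product of the coefficients -/
def wt (a : ℕ → ℝ) {i : ℕ} (f : Fin i → ℕ) : ℝ := ∏ j, a (f j)

/-- the product of a tuple -/
def pr {i : ℕ} (f : Fin i → ℕ) : ℕ := ∏ j, f j

lemma ofFn_perm {i i' : ℕ} {f : Fin i → ℕ} {g : Fin i' → ℕ} (hf : ∀ j, (f j).Prime)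
    (hg : ∀ j, (g j).Prime) (h : pr f = pr g) : (List.ofFn f).Perm (List.ofFn g) := by
  have h2 : (List.ofFn f).Perm (Nat.primeFactorsList (pr f)) := by
    apply Nat.primeFactorsList_unique
    · rw [List.prod_ofFn]; rfl
    · intro p hp
      rw [List.mem_ofFn] at hp
      obtain ⟨i, rfl⟩ := hp
      exact hf i
  have h3 : (List.ofFn g).Perm (Nat.primeFactorsList (pr f)) := by
    rw [h]
    apply Nat.primeFactorsList_unique
    · rw [List.prod_ofFn]; rfl
    · intro p hp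
      rw [List.mem_ofFn] at hp
      obtain ⟨i, rfl⟩ := hp
      exact hg i
  exact h2.trans h3.symm

lemma len_eq {i i' : ℕ} {f : Fin i → ℕ} {g : Fin i' → ℕ} (hf : ∀ j, (f j).Prime)
    (hg : ∀ j, (g j).Prime) (h : pr f = pr g) : i = i' := by
  have := (ofFn_perm hf hg h).length_eq
  simpa using this

lemma wt_eq (a : ℕ → ℝ) {i : ℕ} {f g : Fin i → ℕ} (hf : ∀ j, (f j).Prime)
    (hg : ∀ j, (g j).Prime) (h : pr f = pr g) : wt a f = wt a g := by
  have h1 := ((ofFn_perm hf hg h).map a).prod_eq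
  rw [List.map_ofFn, List.map_ofFn, List.prod_ofFn, List.prod_ofFn] at h1
  exact h1

lemma pr_pos {X i : ℕ} {f : Fin i → ℕ} (hf : f ∈ Tp X i) : 1 ≤ pr f := by
  rw [mem_Tp] at hf
  exact Finset.one_le_prod' fun j _ => (mem_Pr.1 (hf j)).1.one_le

lemma pr_le {X i : ℕ} {f : Fin i → ℕ} (hf : f ∈ Tp X i) : pr f ≤ X ^ i := by
  rw [mem_Tp] at hf
  calc pr f ≤ ∏ _j : Fin i, X := Finset.prod_le_prod' fun j _ => (mem_Pr.1 (hf j)).2
    _ = X ^ i := by rw [Finset.prod_const, Finset.card_univ, Fintype.card_fin]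

/-- the coefficients of the `i`-th power -/
noncomputable def cc (a : ℕ → ℝ) (X i n : ℕ) : ℝ :=
  ∑ f ∈ (Tp X i).filter (fun f => pr f = n), wt a f

lemma cast_pr_cpow {i : ℕ} (f : Fin i → ℕ) (s : ℂ) :
    ((pr f : ℕ) : ℂ) ^ s = ∏ j, ((f j : ℕ) : ℂ) ^ s := by
  unfold pr
  have : ∀ S : Finset (Fin i), ((∏ j ∈ S, f j : ℕ) : ℂ) ^ s = ∏ j ∈ S, ((f j : ℕ) : ℂ) ^ s := by
    intro S
    induction S using Finset.induction_on with
    | empty => simp
    | insert b S hb ih =>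
      rw [Finset.prod_insert hb, Finset.prod_insert hb, ← ih]
      push_cast
      have := Complex.natCast_mul_natCast_cpow (f b) (∏ j ∈ S, f j) s
      push_cast at this
      exact this
  exact this Finset.univ

/-- the `i`-th power of a polynomial over the primes -/
lemma pow_eq (a : ℕ → ℝ) (X i M : ℕ) (hM : X ^ i ≤ M) (s : ℂ) :
    (∑ p ∈ Pr X, (a p : ℂ) * (p : ℂ) ^ s) ^ i =
      ∑ n ∈ Finset.Icc 1 M, (cc a X i n : ℂ) * (n : ℂ) ^ s := by
  rw [Finset.sum_pow']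
  have h1 : ∀ f ∈ Tp X i, ∏ j, ((a (f j) : ℂ) * ((f j : ℕ) : ℂ) ^ s) =
      (wt a f : ℂ) * ((pr f : ℕ) : ℂ) ^ s := by
    intro f _
    rw [Finset.prod_mul_distrib, cast_pr_cpow]
    unfold wt
    push_cast
    rfl
  have h2 : ∀ f ∈ Tp X i, pr f ∈ Finset.Icc 1 M := fun f hf =>
    Finset.mem_Icc.2 ⟨pr_pos hf, (pr_le hf).trans hM⟩
  have h3 : (∑ f ∈ Tp X i, (wt a f : ℂ) * ((pr f : ℕ) : ℂ) ^ s) =
      ∑ n ∈ Finset.Icc 1 M, (cc a X i n : ℂ) * (n : ℂ) ^ s := by
    rw [← Finset.sum_fiberwise_of_maps_to h2]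
    apply Finset.sum_congr rfl
    intro n _
    unfold cc
    push_cast
    rw [Finset.sum_mul]
    apply Finset.sum_congr rfl
    intro f hf
    rw [(Finset.mem_filter.1 hf).2]
  rw [← h3]
  exact Finset.sum_congr rfl h1

/-- different powers are orthogonal -/
lemma cross (a : ℕ → ℝ) (X i i' n : ℕ) (h : i ≠ i') : cc a X i n * cc a X i' n = 0 := by
  by_contra hne
  have h1 : cc a X i n ≠ 0 := fun h0 => hne (by rw [h0, zero_mul])
  have h2 : cc a X i' n ≠ 0 := fun h0 => hne (by rw [h0, mul_zero])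
  obtain ⟨f, hf, _⟩ := Finset.exists_ne_zero_of_sum_ne_zero h1
  obtain ⟨g, hg, _⟩ := Finset.exists_ne_zero_of_sum_ne_zero h2
  rw [Finset.mem_filter, mem_Tp] at hf hg
  exact h (len_eq (fun j => (mem_Pr.1 (hf.1 j)).1) (fun j => (mem_Pr.1 (hg.1 j)).1)
    (hf.2.trans hg.2.symm))

/-- the number of tuples with the same product -/
noncomputable def NN (X : ℕ) {i : ℕ} (f : Fin i → ℕ) : ℕ :=
  ((Tp X i).filter (fun g => pr g = pr f)).card

lemma NN_le {X i : ℕ} {f : Fin i → ℕ} (hf : f ∈ Tp X i) : NN X f ≤ i.factorial := by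
  rw [mem_Tp] at hf
  unfold NN
  calc _ ≤ (List.ofFn f).permutations.toFinset.card := by
        apply Finset.card_le_card_of_injOn (fun g => List.ofFn g)
        · intro g hg
          rw [Finset.mem_coe, Finset.mem_filter, mem_Tp] at hg
          rw [Finset.mem_coe, List.mem_toFinset, List.mem_permutations]
          exact ofFn_perm (fun j => (mem_Pr.1 (hg.1 j)).1) (fun j => (mem_Pr.1 (hf j)).1) hg.2
        · exact List.ofFn_injective.injOn
    _ ≤ (List.ofFn f).permutations.length := List.toFinset_card_le _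
    _ = i.factorial := by rw [List.length_permutations, List.length_ofFn]

lemma NN_ge {X i : ℕ} {f : Fin i → ℕ} (hf : f ∈ Tp X i) (hinj : Function.Injective f) :
    i.factorial ≤ NN X f := by
  rw [mem_Tp] at hf
  unfold NN
  have h1 : (Finset.univ : Finset (Equiv.Perm (Fin i))).card = i.factorial := by
    rw [Finset.card_univ, Fintype.card_perm, Fintype.card_fin]
  rw [← h1]
  apply Finset.card_le_card_of_injOn (fun σ : Equiv.Perm (Fin i) => f ∘ σ)
  · intro σ _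
    rw [Finset.mem_coe, Finset.mem_filter, mem_Tp]
    refine ⟨fun j => hf _, ?_⟩
    unfold pr
    exact Equiv.prod_comp σ f
  · intro σ _ τ _ h
    ext j
    have := congrFun h j
    simp only [Function.comp_apply] at this
    exact congrArg _ (hinj this)

/-- the sum of the squares of the coefficients of the power -/
lemma diag_eq (a : ℕ → ℝ) (X i M : ℕ) (hM : X ^ i ≤ M) :
    ∑ n ∈ Finset.Icc 1 M, cc a X i n ^ 2 = ∑ f ∈ Tp X i, (NN X f : ℝ) * wt a f ^ 2 := by
  have h2 : ∀ f ∈ Tp X i, pr f ∈ Finset.Icc 1 M := fun f hf =>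
    Finset.mem_Icc.2 ⟨pr_pos hf, (pr_le hf).trans hM⟩
  rw [← Finset.sum_fiberwise_of_maps_to h2]
  apply Finset.sum_congr rfl
  intro n _
  rw [sq]
  unfold cc
  rw [Finset.sum_mul]
  apply Finset.sum_congr rfl
  intro f hf
  have hfn : pr f = n := (Finset.mem_filter.1 hf).2
  have hfT : f ∈ Tp X i := (Finset.mem_filter.1 hf).1
  have h3 : ∀ g ∈ (Tp X i).filter (fun g => pr g = n), wt a g = wt a f := by
    intro g hg
    rw [Finset.mem_filter] at hg
    exact wt_eq a (fun j => (mem_Pr.1 (mem_Tp.1 hg.1 j)).1)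
      (fun j => (mem_Pr.1 (mem_Tp.1 hfT j)).1) (hg.2.trans hfn.symm)
  rw [Finset.sum_congr rfl h3, Finset.sum_const, nsmul_eq_mul]
  unfold NN
  rw [hfn]
  ring

lemma sum_wt_sq (a : ℕ → ℝ) (X i : ℕ) :
    ∑ f ∈ Tp X i, wt a f ^ 2 = (∑ p ∈ Pr X, a p ^ 2) ^ i := by
  rw [Finset.sum_pow']
  apply Finset.sum_congr rfl
  intro f _
  unfold wt
  rw [Finset.prod_pow]

/-- upper bound for the diagonal -/
theorem diag_le (a : ℕ → ℝ) (X i M : ℕ) (hM : X ^ i ≤ M) :
    ∑ n ∈ Finset.Icc 1 M, cc a X i n ^ 2 ≤ i.factorial * (∑ p ∈ Pr X, a p ^ 2) ^ i := by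
  rw [diag_eq a X i M hM, ← sum_wt_sq, Finset.mul_sum]
  apply Finset.sum_le_sum
  intro f hf
  apply mul_le_mul_of_nonneg_right _ (sq_nonneg _)
  exact_mod_cast NN_le hf

open Classical in
/-- the sum over injective tuples -/
noncomputable def JJ (a : ℕ → ℝ) (X i : ℕ) : ℝ :=
  ∑ f ∈ (Tp X i).filter (fun f => Function.Injective f), wt a f ^ 2

lemma JJ_nonneg (a : ℕ → ℝ) (X i : ℕ) : 0 ≤ JJ a X i :=
  Finset.sum_nonneg fun f _ => sq_nonneg _

open Classical in
lemma JJ_succ (a : ℕ → ℝ) (X i : ℕ) {μ : ℝ} (hμ : ∀ p, a p ^ 2 ≤ μ) :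
    JJ a X i * ((∑ p ∈ Pr X, a p ^ 2) - i * μ) ≤ JJ a X (i + 1) := by
  have h1 : JJ a X (i + 1) = ∑ f ∈ (Tp X i).filter (fun f => Function.Injective f),
      ∑ p ∈ (Pr X).filter (fun p => ∀ j, f j ≠ p), a p ^ 2 * wt a f ^ 2 := by
    unfold JJ
    rw [Finset.sum_sigma']
    refine Finset.sum_bij' (fun f _ => (⟨Fin.tail f, f 0⟩ : (_ : Fin i → ℕ) × ℕ))
      (fun x _ => (Fin.cons x.2 x.1 : Fin (i + 1) → ℕ)) ?_ ?_ ?_ ?_ ?_
    · intro f hf
      rw [Finset.mem_filter, mem_Tp] at hf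
      rw [Finset.mem_sigma, Finset.mem_filter, Finset.mem_filter, mem_Tp]
      refine ⟨⟨fun j => hf.1 _, fun x y hxy => ?_⟩, hf.1 0, fun j hj => ?_⟩
      · exact Fin.succ_injective _ (hf.2 hxy)
      · exact absurd (hf.2 hj) (Fin.succ_ne_zero j)
    · intro x hx
      rw [Finset.mem_sigma, Finset.mem_filter, Finset.mem_filter, mem_Tp] at hx
      rw [Finset.mem_filter, mem_Tp]
      refine ⟨fun j => ?_, ?_⟩
      · refine Fin.cases ?_ (fun j => ?_) j
        · exact hx.2.1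
        · exact hx.1.1 j
      · rw [Fin.cons_injective_iff]
        refine ⟨?_, hx.1.2⟩
        rintro ⟨j, hj⟩
        exact hx.2.2 j hj
    · intro f _
      exact Fin.cons_self_tail f
    · intro x _
      rfl
    · intro f _
      unfold wt
      rw [Fin.prod_univ_succ, mul_pow]
      rfl
  rw [h1]
  unfold JJ
  rw [Finset.sum_mul]
  apply Finset.sum_le_sum
  intro f hf
  rw [← Finset.sum_mul, mul_comm]
  apply mul_le_mul_of_nonneg_right _ (sq_nonneg _)
  have h2 : ∑ p ∈ Pr X, a p ^ 2 = (∑ p ∈ (Pr X).filter (fun p => ∀ j, f j ≠ p), a p ^ 2) +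
      ∑ p ∈ (Pr X).filter (fun p => ¬ ∀ j, f j ≠ p), a p ^ 2 :=
    (Finset.sum_filter_add_sum_filter_not _ _ _).symm
  have h3 : ∑ p ∈ (Pr X).filter (fun p => ¬ ∀ j, f j ≠ p), a p ^ 2 ≤ i * μ := by
    have h4 : (Pr X).filter (fun p => ¬ ∀ j, f j ≠ p) ⊆ Finset.univ.image f := by
      intro p hp
      rw [Finset.mem_filter] at hp
      push Not at hp
      obtain ⟨_, j, hj⟩ := hp
      exact Finset.mem_image.2 ⟨j, Finset.mem_univ _, hj⟩
    calc _ ≤ ∑ p ∈ Finset.univ.image f, a p ^ 2 :=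
          Finset.sum_le_sum_of_subset_of_nonneg h4 fun _ _ _ => sq_nonneg _
      _ ≤ ∑ p ∈ Finset.univ.image f, μ := Finset.sum_le_sum fun p _ => hμ p
      _ ≤ i * μ := by
          rw [Finset.sum_const, nsmul_eq_mul]
          apply mul_le_mul_of_nonneg_right _ ((sq_nonneg _).trans (hμ 0))
          have : (Finset.univ.image f).card ≤ i := by
            refine Finset.card_image_le.trans ?_
            rw [Finset.card_univ, Fintype.card_fin]
          exact_mod_cast this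
  linarith

lemma JJ_zero (a : ℕ → ℝ) (X : ℕ) : JJ a X 0 = 1 := by
  classical
  unfold JJ
  have : (Tp X 0).filter (fun f => Function.Injective f) = {Fin.elim0} := by
    ext f
    rw [Finset.mem_filter, mem_Tp, Finset.mem_singleton]
    constructor
    · intro _
      exact Subsingleton.elim _ _
    · intro _
      exact ⟨fun j => j.elim0, fun x => x.elim0⟩
  rw [this, Finset.sum_singleton]
  unfold wt
  simp

/-- lower bound for the diagonal -/
theorem diag_ge (a : ℕ → ℝ) (X i M : ℕ) (hM : X ^ i ≤ M) {μ : ℝ} (hμ : ∀ p, a p ^ 2 ≤ μ)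
    (hs : i * μ ≤ ∑ p ∈ Pr X, a p ^ 2) :
    i.factorial * ((∑ p ∈ Pr X, a p ^ 2) - i * μ) ^ i ≤ ∑ n ∈ Finset.Icc 1 M, cc a X i n ^ 2 := by
  classical
  have hμ0 : 0 ≤ μ := (sq_nonneg _).trans (hμ 0)
  set s := ∑ p ∈ Pr X, a p ^ 2 with hsd
  have h1 : ∀ l : ℕ, l ≤ i → (s - i * μ) ^ l ≤ JJ a X l := by
    intro l
    induction l with
    | zero => intro _; rw [JJ_zero, pow_zero]
    | succ l ih =>
      intro hl
      have h2 := ih (by omega)
      have h3 := JJ_succ a X l hμ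
      rw [← hsd] at h3
      refine le_trans ?_ h3
      rw [pow_succ]
      have h4 : (l : ℝ) ≤ i := by exact_mod_cast (by omega : l ≤ i)
      have h5 : s - i * μ ≤ s - l * μ := by nlinarith
      exact mul_le_mul h2 h5 (by linarith) (JJ_nonneg _ _ _)
  rw [diag_eq a X i M hM]
  calc (i.factorial : ℝ) * (s - i * μ) ^ i ≤ i.factorial * JJ a X i :=
        mul_le_mul_of_nonneg_left (h1 i le_rfl) (Nat.cast_nonneg _)
    _ = ∑ f ∈ (Tp X i).filter (fun f => Function.Injective f), (i.factorial : ℝ) * wt a f ^ 2 := by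
        unfold JJ
        rw [Finset.mul_sum]
    _ ≤ ∑ f ∈ (Tp X i).filter (fun f => Function.Injective f), (NN X f : ℝ) * wt a f ^ 2 := by
        apply Finset.sum_le_sum
        intro f hf
        rw [Finset.mem_filter] at hf
        apply mul_le_mul_of_nonneg_right _ (sq_nonneg _)
        exact_mod_cast NN_ge hf.1 hf.2
    _ ≤ _ := Finset.sum_le_sum_of_subset_of_nonneg (Finset.filter_subset _ _)
        fun f _ _ => mul_nonneg (Nat.cast_nonneg _) (sq_nonneg _)

end Pool.Agent.T9h26.TD
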