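import Pool.Agent.T9h26.TD.Sc
import Pool.Agent.Y747.Gp
import Pool.Agent.W249.TCF.Idx

set_option autoImplicit false

/-! Smoothed sums and counts of the ordinates near a point. -/

open Complex Filter Topology Set MeasureTheory

namespace Pool.Agent.T9h26.TD

open TC (ordz ordT mu EFD)
open SG (ord NZ zmult ZS)
open W200.HW (Ix mem_Ix)
open Pool.Agent.Y747 (al)

/-- the indices of the ordinates in `(U1, U2]` -/
noncomputable def Kx (U1 U2 : ℝ) : Finset ℕ := (Ix U2).filter (fun n => U1 < ord n)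

lemma mem_Kx {U1 U2 : ℝ} {n : ℕ} : n ∈ Kx U1 U2 ↔ 1 ≤ n ∧ U1 < ord n ∧ ord n ≤ U2 := by
  unfold Kx
  rw [Finset.mem_filter, mem_Ix]
  tauto

lemma ordz_eq {U1 U2 : ℝ} (hU : 1 ≤ U1) :
    ordz U1 U2 = (ordT U2).filter (fun g => U1 < g) := by
  ext g
  rw [Finset.mem_filter, W249.TCF.mem_ordT_iff]
  unfold TC.ordz
  rw [Finset.mem_image]
  constructor
  · rintro ⟨s, hs, rfl⟩
    rw [H370.mem_Zf H370.good_zeta hU] at hs
    obtain ⟨h1, h2, h3, h4, h5⟩ := hs
    exact ⟨⟨s, ⟨h5, h1, h2, by linarith, h4⟩, rfl⟩, h3⟩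
  · rintro ⟨⟨s, hs, rfl⟩, h3⟩
    obtain ⟨h5, h1, h2, h6, h4⟩ := hs
    refine ⟨s, ?_, rfl⟩
    rw [H370.mem_Zf H370.good_zeta hU]
    exact ⟨h1, h2, h3, h4, h5⟩

lemma sum_ordz (RH : RiemannHypothesis) {U1 U2 : ℝ} (hU : 1 ≤ U1) (f : ℝ → ℝ) :
    ∑ g ∈ ordz U1 U2, (mu g : ℝ) * f g = ∑ n ∈ Kx U1 U2, f (ord n) := by
  rw [ordz_eq hU, Finset.sum_filter]
  unfold Kx
  rw [Finset.sum_filter, ← W249.TCF.sum_ord RH U2 (fun g => if U1 < g then f g else 0)]
  apply Finset.sum_congr rfl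
  intro g _
  split_ifs <;> simp

lemma SX_idx (RH : RiemannHypothesis) {U1 U2 : ℝ} (hU : 1 ≤ U1) (w : ℝ → ℝ) (L t : ℝ) :
    SX (ordz U1 U2) mu w L t =
      ∑ n ∈ Kx U1 U2, Real.exp (-(ord n - t) ^ 2 / 2) * ph w (L * (ord n - t)) := by
  unfold SX
  rw [← sum_ordz RH hU (fun g => Real.exp (-(g - t) ^ 2 / 2) * ph w (L * (g - t)))]
  apply Finset.sum_congr rfl
  intro g _
  ring

/-- number of ordinates at distance `< ρ` from `t` -/
noncomputable def cO (U1 U2 t ρ : ℝ) : ℕ := ((Kx U1 U2).filter (fun n => |ord n - t| < ρ)).card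

/-- number of ordinates at distance `≤ ρ` from `t` -/
noncomputable def cC (U1 U2 t ρ : ℝ) : ℕ := ((Kx U1 U2).filter (fun n => |ord n - t| ≤ ρ)).card

/-- a weight which is non-positive outside the window -/
lemma SX_le (RH : RiemannHypothesis) {U1 U2 : ℝ} (hU : 1 ≤ U1) {w : ℝ → ℝ} {L x0 ρ B : ℝ}
    (hL : 0 < L) (hB : 0 ≤ B) (h1 : ∀ x, ph w x ≤ B) (h2 : ∀ x, x0 ≤ |x| → ph w x ≤ 0)
    (hρ : x0 ≤ L * ρ) (t : ℝ) :
    SX (ordz U1 U2) mu w L t ≤ cO U1 U2 t ρ * B := by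
  rw [SX_idx RH hU]
  have h3 : ∀ n ∈ Kx U1 U2, Real.exp (-(ord n - t) ^ 2 / 2) * ph w (L * (ord n - t)) ≤
      if |ord n - t| < ρ then B else 0 := by
    intro n _
    split_ifs with h
    · have he : Real.exp (-(ord n - t) ^ 2 / 2) ≤ 1 := by
        rw [Real.exp_le_one_iff]
        have := sq_nonneg (ord n - t)
        linarith
      have he0 := Real.exp_pos (-(ord n - t) ^ 2 / 2)
      rcases le_or_gt (ph w (L * (ord n - t))) 0 with h4 | h4
      · exact (mul_nonpos_of_nonneg_of_nonpos he0.le h4).trans hB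
      · calc _ ≤ 1 * ph w (L * (ord n - t)) := mul_le_mul_of_nonneg_right he h4.le
          _ ≤ B := by rw [one_mul]; exact h1 _
    · apply mul_nonpos_of_nonneg_of_nonpos (Real.exp_pos _).le
      apply h2
      rw [abs_mul, abs_of_pos hL]
      rw [not_lt] at h
      exact hρ.trans (mul_le_mul_of_nonneg_left h hL.le)
  refine (Finset.sum_le_sum h3).trans (le_of_eq ?_)
  rw [← Finset.sum_filter, Finset.sum_const, nsmul_eq_mul]
  rfl

/-- a non-negative weight -/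
lemma SX_ge (RH : RiemannHypothesis) {U1 U2 : ℝ} (hU : 1 ≤ U1) {w : ℝ → ℝ} {L x0 ρ c : ℝ}
    (hL : 0 < L) (hc : 0 ≤ c) (h1 : ∀ x, 0 ≤ ph w x)
    (h2 : ∀ x, |x| ≤ x0 → c ≤ ph w x) (hρ : L * ρ ≤ x0) (t : ℝ) :
    cC U1 U2 t ρ * (c * Real.exp (-ρ ^ 2 / 2)) ≤ SX (ordz U1 U2) mu w L t := by
  rw [SX_idx RH hU]
  have h3 : ∀ n ∈ Kx U1 U2, (if |ord n - t| ≤ ρ then c * Real.exp (-ρ ^ 2 / 2) else 0) ≤
      Real.exp (-(ord n - t) ^ 2 / 2) * ph w (L * (ord n - t)) := by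
    intro n _
    split_ifs with h
    · have he : Real.exp (-ρ ^ 2 / 2) ≤ Real.exp (-(ord n - t) ^ 2 / 2) := by
        apply Real.exp_le_exp.2
        have : (ord n - t) ^ 2 ≤ ρ ^ 2 := by
          rw [← sq_abs]
          exact pow_le_pow_left₀ (abs_nonneg _) h 2
        linarith
      have h4 : c ≤ ph w (L * (ord n - t)) := by
        apply h2
        rw [abs_mul, abs_of_pos hL]
        exact (mul_le_mul_of_nonneg_left h hL.le).trans hρ
      rw [mul_comm]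
      exact mul_le_mul he h4 hc (Real.exp_pos _).le
    · exact mul_nonneg (Real.exp_pos _).le (h1 _)
  refine le_trans (le_of_eq ?_) (Finset.sum_le_sum h3)
  rw [← Finset.sum_filter, Finset.sum_const, nsmul_eq_mul]
  rfl

/-- the square of a smoothed sum is bounded by a continuous function of bounded mean -/
theorem SX_L2 {w : ℝ → ℝ} {b : ℝ} {K : NNReal} (h : Wt w b K) (hv : 0 < var w) {C : ℝ}
    (hC : 0 < C) :
    ∃ C2 T1 : ℝ, 0 < C2 ∧ 10 ≤ T1 ∧ ∀ T : ℝ, T1 ≤ T → ∃ Φ : ℝ → ℝ, Continuous Φ ∧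
      (∀ t, 0 ≤ Φ t) ∧ (∫ t in T..(2 * T), Φ t) ≤ C2 * T ∧
      ∀ (Z : Finset ℝ) (m : ℝ → ℕ), EFD C T Z m → ∀ t : ℝ, T + Real.log T ≤ t →
        t ≤ 2 * T - Real.log T → SX Z m w (Real.log T) t ^ 2 ≤ Φ t := by
  set b' := (1 + b) / 2 with hb'
  have hbb : b < b' := by rw [hb']; linarith [h.b1]
  have hb1 : b' < 1 := by rw [hb']; linarith [h.b1]
  obtain ⟨A, T1, hA, hT1, h1⟩ := ef_pt h hbb hC
  obtain ⟨C2, hC2, h2⟩ := rn_sum h
  have hJ : ((1 : ℕ) : ℝ) * b < 1 := by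
    push_cast
    linarith [h.b1]
  have hm := mom_poly hv (coef_al h hJ) (fun i => if i = 1 then 1 else 0)
  have ev1 : Tendsto (fun T : ℝ => (1 + 8 * (T ^ (b' - 1) * (1 + Real.log T))) * (C2 / Real.log T))
      atTop (𝓝 ((1 + 8 * 0) * 0)) := by
    apply Tendsto.mul
    · apply Tendsto.const_add
      apply Tendsto.const_mul
      have hd : 0 < 1 - b' := by linarith
      have k1 : Tendsto (fun T : ℝ => T ^ (b' - 1)) atTop (𝓝 0) := by
        have := tendsto_rpow_neg_atTop hd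
        rwa [neg_sub] at this
      have k2 : Tendsto (fun T : ℝ => T ^ (b' - 1) * Real.log T) atTop (𝓝 0) := by
        have h3 := (isLittleO_log_rpow_atTop hd).tendsto_div_nhds_zero
        refine h3.congr' ?_
        filter_upwards [eventually_gt_atTop 0] with T hT
        have : T ^ (b' - 1) = (T ^ (1 - b'))⁻¹ := by
          rw [← Real.rpow_neg hT.le, neg_sub]
        rw [this]
        field_simp
      have h3 := k1.add k2
      rw [add_zero] at h3
      exact h3.congr fun T => by ring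
    · exact tendsto_const_nhds.div_atTop Real.tendsto_log_atTop
  rw [mul_zero] at ev1
  set S0 := ∑ i ∈ Finset.range (1 + 1), ((if i = 1 then 1 else 0 : ℝ)) ^ 2 *
    ((i.factorial : ℝ) * var w ^ i) with hS0
  obtain ⟨T2, hT2⟩ := eventually_atTop.1 ((ev1.eventually (gt_mem_nhds
    (show (0 : ℝ) < 1 by norm_num))).and (hm.eventually (gt_mem_nhds
    (show S0 < S0 + 1 by linarith))))
  have hS00 : 0 ≤ S0 := Finset.sum_nonneg fun i _ => by positivity
  refine ⟨4 * ((|w 0| + 1) ^ 2 + (S0 + 1) + A ^ 2 + 1), max T1 T2, by positivity,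
    hT1.trans (le_max_left _ _), fun T hT => ?_⟩
  have hTT1 : T1 ≤ T := (le_max_left _ _).trans hT
  obtain ⟨f1, f2⟩ := hT2 T ((le_max_right _ _).trans hT)
  have hT10 : 10 ≤ T := hT1.trans hTT1
  have hT0 : 0 < T := by linarith
  have hL : 0 < Real.log T := Real.log_pos (by linarith)
  set L := Real.log T with hLd
  have hL1 : 1 ≤ L := by
    rw [hLd, Real.le_log_iff_exp_le (by linarith)]
    have := Real.exp_one_lt_d9
    linarith
  set X := ⌊T ^ b'⌋₊ with hX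
  set R : ℝ → ℂ := fun t => ∑ n ∈ Finset.Icc 1 X, (rn w L n : ℂ) * (n : ℂ) ^ (-(t : ℂ) * I)
    with hR
  have hRc : Continuous R := by
    rw [hR]
    apply continuous_finsetSum
    intro n hn
    exact continuous_const.mul (cpow_cont n (Finset.mem_Icc.1 hn).1)
  have hPc : Continuous (PW w b T) := PP_cont _ _
  have hXT : (X : ℝ) ≤ T ^ b' := Nat.floor_le (by positivity)
  have hXT' : (X : ℝ) ≤ T := by
    refine hXT.trans ?_
    conv_rhs => rw [← Real.rpow_one T]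
    exact Real.rpow_le_rpow_of_exponent_le (by linarith) hb1.le
  have hX1 : (1 : ℝ) ≤ X := by
    have : 1 ≤ X := by
      rw [hX, Nat.one_le_floor_iff]
      exact Real.one_le_rpow (by linarith) (by linarith [h.b0])
    exact_mod_cast this
  have g1 : ∫ t in T..(2 * T), ‖R t‖ ^ 2 ≤ 1 * T := by
    have k1 := H370.mean_value (fun n => (rn w L n : ℂ)) X T (2 * T) (by linarith)
    have k2 := h2 T hT10 X hXT'
    have k3 : ∑ n ∈ Finset.Icc 1 X, ‖(rn w L n : ℂ)‖ ^ 2 = ∑ n ∈ Finset.Icc 1 X, rn w L n ^ 2 := by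
      apply Finset.sum_congr rfl
      intro n _
      rw [Complex.norm_real, Real.norm_eq_abs, sq_abs]
    rw [k3] at k1
    have k4 : Real.log X ≤ L := Real.log_le_log (by linarith) hXT'
    have k5 : 0 ≤ Real.log (X : ℝ) := Real.log_nonneg hX1
    have k6 : 2 * T - T + 8 * X * (1 + Real.log X) ≤ T * (1 + 8 * (T ^ (b' - 1) * (1 + L))) := by
      have : T * (1 + 8 * (T ^ (b' - 1) * (1 + L))) = T + 8 * (T * T ^ (b' - 1)) * (1 + L) := by
        ring
      rw [this, ← Real.rpow_one_add' hT0.le (by linarith [h.b0] : 1 + (b' - 1) ≠ 0)]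
      have e : (1 + (b' - 1) : ℝ) = b' := by ring
      rw [e]
      have : 8 * (X : ℝ) * (1 + Real.log X) ≤ 8 * T ^ b' * (1 + L) := by gcongr
      linarith
    calc ∫ t in T..(2 * T), ‖R t‖ ^ 2 ≤ (2 * T - T + 8 * X * (1 + Real.log X)) *
        ∑ n ∈ Finset.Icc 1 X, rn w L n ^ 2 := k1
      _ ≤ (T * (1 + 8 * (T ^ (b' - 1) * (1 + L)))) * (C2 / L) := by
          apply mul_le_mul k6 k2 (Finset.sum_nonneg fun n _ => sq_nonneg _)
          positivity
      _ = ((1 + 8 * (T ^ (b' - 1) * (1 + L))) * (C2 / L)) * T := by ring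
      _ ≤ _ := mul_le_mul_of_nonneg_right f1.le hT0.le
  have g2 : ∫ t in T..(2 * T), ‖PW w b T t‖ ^ 2 ≤ (S0 + 1) * T := by
    have k1 : ∀ t, ∑ i ∈ Finset.range (1 + 1), (((if i = 1 then 1 else 0 : ℝ)) : ℂ) *
        PP (al w L) (XT b T) t ^ i = PW w b T t := by
      intro t
      rw [Finset.sum_range_succ, Finset.sum_range_one]
      simp
      rfl
    simp_rw [k1] at f2
    have := f2.le
    rw [one_div, inv_mul_le_iff₀ hT0] at this
    linarith
  refine ⟨fun t => 4 * ((|w 0| + 1) ^ 2 + ‖PW w b T t‖ ^ 2 + A ^ 2 + ‖R t‖ ^ 2), by fun_prop,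
    fun t => by positivity, ?_, ?_⟩
  · have i1 : IntervalIntegrable (fun t => ‖PW w b T t‖ ^ 2) volume T (2 * T) :=
      (by fun_prop : Continuous fun t => ‖PW w b T t‖ ^ 2).intervalIntegrable _ _
    have i2 : IntervalIntegrable (fun t => ‖R t‖ ^ 2) volume T (2 * T) :=
      (by fun_prop : Continuous fun t => ‖R t‖ ^ 2).intervalIntegrable _ _
    have e1 : ∀ t, 4 * ((|w 0| + 1) ^ 2 + ‖PW w b T t‖ ^ 2 + A ^ 2 + ‖R t‖ ^ 2) =
        4 * (((|w 0| + 1) ^ 2 + A ^ 2) + (‖PW w b T t‖ ^ 2 + ‖R t‖ ^ 2)) := fun t => by ring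
    simp_rw [e1]
    rw [intervalIntegral.integral_const_mul, intervalIntegral.integral_add
      intervalIntegrable_const (i1.add i2), intervalIntegral.integral_add i1 i2,
      intervalIntegral.integral_const, smul_eq_mul]
    have e2 : 4 * ((|w 0| + 1) ^ 2 + (S0 + 1) + A ^ 2 + 1) * T = 4 * ((2 * T - T) *
      ((|w 0| + 1) ^ 2 + A ^ 2) + ((S0 + 1) * T + 1 * T)) := by ring
    rw [e2]
    gcongr
  · intro Z m hE t ht1 ht2
    have h3 := h1 T hTT1 Z m hE t ht1 ht2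
    rw [← PW_eq] at h3
    have h4 := Complex.abs_re_le_norm (PW w b T t)
    have h5 : |SX Z m w L t| ≤ (|w 0| + 1) + ‖PW w b T t‖ + A + ‖R t‖ := by
      have k1 : |SX Z m w L t| ≤ |SX Z m w L t - (w 0 / 2 - (PW w b T t).re)| +
          |w 0 / 2 - (PW w b T t).re| := by
        have := abs_add_le (SX Z m w L t - (w 0 / 2 - (PW w b T t).re))
          (w 0 / 2 - (PW w b T t).re)
        rwa [sub_add_cancel] at this
      have k2 : |w 0 / 2 - (PW w b T t).re| ≤ |w 0| / 2 + |(PW w b T t).re| := by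
        have := abs_sub (w 0 / 2) (PW w b T t).re
        rwa [abs_div, abs_of_pos (by norm_num : (0 : ℝ) < 2)] at this
      have k3 : A / L ≤ A := div_le_self hA.le hL1
      have k4 : ‖R t‖ = ‖∑ n ∈ Finset.Icc 1 ⌊T ^ b'⌋₊, (rn w (Real.log T) n : ℂ) *
        (n : ℂ) ^ (-(t : ℂ) * I)‖ := rfl
      rw [← k4] at h3
      have k5 := abs_nonneg (w 0)
      linarith
    have h6 : SX Z m w L t ^ 2 ≤ ((|w 0| + 1) + ‖PW w b T t‖ + A + ‖R t‖) ^ 2 := by
      rw [← sq_abs]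
      exact pow_le_pow_left₀ (abs_nonneg _) h5 2
    refine h6.trans ?_
    nlinarith [sq_nonneg ((|w 0| + 1) - ‖PW w b T t‖), sq_nonneg ((|w 0| + 1) - A),
      sq_nonneg ((|w 0| + 1) - ‖R t‖), sq_nonneg (‖PW w b T t‖ - A),
      sq_nonneg (‖PW w b T t‖ - ‖R t‖), sq_nonneg (A - ‖R t‖)]

end Pool.Agent.T9h26.TD
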