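import Pool.Agent.T9h26.TD.Zk

set_option autoImplicit false

/-! Decorrelation and variances of the fields. -/

open Complex Filter Topology Set MeasureTheory

namespace Pool.Agent.T9h26.TD

lemma kd_eq {a a' u : ℝ} (ha : 0 < a) (ha' : 0 < a') (hu : u ≠ 0) :
    kd a a' u = (ks a u - ks a' u) / |u| := by
  unfold kd
  rw [kp_eq ha hu, kp_eq ha' hu]
  ring

lemma ks_step {a u τ : ℝ} (ha : 0 < a) (hu : 0 < u) (hτ : 0 ≤ τ) :
    |ks a (u + τ) - ks a u| ≤ 2 * τ / u := by
  rcases le_or_gt (2 * a) u with h | h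
  · rw [ks_one ha (by rw [abs_of_pos (by linarith)]; linarith),
      ks_one ha (by rw [abs_of_pos hu]; exact h), sub_self, abs_zero]
    positivity
  · refine (ks_lip ha _ _).trans ?_
    rw [add_sub_cancel_left, abs_of_nonneg hτ, div_le_div_iff₀ ha hu]
    nlinarith

/-- the product of two differences of cut-offs -/
noncomputable def HH (a a' b b' u : ℝ) : ℝ := u * (kd a a' u * kd b b' u)

lemma HH_cont {a a' b b' : ℝ} (ha : 0 < a) (ha' : 0 < a') (hb : 0 < b) (hb' : 0 < b') :
    Continuous (HH a a' b b') :=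
  continuous_id.mul ((kd_cont ha ha').mul (kd_cont hb hb'))

lemma HH_step {a a' b b' u τ : ℝ} (ha : 0 < a) (h1 : a ≤ a') (hb : 0 < b) (h2 : b ≤ b')
    (hu : 0 < u) (hτ : 0 ≤ τ) : |HH a a' b b' u - HH a a' b b' (u + τ)| ≤ 9 * τ / u ^ 2 := by
  have hu' : 0 < u + τ := by linarith
  have e : ∀ v : ℝ, 0 < v → HH a a' b b' v = (ks a v - ks a' v) * (ks b v - ks b' v) * (1 / v) := by
    intro v hv
    unfold HH
    rw [kd_eq ha (by linarith) hv.ne', kd_eq hb (by linarith) hv.ne', abs_of_pos hv]
    field_simp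
  rw [e u hu, e _ hu']
  set P := ks a u - ks a' u with hP
  set Q := ks b u - ks b' u with hQ
  set P' := ks a (u + τ) - ks a' (u + τ) with hP'
  set Q' := ks b (u + τ) - ks b' (u + τ) with hQ'
  have bd : ∀ x y v : ℝ, 0 < x → x ≤ y → 0 ≤ ks x v - ks y v ∧ ks x v - ks y v ≤ 1 := by
    intro x y v hx hxy
    exact ⟨sub_nonneg.2 (ks_anti hx hxy v), by linarith [ks_le x v, ks_nonneg y v]⟩
  obtain ⟨p0, p1⟩ := bd a a' u ha h1
  obtain ⟨q0, q1⟩ := bd b b' u hb h2
  obtain ⟨p0', p1'⟩ := bd a a' (u + τ) ha h1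
  obtain ⟨q0', q1'⟩ := bd b b' (u + τ) hb h2
  rw [← hP] at p0 p1
  rw [← hQ] at q0 q1
  rw [← hP'] at p0' p1'
  rw [← hQ'] at q0' q1'
  have dP : |P' - P| ≤ 4 * τ / u := by
    have s1 := ks_step ha hu hτ
    have s2 := ks_step (a := a') (by linarith) hu hτ
    have e1 : P' - P = (ks a (u + τ) - ks a u) - (ks a' (u + τ) - ks a' u) := by
      rw [hP, hP']; ring
    rw [e1]
    refine (abs_sub _ _).trans ?_
    have : 4 * τ / u = 2 * τ / u + 2 * τ / u := by ring
    linarith
  have dQ : |Q' - Q| ≤ 4 * τ / u := by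
    have s1 := ks_step hb hu hτ
    have s2 := ks_step (a := b') (by linarith) hu hτ
    have e1 : Q' - Q = (ks b (u + τ) - ks b u) - (ks b' (u + τ) - ks b' u) := by
      rw [hQ, hQ']; ring
    rw [e1]
    refine (abs_sub _ _).trans ?_
    have : 4 * τ / u = 2 * τ / u + 2 * τ / u := by ring
    linarith
  have d1 : |1 / u - 1 / (u + τ)| ≤ τ / u ^ 2 := by
    have e1 : 1 / u - 1 / (u + τ) = τ / (u * (u + τ)) := by
      field_simp
      ring
    rw [e1, abs_of_nonneg (by positivity)]
    apply div_le_div_of_nonneg_left hτ (by positivity)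
    nlinarith
  have e2 : P * Q * (1 / u) - P' * Q' * (1 / (u + τ)) =
      (P' * Q') * (1 / u - 1 / (u + τ)) - ((P' - P) * Q' + P * (Q' - Q)) * (1 / u) := by ring
  rw [e2]
  have b1 : |(P' * Q') * (1 / u - 1 / (u + τ))| ≤ 1 * (τ / u ^ 2) := by
    rw [abs_mul, abs_of_nonneg (mul_nonneg p0' q0')]
    apply mul_le_mul _ d1 (abs_nonneg _) zero_le_one
    exact mul_le_one₀ p1' q0' q1'
  have b2 : |((P' - P) * Q' + P * (Q' - Q)) * (1 / u)| ≤ (4 * τ / u + 4 * τ / u) * (1 / u) := by
    rw [abs_mul, abs_of_pos (by positivity : 0 < 1 / u)]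
    apply mul_le_mul_of_nonneg_right _ (by positivity)
    refine (abs_add_le _ _).trans ?_
    rw [abs_mul, abs_mul, abs_of_nonneg q0', abs_of_nonneg p0]
    have hn : 0 ≤ 4 * τ / u := by positivity
    have c1 : |P' - P| * Q' ≤ 4 * τ / u * 1 := mul_le_mul dP q1' q0' hn
    have c2 : P * |Q' - Q| ≤ 1 * (4 * τ / u) := mul_le_mul p1 dQ (abs_nonneg _) zero_le_one
    linarith
  have b3 := abs_sub ((P' * Q') * (1 / u - 1 / (u + τ)))
    (((P' - P) * Q' + P * (Q' - Q)) * (1 / u))
  have e3 : 9 * τ / u ^ 2 = 1 * (τ / u ^ 2) + (4 * τ / u + 4 * τ / u) * (1 / u) := by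
    field_simp
    ring
  rw [e3]
  linarith

/-- decorrelation at large distances -/
theorem decor {a b c : ℝ} (ha : 0 < a) (h1 : a ≤ b) (h2 : b ≤ c) (hc : 2 * c ≤ 1) {h : ℝ}
    (hh : 0 < h) (hhb : 1 ≤ h * b) :
    |∫ u in (0 : ℝ)..1, u * (kd a c u * kd b c u) * Real.cos (2 * Real.pi * h * u)| ≤
      9 / (2 * (h * b)) := by
  have hb : 0 < b := by linarith
  have hc0 : 0 < c := by linarith
  have hac : a ≤ c := h1.trans h2
  set τ := 1 / (2 * h) with hτ
  have hτ0 : 0 < τ := by positivity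
  have hτb : τ ≤ b / 2 := by
    rw [hτ, div_le_div_iff₀ (by positivity) (by norm_num)]
    nlinarith
  set f : ℝ → ℝ := fun u => HH a c b c u * Real.cos (2 * Real.pi * h * u) with hf
  have hfc : Continuous f := (HH_cont ha hc0 hb hc0).mul (by fun_prop)
  have hi : ∀ x y, IntervalIntegrable f volume x y := fun x y => hfc.intervalIntegrable _ _
  have z1 : ∀ u, 0 ≤ u → u ≤ b → HH a c b c u = 0 := by
    intro u hu0 hu
    unfold HH
    rw [kd_zero1 (a := b) h2 (by rwa [abs_of_nonneg hu0]), mul_zero, mul_zero]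
  have z2 : ∀ u, 2 * c ≤ u → HH a c b c u = 0 := by
    intro u hu
    unfold HH
    rw [kd_zero2 hb h2 (hu.trans (le_abs_self _)), mul_zero, mul_zero]
  have zero_int : ∀ x y : ℝ, x ≤ y → (∀ u, x ≤ u → u ≤ y → HH a c b c u = 0) →
      ∫ u in x..y, f u = 0 := by
    intro x y hxy hz
    rw [intervalIntegral.integral_congr (g := fun _ => 0)]
    · simp
    · intro u hu
      rw [Set.uIcc_of_le hxy] at hu
      simp only [hf]
      rw [hz u hu.1 hu.2, zero_mul]
  set A := ∫ u in (0 : ℝ)..2, f u with hA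
  have e1 : ∫ u in (0 : ℝ)..1, u * (kd a c u * kd b c u) * Real.cos (2 * Real.pi * h * u) = A := by
    have h3 : ∫ u in (0 : ℝ)..1, f u = A := by
      rw [hA, ← intervalIntegral.integral_add_adjacent_intervals (hi 0 1) (hi 1 2),
        zero_int 1 2 (by norm_num) (fun u hu _ => z2 u (hc.trans hu)), add_zero]
    rw [← h3]
    rfl
  have e2 : ∫ u in (0 : ℝ)..2, f (u + τ) = A := by
    rw [intervalIntegral.integral_comp_add_right, zero_add]
    have h3 : (∫ u in τ..(2 + τ), f u) = (∫ u in (0 : ℝ)..(2 + τ), f u) - ∫ u in (0 : ℝ)..τ, f u := by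
      rw [← intervalIntegral.integral_add_adjacent_intervals (hi 0 τ) (hi τ (2 + τ))]
      ring
    have h4 : (∫ u in (0 : ℝ)..(2 + τ), f u) = A + ∫ u in (2 : ℝ)..(2 + τ), f u := by
      rw [hA, intervalIntegral.integral_add_adjacent_intervals (hi 0 2) (hi 2 (2 + τ))]
    rw [h3, h4, zero_int 0 τ hτ0.le (fun u hu hu2 => z1 u hu (by linarith)),
      zero_int 2 (2 + τ) (by linarith) (fun u hu _ => z2 u (by linarith))]
    ring
  have e3 : ∀ u, f (u + τ) = -(HH a c b c (u + τ) * Real.cos (2 * Real.pi * h * u)) := by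
    intro u
    simp only [hf]
    have : 2 * Real.pi * h * (u + τ) = 2 * Real.pi * h * u + Real.pi := by
      rw [hτ]
      field_simp
    rw [this, Real.cos_add_pi]
    ring
  set g : ℝ → ℝ := fun u => (HH a c b c u - HH a c b c (u + τ)) * Real.cos (2 * Real.pi * h * u)
    with hg
  have hHc := HH_cont ha hc0 hb hc0
  have hgc : Continuous g := (hHc.sub (hHc.comp (continuous_id.add continuous_const))).mul
    (by fun_prop)
  have hgi : ∀ x y, IntervalIntegrable g volume x y := fun x y => hgc.intervalIntegrable _ _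
  have e4 : 2 * A = ∫ u in (0 : ℝ)..2, g u := by
    have hfs : Continuous fun u => f (u + τ) := by
      have hsh : Continuous fun u : ℝ => u + τ := by fun_prop
      exact hfc.comp hsh
    have h3 : ∫ u in (0 : ℝ)..2, g u = (∫ u in (0 : ℝ)..2, f u) + ∫ u in (0 : ℝ)..2, f (u + τ) := by
      rw [← intervalIntegral.integral_add (hi 0 2) (hfs.intervalIntegrable _ _)]
      apply intervalIntegral.integral_congr
      intro u _
      simp only
      rw [e3 u]
      simp only [hg, hf]
      ring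
    rw [h3, e2]
    ring
  have e5 : ∫ u in (0 : ℝ)..2, g u = ∫ u in (b / 2)..2, g u := by
    rw [← intervalIntegral.integral_add_adjacent_intervals (hgi 0 (b / 2)) (hgi (b / 2) 2)]
    have : ∫ u in (0 : ℝ)..(b / 2), g u = 0 := by
      rw [intervalIntegral.integral_congr (g := fun _ => 0)]
      · simp
      · intro u hu
        rw [Set.uIcc_of_le (by positivity)] at hu
        simp only [hg]
        rw [z1 u hu.1 (by linarith [hu.2]), z1 (u + τ) (by linarith [hu.1]) (by linarith [hu.2])]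
        ring
    rw [this, zero_add]
  have hb2 : b / 2 ≤ 2 := by linarith
  have hpos : ∀ u ∈ Set.uIcc (b / 2) 2, 0 < u := by
    intro u hu
    rw [Set.uIcc_of_le hb2] at hu
    have : 0 < b / 2 := by positivity
    linarith [hu.1]
  have hcont : ContinuousOn (fun u : ℝ => 9 * τ / u ^ 2) (Set.uIcc (b / 2) 2) := by
    apply ContinuousOn.div (by fun_prop) (by fun_prop)
    intro u hu
    have := hpos u hu
    positivity
  have e6 : ‖∫ u in (b / 2)..2, g u‖ ≤ ∫ u in (b / 2)..2, 9 * τ / u ^ 2 := by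
    apply intervalIntegral.norm_integral_le_of_norm_le hb2
    · apply Eventually.of_forall
      intro u hu
      have hu0 : 0 < u := by
        have : 0 < b / 2 := by positivity
        linarith [hu.1]
      simp only [hg]
      rw [norm_mul]
      have h3 := HH_step (a := a) (a' := c) (b := b) (b' := c) ha hac hb h2 hu0 hτ0.le
      have h4 : ‖Real.cos (2 * Real.pi * h * u)‖ ≤ 1 := Real.abs_cos_le_one _
      calc _ ≤ 9 * τ / u ^ 2 * 1 := mul_le_mul h3 h4 (norm_nonneg _) (by positivity)
        _ = _ := mul_one _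
    · exact hcont.intervalIntegrable
  have e7 : ∫ u in (b / 2)..2, 9 * τ / u ^ 2 = -(9 * τ / 2) - -(9 * τ / (b / 2)) := by
    apply intervalIntegral.integral_eq_sub_of_hasDerivAt (f := fun u => -(9 * τ / u))
    · intro u hu
      have hu0 := (hpos u hu).ne'
      have h3 := ((hasDerivAt_const u (9 * τ)).div (hasDerivAt_id u) hu0).neg
      refine h3.congr_deriv ?_
      simp only [id]
      field_simp
      ring
    · exact hcont.intervalIntegrable
  rw [e1]
  rw [Real.norm_eq_abs, ← e5, ← e4, e7, abs_mul, abs_two] at e6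
  have e8 : 9 * τ / (b / 2) = 9 / (h * b) := by
    rw [hτ]
    field_simp
  have e9 : 9 / (2 * (h * b)) = 9 / (h * b) / 2 := by field_simp
  rw [e8] at e6
  rw [e9]
  have : 0 < 9 * τ / 2 := by positivity
  linarith

/-! ### variances -/

/-- the inner product of real weights -/
noncomputable def ipf (p q : ℝ → ℝ) : ℝ := ∫ u in (0 : ℝ)..1, u * (p u * q u)

lemma ipf_kd (a a' b b' : ℝ) : ipf (kd a a') (kd b b') = ip a a' b b' := rfl

lemma ee_inner (c c' u : ℝ) (x y : ℝ) :
    ‖(x : ℂ) * ee c u + (y : ℂ) * ee c' u‖ ^ 2 =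
      x * x + y * y + 2 * (x * y * Real.cos (2 * Real.pi * (c - c') * u)) := by
  unfold ee
  rw [← Complex.normSq_eq_norm_sq, Complex.normSq_apply]
  simp only [Complex.add_re, Complex.mul_re, Complex.ofReal_re, Complex.ofReal_im, zero_mul,
    sub_zero, Complex.add_im, Complex.mul_im, add_zero, Complex.exp_ofReal_mul_I_re,
    Complex.exp_ofReal_mul_I_im]
  have e : 2 * Real.pi * (c - c') * u = (-(2 * Real.pi * c' * u)) - (-(2 * Real.pi * c * u)) := by
    ring
  rw [e, Real.cos_sub]
  have h1 := Real.sin_sq_add_cos_sq (-(2 * Real.pi * c * u))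
  have h2 := Real.sin_sq_add_cos_sq (-(2 * Real.pi * c' * u))
  linear_combination x * x * h1 + y * y * h2

lemma var_two {p q : ℝ → ℝ} (hp : Continuous p) (hq : Continuous q) (κ : ℂ) (c c' : ℝ) :
    var (nw (fun u => κ * ((p u : ℂ) * ee c u + (q u : ℂ) * ee c' u))) =
      ‖κ‖ ^ 2 * (ipf p p + ipf q q + 2 * ∫ u in (0 : ℝ)..1, u * (p u * q u) *
        Real.cos (2 * Real.pi * (c - c') * u)) := by
  unfold var ipf
  have c1 : Continuous fun u : ℝ => u * (p u * p u) := by fun_prop
  have c2 : Continuous fun u : ℝ => u * (q u * q u) := by fun_prop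
  have c3 : Continuous fun u : ℝ => u * (p u * q u) * Real.cos (2 * Real.pi * (c - c') * u) := by
    fun_prop
  have c12 : Continuous fun u : ℝ => u * (p u * p u) + u * (q u * q u) := c1.add c2
  rw [← intervalIntegral.integral_const_mul, ← intervalIntegral.integral_add
    (c1.intervalIntegrable _ _) (c2.intervalIntegrable _ _), ← intervalIntegral.integral_add
    (c12.intervalIntegrable _ _) ((c3.intervalIntegrable _ _).const_mul 2),
    ← intervalIntegral.integral_const_mul]
  apply intervalIntegral.integral_congr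
  intro u hu
  rw [Set.uIcc_of_le zero_le_one] at hu
  unfold nw
  simp only
  rw [abs_of_nonneg hu.1, norm_mul, mul_pow, ee_inner]
  ring

lemma var_one {p : ℝ → ℝ} (hp : Continuous p) (κ : ℂ) (c : ℝ) :
    var (nw (fun u => κ * ((p u : ℂ) * ee c u))) = ‖κ‖ ^ 2 * ipf p p := by
  have h := var_two hp (q := fun _ => 0) continuous_const κ c c
  have e : (fun u => κ * ((p u : ℂ) * ee c u + ((0 : ℝ) : ℂ) * ee c u)) =
      fun u => κ * ((p u : ℂ) * ee c u) := by
    ext u
    simp
  rw [e] at h
  rw [h]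
  unfold ipf
  simp

lemma ipf_comb {p q : ℝ → ℝ} (hp : Continuous p) (hq : Continuous q) (s : ℝ) :
    ipf (fun u => p u + s * q u) (fun u => p u + s * q u) =
      ipf p p + 2 * s * ipf p q + s ^ 2 * ipf q q := by
  unfold ipf
  have c1 : Continuous fun u : ℝ => u * (p u * p u) := by fun_prop
  have c2 : Continuous fun u : ℝ => u * (q u * q u) := by fun_prop
  have c3 : Continuous fun u : ℝ => u * (p u * q u) := by fun_prop
  have c4 : Continuous fun u : ℝ => 2 * s * (u * (p u * q u)) := continuous_const.mul c3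
  have c5 : Continuous fun u : ℝ => u * (p u * p u) + 2 * s * (u * (p u * q u)) := c1.add c4
  have c6 : Continuous fun u : ℝ => s ^ 2 * (u * (q u * q u)) := continuous_const.mul c2
  rw [← intervalIntegral.integral_const_mul, ← intervalIntegral.integral_const_mul,
    ← intervalIntegral.integral_add (c1.intervalIntegrable _ _) (c4.intervalIntegrable _ _),
    ← intervalIntegral.integral_add (c5.intervalIntegrable _ _) (c6.intervalIntegrable _ _)]
  apply intervalIntegral.integral_congr
  intro u _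
  simp only
  ring

end Pool.Agent.T9h26.TD
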