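import Pool.Agent.T9h26.TD.Zf

set_option autoImplicit false

/-! The block theorem: field and counts. -/

open Complex Filter Topology Set MeasureTheory

namespace Pool.Agent.T9h26.TD

open TC (ordz ordT mu EFD)
open SG (ord NZ zmult ZS)
open W200.HW (Ix mem_Ix)
open Pool.Agent.Y747 (al)

lemma ee_add (c c0 u : ℝ) : ee (c + c0) u = ee c u * ee c0 u := by
  unfold ee
  rw [← Complex.exp_add]
  congr 1
  push_cast
  ring

lemma fW_shift (κ : ℂ) (p : ℝ → ℝ) (c c0 : ℝ) {T : ℝ} (hT : 1 < T) (t : ℝ) :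
    PZ (fW κ p (c + c0)) T t = PZ (fW κ p c) T (t + 2 * Real.pi * c0 / Real.log T) := by
  rw [PZ_shift _ hT]
  congr 1
  ext u
  unfold fW
  rw [ee_add]
  unfold ee
  ring

/-- numeric conditions -/
structure NP (ε : ℝ) (K M : ℕ) (ℓ θ : ℝ) (k J1 J4 : ℕ) : Prop where
  hK : 1 ≤ K
  hℓ : (K : ℝ) + 4 ≤ ℓ
  hθ : 0 < θ
  hθ1 : θ ≤ 1 / 2
  hθM : 8 * θ * ((20 * M + 1) * (20 * M + 1)) ≤ ε
  hk : 2 ≤ k
  hkε : 2 * (k : ℝ) ≤ ε * ℓ
  hkJ : (k : ℝ) ≤ Jp K ℓ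
  hkM : 14 * (k : ℝ) ≤ 20 * M
  hJM : (Jp K ℓ : ℝ) ≤ 10 * M
  hJ1 : (J1 : ℝ) ≤ Jp K ℓ
  hJ4 : (J4 : ℝ) ≤ Jp K ℓ
  one : 1 ≤ ε * ℓ
  v1 : 204 + 2 * Real.log (max 1 (2 * aa (ap K ℓ) (Dp K ℓ) K * (20 * M))) ≤
    210 + 8 * ℓ / (K + 4)
  lo : J1.factorial * (210 + 8 * ℓ / (K + 4)) ^ J1 / (ε * ℓ) ^ (2 * J1) < θ
  hi : (k - 1).factorial * (256 * Real.log (1 / (k * ap K ℓ))) ^ (k - 1) /
    (ε * ℓ) ^ (2 * (k - 1)) < θ
  fl : J4.factorial * ((ℓ + 1) / Real.pi ^ 2) ^ J4 / ((1 + ε) / Real.pi * ℓ) ^ (2 * J4) <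
    ε / (20 * M + 1)
  ze : ((ℓ + 1) / Real.pi ^ 2) / (ε * ℓ) ^ 2 < ε
  mx : (1 - 7 * ε) / Real.pi * ℓ ≤ (1 - ε) / (Real.pi * (1 + 4 * ε)) * (K / (K + 4) * ℓ - 1)

lemma norm_Ipi : ‖(I / Real.pi : ℂ)‖ ^ 2 = 1 / Real.pi ^ 2 := by
  rw [norm_div, Complex.norm_I, Complex.norm_real, Real.norm_of_nonneg Real.pi_pos.le]
  ring

/-- the values of the field -/
lemma fld_bd {ε : ℝ} {K M : ℕ} {ℓ θ : ℝ} {k J1 J4 : ℕ} (hε : 0 < ε) (h : NP ε K M ℓ θ k J1 J4)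
    (c : ℝ) : (∀ᶠ T : ℝ in atTop, ms T {t | (1 + ε) / Real.pi * ℓ ≤
      |FD (aa (ap K ℓ) (Dp K ℓ) K) (ap K ℓ) T t c|} ≤ ε / (20 * M + 1) * T) ∧
    ∀ᶠ T : ℝ in atTop, ms T {t | ε * ℓ ≤
      |FD (aa (ap K ℓ) (Dp K ℓ) K) (ap K ℓ) T t c|} ≤ ε * T := by
  have hpo := po h.hK h.hℓ
  have hpi := Real.pi_pos
  have hD1 : 1 ≤ Dp K ℓ := by linarith [hpo.D2]
  have hℓ0 : 0 < ℓ := by
    have : (0 : ℝ) ≤ K := Nat.cast_nonneg K
    linarith [h.hℓ]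
  obtain ⟨K1, hz⟩ := wz_bp (κ := I / Real.pi) hpo.a0 hD1 hpo.a1 K c
  have e : var (nw (fW (I / Real.pi) (bp (ap K ℓ) (Dp K ℓ) K) c)) =
      1 / Real.pi ^ 2 * ipf (bp (ap K ℓ) (Dp K ℓ) K) (bp (ap K ℓ) (Dp K ℓ) K) := by
    have := var_one (bp_cont hpo.a0 hD1 K) (I / Real.pi) c
    rw [norm_Ipi] at this
    exact this
  have hv : var (nw (fW (I / Real.pi) (bp (ap K ℓ) (Dp K ℓ) K) c)) ≤ (ℓ + 1) / Real.pi ^ 2 := by
    rw [e, one_div, inv_mul_eq_div]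
    apply div_le_div_of_nonneg_right _ (by positivity)
    have h1 := hpo.Aup
    have h2 := log2_bd
    have h3 : (K : ℝ) / (K + 4) * ℓ ≤ ℓ := by
      have hK : (0 : ℝ) ≤ K := Nat.cast_nonneg K
      rw [div_mul_eq_mul_div, div_le_iff₀ (by positivity)]
      nlinarith
    linarith
  have hv0 := var_nonneg (nw (fW (I / Real.pi) (bp (ap K ℓ) (Dp K ℓ) K) c))
  have haz : aa (ap K ℓ) (Dp K ℓ) 0 = ap K ℓ := aa_zero _ _
  have hFD : ∀ T t, |FD (aa (ap K ℓ) (Dp K ℓ) K) (ap K ℓ) T t c| ≤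
      ‖PZ (fW (I / Real.pi) (bp (ap K ℓ) (Dp K ℓ) K) c) T t‖ := by
    intro T t
    unfold FD bp
    rw [abs_neg, haz]
    exact Complex.abs_re_le_norm _
  have hJa : (Jp K ℓ : ℝ) * (2 * ap K ℓ) < 1 := hpo.Ja
  have hJ4 : (J4 : ℝ) * (2 * ap K ℓ) < 1 :=
    lt_of_le_of_lt (mul_le_mul_of_nonneg_right h.hJ4 (by linarith [hpo.a0])) hJa
  have hJ1' : ((1 : ℕ) : ℝ) * (2 * ap K ℓ) < 1 := by
    have := hpo.a1
    push_cast
    linarith
  constructor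
  · have m1 := mkv hz hJ4 (x := (1 + ε) / Real.pi * ℓ) (θ := ε / (20 * M + 1)) (by positivity)
      (lt_of_le_of_lt (by gcongr) h.fl)
    filter_upwards [m1] with T hT
    refine le_trans (ms_mono fun t _ _ ht => ?_) hT
    exact le_trans (show (1 + ε) / Real.pi * ℓ ≤ _ from ht) (hFD T t)
  · have m1 := mkv hz hJ1' (x := ε * ℓ) (θ := ε) (by positivity) (by
      rw [Nat.factorial_one, Nat.cast_one, one_mul, pow_one, mul_one]
      refine lt_of_le_of_lt ?_ h.ze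
      gcongr)
    filter_upwards [m1] with T hT
    refine le_trans (ms_mono fun t _ _ ht => ?_) hT
    exact le_trans (show ε * ℓ ≤ _ from ht) (hFD T t)

/-- the maxima of the field -/
lemma fld_mx {ε : ℝ} {K M : ℕ} {ℓ θ : ℝ} {k J1 J4 : ℕ} (hε : 0 < ε) (hε1 : ε ≤ 1 / 10)
    (h : NP ε K M ℓ θ k J1 J4)
    (hM : ∀ κ : ℂ, ‖κ‖ = 1 / (1 + 4 * ε) →
      ∀ᶠ T : ℝ in atTop, ms T {t | ∀ c : ℕ, c ≤ M →
        (PZ (fW κ (bp (ap K ℓ) (Dp K ℓ) K) c) T t).re <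
          (1 - ε) * (‖κ‖ ^ 2 * (K / (K + 4) * ℓ - 1))} ≤ 6 * ε * T) {σ : ℝ} (hσ : |σ| = 1) (c0 : ℕ) :
    ∀ᶠ T : ℝ in atTop, ms T {t | ∀ c : ℕ, c ≤ M →
      σ * FD (aa (ap K ℓ) (Dp K ℓ) K) (ap K ℓ) T t ((c + c0 : ℕ) : ℝ) < (1 - 7 * ε) / Real.pi * ℓ} ≤
        7 * ε * T := by
  have hpi := Real.pi_pos
  set q : ℝ := 1 / (1 + 4 * ε) with hq
  have hq0 : 0 < q := by positivity
  set r : ℝ := -(σ * (Real.pi * q)) with hr
  set κ : ℂ := (r : ℂ) * (I / Real.pi) with hκ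
  have hκn : ‖κ‖ = q := by
    rw [hκ, norm_mul, norm_div, Complex.norm_I, Complex.norm_real, Complex.norm_real,
      Real.norm_of_nonneg hpi.le, hr, norm_neg, Real.norm_eq_abs, abs_mul, hσ, one_mul,
      abs_of_pos (by positivity)]
    field_simp
  have h1 := hM κ hκn
  have h2 : ∀ᶠ T : ℝ in atTop, 2 * Real.pi * c0 ≤ Real.log T :=
    Real.tendsto_log_atTop.eventually_ge_atTop _
  filter_upwards [h1, h2, eventually_gt_atTop 1, eventually_ge_atTop (1 / ε)] with T k1 k2 k3 k4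
  have hL : 0 < Real.log T := Real.log_pos k3
  have hs0 : 0 ≤ 2 * Real.pi * (c0 : ℝ) / Real.log T := by positivity
  have hs1 : 2 * Real.pi * (c0 : ℝ) / Real.log T ≤ 1 := by rw [div_le_one hL]; exact k2
  have k5 := ms_shift (T := T) hs0 {t | ∀ c : ℕ, c ≤ M →
        (PZ (fW κ (bp (ap K ℓ) (Dp K ℓ) K) c) T t).re <
          (1 - ε) * (‖κ‖ ^ 2 * (K / (K + 4) * ℓ - 1))}
  rw [div_le_iff₀ hε] at k4
  refine le_trans (ms_mono fun t _ _ ht => ?_) (k5.trans (by linarith))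
  intro c hc
  have h3 := ht c hc
  rw [← fW_shift _ _ _ _ k3]
  have h4 : fW κ (bp (ap K ℓ) (Dp K ℓ) K) ((c : ℝ) + c0) = fun u => (r : ℂ) *
      fW (I / Real.pi) (bp (ap K ℓ) (Dp K ℓ) K) ((c : ℝ) + c0) u := by
    ext u
    unfold fW
    rw [hκ]
    ring
  rw [h4, PZ_smul, Complex.re_ofReal_mul]
  have haz : aa (ap K ℓ) (Dp K ℓ) 0 = ap K ℓ := aa_zero _ _
  have h5 : FD (aa (ap K ℓ) (Dp K ℓ) K) (ap K ℓ) T t ((c + c0 : ℕ) : ℝ) =
      -(PZ (fW (I / Real.pi) (bp (ap K ℓ) (Dp K ℓ) K) ((c : ℝ) + c0)) T t).re := by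
    unfold FD bp
    rw [haz]
    push_cast
    rfl
  rw [h5] at h3
  set X := (PZ (fW (I / Real.pi) (bp (ap K ℓ) (Dp K ℓ) K) ((c : ℝ) + c0)) T t).re with hX
  have h6 : r * X = (Real.pi * q) * (σ * -X) := by rw [hr]; ring
  rw [h6]
  have h7 := lt_of_lt_of_le h3 h.mx
  calc (Real.pi * q) * (σ * -X) < (Real.pi * q) *
        ((1 - ε) / (Real.pi * (1 + 4 * ε)) * (K / (K + 4) * ℓ - 1)) := by
        apply mul_lt_mul_of_pos_left h7 (by positivity)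
    _ = _ := by
        rw [hκn, hq]
        field_simp

/-- **the block theorem** -/
theorem blk (RH : RiemannHypothesis) {C' : ℝ} (hC' : 0 < C') {ε : ℝ} (hε : 0 < ε)
    (hε1 : ε ≤ 1 / 10) {K M : ℕ} {ℓ θ : ℝ} {k J1 J4 : ℕ}
    (h : NP ε K M ℓ θ k J1 J4) (hM1 : 1 ≤ M)
    (hM : ∀ κ : ℂ, ‖κ‖ = 1 / (1 + 4 * ε) →
      ∀ᶠ T : ℝ in atTop, ms T {t | ∀ c : ℕ, c ≤ M →
        (PZ (fW κ (bp (ap K ℓ) (Dp K ℓ) K) c) T t).re <
          (1 - ε) * (‖κ‖ ^ 2 * (K / (K + 4) * ℓ - 1))} ≤ 6 * ε * T) :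
    ∃ T1 : ℝ, 10 ≤ T1 ∧ ∀ T : ℝ, T1 ≤ T → ∀ U1 U2 : ℝ, 1 ≤ U1 → EFD C' T (ordz U1 U2) mu →
      ∃ Bad : Set ℝ, ms T Bad ≤ 31 * ε * T ∧ ∀ t, T < t → t ≤ 2 * T → t ∉ Bad → ∃ F : ℕ → ℝ,
        (∀ c ≤ 20 * M, |F c| ≤ (1 + ε) / Real.pi * ℓ) ∧ |F 0| ≤ ε * ℓ ∧
        (∀ σ : ℝ, |σ| = 1 → ∀ c0 : ℕ, c0 = 0 ∨ c0 = 2 * M → ∃ c : ℕ, c0 ≤ c ∧ c ≤ c0 + M ∧
          (1 - 7 * ε) / Real.pi * ℓ ≤ σ * F c) ∧
        ∀ c' c : ℕ, c ≤ 20 * M → (c' : ℝ) + 2 * ε * ℓ ≤ c →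
          ((c : ℝ) - c') + (F c - F c') - 4 * ε * ℓ ≤
            (cO U1 U2 (t + Real.pi * (c + c') / Real.log T)
              (Real.pi * (c - c') / Real.log T) : ℝ) ∧
          (cC U1 U2 (t + Real.pi * (c + c') / Real.log T)
              (Real.pi * (c - c') / Real.log T) : ℝ) ≤
            ((c : ℝ) - c') + (F c - F c') + 4 * ε * ℓ := by
  classical
  have hpo := po h.hK h.hℓ
  have hpi := Real.pi_pos
  have hMr : (1 : ℝ) ≤ M := by exact_mod_cast hM1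
  have hℓ0 : 0 < ℓ := by
    have : (0 : ℝ) ≤ K := Nat.cast_nonneg K
    linarith [h.hℓ]
  have hℓ1 : 1 ≤ ℓ := by
    have : (0 : ℝ) ≤ K := Nat.cast_nonneg K
    linarith [h.hℓ]
  have hD0 : 0 < Dp K ℓ := by linarith [hpo.D2]
  have hD1 : 1 ≤ Dp K ℓ := by linarith [hpo.D2]
  obtain ⟨-, -, -, hJ0'⟩ := Jp_ge (K := K) hℓ1
  have hJ0 : (0 : ℝ) < Jp K ℓ := by linarith
  set a := aa (ap K ℓ) (Dp K ℓ) K with ha
  set a0 := ap K ℓ with ha0
  have hapos : 0 < a := aa_pos hpo.a0 hD0 K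
  have haa : a ≤ a0 := by
    have := aa_anti hpo.a0 hD1 (Nat.zero_le K)
    rwa [aa_zero] at this
  have ha0J : a0 = 1 / (4 * (Jp K ℓ : ℝ)) := rfl
  have hk0 : (0 : ℝ) < k := by exact_mod_cast (by have := h.hk; omega : 0 < k)
  -- the windows
  set P := ((Finset.range (20 * M + 1)) ×ˢ (Finset.range (20 * M + 1))).filter
    (fun p => (p.1 : ℝ) + 4 * k ≤ p.2) with hP
  set Q := (1 + ε) / Real.pi * ℓ with hQ
  have hwin : ∀ p ∈ P, ∃ T1 : ℝ, 10 ≤ T1 ∧ ∀ T : ℝ, T1 ≤ T → ∀ U1 U2 : ℝ, 1 ≤ U1 →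
      EFD C' T (ordz U1 U2) mu →
      ms T {t | ¬ (|FD a a0 T t p.2| ≤ Q → |FD a a0 T t p.1| ≤ Q →
        ((p.2 : ℝ) - p.1) + (FD a a0 T t p.2 - FD a a0 T t p.1) - (2 * k + 2 * (ε * ℓ) + 1) ≤
          (cO U1 U2 (t + Real.pi * (p.2 + p.1) / Real.log T)
            (Real.pi * (p.2 - p.1) / Real.log T) : ℝ) ∧
        (cC U1 U2 (t + Real.pi * (p.2 + p.1) / Real.log T)
            (Real.pi * (p.2 - p.1) / Real.log T) : ℝ) ≤
          ((p.2 : ℝ) - p.1) + (FD a a0 T t p.2 - FD a a0 T t p.1) + (2 * k + 2 * (ε * ℓ) + 1))} ≤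
        8 * θ * T := by
    intro p hp
    rw [hP, Finset.mem_filter, Finset.mem_product, Finset.mem_range, Finset.mem_range] at hp
    obtain ⟨⟨p1, p2⟩, p3⟩ := hp
    have hp2 : (p.2 : ℝ) ≤ 20 * M := by
      have : p.2 ≤ 20 * M := by omega
      exact_mod_cast this
    apply win_cnt RH hC' h.hk (α := 1 / (20 * M)) (v1 := 210 + 8 * ℓ / (K + 4))
      (v2 := 256 * Real.log (1 / (k * a0))) (J1 := J1) (Nat.cast_nonneg _) (by linarith) hapos haa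
      hpo.a1 ?_ (by positivity) ?_ ?_ ?_ (by positivity) h.hθ h.hθ1 ?_ le_rfl ?_ h.lo h.hi
    · rw [ha0J]
      have h1 : 2 * (1 / (4 * (Jp K ℓ : ℝ))) = 1 / (2 * Jp K ℓ) := by field_simp; norm_num
      rw [h1]
      apply one_div_le_one_div_of_le (by positivity)
      linarith [h.hkJ]
    · rw [ha0J]
      have h1 : 2 * (1 / (4 * (Jp K ℓ : ℝ))) = 1 / (2 * Jp K ℓ) := by field_simp; norm_num
      rw [h1]
      apply one_div_le_one_div_of_le (by positivity)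
      linarith [h.hJM]
    · rw [mul_one_div, div_le_div_iff₀ (by positivity) hk0]
      linarith [h.hkM]
    · rw [mul_one_div, div_le_one (by positivity)]
      have : (0 : ℝ) ≤ p.1 := Nat.cast_nonneg _
      linarith
    · have h1 : 2 * a / (1 / (20 * (M : ℝ))) = 2 * a * (20 * M) := by
        field_simp
      rw [h1]
      exact h.v1
    · exact lt_of_le_of_lt (mul_le_mul_of_nonneg_right h.hJ1 (by linarith [hpo.a0])) hpo.Ja
  choose! TW hTW1 hTW2 using hwin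
  -- the field
  have hfl : ∀ c ∈ Finset.range (20 * M + 1), ∀ᶠ T : ℝ in atTop, ms T {t | Q ≤
      |FD a a0 T t (c : ℝ)|} ≤ ε / (20 * M + 1) * T := fun c _ => (fld_bd hε h c).1
  have hfl' := (Filter.eventually_all_finset _).2 hfl
  have hze := (fld_bd hε h ((0 : ℕ) : ℝ)).2
  have m1 := fld_mx hε hε1 h hM (σ := 1) (by norm_num) 0
  have m2 := fld_mx hε hε1 h hM (σ := -1) (by norm_num) 0
  have m3 := fld_mx hε hε1 h hM (σ := 1) (by norm_num) (2 * M)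
  have m4 := fld_mx hε hε1 h hM (σ := -1) (by norm_num) (2 * M)
  obtain ⟨T0, hT0⟩ := eventually_atTop.1 ((hfl'.and hze).and ((m1.and m2).and (m3.and m4)))
  have hTWb : ∃ TB : ℝ, 10 ≤ TB ∧ ∀ p ∈ P, TW p ≤ TB := by
    refine ⟨max 10 (∑ p ∈ P, |TW p|), le_max_left _ _, fun p hp => ?_⟩
    refine le_trans (le_abs_self _) (le_trans ?_ (le_max_right _ _))
    exact Finset.single_le_sum (f := fun p => |TW p|) (fun p _ => abs_nonneg _) hp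
  obtain ⟨TB, hTB1, hTB2⟩ := hTWb
  refine ⟨max TB T0, hTB1.trans (le_max_left _ _), fun T hT U1 U2 hU hE => ?_⟩
  have a1 : TB ≤ T := (le_max_left _ _).trans hT
  obtain ⟨⟨b1, b2⟩, ⟨b3, b4⟩, b5, b6⟩ := hT0 T ((le_max_right _ _).trans hT)
  have hT10 : 10 ≤ T := hTB1.trans a1
  have hTp : 0 < T := by linarith
  set W : ℕ × ℕ → Set ℝ := fun p => {t | ¬ (|FD a a0 T t p.2| ≤ Q → |FD a a0 T t p.1| ≤ Q →
        ((p.2 : ℝ) - p.1) + (FD a a0 T t p.2 - FD a a0 T t p.1) - (2 * k + 2 * (ε * ℓ) + 1) ≤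
          (cO U1 U2 (t + Real.pi * (p.2 + p.1) / Real.log T)
            (Real.pi * (p.2 - p.1) / Real.log T) : ℝ) ∧
        (cC U1 U2 (t + Real.pi * (p.2 + p.1) / Real.log T)
            (Real.pi * (p.2 - p.1) / Real.log T) : ℝ) ≤
          ((p.2 : ℝ) - p.1) + (FD a a0 T t p.2 - FD a a0 T t p.1) + (2 * k + 2 * (ε * ℓ) + 1))}
    with hW
  set A1 : Set ℝ := {t | ∃ p ∈ P, t ∈ W p} with hA1
  set A2 : Set ℝ := {t | ∃ c ∈ Finset.range (20 * M + 1), t ∈ {t | Q ≤ |FD a a0 T t (c : ℝ)|}}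
    with hA2
  set A3 : Set ℝ := {t | ε * ℓ ≤ |FD a a0 T t ((0 : ℕ) : ℝ)|} with hA3
  set B1 : Set ℝ := {t | ∀ c : ℕ, c ≤ M → 1 * FD a a0 T t ((c + 0 : ℕ) : ℝ) <
    (1 - 7 * ε) / Real.pi * ℓ} with hB1
  set B2 : Set ℝ := {t | ∀ c : ℕ, c ≤ M → -1 * FD a a0 T t ((c + 0 : ℕ) : ℝ) <
    (1 - 7 * ε) / Real.pi * ℓ} with hB2
  set B3 : Set ℝ := {t | ∀ c : ℕ, c ≤ M → 1 * FD a a0 T t ((c + 2 * M : ℕ) : ℝ) <
    (1 - 7 * ε) / Real.pi * ℓ} with hB3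
  set B4 : Set ℝ := {t | ∀ c : ℕ, c ≤ M → -1 * FD a a0 T t ((c + 2 * M : ℕ) : ℝ) <
    (1 - 7 * ε) / Real.pi * ℓ} with hB4
  refine ⟨(A1 ∪ (A2 ∪ A3)) ∪ ((B1 ∪ B2) ∪ (B3 ∪ B4)), ?_, ?_⟩
  · have c1 : ms T A1 ≤ ε * T := by
      refine (ms_biUnion T P W).trans ?_
      have h1 : ∀ p ∈ P, ms T (W p) ≤ 8 * θ * T := fun p hp =>
        hTW2 p hp T ((hTB2 p hp).trans a1) U1 U2 hU hE
      refine (Finset.sum_le_sum h1).trans ?_
      rw [Finset.sum_const, nsmul_eq_mul]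
      have h2 : (P.card : ℝ) ≤ (20 * M + 1) * (20 * M + 1) := by
        have h3 : P.card ≤ (20 * M + 1) * (20 * M + 1) := by
          rw [hP]
          refine (Finset.card_filter_le _ _).trans ?_
          rw [Finset.card_product, Finset.card_range]
        exact_mod_cast h3
      have hθ := h.hθ
      calc (P.card : ℝ) * (8 * θ * T) ≤ ((20 * M + 1) * (20 * M + 1)) * (8 * θ * T) := by gcongr
        _ = (8 * θ * ((20 * M + 1) * (20 * M + 1))) * T := by ring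
        _ ≤ ε * T := mul_le_mul_of_nonneg_right h.hθM hTp.le
    have c2 : ms T A2 ≤ ε * T := by
      refine (ms_biUnion T _ _).trans ?_
      refine (Finset.sum_le_sum b1).trans ?_
      rw [Finset.sum_const, Finset.card_range, nsmul_eq_mul]
      apply le_of_eq
      push_cast
      field_simp
    have e1 := ms_union T (A1 ∪ (A2 ∪ A3)) ((B1 ∪ B2) ∪ (B3 ∪ B4))
    have e2 := ms_union T A1 (A2 ∪ A3)
    have e3 := ms_union T A2 A3
    have e4 := ms_union T (B1 ∪ B2) (B3 ∪ B4)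
    have e5 := ms_union T B1 B2
    have e6 := ms_union T B3 B4
    linarith
  · intro t _ _ ht
    rw [mem_union, not_or, mem_union, not_or, mem_union, not_or, mem_union, not_or, mem_union,
      not_or, mem_union, not_or] at ht
    obtain ⟨⟨t1, t2, t3⟩, ⟨t4, t5⟩, t6, t7⟩ := ht
    have hfb : ∀ c : ℕ, c ≤ 20 * M → |FD a a0 T t (c : ℝ)| ≤ Q := by
      intro c hc
      by_contra h3
      apply t2
      exact ⟨c, Finset.mem_range.2 (by omega), (not_le.1 h3).le⟩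
    refine ⟨fun c => FD a a0 T t (c : ℝ), hfb, (not_le.1 t3).le, ?_, ?_⟩
    · intro σ hσ c0 hc0
      have key : ∀ (τ : ℝ), ¬ (∀ c : ℕ, c ≤ M → τ * FD a a0 T t ((c + c0 : ℕ) : ℝ) <
          (1 - 7 * ε) / Real.pi * ℓ) → ∃ c : ℕ, c0 ≤ c ∧ c ≤ c0 + M ∧
          (1 - 7 * ε) / Real.pi * ℓ ≤ τ * FD a a0 T t (c : ℝ) := by
        intro τ h4
        push Not at h4
        obtain ⟨c, hc, h5⟩ := h4
        exact ⟨c + c0, by omega, by omega, h5⟩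
      rcases (abs_eq zero_le_one).1 hσ with h3 | h3
      · rw [h3]
        apply key
        rcases hc0 with h4 | h4
        · rw [h4]; exact t4
        · rw [h4]; exact t6
      · rw [h3]
        apply key
        rcases hc0 with h4 | h4
        · rw [h4]; exact t5
        · rw [h4]; exact t7
    · intro c' c hc hcc
      have hc'c : (c' : ℝ) ≤ c := by
        have : 0 < 2 * ε * ℓ := by positivity
        linarith
      have hc'c' : c' ≤ c := by exact_mod_cast hc'c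
      have hmem : (c', c) ∈ P := by
        rw [hP, Finset.mem_filter, Finset.mem_product, Finset.mem_range, Finset.mem_range]
        refine ⟨⟨by simp only; omega, by simp only; omega⟩, ?_⟩
        simp only
        linarith [h.hkε]
      have h3 : t ∉ W (c', c) := fun h4 => t1 ⟨_, hmem, h4⟩
      have h4 := not_not.1 h3
      have h5 := h4 (hfb c hc) (hfb c' (by omega))
      simp only at h5
      have h6 := h.one
      have h7 := h.hkε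
      constructor
      · refine le_trans ?_ h5.1
        linarith
      · refine h5.2.trans ?_
        linarith

end Pool.Agent.T9h26.TD
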