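import Pool.Agent.T9h26.TD.Zg

set_option autoImplicit false

/-! The numeric conditions hold for large `M`. -/

open Complex Filter Topology Set MeasureTheory

namespace Pool.Agent.T9h26.TD

lemma exp1_le3 : Real.exp 1 ≤ 3 := by
  have := Real.exp_one_lt_d9
  linarith

lemma theta_lb {ε M ℓ X : ℝ} (hε : 0 < ε) (hM : 1 ≤ M) (hMℓ : M = Real.exp ℓ)
    (h : 8 * 441 * (X * Real.exp (2 * ℓ)) < ε) :
    X < ε / (8 * ((20 * M + 1) * (20 * M + 1))) := by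
  rw [lt_div_iff₀ (by positivity)]
  have hX : (20 * M + 1) * (20 * M + 1) ≤ 441 * Real.exp (2 * ℓ) := by
    have h1 : Real.exp (2 * ℓ) = M * M := by
      rw [hMℓ, ← Real.exp_add]
      congr 1
      ring
    rw [h1]
    nlinarith
  rcases le_or_gt X 0 with h0 | h0
  · have : X * (8 * ((20 * M + 1) * (20 * M + 1))) ≤ 0 :=
      mul_nonpos_of_nonpos_of_nonneg h0 (by positivity)
    linarith
  · calc X * (8 * ((20 * M + 1) * (20 * M + 1))) ≤ X * (8 * (441 * Real.exp (2 * ℓ))) := by gcongr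
      _ = 8 * 441 * (X * Real.exp (2 * ℓ)) := by ring
      _ < ε := h


lemma np_Jb {ε C : ℝ} (_hε : 0 < ε) {ℓ J : ℝ} {M : ℝ} (hMexp : M = Real.exp ℓ)
    (hJC : J ≤ C * ℓ) (e4 : C * (ℓ * Real.exp (-ℓ)) ≤ 10) : J ≤ 10 * M := by
  refine hJC.trans ?_
  rw [hMexp]
  have h1 := mul_le_mul_of_nonneg_right e4 (Real.exp_pos ℓ).le
  have h2 : C * (ℓ * Real.exp (-ℓ)) * Real.exp ℓ = C * ℓ := by
    rw [Real.exp_neg]
    have := (Real.exp_pos ℓ).ne'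
    field_simp
  linarith

lemma np_v1 {K : ℕ} {ℓ : ℝ} (hpo : PO K ℓ) {M : ℝ} (hM : 0 < M) (hMexp : M = Real.exp ℓ) :
    204 + 2 * Real.log (max 1 (2 * aa (ap K ℓ) (Dp K ℓ) K * (20 * M))) ≤
    210 + 8 * ℓ / (K + 4) := by
  have hD0 : 0 < Dp K ℓ := by linarith [hpo.D2]
  have h1 : 2 * aa (ap K ℓ) (Dp K ℓ) K * (20 * M) ≤ 10 * Dp K ℓ ^ 4 := by
    have h2 : M = Dp K ℓ ^ K * Dp K ℓ ^ 4 := by
      rw [hMexp, ← pow_add]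
      unfold Dp
      rw [← Real.exp_nat_mul]
      congr 1
      push_cast
      field_simp
    unfold aa
    rw [h2]
    have h3 : 2 * (ap K ℓ / Dp K ℓ ^ K) * (20 * (Dp K ℓ ^ K * Dp K ℓ ^ 4)) =
        40 * ap K ℓ * Dp K ℓ ^ 4 := by
      field_simp
      ring
    rw [h3]
    have := hpo.a1
    gcongr
    linarith
  have h4 : (1 : ℝ) ≤ 10 * Dp K ℓ ^ 4 := by
    have : (1 : ℝ) ≤ Dp K ℓ ^ 4 := one_le_pow₀ (by linarith [hpo.D2])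
    linarith
  have h5 : Real.log (max 1 (2 * aa (ap K ℓ) (Dp K ℓ) K * (20 * M))) ≤
      Real.log (10 * Dp K ℓ ^ 4) := by
    apply Real.log_le_log (by positivity)
    exact max_le h4 h1
  rw [Real.log_mul (by norm_num) (by positivity), Real.log_pow, hpo.lD] at h5
  have h6 : Real.log 10 ≤ 3 := by
    have h7 : Real.log 10 ≤ Real.log (2 ^ 4) := Real.log_le_log (by norm_num) (by norm_num)
    rw [Real.log_pow] at h7
    have := log2_bd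
    push_cast at h7
    linarith
  push_cast at h5
  have h8 : 8 * ℓ / ((K : ℝ) + 4) = 2 * (4 * (ℓ / (K + 4))) := by ring
  rw [h8]
  linarith

lemma np_lo {ε : ℝ} (hε : 0 < ε) {K : ℕ} (hK : 120 ≤ (K : ℝ) * ε ^ 2) {ℓ : ℝ} (hℓ0 : 1 ≤ ℓ)
    (f2 : 3000 ≤ ℓ * ε ^ 2) {M : ℝ} (hM : 1 ≤ M) (hMexp : M = Real.exp ℓ) {J1 : ℕ}
    (j1 : 6 * ℓ ≤ J1) (j2 : (J1 : ℝ) ≤ 6 * ℓ + 1)
    (e5 : 8 * 441 * (7 * 3) * (ℓ * Real.exp (-(4 * ℓ))) ≤ ε / 2) :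
    J1.factorial * (210 + 8 * ℓ / (K + 4)) ^ J1 / (ε * ℓ) ^ (2 * J1) <
      ε / (8 * ((20 * M + 1) * (20 * M + 1))) := by
  have hMe : Real.exp (2 * ℓ) * Real.exp (-(6 * ℓ)) = Real.exp (-(4 * ℓ)) := by
    rw [← Real.exp_add]
    congr 1
    ring
  have h1 : (J1 : ℝ) * (210 + 8 * ℓ / (K + 4)) ≤ (ε * ℓ) ^ 2 := by
    have h2 : 8 * ℓ / ((K : ℝ) + 4) ≤ ε ^ 2 / 15 * ℓ := by
      rw [div_le_iff₀ (by positivity)]
      have h3 : 8 ≤ ε ^ 2 / 15 * ((K : ℝ) + 4) := by nlinarith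
      calc 8 * ℓ ≤ (ε ^ 2 / 15 * ((K : ℝ) + 4)) * ℓ :=
            mul_le_mul_of_nonneg_right h3 (by linarith)
        _ = _ := by ring
    have h3 : 210 + 8 * ℓ / ((K : ℝ) + 4) ≤ ε ^ 2 / 7 * ℓ := by linarith
    calc (J1 : ℝ) * (210 + 8 * ℓ / (K + 4)) ≤ (7 * ℓ) * (ε ^ 2 / 7 * ℓ) := by
          apply mul_le_mul (by linarith) h3 (by positivity) (by positivity)
      _ = _ := by ring
  have h2 := expo2 (J := J1) (by
    have : (1 : ℝ) ≤ J1 := by linarith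
    exact_mod_cast this) (v := 210 + 8 * ℓ / (K + 4)) (x := ε * ℓ) (by positivity)
    (by positivity) h1
  refine lt_of_le_of_lt h2 (theta_lb hε hM hMexp ?_)
  have h3 : (J1 : ℝ) * Real.exp (1 - J1) ≤ 7 * ℓ * (3 * Real.exp (-(6 * ℓ))) := by
    apply mul_le_mul (by linarith) _ (Real.exp_pos _).le (by positivity)
    calc Real.exp (1 - (J1 : ℝ)) ≤ Real.exp (1 + -(6 * ℓ)) := by
          apply Real.exp_le_exp.2
          linarith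
      _ = Real.exp 1 * Real.exp (-(6 * ℓ)) := Real.exp_add _ _
      _ ≤ _ := mul_le_mul_of_nonneg_right exp1_le3 (Real.exp_pos _).le
  calc 8 * 441 * ((J1 : ℝ) * Real.exp (1 - J1) * Real.exp (2 * ℓ)) ≤
      8 * 441 * (7 * ℓ * (3 * Real.exp (-(6 * ℓ))) * Real.exp (2 * ℓ)) := by gcongr
    _ = 8 * 441 * (7 * 3) * (ℓ * (Real.exp (2 * ℓ) * Real.exp (-(6 * ℓ)))) := by ring
    _ ≤ ε / 2 := by rw [hMe]; exact e5
    _ < ε := by linarith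

lemma np_hi {ε : ℝ} (hε : 0 < ε) {K : ℕ} {ℓ : ℝ} (hpo : PO K ℓ) (hℓ0 : 1 ≤ ℓ)
    (f1 : 3000 ≤ ℓ * ε) {C : ℝ} (hJC : (Jp K ℓ : ℝ) ≤ C * ℓ) (hC0 : 1 ≤ C)
    (hbig : 7 * ℓ ≤ Jp K ℓ) {M : ℝ} (hM : 1 ≤ M) (hMexp : M = Real.exp ℓ) {k : ℕ}
    (hkJ : (k : ℝ) ≤ Jp K ℓ) (hk2 : 2 ≤ k)
    (hk1 : (k : ℝ) ≤ ε * ℓ / 2) (hk3 : ε * ℓ / 2 < k + 1)
    (e3 : 256 * Real.log (16 * C / ε) / (ε * Real.exp (-(24 / ε))) ≤ ℓ)
    (e6 : 8 * 441 * Real.exp (-(4 * ℓ)) ≤ ε / 2) :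
    (k - 1).factorial * (256 * Real.log (1 / (k * ap K ℓ))) ^ (k - 1) /
    (ε * ℓ) ^ (2 * (k - 1)) < ε / (8 * ((20 * M + 1) * (20 * M + 1))) := by
  have hMe : Real.exp (2 * ℓ) * Real.exp (-(6 * ℓ)) = Real.exp (-(4 * ℓ)) := by
    rw [← Real.exp_add]
    congr 1
    ring
  have hX : 0 < ε * Real.exp (-(24 / ε)) := by positivity
  have hk2r : (2 : ℝ) ≤ k := by exact_mod_cast hk2
  have hk0 : (0 : ℝ) < k := by linarith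
  have hJ0 : (0 : ℝ) < Jp K ℓ := by linarith
  have hnr : ((k - 1 : ℕ) : ℝ) = k - 1 := by
    rw [Nat.cast_sub (by omega)]
    norm_num
  have h2 : 1 / ((k : ℝ) * ap K ℓ) = 4 * Jp K ℓ / k := by
    unfold ap
    field_simp
  have h1 : 1 / ((k : ℝ) * ap K ℓ) ≤ 16 * C / ε := by
    rw [h2, div_le_div_iff₀ hk0 hε]
    have h3 : ε * ℓ / 4 ≤ k := by linarith
    calc 4 * (Jp K ℓ : ℝ) * ε ≤ 4 * (C * ℓ) * ε := by gcongr
      _ = 16 * C * (ε * ℓ / 4) := by ring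
      _ ≤ 16 * C * k := by gcongr
  have h1' : 1 ≤ 1 / ((k : ℝ) * ap K ℓ) := by
    rw [h2, one_le_div hk0]
    linarith
  set v2 := 256 * Real.log (1 / ((k : ℝ) * ap K ℓ)) with hv2
  have hv20 : 0 ≤ v2 := by
    have := Real.log_nonneg h1'
    positivity
  have hv2C : v2 ≤ 256 * Real.log (16 * C / ε) := by
    rw [hv2]
    apply mul_le_mul_of_nonneg_left _ (by norm_num)
    exact Real.log_le_log (by linarith) h1
  have hC30 : 0 ≤ 256 * Real.log (16 * C / ε) := hv20.trans hv2C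
  generalize 256 * Real.log (16 * C / ε) = C3 at *
  generalize hn : k - 1 = n at *
  have hn2 : ε * ℓ / 4 ≤ (n : ℝ) := by
    rw [hnr]
    linarith
  have hn3 : (n : ℝ) ≤ ε * ℓ := by
    rw [hnr]
    nlinarith
  rw [div_le_iff₀ hX] at e3
  have h4 : (n.factorial : ℝ) * v2 ^ n / (ε * ℓ) ^ (2 * n) ≤ (Real.exp (-(24 / ε))) ^ n := by
    rw [div_le_iff₀ (by positivity)]
    have h5 : (n.factorial : ℝ) ≤ (n : ℝ) ^ n := by exact_mod_cast Nat.factorial_le_pow n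
    calc (n.factorial : ℝ) * v2 ^ n ≤ (n : ℝ) ^ n * C3 ^ n := by gcongr
      _ = (n * C3) ^ n := by rw [← mul_pow]
      _ ≤ (Real.exp (-(24 / ε)) * (ε * ℓ) ^ 2) ^ n := by
          apply pow_le_pow_left₀ (by positivity)
          calc (n : ℝ) * C3 ≤ (ε * ℓ) * (ℓ * (ε * Real.exp (-(24 / ε)))) := by gcongr
            _ = _ := by ring
      _ = _ := by rw [mul_pow, ← pow_mul]
  refine lt_of_le_of_lt h4 (theta_lb hε hM hMexp ?_)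
  have h5 : (Real.exp (-(24 / ε))) ^ n ≤ Real.exp (-(6 * ℓ)) := by
    rw [← Real.exp_nat_mul]
    apply Real.exp_le_exp.2
    have h6 : (n : ℝ) * -(24 / ε) = -((n : ℝ) * 24 / ε) := by ring
    rw [h6, neg_le_neg_iff, le_div_iff₀ hε]
    linarith
  calc 8 * 441 * ((Real.exp (-(24 / ε))) ^ n * Real.exp (2 * ℓ)) ≤
      8 * 441 * (Real.exp (-(6 * ℓ)) * Real.exp (2 * ℓ)) := by gcongr
    _ = 8 * 441 * (Real.exp (2 * ℓ) * Real.exp (-(6 * ℓ))) := by ring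
    _ ≤ ε / 2 := by rw [hMe]; exact e6
    _ < ε := by linarith

lemma np_fl {ε : ℝ} (hε : 0 < ε) {ℓ : ℝ} (hℓ0 : 1 ≤ ℓ)
    (f1 : 3000 ≤ ℓ * ε) (hε1 : ε ≤ 1 / 10) {M : ℝ} (hM : 1 ≤ M) (hMexp : M = Real.exp ℓ) {J4 : ℕ}
    (j3 : (1 + ε) * ℓ ≤ J4) (j4 : (J4 : ℝ) ≤ (1 + ε) * ℓ + 1)
    (e7 : 189 * (ℓ * Real.exp (-(ε * ℓ))) ≤ ε / 2) :
    J4.factorial * ((ℓ + 1) / Real.pi ^ 2) ^ J4 / ((1 + ε) / Real.pi * ℓ) ^ (2 * J4) <
    ε / (20 * M + 1) := by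
  have hpi := Real.pi_pos
  have h1 : (J4 : ℝ) * ((ℓ + 1) / Real.pi ^ 2) ≤ ((1 + ε) / Real.pi * ℓ) ^ 2 := by
    have h2 : ((1 + ε) / Real.pi * ℓ) ^ 2 = ((1 + ε) * ℓ) ^ 2 / Real.pi ^ 2 := by
      field_simp
    rw [h2, ← mul_div_assoc]
    apply div_le_div_of_nonneg_right _ (by positivity)
    have h3 : ((1 + ε) * ℓ + 1) * (ℓ + 1) = (1 + ε) * ℓ ^ 2 + ((2 + ε) * ℓ + 1) := by ring
    have h4 : ((1 + ε) * ℓ) ^ 2 = (1 + ε) * ℓ ^ 2 + (1 + ε) * (ℓ * ε) * ℓ := by ring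
    have h5 : (2 + ε) * ℓ + 1 ≤ 4 * ℓ := by nlinarith
    have h6 : 4 * ℓ ≤ (1 + ε) * (ℓ * ε) * ℓ := by
      apply mul_le_mul_of_nonneg_right _ (by linarith)
      nlinarith
    calc (J4 : ℝ) * (ℓ + 1) ≤ ((1 + ε) * ℓ + 1) * (ℓ + 1) := by gcongr
      _ ≤ ((1 + ε) * ℓ) ^ 2 := by rw [h3, h4]; linarith
  have hJ1 : (1 : ℝ) ≤ J4 := by nlinarith
  have h2 := expo2 (J := J4) (by exact_mod_cast hJ1)
    (v := (ℓ + 1) / Real.pi ^ 2) (x := (1 + ε) / Real.pi * ℓ) (by positivity)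
    (by positivity) h1
  refine lt_of_le_of_lt h2 ?_
  rw [lt_div_iff₀ (by positivity)]
  have h3' : (J4 : ℝ) ≤ 3 * ℓ := by nlinarith
  have h3 : (J4 : ℝ) * Real.exp (1 - J4) ≤ 3 * ℓ * (3 * Real.exp (-((1 + ε) * ℓ))) := by
    apply mul_le_mul h3' _ (Real.exp_pos _).le (by positivity)
    calc Real.exp (1 - (J4 : ℝ)) ≤ Real.exp (1 + -((1 + ε) * ℓ)) := by
          apply Real.exp_le_exp.2
          linarith
      _ = Real.exp 1 * Real.exp (-((1 + ε) * ℓ)) := Real.exp_add _ _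
      _ ≤ _ := mul_le_mul_of_nonneg_right exp1_le3 (Real.exp_pos _).le
  have h4 : Real.exp (-((1 + ε) * ℓ)) * Real.exp ℓ = Real.exp (-(ε * ℓ)) := by
    rw [← Real.exp_add]
    congr 1
    ring
  calc (J4 : ℝ) * Real.exp (1 - J4) * (20 * M + 1) ≤
      3 * ℓ * (3 * Real.exp (-((1 + ε) * ℓ))) * (21 * Real.exp ℓ) := by
        apply mul_le_mul h3 _ (by positivity) (by positivity)
        rw [← hMexp]
        linarith
    _ = 189 * (ℓ * (Real.exp (-((1 + ε) * ℓ)) * Real.exp ℓ)) := by ring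
    _ = 189 * (ℓ * Real.exp (-(ε * ℓ))) := by rw [h4]
    _ ≤ ε / 2 := e7
    _ < ε := by linarith

lemma np_ze {ε : ℝ} (hε : 0 < ε) {ℓ : ℝ} (hℓ0 : 1 ≤ ℓ) (e2 : 3000 ≤ ℓ * ε ^ 3) :
    ((ℓ + 1) / Real.pi ^ 2) / (ε * ℓ) ^ 2 < ε := by
  have hpi3 := Real.pi_gt_three
  rw [div_lt_iff₀ (by positivity), div_lt_iff₀ (by positivity)]
  have h2 : 2 * ℓ < ε * (ε * ℓ) ^ 2 := by
    have h3 : ε * (ε * ℓ) ^ 2 = (ℓ * ε ^ 3) * ℓ := by ring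
    rw [h3]
    apply mul_lt_mul_of_pos_right _ (by linarith)
    linarith
  have h3 : 1 ≤ Real.pi ^ 2 := by nlinarith
  have h4 : 0 < ε * (ε * ℓ) ^ 2 := by positivity
  calc ℓ + 1 ≤ 2 * ℓ := by linarith
    _ < ε * (ε * ℓ) ^ 2 := h2
    _ = ε * (ε * ℓ) ^ 2 * 1 := by ring
    _ ≤ _ := mul_le_mul_of_nonneg_left h3 h4.le

lemma np_mx {ε : ℝ} (hε : 0 < ε) (hε1 : ε ≤ 1 / 10) {K : ℕ} (hK : 120 ≤ (K : ℝ) * ε ^ 2) {ℓ : ℝ}
    (hℓ0 : 1 ≤ ℓ) (f1 : 3000 ≤ ℓ * ε) :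
    (1 - 7 * ε) / Real.pi * ℓ ≤ (1 - ε) / (Real.pi * (1 + 4 * ε)) * (K / (K + 4) * ℓ - 1) := by
  have hpi := Real.pi_pos
  have hK0 : (0 : ℝ) ≤ K := Nat.cast_nonneg K
  have hb : 4 ≤ ε * (K + 4) := by
    have h1 : (K : ℝ) * ε ^ 2 ≤ K * ε := by
      apply mul_le_mul_of_nonneg_left _ hK0
      nlinarith
    linarith
  have h1 : (1 - ε) * ℓ ≤ K / (K + 4) * ℓ := by
    apply mul_le_mul_of_nonneg_right _ (by linarith)
    rw [le_div_iff₀ (by positivity)]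
    linarith
  have h2 : (1 - 7 * ε) / Real.pi * ℓ = (1 - 7 * ε) * (1 + 4 * ε) * ℓ /
      (Real.pi * (1 + 4 * ε)) := by
    field_simp
  have h3 : (1 - ε) / (Real.pi * (1 + 4 * ε)) * (K / (K + 4) * ℓ - 1) =
      (1 - ε) * (K / (K + 4) * ℓ - 1) / (Real.pi * (1 + 4 * ε)) := by ring
  rw [h2, h3]
  apply div_le_div_of_nonneg_right _ (by positivity)
  have h4 : (1 - ε) * ((1 - ε) * ℓ - 1) ≤ (1 - ε) * (K / (K + 4) * ℓ - 1) := by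
    apply mul_le_mul_of_nonneg_left _ (by linarith)
    linarith
  refine le_trans ?_ h4
  have h5 : (1 - ε) * ((1 - ε) * ℓ - 1) - (1 - 7 * ε) * (1 + 4 * ε) * ℓ =
    ℓ * ε + 29 * ε * (ℓ * ε) - 1 + ε := by ring
  have h6 : 0 ≤ 29 * ε * (ℓ * ε) := by positivity
  linarith

/-- **the numeric conditions** -/
theorem np_ev {ε : ℝ} (hε : 0 < ε) (hε1 : ε ≤ 1 / 10) {K : ℕ} (hK : 120 / ε ^ 2 ≤ K) :
    ∃ M0 : ℕ, ∀ M : ℕ, M0 ≤ M → NP ε K M (Real.log M)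
      (ε / (8 * ((20 * (M : ℝ) + 1) * (20 * M + 1)))) ⌊ε * Real.log M / 2⌋₊ ⌈6 * Real.log M⌉₊
      ⌈(1 + ε) * Real.log M⌉₊ := by
  have hε2 : 0 < ε ^ 2 := by positivity
  have hK1 : (1 : ℝ) ≤ K := by
    refine le_trans ?_ hK
    rw [one_le_div hε2]
    nlinarith
  have hK1' : 1 ≤ K := by exact_mod_cast hK1
  rw [div_le_iff₀ hε2] at hK
  have hCpos : (0 : ℝ) ≤ (10 : ℝ) ^ 5 * (K + 1) ^ 2 := by positivity
  have hK7 : (7 : ℝ) ≤ (10 : ℝ) ^ 5 * (K + 1) ^ 2 := by nlinarith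
  obtain ⟨C, hC⟩ : ∃ C : ℝ, C = (10 : ℝ) ^ 5 * (K + 1) ^ 2 + 1 := ⟨_, rfl⟩
  have hC0 : 1 ≤ C := by linarith
  have hX : 0 < ε * Real.exp (-(24 / ε)) := by positivity
  have ev : ∀ᶠ ℓ : ℝ in atTop, (((K : ℝ) + 4 ≤ ℓ ∧ 3000 / ε ^ 3 ≤ ℓ) ∧
      (256 * Real.log (16 * C / ε) / (ε * Real.exp (-(24 / ε))) ≤ ℓ ∧
        C * (ℓ ^ 1 * Real.exp (-(1 * ℓ))) ≤ 10)) ∧
      ((8 * 441 * (7 * 3) * (ℓ ^ 1 * Real.exp (-(4 * ℓ))) ≤ ε / 2 ∧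
      8 * 441 * (ℓ ^ 0 * Real.exp (-(4 * ℓ))) ≤ ε / 2) ∧
      189 * (ℓ ^ 1 * Real.exp (-(ε * ℓ))) ≤ ε / 2) :=
    (((eventually_ge_atTop _).and (eventually_ge_atTop _)).and
      ((eventually_ge_atTop _).and (evs _ 1 (by norm_num) (by norm_num)))).and
      (((evs _ 1 (by norm_num) (by positivity)).and (evs _ 0 (by norm_num) (by positivity))).and
        (evs _ 1 hε (by positivity)))
  have ht : Tendsto (fun M : ℕ => Real.log M) atTop atTop :=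
    Real.tendsto_log_atTop.comp tendsto_natCast_atTop_atTop
  obtain ⟨M0, hM0⟩ := eventually_atTop.1 ((ht.eventually ev).and (eventually_ge_atTop 2))
  refine ⟨M0, fun M hM => ?_⟩
  obtain ⟨⟨⟨⟨e1, e2⟩, e3, e4⟩, ⟨e5, e6⟩, e7⟩, hM2⟩ := hM0 M hM
  clear hM0 ev
  have hMr : (2 : ℝ) ≤ M := by exact_mod_cast hM2
  have hM1 : (1 : ℝ) ≤ M := by linarith
  have hMexp : (M : ℝ) = Real.exp (Real.log M) := (Real.exp_log (by linarith)).symm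
  have hlogM : Real.log M ≤ M := by
    have := Real.log_le_sub_one_of_pos (show (0 : ℝ) < M by linarith)
    linarith
  generalize Real.log M = ℓ at *
  rw [pow_one] at e4 e5 e7
  rw [pow_zero, one_mul] at e6
  rw [one_mul] at e4
  have hε3 : 0 < ε ^ 3 := by positivity
  rw [div_le_iff₀ hε3] at e2
  have hℓ1 : 1 ≤ ℓ := by linarith
  have hℓ0 : 0 < ℓ := by linarith
  have hεsq : ε ^ 3 ≤ ε ^ 2 := by
    have : ε ^ 2 * ε ≤ ε ^ 2 * 1 := mul_le_mul_of_nonneg_left (by linarith) hε2.le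
    calc ε ^ 3 = ε ^ 2 * ε := by ring
      _ ≤ _ := by linarith
  have hεsq2 : ε ^ 2 ≤ ε := by
    have : ε * ε ≤ ε * 1 := mul_le_mul_of_nonneg_left (by linarith) hε.le
    calc ε ^ 2 = ε * ε := by ring
      _ ≤ _ := by linarith
  have f2 : 3000 ≤ ℓ * ε ^ 2 := e2.trans (mul_le_mul_of_nonneg_left hεsq hℓ0.le)
  have f1 : 3000 ≤ ℓ * ε := f2.trans (mul_le_mul_of_nonneg_left hεsq2 hℓ0.le)
  have hpo := po hK1' e1
  obtain ⟨hJ1, hJ2, hJ3, hJ4⟩ := Jp_ge (K := K) hℓ1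
  have hJC : (Jp K ℓ : ℝ) ≤ C * ℓ := by
    rw [hC, add_mul, one_mul]
    linarith
  have hbig : 7 * ℓ ≤ Jp K ℓ :=
    (mul_le_mul_of_nonneg_right hK7 hℓ0.le).trans hJ1
  have hεℓ : 0 ≤ ε * ℓ := by positivity
  have hεℓ2 : ε * ℓ ≤ ℓ := by
    have := mul_le_mul_of_nonneg_right (show ε ≤ 1 by linarith) hℓ0.le
    linarith
  have hcomm : ℓ * ε = ε * ℓ := mul_comm _ _
  have hk1 : (⌊ε * ℓ / 2⌋₊ : ℝ) ≤ ε * ℓ / 2 := Nat.floor_le (by positivity)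
  have hk2 : ε * ℓ / 2 < ⌊ε * ℓ / 2⌋₊ + 1 := Nat.lt_floor_add_one _
  generalize ⌊ε * ℓ / 2⌋₊ = k at *
  have hk3 : (2 : ℝ) ≤ k := by linarith
  have hk3' : 2 ≤ k := by exact_mod_cast hk3
  have j1 : 6 * ℓ ≤ ⌈6 * ℓ⌉₊ := Nat.le_ceil _
  have j2 : (⌈6 * ℓ⌉₊ : ℝ) ≤ 6 * ℓ + 1 := (Nat.ceil_lt_add_one (by positivity)).le
  generalize ⌈6 * ℓ⌉₊ = J1 at *
  have j3 : (1 + ε) * ℓ ≤ ⌈(1 + ε) * ℓ⌉₊ := Nat.le_ceil _
  have j4 : (⌈(1 + ε) * ℓ⌉₊ : ℝ) ≤ (1 + ε) * ℓ + 1 := (Nat.ceil_lt_add_one (by positivity)).le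
  generalize ⌈(1 + ε) * ℓ⌉₊ = J4 at *
  have hexp : (1 + ε) * ℓ = ℓ + ε * ℓ := by ring
  have hJM := np_Jb hε hMexp hJC e4
  have hkJ : (k : ℝ) ≤ Jp K ℓ := by linarith
  have hθ1 : ε / (8 * ((20 * (M : ℝ) + 1) * (20 * M + 1))) ≤ 1 / 2 := by
    rw [div_le_iff₀ (by positivity)]
    nlinarith
  have hθ2 : 8 * (ε / (8 * ((20 * (M : ℝ) + 1) * (20 * M + 1)))) *
      ((20 * M + 1) * (20 * M + 1)) ≤ ε := by
    apply le_of_eq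
    field_simp
  exact ⟨hK1', e1, by positivity, hθ1, hθ2, hk3', by linarith, hkJ, by linarith, hJM,
    by linarith, by linarith, by linarith, np_v1 hpo (by linarith) hMexp,
    np_lo hε hK hℓ1 f2 hM1 hMexp j1 j2 e5,
    np_hi hε hpo hℓ1 f1 hJC hC0 hbig hM1 hMexp hkJ hk3' hk1 hk2 e3 e6,
    np_fl hε hℓ1 f1 hε1 hM1 hMexp j3 j4 e7, np_ze hε hℓ1 e2, np_mx hε hε1 hK hℓ1 f1⟩

end Pool.Agent.T9h26.TD
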