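import Pool.Agent.T9h26.TD.Zh

set_option autoImplicit false

/-! Deterministic part: from windows to consecutive points. -/

open Complex Filter Topology Set MeasureTheory

namespace Pool.Agent.T9h26.TD

/-- the window estimates for a sequence of positions -/
structure WD (y F : ℕ → ℝ) (e : ℝ) (X : ℕ) : Prop where
  ho : ∀ c' c : ℕ, c ≤ X → (c' : ℝ) + 2 * e ≤ c → ∀ i r : ℕ, y i ≤ c' →
    (r : ℝ) + 1 ≤ ((c : ℝ) - c') + (F c - F c') - 4 * e → y (i + 1 + r) < c
  hc : ∀ c' c : ℕ, c ≤ X → (c' : ℝ) + 2 * e ≤ c → ∀ i m : ℕ, (c' : ℝ) ≤ y i → y (i + m) ≤ c →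
    (m : ℝ) + 1 ≤ ((c : ℝ) - c') + (F c - F c') + 4 * e

/-- the data of the deterministic argument -/
structure DT (y F G : ℕ → ℝ) (e H1 : ℝ) (M : ℕ) : Prop where
  mono : Monotone y
  y0 : -(1 / 4) ≤ y 0
  y0' : y 0 ≤ 0
  wF : WD y F e (20 * M)
  wG : WD (fun i => y i + 1) G e (20 * M)
  F0 : |F 0| ≤ e
  G0 : |G 0| ≤ e
  FH : ∀ c ≤ 20 * M, |F c| ≤ H1
  GH : ∀ c ≤ 20 * M, |G c| ≤ H1
  e1 : 1 ≤ e
  big : 2 * H1 + 10 * e + 10 ≤ M

lemma loc {y : ℕ → ℝ} {s : ℝ} (h0 : y 0 ≤ s) {R : ℕ} (hR : s < y R) :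
    ∃ i < R, y i ≤ s ∧ s < y (i + 1) := by
  classical
  have hex : ∃ m, s < y m := ⟨R, hR⟩
  have h1 := Nat.find_spec hex
  have h2 : Nat.find hex ≤ R := Nat.find_min' hex hR
  have h3 : Nat.find hex ≠ 0 := by
    intro h
    rw [h] at h1
    linarith
  refine ⟨Nat.find hex - 1, by omega, ?_, ?_⟩
  · have := Nat.find_min hex (show Nat.find hex - 1 < Nat.find hex by omega)
    exact not_lt.1 this
  · rw [Nat.sub_add_cancel (by omega)]
    exact h1

variable {y F G : ℕ → ℝ} {e H1 : ℝ} {M : ℕ}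

lemma DT.H0 (h : DT y F G e H1 M) : 0 ≤ H1 := (abs_nonneg _).trans (h.FH 0 (by omega))

lemma DT.M1 (h : DT y F G e H1 M) : (20 : ℝ) ≤ M := by
  have := h.H0
  have := h.big
  have := h.e1
  linarith

lemma DT.far (h : DT y F G e H1 M) : y (16 * M) < 19 * M := by
  have hb := h.big
  have hH := h.H0
  have he := h.e1
  have hM := h.M1
  have hM' : 20 ≤ M := by exact_mod_cast hM
  have hF := abs_le.1 (h.FH (19 * M) (by omega))
  have hF0 := abs_le.1 h.F0
  have h1 := h.wF.ho 0 (19 * M) (by omega) (by push_cast; linarith) 0 (16 * M - 1)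
    (by push_cast; exact h.y0') (by
      rw [Nat.cast_sub (by omega)]
      push_cast
      linarith [hF.1, hF0.2])
  rw [show 0 + 1 + (16 * M - 1) = 16 * M by omega] at h1
  push_cast at h1
  exact h1

/-- upper bounds -/
lemma DT.up (h : DT y F G e H1 M) {i k : ℕ} (hik : i + k ≤ 16 * M) :
    y (i + k) - y i ≤ k + 2 * H1 + 4 * e + 2 := by
  have hH := h.H0
  have he := h.e1
  have hM := h.M1
  have hk0 : (0 : ℝ) ≤ k := Nat.cast_nonneg k
  have hyi : -(1 / 4) ≤ y i := h.y0.trans (h.mono (Nat.zero_le i))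
  have hy2 : y (i + k) < 19 * M := lt_of_le_of_lt (h.mono hik) h.far
  rcases lt_or_ge (y (i + k)) 0 with hn | hn
  · linarith
  have c1 := Nat.le_ceil (y i)
  have c2 : (⌈y i⌉₊ : ℝ) ≤ y i + 1 := by
    rcases le_or_gt 0 (y i) with h0 | h0
    · exact (Nat.ceil_lt_add_one h0).le
    · rw [Nat.ceil_eq_zero.2 h0.le]
      push_cast
      linarith
  have c3 : (⌊y (i + k)⌋₊ : ℝ) ≤ y (i + k) := Nat.floor_le hn
  have c4 := Nat.lt_floor_add_one (y (i + k))
  generalize ⌈y i⌉₊ = c' at *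
  generalize ⌊y (i + k)⌋₊ = c at *
  have hcX : c ≤ 20 * M := by
    have : (c : ℝ) ≤ ((20 * M : ℕ) : ℝ) := by push_cast; linarith
    exact_mod_cast this
  rcases le_or_gt ((c' : ℝ) + 2 * e) c with hcc | hcc
  · have hcc2 : c' ≤ c := by
      have : (c' : ℝ) ≤ c := by linarith
      exact_mod_cast this
    have f1 := abs_le.1 (h.FH c hcX)
    have f2 := abs_le.1 (h.FH c' (hcc2.trans hcX))
    by_contra hcon
    rw [not_le] at hcon
    have hk : k ≠ 0 := by
      rintro rfl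
      rw [add_zero, sub_self] at hcon
      push_cast at hcon
      linarith
    have := h.wF.ho c' c hcX hcc i (k - 1) c1 (by
      rw [Nat.cast_sub (by omega)]
      push_cast
      linarith [f1.1, f2.2])
    rw [show i + 1 + (k - 1) = i + k by omega] at this
    linarith
  · linarith

/-- upper bounds, one endpoint -/
lemma DT.up0 (h : DT y F G e H1 M) {k : ℕ} (hik : k ≤ 16 * M) :
    y k - y 0 ≤ k + H1 + 5 * e + 2 := by
  have hH := h.H0
  have he := h.e1
  have hM := h.M1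
  have hk0 : (0 : ℝ) ≤ k := Nat.cast_nonneg k
  have hy0 := h.y0
  have hy0' := h.y0'
  have hy2 : y k < 19 * M := lt_of_le_of_lt (h.mono hik) h.far
  rcases lt_or_ge (y k) 0 with hn | hn
  · linarith
  have c3 : (⌊y k⌋₊ : ℝ) ≤ y k := Nat.floor_le hn
  have c4 := Nat.lt_floor_add_one (y k)
  generalize ⌊y k⌋₊ = c at *
  have hcX : c ≤ 20 * M := by
    have : (c : ℝ) ≤ ((20 * M : ℕ) : ℝ) := by push_cast; linarith
    exact_mod_cast this
  rcases le_or_gt (((0 : ℕ) : ℝ) + 2 * e) c with hcc | hcc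
  · have f1 := abs_le.1 (h.FH c hcX)
    have f2 := abs_le.1 h.F0
    by_contra hcon
    rw [not_le] at hcon
    have hk : k ≠ 0 := by
      rintro rfl
      rw [sub_self] at hcon
      push_cast at hcon
      linarith
    have := h.wF.ho 0 c hcX hcc 0 (k - 1) (by push_cast; exact hy0') (by
      rw [Nat.cast_sub (by omega)]
      push_cast
      linarith [f1.1, f2.2])
    rw [show 0 + 1 + (k - 1) = k by omega] at this
    linarith
  · push_cast at hcc
    linarith

/-- lower bounds -/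
lemma DT.lo (h : DT y F G e H1 M) {i k : ℕ} (hik : i + k ≤ 16 * M) :
    k - 2 * H1 - 6 * e - 2 ≤ y (i + k) - y i := by
  have hH := h.H0
  have he := h.e1
  have hM := h.M1
  have hb := h.big
  have hk0 : (0 : ℝ) ≤ k := Nat.cast_nonneg k
  have hyi : -(1 / 4) ≤ y i := h.y0.trans (h.mono (Nat.zero_le i))
  have hmo : y i ≤ y (i + k) := h.mono (Nat.le_add_right _ _)
  have hy2 : y (i + k) < 19 * M := lt_of_le_of_lt (h.mono hik) h.far
  have c1 := Nat.floor_le (show 0 ≤ y i + 1 by linarith)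
  have c2 := Nat.lt_floor_add_one (y i + 1)
  have c3 := Nat.le_ceil (y (i + k) + 1)
  have c4 := Nat.ceil_lt_add_one (show 0 ≤ y (i + k) + 1 by linarith)
  have d1 := Nat.le_ceil (2 * e)
  have d2 := Nat.ceil_lt_add_one (show 0 ≤ 2 * e by linarith)
  generalize ⌊y i + 1⌋₊ = c' at *
  generalize ⌈y (i + k) + 1⌉₊ = c at *
  generalize ⌈2 * e⌉₊ = d at *
  have hcX : c ≤ 20 * M := by
    have : (c : ℝ) ≤ ((20 * M : ℕ) : ℝ) := by push_cast; linarith
    exact_mod_cast this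
  have hcX' : c' + d ≤ 20 * M := by
    have : (((c' + d : ℕ)) : ℝ) ≤ ((20 * M : ℕ) : ℝ) := by push_cast; linarith
    exact_mod_cast this
  have g2 := abs_le.1 (h.GH c' (by omega))
  rcases le_or_gt ((c' : ℝ) + 2 * e) c with hcc | hcc
  · have g1 := abs_le.1 (h.GH c hcX)
    have := h.wG.hc c' c hcX hcc i k c1 c3
    linarith [g1.2, g2.1]
  · have g1 := abs_le.1 (h.GH (c' + d) hcX')
    have := h.wG.hc c' (c' + d) hcX' (by push_cast; linarith) i k c1 (by push_cast; linarith)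
    push_cast at this
    linarith [g1.2, g2.1]

/-- lower bounds, one endpoint -/
lemma DT.lo0 (h : DT y F G e H1 M) {k : ℕ} (hik : k ≤ 16 * M) :
    k - H1 - 7 * e - 2 ≤ y k - y 0 := by
  have hH := h.H0
  have he := h.e1
  have hM := h.M1
  have hb := h.big
  have hk0 : (0 : ℝ) ≤ k := Nat.cast_nonneg k
  have hyi := h.y0
  have hyi' := h.y0'
  have hmo : y 0 ≤ y k := h.mono (Nat.zero_le _)
  have hy2 : y k < 19 * M := lt_of_le_of_lt (h.mono hik) h.far
  have c3 := Nat.le_ceil (y k + 1)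
  have c4 := Nat.ceil_lt_add_one (show 0 ≤ y k + 1 by linarith)
  have d1 := Nat.le_ceil (2 * e)
  have d2 := Nat.ceil_lt_add_one (show 0 ≤ 2 * e by linarith)
  generalize ⌈y k + 1⌉₊ = c at *
  generalize ⌈2 * e⌉₊ = d at *
  have hcX : c ≤ 20 * M := by
    have : (c : ℝ) ≤ ((20 * M : ℕ) : ℝ) := by push_cast; linarith
    exact_mod_cast this
  have hcX' : d ≤ 20 * M := by
    have : (d : ℝ) ≤ ((20 * M : ℕ) : ℝ) := by push_cast; linarith
    exact_mod_cast this
  have g2 := abs_le.1 h.G0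
  rcases le_or_gt (((0 : ℕ) : ℝ) + 2 * e) c with hcc | hcc
  · have g1 := abs_le.1 (h.GH c hcX)
    have := h.wG.hc 0 c hcX hcc 0 k (by push_cast; linarith) (by rw [zero_add]; exact c3)
    push_cast at this
    linarith [g1.2, g2.1]
  · push_cast at hcc
    have g1 := abs_le.1 (h.GH d hcX')
    have := h.wG.hc 0 d hcX' (by push_cast; linarith) 0 k (by push_cast; linarith)
      (by rw [zero_add]; linarith)
    push_cast at this
    linarith [g1.2, g2.1]

/-- the index of a position up to `3 M` -/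
lemma DT.idx (h : DT y F G e H1 M) {m : ℕ} (hm : m ≤ 16 * M) (hy : y m ≤ 3 * M) :
    m + 1 ≤ 4 * M := by
  have h1 := h.lo0 hm
  have hb := h.big
  have hHp := h.H0
  have he := h.e1
  have h0 := h.y0'
  have : (m : ℝ) + 1 ≤ ((4 * M : ℕ) : ℝ) := by push_cast; linarith [h.y0]
  exact_mod_cast this

lemma DT.reach (h : DT y F G e H1 M) : 3 * M < y (16 * M) := by
  have h1 := h.lo0 (le_refl (16 * M))
  have hb := h.big
  have hHp := h.H0
  have he := h.e1
  have h0 := h.y0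
  push_cast at h1
  linarith

/-- few points -/
lemma DT.few (h : DT y F G e H1 M) {H : ℝ} (hH : H ≤ H1) {c' c : ℕ} (h1 : c' ≤ M) (h2 : 2 * M ≤ c)
    (h3 : c ≤ 3 * M) (h4 : H ≤ F c') (h5 : F c ≤ -H) :
    ∃ i k, i + k ≤ 4 * M ∧ k + 2 * H - 4 * e - 1 ≤ y (i + k) - y i := by
  have hb := h.big
  have hHp := h.H0
  have he := h.e1
  have hM := h.M1
  have h1r : (c' : ℝ) ≤ M := by exact_mod_cast h1
  have h2r : 2 * (M : ℝ) ≤ c := by exact_mod_cast h2
  have h3r : (c : ℝ) ≤ 3 * M := by exact_mod_cast h3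
  have hc0 : (0 : ℝ) ≤ c' := Nat.cast_nonneg c'
  have hr := h.reach
  obtain ⟨i, hi, i1, i2⟩ := loc (y := y) (s := c') (h.y0'.trans hc0) (R := 16 * M) (by linarith)
  obtain ⟨m, hm, m1, m2⟩ := loc (y := y) (s := c) (by linarith [h.y0']) (R := 16 * M) (by linarith)
  have him : i ≤ m := by
    by_contra hcon
    have := h.mono (show m + 1 ≤ i by omega)
    linarith
  have hkey : ((m - i : ℕ) : ℝ) ≤ (c - c') - 2 * H + 4 * e := by
    rcases Nat.eq_or_lt_of_le him with h6 | h6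
    · rw [h6, Nat.sub_self]
      push_cast
      linarith
    · have := h.wF.hc c' c (by omega) (by linarith) (i + 1) (m - i - 1) i2.le (by
        rw [show i + 1 + (m - i - 1) = m by omega]
        exact m1)
      have e1 : ((m - i - 1 : ℕ) : ℝ) + 1 = ((m - i : ℕ) : ℝ) := by
        have : m - i - 1 + 1 = m - i := by omega
        exact_mod_cast this
      rw [e1] at this
      linarith
  refine ⟨i, m + 1 - i, ?_, ?_⟩
  · have := h.idx hm.le (m1.trans h3r)
    omega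
  · rw [show i + (m + 1 - i) = m + 1 by omega]
    have e1 : ((m + 1 - i : ℕ) : ℝ) = ((m - i : ℕ) : ℝ) + 1 := by
      have : m + 1 - i = m - i + 1 := by omega
      exact_mod_cast this
    rw [e1]
    linarith

/-- many points -/
lemma DT.many (h : DT y F G e H1 M) {H : ℝ} (hH0 : 0 ≤ H) (hH : H ≤ H1) {c' c : ℕ} (h1 : c' ≤ M)
    (h2 : 2 * M ≤ c) (h3 : c ≤ 3 * M) (h4 : F c' ≤ -H) (h5 : H ≤ F c) :
    ∃ i k, i + k ≤ 4 * M ∧ y (i + k) - y i ≤ k - 2 * H + 4 * e + 2 := by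
  have hb := h.big
  have hHp := h.H0
  have he := h.e1
  have hM := h.M1
  have h1r : (c' : ℝ) ≤ M := by exact_mod_cast h1
  have h2r : 2 * (M : ℝ) ≤ c := by exact_mod_cast h2
  have h3r : (c : ℝ) ≤ 3 * M := by exact_mod_cast h3
  have hc0 : (0 : ℝ) ≤ c' := Nat.cast_nonneg c'
  have hr := h.reach
  obtain ⟨i, hi, i1, i2⟩ := loc (y := y) (s := c') (h.y0'.trans hc0) (R := 16 * M) (by linarith)
  set X := ((c : ℝ) - c') + 2 * H - 4 * e with hX
  have hX1 : 1 ≤ X := by linarith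
  have f1 : (⌊X⌋₊ : ℝ) ≤ X := Nat.floor_le (by linarith)
  have f2 := Nat.lt_floor_add_one X
  have f3 : 1 ≤ ⌊X⌋₊ := Nat.le_floor (by push_cast; exact hX1)
  generalize ⌊X⌋₊ = q at *
  have e1 : ((q - 1 : ℕ) : ℝ) + 1 = q := by
    have : q - 1 + 1 = q := by omega
    exact_mod_cast this
  have hq := h.wF.ho c' c (by omega) (by linarith) i (q - 1) i1 (by rw [e1]; linarith)
  have hlt : i + 1 + (q - 1) < 16 * M := by
    by_contra hcon
    have := h.mono (not_lt.1 hcon)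
    linarith
  refine ⟨i + 1, q - 1, ?_, ?_⟩
  · have := h.idx hlt.le (by linarith)
    omega
  · linarith

/-- few points, one endpoint -/
lemma DT.few0 (h : DT y F G e H1 M) {H : ℝ} (hH : H ≤ H1) {c : ℕ} (h2 : 2 * M ≤ c)
    (h3 : c ≤ 3 * M) (h5 : G c ≤ -H) : ∃ k ≤ 4 * M, k + H - 5 * e - 2 ≤ y k - y 0 := by
  have hb := h.big
  have hHp := h.H0
  have he := h.e1
  have hM := h.M1
  have h2r : 2 * (M : ℝ) ≤ c := by exact_mod_cast h2
  have h3r : (c : ℝ) ≤ 3 * M := by exact_mod_cast h3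
  have hr := h.reach
  obtain ⟨m, hm, m1, m2⟩ := loc (y := y) (s := c - 1) (by linarith [h.y0']) (R := 16 * M)
    (by linarith)
  have g2 := abs_le.1 h.G0
  have := h.wG.hc 0 c (by omega) (by push_cast; linarith) 0 m (by push_cast; linarith [h.y0]) (by
    rw [zero_add]
    linarith)
  push_cast at this
  refine ⟨m + 1, ?_, ?_⟩
  · have := h.idx hm.le (by linarith)
    omega
  · push_cast
    linarith [h.y0', g2.1, h.y0]

/-- many points, one endpoint -/
lemma DT.many0 (h : DT y F G e H1 M) {H : ℝ} (hH0 : 0 ≤ H) (hH : H ≤ H1) {c : ℕ} (h2 : 2 * M ≤ c)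
    (h3 : c ≤ 3 * M) (h5 : H ≤ F c) : ∃ k ≤ 4 * M, y k - y 0 ≤ k - H + 5 * e + 2 := by
  have hb := h.big
  have hHp := h.H0
  have he := h.e1
  have hM := h.M1
  have h2r : 2 * (M : ℝ) ≤ c := by exact_mod_cast h2
  have h3r : (c : ℝ) ≤ 3 * M := by exact_mod_cast h3
  have hr := h.reach
  set X := (c : ℝ) + H - 5 * e with hX
  have hX1 : 1 ≤ X := by linarith
  have f1 : (⌊X⌋₊ : ℝ) ≤ X := Nat.floor_le (by linarith)
  have f2 := Nat.lt_floor_add_one X
  have f3 : 1 ≤ ⌊X⌋₊ := Nat.le_floor (by push_cast; exact hX1)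
  generalize ⌊X⌋₊ = q at *
  have e1 : ((q - 1 : ℕ) : ℝ) + 1 = q := by
    have : q - 1 + 1 = q := by omega
    exact_mod_cast this
  have g2 := abs_le.1 h.F0
  have hq := h.wF.ho 0 c (by omega) (by push_cast; linarith) 0 (q - 1)
    (by push_cast; exact h.y0') (by
      rw [e1]
      push_cast
      linarith [g2.2])
  rw [show 0 + 1 + (q - 1) = q by omega] at hq
  have hlt : q < 16 * M := by
    by_contra hcon
    have := h.mono (not_lt.1 hcon)
    linarith
  refine ⟨q, ?_, ?_⟩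
  · have := h.idx hlt.le (by linarith)
    omega
  · linarith [h.y0]

end Pool.Agent.T9h26.TD
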