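import Pool.Agent.T9h26.TD.Zw

set_option autoImplicit false

/-! The weights of the fields: cut-offs, integrals, decorrelation. -/

open Complex Filter Topology Set MeasureTheory

namespace Pool.Agent.T9h26.TD

/-- bounded Lipschitz functions -/
def BL (F : ℝ → ℂ) : Prop := (∃ K : NNReal, LipschitzWith K F) ∧ ∃ C : ℝ, ∀ x, ‖F x‖ ≤ C

lemma BL.const (k : ℂ) : BL fun _ => k := ⟨⟨0, LipschitzWith.const k⟩, ‖k‖, fun _ => le_rfl⟩

lemma BL.add {F G : ℝ → ℂ} (hF : BL F) (hG : BL G) : BL fun x => F x + G x := by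
  obtain ⟨⟨K, hK⟩, C, hC⟩ := hF
  obtain ⟨⟨K', hK'⟩, C', hC'⟩ := hG
  exact ⟨⟨K + K', hK.add hK'⟩, C + C', fun x => (norm_add_le _ _).trans (add_le_add (hC x) (hC' x))⟩

lemma BL.neg {F : ℝ → ℂ} (hF : BL F) : BL fun x => -F x := by
  obtain ⟨⟨K, hK⟩, C, hC⟩ := hF
  exact ⟨⟨K, hK.neg⟩, C, fun x => by rw [norm_neg]; exact hC x⟩

lemma BL.sub {F G : ℝ → ℂ} (hF : BL F) (hG : BL G) : BL fun x => F x - G x := by
  have := hF.add hG.neg
  refine (congrArg BL ?_).mp this
  ext x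
  ring

lemma BL.mul {F G : ℝ → ℂ} (hF : BL F) (hG : BL G) : BL fun x => F x * G x := by
  obtain ⟨⟨K, hK⟩, C, hC⟩ := hF
  obtain ⟨⟨K', hK'⟩, C', hC'⟩ := hG
  have hC0 : 0 ≤ C := (norm_nonneg _).trans (hC 0)
  have hC0' : 0 ≤ C' := (norm_nonneg _).trans (hC' 0)
  refine ⟨⟨⟨C * K' + C' * K, by positivity⟩, ?_⟩, C * C', fun x => ?_⟩
  · apply LipschitzWith.of_dist_le_mul
    intro x y
    rw [dist_eq_norm]
    have e : F x * G x - F y * G y = F x * (G x - G y) + (F x - F y) * G y := by ring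
    have h1 := hK.dist_le_mul x y
    have h2 := hK'.dist_le_mul x y
    rw [dist_eq_norm] at h1 h2
    rw [e]
    calc _ ≤ ‖F x‖ * ‖G x - G y‖ + ‖F x - F y‖ * ‖G y‖ := by
          refine (norm_add_le _ _).trans ?_
          rw [norm_mul, norm_mul]
      _ ≤ C * (K' * dist x y) + (K * dist x y) * C' := by
          apply add_le_add
          · exact mul_le_mul (hC x) h2 (norm_nonneg _) hC0
          · exact mul_le_mul h1 (hC' y) (norm_nonneg _) (by positivity)
      _ = (C * K' + C' * K) * dist x y := by ring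
  · rw [norm_mul]
    exact mul_le_mul (hC x) (hC' x) (norm_nonneg _) hC0

lemma BL.real {f : ℝ → ℝ} {K : NNReal} (hK : LipschitzWith K f) {C : ℝ} (hC : ∀ x, |f x| ≤ C) :
    BL fun x => (f x : ℂ) := by
  refine ⟨⟨K, ?_⟩, C, fun x => by rw [Complex.norm_real]; exact hC x⟩
  apply LipschitzWith.of_dist_le_mul
  intro x y
  have := hK.dist_le_mul x y
  rwa [dist_eq_norm, ← Complex.ofReal_sub, Complex.norm_real, Real.norm_eq_abs, ← Real.dist_eq]

/-- the character -/
noncomputable def ee (h u : ℝ) : ℂ := cexp (((-(2 * Real.pi * h * u) : ℝ) : ℂ) * I)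

lemma norm_ee (h u : ℝ) : ‖ee h u‖ = 1 := Complex.norm_exp_ofReal_mul_I _

lemma BL.ee (h : ℝ) : BL (ee h) := by
  refine ⟨⟨⟨|2 * Real.pi * h|, abs_nonneg _⟩, ?_⟩, 1, fun x => (norm_ee h x).le⟩
  apply LipschitzWith.of_dist_le_mul
  intro x y
  have h1 : ∀ a b : ℝ, ‖cexp (a * I) - cexp (b * I)‖ ≤ |a - b| := by
    intro a b
    have e : cexp (a * I) - cexp (b * I) = cexp (b * I) * (cexp (((a - b : ℝ) : ℂ) * I) - 1) := by
      rw [mul_sub, ← Complex.exp_add, mul_one]
      congr 2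
      push_cast
      ring
    rw [e, norm_mul, Complex.norm_exp_ofReal_mul_I, one_mul, mul_comm]
    exact Real.norm_exp_I_mul_ofReal_sub_one_le
  rw [dist_eq_norm]
  refine (h1 _ _).trans (le_of_eq ?_)
  rw [Real.dist_eq]
  show _ = |2 * Real.pi * h| * |x - y|
  rw [← abs_mul, ← abs_neg]
  congr 1
  ring

lemma BL.wz {F : ℝ → ℂ} (hF : BL F) {b : ℝ} (hb : 0 < b) (hb1 : b ≤ 1 / 2)
    (h : ∀ ξ, b ≤ |ξ| → F ξ = 0) : ∃ K, Wz F b K := by
  obtain ⟨⟨K, hK⟩, -⟩ := hF
  exact ⟨K, hb, hb1, hK, h⟩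

/-! ### cut-offs -/

/-- the ramp -/
noncomputable def ks (a u : ℝ) : ℝ := max 0 (min 1 (|u| / a - 1))

/-- the cut-off of `1 / |u|` -/
noncomputable def kp (a u : ℝ) : ℝ := max 0 (min (1 / max |u| a) (1 / a - 1 / max |u| a))

lemma ks_nonneg (a u : ℝ) : 0 ≤ ks a u := le_max_left _ _

lemma ks_le (a u : ℝ) : ks a u ≤ 1 := max_le zero_le_one (min_le_left _ _)

lemma ks_zero {a u : ℝ} (ha : 0 < a) (h : |u| ≤ a) : ks a u = 0 := by
  unfold ks
  apply max_eq_left
  refine (min_le_right _ _).trans ?_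
  have : |u| / a ≤ 1 := by rwa [div_le_one ha]
  linarith

lemma ks_one {a u : ℝ} (ha : 0 < a) (h : 2 * a ≤ |u|) : ks a u = 1 := by
  unfold ks
  have : 2 ≤ |u| / a := by rwa [le_div_iff₀ ha]
  rw [min_eq_left (by linarith), max_eq_right zero_le_one]

lemma ks_anti {a a' : ℝ} (ha : 0 < a) (h : a ≤ a') (u : ℝ) : ks a' u ≤ ks a u := by
  unfold ks
  apply max_le_max le_rfl
  apply min_le_min le_rfl
  have : |u| / a' ≤ |u| / a := by gcongr
  linarith

lemma ks_lip {a : ℝ} (ha : 0 < a) (u v : ℝ) : |ks a u - ks a v| ≤ |u - v| / a := by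
  unfold ks
  calc |max 0 (min 1 (|u| / a - 1)) - max 0 (min 1 (|v| / a - 1))| ≤
      |min 1 (|u| / a - 1) - min 1 (|v| / a - 1)| := by
        have := abs_max_sub_max_le_abs (min 1 (|u| / a - 1)) (min 1 (|v| / a - 1)) 0
        rwa [max_comm _ (0 : ℝ), max_comm _ (0 : ℝ)] at this
    _ ≤ |(|u| / a - 1) - (|v| / a - 1)| := by
        have := abs_min_sub_min_le_max (1 : ℝ) (|u| / a - 1) 1 (|v| / a - 1)
        rwa [sub_self, abs_zero, max_eq_right (abs_nonneg _)] at this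
    _ = |(|u| - |v|)| / a := by
        rw [sub_sub_sub_cancel_right, ← sub_div, abs_div, abs_of_pos ha]
    _ ≤ |u - v| / a :=
        div_le_div_of_nonneg_right (abs_abs_sub_abs_le_abs_sub u v) ha.le

lemma kp_eq {a u : ℝ} (ha : 0 < a) (hu : u ≠ 0) : kp a u = ks a u / |u| := by
  have hu0 : 0 < |u| := abs_pos.2 hu
  rcases le_or_gt |u| a with h | h
  · rw [ks_zero ha h, zero_div]
    unfold kp
    rw [max_eq_right h, sub_self]
    exact max_eq_left (min_le_right _ _)
  · unfold kp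
    rw [max_eq_left h.le]
    rcases le_or_gt (2 * a) |u| with h2 | h2
    · rw [ks_one ha h2]
      have h3 : 1 / |u| ≤ 1 / a - 1 / |u| := by
        rw [le_sub_iff_add_le, ← two_mul, mul_one_div, div_le_div_iff₀ hu0 ha]
        linarith
      rw [min_eq_left h3, max_eq_right (by positivity)]
    · have h3 : 1 / a - 1 / |u| ≤ 1 / |u| := by
        rw [sub_le_iff_le_add, ← two_mul, mul_one_div, div_le_div_iff₀ ha hu0]
        linarith
      have h4 : 0 ≤ 1 / a - 1 / |u| := by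
        rw [sub_nonneg]
        exact one_div_le_one_div_of_le ha h.le
      rw [min_eq_right h3, max_eq_right h4]
      unfold ks
      have h5 : |u| / a - 1 ≤ 1 := by
        rw [sub_le_iff_le_add, div_le_iff₀ ha]
        linarith
      have h6 : 0 ≤ |u| / a - 1 := by
        rw [sub_nonneg, one_le_div ha]
        exact h.le
      rw [min_eq_right h5, max_eq_right h6]
      field_simp

lemma kp_zero' {a u : ℝ} (h : |u| ≤ a) : kp a u = 0 := by
  unfold kp
  rw [max_eq_right h, sub_self]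
  exact max_eq_left (min_le_right _ _)

lemma kp_nonneg (a u : ℝ) : 0 ≤ kp a u := le_max_left _ _

lemma kp_even (a u : ℝ) : kp a (-u) = kp a u := by
  unfold kp
  rw [abs_neg]

lemma kp_le {a u : ℝ} (ha : 0 < a) (hu : 0 < u) : kp a u ≤ 1 / u := by
  rw [kp_eq ha hu.ne', abs_of_pos hu]
  exact div_le_div_of_nonneg_right (ks_le a u) hu.le

lemma kp_one {a u : ℝ} (ha : 0 < a) (h : 2 * a ≤ u) : kp a u = 1 / u := by
  have hu : 0 < u := by linarith
  rw [kp_eq ha hu.ne', abs_of_pos hu, ks_one ha (by rwa [abs_of_pos hu])]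

lemma kp_anti {a a' u : ℝ} (ha : 0 < a) (h : a ≤ a') : kp a' u ≤ kp a u := by
  rcases eq_or_ne u 0 with hu | hu
  · rw [hu, kp_zero' (by rw [abs_zero]; linarith), kp_zero' (by rw [abs_zero]; exact ha.le)]
  · rw [kp_eq ha hu, kp_eq (by linarith) hu]
    exact div_le_div_of_nonneg_right (ks_anti ha h u) (abs_nonneg _)

lemma kp_lip {a : ℝ} (ha : 0 < a) : LipschitzWith ⟨1 / a ^ 2, by positivity⟩ (kp a) := by
  apply LipschitzWith.of_dist_le_mul
  intro u v
  rw [Real.dist_eq, Real.dist_eq]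
  show _ ≤ 1 / a ^ 2 * |u - v|
  set x := max |u| a with hx
  set y := max |v| a with hy
  have hx0 : a ≤ x := le_max_right _ _
  have hy0 : a ≤ y := le_max_right _ _
  have hxy : |x - y| ≤ |u - v| := by
    have h1 := abs_max_sub_max_le_abs |u| |v| a
    exact h1.trans (abs_abs_sub_abs_le_abs_sub u v)
  have hg : |1 / x - 1 / y| ≤ 1 / a ^ 2 * |u - v| := by
    have hx1 : 0 < x := by linarith
    have hy1 : 0 < y := by linarith
    have e : 1 / x - 1 / y = (y - x) / (x * y) := by field_simp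
    rw [e, abs_div, abs_sub_comm, abs_of_pos (by positivity : 0 < x * y)]
    rw [one_div_mul_eq_div]
    apply div_le_div₀ (abs_nonneg _) hxy (by positivity)
    rw [sq]
    exact mul_le_mul hx0 hy0 ha.le (by linarith)
  unfold kp
  rw [← hx, ← hy]
  calc |max 0 (min (1 / x) (1 / a - 1 / x)) - max 0 (min (1 / y) (1 / a - 1 / y))| ≤
      |min (1 / x) (1 / a - 1 / x) - min (1 / y) (1 / a - 1 / y)| := by
        have := abs_max_sub_max_le_abs (min (1 / x) (1 / a - 1 / x))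
          (min (1 / y) (1 / a - 1 / y)) 0
        rwa [max_comm _ (0 : ℝ), max_comm _ (0 : ℝ)] at this
    _ ≤ max |1 / x - 1 / y| |(1 / a - 1 / x) - (1 / a - 1 / y)| := abs_min_sub_min_le_max _ _ _ _
    _ ≤ _ := by
        apply max_le hg
        have e : (1 / a - 1 / x) - (1 / a - 1 / y) = -(1 / x - 1 / y) := by ring
        rw [e, abs_neg]
        exact hg

lemma kp_cont {a : ℝ} (ha : 0 < a) : Continuous (kp a) := (kp_lip ha).continuous

lemma kp_bdd {a : ℝ} (ha : 0 < a) (u : ℝ) : |kp a u| ≤ 1 / a := by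
  rw [abs_of_nonneg (kp_nonneg a u)]
  rcases le_or_gt |u| a with h | h
  · rw [kp_zero' h]; positivity
  · have hu : u ≠ 0 := by
      intro h0
      rw [h0, abs_zero] at h
      linarith
    rw [kp_eq ha hu]
    exact (div_le_div_of_nonneg_right (ks_le a u) (abs_nonneg _)).trans
      (one_div_le_one_div_of_le ha h.le)

lemma BL.kp {a : ℝ} (ha : 0 < a) : BL fun u => (kp a u : ℂ) := BL.real (kp_lip ha) (kp_bdd ha)

/-- the difference of two cut-offs -/
noncomputable def kd (a a' u : ℝ) : ℝ := kp a u - kp a' u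

lemma kd_cont {a a' : ℝ} (ha : 0 < a) (ha' : 0 < a') : Continuous (kd a a') :=
  (kp_cont ha).sub (kp_cont ha')

lemma kd_nonneg {a a' : ℝ} (ha : 0 < a) (h : a ≤ a') (u : ℝ) : 0 ≤ kd a a' u :=
  sub_nonneg.2 (kp_anti ha h)

lemma kd_le {a a' : ℝ} (ha : 0 < a) {u : ℝ} (hu : 0 < u) : kd a a' u ≤ 1 / u := by
  unfold kd
  linarith [kp_le ha hu, kp_nonneg a' u]

lemma kd_zero1 {a a' u : ℝ} (h : a ≤ a') (h1 : |u| ≤ a) : kd a a' u = 0 := by
  unfold kd
  rw [kp_zero' h1, kp_zero' (h1.trans h), sub_zero]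

lemma kd_zero2 {a a' u : ℝ} (ha : 0 < a) (h : a ≤ a') (h1 : 2 * a' ≤ |u|) : kd a a' u = 0 := by
  have hu : u ≠ 0 := by
    intro h0
    rw [h0, abs_zero] at h1
    linarith
  unfold kd
  rw [kp_eq ha hu, kp_eq (by linarith) hu, ks_one ha (by linarith), ks_one (by linarith) h1,
    sub_self]

lemma kd_mid {a a' u : ℝ} (ha : 0 < a) (h1 : 2 * a ≤ u) (h2 : u ≤ a') : kd a a' u = 1 / u := by
  unfold kd
  rw [kp_one ha h1, kp_zero' (by rw [abs_of_pos (by linarith)]; exact h2), sub_zero]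

lemma BL.kd {a a' : ℝ} (ha : 0 < a) (ha' : 0 < a') : BL fun u => (kd a a' u : ℂ) := by
  have := (BL.kp ha).sub (BL.kp ha')
  refine (congrArg BL ?_).mp this
  ext u
  unfold TD.kd
  push_cast
  ring

/-! ### integrals -/

lemma int_le_log {f : ℝ → ℝ} (hf : Continuous f) {α β : ℝ} (hα : 0 < α) (hαβ : α ≤ β) (hβ : β ≤ 1)
    (h0 : ∀ u, 0 ≤ u → u ≤ α → f u = 0) (h1 : ∀ u, β ≤ u → u ≤ 1 → f u = 0)
    (h : ∀ u, α ≤ u → u ≤ β → f u ≤ 1 / u) : ∫ u in (0 : ℝ)..1, f u ≤ Real.log (β / α) := by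
  have hi : ∀ x y, IntervalIntegrable f volume x y := fun x y => hf.intervalIntegrable _ _
  rw [← intervalIntegral.integral_add_adjacent_intervals (hi 0 α) (hi α 1),
    ← intervalIntegral.integral_add_adjacent_intervals (hi α β) (hi β 1)]
  have e0 : ∫ u in (0 : ℝ)..α, f u = 0 := by
    rw [intervalIntegral.integral_congr (g := fun _ => 0)]
    · simp
    · intro u hu
      rw [Set.uIcc_of_le hα.le] at hu
      exact h0 u hu.1 hu.2
  have e1 : ∫ u in β..1, f u = 0 := by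
    rw [intervalIntegral.integral_congr (g := fun _ => 0)]
    · simp
    · intro u hu
      rw [Set.uIcc_of_le hβ] at hu
      exact h1 u hu.1 hu.2
  have hni : (0 : ℝ) ∉ Set.uIcc α β := by
    rw [Set.uIcc_of_le hαβ]
    intro h
    linarith [h.1]
  have e2 : ∫ u in α..β, f u ≤ ∫ u in α..β, 1 / u := by
    apply intervalIntegral.integral_mono_on hαβ (hi α β)
    · exact intervalIntegral.intervalIntegrable_one_div (fun x hx h => hni (h ▸ hx)) continuousOn_id
    · intro u hu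
      exact h u hu.1 hu.2
  rw [integral_one_div hni] at e2
  linarith

lemma int_ge_log {f : ℝ → ℝ} (hf : Continuous f) {α β : ℝ} (hα : 0 < α) (hαβ : α ≤ β) (hβ : β ≤ 1)
    (h0 : ∀ u, 0 ≤ u → u ≤ 1 → 0 ≤ f u)
    (h : ∀ u, α ≤ u → u ≤ β → 1 / u ≤ f u) : Real.log (β / α) ≤ ∫ u in (0 : ℝ)..1, f u := by
  have hi : ∀ x y, IntervalIntegrable f volume x y := fun x y => hf.intervalIntegrable _ _
  rw [← intervalIntegral.integral_add_adjacent_intervals (hi 0 α) (hi α 1),
    ← intervalIntegral.integral_add_adjacent_intervals (hi α β) (hi β 1)]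
  have e0 : 0 ≤ ∫ u in (0 : ℝ)..α, f u :=
    intervalIntegral.integral_nonneg hα.le fun u hu => h0 u hu.1 (by linarith [hu.2])
  have e1 : 0 ≤ ∫ u in β..1, f u :=
    intervalIntegral.integral_nonneg hβ fun u hu => h0 u (by linarith [hu.1]) hu.2
  have hni : (0 : ℝ) ∉ Set.uIcc α β := by
    rw [Set.uIcc_of_le hαβ]
    intro h
    linarith [h.1]
  have e2 : ∫ u in α..β, 1 / u ≤ ∫ u in α..β, f u := by
    apply intervalIntegral.integral_mono_on hαβ
      (intervalIntegral.intervalIntegrable_one_div (fun x hx h => hni (h ▸ hx)) continuousOn_id)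
      (hi α β)
    intro u hu
    exact h u hu.1 hu.2
  rw [integral_one_div hni] at e2
  linarith

/-- the inner product of two differences of cut-offs -/
noncomputable def ip (a a' b b' : ℝ) : ℝ := ∫ u in (0 : ℝ)..1, u * (kd a a' u * kd b b' u)

lemma ip_nonneg {a a' b b' : ℝ} (ha : 0 < a) (h1 : a ≤ a') (hb : 0 < b) (h2 : b ≤ b') :
    0 ≤ ip a a' b b' :=
  intervalIntegral.integral_nonneg zero_le_one fun u hu =>
    mul_nonneg hu.1 (mul_nonneg (kd_nonneg ha h1 u) (kd_nonneg hb h2 u))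

lemma ip_le {a a' b b' : ℝ} (ha : 0 < a) (h1 : a ≤ a') (hb : 0 < b) (h2 : b ≤ b')
    (hb' : 2 * b' ≤ 1) : ip a a' b b' ≤ Real.log (2 * b' / b) := by
  unfold ip
  apply int_le_log
  · exact continuous_id.mul ((kd_cont ha (by linarith)).mul (kd_cont hb (by linarith)))
  · exact hb
  · linarith
  · exact hb'
  · intro u hu0 hu
    rw [kd_zero1 (a := b) h2 (by rwa [abs_of_nonneg hu0]), mul_zero, mul_zero]
  · intro u hu0 hu
    rw [kd_zero2 hb h2 (hu0.trans (le_abs_self _)), mul_zero, mul_zero]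
  · intro u hu0 hu
    have hup : 0 < u := by linarith
    have h3 := kd_le (a' := a') ha hup
    have h4 := kd_le (a' := b') hb hup
    calc u * (kd a a' u * kd b b' u) ≤ u * (1 / u * (1 / u)) := by
          apply mul_le_mul_of_nonneg_left _ hup.le
          exact mul_le_mul h3 h4 (kd_nonneg hb h2 u) (by positivity)
      _ = 1 / u := by field_simp

lemma ip_ge {a a' : ℝ} (ha : 0 < a) (h1 : 2 * a ≤ a') (h2 : a' ≤ 1) :
    Real.log (a' / (2 * a)) ≤ ip a a' a a' := by
  unfold ip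
  apply int_ge_log
  · exact continuous_id.mul ((kd_cont ha (by linarith)).mul (kd_cont ha (by linarith)))
  · linarith
  · exact h1
  · exact h2
  · intro u hu0 hu
    exact mul_nonneg hu0 (mul_self_nonneg _)
  · intro u hu0 hu
    have hup : 0 < u := by linarith
    rw [kd_mid ha hu0 hu]
    apply le_of_eq
    field_simp

end Pool.Agent.T9h26.TD
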