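import Pool.Agent.T9h26.TD.Ms

set_option autoImplicit false

/-! Polynomials over the primes with complex coefficients: mean squares. -/

open Complex Filter Topology Set MeasureTheory

namespace Pool.Agent.T9h26.TD

/-- a polynomial over the primes, complex coefficients -/
noncomputable def PPc (a : ℕ → ℂ) (X : ℕ) (t : ℝ) : ℂ :=
  ∑ p ∈ Pr X, a p * (p : ℂ) ^ (-(t : ℂ) * I)

lemma PPc_cont (a : ℕ → ℂ) (X : ℕ) : Continuous (PPc a X) := by
  unfold PPc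
  apply continuous_finsetSum
  intro p hp
  exact continuous_const.mul (cpow_cont p (mem_Pr.1 hp).1.one_le)

/-- the product of the coefficients -/
noncomputable def wtc (a : ℕ → ℂ) {i : ℕ} (f : Fin i → ℕ) : ℂ := ∏ j, a (f j)

lemma wtc_eq (a : ℕ → ℂ) {i : ℕ} {f g : Fin i → ℕ} (hf : ∀ j, (f j).Prime)
    (hg : ∀ j, (g j).Prime) (h : pr f = pr g) : wtc a f = wtc a g := by
  have h1 := ((ofFn_perm hf hg h).map a).prod_eq
  rw [List.map_ofFn, List.map_ofFn, List.prod_ofFn, List.prod_ofFn] at h1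
  exact h1

lemma norm_wtc (a : ℕ → ℂ) {i : ℕ} (f : Fin i → ℕ) : ‖wtc a f‖ = wt (fun p => ‖a p‖) f := by
  unfold wtc wt
  rw [norm_prod]

/-- the coefficients of the `i`-th power -/
noncomputable def ccc (a : ℕ → ℂ) (X i n : ℕ) : ℂ :=
  ∑ f ∈ (Tp X i).filter (fun f => pr f = n), wtc a f

lemma powc_eq (a : ℕ → ℂ) (X i M : ℕ) (hM : X ^ i ≤ M) (s : ℂ) :
    (∑ p ∈ Pr X, a p * (p : ℂ) ^ s) ^ i =
      ∑ n ∈ Finset.Icc 1 M, ccc a X i n * (n : ℂ) ^ s := by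
  rw [Finset.sum_pow']
  have h1 : ∀ f ∈ Tp X i, ∏ j, (a (f j) * ((f j : ℕ) : ℂ) ^ s) =
      wtc a f * ((pr f : ℕ) : ℂ) ^ s := by
    intro f _
    rw [Finset.prod_mul_distrib, cast_pr_cpow]
    rfl
  have h2 : ∀ f ∈ Tp X i, pr f ∈ Finset.Icc 1 M := fun f hf =>
    Finset.mem_Icc.2 ⟨pr_pos hf, (pr_le hf).trans hM⟩
  have h3 : (∑ f ∈ Tp X i, wtc a f * ((pr f : ℕ) : ℂ) ^ s) =
      ∑ n ∈ Finset.Icc 1 M, ccc a X i n * (n : ℂ) ^ s := by
    rw [← Finset.sum_fiberwise_of_maps_to h2]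
    apply Finset.sum_congr rfl
    intro n _
    unfold ccc
    rw [Finset.sum_mul]
    apply Finset.sum_congr rfl
    intro f hf
    rw [(Finset.mem_filter.1 hf).2]
  rw [← h3]
  exact Finset.sum_congr rfl h1

lemma norm_ccc (a : ℕ → ℂ) (X i n : ℕ) : ‖ccc a X i n‖ = cc (fun p => ‖a p‖) X i n := by
  unfold ccc cc
  rcases ((Tp X i).filter (fun f => pr f = n)).eq_empty_or_nonempty with h | ⟨f0, hf0⟩
  · rw [h]; simp
  · have hf0' := Finset.mem_filter.1 hf0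
    have h1 : ∀ f ∈ (Tp X i).filter (fun f => pr f = n), wtc a f = wtc a f0 := by
      intro f hf
      have hf' := Finset.mem_filter.1 hf
      exact wtc_eq a (fun j => (mem_Pr.1 (mem_Tp.1 hf'.1 j)).1)
        (fun j => (mem_Pr.1 (mem_Tp.1 hf0'.1 j)).1) (hf'.2.trans hf0'.2.symm)
    have h2 : ∀ f ∈ (Tp X i).filter (fun f => pr f = n), wt (fun p => ‖a p‖) f =
        wt (fun p => ‖a p‖) f0 := by
      intro f hf
      rw [← norm_wtc, ← norm_wtc, h1 f hf]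
    rw [Finset.sum_congr rfl h1, Finset.sum_congr rfl h2, Finset.sum_const, Finset.sum_const,
      nsmul_eq_mul, nsmul_eq_mul, norm_mul, norm_wtc, Complex.norm_natCast]

lemma norm_sq_orth {ι : Type*} (s : Finset ι) (z : ι → ℂ)
    (h : ∀ i ∈ s, ∀ j ∈ s, i ≠ j → z i * z j = 0) : ‖∑ i ∈ s, z i‖ ^ 2 = ∑ i ∈ s, ‖z i‖ ^ 2 := by
  by_cases h0 : ∃ i ∈ s, z i ≠ 0
  · obtain ⟨i, hi, hz⟩ := h0
    have h1 : ∀ j ∈ s, j ≠ i → z j = 0 := by
      intro j hj hji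
      have := h i hi j hj (Ne.symm hji)
      exact (mul_eq_zero.1 this).resolve_left hz
    rw [Finset.sum_eq_single_of_mem i hi h1, Finset.sum_eq_single_of_mem i hi]
    intro j hj hji
    rw [h1 j hj hji]
    simp
  · push Not at h0
    rw [Finset.sum_eq_zero h0, Finset.sum_eq_zero]
    · simp
    · intro i hi
      rw [h0 i hi]
      simp

/-- the mean square of a polynomial in a prime polynomial -/
theorem mean_c (a : ℕ → ℂ) {X J : ℕ} (hX : 1 ≤ X) (c : ℕ → ℂ) {T κ : ℝ} (hT : 1 ≤ T) (hκ : 0 < κ)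
    (hlen : (X : ℝ) ^ J ≤ T ^ (1 - κ)) :
    |(∫ t in T..(2 * T), ‖∑ i ∈ Finset.range (J + 1), c i * PPc a X t ^ i‖ ^ 2) -
      T * ∑ i ∈ Finset.range (J + 1), ‖c i‖ ^ 2 * DS (fun p => ‖a p‖) X (X ^ J) i| ≤
      T * (8 * (T ^ (-κ) * (1 + Real.log T))) *
        ∑ i ∈ Finset.range (J + 1), ‖c i‖ ^ 2 * DS (fun p => ‖a p‖) X (X ^ J) i := by
  have hT0 : 0 < T := by linarith
  set M := X ^ J with hM
  set d : ℕ → ℂ := fun n => ∑ i ∈ Finset.range (J + 1), c i * ccc a X i n with hd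
  have hD : ∀ t : ℝ, ∑ i ∈ Finset.range (J + 1), c i * PPc a X t ^ i =
      ∑ n ∈ Finset.Icc 1 M, d n * (n : ℂ) ^ (-(t : ℂ) * I) := by
    intro t
    have h1 : ∀ i ∈ Finset.range (J + 1), c i * PPc a X t ^ i =
        ∑ n ∈ Finset.Icc 1 M, c i * ccc a X i n * (n : ℂ) ^ (-(t : ℂ) * I) := by
      intro i hi
      rw [Finset.mem_range] at hi
      unfold PPc
      rw [powc_eq a X i M (Nat.pow_le_pow_right hX (by omega)), Finset.mul_sum]
      apply Finset.sum_congr rfl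
      intro n _
      ring
    rw [Finset.sum_congr rfl h1, Finset.sum_comm]
    apply Finset.sum_congr rfl
    intro n _
    rw [hd, Finset.sum_mul]
  have hdn : ∀ n, ‖d n‖ ^ 2 = ∑ i ∈ Finset.range (J + 1),
      ‖c i‖ ^ 2 * cc (fun p => ‖a p‖) X i n ^ 2 := by
    intro n
    rw [hd]
    simp only
    rw [norm_sq_orth]
    · apply Finset.sum_congr rfl
      intro i _
      rw [norm_mul, mul_pow, norm_ccc]
    · intro i _ j _ hij
      have h1 : ‖ccc a X i n * ccc a X j n‖ = 0 := by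
        rw [norm_mul, norm_ccc, norm_ccc]
        exact cross _ X i j n hij
      have h2 := norm_eq_zero.1 h1
      calc c i * ccc a X i n * (c j * ccc a X j n) = c i * c j * (ccc a X i n * ccc a X j n) := by
            ring
        _ = 0 := by rw [h2, mul_zero]
  have hsum : ∑ n ∈ Finset.Icc 1 M, ‖d n‖ ^ 2 = ∑ i ∈ Finset.range (J + 1),
      ‖c i‖ ^ 2 * DS (fun p => ‖a p‖) X M i := by
    simp_rw [hdn]
    rw [Finset.sum_comm]
    apply Finset.sum_congr rfl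
    intro i _
    unfold DS
    rw [Finset.mul_sum]
  set Sg := ∑ i ∈ Finset.range (J + 1), ‖c i‖ ^ 2 * DS (fun p => ‖a p‖) X M i with hSg
  have hSg0 : 0 ≤ Sg := by
    rw [← hsum]
    exact Finset.sum_nonneg fun n _ => by positivity
  have hmv := Pool.Agent.Y840.SW.t_MVB M T (2 * T) (by linarith) d d
  rw [hsum, Real.mul_self_sqrt hSg0] at hmv
  have e1 : ∀ t : ℝ, (∑ n ∈ Finset.Icc 1 M, d n * (n : ℂ) ^ (-(t : ℂ) * I)) *
      (starRingEnd ℂ) (∑ n ∈ Finset.Icc 1 M, d n * (n : ℂ) ^ (-(t : ℂ) * I)) =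
      ((‖∑ i ∈ Finset.range (J + 1), c i * PPc a X t ^ i‖ ^ 2 : ℝ) : ℂ) := by
    intro t
    rw [← hD, Complex.mul_conj', Complex.ofReal_pow]
  simp_rw [e1] at hmv
  rw [intervalIntegral.integral_ofReal] at hmv
  have e2 : ∑ n ∈ Finset.Icc 1 M, d n * (starRingEnd ℂ) (d n) = ((Sg : ℝ) : ℂ) := by
    rw [← hsum]
    push_cast
    apply Finset.sum_congr rfl
    intro n _
    rw [Complex.mul_conj']
  have e3 : ((2 * T - T : ℝ) : ℂ) = ((T : ℝ) : ℂ) := by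
    congr 1
    ring
  rw [e2, e3, ← Complex.ofReal_mul, ← Complex.ofReal_sub, Complex.norm_real,
    Real.norm_eq_abs] at hmv
  refine hmv.trans ?_
  apply mul_le_mul_of_nonneg_right _ hSg0
  have hMT : (M : ℝ) ≤ T ^ (1 - κ) := by
    rw [hM]
    push_cast
    exact hlen
  have hM1 : (1 : ℝ) ≤ M := by
    rw [hM]
    exact_mod_cast Nat.one_le_pow _ _ hX
  have hlog : Real.log (M : ℝ) ≤ Real.log T := by
    apply Real.log_le_log (by linarith)
    refine hMT.trans ?_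
    conv_rhs => rw [← Real.rpow_one T]
    exact Real.rpow_le_rpow_of_exponent_le hT (by linarith)
  have hlM : 0 ≤ Real.log (M : ℝ) := Real.log_nonneg hM1
  have hTk : T ^ (1 - κ) = T * T ^ (-κ) := by
    rw [sub_eq_add_neg, Real.rpow_add hT0, Real.rpow_one]
  calc 8 * (M : ℝ) * (1 + Real.log M) ≤ 8 * T ^ (1 - κ) * (1 + Real.log T) := by gcongr
    _ = _ := by rw [hTk]; ring

lemma eps_lim {κ : ℝ} (hκ : 0 < κ) :
    Tendsto (fun T : ℝ => 8 * (T ^ (-κ) * (1 + Real.log T))) atTop (𝓝 0) := by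
  have h1 : Tendsto (fun T : ℝ => T ^ (-κ)) atTop (𝓝 0) := tendsto_rpow_neg_atTop hκ
  have h2 : Tendsto (fun T : ℝ => T ^ (-κ) * Real.log T) atTop (𝓝 0) := by
    have h3 := (isLittleO_log_rpow_atTop hκ).tendsto_div_nhds_zero
    refine h3.congr' ?_
    filter_upwards [eventually_gt_atTop 0] with T hT
    rw [Real.rpow_neg hT.le]
    field_simp
  have h3 := (h1.add h2).const_mul 8
  rw [add_zero, mul_zero] at h3
  refine h3.congr fun T => ?_
  ring

/-- upper bound for the mean square of a polynomial in a prime polynomial -/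
theorem ubc {a : ℝ → ℕ → ℂ} {X : ℝ → ℕ} {v : ℝ} {J : ℕ}
    (hC : Coef (fun T p => ‖a T p‖) X v J) (c : ℕ → ℂ) {θ : ℝ}
    (hθ : ∑ i ∈ Finset.range (J + 1), ‖c i‖ ^ 2 * (i.factorial * v ^ i) < θ) :
    ∀ᶠ T : ℝ in atTop, ∫ t in T..(2 * T),
      ‖∑ i ∈ Finset.range (J + 1), c i * PPc (a T) (X T) t ^ i‖ ^ 2 ≤ θ * T := by
  obtain ⟨κ, hκ, hlen⟩ := hC.len
  have h1 : Tendsto (fun T => (1 + 8 * (T ^ (-κ) * (1 + Real.log T))) *
      ∑ i ∈ Finset.range (J + 1), ‖c i‖ ^ 2 * ((i.factorial : ℝ) *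
        (∑ p ∈ Pr (X T), ‖a T p‖ ^ 2) ^ i)) atTop
      (𝓝 ((1 + 0) * ∑ i ∈ Finset.range (J + 1), ‖c i‖ ^ 2 * (i.factorial * v ^ i))) := by
    apply Tendsto.mul
    · exact (eps_lim hκ).const_add 1
    · apply tendsto_finsetSum
      intro i _
      exact ((hC.sq.pow i).const_mul _).const_mul _
  rw [add_zero, one_mul] at h1
  filter_upwards [h1.eventually (gt_mem_nhds hθ), hlen, eventually_ge_atTop 1] with T h2 h3 h4
  have h5 := mean_c (a T) (hC.one T) c h4 hκ h3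
  have hT0 : 0 < T := by linarith
  have hlog : 0 ≤ Real.log T := Real.log_nonneg h4
  have h6 : ∑ i ∈ Finset.range (J + 1), ‖c i‖ ^ 2 * DS (fun p => ‖a T p‖) (X T) (X T ^ J) i ≤
      ∑ i ∈ Finset.range (J + 1), ‖c i‖ ^ 2 * ((i.factorial : ℝ) *
        (∑ p ∈ Pr (X T), ‖a T p‖ ^ 2) ^ i) := by
    apply Finset.sum_le_sum
    intro i hi
    rw [Finset.mem_range] at hi
    apply mul_le_mul_of_nonneg_left _ (by positivity)
    exact diag_le _ (X T) i _ (Nat.pow_le_pow_right (hC.one T) (by omega))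
  have h7 := (abs_le.1 h5).2
  have h8 : 0 ≤ 8 * (T ^ (-κ) * (1 + Real.log T)) := by positivity
  calc _ ≤ T * ((1 + 8 * (T ^ (-κ) * (1 + Real.log T))) *
        ∑ i ∈ Finset.range (J + 1), ‖c i‖ ^ 2 * DS (fun p => ‖a T p‖) (X T) (X T ^ J) i) := by
        linarith
    _ ≤ T * ((1 + 8 * (T ^ (-κ) * (1 + Real.log T))) *
        ∑ i ∈ Finset.range (J + 1), ‖c i‖ ^ 2 * ((i.factorial : ℝ) *
        (∑ p ∈ Pr (X T), ‖a T p‖ ^ 2) ^ i)) := by gcongr
    _ ≤ T * θ := by gcongr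
    _ = θ * T := mul_comm _ _

/-- lower bound for the mean square of a polynomial in a prime polynomial -/
theorem lbc {a : ℝ → ℕ → ℂ} {X : ℝ → ℕ} {v : ℝ} {J : ℕ} (hv : 0 < v)
    (hC : Coef (fun T p => ‖a T p‖) X v J) (c : ℕ → ℂ) {θ : ℝ}
    (hθ : θ < ∑ i ∈ Finset.range (J + 1), ‖c i‖ ^ 2 * (i.factorial * v ^ i)) :
    ∀ᶠ T : ℝ in atTop, θ * T ≤ ∫ t in T..(2 * T),
      ‖∑ i ∈ Finset.range (J + 1), c i * PPc (a T) (X T) t ^ i‖ ^ 2 := by
  obtain ⟨κ, hκ, hlen⟩ := hC.len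
  have h1 : Tendsto (fun T => (1 - 8 * (T ^ (-κ) * (1 + Real.log T))) *
      ∑ i ∈ Finset.range (J + 1), ‖c i‖ ^ 2 * DS (fun p => ‖a T p‖) (X T) (X T ^ J) i) atTop
      (𝓝 ((1 - 0) * ∑ i ∈ Finset.range (J + 1), ‖c i‖ ^ 2 * (i.factorial * v ^ i))) := by
    apply Tendsto.mul
    · exact (eps_lim hκ).const_sub 1
    · apply tendsto_finsetSum
      intro i hi
      rw [Finset.mem_range] at hi
      exact (DS_lim hv hC (by omega)).const_mul _
  rw [sub_zero, one_mul] at h1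
  filter_upwards [h1.eventually (lt_mem_nhds hθ), hlen, eventually_ge_atTop 1] with T h2 h3 h4
  have h5 := mean_c (a T) (hC.one T) c h4 hκ h3
  have h7 := (abs_le.1 h5).1
  have hT0 : 0 < T := by linarith
  calc θ * T ≤ ((1 - 8 * (T ^ (-κ) * (1 + Real.log T))) *
        ∑ i ∈ Finset.range (J + 1), ‖c i‖ ^ 2 * DS (fun p => ‖a T p‖) (X T) (X T ^ J) i) * T :=
        mul_le_mul_of_nonneg_right h2.le hT0.le
    _ ≤ _ := by linarith

end Pool.Agent.T9h26.TD
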