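import Pool.Agent.T9h26.TD.Zx
import Pool.Agent.T9h26.TD.Zd

set_option autoImplicit false

/-! The second moment of the truncated exponential field. -/

open Complex Filter Topology Set MeasureTheory

namespace Pool.Agent.T9h26.TD

/-- upper bound for the means of a family of functions -/
def UM (f : ℝ → ℝ → ℝ) (v : ℝ) : Prop := (∀ T, Continuous (f T)) ∧
  ∀ η : ℝ, 0 < η → ∀ᶠ T : ℝ in atTop, ∫ t in T..(2 * T), f T t ≤ (v + η) * T

/-- lower bound for the means of a family of functions -/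
def LM (f : ℝ → ℝ → ℝ) (v : ℝ) : Prop := (∀ T, Continuous (f T)) ∧
  ∀ η : ℝ, 0 < η → ∀ᶠ T : ℝ in atTop, (v - η) * T ≤ ∫ t in T..(2 * T), f T t

lemma UM.zero : UM (fun _ _ => 0) 0 := by
  refine ⟨fun _ => continuous_const, fun η hη => ?_⟩
  filter_upwards [eventually_gt_atTop 0] with T hT
  simp
  positivity

lemma UM.add {f g : ℝ → ℝ → ℝ} {v w : ℝ} (hf : UM f v) (hg : UM g w) :
    UM (fun T t => f T t + g T t) (v + w) := by
  refine ⟨fun T => (hf.1 T).add (hg.1 T), fun η hη => ?_⟩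
  filter_upwards [hf.2 (η / 2) (by positivity), hg.2 (η / 2) (by positivity)] with T h1 h2
  rw [intervalIntegral.integral_add ((hf.1 T).intervalIntegrable _ _)
    ((hg.1 T).intervalIntegrable _ _)]
  linarith

lemma UM.smul {f : ℝ → ℝ → ℝ} {v : ℝ} (hf : UM f v) {c : ℝ} (hc : 0 ≤ c) :
    UM (fun T t => c * f T t) (c * v) := by
  refine ⟨fun T => continuous_const.mul (hf.1 T), fun η hη => ?_⟩
  filter_upwards [hf.2 (η / (c + 1)) (by positivity), eventually_gt_atTop 0] with T h1 h2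
  rw [intervalIntegral.integral_const_mul]
  have h3 : c * (η / (c + 1)) ≤ η := by
    rw [← mul_div_assoc, div_le_iff₀ (by positivity)]
    nlinarith
  calc _ ≤ c * ((v + η / (c + 1)) * T) := mul_le_mul_of_nonneg_left h1 hc
    _ = (c * v + c * (η / (c + 1))) * T := by ring
    _ ≤ _ := by gcongr

lemma UM.sum {ι : Type*} (s : Finset ι) {f : ι → ℝ → ℝ → ℝ} {v : ι → ℝ}
    (h : ∀ i ∈ s, UM (f i) (v i)) : UM (fun T t => ∑ i ∈ s, f i T t) (∑ i ∈ s, v i) := by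
  classical
  induction s using Finset.induction_on with
  | empty => simpa using UM.zero
  | insert a s ha ih =>
    have h1 := (h a (Finset.mem_insert_self a s)).add
      (ih fun i hi => h i (Finset.mem_insert_of_mem hi))
    simp_rw [Finset.sum_insert ha]
    exact h1

lemma UM.mono {f : ℝ → ℝ → ℝ} {v w : ℝ} (hf : UM f v) (h : v ≤ w) : UM f w := by
  refine ⟨hf.1, fun η hη => ?_⟩
  filter_upwards [hf.2 η hη, eventually_gt_atTop 0] with T h1 h2
  refine h1.trans ?_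
  gcongr

lemma LM.sub {f g : ℝ → ℝ → ℝ} {v w : ℝ} (hf : LM f v) (hg : UM g w) :
    LM (fun T t => f T t - g T t) (v - w) := by
  refine ⟨fun T => (hf.1 T).sub (hg.1 T), fun η hη => ?_⟩
  filter_upwards [hf.2 (η / 2) (by positivity), hg.2 (η / 2) (by positivity)] with T h1 h2
  rw [intervalIntegral.integral_sub ((hf.1 T).intervalIntegrable _ _)
    ((hg.1 T).intervalIntegrable _ _)]
  linarith

lemma LM.smul {f : ℝ → ℝ → ℝ} {v : ℝ} (hf : LM f v) {c : ℝ} (hc : 0 ≤ c) :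
    LM (fun T t => c * f T t) (c * v) := by
  refine ⟨fun T => continuous_const.mul (hf.1 T), fun η hη => ?_⟩
  filter_upwards [hf.2 (η / (c + 1)) (by positivity), eventually_gt_atTop 0] with T h1 h2
  rw [intervalIntegral.integral_const_mul]
  have h3 : c * (η / (c + 1)) ≤ η := by
    rw [← mul_div_assoc, div_le_iff₀ (by positivity)]
    nlinarith
  calc _ ≤ (c * v - c * (η / (c + 1))) * T := by gcongr
    _ = c * ((v - η / (c + 1)) * T) := by ring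
    _ ≤ _ := mul_le_mul_of_nonneg_left h1 hc

lemma LM.mono {f : ℝ → ℝ → ℝ} {v w : ℝ} (hf : LM f v) (h : w ≤ v) : LM f w := by
  refine ⟨hf.1, fun η hη => ?_⟩
  filter_upwards [hf.2 η hη, eventually_gt_atTop 0] with T h1 h2
  refine le_trans ?_ h1
  gcongr

lemma LM.sum {ι : Type*} (s : Finset ι) {f : ι → ℝ → ℝ → ℝ} {v : ι → ℝ}
    (h : ∀ i ∈ s, LM (f i) (v i)) : LM (fun T t => ∑ i ∈ s, f i T t) (∑ i ∈ s, v i) := by
  classical
  induction s using Finset.induction_on with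
  | empty =>
    refine ⟨fun _ => by simpa using continuous_const, fun η hη => ?_⟩
    filter_upwards [eventually_gt_atTop 0] with T hT
    simp
    positivity
  | insert a s ha ih =>
    have h1 := h a (Finset.mem_insert_self a s)
    have h2 := ih fun i hi => h i (Finset.mem_insert_of_mem hi)
    simp_rw [Finset.sum_insert ha]
    refine ⟨fun T => (h1.1 T).add (h2.1 T), fun η hη => ?_⟩
    filter_upwards [h1.2 (η / 2) (by positivity), h2.2 (η / 2) (by positivity)] with T h3 h4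
    rw [intervalIntegral.integral_add ((h1.1 T).intervalIntegrable _ _)
      ((h2.1 T).intervalIntegrable _ _)]
    linarith

lemma EJ_sum (z : ℂ) (J : ℕ) :
    EJ z J = ∑ i ∈ Finset.range (J + 1), (((i.factorial : ℝ)⁻¹ : ℝ) : ℂ) * z ^ i := by
  unfold EJ
  apply Finset.sum_congr rfl
  intro i _
  push_cast
  rw [div_eq_inv_mul]

lemma SJ_sum (v : ℝ) (J : ℕ) :
    ∑ i ∈ Finset.range (J + 1), ‖(((i.factorial : ℝ)⁻¹ : ℝ) : ℂ)‖ ^ 2 * (i.factorial * v ^ i) =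
      SJ v J := by
  unfold SJ
  apply Finset.sum_congr rfl
  intro i _
  have h0 : (i.factorial : ℝ) ≠ 0 := by exact_mod_cast i.factorial_ne_zero
  rw [Complex.norm_real, Real.norm_of_nonneg (by positivity)]
  field_simp

lemma var_nonneg (w : ℝ → ℝ) : 0 ≤ var w :=
  intervalIntegral.integral_nonneg zero_le_one fun _ hu => mul_nonneg hu.1 (sq_nonneg _)

lemma UM_EJ {F : ℝ → ℂ} {b : ℝ} {K : NNReal} (h : Wz F b K) {J : ℕ} (hJ : (J : ℝ) * b < 1) :
    UM (fun T t => ‖EJ (PZ F T t) J‖ ^ 2) (Real.exp (var (nw F))) := by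
  refine ⟨fun T => (((EJ_cont J).comp (PZ_cont F T)).norm).pow 2, fun η hη => ?_⟩
  simp_rw [EJ_sum]
  apply ubZ h hJ
  rw [SJ_sum]
  linarith [SJ_le_exp (var_nonneg (nw F)) J]

lemma LM_EJ {F : ℝ → ℂ} {b : ℝ} {K : NNReal} (h : Wz F b K) {J : ℕ} (hJ : (J : ℝ) * b < 1)
    (hv : 0 < var (nw F)) :
    LM (fun T t => ‖EJ (PZ F T t) J‖ ^ 2) (SJ (var (nw F)) J) := by
  refine ⟨fun T => (((EJ_cont J).comp (PZ_cont F T)).norm).pow 2, fun η hη => ?_⟩
  simp_rw [EJ_sum]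
  apply lbZ h hJ hv
  rw [SJ_sum]
  linarith

lemma UM_pow {F : ℝ → ℂ} {b : ℝ} {K : NNReal} (h : Wz F b K) {J : ℕ} (hJ : (J : ℝ) * b < 1)
    {R : ℝ} (hR : 0 < R) :
    UM (fun T t => (‖PZ F T t‖ / R) ^ (2 * J)) (J.factorial * var (nw F) ^ J / R ^ (2 * J)) := by
  have h1 : UM (fun T t => ‖PZ F T t‖ ^ (2 * J)) (J.factorial * var (nw F) ^ J) := by
    refine ⟨fun T => ((PZ_cont F T).norm).pow _, fun η hη => ?_⟩
    apply momZ h hJ
    linarith
  have h2 := h1.smul (c := (1 / R) ^ (2 * J)) (by positivity)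
  have e1 : (fun (T t : ℝ) => (1 / R) ^ (2 * J) * ‖PZ F T t‖ ^ (2 * J)) =
      fun T t => (‖PZ F T t‖ / R) ^ (2 * J) := by
    funext T t
    rw [← mul_pow]
    congr 1
    ring
  have e2 : (1 / R) ^ (2 * J) * (J.factorial * var (nw F) ^ J) =
      J.factorial * var (nw F) ^ J / R ^ (2 * J) := by
    rw [one_div, inv_pow]
    field_simp
  rwa [e1, e2] at h2

/-! ### the fields -/

/-- the geometric progression of cut-offs -/
noncomputable def aa (a0 D : ℝ) (l : ℕ) : ℝ := a0 / D ^ l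

lemma aa_pos {a0 D : ℝ} (h0 : 0 < a0) (hD : 0 < D) (l : ℕ) : 0 < aa a0 D l := by
  unfold aa; positivity

lemma aa_zero (a0 D : ℝ) : aa a0 D 0 = a0 := by unfold aa; simp

lemma aa_anti {a0 D : ℝ} (h0 : 0 < a0) (hD : 1 ≤ D) {l m : ℕ} (h : l ≤ m) :
    aa a0 D m ≤ aa a0 D l := by
  unfold aa
  exact div_le_div_of_nonneg_left h0.le (by positivity) (pow_le_pow_right₀ hD h)

/-- the weight of the sum of the first `m` bands -/
noncomputable def bp (a0 D : ℝ) (m : ℕ) : ℝ → ℝ := kd (aa a0 D m) (aa a0 D 0)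

/-- the weight of the band `l` -/
noncomputable def bl (a0 D : ℝ) (l : ℕ) : ℝ → ℝ := kd (aa a0 D (l + 1)) (aa a0 D l)

lemma bp_eq (a0 D : ℝ) (m : ℕ) (u : ℝ) : bp a0 D m u = ∑ l ∈ Finset.range m, bl a0 D l u := by
  unfold bp bl kd
  rw [Finset.sum_range_sub (fun l => kp (aa a0 D l) u)]

/-- the field of a weight `p` at the position `c` -/
noncomputable def fW (κ : ℂ) (p : ℝ → ℝ) (c : ℝ) (u : ℝ) : ℂ := κ * ((p u : ℂ) * ee c u)

lemma fW_sum (κ : ℂ) (a0 D : ℝ) (m : ℕ) (c T t : ℝ) :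
    PZ (fW κ (bp a0 D m) c) T t = ∑ l ∈ Finset.range m, PZ (fW κ (bl a0 D l) c) T t := by
  rw [← PZ_sum]
  congr 1
  ext u
  unfold fW
  rw [bp_eq]
  push_cast
  rw [Finset.sum_mul, Finset.mul_sum]

lemma wz_kd (κ : ℂ) {a a' b : ℝ} (ha : 0 < a) (h : a ≤ a') (hb : 2 * a' ≤ b) (hb1 : b ≤ 1 / 2)
    (c : ℝ) : ∃ K, Wz (fW κ (kd a a') c) b K := by
  have ha' : 0 < a' := by linarith
  apply BL.wz _ (by linarith) hb1
  · intro ξ hξ
    unfold fW
    rw [kd_zero2 ha h (hb.trans hξ)]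
    simp
  · exact (BL.const κ).mul ((BL.kd ha ha').mul (BL.ee c))

section

variable {κ : ℂ} {a0 D s : ℝ} {K : ℕ}

lemma wz_bp (h0 : 0 < a0) (hD : 1 ≤ D) (hb1 : 2 * a0 ≤ 1 / 2) (m : ℕ) (c : ℝ) :
    ∃ K, Wz (fW κ (bp a0 D m) c) (2 * a0) K := by
  unfold bp
  apply wz_kd κ (aa_pos h0 (by linarith) m) (aa_anti h0 hD (Nat.zero_le m)) _ hb1 c
  rw [aa_zero]

lemma wz_bl (h0 : 0 < a0) (hD : 1 ≤ D) (hb1 : 2 * a0 ≤ 1 / 2) (l : ℕ) (c : ℝ) :
    ∃ K, Wz (fW κ (bl a0 D l) c) (2 * a0) K := by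
  unfold bl
  apply wz_kd κ (aa_pos h0 (by linarith) _) (aa_anti h0 hD (Nat.le_succ l)) _ hb1 c
  have := aa_anti h0 hD (Nat.zero_le l)
  rw [aa_zero] at this
  linarith

lemma bp_cont (h0 : 0 < a0) (hD : 1 ≤ D) (m : ℕ) : Continuous (bp a0 D m) :=
  kd_cont (aa_pos h0 (by linarith) _) (aa_pos h0 (by linarith) _)

lemma bl_cont (h0 : 0 < a0) (hD : 1 ≤ D) (l : ℕ) : Continuous (bl a0 D l) :=
  kd_cont (aa_pos h0 (by linarith) _) (aa_pos h0 (by linarith) _)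

/-- the weight of `Y + s y` -/
lemma comb_eq (κ : ℂ) (p q : ℝ → ℝ) (c s T t : ℝ) :
    PZ (fW κ p c) T t + s * PZ (fW κ q c) T t = PZ (fW κ (fun u => p u + s * q u) c) T t := by
  rw [← PZ_smul, ← PZ_add]
  congr 1
  ext u
  unfold fW
  push_cast
  ring

lemma scal_eq (κ : ℂ) (p : ℝ → ℝ) (c r T t : ℝ) :
    ((r : ℝ) : ℂ) * PZ (fW κ p c) T t = PZ (fW κ (fun u => r * p u) c) T t := by
  rw [← PZ_smul]
  congr 1
  ext u
  unfold fW
  push_cast
  ring

lemma pair_eq (κ : ℂ) (p q : ℝ → ℝ) (c c' T t : ℝ) :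
    PZ (fW κ p c) T t + PZ (fW κ q c') T t =
      PZ (fun u => κ * ((p u : ℂ) * ee c u + (q u : ℂ) * ee c' u)) T t := by
  rw [← PZ_add]
  congr 1
  ext u
  unfold fW
  ring

lemma BL_bp (h0 : 0 < a0) (hD : 1 ≤ D) (m : ℕ) : BL fun u => (bp a0 D m u : ℂ) :=
  BL.kd (aa_pos h0 (by linarith) _) (aa_pos h0 (by linarith) _)

lemma BL_bl (h0 : 0 < a0) (hD : 1 ≤ D) (l : ℕ) : BL fun u => (bl a0 D l u : ℂ) :=
  BL.kd (aa_pos h0 (by linarith) _) (aa_pos h0 (by linarith) _)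

lemma wz_comb (h0 : 0 < a0) (hD : 1 ≤ D) (hb1 : 2 * a0 ≤ 1 / 2) (m l : ℕ) (c s : ℝ) :
    ∃ K, Wz (fW κ (fun u => bp a0 D m u + s * bl a0 D l u) c) (2 * a0) K := by
  obtain ⟨K1, h1⟩ := wz_bp (κ := κ) h0 hD hb1 m c
  obtain ⟨K2, h2⟩ := wz_bl (κ := κ) h0 hD hb1 l c
  have e : fW κ (fun u => bp a0 D m u + s * bl a0 D l u) c = fun u =>
      κ * (((bp a0 D m u : ℂ) + (s : ℂ) * (bl a0 D l u : ℂ)) * ee c u) := by
    ext u
    unfold fW
    push_cast
    ring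
  apply BL.wz _ (by linarith) hb1
  · intro ξ hξ
    have e1 := h1.zero ξ hξ
    have e2 := h2.zero ξ hξ
    have e3 : fW κ (fun u => bp a0 D m u + s * bl a0 D l u) c ξ =
        fW κ (bp a0 D m) c ξ + s * fW κ (bl a0 D l) c ξ := by
      unfold fW
      push_cast
      ring
    rw [e3, e1, e2]
    ring
  · rw [e]
    exact (BL.const κ).mul (((BL_bp h0 hD m).add ((BL.const (s : ℂ)).mul (BL_bl h0 hD l))).mul
      (BL.ee c))

lemma wz_scal (h0 : 0 < a0) (hD : 1 ≤ D) (hb1 : 2 * a0 ≤ 1 / 2) (m : ℕ) (c r : ℝ) :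
    ∃ K, Wz (fW κ (fun u => r * bp a0 D m u) c) (2 * a0) K := by
  obtain ⟨K1, h1⟩ := wz_bp (κ := κ) h0 hD hb1 m c
  have e : fW κ (fun u => r * bp a0 D m u) c = fun u =>
      κ * (((r : ℂ) * (bp a0 D m u : ℂ)) * ee c u) := by
    ext u
    unfold fW
    push_cast
    ring
  apply BL.wz _ (by linarith) hb1
  · intro ξ hξ
    have e1 := h1.zero ξ hξ
    have e3 : fW κ (fun u => r * bp a0 D m u) c ξ = r * fW κ (bp a0 D m) c ξ := by
      unfold fW
      push_cast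
      ring
    rw [e3, e1]
    ring
  · rw [e]
    exact (BL.const κ).mul (((BL.const (r : ℂ)).mul (BL_bp h0 hD m)).mul (BL.ee c))

lemma wz_pair (h0 : 0 < a0) (hD : 1 ≤ D) (hb1 : 2 * a0 ≤ 1 / 2) (m m' : ℕ) (c c' : ℝ) :
    ∃ K, Wz (fun u => κ * ((bp a0 D m u : ℂ) * ee c u + (bp a0 D m' u : ℂ) * ee c' u)) (2 * a0) K := by
  obtain ⟨K1, h1⟩ := wz_bp (κ := κ) h0 hD hb1 m c
  obtain ⟨K2, h2⟩ := wz_bp (κ := κ) h0 hD hb1 m' c'
  refine ⟨K1 + K2, by linarith, hb1, ?_, ?_⟩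
  · have h3 := h1.lip.add h2.lip
    refine (congrArg (LipschitzWith _) ?_).mp h3
    ext u
    show fW κ (bp a0 D m) c u + fW κ (bp a0 D m') c' u = _
    unfold fW
    ring
  · intro ξ hξ
    have e1 := h1.zero ξ hξ
    have e2 := h2.zero ξ hξ
    have e3 : κ * ((bp a0 D m ξ : ℂ) * ee c ξ + (bp a0 D m' ξ : ℂ) * ee c' ξ) =
        fW κ (bp a0 D m) c ξ + fW κ (bp a0 D m') c' ξ := by
      unfold fW
      ring
    rw [e3, e1, e2]
    ring

end

end Pool.Agent.T9h26.TD
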