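import Pool.Agent.T9h26.TD.Zs

set_option autoImplicit false

/-! The field exceeds a given level somewhere, with large probability: the general estimate. -/

open Complex Filter Topology Set MeasureTheory

namespace Pool.Agent.T9h26.TD

section

variable {κ : ℂ} {a0 D R s τ H : ℝ} {K J : ℕ}

/-- the total of the error terms in the first moment -/
noncomputable def BB (κ : ℂ) (a0 D R s τ H : ℝ) (K J : ℕ) : ℝ :=
  Real.exp (2 * R) * (J.factorial * (‖κ‖ ^ 2 * ipf (bp a0 D K) (bp a0 D K)) ^ J / R ^ (2 * J)) +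
    ∑ l ∈ Finset.range K, (Real.exp (2 * R) *
      (J.factorial * (‖κ‖ ^ 2 * ipf (bl a0 D l) (bl a0 D l)) ^ J / R ^ (2 * J)) +
      2 * Real.exp (-(2 * s * τ)) * Real.exp (‖κ‖ ^ 2 * (ipf (bp a0 D K) (bp a0 D K) +
        2 * s * ipf (bp a0 D K) (bl a0 D l) + s ^ 2 * ipf (bl a0 D l) (bl a0 D l)))) +
    2 * Real.exp (2 * s * H) *
      Real.exp (‖κ‖ ^ 2 * ((1 - s) ^ 2 * ipf (bp a0 D K) (bp a0 D K)))

lemma UM_Bd (h0 : 0 < a0) (hD : 1 ≤ D) (hb1 : 2 * a0 ≤ 1 / 2) (hJ : (J : ℝ) * (2 * a0) < 1)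
    (hR : 0 < R) (c : ℝ) :
    UM (fun T t => Bd K J R s τ H (PZ (fW κ (bp a0 D K) c) T t)
      (fun l => PZ (fW κ (bl a0 D l) c) T t)) (BB κ a0 D R s τ H K J) := by
  unfold Bd BB
  apply UM.add
  · apply UM.add
    · apply UM.smul _ (Real.exp_pos _).le
      obtain ⟨K1, h1⟩ := wz_bp (κ := κ) h0 hD hb1 K c
      have := UM_pow h1 hJ hR
      have e := var_one (bp_cont h0 hD K) κ c
      unfold fW at this ⊢
      rwa [e] at this
    · apply UM.sum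
      intro l _
      apply UM.add
      · apply UM.smul _ (Real.exp_pos _).le
        obtain ⟨K1, h1⟩ := wz_bl (κ := κ) h0 hD hb1 l c
        have := UM_pow h1 hJ hR
        have e := var_one (bl_cont h0 hD l) κ c
        unfold fW at this ⊢
        rwa [e] at this
      · apply UM.smul _ (by positivity)
        obtain ⟨K1, h1⟩ := wz_comb (κ := κ) h0 hD hb1 K l c s
        have h2 := UM_EJ h1 hJ
        have e := var_one (p := fun u => bp a0 D K u + s * bl a0 D l u)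
          ((bp_cont h0 hD K).add (continuous_const.mul (bl_cont h0 hD l))) κ c
        rw [ipf_comb (bp_cont h0 hD K) (bl_cont h0 hD l)] at e
        have e2 : var (nw (fW κ (fun u => bp a0 D K u + s * bl a0 D l u) c)) =
            var (nw fun u => κ * (((bp a0 D K u + s * bl a0 D l u : ℝ) : ℂ) * ee c u)) := rfl
        rw [e2, e] at h2
        simp_rw [comb_eq]
        exact h2
  · apply UM.smul _ (by positivity)
    obtain ⟨K1, h1⟩ := wz_scal (κ := κ) h0 hD hb1 K c (1 - s)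
    have h2 := UM_EJ h1 hJ
    have e := var_one (p := fun u => (1 - s) * bp a0 D K u)
      (continuous_const.mul (bp_cont h0 hD K)) κ c
    have e2 : var (nw (fW κ (fun u => (1 - s) * bp a0 D K u) c)) =
        var (nw fun u => κ * ((((1 - s) * bp a0 D K u : ℝ) : ℂ) * ee c u)) := rfl
    have e3 : ipf (fun u => (1 - s) * bp a0 D K u) (fun u => (1 - s) * bp a0 D K u) =
        (1 - s) ^ 2 * ipf (bp a0 D K) (bp a0 D K) := by
      unfold ipf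
      rw [← intervalIntegral.integral_const_mul]
      apply intervalIntegral.integral_congr
      intro u _
      simp only
      ring
    rw [e2, e, e3] at h2
    simp_rw [scal_eq]
    exact h2

lemma LM_low (h0 : 0 < a0) (hD : 1 ≤ D) (hb1 : 2 * a0 ≤ 1 / 2) (hJ : (J : ℝ) * (2 * a0) < 1)
    (hR : 0 < R) (hA : 0 < ‖κ‖ ^ 2 * ipf (bp a0 D K) (bp a0 D K)) {r : ℝ} (hr : 0 ≤ r) (c : ℝ) :
    LM (fun T t => r * (‖EJ (PZ (fW κ (bp a0 D K) c) T t) J‖ ^ 2 -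
      Bd K J R s τ H (PZ (fW κ (bp a0 D K) c) T t) (fun l => PZ (fW κ (bl a0 D l) c) T t)))
      (r * (SJ (‖κ‖ ^ 2 * ipf (bp a0 D K) (bp a0 D K)) J - BB κ a0 D R s τ H K J)) := by
  apply LM.smul _ hr
  apply LM.sub _ (UM_Bd h0 hD hb1 hJ hR c)
  obtain ⟨K1, h1⟩ := wz_bp (κ := κ) h0 hD hb1 K c
  have e := var_one (bp_cont h0 hD K) κ c
  have e2 : var (nw (fW κ (bp a0 D K) c)) = ‖κ‖ ^ 2 * ipf (bp a0 D K) (bp a0 D K) := e
  have h2 := LM_EJ h1 hJ (by rw [e2]; exact hA)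
  rwa [e2] at h2

/-- the exponent of the pair -/
noncomputable def VV (κ : ℂ) (a0 D : ℝ) (K m : ℕ) (h : ℝ) : ℝ :=
  ‖κ‖ ^ 2 * (ipf (bp a0 D K) (bp a0 D K) + ipf (bp a0 D m) (bp a0 D m) +
    2 * ∫ u in (0 : ℝ)..1, u * (bp a0 D K u * bp a0 D m u) * Real.cos (2 * Real.pi * h * u))

lemma UM_pair (h0 : 0 < a0) (hD : 1 ≤ D) (hb1 : 2 * a0 ≤ 1 / 2) (hJ : (J : ℝ) * (2 * a0) < 1)
    {r : ℝ} (hr : 0 ≤ r) (m : ℕ) (c c' : ℝ) :
    UM (fun T t => r * ‖EJ (PZ (fW κ (bp a0 D K) c) T t +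
      ∑ l ∈ Finset.range m, PZ (fW κ (bl a0 D l) c') T t) J‖ ^ 2)
      (r * Real.exp (VV κ a0 D K m (c - c'))) := by
  apply UM.smul _ hr
  simp_rw [← fW_sum, pair_eq]
  obtain ⟨K1, h1⟩ := wz_pair (κ := κ) h0 hD hb1 K m c c'
  have h2 := UM_EJ h1 hJ
  rwa [var_two (bp_cont h0 hD K) (bp_cont h0 hD m) κ c c'] at h2

/-- **the second moment method for the field** -/
theorem sec (h0 : 0 < a0) (hD : 1 ≤ D) (hb1 : 2 * a0 ≤ 1 / 2) (hJ : (J : ℝ) * (2 * a0) < 1)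
    (hR : 0 < R) (hA : 0 < ‖κ‖ ^ 2 * ipf (bp a0 D K) (bp a0 D K)) (hs : 0 < s) (hs1 : s ≤ 1)
    (hJ1 : 40 * ((K + 1) * R) ≤ J) (hd : (3 / 5 : ℝ) ^ J ≤ 1 / 10) (M : ℕ) (mm : ℕ → ℕ → ℕ)
    (hmm : ∀ c c', mm c c' ≤ K) {m0 Q : ℝ} (hm0 : 0 < m0)
    (hlow : m0 ≤ ((1 + (3 / 5 : ℝ) ^ J) ^ 2)⁻¹ *
      (SJ (‖κ‖ ^ 2 * ipf (bp a0 D K) (bp a0 D K)) J - BB κ a0 D R s τ H K J))
    (hQ : ∑ c ∈ Finset.range (M + 1), ∑ c' ∈ Finset.range (M + 1),
      (1 - (3 / 5 : ℝ) ^ J)⁻¹ ^ 2 * Real.exp (2 * τ * (K - mm c c')) *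
        Real.exp (VV κ a0 D K (mm c c') ((c : ℝ) - c')) ≤ Q) {η : ℝ} (hη : 0 < η) :
    ∀ᶠ T : ℝ in atTop, ms T {t | ∀ c ≤ M, (PZ (fW κ (bp a0 D K) c) T t).re < H} ≤
      (Q / ((M + 1) * m0) ^ 2 - 1 + η) * T := by
  set d : ℝ := (3 / 5) ^ J with hdd
  have hd0 : 0 < d := by positivity
  set μ := ((M : ℝ) + 1) * m0 with hμ
  have hμ0 : 0 < μ := by positivity
  set S := Finset.range (M + 1) with hS
  set r := ((1 + d) ^ 2)⁻¹ with hr
  have hr0 : 0 ≤ r := by positivity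
  have hR1 : 40 * R ≤ J := by
    refine le_trans ?_ hJ1
    have : (1 : ℝ) * R ≤ (K + 1) * R := by
      apply mul_le_mul_of_nonneg_right _ hR.le
      have : (0 : ℝ) ≤ K := Nat.cast_nonneg K
      linarith
    linarith
  have hR2 : 20 * ((K + 1) * R) ≤ J := by
    have : 0 ≤ ((K : ℝ) + 1) * R := by positivity
    linarith
  -- means
  have hL : LM (fun T t => ∑ c ∈ S, r * (‖EJ (PZ (fW κ (bp a0 D K) c) T t) J‖ ^ 2 -
      Bd K J R s τ H (PZ (fW κ (bp a0 D K) c) T t) (fun l => PZ (fW κ (bl a0 D l) c) T t)))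
      (∑ _c ∈ S, m0) := by
    apply LM.sum
    intro c _
    exact (LM_low h0 hD hb1 hJ hR hA hr0 (c : ℝ)).mono hlow
  have hU : UM (fun T t => ∑ c ∈ S, ∑ c' ∈ S, ((1 - d)⁻¹ ^ 2 * Real.exp (2 * τ * (K - mm c c'))) *
      ‖EJ (PZ (fW κ (bp a0 D K) c) T t +
      ∑ l ∈ Finset.range (mm c c'), PZ (fW κ (bl a0 D l) c') T t) J‖ ^ 2) Q := by
    refine UM.mono ?_ hQ
    apply UM.sum
    intro c _
    apply UM.sum
    intro c' _
    exact UM_pair h0 hD hb1 hJ (by positivity) _ _ _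
  have hsumm : ∑ _c ∈ S, m0 = μ := by
    rw [Finset.sum_const, hS, Finset.card_range, nsmul_eq_mul, hμ]
    push_cast
    ring
  rw [hsumm] at hL
  set η' := η * μ ^ 2 / (1 + 2 * μ) with hη'
  have hη0 : 0 < η' := by positivity
  filter_upwards [hL.2 η' hη0, hU.2 η' hη0, eventually_gt_atTop 0] with T h1 h2 hT
  have key := pz hT.le S (fun c t => Gf K R τ H (PZ (fW κ (bp a0 D K) c) T t)
      (fun l => PZ (fW κ (bl a0 D l) c) T t))
    (fun c t => r * (‖EJ (PZ (fW κ (bp a0 D K) c) T t) J‖ ^ 2 -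
      Bd K J R s τ H (PZ (fW κ (bp a0 D K) c) T t) (fun l => PZ (fW κ (bl a0 D l) c) T t)))
    (fun c c' t => ((1 - d)⁻¹ ^ 2 * Real.exp (2 * τ * (K - mm c c'))) *
      ‖EJ (PZ (fW κ (bp a0 D K) c) T t +
      ∑ l ∈ Finset.range (mm c c'), PZ (fW κ (bl a0 D l) c') T t) J‖ ^ 2)
    (fun c _ => (LM_low h0 hD hb1 hJ hR hA hr0 (c : ℝ)).1 T)
    (fun c _ c' _ => (UM_pair h0 hD hb1 hJ (by positivity) _ _ _).1 T)
    (fun c _ t => by
      have h3 := pt_lower (K := K) (H := H) (τ := τ) hR hs hs1 hR1 hd (PZ (fW κ (bp a0 D K) c) T t)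
        (fun l => PZ (fW κ (bl a0 D l) c) T t)
      rw [← hdd] at h3
      rw [hr, inv_mul_le_iff₀ (by positivity)]
      exact h3)
    (fun c _ c' _ t => by
      have h3 := pt_pair (H := H) (τ := τ) (hmm c c') hR2 hd (PZ (fW κ (bp a0 D K) c) T t)
        (PZ (fW κ (bp a0 D K) c') T t) (fun l => PZ (fW κ (bl a0 D l) c) T t)
        (fun l => PZ (fW κ (bl a0 D l) c') T t) (fW_sum κ a0 D K c' T t)
      rwa [← hdd] at h3) hμ0
  have hsub : ms T {t | ∀ c ≤ M, (PZ (fW κ (bp a0 D K) c) T t).re < H} ≤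
      ms T {t | ∀ c ∈ S, Gf K R τ H (PZ (fW κ (bp a0 D K) c) T t)
      (fun l => PZ (fW κ (bl a0 D l) c) T t) = 0} := by
    apply ms_mono
    intro t _ _ ht c hc
    rw [hS, Finset.mem_range] at hc
    exact Gf_zero (not_le.2 (ht c (by omega)))
  have i1 : ∫ t in T..(2 * T), ∑ c ∈ S, ∑ c' ∈ S,
      ((1 - d)⁻¹ ^ 2 * Real.exp (2 * τ * (K - mm c c'))) *
      ‖EJ (PZ (fW κ (bp a0 D K) c) T t +
      ∑ l ∈ Finset.range (mm c c'), PZ (fW κ (bl a0 D l) c') T t) J‖ ^ 2 =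
      ∑ c ∈ S, ∑ c' ∈ S, ∫ t in T..(2 * T), ((1 - d)⁻¹ ^ 2 * Real.exp (2 * τ * (K - mm c c'))) *
      ‖EJ (PZ (fW κ (bp a0 D K) c) T t +
      ∑ l ∈ Finset.range (mm c c'), PZ (fW κ (bl a0 D l) c') T t) J‖ ^ 2 := by
    rw [intervalIntegral.integral_finsetSum]
    · apply Finset.sum_congr rfl
      intro c _
      rw [intervalIntegral.integral_finsetSum]
      intro c' _
      exact ((UM_pair h0 hD hb1 hJ (by positivity) _ _ _).1 T).intervalIntegrable _ _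
    · intro c _
      exact (continuous_finsetSum _ fun c' _ =>
        (UM_pair h0 hD hb1 hJ (by positivity) _ _ _).1 T).intervalIntegrable _ _
  have i2 : ∫ t in T..(2 * T), ∑ c ∈ S, r * (‖EJ (PZ (fW κ (bp a0 D K) c) T t) J‖ ^ 2 -
      Bd K J R s τ H (PZ (fW κ (bp a0 D K) c) T t) (fun l => PZ (fW κ (bl a0 D l) c) T t)) =
      ∑ c ∈ S, ∫ t in T..(2 * T), r * (‖EJ (PZ (fW κ (bp a0 D K) c) T t) J‖ ^ 2 -
      Bd K J R s τ H (PZ (fW κ (bp a0 D K) c) T t) (fun l => PZ (fW κ (bl a0 D l) c) T t)) := by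
    rw [intervalIntegral.integral_finsetSum]
    intro c _
    exact ((LM_low h0 hD hb1 hJ hR hA hr0 (c : ℝ)).1 T).intervalIntegrable _ _
  rw [i1] at h2
  rw [i2] at h1
  have h4 := mul_le_mul_of_nonneg_left hsub (by positivity : 0 ≤ μ ^ 2)
  have h5 : 2 * μ * ((μ - η') * T) ≤ 2 * μ * ∑ c ∈ S, ∫ t in T..(2 * T),
      r * (‖EJ (PZ (fW κ (bp a0 D K) c) T t) J‖ ^ 2 -
      Bd K J R s τ H (PZ (fW κ (bp a0 D K) c) T t) (fun l => PZ (fW κ (bl a0 D l) c) T t)) :=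
    mul_le_mul_of_nonneg_left h1 (by positivity)
  have h6 : μ ^ 2 * ms T {t | ∀ c ≤ M, (PZ (fW κ (bp a0 D K) c) T t).re < H} ≤
      (Q + η') * T - 2 * μ * ((μ - η') * T) + μ ^ 2 * T := by
    refine h4.trans (key.trans ?_)
    linarith
  have h7 : (Q + η') * T - 2 * μ * ((μ - η') * T) + μ ^ 2 * T =
      μ ^ 2 * ((Q / μ ^ 2 - 1 + η) * T) := by
    have h8 : η' * (1 + 2 * μ) = η * μ ^ 2 := by
      rw [hη']
      field_simp
    have h9 : μ ^ 2 * ((Q / μ ^ 2 - 1 + η) * T) = (Q - μ ^ 2 + η * μ ^ 2) * T := by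
      field_simp
    rw [h9, ← h8]
    ring
  rw [h7] at h6
  exact le_of_mul_le_mul_left h6 (by positivity)

end

end Pool.Agent.T9h26.TD
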