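import Pool.Agent.T9h26.TD.Zu

set_option autoImplicit false

/-! The field exceeds the level `(1 - ε) λ` somewhere, with large probability. -/

open Complex Filter Topology Set MeasureTheory

namespace Pool.Agent.T9h26.TD

lemma log2_bd : Real.log 2 ≤ 0.7 := by
  have := Real.log_two_lt_d9
  linarith

/-- the bound for the error terms in the first moment -/
lemma BB_le {ε : ℝ} (hε : 0 < ε) (hε1 : ε ≤ 1 / 10) {K : ℕ} (hK : 1 ≤ K) {ℓ : ℝ}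
    (hℓ : (K : ℝ) + 4 ≤ ℓ) {κ : ℂ} {Λ : ℝ} (hκ : ‖κ‖ ^ 2 = Λ) (hΛ : 0 < Λ) (hΛ1 : Λ ≤ 1)
    {A : ℝ} (hA : ipf (bp (ap K ℓ) (Dp K ℓ) K) (bp (ap K ℓ) (Dp K ℓ) K) = A) (hA0 : 0 ≤ A)
    (hA1 : A ≤ 2 * ℓ) :
    BB κ (ap K ℓ) (Dp K ℓ) (Rp K ℓ) ε ((1 + 2 * ε) * Λ * Real.log (Dp K ℓ)) ((1 - ε) * (Λ * A))
      K (Jp K ℓ) ≤ Real.exp (Λ * A) * ((K + 1) * Real.exp (-ℓ) +
        2 * K * (Real.exp 1 * Real.exp (-(3 * ε ^ 2 * Λ / (K + 4) * ℓ))) +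
        2 * Real.exp (-(ε ^ 2 * (Λ * A)))) := by
  have hK0 : (1 : ℝ) ≤ K := by exact_mod_cast hK
  have hℓ1 : 1 ≤ ℓ := by linarith
  obtain ⟨hJ1, hJ2, hJ3, hJ4⟩ := Jp_ge (K := K) hℓ1
  set J := Jp K ℓ with hJ
  set D := Dp K ℓ with hDdef
  set a0 := ap K ℓ with ha0def
  have hlD : Real.log D = ℓ / (K + 4) := by
    rw [hDdef]
    unfold Dp
    rw [Real.log_exp]
  have hlD1 : 1 ≤ Real.log D := by
    rw [hlD, one_le_div (by positivity)]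
    exact hℓ
  have hD0 : 0 < D := Real.exp_pos _
  have hD2 : 2 ≤ D := by
    have h1 : Real.exp 1 ≤ D := by
      rw [hDdef]
      unfold Dp
      apply Real.exp_le_exp.2
      rw [one_le_div (by positivity)]
      exact hℓ
    have := Real.exp_one_gt_d9
    linarith
  have hD1 : 1 ≤ D := by linarith
  have hJ0 : (0 : ℝ) < J := by linarith
  have ha0 : 0 < a0 := by
    rw [ha0def]; unfold ap; rw [← hJ]; positivity
  have ha1 : 2 * a0 ≤ 1 / 2 := by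
    rw [ha0def]; unfold ap
    rw [← hJ, mul_one_div, div_le_div_iff₀ (by positivity) (by norm_num)]
    linarith
  have hl2 := log2_bd
  have hl20 : 0 ≤ Real.log 2 := Real.log_nonneg (by norm_num)
  have hE : Real.exp (-(J : ℝ)) ≤ Real.exp (-ℓ) := Real.exp_le_exp.2 (by linarith)
  have hEA : 1 ≤ Real.exp (Λ * A) := Real.one_le_exp (mul_nonneg hΛ.le hA0)
  -- inner products with the bands
  have hband : ∀ l : ℕ, 0 ≤ ipf (bl a0 D l) (bl a0 D l) ∧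
      ipf (bl a0 D l) (bl a0 D l) ≤ Real.log D + Real.log 2 := by
    intro l
    have h1 := ip_le (aa_pos ha0 hD0 (l + 1)) (aa_anti ha0 hD1 (Nat.le_succ l))
      (aa_pos ha0 hD0 (l + 1)) (aa_anti ha0 hD1 (Nat.le_succ l)) (by
        have := aa_anti ha0 hD1 (Nat.zero_le l)
        rw [aa_zero] at this
        linarith)
    have h2 : 2 * aa a0 D l / aa a0 D (l + 1) = D * 2 := by
      unfold aa
      field_simp
      ring
    rw [h2, Real.log_mul hD0.ne' (by norm_num)] at h1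
    exact ⟨ip_nonneg (aa_pos ha0 hD0 (l + 1)) (aa_anti ha0 hD1 (Nat.le_succ l))
      (aa_pos ha0 hD0 (l + 1)) (aa_anti ha0 hD1 (Nat.le_succ l)), h1⟩
  have hcross : ∀ l ∈ Finset.range K, ipf (bp a0 D K) (bl a0 D l) ≤ Real.log D + Real.log 2 := by
    intro l _
    have h1 := ip_le (aa_pos ha0 hD0 K) (aa_anti ha0 hD1 (Nat.zero_le K))
      (aa_pos ha0 hD0 (l + 1)) (aa_anti ha0 hD1 (Nat.le_succ l)) (by
        have := aa_anti ha0 hD1 (Nat.zero_le l)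
        rw [aa_zero] at this
        linarith)
    have h2 : 2 * aa a0 D l / aa a0 D (l + 1) = D * 2 := by
      unfold aa
      field_simp
      ring
    rw [h2, Real.log_mul hD0.ne' (by norm_num)] at h1
    exact h1
  have hlDℓ : Real.log D ≤ ℓ := by
    rw [hlD, div_le_iff₀ (by positivity)]
    nlinarith
  unfold BB
  rw [hκ, hA]
  have t1 : Real.exp (2 * Rp K ℓ) * (J.factorial * (Λ * A) ^ J / Rp K ℓ ^ (2 * J)) ≤
      Real.exp (Λ * A) * Real.exp (-ℓ) := by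
    have h1 := x2 (K := K) hℓ1 (v := Λ * A) (mul_nonneg hΛ.le hA0) (by
      calc Λ * A ≤ 1 * A := mul_le_mul_of_nonneg_right hΛ1 hA0
        _ ≤ 2 * ℓ := by linarith)
    rw [← hJ] at h1
    have h3 : 1 * Real.exp (-ℓ) ≤ Real.exp (Λ * A) * Real.exp (-ℓ) := by gcongr
    linarith
  have t2 : ∀ l ∈ Finset.range K, Real.exp (2 * Rp K ℓ) *
      (J.factorial * (Λ * ipf (bl a0 D l) (bl a0 D l)) ^ J / Rp K ℓ ^ (2 * J)) +
      2 * Real.exp (-(2 * ε * ((1 + 2 * ε) * Λ * Real.log D))) * Real.exp (Λ * (A +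
        2 * ε * ipf (bp a0 D K) (bl a0 D l) + ε ^ 2 * ipf (bl a0 D l) (bl a0 D l))) ≤
      Real.exp (Λ * A) * (Real.exp (-ℓ) +
        2 * (Real.exp 1 * Real.exp (-(3 * ε ^ 2 * Λ / (K + 4) * ℓ)))) := by
    intro l hl
    obtain ⟨b0, b1⟩ := hband l
    have h1 := x2 (K := K) hℓ1 (v := Λ * ipf (bl a0 D l) (bl a0 D l)) (mul_nonneg hΛ.le b0) (by
      calc Λ * ipf (bl a0 D l) (bl a0 D l) ≤ 1 * ipf (bl a0 D l) (bl a0 D l) :=
            mul_le_mul_of_nonneg_right hΛ1 b0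
        _ ≤ 2 * ℓ := by linarith)
    rw [← hJ] at h1
    have h3 : 1 * Real.exp (-ℓ) ≤ Real.exp (Λ * A) * Real.exp (-ℓ) := by gcongr
    have h4 : Real.exp (-(2 * ε * ((1 + 2 * ε) * Λ * Real.log D))) * Real.exp (Λ * (A +
        2 * ε * ipf (bp a0 D K) (bl a0 D l) + ε ^ 2 * ipf (bl a0 D l) (bl a0 D l))) ≤
        Real.exp (Λ * A) * (Real.exp 1 * Real.exp (-(3 * ε ^ 2 * Λ / (K + 4) * ℓ))) := by
      rw [← Real.exp_add, ← Real.exp_add, ← Real.exp_add]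
      apply Real.exp_le_exp.2
      have h5 : 2 * ε * ipf (bp a0 D K) (bl a0 D l) + ε ^ 2 * ipf (bl a0 D l) (bl a0 D l) ≤
          (2 * ε + ε ^ 2) * (Real.log D + Real.log 2) := by
        have c1 := mul_le_mul_of_nonneg_left (hcross l hl) (by positivity : 0 ≤ 2 * ε)
        have c2 := mul_le_mul_of_nonneg_left b1 (by positivity : 0 ≤ ε ^ 2)
        linarith
      have h6 := mul_le_mul_of_nonneg_left h5 hΛ.le
      have h7 : Λ * ((2 * ε + ε ^ 2) * Real.log 2) ≤ 1 := by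
        have c1 : (2 * ε + ε ^ 2) * Real.log 2 ≤ 1 := by nlinarith
        have c2 : 0 ≤ (2 * ε + ε ^ 2) * Real.log 2 := by positivity
        nlinarith
      have h8 : 3 * ε ^ 2 * Λ / (K + 4) * ℓ = 3 * ε ^ 2 * Λ * Real.log D := by
        rw [hlD]
        ring
      rw [h8]
      nlinarith
    linarith
  have t3 : Real.exp (2 * ε * ((1 - ε) * (Λ * A))) * Real.exp (Λ * ((1 - ε) ^ 2 * A)) =
      Real.exp (Λ * A) * Real.exp (-(ε ^ 2 * (Λ * A))) := by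
    rw [← Real.exp_add, ← Real.exp_add]
    congr 1
    ring
  have t2' := Finset.sum_le_sum t2
  rw [Finset.sum_const (b := Real.exp (Λ * A) * (Real.exp (-ℓ) +
        2 * (Real.exp 1 * Real.exp (-(3 * ε ^ 2 * Λ / (K + 4) * ℓ))))), Finset.card_range,
    nsmul_eq_mul] at t2'
  have e1 : 2 * Real.exp (2 * ε * ((1 - ε) * (Λ * A))) * Real.exp (Λ * ((1 - ε) ^ 2 * A)) =
      2 * (Real.exp (Λ * A) * Real.exp (-(ε ^ 2 * (Λ * A)))) := by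
    rw [mul_assoc, t3]
  rw [e1]
  linarith

lemma exp_small {x : ℝ} (h0 : 0 ≤ x) (h1 : x ≤ 1 / 2) : Real.exp x ≤ 1 + 2 * x := by
  have h4 := Real.exp_bound_div_one_sub_of_interval h0 (by linarith)
  refine h4.trans ?_
  rw [div_le_iff₀ (by linarith)]
  nlinarith

lemma inv_small {d : ℝ} (hd0 : 0 < d) (hd : d ≤ 1 / 10) : (1 - d)⁻¹ ^ 2 ≤ 1 + 3 * d := by
  have h0 : 0 < 1 - d := by linarith
  rw [inv_pow, ← one_div, div_le_iff₀ (by positivity)]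
  nlinarith [mul_pos hd0 hd0, mul_pos hd0 (mul_pos hd0 hd0)]

/-- basic facts on the parameters -/
structure PO (K : ℕ) (ℓ : ℝ) : Prop where
  D2 : 2 ≤ Dp K ℓ
  lD : Real.log (Dp K ℓ) = ℓ / (K + 4)
  a0 : 0 < ap K ℓ
  a1 : 2 * ap K ℓ ≤ 1 / 2
  Ja : (Jp K ℓ : ℝ) * (2 * ap K ℓ) < 1
  R0 : 0 < Rp K ℓ
  JR : 40 * (((K : ℝ) + 1) * Rp K ℓ) ≤ Jp K ℓ
  Alo : K / (K + 4) * ℓ - Real.log 2 ≤ ipf (bp (ap K ℓ) (Dp K ℓ) K) (bp (ap K ℓ) (Dp K ℓ) K)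
  Aup : ipf (bp (ap K ℓ) (Dp K ℓ) K) (bp (ap K ℓ) (Dp K ℓ) K) ≤ K / (K + 4) * ℓ + Real.log 2
  A0 : 0 < ipf (bp (ap K ℓ) (Dp K ℓ) K) (bp (ap K ℓ) (Dp K ℓ) K)
  A2 : ipf (bp (ap K ℓ) (Dp K ℓ) K) (bp (ap K ℓ) (Dp K ℓ) K) ≤ 2 * ℓ

lemma po {K : ℕ} (hK : 1 ≤ K) {ℓ : ℝ} (hℓ : (K : ℝ) + 4 ≤ ℓ) : PO K ℓ := by
  have hK0 : (1 : ℝ) ≤ K := by exact_mod_cast hK
  have hℓ1 : 1 ≤ ℓ := by linarith
  obtain ⟨hJ1, hJ2, hJ3, hJ4⟩ := Jp_ge (K := K) hℓ1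
  have hJ0 : (0 : ℝ) < Jp K ℓ := by linarith
  have hlD : Real.log (Dp K ℓ) = ℓ / (K + 4) := by
    unfold Dp
    rw [Real.log_exp]
  have hD0 : 0 < Dp K ℓ := Real.exp_pos _
  have hD2 : 2 ≤ Dp K ℓ := by
    have h1 : Real.exp 1 ≤ Dp K ℓ := by
      unfold Dp
      apply Real.exp_le_exp.2
      rw [one_le_div (by positivity)]
      exact hℓ
    have := Real.exp_one_gt_d9
    linarith
  have hD1 : 1 ≤ Dp K ℓ := by linarith
  have ha0 : 0 < ap K ℓ := by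
    unfold ap; positivity
  have ha1 : 2 * ap K ℓ ≤ 1 / 2 := by
    unfold ap
    rw [mul_one_div, div_le_div_iff₀ (by positivity) (by norm_num)]
    linarith
  have hJa : (Jp K ℓ : ℝ) * (2 * ap K ℓ) < 1 := by
    have : (Jp K ℓ : ℝ) * (2 * ap K ℓ) = 1 / 2 := by
      unfold ap
      field_simp
      norm_num
    rw [this]
    norm_num
  have hR : 0 < Rp K ℓ := by
    unfold Rp; positivity
  have hJR : 40 * (((K : ℝ) + 1) * Rp K ℓ) ≤ Jp K ℓ := by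
    apply le_of_eq
    unfold Rp
    field_simp
  have hl2 := log2_bd
  have hl20 : 0 ≤ Real.log 2 := Real.log_nonneg (by norm_num)
  have hKD : (K : ℝ) * Real.log (Dp K ℓ) = K / (K + 4) * ℓ := by rw [hlD]; ring
  generalize hD : Dp K ℓ = D at *
  generalize ha : ap K ℓ = a0 at *
  have haK : aa a0 D K = a0 / D ^ K := rfl
  have hAlo : K / (K + 4) * ℓ - Real.log 2 ≤ ipf (bp a0 D K) (bp a0 D K) := by
    have h1 : 2 * aa a0 D K ≤ aa a0 D 0 := by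
      rw [aa_zero, haK, ← mul_div_assoc, div_le_iff₀ (by positivity)]
      have h2 : D ^ 1 ≤ D ^ K := pow_le_pow_right₀ hD1 hK
      rw [pow_one] at h2
      nlinarith
    have h2 := ip_ge (aa_pos ha0 hD0 K) h1 (by rw [aa_zero]; linarith)
    have h3 : Real.log (aa a0 D 0 / (2 * aa a0 D K)) = K * Real.log D - Real.log 2 := by
      rw [aa_zero, haK]
      have : a0 / (2 * (a0 / D ^ K)) = D ^ K / 2 := by field_simp
      rw [this, Real.log_div (by positivity) (by norm_num), Real.log_pow]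
    rw [h3, hKD] at h2
    exact h2
  have hAup : ipf (bp a0 D K) (bp a0 D K) ≤ K / (K + 4) * ℓ + Real.log 2 := by
    have h2 := ip_le (aa_pos ha0 hD0 K) (aa_anti ha0 hD1 (Nat.zero_le K)) (aa_pos ha0 hD0 K)
      (aa_anti ha0 hD1 (Nat.zero_le K)) (by rw [aa_zero]; linarith)
    have h3 : Real.log (2 * aa a0 D 0 / aa a0 D K) = K * Real.log D + Real.log 2 := by
      rw [aa_zero]
      unfold aa
      have : 2 * a0 / (a0 / D ^ K) = D ^ K * 2 := by field_simp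
      rw [this, Real.log_mul (by positivity) (by norm_num), Real.log_pow]
    rw [h3, hKD] at h2
    exact h2
  have hKl1 : 1 ≤ (K : ℝ) / (K + 4) * ℓ := by
    rw [div_mul_eq_mul_div, one_le_div (by positivity)]
    nlinarith
  have hKl2 : (K : ℝ) / (K + 4) * ℓ ≤ ℓ := by
    rw [div_mul_eq_mul_div, div_le_iff₀ (by positivity)]
    nlinarith
  refine ⟨hD ▸ hD2, hD ▸ hlD, ha ▸ ha0, ha ▸ ha1, ha ▸ hJa, hR, hJR, ?_, ?_, ?_, ?_⟩
  · rw [hD, ha]; exact hAlo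
  · rw [hD, ha]; exact hAup
  · rw [hD, ha]; linarith
  · rw [hD, ha]; linarith

/-- the first moment -/
lemma first {ε : ℝ} (hε : 0 < ε) (hε1 : ε ≤ 1 / 10) {K : ℕ} (hK : 1 ≤ K) {ℓ : ℝ}
    (hℓ : (K : ℝ) + 4 ≤ ℓ) {κ : ℂ} {Λ : ℝ} (hκ : ‖κ‖ ^ 2 = Λ) (hΛ : 0 < Λ) (hΛ1 : Λ ≤ 1)
    {A : ℝ} (hA : ipf (bp (ap K ℓ) (Dp K ℓ) K) (bp (ap K ℓ) (Dp K ℓ) K) = A)
    (E1 : Real.exp (-(1 / 2 * ℓ)) ≤ ε / 40) (E2 : (K + 1) * Real.exp (-ℓ) ≤ ε / 40)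
    (E3 : (2 * K * Real.exp 1) * Real.exp (-(3 * ε ^ 2 * Λ / ((K : ℝ) + 4) * ℓ)) ≤ ε / 40)
    (E4 : (2 * Real.exp 1) * Real.exp (-(ε ^ 2 * Λ * (K / ((K : ℝ) + 4)) * ℓ)) ≤ ε / 40) :
    (1 - ε / 2) * Real.exp (Λ * A) ≤ ((1 + (3 / 5 : ℝ) ^ (Jp K ℓ)) ^ 2)⁻¹ *
      (SJ (Λ * A) (Jp K ℓ) - BB κ (ap K ℓ) (Dp K ℓ) (Rp K ℓ) ε
        ((1 + 2 * ε) * Λ * Real.log (Dp K ℓ)) ((1 - ε) * (Λ * A)) K (Jp K ℓ)) := by
  have hpo := po hK hℓ
  have hK0 : (1 : ℝ) ≤ K := by exact_mod_cast hK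
  have hℓ1 : 1 ≤ ℓ := by linarith
  obtain ⟨hJ1, hJ2, hJ3, hJ4⟩ := Jp_ge (K := K) hℓ1
  have hA0 : 0 < A := hA ▸ hpo.A0
  have hA2 : A ≤ 2 * ℓ := hA ▸ hpo.A2
  have hAlo := hpo.Alo
  rw [hA] at hAlo
  have hBB := BB_le hε hε1 hK hℓ hκ hΛ hΛ1 hA hA0.le hA2
  have hl2 := log2_bd
  have hl20 : 0 ≤ Real.log 2 := Real.log_nonneg (by norm_num)
  set lam := Λ * A with hlam
  have hlam0 : 0 < lam := by positivity
  have hlam2 : lam ≤ 2 * ℓ := by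
    calc lam ≤ 1 * A := mul_le_mul_of_nonneg_right hΛ1 hA0.le
      _ ≤ 2 * ℓ := by linarith
  have hlamlo : Λ * (K / (K + 4) * ℓ - 1) ≤ lam := by
    apply mul_le_mul_of_nonneg_left _ hΛ.le
    linarith
  have hex := Real.exp_pos lam
  have hBB2 : BB κ (ap K ℓ) (Dp K ℓ) (Rp K ℓ) ε
        ((1 + 2 * ε) * Λ * Real.log (Dp K ℓ)) ((1 - ε) * lam) K (Jp K ℓ) ≤
      Real.exp lam * (3 * ε / 40) := by
    refine hBB.trans ?_
    apply mul_le_mul_of_nonneg_left _ hex.le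
    have h1 : Real.exp (-(ε ^ 2 * lam)) ≤ Real.exp 1 *
        Real.exp (-(ε ^ 2 * Λ * (K / ((K : ℝ) + 4)) * ℓ)) := by
      rw [← Real.exp_add]
      apply Real.exp_le_exp.2
      have h2 := mul_le_mul_of_nonneg_left hlamlo (by positivity : 0 ≤ ε ^ 2)
      have h3 : ε ^ 2 * Λ ≤ 1 := by
        have : ε ^ 2 ≤ 1 := by nlinarith
        nlinarith
      linarith
    linarith
  generalize BB κ (ap K ℓ) (Dp K ℓ) (Rp K ℓ) ε
        ((1 + 2 * ε) * Λ * Real.log (Dp K ℓ)) ((1 - ε) * lam) K (Jp K ℓ) = B at *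
  generalize hJ : Jp K ℓ = J at *
  have hd0 : 0 < (3 / 5 : ℝ) ^ J := by positivity
  have hd1 : (3 / 5 : ℝ) ^ J ≤ ε / 40 := by
    have h1 := three_fifths J
    refine h1.trans (le_trans ?_ E1)
    apply Real.exp_le_exp.2
    linarith
  have hSJ : Real.exp lam * (1 - ε / 40) ≤ SJ lam J := by
    have h1 := exp_le_SJ hlam0.le J
    have h2 : (1 / 2 : ℝ) ^ (J + 1) * Real.exp (2 * lam) ≤ Real.exp lam * (ε / 40) := by
      have h3 : (1 / 2 : ℝ) ^ (J + 1) ≤ Real.exp (-(J : ℝ) / 2) := by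
        refine le_trans ?_ (three_fifths J)
        rw [pow_succ]
        have h4 : (1 / 2 : ℝ) ^ J ≤ (3 / 5) ^ J :=
          pow_le_pow_left₀ (by norm_num) (by norm_num) J
        have h5 : (0 : ℝ) < (1 / 2) ^ J := by positivity
        linarith
      have h4 : Real.exp (2 * lam) = Real.exp lam * Real.exp lam := by
        rw [← Real.exp_add]
        congr 1
        ring
      have h5 : Real.exp (-(J : ℝ) / 2) * Real.exp lam ≤ ε / 40 := by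
        refine le_trans ?_ E1
        rw [← Real.exp_add]
        apply Real.exp_le_exp.2
        have h6 : 100 * ℓ ≤ J := by
          refine le_trans ?_ hJ1
          apply mul_le_mul_of_nonneg_right _ (by linarith)
          nlinarith
        linarith
      rw [h4]
      calc (1 / 2 : ℝ) ^ (J + 1) * (Real.exp lam * Real.exp lam) ≤
          Real.exp (-(J : ℝ) / 2) * (Real.exp lam * Real.exp lam) := by gcongr
        _ = Real.exp lam * (Real.exp (-(J : ℝ) / 2) * Real.exp lam) := by ring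
        _ ≤ _ := mul_le_mul_of_nonneg_left h5 hex.le
    linarith
  generalize (3 / 5 : ℝ) ^ J = d at *
  have h1 : Real.exp lam * (1 - ε / 10) ≤ SJ lam J - B := by linarith
  have h2 : 1 - 2 * d ≤ ((1 + d) ^ 2)⁻¹ := by
    rw [← one_div, le_div_iff₀ (by positivity)]
    nlinarith [sq_nonneg d, mul_pos hd0 (mul_pos hd0 hd0)]
  have h3 : 0 ≤ 1 - 2 * d := by linarith
  calc (1 - ε / 2) * Real.exp lam ≤ (1 - 2 * d) * (Real.exp lam * (1 - ε / 10)) := by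
        have h4 : (1 - ε / 2) ≤ (1 - 2 * d) * (1 - ε / 10) := by nlinarith
        calc (1 - ε / 2) * Real.exp lam ≤ ((1 - 2 * d) * (1 - ε / 10)) * Real.exp lam :=
              mul_le_mul_of_nonneg_right h4 hex.le
          _ = _ := by ring
    _ ≤ _ := by
        apply mul_le_mul h2 h1 _ (by positivity)
        apply mul_nonneg hex.le
        linarith

/-- the second moment -/
lemma second {ε : ℝ} (hε : 0 < ε) (hε1 : ε ≤ 1 / 10) {K : ℕ} (hK : 1 ≤ K) {M : ℕ} {ℓ : ℝ}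
    (hM : 2 ≤ M) (hℓM : ℓ = Real.log M)
    (hℓ : (K : ℝ) + 4 ≤ ℓ) {κ : ℂ} {Λ : ℝ} (hκ : ‖κ‖ ^ 2 = Λ) (hΛ : 0 < Λ) (hΛ1 : Λ ≤ 1)
    (hΛε : Λ * (1 + 4 * ε) ≤ 1) {d : ℝ} (hd0 : 0 < d) (hd1 : d ≤ ε / 40)
    {A : ℝ} (hA : ipf (bp (ap K ℓ) (Dp K ℓ) K) (bp (ap K ℓ) (Dp K ℓ) K) = A)
    (E6 : 9 * Real.exp (-(1 / ((K : ℝ) + 4) * ℓ)) ≤ ε / 8)
    (E7 : (12 * Real.exp 6 * (4 * ((10 : ℝ) ^ 5 * (K + 1) ^ 2 + 1))) *
      (ℓ ^ 2 * Real.exp (-(2 / ((K : ℝ) + 4) * ℓ))) ≤ ε / 2) :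
    ∑ c ∈ Finset.range (M + 1), ∑ c' ∈ Finset.range (M + 1),
      (1 - d)⁻¹ ^ 2 * Real.exp (2 * ((1 + 2 * ε) * Λ * Real.log (Dp K ℓ)) * (K -
        (Nat.findGreatest (fun m => Dp K ℓ ≤ |(c : ℝ) - c'| * aa (ap K ℓ) (Dp K ℓ) m) K : ℕ))) *
        Real.exp (VV κ (ap K ℓ) (Dp K ℓ) K
        (Nat.findGreatest (fun m => Dp K ℓ ≤ |(c : ℝ) - c'| * aa (ap K ℓ) (Dp K ℓ) m) K)
          ((c : ℝ) - c')) ≤
      ((M : ℝ) + 1) ^ 2 * Real.exp (2 * (Λ * A)) * (1 + ε) := by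
  have hpo := po hK hℓ
  have hMr : (2 : ℝ) ≤ M := by exact_mod_cast hM
  have hℓ1 : 1 ≤ ℓ := by
    have : (1 : ℝ) ≤ K := by exact_mod_cast hK
    linarith
  obtain ⟨hJ1, hJ2, hJ3, hJ4⟩ := Jp_ge (K := K) hℓ1
  have hMD : (Dp K ℓ) ^ (K + 2) ≤ ((M : ℝ) + 1) * Real.exp (-(2 / ((K : ℝ) + 4) * ℓ)) := by
    have h2 : (Dp K ℓ) ^ (K + 2) = M * Real.exp (-(2 / ((K : ℝ) + 4) * ℓ)) := by
      have h3 : (M : ℝ) = Real.exp ℓ := by
        rw [hℓM, Real.exp_log (by linarith)]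
      rw [h3, ← Real.exp_add]
      unfold Dp
      rw [← Real.exp_nat_mul]
      congr 1
      push_cast
      field_simp
      ring
    rw [h2]
    apply mul_le_mul_of_nonneg_right _ (Real.exp_pos _).le
    linarith
  have h1a : 1 / ap K ℓ ≤ 4 * ((10 : ℝ) ^ 5 * (K + 1) ^ 2 + 1) * ℓ := by
    unfold ap
    rw [one_div_one_div]
    nlinarith
  have h9D : 9 / Dp K ℓ ≤ ε / 8 := by
    refine le_trans (le_of_eq ?_) E6
    unfold Dp
    rw [div_eq_mul_inv, ← Real.exp_neg]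
    congr 2
    ring
  have hD2 := hpo.D2
  have ha0 := hpo.a0
  have ha1 := hpo.a1
  generalize hD : Dp K ℓ = D at *
  generalize ha : ap K ℓ = a0 at *
  have hD0 : 0 < D := by linarith
  have hcos : ∀ (m : ℕ) (h : ℝ), VV κ a0 D K m |h| = VV κ a0 D K m h := by
    intro m h
    unfold VV
    have : ∀ u : ℝ, Real.cos (2 * Real.pi * |h| * u) = Real.cos (2 * Real.pi * h * u) := by
      intro u
      rcases abs_cases h with ⟨h1, _⟩ | ⟨h1, _⟩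
      · rw [h1]
      · rw [h1, ← Real.cos_neg]
        congr 1
        ring
    simp_rw [this]
  have hpair : ∀ c ∈ Finset.range (M + 1), ∀ c' ∈ Finset.range (M + 1),
      (1 - d)⁻¹ ^ 2 * Real.exp (2 * ((1 + 2 * ε) * Λ * Real.log D) * (K -
        (Nat.findGreatest (fun m => D ≤ |(c : ℝ) - c'| * aa a0 D m) K : ℕ))) *
        Real.exp (VV κ a0 D K (Nat.findGreatest (fun m => D ≤ |(c : ℝ) - c'| * aa a0 D m) K)
          ((c : ℝ) - c')) ≤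
      Real.exp (2 * (Λ * A)) * ((1 - d)⁻¹ ^ 2 * Real.exp (9 / D) +
      2 * Real.exp 6 * (D ^ (K + 2) / a0) * (1 / max |(c : ℝ) - c'| 1)) := by
    intro c _ c' _
    have h1 := pair_bd hε hκ hΛ hΛ1 hΛε ha0 ha1 hD2 hK hd0 (by linarith : d ≤ 1 / 10)
      |(c : ℝ) - c'| (abs_nonneg _) (by
      by_cases h2 : c = c'
      · left; rw [h2, sub_self, abs_zero]
      · right
        have h3 : (1 : ℤ) ≤ |(c : ℤ) - c'| := by
          apply Int.one_le_abs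
          omega
        have h4 : ((1 : ℤ) : ℝ) ≤ ((|(c : ℤ) - c'| : ℤ) : ℝ) := by exact_mod_cast h3
        push_cast at h4
        exact h4)
    rw [hcos, hA] at h1
    exact h1
  have h1 : ∀ c ∈ Finset.range (M + 1), ∑ c' ∈ Finset.range (M + 1),
      (1 - d)⁻¹ ^ 2 * Real.exp (2 * ((1 + 2 * ε) * Λ * Real.log D) * (K -
        (Nat.findGreatest (fun m => D ≤ |(c : ℝ) - c'| * aa a0 D m) K : ℕ))) *
        Real.exp (VV κ a0 D K (Nat.findGreatest (fun m => D ≤ |(c : ℝ) - c'| * aa a0 D m) K)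
          ((c : ℝ) - c')) ≤
      Real.exp (2 * (Λ * A)) * (((M : ℝ) + 1) * ((1 - d)⁻¹ ^ 2 * Real.exp (9 / D)) +
        2 * Real.exp 6 * (D ^ (K + 2) / a0) * (2 * (2 + ℓ))) := by
    intro c hc
    refine (Finset.sum_le_sum (hpair c hc)).trans ?_
    rw [← Finset.mul_sum, Finset.sum_add_distrib, Finset.sum_const, Finset.card_range,
      nsmul_eq_mul, ← Finset.mul_sum]
    apply mul_le_mul_of_nonneg_left _ (Real.exp_pos _).le
    push_cast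
    have h2 := sum_dist M c (by rw [Finset.mem_range] at hc; omega)
    rw [← hℓM] at h2
    have h3 : 0 ≤ 2 * Real.exp 6 * (D ^ (K + 2) / a0) := by positivity
    have h4 := mul_le_mul_of_nonneg_left h2 h3
    linarith
  refine (Finset.sum_le_sum h1).trans ?_
  rw [Finset.sum_const, Finset.card_range, nsmul_eq_mul]
  push_cast
  have hpart : 2 * Real.exp 6 * (D ^ (K + 2) / a0) * (2 * (2 + ℓ)) ≤ ((M : ℝ) + 1) * (ε / 2) := by
    calc 2 * Real.exp 6 * (D ^ (K + 2) / a0) * (2 * (2 + ℓ)) =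
        4 * Real.exp 6 * D ^ (K + 2) * (1 / a0) * (2 + ℓ) := by ring
      _ ≤ 4 * Real.exp 6 * (((M : ℝ) + 1) * Real.exp (-(2 / ((K : ℝ) + 4) * ℓ))) *
          (4 * ((10 : ℝ) ^ 5 * (K + 1) ^ 2 + 1) * ℓ) * (3 * ℓ) := by
          gcongr
          linarith
      _ = ((M : ℝ) + 1) * ((12 * Real.exp 6 * (4 * ((10 : ℝ) ^ 5 * (K + 1) ^ 2 + 1))) *
          (ℓ ^ 2 * Real.exp (-(2 / ((K : ℝ) + 4) * ℓ)))) := by ring
      _ ≤ ((M : ℝ) + 1) * (ε / 2) := mul_le_mul_of_nonneg_left E7 (by positivity)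
  have h9 : (1 - d)⁻¹ ^ 2 * Real.exp (9 / D) ≤ 1 + ε / 2 := by
    have h3 : Real.exp (9 / D) ≤ 1 + 2 * (9 / D) := exp_small (by positivity) (by linarith)
    have h4 := inv_small hd0 (by linarith : d ≤ 1 / 10)
    calc _ ≤ (1 + 3 * d) * (1 + 2 * (9 / D)) :=
          mul_le_mul h4 h3 (Real.exp_pos _).le (by positivity)
      _ ≤ (1 + 3 * (ε / 40)) * (1 + 2 * (ε / 8)) := by gcongr
      _ ≤ 1 + ε / 2 := by nlinarith
  calc ((M : ℝ) + 1) * (Real.exp (2 * (Λ * A)) * (((M : ℝ) + 1) * ((1 - d)⁻¹ ^ 2 *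
        Real.exp (9 / D)) + 2 * Real.exp 6 * (D ^ (K + 2) / a0) * (2 * (2 + ℓ)))) ≤
      ((M : ℝ) + 1) * (Real.exp (2 * (Λ * A)) * (((M : ℝ) + 1) * (1 + ε / 2) +
        ((M : ℝ) + 1) * (ε / 2))) := by gcongr
    _ = _ := by ring

/-- **the field exceeds the level** -/
theorem fld {ε : ℝ} (hε : 0 < ε) (hε1 : ε ≤ 1 / 10) {K : ℕ} (hK : 1 ≤ K) :
    ∃ M0 : ℕ, 2 ≤ M0 ∧ ∀ M : ℕ, M0 ≤ M → ∀ κ : ℂ, ‖κ‖ = 1 / (1 + 4 * ε) →
      ∀ᶠ T : ℝ in atTop, ms T {t | ∀ c : ℕ, c ≤ M →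
        (PZ (fW κ (bp (ap K (Real.log M)) (Dp K (Real.log M)) K) c) T t).re <
          (1 - ε) * (‖κ‖ ^ 2 * (K / (K + 4) * Real.log M - 1))} ≤ 6 * ε * T := by
  have hK0 : (1 : ℝ) ≤ K := by exact_mod_cast hK
  set Λ : ℝ := (1 / (1 + 4 * ε)) ^ 2 with hΛd
  have hΛ : 0 < Λ := by positivity
  have hq : 1 / (1 + 4 * ε) ≤ 1 := by
    rw [div_le_one (by positivity)]
    linarith
  have hq0 : 0 < 1 / (1 + 4 * ε) := by positivity
  have hΛ1 : Λ ≤ 1 := pow_le_one₀ hq0.le hq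
  have hΛε : Λ * (1 + 4 * ε) ≤ 1 := by
    have : Λ * (1 + 4 * ε) = 1 / (1 + 4 * ε) := by
      rw [hΛd]
      field_simp
    rw [this]
    exact hq
  have hδ : 0 < ε / 40 := by positivity
  have hc3 : 0 < 3 * ε ^ 2 * Λ / ((K : ℝ) + 4) := by positivity
  have hc4 : 0 < ε ^ 2 * Λ * (K / ((K : ℝ) + 4)) := by positivity
  have hc6 : 0 < 1 / ((K : ℝ) + 4) := by positivity
  have hc7 : 0 < 2 / ((K : ℝ) + 4) := by positivity
  have ev : ∀ᶠ ℓ : ℝ in atTop, (((K : ℝ) + 4 ≤ ℓ ∧ 1 * (ℓ ^ 0 * Real.exp (-(1 / 2 * ℓ))) ≤ ε / 40) ∧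
      (((K : ℝ) + 1) * (ℓ ^ 0 * Real.exp (-(1 * ℓ))) ≤ ε / 40 ∧
      (2 * (K : ℝ) * Real.exp 1) * (ℓ ^ 0 * Real.exp (-(3 * ε ^ 2 * Λ / ((K : ℝ) + 4) * ℓ))) ≤
        ε / 40)) ∧
      (((2 * Real.exp 1) * (ℓ ^ 0 * Real.exp (-(ε ^ 2 * Λ * (K / ((K : ℝ) + 4)) * ℓ))) ≤ ε / 40 ∧
      9 * (ℓ ^ 0 * Real.exp (-(1 / ((K : ℝ) + 4) * ℓ))) ≤ ε / 8) ∧
      (12 * Real.exp 6 * (4 * ((10 : ℝ) ^ 5 * ((K : ℝ) + 1) ^ 2 + 1))) *
        (ℓ ^ 2 * Real.exp (-(2 / ((K : ℝ) + 4) * ℓ))) ≤ ε / 2) :=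
    (((eventually_ge_atTop _).and (evs _ 0 (by norm_num) hδ)).and
      ((evs _ 0 (by norm_num) hδ).and (evs _ 0 hc3 hδ))).and
      (((evs _ 0 hc4 hδ).and (evs _ 0 hc6 (by positivity))).and (evs _ 2 hc7 (by positivity)))
  have ht : Tendsto (fun M : ℕ => Real.log M) atTop atTop :=
    Real.tendsto_log_atTop.comp tendsto_natCast_atTop_atTop
  obtain ⟨M0, hM0⟩ := eventually_atTop.1 (ht.eventually ev)
  refine ⟨max 2 M0, le_max_left _ _, fun M hM κ hκn => ?_⟩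
  obtain ⟨⟨⟨hℓ, E1⟩, E2, E3⟩, ⟨E4, E6⟩, E7⟩ := hM0 M ((le_max_right _ _).trans hM)
  have hM2 : 2 ≤ M := (le_max_left _ _).trans hM
  generalize hℓM : Real.log M = ℓ at *
  rw [pow_zero, one_mul] at E1 E2 E3 E4 E6
  rw [one_mul] at E1 E2
  have hκ : ‖κ‖ ^ 2 = Λ := by rw [hκn]
  have hpo := po hK hℓ
  have hℓ1 : 1 ≤ ℓ := by linarith
  obtain ⟨hJ1, hJ2, hJ3, hJ4⟩ := Jp_ge (K := K) hℓ1
  obtain ⟨A, hA⟩ : ∃ A, ipf (bp (ap K ℓ) (Dp K ℓ) K) (bp (ap K ℓ) (Dp K ℓ) K) = A := ⟨_, rfl⟩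
  have hA0 : 0 < A := hA ▸ hpo.A0
  have hAlo := hpo.Alo
  rw [hA] at hAlo
  have hd1 : (3 / 5 : ℝ) ^ (Jp K ℓ) ≤ ε / 40 := by
    have h1 := three_fifths (Jp K ℓ)
    refine h1.trans (le_trans ?_ E1)
    apply Real.exp_le_exp.2
    linarith
  have hm0 : 0 < (1 - ε / 2) * Real.exp (Λ * A) := mul_pos (by linarith) (Real.exp_pos _)
  have hlow := first hε hε1 hK hℓ hκ hΛ hΛ1 hA E1 E2 E3 E4
  have hsec := second hε hε1 hK hM2 hℓM.symm hℓ hκ hΛ hΛ1 hΛε (by positivity) hd1 hA E6 E7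
  have hD2 := hpo.D2
  have key := sec (κ := κ) (s := ε) (τ := (1 + 2 * ε) * Λ * Real.log (Dp K ℓ))
    (H := (1 - ε) * (Λ * A)) hpo.a0 (by linarith)
    hpo.a1 hpo.Ja hpo.R0 (by rw [hκ, hA]; positivity) hε (by linarith) hpo.JR (by linarith) M
    (fun c c' => Nat.findGreatest (fun m => Dp K ℓ ≤ |(c : ℝ) - c'| * aa (ap K ℓ) (Dp K ℓ) m) K)
    (fun c c' => Nat.findGreatest_le K) hm0 (by rw [hκ, hA]; exact hlow) hsec hε
  have hl2 := log2_bd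
  have hlamlo : Λ * (K / (K + 4) * ℓ - 1) ≤ Λ * A := by
    apply mul_le_mul_of_nonneg_left _ hΛ.le
    linarith
  filter_upwards [key, eventually_gt_atTop 0] with T hT hT0
  have hsub : ms T {t | ∀ c : ℕ, c ≤ M → (PZ (fW κ (bp (ap K ℓ) (Dp K ℓ) K) c) T t).re <
      (1 - ε) * (‖κ‖ ^ 2 * (K / (K + 4) * ℓ - 1))} ≤
      ms T {t | ∀ c ≤ M, (PZ (fW κ (bp (ap K ℓ) (Dp K ℓ) K) c) T t).re <
        (1 - ε) * (Λ * A)} := by
    apply ms_mono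
    intro t _ _ ht c hc
    refine lt_of_lt_of_le (ht c hc) ?_
    rw [hκ]
    apply mul_le_mul_of_nonneg_left hlamlo
    linarith
  refine hsub.trans (hT.trans ?_)
  apply mul_le_mul_of_nonneg_right _ hT0.le
  have h1 : ((M : ℝ) + 1) ^ 2 * Real.exp (2 * (Λ * A)) * (1 + ε) /
      (((M : ℝ) + 1) * ((1 - ε / 2) * Real.exp (Λ * A))) ^ 2 = (1 + ε) / (1 - ε / 2) ^ 2 := by
    have h2 : Real.exp (2 * (Λ * A)) = Real.exp (Λ * A) ^ 2 := by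
      rw [← Real.exp_nat_mul]
      norm_num
    have h3 : (1 - ε / 2) ≠ 0 := by
      have : 0 < 1 - ε / 2 := by linarith
      exact this.ne'
    rw [h2]
    field_simp
  rw [h1]
  have h2 : (1 + ε) / (1 - ε / 2) ^ 2 ≤ 1 + 3 * ε := by
    rw [div_le_iff₀ (by
      have : 0 < 1 - ε / 2 := by linarith
      positivity)]
    nlinarith [mul_pos hε hε, mul_pos hε (mul_pos hε hε)]
  linarith

end Pool.Agent.T9h26.TD
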