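import Pool.Agent.T9h26.TD.Zp
import Pool.Agent.T9h26.TD.Co

set_option autoImplicit false

/-! Prime polynomials of complex weights. -/

open Complex Filter Topology Set MeasureTheory

namespace Pool.Agent.T9h26.TD

open TC
open Pool.Agent.Y747 (al)

/-- complex weights -/
structure Wz (F : ℝ → ℂ) (b : ℝ) (K : NNReal) : Prop where
  b0 : 0 < b
  b1 : b ≤ 1 / 2
  lip : LipschitzWith K F
  zero : ∀ ξ, b ≤ |ξ| → F ξ = 0

/-- the norm of a complex weight -/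
noncomputable def nw (F : ℝ → ℂ) (ξ : ℝ) : ℝ := ‖F |ξ|‖

lemma Wz.wt {F : ℝ → ℂ} {b : ℝ} {K : NNReal} (h : Wz F b K) : Wt (nw F) b K := by
  refine ⟨h.b0, h.b1, ?_, ?_, ?_⟩
  · apply LipschitzWith.of_dist_le_mul
    intro x y
    have h1 := h.lip.dist_le_mul |x| |y|
    have h2 : dist (nw F x) (nw F y) ≤ dist (F |x|) (F |y|) := by
      unfold nw
      rw [Real.dist_eq, dist_eq_norm]
      exact abs_norm_sub_norm_le _ _
    have h3 : dist |x| |y| ≤ dist x y := by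
      rw [Real.dist_eq, Real.dist_eq]
      exact abs_abs_sub_abs_le_abs_sub x y
    calc _ ≤ _ := h2
      _ ≤ K * dist |x| |y| := h1
      _ ≤ K * dist x y := mul_le_mul_of_nonneg_left h3 K.2
  · intro ξ hξ
    unfold nw
    rw [h.zero |ξ| (by rwa [abs_abs]), norm_zero]
  · intro ξ
    unfold nw
    rw [abs_neg]

/-- the coefficients -/
noncomputable def cf (F : ℝ → ℂ) (T : ℝ) (p : ℕ) : ℂ :=
  (al (fun _ => 1) (Real.log T) p : ℂ) * F (Real.log p / Real.log T)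

/-- the prime polynomial of a complex weight -/
noncomputable def PZ (F : ℝ → ℂ) (T t : ℝ) : ℂ := PPc (cf F T) (XT (1 / 2) T) t

lemma PZ_cont (F : ℝ → ℂ) (T : ℝ) : Continuous (PZ F T) := PPc_cont _ _

lemma PZ_add (F G : ℝ → ℂ) (T t : ℝ) : PZ (fun u => F u + G u) T t = PZ F T t + PZ G T t := by
  unfold PZ PPc cf
  rw [← Finset.sum_add_distrib]
  apply Finset.sum_congr rfl
  intro p _
  ring

lemma PZ_sub (F G : ℝ → ℂ) (T t : ℝ) : PZ (fun u => F u - G u) T t = PZ F T t - PZ G T t := by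
  unfold PZ PPc cf
  rw [← Finset.sum_sub_distrib]
  apply Finset.sum_congr rfl
  intro p _
  ring

lemma PZ_smul (k : ℂ) (F : ℝ → ℂ) (T t : ℝ) : PZ (fun u => k * F u) T t = k * PZ F T t := by
  unfold PZ PPc cf
  rw [Finset.mul_sum]
  apply Finset.sum_congr rfl
  intro p _
  ring

lemma PZ_sum {ι : Type*} (s : Finset ι) (F : ι → ℝ → ℂ) (T t : ℝ) :
    PZ (fun u => ∑ i ∈ s, F i u) T t = ∑ i ∈ s, PZ (F i) T t := by
  unfold PZ PPc cf
  rw [Finset.sum_comm]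
  apply Finset.sum_congr rfl
  intro p _
  rw [Finset.mul_sum, Finset.sum_mul]

lemma PZ_congr {F G : ℝ → ℂ} {T : ℝ} (hT : 1 < T) (h : ∀ u, 0 < u → F u = G u) (t : ℝ) :
    PZ F T t = PZ G T t := by
  unfold PZ PPc
  apply Finset.sum_congr rfl
  intro p hp
  have hp2 := (mem_Pr.1 hp).1
  have h1 : 0 < Real.log p / Real.log T :=
    div_pos (Real.log_pos (by exact_mod_cast hp2.one_lt)) (Real.log_pos hT)
  unfold cf
  rw [h _ h1]

lemma PZ_shift (F : ℝ → ℂ) {T : ℝ} (hT : 1 < T) (h t : ℝ) :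
    PZ F T (t + 2 * Real.pi * h / Real.log T) =
      PZ (fun u => F u * cexp (((-(2 * Real.pi * h * u) : ℝ) : ℂ) * I)) T t := by
  unfold PZ PPc
  apply Finset.sum_congr rfl
  intro p hp
  have hp2 := (mem_Pr.1 hp).1
  have hp0 : (p : ℂ) ≠ 0 := by exact_mod_cast hp2.ne_zero
  have hL : Real.log T ≠ 0 := (Real.log_pos hT).ne'
  unfold cf
  have e1 : -((t + 2 * Real.pi * h / Real.log T : ℝ) : ℂ) * I = -(t : ℂ) * I +
      -((2 * Real.pi * h / Real.log T : ℝ) : ℂ) * I := by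
    push_cast; ring
  have e2 : (p : ℂ) ^ (-((2 * Real.pi * h / Real.log T : ℝ) : ℂ) * I) =
      cexp (((-(2 * Real.pi * h * (Real.log p / Real.log T)) : ℝ) : ℂ) * I) := by
    rw [Complex.cpow_def_of_ne_zero hp0, ← Complex.natCast_log]
    congr 1
    push_cast
    field_simp
  rw [e1, Complex.cpow_add _ _ hp0, e2]
  ring

lemma PZ_trunc {F : ℝ → ℂ} {b : ℝ} {K : NNReal} (h : Wz F b K) {T : ℝ} (hT : 1 < T) (t : ℝ) :
    PZ F T t = PPc (cf F T) (XT b T) t := by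
  unfold PZ PPc
  symm
  have hL : 0 < Real.log T := Real.log_pos hT
  apply Finset.sum_subset
  · intro p hp
    rw [mem_Pr] at hp ⊢
    refine ⟨hp.1, hp.2.trans ?_⟩
    unfold XT
    apply max_le_max le_rfl
    apply Nat.floor_le_floor
    exact Real.rpow_le_rpow_of_exponent_le hT.le h.b1
  · intro p hp hp2
    have hpp := (mem_Pr.1 hp).1
    have h1 : ¬ p ≤ XT b T := fun hc => hp2 (mem_Pr.2 ⟨hpp, hc⟩)
    rw [not_le] at h1
    have h2 : T ^ b ≤ p := by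
      have h3 : ⌊T ^ b⌋₊ < p := lt_of_le_of_lt (le_max_right _ _) h1
      exact ((Nat.floor_lt (by positivity)).1 h3).le
    have hp0 : (0 : ℝ) < p := by exact_mod_cast hpp.pos
    have h3 : b ≤ Real.log p / Real.log T := by
      rw [le_div_iff₀ hL, ← Real.log_rpow (by linarith)]
      exact Real.log_le_log (by positivity) h2
    have h4 : b ≤ |Real.log p / Real.log T| := h3.trans (le_abs_self _)
    unfold cf
    rw [h.zero _ h4]
    ring

lemma PW_PZ {w : ℝ → ℝ} {b : ℝ} {K : NNReal} (h : Wt w b K) {T : ℝ} (hT : 1 < T) (t : ℝ) :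
    PW w b T t = PZ (fun u => (w u : ℂ)) T t := by
  have hz : Wz (fun u => (w u : ℂ)) b K := by
    refine ⟨h.b0, h.b1, ?_, ?_⟩
    · apply LipschitzWith.of_dist_le_mul
      intro x y
      have := h.lip.dist_le_mul x y
      rwa [dist_eq_norm, ← Complex.ofReal_sub, Complex.norm_real, Real.norm_eq_abs,
        ← Real.dist_eq]
    · intro ξ hξ
      rw [h.zero ξ hξ, Complex.ofReal_zero]
  rw [PZ_trunc hz hT]
  unfold PW PP PPc
  apply Finset.sum_congr rfl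
  intro p hp
  have hpp := (mem_Pr.1 hp).1
  unfold cf al
  rw [if_pos hpp, if_pos hpp]
  push_cast
  ring

lemma Coef.congr {a a' : ℝ → ℕ → ℝ} {X : ℝ → ℕ} {v : ℝ} {J : ℕ} (hC : Coef a X v J)
    (h : ∀ᶠ T in atTop, ∀ p, a T p = a' T p) : Coef a' X v J := by
  refine ⟨?_, ?_, hC.one, hC.len⟩
  · refine hC.sq.congr' ?_
    filter_upwards [h] with T hT
    apply Finset.sum_congr rfl
    intro p _
    rw [hT p]
  · obtain ⟨μ, h1, h2⟩ := hC.mu
    refine ⟨μ, h1, ?_⟩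
    filter_upwards [h, h2] with T h3 h4 p
    rw [← h3 p]
    exact h4 p

lemma norm_cf (F : ℝ → ℂ) {T : ℝ} (hT : 1 < T) (p : ℕ) :
    al (nw F) (Real.log T) p = ‖cf F T p‖ := by
  have hL : 0 < Real.log T := Real.log_pos hT
  unfold cf al nw
  split_ifs with hp
  · have h0 : 0 ≤ Real.log p / Real.log T := div_nonneg (Real.log_natCast_nonneg p) hL.le
    rw [norm_mul, Complex.norm_real, mul_one, Real.norm_of_nonneg (div_nonneg (lam_nonneg p) hL.le),
      abs_of_nonneg h0]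
  · simp

/-- the coefficients of a complex weight are admissible -/
theorem coefZ {F : ℝ → ℂ} {b : ℝ} {K : NNReal} (h : Wz F b K) {J : ℕ} (hJ : (J : ℝ) * b < 1) :
    Coef (fun T p => ‖cf F T p‖) (XT b) (var (nw F)) J := by
  apply (coef_al h.wt hJ).congr
  filter_upwards [eventually_gt_atTop 1] with T hT p
  exact norm_cf F hT p

theorem ubZ {F : ℝ → ℂ} {b : ℝ} {K : NNReal} (h : Wz F b K) {J : ℕ} (hJ : (J : ℝ) * b < 1)
    (c : ℕ → ℂ) {θ : ℝ}
    (hθ : ∑ i ∈ Finset.range (J + 1), ‖c i‖ ^ 2 * (i.factorial * (var (nw F)) ^ i) < θ) :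
    ∀ᶠ T : ℝ in atTop, ∫ t in T..(2 * T),
      ‖∑ i ∈ Finset.range (J + 1), c i * PZ F T t ^ i‖ ^ 2 ≤ θ * T := by
  filter_upwards [ubc (coefZ h hJ) c hθ, eventually_gt_atTop 1] with T h1 h2
  simp_rw [PZ_trunc h h2]
  exact h1

theorem lbZ {F : ℝ → ℂ} {b : ℝ} {K : NNReal} (h : Wz F b K) {J : ℕ} (hJ : (J : ℝ) * b < 1)
    (hv : 0 < var (nw F)) (c : ℕ → ℂ) {θ : ℝ}
    (hθ : θ < ∑ i ∈ Finset.range (J + 1), ‖c i‖ ^ 2 * (i.factorial * (var (nw F)) ^ i)) :
    ∀ᶠ T : ℝ in atTop, θ * T ≤ ∫ t in T..(2 * T),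
      ‖∑ i ∈ Finset.range (J + 1), c i * PZ F T t ^ i‖ ^ 2 := by
  filter_upwards [lbc hv (coefZ h hJ) c hθ, eventually_gt_atTop 1] with T h1 h2
  simp_rw [PZ_trunc h h2]
  exact h1

/-- moments -/
theorem momZ {F : ℝ → ℂ} {b : ℝ} {K : NNReal} (h : Wz F b K) {J : ℕ} (hJ : (J : ℝ) * b < 1)
    {θ : ℝ} (hθ : J.factorial * (var (nw F)) ^ J < θ) :
    ∀ᶠ T : ℝ in atTop, ∫ t in T..(2 * T), ‖PZ F T t‖ ^ (2 * J) ≤ θ * T := by
  have h1 := ubZ h hJ (fun i => if i = J then 1 else 0) (θ := θ) (by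
    rw [Finset.sum_eq_single J]
    · simpa using hθ
    · intro i _ hi
      rw [if_neg hi]
      simp
    · intro h
      exact absurd (Finset.mem_range.2 (Nat.lt_succ_self J)) h)
  filter_upwards [h1] with T h2
  have e : ∀ t, ‖∑ i ∈ Finset.range (J + 1), (if i = J then (1 : ℂ) else 0) * PZ F T t ^ i‖ ^ 2 =
      ‖PZ F T t‖ ^ (2 * J) := by
    intro t
    rw [Finset.sum_eq_single J]
    · rw [if_pos rfl, one_mul, norm_pow, ← pow_mul, mul_comm]
    · intro i _ hi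
      rw [if_neg hi, zero_mul]
    · intro h
      exact absurd (Finset.mem_range.2 (Nat.lt_succ_self J)) h
  simp_rw [e] at h2
  exact h2

/-- the measure of the large values -/
theorem mkv {F : ℝ → ℂ} {b : ℝ} {K : NNReal} (h : Wz F b K) {J : ℕ} (hJ : (J : ℝ) * b < 1)
    {x θ : ℝ} (hx : 0 < x) (hθ : J.factorial * (var (nw F)) ^ J / x ^ (2 * J) < θ) :
    ∀ᶠ T : ℝ in atTop, ms T {t | x ≤ ‖PZ F T t‖} ≤ θ * T := by
  have hx2 : 0 < x ^ (2 * J) := by positivity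
  have h1 := momZ h hJ (θ := θ * x ^ (2 * J)) (by rwa [div_lt_iff₀ hx2] at hθ)
  filter_upwards [h1, eventually_gt_atTop 0] with T h2 hT
  have hcont : Continuous fun t => ‖PZ F T t‖ ^ (2 * J) := (PZ_cont F T).norm.pow _
  have h4 := ms_markov hT.le hcont (fun t => by positivity) (c := x ^ (2 * J))
  have h5 : ms T {t | x ≤ ‖PZ F T t‖} ≤ ms T {t | x ^ (2 * J) ≤ ‖PZ F T t‖ ^ (2 * J)} := by
    apply ms_mono
    intro t _ _ ht
    exact pow_le_pow_left₀ hx.le ht _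
  have h7 : x ^ (2 * J) * ms T {t | x ≤ ‖PZ F T t‖} ≤ x ^ (2 * J) * (θ * T) := by
    calc _ ≤ x ^ (2 * J) * ms T {t | x ^ (2 * J) ≤ ‖PZ F T t‖ ^ (2 * J)} :=
          mul_le_mul_of_nonneg_left h5 hx2.le
      _ ≤ θ * x ^ (2 * J) * T := h4.trans h2
      _ = _ := by ring
  exact le_of_mul_le_mul_left h7 hx2

end Pool.Agent.T9h26.TD
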