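import Pool.Agent.T9h26.TD.Zw
import Pool.Agent.T9h26.TD.Ml

set_option autoImplicit false

/-! Truncated exponentials and the second moment method: pointwise inequalities. -/

open Complex Filter Topology Set MeasureTheory

namespace Pool.Agent.T9h26.TD

/-- the truncated exponential -/
noncomputable def EJ (z : ℂ) (J : ℕ) : ℂ := ∑ i ∈ Finset.range (J + 1), z ^ i / i.factorial

lemma EJ_cont (J : ℕ) : Continuous fun z => EJ z J := by
  unfold EJ
  fun_prop

lemma EJ_le_SJ (z : ℂ) (J : ℕ) : ‖EJ z J‖ ≤ SJ ‖z‖ J := by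
  unfold EJ SJ
  refine (norm_sum_le _ _).trans (le_of_eq ?_)
  apply Finset.sum_congr rfl
  intro i _
  rw [norm_div, norm_pow, Complex.norm_natCast]

lemma SJ_le_exp {lam : ℝ} (h : 0 ≤ lam) (J : ℕ) : SJ lam J ≤ Real.exp lam :=
  Real.sum_le_exp_of_nonneg h _

lemma EJ_le (z : ℂ) (J : ℕ) : ‖EJ z J‖ ≤ Real.exp ‖z‖ :=
  (EJ_le_SJ z J).trans (SJ_le_exp (norm_nonneg z) J)

lemma EJ_close {z : ℂ} {J : ℕ} (h : 20 * ‖z‖ ≤ J) :
    ‖EJ z J - cexp z‖ ≤ (3 / 5) ^ J * Real.exp z.re := by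
  have h1 := Complex.norm_exp_sub_sum_le_exp_norm_sub_sum z (J + 1)
  have h2 := exp_le_SJ (norm_nonneg z) J
  have h3 : ‖EJ z J - cexp z‖ ≤ (1 / 2) ^ (J + 1) * Real.exp (2 * ‖z‖) := by
    rw [norm_sub_rev]
    unfold EJ
    refine h1.trans ?_
    unfold SJ at h2
    linarith
  refine h3.trans ?_
  have h4 : Real.exp (2 * ‖z‖) ≤ Real.exp (3 * ‖z‖) * Real.exp z.re := by
    rw [← Real.exp_add]
    apply Real.exp_le_exp.2
    have := Complex.abs_re_le_norm z
    have := neg_abs_le z.re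
    linarith
  have h5 : Real.exp (3 * ‖z‖) ≤ (6 / 5) ^ J := by
    have h6 : Real.exp (3 / 20 : ℝ) ≤ 6 / 5 := by
      have h7 := Real.exp_bound' (x := (3 / 20 : ℝ)) (by norm_num) (by norm_num) (n := 2)
        (by norm_num)
      refine h7.trans ?_
      simp [Finset.sum_range_succ, Nat.factorial]
      norm_num
    calc Real.exp (3 * ‖z‖) ≤ Real.exp (J * (3 / 20)) := by
          apply Real.exp_le_exp.2
          linarith
      _ = (Real.exp (3 / 20)) ^ J := by rw [← Real.exp_nat_mul]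
      _ ≤ (6 / 5) ^ J := pow_le_pow_left₀ (Real.exp_pos _).le h6 J
  calc (1 / 2 : ℝ) ^ (J + 1) * Real.exp (2 * ‖z‖) ≤
      (1 / 2 : ℝ) ^ J * ((6 / 5) ^ J * Real.exp z.re) := by
        have h8 : (1 / 2 : ℝ) ^ (J + 1) ≤ (1 / 2) ^ J := by
          rw [pow_succ]
          have : (0 : ℝ) < (1 / 2) ^ J := by positivity
          linarith
        apply mul_le_mul h8 _ (Real.exp_pos _).le (by positivity)
        exact h4.trans (mul_le_mul_of_nonneg_right h5 (Real.exp_pos _).le)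
    _ = (3 / 5) ^ J * Real.exp z.re := by
        rw [← mul_assoc, ← mul_pow]
        norm_num

lemma EJ_hi {z : ℂ} {J : ℕ} (h : 20 * ‖z‖ ≤ J) :
    ‖EJ z J‖ ≤ (1 + (3 / 5) ^ J) * Real.exp z.re := by
  have h1 := EJ_close h
  have h2 := norm_sub_norm_le (EJ z J) (cexp z)
  rw [Complex.norm_exp] at h2
  linarith

lemma EJ_lo {z : ℂ} {J : ℕ} (h : 20 * ‖z‖ ≤ J) :
    (1 - (3 / 5) ^ J) * Real.exp z.re ≤ ‖EJ z J‖ := by
  have h1 := EJ_close h
  have h2 := norm_sub_norm_le (cexp z) (EJ z J)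
  rw [norm_sub_rev, Complex.norm_exp] at h2
  linarith

lemma EJ_big {z : ℂ} {J : ℕ} {R : ℝ} (hR : 0 < R) (h : R ≤ ‖z‖) :
    ‖EJ z J‖ ≤ (‖z‖ / R) ^ J * Real.exp R := by
  refine (EJ_le_SJ z J).trans ?_
  have h1 : SJ ‖z‖ J ≤ (‖z‖ / R) ^ J * SJ R J := by
    unfold SJ
    rw [Finset.mul_sum]
    apply Finset.sum_le_sum
    intro i hi
    rw [Finset.mem_range] at hi
    have h2 : 1 ≤ ‖z‖ / R := by rwa [one_le_div hR]
    have h3 : (‖z‖ / R) ^ i ≤ (‖z‖ / R) ^ J := pow_le_pow_right₀ h2 (by omega)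
    calc ‖z‖ ^ i / (i.factorial : ℝ) = (‖z‖ / R) ^ i * (R ^ i / i.factorial) := by
          rw [div_pow]
          field_simp
      _ ≤ _ := mul_le_mul_of_nonneg_right h3 (by positivity)
  refine h1.trans ?_
  exact mul_le_mul_of_nonneg_left (SJ_le_exp hR.le J) (by positivity)

/-- the typical event under the tilted measure -/
def Om (K : ℕ) (R τ H : ℝ) (Y : ℂ) (y : ℕ → ℂ) : Prop :=
  ‖Y‖ ≤ R ∧ (∀ l < K, ‖y l‖ ≤ R ∧ (y l).re ≤ τ) ∧ H ≤ Y.re

open Classical in
/-- the truncated exponential weight -/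
noncomputable def Gf (K : ℕ) (R τ H : ℝ) (Y : ℂ) (y : ℕ → ℂ) : ℝ :=
  if Om K R τ H Y y then Real.exp (2 * Y.re) else 0

lemma Gf_nonneg (K : ℕ) (R τ H : ℝ) (Y : ℂ) (y : ℕ → ℂ) : 0 ≤ Gf K R τ H Y y := by
  unfold Gf
  split_ifs
  · exact (Real.exp_pos _).le
  · exact le_rfl

lemma Gf_zero {K : ℕ} {R τ H : ℝ} {Y : ℂ} {y : ℕ → ℂ} (h : ¬ H ≤ Y.re) : Gf K R τ H Y y = 0 := by
  unfold Gf
  rw [if_neg]
  intro h2
  exact h h2.2.2

lemma sq_exp (x : ℝ) : Real.exp x ^ 2 = Real.exp (2 * x) := by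
  rw [← Real.exp_nat_mul]
  norm_num

/-- the pointwise bound below for the truncated weight -/
noncomputable def Bd (K J : ℕ) (R s τ H : ℝ) (Y : ℂ) (y : ℕ → ℂ) : ℝ :=
  Real.exp (2 * R) * (‖Y‖ / R) ^ (2 * J) +
    ∑ l ∈ Finset.range K, (Real.exp (2 * R) * (‖y l‖ / R) ^ (2 * J) +
      2 * Real.exp (-(2 * s * τ)) * ‖EJ (Y + s * y l) J‖ ^ 2) +
    2 * Real.exp (2 * s * H) * ‖EJ ((1 - s : ℝ) * Y) J‖ ^ 2

lemma pt_lower {K J : ℕ} {R s τ H : ℝ} (hR : 0 < R) (hs : 0 < s) (hs1 : s ≤ 1)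
    (hJ : 40 * R ≤ J) (hd : (3 / 5 : ℝ) ^ J ≤ 1 / 10) (Y : ℂ) (y : ℕ → ℂ) :
    ‖EJ Y J‖ ^ 2 - Bd K J R s τ H Y y ≤ (1 + (3 / 5) ^ J) ^ 2 * Gf K R τ H Y y := by
  set d : ℝ := (3 / 5) ^ J with hdd
  have hd0 : 0 < d := by positivity
  -- comparison of truncated exponentials
  have comp : ∀ z w : ℂ, 20 * ‖z‖ ≤ J → 20 * ‖w‖ ≤ J → ∀ A : ℝ, z.re ≤ w.re + A →
      ‖EJ z J‖ ^ 2 ≤ 2 * Real.exp (2 * A) * ‖EJ w J‖ ^ 2 := by
    intro z w hz hw A hA
    have h1 := EJ_hi hz
    have h2 := EJ_lo hw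
    rw [← hdd] at h1 h2
    have h3 : Real.exp z.re ≤ Real.exp w.re * Real.exp A := by
      rw [← Real.exp_add]
      exact Real.exp_le_exp.2 hA
    have h4 : ‖EJ z J‖ * (1 - d) ≤ (1 + d) * Real.exp A * ‖EJ w J‖ := by
      calc ‖EJ z J‖ * (1 - d) ≤ ((1 + d) * Real.exp z.re) * (1 - d) := by
            apply mul_le_mul_of_nonneg_right h1
            linarith
        _ ≤ ((1 + d) * (Real.exp w.re * Real.exp A)) * (1 - d) := by
            apply mul_le_mul_of_nonneg_right _ (by linarith)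
            gcongr
        _ = (1 + d) * Real.exp A * ((1 - d) * Real.exp w.re) := by ring
        _ ≤ _ := mul_le_mul_of_nonneg_left h2 (by positivity)
    have h5 : (‖EJ z J‖ * (1 - d)) ^ 2 ≤ ((1 + d) * Real.exp A * ‖EJ w J‖) ^ 2 :=
      pow_le_pow_left₀ (mul_nonneg (norm_nonneg _) (by linarith)) h4 2
    have h6 : (1 + d) ^ 2 ≤ 2 * (1 - d) ^ 2 := by nlinarith
    rw [mul_pow, mul_pow, mul_pow, sq_exp] at h5
    have h7 : 0 < (1 - d) ^ 2 := by
      have : 0 < 1 - d := by linarith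
      positivity
    have h8 : ‖EJ z J‖ ^ 2 * (1 - d) ^ 2 ≤ (2 * Real.exp (2 * A) * ‖EJ w J‖ ^ 2) * (1 - d) ^ 2 := by
      calc _ ≤ (1 + d) ^ 2 * Real.exp (2 * A) * ‖EJ w J‖ ^ 2 := h5
        _ ≤ (2 * (1 - d) ^ 2) * Real.exp (2 * A) * ‖EJ w J‖ ^ 2 := by gcongr
        _ = _ := by ring
    exact le_of_mul_le_mul_right h8 h7
  have hB0 : 0 ≤ Real.exp (2 * R) * (‖Y‖ / R) ^ (2 * J) := by positivity
  have hB1 : ∀ l ∈ Finset.range K, 0 ≤ Real.exp (2 * R) * (‖y l‖ / R) ^ (2 * J) +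
      2 * Real.exp (-(2 * s * τ)) * ‖EJ (Y + s * y l) J‖ ^ 2 := fun l _ => by positivity
  have hB1' := Finset.sum_nonneg hB1
  have hB2 : 0 ≤ 2 * Real.exp (2 * s * H) * ‖EJ ((1 - s : ℝ) * Y) J‖ ^ 2 := by positivity
  by_cases hOm : Om K R τ H Y y
  · unfold Gf
    rw [if_pos hOm]
    have h1 := EJ_hi (z := Y) (J := J) (by linarith [hOm.1])
    have h2 : ‖EJ Y J‖ ^ 2 ≤ (1 + (3 / 5) ^ J) ^ 2 * Real.exp (2 * Y.re) := by
      rw [← sq_exp, ← mul_pow]
      exact pow_le_pow_left₀ (norm_nonneg _) h1 2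
    unfold Bd
    linarith
  · have hG : Gf K R τ H Y y = 0 := by unfold Gf; rw [if_neg hOm]
    rw [hG, mul_zero]
    have key : ‖EJ Y J‖ ^ 2 ≤ Bd K J R s τ H Y y := by
      unfold Bd
      by_cases h1 : ‖Y‖ ≤ R
      · by_cases h2 : ∀ l < K, ‖y l‖ ≤ R
        · by_cases h3 : ∀ l < K, (y l).re ≤ τ
          · have h4 : ¬ H ≤ Y.re := fun h4 => hOm ⟨h1, fun l hl => ⟨h2 l hl, h3 l hl⟩, h4⟩
            rw [not_le] at h4
            have h5 := comp Y (((1 - s : ℝ) : ℂ) * Y) (by linarith) (by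
              rw [norm_mul, Complex.norm_real, Real.norm_of_nonneg (by linarith)]
              have : (1 - s) * ‖Y‖ ≤ 1 * R := by
                apply mul_le_mul _ h1 (norm_nonneg _) zero_le_one
                linarith
              linarith) (s * H) (by
              rw [Complex.re_ofReal_mul]
              nlinarith)
            rw [← mul_assoc] at h5
            linarith
          · push Not at h3
            obtain ⟨l, hl, h3⟩ := h3
            have h5 := comp Y (Y + s * y l) (by linarith) (by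
              have : ‖Y + s * y l‖ ≤ 2 * R := by
                refine (norm_add_le _ _).trans ?_
                rw [norm_mul, Complex.norm_real, Real.norm_of_nonneg hs.le]
                have : s * ‖y l‖ ≤ 1 * R := mul_le_mul hs1 (h2 l hl) (norm_nonneg _) zero_le_one
                linarith
              linarith) (-(s * τ)) (by
              rw [Complex.add_re, Complex.re_ofReal_mul]
              nlinarith)
            have e : 2 * -(s * τ) = -(2 * s * τ) := by ring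
            rw [e] at h5
            have h6 := Finset.single_le_sum hB1 (Finset.mem_range.2 hl)
            have h7 : 0 ≤ Real.exp (2 * R) * (‖y l‖ / R) ^ (2 * J) := by positivity
            linarith
        · push Not at h2
          obtain ⟨l, hl, h2⟩ := h2
          have h5 : ‖EJ Y J‖ ^ 2 ≤ Real.exp (2 * R) := by
            rw [← sq_exp]
            apply pow_le_pow_left₀ (norm_nonneg _)
            exact (EJ_le Y J).trans (Real.exp_le_exp.2 h1)
          have h6 := Finset.single_le_sum hB1 (Finset.mem_range.2 hl)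
          have h7 : 1 ≤ (‖y l‖ / R) ^ (2 * J) := by
            apply one_le_pow₀
            rw [one_le_div hR]
            exact h2.le
          have h8 : Real.exp (2 * R) * 1 ≤ Real.exp (2 * R) * (‖y l‖ / R) ^ (2 * J) := by gcongr
          have h9 : 0 ≤ 2 * Real.exp (-(2 * s * τ)) * ‖EJ (Y + s * y l) J‖ ^ 2 := by positivity
          linarith
      · rw [not_le] at h1
        have h5 := EJ_big (J := J) hR h1.le
        have h6 : ‖EJ Y J‖ ^ 2 ≤ Real.exp (2 * R) * (‖Y‖ / R) ^ (2 * J) := by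
          calc ‖EJ Y J‖ ^ 2 ≤ ((‖Y‖ / R) ^ J * Real.exp R) ^ 2 :=
                pow_le_pow_left₀ (norm_nonneg _) h5 2
            _ = _ := by rw [mul_pow, sq_exp, ← pow_mul, mul_comm J 2]; ring
        linarith
    linarith

/-- the pointwise bound above for the product of two weights -/
lemma pt_pair {K J m : ℕ} {R τ H : ℝ} (hm : m ≤ K) (hJ : 20 * ((K + 1) * R) ≤ J)
    (hd : (3 / 5 : ℝ) ^ J ≤ 1 / 10) (Y Y' : ℂ) (y y' : ℕ → ℂ)
    (hY' : Y' = ∑ l ∈ Finset.range K, y' l) :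
    Gf K R τ H Y y * Gf K R τ H Y' y' ≤ (1 - (3 / 5) ^ J)⁻¹ ^ 2 * Real.exp (2 * τ * (K - m)) *
      ‖EJ (Y + ∑ l ∈ Finset.range m, y' l) J‖ ^ 2 := by
  set d : ℝ := (3 / 5) ^ J with hdd
  have hd0 : 0 < d := by positivity
  have hd1 : 0 < 1 - d := by linarith
  have hR0 : 0 ≤ (1 - d)⁻¹ ^ 2 * Real.exp (2 * τ * (K - m)) *
      ‖EJ (Y + ∑ l ∈ Finset.range m, y' l) J‖ ^ 2 := by positivity
  by_cases h1 : Om K R τ H Y y
  · by_cases h2 : Om K R τ H Y' y'
    · unfold Gf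
      rw [if_pos h1, if_pos h2]
      set W := Y + ∑ l ∈ Finset.range m, y' l with hW
      have hWn : 20 * ‖W‖ ≤ J := by
        have h3 : ‖∑ l ∈ Finset.range m, y' l‖ ≤ K * R := by
          refine (norm_sum_le _ _).trans ?_
          have h4 : ∑ l ∈ Finset.range m, ‖y' l‖ ≤ ∑ _l ∈ Finset.range m, R := by
            apply Finset.sum_le_sum
            intro l hl
            rw [Finset.mem_range] at hl
            exact (h2.2.1 l (by omega)).1
          refine h4.trans ?_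
          rw [Finset.sum_const, Finset.card_range, nsmul_eq_mul]
          apply mul_le_mul_of_nonneg_right _ ((norm_nonneg _).trans h1.1)
          exact_mod_cast hm
        have h5 := norm_add_le Y (∑ l ∈ Finset.range m, y' l)
        rw [← hW] at h5
        have h6 := h1.1
        linarith
      have h3 := EJ_lo hWn
      rw [← hdd] at h3
      have h4 : Y.re + Y'.re ≤ W.re + τ * (K - m) := by
        have h5 : Y' = (∑ l ∈ Finset.range m, y' l) + ∑ l ∈ Finset.Ico m K, y' l := by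
          rw [hY', Finset.sum_range_add_sum_Ico _ hm]
        have h6 : (∑ l ∈ Finset.Ico m K, y' l).re ≤ τ * (K - m) := by
          rw [Complex.re_sum]
          calc ∑ l ∈ Finset.Ico m K, (y' l).re ≤ ∑ _l ∈ Finset.Ico m K, τ := by
                apply Finset.sum_le_sum
                intro l hl
                rw [Finset.mem_Ico] at hl
                exact (h2.2.1 l hl.2).2
            _ = τ * (K - m) := by
                rw [Finset.sum_const, Nat.card_Ico, nsmul_eq_mul, Nat.cast_sub hm]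
                ring
        rw [hW, h5, Complex.add_re, Complex.add_re]
        linarith
      have h5 : (Real.exp W.re) ^ 2 ≤ ((1 - d)⁻¹ * ‖EJ W J‖) ^ 2 := by
        apply pow_le_pow_left₀ (Real.exp_pos _).le
        rw [inv_mul_eq_div, le_div_iff₀ hd1, mul_comm]
        exact h3
      rw [sq_exp, mul_pow] at h5
      have h6 : Real.exp (2 * Y.re) * Real.exp (2 * Y'.re) ≤
          Real.exp (2 * τ * (K - m)) * Real.exp (2 * W.re) := by
        rw [← Real.exp_add, ← Real.exp_add]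
        apply Real.exp_le_exp.2
        linarith
      calc _ ≤ Real.exp (2 * τ * (K - m)) * Real.exp (2 * W.re) := h6
        _ ≤ Real.exp (2 * τ * (K - m)) * ((1 - d)⁻¹ ^ 2 * ‖EJ W J‖ ^ 2) := by gcongr
        _ = _ := by ring
    · have : Gf K R τ H Y' y' = 0 := by unfold Gf; rw [if_neg h2]
      rw [this, mul_zero]
      exact hR0
  · have : Gf K R τ H Y y = 0 := by unfold Gf; rw [if_neg h1]
    rw [this, zero_mul]
    exact hR0

/-- the second moment method -/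
lemma pz {T : ℝ} (hT : 0 ≤ T) (S : Finset ℕ) (G l : ℕ → ℝ → ℝ) (q : ℕ → ℕ → ℝ → ℝ)
    (hl : ∀ c ∈ S, Continuous (l c)) (hq : ∀ c ∈ S, ∀ c' ∈ S, Continuous (q c c'))
    (h1 : ∀ c ∈ S, ∀ t, l c t ≤ G c t)
    (h2 : ∀ c ∈ S, ∀ c' ∈ S, ∀ t, G c t * G c' t ≤ q c c' t) {μ : ℝ} (hμ : 0 < μ) :
    μ ^ 2 * ms T {t | ∀ c ∈ S, G c t = 0} ≤ (∑ c ∈ S, ∑ c' ∈ S, ∫ t in T..(2 * T), q c c' t) -
      2 * μ * (∑ c ∈ S, ∫ t in T..(2 * T), l c t) + μ ^ 2 * T := by
  set Ψ : ℝ → ℝ := fun t => (∑ c ∈ S, ∑ c' ∈ S, q c c' t) - 2 * μ * (∑ c ∈ S, l c t) + μ ^ 2 with hΨ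
  have hQc : Continuous fun t => ∑ c ∈ S, ∑ c' ∈ S, q c c' t := by
    apply continuous_finsetSum
    intro c hc
    apply continuous_finsetSum
    intro c' hc'
    exact hq c hc c' hc'
  have hLc : Continuous fun t => ∑ c ∈ S, l c t := continuous_finsetSum _ fun c hc => hl c hc
  have hΨc : Continuous Ψ := (hQc.sub (continuous_const.mul hLc)).add continuous_const
  have key : ∀ t, ((∑ c ∈ S, G c t) - μ) ^ 2 ≤ Ψ t := by
    intro t
    have e1 : (∑ c ∈ S, G c t) * (∑ c ∈ S, G c t) ≤ ∑ c ∈ S, ∑ c' ∈ S, q c c' t := by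
      rw [Finset.sum_mul_sum]
      apply Finset.sum_le_sum
      intro c hc
      apply Finset.sum_le_sum
      intro c' hc'
      exact h2 c hc c' hc' t
    have e2 : ∑ c ∈ S, l c t ≤ ∑ c ∈ S, G c t := Finset.sum_le_sum fun c hc => h1 c hc t
    have e3 : μ * ∑ c ∈ S, l c t ≤ μ * ∑ c ∈ S, G c t := mul_le_mul_of_nonneg_left e2 hμ.le
    rw [hΨ]
    simp only
    nlinarith
  have hΨ0 : ∀ t, 0 ≤ Ψ t := fun t => (sq_nonneg _).trans (key t)
  have hm := ms_markov hT hΨc hΨ0 (c := μ ^ 2)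
  have hsub : ms T {t | ∀ c ∈ S, G c t = 0} ≤ ms T {t | μ ^ 2 ≤ Ψ t} := by
    apply ms_mono
    intro t _ _ ht
    have h3 := key t
    have h4 : ∑ c ∈ S, G c t = 0 := Finset.sum_eq_zero ht
    rw [h4] at h3
    show μ ^ 2 ≤ Ψ t
    linarith
  have hc2 : Continuous fun t => 2 * μ * (∑ c ∈ S, l c t) := continuous_const.mul hLc
  have hc1 : Continuous fun t => (∑ c ∈ S, ∑ c' ∈ S, q c c' t) - 2 * μ * (∑ c ∈ S, l c t) :=
    hQc.sub hc2
  have i1 : ∫ t in T..(2 * T), ∑ c ∈ S, ∑ c' ∈ S, q c c' t =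
      ∑ c ∈ S, ∑ c' ∈ S, ∫ t in T..(2 * T), q c c' t := by
    rw [intervalIntegral.integral_finsetSum]
    · apply Finset.sum_congr rfl
      intro c hc
      rw [intervalIntegral.integral_finsetSum]
      intro c' hc'
      exact (hq c hc c' hc').intervalIntegrable _ _
    · intro c hc
      exact (continuous_finsetSum _ fun c' hc' => hq c hc c' hc').intervalIntegrable _ _
  have i2 : ∫ t in T..(2 * T), ∑ c ∈ S, l c t = ∑ c ∈ S, ∫ t in T..(2 * T), l c t := by
    rw [intervalIntegral.integral_finsetSum]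
    intro c hc
    exact (hl c hc).intervalIntegrable _ _
  have hint : ∫ t in T..(2 * T), Ψ t = (∑ c ∈ S, ∑ c' ∈ S, ∫ t in T..(2 * T), q c c' t) -
      2 * μ * (∑ c ∈ S, ∫ t in T..(2 * T), l c t) + μ ^ 2 * T := by
    have e : ∫ t in T..(2 * T), Ψ t = ∫ t in T..(2 * T),
        ((∑ c ∈ S, ∑ c' ∈ S, q c c' t) - 2 * μ * (∑ c ∈ S, l c t) + μ ^ 2) := rfl
    rw [e, intervalIntegral.integral_add (hc1.intervalIntegrable _ _) intervalIntegrable_const,
      intervalIntegral.integral_sub (hQc.intervalIntegrable _ _) (hc2.intervalIntegrable _ _),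
      intervalIntegral.integral_const_mul, intervalIntegral.integral_const, smul_eq_mul, i1, i2]
    ring
  rw [← hint]
  exact (mul_le_mul_of_nonneg_left hsub (by positivity)).trans hm

end Pool.Agent.T9h26.TD
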